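import Pool.Agent.P.MP_7211b7_an.DefsL

/-! Assembly of the highest weight data. -/

open MeasureTheory ComplexConjugate Complex
open scoped ENNReal Matrix

set_option linter.unusedSectionVars false

namespace Pool.Agent.P.MP_7211b7_an

variable {G : Type} [Group G] [TopologicalSpace G] [IsTopologicalGroup G] [CompactSpace G]
  [T2Space G] [SecondCountableTopology G] [MeasurableSpace G] [BorelSpace G] {n : ℕ}
  {ρ : G →* Mat n} {t : Submodule ℝ (Mat n)} {B : LinearMap.BilinForm ℝ (Mat n)} {d r : ℕ}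
  {b : Fin d → Mat n} (μ : Measure G) [Hr μ]

namespace Asm

variable {K : Calc ρ} {R : Roots ρ t}

theorem wf_add (L : Lat K R B r) (l m : Fin r → ℤ) (Y : Mat n) :
    (L.wf l + L.wf m) Y = L.wf (l + m) Y := by
  simp [L.wf_apply, pair, mul_add, Finset.sum_add_distrib]

theorem wf_zero (L : Lat K R B r) (Y : Mat n) : (0 : Mat n →ₗ[ℝ] ℝ) Y = L.wf 0 Y := by
  simp [L.wf_apply, pair]

/-- every highest weight is `wf l` on `t` -/
theorem exists_wf (L : Lat K R B r) {lam : Mat n →ₗ[ℝ] ℝ} {φ : C(G, ℂ)} (h : IsPhi K R lam φ) :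
    ∃ l : Fin r → ℤ, ∀ Y ∈ t, lam Y = L.wf l Y := by
  choose l hl using L.int lam φ h
  refine ⟨l, fun Y hY => ?_⟩
  conv_lhs => rw [← L.co_spec Y hY]
  simp [L.wf_apply, pair, hl]

/-- the monoid of highest weights -/
def Lam (L : Lat K R B r) (hF : FEQ K R μ) : AddSubmonoid (Fin r → ℤ) where
  carrier := {l | ∃ φ, IsPhi K R (L.wf l) φ}
  zero_mem' := ⟨1, hF.one.congr fun Y _ => wf_zero L Y⟩
  add_mem' := by
    rintro l m ⟨φ, hφ⟩ ⟨ψ, hψ⟩
    exact ⟨φ * ψ, (hF.mul _ _ _ _ hφ hψ).congr fun Y _ => wf_add L l m Y⟩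

open Classical in
/-- the matrix coefficient of weight `l` -/
noncomputable def ph (L : Lat K R B r) (l : Fin r → ℤ) : C(G, ℂ) :=
  if h : ∃ φ, IsPhi K R (L.wf l) φ then h.choose else 0

theorem ph_spec (L : Lat K R B r) {l : Fin r → ℤ} (h : ∃ φ, IsPhi K R (L.wf l) φ) :
    IsPhi K R (L.wf l) (ph L l) := by
  unfold ph; rw [dif_pos h]; exact h.choose_spec

theorem n2_pos {f : C(G, ℂ)} (hf : f ≠ 0) : 0 < n2 μ f := by
  have h0 : 0 ≤ n2 μ f := integral_nonneg fun _ => by positivity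
  exact lt_of_le_of_ne h0 fun h => hf (eq_zero_of_n2 μ h.symm)

theorem comb_mem (L : Lat K R B r) (x : Fin r → ℝ) : ∑ i, x i • L.c i ∈ t :=
  t.sum_mem fun i _ => t.smul_mem _ (L.c_mem i)

theorem wf_comb (L : Lat K R B r) (l : Fin r → ℤ) (x : Fin r → ℝ) :
    L.wf l (∑ i, x i • L.c i) = pair x l := by
  simp [map_sum, L.wf_c, pair]

/-- the highest weight data -/
noncomputable def hw (L : Lat K R B r) (hL : LIE ρ) (hP : PF ρ) (ht : IsCartan ρ t)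
    (h2 : DER2 K) (hF : FEQ K R μ) (hR : REPRO K R) : HW μ r where
  Λ := Lam μ L hF
  φ := ph L
  d l := (n2 μ (ph L l))⁻¹
  τ x := expG ρ (∑ i, x i • L.c i)
  d_pos l hl := inv_pos.2 (n2_pos μ (ph_spec L hl).ne_zero)
  φ_zero := hF.uniq _ _ _ (ph_spec L (Lam μ L hF).zero_mem)
    (hF.one.congr fun Y _ => wf_zero L Y)
  φ_one l hl := (ph_spec L hl).one
  φ_inv l hl := hF.inv _ _ (ph_spec L hl)
  φ_add l hl m hm := hF.uniq _ _ _ (ph_spec L ((Lam μ L hF).add_mem hl hm))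
    ((hF.mul _ _ _ _ (ph_spec L hl) (ph_spec L hm)).congr fun Y _ => wf_add L l m Y)
  fe l hl a k := by
    rw [hF.fe _ _ (ph_spec L hl), ← mul_assoc]
    have := (n2_pos μ (ph_spec L hl).ne_zero).ne'
    rw [← ofReal_mul, inv_mul_cancel₀ this, ofReal_one, one_mul]
  orth l hl m hm hlm a k := by
    refine hF.orth _ _ _ _ (ph_spec L hl) (ph_spec L hm) ?_ a k
    obtain ⟨i, hi⟩ := Function.ne_iff.1 hlm
    refine ⟨L.c i, L.c_mem i, ?_⟩
    rw [L.wf_c, L.wf_c]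
    exact_mod_cast hi
  τ_cont := hL.exp_cont.comp_continuous (by fun_prop) fun x => ht.le (comb_mem L x)
  φ_τ l hl g x := by
    have h := h2.expR _ (ht.le (comb_mem L x)) _ (ph_spec L hl).mem _
      ((ph_spec L hl).wtR _ (comb_mem L x)) g
    rw [h, wf_comb, mul_comm]
  mul_mem l hl m hm h hh h' hh' := by
    refine hR.memL _ _ _ (ph_spec L ((Lam μ L hF).add_mem hl hm)) ?_
    exact (hF.mulHW _ _ _ _ (hR.hwL _ _ (ph_spec L hl).toIsHW h hh)
      (hR.hwL _ _ (ph_spec L hm).toIsHW h' hh')).congr fun Y _ => wf_add L l m Y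
  fin l hl := by
    obtain ⟨V, hV, hm, -, hinv⟩ := hP.locfin _ (ph_spec L hl).mem
    refine Submodule.finiteDimensional_of_le (S₂ := V) (Submodule.span_le.2 ?_)
    rintro _ ⟨q, rfl⟩
    exact hinv _ _ _ hm

theorem En_le (θ ℓ : Fin r → ℝ) :
    ∃ C : ℝ, 0 < C ∧ ∀ l : Fin r → ℤ, 1 + En θ ℓ l ≤ C * (1 + ‖l‖) ^ 2 := by
  refine ⟨1 + ∑ i, |θ i| + ∑ i, |ℓ i|, by positivity, fun l => ?_⟩
  have hl : ∀ i, |(l i : ℝ)| ≤ ‖l‖ := fun i => by
    simpa [Int.norm_eq_abs] using norm_le_pi_norm l i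
  have h0 := norm_nonneg l
  have h1 : ∑ i, θ i * (l i : ℝ) ^ 2 ≤ (∑ i, |θ i|) * (1 + ‖l‖) ^ 2 := by
    rw [Finset.sum_mul]
    refine Finset.sum_le_sum fun i _ => ?_
    have h3 : (l i : ℝ) ^ 2 ≤ (1 + ‖l‖) ^ 2 := by
      rw [← sq_abs]; exact pow_le_pow_left₀ (abs_nonneg _) (by linarith [hl i]) 2
    exact (mul_le_mul_of_nonneg_right (le_abs_self _) (sq_nonneg _)).trans
      (mul_le_mul_of_nonneg_left h3 (abs_nonneg _))
  have h2 : pair ℓ l ≤ (∑ i, |ℓ i|) * (1 + ‖l‖) ^ 2 := by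
    unfold pair
    rw [Finset.sum_mul]
    refine Finset.sum_le_sum fun i _ => ?_
    refine (le_abs_self _).trans ?_
    rw [abs_mul]
    exact mul_le_mul_of_nonneg_left ((hl i).trans (by nlinarith)) (abs_nonneg _)
  unfold En
  nlinarith

end Asm

open Asm in
theorem asm {K : Calc ρ} {R : Roots ρ t} (L : Lat K R B r) (hL : LIE ρ) (hP : PF ρ)
    (ht : IsCartan ρ t) (hB : IsMetric ρ B) (h2 : DER2 K) (hF : FEQ K R μ) (hR : REPRO K R)
    (hC : COMPL K R) (h1 : CAS1 K B b) (hc2 : CAS2 L b) (hG : GROW K R b) (hcone : CONE K R)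
    (hfam : FAMS) (hbasic : ∀ H : HW μ r, BASIC μ H) :
    ∃ (H : HW μ r) (θ ℓ : Fin r → ℝ), (∀ i, 0 < θ i) ∧ Growth μ H (2 * R.N) ∧ Cover H.Λ ∧
      Spec ρ b H θ ℓ := by
  obtain ⟨ℓ, hℓ⟩ := hc2
  set θ : Fin r → ℝ := fun i => (B (L.c i) (L.c i))⁻¹ with hθ
  have hBc : ∀ i, 0 < B (L.c i) (L.c i) := fun i => hB.pos _ (ht.le (L.c_mem i)) (L.c_ne i)
  let H := hw μ L hL hP ht h2 hF hR
  have hφ : ∀ l ∈ H.Λ, IsPhi K R (L.wf l) (H.φ l) := fun l hl => ph_spec L hl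
  have hnn : ∀ l ∈ H.Λ, 0 ≤ En θ ℓ l := fun l hl => by
    have := (h1.real _ (hφ l hl).mem (hφ l hl).ne_zero _ (hℓ l _ (hφ l hl))).2
    simpa using this
  refine ⟨H, θ, ℓ, fun i => inv_pos.2 (hBc i), ?_, ?_, ?_, ?_, hnn, ?_⟩
  · obtain ⟨C, hC0, hC⟩ := hG
    obtain ⟨C', hC', hE⟩ := En_le θ ℓ
    refine ⟨C * C' ^ R.N, by positivity, fun l hl => ?_⟩
    rw [(hbasic H).rankR l hl]
    refine (hC _ _ _ (hφ l hl).toIsHW (hφ l hl).ne_zero (hℓ l _ (hφ l hl))).trans ?_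
    rw [mul_assoc, pow_mul, ← mul_pow]
    exact mul_le_mul_of_nonneg_left
      (pow_le_pow_left₀ (by linarith [hnn l hl]) (hE l) _) hC0.le
  · obtain ⟨J, _, ω, hω, hcone⟩ := hcone
    choose ψ hψ using hω
    choose w hw using fun j => exists_wf L (hψ j)
    refine hfam r H.Λ J w (fun j => ⟨ψ j, (hψ j).congr (hw j)⟩) fun l hl => ?_
    obtain ⟨s, hs, hs'⟩ := hcone _ _ (hφ l hl)
    refine ⟨s, hs, fun i => ?_⟩
    rw [← L.wf_c l i, hs' _ (L.c_mem i)]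
    refine Finset.sum_congr rfl fun j _ => ?_
    rw [hw j _ (L.c_mem i), L.wf_c]
  · exact fun l hl => h1.eig _ (hφ l hl).mem _ (hℓ l _ (hφ l hl))
  · refine hP.dense.mono fun f hf => ?_
    refine Submodule.span_mono ?_ (hC f hf)
    rintro _ ⟨lam, φ, a, k, hφ', rfl⟩
    obtain ⟨l, hl⟩ := exists_wf L hφ'
    have hl' : l ∈ H.Λ := ⟨φ, hφ'.congr hl⟩
    refine ⟨l, hl', ?_⟩
    rw [hF.uniq _ _ _ (hφ l hl') (hφ'.congr hl)]
    exact Submodule.subset_span ⟨(a, k), rfl⟩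
  · set β := ∑ i, B (L.c i) (L.c i) with hβ
    have hβ0 : 0 ≤ β := Finset.sum_nonneg fun i _ => (hBc i).le
    refine ⟨2 * (1 + β), by positivity, fun l hl => ?_⟩
    have hE := hnn l hl
    have hi : ∀ i, ((l i : ℝ)) ^ 2 ≤ β * En θ ℓ l := fun i => by
      have h3 := (hφ l hl).wtR _ (L.c_mem i)
      rw [L.wf_c] at h3
      refine (h1.wb _ (hφ l hl).mem (hφ l hl).ne_zero _ _ (hℓ l _ (hφ l hl)) _
        (ht.le (L.c_mem i)) h3).trans (mul_le_mul_of_nonneg_right ?_ hE)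
      exact Finset.single_le_sum (f := fun i => B (L.c i) (L.c i)) (fun i _ => (hBc i).le)
        (Finset.mem_univ i)
    have hn : ‖l‖ ≤ Real.sqrt (β * En θ ℓ l) := by
      refine (pi_norm_le_iff_of_nonneg (Real.sqrt_nonneg _)).2 fun i => ?_
      rw [Int.norm_eq_abs]
      exact Real.abs_le_sqrt (hi i)
    have hn2 : ‖l‖ ^ 2 ≤ β * En θ ℓ l := by
      have := pow_le_pow_left₀ (norm_nonneg l) hn 2
      rwa [Real.sq_sqrt (by positivity)] at this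
    nlinarith [sq_nonneg (1 - ‖l‖), mul_nonneg hβ0 hE]

end Pool.Agent.P.MP_7211b7_an
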