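import Pool.Agent.P.MP_7211b7_an.DefsA

/-!
# The Bourgain-Guth recursion
-/

open MeasureTheory
open scoped ENNReal

namespace Pool.Agent.P.MP_7211b7_an

namespace BG

theorem eL_pow {X : Type} [MeasurableSpace X] {p : ℝ} (hp : 0 < p) (ν : Measure X) (f : X → ℂ) :
    eLpNorm' f p ν ^ p = ∫⁻ x, ‖f x‖ₑ ^ p ∂ν :=
  (lintegral_rpow_enorm_eq_rpow_eLpNorm' hp).symm

theorem eL_rpow {X : Type} [MeasurableSpace X] {p : ℝ} (hp : 0 < p) (ν : Measure X) (f : X → ℂ)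
    (t : ℝ) : eLpNorm' f p ν ^ (p * t) = (∫⁻ x, ‖f x‖ₑ ^ p ∂ν) ^ t := by
  rw [ENNReal.rpow_mul, eL_pow hp]

theorem sq_pow {X ι : Type} [MeasurableSpace X] {p : ℝ} (hp : 0 < p) (ν : Measure X)
    (J : Finset ι) (F : ι → X → ℂ) :
    sq p ν J F ^ p = (∑ j ∈ J, (∫⁻ x, ‖F j x‖ₑ ^ p ∂ν) ^ (2 / p)) ^ (p / 2) := by
  unfold sq
  rw [← ENNReal.rpow_mul]
  congr 1
  · refine Finset.sum_congr rfl fun j _ => ?_
    rw [← eL_rpow hp, ← ENNReal.rpow_natCast]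
    congr 1
    field_simp
    norm_num
  · ring

theorem sum_rpow_le {ι : Type} {q : ℝ} (hq : 1 ≤ q) (J : Finset ι) (u : ι → ℝ≥0∞) :
    ∑ j ∈ J, u j ^ q ≤ (∑ j ∈ J, u j) ^ q := by
  classical
  induction J using Finset.induction_on with
  | empty => simp
  | insert a s ha ih =>
    rw [Finset.sum_insert ha, Finset.sum_insert ha]
    exact (add_le_add le_rfl ih).trans (ENNReal.add_rpow_le_rpow_add _ _ hq)

theorem sum_le_sq {X ι : Type} [MeasurableSpace X] {p : ℝ} (hp : 2 ≤ p) (ν : Measure X)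
    (J : Finset ι) (F : ι → X → ℂ) :
    ∑ j ∈ J, ∫⁻ x, ‖F j x‖ₑ ^ p ∂ν ≤ sq p ν J F ^ p := by
  have hp0 : 0 < p := by linarith
  rw [sq_pow hp0]
  refine le_trans (le_of_eq ?_) (sum_rpow_le (q := p / 2) (by linarith) J _)
  refine Finset.sum_congr rfl fun j _ => ?_
  rw [← ENNReal.rpow_mul]
  have : 2 / p * (p / 2) = 1 := by field_simp
  rw [this, ENNReal.rpow_one]

theorem DD_le {n : ℕ} {ι : Type} {p : ℝ} (hp : 0 < p) (ν : Measure (Sp n)) (J : Finset ι)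
    (F : ι → Sp n → ℂ) (J' : Fin (n + 1) → Finset ι) (hJ : ∀ i, J' i ⊆ J) :
    DD p ν J' (fun _ => F) ≤ sq p ν J F ^ p := by
  unfold DD
  calc ∏ i, sq p ν (J' i) F ^ (p / (n + 1 : ℝ))
      ≤ ∏ _i : Fin (n + 1), sq p ν J F ^ (p / (n + 1 : ℝ)) :=
        Finset.prod_le_prod' fun i _ => ENNReal.rpow_le_rpow (sq_mono p ν (hJ i) F) (by positivity)
    _ = sq p ν J F ^ p := by
        rw [Finset.prod_const, Finset.card_univ, Fintype.card_fin, ← ENNReal.rpow_natCast,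
          ← ENNReal.rpow_mul]
        congr 1
        push_cast
        field_simp

theorem meas_pow {n : ℕ} {f : Sp n → ℂ} (hf : Continuous f) (p : ℝ) :
    Measurable (fun y => ‖f y‖ₑ ^ p) :=
  hf.measurable.enorm.pow_const p

theorem lint_wm {n : ℕ} (b : ℕ) (R p : ℝ) {f : Sp n → ℂ} (hf : Continuous f) (x0 : Sp n) :
    ∫⁻ x, ‖f (x0 + x)‖ₑ ^ p ∂(wm n b R) = av b R (fun y => ‖f y‖ₑ ^ p) x0 :=
  lintegral_wm b R (meas_pow hf p) x0

theorem grp_translate {n : ℕ} {ι : Type} (J : Finset ι) (h : ι → ι) (F : ι → Sp n → ℂ)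
    (x0 : Sp n) (k : ι) (x : Sp n) :
    grp J h (fun j x => F j (x0 + x)) k x = grp J h F k (x0 + x) := by
  unfold grp
  simp only [Finset.sum_apply]

theorem grouping {n : ℕ} {ι : Type} (hG : GROUP) (J : Finset ι) (c : ι → Eu n) {ρ σ : ℝ}
    (hρ : 0 < ρ) (hσ : σ ≤ ρ / 2) :
    ∃ g : ι → ι, Grouping ρ σ J c g ∧ ∀ j ∈ J, ‖c j - c (g j)‖ ≤ ρ / 2 := by
  obtain ⟨g, h1, h2, h3⟩ := hG n ι J c (ρ / 2) (by linarith)
  exact ⟨g, ⟨h1, fun j hj => by linarith [h2 j hj], h3⟩, h2⟩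

open Classical in
/-- the local inequality, for all centres at once -/
theorem loc (hB : BGLOC) (r : ℕ) (p : ℝ) (hp : 2 ≤ p) :
    ∃ C : ℝ, 0 < C ∧ ∀ w : ℝ, 0 < w → w ≤ 1 / 4 → ∃ Λ : ℝ,
    ∀ (b : ℕ) (κ D : ℝ), r + 3 ≤ b → 0 < κ → κ ≤ w / 2 → 0 ≤ D → Dec r p b (2 * w) D →
      ∀ (ι : Type) (J : Finset ι) (c : ι → Eu (r + 1)) (F : ι → Sp (r + 1) → ℂ) (h : ι → ι),
        Fam κ J c F → Grouping w κ J c h →
        ∃ T : Finset (Fin (r + 1 + 1) → ι),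
          (∀ τ ∈ T, (∀ i, τ i ∈ J) ∧ Transv Λ (fun i => c (τ i))) ∧ T.card ≤ J.card ^ (r + 2) ∧
          ∀ x0 : Sp (r + 1),
          av b (w ^ 2)⁻¹ (fun y => ‖(∑ j ∈ J, F j) y‖ₑ ^ p) x0 ≤ ENNReal.ofReal C *
            (ENNReal.ofReal (1 + D) ^ p *
              ((∑ k ∈ img J h, av b (w ^ 2)⁻¹ (fun y => ‖grp J h F k y‖ₑ ^ p) x0 ^ (2 / p))
                  ^ (p / 2) +
                ∑ j ∈ J, av b (w ^ 2)⁻¹ (fun y => ‖F j y‖ₑ ^ p) x0) +
            (J.card : ℝ≥0∞) ^ (2 * p) *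
              ∑ τ ∈ T, ∏ i, av b (w ^ 2)⁻¹ (fun y => ‖F (τ i) y‖ₑ ^ p) x0
                ^ (1 / ((r + 1 : ℕ) + 1 : ℝ))) := by
  have hp0 : 0 < p := by linarith
  obtain ⟨C, hC, h1⟩ := hB r p hp
  refine ⟨C, hC, fun w hw hw' => ?_⟩
  obtain ⟨Λ, h2⟩ := h1 w hw hw'
  refine ⟨Λ, fun b κ D hb hκ hκ' hD hDec ι J c F h hF hh => ?_⟩
  refine ⟨(Fintype.piFinset (fun _ : Fin (r + 1 + 1) => J)).filter
    (fun τ => Transv Λ (fun i => c (τ i))), fun τ hτ => ?_, ?_, fun x0 => ?_⟩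
  · rw [Finset.mem_filter, Fintype.mem_piFinset] at hτ
    exact hτ
  · refine (Finset.card_filter_le _ _).trans (le_of_eq ?_)
    rw [Fintype.card_piFinset, Finset.prod_const, Finset.card_univ, Fintype.card_fin]
  have h3 := h2 b κ D hb hκ hκ' hD hDec ι J c (fun j x => F j (x0 + x)) h (hF.translate x0) hh
  have hFg := hF.group hh hκ.le
  have hs : Continuous (∑ j ∈ J, F j) := by
    have : (∑ j ∈ J, F j) = fun x => ∑ j ∈ J, F j x := by funext x; simp only [Finset.sum_apply]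
    rw [this]
    exact continuous_finsetSum _ fun j hj => hF.continuous hj
  have e1 : eLpNorm' (∑ j ∈ J, fun x => F j (x0 + x)) p (wm (r + 1) b (w ^ 2)⁻¹) ^ p
      = av b (w ^ 2)⁻¹ (fun y => ‖(∑ j ∈ J, F j) y‖ₑ ^ p) x0 := by
    rw [eL_pow hp0, ← lint_wm b _ p hs]
    simp only [Finset.sum_apply]
  have e2 : sq p (wm (r + 1) b (w ^ 2)⁻¹) (img J h) (grp J h (fun j x => F j (x0 + x))) ^ p
      = (∑ k ∈ img J h, av b (w ^ 2)⁻¹ (fun y => ‖grp J h F k y‖ₑ ^ p) x0 ^ (2 / p))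
        ^ (p / 2) := by
    rw [sq_pow hp0]
    congr 1
    refine Finset.sum_congr rfl fun k hk => ?_
    rw [← lint_wm b _ p (hFg.continuous hk)]
    simp only [grp_translate]
  have e3 : ∑ j ∈ J, eLpNorm' (fun x => F j (x0 + x)) p (wm (r + 1) b (w ^ 2)⁻¹) ^ p
      = ∑ j ∈ J, av b (w ^ 2)⁻¹ (fun y => ‖F j y‖ₑ ^ p) x0 := by
    refine Finset.sum_congr rfl fun j hj => ?_
    rw [eL_pow hp0, lint_wm b _ p (hF.continuous hj)]
  rw [e1, e2, e3] at h3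
  refine h3.trans (le_of_eq ?_)
  congr 3
  refine Finset.sum_congr rfl fun τ hτ => Finset.prod_congr rfl fun i _ => ?_
  rw [Finset.mem_filter, Fintype.mem_piFinset] at hτ
  rw [← mul_one_div, eL_rpow hp0, lint_wm b _ p (hF.continuous (hτ.1 i))]

theorem ofReal_root {C p : ℝ} (hC : 0 < C) (hp : 0 < p) :
    ENNReal.ofReal (C ^ (1 / p)) ^ p = ENNReal.ofReal C := by
  rw [ENNReal.ofReal_rpow_of_nonneg (by positivity) hp.le, ← Real.rpow_mul hC.le,
    one_div_mul_cancel hp.ne', Real.rpow_one]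

end BG

open BG

theorem bg : PACK → GROUP → W2 → W3b → RESC → BGLOC → BG := by
  intro hP hG hW2 hW3 hR hB r A p hp
  have hp0 : 0 < p := by linarith
  have hp1 : 1 ≤ p := by linarith
  obtain ⟨CB, hCB, hloc⟩ := loc hB r p hp
  obtain ⟨C2, hC2, h2⟩ := hW2 (r + 1) (bexp (r + 1) A) A (by unfold bexp; omega)
  obtain ⟨C3, hC3, h3⟩ := hW3 (r + 1) (bexp (r + 1) A) A
  refine ⟨(C3 * CB * C2) ^ (1 / p), by positivity, fun w hw hw' => ?_⟩
  obtain ⟨Λ, hloc⟩ := hloc w hw hw'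
  refine ⟨Λ, fun κ hκ hκ' => ?_⟩
  set M : ℝ := (1 + 2 * (1 / 2) / (κ / 2)) ^ (r + 1) with hM
  have hM0 : 0 < M := by positivity
  refine ⟨(C3 * CB * (M ^ (2 * p) * M ^ (r + 2))) ^ (1 / p), by positivity, ?_⟩
  intro σ D D1 D2 K hσ hσ' hD hD1 hD2 hK hDec hDec1 hDec2 hML ι J c F ν hν hMod hF
  classical
  set b := bexp (r + 1) A with hb
  have hR0 : (0 : ℝ) < (w ^ 2)⁻¹ := by positivity
  have hsR : σ ^ 2 * (w ^ 2)⁻¹ ≤ 1 := by
    rw [← div_eq_mul_inv, div_le_one (by positivity)]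
    exact pow_le_pow_left₀ hσ.le (by linarith) 2
  obtain ⟨g, hg, hg'⟩ := grouping hG J c hκ hσ'
  have hFa := hF.group hg hσ.le
  obtain ⟨h, hh, hh'⟩ := grouping hG (img J g) c hw hκ'
  have hFb := hFa.group hh hκ.le
  obtain ⟨T, hT1, hT2, hT3⟩ := hloc b κ D (by rw [hb]; unfold bexp; omega) hκ hκ' hD hDec ι
    (img J g) c (grp J g F) h hFa hh
  rw [sum_grp] at hT3
  set S := sq p ν J F with hS
  have hs : Continuous (∑ j ∈ J, F j) := by
    have : (∑ j ∈ J, F j) = fun x => ∑ j ∈ J, F j x := by funext x; simp only [Finset.sum_apply]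
    rw [this]
    exact continuous_finsetSum _ fun j hj => hF.continuous hj
  have hw2 : ∀ f : Sp (r + 1) → ℂ, Continuous f →
      ∫⁻ x, av b (w ^ 2)⁻¹ (fun y => ‖f y‖ₑ ^ p) x ∂ν
        ≤ ENNReal.ofReal C2 * ∫⁻ x, ‖f x‖ₑ ^ p ∂ν := fun f hf =>
    h2 _ _ ν _ hR0 (by positivity) hsR hν hMod (meas_pow hf p)
  have hma : ∀ j ∈ img J g, Measurable (av b (w ^ 2)⁻¹ (fun y => ‖grp J g F j y‖ₑ ^ p)) :=
    fun j hj => measurable_av _ _ (meas_pow (hFa.continuous hj) p)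
  have hmb : ∀ k ∈ img (img J g) h,
      Measurable (av b (w ^ 2)⁻¹ (fun y => ‖grp (img J g) h (grp J g F) k y‖ₑ ^ p)) :=
    fun k hk => measurable_av _ _ (meas_pow (hFb.continuous hk) p)
  -- the three terms
  have t1 : ∫⁻ x, (∑ k ∈ img (img J g) h,
      av b (w ^ 2)⁻¹ (fun y => ‖grp (img J g) h (grp J g F) k y‖ₑ ^ p) x ^ (2 / p)) ^ (p / 2) ∂ν
        ≤ ENNReal.ofReal C2 * (ENNReal.ofReal D1 * S) ^ p := by
    refine (mink ν hp _ _ hmb).trans ?_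
    have hres : sq p ν (img (img J g) h) (grp (img J g) h (grp J g F))
        ≤ ENNReal.ofReal D1 * S := by
      rw [img_comp, grp_comp]
      refine hR (r + 1) p A σ (2 * w) D1 hp1 hσ (by linarith) (by linarith) hDec1 ι J c F (h ∘ g) ν
        hν hMod hF fun j hj => ?_
      have hj' : g j ∈ img J g := mem_img.2 ⟨j, hj, rfl⟩
      obtain ⟨j', hj'', e⟩ := mem_img.1 (hh.maps _ hj')
      refine ⟨by rw [Function.comp_apply, ← e]; exact hg.maps _ hj'', ?_⟩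
      have a1 := hg' j hj
      have a2 := hh' _ hj'
      calc ‖c j - c ((h ∘ g) j)‖ = ‖(c j - c (g j)) + (c (g j) - c (h (g j)))‖ := by
            congr 1; simp only [Function.comp_apply]; abel
        _ ≤ ‖c j - c (g j)‖ + ‖c (g j) - c (h (g j))‖ := norm_add_le _ _
        _ ≤ 2 * w / 2 := by linarith
    refine le_trans ?_ (mul_le_mul_right (ENNReal.rpow_le_rpow hres hp0.le) _)
    rw [sq_pow hp0]
    have e : ENNReal.ofReal C2 = (ENNReal.ofReal C2 ^ (2 / p)) ^ (p / 2) := by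
      rw [← ENNReal.rpow_mul]
      have : 2 / p * (p / 2) = 1 := by field_simp
      rw [this, ENNReal.rpow_one]
    rw [e, ← ENNReal.mul_rpow_of_nonneg _ _ (by positivity), Finset.mul_sum]
    refine ENNReal.rpow_le_rpow (Finset.sum_le_sum fun k hk => ?_) (by positivity)
    rw [← ENNReal.mul_rpow_of_nonneg _ _ (by positivity)]
    exact ENNReal.rpow_le_rpow (hw2 _ (hFb.continuous hk)) (by positivity)
  have t2 : ∫⁻ x, ∑ j ∈ img J g, av b (w ^ 2)⁻¹ (fun y => ‖grp J g F j y‖ₑ ^ p) x ∂ν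
      ≤ ENNReal.ofReal C2 * (ENNReal.ofReal D2 * S) ^ p := by
    rw [lintegral_finsetSum _ hma]
    have hres : sq p ν (img J g) (grp J g F) ≤ ENNReal.ofReal D2 * S :=
      hR (r + 1) p A σ κ D2 hp1 hσ hκ (by linarith) hDec2 ι J c F g ν hν hMod hF
        fun j hj => ⟨hg.maps j hj, hg' j hj⟩
    refine le_trans ?_ (mul_le_mul_right (ENNReal.rpow_le_rpow hres hp0.le) _)
    refine le_trans ?_ (mul_le_mul_right (sum_le_sq hp ν _ _) _)
    rw [Finset.mul_sum]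
    exact Finset.sum_le_sum fun j hj => hw2 _ (hFa.continuous hj)
  have hm3 : ∀ τ ∈ T, Measurable (fun x => ∏ i,
      av b (w ^ 2)⁻¹ (fun y => ‖grp J g F (τ i) y‖ₑ ^ p) x ^ (1 / ((r + 1 : ℕ) + 1 : ℝ))) :=
    fun τ hτ => Finset.measurable_prod _ fun i _ => (hma _ ((hT1 τ hτ).1 i)).pow_const _
  have t3 : ∀ τ ∈ T, ∫⁻ x, ∏ i,
      av b (w ^ 2)⁻¹ (fun y => ‖grp J g F (τ i) y‖ₑ ^ p) x ^ (1 / ((r + 1 : ℕ) + 1 : ℝ)) ∂ν
        ≤ ENNReal.ofReal K ^ p * S ^ p := by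
    intro τ hτ
    obtain ⟨a1, a2⟩ := hT1 τ hτ
    have a3 := hML ι (fun i => c (τ i)) (fun i => J.filter (fun j => g j = τ i)) (fun _ => c)
      (fun _ => F) ν hν hMod a2 (fun i => hFa.norm_le _ (a1 i))
      (fun i => hF.mono (Finset.filter_subset _ _)) (fun i j hj => by
        obtain ⟨hj1, hj2⟩ := Finset.mem_filter.1 hj
        rw [← hj2]
        linarith [hg' j hj1])
    refine le_trans (le_of_eq ?_) (a3.trans (mul_le_mul_right
      (DD_le hp0 ν J F _ fun i => Finset.filter_subset _ _) _))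
    unfold grp
    rfl
  have hcard : ((img J g).card : ℝ) ≤ M :=
    hP (r + 1) ι (img J g) c 0 (κ / 2) (1 / 2) (by linarith) (by norm_num) hFa.sep
      fun j hj => by simpa using hFa.norm_le j hj
  have hcard' : ((img J g).card : ℝ≥0∞) ≤ ENNReal.ofReal M := by
    rw [← ENNReal.ofReal_natCast]; exact ENNReal.ofReal_le_ofReal hcard
  have t3' : ∫⁻ x, ∑ τ ∈ T, ∏ i,
      av b (w ^ 2)⁻¹ (fun y => ‖grp J g F (τ i) y‖ₑ ^ p) x ^ (1 / ((r + 1 : ℕ) + 1 : ℝ)) ∂ν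
        ≤ ENNReal.ofReal M ^ (r + 2) * (ENNReal.ofReal K ^ p * S ^ p) := by
    rw [lintegral_finsetSum _ hm3]
    refine (Finset.sum_le_card_nsmul _ _ _ t3).trans ?_
    rw [nsmul_eq_mul]
    refine mul_le_mul_left ?_ _
    calc (T.card : ℝ≥0∞) ≤ (((img J g).card ^ (r + 2) : ℕ) : ℝ≥0∞) := by exact_mod_cast hT2
      _ = ((img J g).card : ℝ≥0∞) ^ (r + 2) := by push_cast; rfl
      _ ≤ _ := pow_le_pow_left₀ (zero_le) hcard' _
  have hm1 : Measurable (fun x => (∑ k ∈ img (img J g) h,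
      av b (w ^ 2)⁻¹ (fun y => ‖grp (img J g) h (grp J g F) k y‖ₑ ^ p) x ^ (2 / p)) ^ (p / 2)) :=
    (Finset.measurable_sum _ fun k hk => (hmb k hk).pow_const _).pow_const _
  have hm2 : Measurable (fun x =>
      ∑ j ∈ img J g, av b (w ^ 2)⁻¹ (fun y => ‖grp J g F j y‖ₑ ^ p) x) :=
    Finset.measurable_sum _ hma
  have hm3' := Finset.measurable_sum _ hm3
  have main : ∫⁻ x, av b (w ^ 2)⁻¹ (fun y => ‖(∑ j ∈ J, F j) y‖ₑ ^ p) x ∂ν
      ≤ ENNReal.ofReal CB * (ENNReal.ofReal (1 + D) ^ p *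
        (ENNReal.ofReal C2 * (ENNReal.ofReal D1 * S) ^ p +
          ENNReal.ofReal C2 * (ENNReal.ofReal D2 * S) ^ p) +
        ENNReal.ofReal M ^ (2 * p) *
          (ENNReal.ofReal M ^ (r + 2) * (ENNReal.ofReal K ^ p * S ^ p))) := by
    refine (lintegral_mono hT3).trans ?_
    rw [lintegral_const_mul' _ _ ENNReal.ofReal_ne_top,
      lintegral_add_left ((hm1.fun_add hm2).const_mul _), lintegral_const_mul _ (hm1.fun_add hm2),
      lintegral_const_mul _ hm3', lintegral_add_left hm1]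
    refine mul_le_mul_right (add_le_add (mul_le_mul_right (add_le_add t1 t2) _) ?_) _
    exact mul_le_mul' (ENNReal.rpow_le_rpow hcard' (by positivity)) t3'
  have main2 := (h3 _ _ ν _ hR0 (by positivity) hsR hν hMod (meas_pow hs p)).trans
    (mul_le_mul_right main _)
  rw [← eL_pow hp0] at main2
  rw [← ENNReal.rpow_le_rpow_iff hp0]
  refine main2.trans ?_
  set c0 := ENNReal.ofReal ((C3 * CB * C2) ^ (1 / p)) with hc0
  set c1 := ENNReal.ofReal ((C3 * CB * (M ^ (2 * p) * M ^ (r + 2))) ^ (1 / p)) with hc1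
  have e0 : c0 ^ p = ENNReal.ofReal C3 * ENNReal.ofReal CB * ENNReal.ofReal C2 := by
    rw [hc0, ofReal_root (by positivity) hp0, ENNReal.ofReal_mul (by positivity),
      ENNReal.ofReal_mul (by positivity)]
  have e1 : c1 ^ p = ENNReal.ofReal C3 * ENNReal.ofReal CB *
      (ENNReal.ofReal M ^ (2 * p) * ENNReal.ofReal M ^ (r + 2)) := by
    rw [hc1, ofReal_root (by positivity) hp0, ENNReal.ofReal_mul (by positivity),
      ENNReal.ofReal_mul (by positivity), ENNReal.ofReal_mul (by positivity),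
      ENNReal.ofReal_pow hM0.le, ENNReal.ofReal_rpow_of_nonneg hM0.le (by positivity)]
  have e2 : ENNReal.ofReal ((C3 * CB * C2) ^ (1 / p) * (1 + D) * (D1 + D2) +
      (C3 * CB * (M ^ (2 * p) * M ^ (r + 2))) ^ (1 / p) * K) * S
      = c0 * ENNReal.ofReal (1 + D) * (ENNReal.ofReal D1 * S) +
        c0 * ENNReal.ofReal (1 + D) * (ENNReal.ofReal D2 * S) + c1 * ENNReal.ofReal K * S := by
    rw [ENNReal.ofReal_add (by positivity) (by positivity), ENNReal.ofReal_mul (by positivity),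
      ENNReal.ofReal_mul (by positivity), ENNReal.ofReal_mul (by positivity),
      ENNReal.ofReal_add hD1 hD2]
    ring
  rw [e2]
  refine le_trans (le_of_eq ?_) ((add_le_add (ENNReal.add_rpow_le_rpow_add _ _ hp1) le_rfl).trans
    (ENNReal.add_rpow_le_rpow_add _ _ hp1))
  simp only [ENNReal.mul_rpow_of_nonneg _ _ hp0.le, e0, e1]
  ring

end Pool.Agent.P.MP_7211b7_an
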