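import Pool.Agent.P.MP_7211b7_an.DefsA

/-!
# MP_7211b7_an: the local broad-narrow inequality
-/

open MeasureTheory
open scoped ENNReal

namespace Pool.Agent.P.MP_7211b7_an

namespace BGLoc

theorem add_rpow_le (a b : ℝ≥0∞) {p : ℝ} (hp : 0 ≤ p) :
    (a + b) ^ p ≤ 2 ^ p * (a ^ p + b ^ p) := by
  have h : a + b ≤ 2 * max a b := by
    rw [two_mul]; exact add_le_add (le_max_left _ _) (le_max_right _ _)
  calc (a + b) ^ p ≤ (2 * max a b) ^ p := ENNReal.rpow_le_rpow h hp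
    _ = 2 ^ p * (max a b) ^ p := ENNReal.mul_rpow_of_nonneg _ _ hp
    _ ≤ _ := by
      refine mul_le_mul_right ?_ _
      rcases le_total a b with h | h
      · rw [max_eq_right h]; exact le_add_self
      · rw [max_eq_left h]; exact le_self_add

theorem add_sq_le (a b : ℝ≥0∞) : (a + b) ^ 2 ≤ 4 * (a ^ 2 + b ^ 2) := by
  have h := add_rpow_le a b (p := 2) (by norm_num)
  simp only [ENNReal.rpow_two] at h
  refine h.trans (le_of_eq ?_)
  norm_num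

theorem sum_sq_le {ι : Type} (K : Finset ι) (b : ι → ℝ≥0∞) :
    ∑ k ∈ K, b k ^ 2 ≤ (∑ k ∈ K, b k) ^ 2 := by
  rw [pow_two, Finset.sum_mul]
  refine Finset.sum_le_sum fun k hk => ?_
  rw [pow_two]
  exact mul_le_mul_right (Finset.single_le_sum (f := b) (fun _ _ => zero_le) hk) _

theorem half_sq (x : ℝ≥0∞) : (x ^ (1 / 2 : ℝ)) ^ 2 = x := by
  rw [← ENNReal.rpow_two, ← ENNReal.rpow_mul]; norm_num

theorem sq_half (x : ℝ≥0∞) : (x ^ 2) ^ (1 / 2 : ℝ) = x := by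
  rw [← ENNReal.rpow_two, ← ENNReal.rpow_mul]; norm_num

theorem l2_le {ι : Type} {K' K : Finset ι} (hK : K' ⊆ K) (n a b : ι → ℝ≥0∞)
    (hn : ∀ k ∈ K', n k ≤ a k + b k) :
    (∑ k ∈ K', n k ^ 2) ^ (1 / 2 : ℝ)
      ≤ 2 * ((∑ k ∈ K, a k ^ 2) ^ (1 / 2 : ℝ) + ∑ k ∈ K, b k) := by
  set A := (∑ k ∈ K, a k ^ 2) ^ (1 / 2 : ℝ) with hA
  set B := ∑ k ∈ K, b k with hB
  have h1 : ∑ k ∈ K', n k ^ 2 ≤ (2 * (A + B)) ^ 2 := by
    calc ∑ k ∈ K', n k ^ 2 ≤ ∑ k ∈ K', 4 * (a k ^ 2 + b k ^ 2) :=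
          Finset.sum_le_sum fun k hk =>
            (pow_le_pow_left₀ zero_le (hn k hk) 2).trans (add_sq_le _ _)
      _ ≤ ∑ k ∈ K, 4 * (a k ^ 2 + b k ^ 2) := Finset.sum_le_sum_of_subset hK
      _ = 4 * (∑ k ∈ K, a k ^ 2 + ∑ k ∈ K, b k ^ 2) := by
          rw [← Finset.mul_sum, Finset.sum_add_distrib]
      _ ≤ 4 * (A ^ 2 + B ^ 2) := by
          refine mul_le_mul_right (add_le_add ?_ (sum_sq_le K b)) _
          rw [hA, half_sq]
      _ ≤ 4 * (A + B) ^ 2 := by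
          refine mul_le_mul_right ?_ _
          rw [add_sq, add_right_comm]
          exact le_self_add
      _ = (2 * (A + B)) ^ 2 := by rw [mul_pow]; norm_num
  calc _ ≤ ((2 * (A + B)) ^ 2) ^ (1 / 2 : ℝ) := ENNReal.rpow_le_rpow h1 (by norm_num)
    _ = _ := sq_half _

theorem img_mono {ι : Type} {S J : Finset ι} (hS : S ⊆ J) (h : ι → ι) : img S h ⊆ img J h := by
  intro k hk
  obtain ⟨j, hj, rfl⟩ := mem_img.1 hk
  exact mem_img.2 ⟨j, hS hj, rfl⟩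

open Classical in
theorem narrow_sq {X ι : Type} [MeasurableSpace X] (ν : Measure X) {p : ℝ} (hp : 1 ≤ p)
    {S J : Finset ι} (hS : S ⊆ J) (h : ι → ι) (F : ι → X → ℂ)
    (hF : ∀ j ∈ J, AEStronglyMeasurable (F j) ν) :
    sq p ν (img S h) (grp S h F)
      ≤ 2 * (sq p ν (img J h) (grp J h F) + ∑ j ∈ J \ S, eLpNorm' (F j) p ν) := by
  have hsum : ∑ k ∈ img J h, ∑ j ∈ (J \ S).filter (fun j => h j = k), eLpNorm' (F j) p ν
      = ∑ j ∈ J \ S, eLpNorm' (F j) p ν :=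
    Finset.sum_fiberwise_of_maps_to (s := J \ S) (t := img J h) (g := h)
      (fun j hj => mem_img.2 ⟨j, (Finset.mem_sdiff.1 hj).1, rfl⟩) _
  rw [← hsum]
  unfold sq
  refine l2_le (img_mono hS h) _ _ _ fun k _ => ?_
  have hm : ∀ T : Finset ι, T ⊆ J →
      AEStronglyMeasurable (∑ j ∈ T.filter (fun j => h j = k), F j) ν := fun T hT =>
    Finset.aestronglyMeasurable_sum _ fun j hj => hF j (hT (Finset.mem_filter.1 hj).1)
  have e : grp S h F k
      = grp J h F k + -(∑ j ∈ (J \ S).filter (fun j => h j = k), F j) := by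
    unfold grp
    have : J.filter (fun j => h j = k)
        = S.filter (fun j => h j = k) ∪ (J \ S).filter (fun j => h j = k) := by
      rw [← Finset.filter_union, Finset.union_sdiff_of_subset hS]
    rw [this, Finset.sum_union (Finset.disjoint_filter_filter Finset.disjoint_sdiff)]
    abel
  rw [e]
  refine (eLpNorm'_add_le (hm J subset_rfl) (hm _ Finset.sdiff_subset).neg hp).trans ?_
  refine add_le_add le_rfl ?_
  rw [eLpNorm'_neg]
  exact eLpNorm'_sum_le (fun j hj => hF j (Finset.mem_sdiff.1 (Finset.mem_filter.1 hj).1).1) hp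

theorem small_sum {ι : Type} [DecidableEq ι] {J S : Finset ι} (hJ : J.Nonempty) (μ : ι → ℝ≥0∞)
    (m : ℝ≥0∞) (hm : ∀ j ∈ J \ S, (J.card : ℝ≥0∞) * μ j ≤ m) : ∑ j ∈ J \ S, μ j ≤ m := by
  have h0 : (J.card : ℝ≥0∞) ≠ 0 := by exact_mod_cast hJ.card_pos.ne'
  have h1 : (J.card : ℝ≥0∞) ≠ ⊤ := ENNReal.natCast_ne_top _
  rw [← ENNReal.mul_le_mul_iff_right h0 h1, Finset.mul_sum]
  calc ∑ j ∈ J \ S, (J.card : ℝ≥0∞) * μ j ≤ ∑ _j ∈ J \ S, m := Finset.sum_le_sum hm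
    _ = ((J \ S).card : ℝ≥0∞) * m := by rw [Finset.sum_const, nsmul_eq_mul]
    _ ≤ _ := by
      refine mul_le_mul_left ?_ _
      exact_mod_cast Finset.card_le_card Finset.sdiff_subset

theorem broad {n : ℕ} (x N : ℝ≥0∞) (y : Fin (n + 1) → ℝ≥0∞) {p : ℝ} (hp : 0 ≤ p)
    (h : ∀ i, x ≤ N ^ 2 * y i) :
    x ^ p ≤ N ^ (2 * p) * ∏ i, y i ^ (p / ((n : ℝ) + 1)) := by
  have hn : (0 : ℝ) < (n : ℝ) + 1 := by positivity
  have hq : 0 ≤ p / ((n : ℝ) + 1) := by positivity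
  have e : ∀ z : ℝ≥0∞, ∏ _i : Fin (n + 1), z ^ (p / ((n : ℝ) + 1)) = z ^ p := fun z => by
    rw [Finset.prod_const, Finset.card_univ, Fintype.card_fin, ← ENNReal.rpow_natCast,
      ← ENNReal.rpow_mul]
    congr 1
    push_cast
    field_simp
  calc x ^ p = ∏ _i : Fin (n + 1), x ^ (p / ((n : ℝ) + 1)) := (e x).symm
    _ ≤ ∏ i : Fin (n + 1), (N ^ 2 * y i) ^ (p / ((n : ℝ) + 1)) :=
        Finset.prod_le_prod' fun i _ => ENNReal.rpow_le_rpow (h i) hq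
    _ = (∏ _i : Fin (n + 1), (N ^ 2) ^ (p / ((n : ℝ) + 1))) * ∏ i, y i ^ (p / ((n : ℝ) + 1)) := by
        rw [← Finset.prod_mul_distrib]
        exact Finset.prod_congr rfl fun i _ => ENNReal.mul_rpow_of_nonneg _ _ hq
    _ = _ := by rw [e, ← ENNReal.rpow_two, ← ENNReal.rpow_mul]

theorem inner_near {r : ℕ} {x y v : Eu r} {h w δ : ℝ} (hv : ‖v‖ = 1)
    (hx : |inner ℝ x v - h| ≤ w) (hy : ‖y - x‖ ≤ δ) : |inner ℝ y v - h| ≤ w + δ := by
  have h1 : |inner ℝ (y - x) v| ≤ δ := by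
    refine (abs_real_inner_le_norm _ _).trans ?_
    rw [hv, mul_one]; exact hy
  rw [inner_sub_left] at h1
  have e : inner ℝ y v - h = (inner ℝ x v - h) + (inner ℝ y v - inner ℝ x v) := by ring
  rw [e]
  exact (abs_add_le _ _).trans (add_le_add hx h1)

open Classical in
theorem grp_mem {r : ℕ} {ι : Type} {w κ : ℝ} {J S : Finset ι} {c : ι → Eu r}
    {F : ι → Sp r → ℂ} {g : ι → ι} (hF : Fam κ J c F) (hg : Grouping w κ J c g) (hκ : 0 ≤ κ)
    (hS : S ⊆ J) {v : Eu r} {h : ℝ} (hv : ‖v‖ = 1)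
    (hc : ∀ j ∈ S, |inner ℝ (c j) v - h| ≤ w) (k : ι) :
    grp S g F k ∈ Tr (cap (c k) w (w ^ 2) ∩ {ζ | |inner ℝ ζ.1 v - h| ≤ 2 * w}) := by
  unfold grp
  refine Submodule.sum_mem _ fun j hj0 => ?_
  obtain ⟨hj, rfl⟩ := Finset.mem_filter.1 hj0
  refine Tr_mono ?_ (hF.mem j (hS hj))
  rintro ζ ⟨h1, h2⟩
  have h3 := hg.near j (hS hj)
  have h4 : κ ≤ w := by linarith [norm_nonneg (c j - c (g j))]
  refine ⟨⟨?_, h2.trans (pow_le_pow_left₀ hκ h4 2)⟩, ?_⟩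
  · calc ‖ζ.1 - c (g j)‖ = ‖(ζ.1 - c j) + (c j - c (g j))‖ := by congr 1; abel
      _ ≤ ‖ζ.1 - c j‖ + ‖c j - c (g j)‖ := norm_add_le _ _
      _ ≤ w := by linarith
  · exact (inner_near hv (hc j hj) h1).trans (by linarith)

theorem narrow_fin (X Q m T : ℝ≥0∞) {C0 D p : ℝ} (hC : 0 < C0) (hD : 0 ≤ D) (hp : 0 ≤ p)
    (hX : X ≤ ENNReal.ofReal (C0 * D) * (2 * (Q + m)) + m) (hm : m ^ p ≤ T) :
    X ^ p ≤ ENNReal.ofReal ((2 * (2 * C0 + 1)) ^ p) *
      (ENNReal.ofReal (1 + D) ^ p * (Q ^ p + T)) := by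
  have h1 : X ≤ ENNReal.ofReal (2 * C0 + 1) * ENNReal.ofReal (1 + D) * (Q + m) := by
    refine hX.trans ?_
    have e1 : ENNReal.ofReal (C0 * D) * 2 + 1 ≤
        ENNReal.ofReal (2 * C0 + 1) * ENNReal.ofReal (1 + D) := by
      rw [← ENNReal.ofReal_mul (by positivity), ← ENNReal.ofReal_ofNat 2,
        ← ENNReal.ofReal_mul (by positivity), ← ENNReal.ofReal_one,
        ← ENNReal.ofReal_add (by positivity) (by positivity)]
      refine ENNReal.ofReal_le_ofReal ?_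
      nlinarith
    calc ENNReal.ofReal (C0 * D) * (2 * (Q + m)) + m
        ≤ ENNReal.ofReal (C0 * D) * (2 * (Q + m)) + (Q + m) := add_le_add le_rfl le_add_self
      _ = (ENNReal.ofReal (C0 * D) * 2 + 1) * (Q + m) := by ring
      _ ≤ _ := mul_le_mul_left e1 _
  have e2 : ENNReal.ofReal ((2 * (2 * C0 + 1)) ^ p) = 2 ^ p * ENNReal.ofReal (2 * C0 + 1) ^ p := by
    rw [← ENNReal.ofReal_rpow_of_nonneg (by positivity) hp, ENNReal.ofReal_mul (by norm_num),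
      ENNReal.mul_rpow_of_nonneg _ _ hp, ENNReal.ofReal_ofNat]
  calc X ^ p ≤ (ENNReal.ofReal (2 * C0 + 1) * ENNReal.ofReal (1 + D) * (Q + m)) ^ p :=
        ENNReal.rpow_le_rpow h1 hp
    _ = ENNReal.ofReal (2 * C0 + 1) ^ p * ENNReal.ofReal (1 + D) ^ p * (Q + m) ^ p := by
        rw [ENNReal.mul_rpow_of_nonneg _ _ hp, ENNReal.mul_rpow_of_nonneg _ _ hp]
    _ ≤ ENNReal.ofReal (2 * C0 + 1) ^ p * ENNReal.ofReal (1 + D) ^ p * (2 ^ p * (Q ^ p + T)) :=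
        mul_le_mul_right ((add_rpow_le Q m hp).trans (mul_le_mul_right (add_le_add le_rfl hm) _)) _
    _ = _ := by rw [e2]; ring

end BGLoc

open BGLoc in
theorem bgloc : W5 → GREEDY → CYL → BGLOC := by
  classical
  intro _ hG hC r p hp
  obtain ⟨C0, hC0, hC⟩ := hC r
  have hp0 : 0 ≤ p := by linarith
  have hp1 : 1 ≤ p := by linarith
  refine ⟨(2 * (2 * C0 + 1)) ^ p, by positivity, fun w hw hw4 => ?_⟩
  obtain ⟨Λ, hΛ⟩ := hG (r + 1) w (by omega) hw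
  refine ⟨Λ, fun b κ D hb hκ hκw hD hDec ι J c F h hF hh => ?_⟩
  set ν := wm (r + 1) b (w ^ 2)⁻¹ with hν
  have hC1 : (1 : ℝ≥0∞) ≤ ENNReal.ofReal ((2 * (2 * C0 + 1)) ^ p) := by
    rw [← ENNReal.ofReal_one]
    exact ENNReal.ofReal_le_ofReal (Real.one_le_rpow (by linarith) hp0)
  have hmeas : ∀ j ∈ J, AEStronglyMeasurable (F j) ν := fun j hj =>
    (hF.continuous hj).aestronglyMeasurable
  rcases J.eq_empty_or_nonempty with rfl | hJ
  · rw [Finset.sum_empty, eLpNorm'_zero (by linarith), ENNReal.zero_rpow_of_pos (by linarith)]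
    exact zero_le
  obtain ⟨j0, hj0, hmax⟩ := J.exists_max_image (fun j => eLpNorm' (F j) p ν) hJ
  set m := eLpNorm' (F j0) p ν with hm
  set S := J.filter (fun j => m ≤ (J.card : ℝ≥0∞) * eLpNorm' (F j) p ν) with hS
  have hSJ : S ⊆ J := Finset.filter_subset _ _
  have hN1 : (1 : ℝ≥0∞) ≤ (J.card : ℝ≥0∞) := by exact_mod_cast hJ.card_pos
  have hSne : S.Nonempty := ⟨j0, Finset.mem_filter.2 ⟨hj0, le_mul_of_one_le_left zero_le hN1⟩⟩
  have hsmall : ∑ j ∈ J \ S, eLpNorm' (F j) p ν ≤ m := by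
    refine small_sum hJ _ m fun j hj => ?_
    obtain ⟨hj1, hj2⟩ := Finset.mem_sdiff.1 hj
    by_contra hcon
    exact hj2 (Finset.mem_filter.2 ⟨hj1, (not_le.1 hcon).le⟩)
  rcases hΛ ι S c hSne (fun j hj => hF.norm_le j (hSJ hj)) with ⟨v, h0, hv, hh0, hc⟩ | ⟨τ, hτ, hT⟩
  · -- narrow case
    have hcyl := hC p b w D hp hb hw hw4 hDec ι (img S h) c (grp S h F) v h0 hv hh0
      (fun k hk => by
        obtain ⟨j, hj, rfl⟩ := mem_img.1 hk
        exact hF.norm_le _ (hh.maps j (hSJ hj)))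
      (fun k hk l hl hkl => by
        obtain ⟨j, hj, rfl⟩ := mem_img.1 hk
        obtain ⟨j', hj', rfl⟩ := mem_img.1 hl
        exact hh.sep j (hSJ hj) j' (hSJ hj') hkl)
      (fun k hk => by
        obtain ⟨j, hj, rfl⟩ := mem_img.1 hk
        have h3 := hh.near j (hSJ hj)
        have h4 : ‖c (h j) - c j‖ ≤ w := by rw [norm_sub_rev]; linarith
        exact (inner_near hv (hc j hj) h4).trans (by linarith))
      (fun k _ => grp_mem hF hh hκ.le hSJ hv hc k)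
    rw [sum_grp] at hcyl
    have hsq := narrow_sq ν hp1 hSJ h F hmeas
    have hsplit : ∑ j ∈ J, F j = ∑ j ∈ S, F j + ∑ j ∈ J \ S, F j :=
      (Finset.sum_sdiff hSJ).symm.trans (add_comm _ _)
    have hX : eLpNorm' (∑ j ∈ J, F j) p ν ≤
        ENNReal.ofReal (C0 * D) * (2 * (sq p ν (img J h) (grp J h F) + m)) + m := by
      rw [hsplit]
      refine (eLpNorm'_add_le (Finset.aestronglyMeasurable_sum _ fun j hj => hmeas j (hSJ hj))
        (Finset.aestronglyMeasurable_sum _ fun j hj => hmeas j (Finset.mem_sdiff.1 hj).1)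
        hp1).trans (add_le_add ?_ ?_)
      · refine hcyl.trans (mul_le_mul_right ?_ _)
        refine le_trans ?_ (mul_le_mul_right (add_le_add le_rfl hsmall) _)
        convert hsq
      · exact (eLpNorm'_sum_le (fun j hj => hmeas j (Finset.mem_sdiff.1 hj).1) hp1).trans hsmall
    have hmT : m ^ p ≤ ∑ j ∈ J, eLpNorm' (F j) p ν ^ p :=
      Finset.single_le_sum (f := fun j => eLpNorm' (F j) p ν ^ p) (fun _ _ => zero_le) hj0
    exact (narrow_fin _ _ _ _ hC0 hD hp0 hX hmT).trans (mul_le_mul_right le_self_add _)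
  · -- broad case
    have hX : eLpNorm' (∑ j ∈ J, F j) p ν ≤ (J.card : ℝ≥0∞) * m := by
      refine (eLpNorm'_sum_le hmeas hp1).trans ?_
      calc ∑ j ∈ J, eLpNorm' (F j) p ν ≤ ∑ _j ∈ J, m := Finset.sum_le_sum hmax
        _ = _ := by rw [Finset.sum_const, nsmul_eq_mul]
    have hb := broad (n := r + 1) (eLpNorm' (∑ j ∈ J, F j) p ν) (J.card : ℝ≥0∞)
      (fun i => eLpNorm' (F (τ i)) p ν) hp0 fun i => by
        refine hX.trans ?_
        rw [pow_two, mul_assoc]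
        exact mul_le_mul_right (Finset.mem_filter.1 (hτ i)).2 _
    refine hb.trans (le_trans ?_ (le_mul_of_one_le_left zero_le hC1))
    refine le_trans (mul_le_mul_right ?_ _) le_add_self
    refine Finset.single_le_sum
      (f := fun τ : Fin (r + 1 + 1) → ι =>
        ∏ i, eLpNorm' (F (τ i)) p ν ^ (p / ((r + 1 : ℕ) + 1 : ℝ))) (fun _ _ => zero_le) ?_
    exact Finset.mem_filter.2 ⟨Fintype.mem_piFinset.2 fun i => hSJ (hτ i), hT⟩

end Pool.Agent.P.MP_7211b7_an
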