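import Pool.Agent.P.MP_7211b7_an.DefsA

open MeasureTheory
open scoped ENNReal

namespace Pool.Agent.P.MP_7211b7_an

namespace Bern

theorem integrable_of_decay {V : Type} [NormedAddCommGroup V] [InnerProductSpace ℝ V]
    [FiniteDimensional ℝ V] [MeasurableSpace V] [BorelSpace V] {k : V → ℂ} (hk : Continuous k)
    (hd : ∀ a : ℕ, ∃ C : ℝ, ∀ y, ‖k y‖ ≤ C * ((1 + ‖y‖) ^ a)⁻¹) : Integrable k := by
  obtain ⟨C, hC⟩ := hd (Module.finrank ℝ V + 1)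
  have h := (integrable_one_add_norm (E := V) (μ := volume)
    (r := ((Module.finrank ℝ V + 1 : ℕ) : ℝ)) (by push_cast; linarith)).const_mul C
  refine h.mono' hk.aestronglyMeasurable (Filter.Eventually.of_forall fun y => ?_)
  rw [Real.rpow_neg (by positivity), Real.rpow_natCast]
  exact hC y

theorem kernel (h : KER1) (r : ℕ) : ∃ k : Sp r → ℂ, Integrable k ∧
    (∀ a : ℕ, ∃ C : ℝ, 0 < C ∧ ∀ y, ‖k y‖ ≤ C * ((1 + ‖y‖) ^ a)⁻¹) ∧
    ∀ ζ : Sp r, ‖ζ‖ ≤ 2 → ∫ y, k y * wave ζ y = 1 := by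
  obtain ⟨k1, c1, d1, r1⟩ := h (Eu r)
  obtain ⟨k2, c2, d2, r2⟩ := h ℝ
  refine ⟨fun y => k1 y.1 * k2 y.2,
    (integrable_of_decay c1 d1).mul_prod (integrable_of_decay c2 d2), fun a => ?_, fun ζ hζ => ?_⟩
  · obtain ⟨C1, h1⟩ := d1 a
    obtain ⟨C2, h2⟩ := d2 a
    have p1 : 0 ≤ C1 := by simpa using (norm_nonneg _).trans (h1 0)
    have p2 : 0 ≤ C2 := by simpa using (norm_nonneg _).trans (h2 0)
    refine ⟨C1 * C2 + 1, by positivity, fun y => ?_⟩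
    have e : 1 + ‖y‖ ≤ (1 + ‖y.1‖) * (1 + ‖y.2‖) := by
      have a1 := norm_nonneg y.1
      have a2 := norm_nonneg y.2
      rw [Prod.norm_def]
      rcases le_total ‖y.1‖ ‖y.2‖ with hh | hh
      · rw [max_eq_right hh]; nlinarith
      · rw [max_eq_left hh]; nlinarith
    have e2 : ((1 + ‖y.1‖) ^ a)⁻¹ * ((1 + ‖y.2‖) ^ a)⁻¹ ≤ ((1 + ‖y‖) ^ a)⁻¹ := by
      rw [← mul_inv, ← mul_pow]
      exact inv_anti₀ (by positivity) (pow_le_pow_left₀ (by positivity) e a)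
    calc ‖k1 y.1 * k2 y.2‖ = ‖k1 y.1‖ * ‖k2 y.2‖ := norm_mul _ _
      _ ≤ (C1 * ((1 + ‖y.1‖) ^ a)⁻¹) * (C2 * ((1 + ‖y.2‖) ^ a)⁻¹) :=
          mul_le_mul (h1 _) (h2 _) (norm_nonneg _) (by positivity)
      _ = C1 * C2 * (((1 + ‖y.1‖) ^ a)⁻¹ * ((1 + ‖y.2‖) ^ a)⁻¹) := by ring
      _ ≤ C1 * C2 * ((1 + ‖y‖) ^ a)⁻¹ := mul_le_mul_of_nonneg_left e2 (by positivity)
      _ ≤ _ := mul_le_mul_of_nonneg_right (by linarith) (by positivity)
  · have e : ∀ y : Sp r, k1 y.1 * k2 y.2 * wave ζ y =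
        (k1 y.1 * Complex.exp (Complex.I * ((inner ℝ ζ.1 y.1 : ℝ) : ℂ))) *
          (k2 y.2 * Complex.exp (Complex.I * ((inner ℝ ζ.2 y.2 : ℝ) : ℂ))) := by
      intro y
      unfold wave
      have : (inner ℝ ζ.2 y.2 : ℝ) = ζ.2 * y.2 := by simp [mul_comm]
      rw [this]
      push_cast
      rw [mul_add, Complex.exp_add]
      ring
    simp only [e]
    have := integral_prod_mul (μ := (volume : Measure (Eu r))) (ν := (volume : Measure ℝ))
      (fun y : Eu r => k1 y * Complex.exp (Complex.I * ((inner ℝ ζ.1 y : ℝ) : ℂ)))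
      (fun u : ℝ => k2 u * Complex.exp (Complex.I * ((inner ℝ ζ.2 u : ℝ) : ℂ)))
    rw [r1 _ ((norm_fst_le ζ).trans hζ), r2 _ ((norm_snd_le ζ).trans hζ), mul_one] at this
    exact this

theorem reproduce {r : ℕ} {k : Sp r → ℂ} (hk : Integrable k)
    (h : ∀ ζ : Sp r, ‖ζ‖ ≤ 2 → ∫ y, k y * wave ζ y = 1) {f : Sp r → ℂ}
    (hf : f ∈ Tr {ζ : Sp r | ‖ζ‖ ≤ 2}) (x : Sp r) :
    Integrable (fun y => k y * f (x + y)) ∧ ∫ y, k y * f (x + y) = f x := by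
  refine Tr_induction
    (P := fun f => Integrable (fun y => k y * f (x + y)) ∧ ∫ y, k y * f (x + y) = f x)
    (fun ζ hζ => ⟨?_, ?_⟩) (by simp) ?_ ?_ hf
  · refine hk.mul_bdd (c := 1) ?_ (Filter.Eventually.of_forall fun y => (norm_wave _ _).le)
    exact ((continuous_wave ζ).comp (continuous_const_add x)).aestronglyMeasurable
  · have : ∀ y, k y * wave ζ (x + y) = wave ζ x * (k y * wave ζ y) := fun y => by
      rw [wave_add]; ring
    simp only [this]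
    rw [integral_const_mul, h ζ hζ, mul_one]
  · rintro f g ⟨f1, f2⟩ ⟨g1, g2⟩
    simp only [Pi.add_apply, mul_add]
    exact ⟨f1.add g1, by rw [integral_add f1 g1, f2, g2]⟩
  · rintro a f ⟨f1, f2⟩
    have : ∀ y, k y * (a • f) (x + y) = a * (k y * f (x + y)) := fun y => by
      simp only [Pi.smul_apply, smul_eq_mul]; ring
    simp only [this]
    exact ⟨f1.const_mul a, by rw [integral_const_mul, f2]; rfl⟩

theorem wave_smul {r : ℕ} (ζ y : Sp r) (t : ℝ) : wave ζ (t • y) = wave (t • ζ) y := by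
  unfold wave
  congr 3
  simp only [Prod.smul_fst, Prod.smul_snd, inner_smul_left, inner_smul_right, smul_eq_mul,
    conj_trivial]
  ring

theorem rescale_mem {r : ℕ} {ρ : ℝ} {c : Eu r} (h0 : 0 < ρ) (h1 : ρ ≤ 1) (hc : ‖c‖ ≤ 1 / 2)
    {f : Sp r → ℂ} (hf : f ∈ Tr (cap c ρ (ρ ^ 2))) :
    (fun y => f (ρ⁻¹ • y) * wave (-((c, ‖c‖ ^ 2 / 2) : Sp r)) (ρ⁻¹ • y))
      ∈ Tr {ζ : Sp r | ‖ζ‖ ≤ 2} := by
  refine Tr_induction (P := fun f => (fun y => f (ρ⁻¹ • y) *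
    wave (-((c, ‖c‖ ^ 2 / 2) : Sp r)) (ρ⁻¹ • y)) ∈ Tr {ζ : Sp r | ‖ζ‖ ≤ 2}) ?_ ?_ ?_ ?_ hf
  · rintro ζ ⟨z1, z2⟩
    have e : (fun y => wave ζ (ρ⁻¹ • y) * wave (-((c, ‖c‖ ^ 2 / 2) : Sp r)) (ρ⁻¹ • y))
        = wave (ρ⁻¹ • (ζ + -((c, ‖c‖ ^ 2 / 2) : Sp r))) := by
      funext y
      rw [← add_wave, wave_smul]
    rw [e]
    refine wave_mem_Tr ?_
    show ‖ρ⁻¹ • (ζ + -((c, ‖c‖ ^ 2 / 2) : Sp r))‖ ≤ 2
    rw [norm_smul, Real.norm_of_nonneg (by positivity), inv_mul_le_iff₀ h0, Prod.norm_def]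
    refine max_le ?_ ?_
    · show ‖ζ.1 + -c‖ ≤ ρ * 2
      rw [← sub_eq_add_neg]
      linarith
    · show ‖ζ.2 + -(‖c‖ ^ 2 / 2)‖ ≤ ρ * 2
      have a1 := abs_le.1 ((abs_norm_sub_norm_le ζ.1 c).trans z1)
      have a2 := abs_le.1 z2
      have a3 := norm_nonneg c
      have a4 := norm_nonneg ζ.1
      rw [Real.norm_eq_abs, abs_le]
      constructor <;> nlinarith [a1.1, a1.2, a2.1, a2.2]
  · simp only [Pi.zero_apply, zero_mul]
    exact (Tr _).zero_mem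
  · intro f g hf hg
    simp only [Pi.add_apply, add_mul]
    exact (Tr _).add_mem hf hg
  · intro a f hf
    simp only [Pi.smul_apply, smul_eq_mul, mul_assoc]
    exact (Tr _).smul_mem a hf

theorem av_scale {r : ℕ} (a : ℕ) {ρ : ℝ} (h0 : 0 < ρ) {g : Sp r → ℝ≥0∞} (hg : Measurable g)
    (x : Sp r) : av a 1 (fun y => g (ρ⁻¹ • y)) (ρ • x) = av a ρ⁻¹ g x := by
  unfold av
  have hH : (volume : Measure (Sp r)).IsAddHaarMeasure :=
    Measure.prod.instIsAddHaarMeasure (volume : Measure (Eu r)) (volume : Measure ℝ)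
  have hm : Measurable (fun y : Sp r => g (x + y) * wt a ρ⁻¹ y) :=
    (hg.comp (measurable_const_add x)).mul (measurable_wt a _)
  have h1 := lintegral_map (μ := (volume : Measure (Sp r))) hm (measurable_const_smul ρ⁻¹)
  rw [Measure.map_addHaar_smul _ (inv_ne_zero h0.ne'), lintegral_smul_measure] at h1
  have hfr : Module.finrank ℝ (Sp r) = r + 1 := by simp
  rw [hfr, inv_pow, inv_inv, abs_of_pos (by positivity)] at h1
  have e : ∀ y : Sp r, g (x + ρ⁻¹ • y) * wt a ρ⁻¹ (ρ⁻¹ • y) =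
      ENNReal.ofReal (ρ ^ (r + 1)) * (g (ρ⁻¹ • (ρ • x + y)) * wt a 1 y) := by
    intro y
    rw [smul_add, inv_smul_smul₀ h0.ne', mul_left_comm]
    congr 1
    unfold wt
    rw [← ENNReal.ofReal_mul (by positivity), norm_smul, Real.norm_of_nonneg (by positivity),
      mul_div_cancel_left₀ _ (inv_ne_zero h0.ne')]
    simp
  simp only [e] at h1
  rw [lintegral_const_mul' _ _ ENNReal.ofReal_ne_top, smul_eq_mul] at h1
  exact ((ENNReal.mul_right_inj (ENNReal.ofReal_pos.2 (by positivity)).ne'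
    ENNReal.ofReal_ne_top).1 h1).symm

end Bern

open Bern

theorem bern1 : KER1 → BERN1 := by
  intro h r a
  obtain ⟨k, hk, hd, hr⟩ := kernel h r
  obtain ⟨C, hC, hb⟩ := hd a
  refine ⟨C, hC, fun f hf x => ?_⟩
  rw [← (reproduce hk hr hf x).2]
  refine (enorm_integral_le_lintegral_enorm _).trans ?_
  unfold av
  rw [← lintegral_const_mul' _ _ ENNReal.ofReal_ne_top]
  refine lintegral_mono fun y => ?_
  simp only [enorm_mul]
  rw [mul_comm, mul_left_comm]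
  refine mul_le_mul_right ?_ _
  unfold wt
  rw [← ENNReal.ofReal_mul hC.le, ← ofReal_norm]
  refine ENNReal.ofReal_le_ofReal ?_
  simpa using hb y

theorem bern2 : BERN1 → W8 → BERN2 := by
  intro h1 h8 r a ha
  obtain ⟨C1, p1, b1⟩ := h1 r a
  obtain ⟨C8, p8, b8⟩ := h8 r a ha
  refine ⟨(C1 * C8) ^ 2, by positivity, fun ρ c h0 hρ hc f hf x => ?_⟩
  have hcont := continuous_of_mem_Tr hf
  have hm : Measurable (fun y => ‖f y‖ₑ) := hcont.measurable.enorm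
  have k1 := b1 _ (rescale_mem h0 hρ hc hf) (ρ • x)
  have en : ∀ ζ y : Sp r, ‖wave ζ y‖ₑ = 1 := fun ζ y => by
    rw [← ofReal_norm, norm_wave, ENNReal.ofReal_one]
  simp only [enorm_mul, en, mul_one, inv_smul_smul₀ h0.ne'] at k1
  rw [av_scale a h0 hm x] at k1
  have k2 := b8 ρ⁻¹ (1 / 2) (fun y => ‖f y‖ₑ ^ (2 : ℝ)) x (by positivity) (by norm_num)
    (by norm_num) (hm.pow_const _)
  have e : ∀ z : ℝ≥0∞, (z ^ (2 : ℝ)) ^ (1 / 2 : ℝ) = z := fun z => by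
    rw [← ENNReal.rpow_mul]; norm_num
  have e' : ∀ z : ℝ≥0∞, (z ^ (1 / 2 : ℝ)) ^ (2 : ℝ) = z := fun z => by
    rw [← ENNReal.rpow_mul]; norm_num
  simp only [e] at k2
  have k3 := ENNReal.rpow_le_rpow (k1.trans (mul_le_mul_right k2 _)) (z := 2) (by norm_num)
  rw [← mul_assoc, ← ENNReal.ofReal_mul p1.le, ENNReal.mul_rpow_of_nonneg _ _ (by norm_num), e',
    ENNReal.ofReal_rpow_of_nonneg (by positivity) (by norm_num)] at k3
  simpa using k3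

end Pool.Agent.P.MP_7211b7_an
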