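import Pool.Agent.P.MP_7211b7_an.DefsA

open MeasureTheory
open scoped ENNReal

namespace Pool.Agent.P.MP_7211b7_an

namespace Boot

theorem exp_mono {r : ℕ} {p : ℝ} {A : ℕ} {η η' : ℝ} (h : DecExp r p A η) (hη : η ≤ η') :
    DecExp r p A η' := by
  obtain ⟨C, hC, h⟩ := h
  exact ⟨C, hC, fun σ h0 h1 => (h σ h0 h1).mono (mul_le_mul_of_nonneg_left
    (Real.rpow_le_rpow_of_exponent_ge h0 h1 (neg_le_neg hη)) hC.le)⟩

theorem exists_w {C0 C' e : ℝ} (hC0 : 0 < C0) (hC' : 0 < C') (he : 0 < e) :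
    ∃ w : ℝ, 0 < w ∧ w ≤ 1 / 4 ∧
      C0 * (1 + C' * (2 * w) ^ (-e)) * (2 * (2 * w) ^ (2 * e)) ≤ 1 / 2 := by
  set b := 1 / (4 * C0 * (1 + C')) with hb
  have hb0 : 0 < b := by positivity
  set v := min (1 / 2) (b ^ e⁻¹) with hv
  have hv0 : 0 < v := lt_min (by norm_num) (by positivity)
  have hv1 : v ≤ 1 / 2 := min_le_left _ _
  refine ⟨v / 2, by positivity, by linarith, ?_⟩
  rw [mul_div_cancel₀ _ two_ne_zero, Real.rpow_neg hv0.le, mul_comm 2 e, Real.rpow_mul hv0.le,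
    Real.rpow_two]
  have h1 : v ^ e ≤ b := by
    refine (Real.rpow_le_rpow hv0.le (min_le_right _ _) he.le).trans_eq ?_
    rw [Real.rpow_inv_rpow hb0.le he.ne']
  have h2 : v ^ e ≤ 1 := Real.rpow_le_one hv0.le (by linarith) he.le
  have h3 : 0 < v ^ e := by positivity
  generalize v ^ e = t at *
  rw [hb, le_div_iff₀ (by positivity)] at h1
  have h4 : C0 * (1 + C' * t⁻¹) * (2 * t ^ 2) = 2 * C0 * t * (t + C') := by field_simp
  have h5 : 2 * C0 * t * (t + C') ≤ 2 * C0 * t * (1 + C') :=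
    mul_le_mul_of_nonneg_left (by linarith) (by positivity)
  linarith

theorem step (hT : TRIV) (hB : BG) {r A : ℕ} {p η0 γ η : ℝ} (hp : 2 < p) (h0 : 0 < η0)
    (hr : DecThm r p)
    (hM : ∀ Λ : ℝ, ∃ κ0 : ℝ, 0 < κ0 ∧ ∀ R : ℝ, 1 ≤ R → ∃ C : ℝ, 0 < C ∧ ∀ σ : ℝ, 0 < σ →
      σ ^ 2 * R ≤ 1 → ML (r + 1) p A Λ κ0 R σ (C * σ ^ (-(η - γ)))) :
    DecExp (r + 1) p A (max (η - γ) (η0 / 2)) := by
  obtain ⟨C0, hC0, hB⟩ := hB r A p hp.le
  obtain ⟨C', hC', hr⟩ := hr (bexp (r + 1) A) (η0 / 4) (by positivity)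
  obtain ⟨w, hw0, hw1, hw⟩ := exists_w hC0 hC' (show 0 < η0 / 4 by positivity)
  obtain ⟨Λ, hB⟩ := hB w hw0 hw1
  obtain ⟨κ0, hκ0, hM⟩ := hM Λ
  obtain ⟨C, hC, hM⟩ := hM (w ^ 2)⁻¹
    ((one_le_inv₀ (by positivity)).2 (pow_le_one₀ hw0.le (by linarith)))
  set κ := min κ0 (w / 2)
  have hκ : 0 < κ := lt_min hκ0 (by positivity)
  have hκw : κ ≤ w / 2 := min_le_right _ _
  obtain ⟨C1, hC1, hB⟩ := hB κ hκ hκw
  obtain ⟨Ct, hCt, hT⟩ := hT (r + 1) p A (by linarith)
  set e := max (η - γ) (η0 / 2)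
  have he : η0 / 2 ≤ e := le_max_right _ _
  have he0 : 0 < e := by linarith
  set M := Ct * (κ / 2) ^ (-(((r + 1 : ℕ) : ℝ) / 2)) + 2 * C1 * C with hMdef
  have hM0 : 0 < M := by positivity
  have base : ∀ σ : ℝ, κ / 2 ≤ σ → σ ≤ 1 → Dec (r + 1) p A σ (M * σ ^ (-e)) := by
    intro σ h1 h2
    have h3 : 0 < σ := by linarith
    refine (hT σ h3 h2).mono (le_trans ?_ (le_mul_of_one_le_right hM0.le
      (Real.one_le_rpow_of_pos_of_le_one_of_nonpos h3 h2 (by linarith))))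
    exact le_add_of_le_of_nonneg (mul_le_mul_of_nonneg_left (Real.rpow_le_rpow_of_nonpos
      (by positivity) h1 (neg_nonpos.2 (by positivity))) hCt.le) (by positivity)
  have key : ∀ (k : ℕ) (σ : ℝ), κ / 2 ≤ 2 ^ k * σ → σ ≤ 1 →
      Dec (r + 1) p A σ (M * σ ^ (-e)) := by
    intro k
    induction k with
    | zero => simpa using base
    | succ k ih =>
      intro σ h1 h2
      rcases le_or_gt (κ / 2) σ with h3 | h3
      · exact base σ h3 h2
      have hσ : 0 < σ := (mul_pos_iff_of_pos_left (by positivity : (0 : ℝ) < 2 ^ (k + 1))).1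
        (by linarith)
      have ih' : ∀ u : ℝ, σ ≤ u → u ≤ 1 / 2 → Dec (r + 1) p A (σ / u) (M * (σ / u) ^ (-e)) := by
        intro u h4 h5
        have hu : 0 < u := by linarith
        refine ih _ (h1.trans ?_) ((div_le_one hu).2 h4)
        rw [pow_succ, mul_assoc]
        refine mul_le_mul_of_nonneg_left ?_ (by positivity)
        rw [le_div_iff₀ hu]
        nlinarith
      have hu : ∀ u : ℝ, 0 < u → u ≤ 2 * w →
          (σ / u) ^ (-e) ≤ σ ^ (-e) * (2 * w) ^ (2 * (η0 / 4)) := by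
        intro u h4 h5
        rw [Real.div_rpow hσ.le h4.le, Real.rpow_neg h4.le, div_inv_eq_mul]
        refine mul_le_mul_of_nonneg_left ((Real.rpow_le_rpow h4.le h5 he0.le).trans
          (Real.rpow_le_rpow_of_exponent_ge (by positivity) (by linarith) (by linarith)))
          (by positivity)
      refine (hB σ _ _ _ _ hσ h3.le (by positivity) (by positivity) (by positivity) (by positivity)
        (hr (2 * w) (by positivity) (by linarith)) (ih' (2 * w) (by linarith) (by linarith))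
        (ih' κ (by linarith) (by linarith)) ((hM σ hσ ?_).mono (min_le_left _ _))).mono ?_
      · rw [← div_eq_mul_inv, div_le_one (by positivity)]
        exact pow_le_pow_left₀ hσ.le (by linarith) 2
      have h6 := hu (2 * w) (by positivity) le_rfl
      have h7 := hu κ hκ (by linarith)
      have h8 : σ ^ (-(η - γ)) ≤ σ ^ (-e) :=
        Real.rpow_le_rpow_of_exponent_ge hσ h2 (neg_le_neg (le_max_left _ _))
      have h9 : 0 < σ ^ (-e) := by positivity
      calc _ ≤ C0 * (1 + C' * (2 * w) ^ (-(η0 / 4))) * (M * (σ ^ (-e) * (2 * w) ^ (2 * (η0 / 4))) +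
            M * (σ ^ (-e) * (2 * w) ^ (2 * (η0 / 4)))) + C1 * (C * σ ^ (-e)) := by gcongr
        _ = (C0 * (1 + C' * (2 * w) ^ (-(η0 / 4))) * (2 * (2 * w) ^ (2 * (η0 / 4))) * M +
            C1 * C) * σ ^ (-e) := by ring
        _ ≤ (1 / 2 * M + 1 / 2 * M) * σ ^ (-e) := by
            have : 0 < Ct * (κ / 2) ^ (-(((r + 1 : ℕ) : ℝ) / 2)) := by positivity
            exact mul_le_mul_of_nonneg_right (add_le_add
              (mul_le_mul_of_nonneg_right hw hM0.le) (by linarith)) h9.le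
        _ = _ := by ring
  refine ⟨M, hM0, fun σ h1 h2 => ?_⟩
  obtain ⟨k, hk⟩ := pow_unbounded_of_one_lt (κ / 2 / σ) (one_lt_two (α := ℝ))
  exact key k σ ((div_le_iff₀ h1).1 hk.le) h2

end Boot

open Boot

theorem boot : TRIV → BG → MLEXP → BOOT := by
  intro hT hB hM r p hp hpr hr A η0 h0
  obtain ⟨γ, hγ, hM⟩ := hM (r + 1) A p η0 (by omega) hp hpr h0
  have key : ∀ j : ℕ, DecExp (r + 1) p A (max (((r + 1 : ℕ) : ℝ) / 2 - j * γ) η0) := by
    intro j
    induction j with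
    | zero => exact exp_mono (hT (r + 1) p A (by linarith)) (by simp)
    | succ j ih =>
      refine exp_mono (step hT hB hp h0 hr fun Λ => (hM Λ).imp fun κ0 h =>
        ⟨h.1, h.2 _ (le_max_right _ _) ih⟩) (max_le ?_ (le_max_of_le_right (by linarith)))
      rw [← max_sub_sub_right]
      exact max_le_max (by push_cast; linarith) (by linarith)
  obtain ⟨j, hj⟩ := exists_nat_ge (((r + 1 : ℕ) : ℝ) / 2 / γ)
  rw [div_le_iff₀ hγ] at hj
  exact exp_mono (key j) (max_le (by linarith) le_rfl)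

theorem decThm : TRIV → BOOT → ∀ (r : ℕ) (p : ℝ), 2 < p → r * (p - 2) ≤ 4 → DecThm r p := by
  intro hT hB r p hp
  induction r with
  | zero => exact fun _ A η h => exp_mono (hT 0 p A (by linarith)) (by simpa using h.le)
  | succ r ih => exact fun h => hB r p hp h (ih (by push_cast at h; nlinarith))

end Pool.Agent.P.MP_7211b7_an
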