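import Pool.Agent.P.MP_7211b7_an.DefsBr

/-!
# MP_7211b7_an: the exponential map of a Lie group and the tangent space
-/

open MeasureTheory Manifold Topology Filter Metric
open scoped ENNReal ContDiff

namespace Pool.Agent.P.MP_7211b7_an

open Pool.Agent.P.MP_7895ba_al

namespace BrExp

theorem exists_locData (E H : Type) [NormedAddCommGroup E] [NormedSpace ℝ E]
    [TopologicalSpace H] [ChartedSpace E H] [Group H]
    [LieGroup (modelWithCornersSelf ℝ E) ((⊤ : ℕ∞) : WithTop ℕ∞) H] [IsTopologicalGroup H] :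
    ∃ D : LocData E H,
      D.c = fun x => (chartAt E (1 : H)).symm (chartAt E (1 : H) 1 + x) := by
  let φ := chartAt E (1 : H)
  let x₀ : E := φ 1
  let c : E → H := fun x => φ.symm (x₀ + x)
  let l : H → E := fun h => φ h - x₀
  have hsrc : (1 : H) ∈ φ.source := mem_chart_source E 1
  have htgt : x₀ ∈ φ.target := φ.map_source hsrc
  have c0 : c 0 = 1 := by simp only [c, add_zero]; exact φ.left_inv hsrc
  have hev : ∀ᶠ x in 𝓝 (0 : E), x₀ + x ∈ φ.target :=
    (continuous_const.add continuous_id).continuousAt.eventually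
      (φ.open_target.mem_nhds (by simpa using htgt))
  have hlc : ∀ x, x₀ + x ∈ φ.target → l (c x) = x := fun x hx => by
    simp only [l, c, φ.right_inv hx, add_sub_cancel_left]
  have hcl : ∀ h, h ∈ φ.source → c (l h) = h := fun h hh => by
    simp only [l, c, add_sub_cancel, φ.left_inv hh]
  have hcc : ∀ x, x₀ + x ∈ φ.target → ContinuousAt c x := fun x hx =>
    (φ.continuousAt_symm hx).comp (f := fun x => x₀ + x) (by fun_prop)
  have hc0 : ContinuousAt c 0 := hcc 0 (by simpa using htgt)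
  have hmul : ∀ᶠ z in 𝓝 ((0, 0) : E × E), c z.1 * c z.2 ∈ φ.source := by
    have : ContinuousAt (fun z : E × E => c z.1 * c z.2) (0, 0) :=
      (hc0.comp_of_eq continuousAt_fst rfl).mul (hc0.comp_of_eq continuousAt_snd rfl)
    exact this.eventually (φ.open_source.mem_nhds (by simpa [c0] using hsrc))
  have hcs : ContMDiffAt (modelWithCornersSelf ℝ E) (modelWithCornersSelf ℝ E)
      ((⊤ : ℕ∞) : WithTop ℕ∞) c 0 := by
    have a1 : ContMDiffAt (modelWithCornersSelf ℝ E) (modelWithCornersSelf ℝ E)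
        ((⊤ : ℕ∞) : WithTop ℕ∞) φ.symm x₀ :=
      (contMDiffOn_chart_symm (x := (1 : H))).contMDiffAt (φ.open_target.mem_nhds htgt)
    have a2 : ContMDiffAt (modelWithCornersSelf ℝ E) (modelWithCornersSelf ℝ E)
        ((⊤ : ℕ∞) : WithTop ℕ∞) (fun x : E => x₀ + x) 0 :=
      (contDiff_const.add contDiff_id).contMDiff.contMDiffAt
    exact a1.comp_of_eq a2 (by simp)
  have hM : ContDiffAt ℝ 2 (fun z : E × E => l (c z.1 * c z.2)) (0, 0) := by
    have a1 : ContMDiffAt (modelWithCornersSelf ℝ (E × E)) (modelWithCornersSelf ℝ E)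
        ((⊤ : ℕ∞) : WithTop ℕ∞) (fun z : E × E => c z.1 * c z.2) (0, 0) :=
      (hcs.comp_of_eq contDiff_fst.contMDiff.contMDiffAt rfl).mul
        (hcs.comp_of_eq contDiff_snd.contMDiff.contMDiffAt rfl)
    have a2 : ContMDiffAt (modelWithCornersSelf ℝ E) (modelWithCornersSelf ℝ E)
        ((⊤ : ℕ∞) : WithTop ℕ∞) φ 1 :=
      (contMDiffOn_chart (x := (1 : H))).contMDiffAt (φ.open_source.mem_nhds hsrc)
    have a3 := (a2.comp_of_eq a1 (by simp [c0])).contDiffAt
    exact (a3.of_le (by norm_cast)).sub contDiffAt_const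
  obtain ⟨r, K, hr, hK, e1, e2⟩ := estimates_of_contDiffAt hM
    (hev.mono fun x hx => by simp only [c0, mul_one]; exact hlc x hx)
    (hev.mono fun x hx => by simp only [c0, one_mul]; exact hlc x hx)
  obtain ⟨r1, hr1, hr1'⟩ := Metric.nhds_basis_closedBall.eventually_iff.1 hev
  obtain ⟨r2, hr2, hr2'⟩ := Metric.nhds_basis_closedBall.eventually_iff.1 hmul
  set R := min (min (r / 8) (1 / (4 * K))) (min (r1 / 8) (r2 / 8)) with hR
  have hR1 : 8 * R ≤ r := by
    have : R ≤ r / 8 := (min_le_left _ _).trans (min_le_left _ _)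
    linarith
  have hR2 : K * R ≤ 1 / 4 := by
    have : R ≤ 1 / (4 * K) := (min_le_left _ _).trans (min_le_right _ _)
    rw [le_div_iff₀ (by positivity)] at this
    linarith
  have hR3 : 8 * R ≤ r1 := by
    have : R ≤ r1 / 8 := (min_le_right _ _).trans (min_le_left _ _)
    linarith
  have hR4 : 8 * R ≤ r2 := by
    have : R ≤ r2 / 8 := (min_le_right _ _).trans (min_le_right _ _)
    linarith
  refine ⟨⟨c, l, R, K, by positivity, hK, hR2, c0, ?_, ?_, ?_, ?_, ?_, ?_⟩, rfl⟩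
  · exact fun x hx => hlc x (hr1' (mem_closedBall_zero_iff.2 (hx.trans hR3)))
  · exact fun x hx => hcc x (hr1' (mem_closedBall_zero_iff.2 (hx.trans hR3)))
  · have a1 : map φ.symm (𝓝 x₀) = 𝓝 1 := φ.symm_map_nhds_eq hsrc
    have a2 : map (fun x : E => x₀ + x) (𝓝 0) = 𝓝 x₀ := by
      simp
    rw [← a1, ← a2, map_map]
    exact le_rfl
  · intro x y hx hy
    refine hcl _ (hr2' (x := (x, y)) ?_)
    rw [← closedBall_prod_same]
    exact ⟨mem_closedBall_zero_iff.2 (hx.trans hR4), mem_closedBall_zero_iff.2 (hy.trans hR4)⟩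
  · exact fun x y y' hx hy hy' => e1 x y y' (hx.trans hR1) (hy.trans hR1) (hy'.trans hR1)
  · exact fun x x' y hx hx' hy => e2 x x' y (hx.trans hR1) (hx'.trans hR1) (hy.trans hR1)


/-- the exponential data of the additive real line -/
noncomputable def lineData : ExpData ℝ (Multiplicative ℝ) where
  exp := Multiplicative.ofAdd
  continuous_exp := continuous_ofAdd
  exp_add_smul X s t := by rw [add_smul, ofAdd_add]
  eq_zero_of_exp := ⟨1, one_pos, fun W _ h => h⟩
  nhds_le := le_of_eq (Filter.map_id (f := 𝓝 (0 : ℝ))).symm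
  strict ε hε := ⟨1, one_pos, fun X Y _ _ => ⟨Y - X, by
    rw [← ofAdd_neg, ← ofAdd_add, neg_add_eq_sub], by
    rw [sub_self, norm_zero]; positivity⟩⟩

theorem exists_gen {E G : Type} [NormedAddCommGroup E] [NormedSpace ℝ E] [FiniteDimensional ℝ E]
    [Group G] [TopologicalSpace G] [IsTopologicalGroup G] (D : ExpData E G) {γ : ℝ → G}
    (hc : Continuous γ) (ha : ∀ s t, γ (s + t) = γ s * γ t) :
    ∃ X : E, γ = fun s => D.exp (s • X) := by
  let f : Multiplicative ℝ →* G := MonoidHom.mk' (fun s => γ s.toAdd) fun s t => ha _ _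
  obtain ⟨L, hL⟩ := lineData.exists_deriv D f (hc.comp continuous_toAdd)
  refine ⟨L 1, funext fun s => ?_⟩
  rw [← map_smul, smul_eq_mul, mul_one]
  exact hL s

section chart

variable {E G : Type} [NormedAddCommGroup E] [NormedSpace ℝ E] [TopologicalSpace G]
  [ChartedSpace E G]

theorem hasM_of {γ : ℝ → G} {y : G} (h0 : γ 0 = y) (hc : ContinuousAt γ 0) {L : ℝ →L[ℝ] E}
    (h : HasFDerivAt (fun s => chartAt E y (γ s)) L 0) :
    HasMFDerivAt 𝓘(ℝ, ℝ) 𝓘(ℝ, E) γ 0 L := by
  subst h0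
  refine ⟨hc, ?_⟩
  simp only [writtenInExtChartAt, mfld_simps, hasFDerivWithinAt_univ]
  exact h

theorem hasM_comp {γ : ℝ → G} {f : G → G} {y : G} (h0 : γ 0 = y) {L : ℝ →L[ℝ] E}
    (h : HasMFDerivAt 𝓘(ℝ, ℝ) 𝓘(ℝ, E) γ 0 L) (hf : MDifferentiableAt 𝓘(ℝ, E) 𝓘(ℝ, E) f y) :
    HasMFDerivAt 𝓘(ℝ, ℝ) 𝓘(ℝ, E) (fun s => f (γ s)) 0
      (ContinuousLinearMap.comp (mfderiv 𝓘(ℝ, E) 𝓘(ℝ, E) f y : E →L[ℝ] E) L) := by
  subst h0
  exact hf.hasMFDerivAt.comp 0 h

end chart

theorem hasFDerivAt_e {E G : Type} [NormedAddCommGroup E] [NormedSpace ℝ E] [CompleteSpace E]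
    [Group G] [TopologicalSpace G] (D : LocData E G) :
    HasFDerivAt D.e (ContinuousLinearMap.id ℝ E) 0 := by
  rw [hasFDerivAt_iff_isLittleO_nhds_zero, Asymptotics.isLittleO_iff]
  intro ε hε
  have hK := D.K_pos
  have hR := D.R_pos
  have hρ : 0 < min (D.R / 2) (ε / (2 * D.K)) := by positivity
  have h1 : ∀ᶠ X : E in 𝓝 0, ‖X‖ < min (D.R / 2) (ε / (2 * D.K)) :=
    (isOpen_lt continuous_norm continuous_const).mem_nhds (by simpa using hρ)
  filter_upwards [h1] with z hz
  obtain ⟨hz1, hz2⟩ := lt_min_iff.1 hz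
  have h2 := D.e_sub_self z (by linarith)
  rw [lt_div_iff₀ (by positivity)] at hz2
  have h3 : 2 * D.K * ‖z‖ * ‖z‖ ≤ ε * ‖z‖ :=
    mul_le_mul_of_nonneg_right (by linarith) (norm_nonneg z)
  simpa [D.e_zero] using h2.trans h3

theorem exists_expData (E : Type) [NormedAddCommGroup E] [NormedSpace ℝ E] [FiniteDimensional ℝ E]
    (G : Type) [TopologicalSpace G] [ChartedSpace E G] [Group G] [LieGroup 𝓘(ℝ, E) ∞ G]
    [IsTopologicalGroup G] :
    ∃ D : ExpData E G, ∀ X : E, F.IsOneParam X (fun s : ℝ => D.exp (s • X)) := by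
  obtain ⟨D, hD⟩ := exists_locData E G
  have : CompleteSpace E := FiniteDimensional.complete ℝ E
  have : T1Space G := ChartedSpace.t1Space E G
  refine ⟨D.toExpData, fun X => ?_⟩
  have hc : Continuous fun s : ℝ => D.toExpData.exp (s • X) :=
    D.toExpData.continuous_exp.comp (by fun_prop)
  refine ⟨hc, D.toExpData.exp_add_smul X, ?_⟩
  refine hasM_of (y := 1) (by rw [zero_smul, D.toExpData.exp_zero]) hc.continuousAt ?_
  set φ := chartAt E (1 : G) with hφ
  have htgt : φ 1 ∈ φ.target := φ.map_source (mem_chart_source E 1)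
  have h1 : HasFDerivAt (fun s : ℝ => s • X) (ContinuousLinearMap.toSpanSingleton ℝ X) 0 :=
    (ContinuousLinearMap.toSpanSingleton ℝ X).hasFDerivAt
  have h2 : HasFDerivAt D.e (ContinuousLinearMap.id ℝ E) ((fun s : ℝ => s • X) 0) := by
    simp only [zero_smul]; exact hasFDerivAt_e D
  have h3 : HasFDerivAt (fun s : ℝ => φ 1 + D.e (s • X))
      (ContinuousLinearMap.toSpanSingleton ℝ X) 0 := by
    have := (h2.comp (0 : ℝ) h1).const_add (φ 1)
    rw [ContinuousLinearMap.id_comp] at this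
    exact this
  refine h3.congr_of_eventuallyEq ?_
  have h4 : ∀ᶠ s : ℝ in 𝓝 0, φ 1 + D.e (s • X) ∈ φ.target :=
    h3.continuousAt.eventually (φ.open_target.mem_nhds (by simpa [D.e_zero] using htgt))
  have h5 : ∀ᶠ s : ℝ in 𝓝 0, 2 * ‖s • X‖ < D.R :=
    (isOpen_lt (by fun_prop) continuous_const).mem_nhds (by simpa using D.R_pos)
  filter_upwards [h4, h5] with s hs1 hs2
  change φ (D.gexp (s • X)) = _
  rw [D.gexp_small _ hs2.le, hD]
  exact φ.right_inv hs1

end BrExp

open BrExp in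
theorem brexp : BREXP := by
  intro E _ _ _ G _ _ _ _ _
  obtain ⟨D, hD⟩ := exists_expData E G
  have huniq : ∀ (X : E) (γ : ℝ → G), F.IsOneParam X γ → γ = fun s => D.exp (s • X) := by
    intro X γ hγ
    obtain ⟨Y, rfl⟩ := exists_gen D hγ.1 hγ.2.1
    have h1 : (ContinuousLinearMap.toSpanSingleton ℝ X : ℝ →L[ℝ] E) =
        ContinuousLinearMap.toSpanSingleton ℝ Y := hasMFDerivAt_unique hγ.2.2 (hD Y).2.2
    have h2 := congrArg (fun L : ℝ →L[ℝ] E => L 1) h1
    simp only [ContinuousLinearMap.toSpanSingleton_apply, one_smul] at h2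
    rw [h2]
  refine ⟨D, fun X s => ?_, fun g X => ?_⟩
  · exact congrFun (huniq X _ (Classical.epsilon_spec ⟨_, hD X⟩)) s
  · have hf : MDifferentiableAt 𝓘(ℝ, E) 𝓘(ℝ, E) (fun h : G => g * h * g⁻¹) 1 := by
      have : ContMDiff 𝓘(ℝ, E) 𝓘(ℝ, E) ∞ (fun h : G => g * h * g⁻¹) :=
        (contMDiff_const.mul contMDiff_id).mul contMDiff_const
      exact this.mdifferentiableAt (by simp)
    have h1 := hasM_comp (y := 1) (by rw [zero_smul, D.exp_zero]) (hD X).2.2 hf
    have h2 : F.IsOneParam (F.Ad E g X) (fun s : ℝ => g * D.exp (s • X) * g⁻¹) := by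
      refine ⟨(continuous_const.mul (hD X).1).mul continuous_const, fun s t => ?_, ?_⟩
      · simp only [D.exp_add_smul]; group
      · refine h1.congr_mfderiv ?_
        refine ContinuousLinearMap.ext fun s => ?_
        exact (F.Ad E g).map_smul s X
    have h3 := congrFun (huniq _ _ h2) 1
    simpa using h3

end Pool.Agent.P.MP_7211b7_an
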