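import Pool.Agent.P.MP_7211b7_an.DefsBr

/-!
# MP_7211b7_an: faithful representations, maximal tori and the centre
-/

open Filter Topology Set
open scoped Matrix Matrix.Norms.Operator

namespace Pool.Agent.P.MP_7211b7_an

open Pool.Agent.P.MP_7895ba_al

namespace BrFaith

/-- the exponential map of the real line -/
noncomputable def realData : ExpData ℝ (Multiplicative ℝ) where
  exp := Multiplicative.ofAdd
  continuous_exp := continuous_ofAdd
  exp_add_smul X s t := by rw [add_smul, ofAdd_add]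
  eq_zero_of_exp := ⟨1, one_pos, fun _ _ h => h⟩
  nhds_le := (nhds_ofAdd (0 : ℝ)).le
  strict ε hε := ⟨1, one_pos, fun X Y _ _ => ⟨Y - X, by
    rw [ofAdd_sub, div_eq_inv_mul], by
    rw [sub_self, norm_zero]
    positivity⟩⟩

variable {E : Type} [NormedAddCommGroup E] [NormedSpace ℝ E] {G : Type} [Group G]
  [TopologicalSpace G]

theorem no_small (D : ExpData E G) :
    ∃ U ∈ 𝓝 (1 : G), ∀ K : Subgroup G, (K : Set G) ⊆ U → ∀ g ∈ K, g = 1 := by
  obtain ⟨r, hr, hinj⟩ := D.exists_injOn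
  refine ⟨_, D.image_ball_mem_nhds (half_pos hr), fun K hK g hg => ?_⟩
  obtain ⟨X, hX, rfl⟩ := hK hg
  rw [mem_ball_zero_iff] at hX
  by_cases h0 : X = 0
  · rw [h0, D.exp_zero]
  exfalso
  have hp : 0 < ‖X‖ := norm_pos_iff.2 h0
  set m := ⌈r / 2 / ‖X‖⌉₊ with hm
  have h1 : r / 2 ≤ m * ‖X‖ := (div_le_iff₀ hp).1 (Nat.le_ceil _)
  have h2 : (m : ℝ) * ‖X‖ < r := by
    have h3 : (m : ℝ) < r / 2 / ‖X‖ + 1 := Nat.ceil_lt_add_one (by positivity)
    have h4 := mul_lt_mul_of_pos_right h3 hp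
    rw [add_mul, div_mul_cancel₀ _ hp.ne', one_mul] at h4
    linarith
  have hn : ‖(m : ℝ) • X‖ = m * ‖X‖ := by
    rw [norm_smul, Real.norm_natCast]
  obtain ⟨Z, hZ, hZe⟩ := hK (K.pow_mem hg m)
  rw [mem_ball_zero_iff] at hZ
  rw [← D.exp_nsmul] at hZe
  have h5 := hinj (mem_ball_zero_iff.2 (by linarith)) (mem_ball_zero_iff.2 (by linarith)) hZe
  rw [h5, hn] at hZ
  linarith

/-- direct sum of two representations -/
noncomputable def dsum {n m : ℕ} (ρ : G →* Mat n) (σ : G →* Mat m) : G →* Mat (n + m) where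
  toFun g := (Matrix.fromBlocks (ρ g) 0 0 (σ g)).submatrix finSumFinEquiv.symm finSumFinEquiv.symm
  map_one' := by
    rw [map_one, map_one, Matrix.fromBlocks_one, Matrix.submatrix_one_equiv]
  map_mul' g h := by
    rw [Matrix.submatrix_mul_equiv, Matrix.fromBlocks_multiply, map_mul, map_mul]
    simp

omit [TopologicalSpace G] in
theorem dsum_apply {n m : ℕ} (ρ : G →* Mat n) (σ : G →* Mat m) (g : G) :
    dsum ρ σ g = (Matrix.fromBlocks (ρ g) 0 0 (σ g)).submatrix finSumFinEquiv.symm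
      finSumFinEquiv.symm := rfl

theorem dsum_cont {n m : ℕ} {ρ : G →* Mat n} {σ : G →* Mat m} (hρ : Continuous ρ)
    (hσ : Continuous σ) : Continuous (dsum ρ σ) :=
  (hρ.matrix_fromBlocks continuous_const continuous_const hσ).matrix_submatrix _ _

omit [TopologicalSpace G] in
theorem dsum_unit {n m : ℕ} {ρ : G →* Mat n} {σ : G →* Mat m} {g : G}
    (hρ : ρ g ∈ Matrix.unitaryGroup (Fin n) ℂ) (hσ : σ g ∈ Matrix.unitaryGroup (Fin m) ℂ) :
    dsum ρ σ g ∈ Matrix.unitaryGroup (Fin (n + m)) ℂ := by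
  rw [Matrix.mem_unitaryGroup_iff, Matrix.star_eq_conjTranspose] at hρ hσ ⊢
  rw [dsum_apply, Matrix.conjTranspose_submatrix, Matrix.submatrix_mul_equiv,
    Matrix.fromBlocks_conjTranspose, Matrix.fromBlocks_multiply, hρ, hσ]
  simp

omit [TopologicalSpace G] in
theorem dsum_eq_one {n m : ℕ} {ρ : G →* Mat n} {σ : G →* Mat m} {g : G} (h : dsum ρ σ g = 1) :
    ρ g = 1 ∧ σ g = 1 := by
  have h1 := congrArg (fun M : Mat (n + m) => M.submatrix finSumFinEquiv finSumFinEquiv) h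
  simp only [dsum_apply, Matrix.submatrix_submatrix, Equiv.symm_comp_self, Matrix.submatrix_id_id,
    Matrix.submatrix_one_equiv] at h1
  rw [← Matrix.fromBlocks_one, Matrix.fromBlocks_inj] at h1
  exact ⟨h1.1, h1.2.2.2⟩

theorem exists_rep [CompactSpace G] (D : ExpData E G)
    (hsep : ∀ g : G, g ≠ 1 → ∃ (n : ℕ) (ρ : G →* Mat n), Continuous ρ ∧
      (∀ h, ρ h ∈ Matrix.unitaryGroup (Fin n) ℂ) ∧ ρ g ≠ 1) :
    ∃ (n : ℕ) (ρ : G →* Mat n), IsRep ρ := by
  obtain ⟨U, hU, hns⟩ := no_small D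
  have hK : IsCompact (interior U)ᶜ := isOpen_interior.isClosed_compl.isCompact
  have key : ∃ (n : ℕ) (ρ : G →* Mat n), Continuous ρ ∧
      (∀ h, ρ h ∈ Matrix.unitaryGroup (Fin n) ℂ) ∧ ∀ h ∈ (interior U)ᶜ, ρ h ≠ 1 := by
    refine hK.induction_on (p := fun S => ∃ (n : ℕ) (ρ : G →* Mat n), Continuous ρ ∧
      (∀ h, ρ h ∈ Matrix.unitaryGroup (Fin n) ℂ) ∧ ∀ h ∈ S, ρ h ≠ 1) ?_ ?_ ?_ ?_
    · exact ⟨0, 1, continuous_const, fun h => one_mem _, fun h hh => absurd hh (notMem_empty h)⟩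
    · rintro S T hST ⟨n, ρ, h1, h2, h3⟩
      exact ⟨n, ρ, h1, h2, fun h hh => h3 h (hST hh)⟩
    · rintro S T ⟨n, ρ, h1, h2, h3⟩ ⟨m, σ, h4, h5, h6⟩
      refine ⟨n + m, dsum ρ σ, dsum_cont h1 h4, fun h => dsum_unit (h2 h) (h5 h), ?_⟩
      rintro h (hh | hh) h7
      · exact h3 h hh (dsum_eq_one h7).1
      · exact h6 h hh (dsum_eq_one h7).2
    · intro x hx
      have hx1 : x ≠ 1 := by
        rintro rfl
        exact hx (mem_interior_iff_mem_nhds.2 hU)
      obtain ⟨n, ρ, h1, h2, h3⟩ := hsep x hx1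
      refine ⟨{h | ρ h ≠ 1}, mem_nhdsWithin_of_mem_nhds ?_, n, ρ, h1, h2, fun h hh => hh⟩
      exact (isOpen_ne_fun h1 continuous_const).mem_nhds h3
  obtain ⟨n, ρ, h1, h2, h3⟩ := key
  refine ⟨n, ρ, h1, ?_, h2⟩
  rw [injective_iff_map_eq_one]
  intro g hg
  refine hns ρ.ker (fun h hh => interior_subset ?_) g hg
  by_contra hc
  exact h3 h hc hh

theorem comm_left {n : ℕ} {M B : Mat n}
    (h : ∀ u : ℝ, M * NormedSpace.exp (u • B) = NormedSpace.exp (u • B) * M) : M * B = B * M := by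
  have h1 := (hasDerivAt_exp_smul_zero B).const_mul M
  have h2 := (hasDerivAt_exp_smul_zero B).mul_const M
  exact h1.unique (h2.congr_of_eventuallyEq (Eventually.of_forall h))

theorem comm_of_exp {n : ℕ} {A B : Mat n}
    (h : ∀ s u : ℝ, NormedSpace.exp (s • A) * NormedSpace.exp (u • B)
      = NormedSpace.exp (u • B) * NormedSpace.exp (s • A)) : A * B = B * A :=
  (comm_left fun s => (comm_left (h s)).symm).symm

variable {D : ExpData E G} {n : ℕ} {ρ : G →* Mat n} {L : E →ₗ[ℝ] Mat n}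

theorem lie_comm (hL : ∀ X, ρ (D.exp X) = NormedSpace.exp (L X)) {X Y : E}
    (h : ∀ s u : ℝ, D.exp (s • X) * D.exp (u • Y) = D.exp (u • Y) * D.exp (s • X)) :
    L X * L Y = L Y * L X := by
  refine comm_of_exp fun s u => ?_
  rw [← map_smul, ← map_smul, ← hL, ← hL, ← map_mul, ← map_mul, h]

theorem grp_comm (hρ : IsRep ρ) (hL : ∀ X, ρ (D.exp X) = NormedSpace.exp (L X)) {X Y : E}
    (h : L X * L Y = L Y * L X) : D.exp X * D.exp Y = D.exp Y * D.exp X := by
  apply hρ.inj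
  rw [map_mul, map_mul, hL, hL]
  exact (Commute.exp (show Commute (L X) (L Y) from h)).eq

theorem span_lie [IsTopologicalGroup G] (D : ExpData E G) (T : Subgroup G)
    (hT : IsClosed (T : Set G)) :
    Submodule.span ℝ {X : E | ∀ s : ℝ, D.exp (s • X) ∈ T} = D.lie T hT :=
  Submodule.span_eq (D.lie T hT)

theorem mem_of_comm [IsTopologicalGroup G] (D : ExpData E G) {T : Subgroup G}
    (hT : F.IsMaxTorus T) {X : E} (hX : ∀ x ∈ T, ∀ s : ℝ, x * D.exp (s • X) = D.exp (s • X) * x)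
    (s : ℝ) : D.exp (s • X) ∈ T := by
  have := D.t2Space
  obtain ⟨⟨-, hconn, hcomm⟩, hmax⟩ := hT
  let S0 : Subgroup G :=
    { carrier := {g | ∃ x ∈ T, ∃ u : ℝ, g = x * D.exp (u • X)}
      one_mem' := ⟨1, T.one_mem, 0, by rw [zero_smul, D.exp_zero, mul_one]⟩
      mul_mem' := by
        rintro _ _ ⟨x, hx, u, rfl⟩ ⟨y, hy, v, rfl⟩
        refine ⟨x * y, T.mul_mem hx hy, u + v, ?_⟩
        rw [D.exp_add_smul, mul_assoc, ← mul_assoc (D.exp (u • X)), ← hX y hy]
        simp only [mul_assoc]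
      inv_mem' := by
        rintro _ ⟨x, hx, u, rfl⟩
        refine ⟨x⁻¹, T.inv_mem hx, -u, ?_⟩
        rw [hX x hx, mul_inv_rev, neg_smul, D.exp_neg] }
  have hc0 : IsConnected (S0 : Set G) := by
    have h1 := (hconn.prod (isConnected_univ (α := ℝ))).image
      (fun p : G × ℝ => p.1 * D.exp (p.2 • X))
      (continuous_fst.mul (D.continuous_exp.comp (continuous_snd.smul continuous_const))).continuousOn
    have h2 : (S0 : Set G) = (fun p : G × ℝ => p.1 * D.exp (p.2 • X)) '' ((T : Set G) ×ˢ univ) := by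
      ext g
      constructor
      · rintro ⟨x, hx, u, rfl⟩
        exact ⟨(x, u), ⟨hx, mem_univ _⟩, rfl⟩
      · rintro ⟨p, hp, rfl⟩
        exact ⟨p.1, hp.1, p.2, rfl⟩
    rw [h2]
    exact h1
  have hm0 : ∀ a ∈ (S0 : Set G), ∀ b ∈ (S0 : Set G), a * b = b * a := by
    rintro _ ⟨x, hx, u, rfl⟩ _ ⟨y, hy, v, rfl⟩
    have e1 : x * D.exp (u • X) * (y * D.exp (v • X)) = x * y * D.exp ((u + v) • X) := by
      rw [D.exp_add_smul, mul_assoc, ← mul_assoc (D.exp (u • X)), ← hX y hy]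
      simp only [mul_assoc]
    have e2 : y * D.exp (v • X) * (x * D.exp (u • X)) = y * x * D.exp ((v + u) • X) := by
      rw [D.exp_add_smul, mul_assoc, ← mul_assoc (D.exp (v • X)), ← hX x hx]
      simp only [mul_assoc]
    rw [e1, e2, hcomm x hx y hy, add_comm]
  have hm1 : ∀ a ∈ (S0 : Set G), ∀ b ∈ closure (S0 : Set G), a * b = b * a := fun a ha =>
    closure_minimal (hm0 a ha) (isClosed_eq (by fun_prop) (by fun_prop))
  have hm2 : ∀ b ∈ closure (S0 : Set G), ∀ a ∈ closure (S0 : Set G), a * b = b * a := fun b hb =>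
    closure_minimal (fun a ha => hm1 a ha b hb) (isClosed_eq (by fun_prop) (by fun_prop))
  have hle : T ≤ S0.topologicalClosure := fun x hx =>
    S0.le_topologicalClosure ⟨x, hx, 0, by rw [zero_smul, D.exp_zero, mul_one]⟩
  have heq := hmax S0.topologicalClosure
    ⟨S0.isClosed_topologicalClosure, hc0.closure, fun x hx y hy => hm2 y hy x hx⟩ hle
  rw [← heq]
  exact S0.le_topologicalClosure ⟨1, T.one_mem, s, (one_mul _).symm⟩

end BrFaith

open BrFaith

theorem brfaith : BRFAITH := by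
  intro E _ _ _ G _ _ _ _ D hsep
  obtain ⟨n, ρ, hρ⟩ := exists_rep D hsep
  obtain ⟨L, hL⟩ := D.exists_deriv_alg ρ hρ.cont
  have hL' : ∀ (s : ℝ) (X : E), ρ (D.exp (s • X)) = NormedSpace.exp (s • L X) := fun s X =>
    (hL _).trans (congrArg (fun M : Mat n => NormedSpace.exp M) (L.map_smul s X))
  refine ⟨n, ρ, L.toLinearMap, hρ, fun X Y h => ?_, le_antisymm ?_ ?_, hL, fun X => ?_⟩
  · refine D.eq_of_forall_exp_smul fun s => hρ.inj ?_
    rw [hL', hL']
    exact congrArg (fun M : Mat n => NormedSpace.exp (s • M)) h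
  · rintro _ ⟨X, rfl⟩
    exact Submodule.subset_span fun s => ⟨_, hL' s X⟩
  · refine Submodule.span_le.2 fun Y hY => ?_
    have h1 : ∀ s : ℝ, ρ (Function.invFun ρ (NormedSpace.exp (s • Y))) = NormedSpace.exp (s • Y) :=
      fun s => Function.invFun_eq (hY s)
    let γ : Multiplicative ℝ →* G := MonoidHom.mk'
      (fun s => Function.invFun ρ (NormedSpace.exp (s.toAdd • Y))) (fun s u => hρ.inj (by
        rw [map_mul ρ, h1, h1, h1, toAdd_mul]
        exact exp_add_smul_real _ Y _ _))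
    have hγ : Continuous γ := by
      rw [(hρ.cont.isClosedEmbedding hρ.inj).isInducing.continuous_iff]
      have h2 : (ρ ∘ γ) = fun s : Multiplicative ℝ => NormedSpace.exp (s.toAdd • Y) :=
        funext fun s => h1 _
      rw [h2]
      exact continuous_exp_real.comp (continuous_toAdd.smul continuous_const)
    obtain ⟨L', hL2⟩ := realData.exists_deriv D γ hγ
    refine ⟨L' 1, eq_of_forall_exp_smul_alg fun s => ?_⟩
    have h3 : s • L' 1 = L' s := by rw [← map_smul, smul_eq_mul, mul_one]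
    refine (hL' s (L' 1)).symm.trans (Eq.trans ?_ (h1 s))
    rw [h3, ← hL2 s]
    rfl
  · unfold expG
    rw [show NormedSpace.exp (L.toLinearMap X) = ρ (D.exp X) from (hL X).symm]
    exact Function.leftInverse_invFun hρ.inj _

theorem brtor : BRTOR := by
  intro E _ _ _ G _ _ _ _ D n ρ L hρ hr hL
  have := D.t2Space
  refine ⟨fun T hT => ?_, fun Z => ?_⟩
  · rw [span_lie D T hT.1.1]
    refine ⟨hr ▸ LinearMap.map_le_range, ?_, ?_⟩
    · rintro _ ⟨X, hX, rfl⟩ _ ⟨Y, hY, rfl⟩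
      exact lie_comm hL fun s u => hT.1.2.2 _ (hX s) _ (hY u)
    · intro X' hX' hc
      rw [← hr] at hX'
      obtain ⟨X, rfl⟩ := hX'
      refine ⟨X, mem_of_comm D hT fun x hx s => ?_, rfl⟩
      have : ConnectedSpace T := isConnected_iff_connectedSpace.1 hT.1.2.1
      refine (D.sub T hT.1.1).induction_on
        (P := fun k : T => (k : G) * D.exp (s • X) = D.exp (s • X) * k) (fun W => ?_)
        (fun a b ha hb => ?_) ⟨x, hx⟩
      · refine grp_comm hρ hL ?_
        rw [map_smul, mul_smul_comm, smul_mul_assoc, hc _ ⟨W.1, W.2, rfl⟩]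
      · rw [Subgroup.coe_mul, mul_assoc, hb, ← mul_assoc, ha, mul_assoc]
  · have hcl : IsClosed (Subgroup.center G : Set G) := by
      have h1 : (Subgroup.center G : Set G) = ⋂ g : G, {z | g * z = z * g} := by
        ext z
        simp [Subgroup.mem_center_iff]
      rw [h1]
      exact isClosed_iInter fun g => isClosed_eq (by fun_prop) (by fun_prop)
    rw [span_lie D _ hcl, D.mem_lie]
    constructor
    · intro h X
      exact lie_comm hL fun s u => (Subgroup.mem_center_iff.1 (h s) _).symm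
    · intro h s
      rw [Subgroup.mem_center_iff]
      intro g
      refine D.induction_on (P := fun g => g * D.exp (s • Z) = D.exp (s • Z) * g) (fun W => ?_)
        (fun a b ha hb => ?_) g
      · refine grp_comm hρ hL ?_
        rw [map_smul, mul_smul_comm, smul_mul_assoc, h]
      · rw [mul_assoc, hb, ← mul_assoc, ha, mul_assoc]

end Pool.Agent.P.MP_7211b7_an
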