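import Pool.Agent.P.MP_7211b7_an.DefsBr

/-!
# MP_7211b7_an: Peter-Weyl, finite dimensional unitary representations separate points
-/

open MeasureTheory ComplexConjugate
open scoped ENNReal Matrix BoundedContinuousFunction

set_option linter.unusedSectionVars false

namespace Pool.Agent.P.MP_7211b7_an

namespace BrPW

section Kernel

variable {Y H : Type} [TopologicalSpace Y] [CompactSpace Y] [NormedAddCommGroup H]
  [InnerProductSpace ℂ H]

/-- pairing with a continuous family of vectors, as a linear map -/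
noncomputable def pairL (K : C(Y, H)) : H →ₗ[ℂ] C(Y, ℂ) where
  toFun f := ⟨fun y => inner ℂ (K y) f, by fun_prop⟩
  map_add' f f' := by ext y; simp
  map_smul' c f := by ext y; simp

theorem pairL_norm (K : C(Y, H)) (f : H) : ‖pairL K f‖ ≤ ‖K‖ * ‖f‖ := by
  refine (ContinuousMap.norm_le _ (by positivity)).2 fun y => ?_
  calc ‖pairL K f y‖ = ‖inner ℂ (K y) f‖ := rfl
    _ ≤ ‖K y‖ * ‖f‖ := norm_inner_le_norm _ _
    _ ≤ ‖K‖ * ‖f‖ := by gcongr; exact K.norm_coe_le_norm y

/-- pairing with a continuous family of vectors -/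
noncomputable def pairC (K : C(Y, H)) : H →L[ℂ] C(Y, ℂ) :=
  (pairL K).mkContinuous ‖K‖ (pairL_norm K)

@[simp] theorem pairC_apply (K : C(Y, H)) (f : H) (y : Y) : pairC K f y = inner ℂ (K y) f := rfl

theorem pairC_compact (K : C(Y, H)) : IsCompactOperator (pairC K) := by
  let Φ := ContinuousMap.linearIsometryBoundedOfCompact Y ℂ ℂ
  let S' : H →L[ℂ] (Y →ᵇ ℂ) := Φ.toContinuousLinearEquiv.toContinuousLinearMap.comp (pairC K)
  have hS' : ∀ f y, S' f y = inner ℂ (K y) f := fun f y => rfl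
  have h1 : IsCompactOperator S' := by
    refine (isCompactOperator_iff_isCompact_closure_image_closedBall S'.toLinearMap
      (r := 1) one_pos).2 ?_
    refine BoundedContinuousFunction.arzela_ascoli (Metric.closedBall (0 : ℂ) ‖K‖)
      (isCompact_closedBall _ _) _ ?_ ?_
    · rintro _ y ⟨f, hf, rfl⟩
      rw [mem_closedBall_zero_iff] at hf ⊢
      calc ‖S'.toLinearMap f y‖ = ‖inner ℂ (K y) f‖ := rfl
        _ ≤ ‖K y‖ * ‖f‖ := norm_inner_le_norm _ _
        _ ≤ ‖K‖ * 1 := by gcongr; exact K.norm_coe_le_norm y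
        _ = ‖K‖ := mul_one _
    · intro y0
      rw [Metric.equicontinuousAt_iff_right]
      intro ε hε
      have hc : ∀ᶠ y in nhds y0, dist (K y) (K y0) < ε :=
        (Metric.tendsto_nhds.1 (K.continuous.tendsto y0)) ε hε
      filter_upwards [hc] with y hy
      rintro ⟨_, f, hf, rfl⟩
      rw [mem_closedBall_zero_iff] at hf
      calc dist (S'.toLinearMap f y0) (S'.toLinearMap f y)
          = ‖inner ℂ (K y0 - K y) f‖ := by
            rw [dist_eq_norm, inner_sub_left]; rfl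
        _ ≤ ‖K y0 - K y‖ * ‖f‖ := norm_inner_le_norm _ _
        _ ≤ ‖K y0 - K y‖ * 1 := by gcongr
        _ < ε := by rwa [mul_one, ← dist_eq_norm, dist_comm]
  have h2 := h1.clm_comp Φ.symm.toContinuousLinearEquiv.toContinuousLinearMap
  have h3 : (Φ.symm.toContinuousLinearEquiv.toContinuousLinearMap ∘ S' : H → C(Y, ℂ))
      = pairC K := by
    funext f
    simp [S']
  rwa [h3] at h2

end Kernel

variable {G : Type} [Group G] [TopologicalSpace G] [IsTopologicalGroup G] [CompactSpace G]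
  [T2Space G] [SecondCountableTopology G] [MeasurableSpace G] [BorelSpace G]
  (μ : Measure G) [Hr μ]

theorem ip_sum {ι : Type} (s : Finset ι) (c : ι → ℂ) (f : ι → C(G, ℂ)) (h : C(G, ℂ)) :
    ip μ (∑ i ∈ s, c i • f i) h = ∑ i ∈ s, c i * ip μ (f i) h := by
  simp only [ip_eq_inner, map_sum, map_smul, inner_sum, inner_smul_right]

theorem ip_conj (f h : C(G, ℂ)) : conj (ip μ f h) = ip μ h f := by
  simp only [ip_eq_inner, inner_conj_symm]

theorem ip_tr (k : G) (f h : C(G, ℂ)) : ip μ f (tr2 1 k h) = ip μ (tr2 1 k⁻¹ f) h := by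
  unfold ip
  rw [← integral_mul_right_eq_self (μ := μ) (fun g => tr2 1 k⁻¹ f g * conj (h g)) k]
  simp

include μ in
/-- the representation on a finite dimensional right invariant space of functions -/
theorem rep_of_invariant (V : Submodule ℂ C(G, ℂ)) [FiniteDimensional ℂ V]
    (hV : ∀ k, ∀ u ∈ V, tr2 1 k u ∈ V) (g : G) (u : C(G, ℂ)) (hu : u ∈ V) (hg : u g ≠ u 1) :
    ∃ (n : ℕ) (ρ : G →* Mat n), Continuous ρ ∧
      (∀ h, ρ h ∈ Matrix.unitaryGroup (Fin n) ℂ) ∧ ρ g ≠ 1 := by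
  obtain ⟨e, he, hon, hexp⟩ := exists_onb μ V
  let M : G → Mat (Module.finrank ℂ V) := fun h => Matrix.of fun i j => ip μ (tr2 1 h (e j)) (e i)
  have hM : ∀ h i j, M h i j = ip μ (tr2 1 h (e j)) (e i) := fun _ _ _ => rfl
  have htr : ∀ h j, tr2 1 h (e j) = ∑ m, M h m j • e m := fun h j => hexp _ (hV h _ (he j))
  let ρ : G →* Mat (Module.finrank ℂ V) :=
    { toFun := M
      map_one' := by
        ext i j
        rw [hM, tr2_one, hon, Matrix.one_apply]
        simp [eq_comm]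
      map_mul' := fun h h' => by
        ext i j
        have h1 : tr2 1 (h * h') (e j) = tr2 1 h (tr2 1 h' (e j)) := by
          rw [tr2_tr2, one_mul]
        rw [hM, h1, htr h' j, map_sum, Matrix.mul_apply]
        simp only [map_smul]
        rw [ip_sum]
        exact Finset.sum_congr rfl fun m _ => by rw [hM h i m, mul_comm] }
  have hρ : ∀ h, ρ h = M h := fun _ => rfl
  have hinv : ∀ h, (ρ h)ᴴ = ρ h⁻¹ := by
    intro h
    ext i j
    rw [Matrix.conjTranspose_apply, hρ, hρ, hM, hM, ← ip_tr]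
    exact ip_conj μ _ _
  refine ⟨_, ρ, ?_, fun h => ?_, fun h1 => hg ?_⟩
  · refine continuous_matrix fun i j => ?_
    simp only [hρ, hM]
    unfold ip
    exact continuous_integral_param μ (by
      simp only [tr2_apply]
      unfold Function.uncurry
      fun_prop)
  · rw [Matrix.mem_unitaryGroup_iff', Matrix.star_eq_conjTranspose, hinv, ← map_mul,
      inv_mul_cancel, map_one]
  · have h2 : ∀ j, tr2 1 g (e j) = e j := by
      intro j
      rw [htr, ← hρ, h1]
      simp [Matrix.one_apply]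
    have h3 : tr2 1 g u = u := by
      conv_lhs => rw [hexp u hu]
      rw [map_sum]
      simp only [map_smul, h2]
      exact (hexp u hu).symm
    simpa using congrArg (fun f : C(G, ℂ) => f 1) h3

/-- a real symmetric function separating `g` from `1` -/
theorem exists_kernel {g : G} (hg : g ≠ 1) :
    ∃ k : C(G, ℂ), (∀ z, conj (k z⁻¹) = k z) ∧ k g ≠ k 1 := by
  obtain ⟨k0, h0, h1, -⟩ := exists_continuous_zero_one_of_isClosed (s := {g}) (t := {1})
    isClosed_singleton isClosed_singleton (by simpa using hg)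
  have h0' : k0 g = 0 := h0 rfl
  have h1' : k0 1 = 1 := h1 rfl
  refine ⟨⟨fun z => ((k0 z * k0 z⁻¹ : ℝ) : ℂ), by fun_prop⟩, fun z => ?_, ?_⟩
  · simp [mul_comm]
  · simp [h0', h1']

/-- the family `y ↦ (w ↦ k (y w⁻¹))` -/
noncomputable def fam (k : C(G, ℂ)) : C(G, C(G, ℂ)) :=
  ContinuousMap.curry ⟨fun p : G × G => k (p.1 * p.2⁻¹), by fun_prop⟩

@[simp] theorem fam_apply (k : C(G, ℂ)) (y w : G) : fam k y w = k (y * w⁻¹) := rfl

/-- the same family in `L²` -/
noncomputable def famL (k : C(G, ℂ)) : C(G, Lp ℂ 2 μ) :=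
  ⟨fun y => ContinuousMap.toLp 2 μ ℂ (fam k y),
    (ContinuousMap.toLp 2 μ ℂ).continuous.comp (fam k).continuous⟩

theorem famL_apply (k : C(G, ℂ)) (y : G) : famL μ k y = ContinuousMap.toLp 2 μ ℂ (fam k y) := rfl

theorem conv_apply (k u : C(G, ℂ)) (y : G) :
    pairC (famL μ k) (ContinuousMap.toLp 2 μ ℂ u) y = ∫ w, u w * conj (k (y * w⁻¹)) ∂μ := by
  rw [pairC_apply, famL_apply, ← ip_eq_inner]
  rfl

theorem conv_tr (k u : C(G, ℂ)) (h : G) :
    pairC (famL μ k) (ContinuousMap.toLp 2 μ ℂ (tr2 1 h u))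
      = tr2 1 h (pairC (famL μ k) (ContinuousMap.toLp 2 μ ℂ u)) := by
  ext y
  rw [tr2_apply, conv_apply, conv_apply,
    ← integral_mul_right_eq_self (μ := μ) (fun w => u w * conj (k (1 * y * h * w⁻¹))) h]
  simp [mul_assoc]

/-- the convolution operator on `L²` -/
noncomputable def op (k : C(G, ℂ)) : Lp ℂ 2 μ →L[ℂ] Lp ℂ 2 μ :=
  (ContinuousMap.toLp 2 μ ℂ).comp (pairC (famL μ k))

theorem op_apply (k : C(G, ℂ)) (f : Lp ℂ 2 μ) :
    op μ k f = ContinuousMap.toLp 2 μ ℂ (pairC (famL μ k) f) := rfl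

theorem op_compact (k : C(G, ℂ)) : IsCompactOperator (op μ k) :=
  (pairC_compact (famL μ k)).clm_comp (ContinuousMap.toLp 2 μ ℂ)

theorem op_symm {k : C(G, ℂ)} (hk : ∀ z, conj (k z⁻¹) = k z) : (op μ k).IsSymmetric := by
  have hd : DenseRange (ContinuousMap.toLp 2 μ ℂ : C(G, ℂ) →L[ℂ] Lp ℂ 2 μ) :=
    ContinuousMap.toLp_denseRange ℂ μ ℂ (by simp)
  intro f f'
  change inner ℂ (op μ k f) f' = inner ℂ f (op μ k f')
  refine hd.induction_on₂ (p := fun f f' => inner ℂ (op μ k f) f' = inner ℂ f (op μ k f'))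
    (isClosed_eq (by fun_prop) (by fun_prop)) (fun u v => ?_) f f'
  rw [op_apply, op_apply, ← ip_eq_inner, ← ip_eq_inner]
  unfold ip
  simp only [conv_apply]
  have h1 : ∀ y, v y * conj (∫ w, u w * conj (k (y * w⁻¹)) ∂μ)
      = ∫ w, v y * (conj (u w) * k (y * w⁻¹)) ∂μ := by
    intro y
    rw [← integral_conj, integral_const_mul]
    simp
  have h2 : ∀ w, (∫ y, v y * conj (k (w * y⁻¹)) ∂μ) * conj (u w)
      = ∫ y, v y * (conj (u w) * k (y * w⁻¹)) ∂μ := by
    intro w
    rw [← integral_mul_const]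
    refine integral_congr_ae (Filter.Eventually.of_forall fun y => ?_)
    have := hk (y * w⁻¹)
    simp only [mul_inv_rev, inv_inv] at this
    simp only [this]
    ring
  simp only [h1, h2]
  refine integral_integral_swap ?_
  refine Continuous.integrable_of_hasCompactSupport ?_ (HasCompactSupport.of_compactSpace _)
  unfold Function.uncurry
  fun_prop

/-- continuous eigenfunctions -/
noncomputable def eig (k : C(G, ℂ)) (c : ℂ) : Submodule ℂ C(G, ℂ) :=
  Module.End.eigenspace ((pairC (famL μ k)).comp (ContinuousMap.toLp 2 μ ℂ)).toLinearMap c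

theorem mem_eig {k : C(G, ℂ)} {c : ℂ} {u : C(G, ℂ)} :
    u ∈ eig μ k c ↔ pairC (famL μ k) (ContinuousMap.toLp 2 μ ℂ u) = c • u :=
  Module.End.mem_eigenspace_iff

theorem eig_fin (k : C(G, ℂ)) {c : ℂ} (hc : c ≠ 0) : FiniteDimensional ℂ (eig μ k c) := by
  have := ContinuousLinearMap.finite_dimensional_eigenspace (op_compact μ k) c hc
  let J : C(G, ℂ) →ₗ[ℂ] Lp ℂ 2 μ := (ContinuousMap.toLp 2 μ ℂ).toLinearMap
  have hJ : ∀ u ∈ eig μ k c, J u ∈ Module.End.eigenspace (op μ k).toLinearMap c := by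
    intro u hu
    rw [Module.End.mem_eigenspace_iff]
    change op μ k (ContinuousMap.toLp 2 μ ℂ u) = c • ContinuousMap.toLp 2 μ ℂ u
    rw [op_apply, (mem_eig μ).1 hu, map_smul]
  refine FiniteDimensional.of_injective (J.restrict hJ) fun u v huv => ?_
  exact Subtype.ext (ContinuousMap.toLp_injective (p := 2) (𝕜 := ℂ) μ (congrArg Subtype.val huv))

theorem eig_tr (k : C(G, ℂ)) (c : ℂ) (h : G) (u : C(G, ℂ)) (hu : u ∈ eig μ k c) :
    tr2 1 h u ∈ eig μ k c := by
  rw [mem_eig] at hu ⊢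
  rw [conv_tr, hu, map_smul]

theorem exists_eig {k : C(G, ℂ)} (hk : ∀ z, conj (k z⁻¹) = k z) {g : G} (hg : k g ≠ k 1) :
    ∃ c : ℂ, c ≠ 0 ∧ ∃ u ∈ eig μ k c, u g ≠ u 1 := by
  by_contra hcon
  push Not at hcon
  have hbot := ContinuousLinearMap.orthogonalComplement_iSup_eigenspaces_eq_bot
    (op_compact μ k) (op_symm μ hk)
  have hmem : famL μ k g - famL μ k 1 ∈
      (⨆ c, Module.End.eigenspace (op μ k : Module.End ℂ (Lp ℂ 2 μ)) c)ᗮ := by
    rw [← Submodule.iInf_orthogonal, Submodule.mem_iInf]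
    intro c
    rw [Submodule.mem_orthogonal']
    intro f hf
    have hf' : op μ k f = c • f := Module.End.mem_eigenspace_iff.1 hf
    rw [inner_sub_left, ← pairC_apply, ← pairC_apply, sub_eq_zero]
    by_cases hc : c = 0
    · have h0 : pairC (famL μ k) f = 0 := by
        apply ContinuousMap.toLp_injective (p := 2) (𝕜 := ℂ) μ
        rw [← op_apply, hf', hc, zero_smul, map_zero]
      simp only [h0, ContinuousMap.zero_apply]
    · refine hcon c hc _ ((mem_eig μ).2 ?_)
      rw [← op_apply, hf', map_smul]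
  rw [hbot, Submodule.mem_bot, sub_eq_zero, famL_apply, famL_apply] at hmem
  have h1 := ContinuousMap.toLp_injective (p := 2) (𝕜 := ℂ) μ hmem
  exact hg (by simpa using congrArg (fun f : C(G, ℂ) => f 1) h1)

end BrPW

theorem brpw : BRPW := by
  intro G _ _ _ _ _ _ _ _ μ _ g hg
  obtain ⟨k, hk, hkg⟩ := BrPW.exists_kernel hg
  obtain ⟨c, hc, u, hu, hug⟩ := BrPW.exists_eig μ hk hkg
  have := BrPW.eig_fin μ k hc
  exact BrPW.rep_of_invariant μ (BrPW.eig μ k c) (BrPW.eig_tr μ k c) g u hu hug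

end Pool.Agent.P.MP_7211b7_an
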