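import Pool.Agent.P.MP_7211b7_an.DefsB

open MeasureTheory

namespace Pool.Agent.P.MP_7211b7_an

namespace Comb

noncomputable def KK (L : ℕ) (x : ℝ) : ℝ :=
  ∑ j ∈ Finset.range L, ∑ k ∈ Finset.range L, Real.cos (((j : ℝ) - k) * x)

theorem KK_eq (L : ℕ) (x : ℝ) :
    KK L x = (∑ j ∈ Finset.range L, Real.cos (j * x)) ^ 2 +
      (∑ j ∈ Finset.range L, Real.sin (j * x)) ^ 2 := by
  unfold KK
  rw [pow_two, pow_two, Finset.sum_mul_sum, Finset.sum_mul_sum, ← Finset.sum_add_distrib]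
  refine Finset.sum_congr rfl fun j _ => ?_
  rw [← Finset.sum_add_distrib]
  refine Finset.sum_congr rfl fun k _ => ?_
  rw [sub_mul, Real.cos_sub]

theorem KK_nonneg (L : ℕ) (x : ℝ) : 0 ≤ KK L x := by
  rw [KK_eq]; positivity

theorem KK_lower (L : ℕ) (y δ : ℝ) (a : ℤ) (hy : |y - a| ≤ δ) (hL : L * δ ≤ 1 / 6) :
    (L : ℝ) ^ 2 / 4 ≤ KK L (2 * Real.pi * y) := by
  have h1 : ∀ j ∈ Finset.range L, (1 / 2 : ℝ) ≤ Real.cos (j * (2 * Real.pi * y)) := by
    intro j hj
    have hjL : (j : ℝ) ≤ L := by exact_mod_cast (Finset.mem_range.1 hj).le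
    have e : (j : ℝ) * (2 * Real.pi * y) =
        2 * Real.pi * (j * (y - a)) + ((j * a : ℤ) : ℝ) * (2 * Real.pi) := by
      push_cast; ring
    rw [e, Real.cos_add_int_mul_two_pi, ← Real.cos_abs, ← Real.cos_pi_div_three]
    have h0 : 0 ≤ |y - a| := abs_nonneg _
    have h2 : |2 * Real.pi * (j * (y - a))| ≤ Real.pi / 3 := by
      rw [abs_mul, abs_mul (j : ℝ), abs_of_pos Real.two_pi_pos, abs_of_nonneg (Nat.cast_nonneg j)]
      have h3 : (j : ℝ) * |y - a| ≤ 1 / 6 :=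
        (mul_le_mul hjL hy h0 (Nat.cast_nonneg L)).trans hL
      nlinarith [Real.pi_pos]
    exact Real.cos_le_cos_of_nonneg_of_le_pi (abs_nonneg _) (by linarith [Real.pi_pos]) h2
  have h2 : (L : ℝ) / 2 ≤ ∑ j ∈ Finset.range L, Real.cos (j * (2 * Real.pi * y)) := by
    have := Finset.card_nsmul_le_sum _ _ _ h1
    simp only [Finset.card_range, nsmul_eq_mul] at this
    linarith
  rw [KK_eq]
  have h3 : ((L : ℝ) / 2) ^ 2 ≤ (∑ j ∈ Finset.range L, Real.cos (j * (2 * Real.pi * y))) ^ 2 :=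
    pow_le_pow_left₀ (by positivity) h2 2
  nlinarith [sq_nonneg (∑ j ∈ Finset.range L, Real.sin (j * (2 * Real.pi * y)))]

theorem ind_le (N b L : ℕ) (hL0 : 0 < L) (hL : L * (b / (N : ℝ) ^ 2) ≤ 1 / 6) (τ : ℝ) :
    (Maj N b).indicator (fun _ => (1 : ℝ)) τ ≤
      4 / (L : ℝ) ^ 2 * ∑ q ∈ Finset.Icc 1 b, KK L (2 * q * τ) := by
  have hL1 : (0 : ℝ) < L := by exact_mod_cast hL0
  by_cases h : τ ∈ Maj N b
  · rw [Set.indicator_of_mem h]
    obtain ⟨q, hq1, hq2, a, ha⟩ := h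
    have h1 := KK_lower L _ _ a ha hL
    have e : 2 * Real.pi * (q * τ / Real.pi) = 2 * q * τ := by
      field_simp
    rw [e] at h1
    have h2 : KK L (2 * q * τ) ≤ ∑ q ∈ Finset.Icc 1 b, KK L (2 * q * τ) :=
      Finset.single_le_sum (f := fun q : ℕ => KK L (2 * q * τ)) (fun _ _ => KK_nonneg _ _)
        (Finset.mem_Icc.2 ⟨hq1, hq2⟩)
    calc (1 : ℝ) = 4 / (L : ℝ) ^ 2 * ((L : ℝ) ^ 2 / 4) := by field_simp
      _ ≤ _ := mul_le_mul_of_nonneg_left (h1.trans h2) (by positivity)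
  · rw [Set.indicator_of_notMem h]
    exact mul_nonneg (by positivity) (Finset.sum_nonneg fun _ _ => KK_nonneg _ _)

noncomputable def Cc (T : ℝ) (h : ℝ → ℝ) (w : ℝ) : ℝ :=
  ∫ s in Set.Icc (-T) T, h s * Real.cos (w * s)

noncomputable def Ss (T : ℝ) (h : ℝ → ℝ) (w : ℝ) : ℝ :=
  ∫ s in Set.Icc (-T) T, h s * Real.sin (w * s)

noncomputable def EE (θ T : ℝ) (h : ℝ → ℝ) (ω : ℤ) : ℝ :=
  Cc T h (2 * θ * ω) ^ 2 + Ss T h (2 * θ * ω) ^ 2

theorem EE_nonneg (θ T : ℝ) (h : ℝ → ℝ) (ω : ℤ) : 0 ≤ EE θ T h ω := by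
  unfold EE; positivity

theorem int_h {T B : ℝ} {h : ℝ → ℝ} (hm : Measurable h) (h0 : ∀ s, 0 ≤ h s) (hB : ∀ s, h s ≤ B) :
    Integrable h (volume.restrict (Set.Icc (-T) T)) :=
  Integrable.of_bound hm.aestronglyMeasurable B
    (Filter.Eventually.of_forall fun s => by rw [Real.norm_eq_abs, abs_of_nonneg (h0 s)]; exact hB s)

theorem int_cos {μ : Measure ℝ} {h : ℝ → ℝ} (hi : Integrable h μ) (w : ℝ) :
    Integrable (fun s => h s * Real.cos (w * s)) μ :=
  hi.mul_bdd (c := 1) (by fun_prop)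
    (Filter.Eventually.of_forall fun s => by rw [Real.norm_eq_abs]; exact Real.abs_cos_le_one _)

theorem int_sin {μ : Measure ℝ} {h : ℝ → ℝ} (hi : Integrable h μ) (w : ℝ) :
    Integrable (fun s => h s * Real.sin (w * s)) μ :=
  hi.mul_bdd (c := 1) (by fun_prop)
    (Filter.Eventually.of_forall fun s => by rw [Real.norm_eq_abs]; exact Real.abs_sin_le_one _)

theorem cos_split (h : ℝ → ℝ) (w t s : ℝ) :
    Real.cos (w * (t - s)) * (h t * h s) =
      (h t * Real.cos (w * t)) * (h s * Real.cos (w * s)) +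
        (h t * Real.sin (w * t)) * (h s * Real.sin (w * s)) := by
  rw [mul_sub, Real.cos_sub]; ring

theorem inner_int {T : ℝ} {h : ℝ → ℝ} (hi : Integrable h (volume.restrict (Set.Icc (-T) T)))
    (w t : ℝ) :
    Integrable (fun s => Real.cos (w * (t - s)) * (h t * h s))
      (volume.restrict (Set.Icc (-T) T)) := by
  simp only [cos_split]
  exact ((int_cos hi w).const_mul _).add ((int_sin hi w).const_mul _)

theorem inner_eq {T : ℝ} {h : ℝ → ℝ} (hi : Integrable h (volume.restrict (Set.Icc (-T) T)))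
    (w t : ℝ) :
    ∫ s in Set.Icc (-T) T, Real.cos (w * (t - s)) * (h t * h s) =
      (h t * Real.cos (w * t)) * Cc T h w + (h t * Real.sin (w * t)) * Ss T h w := by
  simp only [cos_split]
  rw [integral_add ((int_cos hi w).const_mul _) ((int_sin hi w).const_mul _), integral_const_mul,
    integral_const_mul]
  rfl

theorem outer_int {T : ℝ} {h : ℝ → ℝ} (hi : Integrable h (volume.restrict (Set.Icc (-T) T)))
    (w : ℝ) :
    Integrable (fun t => (h t * Real.cos (w * t)) * Cc T h w + (h t * Real.sin (w * t)) * Ss T h w)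
      (volume.restrict (Set.Icc (-T) T)) :=
  ((int_cos hi w).mul_const _).add ((int_sin hi w).mul_const _)

theorem outer_eq {T : ℝ} {h : ℝ → ℝ} (hi : Integrable h (volume.restrict (Set.Icc (-T) T)))
    (w : ℝ) :
    ∫ t in Set.Icc (-T) T,
      ((h t * Real.cos (w * t)) * Cc T h w + (h t * Real.sin (w * t)) * Ss T h w) =
      Cc T h w ^ 2 + Ss T h w ^ 2 := by
  rw [integral_add ((int_cos hi w).mul_const _) ((int_sin hi w).mul_const _), integral_mul_const,
    integral_mul_const, pow_two, pow_two]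
  rfl

theorem double_le {θ T : ℝ} {h : ℝ → ℝ} (hi : Integrable h (volume.restrict (Set.Icc (-T) T)))
    (h0 : ∀ s, 0 ≤ h s) (N b L : ℕ) (hL0 : 0 < L) (hL : L * (b / (N : ℝ) ^ 2) ≤ 1 / 6) :
    ∫ t in Set.Icc (-T) T, ∫ s in Set.Icc (-T) T,
        (Maj N b).indicator (fun _ => (1 : ℝ)) (θ * (t - s)) * (h t * h s) ≤
      4 / (L : ℝ) ^ 2 * ∑ q ∈ Finset.Icc 1 b, ∑ j ∈ Finset.range L, ∑ k ∈ Finset.range L,
        EE θ T h (q * ((j : ℤ) - k)) := by
  set w : ℕ → ℕ → ℕ → ℝ := fun q j k => 2 * θ * ((q * ((j : ℤ) - k) : ℤ) : ℝ) with hw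
  have hind : ∀ x, 0 ≤ (Maj N b).indicator (fun _ => (1 : ℝ)) x := fun x =>
    Set.indicator_nonneg (fun _ _ => zero_le_one) x
  have hin : ∀ t, ∫ s in Set.Icc (-T) T,
      (Maj N b).indicator (fun _ => (1 : ℝ)) (θ * (t - s)) * (h t * h s) ≤
      4 / (L : ℝ) ^ 2 * ∑ q ∈ Finset.Icc 1 b, ∑ j ∈ Finset.range L, ∑ k ∈ Finset.range L,
        ((h t * Real.cos (w q j k * t)) * Cc T h (w q j k) +
          (h t * Real.sin (w q j k * t)) * Ss T h (w q j k)) := by
    intro t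
    have hint : Integrable (fun s => 4 / (L : ℝ) ^ 2 * ∑ q ∈ Finset.Icc 1 b,
        ∑ j ∈ Finset.range L, ∑ k ∈ Finset.range L,
          Real.cos (w q j k * (t - s)) * (h t * h s)) (volume.restrict (Set.Icc (-T) T)) :=
      (integrable_finsetSum _ fun q _ => integrable_finsetSum _ fun j _ =>
        integrable_finsetSum _ fun k _ => inner_int hi _ t).const_mul _
    refine (integral_mono_of_nonneg (Filter.Eventually.of_forall fun s =>
      mul_nonneg (hind _) (mul_nonneg (h0 t) (h0 s))) hint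
      (Filter.Eventually.of_forall fun s => ?_)).trans (le_of_eq ?_)
    · refine (mul_le_mul_of_nonneg_right (ind_le N b L hL0 hL _)
        (mul_nonneg (h0 t) (h0 s))).trans (le_of_eq ?_)
      rw [mul_assoc, Finset.sum_mul]
      congr 1
      refine Finset.sum_congr rfl fun q _ => ?_
      unfold KK
      rw [Finset.sum_mul]
      refine Finset.sum_congr rfl fun j _ => ?_
      rw [Finset.sum_mul]
      refine Finset.sum_congr rfl fun k _ => ?_
      congr 2
      simp only [hw]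
      push_cast; ring
    · rw [integral_const_mul, integral_finsetSum _ fun q _ => integrable_finsetSum _ fun j _ =>
        integrable_finsetSum _ fun k _ => inner_int hi _ t]
      congr 1
      refine Finset.sum_congr rfl fun q _ => ?_
      rw [integral_finsetSum _ fun j _ => integrable_finsetSum _ fun k _ => inner_int hi _ t]
      refine Finset.sum_congr rfl fun j _ => ?_
      rw [integral_finsetSum _ fun k _ => inner_int hi _ t]
      exact Finset.sum_congr rfl fun k _ => inner_eq hi _ t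
  refine (integral_mono_of_nonneg (Filter.Eventually.of_forall fun t => integral_nonneg fun s =>
      mul_nonneg (hind _) (mul_nonneg (h0 t) (h0 s)))
      ((integrable_finsetSum _ fun q _ => integrable_finsetSum _ fun j _ =>
        integrable_finsetSum _ fun k _ => outer_int hi (w q j k)).const_mul _)
      (Filter.Eventually.of_forall hin)).trans (le_of_eq ?_)
  rw [integral_const_mul, integral_finsetSum _ fun q _ => integrable_finsetSum _ fun j _ =>
    integrable_finsetSum _ fun k _ => outer_int hi _]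
  congr 1
  refine Finset.sum_congr rfl fun q _ => ?_
  rw [integral_finsetSum _ fun j _ => integrable_finsetSum _ fun k _ => outer_int hi _]
  refine Finset.sum_congr rfl fun j _ => ?_
  rw [integral_finsetSum _ fun k _ => outer_int hi _]
  exact Finset.sum_congr rfl fun k _ => outer_eq hi _

theorem count_le (E : ℤ → ℝ) (hE : ∀ ω, 0 ≤ E ω) (b L X : ℕ) (hX : b * L ≤ X) :
    ∑ q ∈ Finset.Icc 1 b, ∑ j ∈ Finset.range L, ∑ k ∈ Finset.range L, E (q * ((j : ℤ) - k)) ≤
      L * ∑ ω ∈ Finset.Icc (-(X : ℤ)) X, (dv b ω : ℝ) * E ω := by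
  have h1 : ∀ q ∈ Finset.Icc 1 b, ∀ j ∈ Finset.range L,
      ∑ k ∈ Finset.range L, E (q * ((j : ℤ) - k)) ≤
        ∑ ω ∈ (Finset.Icc (-(X : ℤ)) X).filter (fun ω => (q : ℤ) ∣ ω), E ω := by
    intro q hq j hj
    obtain ⟨hq1, hq2⟩ := Finset.mem_Icc.1 hq
    have hjL := Finset.mem_range.1 hj
    have hinj : Set.InjOn (fun k : ℕ => (q : ℤ) * ((j : ℤ) - k)) (Finset.range L) := by
      intro k _ l _ hkl
      have hq0 : (q : ℤ) ≠ 0 := by exact_mod_cast (by omega : q ≠ 0)
      have := mul_left_cancel₀ hq0 hkl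
      omega
    rw [← Finset.sum_image (f := E) hinj]
    refine Finset.sum_le_sum_of_subset_of_nonneg ?_ fun ω _ _ => hE ω
    intro ω hω
    obtain ⟨k, hk, rfl⟩ := Finset.mem_image.1 hω
    have hkL := Finset.mem_range.1 hk
    refine Finset.mem_filter.2 ⟨?_, Dvd.intro _ rfl⟩
    rw [Finset.mem_Icc, ← abs_le, abs_mul, abs_of_nonneg (Int.natCast_nonneg q)]
    have h2 : |(j : ℤ) - k| ≤ L := by rw [abs_le]; constructor <;> omega
    have h3 : (q : ℤ) ≤ b := by exact_mod_cast hq2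
    have h4 : ((b : ℤ) * L) ≤ X := by exact_mod_cast hX
    exact (mul_le_mul h3 h2 (abs_nonneg _) (Int.natCast_nonneg b)).trans h4
  calc _ ≤ ∑ q ∈ Finset.Icc 1 b, ∑ _j ∈ Finset.range L,
        ∑ ω ∈ (Finset.Icc (-(X : ℤ)) X).filter (fun ω => (q : ℤ) ∣ ω), E ω :=
        Finset.sum_le_sum fun q hq => Finset.sum_le_sum fun j hj => h1 q hq j hj
    _ = L * ∑ q ∈ Finset.Icc 1 b,
        ∑ ω ∈ (Finset.Icc (-(X : ℤ)) X).filter (fun ω => (q : ℤ) ∣ ω), E ω := by
        simp only [Finset.sum_const, Finset.card_range, nsmul_eq_mul]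
        rw [Finset.mul_sum]
    _ = _ := by
        congr 1
        simp only [Finset.sum_filter]
        rw [Finset.sum_comm]
        refine Finset.sum_congr rfl fun ω _ => ?_
        rw [← Finset.sum_filter, Finset.sum_const, nsmul_eq_mul]
        rfl

theorem split_le (E : ℤ → ℝ) (hE : ∀ ω, 0 ≤ E ω) (b X : ℕ) (D M : ℝ) (hD : 0 ≤ D)
    (hM : ∀ ω, E ω ≤ M) :
    ∑ ω ∈ Finset.Icc (-(X : ℤ)) X, (dv b ω : ℝ) * E ω ≤
      D * ∑ ω ∈ Finset.Icc (-(X : ℤ)) X, E ω + b * exc b X D * M := by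
  classical
  have hdv : ∀ ω, (dv b ω : ℝ) ≤ b := fun ω => by
    have : dv b ω ≤ b := by
      unfold dv
      exact (Finset.card_filter_le _ _).trans (by simp)
    exact_mod_cast this
  have h1 : ∀ ω ∈ Finset.Icc (-(X : ℤ)) X, (dv b ω : ℝ) * E ω ≤
      D * E ω + if D < (dv b ω : ℝ) then b * M else 0 := by
    intro ω _
    split_ifs with h
    · have := mul_le_mul (hdv ω) (hM ω) (hE ω) (Nat.cast_nonneg b)
      nlinarith [mul_nonneg hD (hE ω)]
    · rw [add_zero]
      exact mul_le_mul_of_nonneg_right (not_lt.1 h) (hE ω)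
  refine (Finset.sum_le_sum h1).trans (le_of_eq ?_)
  rw [Finset.sum_add_distrib, ← Finset.mul_sum, ← Finset.sum_filter, Finset.sum_const, nsmul_eq_mul]
  unfold exc
  ring

noncomputable def HH (θ T : ℝ) (h : ℝ → ℝ) (ω : ℤ) : ℂ :=
  ∫ s in Set.Icc (-T) T, (h s : ℂ) * Complex.exp (((-(2 * θ * ω * s) : ℝ) : ℂ) * Complex.I)

theorem HH_eq {θ T : ℝ} {h : ℝ → ℝ} (hi : Integrable h (volume.restrict (Set.Icc (-T) T)))
    (ω : ℤ) : ‖HH θ T h ω‖ ^ 2 = EE θ T h ω := by
  have e : HH θ T h ω = (Cc T h (2 * θ * ω) : ℂ) + ((-Ss T h (2 * θ * ω) : ℝ) : ℂ) * Complex.I := by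
    unfold HH Cc Ss
    rw [← integral_neg, ← integral_complex_ofReal, ← integral_complex_ofReal, ← integral_mul_const,
      ← integral_add (int_cos hi _).ofReal ((int_sin hi _).neg.ofReal.mul_const _)]
    refine integral_congr_ae (Filter.Eventually.of_forall fun s => ?_)
    simp only [Complex.exp_mul_I, ← Complex.ofReal_cos, ← Complex.ofReal_sin, Real.cos_neg,
      Real.sin_neg]
    push_cast; ring
  rw [e, Complex.sq_norm, Complex.normSq_add_mul_I]
  unfold EE; ring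

theorem EE_le {θ T : ℝ} {h : ℝ → ℝ} (hi : Integrable h (volume.restrict (Set.Icc (-T) T)))
    (h0 : ∀ s, 0 ≤ h s) (ω : ℤ) : EE θ T h ω ≤ (∫ s in Set.Icc (-T) T, h s) ^ 2 := by
  rw [← HH_eq hi]
  refine pow_le_pow_left₀ (norm_nonneg _) ?_ 2
  unfold HH
  refine (norm_integral_le_integral_norm _).trans (le_of_eq ?_)
  refine integral_congr_ae (Filter.Eventually.of_forall fun s => ?_)
  simp only [norm_mul, Complex.norm_exp_ofReal_mul_I, mul_one, Complex.norm_real, Real.norm_eq_abs,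
    abs_of_nonneg (h0 s)]

theorem ind_int {E : Type} [NormedAddCommGroup E] [NormedSpace ℝ E] {T P : ℝ} (hT : 0 < T)
    (hP : T ≤ P) (g : ℝ → E) :
    ∫ x in (-P)..P, (Set.Icc (-T) T).indicator g x = ∫ x in Set.Icc (-T) T, g x := by
  rw [intervalIntegral.integral_of_le (by linarith), ← integral_Icc_eq_integral_Ioc,
    setIntegral_indicator measurableSet_Icc,
    Set.inter_eq_right.2 (Set.Icc_subset_Icc (by linarith) hP)]

theorem bessel {θ T B : ℝ} {h : ℝ → ℝ} (hθ : 0 < θ) (hT : 0 < T) (hθT : θ * T ≤ Real.pi / 2)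
    (hm : Measurable h) (h0 : ∀ s, 0 ≤ h s) (hB : ∀ s, h s ≤ B) (S : Finset ℤ) :
    ∑ ω ∈ S, EE θ T h ω ≤ Real.pi / θ * ∫ s in Set.Icc (-T) T, h s ^ 2 := by
  have hi := int_h (T := T) hm h0 hB
  set P : ℝ := Real.pi / (2 * θ) with hP
  have hP0 : 0 < P := by have := Real.pi_pos; positivity
  have hTP : T ≤ P := by
    rw [hP, le_div_iff₀ (by positivity)]; linarith
  have hab : -P < P := by linarith
  set f : ℝ → ℂ := (Set.Icc (-T) T).indicator (fun s => (h s : ℂ)) with hf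
  have hfm : Measurable f := (Complex.measurable_ofReal.comp hm).indicator measurableSet_Icc
  have hL2 : MemLp f 2 (volume.restrict (Set.Ioc (-P) P)) := by
    refine MemLp.of_bound hfm.aestronglyMeasurable B (Filter.Eventually.of_forall fun s => ?_)
    refine (norm_indicator_le_norm_self _ _).trans ?_
    rw [Complex.norm_real, Real.norm_eq_abs, abs_of_nonneg (h0 s)]
    exact hB s
  have hsum := hasSum_sq_fourierCoeffOn hab hL2
  have hPP : P - -P = Real.pi / θ := by rw [hP]; field_simp; ring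
  have hcoef : ∀ ω : ℤ, fourierCoeffOn hab f ω = (1 / (P - -P)) • HH θ T h ω := by
    intro ω
    rw [fourierCoeffOn_eq_integral]
    congr 1
    unfold HH
    rw [← ind_int hT hTP]
    refine intervalIntegral.integral_congr fun s _ => ?_
    by_cases hs : s ∈ Set.Icc (-T) T
    · simp only [hf, Set.indicator_of_mem hs, fourier_coe_apply, smul_eq_mul]
      rw [mul_comm]
      congr 2
      rw [hPP]
      have h1 : (Real.pi : ℂ) ≠ 0 := by exact_mod_cast Real.pi_pos.ne'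
      have h2 : (θ : ℂ) ≠ 0 := by exact_mod_cast hθ.ne'
      push_cast
      field_simp
    · simp only [hf, Set.indicator_of_notMem hs, smul_zero]
  have hnorm : ∫ x in (-P)..P, ‖f x‖ ^ 2 = ∫ s in Set.Icc (-T) T, h s ^ 2 := by
    rw [← ind_int hT hTP]
    refine intervalIntegral.integral_congr fun s _ => ?_
    by_cases hs : s ∈ Set.Icc (-T) T
    · simp only [hf, Set.indicator_of_mem hs, Complex.norm_real, Real.norm_eq_abs, sq_abs]
    · simp only [hf, Set.indicator_of_notMem hs, norm_zero]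
      norm_num
  have hle := sum_le_hasSum S (fun ω _ => by positivity) hsum
  rw [hnorm] at hle
  simp only [hcoef] at hle
  rw [hPP] at hle
  have hQ : 0 < Real.pi / θ := by have := Real.pi_pos; positivity
  simp only [norm_smul, mul_pow, HH_eq hi, smul_eq_mul, Real.norm_eq_abs, sq_abs] at hle
  rw [← Finset.mul_sum] at hle
  have e : ∑ ω ∈ S, EE θ T h ω =
      (Real.pi / θ) ^ 2 * ((1 / (Real.pi / θ)) ^ 2 * ∑ ω ∈ S, EE θ T h ω) := by
    field_simp
  rw [e]
  refine (mul_le_mul_of_nonneg_left hle (by positivity)).trans (le_of_eq ?_)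
  field_simp

end Comb

open Comb in
theorem comb : COMB := by
  intro θ T hθ hT hθT
  refine ⟨48 * max (Real.pi / θ) 1, by positivity, ?_⟩
  intro N b D h hb hbN hD hm h0 ⟨B, hB⟩
  have hi := int_h (T := T) hm h0 hB
  set L : ℕ := N ^ 2 / (6 * b) with hLdef
  have hb0 : 0 < 6 * b := by omega
  have hL1 : L * (6 * b) ≤ N ^ 2 := Nat.div_mul_le_self _ _
  have hL2 : N ^ 2 < (L + 1) * (6 * b) := by
    have := Nat.lt_div_mul_add (a := N ^ 2) hb0
    rw [← hLdef] at this
    nlinarith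
  have hN : 6 * b ≤ N ^ 2 := hbN.trans (Nat.le_self_pow (by norm_num) N)
  have hL0 : 0 < L := Nat.div_pos hN hb0
  have hL3 : N ^ 2 ≤ 12 * b * L := by nlinarith
  have hN0 : (0 : ℝ) < N := by exact_mod_cast (by omega : 0 < N)
  have hLr : (0 : ℝ) < L := by exact_mod_cast hL0
  have hbr : (0 : ℝ) < b := by exact_mod_cast (by omega : 0 < b)
  have hL1r : (L : ℝ) * (6 * b) ≤ (N : ℝ) ^ 2 := by exact_mod_cast hL1
  have hL3r : (N : ℝ) ^ 2 ≤ 12 * b * L := by exact_mod_cast hL3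
  have hL : L * (b / (N : ℝ) ^ 2) ≤ 1 / 6 := by
    rw [← mul_div_assoc, div_le_iff₀ (by positivity)]; linarith
  have h1 := double_le (θ := θ) hi h0 N b L hL0 hL
  have h2 := count_le (EE θ T h) (EE_nonneg θ T h) b L (N ^ 2) (by nlinarith)
  have h3 := split_le (EE θ T h) (EE_nonneg θ T h) b (N ^ 2) D _ hD (EE_le hi h0)
  have h4 := bessel hθ hT hθT hm h0 hB (Finset.Icc (-((N ^ 2 : ℕ) : ℤ)) (N ^ 2 : ℕ))
  set I2 := ∫ s in Set.Icc (-T) T, h s ^ 2 with hI2
  set I1 := ∫ s in Set.Icc (-T) T, h s with hI1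
  have hI2n : 0 ≤ I2 := integral_nonneg fun s => by positivity
  set m := max (Real.pi / θ) 1 with hm'
  have hm1 : Real.pi / θ ≤ m := le_max_left _ _
  have hm2 : 1 ≤ m := le_max_right _ _
  have hZ : 0 ≤ (b : ℝ) * exc b (N ^ 2) D * I1 ^ 2 := by positivity
  have h5 : D * ∑ ω ∈ Finset.Icc (-((N ^ 2 : ℕ) : ℤ)) (N ^ 2 : ℕ), EE θ T h ω +
      b * exc b (N ^ 2) D * I1 ^ 2 ≤ m * (D * I2 + b * exc b (N ^ 2) D * I1 ^ 2) := by
    have h6 := mul_le_mul_of_nonneg_left
      (h4.trans (mul_le_mul_of_nonneg_right hm1 hI2n)) hD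
    nlinarith
  have h7 : 4 / (L : ℝ) ^ 2 * L ≤ 48 * (b / (N : ℝ) ^ 2) := by
    have e : 4 / (L : ℝ) ^ 2 * L = 4 / L := by field_simp
    rw [e, ← mul_div_assoc, div_le_div_iff₀ hLr (by positivity)]
    linarith
  have hW : 0 ≤ m * (D * I2 + b * exc b (N ^ 2) D * I1 ^ 2) := by positivity
  calc _ ≤ _ := h1
    _ ≤ 4 / (L : ℝ) ^ 2 * (L * (m * (D * I2 + b * exc b (N ^ 2) D * I1 ^ 2))) :=
        mul_le_mul_of_nonneg_left (h2.trans (mul_le_mul_of_nonneg_left (h3.trans h5) hLr.le))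
          (by positivity)
    _ = (4 / (L : ℝ) ^ 2 * L) * (m * (D * I2 + b * exc b (N ^ 2) D * I1 ^ 2)) := by ring
    _ ≤ 48 * (b / (N : ℝ) ^ 2) * (m * (D * I2 + b * exc b (N ^ 2) D * I1 ^ 2)) :=
        mul_le_mul_of_nonneg_right h7 hW
    _ = _ := by ring

end Pool.Agent.P.MP_7211b7_an
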