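import Pool.Agent.P.MP_7211b7_an.DefsB

/-! Counting lemma off the major arcs. -/

namespace Pool.Agent.P.MP_7211b7_an

namespace Count

open Finset

lemma cross {α : ℝ} {N : ℕ} (hN : 1 ≤ N) {h a h' a' : ℤ} (h1 : |h| ≤ 8 * N) (h2 : |h'| ≤ 8 * N)
    (h3 : |h * α - a| ≤ 1 / (17 * N)) (h4 : |h' * α - a'| ≤ 1 / (17 * N)) : h * a' = h' * a := by
  have hN' : (0 : ℝ) < N := by exact_mod_cast hN
  have b1 : |(h : ℝ)| ≤ 8 * N := by exact_mod_cast h1
  have b2 : |(h' : ℝ)| ≤ 8 * N := by exact_mod_cast h2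
  have e : ((h * a' - h' * a : ℤ) : ℝ) = h' * (h * α - a) - h * (h' * α - a') := by
    push_cast; ring
  have b3 : |(h' : ℝ) * (h * α - a)| ≤ 8 * N * (1 / (17 * N)) := by
    rw [abs_mul]; exact mul_le_mul b2 h3 (abs_nonneg _) (by positivity)
  have b4 : |(h : ℝ) * (h' * α - a')| ≤ 8 * N * (1 / (17 * N)) := by
    rw [abs_mul]; exact mul_le_mul b1 h4 (abs_nonneg _) (by positivity)
  have b5 : 8 * (N : ℝ) * (1 / (17 * N)) = 8 / 17 := by field_simp
  have b6 : |((h * a' - h' * a : ℤ) : ℝ)| < 1 := by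
    rw [e]
    linarith [abs_sub ((h' : ℝ) * (h * α - a)) ((h : ℝ) * (h' * α - a'))]
  have b7 : |h * a' - h' * a| < 1 := by exact_mod_cast b6
  have := Int.abs_lt_one_iff.1 b7
  omega

lemma struct {α : ℝ} {N b : ℕ} (hb : 1 ≤ b) (hbN : b ≤ N)
    (hM : ∀ q : ℕ, 1 ≤ q → q ≤ b → ∀ a : ℤ, b / (N : ℝ) ^ 2 < |q * α - a|) :
    ∃ q : ℤ, ∀ h a : ℤ, |h| ≤ 8 * N → |h * α - a| ≤ 1 / (17 * N) →
      ∃ j : ℤ, |j| * b ≤ 8 * N ∧ h = j * q := by
  classical
  have hN : 1 ≤ N := hb.trans hbN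
  have hN' : (0 : ℝ) < N := by exact_mod_cast hN
  by_cases hex : ∃ q : ℕ, 0 < q ∧ q ≤ 8 * N ∧ ∃ a : ℤ, |(q : ℝ) * α - a| ≤ 1 / (17 * N)
  · obtain ⟨q0, q1, c, hc⟩ := Nat.find_spec hex
    have hmin := fun m => Nat.find_min hex (m := m)
    set q := Nat.find hex with hq
    refine ⟨q, fun h a h1 h2 => ?_⟩
    have q0' : (0 : ℤ) < q := by exact_mod_cast q0
    have q0'' : (0 : ℝ) < q := by exact_mod_cast q0
    have hx : h * c = q * a :=
      cross hN h1 (h' := q) (by rw [abs_of_pos q0']; exact_mod_cast q1) h2 (by exact_mod_cast hc)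
    obtain ⟨ρ, hρ⟩ := Int.eq_ofNat_of_zero_le (Int.emod_nonneg h q0'.ne')
    have hlt : ρ < q := by
      have := Int.emod_lt_of_pos h q0'
      rw [hρ] at this
      exact_mod_cast this
    have hdiv : h = h / q * q + ρ := by rw [← hρ]; exact (Int.ediv_mul_add_emod h q).symm
    set j := h / q with hj
    have hρ0 : ρ = 0 := by
      by_contra hne
      refine hmin ρ hlt ⟨Nat.pos_of_ne_zero hne, by omega, a - j * c, ?_⟩
      have e0 : (ρ : ℤ) * c = q * (a - j * c) := by linear_combination hx - c * hdiv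
      have e1 : (ρ : ℝ) * c = q * (a - j * c) := by exact_mod_cast e0
      have e2 : (q : ℝ) * (ρ * α - ((a - j * c : ℤ) : ℝ)) = ρ * (q * α - c) := by
        push_cast
        linear_combination e1
      have e3 : (q : ℝ) * |ρ * α - ((a - j * c : ℤ) : ℝ)| = ρ * |q * α - c| := by
        have := congrArg abs e2
        rwa [abs_mul, abs_mul, abs_of_pos q0'', Nat.abs_cast] at this
      have e4 : (ρ : ℝ) * |q * α - c| ≤ q * (1 / (17 * N)) :=
        mul_le_mul (by exact_mod_cast hlt.le) hc (abs_nonneg _) q0''.le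
      exact le_of_mul_le_mul_left (e3.trans_le e4) q0''
    rw [hρ0, Nat.cast_zero, add_zero] at hdiv
    refine ⟨j, ?_, hdiv⟩
    by_cases hqb : q ≤ b
    · have ha : a = j * c := by
        refine mul_left_cancel₀ q0'.ne' ?_
        rw [← hx, hdiv]
        ring
      have e1 : (h : ℝ) * α - a = j * (q * α - c) := by
        rw [ha, hdiv]
        push_cast
        ring
      rw [e1, abs_mul] at h2
      have e2 := mul_le_mul_of_nonneg_left (hM q q0 hqb c).le (abs_nonneg (j : ℝ))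
      have e3 : |(j : ℝ)| * b ≤ 8 * N := by
        have := e2.trans h2
        rw [← mul_div_assoc, div_le_div_iff₀ (by positivity) (by positivity)] at this
        have e4 : 0 ≤ |(j : ℝ)| * b := by positivity
        nlinarith
      exact_mod_cast e3
    · have e1 : |j| * b ≤ |j| * q :=
        mul_le_mul_of_nonneg_left (by exact_mod_cast (not_le.1 hqb).le) (abs_nonneg j)
      have e2 : |h| = |j| * q := by rw [hdiv, abs_mul, abs_of_pos q0']
      omega
  · refine ⟨0, fun h a h1 h2 => ⟨0, by simp, ?_⟩⟩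
    by_contra hne
    rw [mul_zero] at hne
    refine hex ⟨h.natAbs, Int.natAbs_pos.2 hne, by have := abs_le.1 h1; omega, ?_⟩
    rcases le_total 0 h with h0 | h0
    · refine ⟨a, ?_⟩
      rwa [Nat.cast_natAbs, abs_of_nonneg h0]
    · refine ⟨-a, ?_⟩
      rw [Nat.cast_natAbs, abs_of_nonpos h0, ← abs_neg]
      push_cast
      have : -(-(h : ℝ) * α - -(a : ℝ)) = h * α - a := by ring
      rwa [this]

lemma floor_close {x y : ℝ} (h : ⌊x⌋ = ⌊y⌋) : |x - y| ≤ 1 :=
  (Int.abs_sub_lt_one_of_floor_eq_floor h).le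

end Count

open Finset in
theorem count_ok : COUNT := by
  classical
  refine ⟨37 * 17, by norm_num, fun N b τ u hb hbN hτ hu => ?_⟩
  have hN : 1 ≤ N := hb.trans hbN
  have hN' : (0 : ℝ) < N := by exact_mod_cast hN
  have hb' : (0 : ℝ) < b := by exact_mod_cast hb
  set α := τ / Real.pi with hα
  simp only [mul_div_assoc (_ : ℝ) τ Real.pi, ← hα]
  obtain ⟨q, hq⟩ := Count.struct (α := α) hb hbN fun q q1 q2 a => by
    by_contra hc
    exact hτ ⟨q, q1, q2, a, by rw [mul_div_assoc]; exact not_lt.1 hc⟩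
  set S := (Icc (-(4 * N : ℤ)) (4 * N)).filter (fun h : ℤ => ∃ a : ℤ, |h * α - a| ≤ u) with hS
  have hw : ∀ h : ℤ, ∃ a : ℤ, h ∈ S → |h * α - a| ≤ u := fun h => by
    by_cases hh : h ∈ S
    · obtain ⟨a, ha⟩ := (mem_filter.1 hh).2
      exact ⟨a, fun _ => ha⟩
    · exact ⟨0, fun h' => absurd h' hh⟩
  choose w hw using hw
  have hNu : 1 ≤ N * u := by
    rw [div_le_iff₀ hN'] at hu
    linarith
  set L : ℕ := ⌈17 * (N * u)⌉₊ with hL
  set M : ℕ := 8 * N / b with hM
  have hL1 : 17 * (N * u) ≤ L := Nat.le_ceil _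
  have hL2 : (L : ℝ) < 17 * (N * u) + 1 := Nat.ceil_lt_add_one (by linarith)
  have key := card_le_mul_card_image_of_maps_to (s := S) (t := Icc (-(L : ℤ)) L)
    (f := fun h : ℤ => ⌊(h * α - w h) * (17 * N)⌋) (fun h hh => by
      have a1 := abs_le.1 (hw h hh)
      rw [mem_Icc, Int.le_floor, Int.floor_le_iff]
      push_cast
      constructor <;> nlinarith [a1.1, a1.2]) (2 * M + 1) (fun k _ => by
      rcases (S.filter fun h : ℤ => ⌊(h * α - w h) * (17 * N)⌋ = k).eq_empty_or_nonempty with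
        he | ⟨h0, hh0⟩
      · rw [he]; simp
      have hsub : (S.filter fun h : ℤ => ⌊(h * α - w h) * (17 * N)⌋ = k) ⊆
          (Icc (-(M : ℤ)) M).image fun j => h0 + j * q := by
        intro h hh
        obtain ⟨b1, b2⟩ := mem_filter.1 hh
        obtain ⟨b3, b4⟩ := mem_filter.1 hh0
        have b5 := mem_Icc.1 (mem_filter.1 b1).1
        have b6 := mem_Icc.1 (mem_filter.1 b3).1
        have b7 := Count.floor_close (b2.trans b4.symm)
        obtain ⟨j, j1, j2⟩ := hq (h - h0) (w h - w h0) (abs_le.2 ⟨by omega, by omega⟩) (by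
          rw [le_div_iff₀ (by positivity), ← abs_of_pos (by positivity : (0 : ℝ) < 17 * N),
            ← abs_mul]
          refine le_trans (le_of_eq ?_) b7
          congr 1
          push_cast
          ring)
        refine mem_image.2 ⟨j, mem_Icc.2 (abs_le.1 ?_), by omega⟩
        have j3 : j.natAbs ≤ M := by
          rw [hM, Nat.le_div_iff_mul_le hb]
          rw [← Int.natCast_natAbs] at j1
          exact_mod_cast j1
        rw [← Int.natCast_natAbs]
        exact_mod_cast j3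
      refine (card_le_card hsub).trans (card_image_le.trans ?_)
      rw [Int.card_Icc]
      omega)
  have c1 : (Icc (-(L : ℤ)) L).card = 2 * L + 1 := by
    rw [Int.card_Icc]
    omega
  rw [c1] at key
  have c2 : (S.card : ℝ) ≤ (2 * M + 1) * (2 * L + 1) := by exact_mod_cast key
  have c3 : (M : ℝ) ≤ 8 * (N / b) := by
    have := Nat.cast_div_le (α := ℝ) (m := 8 * N) (n := b)
    push_cast at this
    rwa [mul_div_assoc] at this
  have c4 : (1 : ℝ) ≤ N / b := (one_le_div hb').2 (by exact_mod_cast hbN)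
  calc (S.card : ℝ) ≤ (2 * M + 1) * (2 * L + 1) := c2
    _ ≤ (17 * (N / b)) * (37 * (N * u)) :=
        mul_le_mul (by linarith) (by linarith) (by positivity) (by positivity)
    _ = _ := by ring

end Pool.Agent.P.MP_7211b7_an
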