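import Pool.Agent.P.MP_7211b7_an.DefsB

/-!
# From short to long time intervals, and the torus theorem from its parts
-/

open MeasureTheory

namespace Pool.Agent.P.MP_7211b7_an

namespace Cover

variable {r : ℕ}

theorem tor_shift (θ : Fin r → ℝ) (S : Finset (Fin r → ℤ)) (a : (Fin r → ℤ) → ℂ) (t0 : ℝ)
    (z : ℝ × (Fin r → ℝ)) :
    tor θ S a (z + (t0, 0)) =
      tor θ S (fun n => a n * Complex.exp (Complex.I *
        ((-(t0 * ∑ i, θ i * (n i : ℝ) ^ 2) : ℝ) : ℂ))) z := by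
  unfold tor
  refine Finset.sum_congr rfl fun n _ => ?_
  rw [mul_assoc, ← Complex.exp_add]
  congr 2
  simp only [Prod.fst_add, Prod.snd_add, add_zero]
  push_cast
  ring

theorem cont (θ : Fin r → ℝ) (S : Finset (Fin r → ℤ)) (a : (Fin r → ℤ) → ℂ) {p : ℝ}
    (hp : 0 ≤ p) : Continuous fun z => ‖tor θ S a z‖ ^ p :=
  (continuous_tor θ S a).norm.rpow_const fun _ => Or.inr hp

theorem integrableOn (θ : Fin r → ℝ) (S : Finset (Fin r → ℤ)) (a : (Fin r → ℤ) → ℂ) {p : ℝ}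
    (hp : 0 ≤ p) (u v : ℝ) :
    IntegrableOn (fun z => ‖tor θ S a z‖ ^ p) (Set.Icc u v ×ˢ box r) :=
  (cont θ S a hp).continuousOn.integrableOn_compact (isCompact_Icc.prod (isCompact_box r))

theorem shift_int (f : ℝ × (Fin r → ℝ) → ℝ) (t0 T : ℝ) :
    ∫ z in Set.Icc (t0 - T) (t0 + T) ×ˢ box r, f z = ∫ z in dom r T, f (z + (t0, 0)) := by
  have hm : MeasurePreserving (fun z : ℝ × (Fin r → ℝ) => z + (t0, 0)) volume volume :=
    (measurePreserving_add_right (volume : Measure ℝ) t0).prod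
      (measurePreserving_add_right (volume : Measure (Fin r → ℝ)) 0)
  have he : MeasurableEmbedding (fun z : ℝ × (Fin r → ℝ) => z + (t0, 0)) :=
    (MeasurableEquiv.addRight ((t0, 0) : ℝ × (Fin r → ℝ))).measurableEmbedding
  rw [← hm.setIntegral_preimage_emb he]
  congr 2
  ext z
  simp only [dom, Set.mem_preimage, Set.mem_prod, Set.mem_Icc, Prod.fst_add, Prod.snd_add,
    add_zero]
  constructor
  · rintro ⟨⟨h1, h2⟩, h3⟩
    exact ⟨⟨by linarith, by linarith⟩, h3⟩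
  · rintro ⟨⟨h1, h2⟩, h3⟩
    exact ⟨⟨by linarith, by linarith⟩, h3⟩

theorem mono {θ : Fin r → ℝ} {p e T T' : ℝ} (hp : 0 ≤ p) (hT : T' ≤ T) (h : TorBd r θ p T e) :
    TorBd r θ p T' e := by
  obtain ⟨C, hC, h⟩ := h
  refine ⟨C, hC, fun N S a hN hS => le_trans ?_ (h N S a hN hS)⟩
  refine setIntegral_mono_set (integrableOn θ S a hp _ _)
    (Filter.Eventually.of_forall fun z => Real.rpow_nonneg (norm_nonneg _) _) ?_
  refine (Set.prod_mono (Set.Icc_subset_Icc (by linarith) hT) subset_rfl).eventuallyLE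

theorem double {θ : Fin r → ℝ} {p e T : ℝ} (hp : 1 ≤ p) (h : TorBd r θ p T e) :
    TorBd r θ p (2 * T) e := by
  obtain ⟨C, hC, h⟩ := h
  have hp0 : 0 ≤ p := by linarith
  refine ⟨2 * C, by positivity, fun N S a hN hS => ?_⟩
  have key : ∀ t0 : ℝ, ∫ z in Set.Icc (t0 - T) (t0 + T) ×ˢ box r, ‖tor θ S a z‖ ^ p ≤
      (C * (N : ℝ) ^ e) ^ p * (∑ n ∈ S, ‖a n‖ ^ 2) ^ (p / 2) := by
    intro t0
    rw [shift_int (fun z => ‖tor θ S a z‖ ^ p) t0 T]
    simp only [tor_shift]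
    refine (h N S _ hN hS).trans (le_of_eq ?_)
    congr 2
    refine Finset.sum_congr rfl fun n _ => ?_
    rw [norm_mul, mul_comm Complex.I, Complex.norm_exp_ofReal_mul_I, mul_one]
  have hsub : dom r (2 * T) ⊆ (Set.Icc (-T - T) (-T + T) ×ˢ box r) ∪
      (Set.Icc (T - T) (T + T) ×ˢ box r) := by
    rintro z ⟨⟨h1, h2⟩, h3⟩
    rcases le_total z.1 0 with h4 | h4
    · exact Or.inl ⟨⟨by linarith, by linarith⟩, h3⟩
    · exact Or.inr ⟨⟨by linarith, by linarith⟩, h3⟩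
  have hI1 := integrableOn θ S a hp0 (-T - T) (-T + T)
  have hI2 := integrableOn θ S a hp0 (T - T) (T + T)
  have hnn : ∀ z, 0 ≤ ‖tor θ S a z‖ ^ p := fun z => Real.rpow_nonneg (norm_nonneg _) _
  have h1 : ∫ z in dom r (2 * T), ‖tor θ S a z‖ ^ p ≤
      ∫ z in (Set.Icc (-T - T) (-T + T) ×ˢ box r) ∪ (Set.Icc (T - T) (T + T) ×ˢ box r),
        ‖tor θ S a z‖ ^ p :=
    setIntegral_mono_set (hI1.union hI2) (Filter.Eventually.of_forall hnn) hsub.eventuallyLE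
  have h2 : ∫ z in (Set.Icc (-T - T) (-T + T) ×ˢ box r) ∪ (Set.Icc (T - T) (T + T) ×ˢ box r),
        ‖tor θ S a z‖ ^ p ≤ (∫ z in Set.Icc (-T - T) (-T + T) ×ˢ box r, ‖tor θ S a z‖ ^ p) +
        ∫ z in Set.Icc (T - T) (T + T) ×ˢ box r, ‖tor θ S a z‖ ^ p := by
    rw [← integral_add_measure hI1 hI2]
    exact integral_mono_measure (Measure.restrict_union_le _ _)
      (Filter.Eventually.of_forall hnn) (Integrable.add_measure hI1 hI2)
  have hX : 0 ≤ (C * (N : ℝ) ^ e) ^ p * (∑ n ∈ S, ‖a n‖ ^ 2) ^ (p / 2) := by positivity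
  have h3 : (2 : ℝ) ≤ 2 ^ p := by
    calc (2 : ℝ) = 2 ^ (1 : ℝ) := (Real.rpow_one 2).symm
      _ ≤ 2 ^ p := Real.rpow_le_rpow_of_exponent_le (by norm_num) hp
  have h4 : (2 * C * (N : ℝ) ^ e) ^ p = 2 ^ p * (C * (N : ℝ) ^ e) ^ p := by
    rw [mul_assoc, Real.mul_rpow (by norm_num) (by positivity)]
  rw [h4, mul_assoc]
  have h5 := key (-T)
  have h6 := key T
  nlinarith [mul_le_mul_of_nonneg_right h3 hX]

end Cover

theorem cover : COVER := by
  intro r θ p e T0 T hp hT0 hT h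
  have hk : ∀ k : ℕ, TorBd r θ p (2 ^ k * T0) e := by
    intro k
    induction k with
    | zero => simpa using h
    | succ k ih =>
      have := Cover.double hp ih
      rwa [← mul_assoc, ← pow_succ'] at this
  obtain ⟨k, hk'⟩ := pow_unbounded_of_one_lt (T / T0) (by norm_num : (1 : ℝ) < 2)
  refine Cover.mono (by linarith) ?_ (hk k)
  rw [div_lt_iff₀ hT0] at hk'
  exact hk'.le

theorem torThm : COVER → TORA → LEVEL → LAYER →
    (∀ (r : ℕ) (p : ℝ), 2 < p → r * (p - 2) ≤ 4 → DecThm r p) →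
    ∀ (r : ℕ) (θ : Fin r → ℝ), (∀ i, 0 < θ i) → TorThm r θ := by
  intro hC hA hL hY hD r θ hθ p T hp hT
  have hr : 1 ≤ r := by
    rcases Nat.eq_zero_or_pos r with h | h
    · subst h; norm_num at hp
    · exact h
  have hr0 : (0 : ℝ) < r := by exact_mod_cast hr
  have hp2 : 2 < p := by
    by_contra h
    have : (r : ℝ) * (p - 2) ≤ 0 := mul_nonpos_of_nonneg_of_nonpos hr0.le (by linarith)
    linarith
  have hsum : 0 < ∑ i, θ i :=
    Finset.sum_pos (fun i _ => hθ i) ⟨⟨0, hr⟩, Finset.mem_univ _⟩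
  set T1 : ℝ := Real.pi / (2 * ∑ i, θ i) with hT1
  have hT1pos : 0 < T1 := div_pos Real.pi_pos (by positivity)
  have hθT : ∀ i, θ i * T1 ≤ Real.pi / 2 := by
    intro i
    have hi : θ i ≤ ∑ j, θ j := Finset.single_le_sum (fun j _ => (hθ j).le) (Finset.mem_univ i)
    calc θ i * T1 ≤ (∑ j, θ j) * T1 := mul_le_mul_of_nonneg_right hi hT1pos.le
      _ = Real.pi / 2 := by rw [hT1]; field_simp
  have hpc : (2 : ℝ) < 2 + 4 / r := by
    have : (0 : ℝ) < 4 / r := by positivity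
    linarith
  have hpc' : (r : ℝ) * (2 + 4 / r - 2) ≤ 4 := by
    rw [add_sub_cancel_left, mul_div_cancel₀ _ hr0.ne']
  have h1 : ∀ ε : ℝ, 0 < ε → TorBd r θ (2 + 4 / r) T1 ε := by
    intro ε hε
    obtain ⟨T0, hT0, hb⟩ := hA r θ _ ε hr hθ hpc.le hε (hD r _ hpc hpc')
    exact hC r θ _ ε T0 T1 (by linarith) hT0 hT1pos hb
  have h2 := hY r θ p T1 hp hT1pos h1 fun q hq => hL r θ q T1 hq hθ hT1pos hθT
  exact hC r θ p _ T1 T (by linarith) hT1pos hT h2

end Pool.Agent.P.MP_7211b7_an
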