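import Pool.Agent.P.MP_7211b7_an.DefsA

/-!
Task ST CYL: lower dimensional decoupling near a hyperplane.
-/

open MeasureTheory
open scoped ENNReal

namespace Pool.Agent.P.MP_7211b7_an

namespace Cyl

instance haarSp (r : ℕ) : (volume : Measure (Sp r)).IsAddHaarMeasure :=
  Measure.prod.instIsAddHaarMeasure _ _

instance haarRSp (r : ℕ) : (volume : Measure (ℝ × Sp r)).IsAddHaarMeasure :=
  Measure.prod.instIsAddHaarMeasure _ _

/-- An isometric parametrisation of the orthogonal complement of a unit vector. -/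
theorem exists_frame {r : ℕ} (v : Eu (r + 1)) (hv : ‖v‖ = 1) :
    ∃ (e : Eu r →ₗ[ℝ] Eu (r + 1)) (P : Eu (r + 1) →ₗ[ℝ] Eu r),
      (∀ ξ x, inner ℝ ξ (e x) = inner ℝ (P ξ) x) ∧
      (∀ ξ, ‖ξ‖ ^ 2 = ‖P ξ‖ ^ 2 + (inner ℝ ξ v) ^ 2) ∧ (∀ x, P (e x) = x) ∧ P v = 0 := by
  have hon : Orthonormal ℝ (({0} : Set (Fin (r + 1))).domRestrict (fun _ => v)) := by
    refine ⟨fun _ => hv, ?_⟩
    intro i j hij
    exact absurd (Subsingleton.elim i j) hij
  obtain ⟨B, hB⟩ := Orthonormal.exists_orthonormalBasis_extension_of_card_eq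
    (𝕜 := ℝ) (E := Eu (r + 1)) (ι := Fin (r + 1)) (by simp) hon
  have hB0 : B 0 = v := hB 0 rfl
  let P : Eu (r + 1) →ₗ[ℝ] Eu r :=
    { toFun := fun ξ => WithLp.toLp 2 (fun i => B.repr ξ i.succ)
      map_add' := fun ξ ξ' => by ext i; simp
      map_smul' := fun a ξ => by ext i; simp }
  let e : Eu r →ₗ[ℝ] Eu (r + 1) :=
    { toFun := fun x => B.repr.symm (WithLp.toLp 2 (Fin.cons 0 (fun i => x i)))
      map_add' := fun x x' => by
        rw [← map_add]
        congr 1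
        ext i
        induction i using Fin.cases <;> simp
      map_smul' := fun a x => by
        rw [RingHom.id_apply, ← map_smul]
        congr 1
        ext i
        induction i using Fin.cases <;> simp }
  refine ⟨e, P, ?_, ?_, ?_, ?_⟩
  · intro ξ x
    have : inner ℝ ξ (e x) =
        inner ℝ (B.repr ξ) (WithLp.toLp 2 (Fin.cons 0 (fun i => x i)) : Eu (r + 1)) := by
      rw [← B.repr.inner_map_map ξ (e x)]
      simp [e]
    rw [this]
    simp [P, PiLp.inner_apply, Fin.sum_univ_succ]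
  · intro ξ
    have h0 : B.repr ξ 0 = inner ℝ ξ v := by
      rw [B.repr_apply_apply, hB0, real_inner_comm]
    rw [← B.repr.norm_map ξ, EuclideanSpace.real_norm_sq_eq, EuclideanSpace.real_norm_sq_eq,
      Fin.sum_univ_succ, h0, add_comm]
    rfl
  · intro x
    ext i
    simp [P, e]
  · ext i
    simp [P, ← hB0, Fin.succ_ne_zero]

/-- The sheared parametrisation of the ambient space by slices. -/
noncomputable def Psi {r : ℕ} (e : Eu r →ₗ[ℝ] Eu (r + 1)) (v : Eu (r + 1)) (h : ℝ) :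
    (ℝ × Sp r) →ₗ[ℝ] Sp (r + 1) where
  toFun := fun u => (e u.2.1 + (u.1 - h * u.2.2) • v, u.2.2)
  map_add' := fun u u' => by
    ext1
    · simp only [Prod.snd_add, Prod.fst_add, map_add]
      module
    · rfl
  map_smul' := fun a u => by
    ext1
    · simp only [Prod.smul_snd, Prod.smul_fst, map_smul, RingHom.id_apply, smul_eq_mul]
      module
    · rfl

theorem Psi_apply {r : ℕ} (e : Eu r →ₗ[ℝ] Eu (r + 1)) (v : Eu (r + 1)) (h y : ℝ) (z : Sp r) :
    Psi e v h (y, z) = (e z.1 + (y - h * z.2) • v, z.2) := rfl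

theorem continuous_Psi {r : ℕ} (e : Eu r →ₗ[ℝ] Eu (r + 1)) (v : Eu (r + 1)) (h : ℝ) :
    Continuous (Psi e v h) := LinearMap.continuous_of_finiteDimensional _

theorem exists_slices {r : ℕ} (L : (ℝ × Sp r) →ₗ[ℝ] Sp (r + 1)) (hL : Function.Injective L) :
    ∃ μ : Measure ℝ, ∀ f : Sp (r + 1) → ℝ≥0∞, Measurable f →
      ∫⁻ x, f x = ∫⁻ y, ∫⁻ z, f (L (y, z)) ∂volume ∂μ := by
  let E : (ℝ × Sp r) ≃L[ℝ] Sp (r + 1) :=
    (L.linearEquivOfInjective hL (by simp; ring)).toContinuousLinearEquiv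
  have hE : ∀ u, E u = L u := fun _ => rfl
  have hH : ((volume : Measure (ℝ × Sp r)).map E).IsAddHaarMeasure := E.isAddHaarMeasure_map _
  have h1 := Measure.isAddLeftInvariant_eq_smul (volume : Measure (Sp (r + 1)))
    ((volume : Measure (ℝ × Sp r)).map E)
  refine ⟨Measure.addHaarScalarFactor (volume : Measure (Sp (r + 1)))
    ((volume : Measure (ℝ × Sp r)).map E) • volume, fun f hf => ?_⟩
  have hm : Measurable E := E.continuous.measurable
  conv_lhs => rw [h1]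
  rw [lintegral_smul_measure, lintegral_smul_measure, lintegral_map hf hm]
  congr 1
  exact lintegral_prod (fun u => f (E u)) (hf.comp hm).aemeasurable

theorem wt_le {r : ℕ} (b : ℕ) {R : ℝ} (hR : 0 < R) (x u : Sp r) :
    wt b R (x - u) ≤ ENNReal.ofReal ((1 + ‖u‖ / R) ^ b) * wt b R x := by
  unfold wt
  rw [← ENNReal.ofReal_mul (by positivity)]
  refine ENNReal.ofReal_le_ofReal ?_
  have h1 : 1 + ‖x‖ / R ≤ (1 + ‖u‖ / R) * (1 + ‖x - u‖ / R) := by
    have h2 : ‖x‖ ≤ ‖u‖ + ‖x - u‖ := by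
      calc ‖x‖ = ‖u + (x - u)‖ := by congr 1; abel
        _ ≤ _ := norm_add_le _ _
    have h3 : ‖x‖ / R ≤ ‖u‖ / R + ‖x - u‖ / R := by
      rw [← add_div]; gcongr
    have h4 : 0 ≤ ‖u‖ / R * (‖x - u‖ / R) := by positivity
    nlinarith
  have h5 : (1 + ‖x‖ / R) ^ b ≤ (1 + ‖u‖ / R) ^ b * (1 + ‖x - u‖ / R) ^ b := by
    rw [← mul_pow]; gcongr
  have h6 : ((1 + ‖x - u‖ / R) ^ b)⁻¹ ≤ (1 + ‖u‖ / R) ^ b * ((1 + ‖x‖ / R) ^ b)⁻¹ := by
    rw [← div_eq_mul_inv, le_div_iff₀ (by positivity), inv_mul_le_iff₀ (by positivity), mul_comm]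
    exact h5
  calc (R ^ (r + 1))⁻¹ * ((1 + ‖x - u‖ / R) ^ b)⁻¹
      ≤ (R ^ (r + 1))⁻¹ * ((1 + ‖u‖ / R) ^ b * ((1 + ‖x‖ / R) ^ b)⁻¹) := by gcongr
    _ = _ := by ring

section Slice

variable {r : ℕ} {e : Eu r →ₗ[ℝ] Eu (r + 1)} {P : Eu (r + 1) →ₗ[ℝ] Eu r} {v : Eu (r + 1)}
  {h : ℝ}

theorem norm_P_le (h2 : ∀ ξ, ‖ξ‖ ^ 2 = ‖P ξ‖ ^ 2 + (inner ℝ ξ v) ^ 2) (ξ : Eu (r + 1)) :
    ‖P ξ‖ ≤ ‖ξ‖ := by
  refine (pow_le_pow_iff_left₀ (norm_nonneg _) (norm_nonneg _) two_ne_zero).1 ?_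
  rw [h2 ξ]
  nlinarith [sq_nonneg (inner ℝ ξ v)]

theorem norm_e (h1 : ∀ ξ x, inner ℝ ξ (e x) = inner ℝ (P ξ) x)
    (h2 : ∀ ξ, ‖ξ‖ ^ 2 = ‖P ξ‖ ^ 2 + (inner ℝ ξ v) ^ 2) (h3 : ∀ x, P (e x) = x) (h4 : P v = 0)
    (x : Eu r) : ‖e x‖ = ‖x‖ := by
  refine (pow_left_inj₀ (norm_nonneg _) (norm_nonneg _) two_ne_zero).1 ?_
  rw [h2, h3, real_inner_comm, h1, h4]
  simp

theorem norm_le_Psi (h2 : ∀ ξ, ‖ξ‖ ^ 2 = ‖P ξ‖ ^ 2 + (inner ℝ ξ v) ^ 2) (h3 : ∀ x, P (e x) = x)
    (h4 : P v = 0) (y : ℝ) (z : Sp r) : ‖z‖ ≤ ‖Psi e v h (y, z)‖ := by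
  rw [Psi_apply, Prod.norm_def, Prod.norm_def]
  refine max_le_max ?_ le_rfl
  have := norm_P_le h2 (e z.1 + (y - h * z.2) • v)
  rwa [map_add, map_smul, h3, h4, smul_zero, add_zero] at this

theorem Psi_injective (hv : ‖v‖ = 1) (h3 : ∀ x, P (e x) = x) (h4 : P v = 0) :
    Function.Injective (Psi e v h) := by
  refine (injective_iff_map_eq_zero _).2 ?_
  rintro ⟨y, x, s⟩ hu
  rw [Psi_apply, Prod.mk_eq_zero] at hu
  obtain ⟨ha, hs⟩ := hu
  simp only at ha hs
  subst hs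
  have hx : x = 0 := by
    have := congrArg P ha
    rwa [map_add, map_smul, h3, h4, smul_zero, add_zero, map_zero] at this
  subst hx
  have hv0 : v ≠ 0 := by
    rintro rfl
    simp at hv
  have hy : y = 0 := by simpa [hv0] using ha
  subst hy
  rfl

/-- The weighted measure on a slice. -/
noncomputable def nu (e : Eu r →ₗ[ℝ] Eu (r + 1)) (v : Eu (r + 1)) (h : ℝ) (b : ℕ) (R y : ℝ) :
    Measure (Sp r) :=
  volume.withDensity (fun z => wt b R (Psi e v h (y, z)))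

theorem measurable_rho (b : ℕ) (R y : ℝ) :
    Measurable (fun z : Sp r => wt b R (Psi e v h (y, z))) :=
  (measurable_wt b R).comp ((continuous_Psi e v h).comp (by fun_prop)).measurable

theorem lintegral_nu (b : ℕ) (R y : ℝ) {g : Sp r → ℝ≥0∞} (hg : Measurable g) :
    ∫⁻ z, g z ∂(nu e v h b R y) = ∫⁻ z, wt b R (Psi e v h (y, z)) * g z := by
  unfold nu
  rw [lintegral_withDensity_eq_lintegral_mul _ (measurable_rho b R y) hg]
  rfl

theorem finite_nu (h2 : ∀ ξ, ‖ξ‖ ^ 2 = ‖P ξ‖ ^ 2 + (inner ℝ ξ v) ^ 2) (h3 : ∀ x, P (e x) = x)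
    (h4 : P v = 0) {b : ℕ} (hb : r + 2 ≤ b) {R : ℝ} (hR : 1 ≤ R) (y : ℝ) :
    IsFiniteMeasure (nu e v h b R y) := by
  refine isFiniteMeasure_withDensity (ne_of_lt ?_)
  have hfin := finite_integral_one_add_norm (E := Sp r) (μ := volume) (r := (b : ℝ)) (by
    have : (r : ℝ) + 2 ≤ b := by exact_mod_cast hb
    simp
    linarith)
  have hR0 : 0 < R := by linarith
  have hle : ∀ z : Sp r, wt b R (Psi e v h (y, z)) ≤
      ENNReal.ofReal ((R ^ (r + 1 + 1))⁻¹ * R ^ b) * ENNReal.ofReal ((1 + ‖z‖) ^ (-(b : ℝ))) := by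
    intro z
    unfold wt
    rw [← ENNReal.ofReal_mul (by positivity)]
    refine ENNReal.ofReal_le_ofReal ?_
    rw [mul_assoc]
    refine mul_le_mul_of_nonneg_left ?_ (by positivity)
    rw [Real.rpow_neg (by positivity), Real.rpow_natCast, ← div_eq_mul_inv,
      le_div_iff₀ (by positivity), inv_mul_le_iff₀ (by positivity), ← mul_pow]
    refine pow_le_pow_left₀ (by positivity) ?_ b
    have := norm_le_Psi (h := h) h2 h3 h4 y z
    rw [add_mul, div_mul_cancel₀ _ hR0.ne']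
    linarith
  refine lt_of_le_of_lt (lintegral_mono hle) ?_
  rw [lintegral_const_mul' _ _ ENNReal.ofReal_ne_top]
  exact ENNReal.mul_lt_top ENNReal.ofReal_lt_top hfin

theorem moderate_nu (hv : ‖v‖ = 1) (hh : |h| ≤ 1 / 2) (he : ∀ x, ‖e x‖ = ‖x‖) (b : ℕ) {w : ℝ}
    (hw : 0 < w) (y : ℝ) : Moderate b ((2 * w) ^ 2) (nu e v h b (w ^ 2)⁻¹ y) := by
  intro z' g hg
  rw [lintegral_nu b _ y (g := fun z => g (z + z')) (hg.comp (measurable_add_const z')),
    lintegral_nu b _ y hg]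
  have h1 := lintegral_sub_right_eq_self (μ := (volume : Measure (Sp r)))
    (fun z => wt b (w ^ 2)⁻¹ (Psi e v h (y, z)) * g (z + z')) z'
  rw [← h1, ← lintegral_const_mul' _ _ ENNReal.ofReal_ne_top]
  refine lintegral_mono fun z => ?_
  simp only [sub_add_cancel]
  rw [← mul_assoc]
  refine mul_le_mul_left ?_ _
  have h2 : Psi e v h (y, z - z') = Psi e v h (y, z) - Psi e v h (0, z') := by
    rw [← map_sub]
    simp
  rw [h2]
  refine (wt_le b (by positivity) _ _).trans (mul_le_mul_left (ENNReal.ofReal_le_ofReal ?_) _)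
  refine pow_le_pow_left₀ (by positivity) ?_ b
  have h3 : ‖Psi e v h (0, z')‖ ≤ 2 * ‖z'‖ := by
    rw [Psi_apply, Prod.norm_def]
    have ha : ‖z'.1‖ ≤ ‖z'‖ := norm_fst_le z'
    have hb : ‖z'.2‖ ≤ ‖z'‖ := norm_snd_le z'
    have hc : 0 ≤ ‖z'‖ := norm_nonneg _
    refine max_le ?_ (by simp only; linarith)
    refine (norm_add_le _ _).trans ?_
    rw [he, norm_smul, hv, zero_sub, norm_neg, norm_mul, Real.norm_eq_abs h]
    nlinarith [norm_nonneg z'.2, abs_nonneg h]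
  rw [div_inv_eq_mul]
  have hw2 : 0 < w ^ 2 := by positivity
  nlinarith [norm_nonneg z']

theorem slice_mem (h1 : ∀ ξ x, inner ℝ ξ (e x) = inner ℝ (P ξ) x)
    (h2 : ∀ ξ, ‖ξ‖ ^ 2 = ‖P ξ‖ ^ 2 + (inner ℝ ξ v) ^ 2) {w : ℝ} (hw : 0 < w) (c : Eu (r + 1))
    (y : ℝ) {f : Sp (r + 1) → ℂ}
    (hf : f ∈ Tr (cap c w (w ^ 2) ∩ {ζ | |inner ℝ ζ.1 v - h| ≤ 2 * w})) :
    (fun z : Sp r => f (Psi e v h (y, z)) * wave (0, h ^ 2 / 2) z) ∈
      Tr (cap (P c) (2 * w) ((2 * w) ^ 2)) := by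
  refine Tr_induction (P := fun f => (fun z : Sp r => f (Psi e v h (y, z)) *
    wave (0, h ^ 2 / 2) z) ∈ Tr (cap (P c) (2 * w) ((2 * w) ^ 2))) ?_ ?_ ?_ ?_ hf
  · rintro ζ ⟨⟨ha, hb⟩, hc⟩
    have hc' : |inner ℝ ζ.1 v - h| ≤ 2 * w := hc
    have heq : (fun z : Sp r => wave ζ (Psi e v h (y, z)) * wave (0, h ^ 2 / 2) z) =
        Complex.exp (Complex.I * ((y * inner ℝ ζ.1 v : ℝ) : ℂ)) •
          wave (P ζ.1, ζ.2 - h * inner ℝ ζ.1 v + h ^ 2 / 2) := by
      funext z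
      simp only [wave, Psi_apply, Pi.smul_apply, smul_eq_mul]
      rw [← Complex.exp_add, ← Complex.exp_add]
      congr 1
      rw [inner_add_right, inner_smul_right, h1, inner_zero_left]
      push_cast
      ring
    rw [heq]
    refine Submodule.smul_mem _ _ (wave_mem_Tr ⟨?_, ?_⟩)
    · have := norm_P_le h2 (ζ.1 - c)
      rw [map_sub] at this
      simp only
      linarith
    · have e1 : ζ.2 - h * inner ℝ ζ.1 v + h ^ 2 / 2 - ‖P ζ.1‖ ^ 2 / 2 =
          (ζ.2 - ‖ζ.1‖ ^ 2 / 2) + (inner ℝ ζ.1 v - h) ^ 2 / 2 := by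
        rw [h2 ζ.1]; ring
      simp only
      rw [e1]
      have e2 : (inner ℝ ζ.1 v - h) ^ 2 ≤ (2 * w) ^ 2 := by
        rw [← sq_abs]
        exact pow_le_pow_left₀ (abs_nonneg _) hc' 2
      have e3 := abs_le.1 hb
      have e4 := sq_nonneg (inner ℝ ζ.1 v - h)
      have e5 := sq_nonneg w
      rw [abs_le]
      constructor <;> nlinarith
  · have := (Tr (cap (P c) (2 * w) ((2 * w) ^ 2))).zero_mem
    convert this using 1
    funext z
    simp
  · intro f g hf hg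
    have := (Tr _).add_mem hf hg
    convert this using 1
    funext z
    simp [add_mul]
  · intro a f hf
    have := (Tr _).smul_mem a hf
    convert this using 1
    funext z
    simp [mul_assoc]

end Slice

end Cyl

open Cyl in
theorem cyl : PACK → MULT → CYL := by
  classical
  intro hP hM r
  refine ⟨Real.sqrt (21 ^ (r + 1)), by positivity, ?_⟩
  intro p b w D hp hb hw hw4 hD ι J c G v h hv hh hc hsep hcv hG
  obtain ⟨e, P, h1, h2, h3, h4⟩ := exists_frame v hv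
  obtain ⟨μ, hμ⟩ := exists_slices (Psi e v h) (Psi_injective hv h3 h4)
  have hp0 : 0 < p := by linarith
  have hR : 1 ≤ (w ^ 2)⁻¹ := by
    rw [one_le_inv₀ (by positivity)]
    nlinarith
  set R := (w ^ 2)⁻¹ with hRdef
  -- the slices of a function
  let T : ℝ → (Sp (r + 1) → ℂ) → Sp r → ℂ := fun y f z =>
    f (Psi e v h (y, z)) * wave (0, h ^ 2 / 2) z
  let V : (Sp (r + 1) → ℂ) → ℝ → ℝ≥0∞ := fun f y => ∫⁻ z, ‖T y f z‖ₑ ^ p ∂(nu e v h b R y)
  have hT : ∀ y f z, ‖T y f z‖ₑ = ‖f (Psi e v h (y, z))‖ₑ := by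
    intro y f z
    have : ‖wave (0, h ^ 2 / 2) z‖ₑ = 1 := by
      rw [← ofReal_norm, norm_wave, ENNReal.ofReal_one]
    simp only [T, enorm_mul, this, mul_one]
  have hV : ∀ f : Sp (r + 1) → ℂ, Continuous f → ∀ y, V f y =
      ∫⁻ z, wt b R (Psi e v h (y, z)) * ‖f (Psi e v h (y, z))‖ₑ ^ p := by
    intro f hf y
    simp only [V, hT]
    refine lintegral_nu b R y (g := fun z => ‖f (Psi e v h (y, z))‖ₑ ^ p) ?_
    exact ((hf.comp ((continuous_Psi e v h).comp (by fun_prop))).measurable.enorm).pow_const _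
  have hmeas : ∀ f : Sp (r + 1) → ℂ, Continuous f →
      Measurable (fun x => wt b R x * ‖f x‖ₑ ^ p) := fun f hf =>
    (measurable_wt b R).mul (hf.measurable.enorm.pow_const _)
  have hVm : ∀ f : Sp (r + 1) → ℂ, Continuous f → Measurable (V f) := by
    intro f hf
    have : V f = fun y => ∫⁻ z, wt b R (Psi e v h (y, z)) * ‖f (Psi e v h (y, z))‖ₑ ^ p :=
      funext (hV f hf)
    rw [this]
    exact Measurable.lintegral_prod_right'
      (f := fun u : ℝ × Sp r => wt b R (Psi e v h u) * ‖f (Psi e v h u)‖ₑ ^ p)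
      ((hmeas f hf).comp (continuous_Psi e v h).measurable)
  have hint : ∀ f : Sp (r + 1) → ℂ, Continuous f →
      eLpNorm' f p (wm (r + 1) b R) = (∫⁻ y, V f y ∂μ) ^ (1 / p) := by
    intro f hf
    rw [eLpNorm'_eq_lintegral_enorm, wm, lintegral_withDensity_eq_lintegral_mul _
      (measurable_wt b R) (hf.measurable.enorm.pow_const _)]
    congr 1
    simp only [hV f hf]
    exact hμ _ (hmeas f hf)
  have hGc : ∀ j ∈ J, Continuous (G j) := fun j hj => continuous_of_mem_Tr (hG j hj)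
  have hSc : Continuous (∑ j ∈ J, G j) := by
    have := continuous_finsetSum J hGc
    convert this using 1
    funext x
    simp
  have hmult : ∀ j ∈ J, ((J.filter (fun k => ‖P (c j) - P (c k)‖ < 2 * w / 2)).card : ℝ) ≤
      21 ^ (r + 1) := by
    intro j hj
    have := hP (r + 1) ι (J.filter (fun k => ‖P (c j) - P (c k)‖ < 2 * w / 2)) c (c j) (w / 2)
      (5 * w) (by positivity) (by positivity)
      (fun k hk l hl hkl => hsep k (Finset.mem_filter.1 hk).1 l (Finset.mem_filter.1 hl).1 hkl)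
      (by
        intro k hk
        obtain ⟨hk, hk'⟩ := Finset.mem_filter.1 hk
        rw [norm_sub_rev]
        refine (pow_le_pow_iff_left₀ (norm_nonneg _) (by positivity) two_ne_zero).1 ?_
        rw [h2, map_sub, inner_sub_left]
        have a1 := abs_le.1 (hcv j hj)
        have a2 := abs_le.1 (hcv k hk)
        have a3 : ‖P (c j) - P (c k)‖ ^ 2 ≤ w ^ 2 :=
          pow_le_pow_left₀ (norm_nonneg _) (by linarith) 2
        have a4 : (inner ℝ (c j) v - inner ℝ (c k) v) ^ 2 ≤ (4 * w) ^ 2 :=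
          sq_le_sq' (by linarith) (by linarith)
        nlinarith)
    have e1 : 1 + 2 * (5 * w) / (w / 2) = 21 := by
      field_simp
      norm_num
    rwa [e1] at this
  set K := ENNReal.ofReal (Real.sqrt (21 ^ (r + 1)) * D) with hK
  have hslice : ∀ y, V (∑ j ∈ J, G j) y ≤
      K ^ p * (∑ j ∈ J, V (G j) y ^ (2 / p)) ^ (p / 2) := by
    intro y
    have hm := hM r p b (2 * w) D (by linarith) (by positivity) hD ι J (fun j => P (c j))
      (fun j => T y (G j)) (nu e v h b R y) (21 ^ (r + 1))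
      (finite_nu h2 h3 h4 (by omega) hR y)
      (moderate_nu hv hh (norm_e h1 h2 h3 h4) b hw y)
      (fun j hj => (norm_P_le h2 _).trans (hc j hj))
      (fun j hj => slice_mem h1 h2 hw (c j) y (hG j hj)) hmult
    have e1 : ∑ j ∈ J, T y (G j) = T y (∑ j ∈ J, G j) := by
      funext z
      simp [T, Finset.sum_mul]
    rw [e1, mul_comm D, ← hK] at hm
    have e2 : ∀ f, eLpNorm' (T y f) p (nu e v h b R y) = V f y ^ (1 / p) := fun f =>
      eLpNorm'_eq_lintegral_enorm _ _ _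
    have h5 := ENNReal.rpow_le_rpow hm hp0.le
    rw [e2, ← ENNReal.rpow_mul, one_div_mul_cancel hp0.ne', ENNReal.rpow_one,
      ENNReal.mul_rpow_of_nonneg _ _ hp0.le, sq, ← ENNReal.rpow_mul] at h5
    convert h5 using 3
    · refine Finset.sum_congr rfl fun j _ => ?_
      rw [e2, ← ENNReal.rpow_natCast, ← ENNReal.rpow_mul]
      congr 1
      push_cast
      ring
    · ring
  have htot : ∫⁻ y, V (∑ j ∈ J, G j) y ∂μ ≤
      K ^ p * (∑ j ∈ J, (∫⁻ y, V (G j) y ∂μ) ^ (2 / p)) ^ (p / 2) := by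
    refine (lintegral_mono hslice).trans ?_
    rw [lintegral_const_mul' _ _
      (ENNReal.rpow_ne_top_of_nonneg hp0.le ENNReal.ofReal_ne_top)]
    exact mul_le_mul_right (mink μ hp J (fun j => V (G j)) (fun j hj => hVm _ (hGc j hj))) _
  rw [hint _ hSc]
  refine (ENNReal.rpow_le_rpow htot (by positivity)).trans (le_of_eq ?_)
  rw [ENNReal.mul_rpow_of_nonneg _ _ (by positivity), ← ENNReal.rpow_mul, ← ENNReal.rpow_mul,
    mul_one_div_cancel hp0.ne', ENNReal.rpow_one, sq]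
  congr 2
  · refine Finset.sum_congr rfl fun j hj => ?_
    rw [hint _ (hGc j hj), ← ENNReal.rpow_natCast, ← ENNReal.rpow_mul]
    congr 1
    push_cast
    ring
  · field_simp

end Pool.Agent.P.MP_7211b7_an
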