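import Mathlib

/-!
# MP_7211b7_an, part A: l2 decoupling for the paraboloid (definitions and interface)

Ambient space `Sp r = Eu r × ℝ` (sup norm on the product, product volume).
Functions are finite exponential sums (`Tr S`), norms are taken against finite measures that are
polynomially moderate under translation (`Moderate`).  The paraboloid is `η = ‖ξ‖^2/2`.
Every `def X : Prop` below is the statement of one task.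
-/

open MeasureTheory
open scoped ENNReal

namespace Pool.Agent.P.MP_7211b7_an

abbrev Eu (r : ℕ) : Type := EuclideanSpace ℝ (Fin r)
abbrev Sp (r : ℕ) : Type := Eu r × ℝ

/-- plane wave with frequency `ζ` -/
noncomputable def wave {r : ℕ} (ζ x : Sp r) : ℂ :=
  Complex.exp (Complex.I * ((inner ℝ ζ.1 x.1 + ζ.2 * x.2 : ℝ) : ℂ))

/-- finite exponential sums with frequencies in `S` -/
noncomputable def Tr {r : ℕ} (S : Set (Sp r)) : Submodule ℂ (Sp r → ℂ) :=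
  Submodule.span ℂ (wave '' S)

/-- cap of radius `ρ` and thickness `δ` about `c` -/
def cap {r : ℕ} (c : Eu r) (ρ δ : ℝ) : Set (Sp r) :=
  {ζ | ‖ζ.1 - c‖ ≤ ρ ∧ |ζ.2 - ‖ζ.1‖ ^ 2 / 2| ≤ δ}

/-- translating by `y` costs at most `(1 + s ‖y‖)^A` -/
def Moderate {r : ℕ} (A : ℕ) (s : ℝ) (ν : Measure (Sp r)) : Prop :=
  ∀ (y : Sp r) (g : Sp r → ℝ≥0∞), Measurable g →
    ∫⁻ x, g (x + y) ∂ν ≤ ENNReal.ofReal ((1 + s * ‖y‖) ^ A) * ∫⁻ x, g x ∂ν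

/-- a family of functions at scale `σ` -/
structure Fam {r : ℕ} {ι : Type} (σ : ℝ) (J : Finset ι) (c : ι → Eu r) (F : ι → Sp r → ℂ) :
    Prop where
  norm_le : ∀ j ∈ J, ‖c j‖ ≤ 1 / 2
  sep : ∀ j ∈ J, ∀ k ∈ J, j ≠ k → σ / 2 ≤ ‖c j - c k‖
  mem : ∀ j ∈ J, F j ∈ Tr (cap (c j) σ (σ ^ 2))

/-- the l2 sum of the Lp norms -/
noncomputable def sq {X ι : Type} [MeasurableSpace X] (p : ℝ) (ν : Measure X) (J : Finset ι)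
    (F : ι → X → ℂ) : ℝ≥0∞ :=
  (∑ j ∈ J, eLpNorm' (F j) p ν ^ 2) ^ (1 / 2 : ℝ)

/-- l2 decoupling at scale `σ` with constant `D` -/
def Dec (r : ℕ) (p : ℝ) (A : ℕ) (σ D : ℝ) : Prop :=
  ∀ (ι : Type) (J : Finset ι) (c : ι → Eu r) (F : ι → Sp r → ℂ) (ν : Measure (Sp r)),
    IsFiniteMeasure ν → Moderate A (σ ^ 2) ν → Fam σ J c F →
      eLpNorm' (∑ j ∈ J, F j) p ν ≤ ENNReal.ofReal D * sq p ν J F

def DecExp (r : ℕ) (p : ℝ) (A : ℕ) (η : ℝ) : Prop :=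
  ∃ C : ℝ, 0 < C ∧ ∀ σ : ℝ, 0 < σ → σ ≤ 1 → Dec r p A σ (C * σ ^ (-η))

/-- the Bourgain-Demeter theorem in dimension `r` at exponent `p` -/
def DecThm (r : ℕ) (p : ℝ) : Prop := ∀ (A : ℕ) (η : ℝ), 0 < η → DecExp r p A η

/-- normalised polynomial weight at radius `R` -/
noncomputable def wt {r : ℕ} (a : ℕ) (R : ℝ) (y : Sp r) : ℝ≥0∞ :=
  ENNReal.ofReal ((R ^ (r + 1))⁻¹ * ((1 + ‖y‖ / R) ^ a)⁻¹)

/-- weighted average of `g` around `x` -/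
noncomputable def av {r : ℕ} (a : ℕ) (R : ℝ) (g : Sp r → ℝ≥0∞) (x : Sp r) : ℝ≥0∞ :=
  ∫⁻ y, g (x + y) * wt a R y

/-- the measure with density `wt a R` -/
noncomputable def wm (r a : ℕ) (R : ℝ) : Measure (Sp r) := volume.withDensity (wt a R)

/-- tube profile of width `W` -/
noncomputable def prof {r : ℕ} (W : ℝ) (v : Eu r) : ℝ≥0∞ :=
  ENNReal.ofReal (((1 + ‖v‖ / W) ^ (r + 1))⁻¹)

/-- superposition of tube profiles; tube `(j, ζ)` has core line `x.1 + x.2 • dir j = ζ` -/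
noncomputable def kT {r : ℕ} {ι : Type} (W : ℝ) (J : Finset ι) (dir : ι → Eu r)
    (μ : ι → Measure (Eu r)) (x : Sp r) : ℝ≥0∞ :=
  ∑ j ∈ J, ∫⁻ ζ, prof W (x.1 + x.2 • dir j - ζ) ∂(μ j)

/-- quantitative transversality of the directions `(-c i, 1)` -/
def Transv {r : ℕ} (Λ : ℝ) (c : Fin (r + 1) → Eu r) : Prop :=
  ∀ s : Fin (r + 1) → ℝ, ‖s‖ ≤ Λ * ‖∑ i, s i • ((-c i, 1) : Sp r)‖

open Classical in
/-- the family obtained by summing over the fibres of `g` -/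
noncomputable def grp {X ι : Type} (J : Finset ι) (g : ι → ι) (F : ι → X → ℂ) (k : ι) : X → ℂ :=
  ∑ j ∈ J.filter (fun j => g j = k), F j

open Classical in
/-- index set of the grouped family -/
noncomputable def img {ι : Type} (J : Finset ι) (g : ι → ι) : Finset ι := J.image g

/-- `g` groups a family at scale `σ` into a family at scale `ρ` -/
structure Grouping {r : ℕ} {ι : Type} (ρ σ : ℝ) (J : Finset ι) (c : ι → Eu r) (g : ι → ι) :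
    Prop where
  maps : ∀ j ∈ J, g j ∈ J
  near : ∀ j ∈ J, ‖c j - c (g j)‖ + σ ≤ ρ
  sep : ∀ j ∈ J, ∀ k ∈ J, g j ≠ g k → ρ / 2 ≤ ‖c (g j) - c (g k)‖

/-- the multilinear square function quantity at radius `R` -/
noncomputable def AA {r : ℕ} {ι : Type} (p : ℝ) (a : ℕ) (R : ℝ) (ν : Measure (Sp r))
    (J : Fin (r + 1) → Finset ι) (F : Fin (r + 1) → ι → Sp r → ℂ) : ℝ≥0∞ :=
  ∫⁻ x, ∏ i, (∑ j ∈ J i, av a R (fun y => ‖F i j y‖ₑ ^ (2 : ℝ)) x) ^ (p / (2 * (r + 1 : ℝ))) ∂ν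

/-- the decoupled multilinear quantity -/
noncomputable def DD {r : ℕ} {ι : Type} (p : ℝ) (ν : Measure (Sp r))
    (J : Fin (r + 1) → Finset ι) (F : Fin (r + 1) → ι → Sp r → ℂ) : ℝ≥0∞ :=
  ∏ i, sq p ν (J i) (F i) ^ (p / (r + 1 : ℝ))

/-- weight exponent used in the broad-narrow step -/
def bexp (r A : ℕ) : ℕ := 3 * A + 4 * r + 8

/-- multilinear decoupling with constant `K` -/
def ML (r : ℕ) (p : ℝ) (A : ℕ) (Λ κ R σ K : ℝ) : Prop :=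
  ∀ (ι : Type) (c0 : Fin (r + 1) → Eu r) (J : Fin (r + 1) → Finset ι)
    (c : Fin (r + 1) → ι → Eu r) (F : Fin (r + 1) → ι → Sp r → ℂ) (ν : Measure (Sp r)),
    IsFiniteMeasure ν → Moderate A (σ ^ 2) ν → Transv Λ c0 → (∀ i, ‖c0 i‖ ≤ 1 / 2) →
    (∀ i, Fam σ (J i) (c i) (F i)) → (∀ i, ∀ j ∈ J i, ‖c i j - c0 i‖ ≤ κ) →
      ∫⁻ x, ∏ i, (av (bexp r A) R (fun y => ‖(∑ j ∈ J i, F i j) y‖ₑ ^ p) x) ^ (1 / (r + 1 : ℝ)) ∂ν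
        ≤ ENNReal.ofReal K ^ p * DD p ν J F

/-! ## Statements of the tasks -/

/-- packing bound -/
def PACK : Prop :=
  ∀ (r : ℕ) (ι : Type) (J : Finset ι) (c : ι → Eu r) (c0 : Eu r) (δ R : ℝ), 0 < δ → 0 ≤ R →
    (∀ j ∈ J, ∀ k ∈ J, j ≠ k → δ ≤ ‖c j - c k‖) → (∀ j ∈ J, ‖c j - c0‖ ≤ R) →
      (J.card : ℝ) ≤ (1 + 2 * R / δ) ^ r

/-- maximal separated subfamily -/
def GROUP : Prop :=
  ∀ (r : ℕ) (ι : Type) (J : Finset ι) (c : ι → Eu r) (δ : ℝ), 0 < δ →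
    ∃ g : ι → ι, (∀ j ∈ J, g j ∈ J) ∧ (∀ j ∈ J, ‖c j - c (g j)‖ ≤ δ) ∧
      ∀ j ∈ J, ∀ k ∈ J, g j ≠ g k → δ ≤ ‖c (g j) - c (g k)‖

open Classical in
/-- decoupling for families with bounded multiplicity -/
def MULT : Prop :=
  ∀ (r : ℕ) (p : ℝ) (A : ℕ) (σ D : ℝ), 1 ≤ p → 0 < σ → Dec r p A σ D →
    ∀ (ι : Type) (J : Finset ι) (c : ι → Eu r) (F : ι → Sp r → ℂ) (ν : Measure (Sp r)) (M : ℝ),
      IsFiniteMeasure ν → Moderate A (σ ^ 2) ν → (∀ j ∈ J, ‖c j‖ ≤ 1 / 2) →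
      (∀ j ∈ J, F j ∈ Tr (cap (c j) σ (σ ^ 2))) →
      (∀ j ∈ J, ((J.filter (fun k => ‖c j - c k‖ < σ / 2)).card : ℝ) ≤ M) →
        eLpNorm' (∑ j ∈ J, F j) p ν ≤ ENNReal.ofReal (D * Real.sqrt M) * sq p ν J F

/-- trivial decoupling exponent -/
def TRIV : Prop := ∀ (r : ℕ) (p : ℝ) (A : ℕ), 1 ≤ p → DecExp r p A (r / 2)

def W1 : Prop :=
  ∀ r a b : ℕ, b + r + 2 ≤ a → ∃ C : ℝ, 0 < C ∧ ∀ R : ℝ, 0 < R →
    ∫⁻ y : Sp r, wt a R y * ENNReal.ofReal ((1 + ‖y‖ / R) ^ b) ≤ ENNReal.ofReal C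

def W2 : Prop :=
  ∀ r a A : ℕ, A + r + 2 ≤ a → ∃ C : ℝ, 0 < C ∧ ∀ (R s : ℝ) (ν : Measure (Sp r))
    (g : Sp r → ℝ≥0∞), 0 < R → 0 ≤ s → s * R ≤ 1 → IsFiniteMeasure ν → Moderate A s ν →
      Measurable g → ∫⁻ x, av a R g x ∂ν ≤ ENNReal.ofReal C * ∫⁻ x, g x ∂ν

def W3a : Prop :=
  ∀ r A : ℕ, ∃ C : ℝ, 0 < C ∧ ∀ (R s : ℝ) (ν : Measure (Sp r)) (g : Sp r → ℝ≥0∞),
    0 < R → 0 ≤ s → s * R ≤ 1 → IsFiniteMeasure ν → Moderate A s ν → Measurable g →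
      ∫⁻ x, g x ∂ν ≤ ENNReal.ofReal (C * (R ^ (r + 1))⁻¹) *
        ∫⁻ x, (∫⁻ y in Metric.closedBall (0 : Sp r) R, g (x + y)) ∂ν

def W3b : Prop :=
  ∀ r a A : ℕ, ∃ C : ℝ, 0 < C ∧ ∀ (R s : ℝ) (ν : Measure (Sp r)) (g : Sp r → ℝ≥0∞),
    0 < R → 0 ≤ s → s * R ≤ 1 → IsFiniteMeasure ν → Moderate A s ν → Measurable g →
      ∫⁻ x, g x ∂ν ≤ ENNReal.ofReal C * ∫⁻ x, av a R g x ∂ν

def W4 : Prop :=
  ∀ (r a : ℕ) (R : ℝ) (g : Sp r → ℝ≥0∞) (x z : Sp r), 0 < R → Measurable g →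
    av a R g (x + z) ≤ ENNReal.ofReal ((1 + ‖z‖ / R) ^ a) * av a R g x

def W5 : Prop :=
  ∀ (r a : ℕ) (R : ℝ), r + 2 ≤ a → 0 < R →
    IsFiniteMeasure (wm r a R) ∧ Moderate a R⁻¹ (wm r a R)

def W6 : Prop :=
  ∀ r a : ℕ, r + 2 ≤ a → ∃ C : ℝ, 0 < C ∧ ∀ (R R' : ℝ) (z : Sp r), 0 < R → R ≤ R' →
    ∫⁻ s : Sp r, wt a R s * ENNReal.ofReal (((1 + ‖z - s‖ / R') ^ a)⁻¹)
      ≤ ENNReal.ofReal (C * ((1 + ‖z‖ / R') ^ a)⁻¹)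

/-- Jensen for the weighted average -/
def W8 : Prop :=
  ∀ r a : ℕ, r + 2 ≤ a → ∃ C : ℝ, 0 < C ∧ ∀ (R θ : ℝ) (g : Sp r → ℝ≥0∞) (x : Sp r),
    0 < R → 0 < θ → θ ≤ 1 → Measurable g →
      av a R (fun y => g y ^ θ) x ≤ ENNReal.ofReal C * av a R g x ^ θ

/-- reproducing kernel for frequencies of norm at most 2 -/
def KER1 : Prop :=
  ∀ (V : Type) [NormedAddCommGroup V] [InnerProductSpace ℝ V] [FiniteDimensional ℝ V]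
    [MeasurableSpace V] [BorelSpace V],
    ∃ k : V → ℂ, Continuous k ∧ (∀ a : ℕ, ∃ C : ℝ, ∀ y, ‖k y‖ ≤ C * ((1 + ‖y‖) ^ a)⁻¹) ∧
      ∀ ξ : V, ‖ξ‖ ≤ 2 → ∫ y, k y * Complex.exp (Complex.I * ((inner ℝ ξ y : ℝ) : ℂ)) = 1

/-- band limited majorant of the unit ball -/
def KER2 : Prop :=
  ∀ (V : Type) [NormedAddCommGroup V] [InnerProductSpace ℝ V] [FiniteDimensional ℝ V]
    [MeasurableSpace V] [BorelSpace V],
    ∃ (Φ : V → ℝ) (B : ℝ), 0 < B ∧ Continuous Φ ∧ (∀ y, 0 ≤ Φ y) ∧ (∀ y, ‖y‖ ≤ 1 → 1 ≤ Φ y) ∧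
      (∀ a : ℕ, ∃ C : ℝ, ∀ y, Φ y ≤ C * ((1 + ‖y‖) ^ a)⁻¹) ∧
      ∀ ξ : V, B ≤ ‖ξ‖ → ∫ y, (Φ y : ℂ) * Complex.exp (Complex.I * ((inner ℝ ξ y : ℝ) : ℂ)) = 0

/-- Bernstein at unit scale -/
def BERN1 : Prop :=
  ∀ r a : ℕ, ∃ C : ℝ, 0 < C ∧ ∀ f ∈ Tr {ζ : Sp r | ‖ζ‖ ≤ 2}, ∀ x,
    ‖f x‖ₑ ≤ ENNReal.ofReal C * av a 1 (fun y => ‖f y‖ₑ) x

/-- Bernstein on balls of radius `1/ρ` -/
def BERN2 : Prop :=
  ∀ r a : ℕ, r + 2 ≤ a → ∃ C : ℝ, 0 < C ∧ ∀ (ρ : ℝ) (c : Eu r), 0 < ρ → ρ ≤ 1 → ‖c‖ ≤ 1 / 2 →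
    ∀ f ∈ Tr (cap c ρ (ρ ^ 2)), ∀ x,
      ‖f x‖ₑ ^ (2 : ℝ) ≤ ENNReal.ofReal C * av a ρ⁻¹ (fun y => ‖f y‖ₑ ^ (2 : ℝ)) x

/-- local constancy on tubes -/
def TUBE : Prop :=
  ∀ (r a : ℕ) (t : ℝ), r + 2 ≤ a → 1 ≤ t → ∃ C : ℝ, 0 < C ∧ ∀ (ρ : ℝ) (c : Eu r), 0 < ρ → ρ ≤ 1 →
    ‖c‖ ≤ 1 / 2 → ∀ f ∈ Tr (cap c ρ (ρ ^ 2)), ∃ μ : Measure (Eu r), IsFiniteMeasure μ ∧
      μ Set.univ ≤ ENNReal.ofReal (C * (ρ ^ r)⁻¹) * av a (ρ ^ 2)⁻¹ (fun y => ‖f y‖ₑ ^ t) 0 ∧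
      ∀ x : Sp r, ‖x‖ ≤ (ρ ^ 2)⁻¹ →
        av a ρ⁻¹ (fun y => ‖f y‖ₑ ^ t) x ≤ ∫⁻ ζ, prof ρ⁻¹ (x.1 + x.2 • c - ζ) ∂μ

/-- Loomis-Whitney for transversal directions -/
def LW : Prop :=
  ∀ (r : ℕ) (Λ : ℝ), 1 ≤ r → ∃ C : ℝ, 0 < C ∧ ∀ (c : Fin (r + 1) → Eu r), Transv Λ c →
    ∀ G : Fin (r + 1) → Eu r → ℝ≥0∞, (∀ i, Measurable (G i)) →
      ∫⁻ x : Sp r, ∏ i, G i (x.1 + x.2 • c i) ^ (1 / (r : ℝ))
        ≤ ENNReal.ofReal C * ∏ i, (∫⁻ v, G i v) ^ (1 / (r : ℝ))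

/-- one step of Guth's induction on scales -/
def KAKSTEP : Prop :=
  ∀ (r : ℕ) (Λ : ℝ), 1 ≤ r → ∃ C : ℝ, 0 < C ∧ ∀ (ι : Type) (c : Fin (r + 1) → Eu r)
    (J : Fin (r + 1) → Finset ι) (dir : Fin (r + 1) → ι → Eu r)
    (μ : Fin (r + 1) → ι → Measure (Eu r)) (δ W R : ℝ), Transv Λ c → (∀ i, ‖c i‖ ≤ 1 / 2) →
    0 < δ → δ ≤ 1 / 2 → 0 < W → 0 ≤ R → (∀ i, ∀ j ∈ J i, ‖dir i j - c i‖ ≤ δ) →
    (∀ i j, IsFiniteMeasure (μ i j)) →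
      ∫⁻ x in Metric.closedBall (0 : Sp r) R, ∏ i, kT W (J i) (dir i) (μ i) x ^ (1 / (r : ℝ))
        ≤ ENNReal.ofReal (C * δ ^ (r + 1)) *
          ∫⁻ x in Metric.closedBall (0 : Sp r) (R + W / δ),
            ∏ i, kT (W / δ) (J i) (dir i) (μ i) x ^ (1 / (r : ℝ))

/-- multilinear Kakeya -/
def KAK : Prop :=
  ∀ (r : ℕ) (Λ ε : ℝ), 1 ≤ r → 0 < ε → ∃ κ0 C : ℝ, 0 < κ0 ∧ 0 < C ∧
    ∀ (ι : Type) (c : Fin (r + 1) → Eu r) (J : Fin (r + 1) → Finset ι)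
      (dir : Fin (r + 1) → ι → Eu r) (μ : Fin (r + 1) → ι → Measure (Eu r)) (W R : ℝ),
      Transv Λ c → (∀ i, ‖c i‖ ≤ 1 / 2) → 0 < W → W ≤ R →
      (∀ i, ∀ j ∈ J i, ‖dir i j - c i‖ ≤ κ0) → (∀ i j, IsFiniteMeasure (μ i j)) →
        ∫⁻ x in Metric.closedBall (0 : Sp r) R, ∏ i, kT W (J i) (dir i) (μ i) x ^ (1 / (r : ℝ))
          ≤ ENNReal.ofReal (C * (R / W) ^ ε * W ^ (r + 1)) *
            ∏ i, (∑ j ∈ J i, μ i j Set.univ) ^ (1 / (r : ℝ))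

/-- local L2 orthogonality -/
def ORTH : Prop :=
  ∀ r a : ℕ, r + 2 ≤ a → ∃ C : ℝ, 0 < C ∧ ∀ (ι : Type) (J : Finset ι) (c : ι → Eu r)
    (F : ι → Sp r → ℂ) (τ : ℝ) (x : Sp r), 0 < τ → Fam τ J c F →
      av a τ⁻¹ (fun y => ‖(∑ j ∈ J, F j) y‖ₑ ^ (2 : ℝ)) x
        ≤ ENNReal.ofReal C * ∑ j ∈ J, av a τ⁻¹ (fun y => ‖F j y‖ₑ ^ (2 : ℝ)) x

/-- ball inflation, local form at the origin; `t = 4p/(p+2)` -/
def STEP1 : Prop :=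
  ∀ (r a : ℕ) (p Λ ε : ℝ), 1 ≤ r → r + 2 ≤ a → 2 < p → r * (p - 2) ≤ 4 → 0 < ε →
    ∃ κ0 C : ℝ, 0 < κ0 ∧ 0 < C ∧ ∀ (ι : Type) (c0 : Fin (r + 1) → Eu r)
      (J : Fin (r + 1) → Finset ι) (c : Fin (r + 1) → ι → Eu r)
      (F : Fin (r + 1) → ι → Sp r → ℂ) (ρ : ℝ), Transv Λ c0 → (∀ i, ‖c0 i‖ ≤ 1 / 2) →
      0 < ρ → ρ ≤ 1 → (∀ i, Fam ρ (J i) (c i) (F i)) → (∀ i, ∀ j ∈ J i, ‖c i j - c0 i‖ ≤ κ0) →
        ∫⁻ x in Metric.closedBall (0 : Sp r) (ρ ^ 2)⁻¹,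
          ∏ i, (∑ j ∈ J i, av a ρ⁻¹ (fun y => ‖F i j y‖ₑ ^ (2 : ℝ)) x) ^ (p / (2 * (r + 1 : ℝ)))
        ≤ ENNReal.ofReal (C * ρ ^ (-ε) * ((ρ ^ 2)⁻¹) ^ (r + 1)) *
          ∏ i, (∑ j ∈ J i, av a (ρ ^ 2)⁻¹ (fun y => ‖F i j y‖ₑ ^ (4 * p / (p + 2))) 0
            ^ ((p + 2) / (2 * p))) ^ (p / (2 * (r + 1 : ℝ)))

/-- Hoelder plus Minkowski bounds by the decoupled quantity -/
def HOLD : Prop :=
  ∀ (r a A : ℕ) (p : ℝ), A + r + 2 ≤ a → 2 ≤ p → ∃ C : ℝ, 0 < C ∧ ∀ (ι : Type)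
    (J : Fin (r + 1) → Finset ι) (F : Fin (r + 1) → ι → Sp r → ℂ) (ν : Measure (Sp r)) (R s : ℝ),
    0 < R → 0 ≤ s → s * R ≤ 1 → IsFiniteMeasure ν → Moderate A s ν →
    (∀ i, ∀ j ∈ J i, Continuous (F i j)) →
      (∫⁻ x, ∏ i, (∑ j ∈ J i, av a R (fun y => ‖F i j y‖ₑ ^ p) x ^ (2 / p))
          ^ (p / (2 * (r + 1 : ℝ))) ∂ν ≤ ENNReal.ofReal C * DD p ν J F) ∧
      AA p a R ν J F ≤ ENNReal.ofReal C * DD p ν J F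

/-- one step of the multiscale iteration -/
def STEP2 : Prop :=
  ∀ (r a A : ℕ) (p Λ ε : ℝ), 1 ≤ r → A + r + 2 ≤ a → 2 < p → r * (p - 2) ≤ 4 → 0 < ε →
    ∃ κ0 C : ℝ, 0 < κ0 ∧ 0 < C ∧ ∀ (ι : Type) (c0 : Fin (r + 1) → Eu r)
      (J : Fin (r + 1) → Finset ι) (c : Fin (r + 1) → ι → Eu r)
      (F : Fin (r + 1) → ι → Sp r → ℂ) (g : Fin (r + 1) → ι → ι) (ν : Measure (Sp r)) (ρ s : ℝ),
      Transv Λ c0 → (∀ i, ‖c0 i‖ ≤ 1 / 2) → 0 < ρ → ρ ≤ 1 → 0 ≤ s → s ≤ ρ ^ 2 →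
      IsFiniteMeasure ν → Moderate A s ν → (∀ i, Fam (ρ ^ 2) (J i) (c i) (F i)) →
      (∀ i, ∀ j ∈ J i, ‖c i j - c0 i‖ ≤ κ0) → (∀ i, Grouping ρ (ρ ^ 2) (J i) (c i) (g i)) →
        AA p a ρ⁻¹ ν (fun i => img (J i) (g i)) (fun i => grp (J i) (g i) (F i))
          ≤ ENNReal.ofReal (C * ρ ^ (-ε)) * AA p a (ρ ^ 2)⁻¹ ν J F ^ (1 / 2 : ℝ) *
            DD p ν (fun i => img (J i) (g i)) (fun i => grp (J i) (g i) (F i)) ^ (1 / 2 : ℝ)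

/-- parabolic rescaling -/
def RESC : Prop :=
  ∀ (r : ℕ) (p : ℝ) (A : ℕ) (σ ρ D : ℝ), 1 ≤ p → 0 < σ → 0 < ρ → ρ ≤ 1 / 2 → Dec r p A (σ / ρ) D →
    ∀ (ι : Type) (J : Finset ι) (c : ι → Eu r) (F : ι → Sp r → ℂ) (g : ι → ι)
      (ν : Measure (Sp r)), IsFiniteMeasure ν → Moderate A (σ ^ 2) ν → Fam σ J c F →
      (∀ j ∈ J, g j ∈ J ∧ ‖c j - c (g j)‖ ≤ ρ / 2) →
        sq p ν (img J g) (grp J g F) ≤ ENNReal.ofReal D * sq p ν J F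

/-- the iteration of `STEP2` -/
def ITER : Prop :=
  ∀ (r a A m : ℕ) (p Λ ε : ℝ), 1 ≤ r → A + r + 2 ≤ a → 2 < p → r * (p - 2) ≤ 4 → 0 < ε →
    ∃ κ0 : ℝ, 0 < κ0 ∧ ∀ η : ℝ, 0 ≤ η → DecExp r p A η → ∃ C : ℝ, 0 < C ∧
      ∀ (ι : Type) (c0 : Fin (r + 1) → Eu r) (J : Fin (r + 1) → Finset ι)
        (c : Fin (r + 1) → ι → Eu r) (F : Fin (r + 1) → ι → Sp r → ℂ) (ν : Measure (Sp r))
        (ρ σ : ℝ), Transv Λ c0 → (∀ i, ‖c0 i‖ ≤ 1 / 2) → 0 < ρ → ρ ≤ 1 / 4 → σ = ρ ^ (2 ^ m) →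
        IsFiniteMeasure ν → Moderate A (σ ^ 2) ν → (∀ i, Fam σ (J i) (c i) (F i)) →
        (∀ i, ∀ j ∈ J i, ‖c i j - c0 i‖ ≤ κ0) →
          ∃ g : Fin (r + 1) → ι → ι, (∀ i, Grouping ρ σ (J i) (c i) (g i)) ∧
            AA p a ρ⁻¹ ν (fun i => img (J i) (g i)) (fun i => grp (J i) (g i) (F i))
              ≤ ENNReal.ofReal (C * ρ ^ (-(m * ε)) * σ ^ (-(η * p)) * ρ ^ (η * p * (1 + m / 2)))
                * DD p ν J F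

/-- multilinear decoupling gains over linear decoupling -/
def MLEXP : Prop :=
  ∀ (r A : ℕ) (p η0 : ℝ), 1 ≤ r → 2 < p → r * (p - 2) ≤ 4 → 0 < η0 → ∃ γ : ℝ, 0 < γ ∧
    ∀ Λ : ℝ, ∃ κ0 : ℝ, 0 < κ0 ∧ ∀ η : ℝ, η0 ≤ η → DecExp r p A η → ∀ R : ℝ, 1 ≤ R →
      ∃ C : ℝ, 0 < C ∧ ∀ σ : ℝ, 0 < σ → σ ^ 2 * R ≤ 1 → ML r p A Λ κ0 R σ (C * σ ^ (-(η - γ)))

/-- narrow or broad -/
def GREEDY : Prop :=
  ∀ (r : ℕ) (w : ℝ), 1 ≤ r → 0 < w → ∃ Λ : ℝ, ∀ (ι : Type) (S : Finset ι) (c : ι → Eu r),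
    S.Nonempty → (∀ j ∈ S, ‖c j‖ ≤ 1 / 2) →
      (∃ (v : Eu r) (h : ℝ), ‖v‖ = 1 ∧ |h| ≤ 1 / 2 ∧ ∀ j ∈ S, |inner ℝ (c j) v - h| ≤ w) ∨
      ∃ τ : Fin (r + 1) → ι, (∀ i, τ i ∈ S) ∧ Transv Λ (fun i => c (τ i))

/-- lower dimensional decoupling near a hyperplane -/
def CYL : Prop :=
  ∀ r : ℕ, ∃ C : ℝ, 0 < C ∧ ∀ (p : ℝ) (b : ℕ) (w D : ℝ), 2 ≤ p → r + 3 ≤ b → 0 < w → w ≤ 1 / 4 →
    Dec r p b (2 * w) D → ∀ (ι : Type) (J : Finset ι) (c : ι → Eu (r + 1))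
      (G : ι → Sp (r + 1) → ℂ) (v : Eu (r + 1)) (h : ℝ), ‖v‖ = 1 → |h| ≤ 1 / 2 →
      (∀ j ∈ J, ‖c j‖ ≤ 1 / 2) → (∀ j ∈ J, ∀ k ∈ J, j ≠ k → w / 2 ≤ ‖c j - c k‖) →
      (∀ j ∈ J, |inner ℝ (c j) v - h| ≤ 2 * w) →
      (∀ j ∈ J, G j ∈ Tr (cap (c j) w (w ^ 2) ∩ {ζ | |inner ℝ ζ.1 v - h| ≤ 2 * w})) →
        eLpNorm' (∑ j ∈ J, G j) p (wm (r + 1) b (w ^ 2)⁻¹)
          ≤ ENNReal.ofReal (C * D) * sq p (wm (r + 1) b (w ^ 2)⁻¹) J G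

open Classical in
/-- local broad-narrow inequality -/
def BGLOC : Prop :=
  ∀ (r : ℕ) (p : ℝ), 2 ≤ p → ∃ C : ℝ, 0 < C ∧ ∀ w : ℝ, 0 < w → w ≤ 1 / 4 → ∃ Λ : ℝ,
    ∀ (b : ℕ) (κ D : ℝ), r + 3 ≤ b → 0 < κ → κ ≤ w / 2 → 0 ≤ D → Dec r p b (2 * w) D →
      ∀ (ι : Type) (J : Finset ι) (c : ι → Eu (r + 1)) (F : ι → Sp (r + 1) → ℂ) (h : ι → ι),
        Fam κ J c F → Grouping w κ J c h →
          eLpNorm' (∑ j ∈ J, F j) p (wm (r + 1) b (w ^ 2)⁻¹) ^ p ≤ ENNReal.ofReal C *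
            (ENNReal.ofReal (1 + D) ^ p *
              (sq p (wm (r + 1) b (w ^ 2)⁻¹) (img J h) (grp J h F) ^ p +
                ∑ j ∈ J, eLpNorm' (F j) p (wm (r + 1) b (w ^ 2)⁻¹) ^ p) +
            (J.card : ℝ≥0∞) ^ (2 * p) *
              ∑ τ ∈ (Fintype.piFinset (fun _ : Fin (r + 1 + 1) => J)).filter
                  (fun τ => Transv Λ (fun i => c (τ i))),
                ∏ i, eLpNorm' (F (τ i)) p (wm (r + 1) b (w ^ 2)⁻¹) ^ (p / ((r + 1 : ℕ) + 1 : ℝ)))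

/-- the Bourgain-Guth recursion -/
def BG : Prop :=
  ∀ (r A : ℕ) (p : ℝ), 2 ≤ p → ∃ C0 : ℝ, 0 < C0 ∧ ∀ w : ℝ, 0 < w → w ≤ 1 / 4 → ∃ Λ : ℝ,
    ∀ κ : ℝ, 0 < κ → κ ≤ w / 2 → ∃ C1 : ℝ, 0 < C1 ∧ ∀ σ D D1 D2 K : ℝ, 0 < σ → σ ≤ κ / 2 →
      0 ≤ D → 0 ≤ D1 → 0 ≤ D2 → 0 ≤ K → Dec r p (bexp (r + 1) A) (2 * w) D →
      Dec (r + 1) p A (σ / (2 * w)) D1 → Dec (r + 1) p A (σ / κ) D2 →
      ML (r + 1) p A Λ κ (w ^ 2)⁻¹ σ K →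
        Dec (r + 1) p A σ (C0 * (1 + D) * (D1 + D2) + C1 * K)

/-- the inductive step in the dimension -/
def BOOT : Prop :=
  ∀ (r : ℕ) (p : ℝ), 2 < p → (r + 1 : ℕ) * (p - 2) ≤ 4 → DecThm r p → DecThm (r + 1) p

/-! ## Basic lemmas -/

theorem continuous_wave {r : ℕ} (ζ : Sp r) : Continuous (wave ζ) := by
  unfold wave; fun_prop

theorem norm_wave {r : ℕ} (ζ x : Sp r) : ‖wave ζ x‖ = 1 := by
  unfold wave; rw [mul_comm]; exact Complex.norm_exp_ofReal_mul_I _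

theorem wave_add {r : ℕ} (ζ x y : Sp r) : wave ζ (x + y) = wave ζ x * wave ζ y := by
  unfold wave
  rw [← Complex.exp_add]
  congr 1
  simp only [Prod.fst_add, Prod.snd_add, inner_add_right]
  push_cast; ring

theorem add_wave {r : ℕ} (ζ ξ x : Sp r) : wave (ζ + ξ) x = wave ζ x * wave ξ x := by
  unfold wave
  rw [← Complex.exp_add]
  congr 1
  simp only [Prod.fst_add, Prod.snd_add, inner_add_left]
  push_cast; ring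

theorem Tr_mono {r : ℕ} {S T : Set (Sp r)} (h : S ⊆ T) : Tr S ≤ Tr T :=
  Submodule.span_mono (Set.image_mono h)

theorem wave_mem_Tr {r : ℕ} {S : Set (Sp r)} {ζ : Sp r} (h : ζ ∈ S) : wave ζ ∈ Tr S :=
  Submodule.subset_span ⟨ζ, h, rfl⟩

/-- induction principle for exponential sums -/
theorem Tr_induction {r : ℕ} {S : Set (Sp r)} {P : (Sp r → ℂ) → Prop}
    (hw : ∀ ζ ∈ S, P (wave ζ)) (h0 : P 0) (hadd : ∀ f g, P f → P g → P (f + g))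
    (hsmul : ∀ (a : ℂ) f, P f → P (a • f)) {f : Sp r → ℂ} (hf : f ∈ Tr S) : P f := by
  unfold Tr at hf
  induction hf using Submodule.span_induction with
  | mem x hx => obtain ⟨ζ, hζ, rfl⟩ := hx; exact hw ζ hζ
  | zero => exact h0
  | add x y _ _ hx hy => exact hadd x y hx hy
  | smul a x _ hx => exact hsmul a x hx

theorem continuous_of_mem_Tr {r : ℕ} {S : Set (Sp r)} {f : Sp r → ℂ} (hf : f ∈ Tr S) :
    Continuous f :=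
  Tr_induction (P := fun f => Continuous f) (fun ζ _ => continuous_wave ζ) continuous_const
    (fun _ _ hf hg => hf.add hg) (fun a _ hf => hf.const_smul a) hf

theorem bounded_of_mem_Tr {r : ℕ} {S : Set (Sp r)} {f : Sp r → ℂ} (hf : f ∈ Tr S) :
    ∃ B : ℝ, ∀ x, ‖f x‖ ≤ B := by
  refine Tr_induction (P := fun f => ∃ B : ℝ, ∀ x, ‖f x‖ ≤ B)
    (fun ζ _ => ⟨1, fun x => (norm_wave ζ x).le⟩) ⟨0, fun x => by simp⟩ ?_ ?_ hf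
  · rintro f g ⟨B, hB⟩ ⟨B', hB'⟩
    exact ⟨B + B', fun x => (norm_add_le _ _).trans (add_le_add (hB x) (hB' x))⟩
  · rintro a f ⟨B, hB⟩
    exact ⟨‖a‖ * B, fun x => by
      simpa [norm_smul] using mul_le_mul_of_nonneg_left (hB x) (norm_nonneg a)⟩

theorem translate_mem_Tr {r : ℕ} {S : Set (Sp r)} {f : Sp r → ℂ} (hf : f ∈ Tr S) (x0 : Sp r) :
    (fun x => f (x0 + x)) ∈ Tr S := by
  refine Tr_induction (P := fun f => (fun x => f (x0 + x)) ∈ Tr S) ?_ (Tr S).zero_mem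
    (fun f g hf hg => (Tr S).add_mem hf hg) (fun a f hf => (Tr S).smul_mem a hf) hf
  intro ζ hζ
  have : (fun x => wave ζ (x0 + x)) = wave ζ x0 • wave ζ := by
    funext x; simp [wave_add]
  rw [this]
  exact (Tr S).smul_mem _ (wave_mem_Tr hζ)

theorem Fam.translate {r : ℕ} {ι : Type} {σ : ℝ} {J : Finset ι} {c : ι → Eu r}
    {F : ι → Sp r → ℂ} (h : Fam σ J c F) (x0 : Sp r) :
    Fam σ J c (fun j x => F j (x0 + x)) :=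
  ⟨h.norm_le, h.sep, fun j hj => translate_mem_Tr (h.mem j hj) x0⟩

theorem Fam.mono {r : ℕ} {ι : Type} {σ : ℝ} {J J' : Finset ι} {c : ι → Eu r}
    {F : ι → Sp r → ℂ} (h : Fam σ J c F) (hJ : J' ⊆ J) : Fam σ J' c F :=
  ⟨fun j hj => h.norm_le j (hJ hj), fun j hj k hk => h.sep j (hJ hj) k (hJ hk),
    fun j hj => h.mem j (hJ hj)⟩

theorem Fam.continuous {r : ℕ} {ι : Type} {σ : ℝ} {J : Finset ι} {c : ι → Eu r}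
    {F : ι → Sp r → ℂ} (h : Fam σ J c F) {j : ι} (hj : j ∈ J) : Continuous (F j) :=
  continuous_of_mem_Tr (h.mem j hj)

theorem av_translate {r : ℕ} (a : ℕ) (R : ℝ) (g : Sp r → ℝ≥0∞) (x0 x : Sp r) :
    av a R (fun y => g (x0 + y)) x = av a R g (x0 + x) := by
  unfold av; simp only [add_assoc]

theorem measurable_wt {r : ℕ} (a : ℕ) (R : ℝ) : Measurable (wt (r := r) a R) := by
  unfold wt; fun_prop

theorem measurable_prof {r : ℕ} (W : ℝ) : Measurable (prof (r := r) W) := by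
  unfold prof; fun_prop

theorem measurable_av {r : ℕ} (a : ℕ) (R : ℝ) {g : Sp r → ℝ≥0∞} (hg : Measurable g) :
    Measurable (av a R g) := by
  unfold av
  refine Measurable.lintegral_prod_right' (f := fun z : Sp r × Sp r => g (z.1 + z.2) * wt a R z.2) ?_
  exact (hg.comp (measurable_fst.add measurable_snd)).mul ((measurable_wt a R).comp measurable_snd)

theorem lintegral_wm {r : ℕ} (a : ℕ) (R : ℝ) {g : Sp r → ℝ≥0∞} (hg : Measurable g) (x : Sp r) :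
    ∫⁻ y, g (x + y) ∂(wm r a R) = av a R g x := by
  unfold wm av
  rw [lintegral_withDensity_eq_lintegral_mul _ (measurable_wt a R)
    (g := fun y => g (x + y)) (hg.comp (measurable_const_add x))]
  simp only [Pi.mul_apply, mul_comm]

theorem mem_img {ι : Type} {J : Finset ι} {g : ι → ι} {k : ι} :
    k ∈ img J g ↔ ∃ j ∈ J, g j = k := by
  classical
  unfold img; simp

theorem sum_grp {X ι : Type} (J : Finset ι) (g : ι → ι) (F : ι → X → ℂ) :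
    ∑ k ∈ img J g, grp J g F k = ∑ j ∈ J, F j := by
  classical
  unfold grp img
  convert Finset.sum_fiberwise_of_maps_to (s := J) (t := J.image g) (g := g)
    (fun j hj => Finset.mem_image_of_mem g hj) F

open Classical in
theorem sum_img_filter {ι M : Type} [AddCommMonoid M] (J : Finset ι) (g : ι → ι) (u : ι → M) :
    ∑ k ∈ img J g, ∑ j ∈ J.filter (fun j => g j = k), u j = ∑ j ∈ J, u j := by
  unfold img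
  exact Finset.sum_fiberwise_of_maps_to (s := J) (t := J.image g) (g := g)
    (fun j hj => Finset.mem_image_of_mem g hj) u

theorem img_comp {ι : Type} (J : Finset ι) (g h : ι → ι) :
    img (img J g) h = img J (h ∘ g) := by
  classical
  unfold img; rw [Finset.image_image]

theorem grp_comp {X ι : Type} (J : Finset ι) (g h : ι → ι) (F : ι → X → ℂ) :
    grp (img J g) h (grp J g F) = grp J (h ∘ g) F := by
  classical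
  funext k
  have h1 := sum_grp (J.filter (fun j => h (g j) = k)) g F
  have h2 : img (J.filter (fun j => h (g j) = k)) g = (img J g).filter (fun l => h l = k) := by
    ext l
    simp only [mem_img, Finset.mem_filter]
    constructor
    · rintro ⟨j, ⟨hj, hk⟩, rfl⟩; exact ⟨⟨j, hj, rfl⟩, hk⟩
    · rintro ⟨⟨j, hj, rfl⟩, hk⟩; exact ⟨j, ⟨hj, hk⟩, rfl⟩
  rw [h2] at h1
  have h3 : grp J (h ∘ g) F k = ∑ j ∈ J.filter (fun j => h (g j) = k), F j := by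
    unfold grp; rfl
  rw [h3, ← h1]
  conv_lhs => unfold grp
  refine Finset.sum_congr (by congr) fun l hl => ?_
  have hl' := (Finset.mem_filter.1 hl).2
  unfold grp
  refine Finset.sum_congr ?_ fun _ _ => rfl
  ext j
  simp only [Finset.mem_filter]
  constructor
  · rintro ⟨hj, rfl⟩; exact ⟨⟨hj, hl'⟩, rfl⟩
  · rintro ⟨⟨hj, _⟩, hg⟩; exact ⟨hj, hg⟩

theorem Fam.group {r : ℕ} {ι : Type} {ρ σ : ℝ} {J : Finset ι} {c : ι → Eu r}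
    {F : ι → Sp r → ℂ} {g : ι → ι} (h : Fam σ J c F) (hg : Grouping ρ σ J c g) (hσ : 0 ≤ σ) :
    Fam ρ (img J g) c (grp J g F) := by
  classical
  refine ⟨?_, ?_, ?_⟩
  · intro k hk
    obtain ⟨j, hj, rfl⟩ := mem_img.1 hk
    exact h.norm_le _ (hg.maps j hj)
  · intro k hk l hl hkl
    obtain ⟨j, hj, rfl⟩ := mem_img.1 hk
    obtain ⟨j', hj', rfl⟩ := mem_img.1 hl
    exact hg.sep j hj j' hj' hkl
  · intro k _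
    unfold grp
    refine Submodule.sum_mem _ fun j hj0 => ?_
    obtain ⟨hj, rfl⟩ := Finset.mem_filter.1 hj0
    refine Tr_mono ?_ (h.mem j hj)
    rintro ζ ⟨h1, h2⟩
    have h3 := hg.near j hj
    have h4 : σ ≤ ρ := by linarith [norm_nonneg (c j - c (g j))]
    refine ⟨?_, h2.trans (pow_le_pow_left₀ hσ h4 2)⟩
    calc ‖ζ.1 - c (g j)‖ = ‖(ζ.1 - c j) + (c j - c (g j))‖ := by congr 1; abel
      _ ≤ ‖ζ.1 - c j‖ + ‖c j - c (g j)‖ := norm_add_le _ _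
      _ ≤ ρ := by linarith

theorem Dec.mono {r : ℕ} {p : ℝ} {A : ℕ} {σ D D' : ℝ} (h : Dec r p A σ D) (hD : D ≤ D') :
    Dec r p A σ D' := fun ι J c F ν h1 h2 h3 =>
  (h ι J c F ν h1 h2 h3).trans (mul_le_mul_left (ENNReal.ofReal_le_ofReal hD) _)

theorem ML.mono {r : ℕ} {p : ℝ} {A : ℕ} {Λ κ κ' R σ K : ℝ} (h : ML r p A Λ κ R σ K) (hκ : κ' ≤ κ) :
    ML r p A Λ κ' R σ K := fun ι c0 J c F ν h1 h2 h3 h4 h5 h6 =>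
  h ι c0 J c F ν h1 h2 h3 h4 h5 fun i j hj => (h6 i j hj).trans hκ

theorem sq_mono {X ι : Type} [MeasurableSpace X] (p : ℝ) (ν : Measure X) {J J' : Finset ι}
    (hJ : J' ⊆ J) (F : ι → X → ℂ) : sq p ν J' F ≤ sq p ν J F :=
  ENNReal.rpow_le_rpow (Finset.sum_le_sum_of_subset hJ) (by norm_num)

/-- Minkowski in `L^(p/2)` -/
theorem mink {X ι : Type} [MeasurableSpace X] (ν : Measure X) {p : ℝ} (hp : 2 ≤ p) (J : Finset ι)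
    (v : ι → X → ℝ≥0∞) (hv : ∀ j ∈ J, Measurable (v j)) :
    ∫⁻ x, (∑ j ∈ J, v j x ^ (2 / p)) ^ (p / 2) ∂ν
      ≤ (∑ j ∈ J, (∫⁻ x, v j x ∂ν) ^ (2 / p)) ^ (p / 2) := by
  have hp0 : 0 < p := by linarith
  have h := eLpNorm'_sum_le (μ := ν) (q := p / 2) (s := J) (f := fun j x => v j x ^ (2 / p))
    (fun j hj => ((hv j hj).pow_const _).aestronglyMeasurable) (by linarith)
  simp only [eLpNorm'_eq_lintegral_enorm, enorm_eq_self, Finset.sum_apply] at h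
  have e1 : ∀ z : ℝ≥0∞, (z ^ (2 / p)) ^ (p / 2) = z := fun z => by
    rw [← ENNReal.rpow_mul]; field_simp; simp
  have e2 : 1 / (p / 2) = 2 / p := by field_simp
  simp only [e1, e2] at h
  calc _ = ((∫⁻ x, (∑ j ∈ J, v j x ^ (2 / p)) ^ (p / 2) ∂ν) ^ (2 / p)) ^ (p / 2) := (e1 _).symm
    _ ≤ _ := ENNReal.rpow_le_rpow h (by positivity)

end Pool.Agent.P.MP_7211b7_an
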