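import Pool.Agent.P.MP_7211b7_an.DefsA

/-!
# MP_7211b7_an, part B: Strichartz estimates on rectangular tori (definitions and interface)

Every `def X : Prop` below is the statement of one task.
-/

open MeasureTheory
open scoped ENNReal

namespace Pool.Agent.P.MP_7211b7_an

/-- the Schroedinger flow on the torus `ℝ^r / (2π ℤ)^r` with `Q(n) = ∑ θ i * n i ^ 2`;
`z = (t, x)` -/
noncomputable def tor {r : ℕ} (θ : Fin r → ℝ) (S : Finset (Fin r → ℤ)) (a : (Fin r → ℤ) → ℂ)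
    (z : ℝ × (Fin r → ℝ)) : ℂ :=
  ∑ n ∈ S, a n * Complex.exp (Complex.I *
    ((∑ i, z.2 i * (n i : ℝ) - z.1 * ∑ i, θ i * (n i : ℝ) ^ 2 : ℝ) : ℂ))

/-- a period box -/
def box (r : ℕ) : Set (Fin r → ℝ) := Set.Icc 0 (fun _ => 2 * Real.pi)

/-- space-time domain -/
def dom (r : ℕ) (T : ℝ) : Set (ℝ × (Fin r → ℝ)) := Set.Icc (-T) T ×ˢ box r

/-- Strichartz bound with loss `N^e` on `[-T,T]` -/
def TorBd (r : ℕ) (θ : Fin r → ℝ) (p T e : ℝ) : Prop :=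
  ∃ C : ℝ, 0 < C ∧ ∀ (N : ℕ) (S : Finset (Fin r → ℤ)) (a : (Fin r → ℤ) → ℂ), 1 ≤ N →
    (∀ n ∈ S, ∀ i, |n i| ≤ N) →
      ∫ z in dom r T, ‖tor θ S a z‖ ^ p ≤ (C * (N : ℝ) ^ e) ^ p * (∑ n ∈ S, ‖a n‖ ^ 2) ^ (p / 2)

/-- scale invariant Strichartz estimates on the torus, whole range -/
def TorThm (r : ℕ) (θ : Fin r → ℝ) : Prop :=
  ∀ p T : ℝ, 4 < r * (p - 2) → 0 < T → TorBd r θ p T (r / 2 - (r + 2) / p)

/-- measure of a level set -/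
noncomputable def lev {r : ℕ} (θ : Fin r → ℝ) (S : Finset (Fin r → ℤ)) (a : (Fin r → ℤ) → ℂ)
    (T lam : ℝ) : ℝ :=
  (volume (dom r T ∩ {z | lam ≤ ‖tor θ S a z‖})).toReal

/-- one dimensional Weyl sum with triangular weight -/
noncomputable def kk (N : ℕ) (τ x : ℝ) : ℂ :=
  ∑ n ∈ Finset.Icc (-(2 * N : ℤ)) (2 * N), ((2 - |(n : ℝ)| / N : ℝ) : ℂ) *
    Complex.exp (Complex.I * ((x * n - τ * (n : ℝ) ^ 2 : ℝ) : ℂ))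

/-- major arcs -/
def Maj (N b : ℕ) : Set ℝ :=
  {τ | ∃ q : ℕ, 1 ≤ q ∧ q ≤ b ∧ ∃ a : ℤ, |q * τ / Real.pi - a| ≤ b / (N : ℝ) ^ 2}

/-- number of divisors up to `b` -/
def dv (b : ℕ) (ω : ℤ) : ℕ := ((Finset.Icc 1 b).filter (fun q : ℕ => (q : ℤ) ∣ ω)).card

open Classical in
/-- number of `|ω| ≤ X` with more than `D` divisors up to `b` -/
noncomputable def exc (b X : ℕ) (D : ℝ) : ℕ :=
  ((Finset.Icc (-(X : ℤ)) X).filter (fun ω => D < (dv b ω : ℝ))).card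

/-- large level sets -/
def LevelBd (r : ℕ) (θ : Fin r → ℝ) (q T : ℝ) : Prop :=
  ∃ η C : ℝ, 0 < η ∧ 0 < C ∧ ∀ (N : ℕ) (S : Finset (Fin r → ℤ)) (a : (Fin r → ℤ) → ℂ) (B : ℝ),
    1 ≤ N → (∀ n ∈ S, ∀ i, |n i| ≤ N) → ∑ n ∈ S, ‖a n‖ ^ 2 ≤ 1 → 0 < B → B ≤ (N : ℝ) ^ η →
      lev θ S a T ((N : ℝ) ^ (r / 2 : ℝ) / B) ≤ C * (N : ℝ) ^ (-(r + 2 : ℝ)) * B ^ q

/-! ## Statements of the tasks -/

/-- from short to long time intervals -/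
def COVER : Prop :=
  ∀ (r : ℕ) (θ : Fin r → ℝ) (p e T0 T : ℝ), 1 ≤ p → 0 < T0 → 0 < T → TorBd r θ p T0 e →
    TorBd r θ p T e

/-- decoupling implies the torus bound with an epsilon loss -/
def TORA : Prop :=
  ∀ (r : ℕ) (θ : Fin r → ℝ) (p ε : ℝ), 1 ≤ r → (∀ i, 0 < θ i) → 2 ≤ p → 0 < ε → DecThm r p →
    ∃ T0 : ℝ, 0 < T0 ∧ TorBd r θ p T0 ε

open Classical in
/-- counting lemma off the major arcs -/
def COUNT : Prop :=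
  ∃ C : ℝ, 0 < C ∧ ∀ (N b : ℕ) (τ u : ℝ), 1 ≤ b → b ≤ N → τ ∉ Maj N b → 1 / (N : ℝ) ≤ u →
    (((Finset.Icc (-(4 * N : ℤ)) (4 * N)).filter
      (fun h : ℤ => ∃ a : ℤ, |h * τ / Real.pi - a| ≤ u)).card : ℝ) ≤ C * u * (N : ℝ) ^ 2 / b

/-- Weyl bound off the major arcs, without logarithms -/
def WEYL : Prop :=
  ∃ C : ℝ, 0 < C ∧ ∀ (N b : ℕ) (τ x : ℝ), 1 ≤ b → b ≤ N → τ ∉ Maj N b →
    ‖kk N τ x‖ ^ 2 ≤ C * (N : ℝ) ^ 2 / b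

/-- few integers have many small divisors -/
def EXC : Prop :=
  ∀ δ B : ℝ, 0 < δ → 0 < B → ∃ (k : ℕ) (C : ℝ), 0 < C ∧ ∀ b X : ℕ, 1 ≤ b → 1 ≤ X →
    (exc b X ((b : ℝ) ^ δ) : ℝ) ≤ C * (X * (b : ℝ) ^ (-B) + (b : ℝ) ^ k)

/-- bilinear form over the major arcs -/
def COMB : Prop :=
  ∀ θ T : ℝ, 0 < θ → 0 < T → θ * T ≤ Real.pi / 2 → ∃ C : ℝ, 0 < C ∧
    ∀ (N b : ℕ) (D : ℝ) (h : ℝ → ℝ), 1 ≤ b → 6 * b ≤ N → 0 ≤ D → Measurable h → (∀ s, 0 ≤ h s) →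
      (∃ B : ℝ, ∀ s, h s ≤ B) →
        ∫ t in Set.Icc (-T) T, ∫ s in Set.Icc (-T) T,
            (Maj N b).indicator (fun _ => (1 : ℝ)) (θ * (t - s)) * (h t * h s)
          ≤ C * (b / (N : ℝ) ^ 2) * (D * (∫ s in Set.Icc (-T) T, h s ^ 2) +
            b * exc b (N ^ 2) D * (∫ s in Set.Icc (-T) T, h s) ^ 2)

/-- the Stein-Tomas argument on a level set -/
def TT : Prop :=
  ∀ r : ℕ, ∃ C : ℝ, 0 < C ∧ ∀ (θ : Fin r → ℝ) (T lam K0 : ℝ) (N : ℕ) (S : Finset (Fin r → ℤ))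
    (a : (Fin r → ℤ) → ℂ) (Mj : Set ℝ), 0 < T → 0 < lam → 0 ≤ K0 → 1 ≤ N →
    (∀ n ∈ S, ∀ i, |n i| ≤ N) → ∑ n ∈ S, ‖a n‖ ^ 2 ≤ 1 → MeasurableSet Mj →
    (∀ t ∉ Mj, ∀ x : Fin r → ℝ, ∏ i, ‖kk N (θ i * t) (x i)‖ ≤ K0) →
      ∃ h : ℝ → ℝ, Measurable h ∧ (∀ s, 0 ≤ h s) ∧ (∃ B : ℝ, ∀ s, h s ≤ B) ∧
        ∫ s in Set.Icc (-T) T, h s ^ 2 ≤ C * lev θ S a T lam ∧
        ∫ s in Set.Icc (-T) T, h s ≤ C * (N : ℝ) ^ (r / 2 : ℝ) * lev θ S a T lam ∧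
        lam ^ 2 * lev θ S a T lam ^ 2 ≤ K0 * lev θ S a T lam ^ 2 +
          ∫ t in Set.Icc (-T) T, ∫ s in Set.Icc (-T) T,
            Mj.indicator (fun _ => (1 : ℝ)) (t - s) * (h t * h s)

/-- level set estimate -/
def LEVEL : Prop :=
  ∀ (r : ℕ) (θ : Fin r → ℝ) (q T : ℝ), 4 < r * (q - 2) → (∀ i, 0 < θ i) → 0 < T →
    (∀ i, θ i * T ≤ Real.pi / 2) → LevelBd r θ q T

/-- removal of the epsilon -/
def LAYER : Prop :=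
  ∀ (r : ℕ) (θ : Fin r → ℝ) (p T : ℝ), 4 < r * (p - 2) → 0 < T →
    (∀ ε : ℝ, 0 < ε → TorBd r θ (2 + 4 / r) T ε) → (∀ q : ℝ, 4 < r * (q - 2) → LevelBd r θ q T) →
      TorBd r θ p T (r / 2 - (r + 2) / p)

/-! ## Basic lemmas -/

theorem continuous_tor {r : ℕ} (θ : Fin r → ℝ) (S : Finset (Fin r → ℤ)) (a : (Fin r → ℤ) → ℂ) :
    Continuous (tor θ S a) := by
  unfold tor; fun_prop

theorem isCompact_box (r : ℕ) : IsCompact (box r) := isCompact_Icc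

theorem isCompact_dom (r : ℕ) (T : ℝ) : IsCompact (dom r T) := isCompact_Icc.prod isCompact_Icc

theorem measurableSet_Maj (N b : ℕ) : MeasurableSet (Maj N b) := by
  have : Maj N b = ⋃ q : ℕ, ⋃ a : ℤ,
      {τ : ℝ | (1 ≤ q ∧ q ≤ b) ∧ |q * τ / Real.pi - a| ≤ b / (N : ℝ) ^ 2} := by
    ext τ; simp only [Maj, Set.mem_ofPred_eq, Set.mem_iUnion]
    constructor
    · rintro ⟨q, h1, h2, a, h3⟩; exact ⟨q, a, ⟨h1, h2⟩, h3⟩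
    · rintro ⟨q, a, ⟨h1, h2⟩, h3⟩; exact ⟨q, h1, h2, a, h3⟩
  rw [this]
  refine MeasurableSet.iUnion fun q => MeasurableSet.iUnion fun a => ?_
  have hm : Measurable (fun τ : ℝ => |q * τ / Real.pi - a|) := by fun_prop
  exact (MeasurableSet.const _).inter (measurableSet_le hm measurable_const)

end Pool.Agent.P.MP_7211b7_an
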