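import Mathlib

/-!
# MP_7211b7_an: the definitions used by the final statement

`G` is a Lie group modelled on `E`; the tangent space at the identity is `E` (in Mathlib
`TangentSpace I x` is the model space by definition).
-/

open MeasureTheory Manifold
open scoped ENNReal ContDiff

namespace Pool.Agent.P.MP_7211b7_an.F

section lie

variable (E : Type) [NormedAddCommGroup E] [NormedSpace ℝ E]
  (G : Type) [TopologicalSpace G] [ChartedSpace E G] [Group G]

variable {E G} in
/-- `γ` is a one-parameter subgroup with velocity `X` at time `0` -/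
def IsOneParam (X : E) (γ : ℝ → G) : Prop :=
  Continuous γ ∧ (∀ s t, γ (s + t) = γ s * γ t) ∧
    HasMFDerivAt 𝓘(ℝ, ℝ) 𝓘(ℝ, E) γ 0 (ContinuousLinearMap.toSpanSingleton ℝ X : ℝ →L[ℝ] E)

variable {E} in
/-- the one-parameter subgroup `s ↦ exp (s X)` -/
noncomputable def expo (X : E) : ℝ → G := Classical.epsilon (IsOneParam X)

variable {G} in
/-- the adjoint action: the differential at `1` of conjugation by `g` -/
noncomputable def Ad (g : G) : E →L[ℝ] E :=
  mfderiv 𝓘(ℝ, E) 𝓘(ℝ, E) (fun h : G => g * h * g⁻¹) 1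

variable {E} in
/-- `B` is an `Ad`-invariant inner product on the Lie algebra, that is a bi-invariant metric -/
structure IsBiInv (B : LinearMap.BilinForm ℝ E) : Prop where
  symm : ∀ X Y, B X Y = B Y X
  pos : ∀ X, X ≠ 0 → 0 < B X X
  inv : ∀ (g : G) X Y, B (Ad E g X) (Ad E g Y) = B X Y

variable {G} in
/-- the Lie algebra of a subgroup -/
noncomputable def subAlg (T : Subgroup G) : Submodule ℝ E :=
  Submodule.span ℝ {X | ∀ s, expo G X s ∈ T}

variable {E} in
/-- the Lie algebra of the centre is spanned by `B`-orthogonal vectors `e i` with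
`exp (2π e i) = 1` -/
structure IsRect (B : LinearMap.BilinForm ℝ E) {m : ℕ} (e : Fin m → E) : Prop where
  span : Submodule.span ℝ (Set.range e) = subAlg E (Subgroup.center G)
  orth : ∀ i j, i ≠ j → B (e i) (e j) = 0
  period : ∀ i, expo G (e i) (2 * Real.pi) = 1

end lie

section group

variable {G : Type} [TopologicalSpace G] [Group G]

/-- a closed connected commutative subgroup -/
def IsTorus (T : Subgroup G) : Prop :=
  IsClosed (T : Set G) ∧ IsConnected (T : Set G) ∧ ∀ x ∈ T, ∀ y ∈ T, x * y = y * x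

/-- a maximal torus -/
def IsMaxTorus (T : Subgroup G) : Prop := IsTorus T ∧ ∀ S, IsTorus S → T ≤ S → S = T

/-- `f'` is the derivative of `f` along the left invariant vector field with flow `g ↦ g γ(s)` -/
def IsDer (γ : ℝ → G) (f f' : C(G, ℂ)) : Prop :=
  ∀ g, HasDerivAt (fun s : ℝ => f (g * γ s)) (f' g) 0

/-- `∑ a, X_a X_a f = -E f`, where `X_a` is the left invariant field of `γ a` -/
def IsEigen {d : ℕ} (γ : Fin d → ℝ → G) (E : ℝ) (f : C(G, ℂ)) : Prop :=
  ∃ f₁ f₂ : Fin d → C(G, ℂ), (∀ a, IsDer (γ a) f (f₁ a)) ∧ (∀ a, IsDer (γ a) (f₁ a) (f₂ a)) ∧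
    ∑ a, f₂ a = -(E : ℂ) • f

variable [CompactSpace G] [MeasurableSpace G] [BorelSpace G] (μ : Measure G) [IsFiniteMeasure μ]
  {d : ℕ} (γ : Fin d → ℝ → G)

/-- the eigenspace of `-Δ` in `L²(G)` for the eigenvalue `E` -/
noncomputable def eigSp (E : ℝ) : Submodule ℂ (Lp ℂ 2 μ) :=
  (Submodule.span ℂ (ContinuousMap.toLp 2 μ ℂ '' {f | IsEigen γ E f})).topologicalClosure

/-- the spectral projection -/
noncomputable def proj (E : ℝ) (f : Lp ℂ 2 μ) : Lp ℂ 2 μ :=
  haveI : CompleteSpace (eigSp μ γ E) :=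
    (Submodule.isClosed_topologicalClosure _).completeSpace_coe
  (eigSp μ γ E).starProjection f

/-- the Schroedinger flow `e^{itΔ} f` -/
noncomputable def flow (t : ℝ) (f : Lp ℂ 2 μ) : Lp ℂ 2 μ :=
  ∑' E : ℝ, Complex.exp (-(Complex.I * ((t * E : ℝ) : ℂ))) • proj μ γ E f

/-- the squared Sobolev norm `‖(I - Δ)^{s/2} f‖²` -/
noncomputable def hsSq (s : ℝ) (f : Lp ℂ 2 μ) : ℝ≥0∞ :=
  ∑' E : ℝ, ENNReal.ofReal ((1 + E) ^ s) * ‖proj μ γ E f‖ₑ ^ 2

end group

end Pool.Agent.P.MP_7211b7_an.F
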