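import Pool.Agent.P.MP_7211b7_an.DefsL
import Pool.Agent.P.MP_7211b7_an.DefsF
import Pool.Agent.P.MP_7895ba_al.Adjoint
import Pool.Agent.P.MP_7895ba_al.LieExp

/-!
# MP_7211b7_an: from abstract compact Lie groups to matrix groups (interface)
-/

open MeasureTheory Manifold
open scoped ENNReal ContDiff

namespace Pool.Agent.P.MP_7211b7_an

open Pool.Agent.P.MP_7895ba_al

/-- the exponential map of a Lie group, linked with the tangent space -/
def BREXP : Prop :=
  ∀ (E : Type) [NormedAddCommGroup E] [NormedSpace ℝ E] [FiniteDimensional ℝ E] (G : Type)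
    [TopologicalSpace G] [ChartedSpace E G] [Group G] [LieGroup 𝓘(ℝ, E) ∞ G]
    [IsTopologicalGroup G],
    ∃ D : ExpData E G, (∀ (X : E) (s : ℝ), F.expo G X s = D.exp (s • X)) ∧
      ∀ (g : G) (X : E), g * D.exp X * g⁻¹ = D.exp (F.Ad E g X)

/-- Peter-Weyl: finite dimensional unitary representations separate points -/
def BRPW : Prop :=
  ∀ (G : Type) [Group G] [TopologicalSpace G] [IsTopologicalGroup G] [CompactSpace G] [T2Space G]
    [SecondCountableTopology G] [MeasurableSpace G] [BorelSpace G] (μ : Measure G) [Hr μ] (g : G),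
    g ≠ 1 → ∃ (n : ℕ) (ρ : G →* Mat n), Continuous ρ ∧
      (∀ h, ρ h ∈ Matrix.unitaryGroup (Fin n) ℂ) ∧ ρ g ≠ 1

/-- a compact group with an exponential map has a faithful representation with a derivative -/
def BRFAITH : Prop :=
  ∀ (E : Type) [NormedAddCommGroup E] [NormedSpace ℝ E] [FiniteDimensional ℝ E] (G : Type)
    [Group G] [TopologicalSpace G] [IsTopologicalGroup G] [CompactSpace G] (D : ExpData E G),
    (∀ g : G, g ≠ 1 → ∃ (n : ℕ) (ρ : G →* Mat n), Continuous ρ ∧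
      (∀ h, ρ h ∈ Matrix.unitaryGroup (Fin n) ℂ) ∧ ρ g ≠ 1) →
    ∃ (n : ℕ) (ρ : G →* Mat n) (L : E →ₗ[ℝ] Mat n), IsRep ρ ∧ Function.Injective L ∧
      LinearMap.range L = lieAlg ρ ∧ (∀ X, ρ (D.exp X) = NormedSpace.exp (L X)) ∧
      ∀ X, expG ρ (L X) = D.exp X

/-- maximal tori and the centre, seen in the matrix Lie algebra -/
def BRTOR : Prop :=
  ∀ (E : Type) [NormedAddCommGroup E] [NormedSpace ℝ E] [FiniteDimensional ℝ E] (G : Type)
    [Group G] [TopologicalSpace G] [IsTopologicalGroup G] [ConnectedSpace G] (D : ExpData E G)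
    (n : ℕ) (ρ : G →* Mat n) (L : E →ₗ[ℝ] Mat n), IsRep ρ → LinearMap.range L = lieAlg ρ →
    (∀ X, ρ (D.exp X) = NormedSpace.exp (L X)) →
      (∀ T : Subgroup G, F.IsMaxTorus T →
        IsCartan ρ ((Submodule.span ℝ {X : E | ∀ s : ℝ, D.exp (s • X) ∈ T}).map L)) ∧
      ∀ Z : E, Z ∈ Submodule.span ℝ {X : E | ∀ s : ℝ, D.exp (s • X) ∈ Subgroup.center G} ↔
        ∀ X, L Z * L X = L X * L Z

end Pool.Agent.P.MP_7211b7_an
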