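import Mathlib

/-!
# MP_7211b7_an: the definitions used by the final statement

`G` is a Lie group modelled on `E`; the tangent space at the identity is `E` (in Mathlib
`TangentSpace I x` is the model space by definition).
-/

open MeasureTheory Manifold
open scoped ENNReal ContDiff

namespace Pool.Agent.P.MP_7211b7_an.H

section lie

variable (E : Type) [NormedAddCommGroup E] [NormedSpace ℝ E]
  (G : Type) [TopologicalSpace G] [ChartedSpace E G] [Group G]

variable {E G} in
/-- `γ` is a one-parameter subgroup with velocity `X` at time `0` -/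
def IsOneParam (X : E) (γ : ℝ → G) : Prop :=
  Continuous γ ∧ (∀ s t, γ (s + t) = γ s * γ t) ∧
    HasMFDerivAt 𝓘(ℝ, ℝ) 𝓘(ℝ, E) γ 0 (ContinuousLinearMap.toSpanSingleton ℝ X : ℝ →L[ℝ] E)

variable {E} in
/-- the one-parameter subgroup `s ↦ exp (s X)` -/
noncomputable def expo (X : E) : ℝ → G := Classical.epsilon (IsOneParam X)

variable {E G} in
/-- the adjoint action: the differential at `1` of conjugation by `g`, applied to `X` -/
noncomputable def Ad (g : G) (X : E) : E :=
  (mfderiv 𝓘(ℝ, E) 𝓘(ℝ, E) (fun h : G => g * h * g⁻¹) 1 : E →L[ℝ] E) X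

variable {E} in
/-- `B` is an `Ad`-invariant inner product on the Lie algebra, that is a bi-invariant metric -/
structure IsBiInv (B : E → E → ℝ) : Prop where
  lin : ∀ X, IsLinearMap ℝ (B X)
  symm : ∀ X Y, B X Y = B Y X
  pos : ∀ X, X ≠ 0 → 0 < B X X
  inv : ∀ (g : G) X Y, B (Ad g X) (Ad g Y) = B X Y

variable {G} in
/-- the Lie algebra of a subgroup -/
noncomputable def subAlg (T : Subgroup G) : Submodule ℝ E :=
  Submodule.span ℝ {X | ∀ s, expo G X s ∈ T}

variable {E} in
/-- the Lie algebra of the centre is spanned by `B`-orthogonal vectors `e i` with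
`exp (2π e i) = 1` -/
structure IsRect (B : E → E → ℝ) {m : ℕ} (e : Fin m → E) : Prop where
  span : Submodule.span ℝ (Set.range e) = subAlg E (Subgroup.center G)
  orth : ∀ i j, i ≠ j → B (e i) (e j) = 0
  period : ∀ i, expo G (e i) (2 * Real.pi) = 1

end lie

section hilbert

variable {V : Type} [NormedAddCommGroup V] [InnerProductSpace ℂ V] [CompleteSpace V]

/-- the orthogonal projection onto the closed linear span of `S` -/
noncomputable def proj (S : Set V) (f : V) : V :=
  haveI : CompleteSpace (Submodule.span ℂ S).topologicalClosure :=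
    (Submodule.isClosed_topologicalClosure _).completeSpace_coe
  (Submodule.span ℂ S).topologicalClosure.starProjection f

/-- `e^{itΔ} f`, where `S E` spans the eigenspace of `-Δ` for the eigenvalue `E` -/
noncomputable def flow (S : ℝ → Set V) (t : ℝ) (f : V) : V :=
  ∑' E : ℝ, Complex.exp (-(Complex.I * ((t * E : ℝ) : ℂ))) • proj (S E) f

/-- the squared Sobolev norm `‖(I - Δ)^{s/2} f‖²`, with `S` as in `flow` -/
noncomputable def hsSq (S : ℝ → Set V) (s : ℝ) (f : V) : ℝ≥0∞ :=
  ∑' E : ℝ, ENNReal.ofReal ((1 + E) ^ s) * ‖proj (S E) f‖ₑ ^ 2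

end hilbert

section group

variable {G : Type} [TopologicalSpace G] [Group G]

/-- a closed connected commutative subgroup -/
def IsTorus (T : Subgroup G) : Prop :=
  IsClosed (T : Set G) ∧ IsConnected (T : Set G) ∧ ∀ x ∈ T, ∀ y ∈ T, x * y = y * x

/-- a maximal torus -/
def IsMaxTorus (T : Subgroup G) : Prop := IsTorus T ∧ ∀ S, IsTorus S → T ≤ S → S = T

/-- `f` and `f'` are continuous and `f'` is the derivative of `f` along the left invariant vector
field with flow `g ↦ g γ(s)` -/
def IsDer (γ : ℝ → G) (f f' : G → ℂ) : Prop :=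
  Continuous f ∧ Continuous f' ∧ ∀ g, HasDerivAt (fun s : ℝ => f (g * γ s)) (f' g) 0

/-- `f` is continuous and `∑ a, X_a X_a f = -E f`, where `X_a` is the left invariant field of
`γ a` -/
def IsEigen {d : ℕ} (γ : Fin d → ℝ → G) (E : ℝ) (f : G → ℂ) : Prop :=
  Continuous f ∧ ∃ f₁ f₂ : Fin d → G → ℂ, (∀ a, IsDer (γ a) f (f₁ a)) ∧
    (∀ a, IsDer (γ a) (f₁ a) (f₂ a)) ∧ ∀ g, ∑ a, f₂ a g = -(E : ℂ) * f g

/-- the classes in `L²(G)` of the eigenfunctions of `-Δ` for the eigenvalue `E` -/
def eigSet [MeasurableSpace G] (μ : Measure G) {d : ℕ} (γ : Fin d → ℝ → G) (E : ℝ) :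
    Set (Lp ℂ 2 μ) :=
  {u | ∃ f : G → ℂ, IsEigen γ E f ∧ u =ᵐ[μ] f}

end group

/-- the norm of `u` in `L^p(I × G)` -/
noncomputable def stNorm {G : Type} [MeasurableSpace G] (μ : Measure G) (I : Set ℝ) (p : ℝ)
    (u : ℝ → Lp ℂ 2 μ) : ℝ≥0∞ :=
  (∫⁻ t in I, eLpNorm (u t) (ENNReal.ofReal p) μ ^ p) ^ (1 / p)

end Pool.Agent.P.MP_7211b7_an.H
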