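import Mathlib

/-!
# MP_7211b7_an: the definitions used by the statement

A compact connected Lie group is given as a compact connected topological group `G` with a faithful
continuous unitary representation `ρ`.
-/

open MeasureTheory
open scoped ENNReal Matrix

namespace Pool.Agent.P.MP_7211b7_an

/-- complex `n × n` matrices -/
abbrev Mat (n : ℕ) : Type := Matrix (Fin n) (Fin n) ℂ

section group

variable {G : Type} [Group G] [TopologicalSpace G] {n : ℕ}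

/-- `ρ` is a faithful continuous unitary representation -/
structure IsRep (ρ : G →* Mat n) : Prop where
  cont : Continuous ρ
  inj : Function.Injective ρ
  unit : ∀ g, ρ g ∈ Matrix.unitaryGroup (Fin n) ℂ

/-- the Lie algebra: matrices whose one-parameter group lies in `ρ(G)` -/
noncomputable def lieAlg (ρ : G →* Mat n) : Submodule ℝ (Mat n) :=
  Submodule.span ℝ {X | ∀ s : ℝ, NormedSpace.exp (s • X) ∈ Set.range ρ}

/-- the exponential map into `G` -/
noncomputable def expG (ρ : G →* Mat n) (X : Mat n) : G :=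
  Function.invFun ρ (NormedSpace.exp X)

/-- `B` is an `Ad`-invariant inner product on the Lie algebra (a bi-invariant metric) -/
structure IsMetric (ρ : G →* Mat n) (B : LinearMap.BilinForm ℝ (Mat n)) : Prop where
  symm : ∀ X ∈ lieAlg ρ, ∀ Y ∈ lieAlg ρ, B X Y = B Y X
  pos : ∀ X ∈ lieAlg ρ, X ≠ 0 → 0 < B X X
  inv : ∀ g, ∀ X ∈ lieAlg ρ, ∀ Y ∈ lieAlg ρ,
    B (ρ g * X * ρ g⁻¹) (ρ g * Y * ρ g⁻¹) = B X Y

/-- `b` is a `B`-orthonormal basis of the Lie algebra -/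
structure IsONB (ρ : G →* Mat n) (B : LinearMap.BilinForm ℝ (Mat n)) {d : ℕ}
    (b : Fin d → Mat n) : Prop where
  span : Submodule.span ℝ (Set.range b) = lieAlg ρ
  orth : ∀ i j, B (b i) (b j) = if i = j then 1 else 0

/-- `t` is a maximal abelian subalgebra (the Lie algebra of a maximal torus) -/
structure IsCartan (ρ : G →* Mat n) (t : Submodule ℝ (Mat n)) : Prop where
  le : t ≤ lieAlg ρ
  comm : ∀ X ∈ t, ∀ Y ∈ t, X * Y = Y * X
  max : ∀ X ∈ lieAlg ρ, (∀ Y ∈ t, X * Y = Y * X) → X ∈ t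

/-- the centre of the Lie algebra is spanned by `B`-orthogonal vectors `e i` with
`exp (2π e i) = 1` (the torus factor is rectangular) -/
structure IsRect (ρ : G →* Mat n) (B : LinearMap.BilinForm ℝ (Mat n)) {m : ℕ}
    (e : Fin m → Mat n) : Prop where
  mem : ∀ i, e i ∈ lieAlg ρ
  central : ∀ i, ∀ X ∈ lieAlg ρ, e i * X = X * e i
  span : ∀ Z ∈ lieAlg ρ, (∀ X ∈ lieAlg ρ, Z * X = X * Z) → Z ∈ Submodule.span ℝ (Set.range e)
  orth : ∀ i j, i ≠ j → B (e i) (e j) = 0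
  period : ∀ i, NormedSpace.exp ((2 * Real.pi) • e i) = 1

/-- `f'` is the derivative of `f` along the left invariant vector field `X` -/
def IsDer (ρ : G →* Mat n) (X : Mat n) (f f' : C(G, ℂ)) : Prop :=
  ∀ g, HasDerivAt (fun s : ℝ => f (g * expG ρ (s • X))) (f' g) 0

/-- `∑ a, (b a)^2 f = -E f` -/
def IsEigen (ρ : G →* Mat n) {d : ℕ} (b : Fin d → Mat n) (E : ℝ) (f : C(G, ℂ)) : Prop :=
  ∃ f₁ f₂ : Fin d → C(G, ℂ), (∀ a, IsDer ρ (b a) f (f₁ a)) ∧
    (∀ a, IsDer ρ (b a) (f₁ a) (f₂ a)) ∧ ∑ a, f₂ a = -(E : ℂ) • f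

variable [CompactSpace G] [MeasurableSpace G] [BorelSpace G] (μ : Measure G) [IsFiniteMeasure μ]

/-- the eigenspace of `-Δ` in `L²(G)` for the eigenvalue `E` -/
noncomputable def eigSp (ρ : G →* Mat n) {d : ℕ} (b : Fin d → Mat n) (E : ℝ) :
    Submodule ℂ (Lp ℂ 2 μ) :=
  (Submodule.span ℂ (ContinuousMap.toLp 2 μ ℂ '' {f | IsEigen ρ b E f})).topologicalClosure

/-- the spectral projection -/
noncomputable def proj (ρ : G →* Mat n) {d : ℕ} (b : Fin d → Mat n) (E : ℝ) (f : Lp ℂ 2 μ) :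
    Lp ℂ 2 μ :=
  haveI : CompleteSpace (eigSp μ ρ b E) :=
    (Submodule.isClosed_topologicalClosure _).completeSpace_coe
  (eigSp μ ρ b E).starProjection f

/-- the Schroedinger flow `e^{itΔ} f` -/
noncomputable def flow (ρ : G →* Mat n) {d : ℕ} (b : Fin d → Mat n) (t : ℝ) (f : Lp ℂ 2 μ) :
    Lp ℂ 2 μ :=
  ∑' E : ℝ, Complex.exp (-(Complex.I * ((t * E : ℝ) : ℂ))) • proj μ ρ b E f

/-- the squared Sobolev norm `‖(I - Δ)^{s/2} f‖²` -/
noncomputable def hsSq (ρ : G →* Mat n) {d : ℕ} (b : Fin d → Mat n) (s : ℝ) (f : Lp ℂ 2 μ) :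
    ℝ≥0∞ :=
  ∑' E : ℝ, ENNReal.ofReal ((1 + E) ^ s) * ‖proj μ ρ b E f‖ₑ ^ 2

/-- the scaling critical Strichartz estimate on `[a₀, a₁] × G` at exponent `p` -/
def Strichartz (ρ : G →* Mat n) {d : ℕ} (b : Fin d → Mat n) (a₀ a₁ p : ℝ) : Prop :=
  ∃ C : NNReal, ∀ f : Lp ℂ 2 μ,
    (∫⁻ t in Set.Icc a₀ a₁, eLpNorm (flow μ ρ b t f) (ENNReal.ofReal p) μ ^ p) ^ (1 / p)
      ≤ C * hsSq μ ρ b (d / 2 - (d + 2) / p) f ^ (1 / 2 : ℝ)

end group

end Pool.Agent.P.MP_7211b7_an
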