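import Pool.Agent.P.MP_7211b7_an.DefsT
import Pool.Agent.P.MP_7211b7_an.DefsS

/-!
# MP_7211b7_an, part L: highest weight theory on a compact matrix group (definitions, interface)

Every `def X : Prop` / `structure X : Prop` in capitals is (part of) the statement of one task;
copy the `variable` line into task files.
-/

open MeasureTheory ComplexConjugate Complex
open scoped ENNReal Matrix

set_option linter.unusedSectionVars false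

namespace Pool.Agent.P.MP_7211b7_an

variable {G : Type} [Group G] [TopologicalSpace G] [IsTopologicalGroup G] [CompactSpace G]
  [T2Space G] [SecondCountableTopology G] [MeasurableSpace G] [BorelSpace G] {n : ℕ}

/-- the complexified Lie algebra -/
noncomputable def gC (ρ : G →* Mat n) : Submodule ℂ (Mat n) :=
  Submodule.span ℂ (lieAlg ρ : Set (Mat n))

/-- polynomials in the matrix entries and their conjugates -/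
noncomputable def PP (ρ : G →* Mat n) : Subalgebra ℂ C(G, ℂ) :=
  Algebra.adjoin ℂ ({f | ∃ i j, ∀ g, f g = ρ g i j} ∪ {f | ∃ i j, ∀ g, f g = conj (ρ g i j)})

/-- `g ↦ f g⁻¹` -/
noncomputable def invF (f : C(G, ℂ)) : C(G, ℂ) := f.comp ⟨fun g => g⁻¹, continuous_inv⟩

/-- closed subgroup theorem and consequences -/
structure LIE (ρ : G →* Mat n) : Prop where
  mem_iff : ∀ X, X ∈ lieAlg ρ ↔ ∀ s : ℝ, NormedSpace.exp (s • X) ∈ Set.range ρ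
  lie_mem : ∀ X ∈ lieAlg ρ, ∀ Y ∈ lieAlg ρ, X * Y - Y * X ∈ lieAlg ρ
  Ad_mem : ∀ g, ∀ X ∈ lieAlg ρ, ρ g * X * ρ g⁻¹ ∈ lieAlg ρ
  skew : ∀ X ∈ lieAlg ρ, Xᴴ = -X
  rho_exp : ∀ X ∈ lieAlg ρ, ρ (expG ρ X) = NormedSpace.exp X
  exp_cont : ContinuousOn (expG ρ) (lieAlg ρ)
  exp_zero : expG ρ 0 = 1
  exp_add : ∀ X ∈ lieAlg ρ, ∀ Y ∈ lieAlg ρ, X * Y = Y * X →
    expG ρ (X + Y) = expG ρ X * expG ρ Y
  gen : ∀ P : G → Prop, (∀ X ∈ lieAlg ρ, P (expG ρ X)) → (∀ x y, P x → P y → P (x * y)) → ∀ g, P g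
  gC_decomp : ∀ Z ∈ gC ρ, ∃ X ∈ lieAlg ρ, ∃ Y ∈ lieAlg ρ, Z = X + I • Y
  gC_star : ∀ Z ∈ gC ρ, Zᴴ ∈ gC ρ
  gC_lie : ∀ Z ∈ gC ρ, ∀ W ∈ gC ρ, Z * W - W * Z ∈ gC ρ

/-- infinitesimal invariance of the metric -/
def AdInv (ρ : G →* Mat n) (B : LinearMap.BilinForm ℝ (Mat n)) : Prop :=
  ∀ X ∈ lieAlg ρ, ∀ Y ∈ lieAlg ρ, ∀ Z ∈ lieAlg ρ, B (X * Y - Y * X) Z + B Y (X * Z - Z * X) = 0

/-- the algebra of representative functions -/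
structure PF (ρ : G →* Mat n) : Prop where
  star_mem : ∀ f ∈ PP ρ, star f ∈ PP ρ
  tr2_mem : ∀ a k, ∀ f ∈ PP ρ, tr2 a k f ∈ PP ρ
  inv_mem : ∀ f ∈ PP ρ, invF f ∈ PP ρ
  locfin : ∀ f ∈ PP ρ, ∃ V : Submodule ℂ C(G, ℂ), FiniteDimensional ℂ V ∧ f ∈ V ∧
    (∀ h ∈ V, h ∈ PP ρ) ∧ ∀ a k, ∀ h ∈ V, tr2 a k h ∈ V
  dense : Dense (PP ρ : Set C(G, ℂ))

/-- infinitesimal right and left regular actions, extended by zero off `PP ρ` -/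
structure Calc (ρ : G →* Mat n) where
  dR : Mat n →ₗ[ℂ] Module.End ℂ C(G, ℂ)
  dL : Mat n →ₗ[ℂ] Module.End ℂ C(G, ℂ)
  R_mem : ∀ Z f, dR Z f ∈ PP ρ
  L_mem : ∀ Z f, dL Z f ∈ PP ρ
  R_deriv : ∀ X ∈ lieAlg ρ, ∀ f ∈ PP ρ,
    HasDerivAt (fun s : ℝ => tr2 1 (expG ρ (s • X)) f) (dR X f) 0
  L_deriv : ∀ X ∈ lieAlg ρ, ∀ f ∈ PP ρ,
    HasDerivAt (fun s : ℝ => tr2 (expG ρ (s • X)) 1 f) (dL X f) 0
  R_lie : ∀ Z ∈ gC ρ, ∀ W ∈ gC ρ, dR (Z * W - W * Z) = dR Z * dR W - dR W * dR Z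
  L_lie : ∀ Z ∈ gC ρ, ∀ W ∈ gC ρ, dL (Z * W - W * Z) = dL W * dL Z - dL Z * dL W
  comm : ∀ Z ∈ gC ρ, ∀ W ∈ gC ρ, dR Z * dL W = dL W * dR Z

/-- algebraic rules for `dR`, `dL` -/
structure DER1 {ρ : G →* Mat n} (K : Calc ρ) (μ : Measure G) : Prop where
  R_mul : ∀ Z ∈ gC ρ, ∀ f ∈ PP ρ, ∀ h ∈ PP ρ, K.dR Z (f * h) = K.dR Z f * h + f * K.dR Z h
  L_mul : ∀ Z ∈ gC ρ, ∀ f ∈ PP ρ, ∀ h ∈ PP ρ, K.dL Z (f * h) = K.dL Z f * h + f * K.dL Z h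
  R_one : ∀ Z ∈ gC ρ, K.dR Z 1 = 0
  L_one : ∀ Z ∈ gC ρ, K.dL Z 1 = 0
  R_star : ∀ Z ∈ gC ρ, ∀ f ∈ PP ρ, K.dR Z (star f) = star (K.dR (-Zᴴ) f)
  L_star : ∀ Z ∈ gC ρ, ∀ f ∈ PP ρ, K.dL Z (star f) = star (K.dL (-Zᴴ) f)
  R_ent : ∀ Z ∈ gC ρ, ∀ (f : C(G, ℂ)) i j, (∀ g, f g = ρ g i j) → ∀ g, K.dR Z f g = (ρ g * Z) i j
  L_ent : ∀ Z ∈ gC ρ, ∀ (f : C(G, ℂ)) i j, (∀ g, f g = ρ g i j) → ∀ g, K.dL Z f g = (Z * ρ g) i j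
  at_one : ∀ Z ∈ gC ρ, ∀ f ∈ PP ρ, K.dR Z f 1 = K.dL Z f 1
  R_trL : ∀ Z ∈ gC ρ, ∀ f ∈ PP ρ, ∀ a, K.dR Z (tr2 a 1 f) = tr2 a 1 (K.dR Z f)
  L_trR : ∀ Z ∈ gC ρ, ∀ f ∈ PP ρ, ∀ k, K.dL Z (tr2 1 k f) = tr2 1 k (K.dL Z f)
  adjR : ∀ Z ∈ gC ρ, ∀ f ∈ PP ρ, ∀ h ∈ PP ρ, ip μ (K.dR Z f) h = ip μ f (K.dR Zᴴ h)
  adjL : ∀ Z ∈ gC ρ, ∀ f ∈ PP ρ, ∀ h ∈ PP ρ, ip μ (K.dL Z f) h = ip μ f (K.dL Zᴴ h)
  invR : ∀ Z ∈ gC ρ, ∀ f ∈ PP ρ, K.dR Z (invF f) = -invF (K.dL Z f)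
  invL : ∀ Z ∈ gC ρ, ∀ f ∈ PP ρ, K.dL Z (invF f) = -invF (K.dR Z f)
  isDer : ∀ X ∈ lieAlg ρ, ∀ f ∈ PP ρ, IsDer ρ X f (K.dR X f)

/-- invariance under the group versus invariance under the Lie algebra -/
structure DER2 {ρ : G →* Mat n} (K : Calc ρ) : Prop where
  trR_mem : ∀ V : Submodule ℂ C(G, ℂ), (∀ v ∈ V, v ∈ PP ρ) →
    (∀ X ∈ lieAlg ρ, ∀ v ∈ V, K.dR X v ∈ V) → ∀ k, ∀ v ∈ V, tr2 1 k v ∈ V
  dR_mem : ∀ V : Submodule ℂ C(G, ℂ), (∀ v ∈ V, v ∈ PP ρ) →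
    (∀ k, ∀ v ∈ V, tr2 1 k v ∈ V) → ∀ Z ∈ gC ρ, ∀ v ∈ V, K.dR Z v ∈ V
  dL_mem : ∀ V : Submodule ℂ C(G, ℂ), (∀ v ∈ V, v ∈ PP ρ) →
    (∀ a, ∀ v ∈ V, tr2 a 1 v ∈ V) → ∀ Z ∈ gC ρ, ∀ v ∈ V, K.dL Z v ∈ V
  expR : ∀ X ∈ lieAlg ρ, ∀ f ∈ PP ρ, ∀ c : ℂ, K.dR X f = c • f →
    ∀ g, f (g * expG ρ X) = Complex.exp c * f g

/-- simultaneous diagonalisation -/
structure Diag (t : Submodule ℝ (Mat n)) where
  U : Mat n
  w : Fin n → (Mat n →ₗ[ℝ] ℝ)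
  unit : U ∈ Matrix.unitaryGroup (Fin n) ℂ
  diag : ∀ H ∈ t, Uᴴ * H * U = Matrix.diagonal (fun j => I * (w j H : ℝ))

/-- root decomposition; `E i` are positive root vectors, `H i` the (unnormalised) coroots -/
structure Roots (ρ : G →* Mat n) (t : Submodule ℝ (Mat n)) where
  N : ℕ
  E : Fin N → Mat n
  α : Fin N → (Mat n →ₗ[ℝ] ℝ)
  H : Fin N → Mat n
  X0 : Mat n
  X0_mem : X0 ∈ t
  E_mem : ∀ i, E i ∈ gC ρ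
  E_ne : ∀ i, E i ≠ 0
  comm : ∀ i, ∀ Y ∈ t, Y * E i - E i * Y = (I * (α i Y : ℝ)) • E i
  pos : ∀ i, 0 < α i X0
  span : ∀ Z ∈ gC ρ,
    Z ∈ Submodule.span ℂ ((t : Set (Mat n)) ∪ Set.range E ∪ Set.range (fun i => (E i)ᴴ))
  card : 2 * N + Module.finrank ℝ t = Module.finrank ℝ (lieAlg ρ)
  H_mem : ∀ i, H i ∈ t
  co : ∀ i, E i * (E i)ᴴ - (E i)ᴴ * E i = (-I) • H i
  co_pos : ∀ i, 0 < α i (H i)

variable {ρ : G →* Mat n} {t : Submodule ℝ (Mat n)}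

/-- right highest weight vector of weight `lam` -/
structure IsHW (K : Calc ρ) (R : Roots ρ t) (lam : Mat n →ₗ[ℝ] ℝ) (h : C(G, ℂ)) : Prop where
  mem : h ∈ PP ρ
  up : ∀ i, K.dR (R.E i) h = 0
  wtR : ∀ Y ∈ t, K.dR Y h = (I * (lam Y : ℝ)) • h

/-- the normalised highest weight matrix coefficient of weight `lam` -/
structure IsPhi (K : Calc ρ) (R : Roots ρ t) (lam : Mat n →ₗ[ℝ] ℝ) (φ : C(G, ℂ)) : Prop
    extends IsHW K R lam φ where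
  one : φ 1 = 1
  down : ∀ i, K.dL (R.E i)ᴴ φ = 0
  wtL : ∀ Y ∈ t, K.dL Y φ = (I * (lam Y : ℝ)) • φ

/-- the Casimir operator -/
noncomputable def Calc.Om (K : Calc ρ) {d : ℕ} (b : Fin d → Mat n) : Module.End ℂ C(G, ℂ) :=
  ∑ a, K.dR (b a) * K.dR (b a)

/-- ordered monomial -/
noncomputable def mono {V : Type} [AddCommGroup V] [Module ℂ V] {N : ℕ}
    (F : Fin N → Module.End ℂ V) (a : Fin N → ℕ) : Module.End ℂ V :=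
  (List.ofFn fun i => F i ^ a i).prod

/-- an orthogonal basis of `t` on which all highest weights are integral -/
structure Lat (K : Calc ρ) (R : Roots ρ t) (B : LinearMap.BilinForm ℝ (Mat n)) (r : ℕ) where
  c : Fin r → Mat n
  co : Mat n →ₗ[ℝ] (Fin r → ℝ)
  c_mem : ∀ i, c i ∈ t
  c_ne : ∀ i, c i ≠ 0
  co_spec : ∀ Y ∈ t, ∑ i, co Y i • c i = Y
  co_c : ∀ i, co (c i) = Pi.single i 1
  orth : ∀ i j, i ≠ j → B (c i) (c j) = 0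
  int : ∀ lam φ, IsPhi K R lam φ → ∀ i, ∃ z : ℤ, lam (c i) = z

/-- the weight with coordinates `l` -/
noncomputable def Lat.wf {K : Calc ρ} {R : Roots ρ t} {B : LinearMap.BilinForm ℝ (Mat n)} {r : ℕ}
    (L : Lat K R B r) (l : Fin r → ℤ) : Mat n →ₗ[ℝ] ℝ :=
  ∑ i, (l i : ℝ) • ((LinearMap.proj i : (Fin r → ℝ) →ₗ[ℝ] ℝ) ∘ₗ L.co)

/-! ## Statements of the tasks -/

/-- commuting skew-Hermitian matrices are simultaneously diagonalisable -/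
def WTS : Prop :=
  ∀ (n : ℕ) (t : Submodule ℝ (Mat n)), (∀ X ∈ t, Xᴴ = -X) → (∀ X ∈ t, ∀ Y ∈ t, X * Y = Y * X) →
    Nonempty (Diag t)

/-- the spanning half of Poincare-Birkhoff-Witt -/
def PBW : Prop :=
  ∀ (V : Type) [AddCommGroup V] [Module ℂ V] (N : ℕ) (F : Fin N → Module.End ℂ V)
    (Bo : Set (Module.End ℂ V)) (v : V),
    (∀ x ∈ Submodule.span ℂ (Set.range F ∪ Bo), ∀ y ∈ Submodule.span ℂ (Set.range F ∪ Bo),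
      x * y - y * x ∈ Submodule.span ℂ (Set.range F ∪ Bo)) →
    (∀ y ∈ Bo, ∃ c : ℂ, y v = c • v) →
      ∀ z ∈ Submodule.span ℂ (Set.range F ∪ Bo),
        ∀ u ∈ Submodule.span ℂ (Set.range fun a => mono F a v),
          z u ∈ Submodule.span ℂ (Set.range fun a => mono F a v)

/-- cyclicity and uniqueness -/
structure UNIQ (K : Calc ρ) (R : Roots ρ t) : Prop where
  cyc : ∀ lam φ, IsHW K R lam φ →
    spanR φ ≤ Submodule.span ℂ (Set.range fun a => mono (fun i => K.dR (R.E i)ᴴ) a φ)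
  zero : ∀ lam ψ, IsHW K R lam ψ → (∀ i, K.dL (R.E i)ᴴ ψ = 0) → ψ 1 = 0 → ψ = 0

/-- functional equations of the highest weight matrix coefficients -/
structure FEQ (K : Calc ρ) (R : Roots ρ t) (μ : Measure G) : Prop where
  uniq : ∀ lam φ φ', IsPhi K R lam φ → IsPhi K R lam φ' → φ = φ'
  one : IsPhi K R 0 1
  mulHW : ∀ lam lam' h h', IsHW K R lam h → IsHW K R lam' h' → IsHW K R (lam + lam') (h * h')
  mul : ∀ lam lam' φ φ', IsPhi K R lam φ → IsPhi K R lam' φ' → IsPhi K R (lam + lam') (φ * φ')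
  inv : ∀ lam φ, IsPhi K R lam φ → ∀ g, φ g⁻¹ = conj (φ g)
  fe : ∀ lam φ, IsPhi K R lam φ → ∀ a k,
    ∫ z, φ (a * z * k) * conj (φ z) ∂μ = (n2 μ φ : ℂ) * (φ a * φ k)
  orth : ∀ lam lam' φ φ', IsPhi K R lam φ → IsPhi K R lam' φ' → (∃ Y ∈ t, lam Y ≠ lam' Y) →
    ∀ a k, ∫ z, φ' (a * z * k) * conj (φ z) ∂μ = 0

/-- the reproducing vector -/
structure REPRO (K : Calc ρ) (R : Roots ρ t) : Prop where
  repro : ∀ (lam : Mat n →ₗ[ℝ] ℝ) (V : Submodule ℂ C(G, ℂ)), FiniteDimensional ℂ V → V ≠ ⊥ →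
    (∀ h ∈ V, IsHW K R lam h) → (∀ a, ∀ h ∈ V, tr2 a 1 h ∈ V) → ∃ φ ∈ V, IsPhi K R lam φ
  hwL : ∀ lam φ, IsHW K R lam φ → ∀ h ∈ spanL φ, IsHW K R lam h
  memL : ∀ lam φ h, IsPhi K R lam φ → IsHW K R lam h → h ∈ spanL φ

/-- algebraic Peter-Weyl -/
def COMPL (K : Calc ρ) (R : Roots ρ t) : Prop :=
  ∀ f ∈ PP ρ, f ∈ Submodule.span ℂ {h | ∃ lam φ a k, IsPhi K R lam φ ∧ h = tr2 a k φ}

/-- the Casimir operator is central, negative, and controls the weights -/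
structure CAS1 (K : Calc ρ) (B : LinearMap.BilinForm ℝ (Mat n)) {d : ℕ} (b : Fin d → Mat n) :
    Prop where
  comm : ∀ Z ∈ gC ρ, K.Om b * K.dR Z = K.dR Z * K.Om b
  real : ∀ u ∈ PP ρ, u ≠ 0 → ∀ c : ℂ, K.Om b u = c • u → c.im = 0 ∧ c.re ≤ 0
  wb : ∀ u ∈ PP ρ, u ≠ 0 → ∀ E c : ℝ, K.Om b u = -(E : ℂ) • u → ∀ X ∈ lieAlg ρ,
    K.dR X u = (I * c) • u → c ^ 2 ≤ B X X * E
  eig : ∀ φ ∈ PP ρ, ∀ E : ℝ, K.Om b φ = -(E : ℂ) • φ → ∀ f ∈ span2 φ, IsEigen ρ b E f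

/-- the Casimir eigenvalue -/
def CAS2 {K : Calc ρ} {R : Roots ρ t} {B : LinearMap.BilinForm ℝ (Mat n)} {r : ℕ}
    (L : Lat K R B r) {d : ℕ} (b : Fin d → Mat n) : Prop :=
  ∃ ℓ : Fin r → ℝ, ∀ l φ, IsPhi K R (L.wf l) φ →
    K.Om b φ = -((En (fun i => (B (L.c i) (L.c i))⁻¹) ℓ l : ℝ) : ℂ) • φ

/-- polynomial growth of dimensions -/
def GROW (K : Calc ρ) (R : Roots ρ t) {d : ℕ} (b : Fin d → Mat n) : Prop :=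
  ∃ C : ℝ, 0 < C ∧ ∀ lam φ (E : ℝ), IsHW K R lam φ → φ ≠ 0 → K.Om b φ = -(E : ℂ) • φ →
    (Module.finrank ℂ (spanR φ) : ℝ) ^ 2 ≤ C * (1 + E) ^ R.N

/-- integrality of `sl2` weights -/
def SL2 : Prop :=
  ∀ (V : Type) [AddCommGroup V] [Module ℂ V] (e f h : Module.End ℂ V) (W : Submodule ℂ V)
    (v : V) (m : ℂ), FiniteDimensional ℂ W → (∀ u ∈ W, e u ∈ W) → (∀ u ∈ W, f u ∈ W) →
    h * e - e * h = (2 : ℂ) • e → h * f - f * h = -((2 : ℂ) • f) → e * f - f * e = h →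
    v ∈ W → v ≠ 0 → h v = m • v → ∃ z : ℤ, m = z

/-- rational Gram-Schmidt -/
def GS : Prop :=
  ∀ (V : Type) [AddCommGroup V] [Module ℝ V] (B : LinearMap.BilinForm ℝ V) (t : Submodule ℝ V)
    (J : Type) [Fintype J] (y : J → V), (∀ u ∈ t, ∀ v ∈ t, B u v = B v u) →
    (∀ u ∈ t, u ≠ 0 → 0 < B u u) → Submodule.span ℝ (Set.range y) = t →
    (∀ i j, ∃ q : ℚ, B (y i) (y j) = q * B (y j) (y j)) →
      ∃ c : Fin (Module.finrank ℝ t) → V, (∀ i, c i ∈ Submodule.span ℤ (Set.range y)) ∧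
        (∀ i, c i ≠ 0) ∧ (∀ i j, i ≠ j → B (c i) (c j) = 0) ∧
        Submodule.span ℝ (Set.range c) = t

/-- principal minors are highest weight matrix coefficients -/
structure MINOR (K : Calc ρ) (R : Roots ρ t) (D : Diag t) : Prop where
  minor : ∀ S : Finset (Fin n), (∀ i j k, k ∈ S → (D.Uᴴ * R.E i * D.U) j k ≠ 0 → j ∈ S) →
    ∃ φ, IsPhi K R (∑ k ∈ S, D.w k) φ
  det : ∃ φ, IsPhi K R (-∑ k, D.w k) φ

/-- finitely many highest weights generate the cone of all highest weights -/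
def CONE (K : Calc ρ) (R : Roots ρ t) : Prop :=
  ∃ (J : Type) (_ : Fintype J) (ω : J → (Mat n →ₗ[ℝ] ℝ)), (∀ j, ∃ φ, IsPhi K R (ω j) φ) ∧
    ∀ lam φ, IsPhi K R lam φ → ∃ s : J → ℝ, (∀ j, 0 ≤ s j) ∧ ∀ Y ∈ t, lam Y = ∑ j, s j * ω j Y

/-- eigenfunctions for different eigenvalues are orthogonal -/
def EIGO (ρ : G →* Mat n) (μ : Measure G) {d : ℕ} (b : Fin d → Mat n) : Prop :=
  ∀ (E E' : ℝ) (f f' : C(G, ℂ)), IsEigen ρ b E f → IsEigen ρ b E' f' → E ≠ E' → ip μ f f' = 0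

/-- the highest weight data diagonalise the Laplacian -/
structure Spec (ρ : G →* Mat n) {μ : Measure G} {d r : ℕ} (b : Fin d → Mat n) (H : HW μ r)
    (θ ℓ : Fin r → ℝ) : Prop where
  eig : ∀ l ∈ H.Λ, ∀ f ∈ span2 (H.φ l), IsEigen ρ b (En θ ℓ l) f
  dense : Dense (Submodule.span ℂ {f | ∃ l ∈ H.Λ, f ∈ span2 (H.φ l)} : Set C(G, ℂ))
  nonneg : ∀ l ∈ H.Λ, 0 ≤ En θ ℓ l
  low : ∃ C : ℝ, 0 < C ∧ ∀ l ∈ H.Λ, (1 + ‖l‖) ^ 2 ≤ C * (1 + En θ ℓ l)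

/-- identification of the spectral projections -/
structure FIN1 (ρ : G →* Mat n) (μ : Measure G) [Hr μ] {d r : ℕ} (b : Fin d → Mat n) (H : HW μ r)
    (θ ℓ : Fin r → ℝ) : Prop where
  rep : ∀ (E : ℝ) (f : Lp ℂ 2 μ), ∃ (S : Finset (Fin r → ℤ)) (g : (Fin r → ℤ) → C(G, ℂ)),
    (∀ l ∈ S, l ∈ H.Λ ∧ En θ ℓ l = E ∧ g l ∈ span2 (H.φ l)) ∧
      proj μ ρ b E f = ContinuousMap.toLp 2 μ ℂ (∑ l ∈ S, g l)
  orth : ∀ E E' : ℝ, E ≠ E' → eigSp μ ρ b E ⟂ eigSp μ ρ b E'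
  sum : ∀ f : Lp ℂ 2 μ, HasSum (fun E : ℝ => proj μ ρ b E f) f

/-! ## Basic lemmas -/

@[simp] theorem invF_apply (f : C(G, ℂ)) (g : G) : invF f g = f g⁻¹ := rfl

theorem mem_gC {X : Mat n} (h : X ∈ lieAlg ρ) : X ∈ gC ρ := Submodule.subset_span h

theorem ent_mem_PP {f : C(G, ℂ)} {i j : Fin n} (h : ∀ g, f g = ρ g i j) : f ∈ PP ρ :=
  Algebra.subset_adjoin (Or.inl ⟨i, j, h⟩)

theorem IsHW.congr {K : Calc ρ} {R : Roots ρ t} {lam lam' : Mat n →ₗ[ℝ] ℝ} {h : C(G, ℂ)}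
    (hh : IsHW K R lam h) (e : ∀ Y ∈ t, lam Y = lam' Y) : IsHW K R lam' h :=
  ⟨hh.mem, hh.up, fun Y hY => by rw [← e Y hY]; exact hh.wtR Y hY⟩

theorem IsPhi.congr {K : Calc ρ} {R : Roots ρ t} {lam lam' : Mat n →ₗ[ℝ] ℝ} {h : C(G, ℂ)}
    (hh : IsPhi K R lam h) (e : ∀ Y ∈ t, lam Y = lam' Y) : IsPhi K R lam' h :=
  ⟨hh.toIsHW.congr e, hh.one, hh.down, fun Y hY => by rw [← e Y hY]; exact hh.wtL Y hY⟩

theorem IsPhi.ne_zero {K : Calc ρ} {R : Roots ρ t} {lam : Mat n →ₗ[ℝ] ℝ} {h : C(G, ℂ)}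
    (hh : IsPhi K R lam h) : h ≠ 0 := by
  rintro rfl
  simpa using hh.one

theorem IsONB.mem {B : LinearMap.BilinForm ℝ (Mat n)} {d : ℕ} {b : Fin d → Mat n}
    (hb : IsONB ρ B b) (a : Fin d) : b a ∈ lieAlg ρ :=
  hb.span ▸ Submodule.subset_span ⟨a, rfl⟩

theorem Lat.wf_apply {K : Calc ρ} {R : Roots ρ t} {B : LinearMap.BilinForm ℝ (Mat n)} {r : ℕ}
    (L : Lat K R B r) (l : Fin r → ℤ) (Y : Mat n) : L.wf l Y = pair (L.co Y) l := by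
  simp [Lat.wf, pair, LinearMap.sum_apply, mul_comm]

theorem Lat.wf_c {K : Calc ρ} {R : Roots ρ t} {B : LinearMap.BilinForm ℝ (Mat n)} {r : ℕ}
    (L : Lat K R B r) (l : Fin r → ℤ) (i : Fin r) : L.wf l (L.c i) = l i := by
  rw [L.wf_apply, L.co_c]
  simp [pair, Pi.single_apply]

end Pool.Agent.P.MP_7211b7_an
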