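import Pool.Agent.P.MP_7211b7_an.DefsB

/-!
# MP_7211b7_an, part T: transference from the torus to a compact group (definitions, interface)

`HW μ r` packages the highest weight matrix coefficients `φ l` of a compact group.
Every `def X : Prop` below is the statement of one task; copy the `variable` line into task files.
-/

open MeasureTheory ComplexConjugate
open scoped ENNReal

set_option linter.unusedSectionVars false

namespace Pool.Agent.P.MP_7211b7_an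

/-- bi-invariant probability Haar measure -/
class Hr {G : Type} [Group G] [TopologicalSpace G] [MeasurableSpace G] (μ : Measure G) : Prop
    extends IsProbabilityMeasure μ, μ.IsMulLeftInvariant, μ.IsMulRightInvariant, μ.IsInvInvariant,
      μ.IsOpenPosMeasure

variable {G : Type} [Group G] [TopologicalSpace G] [IsTopologicalGroup G] [CompactSpace G]
  [T2Space G] [SecondCountableTopology G] [MeasurableSpace G] [BorelSpace G]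

/-- two sided translation `f ↦ (g ↦ f (a * g * k))` -/
noncomputable def tr2 (a k : G) : C(G, ℂ) →L[ℂ] C(G, ℂ) where
  toFun f := f.comp ⟨fun g => a * g * k, by fun_prop⟩
  map_add' _ _ := rfl
  map_smul' _ _ := rfl
  cont := ContinuousMap.continuous_precomp _

/-- the L2 inner product, linear in the first slot -/
noncomputable def ip (μ : Measure G) (f h : C(G, ℂ)) : ℂ := ∫ g, f g * conj (h g) ∂μ

/-- the squared L2 norm -/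
noncomputable def n2 (μ : Measure G) (f : C(G, ℂ)) : ℝ := ∫ g, ‖f g‖ ^ 2 ∂μ

/-- span of the left translates -/
noncomputable def spanL (ψ : C(G, ℂ)) : Submodule ℂ C(G, ℂ) :=
  Submodule.span ℂ (Set.range fun a : G => tr2 a 1 ψ)

/-- span of the right translates -/
noncomputable def spanR (ψ : C(G, ℂ)) : Submodule ℂ C(G, ℂ) :=
  Submodule.span ℂ (Set.range fun k : G => tr2 1 k ψ)

/-- span of the two sided translates -/
noncomputable def span2 (ψ : C(G, ℂ)) : Submodule ℂ C(G, ℂ) :=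
  Submodule.span ℂ (Set.range fun q : G × G => tr2 q.1 q.2 ψ)

/-- pairing of `x ∈ ℝ^r` with `l ∈ ℤ^r` -/
noncomputable def pair {r : ℕ} (x : Fin r → ℝ) (l : Fin r → ℤ) : ℝ := ∑ i, x i * (l i : ℝ)

/-- highest weight data -/
structure HW (μ : Measure G) (r : ℕ) where
  Λ : AddSubmonoid (Fin r → ℤ)
  φ : (Fin r → ℤ) → C(G, ℂ)
  d : (Fin r → ℤ) → ℝ
  τ : (Fin r → ℝ) → G
  d_pos : ∀ l ∈ Λ, 0 < d l
  φ_zero : φ 0 = 1
  φ_one : ∀ l ∈ Λ, φ l 1 = 1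
  φ_inv : ∀ l ∈ Λ, ∀ g, φ l g⁻¹ = conj (φ l g)
  φ_add : ∀ l ∈ Λ, ∀ m ∈ Λ, φ (l + m) = φ l * φ m
  fe : ∀ l ∈ Λ, ∀ a k, (d l : ℂ) * ∫ z, φ l (a * z * k) * conj (φ l z) ∂μ = φ l a * φ l k
  orth : ∀ l ∈ Λ, ∀ m ∈ Λ, l ≠ m → ∀ a k, ∫ z, φ m (a * z * k) * conj (φ l z) ∂μ = 0
  τ_cont : Continuous τ
  φ_τ : ∀ l ∈ Λ, ∀ g x, φ l (g * τ x) = φ l g * Complex.exp (Complex.I * (pair x l : ℝ))
  mul_mem : ∀ l ∈ Λ, ∀ m ∈ Λ, ∀ h ∈ spanL (φ l), ∀ h' ∈ spanL (φ m), h * h' ∈ spanL (φ (l + m))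
  fin : ∀ l ∈ Λ, FiniteDimensional ℂ (span2 (φ l))

/-- `cv μ a F y = ∫ F (y z) conj (a z) dz` -/
noncomputable def cv (μ : Measure G) [IsFiniteMeasure μ] (a F : C(G, ℂ)) : C(G, ℂ) :=
  ⟨fun y => ∫ z, F (y * z) * conj (a z) ∂μ, by
    have := continuous_parametric_integral_of_continuous (μ := μ)
      (f := fun (y z : G) => F (y * z) * conj (a z)) (by fun_prop) isCompact_univ
    simpa using this⟩

/-- the energy `∑ θ i * l i ^ 2 + ∑ ℓ i * l i` -/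
noncomputable def En {r : ℕ} (θ ℓ : Fin r → ℝ) (l : Fin r → ℤ) : ℝ :=
  ∑ i, θ i * (l i : ℝ) ^ 2 + pair ℓ l

/-- space-time measure on `[-T,T] × G` -/
noncomputable def stm (μ : Measure G) (T : ℝ) : Measure (ℝ × G) :=
  (volume.restrict (Set.Icc (-T) T)).prod μ

/-- the flow applied to a finite sum; `z = (t, g)` -/
noncomputable def ev {ι : Type} (S : Finset ι) (E : ι → ℝ) (f : ι → C(G, ℂ)) (z : ℝ × G) : ℂ :=
  ∑ j ∈ S, Complex.exp (-(Complex.I * ((z.1 * E j : ℝ) : ℂ))) * f j z.2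

/-- the weight `l0 + ∑ a i • ν i` -/
def wv {r m : ℕ} (l0 : Fin r → ℤ) (ν : Fin m → Fin r → ℤ) (a : Fin m → ℕ) : Fin r → ℤ :=
  l0 + ∑ i, a i • ν i

/-- real linear independence of integer vectors -/
def Indep {r m : ℕ} (ν : Fin m → Fin r → ℤ) : Prop :=
  LinearIndependent ℝ (fun i : Fin m => fun k : Fin r => (ν i k : ℝ))

/-- `Λ` is covered by finitely many translated free submonoids -/
def Cover {r : ℕ} (Λ : AddSubmonoid (Fin r → ℤ)) : Prop :=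
  ∃ (J : Type) (_ : Fintype J) (m : J → ℕ) (l0 : J → Fin r → ℤ)
    (ν : ∀ j, Fin (m j) → Fin r → ℤ), (∀ j, l0 j ∈ Λ) ∧ (∀ j i, ν j i ∈ Λ) ∧ (∀ j, Indep (ν j)) ∧
      ∀ l ∈ Λ, ∃ j a, l = wv (l0 j) (ν j) a

/-- coefficients of `w^(M/2) (1 + w + ... + w^(M-1))^2 / M` -/
noncomputable def fej (M a : ℕ) : ℝ :=
  max 0 ((M : ℝ) - |(a : ℝ) - ((M / 2 : ℕ) + M - 1 : ℝ)|) / M

variable (μ : Measure G) [Hr μ] {r : ℕ}

/-- `hk l k f = Π_l (R_{k⁻¹} f)` -/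
noncomputable def HW.hk (H : HW μ r) (l : Fin r → ℤ) (k : G) (f : C(G, ℂ)) : C(G, ℂ) :=
  cv μ ((H.d l : ℂ) • H.φ l) (tr2 1 k⁻¹ f)

/-- torus type bound for functions with prescribed right weights -/
def WBd (H : HW μ r) (θ ℓ : Fin r → ℝ) (q T Θ : ℝ) {ι : Type} (S : Finset ι)
    (w : ι → Fin r → ℤ) : Prop :=
  ∀ h : ι → C(G, ℂ),
    (∀ j ∈ S, ∀ y x, h j (y * H.τ x) = h j y * Complex.exp (Complex.I * (pair x (w j) : ℝ))) →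
      ∫ z, ‖ev S (fun j => En θ ℓ (w j)) h z‖ ^ q ∂(stm μ T)
        ≤ Θ ^ q * ∫ y, (∑ j ∈ S, ‖h j y‖ ^ 2) ^ (q / 2) ∂μ

/-- polynomial growth of the dimensions -/
def Growth (H : HW μ r) (e : ℕ) : Prop :=
  ∃ C : ℝ, 0 < C ∧ ∀ l ∈ H.Λ, H.d l ^ 2 ≤ C * (1 + ‖l‖) ^ e

/-- the Strichartz estimate for finite sums, `D` = dimension of the group -/
def TEst (H : HW μ r) (θ ℓ : Fin r → ℝ) (D p T : ℝ) : Prop :=
  ∃ C : ℝ, 0 < C ∧ ∀ (S : Finset (Fin r → ℤ)) (f : (Fin r → ℤ) → C(G, ℂ)),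
    (∀ l ∈ S, l ∈ H.Λ) → (∀ l ∈ S, f l ∈ span2 (H.φ l)) →
      ∫ z, ‖ev S (En θ ℓ) f z‖ ^ p ∂(stm μ T)
        ≤ C * (∑ l ∈ S, (1 + ‖l‖) ^ (2 * (D / 2 - (D + 2) / p)) * n2 μ (f l)) ^ (p / 2)

/-! ## Statements of the tasks -/

/-- first consequences of the functional equation -/
structure BASIC (H : HW μ r) : Prop where
  norm_le : ∀ l ∈ H.Λ, ∀ g, ‖H.φ l g‖ ≤ 1
  d_n2 : ∀ l ∈ H.Λ, H.d l * n2 μ (H.φ l) = 1
  one_le : ∀ l ∈ H.Λ, 1 ≤ H.d l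
  mono : ∀ l ∈ H.Λ, ∀ m ∈ H.Λ, H.d l ≤ H.d (l + m)
  rankL : ∀ l ∈ H.Λ, H.d l = Module.finrank ℂ (spanL (H.φ l))
  rankR : ∀ l ∈ H.Λ, H.d l = Module.finrank ℂ (spanR (H.φ l))
  submul : ∀ l ∈ H.Λ, ∀ m ∈ H.Λ, H.d (l + m) ≤ H.d l * H.d m

/-- the projections `Π_l = cv (d l • φ l)` -/
structure PROJ (H : HW μ r) : Prop where
  idem : ∀ l ∈ H.Λ, ∀ F, cv μ ((H.d l : ℂ) • H.φ l) (cv μ ((H.d l : ℂ) • H.φ l) F)
    = cv μ ((H.d l : ℂ) • H.φ l) F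
  orth : ∀ l ∈ H.Λ, ∀ m ∈ H.Λ, l ≠ m → ∀ F,
    cv μ ((H.d m : ℂ) • H.φ m) (cv μ ((H.d l : ℂ) • H.φ l) F) = 0
  adj : ∀ l ∈ H.Λ, ∀ F F', ip μ (cv μ ((H.d l : ℂ) • H.φ l) F) F'
    = ip μ F (cv μ ((H.d l : ℂ) • H.φ l) F')
  weight : ∀ l ∈ H.Λ, ∀ F y x, cv μ ((H.d l : ℂ) • H.φ l) F (y * H.τ x)
    = cv μ ((H.d l : ℂ) • H.φ l) F y * Complex.exp (Complex.I * (pair x l : ℝ))
  sup : ∀ l ∈ H.Λ, ∀ F y, ‖cv μ ((H.d l : ℂ) • H.φ l) F y‖ ^ 2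
    ≤ H.d l * n2 μ (cv μ ((H.d l : ℂ) • H.φ l) F)
  pyth : ∀ (ι : Type) (S : Finset ι) (w : ι → Fin r → ℤ) (c : ι → ℂ) (F : C(G, ℂ)),
    (∀ j ∈ S, w j ∈ H.Λ) → Set.InjOn w S →
      n2 μ (∑ j ∈ S, c j • cv μ ((H.d (w j) : ℂ) • H.φ (w j)) F)
        = ∑ j ∈ S, ‖c j‖ ^ 2 * n2 μ (cv μ ((H.d (w j) : ℂ) • H.φ (w j)) F)
  orthW : ∀ l ∈ H.Λ, ∀ m ∈ H.Λ, l ≠ m → ∀ f ∈ span2 (H.φ l), ∀ f' ∈ span2 (H.φ m),
    ip μ f f' = 0

/-- averaging over the conjugates of `Π_l` -/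
structure AVG (H : HW μ r) : Prop where
  recon : ∀ l ∈ H.Λ, ∀ f ∈ span2 (H.φ l), ∀ g,
    f g = (H.d l : ℂ) * ∫ k, H.hk μ l k f (g * k) ∂μ
  norm : ∀ l ∈ H.Λ, ∀ f ∈ span2 (H.φ l), H.d l * ∫ k, n2 μ (H.hk μ l k f) ∂μ = n2 μ f
  bessel : ∀ (ι : Type) (S : Finset ι) (w : ι → Fin r → ℤ) (F : C(G, ℂ)),
    (∀ j ∈ S, w j ∈ H.Λ) → Set.InjOn w S →
      ∑ j ∈ S, H.d (w j) * ∫ k, n2 μ (H.hk μ (w j) k F) ∂μ ≤ n2 μ F
  sup : ∀ l ∈ H.Λ, ∀ f ∈ span2 (H.φ l), ∀ g, ‖f g‖ ^ 2 ≤ H.d l ^ 2 * n2 μ f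

/-- the torus estimate on cosets of the maximal torus -/
def TTOR (H : HW μ r) : Prop :=
  ∀ (θ ℓ : Fin r → ℝ) (q T e : ℝ), 0 < q → TorBd r θ q T e → ∃ C : ℝ, 0 < C ∧
    ∀ (ι : Type) (S : Finset ι) (w : ι → Fin r → ℤ) (N : ℕ), 1 ≤ N → Set.InjOn w S →
      (∀ j ∈ S, ∀ i, |w j i| ≤ N) → WBd μ H θ ℓ q T (C * (N : ℝ) ^ e) S w

/-- the restricted estimate for one block -/
def BLOCK (H : HW μ r) : Prop :=
  ∀ (θ ℓ : Fin r → ℝ) (q T Θ B c0 D0 : ℝ) (ι : Type) (S S' : Finset ι) (w : ι → Fin r → ℤ)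
    (χ : ι → ℝ) (f : ι → C(G, ℂ)) (F : ℝ × G → ℂ), 2 < q → 0 < T → 0 ≤ Θ → 1 ≤ B → 0 < c0 →
    0 < D0 → S ⊆ S' → (∀ j ∈ S', w j ∈ H.Λ) → Set.InjOn w S' →
    (∀ j ∈ S', 0 ≤ χ j ∧ χ j ≤ 1) → (∀ j ∈ S, c0 ≤ χ j) →
    (∀ j ∈ S', D0 ≤ H.d (w j) ∧ H.d (w j) ≤ B * D0) →
    D0 * ∫ z, ‖∑ j ∈ S', (χ j : ℂ) * H.φ (w j) z‖ ∂μ ≤ 1 → WBd μ H θ ℓ q T Θ S w →
    (∀ j ∈ S, f j ∈ span2 (H.φ (w j))) → Continuous F → (∀ z, ‖F z‖ ≤ 1) →
      ‖∫ z, ev S (fun j => En θ ℓ (w j)) f z * conj (F z) ∂(stm μ T)‖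
        ≤ B ^ 3 / c0 * Θ * D0 ^ (1 - 2 / q) * Real.sqrt (∑ j ∈ S, n2 μ (f j)) *
          (∫ z, ‖F z‖ ∂(stm μ T)) ^ (1 - 1 / q)

/-- the Fejer multiplier has a kernel of small L1 norm -/
def KERN (H : HW μ r) : Prop :=
  ∀ (m : ℕ) (l0 : Fin r → ℤ) (ν : Fin m → Fin r → ℤ) (M : Fin m → ℕ), l0 ∈ H.Λ →
    (∀ i, ν i ∈ H.Λ) → Indep ν → (∀ i, 1 ≤ M i) →
      H.d (wv 0 ν (fun i => M i / 4)) *
        ∫ z, ‖∑ a ∈ Fintype.piFinset (fun i => Finset.Ico (M i / 2) (3 * M i)),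
          ((∏ i, fej (M i) (a i) : ℝ) : ℂ) * H.φ (wv l0 ν a) z‖ ∂μ ≤ 1

/-- halving the multidegree in a graded family of monomial spans -/
def HALVE : Prop :=
  ∀ (A : Type) [CommRing A] [Algebra ℂ A] (σ : Type) [Fintype σ] (m : ℕ) (y : σ → A)
    (deg : σ → Fin m) (Hs : (Fin m → ℕ) → Submodule ℂ A),
    (∀ a, Hs a = Submodule.span ℂ {u | ∃ c : σ → ℕ,
      (∀ i, ∑ j, (if deg j = i then c j else 0) = a i) ∧ u = ∏ j, y j ^ c j}) →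
    (∀ a b, a ≤ b → Module.finrank ℂ (Hs a) ≤ Module.finrank ℂ (Hs b)) →
      ∀ a, Module.finrank ℂ (Hs a)
        ≤ 2 ^ Fintype.card σ * Module.finrank ℂ (Hs (fun i => a i / 2))

/-- doubling of the dimension -/
def DOUB (H : HW μ r) : Prop :=
  ∀ (m : ℕ) (ν : Fin m → Fin r → ℤ), (∀ i, ν i ∈ H.Λ) → ∃ C : ℝ, 1 ≤ C ∧ ∀ a b : Fin m → ℕ,
    (∀ i, a i ≤ 15 * (b i + 1)) → H.d (wv 0 ν a) ≤ C * H.d (wv 0 ν b)

/-- both estimates for one dyadic block of a free family -/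
def FAM1 (H : HW μ r) : Prop :=
  ∀ (θ ℓ : Fin r → ℝ) (e m : ℕ) (l0 : Fin r → ℤ) (ν : Fin m → Fin r → ℤ) (q T : ℝ),
    TorThm r θ → Growth μ H e → l0 ∈ H.Λ → (∀ i, ν i ∈ H.Λ) → Indep ν → 4 < r * (q - 2) → 0 < T →
    ∃ C : ℝ, 0 < C ∧ ∀ (kv : Fin m → ℕ) (K : ℕ) (S : Finset (Fin m → ℕ))
      (f : (Fin m → ℕ) → C(G, ℂ)) (F : ℝ × G → ℂ), (∀ i, kv i ≤ K) →
      (∀ a ∈ S, ∀ i, 2 ^ kv i ≤ a i + 1 ∧ a i + 1 < 2 ^ (kv i + 1)) →
      (∀ a ∈ S, f a ∈ span2 (H.φ (wv l0 ν a))) → Continuous F → (∀ z, ‖F z‖ ≤ 1) →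
        ‖∫ z, ev S (fun a => En θ ℓ (wv l0 ν a)) f z * conj (F z) ∂(stm μ T)‖
          ≤ C * Real.sqrt (∑ a ∈ S, n2 μ (f a)) *
            min (((2 : ℝ) ^ K) ^ ((r + e : ℝ) / 2 - (r + e + 2) / q) *
                (∫ z, ‖F z‖ ∂(stm μ T)) ^ (1 - 1 / q))
              (Real.sqrt ((2 : ℝ) ^ (∑ i, kv i)) * ((2 : ℝ) ^ K) ^ ((e : ℝ) / 2) *
                ∫ z, ‖F z‖ ∂(stm μ T))

/-- from restricted estimates with off-diagonal decay to the strong estimate -/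
def LSUM : Prop :=
  ∀ p c κ : ℝ, 2 ≤ p → 0 < c → 0 < κ → ∃ C : ℝ, 0 < C ∧ ∀ (X : Type) [MeasurableSpace X]
    (ν : Measure X) [IsFiniteMeasure ν] (u : X → ℂ) (K : ℕ) (γ : ℕ → ℝ), Measurable u →
    (∃ B : ℝ, ∀ᵐ x ∂ν, ‖u x‖ ≤ B) → (∀ k, 0 ≤ γ k) →
    (∀ ϑ : ℂ → ℂ, Continuous ϑ → (∀ z, ‖ϑ z‖ ≤ 1) → 0 < ∫ x, ‖ϑ (u x)‖ ∂ν →
      ‖∫ x, u x * conj (ϑ (u x)) ∂ν‖ ≤ (∫ x, ‖ϑ (u x)‖ ∂ν) ^ (1 - 1 / p) *
        ∑ k ∈ Finset.range K, γ k * min (((2 : ℝ) ^ (κ * k) * ∫ x, ‖ϑ (u x)‖ ∂ν) ^ c)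
          (((2 : ℝ) ^ (κ * k) * ∫ x, ‖ϑ (u x)‖ ∂ν) ^ (-c))) →
      ∫ x, ‖u x‖ ^ p ∂ν ≤ C * (∑ k ∈ Finset.range K, γ k ^ 2) ^ (p / 2)

/-- the estimate for one free family -/
def FAM2 (H : HW μ r) : Prop :=
  ∀ (θ ℓ : Fin r → ℝ) (e m : ℕ) (l0 : Fin r → ℤ) (ν : Fin m → Fin r → ℤ) (p T : ℝ),
    TorThm r θ → Growth μ H e → l0 ∈ H.Λ → (∀ i, ν i ∈ H.Λ) → Indep ν → 4 < r * (p - 2) → 0 < T →
    ∃ C : ℝ, 0 < C ∧ ∀ (S : Finset (Fin m → ℕ)) (f : (Fin m → ℕ) → C(G, ℂ)),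
      (∀ a ∈ S, f a ∈ span2 (H.φ (wv l0 ν a))) →
        ∫ z, ‖ev S (fun a => En θ ℓ (wv l0 ν a)) f z‖ ^ p ∂(stm μ T)
          ≤ C * (∑ a ∈ S, (1 + ‖wv l0 ν a‖) ^ (2 * ((r + e : ℝ) / 2 - (r + e + 2) / p)) *
            n2 μ (f a)) ^ (p / 2)

/-- the transference theorem -/
def TMAIN (H : HW μ r) : Prop :=
  ∀ (θ ℓ : Fin r → ℝ) (e : ℕ) (p T : ℝ), TorThm r θ → Growth μ H e → Cover H.Λ →
    4 < r * (p - 2) → 0 < T → TEst μ H θ ℓ (r + e) p T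

/-- Caratheodory plus Dickson -/
def FAMS : Prop :=
  ∀ (r : ℕ) (Λ : AddSubmonoid (Fin r → ℤ)) (J : Type) [Fintype J] (ω : J → Fin r → ℤ),
    (∀ j, ω j ∈ Λ) → (∀ l ∈ Λ, ∃ s : J → ℝ, (∀ j, 0 ≤ s j) ∧ ∀ i, (l i : ℝ) = ∑ j, s j * ω j i) →
      Cover Λ

/-! ## Basic lemmas -/

@[simp] theorem tr2_apply (a k : G) (f : C(G, ℂ)) (g : G) : tr2 a k f g = f (a * g * k) := rfl

theorem tr2_tr2 (a k a' k' : G) (f : C(G, ℂ)) :
    tr2 a k (tr2 a' k' f) = tr2 (a' * a) (k * k') f := by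
  ext g; simp [mul_assoc]

@[simp] theorem tr2_one (f : C(G, ℂ)) : tr2 (1 : G) 1 f = f := by ext g; simp

theorem tr2_mul (a k : G) (f h : C(G, ℂ)) : tr2 a k (f * h) = tr2 a k f * tr2 a k h := by
  ext g; simp

theorem spanL_le_span2 (ψ : C(G, ℂ)) : spanL ψ ≤ span2 ψ :=
  Submodule.span_mono (by rintro _ ⟨a, rfl⟩; exact ⟨(a, 1), rfl⟩)

theorem spanR_le_span2 (ψ : C(G, ℂ)) : spanR ψ ≤ span2 ψ :=
  Submodule.span_mono (by rintro _ ⟨k, rfl⟩; exact ⟨(1, k), rfl⟩)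

@[simp] theorem cv_apply (ν : Measure G) [IsFiniteMeasure ν] (a F : C(G, ℂ)) (y : G) :
    cv ν a F y = ∫ z, F (y * z) * conj (a z) ∂ν := rfl

theorem integrable_of_continuous {E : Type} [NormedAddCommGroup E] {f : G → E}
    (hf : Continuous f) : Integrable f μ :=
  hf.integrable_of_hasCompactSupport (HasCompactSupport.of_compactSpace f)

theorem continuous_integral_param {X E : Type} [TopologicalSpace X] [FirstCountableTopology X]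
    [LocallyCompactSpace X] [NormedAddCommGroup E] [NormedSpace ℝ E] {f : X → G → E}
    (hf : Continuous f.uncurry) : Continuous fun x => ∫ z, f x z ∂μ := by
  simpa using continuous_parametric_integral_of_continuous (μ := μ) hf isCompact_univ

instance (T : ℝ) : IsFiniteMeasure (stm μ T) := by unfold stm; infer_instance

theorem integrable_stm {E : Type} [NormedAddCommGroup E] (T : ℝ) {f : ℝ × G → E}
    (hf : Continuous f) : Integrable f (stm μ T) := by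
  have h : stm μ T = (volume.prod μ).restrict (Set.Icc (-T) T ×ˢ Set.univ) := by
    unfold stm; rw [← Measure.prod_restrict, Measure.restrict_univ]
  rw [h]
  exact hf.continuousOn.integrableOn_compact (isCompact_Icc.prod isCompact_univ)

theorem continuous_ev {ι : Type} (S : Finset ι) (E : ι → ℝ) (f : ι → C(G, ℂ)) :
    Continuous (ev S E f) := by
  unfold ev; fun_prop

theorem ip_eq_inner (f h : C(G, ℂ)) :
    ip μ f h = inner ℂ (ContinuousMap.toLp 2 μ ℂ h) (ContinuousMap.toLp 2 μ ℂ f) := by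
  rw [ContinuousMap.inner_toLp]; rfl

theorem n2_eq_norm_sq (f : C(G, ℂ)) : n2 μ f = ‖ContinuousMap.toLp 2 μ ℂ f‖ ^ 2 := by
  have h := ip_eq_inner μ f f
  rw [inner_self_eq_norm_sq_to_K] at h
  have h2 : ip μ f f = (n2 μ f : ℂ) := by
    unfold ip n2
    rw [← integral_complex_ofReal]
    refine integral_congr_ae (Filter.Eventually.of_forall fun g => ?_)
    simp [Complex.mul_conj, Complex.normSq_eq_norm_sq]
  rw [h2] at h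
  exact Complex.ofReal_injective (by simpa using h)

theorem ip_self (f : C(G, ℂ)) : ip μ f f = (n2 μ f : ℂ) := by
  rw [ip_eq_inner, inner_self_eq_norm_sq_to_K, n2_eq_norm_sq]; norm_cast

theorem eq_zero_of_n2 {f : C(G, ℂ)} (h : n2 μ f = 0) : f = 0 := by
  rw [n2_eq_norm_sq] at h
  have h1 : ContinuousMap.toLp 2 μ ℂ f = 0 := by simpa using h
  exact ContinuousMap.toLp_injective (p := 2) (𝕜 := ℂ) μ (by rw [h1, map_zero])

/-- orthonormal basis of a finite dimensional space of continuous functions -/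
theorem exists_onb (V : Submodule ℂ C(G, ℂ)) [FiniteDimensional ℂ V] :
    ∃ e : Fin (Module.finrank ℂ V) → C(G, ℂ), (∀ j, e j ∈ V) ∧
      (∀ i j, ip μ (e i) (e j) = if i = j then 1 else 0) ∧
      ∀ h ∈ V, h = ∑ j, ip μ h (e j) • e j := by
  let T : C(G, ℂ) →ₗ[ℂ] Lp ℂ 2 μ := (ContinuousMap.toLp 2 μ ℂ).toLinearMap
  have hT : Function.Injective T := ContinuousMap.toLp_injective (p := 2) (𝕜 := ℂ) μ
  let W := V.map T
  let Φ : V ≃ₗ[ℂ] W := Submodule.equivMapOfInjective T hT V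
  have hW : Module.finrank ℂ W = Module.finrank ℂ V := Φ.finrank_eq.symm
  let b := (stdOrthonormalBasis ℂ W).reindex (finCongr hW)
  have hb : ∀ j, ContinuousMap.toLp 2 μ ℂ (Φ.symm (b j) : C(G, ℂ)) = (b j : Lp ℂ 2 μ) := by
    intro j
    have := Submodule.coe_equivMapOfInjective_apply T hT V (Φ.symm (b j))
    rw [show Submodule.equivMapOfInjective T hT V = Φ from rfl, Φ.apply_symm_apply] at this
    exact this.symm
  refine ⟨fun j => (Φ.symm (b j) : C(G, ℂ)), fun j => (Φ.symm (b j)).2, fun i j => ?_,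
    fun h hh => ?_⟩
  · rw [ip_eq_inner, hb, hb, ← Submodule.coe_inner, orthonormal_iff_ite.1 b.orthonormal]
    simp [eq_comm]
  · apply hT
    have h1 := congrArg (fun v : W => (v : Lp ℂ 2 μ)) (b.sum_repr' (Φ ⟨h, hh⟩))
    have h2 : ((Φ ⟨h, hh⟩ : W) : Lp ℂ 2 μ) = T h :=
      Submodule.coe_equivMapOfInjective_apply T hT V ⟨h, hh⟩
    simp only [Submodule.coe_sum, Submodule.coe_smul, Submodule.coe_inner] at h1
    rw [h2] at h1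
    rw [← h1, map_sum]
    refine Finset.sum_congr rfl fun j _ => ?_
    rw [map_smul, ip_eq_inner, hb]
    exact congrArg _ (hb j).symm

theorem wv_mem {r m : ℕ} {Λ : AddSubmonoid (Fin r → ℤ)} {l0 : Fin r → ℤ} {ν : Fin m → Fin r → ℤ}
    (h0 : l0 ∈ Λ) (hν : ∀ i, ν i ∈ Λ) (a : Fin m → ℕ) : wv l0 ν a ∈ Λ :=
  Λ.add_mem h0 (Λ.sum_mem fun i _ => Λ.nsmul_mem (hν i) _)

theorem wv_injective {r m : ℕ} (l0 : Fin r → ℤ) {ν : Fin m → Fin r → ℤ} (h : Indep ν) :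
    Function.Injective (wv l0 ν) := by
  intro a b hab
  have h1 : ∑ i, a i • ν i = ∑ i, b i • ν i := add_left_cancel hab
  have h2 := Fintype.linearIndependent_iff.1 h (fun i => (a i : ℝ) - b i) (by
    funext k
    have := congrArg (fun v : Fin r → ℤ => (v k : ℝ)) h1
    simp only [Finset.sum_apply, Pi.smul_apply] at this
    simp only [nsmul_eq_mul] at this
    push_cast at this
    simp only [Finset.sum_apply, Pi.smul_apply, smul_eq_mul, sub_mul, Finset.sum_sub_distrib,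
      this, sub_self, Pi.zero_apply])
  funext i
  exact_mod_cast sub_eq_zero.1 (h2 i)

end Pool.Agent.P.MP_7211b7_an
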