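import Pool.Agent.P.MP_7211b7_an.DefsB

/-! Few integers have many small divisors. -/

namespace Pool.Agent.P.MP_7211b7_an

open Finset

namespace Exc

theorem succ_pow_le (B a : ℕ) (hB : 1 ≤ B) : (a + 1) ^ B ≤ B ^ B * 2 ^ a := by
  have h1 : a + 1 ≤ B * 2 ^ (a / B) := by
    have h2 : a / B + 1 ≤ 2 ^ (a / B) := Nat.lt_two_pow_self
    have h3 : a < B * (a / B + 1) := Nat.lt_mul_div_succ a hB
    calc a + 1 ≤ B * (a / B + 1) := h3
      _ ≤ B * 2 ^ (a / B) := Nat.mul_le_mul_left _ h2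
  calc (a + 1) ^ B ≤ (B * 2 ^ (a / B)) ^ B := Nat.pow_le_pow_left h1 _
    _ = B ^ B * 2 ^ (a / B * B) := by rw [mul_pow, ← pow_mul]
    _ ≤ B ^ B * 2 ^ a :=
      Nat.mul_le_mul_left _ (Nat.pow_le_pow_right (by omega) (Nat.div_mul_le_self a B))

theorem card_divisors_pow_le (B : ℕ) (hB : 1 ≤ B) :
    ∃ C : ℕ, 1 ≤ C ∧ ∀ n : ℕ, n ≠ 0 → n.divisors.card ^ B ≤ C * n := by
  have hBB : 1 ≤ B ^ B := Nat.one_le_pow _ _ hB
  refine ⟨(B ^ B) ^ (2 ^ B), Nat.one_le_pow _ _ hBB, fun n hn => ?_⟩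
  rw [Nat.card_divisors hn, ← Finset.prod_pow]
  have h1 : ∏ p ∈ n.primeFactors, (n.factorization p + 1) ^ B ≤
      ∏ p ∈ n.primeFactors, ((if p < 2 ^ B then B ^ B else 1) * p ^ n.factorization p) := by
    refine Finset.prod_le_prod' fun p hp => ?_
    have hp2 := (Nat.prime_of_mem_primeFactors hp).two_le
    split_ifs with h
    · exact (succ_pow_le B _ hB).trans (Nat.mul_le_mul_left _ (Nat.pow_le_pow_left hp2 _))
    · rw [one_mul]
      have h2 : n.factorization p + 1 ≤ 2 ^ n.factorization p := Nat.lt_two_pow_self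
      calc (n.factorization p + 1) ^ B ≤ (2 ^ n.factorization p) ^ B := Nat.pow_le_pow_left h2 _
        _ = (2 ^ B) ^ n.factorization p := by rw [← pow_mul, ← pow_mul, mul_comm]
        _ ≤ p ^ n.factorization p := Nat.pow_le_pow_left (by omega) _
  refine h1.trans ?_
  rw [Finset.prod_mul_distrib]
  have h2 : ∏ p ∈ n.primeFactors, p ^ n.factorization p = n := by
    conv_rhs => rw [← Nat.prod_factorization_pow_eq_self hn]
    rfl
  rw [h2]
  refine Nat.mul_le_mul_right _ ?_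
  rw [← Finset.prod_filter, Finset.prod_const]
  refine Nat.pow_le_pow_right hBB ?_
  calc (n.primeFactors.filter fun p => p < 2 ^ B).card ≤ (Finset.range (2 ^ B)).card :=
        Finset.card_le_card fun p hp => Finset.mem_range.2 (Finset.mem_filter.1 hp).2
    _ = 2 ^ B := Finset.card_range _

/-- The k-th power of the truncated divisor count is bounded by a longer truncated count. -/
theorem dv_pow_le (k : ℕ) (hk : 1 ≤ k) :
    ∃ C : ℕ, 1 ≤ C ∧ ∀ b : ℕ, 1 ≤ b → ∀ ω : ℤ, dv b ω ^ k ≤ C * b * dv (b ^ k) ω := by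
  obtain ⟨C, hC1, hC⟩ := card_divisors_pow_le (k * k) (Nat.mul_pos hk hk)
  refine ⟨C, hC1, fun b hb ω => ?_⟩
  set S := (Icc 1 b).filter (fun q : ℕ => (q : ℤ) ∣ ω) with hS
  have h1 : dv b ω ^ k = (Fintype.piFinset fun _ : Fin k => S).card := by
    rw [Fintype.card_piFinset_const]
    rfl
  rw [h1, dv]
  refine card_le_mul_card_image_of_maps_to (f := fun q : Fin k → ℕ => univ.lcm q) ?_ _ ?_
  · intro q hq
    have hq' : ∀ i, (1 ≤ q i ∧ q i ≤ b) ∧ (q i : ℤ) ∣ ω := fun i => by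
      have := Fintype.mem_piFinset.1 hq i
      rwa [hS, mem_filter, mem_Icc] at this
    have hp : 0 < ∏ i, q i := prod_pos fun i _ => (hq' i).1.1
    have hd : univ.lcm q ∣ ∏ i, q i := Finset.lcm_dvd fun i hi => dvd_prod_of_mem q hi
    have hle : ∏ i, q i ≤ b ^ k := by
      have := prod_le_pow_card univ q b fun i _ => (hq' i).1.2
      rwa [card_univ, Fintype.card_fin] at this
    rw [mem_filter, mem_Icc]
    refine ⟨⟨Nat.pos_of_dvd_of_pos hd hp, (Nat.le_of_dvd hp hd).trans hle⟩, ?_⟩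
    exact Int.natCast_dvd.2 (Finset.lcm_dvd fun i _ => Int.natCast_dvd.1 (hq' i).2)
  · intro l hl
    rw [mem_filter, mem_Icc] at hl
    have hl0 : l ≠ 0 := by omega
    have h2 : ((Fintype.piFinset fun _ : Fin k => S).filter fun q => univ.lcm q = l) ⊆
        Fintype.piFinset fun _ : Fin k => l.divisors := by
      intro q hq
      rw [mem_filter] at hq
      refine Fintype.mem_piFinset.2 fun i => Nat.mem_divisors.2 ⟨?_, hl0⟩
      rw [← hq.2]
      exact Finset.dvd_lcm (mem_univ i)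
    refine (card_le_card h2).trans ?_
    rw [Fintype.card_piFinset_const]
    have h3 : (l.divisors.card ^ k) ^ k ≤ (C * b) ^ k :=
      calc (l.divisors.card ^ k) ^ k = l.divisors.card ^ (k * k) := by rw [pow_mul]
        _ ≤ C * l := hC l hl0
        _ ≤ C ^ k * b ^ k := Nat.mul_le_mul (Nat.le_self_pow (by omega) C) hl.1.2
        _ = (C * b) ^ k := by rw [mul_pow]
    exact (Nat.pow_le_pow_iff_left (by omega)).1 h3

theorem card_mult (X l : ℕ) (hl : 1 ≤ l) :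
    (((Icc (-(X : ℤ)) X).filter fun ω => (l : ℤ) ∣ ω).card : ℝ) ≤ 2 * X * (l : ℝ)⁻¹ + 1 := by
  have hl' : (0 : ℤ) < l := by exact_mod_cast hl
  have h1 : ((Icc (-(X : ℤ)) X).filter fun ω => (l : ℤ) ∣ ω) ⊆
      (Icc (-((X / l : ℕ) : ℤ)) ((X / l : ℕ) : ℤ)).image fun m => (l : ℤ) * m := by
    intro ω hω
    rw [mem_filter, mem_Icc] at hω
    obtain ⟨⟨h1, h2⟩, m, rfl⟩ := hω
    refine mem_image.2 ⟨m, mem_Icc.2 ⟨?_, ?_⟩, rfl⟩
    · rw [neg_le, Int.natCast_div]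
      exact Int.le_ediv_of_mul_le hl' (by linarith)
    · rw [Int.natCast_div]
      exact Int.le_ediv_of_mul_le hl' (by linarith)
  have h2 := (card_le_card h1).trans card_image_le
  rw [Int.card_Icc] at h2
  have h3 : (((X / l : ℕ) : ℤ) + 1 - -((X / l : ℕ) : ℤ)).toNat = 2 * (X / l) + 1 := by omega
  rw [h3] at h2
  have h4 : ((X / l : ℕ) : ℝ) ≤ (X : ℝ) / l := Nat.cast_div_le
  have h5 : ((((Icc (-(X : ℤ)) X).filter fun ω => (l : ℤ) ∣ ω).card : ℕ) : ℝ) ≤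
      2 * ((X / l : ℕ) : ℝ) + 1 := by exact_mod_cast h2
  rw [div_eq_mul_inv] at h4
  linarith

theorem sum_dv (X N : ℕ) :
    ∑ ω ∈ Icc (-(X : ℤ)) X, (dv N ω : ℝ) ≤ 2 * X * (1 + Real.log N) + N := by
  have h1 : ∑ ω ∈ Icc (-(X : ℤ)) X, (dv N ω : ℝ) =
      ∑ l ∈ Icc 1 N, (((Icc (-(X : ℤ)) X).filter fun ω => ((l : ℕ) : ℤ) ∣ ω).card : ℝ) := by
    simp only [dv, card_filter]
    push_cast
    exact sum_comm
  have h2 : ∑ l ∈ Icc 1 N, ((l : ℕ) : ℝ)⁻¹ ≤ 1 + Real.log N := by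
    have h := harmonic_le_one_add_log N
    rw [harmonic_eq_sum_Icc] at h
    push_cast at h
    exact h
  rw [h1]
  refine (sum_le_sum fun l hl => card_mult X l (mem_Icc.1 hl).1).trans ?_
  rw [sum_add_distrib, ← mul_sum, sum_const, Nat.card_Icc, nsmul_eq_mul, mul_one,
    Nat.add_sub_cancel]
  have h3 : (0 : ℝ) ≤ 2 * X := by positivity
  linarith [mul_le_mul_of_nonneg_left h2 h3]

end Exc

theorem exc_ok : EXC := by
  intro δ B hδ hB
  obtain ⟨k, hk⟩ := exists_nat_gt ((B + 2) / δ)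
  have hk0 : (0 : ℝ) < k := lt_trans (by positivity) hk
  have hk1 : 1 ≤ k := by exact_mod_cast hk0
  have hkδ : B + 2 ≤ δ * k := by
    rw [div_lt_iff₀ hδ] at hk
    linarith
  obtain ⟨C, hC1, hC⟩ := Exc.dv_pow_le k hk1
  have hC0 : (0 : ℝ) < C := by exact_mod_cast hC1
  refine ⟨k, C * (2 * (1 + k)), by positivity, fun b X hb hX => ?_⟩
  have hb1 : (1 : ℝ) ≤ b := by exact_mod_cast hb
  have hb0 : (0 : ℝ) < b := by linarith
  have hX0 : (0 : ℝ) ≤ X := by positivity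
  set P : ℝ := (b : ℝ) ^ B with hP
  have hP1 : 1 ≤ P := Real.one_le_rpow hb1 hB.le
  have hD : P * (b : ℝ) ^ 2 ≤ ((b : ℝ) ^ δ) ^ k := by
    rw [hP, ← Real.rpow_natCast _ 2, ← Real.rpow_add hb0, ← Real.rpow_mul_natCast hb0.le]
    exact Real.rpow_le_rpow_of_exponent_le hb1 (by push_cast; exact hkδ)
  have h1 : (exc b X ((b : ℝ) ^ δ) : ℝ) * (P * (b : ℝ) ^ 2) ≤
      ∑ ω ∈ Icc (-(X : ℤ)) X, (C * b * (dv (b ^ k) ω : ℝ)) := by
    rw [exc, ← nsmul_eq_mul, ← sum_const]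
    refine (sum_le_sum fun ω hω => ?_).trans
      (sum_le_sum_of_subset_of_nonneg (filter_subset _ _) fun ω _ _ => by positivity)
    have h2 : (b : ℝ) ^ δ < dv b ω := (mem_filter.1 hω).2
    have h3 : ((b : ℝ) ^ δ) ^ k ≤ (dv b ω : ℝ) ^ k := pow_le_pow_left₀ (by positivity) h2.le k
    have h4 : (dv b ω : ℝ) ^ k ≤ C * b * (dv (b ^ k) ω : ℝ) := by exact_mod_cast hC b hb ω
    linarith
  rw [← mul_sum] at h1
  have h2 := Exc.sum_dv X (b ^ k)
  push_cast at h2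
  have h3 : 1 + Real.log ((b : ℝ) ^ k) ≤ (1 + k) * b := by
    rw [Real.log_pow]
    have := Real.log_le_self hb0.le
    nlinarith
  set Q : ℝ := (b : ℝ) ^ k with hQ
  have hQ0 : 0 ≤ Q := by positivity
  have h4 : (exc b X ((b : ℝ) ^ δ) : ℝ) * (P * (b : ℝ) ^ 2) ≤
      C * b * (2 * X * ((1 + k) * b) + Q) := by
    refine h1.trans (mul_le_mul_of_nonneg_left (h2.trans ?_) (by positivity))
    have := mul_le_mul_of_nonneg_left h3 (by positivity : (0 : ℝ) ≤ 2 * X)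
    linarith
  rw [Real.rpow_neg hb0.le, ← hP]
  refine le_of_mul_le_mul_right (h4.trans ?_) (by positivity : 0 < P * (b : ℝ) ^ 2)
  have h5 : C * (2 * (1 + (k : ℝ))) * (X * P⁻¹ + Q) * (P * (b : ℝ) ^ 2) =
      C * b * (2 * X * ((1 + k) * b) + Q * (2 * (1 + k) * P * b)) := by
    field_simp
  rw [h5]
  refine mul_le_mul_of_nonneg_left ?_ (by positivity)
  have h6 : (1 : ℝ) ≤ 2 * (1 + k) * P * b :=
    one_le_mul_of_one_le_of_one_le (one_le_mul_of_one_le_of_one_le (by linarith) hP1) hb1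
  linarith [mul_le_mul_of_nonneg_left h6 hQ0]

end Pool.Agent.P.MP_7211b7_an
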