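import Pool.Agent.P.MP_7211b7_an.DefsT

/-! Conic Caratheodory plus Dickson: covering by translated free submonoids. -/

namespace Pool.Agent.P.MP_7211b7_an

namespace Fams

open Finset

lemma cara {J V : Type} [AddCommGroup V] [Module ℝ V] (v : J → V) (I : Finset J) :
    ∀ s : J → ℝ, (∀ j ∈ I, 0 ≤ s j) → ∃ (I' : Finset J) (t : J → ℝ), (∀ j ∈ I', 0 ≤ t j) ∧
      LinearIndepOn ℝ v I' ∧ ∑ j ∈ I', t j • v j = ∑ j ∈ I, s j • v j := by
  classical
  induction I using Finset.strongInduction with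
  | H I ih =>
    intro s hs
    by_cases hI : LinearIndepOn ℝ v I
    · exact ⟨I, s, hs, hI, rfl⟩
    rw [linearIndepOn_finset_iff] at hI
    push Not at hI
    obtain ⟨c, hc, hne⟩ : ∃ c : J → ℝ, ∑ i ∈ I, c i • v i = 0 ∧
        (I.filter fun i => 0 < c i).Nonempty := by
      obtain ⟨c, hc, i, hi, hci⟩ := hI
      rcases lt_or_gt_of_ne hci with h | h
      · refine ⟨fun j => -c j, ?_, i, mem_filter.2 ⟨hi, by linarith⟩⟩
        simp only [neg_smul, sum_neg_distrib, hc, neg_zero]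
      · exact ⟨c, hc, i, mem_filter.2 ⟨hi, h⟩⟩
    obtain ⟨i, hi, hmin⟩ := exists_min_image _ (fun i => s i / c i) hne
    obtain ⟨hi1, hi2⟩ := mem_filter.1 hi
    obtain ⟨I', t, h1, h2, h3⟩ := ih (I.erase i) (erase_ssubset hi1)
      (fun j => s j - s i / c i * c j) (fun j hj => by
        have hj' := mem_of_mem_erase hj
        by_cases hcj : 0 < c j
        · have := hmin j (mem_filter.2 ⟨hj', hcj⟩)
          rw [le_div_iff₀ hcj] at this
          linarith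
        · have a1 : 0 ≤ s i / c i := div_nonneg (hs i hi1) hi2.le
          have a2 := mul_nonpos_of_nonneg_of_nonpos a1 (not_lt.1 hcj)
          linarith [hs j hj'])
    refine ⟨I', t, h1, h2, ?_⟩
    rw [h3, sum_erase _ (by rw [div_mul_cancel₀ _ hi2.ne', sub_self, zero_smul])]
    simp only [sub_smul, sum_sub_distrib, mul_smul, ← smul_sum, hc, smul_zero, sub_zero]

lemma dickson {r m : ℕ} (Λ : AddSubmonoid (Fin r → ℤ)) (ν : Fin m → Fin r → ℤ)
    (ρ : Fin r → ℤ) : ∃ F : Set (Fin r → ℤ), F.Finite ∧ (∀ l ∈ F, l ∈ Λ) ∧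
      ∀ a, wv ρ ν a ∈ Λ → ∃ l0 ∈ F, ∃ b, wv ρ ν a = wv l0 ν b := by
  have hfin : {a : Fin m → ℕ | Minimal (fun a => wv ρ ν a ∈ Λ) a}.Finite :=
    (setOfPred_minimal_antichain _).finite_of_wellQuasiOrdered wellQuasiOrdered_le
  refine ⟨_, hfin.image (wv ρ ν), ?_, fun a ha => ?_⟩
  · rintro _ ⟨a, ha, rfl⟩
    exact ha.1
  · obtain ⟨b, hb, hmin⟩ := exists_minimal_le_of_wellFoundedLT (fun a => wv ρ ν a ∈ Λ) a ha
    refine ⟨_, ⟨b, hmin, rfl⟩, a - b, ?_⟩
    unfold wv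
    rw [add_assoc, ← sum_add_distrib]
    congr 1
    refine sum_congr rfl fun i _ => ?_
    rw [← add_smul, Pi.sub_apply, Nat.add_sub_cancel' (hb i)]

end Fams

open Finset in
theorem fams : FAMS := by
  classical
  intro r Λ J _ ω hω hcone
  let ν : ∀ I : Finset J, Fin I.card → Fin r → ℤ := fun I i => ω (I.equivFin.symm i)
  let B : Fin r → ℤ := fun k => ∑ j, |ω j k|
  choose F hF1 hF2 hF3 using fun (I : Finset J) (ρ : Fin r → ℤ) => Fams.dickson Λ (ν I) ρ
  have i1 : ∀ I ρ, Finite (F I ρ) := fun I ρ => (hF1 I ρ).to_subtype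
  have i2 : Finite (Set.Icc (-B) B) := (Set.finite_Icc _ _).to_subtype
  refine ⟨Σ I : {I : Finset J // Indep (ν I)}, Σ ρ : Set.Icc (-B) B, F I.1 ρ.1,
    Fintype.ofFinite _, fun j => j.1.1.card, fun j => j.2.2.1, fun j => ν j.1.1,
    fun j => hF2 _ _ _ j.2.2.2, fun j i => hω _, fun j => j.1.2, fun l hl => ?_⟩
  obtain ⟨s, hs, hls⟩ := hcone l hl
  obtain ⟨I, t, h1, h2, h3⟩ :=
    Fams.cara (fun j => fun k : Fin r => (ω j k : ℝ)) univ s fun j _ => hs j
  have hI : Indep (ν I) := LinearIndependent.comp h2 _ I.equivFin.symm.injective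
  let a : Fin I.card → ℕ := fun i => ⌊t (I.equivFin.symm i)⌋₊
  let ρ : Fin r → ℤ := l - ∑ i, a i • ν I i
  have hρ : wv ρ (ν I) a = l := sub_add_cancel _ _
  have hb : ∀ k, |ρ k| ≤ B k := by
    intro k
    have e1 : (l k : ℝ) = ∑ j ∈ I, t j * ω j k := by
      have := congrFun h3 k
      simp only [Finset.sum_apply, Pi.smul_apply, smul_eq_mul] at this
      rw [this, hls]
    have e2 : (∑ i, a i • ν I i) k = ∑ j ∈ I, (⌊t j⌋₊ : ℤ) * ω j k := by
      rw [Finset.sum_apply, ← sum_coe_sort I, ← I.equivFin.symm.sum_comp]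
      refine sum_congr rfl fun i _ => ?_
      rw [Pi.smul_apply, nsmul_eq_mul]
    have e3 : (ρ k : ℝ) = ∑ j ∈ I, (t j - ⌊t j⌋₊) * ω j k := by
      simp only [ρ, Pi.sub_apply, e2]
      push_cast
      rw [e1, ← sum_sub_distrib]
      exact sum_congr rfl fun j _ => by ring
    have e4 : |(ρ k : ℝ)| ≤ ∑ j, |(ω j k : ℝ)| := by
      rw [e3]
      refine (abs_sum_le_sum_abs _ _).trans (le_trans (sum_le_sum fun j hj => ?_)
        (sum_le_sum_of_subset_of_nonneg (subset_univ I) fun _ _ _ => abs_nonneg _))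
      rw [abs_mul]
      refine mul_le_of_le_one_left (abs_nonneg _) (abs_le.2 ⟨?_, ?_⟩)
      · linarith [Nat.floor_le (h1 j hj)]
      · linarith [Nat.lt_floor_add_one (t j)]
    simp only [B]
    exact_mod_cast e4
  obtain ⟨l0, hl0, b, hb'⟩ := hF3 I ρ a (hρ.symm ▸ hl)
  exact ⟨⟨⟨I, hI⟩, ⟨ρ, fun k => (abs_le.1 (hb k)).1, fun k => (abs_le.1 (hb k)).2⟩, l0, hl0⟩, b,
    hρ.symm.trans hb'⟩

end Pool.Agent.P.MP_7211b7_an
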