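import Pool.Agent.P.MP_7211b7_an.Trans
import Pool.Agent.P.MP_7211b7_an.BrExp
import Pool.Agent.P.MP_7211b7_an.BrPW
import Pool.Agent.P.MP_7211b7_an.BrFaith

/-! The Strichartz estimate on a compact connected Lie group, and sanity checks for the
definitions used in the statement. -/

open MeasureTheory Manifold
open scoped ENNReal ContDiff Matrix

namespace Pool.Agent.P.MP_7211b7_an

variable (E : Type) [NormedAddCommGroup E] [NormedSpace ℝ E] [FiniteDimensional ℝ E]
  (G : Type) [TopologicalSpace G] [ChartedSpace E G] [Group G] [LieGroup 𝓘(ℝ, E) ∞ G]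
  [T2Space G] [CompactSpace G] [ConnectedSpace G] [MeasurableSpace G] [BorelSpace G]
  (μ : Measure G) [μ.IsHaarMeasure] [IsProbabilityMeasure μ]
  (B : LinearMap.BilinForm ℝ E) (hB : F.IsBiInv G B) {m : ℕ} (e : Fin m → E)
  (he : F.IsRect G B e) {d : ℕ} (b : Module.Basis (Fin d) ℝ E)
  (hb : ∀ i j, B (b i) (b j) = if i = j then 1 else 0) (T : Subgroup G) (hT : F.IsMaxTorus T)

include hB he hb hT in
theorem lie_strichartz (I : Set ℝ) (hI : Bornology.IsBounded I) (p : ℝ)
    (hp : 4 < (Module.finrank ℝ (F.subAlg E T) : ℝ) * (p - 2)) :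
    ∃ C : NNReal, ∀ f : Lp ℂ 2 μ,
      (∫⁻ t in I, eLpNorm (F.flow μ (fun a => F.expo G (b a)) t f) (ENNReal.ofReal p) μ ^ p)
          ^ (1 / p)
        ≤ C * F.hsSq μ (fun a => F.expo G (b a)) (d / 2 - (d + 2) / p) f ^ (1 / 2 : ℝ) := by
  have : IsTopologicalGroup G := topologicalGroup_of_lieGroup 𝓘(ℝ, E) ∞
  have : SecondCountableTopology G := ChartedSpace.secondCountable_of_sigmaCompact E G
  have : Hr μ := hr_of_haar μ
  obtain ⟨n, ρ, B', b', t, e', hρ, hB', hb', ht, he', hr, hγ⟩ :=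
    exists_matrix brexp brpw brfaith brtor E G μ B hB e he b hb T hT
  obtain ⟨R, hR⟩ := hI.subset_closedBall 0
  rw [Real.closedBall_eq_Icc] at hR
  rw [← hr] at hp
  obtain ⟨C, hC⟩ := matrix_strichartz μ hρ hB' hb' ht he' (0 - R) (0 + R) p hp
  have hp0 : 0 < p := by
    by_contra h
    nlinarith [mul_nonneg (Nat.cast_nonneg (α := ℝ) (Module.finrank ℝ t))
      (show 0 ≤ 2 - p by linarith)]
  refine ⟨C, fun f => ?_⟩
  rw [hγ]
  exact (ENNReal.rpow_le_rpow (lintegral_mono_set hR) (by positivity)).trans (hC f)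

include hB he hb hT in
/-- sanity check: the eigenspaces are complete, so the flow starts at `f` -/
theorem flow_zero (f : Lp ℂ 2 μ) : F.flow μ (fun a => F.expo G (b a)) 0 f = f := by
  have : IsTopologicalGroup G := topologicalGroup_of_lieGroup 𝓘(ℝ, E) ∞
  have : SecondCountableTopology G := ChartedSpace.secondCountable_of_sigmaCompact E G
  have : Hr μ := hr_of_haar μ
  obtain ⟨n, ρ, B', b', t, e', hρ, hB', hb', ht, he', hr, hγ⟩ :=
    exists_matrix brexp brpw brfaith brtor E G μ B hB e he b hb T hT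
  rw [hγ]
  have h : ∑' E : ℝ, F.proj μ (fun a s => expG ρ (s • (b' a : Mat n))) E f = f :=
    (matrix_complete μ hρ hB' hb' ht he' f).tsum_eq
  unfold F.flow
  simpa using h

end Pool.Agent.P.MP_7211b7_an
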