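import Pool.Agent.P.MP_7211b7_an.Final
import Pool.Agent.P.MP_7211b7_an.DefsH

/-! The Strichartz estimate restated with the definitions of `DefsH`. -/

open MeasureTheory Manifold
open scoped ENNReal ContDiff

namespace Pool.Agent.P.MP_7211b7_an

section eig

variable {G : Type} [TopologicalSpace G] [Group G] [CompactSpace G] [MeasurableSpace G]
  [BorelSpace G] (μ : Measure G) [IsFiniteMeasure μ] {d : ℕ} (γ : Fin d → ℝ → G)

theorem eigSet_eq (E : ℝ) :
    H.eigSet μ γ E = ContinuousMap.toLp 2 μ ℂ '' {f | F.IsEigen γ E f} := by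
  ext u
  constructor
  · rintro ⟨f, ⟨hf, f₁, f₂, h1, h2, h3⟩, hu⟩
    refine ⟨⟨f, hf⟩, ⟨fun a => ⟨f₁ a, (h1 a).2.1⟩, fun a => ⟨f₂ a, (h2 a).2.1⟩,
      fun a => (h1 a).2.2, fun a => (h2 a).2.2, ?_⟩, ?_⟩
    · ext g
      simpa [ContinuousMap.sum_apply] using h3 g
    · exact Lp.ext ((ContinuousMap.coeFn_toLp μ _).trans hu.symm)
  · rintro ⟨f, ⟨f₁, f₂, h1, h2, h3⟩, rfl⟩
    refine ⟨f, ⟨f.continuous, fun a => f₁ a, fun a => f₂ a,
      fun a => ⟨f.continuous, (f₁ a).continuous, h1 a⟩,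
      fun a => ⟨(f₁ a).continuous, (f₂ a).continuous, h2 a⟩, fun g => ?_⟩,
      ContinuousMap.coeFn_toLp μ _⟩
    simpa [ContinuousMap.sum_apply] using DFunLike.congr_fun h3 g

theorem proj_eq (E : ℝ) (f : Lp ℂ 2 μ) : H.proj (H.eigSet μ γ E) f = F.proj μ γ E f := by
  rw [eigSet_eq]; rfl

theorem flow_eq (t : ℝ) (f : Lp ℂ 2 μ) : H.flow (H.eigSet μ γ) t f = F.flow μ γ t f := by
  simp only [H.flow, F.flow, proj_eq]

theorem hsSq_eq (s : ℝ) (f : Lp ℂ 2 μ) : H.hsSq (H.eigSet μ γ) s f = F.hsSq μ γ s f := by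
  simp only [H.hsSq, F.hsSq, proj_eq]

end eig

variable (E : Type) [NormedAddCommGroup E] [NormedSpace ℝ E] [FiniteDimensional ℝ E]
  (G : Type) [TopologicalSpace G] [ChartedSpace E G] [Group G] [LieGroup 𝓘(ℝ, E) ∞ G]
  [T2Space G] [CompactSpace G] [ConnectedSpace G] [MeasurableSpace G] [BorelSpace G]
  (μ : Measure G) [μ.IsHaarMeasure] [IsProbabilityMeasure μ]
  (B : E → E → ℝ) (hB : H.IsBiInv G B) {m : ℕ} (e : Fin m → E)
  (he : H.IsRect G B e) {d : ℕ} (b : Module.Basis (Fin d) ℝ E)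
  (hb : ∀ i j, B (b i) (b j) = if i = j then 1 else 0) (T : Subgroup G) (hT : H.IsMaxTorus T)

omit [FiniteDimensional ℝ E] [LieGroup 𝓘(ℝ, E) ∞ G] [T2Space G] [CompactSpace G]
  [ConnectedSpace G] [MeasurableSpace G] [BorelSpace G] in
include hB he in
theorem exists_bilin : ∃ B' : LinearMap.BilinForm ℝ E, (∀ X Y, B' X Y = B X Y) ∧
    F.IsBiInv G B' ∧ F.IsRect G B' e := by
  refine ⟨LinearMap.mk₂ ℝ B (fun X X' Y => ?_) (fun c X Y => ?_) (fun X => (hB.lin X).map_add)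
    (fun c X Y => (hB.lin X).map_smul c Y), fun X Y => rfl, ⟨hB.symm, hB.pos, hB.inv⟩,
    ⟨he.span, he.orth, he.period⟩⟩
  · rw [hB.symm, (hB.lin Y).map_add, hB.symm Y, hB.symm Y]
  · rw [hB.symm, (hB.lin Y).map_smul, hB.symm Y]

include hB he hb hT in
theorem lie_strichartz' (I : Set ℝ) (hI : Bornology.IsBounded I) (p : ℝ)
    (hp : 4 < (Module.finrank ℝ (H.subAlg E T) : ℝ) * (p - 2)) :
    ∃ C : NNReal, ∀ f : Lp ℂ 2 μ,
      H.stNorm μ I p (fun t => H.flow (H.eigSet μ fun a => H.expo G (b a)) t f)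
        ≤ C * H.hsSq (H.eigSet μ fun a => H.expo G (b a)) (d / 2 - (d + 2) / p) f ^ (1 / 2 : ℝ) := by
  obtain ⟨B', h, hB', he'⟩ := exists_bilin E G B hB e he
  simp only [H.stNorm, flow_eq, hsSq_eq]
  exact lie_strichartz E G μ B' hB' e he' b (fun i j => (h _ _).trans (hb i j)) T hT I hI p hp

include hB he hb hT in
/-- sanity check: the eigenspaces are complete, so the flow starts at `f` -/
theorem flow_zero' (f : Lp ℂ 2 μ) : H.flow (H.eigSet μ fun a => H.expo G (b a)) 0 f = f := by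
  obtain ⟨B', h, hB', he'⟩ := exists_bilin E G B hB e he
  rw [flow_eq]
  exact flow_zero E G μ B' hB' e he' b (fun i j => (h _ _).trans (hb i j)) T hT f

end Pool.Agent.P.MP_7211b7_an
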