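import Pool.Agent.P.MP_7211b7_an.DefsA

/-! Narrow or broad: greedy choice of transversal directions. -/

namespace Pool.Agent.P.MP_7211b7_an

namespace Greedy

theorem exists_orth {r k : ℕ} (hk : k < r) (u : Fin k → Eu r) :
    ∃ v : Eu r, ‖v‖ = 1 ∧ ∀ i, inner ℝ (u i) v = 0 := by
  set K := Submodule.span ℝ (Set.range u) with hK
  have h1 : Module.finrank ℝ K ≤ k := by
    have := finrank_range_le_card (R := ℝ) u
    rwa [Fintype.card_fin] at this
  have h2 : Module.finrank ℝ K + Module.finrank ℝ Kᗮ = r := by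
    rw [Submodule.finrank_add_finrank_orthogonal]; simp
  have h3 : Kᗮ ≠ ⊥ := by
    intro h
    rw [h, finrank_bot] at h2
    omega
  obtain ⟨v, hv, hv0⟩ := Submodule.exists_mem_ne_zero_of_ne_bot h3
  have hn : ‖v‖ ≠ 0 := norm_ne_zero_iff.2 hv0
  refine ⟨‖v‖⁻¹ • v, by rw [norm_smul, norm_inv, norm_norm, inv_mul_cancel₀ hn], fun i => ?_⟩
  rw [inner_smul_right, (Submodule.mem_orthogonal _ _).1 hv (u i)
    (Submodule.subset_span ⟨i, rfl⟩), mul_zero]

theorem step (r : ℕ) (w : ℝ) (hw : 0 < w) (k : ℕ) (hk : k ≤ r) :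
    ∃ Λ : ℝ, 0 ≤ Λ ∧ ∀ (ι : Type) (S : Finset ι) (c : ι → Eu r), S.Nonempty →
      (∀ j ∈ S, ‖c j‖ ≤ 1 / 2) →
      ¬ (∃ (v : Eu r) (h : ℝ), ‖v‖ = 1 ∧ |h| ≤ 1 / 2 ∧ ∀ j ∈ S, |inner ℝ (c j) v - h| ≤ w) →
      ∃ τ : Fin (k + 1) → ι, (∀ i, τ i ∈ S) ∧
        ∀ s : Fin (k + 1) → ℝ, ‖s‖ ≤ Λ * ‖∑ i, s i • ((-c (τ i), 1) : Sp r)‖ := by
  induction k with
  | zero =>
    refine ⟨1, zero_le_one, fun ι S c ⟨j, hj⟩ _ _ => ⟨fun _ => j, fun _ => hj, fun s => ?_⟩⟩
    rw [one_mul, pi_norm_le_iff_of_nonneg (norm_nonneg _)]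
    intro i
    have hi : i = 0 := Subsingleton.elim (α := Fin 1) _ _
    subst hi
    refine le_trans (le_of_eq ?_) (norm_snd_le _)
    simp
  | succ k ih =>
    obtain ⟨Λ, hΛ, H⟩ := ih (by omega)
    refine ⟨3 / 2 / w + Λ * (1 + 3 / 2 / w), by positivity, fun ι S c hS hc hn => ?_⟩
    obtain ⟨τ, hτ, hs⟩ := H ι S c hS hc hn
    obtain ⟨v, hv, hvo⟩ := exists_orth (show k < r by omega) fun i => c (τ i.succ) - c (τ 0)
    set h : ℝ := inner ℝ (c (τ 0)) v with hh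
    have hh1 : |h| ≤ 1 / 2 := by
      have := abs_real_inner_le_norm (c (τ 0)) v
      rw [hv, mul_one] at this
      exact this.trans (hc _ (hτ 0))
    have hvi : ∀ i, inner ℝ (c (τ i)) v = h := by
      intro i
      refine Fin.cases rfl (fun i => ?_) i
      have := hvo i
      rw [inner_sub_left] at this
      linarith
    obtain ⟨j, hj, hjw⟩ : ∃ j ∈ S, w < |inner ℝ (c j) v - h| := by
      by_contra hcon
      push Not at hcon
      exact hn ⟨v, h, hv, hh1, hcon⟩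
    refine ⟨Fin.cons j τ, fun i => Fin.cases hj (fun i => hτ i) i, fun s => ?_⟩
    rw [Fin.sum_univ_succ]
    simp only [Fin.cons_zero, Fin.cons_succ]
    set T : Sp r := ∑ i, s (Fin.succ i) • ((-c (τ i), 1) : Sp r) with hT
    set Y : Sp r := s 0 • ((-c j, 1) : Sp r) + T with hY
    have hT0 : inner ℝ T.1 v + T.2 * h = 0 := by
      rw [hT, Prod.fst_sum, Prod.snd_sum, sum_inner, Finset.sum_mul, ← Finset.sum_add_distrib]
      refine Finset.sum_eq_zero fun i _ => ?_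
      simp only [Prod.smul_fst, Prod.smul_snd, inner_smul_left, inner_neg_left, hvi, smul_eq_mul,
        conj_trivial]
      ring
    have hY0 : inner ℝ Y.1 v + Y.2 * h = -(s 0 * (inner ℝ (c j) v - h)) := by
      rw [hY]
      simp only [Prod.fst_add, Prod.snd_add, Prod.smul_fst, Prod.smul_snd, inner_add_left,
        inner_smul_left, inner_neg_left, smul_eq_mul, conj_trivial]
      linarith
    have hN := norm_nonneg Y
    have h1 : |inner ℝ Y.1 v| ≤ ‖Y‖ := by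
      have := abs_real_inner_le_norm Y.1 v
      rw [hv, mul_one] at this
      exact this.trans (norm_fst_le Y)
    have h2 : |Y.2 * h| ≤ ‖Y‖ * (1 / 2) := by
      rw [abs_mul]
      exact mul_le_mul (norm_snd_le Y) hh1 (abs_nonneg _) hN
    have h3 : |s 0| * w ≤ 3 / 2 * ‖Y‖ := by
      have := abs_add_le (inner ℝ Y.1 v) (Y.2 * h)
      rw [hY0, abs_neg, abs_mul] at this
      nlinarith [abs_nonneg (s 0)]
    have h4 : |s 0| ≤ 3 / 2 / w * ‖Y‖ := by
      rw [div_mul_eq_mul_div, le_div_iff₀ hw]; exact h3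
    have h5 : ‖((-c j, 1) : Sp r)‖ ≤ 1 := by
      rw [Prod.norm_def]
      have := hc j hj
      exact max_le (by simp only [norm_neg]; linarith) (by simp)
    have h6 : ‖T‖ ≤ (1 + 3 / 2 / w) * ‖Y‖ := by
      have e : T = Y - s 0 • ((-c j, 1) : Sp r) := by rw [hY]; abel
      have := norm_sub_le Y (s 0 • ((-c j, 1) : Sp r))
      rw [← e, norm_smul, Real.norm_eq_abs] at this
      nlinarith [abs_nonneg (s 0)]
    have h7 : ‖fun i => s (Fin.succ i)‖ ≤ Λ * ((1 + 3 / 2 / w) * ‖Y‖) :=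
      (hs _).trans (mul_le_mul_of_nonneg_left h6 hΛ)
    have h8 : 0 ≤ 3 / 2 / w * ‖Y‖ := by positivity
    have h9 : 0 ≤ Λ * ((1 + 3 / 2 / w) * ‖Y‖) := by positivity
    rw [pi_norm_le_iff_of_nonneg (by positivity)]
    intro i
    refine Fin.cases ?_ (fun i => ?_) i
    · rw [Real.norm_eq_abs]; linarith
    · have := (norm_le_pi_norm (fun i => s (Fin.succ i)) i).trans h7
      linarith

end Greedy

theorem greedy : GREEDY := by
  intro r w _ hw
  obtain ⟨Λ, _, H⟩ := Greedy.step r w hw r le_rfl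
  refine ⟨Λ, fun ι S c hS hc => ?_⟩
  by_cases hn : ∃ (v : Eu r) (h : ℝ), ‖v‖ = 1 ∧ |h| ≤ 1 / 2 ∧ ∀ j ∈ S, |inner ℝ (c j) v - h| ≤ w
  · exact Or.inl hn
  · exact Or.inr (H ι S c hS hc hn)

end Pool.Agent.P.MP_7211b7_an
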