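import Pool.Agent.P.MP_7211b7_an.DefsA

/-!
# MP_7211b7_an: Hoelder plus Minkowski bounds by the decoupled quantity
-/

open MeasureTheory
open scoped ENNReal

namespace Pool.Agent.P.MP_7211b7_an

namespace Hold

theorem meas_pow {r : ℕ} {f : Sp r → ℂ} (hf : Continuous f) (p : ℝ) :
    Measurable (fun y => ‖f y‖ₑ ^ p) :=
  hf.measurable.enorm.pow_const p

theorem sq_rpow {X ι : Type} [MeasurableSpace X] {p : ℝ} (hp : 0 < p) (ν : Measure X)
    (J : Finset ι) (F : ι → X → ℂ) :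
    sq p ν J F ^ p = (∑ j ∈ J, (∫⁻ x, ‖F j x‖ₑ ^ p ∂ν) ^ (2 / p)) ^ (p / 2) := by
  unfold sq
  rw [← ENNReal.rpow_mul]
  congr 1
  · refine Finset.sum_congr rfl fun j _ => ?_
    rw [eLpNorm'_eq_lintegral_enorm, ← ENNReal.rpow_natCast, ← ENNReal.rpow_mul]
    congr 1
    push_cast
    field_simp
  · ring

theorem prod_const_rpow (r : ℕ) (c : ℝ≥0∞) (t : ℝ) (_ht : 0 ≤ t) :
    ∏ _i : Fin (r + 1), c ^ (t / (r + 1 : ℝ)) = c ^ t := by
  rw [Finset.prod_const, Finset.card_univ, Fintype.card_fin, ← ENNReal.rpow_natCast,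
    ← ENNReal.rpow_mul]
  congr 1
  push_cast
  field_simp

/-- the bound for one factor -/
theorem one_factor {r : ℕ} {ι : Type} {p : ℝ} (hp : 2 ≤ p) (ν : Measure (Sp r)) (J : Finset ι)
    (F : ι → Sp r → ℂ) (v : ι → Sp r → ℝ≥0∞) (hv : ∀ j ∈ J, Measurable (v j)) (c : ℝ≥0∞)
    (hc : ∀ j ∈ J, ∫⁻ x, v j x ∂ν ≤ c * ∫⁻ x, ‖F j x‖ₑ ^ p ∂ν) :
    ∫⁻ x, (∑ j ∈ J, v j x ^ (2 / p)) ^ (p / 2) ∂ν ≤ c * sq p ν J F ^ p := by
  have hp0 : 0 < p := by linarith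
  have h2 : (0 : ℝ) ≤ 2 / p := by positivity
  have h3 : (0 : ℝ) ≤ p / 2 := by positivity
  refine (mink ν hp J v hv).trans ?_
  rw [sq_rpow hp0]
  calc (∑ j ∈ J, (∫⁻ x, v j x ∂ν) ^ (2 / p)) ^ (p / 2)
      ≤ (∑ j ∈ J, (c * ∫⁻ x, ‖F j x‖ₑ ^ p ∂ν) ^ (2 / p)) ^ (p / 2) :=
        ENNReal.rpow_le_rpow
          (Finset.sum_le_sum fun j hj => ENNReal.rpow_le_rpow (hc j hj) h2) h3
    _ = (c ^ (2 / p) * ∑ j ∈ J, (∫⁻ x, ‖F j x‖ₑ ^ p ∂ν) ^ (2 / p)) ^ (p / 2) := by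
        rw [Finset.mul_sum]
        congr 1
        exact Finset.sum_congr rfl fun j _ => ENNReal.mul_rpow_of_nonneg _ _ h2
    _ = _ := by
        rw [ENNReal.mul_rpow_of_nonneg _ _ h3, ← ENNReal.rpow_mul]
        congr 1
        have : 2 / p * (p / 2) = 1 := by field_simp
        rw [this, ENNReal.rpow_one]

/-- the multilinear bound -/
theorem multi {r : ℕ} {ι : Type} {p : ℝ} (hp : 2 ≤ p) (ν : Measure (Sp r))
    (J : Fin (r + 1) → Finset ι) (F : Fin (r + 1) → ι → Sp r → ℂ)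
    (v : Fin (r + 1) → ι → Sp r → ℝ≥0∞) (hv : ∀ i, ∀ j ∈ J i, Measurable (v i j)) (c : ℝ≥0∞)
    (hc : ∀ i, ∀ j ∈ J i, ∫⁻ x, v i j x ∂ν ≤ c * ∫⁻ x, ‖F i j x‖ₑ ^ p ∂ν) :
    ∫⁻ x, ∏ i, (∑ j ∈ J i, v i j x ^ (2 / p)) ^ (p / (2 * (r + 1 : ℝ))) ∂ν ≤ c * DD p ν J F := by
  have hp0 : 0 < p := by linarith
  have hr : (0 : ℝ) < r + 1 := by positivity
  have hq : (0 : ℝ) ≤ 1 / (r + 1 : ℝ) := by positivity
  have hmeas : ∀ i ∈ (Finset.univ : Finset (Fin (r + 1))),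
      AEMeasurable (fun x => (∑ j ∈ J i, v i j x ^ (2 / p)) ^ (p / 2)) ν := fun i _ =>
    ((Finset.measurable_sum _ fun j hj => (hv i j hj).pow_const _).pow_const _).aemeasurable
  have hH := ENNReal.lintegral_prod_norm_pow_le (μ := ν) Finset.univ hmeas
    (p := fun _ => 1 / (r + 1 : ℝ))
    (by
      rw [Finset.sum_const, Finset.card_univ, Fintype.card_fin, nsmul_eq_mul]
      push_cast
      field_simp)
    (fun _ _ => hq)
  have e : ∀ z : ℝ≥0∞, (z ^ (p / 2)) ^ (1 / (r + 1 : ℝ)) = z ^ (p / (2 * (r + 1 : ℝ))) := by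
    intro z
    rw [← ENNReal.rpow_mul]
    congr 1
    field_simp
  simp only [e] at hH
  refine hH.trans ?_
  calc ∏ i, (∫⁻ x, (∑ j ∈ J i, v i j x ^ (2 / p)) ^ (p / 2) ∂ν) ^ (1 / (r + 1 : ℝ))
      ≤ ∏ i, (c * sq p ν (J i) (F i) ^ p) ^ (1 / (r + 1 : ℝ)) :=
        Finset.prod_le_prod' fun i _ =>
          ENNReal.rpow_le_rpow (one_factor hp ν (J i) (F i) (v i) (hv i) c (hc i)) hq
    _ = ∏ i, c ^ (1 / (r + 1 : ℝ)) * sq p ν (J i) (F i) ^ (p / (r + 1 : ℝ)) := by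
        refine Finset.prod_congr rfl fun i _ => ?_
        rw [ENNReal.mul_rpow_of_nonneg _ _ hq, ← ENNReal.rpow_mul]
        congr 2
        field_simp
    _ = c * DD p ν J F := by
        rw [Finset.prod_mul_distrib, prod_const_rpow r c 1 zero_le_one, ENNReal.rpow_one]
        rfl

end Hold

theorem hold : W2 → W8 → HOLD := by
  intro h2 h8 r a A p ha hp
  obtain ⟨C2, hC2, h2⟩ := h2 r a A ha
  obtain ⟨C8, hC8, h8⟩ := h8 r a (by omega)
  have hp0 : 0 < p := by linarith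
  have hr : (0 : ℝ) < r + 1 := by positivity
  have hpow : 0 ≤ C8 ^ (p / 2) := by positivity
  refine ⟨(1 + C8 ^ (p / 2)) * C2, by positivity, ?_⟩
  intro ι J F ν R s hR hs hsR hν hmod hF
  have hm : ∀ i, ∀ j ∈ J i, Measurable (fun y => ‖F i j y‖ₑ ^ p) := fun i j hj =>
    Hold.meas_pow (hF i j hj) p
  have key := Hold.multi hp ν J F (fun i j => av a R (fun y => ‖F i j y‖ₑ ^ p))
    (fun i j hj => measurable_av a R (hm i j hj)) (ENNReal.ofReal C2)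
    (fun i j hj => h2 R s ν _ hR hs hsR hν hmod (hm i j hj))
  constructor
  · refine key.trans (mul_le_mul_left (ENNReal.ofReal_le_ofReal ?_) _)
    nlinarith
  · have hq : (0 : ℝ) ≤ p / (2 * (r + 1 : ℝ)) := by positivity
    have hθ : ∀ i, ∀ j ∈ J i, ∀ x, av a R (fun y => ‖F i j y‖ₑ ^ (2 : ℝ)) x
        ≤ ENNReal.ofReal C8 * av a R (fun y => ‖F i j y‖ₑ ^ p) x ^ (2 / p) := by
      intro i j hj x
      have h := h8 R (2 / p) (fun y => ‖F i j y‖ₑ ^ p) x hR (by positivity)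
        (by rw [div_le_one hp0]; exact hp) (hm i j hj)
      have e : (fun y => (‖F i j y‖ₑ ^ p) ^ (2 / p)) = fun y => ‖F i j y‖ₑ ^ (2 : ℝ) := by
        funext y
        rw [← ENNReal.rpow_mul]
        congr 1
        field_simp
      rwa [e] at h
    have hpt : ∀ x, ∏ i, (∑ j ∈ J i, av a R (fun y => ‖F i j y‖ₑ ^ (2 : ℝ)) x)
          ^ (p / (2 * (r + 1 : ℝ)))
        ≤ ENNReal.ofReal C8 ^ (p / 2) *
          ∏ i, (∑ j ∈ J i, av a R (fun y => ‖F i j y‖ₑ ^ p) x ^ (2 / p))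
            ^ (p / (2 * (r + 1 : ℝ))) := by
      intro x
      rw [← Hold.prod_const_rpow r (ENNReal.ofReal C8) (p / 2) (by positivity),
        ← Finset.prod_mul_distrib]
      refine Finset.prod_le_prod' fun i _ => ?_
      have e : p / 2 / (r + 1 : ℝ) = p / (2 * (r + 1 : ℝ)) := by field_simp
      rw [e, ← ENNReal.mul_rpow_of_nonneg _ _ hq, Finset.mul_sum]
      exact ENNReal.rpow_le_rpow (Finset.sum_le_sum fun j hj => hθ i j hj x) hq
    unfold AA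
    refine (lintegral_mono hpt).trans ?_
    rw [lintegral_const_mul' _ _ (ENNReal.rpow_ne_top_of_nonneg (by positivity)
      ENNReal.ofReal_ne_top)]
    refine (mul_le_mul_right key _).trans ?_
    rw [← mul_assoc, ENNReal.ofReal_rpow_of_nonneg hC8.le (by positivity),
      ← ENNReal.ofReal_mul hpow]
    refine mul_le_mul_left (ENNReal.ofReal_le_ofReal ?_) _
    nlinarith

end Pool.Agent.P.MP_7211b7_an
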