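import Pool.Agent.P.MP_7211b7_an.DefsA

/-!
# The iteration of the multiscale step
-/

open MeasureTheory
open scoped ENNReal

namespace Pool.Agent.P.MP_7211b7_an

namespace Iter

theorem img_id {ι : Type} (J : Finset ι) : img J id = J := by
  ext k
  simp [mem_img]

theorem grp_id {X ι : Type} (J : Finset ι) (F : ι → X → ℂ) {k : ι} (hk : k ∈ J) :
    grp J id F k = F k := by
  classical
  unfold grp
  rw [Finset.sum_eq_single k]
  · intro j hj hjk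
    exact absurd (Finset.mem_filter.1 hj).2 hjk
  · intro h
    exact (h (by simpa using hk)).elim

theorem AA_id {r : ℕ} {ι : Type} (p : ℝ) (a : ℕ) (R : ℝ) (ν : Measure (Sp r))
    (J : Fin (r + 1) → Finset ι) (F : Fin (r + 1) → ι → Sp r → ℂ) :
    AA p a R ν (fun i => img (J i) id) (fun i => grp (J i) id (F i)) = AA p a R ν J F := by
  unfold AA
  refine lintegral_congr fun x => Finset.prod_congr rfl fun i _ => ?_
  congr 1
  simp only [img_id]
  refine Finset.sum_congr rfl fun j hj => ?_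
  rw [grp_id _ _ hj]

theorem img_subset {r : ℕ} {ι : Type} {ρ σ : ℝ} {J : Finset ι} {c : ι → Eu r} {g : ι → ι}
    (hg : Grouping ρ σ J c g) : img J g ⊆ J := by
  intro k hk
  obtain ⟨j, hj, rfl⟩ := mem_img.1 hk
  exact hg.maps j hj

theorem DD_le {r : ℕ} {ι : Type} {p : ℝ} (hp : 0 < p) (ν : Measure (Sp r))
    (J J' : Fin (r + 1) → Finset ι) (F F' : Fin (r + 1) → ι → Sp r → ℂ) {D : ℝ} (hD : 0 ≤ D)
    (h : ∀ i, sq p ν (J' i) (F' i) ≤ ENNReal.ofReal D * sq p ν (J i) (F i)) :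
    DD p ν J' F' ≤ ENNReal.ofReal (D ^ p) * DD p ν J F := by
  have hq : 0 ≤ p / (r + 1 : ℝ) := by positivity
  unfold DD
  calc ∏ i, sq p ν (J' i) (F' i) ^ (p / (r + 1 : ℝ))
      ≤ ∏ i : Fin (r + 1), (ENNReal.ofReal D * sq p ν (J i) (F i)) ^ (p / (r + 1 : ℝ)) :=
        Finset.prod_le_prod' fun i _ => ENNReal.rpow_le_rpow (h i) hq
    _ = _ := by
        simp only [ENNReal.mul_rpow_of_nonneg _ _ hq]
        rw [Finset.prod_mul_distrib, Finset.prod_const, Finset.card_univ, Fintype.card_fin,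
          ← ENNReal.rpow_natCast, ← ENNReal.rpow_mul, ENNReal.ofReal_rpow_of_nonneg hD (by positivity)]
        congr 3
        push_cast
        field_simp

theorem combine {a x y : ℝ} (ha : 0 ≤ a) (hx : 0 ≤ x) (hy : 0 ≤ y) {u v d : ℝ≥0∞}
    (hu : u ≤ ENNReal.ofReal x * d) (hv : v ≤ ENNReal.ofReal y * d) :
    ENNReal.ofReal a * u ^ (1 / 2 : ℝ) * v ^ (1 / 2 : ℝ) ≤
      ENNReal.ofReal (a * x ^ (1 / 2 : ℝ) * y ^ (1 / 2 : ℝ)) * d := by
  have h2 : (0 : ℝ) ≤ 1 / 2 := by norm_num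
  calc ENNReal.ofReal a * u ^ (1 / 2 : ℝ) * v ^ (1 / 2 : ℝ)
      ≤ ENNReal.ofReal a * (ENNReal.ofReal x * d) ^ (1 / 2 : ℝ) *
          (ENNReal.ofReal y * d) ^ (1 / 2 : ℝ) := by
        gcongr
    _ = ENNReal.ofReal a * ENNReal.ofReal x ^ (1 / 2 : ℝ) * ENNReal.ofReal y ^ (1 / 2 : ℝ) *
          (d ^ (1 / 2 : ℝ) * d ^ (1 / 2 : ℝ)) := by
        rw [ENNReal.mul_rpow_of_nonneg _ _ h2, ENNReal.mul_rpow_of_nonneg _ _ h2]
        ring
    _ = _ := by
        rw [← ENNReal.rpow_add_of_nonneg _ _ h2 h2, ENNReal.ofReal_rpow_of_nonneg hx h2,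
          ENNReal.ofReal_rpow_of_nonneg hy h2, ← ENNReal.ofReal_mul ha,
          ← ENNReal.ofReal_mul (by positivity)]
        norm_num

theorem expo {C2 C' CD ρ σ ε η p : ℝ} (m : ℕ) (h' : 0 < C') (hD : 0 < CD) (hρ : 0 < ρ)
    (hσ : 0 < σ) :
    C2 * ρ ^ (-ε) *
        (C' * (ρ ^ 2) ^ (-(m * ε)) * σ ^ (-(η * p)) * (ρ ^ 2) ^ (η * p * (1 + m / 2))) ^ (1 / 2 : ℝ) *
        ((CD * (σ / (2 * ρ)) ^ (-η)) ^ p) ^ (1 / 2 : ℝ) =
      C2 * (C' ^ (1 / 2 : ℝ) * CD ^ (p / 2) * 2 ^ (η * p / 2)) * ρ ^ (-(((m + 1 : ℕ) : ℝ) * ε)) *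
        σ ^ (-(η * p)) * ρ ^ (η * p * (1 + ((m + 1 : ℕ) : ℝ) / 2)) := by
  obtain ⟨l, rfl⟩ : ∃ l, ρ = Real.exp l := ⟨_, (Real.exp_log hρ).symm⟩
  obtain ⟨t, rfl⟩ : ∃ t, σ = Real.exp t := ⟨_, (Real.exp_log hσ).symm⟩
  obtain ⟨c, rfl⟩ : ∃ c, C' = Real.exp c := ⟨_, (Real.exp_log h').symm⟩
  obtain ⟨d, rfl⟩ : ∃ d, CD = Real.exp d := ⟨_, (Real.exp_log hD).symm⟩
  obtain ⟨w, hw⟩ : ∃ w, (2 : ℝ) = Real.exp w := ⟨_, (Real.exp_log two_pos).symm⟩
  have e1 : Real.exp l ^ 2 = Real.exp (2 * l) := by rw [← Real.exp_nat_mul]; norm_num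
  have e2 : Real.exp t / (2 * Real.exp l) = Real.exp (t - (w + l)) := by
    rw [Real.exp_sub, Real.exp_add, ← hw]
  have e3 : (2 : ℝ) ^ (η * p / 2) = Real.exp (w * (η * p / 2)) := by
    rw [Real.exp_mul, ← hw]
  rw [e1, e2, e3]
  simp only [← Real.exp_mul, ← Real.exp_add, mul_assoc]
  congr 2
  push_cast
  ring

end Iter

open Iter in
theorem iter : GROUP → HOLD → STEP2 → RESC → ITER := by
  intro hG hH hS hR r a A m p Λ ε hr ha hp hrp hε
  obtain ⟨κ0, C2, hκ0, hC2, hS⟩ := hS r a A p Λ ε hr ha hp hrp hε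
  refine ⟨κ0, hκ0, fun η hη ⟨CD, hCD, hDec⟩ => ?_⟩
  have hp0 : 0 < p := by linarith
  induction m with
  | zero =>
    obtain ⟨C, hC, hH⟩ := hH r a A p ha hp.le
    refine ⟨C, hC, fun ι c0 J c F ν ρ σ _ _ hρ hρ4 hσ hν hM hF _ => ?_⟩
    have hσρ : σ = ρ := by simpa using hσ
    subst hσρ
    refine ⟨fun _ => id, fun i => ⟨fun j hj => hj, fun j _ => by simp,
      fun j hj k hk hjk => (hF i).sep j hj k hk hjk⟩, ?_⟩
    rw [AA_id]
    have h1 : σ ^ 2 * σ⁻¹ ≤ 1 := by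
      rw [pow_two, mul_assoc, mul_inv_cancel₀ hρ.ne']
      linarith
    refine (hH ι J F ν σ⁻¹ (σ ^ 2) (by positivity) (by positivity) h1 hν hM
      fun i j hj => (hF i).continuous hj).2.trans_eq ?_
    congr 2
    rw [mul_assoc, ← Real.rpow_add hρ]
    simp
  | succ m ih =>
    obtain ⟨C', hC', ih⟩ := ih
    refine ⟨C2 * (C' ^ (1 / 2 : ℝ) * CD ^ (p / 2) * 2 ^ (η * p / 2)), by positivity,
      fun ι c0 J c F ν ρ σ hT hc0 hρ hρ4 hσ hν hM hF hκ => ?_⟩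
    have hσ0 : 0 < σ := by rw [hσ]; positivity
    have hσ' : σ = (ρ ^ 2) ^ (2 ^ m) := by rw [hσ, ← pow_mul, pow_succ']
    have hρ2 : ρ ^ 2 ≤ ρ / 4 := by nlinarith
    have hσρ : σ ≤ ρ := by
      rw [hσ]
      exact pow_le_of_le_one hρ.le (by linarith) (by positivity)
    obtain ⟨g', hg', hA⟩ := ih ι c0 J c F ν (ρ ^ 2) σ hT hc0 (by positivity) (by linarith) hσ' hν
      hM hF hκ
    choose h h1 h2 h3 using fun i => hG r ι (img (J i) (g' i)) (c i) (ρ / 2) (by positivity)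
    have hh : ∀ i, Grouping ρ (ρ ^ 2) (img (J i) (g' i)) (c i) (h i) := fun i =>
      ⟨h1 i, fun j hj => by linarith [h2 i j hj], h3 i⟩
    have hm : ∀ i, ∀ j ∈ J i, g' i j ∈ img (J i) (g' i) := fun i j hj => mem_img.2 ⟨j, hj, rfl⟩
    have hg : ∀ i, Grouping ρ σ (J i) (c i) (h i ∘ g' i) := fun i => by
      refine ⟨fun j hj => img_subset (hg' i) (h1 i _ (hm i j hj)), fun j hj => ?_,
        fun j hj k hk hjk => h3 i _ (hm i j hj) _ (hm i k hk) hjk⟩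
      have e1 := (hg' i).near j hj
      have e2 := h2 i _ (hm i j hj)
      have e3 : ‖c i j - c i (h i (g' i j))‖ ≤
          ‖c i j - c i (g' i j)‖ + ‖c i (g' i j) - c i (h i (g' i j))‖ :=
        norm_sub_le_norm_sub_add_norm_sub _ _ _
      change ‖c i j - c i (h i (g' i j))‖ + σ ≤ ρ
      linarith
    refine ⟨fun i => h i ∘ g' i, hg, ?_⟩
    have key := hS ι c0 (fun i => img (J i) (g' i)) c (fun i => grp (J i) (g' i) (F i)) h ν ρ
      (σ ^ 2) hT hc0 hρ (by linarith) (by positivity) (pow_le_pow_left₀ hσ0.le hσρ 2) hν hM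
      (fun i => (hF i).group (hg' i) hσ0.le) (fun i j hj => hκ i j (img_subset (hg' i) hj)) hh
    simp only [img_comp, grp_comp] at key
    have hq : 0 < σ / (2 * ρ) := by positivity
    have hq1 : σ / (2 * ρ) ≤ 1 := by
      rw [div_le_one (by positivity)]
      linarith
    have hDD := DD_le hp0 ν J (fun i => img (J i) (h i ∘ g' i)) F
      (fun i => grp (J i) (h i ∘ g' i) (F i)) (D := CD * (σ / (2 * ρ)) ^ (-η)) (by positivity)
      fun i => hR r p A σ (2 * ρ) _ (by linarith) hσ0 (by positivity) (by linarith)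
        (hDec _ hq hq1) ι (J i) (c i) (F i) (h i ∘ g' i) ν hν hM (hF i) fun j hj =>
          ⟨(hg i).maps j hj, by linarith [(hg i).near j hj]⟩
    refine key.trans ((combine (by positivity) (by positivity) (by positivity) hA hDD).trans_eq ?_)
    rw [expo m hC' hCD hρ hσ0]

end Pool.Agent.P.MP_7211b7_an
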