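import Pool.Agent.P.MP_7211b7_an.DefsA

/-! One step of the induction on scales for the multilinear Kakeya inequality. -/

open MeasureTheory Metric
open scoped ENNReal

namespace Pool.Agent.P.MP_7211b7_an

namespace KakStep

theorem inv_pow_le {x y K : ℝ} (n : ℕ) (hx : 0 < x) (hy : 0 < y) (h : y ≤ K * x) :
    (x ^ n)⁻¹ ≤ K ^ n * (y ^ n)⁻¹ := by
  rw [← div_eq_mul_inv, le_div_iff₀ (by positivity), inv_mul_le_iff₀ (by positivity), ← mul_pow,
    mul_comm]
  exact pow_le_pow_left₀ hy.le h n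

theorem prof_shift {r : ℕ} {W : ℝ} (hW : 0 < W) (a e : Eu r) (he : ‖e‖ ≤ W) :
    prof W (a + e) ≤ ENNReal.ofReal (2 ^ (r + 1)) * prof W a := by
  unfold prof
  rw [← ENNReal.ofReal_mul (by positivity)]
  refine ENNReal.ofReal_le_ofReal (inv_pow_le _ (by positivity) (by positivity) ?_)
  have h1 : ‖a‖ ≤ ‖a + e‖ + W := by
    have := norm_sub_le (a + e) e
    rw [add_sub_cancel_right] at this
    linarith
  have h2 : ‖a‖ / W ≤ ‖a + e‖ / W + 1 := by
    rw [div_add_one hW.ne']
    exact div_le_div_of_nonneg_right h1 hW.le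
  have h3 : 0 ≤ ‖a + e‖ / W := by positivity
  linarith

theorem prof_pt {r : ℕ} {W δ : ℝ} (hW : 0 < W) (hδ : 0 < δ) (hδ1 : δ ≤ 1) (v b : Eu r)
    (hv : ‖v‖ ≤ 2 * (W / δ)) :
    prof W (v + b) ≤ ENNReal.ofReal (5 ^ (r + 1)) * prof (W / δ) b *
      (prof W (v + b) + ENNReal.ofReal (δ ^ r)) := by
  unfold prof
  rw [← ENNReal.ofReal_mul (by positivity), ← ENNReal.ofReal_add (by positivity) (by positivity),
    ← ENNReal.ofReal_mul (by positivity)]
  refine ENNReal.ofReal_le_ofReal ?_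
  have hW' : 0 < W / δ := by positivity
  rcases le_total ‖b‖ (4 * (W / δ)) with h | h
  · have h1 : (1 : ℝ) ≤ 5 ^ (r + 1) * ((1 + ‖b‖ / (W / δ)) ^ (r + 1))⁻¹ := by
      have h2 : ‖b‖ / (W / δ) ≤ 4 := by rwa [div_le_iff₀ hW']
      have := inv_pow_le (x := 1) (y := 1 + ‖b‖ / (W / δ)) (K := 5) (r + 1) one_pos
        (by positivity) (by linarith)
      simpa using this
    calc _ ≤ ((1 + ‖v + b‖ / W) ^ (r + 1))⁻¹ + δ ^ r := le_add_of_nonneg_right (by positivity)
      _ ≤ _ := le_mul_of_one_le_left (by positivity) h1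
  · have h1 : ‖b‖ ≤ 2 * ‖v + b‖ := by
      have := norm_sub_le (v + b) v
      rw [add_sub_cancel_left] at this
      linarith
    have h2 : 4 ≤ ‖b‖ / (W / δ) := by rwa [le_div_iff₀ hW']
    have h3 : ‖b‖ / (W / δ) ≤ 2 * δ * (‖v + b‖ / W) := by
      rw [div_div_eq_mul_div, ← mul_div_assoc]
      refine div_le_div_of_nonneg_right ?_ hW.le
      nlinarith
    have h4 : 0 ≤ ‖v + b‖ / W := by positivity
    have h5 := inv_pow_le (x := 1 + ‖v + b‖ / W) (y := 1 + ‖b‖ / (W / δ)) (K := 5 * δ) (r + 1)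
      (by positivity) (by positivity) (by nlinarith)
    refine h5.trans ?_
    have h6 : δ ^ (r + 1) ≤ ((1 + ‖v + b‖ / W) ^ (r + 1))⁻¹ + δ ^ r := by
      have : δ ^ (r + 1) ≤ δ ^ r := pow_le_pow_of_le_one hδ.le hδ1 (Nat.le_succ r)
      exact this.trans (le_add_of_nonneg_left (by positivity))
    rw [mul_pow, mul_right_comm]
    exact mul_le_mul_of_nonneg_left h6 (by positivity)

theorem prof_int (r : ℕ) : ∃ I : ℝ, 0 < I ∧ ∀ (W : ℝ) (b : Eu r), 0 < W →
    ∫⁻ v, prof W (v + b) ≤ ENNReal.ofReal (I * W ^ r) := by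
  have h := finite_integral_one_add_norm (E := Eu r) (μ := volume) (r := (r + 1 : ℕ)) (by simp)
  refine ⟨(∫⁻ v : Eu r, prof 1 v).toReal + 1, by positivity, fun W b hW => ?_⟩
  have h1 : ∫⁻ v : Eu r, prof 1 v ≠ ∞ := by
    refine ne_of_lt (lt_of_eq_of_lt (lintegral_congr fun v => ?_) h)
    unfold prof
    rw [div_one, Real.rpow_neg (by positivity), Real.rpow_natCast]
  rw [lintegral_add_right_eq_self (prof W) b]
  have h2 : ∫⁻ v : Eu r, prof W v = ∫⁻ v : Eu r, prof 1 (W⁻¹ • v) := by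
    refine lintegral_congr fun v => ?_
    unfold prof
    rw [norm_smul, norm_inv, Real.norm_of_nonneg hW.le, div_one, inv_mul_eq_div]
  rw [h2, ← lintegral_map (measurable_prof 1) (measurable_const_smul W⁻¹),
    Measure.map_addHaar_smul _ (inv_ne_zero hW.ne'), lintegral_smul_measure, smul_eq_mul,
    mul_comm, ENNReal.ofReal_mul (by positivity)]
  refine mul_le_mul' ?_ (le_of_eq ?_)
  · rw [ENNReal.ofReal_add (by positivity) zero_le_one, ENNReal.ofReal_toReal h1]
    exact le_self_add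
  · simp [abs_of_pos hW]

theorem prof_conv (r : ℕ) : ∃ C : ℝ, 0 < C ∧ ∀ (W δ : ℝ) (b : Eu r), 0 < W → 0 < δ → δ ≤ 1 →
    ∫⁻ v in closedBall (0 : Eu r) (2 * (W / δ)), prof W (v + b) ≤
      ENNReal.ofReal (C * W ^ r) * prof (W / δ) b := by
  obtain ⟨I, hI, h⟩ := prof_int r
  set ω : ℝ := (volume (ball (0 : Eu r) 1)).toReal with hω
  have hω0 : 0 ≤ ω := ENNReal.toReal_nonneg
  refine ⟨5 ^ (r + 1) * (I + 2 ^ r * ω), by positivity, fun W δ b hW hδ hδ1 => ?_⟩
  have hm : Measurable fun v : Eu r => prof W (v + b) :=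
    (measurable_prof W).comp (measurable_add_const b)
  calc _ ≤ ∫⁻ v in closedBall (0 : Eu r) (2 * (W / δ)), ENNReal.ofReal (5 ^ (r + 1)) *
        prof (W / δ) b * (prof W (v + b) + ENNReal.ofReal (δ ^ r)) :=
        setLIntegral_mono' measurableSet_closedBall fun v hv =>
          prof_pt hW hδ hδ1 v b (mem_closedBall_zero_iff.1 hv)
    _ = ENNReal.ofReal (5 ^ (r + 1)) * prof (W / δ) b *
        ((∫⁻ v in closedBall (0 : Eu r) (2 * (W / δ)), prof W (v + b)) +
          ENNReal.ofReal (δ ^ r) * volume (closedBall (0 : Eu r) (2 * (W / δ)))) := by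
        rw [lintegral_const_mul _ (hm.add_const _), lintegral_add_left hm, setLIntegral_const]
    _ ≤ ENNReal.ofReal (5 ^ (r + 1)) * prof (W / δ) b *
        (ENNReal.ofReal (I * W ^ r) + ENNReal.ofReal (2 ^ r * ω * W ^ r)) := by
        refine mul_le_mul' le_rfl (add_le_add
          ((setLIntegral_le_lintegral _ _).trans (h W b hW)) (le_of_eq ?_))
        rw [Measure.addHaar_closedBall _ _ (by positivity),
          ← ENNReal.ofReal_toReal (measure_ball_lt_top (x := (0 : Eu r)) (r := 1)).ne, ← hω,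
          ← ENNReal.ofReal_mul (by positivity), ← ENNReal.ofReal_mul (by positivity)]
        congr 1
        rw [finrank_euclideanSpace_fin, mul_pow, div_pow]
        field_simp
    _ = _ := by
        rw [← ENNReal.ofReal_add (by positivity) (by positivity), mul_right_comm,
          ← ENNReal.ofReal_mul (by positivity)]
        congr 2
        ring

theorem meas_sum {r : ℕ} {ι X : Type} [MeasurableSpace X] (W : ℝ) (J : Finset ι)
    (μ : ι → Measure (Eu r)) [∀ j, IsFiniteMeasure (μ j)] (f : ι → X → Eu r)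
    (hf : ∀ j, Measurable (f j)) :
    Measurable fun x => ∑ j ∈ J, ∫⁻ ζ, prof W (f j x - ζ) ∂(μ j) :=
  Finset.measurable_sum _ fun j _ =>
    Measurable.lintegral_prod_right' (f := fun z : X × Eu r => prof W (f j z.1 - z.2))
      ((measurable_prof W).comp (((hf j).comp measurable_fst).sub measurable_snd))

theorem meas_kT {r : ℕ} {ι : Type} (W : ℝ) (J : Finset ι) (dir : ι → Eu r)
    (μ : ι → Measure (Eu r)) [∀ j, IsFiniteMeasure (μ j)] : Measurable (kT W J dir μ) :=
  meas_sum W J μ (fun j (x : Sp r) => x.1 + x.2 • dir j) fun j => by fun_prop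

theorem haar (r : ℕ) : (volume : Measure (Sp r)).IsAddHaarMeasure :=
  inferInstanceAs ((volume : Measure (Eu r)).prod (volume : Measure ℝ)).IsAddHaarMeasure

/-- averaging over translates -/
theorem avg {r : ℕ} (h : Sp r → ℝ≥0∞) (hh : Measurable h) (R T : ℝ) :
    volume (closedBall (0 : Sp r) T) * ∫⁻ x in closedBall (0 : Sp r) R, h x ≤
      ∫⁻ x in closedBall (0 : Sp r) (R + T), ∫⁻ y in closedBall (0 : Sp r) T, h (x + y) := by
  have := haar r
  rw [lintegral_lintegral_swap (f := fun x y => h (x + y))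
    (hh.comp (measurable_fst.add measurable_snd)).aemeasurable, mul_comm, ← setLIntegral_const]
  refine setLIntegral_mono' measurableSet_closedBall fun y hy => ?_
  rw [← lintegral_indicator measurableSet_closedBall, ← lintegral_indicator measurableSet_closedBall,
    ← lintegral_add_right_eq_self _ y]
  refine lintegral_mono fun x => ?_
  by_cases hx : x + y ∈ closedBall (0 : Sp r) R
  · have h1 : x ∈ closedBall (0 : Sp r) (R + T) := by
      rw [mem_closedBall_zero_iff] at hx hy ⊢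
      have := norm_sub_le (x + y) y
      rw [add_sub_cancel_right] at this
      linarith
    rw [Set.indicator_of_mem hx, Set.indicator_of_mem h1]
  · rw [Set.indicator_of_notMem hx]
    exact zero_le

/-- the single factor: a majorant depending on one projection only -/
theorem factor (r : ℕ) : ∃ C : ℝ, 0 < C ∧ ∀ (ι : Type) (c : Eu r) (J : Finset ι) (dir : ι → Eu r)
    (μ : ι → Measure (Eu r)) (δ W : ℝ) (x : Sp r), ‖c‖ ≤ 1 / 2 → 0 < δ → δ ≤ 1 / 2 → 0 < W →
    (∀ j ∈ J, ‖dir j - c‖ ≤ δ) → (∀ j, IsFiniteMeasure (μ j)) →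
    ∃ G : Eu r → ℝ≥0∞, Measurable G ∧
      (∀ y : Sp r, ‖y‖ ≤ W / δ → kT W J dir μ (x + y) ≤ G (y.1 + y.2 • c)) ∧
      ∫⁻ v, G v ≤ ENNReal.ofReal (C * W ^ r) * kT (W / δ) J dir μ x := by
  obtain ⟨C, hC, h⟩ := prof_conv r
  refine ⟨2 ^ (r + 1) * C, by positivity, fun ι c J dir μ δ W x hc hδ hδ2 hW hd hμ => ?_⟩
  have hm := meas_sum W J μ (fun j (v : Eu r) => v + (x.1 + x.2 • dir j)) fun j => by fun_prop
  refine ⟨(closedBall (0 : Eu r) (2 * (W / δ))).indicator fun v => ENNReal.ofReal (2 ^ (r + 1)) *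
    ∑ j ∈ J, ∫⁻ ζ, prof W (v + (x.1 + x.2 • dir j) - ζ) ∂(μ j),
    (hm.const_mul _).indicator measurableSet_closedBall, fun y hy => ?_, ?_⟩
  · have h1 : ‖y.1‖ ≤ W / δ := (norm_fst_le y).trans hy
    have h2 : ‖y.2‖ ≤ W / δ := (norm_snd_le y).trans hy
    have h3 : y.1 + y.2 • c ∈ closedBall (0 : Eu r) (2 * (W / δ)) := by
      rw [mem_closedBall_zero_iff]
      refine (norm_add_le _ _).trans ?_
      rw [norm_smul]
      nlinarith [norm_nonneg y.2, norm_nonneg c]
    rw [Set.indicator_of_mem h3, Finset.mul_sum]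
    refine Finset.sum_le_sum fun j hj => ?_
    rw [← lintegral_const_mul' _ _ ENNReal.ofReal_ne_top]
    refine lintegral_mono fun ζ => ?_
    have h4 : (x + y).1 + (x + y).2 • dir j - ζ =
        (y.1 + y.2 • c + (x.1 + x.2 • dir j) - ζ) + y.2 • (dir j - c) := by
      simp only [Prod.fst_add, Prod.snd_add, add_smul, smul_sub]; abel
    rw [h4]
    refine prof_shift hW _ _ ?_
    rw [norm_smul]
    calc _ ≤ W / δ * δ := mul_le_mul h2 (hd j hj) (norm_nonneg _) (by positivity)
      _ = W := by field_simp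
  · rw [lintegral_indicator measurableSet_closedBall, lintegral_const_mul _ hm, mul_assoc,
      ENNReal.ofReal_mul (by positivity), mul_assoc]
    refine mul_le_mul' le_rfl ?_
    have hj : ∀ j, Measurable fun z : Eu r × Eu r => prof W (z.1 + (x.1 + x.2 • dir j) - z.2) :=
      fun j => (measurable_prof W).comp (by fun_prop)
    rw [lintegral_finsetSum _ fun j _ => (hj j).lintegral_prod_right', kT, Finset.mul_sum]
    refine Finset.sum_le_sum fun j _ => ?_
    rw [lintegral_lintegral_swap (f := fun v ζ => prof W (v + (x.1 + x.2 • dir j) - ζ))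
      (hj j).aemeasurable, ← lintegral_const_mul' _ _ ENNReal.ofReal_ne_top]
    refine lintegral_mono fun ζ => ?_
    simp only [add_sub_assoc _ (x.1 + x.2 • dir j)]
    exact h W δ _ hW hδ (by linarith)

end KakStep

open KakStep

theorem kakstep : LW → KAKSTEP := by
  intro hLW r Λ hr
  have := haar r
  obtain ⟨C1, hC1, h1⟩ := hLW r Λ hr
  obtain ⟨C2, hC2, h2⟩ := factor r
  set ω : ℝ := (volume (ball (0 : Sp r) 1)).toReal with hω
  have hω0 : 0 < ω := ENNReal.toReal_pos (measure_ball_pos _ _ one_pos).ne' measure_ball_lt_top.ne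
  have hr0 : (0 : ℝ) ≤ 1 / (r : ℝ) := by positivity
  refine ⟨C1 * (C2 ^ (1 / (r : ℝ))) ^ (r + 1) / ω, by positivity,
    fun ι c J dir μ δ W R hT hc hδ hδ2 hW hR hd hμ => ?_⟩
  have hm : ∀ W : ℝ, Measurable fun x => ∏ i, kT W (J i) (dir i) (μ i) x ^ (1 / (r : ℝ)) :=
    fun W => Finset.measurable_prod _ fun i _ => (meas_kT W _ _ _).pow_const _
  have h3 : ∀ x : Sp r, ∫⁻ y in closedBall (0 : Sp r) (W / δ),
      ∏ i, kT W (J i) (dir i) (μ i) (x + y) ^ (1 / (r : ℝ)) ≤
      ENNReal.ofReal (C1 * (C2 ^ (1 / (r : ℝ)) * W) ^ (r + 1)) *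
        ∏ i, kT (W / δ) (J i) (dir i) (μ i) x ^ (1 / (r : ℝ)) := by
    intro x
    choose G hG hG1 hG2 using fun i =>
      h2 ι (c i) (J i) (dir i) (μ i) δ W x (hc i) hδ hδ2 hW (hd i) (hμ i)
    calc _ ≤ ∫⁻ y in closedBall (0 : Sp r) (W / δ), ∏ i, G i (y.1 + y.2 • c i) ^ (1 / (r : ℝ)) :=
          setLIntegral_mono' measurableSet_closedBall fun y hy => Finset.prod_le_prod' fun i _ =>
            ENNReal.rpow_le_rpow (hG1 i y (mem_closedBall_zero_iff.1 hy)) hr0
      _ ≤ ENNReal.ofReal C1 * ∏ i, (∫⁻ v, G i v) ^ (1 / (r : ℝ)) :=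
          (setLIntegral_le_lintegral _ _).trans (h1 c hT G hG)
      _ ≤ ENNReal.ofReal C1 * ∏ i, (ENNReal.ofReal (C2 ^ (1 / (r : ℝ)) * W) *
            kT (W / δ) (J i) (dir i) (μ i) x ^ (1 / (r : ℝ))) := by
          refine mul_le_mul' le_rfl (Finset.prod_le_prod' fun i _ =>
            (ENNReal.rpow_le_rpow (hG2 i) hr0).trans (le_of_eq ?_))
          rw [ENNReal.mul_rpow_of_nonneg _ _ hr0, ENNReal.ofReal_rpow_of_nonneg (by positivity) hr0,
            Real.mul_rpow hC2.le (by positivity), one_div,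
            Real.pow_rpow_inv_natCast hW.le (by omega)]
      _ = _ := by
          rw [Finset.prod_mul_distrib, Finset.prod_const, Finset.card_univ, Fintype.card_fin,
            ← ENNReal.ofReal_pow (by positivity), ← mul_assoc, ← ENNReal.ofReal_mul hC1.le]
  have h4 := (avg _ (hm W) R (W / δ)).trans (lintegral_mono h3)
  have h5 : volume (closedBall (0 : Sp r) (W / δ)) = ENNReal.ofReal ((W / δ) ^ (r + 1) * ω) := by
    rw [Measure.addHaar_closedBall _ _ (by positivity), ENNReal.ofReal_mul (by positivity), hω,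
      ENNReal.ofReal_toReal measure_ball_lt_top.ne]
    simp
  rw [lintegral_const_mul _ (hm _), h5] at h4
  have h6 : ENNReal.ofReal ((W / δ) ^ (r + 1) * ω) ≠ 0 := by
    rw [Ne, ENNReal.ofReal_eq_zero, not_le]; positivity
  rw [← ENNReal.mul_le_mul_iff_right h6 ENNReal.ofReal_ne_top]
  refine h4.trans (le_of_eq ?_)
  rw [← mul_assoc, ← ENNReal.ofReal_mul (by positivity)]
  congr 2
  rw [mul_pow, div_pow]
  field_simp

end Pool.Agent.P.MP_7211b7_an
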