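import Pool.Agent.P.MP_7211b7_an.DefsA

/-! Band limited kernels built from a smooth bump function. -/

open MeasureTheory SchwartzMap FourierTransform Real
open scoped ContDiff

namespace Pool.Agent.P.MP_7211b7_an

namespace Ker

variable {V : Type} [NormedAddCommGroup V] [InnerProductSpace ℝ V] [FiniteDimensional ℝ V]

/-- a bump function as a complex Schwartz function -/
noncomputable def sb (b : ContDiffBump (0 : V)) : 𝓢(V, ℂ) :=
  HasCompactSupport.toSchwartzMap (f := fun x => ((b x : ℝ) : ℂ))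
    (b.hasCompactSupport.comp_left (g := Complex.ofReal) Complex.ofReal_zero)
    (Complex.ofRealCLM.contDiff.comp b.contDiff)

lemma sb_apply (b : ContDiffBump (0 : V)) (x : V) : sb b x = b x := rfl

omit [FiniteDimensional ℝ V] in
lemma dec0 (f : 𝓢(V, ℂ)) (a : ℕ) : ∃ C : ℝ, 0 ≤ C ∧ ∀ y, ‖f y‖ ≤ C * ((1 + ‖y‖) ^ a)⁻¹ := by
  refine ⟨2 ^ a * (Finset.Iic (a, 0)).sup (fun m => SchwartzMap.seminorm ℂ m.1 m.2) f,
    by positivity, fun y => ?_⟩
  have h := one_add_le_sup_seminorm_apply (𝕜 := ℂ) (m := (a, 0)) (k := a) (n := 0) le_rfl le_rfl f y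
  rw [norm_iteratedFDeriv_zero] at h
  rw [← div_eq_mul_inv, le_div_iff₀ (by positivity), mul_comm]
  exact h

variable [MeasurableSpace V] [BorelSpace V]

omit [FiniteDimensional ℝ V] [MeasurableSpace V] [BorelSpace V] in
lemma phase (ξ y : V) : ((2 * π * inner ℝ y ((2 * π)⁻¹ • ξ) : ℝ) : ℂ) * Complex.I =
    Complex.I * ((inner ℝ ξ y : ℝ) : ℂ) := by
  rw [real_inner_smul_right, real_inner_comm, ← mul_assoc, mul_inv_cancel₀ (by positivity), one_mul,
    mul_comm]

omit [FiniteDimensional ℝ V] [MeasurableSpace V] [BorelSpace V] in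
lemma norm_w (ξ : V) : ‖(2 * π)⁻¹ • ξ‖ = ‖ξ‖ / (2 * π) := by
  rw [norm_smul, Real.norm_of_nonneg (by positivity), div_eq_inv_mul]

lemma lower (b : ContDiffBump (0 : V)) (hb : b.rOut ≤ 1 / 16) {y : V} (hy : ‖y‖ ≤ 1) :
    (∫ x, b x) / 2 ≤ ‖𝓕 (sb b) y‖ := by
  have hi : Integrable (fun x => ((b x : ℝ) : ℂ)) := (sb b).integrable
  have h1 : 𝓕 (sb b) y - ((∫ x, b x : ℝ) : ℂ) =
      ∫ v, (Complex.exp (((-2 * π * inner ℝ v y : ℝ) : ℂ) * Complex.I) • (b v : ℂ) - b v) := by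
    rw [integral_sub ?_ hi, fourier_coe, Real.fourier_eq', integral_complex_ofReal]
    · rfl
    · refine hi.bdd_mul (c := 1) (by fun_prop) (Filter.Eventually.of_forall fun v => ?_)
      rw [Complex.norm_exp_ofReal_mul_I]
  have h2 : ‖𝓕 (sb b) y - ((∫ x, b x : ℝ) : ℂ)‖ ≤ ∫ x, b x / 2 := by
    rw [h1]
    refine norm_integral_le_of_norm_le (b.integrable.div_const 2)
      (Filter.Eventually.of_forall fun v => ?_)
    rw [smul_eq_mul, ← sub_one_mul, norm_mul, Complex.norm_real, Real.norm_of_nonneg b.nonneg]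
    rcases le_or_gt b.rOut (dist v 0) with h | h
    · simp [b.zero_of_le_dist h]
    · rw [dist_zero_right] at h
      have h3 := Real.norm_exp_I_mul_ofReal_sub_one_le (x := -2 * π * inner ℝ v y)
      have h4 : |inner ℝ v y| ≤ 1 / 16 := (abs_real_inner_le_norm v y).trans
        (by nlinarith [norm_nonneg v, norm_nonneg y])
      have h5 : ‖-2 * π * inner ℝ v y‖ ≤ 1 / 2 := by
        rw [norm_mul, norm_mul, Real.norm_eq_abs (inner ℝ v y), Real.norm_of_nonneg pi_pos.le,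
          norm_neg, Real.norm_two]
        nlinarith [pi_le_four, pi_pos, abs_nonneg (inner ℝ v y)]
      rw [mul_comm Complex.I] at h3
      nlinarith [b.nonneg (x := v)]
  rw [integral_div] at h2
  have h3 := norm_sub_norm_le ((∫ x, b x : ℝ) : ℂ) (𝓕 (sb b) y)
  rw [norm_sub_rev, Complex.norm_real, Real.norm_of_nonneg b.integral_pos.le] at h3
  linarith

lemma vanish (b : ContDiffBump (0 : V)) {ξ : V} (hξ : 2 * b.rOut ≤ ‖(2 * π)⁻¹ • ξ‖) :
    ∫ y, ((‖𝓕 (sb b) y‖ ^ 2 : ℝ) : ℂ) * Complex.exp (Complex.I * ((inner ℝ ξ y : ℝ) : ℂ)) = 0 := by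
  obtain ⟨w, hw⟩ : ∃ w, w = (2 * π)⁻¹ • ξ := ⟨_, rfl⟩
  have h := integral_inner_fourier_fourier (sb b) ((sb b).compSubConstCLM ℂ (-w))
  have h1 : ∀ y, 𝓕 ((sb b).compSubConstCLM ℂ (-w)) y =
      Complex.exp (Complex.I * ((inner ℝ ξ y : ℝ) : ℂ)) * 𝓕 (sb b) y := fun y => by
    have h2 := congrFun (VectorFourier.fourierIntegral_comp_add_right 𝐞 volume (innerₗ V)
      (sb b) w) y
    have h3 : ((sb b).compSubConstCLM ℂ (-w) : V → ℂ) = (sb b) ∘ fun v => v + w := by
      funext x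
      simp
    rw [fourier_coe, h3]
    refine h2.trans ?_
    rw [Circle.smul_def, Real.fourierChar_apply, smul_eq_mul, ← phase, ← hw, real_inner_comm]
    rfl
  have h4 : ∀ x, inner ℂ (sb b x) ((sb b).compSubConstCLM ℂ (-w) x) = 0 := fun x => by
    rw [compSubConstCLM_apply, sb_apply, sb_apply]
    rcases le_or_gt b.rOut (dist x 0) with h | h
    · simp [b.zero_of_le_dist h]
    · have h5 : b.rOut ≤ dist (x - -w) 0 := by
        rw [dist_zero_right] at h ⊢
        have := norm_sub_norm_le w (-x)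
        rw [norm_neg, sub_neg_eq_add, add_comm, ← sub_neg_eq_add] at this
        rw [← hw] at hξ
        linarith
      rw [b.zero_of_le_dist h5, Complex.ofReal_zero, inner_zero_right]
  simp only [h4, integral_zero] at h
  rw [← h]
  refine integral_congr_ae (Filter.Eventually.of_forall fun y => ?_)
  simp only [h1, inner_smul_right, ← smul_eq_mul, inner_self_eq_norm_sq_to_K]
  simp [mul_comm]

end Ker

open Ker

theorem ker1 : KER1 := fun V _ _ _ _ _ => by
  let b : ContDiffBump (0 : V) := ⟨1, 2, one_pos, one_lt_two⟩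
  refine ⟨(𝓕 (sb b) : 𝓢(V, ℂ)), (𝓕 (sb b)).continuous, fun a => (dec0 _ a).imp fun _ h => h.2,
    fun ξ hξ => ?_⟩
  have h : 𝓕⁻ (𝓕 (sb b)) ((2 * π)⁻¹ • ξ) = 1 := by
    rw [fourierInv_fourier_eq, sb_apply, b.one_of_mem_closedBall, Complex.ofReal_one]
    rw [mem_closedBall_zero_iff, norm_w, div_le_iff₀ (by positivity)]
    show _ ≤ 1 * _
    linarith [pi_gt_three]
  rw [fourierInv_coe, Real.fourierInv_eq'] at h
  simp only [phase, smul_eq_mul] at h
  rw [← h]
  exact integral_congr_ae (Filter.Eventually.of_forall fun y => mul_comm _ _)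

theorem ker2 : KER2 := fun V _ _ _ _ _ => by
  let b : ContDiffBump (0 : V) := ⟨1 / 32, 1 / 16, by norm_num, by norm_num⟩
  obtain ⟨m, hm⟩ : ∃ m, m = (∫ x, b x) / 2 := ⟨_, rfl⟩
  have m0 : 0 < m := hm ▸ half_pos b.integral_pos
  have hc := (𝓕 (sb b)).continuous
  refine ⟨fun y => (m ^ 2)⁻¹ * ‖𝓕 (sb b) y‖ ^ 2, 1, one_pos, by fun_prop, fun y => by positivity,
    fun y hy => ?_, fun a => ?_, fun ξ hξ => ?_⟩
  · beta_reduce
    rw [← div_eq_inv_mul, one_le_div (by positivity)]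
    exact pow_le_pow_left₀ m0.le (hm ▸ lower b le_rfl hy) 2
  · obtain ⟨C, -, hC⟩ := dec0 (𝓕 (sb b)) a
    obtain ⟨C', -, hC'⟩ := dec0 (𝓕 (sb b)) 0
    refine ⟨(m ^ 2)⁻¹ * (C' * C), fun y => ?_⟩
    have h1 := hC' y
    rw [pow_zero, inv_one, mul_one] at h1
    beta_reduce
    rw [mul_assoc, mul_assoc, pow_two ‖_‖]
    exact mul_le_mul_of_nonneg_left (mul_le_mul h1 (hC y) (norm_nonneg _)
      ((norm_nonneg _).trans h1)) (by positivity)
  · simp only [Complex.ofReal_mul, mul_assoc]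
    rw [integral_const_mul, vanish b, mul_zero]
    rw [norm_w, le_div_iff₀ (by positivity)]
    show 2 * (1 / 16) * _ ≤ _
    linarith [pi_le_four]

end Pool.Agent.P.MP_7211b7_an
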