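import Pool.Agent.P.MP_7211b7_an.DefsA

/-!
# MP_7211b7_an: Loomis-Whitney for transversal directions
-/

open MeasureTheory
open scoped ENNReal NNReal

namespace Pool.Agent.P.MP_7211b7_an

namespace LW

/-- the linear map sending `s` to the combination of the directions -/
noncomputable def Tl {r : ℕ} (c : Fin (r + 1) → Eu r) : (Fin (r + 1) → ℝ) →ₗ[ℝ] Sp r :=
  Fintype.linearCombination ℝ (fun i => ((-c i, 1) : Sp r))

theorem Tl_apply {r : ℕ} (c : Fin (r + 1) → Eu r) (s : Fin (r + 1) → ℝ) :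
    Tl c s = ∑ i, s i • ((-c i, 1) : Sp r) := by
  simp [Tl, Fintype.linearCombination_apply]

theorem Tl_inj {r : ℕ} {Λ : ℝ} {c : Fin (r + 1) → Eu r} (h : Transv Λ c) :
    Function.Injective (Tl c) := by
  rw [injective_iff_map_eq_zero]
  intro s hs
  have := h s
  rw [← Tl_apply, hs, norm_zero, mul_zero] at this
  exact norm_le_zero_iff.mp this

theorem finrank_eq (r : ℕ) :
    Module.finrank ℝ (Fin (r + 1) → ℝ) = Module.finrank ℝ (Sp r) := by
  simp [Module.finrank_prod]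

/-- the change of variables -/
noncomputable def Te {r : ℕ} {Λ : ℝ} {c : Fin (r + 1) → Eu r} (h : Transv Λ c) :
    (Fin (r + 1) → ℝ) ≃L[ℝ] Sp r :=
  ((Tl c).linearEquivOfInjective (Tl_inj h) (finrank_eq r)).toContinuousLinearEquiv

theorem Te_apply {r : ℕ} {Λ : ℝ} {c : Fin (r + 1) → Eu r} (h : Transv Λ c)
    (s : Fin (r + 1) → ℝ) : Te h s = Tl c s := by
  simp [Te]

theorem Tl_update {r : ℕ} (c : Fin (r + 1) → Eu r) (s : Fin (r + 1) → ℝ) (i : Fin (r + 1))
    (t : ℝ) : Tl c (Function.update s i t) = Tl c s + (t - s i) • ((-c i, 1) : Sp r) := by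
  have : Function.update s i t = s + (t - s i) • (Pi.single i (1 : ℝ) : Fin (r + 1) → ℝ) := by
    funext j
    by_cases hj : j = i
    · subst hj; simp
    · simp [hj]
  rw [this, map_add, map_smul]
  congr 2
  simp [Tl, Fintype.linearCombination_apply_single]

theorem pos_of_transv {r : ℕ} {Λ : ℝ} {c : Fin (r + 1) → Eu r} (h : Transv Λ c) : 0 < Λ := by
  by_contra hn
  push Not at hn
  have h1 := h (fun _ => 1)
  have h2 : ‖(fun _ => 1 : Fin (r + 1) → ℝ)‖ = 1 := by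
    rw [pi_norm_const]; simp
  have h3 := mul_nonpos_of_nonpos_of_nonneg hn
    (norm_nonneg (∑ i, (fun _ => (1 : ℝ)) i • ((-c i, 1) : Sp r)))
  linarith

theorem shear {r : ℕ} (c : Eu r) (g : Eu r → ℝ≥0∞) (h : ℝ → ℝ≥0∞) (hg : Measurable g)
    (hh : Measurable h) :
    ∫⁻ x : Sp r, g (x.1 + x.2 • c) * h x.2 = (∫⁻ v, g v) * ∫⁻ u, h u := by
  have hm : Measurable (fun x : Sp r => g (x.1 + x.2 • c) * h x.2) := by fun_prop
  rw [Measure.volume_eq_prod, lintegral_prod_symm _ hm.aemeasurable]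
  have : ∀ u : ℝ, ∫⁻ y : Eu r, g (y + u • c) * h u = (∫⁻ v, g v) * h u := by
    intro u
    rw [lintegral_mul_const _ (by fun_prop), lintegral_add_right_eq_self]
  simp only [this]
  rw [lintegral_const_mul _ hh]

/-- the Jacobian factor -/
theorem jac {r : ℕ} {Λ : ℝ} {c : Fin (r + 1) → Eu r} (h : Transv Λ c) :
    ∃ κ : ℝ≥0∞, κ ≠ ⊤ ∧ volume (Metric.closedBall (0 : Sp r) Λ⁻¹) / 2 ^ (r + 1) ≤ κ ∧
      ∀ Φ : Sp r → ℝ≥0∞, Measurable Φ → ∫⁻ x, Φ x = κ * ∫⁻ s, Φ (Tl c s) := by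
  have hΛ := pos_of_transv h
  set T := Te h with hT
  have hTm : Measurable T := T.continuous.measurable
  have : (Measure.map T (volume : Measure (Fin (r + 1) → ℝ))).IsAddHaarMeasure :=
    T.isAddHaarMeasure_map _
  have : (volume : Measure (Sp r)).IsAddHaarMeasure := by
    rw [Measure.volume_eq_prod]; infer_instance
  have key := Measure.isAddLeftInvariant_eq_smul (volume : Measure (Sp r))
    (Measure.map T (volume : Measure (Fin (r + 1) → ℝ)))
  set κ := Measure.addHaarScalarFactor (volume : Measure (Sp r))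
    (Measure.map T (volume : Measure (Fin (r + 1) → ℝ))) with hκ
  have main : ∀ Φ : Sp r → ℝ≥0∞, Measurable Φ → ∫⁻ x, Φ x = κ * ∫⁻ s, Φ (Tl c s) := by
    intro Φ hΦ
    conv_lhs => rw [key]
    rw [lintegral_smul_measure, lintegral_map hΦ hTm]
    simp only [hT, Te_apply]
    rfl
  refine ⟨κ, ENNReal.coe_ne_top, ?_, main⟩
  have hB : MeasurableSet (Metric.closedBall (0 : Sp r) Λ⁻¹) := Metric.isClosed_closedBall.measurableSet
  have h1 := main ((Metric.closedBall (0 : Sp r) Λ⁻¹).indicator 1) (measurable_one.indicator hB)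
  rw [lintegral_indicator_one hB] at h1
  have h2 : ∫⁻ s, (Metric.closedBall (0 : Sp r) Λ⁻¹).indicator (1 : Sp r → ℝ≥0∞) (Tl c s)
      ≤ ∫⁻ s, (Metric.closedBall (0 : Fin (r + 1) → ℝ) 1).indicator 1 s := by
    refine lintegral_mono fun s => ?_
    by_cases hs : Tl c s ∈ Metric.closedBall (0 : Sp r) Λ⁻¹
    · have hs' : s ∈ Metric.closedBall (0 : Fin (r + 1) → ℝ) 1 := by
        rw [mem_closedBall_zero_iff] at hs ⊢
        have := h s
        rw [← Tl_apply] at this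
        calc ‖s‖ ≤ Λ * ‖Tl c s‖ := this
          _ ≤ Λ * Λ⁻¹ := by gcongr
          _ = 1 := mul_inv_cancel₀ hΛ.ne'
      simp [hs, hs']
    · simp [hs]
  rw [lintegral_indicator_one Metric.isClosed_closedBall.measurableSet,
    Real.volume_pi_closedBall _ zero_le_one] at h2
  rw [h1]
  refine ENNReal.div_le_of_le_mul ?_
  gcongr
  refine h2.trans (le_of_eq ?_)
  simp [ENNReal.ofReal_pow]

theorem ind_int (a : ℝ) :
    ∫⁻ t : ℝ, (Set.Icc (0 : ℝ) 1).indicator (1 : ℝ → ℝ≥0∞) (t + a) = 1 := by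
  rw [lintegral_add_right_eq_self (fun t => (Set.Icc (0 : ℝ) 1).indicator (1 : ℝ → ℝ≥0∞) t) a,
    lintegral_indicator_one measurableSet_Icc]
  simp

theorem main_case {r : ℕ} (hr : 1 ≤ r) {Λ : ℝ} {c : Fin (r + 1) → Eu r} (h : Transv Λ c)
    (G : Fin (r + 1) → Eu r → ℝ≥0∞) (hG : ∀ i, Measurable (G i))
    (h0 : ∀ i, ∫⁻ v, G i v ≠ 0) (hT : ∀ i, ∫⁻ v, G i v ≠ ⊤) :
    ∫⁻ x : Sp r, ∏ i, G i (x.1 + x.2 • c i) ^ (1 / (r : ℝ))
      ≤ ((r + 1 : ℝ≥0∞) ^ (1 + 1 / (r : ℝ)) *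
          (volume (Metric.closedBall (0 : Sp r) Λ⁻¹) / 2 ^ (r + 1))⁻¹ ^ (1 / (r : ℝ))) *
        ∏ i, (∫⁻ v, G i v) ^ (1 / (r : ℝ)) := by
  have hΛ := pos_of_transv h
  have hr' : (0 : ℝ) < r := by exact_mod_cast hr
  obtain ⟨κ, hκT, hκ, main⟩ := jac h
  have : (volume : Measure (Sp r)).IsAddHaarMeasure := by
    rw [Measure.volume_eq_prod]; infer_instance
  have hκ0 : κ ≠ 0 := by
    refine ne_of_gt (lt_of_lt_of_le ?_ hκ)
    refine ENNReal.div_pos (ne_of_gt ?_) (by simp)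
    exact Metric.measure_closedBall_pos _ _ (inv_pos.mpr hΛ)
  set m : Fin (r + 1) → ℝ≥0∞ := fun i => ∫⁻ v, G i v with hm
  set I : ℝ → ℝ≥0∞ := (Set.Icc (0 : ℝ) 1).indicator 1 with hI
  have hIm : Measurable I := measurable_one.indicator measurableSet_Icc
  set f : Sp r → ℝ≥0∞ := fun x => ∑ i, (G i (x.1 + x.2 • c i) * (m i)⁻¹) * I x.2 with hf
  have hfi : ∀ i, Measurable (fun x : Sp r => (G i (x.1 + x.2 • c i) * (m i)⁻¹) * I x.2) := by
    intro i
    have := hG i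
    fun_prop
  have hfm : Measurable f := Finset.measurable_sum _ fun i _ => hfi i
  have hTm : Measurable (Tl c) := (Tl c).continuous_of_finiteDimensional.measurable
  have hint : ∫⁻ x, f x = r + 1 := by
    rw [hf, lintegral_finsetSum _ fun i _ => hfi i]
    have : ∀ i, ∫⁻ x : Sp r, (G i (x.1 + x.2 • c i) * (m i)⁻¹) * I x.2 = 1 := by
      intro i
      have hGi := hG i
      rw [shear (c i) (fun v => G i v * (m i)⁻¹) I (by fun_prop) hIm,
        lintegral_mul_const _ hGi]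
      have h1 := ind_int 0
      simp only [add_zero] at h1
      rw [h1, mul_one]
      exact ENNReal.mul_inv_cancel (h0 i) (hT i)
    simp [this]
  have hint' : ∫⁻ s, f (Tl c s) = κ⁻¹ * (r + 1) := by
    rw [← hint, main f hfm, ← mul_assoc, ENNReal.inv_mul_cancel hκ0 hκT, one_mul]
  have hline : ∀ s i, G i ((Tl c s).1 + (Tl c s).2 • c i) * (m i)⁻¹
      ≤ ∫⁻ t, f (Tl c (Function.update s i t)) := by
    intro s i
    have h1 : ∀ t : ℝ, (G i ((Tl c s).1 + (Tl c s).2 • c i) * (m i)⁻¹) *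
        I (t + ((Tl c s).2 - s i)) ≤ f (Tl c (Function.update s i t)) := by
      intro t
      have e1 : (Tl c (Function.update s i t)).1 + (Tl c (Function.update s i t)).2 • c i
          = (Tl c s).1 + (Tl c s).2 • c i := by
        rw [Tl_update]
        simp only [Prod.fst_add, Prod.snd_add, Prod.smul_fst, Prod.smul_snd, smul_eq_mul, mul_one,
          add_smul, smul_neg]
        abel
      have e2 : (Tl c (Function.update s i t)).2 = t + ((Tl c s).2 - s i) := by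
        rw [Tl_update]
        simp only [Prod.snd_add, Prod.smul_snd, smul_eq_mul, mul_one]
        ring
      rw [← e1, ← e2]
      exact Finset.single_le_sum (f := fun j => (G j ((Tl c (Function.update s i t)).1 +
        (Tl c (Function.update s i t)).2 • c j) * (m j)⁻¹) * I (Tl c (Function.update s i t)).2)
        (fun _ _ => zero_le) (Finset.mem_univ i)
    refine le_trans (le_of_eq ?_) (lintegral_mono h1)
    rw [lintegral_const_mul _ (by fun_prop), ind_int, mul_one]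
  have hp : Real.HolderConjugate (Fintype.card (Fin (r + 1)) : ℝ) (1 + 1 / (r : ℝ)) := by
    rw [Real.holderConjugate_iff]
    simp only [Fintype.card_fin]
    push_cast
    refine ⟨by linarith, ?_⟩
    field_simp
    ring
  have hLW := lintegral_prod_lintegral_pow_le (fun _ : Fin (r + 1) => (volume : Measure ℝ)) hp
    (hfm.comp hTm)
  have hcard : ((Fintype.card (Fin (r + 1)) : ℝ) - 1) = r := by simp
  rw [hcard, ← volume_pi] at hLW
  simp only [Function.comp] at hLW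
  rw [hint'] at hLW
  have hΦ : Measurable (fun x : Sp r => ∏ i, G i (x.1 + x.2 • c i) ^ (1 / (r : ℝ))) := by
    refine Finset.measurable_prod _ fun i _ => ?_
    have := hG i
    fun_prop
  rw [main _ hΦ]
  have hq : (0 : ℝ) ≤ 1 / (r : ℝ) := by positivity
  have hpt : ∀ s, ∏ i, G i ((Tl c s).1 + (Tl c s).2 • c i) ^ (1 / (r : ℝ))
      ≤ (∏ i, (∫⁻ t, f (Tl c (Function.update s i t))) ^ (1 / (r : ℝ))) *
        ∏ i, m i ^ (1 / (r : ℝ)) := by
    intro s
    rw [← Finset.prod_mul_distrib]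
    refine Finset.prod_le_prod' fun i _ => ?_
    rw [← ENNReal.mul_rpow_of_nonneg _ _ hq]
    gcongr
    calc G i ((Tl c s).1 + (Tl c s).2 • c i)
        = (G i ((Tl c s).1 + (Tl c s).2 • c i) * (m i)⁻¹) * m i := by
          rw [mul_assoc, ENNReal.inv_mul_cancel (h0 i) (hT i), mul_one]
      _ ≤ _ := by gcongr; exact hline s i
  have hmT : ∏ i, m i ^ (1 / (r : ℝ)) ≠ ⊤ :=
    ENNReal.prod_ne_top fun i _ => ENNReal.rpow_ne_top_of_nonneg hq (hT i)
  calc κ * ∫⁻ s, ∏ i, G i ((Tl c s).1 + (Tl c s).2 • c i) ^ (1 / (r : ℝ))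
      ≤ κ * ∫⁻ s, (∏ i, (∫⁻ t, f (Tl c (Function.update s i t))) ^ (1 / (r : ℝ))) *
        ∏ i, m i ^ (1 / (r : ℝ)) := by
        gcongr with s
        exact hpt s
    _ = κ * ((∫⁻ s, ∏ i, (∫⁻ t, f (Tl c (Function.update s i t))) ^ (1 / (r : ℝ))) *
        ∏ i, m i ^ (1 / (r : ℝ))) := by
        rw [lintegral_mul_const' _ _ hmT]
    _ ≤ κ * ((κ⁻¹ * (r + 1)) ^ (1 + 1 / (r : ℝ)) * ∏ i, m i ^ (1 / (r : ℝ))) := by
        gcongr
    _ = ((r + 1 : ℝ≥0∞) ^ (1 + 1 / (r : ℝ)) * κ⁻¹ ^ (1 / (r : ℝ))) *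
        ∏ i, m i ^ (1 / (r : ℝ)) := by
        rw [ENNReal.mul_rpow_of_nonneg _ _ (by positivity),
          ENNReal.rpow_add_of_nonneg _ _ zero_le_one hq, ENNReal.rpow_one]
        have : κ * κ⁻¹ = 1 := ENNReal.mul_inv_cancel hκ0 hκT
        calc κ * (κ⁻¹ * κ⁻¹ ^ (1 / (r : ℝ)) * (r + 1 : ℝ≥0∞) ^ (1 + 1 / (r : ℝ)) *
              ∏ i, m i ^ (1 / (r : ℝ)))
            = (κ * κ⁻¹) * (((r + 1 : ℝ≥0∞) ^ (1 + 1 / (r : ℝ)) * κ⁻¹ ^ (1 / (r : ℝ))) *
              ∏ i, m i ^ (1 / (r : ℝ))) := by ring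
          _ = _ := by rw [this, one_mul]
    _ ≤ _ := by
        gcongr

theorem zero_case {r : ℕ} (hr : 1 ≤ r) (c : Fin (r + 1) → Eu r)
    (G : Fin (r + 1) → Eu r → ℝ≥0∞) (hG : ∀ i, Measurable (G i)) (i : Fin (r + 1))
    (h0 : ∫⁻ v, G i v = 0) :
    ∫⁻ x : Sp r, ∏ i, G i (x.1 + x.2 • c i) ^ (1 / (r : ℝ)) = 0 := by
  have hr' : (0 : ℝ) < r := by exact_mod_cast hr
  have h1 := shear (c i) (G i) (fun _ => 1) (hG i) measurable_const
  rw [h0, zero_mul] at h1
  have hGi := hG i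
  rw [lintegral_eq_zero_iff (by fun_prop)] at h1
  refine (lintegral_congr_ae (g := fun _ => 0) ?_).trans lintegral_zero
  filter_upwards [h1] with x hx
  simp only [mul_one, Pi.zero_apply] at hx
  refine Finset.prod_eq_zero (Finset.mem_univ i) ?_
  rw [hx]
  exact ENNReal.zero_rpow_of_pos (by positivity)

end LW

theorem lw : LW := by
  intro r Λ hr
  have hr' : (0 : ℝ) < r := by exact_mod_cast hr
  have hq : (0 : ℝ) < 1 / (r : ℝ) := by positivity
  set K : ℝ≥0∞ := (r + 1 : ℝ≥0∞) ^ (1 + 1 / (r : ℝ)) *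
    (volume (Metric.closedBall (0 : Sp r) Λ⁻¹) / 2 ^ (r + 1))⁻¹ ^ (1 / (r : ℝ)) with hK
  refine ⟨K.toReal + 1, by positivity, fun c h G hG => ?_⟩
  have hΛ := LW.pos_of_transv h
  have : (volume : Measure (Sp r)).IsAddHaarMeasure := by
    rw [Measure.volume_eq_prod]; infer_instance
  have hKT : K ≠ ⊤ := by
    refine ENNReal.mul_ne_top (ENNReal.rpow_ne_top_of_nonneg (by positivity) (by simp))
      (ENNReal.rpow_ne_top_of_nonneg hq.le ?_)
    rw [ENNReal.inv_ne_top]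
    refine ne_of_gt (ENNReal.div_pos (ne_of_gt ?_) (by simp))
    exact Metric.measure_closedBall_pos _ _ (inv_pos.mpr hΛ)
  by_cases h0 : ∃ i, ∫⁻ v, G i v = 0
  · obtain ⟨i, hi⟩ := h0
    rw [LW.zero_case hr c G hG i hi]
    exact zero_le
  push Not at h0
  by_cases hT : ∃ i, ∫⁻ v, G i v = ⊤
  · obtain ⟨i, hi⟩ := hT
    have : ∏ i, (∫⁻ v, G i v) ^ (1 / (r : ℝ)) = ⊤ := by
      rw [← Finset.mul_prod_erase _ _ (Finset.mem_univ i), hi, ENNReal.top_rpow_of_pos hq]
      refine ENNReal.top_mul ?_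
      rw [Finset.prod_ne_zero_iff]
      intro j _ hj
      rcases ENNReal.rpow_eq_zero_iff.mp hj with ⟨h1, _⟩ | ⟨_, h2⟩
      · exact h0 j h1
      · linarith
    rw [this, ENNReal.mul_top]
    · exact le_top
    · rw [Ne, ENNReal.ofReal_eq_zero, not_le]; positivity
  push Not at hT
  refine (LW.main_case hr h G hG h0 hT).trans ?_
  gcongr
  rw [← hK]
  calc K = ENNReal.ofReal K.toReal := (ENNReal.ofReal_toReal hKT).symm
    _ ≤ _ := ENNReal.ofReal_le_ofReal (by linarith)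

end Pool.Agent.P.MP_7211b7_an
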