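import Pool.Agent.P.MP_7211b7_an.DefsB

/-!
# MP_7211b7_an: removal of the epsilon by the layer cake formula
-/

open MeasureTheory
open scoped ENNReal

namespace Pool.Agent.P.MP_7211b7_an

namespace Layer

theorem cake {X : Type*} [MeasurableSpace X] (μ : Measure X) [IsFiniteMeasure μ] {f : X → ℝ}
    (hf : Measurable f) (h0 : ∀ x, 0 ≤ f x) {Λ M p q : ℝ} (hΛ : 0 < Λ) (hfΛ : ∀ x, f x ≤ Λ)
    (hM : 0 ≤ M) (hp : 0 < p) (hqp : q < p)
    (hlev : ∀ t : ℝ, 0 < t → (μ {x | t ≤ f x}).toReal ≤ M * t ^ (-q)) :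
    ∫ x, f x ^ p ∂μ ≤ p * (M * (Λ ^ (p - q) / (p - q))) := by
  have hpq : 0 < p - q := by linarith
  rw [integral_eq_lintegral_of_nonneg_ae (Filter.Eventually.of_forall fun x =>
      Real.rpow_nonneg (h0 x) p) (hf.pow_const p).aestronglyMeasurable,
    lintegral_rpow_eq_lintegral_meas_le_mul μ (Filter.Eventually.of_forall h0) hf.aemeasurable hp]
  have hint : IntegrableOn (fun t : ℝ => M * t ^ (p - q - 1)) (Set.Ioc 0 Λ) :=
    ((intervalIntegral.intervalIntegrable_rpow' (a := 0) (b := Λ) (r := p - q - 1)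
      (by linarith)).1).const_mul M
  have h1 : ∫⁻ t in Set.Ioi (0 : ℝ), μ {a | t ≤ f a} * ENNReal.ofReal (t ^ (p - 1))
      ≤ ∫⁻ t in Set.Ioc (0 : ℝ) Λ, ENNReal.ofReal (M * t ^ (p - q - 1)) := by
    rw [← lintegral_indicator measurableSet_Ioi, ← lintegral_indicator measurableSet_Ioc]
    refine lintegral_mono fun t => ?_
    by_cases ht : 0 < t
    · rw [Set.indicator_of_mem (show t ∈ Set.Ioi (0 : ℝ) from ht)]
      by_cases htΛ : t ≤ Λ
      · rw [Set.indicator_of_mem (show t ∈ Set.Ioc (0 : ℝ) Λ from ⟨ht, htΛ⟩)]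
        have e1 : μ {a | t ≤ f a} ≤ ENNReal.ofReal (M * t ^ (-q)) := by
          rw [← ENNReal.ofReal_toReal (measure_ne_top μ {a | t ≤ f a})]
          exact ENNReal.ofReal_le_ofReal (hlev t ht)
        refine (mul_le_mul_left e1 _).trans (le_of_eq ?_)
        rw [← ENNReal.ofReal_mul (by positivity), mul_assoc, ← Real.rpow_add ht]
        congr 3
        ring
      · have : {a | t ≤ f a} = ∅ := by
          ext a
          simp only [Set.mem_ofPred_eq, Set.mem_empty_iff_false, iff_false, not_le]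
          exact (hfΛ a).trans_lt (not_le.1 htΛ)
        simp [this]
    · rw [Set.indicator_of_notMem (show t ∉ Set.Ioi (0 : ℝ) from ht)]
      exact zero_le
  have h2 : ∫⁻ t in Set.Ioc (0 : ℝ) Λ, ENNReal.ofReal (M * t ^ (p - q - 1))
      = ENNReal.ofReal (M * (Λ ^ (p - q) / (p - q))) := by
    rw [← ofReal_integral_eq_lintegral_ofReal hint]
    · congr 1
      rw [← intervalIntegral.integral_of_le hΛ.le, intervalIntegral.integral_const_mul,
        integral_rpow (Or.inl (by linarith))]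
      rw [sub_add_cancel, Real.zero_rpow hpq.ne', sub_zero]
    · refine (ae_restrict_iff' measurableSet_Ioc).2 (Filter.Eventually.of_forall fun t ht => ?_)
      have := ht.1
      positivity
  rw [h2] at h1
  refine ENNReal.toReal_le_of_le_ofReal (by positivity) ?_
  rw [ENNReal.ofReal_mul hp.le]
  exact mul_le_mul_right h1 _

theorem card_le {r N : ℕ} (hN : 1 ≤ N) {S : Finset (Fin r → ℤ)}
    (hS : ∀ n ∈ S, ∀ i, |n i| ≤ N) : (S.card : ℝ) ≤ (3 * N : ℝ) ^ r := by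
  have h1 : S ⊆ Fintype.piFinset fun _ : Fin r => Finset.Icc (-(N : ℤ)) N := by
    intro n hn
    rw [Fintype.mem_piFinset]
    intro i
    exact Finset.mem_Icc.2 (abs_le.1 (hS n hn i))
  have h2 := Finset.card_le_card h1
  rw [Fintype.card_piFinset] at h2
  simp only [Int.card_Icc, Finset.prod_const, Finset.card_univ, Fintype.card_fin] at h2
  have h3 : ((N : ℤ) + 1 - -(N : ℤ)).toNat ≤ 3 * N := by omega
  have h4 : S.card ≤ (3 * N) ^ r := h2.trans (Nat.pow_le_pow_left h3 r)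
  exact_mod_cast h4

theorem sup_le {r N : ℕ} (θ : Fin r → ℝ) (hN : 1 ≤ N) {S : Finset (Fin r → ℤ)}
    (hS : ∀ n ∈ S, ∀ i, |n i| ≤ N) {a : (Fin r → ℤ) → ℂ} (ha : ∑ n ∈ S, ‖a n‖ ^ 2 ≤ 1)
    (z : ℝ × (Fin r → ℝ)) : ‖tor θ S a z‖ ≤ (3 * N : ℝ) ^ (r / 2 : ℝ) := by
  have h1 : ‖tor θ S a z‖ ≤ ∑ n ∈ S, ‖a n‖ := by
    unfold tor
    refine (norm_sum_le _ _).trans (Finset.sum_le_sum fun n _ => le_of_eq ?_)
    rw [norm_mul, mul_comm Complex.I, Complex.norm_exp_ofReal_mul_I, mul_one]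
  have h2 : (∑ n ∈ S, ‖a n‖) ^ 2 ≤ (S.card : ℝ) * ∑ n ∈ S, ‖a n‖ ^ 2 := sq_sum_le_card_mul_sum_sq
  have h3 : (∑ n ∈ S, ‖a n‖) ^ 2 ≤ (3 * N : ℝ) ^ r := by
    refine h2.trans ?_
    calc (S.card : ℝ) * ∑ n ∈ S, ‖a n‖ ^ 2 ≤ (S.card : ℝ) * 1 :=
          mul_le_mul_of_nonneg_left ha (Nat.cast_nonneg _)
      _ ≤ _ := by rw [mul_one]; exact card_le hN hS
  have h4 : ((3 * N : ℝ) ^ (r / 2 : ℝ)) ^ 2 = (3 * N : ℝ) ^ r := by
    rw [← Real.rpow_natCast, ← Real.rpow_mul (by positivity), ← Real.rpow_natCast]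
    congr 1
    push_cast
    ring
  refine h1.trans (abs_le_of_sq_le_sq' ?_ (by positivity)).2
  rw [h4]
  exact h3

theorem lev_eq {r : ℕ} (θ : Fin r → ℝ) (S : Finset (Fin r → ℤ)) (a : (Fin r → ℤ) → ℂ)
    (T t : ℝ) :
    ((volume.restrict (dom r T)) {z | t ≤ ‖tor θ S a z‖}).toReal = lev θ S a T t := by
  unfold lev
  rw [Measure.restrict_apply (measurableSet_le measurable_const
    (continuous_tor θ S a).norm.measurable), Set.inter_comm]

theorem cheb {r : ℕ} (θ : Fin r → ℝ) (S : Finset (Fin r → ℤ)) (a : (Fin r → ℤ) → ℂ)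
    (T : ℝ) {t s : ℝ} (ht : 0 < t) (hs : 0 < s) :
    t ^ s * lev θ S a T t ≤ ∫ z in dom r T, ‖tor θ S a z‖ ^ s := by
  have hc : Continuous fun z => ‖tor θ S a z‖ ^ s :=
    (continuous_tor θ S a).norm.rpow_const fun _ => Or.inr hs.le
  have h := mul_meas_ge_le_integral_of_nonneg (μ := volume.restrict (dom r T))
    (f := fun z => ‖tor θ S a z‖ ^ s)
    (Filter.Eventually.of_forall fun z => Real.rpow_nonneg (norm_nonneg _) s)
    (hc.continuousOn.integrableOn_compact (isCompact_dom r T)) (t ^ s)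
  have e : {z | t ^ s ≤ ‖tor θ S a z‖ ^ s} = {z | t ≤ ‖tor θ S a z‖} := by
    ext z
    exact Real.rpow_le_rpow_iff ht.le (norm_nonneg _) hs
  rw [e, measureReal_def, lev_eq] at h
  exact h

theorem normalised (r : ℕ) (θ : Fin r → ℝ) (p T : ℝ) (hp : 4 < r * (p - 2))
    (hTor : ∀ ε : ℝ, 0 < ε → TorBd r θ (2 + 4 / r) T ε)
    (hLev : ∀ q : ℝ, 4 < r * (q - 2) → LevelBd r θ q T) :
    ∃ K : ℝ, 0 < K ∧ ∀ (N : ℕ) (S : Finset (Fin r → ℤ)) (a : (Fin r → ℤ) → ℂ), 1 ≤ N →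
      (∀ n ∈ S, ∀ i, |n i| ≤ N) → ∑ n ∈ S, ‖a n‖ ^ 2 ≤ 1 →
        ∫ z in dom r T, ‖tor θ S a z‖ ^ p ≤ K * (N : ℝ) ^ (r * p / 2 - (r + 2) : ℝ) := by
  have hr : (0 : ℝ) < r := by
    rcases Nat.eq_zero_or_pos r with h | h
    · subst h
      norm_num at hp
    · exact_mod_cast h
  obtain ⟨pc, hpc⟩ : ∃ pc : ℝ, pc = 2 + 4 / r := ⟨_, rfl⟩
  have hrpc : r * pc = 2 * r + 4 := by rw [hpc]; field_simp
  have hpc0 : 0 < pc := by rw [hpc]; positivity
  have hpcp : pc < p := by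
    by_contra h
    have := mul_le_mul_of_nonneg_left (not_lt.1 h) hr.le
    nlinarith
  obtain ⟨q, hq⟩ : ∃ q : ℝ, q = (pc + p) / 2 := ⟨_, rfl⟩
  have hq1 : pc < q := by rw [hq]; linarith
  have hq2 : q < p := by rw [hq]; linarith
  have hp0 : 0 < p := by linarith
  obtain ⟨η, C1, hη, hC1, hL⟩ := hLev q (by nlinarith [mul_lt_mul_of_pos_left hq1 hr])
  have hqpc : 0 < q - pc := by linarith
  obtain ⟨C2, hC2, hT2⟩ := hTor (η * (q - pc) / pc) (by positivity)
  rw [← hpc] at hT2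
  have hpq : 0 < p - q := by linarith
  refine ⟨p * ((C1 + C2 ^ pc) * (((3 : ℝ) ^ (r / 2 : ℝ)) ^ (p - q) / (p - q))), by positivity,
    fun N S a hN hS ha => ?_⟩
  have hN0 : (0 : ℝ) < N := by exact_mod_cast hN
  have hlev : ∀ t : ℝ, 0 < t → lev θ S a T t ≤
      ((C1 + C2 ^ pc) * (N : ℝ) ^ (r * q / 2 - (r + 2) : ℝ)) * t ^ (-q) := by
    intro t ht
    obtain ⟨B, hB⟩ : ∃ B : ℝ, B = (N : ℝ) ^ (r / 2 : ℝ) / t := ⟨_, rfl⟩
    have hB0 : 0 < B := by rw [hB]; positivity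
    have htB : (N : ℝ) ^ (r / 2 : ℝ) / B = t := by rw [hB]; field_simp
    have hBq : ∀ s : ℝ, B ^ s = (N : ℝ) ^ (r * s / 2 : ℝ) * t ^ (-s) := by
      intro s
      rw [hB, Real.div_rpow (by positivity) ht.le, ← Real.rpow_mul hN0.le, Real.rpow_neg ht.le,
        div_eq_mul_inv]
      congr 2
      ring
    have key : lev θ S a T t ≤ (C1 + C2 ^ pc) * (N : ℝ) ^ (-(r + 2 : ℝ)) * B ^ q := by
      by_cases hcase : B ≤ (N : ℝ) ^ η
      · have := hL N S a B hN hS ha hB0 hcase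
        rw [htB] at this
        refine this.trans ?_
        have : 0 ≤ C2 ^ pc := by positivity
        gcongr
        linarith
      · have h1 := (cheb θ S a T ht hpc0).trans (hT2 N S a hN hS)
        have h2 : (∑ n ∈ S, ‖a n‖ ^ 2) ^ (pc / 2) ≤ 1 :=
          Real.rpow_le_one (by positivity) ha (by positivity)
        have h3 : (C2 * (N : ℝ) ^ (η * (q - pc) / pc)) ^ pc ≤ C2 ^ pc * B ^ (q - pc) := by
          rw [Real.mul_rpow hC2.le (by positivity), ← Real.rpow_mul hN0.le,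
            div_mul_cancel₀ _ hpc0.ne', Real.rpow_mul hN0.le]
          gcongr
          exact (not_le.1 hcase).le
        have h4 : t ^ pc * lev θ S a T t ≤ C2 ^ pc * B ^ (q - pc) := by
          refine h1.trans ((mul_le_mul_of_nonneg_left h2 (by positivity)).trans ?_)
          rw [mul_one]
          exact h3
        have h5 : t ^ pc * ((N : ℝ) ^ (-(r + 2 : ℝ)) * B ^ q) = B ^ (q - pc) := by
          have e1 : B ^ q = B ^ (q - pc) * B ^ pc := by
            rw [← Real.rpow_add hB0, sub_add_cancel]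
          have e2 : (r * pc / 2 : ℝ) = r + 2 := by rw [hrpc]; ring
          rw [e1, hBq pc, e2, Real.rpow_neg hN0.le, Real.rpow_neg ht.le]
          have : 0 < t ^ pc := by positivity
          have : 0 < (N : ℝ) ^ (r + 2 : ℝ) := by positivity
          field_simp
        have htp : 0 < t ^ pc := by positivity
        refine le_of_mul_le_mul_left (h4.trans ?_) htp
        rw [← h5]
        have : 0 ≤ t ^ pc * ((N : ℝ) ^ (-(r + 2 : ℝ)) * B ^ q) := by positivity
        nlinarith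
    refine key.trans (le_of_eq ?_)
    rw [hBq q, mul_assoc, ← mul_assoc ((N : ℝ) ^ (-(r + 2 : ℝ))), ← Real.rpow_add hN0, ← mul_assoc]
    congr 3
    ring
  haveI : IsFiniteMeasure (volume.restrict (dom r T)) :=
    ⟨by rw [Measure.restrict_apply_univ]; exact (isCompact_dom r T).measure_lt_top⟩
  have hc := cake (volume.restrict (dom r T)) (f := fun z => ‖tor θ S a z‖)
    (continuous_tor θ S a).norm.measurable (fun _ => norm_nonneg _)
    (Λ := (3 * N : ℝ) ^ (r / 2 : ℝ))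
    (M := (C1 + C2 ^ pc) * (N : ℝ) ^ (r * q / 2 - (r + 2) : ℝ)) (by positivity)
    (sup_le θ hN hS ha) (by positivity) hp0 hq2 (fun t ht => by rw [lev_eq]; exact hlev t ht)
  refine hc.trans (le_of_eq ?_)
  have e3 : (N : ℝ) ^ (r * p / 2 - (r + 2) : ℝ) =
      (N : ℝ) ^ (r * q / 2 - (r + 2) : ℝ) * ((N : ℝ) ^ (r / 2 : ℝ)) ^ (p - q) := by
    rw [← Real.rpow_mul hN0.le, ← Real.rpow_add hN0]
    congr 1
    ring
  rw [e3, Real.mul_rpow (by norm_num) hN0.le, Real.mul_rpow (by positivity) (by positivity)]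
  ring

end Layer

theorem layer : LAYER := by
  intro r θ p T hp _ hTor hLev
  obtain ⟨K, hK, h⟩ := Layer.normalised r θ p T hp hTor hLev
  have hp0 : 0 < p := by
    by_contra h0
    have : (r : ℝ) * (p - 2) ≤ 0 :=
      mul_nonpos_of_nonneg_of_nonpos (Nat.cast_nonneg r) (by linarith [not_lt.1 h0])
    linarith
  refine ⟨K ^ (1 / p), by positivity, fun N S a hN hS => ?_⟩
  have hN0 : (0 : ℝ) < N := by exact_mod_cast hN
  have e1 : (K ^ (1 / p) * (N : ℝ) ^ (r / 2 - (r + 2) / p : ℝ)) ^ p =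
      K * (N : ℝ) ^ (r * p / 2 - (r + 2) : ℝ) := by
    rw [Real.mul_rpow (by positivity) (by positivity), ← Real.rpow_mul hK.le,
      ← Real.rpow_mul hN0.le, one_div_mul_cancel hp0.ne', Real.rpow_one]
    congr 2
    field_simp
  rw [e1]
  obtain ⟨σ, hσ⟩ : ∃ σ : ℝ, σ = ∑ n ∈ S, ‖a n‖ ^ 2 := ⟨_, rfl⟩
  have hσ0 : 0 ≤ σ := by rw [hσ]; positivity
  rw [← hσ]
  rcases hσ0.eq_or_lt with h0 | h0
  · have hz : ∀ n ∈ S, a n = 0 := by
      intro n hn
      have := (Finset.sum_eq_zero_iff_of_nonneg (fun n _ => sq_nonneg ‖a n‖)).1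
        (hσ.symm.trans h0.symm) n hn
      simpa using this
    have : ∀ z, ‖tor θ S a z‖ ^ p = 0 := by
      intro z
      have : tor θ S a z = 0 := Finset.sum_eq_zero fun n hn => by rw [hz n hn, zero_mul]
      rw [this, norm_zero, Real.zero_rpow hp0.ne']
    simp only [this, integral_zero]
    positivity
  · have hs : 0 < Real.sqrt σ := Real.sqrt_pos.2 h0
    have h1 : ∑ n ∈ S, ‖a n / (Real.sqrt σ : ℂ)‖ ^ 2 ≤ 1 := by
      simp only [norm_div, Complex.norm_real, Real.norm_of_nonneg hs.le, div_pow,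
        Real.sq_sqrt hσ0, ← Finset.sum_div, ← hσ, div_self h0.ne', le_refl]
    have h2 := h N S (fun n => a n / (Real.sqrt σ : ℂ)) hN hS h1
    have h3 : ∀ z, ‖tor θ S a z‖ ^ p =
        σ ^ (p / 2) * ‖tor θ S (fun n => a n / (Real.sqrt σ : ℂ)) z‖ ^ p := by
      intro z
      have e : tor θ S a z =
          (Real.sqrt σ : ℂ) * tor θ S (fun n => a n / (Real.sqrt σ : ℂ)) z := by
        unfold tor
        rw [Finset.mul_sum]
        refine Finset.sum_congr rfl fun n _ => ?_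
        have : (Real.sqrt σ : ℂ) ≠ 0 := by exact_mod_cast hs.ne'
        field_simp
      rw [e, norm_mul, Complex.norm_real, Real.norm_of_nonneg hs.le,
        Real.mul_rpow hs.le (norm_nonneg _), Real.sqrt_eq_rpow, ← Real.rpow_mul hσ0]
      congr 2
      ring
    simp only [h3, integral_const_mul]
    rw [mul_comm]
    exact mul_le_mul_of_nonneg_right h2 (by positivity)

end Pool.Agent.P.MP_7211b7_an
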