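import Pool.Agent.P.MP_7211b7_an.DefsA

/-!
# MP_7211b7_an: multilinear decoupling gains over linear decoupling
-/

open MeasureTheory
open scoped ENNReal

namespace Pool.Agent.P.MP_7211b7_an

namespace MLExp

theorem prod_const_mul {n : ℕ} (M : ℝ≥0∞) (u : Fin (n + 1) → ℝ≥0∞) :
    ∏ i, (M * u i) ^ (1 / (n + 1 : ℝ)) = M * ∏ i, u i ^ (1 / (n + 1 : ℝ)) := by
  have hn : (0 : ℝ) ≤ 1 / (n + 1 : ℝ) := by positivity
  simp only [ENNReal.mul_rpow_of_nonneg _ _ hn]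
  rw [Finset.prod_mul_distrib, Finset.prod_const, Finset.card_univ, Fintype.card_fin,
    ← ENNReal.rpow_natCast, ← ENNReal.rpow_mul]
  have : 1 / (n + 1 : ℝ) * ((n + 1 : ℕ) : ℝ) = 1 := by push_cast; field_simp
  rw [this, ENNReal.rpow_one]

theorem meas_pow {r : ℕ} {f : Sp r → ℂ} (hf : Continuous f) (t : ℝ) :
    Measurable fun y => ‖f y‖ₑ ^ t :=
  hf.measurable.enorm.pow_const t

/-- the trivial bound by linear decoupling -/
theorem triv (h2 : W2) (r A : ℕ) {p : ℝ} (hp : 0 < p) : ∃ C : ℝ, 0 < C ∧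
    ∀ (R σ D : ℝ) (ι : Type) (J : Fin (r + 1) → Finset ι) (c : Fin (r + 1) → ι → Eu r)
      (F : Fin (r + 1) → ι → Sp r → ℂ) (ν : Measure (Sp r)), 0 < R → σ ^ 2 * R ≤ 1 → 0 ≤ D →
      Dec r p A σ D → IsFiniteMeasure ν → Moderate A (σ ^ 2) ν →
      (∀ i, Fam σ (J i) (c i) (F i)) →
      ∫⁻ x, ∏ i, (av (bexp r A) R (fun y => ‖(∑ j ∈ J i, F i j) y‖ₑ ^ p) x) ^ (1 / (r + 1 : ℝ)) ∂ν
        ≤ ENNReal.ofReal (C * D ^ p) * DD p ν J F := by
  obtain ⟨C, hC, h⟩ := h2 r (bexp r A) A (by unfold bexp; omega)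
  refine ⟨C, hC, fun R σ D ι J c F ν hR hs hD hdec hν hm hF => ?_⟩
  have hmeas : ∀ i, Measurable fun y => ‖(∑ j ∈ J i, F i j) y‖ₑ ^ p := fun i => by
    refine meas_pow ?_ p
    have := continuous_finsetSum (J i) fun j hj => (hF i).continuous hj
    simpa only [Finset.sum_fn] using this
  refine (ENNReal.lintegral_prod_norm_pow_le Finset.univ
    (fun i _ => (measurable_av _ _ (hmeas i)).aemeasurable) ?_ fun _ _ => by positivity).trans ?_
  · rw [Finset.sum_const, Finset.card_univ, Fintype.card_fin, nsmul_eq_mul]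
    push_cast
    field_simp
  have hb : ∀ i, ∫⁻ x, av (bexp r A) R (fun y => ‖(∑ j ∈ J i, F i j) y‖ₑ ^ p) x ∂ν ≤
      ENNReal.ofReal (C * D ^ p) * sq p ν (J i) (F i) ^ p := fun i => by
    refine (h R (σ ^ 2) ν _ hR (by positivity) hs hν hm (hmeas i)).trans ?_
    rw [lintegral_rpow_enorm_eq_rpow_eLpNorm' hp, ENNReal.ofReal_mul hC.le, mul_assoc,
      ← ENNReal.ofReal_rpow_of_nonneg hD hp.le, ← ENNReal.mul_rpow_of_nonneg _ _ hp.le]
    exact mul_le_mul_right (ENNReal.rpow_le_rpow (hdec ι _ _ _ ν hν hm (hF i)) hp.le) _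
  refine (Finset.prod_le_prod' fun i _ => ENNReal.rpow_le_rpow (hb i) (by positivity)).trans ?_
  rw [prod_const_mul]
  refine le_of_eq ?_
  unfold DD
  congr 1
  refine Finset.prod_congr rfl fun i _ => ?_
  rw [← ENNReal.rpow_mul, mul_one_div]

/-- averaging a function dominated by a slowly varying one -/
theorem av_le (h1 : W1) (r a : ℕ) : ∃ C : ℝ, 0 < C ∧ ∀ (p R ρ : ℝ) (f : Sp r → ℂ)
    (h : Sp r → ℝ≥0∞), 0 < p → p ≤ 6 → 1 ≤ R → 0 < ρ → ρ ≤ 1 →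
    (∀ x, ‖f x‖ₑ ^ (2 : ℝ) ≤ h x) →
    (∀ x y, h (x + y) ≤ ENNReal.ofReal ((1 + ‖y‖ / ρ⁻¹) ^ a) * h x) → ∀ x,
      av (3 * a + r + 2) R (fun y => ‖f y‖ₑ ^ p) x ≤
        ENNReal.ofReal (R ^ (3 * a) * C) * h x ^ (p / 2) := by
  obtain ⟨C, hC, hw⟩ := h1 r (3 * a + r + 2) (3 * a) le_rfl
  refine ⟨C, hC, fun p R ρ f h hp hp6 hR hρ hρ1 hf hh x => ?_⟩
  have hR0 : 0 < R := by linarith
  have key : ∀ y : Sp r, ‖f (x + y)‖ₑ ^ p * wt (3 * a + r + 2) R y ≤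
      (ENNReal.ofReal (R ^ (3 * a)) * h x ^ (p / 2)) *
        (wt (3 * a + r + 2) R y * ENNReal.ofReal ((1 + ‖y‖ / R) ^ (3 * a))) := by
    intro y
    have hy := norm_nonneg y
    have e1 : ‖f (x + y)‖ₑ ^ p = (‖f (x + y)‖ₑ ^ (2 : ℝ)) ^ (p / 2) := by
      rw [← ENNReal.rpow_mul]
      congr 1
      ring
    have t1 : (1 : ℝ) ≤ (1 + ‖y‖ / ρ⁻¹) ^ a :=
      one_le_pow₀ (le_add_of_nonneg_right (by positivity))
    have e2 : ((1 + ‖y‖ / ρ⁻¹) ^ a) ^ (p / 2) ≤ R ^ (3 * a) * (1 + ‖y‖ / R) ^ (3 * a) := by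
      have t2 : 1 + ‖y‖ / ρ⁻¹ ≤ R * (1 + ‖y‖ / R) := by
        have : R * (1 + ‖y‖ / R) = R + ‖y‖ := by field_simp
        rw [this, div_inv_eq_mul]
        nlinarith
      calc _ ≤ ((1 + ‖y‖ / ρ⁻¹) ^ a) ^ ((3 : ℕ) : ℝ) :=
            Real.rpow_le_rpow_of_exponent_le t1 (by push_cast; linarith)
        _ = (1 + ‖y‖ / ρ⁻¹) ^ (3 * a) := by rw [Real.rpow_natCast, ← pow_mul, mul_comm]
        _ ≤ (R * (1 + ‖y‖ / R)) ^ (3 * a) := pow_le_pow_left₀ (by positivity) t2 _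
        _ = _ := mul_pow _ _ _
    have e3 : ‖f (x + y)‖ₑ ^ p ≤ ENNReal.ofReal (R ^ (3 * a)) *
        ENNReal.ofReal ((1 + ‖y‖ / R) ^ (3 * a)) * h x ^ (p / 2) := by
      rw [e1]
      refine (ENNReal.rpow_le_rpow ((hf _).trans (hh x y)) (by positivity)).trans ?_
      rw [ENNReal.mul_rpow_of_nonneg _ _ (by positivity),
        ENNReal.ofReal_rpow_of_nonneg (by positivity) (by positivity),
        ← ENNReal.ofReal_mul (by positivity)]
      exact mul_le_mul_left (ENNReal.ofReal_le_ofReal e2) _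
    calc _ ≤ ENNReal.ofReal (R ^ (3 * a)) * ENNReal.ofReal ((1 + ‖y‖ / R) ^ (3 * a)) *
          h x ^ (p / 2) * wt (3 * a + r + 2) R y := mul_le_mul_left e3 _
      _ = _ := by ring
  unfold av
  refine (lintegral_mono key).trans ?_
  have hm : Measurable fun y : Sp r =>
      wt (3 * a + r + 2) R y * ENNReal.ofReal ((1 + ‖y‖ / R) ^ (3 * a)) :=
    (measurable_wt _ _).mul (by fun_prop)
  rw [lintegral_const_mul _ hm, ENNReal.ofReal_mul (by positivity)]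
  calc _ ≤ (ENNReal.ofReal (R ^ (3 * a)) * h x ^ (p / 2)) * ENNReal.ofReal C :=
        mul_le_mul_right (hw R hR0) _
    _ = _ := by ring

/-- reduction of the multilinear quantity to the square function quantity -/
theorem to_AA (hP : PACK) (h1 : W1) (h4 : W4) (hB : BERN2) (r A : ℕ) : ∃ C C' : ℝ, 0 < C ∧ 0 < C' ∧
    ∀ (p R ρ : ℝ) (ι : Type) (J : Fin (r + 1) → Finset ι) (c : Fin (r + 1) → ι → Eu r)
      (F : Fin (r + 1) → ι → Sp r → ℂ) (ν : Measure (Sp r)), 0 < p → p ≤ 6 → 1 ≤ R → 0 < ρ →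
      ρ ≤ 1 → (∀ i, Fam ρ (J i) (c i) (F i)) →
      ∫⁻ x, ∏ i, (av (bexp r A) R (fun y => ‖(∑ j ∈ J i, F i j) y‖ₑ ^ p) x) ^ (1 / (r + 1 : ℝ)) ∂ν
        ≤ ENNReal.ofReal (R ^ (3 * (A + r + 2)) * C * ((3 / ρ) ^ r * C') ^ (p / 2)) *
          AA p (A + r + 2) ρ⁻¹ ν J F := by
  obtain ⟨C, hC, hav⟩ := av_le h1 r (A + r + 2)
  obtain ⟨C', hC', hb⟩ := hB r (A + r + 2) (by omega)
  refine ⟨C, C', hC, hC', fun p R ρ ι J c F ν hp hp6 hR hρ hρ1 hF => ?_⟩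
  have hb3 : bexp r A = 3 * (A + r + 2) + r + 2 := by unfold bexp; omega
  set a := A + r + 2 with ha
  set h : Fin (r + 1) → Sp r → ℝ≥0∞ :=
    fun i x => ∑ j ∈ J i, av a ρ⁻¹ (fun y => ‖F i j y‖ₑ ^ (2 : ℝ)) x with hh
  set M : ℝ := (3 / ρ) ^ r * C' with hM
  have hM0 : 0 ≤ M := by positivity
  have hcard : ∀ i, ((J i).card : ℝ≥0∞) ≤ ENNReal.ofReal ((3 / ρ) ^ r) := fun i => by
    have := hP r ι (J i) (c i) 0 (ρ / 2) (1 / 2) (by positivity) (by norm_num) (hF i).sep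
      fun j hj => by simpa using (hF i).norm_le j hj
    rw [← ENNReal.ofReal_natCast]
    refine ENNReal.ofReal_le_ofReal (this.trans (pow_le_pow_left₀ (by positivity) ?_ r))
    rw [le_div_iff₀ hρ]
    have : (1 + 2 * (1 / 2) / (ρ / 2)) * ρ = ρ + 2 := by field_simp
    linarith
  have hpt : ∀ i x, ‖(∑ j ∈ J i, F i j) x‖ₑ ^ (2 : ℝ) ≤ ENNReal.ofReal M * h i x := fun i x => by
    rw [Finset.sum_apply]
    refine (ENNReal.rpow_le_rpow (enorm_sum_le _ _) (by norm_num)).trans ?_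
    refine (ENNReal.rpow_sum_le_const_mul_sum_rpow _ _ (by norm_num)).trans ?_
    rw [show (2 : ℝ) - 1 = 1 by norm_num, ENNReal.rpow_one, hM, ENNReal.ofReal_mul (by positivity),
      mul_assoc]
    refine mul_le_mul' (hcard i) ?_
    rw [hh, Finset.mul_sum]
    exact Finset.sum_le_sum fun j hj =>
      hb ρ (c i j) hρ hρ1 ((hF i).norm_le j hj) _ ((hF i).mem j hj) x
  have hsl : ∀ i x y, ENNReal.ofReal M * h i (x + y) ≤
      ENNReal.ofReal ((1 + ‖y‖ / ρ⁻¹) ^ a) * (ENNReal.ofReal M * h i x) := fun i x y => by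
    rw [mul_left_comm]
    refine mul_le_mul_right ?_ _
    rw [hh, Finset.mul_sum]
    exact Finset.sum_le_sum fun j hj =>
      h4 r a ρ⁻¹ _ x y (by positivity) (meas_pow ((hF i).continuous hj) 2)
  have hfin : ∀ x, ∏ i, (av (bexp r A) R (fun y => ‖(∑ j ∈ J i, F i j) y‖ₑ ^ p) x) ^
      (1 / (r + 1 : ℝ)) ≤ ENNReal.ofReal (R ^ (3 * a) * C * M ^ (p / 2)) *
        ∏ i, h i x ^ (p / (2 * (r + 1 : ℝ))) := fun x => by
    have e : ∀ i, av (bexp r A) R (fun y => ‖(∑ j ∈ J i, F i j) y‖ₑ ^ p) x ≤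
        ENNReal.ofReal (R ^ (3 * a) * C * M ^ (p / 2)) * h i x ^ (p / 2) := fun i => by
      rw [hb3]
      refine (hav p R ρ _ _ hp hp6 hR hρ hρ1 (hpt i) (hsl i) x).trans (le_of_eq ?_)
      rw [ENNReal.mul_rpow_of_nonneg _ _ (by positivity),
        ENNReal.ofReal_rpow_of_nonneg hM0 (by positivity), ← mul_assoc,
        ← ENNReal.ofReal_mul (by positivity)]
    refine (Finset.prod_le_prod' fun i _ => ENNReal.rpow_le_rpow (e i) (by positivity)).trans ?_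
    rw [prod_const_mul]
    refine le_of_eq ?_
    congr 1
    refine Finset.prod_congr rfl fun i _ => ?_
    rw [← ENNReal.rpow_mul]
    congr 1
    field_simp
  refine (lintegral_mono hfin).trans (le_of_eq ?_)
  rw [lintegral_const_mul' _ _ ENNReal.ofReal_ne_top]
  rfl

end MLExp

open MLExp in
theorem mlexp : PACK → W1 → W2 → W4 → BERN2 → ITER → MLEXP := by
  intro hP h1 h2 h4 hB hI r A p η0 hr hp hrp hη0
  have hp0 : 0 < p := by linarith
  have hr1 : (1 : ℝ) ≤ r := by exact_mod_cast hr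
  have hp6 : p ≤ 6 := by nlinarith
  obtain ⟨m, hm⟩ := exists_nat_ge (2 * r / η0)
  rw [div_le_iff₀ hη0] at hm
  have h2m : (0 : ℝ) < ((2 ^ m : ℕ) : ℝ) := by positivity
  refine ⟨η0 / ((2 ^ m : ℕ) : ℝ), by positivity, fun Λ => ?_⟩
  obtain ⟨κ0, hκ0, hit⟩ := hI r (A + r + 2) A m p Λ (η0 * p / 4) hr le_rfl hp hrp (by positivity)
  refine ⟨κ0, hκ0, fun η hη hD R hR => ?_⟩
  obtain ⟨CI, hCI, hit⟩ := hit η (by linarith) hD
  obtain ⟨CD, hCD, hD⟩ := hD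
  obtain ⟨C2, hC2, htr⟩ := triv h2 r A hp0
  obtain ⟨C, C', hC, hC', hAA⟩ := to_AA hP h1 h4 hB r A
  set K1 : ℝ := R ^ (3 * (A + r + 2)) * C * (3 ^ r * C') ^ (p / 2) * CI with hK1
  set K2 : ℝ := C2 * CD ^ p * (1 / 4 : ℝ) ^ (-(η0 * p)) with hK2
  have hK10 : 0 < K1 := by positivity
  have hK20 : 0 < K2 := by positivity
  refine ⟨(K1 + K2) ^ (1 / p), by positivity, fun σ hσ hσR => ?_⟩
  intro ι c0 J c F ν hν hmod hT hc0 hF hκ
  have hσ1 : σ ≤ 1 := by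
    by_contra hlt
    have hlt := not_le.mp hlt
    nlinarith [mul_le_mul_of_nonneg_left hR (sq_nonneg σ)]
  set ρ : ℝ := σ ^ (((2 ^ m : ℕ) : ℝ)⁻¹) with hρdef
  have hρ : 0 < ρ := by positivity
  have hσρ : σ = ρ ^ (2 ^ m) := (Real.rpow_inv_natCast_pow hσ.le (by positivity)).symm
  have hend : ((K1 + K2) ^ (1 / p) * σ ^ (-(η - η0 / ((2 ^ m : ℕ) : ℝ)))) ^ p =
      (K1 + K2) * (σ ^ (-(η * p)) * ρ ^ (η0 * p)) := by
    rw [Real.mul_rpow (by positivity) (by positivity), ← Real.rpow_mul (by positivity),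
      one_div_mul_cancel hp0.ne', Real.rpow_one, hρdef, ← Real.rpow_mul hσ.le,
      ← Real.rpow_mul hσ.le, ← Real.rpow_add hσ]
    congr 2
    field_simp
    ring
  rw [ENNReal.ofReal_rpow_of_nonneg (by positivity) hp0.le, hend]
  have hs0 : 0 < σ ^ (-(η * p)) := by positivity
  have hr0 : 0 < ρ ^ (η0 * p) := by positivity
  rcases le_or_gt ρ (1 / 4) with hρ4 | hρ4
  · obtain ⟨g, hg, hb⟩ := hit ι c0 J c F ν ρ σ hT hc0 hρ hρ4 hσρ hν hmod hF hκ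
    have h5 := hAA p R ρ ι (fun i => img (J i) (g i)) c (fun i => grp (J i) (g i) (F i)) ν hp0 hp6
      hR hρ (by linarith) fun i => (hF i).group (hg i) hσ.le
    simp only [sum_grp] at h5
    refine h5.trans ((mul_le_mul_right hb _).trans ?_)
    rw [← mul_assoc, ← ENNReal.ofReal_mul (by positivity)]
    refine mul_le_mul_left (ENNReal.ofReal_le_ofReal ?_) _
    have e1 : ((3 / ρ) ^ r * C') ^ (p / 2) = (3 ^ r * C') ^ (p / 2) * ρ ^ (-(r * p / 2)) := by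
      have : (3 / ρ) ^ r * C' = 3 ^ r * C' * ρ ^ (-(r : ℝ)) := by
        rw [Real.rpow_neg hρ.le, Real.rpow_natCast, div_pow]
        ring
      rw [this, Real.mul_rpow (by positivity) (by positivity), ← Real.rpow_mul hρ.le]
      congr 2
      ring
    have e2 : ρ ^ (-(r * p / 2)) * ρ ^ (-(m * (η0 * p / 4))) * ρ ^ (η * p * (1 + m / 2)) ≤
        ρ ^ (η0 * p) := by
      rw [← Real.rpow_add hρ, ← Real.rpow_add hρ]
      refine Real.rpow_le_rpow_of_exponent_ge hρ (by linarith) ?_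
      have t1 : η0 * (p * (1 + m / 2)) ≤ η * (p * (1 + m / 2)) :=
        mul_le_mul_of_nonneg_right hη (by positivity)
      have t2 := mul_le_mul_of_nonneg_right hm hp0.le
      nlinarith
    rw [e1]
    calc _ = K1 * (σ ^ (-(η * p)) * (ρ ^ (-(r * p / 2)) * ρ ^ (-(m * (η0 * p / 4))) *
          ρ ^ (η * p * (1 + m / 2)))) := by rw [hK1]; ring
      _ ≤ K1 * (σ ^ (-(η * p)) * ρ ^ (η0 * p)) := by gcongr
      _ ≤ _ := by gcongr; linarith
  · refine (htr R σ _ ι J c F ν (by linarith) hσR (by positivity) (hD σ hσ hσ1) hν hmod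
      hF).trans ?_
    refine mul_le_mul_left (ENNReal.ofReal_le_ofReal ?_) _
    have e1 : (CD * σ ^ (-η)) ^ p = CD ^ p * σ ^ (-(η * p)) := by
      rw [Real.mul_rpow hCD.le (by positivity), ← Real.rpow_mul hσ.le, neg_mul]
    have e2 : 1 ≤ (1 / 4 : ℝ) ^ (-(η0 * p)) * ρ ^ (η0 * p) := by
      rw [Real.rpow_neg (by norm_num), ← div_eq_inv_mul, one_le_div (by positivity)]
      exact Real.rpow_le_rpow (by norm_num) hρ4.le (by positivity)
    rw [e1]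
    calc _ = C2 * CD ^ p * σ ^ (-(η * p)) * 1 := by ring
      _ ≤ C2 * CD ^ p * σ ^ (-(η * p)) * ((1 / 4 : ℝ) ^ (-(η0 * p)) * ρ ^ (η0 * p)) := by gcongr
      _ = K2 * (σ ^ (-(η * p)) * ρ ^ (η0 * p)) := by rw [hK2]; ring
      _ ≤ _ := by gcongr; linarith

end Pool.Agent.P.MP_7211b7_an
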