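import Pool.Agent.P.MP_7211b7_an.DefsA

/-!
# Local L2 orthogonality
-/

open MeasureTheory
open scoped ENNReal

namespace Pool.Agent.P.MP_7211b7_an

namespace Orth

open Classical in
/-- pointwise expansion of the square -/
theorem sq_sum_le {ι : Type} (J : Finset ι) (a : ι → ℂ) (N : ι → ι → Prop)
    (hN : ∀ j k, N j k → N k j) (M : ℝ)
    (hM : ∀ j ∈ J, ((J.filter (fun k => N j k)).card : ℝ) ≤ M) :
    ‖∑ j ∈ J, a j‖ ^ 2 ≤
      ∑ j ∈ J, ∑ k ∈ J.filter (fun k => ¬ N j k), (a j * (starRingEnd ℂ) (a k)).re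
        + M * ∑ j ∈ J, ‖a j‖ ^ 2 := by
  have h1 : ‖∑ j ∈ J, a j‖ ^ 2 = ∑ j ∈ J, ∑ k ∈ J, (a j * (starRingEnd ℂ) (a k)).re := by
    have : ((‖∑ j ∈ J, a j‖ ^ 2 : ℝ) : ℂ) = ∑ j ∈ J, ∑ k ∈ J, a j * (starRingEnd ℂ) (a k) := by
      rw [← Finset.sum_mul_sum, ← map_sum, Complex.mul_conj, Complex.normSq_eq_norm_sq]
    have h2 := congrArg Complex.re this
    rw [Complex.ofReal_re] at h2
    rw [h2, Complex.re_sum]
    exact Finset.sum_congr rfl fun j _ => Complex.re_sum _ _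
  have h2 : ∀ j k, (a j * (starRingEnd ℂ) (a k)).re ≤ ‖a j‖ ^ 2 / 2 + ‖a k‖ ^ 2 / 2 := by
    intro j k
    have h3 : (a j * (starRingEnd ℂ) (a k)).re ≤ ‖a j‖ * ‖a k‖ := by
      refine (Complex.re_le_norm _).trans ?_
      rw [norm_mul, Complex.norm_conj]
    nlinarith [sq_nonneg (‖a j‖ - ‖a k‖)]
  have h3 : ∑ j ∈ J, ∑ k ∈ J.filter (fun k => N j k), ‖a j‖ ^ 2 / 2
      ≤ M * ∑ j ∈ J, ‖a j‖ ^ 2 / 2 := by
    rw [Finset.mul_sum]
    refine Finset.sum_le_sum fun j hj => ?_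
    rw [Finset.sum_const, nsmul_eq_mul]
    exact mul_le_mul_of_nonneg_right (hM j hj) (by positivity)
  have h4 : ∑ j ∈ J, ∑ k ∈ J.filter (fun k => N j k), ‖a k‖ ^ 2 / 2
      = ∑ j ∈ J, ∑ k ∈ J.filter (fun k => N j k), ‖a j‖ ^ 2 / 2 := by
    simp only [Finset.sum_filter]
    rw [Finset.sum_comm]
    refine Finset.sum_congr rfl fun j _ => Finset.sum_congr rfl fun k _ => ?_
    by_cases h : N j k
    · simp [h, hN j k h]
    · have h' : ¬ N k j := fun h' => h (hN k j h')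
      simp [h, h']
  have h5 : ∑ j ∈ J, ∑ k ∈ J.filter (fun k => N j k), (a j * (starRingEnd ℂ) (a k)).re
      ≤ M * ∑ j ∈ J, ‖a j‖ ^ 2 := by
    calc _ ≤ ∑ j ∈ J, ∑ k ∈ J.filter (fun k => N j k), (‖a j‖ ^ 2 / 2 + ‖a k‖ ^ 2 / 2) :=
          Finset.sum_le_sum fun j _ => Finset.sum_le_sum fun k _ => h2 j k
      _ = ∑ j ∈ J, ∑ k ∈ J.filter (fun k => N j k), ‖a j‖ ^ 2 / 2 +
          ∑ j ∈ J, ∑ k ∈ J.filter (fun k => N j k), ‖a k‖ ^ 2 / 2 := by
          simp only [Finset.sum_add_distrib]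
      _ ≤ M * ∑ j ∈ J, ‖a j‖ ^ 2 := by
          rw [h4]
          have : ∑ j ∈ J, ‖a j‖ ^ 2 / 2 = (∑ j ∈ J, ‖a j‖ ^ 2) / 2 := by
            rw [Finset.sum_div]
          rw [this] at h3
          linarith
  rw [h1]
  have h6 : ∑ j ∈ J, ∑ k ∈ J, (a j * (starRingEnd ℂ) (a k)).re =
      ∑ j ∈ J, ∑ k ∈ J.filter (fun k => ¬ N j k), (a j * (starRingEnd ℂ) (a k)).re +
      ∑ j ∈ J, ∑ k ∈ J.filter (fun k => N j k), (a j * (starRingEnd ℂ) (a k)).re := by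
    rw [← Finset.sum_add_distrib]
    refine Finset.sum_congr rfl fun j _ => ?_
    rw [add_comm, Finset.sum_filter_add_sum_filter_not]
  rw [h6]
  linarith

theorem conj_wave {r : ℕ} (ζ x : Sp r) : (starRingEnd ℂ) (wave ζ x) = wave (-ζ) x := by
  unfold wave
  rw [← Complex.exp_conj]
  congr 1
  simp only [map_mul, Complex.conj_I, Complex.conj_ofReal, Prod.fst_neg, Prod.snd_neg,
    inner_neg_left]
  push_cast; ring

theorem mul_conj_mem {r : ℕ} {S T U : Set (Sp r)} (h : ∀ ζ ∈ S, ∀ ξ ∈ T, ζ + -ξ ∈ U)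
    {f g : Sp r → ℂ} (hf : f ∈ Tr S) (hg : g ∈ Tr T) :
    (fun x => f x * (starRingEnd ℂ) (g x)) ∈ Tr U := by
  refine Tr_induction (P := fun f => (fun x => f x * (starRingEnd ℂ) (g x)) ∈ Tr U) ?_ ?_ ?_ ?_ hf
  · intro ζ hζ
    refine Tr_induction (P := fun g => (fun x => wave ζ x * (starRingEnd ℂ) (g x)) ∈ Tr U)
      ?_ ?_ ?_ ?_ hg
    · intro ξ hξ
      have : (fun x => wave ζ x * (starRingEnd ℂ) (wave ξ x)) = wave (ζ + -ξ) := by
        funext x; rw [conj_wave, add_wave]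
      rw [this]
      exact wave_mem_Tr (h ζ hζ ξ hξ)
    · have : (fun x => wave ζ x * (starRingEnd ℂ) ((0 : Sp r → ℂ) x)) = 0 := by
        funext x; simp
      rw [this]; exact (Tr U).zero_mem
    · intro g1 g2 h1 h2
      have : (fun x => wave ζ x * (starRingEnd ℂ) ((g1 + g2) x)) =
          (fun x => wave ζ x * (starRingEnd ℂ) (g1 x)) +
            (fun x => wave ζ x * (starRingEnd ℂ) (g2 x)) := by
        funext x; simp [mul_add]
      rw [this]; exact (Tr U).add_mem h1 h2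
    · intro a g1 h1
      have : (fun x => wave ζ x * (starRingEnd ℂ) ((a • g1) x)) =
          (starRingEnd ℂ) a • (fun x => wave ζ x * (starRingEnd ℂ) (g1 x)) := by
        funext x; simp; ring
      rw [this]; exact (Tr U).smul_mem _ h1
  · have : (fun x => (0 : Sp r → ℂ) x * (starRingEnd ℂ) (g x)) = 0 := by
      funext x; simp
    rw [this]; exact (Tr U).zero_mem
  · intro f1 f2 h1 h2
    have : (fun x => (f1 + f2) x * (starRingEnd ℂ) (g x)) =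
        (fun x => f1 x * (starRingEnd ℂ) (g x)) + (fun x => f2 x * (starRingEnd ℂ) (g x)) := by
      funext x; simp [add_mul]
    rw [this]; exact (Tr U).add_mem h1 h2
  · intro a f1 h1
    have : (fun x => (a • f1) x * (starRingEnd ℂ) (g x)) =
        a • (fun x => f1 x * (starRingEnd ℂ) (g x)) := by
      funext x; simp; ring
    rw [this]; exact (Tr U).smul_mem _ h1

theorem integrable_decay {r : ℕ} {Φ : Eu r → ℝ} (hc : Continuous Φ) (h0 : ∀ y, 0 ≤ Φ y)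
    (hd : ∀ a : ℕ, ∃ C : ℝ, ∀ y, Φ y ≤ C * ((1 + ‖y‖) ^ a)⁻¹) (a : ℕ) :
    Integrable (fun y => (1 + ‖y‖) ^ a * Φ y) := by
  obtain ⟨C, hC⟩ := hd (a + (r + 1))
  have hi : Integrable (fun y : Eu r => (1 + ‖y‖) ^ (-((r : ℝ) + 1))) := by
    apply integrable_one_add_norm
    simp
  refine (hi.const_mul C).mono' (by fun_prop) (Filter.Eventually.of_forall fun y => ?_)
  have hp : 0 < 1 + ‖y‖ := by positivity
  rw [Real.norm_of_nonneg (mul_nonneg (by positivity) (h0 y))]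
  have e : (1 + ‖y‖) ^ (-((r : ℝ) + 1)) = ((1 + ‖y‖) ^ (r + 1))⁻¹ := by
    rw [Real.rpow_neg hp.le]
    congr 1
    rw [← Real.rpow_natCast]; push_cast; rfl
  rw [e]
  calc (1 + ‖y‖) ^ a * Φ y ≤ (1 + ‖y‖) ^ a * (C * ((1 + ‖y‖) ^ (a + (r + 1)))⁻¹) :=
        mul_le_mul_of_nonneg_left (hC y) (by positivity)
    _ = C * ((1 + ‖y‖) ^ (r + 1))⁻¹ := by
        rw [pow_add _ a]; field_simp

theorem integrable_shift {r : ℕ} {Φ : Eu r → ℝ} (hi : Integrable Φ) {τ : ℝ} (hτ : 0 < τ)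
    (z : Eu r) : Integrable (fun y => Φ (τ • (y - z))) :=
  (hi.comp_smul hτ.ne').comp_sub_right z

theorem integrable_mul {r : ℕ} {S : Set (Sp r)} {h : Sp r → ℂ} (hh : h ∈ Tr S) {φ : Eu r → ℝ}
    (hφ : Integrable φ) (u : ℝ) : Integrable (fun y => h (y, u) * (φ y : ℂ)) := by
  obtain ⟨B, hB⟩ := bounded_of_mem_Tr hh
  have hc := continuous_of_mem_Tr hh
  exact (hφ.ofReal (𝕜 := ℂ)).bdd_mul (c := B)
    (hc.comp (by fun_prop : Continuous fun y : Eu r => ((y, u) : Sp r))).aestronglyMeasurable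
    (Filter.Eventually.of_forall fun y => hB _)

theorem vanish {r : ℕ} {Φ : Eu r → ℝ} {B : ℝ} (hi : Integrable Φ)
    (hz : ∀ ξ : Eu r, B ≤ ‖ξ‖ →
      ∫ y, (Φ y : ℂ) * Complex.exp (Complex.I * ((inner ℝ ξ y : ℝ) : ℂ)) = 0)
    {τ : ℝ} (hτ : 0 < τ) {h : Sp r → ℂ} (hh : h ∈ Tr {ζ : Sp r | B * τ ≤ ‖ζ.1‖}) (u : ℝ)
    (z : Eu r) : ∫ y, h (y, u) * (Φ (τ • (y - z)) : ℂ) = 0 := by
  have hφ := integrable_shift hi hτ z
  have key : h ∈ Tr {ζ : Sp r | B * τ ≤ ‖ζ.1‖} ∧ ∫ y, h (y, u) * (Φ (τ • (y - z)) : ℂ) = 0 := by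
    refine Tr_induction (P := fun h => h ∈ Tr {ζ : Sp r | B * τ ≤ ‖ζ.1‖} ∧
      ∫ y, h (y, u) * (Φ (τ • (y - z)) : ℂ) = 0) ?_ ⟨Submodule.zero_mem _, by simp⟩ ?_ ?_ hh
    · intro ζ hζ
      refine ⟨wave_mem_Tr hζ, ?_⟩
      have hB : B ≤ ‖τ⁻¹ • ζ.1‖ := by
        rw [norm_smul, Real.norm_of_nonneg (inv_pos.2 hτ).le, inv_mul_eq_div, le_div_iff₀ hτ]
        exact hζ
      have h1 := hz _ hB
      set G : Eu r → ℂ := fun y =>
        (Φ y : ℂ) * Complex.exp (Complex.I * ((inner ℝ (τ⁻¹ • ζ.1) y : ℝ) : ℂ)) with hG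
      have h2 : ∀ y : Eu r, wave ζ (y, u) * (Φ (τ • (y - z)) : ℂ) =
          wave ζ (z, u) * G (τ • (y - z)) := by
        intro y
        have e : ((y, u) : Sp r) = (z, u) + (y - z, 0) := by simp
        rw [e, wave_add, hG]
        simp only [wave, real_inner_smul_left, real_inner_smul_right, mul_zero, add_zero]
        rw [← mul_assoc τ, mul_inv_cancel₀ hτ.ne', one_mul]
        ring
      simp only [h2]
      rw [integral_const_mul, integral_sub_right_eq_self (fun y => G (τ • y)) z,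
        Measure.integral_comp_smul, h1]
      simp
    · rintro f g ⟨hf, hf0⟩ ⟨hg, hg0⟩
      refine ⟨Submodule.add_mem _ hf hg, ?_⟩
      simp only [Pi.add_apply, add_mul]
      rw [integral_add (integrable_mul hf hφ u) (integrable_mul hg hφ u), hf0, hg0, add_zero]
    · rintro a f ⟨hf, hf0⟩
      refine ⟨Submodule.smul_mem _ a hf, ?_⟩
      simp only [Pi.smul_apply, smul_eq_mul, mul_assoc]
      rw [integral_const_mul, hf0, mul_zero]
  exact key.2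

theorem enorm_sq_mul (w : ℂ) (t : ℝ) :
    ‖w‖ₑ ^ (2 : ℝ) * ENNReal.ofReal t = ENNReal.ofReal (‖w‖ ^ 2 * t) := by
  rw [ENNReal.ofReal_mul (by positivity), ← ofReal_norm,
    ENNReal.ofReal_rpow_of_nonneg (norm_nonneg _) (by norm_num)]
  norm_num

theorem integrable_sq {r : ℕ} {S : Set (Sp r)} {h : Sp r → ℂ} (hh : h ∈ Tr S) {φ : Eu r → ℝ}
    (hφ : Integrable φ) (u : ℝ) : Integrable (fun y => ‖h (y, u)‖ ^ 2 * φ y) := by
  obtain ⟨B, hB⟩ := bounded_of_mem_Tr hh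
  have hc := continuous_of_mem_Tr hh
  refine hφ.bdd_mul (c := B ^ 2)
    (((hc.comp (by fun_prop : Continuous fun y : Eu r => ((y, u) : Sp r))).norm.pow
      2).aestronglyMeasurable) (Filter.Eventually.of_forall fun y => ?_)
  rw [Real.norm_of_nonneg (by positivity)]
  exact pow_le_pow_left₀ (norm_nonneg _) (hB _) 2

/-- the key estimate on a slice -/
theorem slice (hP : PACK) {r : ℕ} {Φ : Eu r → ℝ} {B : ℝ} (hB : 0 < B) (h0 : ∀ y, 0 ≤ Φ y)
    (hi : Integrable Φ)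
    (hz : ∀ ξ : Eu r, B ≤ ‖ξ‖ →
      ∫ y, (Φ y : ℂ) * Complex.exp (Complex.I * ((inner ℝ ξ y : ℝ) : ℂ)) = 0)
    {ι : Type} {J : Finset ι} {c : ι → Eu r} {F : ι → Sp r → ℂ} {τ : ℝ} (hτ : 0 < τ)
    (hF : Fam τ J c F) (u : ℝ) (z : Eu r) :
    ∫⁻ y, ‖(∑ j ∈ J, F j) (y, u)‖ₑ ^ (2 : ℝ) * ENNReal.ofReal (Φ (τ • (y - z))) ≤
      ENNReal.ofReal ((1 + 4 * (B + 2)) ^ r) *
        ∑ j ∈ J, ∫⁻ y, ‖F j (y, u)‖ₑ ^ (2 : ℝ) * ENNReal.ofReal (Φ (τ • (y - z))) := by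
  classical
  set M : ℝ := (1 + 4 * (B + 2)) ^ r with hMdef
  have hM0 : 0 ≤ M := by positivity
  set φ : Eu r → ℝ := fun y => Φ (τ • (y - z)) with hφdef
  have hφ : Integrable φ := integrable_shift hi hτ z
  have hφ0 : ∀ y, 0 ≤ φ y := fun y => h0 _
  let N : ι → ι → Prop := fun j k => ‖c j - c k‖ ≤ (B + 2) * τ
  have hN : ∀ j k, N j k → N k j := fun j k h => by
    simp only [N] at h ⊢; rwa [norm_sub_rev]
  have hM : ∀ j ∈ J, ((J.filter (fun k => N j k)).card : ℝ) ≤ M := by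
    intro j _
    have := hP r ι (J.filter (fun k => N j k)) c (c j) (τ / 2) ((B + 2) * τ) (by positivity)
      (by positivity)
      (fun k hk l hl hkl => hF.sep k (Finset.mem_filter.1 hk).1 l (Finset.mem_filter.1 hl).1 hkl)
      (fun k hk => hN j k (Finset.mem_filter.1 hk).2)
    refine this.trans (le_of_eq ?_)
    rw [hMdef]; congr 1; field_simp; ring
  have hsum : (∑ j ∈ J, F j) ∈ Tr (Set.univ : Set (Sp r)) :=
    Submodule.sum_mem _ fun j hj => Tr_mono (Set.subset_univ _) (hF.mem j hj)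
  have hcross : ∀ j ∈ J, ∀ k ∈ J.filter (fun k => ¬ N j k),
      (fun x => F j x * (starRingEnd ℂ) (F k x)) ∈ Tr {ζ : Sp r | B * τ ≤ ‖ζ.1‖} := by
    intro j hj k hk
    obtain ⟨hk, hjk⟩ := Finset.mem_filter.1 hk
    refine mul_conj_mem ?_ (hF.mem j hj) (hF.mem k hk)
    rintro ζ ⟨h1, -⟩ ξ ⟨h2, -⟩
    have h3 : (B + 2) * τ < ‖c j - c k‖ := not_le.1 hjk
    have h4 : c j - c k = (ζ + -ξ).1 - (ζ.1 - c j) + (ξ.1 - c k) := by
      simp only [Prod.fst_add, Prod.fst_neg]; abel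
    have h5 : ‖c j - c k‖ ≤ ‖(ζ + -ξ).1‖ + ‖ζ.1 - c j‖ + ‖ξ.1 - c k‖ := by
      rw [h4]
      exact (norm_add_le _ _).trans (add_le_add_left (norm_sub_le _ _) _)
    change B * τ ≤ ‖(ζ + -ξ).1‖
    nlinarith
  have hint : ∀ j ∈ J, ∀ k ∈ J.filter (fun k => ¬ N j k),
      Integrable (fun y => (F j (y, u) * (starRingEnd ℂ) (F k (y, u)) * (φ y : ℂ)).re) :=
    fun j hj k hk => (integrable_mul (hcross j hj k hk) hφ u).re
  have hzero : ∀ j ∈ J, ∀ k ∈ J.filter (fun k => ¬ N j k),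
      ∫ y, (F j (y, u) * (starRingEnd ℂ) (F k (y, u)) * (φ y : ℂ)).re = 0 := by
    intro j hj k hk
    have h1 := vanish hi hz hτ (hcross j hj k hk) u z
    have h2 := integral_re (𝕜 := ℂ) (integrable_mul (hcross j hj k hk) hφ u)
    simp only [RCLike.re_to_complex] at h2
    rw [h2]
    simp only [hφdef]
    rw [h1]; simp
  have hreal : ∫ y, ‖(∑ j ∈ J, F j) (y, u)‖ ^ 2 * φ y ≤ M * ∑ j ∈ J, ∫ y, ‖F j (y, u)‖ ^ 2 * φ y := by
    have hi1 : Integrable (fun y => ∑ j ∈ J, ∑ k ∈ J.filter (fun k => ¬ N j k),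
        (F j (y, u) * (starRingEnd ℂ) (F k (y, u)) * (φ y : ℂ)).re) :=
      integrable_finsetSum _ fun j hj => integrable_finsetSum _ fun k hk => hint j hj k hk
    have hi2 : Integrable (fun y => M * ∑ j ∈ J, ‖F j (y, u)‖ ^ 2 * φ y) :=
      (integrable_finsetSum _ fun j hj => integrable_sq (hF.mem j hj) hφ u).const_mul M
    calc _ ≤ ∫ y, (∑ j ∈ J, ∑ k ∈ J.filter (fun k => ¬ N j k),
          (F j (y, u) * (starRingEnd ℂ) (F k (y, u)) * (φ y : ℂ)).re +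
          M * ∑ j ∈ J, ‖F j (y, u)‖ ^ 2 * φ y) := by
          refine integral_mono (integrable_sq hsum hφ u) (hi1.add hi2) fun y => ?_
          have h1 := sq_sum_le J (fun j => F j (y, u)) N hN M (by convert hM)
          have h2 := mul_le_mul_of_nonneg_right h1 (hφ0 y)
          simp only [Finset.sum_apply]
          refine h2.trans (le_of_eq ?_)
          rw [add_mul, Finset.sum_mul, mul_assoc, Finset.sum_mul]
          congr 1
          refine Finset.sum_congr rfl fun j _ => ?_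
          rw [Finset.sum_mul]
          refine Finset.sum_congr (by congr) fun k _ => ?_
          rw [Complex.re_mul_ofReal]
      _ = M * ∑ j ∈ J, ∫ y, ‖F j (y, u)‖ ^ 2 * φ y := by
          rw [integral_add hi1 hi2, integral_const_mul,
            integral_finsetSum _ fun j hj => integrable_finsetSum _ fun k hk => hint j hj k hk,
            integral_finsetSum _ fun j hj => integrable_sq (hF.mem j hj) hφ u]
          rw [Finset.sum_eq_zero, zero_add]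
          intro j hj
          rw [integral_finsetSum _ fun k hk => hint j hj k hk]
          exact Finset.sum_eq_zero fun k hk => hzero j hj k hk
  have e1 : ∀ h : Sp r → ℂ, ∀ S : Set (Sp r), h ∈ Tr S →
      ∫⁻ y, ‖h (y, u)‖ₑ ^ (2 : ℝ) * ENNReal.ofReal (φ y) =
        ENNReal.ofReal (∫ y, ‖h (y, u)‖ ^ 2 * φ y) := by
    intro h S hh
    rw [ofReal_integral_eq_lintegral_ofReal (integrable_sq hh hφ u)
      (Filter.Eventually.of_forall fun y => mul_nonneg (by positivity) (hφ0 y))]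
    simp only [enorm_sq_mul]
  change ∫⁻ y, ‖(∑ j ∈ J, F j) (y, u)‖ₑ ^ (2 : ℝ) * ENNReal.ofReal (φ y) ≤
      ENNReal.ofReal M * ∑ j ∈ J, ∫⁻ y, ‖F j (y, u)‖ₑ ^ (2 : ℝ) * ENNReal.ofReal (φ y)
  rw [e1 _ _ hsum, Finset.sum_congr rfl fun j hj => e1 _ _ (hF.mem j hj),
    ← ENNReal.ofReal_sum_of_nonneg (fun j _ => integral_nonneg fun y =>
      mul_nonneg (by positivity) (hφ0 y)), ← ENNReal.ofReal_mul hM0]
  exact ENNReal.ofReal_le_ofReal hreal

/-- abstract assembly on a slice -/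
theorem assemble {X ι : Type} [MeasurableSpace X] (μ : Measure X) [SFinite μ] (J : Finset ι)
    (w g : X → ℝ≥0∞) (G : ι → X → ℝ≥0∞) (K : X → X → ℝ≥0∞) (hw : Measurable w)
    (hg : Measurable g) (hG : ∀ j ∈ J, Measurable (G j)) (hK : Measurable (Function.uncurry K))
    (C1 C2 M : ℝ≥0∞) (h1 : ∀ y, w y ≤ C1 * ∫⁻ z, w z * K y z ∂μ)
    (h2 : ∀ y, ∫⁻ z, w z * K y z ∂μ ≤ C2 * w y)
    (h3 : ∀ z, ∫⁻ y, g y * K y z ∂μ ≤ M * ∑ j ∈ J, ∫⁻ y, G j y * K y z ∂μ) :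
    ∫⁻ y, g y * w y ∂μ ≤ C1 * M * C2 * ∑ j ∈ J, ∫⁻ y, G j y * w y ∂μ := by
  have hKy : ∀ y, Measurable (K y) := fun y => hK.of_uncurry_left
  have hKz : ∀ z, Measurable (fun y => K y z) := fun z => hK.of_uncurry_right
  have swap : ∀ f : X → ℝ≥0∞, Measurable f →
      ∫⁻ y, f y * ∫⁻ z, w z * K y z ∂μ ∂μ = ∫⁻ z, w z * ∫⁻ y, f y * K y z ∂μ ∂μ := by
    intro f hf
    have e1 : ∀ y, f y * ∫⁻ z, w z * K y z ∂μ = ∫⁻ z, f y * (w z * K y z) ∂μ := fun y =>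
      (lintegral_const_mul _ (hw.mul (hKy y))).symm
    have e2 : ∀ z, w z * ∫⁻ y, f y * K y z ∂μ = ∫⁻ y, f y * (w z * K y z) ∂μ := fun z => by
      rw [← lintegral_const_mul _ (hf.fun_mul (hKz z))]
      exact lintegral_congr fun y => by ring
    simp only [e1, e2]
    exact lintegral_lintegral_swap
      ((hf.comp measurable_fst).mul ((hw.comp measurable_snd).mul hK)).aemeasurable
  have hm : ∀ f : X → ℝ≥0∞, Measurable f → Measurable (fun z => ∫⁻ y, f y * K y z ∂μ) := by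
    intro f hf
    exact Measurable.lintegral_prod_left' (f := fun p : X × X => f p.1 * K p.1 p.2)
      ((hf.comp measurable_fst).mul hK)
  have hm2 : Measurable (fun y => ∫⁻ z, w z * K y z ∂μ) :=
    Measurable.lintegral_prod_right' (f := fun p : X × X => w p.2 * K p.1 p.2)
      ((hw.comp measurable_snd).mul hK)
  calc ∫⁻ y, g y * w y ∂μ ≤ ∫⁻ y, C1 * (g y * ∫⁻ z, w z * K y z ∂μ) ∂μ := by
        refine lintegral_mono fun y => ?_
        calc g y * w y ≤ g y * (C1 * ∫⁻ z, w z * K y z ∂μ) := mul_le_mul_right (h1 y) _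
          _ = _ := by ring
    _ = C1 * ∫⁻ z, w z * ∫⁻ y, g y * K y z ∂μ ∂μ := by
        rw [lintegral_const_mul _ (hg.fun_mul hm2), swap g hg]
    _ ≤ C1 * ∫⁻ z, M * ∑ j ∈ J, w z * ∫⁻ y, G j y * K y z ∂μ ∂μ := by
        refine mul_le_mul_right (lintegral_mono fun z => ?_) _
        calc w z * ∫⁻ y, g y * K y z ∂μ ≤ w z * (M * ∑ j ∈ J, ∫⁻ y, G j y * K y z ∂μ) :=
              mul_le_mul_right (h3 z) _
          _ = _ := by rw [← Finset.mul_sum]; ring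
    _ = C1 * (M * ∑ j ∈ J, ∫⁻ y, G j y * ∫⁻ z, w z * K y z ∂μ ∂μ) := by
        rw [lintegral_const_mul _
          (Finset.measurable_sum _ fun j hj => hw.fun_mul (hm _ (hG j hj))),
          lintegral_finsetSum _ fun j hj => hw.fun_mul (hm _ (hG j hj))]
        rw [Finset.sum_congr rfl fun j hj => swap (G j) (hG j hj)]
    _ ≤ C1 * (M * ∑ j ∈ J, C2 * ∫⁻ y, G j y * w y ∂μ) := by
        refine mul_le_mul_right (mul_le_mul_right (Finset.sum_le_sum fun j hj => ?_) _) _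
        rw [← lintegral_const_mul _ ((hG j hj).fun_mul hw)]
        refine lintegral_mono fun y => ?_
        calc G j y * ∫⁻ z, w z * K y z ∂μ ≤ G j y * (C2 * w y) := mul_le_mul_right (h2 y) _
          _ = _ := by ring
    _ = _ := by rw [← Finset.mul_sum]; ring

theorem norm_slice_le {r : ℕ} (y z : Eu r) (u : ℝ) :
    ‖((y, u) : Sp r)‖ ≤ ‖((z, u) : Sp r)‖ + ‖y - z‖ := by
  have e : ((y, u) : Sp r) = (z, u) + (y - z, 0) := by simp
  rw [e]
  refine (norm_add_le _ _).trans (le_of_eq ?_)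
  simp [Prod.norm_def]

/-- Peetre inequality on a slice -/
theorem peetre {r : ℕ} (a : ℕ) {τ : ℝ} (hτ : 0 < τ) (y z : Eu r) (u : ℝ) :
    wt a τ⁻¹ ((z, u) : Sp r) ≤
      wt a τ⁻¹ ((y, u) : Sp r) * ENNReal.ofReal ((1 + ‖τ • (y - z)‖) ^ a) := by
  unfold wt
  rw [← ENNReal.ofReal_mul (by positivity)]
  refine ENNReal.ofReal_le_ofReal ?_
  rw [mul_assoc]
  refine mul_le_mul_of_nonneg_left ?_ (by positivity)
  have h1 := norm_slice_le y z u
  rw [norm_smul, Real.norm_of_nonneg hτ.le]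
  simp only [div_inv_eq_mul]
  set A := ‖((y, u) : Sp r)‖
  set B := ‖((z, u) : Sp r)‖
  set D := ‖y - z‖
  have hA : 0 ≤ A := norm_nonneg _
  have hB : 0 ≤ B := norm_nonneg _
  have hD : 0 ≤ D := norm_nonneg _
  have h2 : 1 + A * τ ≤ (1 + B * τ) * (1 + τ * D) := by
    have : A * τ ≤ (B + D) * τ := mul_le_mul_of_nonneg_right h1 hτ.le
    nlinarith [mul_nonneg (mul_nonneg hB hτ.le) (mul_nonneg hτ.le hD)]
  have h3 : (1 + A * τ) ^ a ≤ (1 + B * τ) ^ a * (1 + τ * D) ^ a := by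
    rw [← mul_pow]; exact pow_le_pow_left₀ (by positivity) h2 a
  rw [inv_mul_eq_div, le_div_iff₀ (by positivity), inv_mul_eq_div, div_le_iff₀ (by positivity)]
  linarith

theorem lower {r : ℕ} (a : ℕ) {Φ : Eu r → ℝ} (h1 : ∀ y, ‖y‖ ≤ 1 → 1 ≤ Φ y) {τ : ℝ} (hτ : 0 < τ)
    (y : Eu r) (u : ℝ) :
    wt a τ⁻¹ ((y, u) : Sp r) ≤
      (ENNReal.ofReal (2 ^ a * τ ^ r) * (volume (Metric.ball (0 : Eu r) 1))⁻¹) *
        ∫⁻ z, wt a τ⁻¹ ((z, u) : Sp r) * ENNReal.ofReal (Φ (τ • (y - z))) := by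
  have hv0 : volume (Metric.ball (0 : Eu r) 1) ≠ 0 := (Metric.measure_ball_pos _ _ one_pos).ne'
  have hvt : volume (Metric.ball (0 : Eu r) 1) ≠ ∞ := measure_ball_lt_top.ne
  have hpt : ∀ z ∈ Metric.closedBall y τ⁻¹, wt a τ⁻¹ ((y, u) : Sp r) ≤
      ENNReal.ofReal (2 ^ a) * (wt a τ⁻¹ ((z, u) : Sp r) * ENNReal.ofReal (Φ (τ • (y - z)))) := by
    intro z hz
    have hn : ‖τ • (z - y)‖ ≤ 1 := by
      rw [norm_smul, Real.norm_of_nonneg hτ.le]
      have := mem_closedBall_iff_norm.1 hz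
      calc τ * ‖z - y‖ ≤ τ * τ⁻¹ := mul_le_mul_of_nonneg_left this hτ.le
        _ = 1 := mul_inv_cancel₀ hτ.ne'
    have hn' : ‖τ • (y - z)‖ ≤ 1 := by
      rwa [norm_smul, norm_sub_rev, ← norm_smul]
    calc wt a τ⁻¹ ((y, u) : Sp r)
        ≤ wt a τ⁻¹ ((z, u) : Sp r) * ENNReal.ofReal ((1 + ‖τ • (z - y)‖) ^ a) := peetre a hτ z y u
      _ ≤ wt a τ⁻¹ ((z, u) : Sp r) * (ENNReal.ofReal (2 ^ a) *
            ENNReal.ofReal (Φ (τ • (y - z)))) := by
          refine mul_le_mul_right ?_ _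
          rw [← ENNReal.ofReal_mul (by positivity)]
          refine ENNReal.ofReal_le_ofReal ?_
          calc (1 + ‖τ • (z - y)‖) ^ a ≤ 2 ^ a :=
                pow_le_pow_left₀ (by positivity) (by linarith) a
            _ ≤ 2 ^ a * Φ (τ • (y - z)) := le_mul_of_one_le_right (by positivity) (h1 _ hn')
      _ = _ := by ring
  have hvol : volume (Metric.closedBall y τ⁻¹) =
      ENNReal.ofReal (τ⁻¹ ^ r) * volume (Metric.ball (0 : Eu r) 1) := by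
    rw [Measure.addHaar_closedBall _ _ (inv_pos.2 hτ).le]; simp
  have h2 : wt a τ⁻¹ ((y, u) : Sp r) * volume (Metric.closedBall y τ⁻¹) ≤
      ENNReal.ofReal (2 ^ a) *
        ∫⁻ z, wt a τ⁻¹ ((z, u) : Sp r) * ENNReal.ofReal (Φ (τ • (y - z))) := by
    rw [← setLIntegral_const, ← lintegral_const_mul' _ _ ENNReal.ofReal_ne_top]
    exact (setLIntegral_mono' measurableSet_closedBall hpt).trans (setLIntegral_le_lintegral _ _)
  have h3 : ENNReal.ofReal (τ ^ r) * (volume (Metric.ball (0 : Eu r) 1))⁻¹ *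
      volume (Metric.closedBall y τ⁻¹) = 1 := by
    rw [hvol, mul_mul_mul_comm, ENNReal.inv_mul_cancel hv0 hvt, mul_one,
      ← ENNReal.ofReal_mul (by positivity), ← mul_pow, mul_inv_cancel₀ hτ.ne']
    simp
  calc wt a τ⁻¹ ((y, u) : Sp r) = ENNReal.ofReal (τ ^ r) * (volume (Metric.ball (0 : Eu r) 1))⁻¹ *
        (wt a τ⁻¹ ((y, u) : Sp r) * volume (Metric.closedBall y τ⁻¹)) := by
        rw [mul_left_comm, h3, mul_one]
    _ ≤ ENNReal.ofReal (τ ^ r) * (volume (Metric.ball (0 : Eu r) 1))⁻¹ * (ENNReal.ofReal (2 ^ a) *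
        ∫⁻ z, wt a τ⁻¹ ((z, u) : Sp r) * ENNReal.ofReal (Φ (τ • (y - z)))) :=
        mul_le_mul_right h2 _
    _ = _ := by rw [ENNReal.ofReal_mul (by positivity)]; ring

theorem upper {r : ℕ} (a : ℕ) {Φ : Eu r → ℝ} (h0 : ∀ y, 0 ≤ Φ y)
    (hi : Integrable (fun y => (1 + ‖y‖) ^ a * Φ y)) {τ : ℝ} (hτ : 0 < τ) (y : Eu r) (u : ℝ) :
    ∫⁻ z, wt a τ⁻¹ ((z, u) : Sp r) * ENNReal.ofReal (Φ (τ • (y - z))) ≤
      ENNReal.ofReal ((τ ^ r)⁻¹ * ∫ v, (1 + ‖v‖) ^ a * Φ v) * wt a τ⁻¹ ((y, u) : Sp r) := by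
  set Ψ : Eu r → ℝ := fun v => (1 + ‖v‖) ^ a * Φ v with hΨ
  have hΨ0 : ∀ v, 0 ≤ Ψ v := fun v => mul_nonneg (by positivity) (h0 v)
  have h1 : Integrable (fun z => Ψ (τ • (y - z))) := (hi.comp_smul hτ.ne').comp_sub_left y
  have h2 : ∫ z, Ψ (τ • (y - z)) = (τ ^ r)⁻¹ * ∫ v, Ψ v := by
    rw [integral_sub_left_eq_self (fun z => Ψ (τ • z)) volume y, Measure.integral_comp_smul]
    simp [abs_of_pos (pow_pos hτ r)]
  rw [← h2, ofReal_integral_eq_lintegral_ofReal h1 (Filter.Eventually.of_forall fun z => hΨ0 _),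
    ← lintegral_mul_const' _ _ (by unfold wt; exact ENNReal.ofReal_ne_top)]
  refine lintegral_mono fun z => ?_
  calc wt a τ⁻¹ ((z, u) : Sp r) * ENNReal.ofReal (Φ (τ • (y - z)))
      ≤ wt a τ⁻¹ ((y, u) : Sp r) * ENNReal.ofReal ((1 + ‖τ • (y - z)‖) ^ a) *
          ENNReal.ofReal (Φ (τ • (y - z))) := mul_le_mul_left (peetre a hτ y z u) _
    _ = _ := by
        simp only [hΨ]
        rw [ENNReal.ofReal_mul (by positivity)]; ring

end Orth

open Orth in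
theorem orth : PACK → KER2 → ORTH := by
  intro hP hK r a _
  obtain ⟨Φ, B, hB, hc, h0, h1, hd, hz⟩ := hK (Eu r)
  have hia := integrable_decay hc h0 hd a
  have hi : Integrable Φ := by simpa using integrable_decay hc h0 hd 0
  have hv0 : volume (Metric.ball (0 : Eu r) 1) ≠ 0 := (Metric.measure_ball_pos _ _ one_pos).ne'
  set V : ℝ := ((volume (Metric.ball (0 : Eu r) 1))⁻¹).toReal with hV
  have hVe : (volume (Metric.ball (0 : Eu r) 1))⁻¹ = ENNReal.ofReal V :=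
    (ENNReal.ofReal_toReal (ENNReal.inv_ne_top.2 hv0)).symm
  have hV0 : 0 ≤ V := ENNReal.toReal_nonneg
  set I : ℝ := ∫ v, (1 + ‖v‖) ^ a * Φ v with hI
  have hI0 : 0 ≤ I := integral_nonneg fun v => mul_nonneg (by positivity) (h0 v)
  set M : ℝ := (1 + 4 * (B + 2)) ^ r with hM
  have hM0 : 0 ≤ M := by positivity
  refine ⟨2 ^ a * V * M * I + 1, by positivity, ?_⟩
  intro ι J c F τ x hτ hF
  have hF' := hF.translate x
  set G : ι → Sp r → ℂ := fun j y => F j (x + y) with hG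
  have hmeas : ∀ h : Sp r → ℂ, Continuous h → Measurable (fun y => ‖h y‖ₑ ^ (2 : ℝ)) :=
    fun h hh => hh.measurable.enorm.pow_const _
  have hcs : Continuous (∑ j ∈ J, G j) := by
    have := continuous_finsetSum J (fun j hj => hF'.continuous hj)
    convert this using 1
    funext y; simp [hG]
  have hconst : ENNReal.ofReal (2 ^ a * τ ^ r) * (volume (Metric.ball (0 : Eu r) 1))⁻¹ *
      ENNReal.ofReal M * ENNReal.ofReal ((τ ^ r)⁻¹ * I) ≤
      ENNReal.ofReal (2 ^ a * V * M * I + 1) := by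
    rw [hVe, ← ENNReal.ofReal_mul (by positivity), ← ENNReal.ofReal_mul (by positivity),
      ← ENNReal.ofReal_mul (by positivity)]
    refine ENNReal.ofReal_le_ofReal ?_
    have : 2 ^ a * τ ^ r * V * M * ((τ ^ r)⁻¹ * I) = 2 ^ a * V * M * I := by
      field_simp
    linarith
  have hsl : ∀ u : ℝ, ∫⁻ y, ‖(∑ j ∈ J, G j) (y, u)‖ₑ ^ (2 : ℝ) * wt a τ⁻¹ ((y, u) : Sp r) ≤
      ENNReal.ofReal (2 ^ a * V * M * I + 1) *
        ∑ j ∈ J, ∫⁻ y, ‖G j (y, u)‖ₑ ^ (2 : ℝ) * wt a τ⁻¹ ((y, u) : Sp r) := by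
    intro u
    have hmk : Measurable fun y : Eu r => ((y, u) : Sp r) := measurable_prodMk_right
    have := assemble (volume : Measure (Eu r)) J (fun y => wt a τ⁻¹ ((y, u) : Sp r))
      (fun y => ‖(∑ j ∈ J, G j) (y, u)‖ₑ ^ (2 : ℝ)) (fun j y => ‖G j (y, u)‖ₑ ^ (2 : ℝ))
      (fun y z => ENNReal.ofReal (Φ (τ • (y - z)))) ((measurable_wt a τ⁻¹).comp hmk)
      ((hmeas _ hcs).comp hmk) (fun j hj => (hmeas _ (hF'.continuous hj)).comp hmk)
      (by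
        have : Continuous fun p : Eu r × Eu r => Φ (τ • (p.1 - p.2)) := by fun_prop
        exact this.measurable.ennreal_ofReal)
      _ _ _ (fun y => lower a h1 hτ y u) (fun y => upper a h0 hia hτ y u)
      (fun z => slice hP hB h0 hi hz hτ hF' u z)
    exact this.trans (mul_le_mul_left hconst _)
  have hav : ∀ h : Sp r → ℂ, Continuous h →
      ∫⁻ y, ‖h y‖ₑ ^ (2 : ℝ) * wt a τ⁻¹ y =
        ∫⁻ u : ℝ, ∫⁻ y : Eu r, ‖h (y, u)‖ₑ ^ (2 : ℝ) * wt a τ⁻¹ ((y, u) : Sp r) := by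
    intro h hh
    rw [Measure.volume_eq_prod,
      lintegral_prod_symm' _ ((hmeas h hh).fun_mul (measurable_wt a τ⁻¹))]
  have hm : ∀ j ∈ J, Measurable (fun u : ℝ =>
      ∫⁻ y : Eu r, ‖G j (y, u)‖ₑ ^ (2 : ℝ) * wt a τ⁻¹ ((y, u) : Sp r)) := fun j hj =>
    Measurable.lintegral_prod_left' (f := fun p : Sp r => ‖G j p‖ₑ ^ (2 : ℝ) * wt a τ⁻¹ p)
      ((hmeas _ (hF'.continuous hj)).mul (measurable_wt a τ⁻¹))
  have e1 : av a τ⁻¹ (fun y => ‖(∑ j ∈ J, F j) y‖ₑ ^ (2 : ℝ)) x =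
      ∫⁻ y, ‖(∑ j ∈ J, G j) y‖ₑ ^ (2 : ℝ) * wt a τ⁻¹ y := by
    unfold av; simp only [hG, Finset.sum_apply]
  have e2 : ∀ j ∈ J, av a τ⁻¹ (fun y => ‖F j y‖ₑ ^ (2 : ℝ)) x =
      ∫⁻ u : ℝ, ∫⁻ y : Eu r, ‖G j (y, u)‖ₑ ^ (2 : ℝ) * wt a τ⁻¹ ((y, u) : Sp r) :=
    fun j hj => hav (G j) (hF'.continuous hj)
  rw [e1, hav _ hcs, Finset.sum_congr rfl e2, ← lintegral_finsetSum _ hm,
    ← lintegral_const_mul _ (Finset.measurable_sum _ hm)]
  exact lintegral_mono hsl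

end Pool.Agent.P.MP_7211b7_an
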