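import Pool.Agent.P.MP_7211b7_an.DefsA

open MeasureTheory
open scoped ENNReal

namespace Pool.Agent.P.MP_7211b7_an

namespace Pack

theorem cs {ι : Type} (s : Finset ι) (x : ι → ℝ≥0∞) :
    ∑ i ∈ s, x i ≤ (s.card : ℝ≥0∞) ^ (1 / 2 : ℝ) * (∑ i ∈ s, x i ^ 2) ^ (1 / 2 : ℝ) := by
  have h := ENNReal.inner_le_Lp_mul_Lq s (fun _ => 1) x Real.HolderConjugate.two_two
  simpa [ENNReal.rpow_two] using h

theorem colouring {ι : Type} (J : Finset ι) (E : ι → ι → Prop) [DecidableRel E]
    (hs : ∀ a b, E a b → E b a) (hr : ∀ a, E a a) (m : ℕ)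
    (hm : ∀ j ∈ J, (J.filter (fun k => E j k)).card ≤ m) :
    ∀ S : Finset ι, S ⊆ J → ∃ col : ι → ℕ, (∀ j ∈ S, col j < m) ∧
      ∀ j ∈ S, ∀ k ∈ S, j ≠ k → E j k → col j ≠ col k := by
  classical
  intro S
  induction S using Finset.induction_on with
  | empty => intro _; exact ⟨fun _ => 0, by simp, by simp⟩
  | insert a S ha ih =>
    intro hS
    have haJ : a ∈ J := hS (Finset.mem_insert_self _ _)
    obtain ⟨col, h1, h2⟩ := ih (fun x hx => hS (Finset.mem_insert_of_mem hx))
    have hsub : S.filter (fun k => E a k) ⊆ (J.filter (fun k => E a k)).erase a := by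
      intro k hk
      rw [Finset.mem_filter] at hk
      refine Finset.mem_erase.2 ⟨?_, Finset.mem_filter.2 ⟨hS (Finset.mem_insert_of_mem hk.1), hk.2⟩⟩
      rintro rfl; exact ha hk.1
    have hmem : a ∈ J.filter (fun k => E a k) := Finset.mem_filter.2 ⟨haJ, hr a⟩
    have hc : ((S.filter (fun k => E a k)).image col).card < (Finset.range m).card := by
      have e1 := Finset.card_image_le (s := S.filter (fun k => E a k)) (f := col)
      have e2 := Finset.card_le_card hsub
      rw [Finset.card_erase_of_mem hmem] at e2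
      have e3 := hm a haJ
      have e4 := Finset.card_pos.2 ⟨a, hmem⟩
      rw [Finset.card_range]; omega
    obtain ⟨n, hn1, hn2⟩ := Finset.exists_mem_notMem_of_card_lt_card hc
    have key : ∀ k ∈ S, E a k → n ≠ col k := by
      intro k hk hE h
      exact hn2 (Finset.mem_image.2 ⟨k, Finset.mem_filter.2 ⟨hk, hE⟩, h.symm⟩)
    have hne : ∀ k ∈ S, k ≠ a := by rintro k hk rfl; exact ha hk
    refine ⟨Function.update col a n, ?_, ?_⟩
    · intro j hj
      rcases Finset.mem_insert.1 hj with rfl | hj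
      · simpa using hn1
      · rw [Function.update_of_ne (hne j hj)]; exact h1 j hj
    · intro j hj k hk hjk hE
      rcases Finset.mem_insert.1 hj with hj' | hj'
      · rcases Finset.mem_insert.1 hk with hk' | hk'
        · exact absurd (hj'.trans hk'.symm) hjk
        · rw [hj'] at hE ⊢
          rw [Function.update_self, Function.update_of_ne (hne k hk')]; exact key k hk' hE
      · rcases Finset.mem_insert.1 hk with hk' | hk'
        · rw [hk'] at hE ⊢
          rw [Function.update_self, Function.update_of_ne (hne j hj')]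
          exact (key j hj' (hs _ _ hE)).symm
        · rw [Function.update_of_ne (hne j hj'), Function.update_of_ne (hne k hk')]
          exact h2 j hj' k hk' hjk hE

theorem sq_sq {X ι : Type} [MeasurableSpace X] (p : ℝ) (ν : Measure X) (J : Finset ι)
    (F : ι → X → ℂ) : sq p ν J F ^ 2 = ∑ j ∈ J, eLpNorm' (F j) p ν ^ 2 := by
  unfold sq
  rw [← ENNReal.rpow_two, ← ENNReal.rpow_mul]; norm_num

end Pack

theorem pack : PACK := by
  intro r ι J c c0 δ R hδ hR hsep hin
  have hd : (J : Set ι).PairwiseDisjoint (fun j => Metric.ball (c j) (δ / 2)) := by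
    intro j hj k hk hjk
    refine Metric.ball_disjoint_ball ?_
    rw [dist_eq_norm]
    have := hsep j hj k hk hjk
    linarith
  have hsub : (⋃ j ∈ J, Metric.ball (c j) (δ / 2)) ⊆ Metric.ball c0 (R + δ / 2) := by
    intro x hx
    simp only [Set.mem_iUnion] at hx
    obtain ⟨j, hj, hx⟩ := hx
    rw [Metric.mem_ball] at hx ⊢
    have h1 := hin j hj
    rw [← dist_eq_norm] at h1
    linarith [dist_triangle x (c j) c0]
  have h1 := measure_mono (μ := (volume : Measure (Eu r))) hsub
  rw [measure_biUnion_finset hd (fun _ _ => measurableSet_ball)] at h1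
  have hδ2 : 0 < δ / 2 := by linarith
  simp only [Measure.addHaar_ball_of_pos volume _ hδ2] at h1
  rw [Measure.addHaar_ball_of_pos volume _ (by linarith : 0 < R + δ / 2), Finset.sum_const,
    nsmul_eq_mul, ← mul_assoc] at h1
  have hv0 : (volume : Measure (Eu r)) (Metric.ball 0 1) ≠ 0 :=
    (Metric.measure_ball_pos _ _ one_pos).ne'
  have hvt : (volume : Measure (Eu r)) (Metric.ball 0 1) ≠ ⊤ := measure_ball_lt_top.ne
  have h2 := (ENNReal.mul_le_mul_iff_left hv0 hvt).1 h1
  simp only [finrank_euclideanSpace, Fintype.card_fin] at h2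
  rw [← ENNReal.ofReal_natCast, ← ENNReal.ofReal_mul (by positivity),
    ENNReal.ofReal_le_ofReal_iff (by positivity)] at h2
  have e : 1 + 2 * R / δ = (R + δ / 2) / (δ / 2) := by field_simp; ring
  rw [e, div_pow, le_div_iff₀ (by positivity)]
  exact h2

theorem group : GROUP := by
  classical
  intro r ι J c δ hδ
  obtain ⟨P, hP⟩ : ∃ P : Finset ι → Prop,
      ∀ S, P S ↔ ∀ j ∈ S, ∀ k ∈ S, j ≠ k → δ ≤ ‖c j - c k‖ := ⟨_, fun _ => Iff.rfl⟩
  obtain ⟨S, hS, hmax⟩ := Finset.exists_max_image (J.powerset.filter P) Finset.card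
    ⟨∅, by simp [hP]⟩
  rw [Finset.mem_filter, Finset.mem_powerset, hP] at hS
  have key : ∀ j, ∃ k, j ∈ J → k ∈ S ∧ ‖c j - c k‖ ≤ δ := by
    intro j
    by_cases hj : j ∈ J
    · by_cases hjS : j ∈ S
      · exact ⟨j, fun _ => ⟨hjS, by simp [hδ.le]⟩⟩
      · by_contra hcon
        push Not at hcon
        have h1 : insert j S ∈ J.powerset.filter P := by
          rw [Finset.mem_filter, Finset.mem_powerset, hP]
          refine ⟨Finset.insert_subset hj hS.1, ?_⟩
          intro a ha b hb hab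
          rcases Finset.mem_insert.1 ha with ha' | ha'
          · rcases Finset.mem_insert.1 hb with hb' | hb'
            · exact absurd (ha'.trans hb'.symm) hab
            · rw [ha']; exact ((hcon b).2 hb').le
          · rcases Finset.mem_insert.1 hb with hb' | hb'
            · rw [hb', norm_sub_rev]; exact ((hcon a).2 ha').le
            · exact hS.2 a ha' b hb' hab
        have h2 := hmax _ h1
        rw [Finset.card_insert_of_notMem hjS] at h2
        omega
    · exact ⟨j, fun h => absurd h hj⟩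
  choose g hg using key
  exact ⟨g, fun j hj => hS.1 (hg j hj).1, fun j hj => (hg j hj).2,
    fun j hj k hk hne => hS.2 _ (hg j hj).1 _ (hg k hk).1 hne⟩

theorem triv : PACK → TRIV := by
  intro hP r p A hp
  refine ⟨3 ^ ((r : ℝ) / 2), by positivity, ?_⟩
  intro σ hσ hσ1 ι J c F ν _ _ hF
  have h1 := hP r ι J c 0 (σ / 2) (1 / 2) (by linarith) (by norm_num) hF.sep
    (fun j hj => by simpa using hF.norm_le j hj)
  have h2 : 1 + 2 * (1 / 2) / (σ / 2) ≤ 3 / σ := by
    rw [le_div_iff₀ hσ]; field_simp; linarith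
  have h3 : (J.card : ℝ) ≤ (3 / σ) ^ r := h1.trans (pow_le_pow_left₀ (by positivity) h2 r)
  have h4 : (J.card : ℝ≥0∞) ^ (1 / 2 : ℝ)
      ≤ ENNReal.ofReal (3 ^ ((r : ℝ) / 2) * σ ^ (-((r : ℝ) / 2))) := by
    rw [← ENNReal.ofReal_natCast, ENNReal.ofReal_rpow_of_nonneg (by positivity) (by norm_num)]
    refine ENNReal.ofReal_le_ofReal ?_
    refine (Real.rpow_le_rpow (by positivity) h3 (by norm_num)).trans (le_of_eq ?_)
    have e : (r : ℝ) * (1 / 2) = r / 2 := by ring
    rw [← Real.rpow_natCast, ← Real.rpow_mul (by positivity), e, Real.rpow_neg hσ.le,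
      Real.div_rpow (by norm_num) hσ.le, div_eq_mul_inv]
  refine (eLpNorm'_sum_le (fun j hj => (hF.continuous hj).aestronglyMeasurable) hp).trans ?_
  refine (Pack.cs J _).trans ?_
  exact mul_le_mul_left h4 _

theorem mult : MULT := by
  classical
  intro r p A σ D hp hσ hD ι J c F ν M hν hmod hc hF hM
  obtain ⟨col, h1, h2⟩ := Pack.colouring J (fun j k => ‖c j - c k‖ < σ / 2)
    (fun a b h => by rwa [norm_sub_rev]) (fun a => by simp; linarith) ⌊M⌋₊
    (fun j hj => Nat.le_floor (by convert hM j hj)) J (Finset.Subset.refl _)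
  have hmaps : ∀ j ∈ J, col j ∈ Finset.range ⌊M⌋₊ := fun j hj => Finset.mem_range.2 (h1 j hj)
  have hfam : ∀ n, Fam σ (J.filter (fun j => col j = n)) c F := by
    intro n
    refine ⟨fun j hj => hc j (Finset.mem_filter.1 hj).1, ?_,
      fun j hj => hF j (Finset.mem_filter.1 hj).1⟩
    intro j hj k hk hjk
    rw [Finset.mem_filter] at hj hk
    by_contra hlt
    exact h2 j hj.1 k hk.1 hjk (not_le.1 hlt) (hj.2.trans hk.2.symm)
  rw [← Finset.sum_fiberwise_of_maps_to hmaps F]
  refine (eLpNorm'_sum_le (fun n _ => ?_) hp).trans ?_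
  · exact Finset.aestronglyMeasurable_sum _
      (fun j hj => ((hfam n).continuous hj).aestronglyMeasurable)
  refine (Finset.sum_le_sum (fun n _ => hD ι _ c F ν hν hmod (hfam n))).trans ?_
  rw [← Finset.mul_sum, ENNReal.ofReal_mul' (Real.sqrt_nonneg M), mul_assoc]
  refine mul_le_mul_right ?_ _
  refine (Pack.cs _ _).trans ?_
  simp only [Pack.sq_sq]
  rw [Finset.sum_fiberwise_of_maps_to hmaps (fun j => eLpNorm' (F j) p ν ^ 2)]
  refine mul_le_mul_left ?_ _
  rw [Finset.card_range, ← ENNReal.ofReal_natCast,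
    ENNReal.ofReal_rpow_of_nonneg (by positivity) (by norm_num), ← Real.sqrt_eq_rpow]
  refine ENNReal.ofReal_le_ofReal ?_
  by_cases hM0 : 0 ≤ M
  · exact Real.sqrt_le_sqrt (Nat.floor_le hM0)
  · rw [Nat.floor_of_nonpos (le_of_lt (not_le.1 hM0))]; simp

end Pool.Agent.P.MP_7211b7_an
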