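import Pool.Agent.P.MP_7211b7_an.DefsA

/-! Parabolic rescaling. -/

open MeasureTheory
open scoped ENNReal

namespace Pool.Agent.P.MP_7211b7_an

namespace Resc

variable {r : ℕ}

/-- the rescaling map -/
noncomputable def L (ρ : ℝ) (c0 : Eu r) (x : Sp r) : Sp r := (ρ • (x.1 + x.2 • c0), ρ ^ 2 * x.2)

/-- its inverse -/
noncomputable def Li (ρ : ℝ) (c0 : Eu r) (x : Sp r) : Sp r :=
  (ρ⁻¹ • x.1 - (x.2 / ρ ^ 2) • c0, x.2 / ρ ^ 2)

theorem continuous_L (ρ : ℝ) (c0 : Eu r) : Continuous (L ρ c0) := by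
  unfold L; fun_prop

theorem Li_L {ρ : ℝ} (hρ : ρ ≠ 0) (c0 : Eu r) (x : Sp r) : Li ρ c0 (L ρ c0 x) = x := by
  have h : ρ ^ 2 * x.2 / ρ ^ 2 = x.2 := by field_simp
  refine Prod.ext ?_ ?_
  · simp only [Li, L, h, smul_smul, inv_mul_cancel₀ hρ, one_smul]
    abel
  · simp only [Li, L, h]

theorem L_add_Li {ρ : ℝ} (hρ : ρ ≠ 0) (c0 : Eu r) (x y : Sp r) :
    L ρ c0 (x + Li ρ c0 y) = L ρ c0 x + y := by
  refine Prod.ext ?_ ?_
  · simp only [Li, L, Prod.fst_add, Prod.snd_add]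
    have h : x.1 + (ρ⁻¹ • y.1 - (y.2 / ρ ^ 2) • c0) + (x.2 + y.2 / ρ ^ 2) • c0 =
        (x.1 + x.2 • c0) + ρ⁻¹ • y.1 := by
      rw [add_smul]; abel
    rw [h, smul_add ρ (x.1 + x.2 • c0), smul_smul, mul_inv_cancel₀ hρ, one_smul]
  · simp only [Li, L, Prod.snd_add]
    field_simp

theorem norm_Li {ρ : ℝ} (hρ : 0 < ρ) (hρ1 : ρ ≤ 1 / 2) {c0 : Eu r} (hc : ‖c0‖ ≤ 1 / 2) (y : Sp r) :
    ‖Li ρ c0 y‖ ≤ ‖y‖ / ρ ^ 2 := by
  have h1 : ‖y.1‖ ≤ ‖y‖ := norm_fst_le y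
  have h2 : |y.2| ≤ ‖y‖ := by rw [← Real.norm_eq_abs]; exact norm_snd_le y
  have h3 : |y.2 / ρ ^ 2| ≤ ‖y‖ / ρ ^ 2 := by
    rw [abs_div, abs_of_pos (by positivity : 0 < ρ ^ 2)]; gcongr
  have h0 := norm_nonneg y
  rw [Prod.norm_def]
  refine max_le ?_ ?_
  · simp only [Li]
    refine (norm_sub_le _ _).trans ?_
    rw [norm_smul, norm_smul, Real.norm_eq_abs, Real.norm_eq_abs, abs_of_pos (inv_pos.2 hρ)]
    have h4 : ρ⁻¹ * ‖y.1‖ ≤ ‖y‖ / ρ ^ 2 * (1 / 2) := by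
      calc ρ⁻¹ * ‖y.1‖ ≤ ρ⁻¹ * ‖y‖ := by gcongr
        _ = ‖y‖ / ρ ^ 2 * ρ := by field_simp
        _ ≤ _ := by gcongr
    have h5 : |y.2 / ρ ^ 2| * ‖c0‖ ≤ ‖y‖ / ρ ^ 2 * (1 / 2) := by gcongr
    linarith
  · simp only [Li]
    rw [Real.norm_eq_abs]; exact h3

theorem moderate {A : ℕ} {σ ρ : ℝ} (hρ : 0 < ρ) (hρ1 : ρ ≤ 1 / 2) {c0 : Eu r} (hc : ‖c0‖ ≤ 1 / 2)
    {ν : Measure (Sp r)} (hν : Moderate A (σ ^ 2) ν) :
    Moderate A ((σ / ρ) ^ 2) (ν.map (L ρ c0)) := by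
  intro y g hg
  have hL := (continuous_L ρ c0).measurable
  rw [lintegral_map (f := fun x => g (x + y)) (hg.comp (measurable_add_const y)) hL,
    lintegral_map hg hL]
  have h := hν (Li ρ c0 y) (fun x => g (L ρ c0 x)) (hg.comp hL)
  simp only [L_add_Li hρ.ne'] at h
  refine h.trans ?_
  have h1 := norm_Li hρ hρ1 hc y
  have h2 : σ ^ 2 * ‖Li ρ c0 y‖ ≤ (σ / ρ) ^ 2 * ‖y‖ := by
    calc σ ^ 2 * ‖Li ρ c0 y‖ ≤ σ ^ 2 * (‖y‖ / ρ ^ 2) := by gcongr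
      _ = _ := by field_simp
  gcongr

/-- the rescaled function -/
noncomputable def T (ρ : ℝ) (c0 : Eu r) (f : Sp r → ℂ) (x : Sp r) : ℂ :=
  f (Li ρ c0 x) * wave (-(c0, ‖c0‖ ^ 2 / 2)) (Li ρ c0 x)

theorem T_wave (ρ : ℝ) (c0 : Eu r) (ζ : Sp r) :
    T ρ c0 (wave ζ) =
      wave (ρ⁻¹ • (ζ.1 - c0), (ζ.2 - inner ℝ ζ.1 c0 + ‖c0‖ ^ 2 / 2) / ρ ^ 2) := by
  funext x
  unfold T
  rw [← add_wave]
  unfold wave
  congr 3
  simp only [Li, Prod.fst_add, Prod.snd_add, Prod.fst_neg, Prod.snd_neg, inner_add_left,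
    inner_neg_left, inner_sub_right, inner_sub_left, inner_smul_left, inner_smul_right,
    real_inner_self_eq_norm_sq, conj_trivial]
  ring

theorem T_mem {σ ρ : ℝ} (hρ : 0 < ρ) (c0 c : Eu r) {f : Sp r → ℂ}
    (hf : f ∈ Tr (cap c σ (σ ^ 2))) :
    T ρ c0 f ∈ Tr (cap (ρ⁻¹ • (c - c0)) (σ / ρ) ((σ / ρ) ^ 2)) := by
  refine Tr_induction
    (P := fun f => T ρ c0 f ∈ Tr (cap (ρ⁻¹ • (c - c0)) (σ / ρ) ((σ / ρ) ^ 2))) ?_ ?_ ?_ ?_ hf
  · rintro ζ ⟨h1, h2⟩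
    rw [T_wave]
    refine wave_mem_Tr ⟨?_, ?_⟩
    · simp only
      rw [← smul_sub, norm_smul, Real.norm_eq_abs, abs_of_pos (inv_pos.2 hρ), sub_sub_sub_cancel_right,
        div_eq_inv_mul]
      gcongr
    · simp only
      have h3 : (ζ.2 - inner ℝ ζ.1 c0 + ‖c0‖ ^ 2 / 2) / ρ ^ 2 - ‖ρ⁻¹ • (ζ.1 - c0)‖ ^ 2 / 2 =
          (ζ.2 - ‖ζ.1‖ ^ 2 / 2) / ρ ^ 2 := by
        rw [norm_smul, mul_pow, norm_sub_sq_real, Real.norm_eq_abs, sq_abs]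
        field_simp
        ring
      rw [h3, abs_div, abs_of_pos (by positivity : 0 < ρ ^ 2), div_pow]
      gcongr
  · have : T ρ c0 0 = 0 := by funext x; simp [T]
    simp only [this]
    exact Submodule.zero_mem _
  · intro f g hf hg
    have : T ρ c0 (f + g) = T ρ c0 f + T ρ c0 g := by funext x; simp [T, add_mul]
    simp only [this]
    exact Submodule.add_mem _ hf hg
  · intro a f hf
    have : T ρ c0 (a • f) = a • T ρ c0 f := by funext x; simp [T, mul_assoc]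
    simp only [this]
    exact Submodule.smul_mem _ a hf

theorem T_sum {ι : Type} (ρ : ℝ) (c0 : Eu r) (J : Finset ι) (F : ι → Sp r → ℂ) :
    ∑ j ∈ J, T ρ c0 (F j) = T ρ c0 (∑ j ∈ J, F j) := by
  funext x
  simp [T, Finset.sum_apply, Finset.sum_mul]

theorem norm_T {ρ : ℝ} (hρ : 0 < ρ) (c0 : Eu r) {f : Sp r → ℂ} (hf : Continuous f) (p : ℝ)
    (ν : Measure (Sp r)) : eLpNorm' (T ρ c0 f) p (ν.map (L ρ c0)) = eLpNorm' f p ν := by
  have hT : Continuous (T ρ c0 f) := by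
    have h1 : Continuous (Li ρ c0) := by unfold Li; fun_prop
    exact (hf.comp h1).mul ((continuous_wave _).comp h1)
  rw [eLpNorm'_eq_lintegral_enorm, eLpNorm'_eq_lintegral_enorm,
    lintegral_map (hT.measurable.enorm.pow_const p) (continuous_L ρ c0).measurable]
  congr 1
  refine lintegral_congr fun x => ?_
  congr 1
  simp only [T, Li_L hρ.ne']
  rw [enorm_mul, ← ofReal_norm (wave _ _), norm_wave]
  simp

theorem fibre {p : ℝ} {A : ℕ} {σ ρ D : ℝ} (hρ : 0 < ρ) (hρ1 : ρ ≤ 1 / 2)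
    (hD : Dec r p A (σ / ρ) D) {ι : Type} (J : Finset ι) (c : ι → Eu r) (F : ι → Sp r → ℂ)
    (ν : Measure (Sp r)) (h1 : IsFiniteMeasure ν) (h2 : Moderate A (σ ^ 2) ν) (h3 : Fam σ J c F)
    (c0 : Eu r) (hc : ‖c0‖ ≤ 1 / 2) (hn : ∀ j ∈ J, ‖c j - c0‖ ≤ ρ / 2) :
    eLpNorm' (∑ j ∈ J, F j) p ν ≤ ENNReal.ofReal D * sq p ν J F := by
  have hF : Fam (σ / ρ) J (fun j => ρ⁻¹ • (c j - c0)) (fun j => T ρ c0 (F j)) := by
    refine ⟨fun j hj => ?_, fun j hj k hk hjk => ?_, fun j hj => T_mem hρ c0 _ (h3.mem j hj)⟩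
    · rw [norm_smul, Real.norm_eq_abs, abs_of_pos (inv_pos.2 hρ)]
      calc ρ⁻¹ * ‖c j - c0‖ ≤ ρ⁻¹ * (ρ / 2) := by have := hn j hj; gcongr
        _ = 1 / 2 := by field_simp
    · rw [← smul_sub, norm_smul, Real.norm_eq_abs, abs_of_pos (inv_pos.2 hρ),
        sub_sub_sub_cancel_right]
      calc σ / ρ / 2 = ρ⁻¹ * (σ / 2) := by field_simp
        _ ≤ _ := by have := h3.sep j hj k hk hjk; gcongr
  have h := hD ι J _ _ (ν.map (L ρ c0)) inferInstance (moderate hρ hρ1 hc h2) hF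
  rw [T_sum, norm_T hρ c0 (by
    have : (∑ j ∈ J, F j) = fun x => ∑ j ∈ J, F j x := by funext x; simp [Finset.sum_apply]
    rw [this]
    exact continuous_finsetSum _ fun j hj => h3.continuous hj)] at h
  refine h.trans (le_of_eq ?_)
  congr 1
  unfold sq
  congr 1
  exact Finset.sum_congr rfl fun j hj => by rw [norm_T hρ c0 (h3.continuous hj)]

end Resc

theorem resc : RESC := by
  classical
  intro r p A σ ρ D _ _ hρ hρ1 hD ι J c F g ν h1 h2 h3 hg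
  have hk : ∀ k ∈ img J g, eLpNorm' (grp J g F k) p ν ^ 2 ≤
      ENNReal.ofReal D ^ 2 * ∑ j ∈ J.filter (fun j => g j = k), eLpNorm' (F j) p ν ^ 2 := by
    intro k hk
    obtain ⟨j0, hj0, rfl⟩ := mem_img.1 hk
    have h := Resc.fibre hρ hρ1 hD (J.filter (fun j => g j = g j0)) c F ν h1 h2
      (h3.mono (Finset.filter_subset _ _)) (c (g j0)) (h3.norm_le _ (hg j0 hj0).1) (fun j hj => by
        obtain ⟨hj1, hj2⟩ := Finset.mem_filter.1 hj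
        rw [← hj2]; exact (hg j hj1).2)
    have h4 : grp J g F (g j0) = ∑ j ∈ J.filter (fun j => g j = g j0), F j := by
      unfold grp; congr
    rw [h4]
    refine (pow_le_pow_left' h 2).trans (le_of_eq ?_)
    rw [mul_pow]
    congr 1
    unfold sq
    rw [← ENNReal.rpow_natCast, ← ENNReal.rpow_mul]
    norm_num
  have h5 : ∑ k ∈ img J g, eLpNorm' (grp J g F k) p ν ^ 2 ≤
      ENNReal.ofReal D ^ 2 * ∑ j ∈ J, eLpNorm' (F j) p ν ^ 2 := by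
    refine (Finset.sum_le_sum hk).trans (le_of_eq ?_)
    rw [← Finset.mul_sum]
    congr 1
    convert sum_img_filter J g fun j => eLpNorm' (F j) p ν ^ 2
  unfold sq
  refine (ENNReal.rpow_le_rpow h5 (by norm_num)).trans (le_of_eq ?_)
  rw [ENNReal.mul_rpow_of_nonneg _ _ (by norm_num), ← ENNReal.rpow_natCast, ← ENNReal.rpow_mul]
  norm_num

end Pool.Agent.P.MP_7211b7_an
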