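import Pool.Agent.P.MP_7211b7_an.DefsA

/-!
# Ball inflation (task STEP1)
-/

open MeasureTheory
open scoped ENNReal NNReal

namespace Pool.Agent.P.MP_7211b7_an

namespace Step1

theorem holder_sum {ι : Type} (J : Finset ι) (a b : ι → ℝ≥0∞) {θ : ℝ} (h0 : 0 < θ) (h1 : θ < 1) :
    ∑ j ∈ J, a j ^ θ * b j ^ (1 - θ) ≤ (∑ j ∈ J, a j) ^ θ * (∑ j ∈ J, b j) ^ (1 - θ) := by
  have h2 : 0 < 1 - θ := by linarith
  have hc : (1 / θ).HolderConjugate (1 / (1 - θ)) := by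
    rw [Real.holderConjugate_iff]
    refine ⟨by rw [lt_div_iff₀ h0]; linarith, by simp⟩
  have h := ENNReal.inner_le_Lp_mul_Lq J (fun j => a j ^ θ) (fun j => b j ^ (1 - θ)) hc
  have e1 : ∀ z : ℝ≥0∞, (z ^ θ) ^ (1 / θ) = z := fun z => by
    rw [← ENNReal.rpow_mul, mul_one_div_cancel h0.ne', ENNReal.rpow_one]
  have e2 : ∀ z : ℝ≥0∞, (z ^ (1 - θ)) ^ (1 / (1 - θ)) = z := fun z => by
    rw [← ENNReal.rpow_mul, mul_one_div_cancel h2.ne', ENNReal.rpow_one]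
  simpa only [e1, e2, one_div_one_div] using h

/-- the weight attached to a finite measure -/
noncomputable def wgt {X : Type} [MeasurableSpace X] (θ : ℝ) (μ : Measure X) : ℝ≥0 :=
  (μ Set.univ).toNNReal ^ (θ - 1)

theorem wgt_univ {X : Type} [MeasurableSpace X] {θ : ℝ} (h0 : 0 < θ) (μ : Measure X)
    [IsFiniteMeasure μ] : (wgt θ μ • μ) Set.univ = μ Set.univ ^ θ := by
  have hM : μ Set.univ = ((μ Set.univ).toNNReal : ℝ≥0∞) :=
    (ENNReal.coe_toNNReal (measure_ne_top μ _)).symm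
  unfold wgt
  rw [Measure.smul_apply, ENNReal.smul_def, smul_eq_mul]
  generalize (μ Set.univ).toNNReal = M at hM
  rw [hM, ← ENNReal.coe_mul, ← ENNReal.coe_rpow_of_nonneg _ h0.le]
  congr 1
  rcases eq_or_ne M 0 with rfl | hM0
  · simp [NNReal.zero_rpow h0.ne']
  · rw [NNReal.rpow_sub_one hM0]; field_simp

theorem wgt_pow {X : Type} [MeasurableSpace X] {θ : ℝ} (h0 : 0 < θ) (h1 : θ < 1) (μ : Measure X)
    [IsFiniteMeasure μ] (f : X → ℝ≥0∞) :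
    (∫⁻ z, f z ∂μ) ^ θ ≤ (∫⁻ z, f z ∂(wgt θ μ • μ)) ^ θ * (μ Set.univ ^ θ) ^ (1 - θ) := by
  rcases eq_or_ne (μ Set.univ) 0 with h | h
  · rw [Measure.measure_univ_eq_zero] at h
    subst h
    simp [ENNReal.zero_rpow_of_pos h0]
  have hM : μ Set.univ = ((μ Set.univ).toNNReal : ℝ≥0∞) :=
    (ENNReal.coe_toNNReal (measure_ne_top μ _)).symm
  unfold wgt
  rw [lintegral_smul_measure, ENNReal.smul_def, smul_eq_mul]
  generalize (μ Set.univ).toNNReal = M at hM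
  have hM0 : M ≠ 0 := by rintro rfl; exact h (by simpa using hM)
  rw [hM, ENNReal.mul_rpow_of_nonneg _ _ h0.le, mul_right_comm, ← ENNReal.coe_rpow_of_ne_zero hM0,
    ← ENNReal.coe_rpow_of_nonneg _ h0.le, ← ENNReal.coe_rpow_of_nonneg _ (by linarith),
    ← ENNReal.coe_mul, ← NNReal.rpow_mul, ← NNReal.rpow_mul, ← NNReal.rpow_add hM0]
  have : (θ - 1) * θ + θ * (1 - θ) = 0 := by ring
  rw [this]; simp

theorem measurable_kT {r : ℕ} {ι : Type} (W : ℝ) (J : Finset ι) (dir : ι → Eu r)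
    (μ : ι → Measure (Eu r)) (hμ : ∀ j, IsFiniteMeasure (μ j)) : Measurable (kT W J dir μ) := by
  unfold kT
  refine Finset.measurable_sum _ fun j _ => ?_
  have := hμ j
  refine Measurable.lintegral_prod_right'
    (f := fun z : Sp r × Eu r => prof W (z.1.1 + z.1.2 • dir j - z.2)) ?_
  exact (measurable_prof W).comp (by fun_prop)

theorem vol_ball (r : ℕ) : ∃ v : ℝ, 0 < v ∧ ∀ R : ℝ, 0 ≤ R →
    volume (Metric.closedBall (0 : Sp r) R) ≤ ENNReal.ofReal (v * R ^ (r + 1)) := by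
  have : (volume : Measure (Sp r)).IsAddHaarMeasure :=
    Measure.prod.instIsAddHaarMeasure (volume : Measure (Eu r)) (volume : Measure ℝ)
  refine ⟨(volume (Metric.ball (0 : Sp r) 1)).toReal + 1, by positivity, fun R hR => ?_⟩
  rw [Measure.addHaar_closedBall _ _ hR, mul_comm, ENNReal.ofReal_mul (by positivity)]
  have e : Module.finrank ℝ (Sp r) = r + 1 := by simp
  rw [e]
  gcongr
  rw [ENNReal.ofReal_add (by positivity) zero_le_one, ENNReal.ofReal_toReal measure_ball_lt_top.ne]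
  exact le_self_add

theorem jensen {X : Type} [MeasurableSpace X] (μ : Measure X) {H : X → ℝ≥0∞} (hH : Measurable H)
    {β : ℝ} (h0 : 0 ≤ β) (h1 : β ≤ 1) :
    ∫⁻ x, H x ^ β ∂μ ≤ (∫⁻ x, H x ∂μ) ^ β * μ Set.univ ^ (1 - β) := by
  have h := ENNReal.lintegral_mul_norm_pow_le (μ := μ) (f := H) (g := fun _ => 1) hH.aemeasurable
    aemeasurable_const h0 (sub_nonneg.2 h1) (by ring)
  simpa using h

theorem consts {C1 C2 C3 v u ε β q θ : ℝ} {r : ℕ} (h1 : 0 < C1) (h2 : 0 < C2) (h3 : 0 < C3)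
    (hv : 0 < v) (hu : 1 ≤ u) (hε : 0 < ε) (hβ1 : β ≤ 1) (e : r * (θ * q) = β) :
    (C1 ^ q) ^ (r + 1) * ((C3 * u ^ ε * u ^ (r + 1)) ^ β * (v * (u ^ 2) ^ (r + 1)) ^ (1 - β)) *
        (((C2 * u ^ r) ^ θ) ^ q) ^ (r + 1)
      ≤ ((C1 ^ q) ^ (r + 1) * C3 ^ β * v ^ (1 - β) * ((C2 ^ θ) ^ q) ^ (r + 1)) * u ^ ε *
        (u ^ 2) ^ (r + 1) := by
  have hu0 : 0 < u := by linarith
  have k1 : (C3 * u ^ ε * u ^ (r + 1)) ^ β = C3 ^ β * u ^ (ε * β) * u ^ ((r + 1 : ℝ) * β) := by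
    rw [Real.mul_rpow (by positivity) (by positivity), Real.mul_rpow (by positivity) (by positivity),
      ← Real.rpow_mul hu0.le, ← Real.rpow_natCast, ← Real.rpow_mul hu0.le]
    push_cast; rfl
  have k2 : (v * (u ^ 2) ^ (r + 1)) ^ (1 - β) = v ^ (1 - β) * u ^ (2 * (r + 1 : ℝ) * (1 - β)) := by
    rw [Real.mul_rpow (by positivity) (by positivity), ← pow_mul, ← Real.rpow_natCast,
      ← Real.rpow_mul hu0.le]
    push_cast; rfl
  have k3 : (((C2 * u ^ r) ^ θ) ^ q) ^ (r + 1)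
      = ((C2 ^ θ) ^ q) ^ (r + 1) * u ^ ((r + 1 : ℝ) * β) := by
    rw [Real.mul_rpow (by positivity) (by positivity), Real.mul_rpow (by positivity) (by positivity),
      mul_pow, ← Real.rpow_natCast u r, ← Real.rpow_mul hu0.le, ← Real.rpow_mul hu0.le,
      ← Real.rpow_natCast (u ^ _), ← Real.rpow_mul hu0.le, ← e]
    congr 2
    push_cast; ring
  have k4 : (u ^ 2) ^ (r + 1) = u ^ (2 * (r + 1 : ℝ)) := by
    rw [← pow_mul, ← Real.rpow_natCast]; push_cast; rfl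
  have k5 : u ^ (ε * β) * u ^ ((r + 1 : ℝ) * β) * u ^ (2 * (r + 1 : ℝ) * (1 - β)) *
      u ^ ((r + 1 : ℝ) * β) ≤ u ^ ε * u ^ (2 * (r + 1 : ℝ)) := by
    simp only [← Real.rpow_add hu0]
    refine Real.rpow_le_rpow_of_exponent_le hu ?_
    nlinarith
  rw [k1, k2, k3, k4]
  have k6 : 0 ≤ (C1 ^ q) ^ (r + 1) * C3 ^ β * v ^ (1 - β) * ((C2 ^ θ) ^ q) ^ (r + 1) := by
    positivity
  calc _ = ((C1 ^ q) ^ (r + 1) * C3 ^ β * v ^ (1 - β) * ((C2 ^ θ) ^ q) ^ (r + 1)) *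
        (u ^ (ε * β) * u ^ ((r + 1 : ℝ) * β) * u ^ (2 * (r + 1 : ℝ) * (1 - β)) *
          u ^ ((r + 1 : ℝ) * β)) := by ring
    _ ≤ _ := by rw [mul_assoc _ (u ^ ε)]; exact mul_le_mul_of_nonneg_left k5 k6

end Step1

open Step1 in
theorem step1 : W8 → TUBE → KAK → STEP1 := by
  intro hW8 hT hK r a p Λ ε hr ha hp hrp hε
  have hp0 : 0 < p := by linarith
  have hr0 : (0 : ℝ) < r := by exact_mod_cast hr
  set t : ℝ := 4 * p / (p + 2) with ht
  set θ : ℝ := (p + 2) / (2 * p) with hθ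
  set q : ℝ := p / (2 * (r + 1 : ℝ)) with hq
  have hθ0 : 0 < θ := by positivity
  have hθ1 : θ < 1 := by rw [hθ, div_lt_one (by positivity)]; linarith
  have hq0 : 0 < q := by positivity
  have ht1 : 1 ≤ t := by rw [ht, le_div_iff₀ (by positivity)]; linarith
  have htθ : t * θ = 2 := by rw [ht, hθ]; field_simp; ring
  set β : ℝ := r * (θ * q) with hβ
  have hβ0 : 0 ≤ β := by positivity
  have hβ1 : β ≤ 1 := by
    have : β = r * (p + 2) / (4 * (r + 1)) := by rw [hβ, hθ, hq]; field_simp; ring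
    rw [this, div_le_one (by positivity)]; linarith
  have hβr : 1 / (r : ℝ) * β = θ * q := by rw [hβ]; field_simp
  obtain ⟨C1, hC1, h1⟩ := hW8 r a ha
  obtain ⟨C2, hC2, h2⟩ := hT r a t ha ht1
  obtain ⟨κ0, C3, hκ, hC3, h3⟩ := hK r Λ ε hr hε
  obtain ⟨v, hv, h4⟩ := vol_ball r
  refine ⟨κ0, (C1 ^ q) ^ (r + 1) * C3 ^ β * v ^ (1 - β) * ((C2 ^ θ) ^ q) ^ (r + 1), hκ,
    by positivity, ?_⟩
  intro ι c0 J c F ρ hΛ hc0 hρ0 hρ1 hF hc
  have hex : ∀ i j, ∃ μ : Measure (Eu r), IsFiniteMeasure μ ∧ (j ∈ J i →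
      μ Set.univ ≤ ENNReal.ofReal (C2 * (ρ ^ r)⁻¹) * av a (ρ ^ 2)⁻¹ (fun y => ‖F i j y‖ₑ ^ t) 0 ∧
      ∀ x : Sp r, ‖x‖ ≤ (ρ ^ 2)⁻¹ →
        av a ρ⁻¹ (fun y => ‖F i j y‖ₑ ^ t) x ≤ ∫⁻ ζ, prof ρ⁻¹ (x.1 + x.2 • c i j - ζ) ∂μ) := by
    intro i j
    by_cases hj : j ∈ J i
    · obtain ⟨μ, m1, m2⟩ := h2 ρ (c i j) hρ0 hρ1 ((hF i).norm_le j hj) _ ((hF i).mem j hj)
      exact ⟨μ, m1, fun _ => m2⟩
    · exact ⟨0, inferInstance, fun h => absurd h hj⟩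
  choose μ hμ hμ' using hex
  set u : ℝ := ρ⁻¹ with hu
  have hu1 : 1 ≤ u := one_le_inv_iff₀.2 ⟨hρ0, hρ1⟩
  have hu0 : 0 < u := by linarith
  have eR : (ρ ^ 2)⁻¹ = u ^ 2 := by rw [hu, inv_pow]
  have er : (ρ ^ r)⁻¹ = u ^ r := by rw [hu, inv_pow]
  have eε : ρ ^ (-ε) = u ^ ε := by rw [hu, Real.inv_rpow hρ0.le, Real.rpow_neg hρ0.le]
  rw [eR, er] at hμ'
  rw [eR, eε]
  set μ' : Fin (r + 1) → ι → Measure (Eu r) := fun i j => wgt θ (μ i j) • μ i j with hμd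
  have hfin : ∀ i j, IsFiniteMeasure (μ' i j) := fun i j => by
    have := hμ i j
    rw [hμd]; infer_instance
  have hk := h3 ι c0 J c μ' u (u ^ 2) hΛ hc0 hu0 (by nlinarith) hc hfin
  have eu : u ^ 2 / u = u := by field_simp
  rw [eu] at hk
  set S : Fin (r + 1) → ℝ≥0∞ := fun i => ∑ j ∈ J i, μ i j Set.univ ^ θ with hS
  have eS : ∀ i, ∑ j ∈ J i, μ' i j Set.univ = S i := fun i =>
    Finset.sum_congr rfl fun j _ => by have := hμ i j; exact wgt_univ hθ0 _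
  simp only [eS] at hk
  set B := Metric.closedBall (0 : Sp r) (u ^ 2) with hB
  set H : Sp r → ℝ≥0∞ := fun x => ∏ i, kT u (J i) (c i) (μ' i) x ^ (1 / (r : ℝ)) with hH
  have hHm : Measurable H :=
    Finset.measurable_prod _ fun i _ => (measurable_kT _ _ _ _ (hfin i)).pow_const _
  have pt : ∀ x ∈ B, ∀ i, ∑ j ∈ J i, av a u (fun y => ‖F i j y‖ₑ ^ (2 : ℝ)) x
      ≤ ENNReal.ofReal C1 * (kT u (J i) (c i) (μ' i) x ^ θ * S i ^ (1 - θ)) := by
    intro x hx i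
    have hx' : ‖x‖ ≤ u ^ 2 := by simpa [hB] using hx
    refine le_trans ?_ (mul_le_mul_right (holder_sum (J i) _ _ hθ0 hθ1) _)
    rw [Finset.mul_sum]
    refine Finset.sum_le_sum fun j hj => ?_
    have hm : Measurable fun y => ‖F i j y‖ₑ ^ t :=
      ((hF i).continuous hj).enorm.measurable.pow_const _
    have := h1 u θ _ x hu0 hθ0 hθ1.le hm
    simp only [← ENNReal.rpow_mul, htθ] at this
    refine this.trans (mul_le_mul_right ?_ _)
    have := hμ i j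
    exact (ENNReal.rpow_le_rpow ((hμ' i j hj).2 x hx') hθ0.le).trans (wgt_pow hθ0 hθ1 _ _)
  have pt2 : ∀ x ∈ B, ∏ i, (∑ j ∈ J i, av a u (fun y => ‖F i j y‖ₑ ^ (2 : ℝ)) x) ^ q
      ≤ (ENNReal.ofReal ((C1 ^ q) ^ (r + 1)) * ∏ i, S i ^ ((1 - θ) * q)) * H x ^ β := by
    intro x hx
    refine (Finset.prod_le_prod' fun i _ => ENNReal.rpow_le_rpow (pt x hx i) hq0.le).trans
      (le_of_eq ?_)
    simp only [ENNReal.mul_rpow_of_nonneg _ _ hq0.le, Finset.prod_mul_distrib, hH,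
      ← ENNReal.prod_rpow_of_nonneg hβ0, ← ENNReal.rpow_mul, hβr, Finset.prod_const,
      Finset.card_univ, Fintype.card_fin]
    rw [ENNReal.ofReal_pow (by positivity), ENNReal.ofReal_rpow_of_pos hC1]
    ring
  have hSm : ∀ i, S i ^ q ≤ ENNReal.ofReal (((C2 * u ^ r) ^ θ) ^ q) *
      (∑ j ∈ J i, av a (u ^ 2) (fun y => ‖F i j y‖ₑ ^ t) 0 ^ θ) ^ q := by
    intro i
    rw [← ENNReal.ofReal_rpow_of_pos (by positivity), ← ENNReal.mul_rpow_of_nonneg _ _ hq0.le]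
    refine ENNReal.rpow_le_rpow ?_ hq0.le
    rw [Finset.mul_sum]
    refine Finset.sum_le_sum fun j hj => ?_
    rw [← ENNReal.ofReal_rpow_of_pos (by positivity), ← ENNReal.mul_rpow_of_nonneg _ _ hθ0.le]
    exact ENNReal.rpow_le_rpow (hμ' i j hj).1 hθ0.le
  have hj := jensen (volume.restrict B) hHm hβ0 hβ1
  rw [Measure.restrict_apply_univ] at hj
  calc _ ≤ ∫⁻ x in B, (ENNReal.ofReal ((C1 ^ q) ^ (r + 1)) * ∏ i, S i ^ ((1 - θ) * q)) * H x ^ β :=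
        setLIntegral_mono' measurableSet_closedBall pt2
    _ = (ENNReal.ofReal ((C1 ^ q) ^ (r + 1)) * ∏ i, S i ^ ((1 - θ) * q)) * ∫⁻ x in B, H x ^ β :=
        lintegral_const_mul _ (hHm.pow_const _)
    _ ≤ (ENNReal.ofReal ((C1 ^ q) ^ (r + 1)) * ∏ i, S i ^ ((1 - θ) * q)) *
        ((ENNReal.ofReal (C3 * u ^ ε * u ^ (r + 1)) * ∏ i, S i ^ (1 / (r : ℝ))) ^ β *
          ENNReal.ofReal (v * (u ^ 2) ^ (r + 1)) ^ (1 - β)) := by
        refine mul_le_mul_right (hj.trans (mul_le_mul' (ENNReal.rpow_le_rpow hk hβ0)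
          (ENNReal.rpow_le_rpow (h4 _ (by positivity)) (by linarith)))) _
    _ = ENNReal.ofReal ((C1 ^ q) ^ (r + 1) * ((C3 * u ^ ε * u ^ (r + 1)) ^ β *
          (v * (u ^ 2) ^ (r + 1)) ^ (1 - β))) * ∏ i, S i ^ q := by
        have e : ∏ i, S i ^ q = (∏ i, S i ^ ((1 - θ) * q)) * ∏ i, S i ^ (θ * q) := by
          rw [← Finset.prod_mul_distrib]
          refine Finset.prod_congr rfl fun i _ => ?_
          rw [← ENNReal.rpow_add_of_nonneg _ _ (mul_nonneg (by linarith) hq0.le) (by positivity)]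
          congr 1; ring
        rw [e, ENNReal.mul_rpow_of_nonneg _ _ hβ0, ← ENNReal.prod_rpow_of_nonneg hβ0,
          ENNReal.ofReal_rpow_of_pos (by positivity), ENNReal.ofReal_rpow_of_pos (by positivity),
          ENNReal.ofReal_mul (p := (C1 ^ q) ^ (r + 1)) (by positivity),
          ENNReal.ofReal_mul (p := (C3 * u ^ ε * u ^ (r + 1)) ^ β) (by positivity)]
        simp only [← ENNReal.rpow_mul, hβr]
        ring
    _ ≤ ENNReal.ofReal ((C1 ^ q) ^ (r + 1) * ((C3 * u ^ ε * u ^ (r + 1)) ^ β *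
          (v * (u ^ 2) ^ (r + 1)) ^ (1 - β))) * ∏ i, (ENNReal.ofReal (((C2 * u ^ r) ^ θ) ^ q) *
            (∑ j ∈ J i, av a (u ^ 2) (fun y => ‖F i j y‖ₑ ^ t) 0 ^ θ) ^ q) :=
        mul_le_mul_right (Finset.prod_le_prod' fun i _ => hSm i) _
    _ ≤ _ := by
        rw [Finset.prod_mul_distrib, Finset.prod_const, Finset.card_univ, Fintype.card_fin,
          ← ENNReal.ofReal_pow (by positivity), ← mul_assoc,
          ← ENNReal.ofReal_mul (by positivity)]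
        exact mul_le_mul_left
          (ENNReal.ofReal_le_ofReal (consts hC1 hC2 hC3 hv hu1 hε hβ1 hβ.symm)) _

end Pool.Agent.P.MP_7211b7_an
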