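import Pool.Agent.P.MP_7211b7_an.DefsA

/-! One step of the multiscale iteration. -/

open MeasureTheory
open scoped ENNReal

namespace Pool.Agent.P.MP_7211b7_an

namespace Step2

theorem meas_pow {r : ℕ} {f : Sp r → ℂ} (hf : Continuous f) (t : ℝ) :
    Measurable fun y => ‖f y‖ₑ ^ t :=
  hf.measurable.enorm.pow_const t

theorem meas_prod {r : ℕ} {ι : Type} (a : ℕ) (R t θ e : ℝ) (J : Fin (r + 1) → Finset ι)
    (F : Fin (r + 1) → ι → Sp r → ℂ) (hF : ∀ i, ∀ j ∈ J i, Continuous (F i j)) :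
    Measurable fun x => ∏ i, (∑ j ∈ J i, av a R (fun y => ‖F i j y‖ₑ ^ t) x ^ θ) ^ e :=
  Finset.measurable_prod _ fun i _ => (Finset.measurable_sum _ fun j hj =>
    (measurable_av a R (meas_pow (hF i j hj) t)).pow_const θ).pow_const e

theorem meas_prod' {r : ℕ} {ι : Type} (a : ℕ) (R t e : ℝ) (J : Fin (r + 1) → Finset ι)
    (F : Fin (r + 1) → ι → Sp r → ℂ) (hF : ∀ i, ∀ j ∈ J i, Continuous (F i j)) :
    Measurable fun x => ∏ i, (∑ j ∈ J i, av a R (fun y => ‖F i j y‖ₑ ^ t) x) ^ e := by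
  simpa using meas_prod a R t 1 e J F hF

theorem interp {r : ℕ} (a : ℕ) (R : ℝ) {p : ℝ} (hp : 0 < p) {f : Sp r → ℂ} (hf : Continuous f)
    (x : Sp r) :
    av a R (fun y => ‖f y‖ₑ ^ (4 * p / (p + 2))) x ^ ((p + 2) / (2 * p)) ≤
      av a R (fun y => ‖f y‖ₑ ^ (2 : ℝ)) x ^ (1 / 2 : ℝ) *
        (av a R (fun y => ‖f y‖ₑ ^ p) x ^ (2 / p)) ^ (1 / 2 : ℝ) := by
  have hp2 : 0 < p + 2 := by linarith
  have h := ENNReal.lintegral_mul_norm_pow_le (μ := wm r a R)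
    (f := fun y => ‖f (x + y)‖ₑ ^ (2 : ℝ)) (g := fun y => ‖f (x + y)‖ₑ ^ p)
    ((meas_pow hf 2).comp (measurable_const_add x)).aemeasurable
    ((meas_pow hf p).comp (measurable_const_add x)).aemeasurable
    (p := p / (p + 2)) (q := 2 / (p + 2)) (by positivity) (by positivity) (by field_simp)
  have e1 : ∀ z : ℝ≥0∞, (z ^ (2 : ℝ)) ^ (p / (p + 2)) * (z ^ p) ^ (2 / (p + 2)) =
      z ^ (4 * p / (p + 2)) := fun z => by
    rw [← ENNReal.rpow_mul, ← ENNReal.rpow_mul,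
      ← ENNReal.rpow_add_of_nonneg _ _ (by positivity) (by positivity)]
    congr 1
    field_simp
    ring
  simp only [e1] at h
  rw [lintegral_wm a R (meas_pow hf (4 * p / (p + 2))), lintegral_wm a R (meas_pow hf 2),
    lintegral_wm a R (meas_pow hf p)] at h
  refine (ENNReal.rpow_le_rpow h (by positivity)).trans_eq ?_
  rw [ENNReal.mul_rpow_of_nonneg _ _ (by positivity), ← ENNReal.rpow_mul, ← ENNReal.rpow_mul,
    ← ENNReal.rpow_mul]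
  congr 2 <;> field_simp

theorem cs {ι : Type} (J : Finset ι) (u w : ι → ℝ≥0∞) :
    ∑ j ∈ J, u j ^ (1 / 2 : ℝ) * w j ^ (1 / 2 : ℝ) ≤
      (∑ j ∈ J, u j) ^ (1 / 2 : ℝ) * (∑ j ∈ J, w j) ^ (1 / 2 : ℝ) := by
  have h := ENNReal.inner_le_Lp_mul_Lq J (fun j => u j ^ (1 / 2 : ℝ)) (fun j => w j ^ (1 / 2 : ℝ))
    Real.HolderConjugate.two_two
  have e1 : ∀ z : ℝ≥0∞, (z ^ (1 / 2 : ℝ)) ^ (2 : ℝ) = z := fun z => by
    rw [← ENNReal.rpow_mul]; norm_num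
  simpa only [e1] using h

theorem prod_split {n : ℕ} (U W : Fin n → ℝ≥0∞) {e : ℝ} (he : 0 ≤ e) :
    ∏ i, (U i ^ (1 / 2 : ℝ) * W i ^ (1 / 2 : ℝ)) ^ e =
      (∏ i, U i ^ e) ^ (1 / 2 : ℝ) * (∏ i, W i ^ e) ^ (1 / 2 : ℝ) := by
  rw [← ENNReal.prod_rpow_of_nonneg (by norm_num), ← ENNReal.prod_rpow_of_nonneg (by norm_num),
    ← Finset.prod_mul_distrib]
  refine Finset.prod_congr rfl fun i _ => ?_
  rw [ENNReal.mul_rpow_of_nonneg _ _ he, ← ENNReal.rpow_mul, ← ENNReal.rpow_mul,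
    ← ENNReal.rpow_mul, ← ENNReal.rpow_mul, mul_comm e]

theorem mid {r : ℕ} {ι : Type} (a : ℕ) (R : ℝ) {p e : ℝ} (hp : 0 < p) (he : 0 ≤ e)
    (ν : Measure (Sp r)) (J : Fin (r + 1) → Finset ι) (F : Fin (r + 1) → ι → Sp r → ℂ)
    (hF : ∀ i, ∀ j ∈ J i, Continuous (F i j)) :
    ∫⁻ x, ∏ i, (∑ j ∈ J i, av a R (fun y => ‖F i j y‖ₑ ^ (4 * p / (p + 2))) x
        ^ ((p + 2) / (2 * p))) ^ e ∂ν ≤
      (∫⁻ x, ∏ i, (∑ j ∈ J i, av a R (fun y => ‖F i j y‖ₑ ^ (2 : ℝ)) x) ^ e ∂ν) ^ (1 / 2 : ℝ) *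
      (∫⁻ x, ∏ i, (∑ j ∈ J i, av a R (fun y => ‖F i j y‖ₑ ^ p) x ^ (2 / p)) ^ e ∂ν)
        ^ (1 / 2 : ℝ) := by
  refine le_trans (lintegral_mono fun x => ?_) (ENNReal.lintegral_mul_norm_pow_le
    (meas_prod' a R 2 e J F hF).aemeasurable (meas_prod a R p (2 / p) e J F hF).aemeasurable
    (by norm_num) (by norm_num) (by norm_num))
  rw [← prod_split _ _ he]
  refine Finset.prod_le_prod' fun i _ => ENNReal.rpow_le_rpow ?_ he
  exact (Finset.sum_le_sum fun j hj => interp a R hp (hF i j hj) x).trans (cs _ _ _)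

end Step2

open Step2 in
theorem step2 : W3a → STEP1 → HOLD → ORTH → STEP2 := by
  classical
  intro h3 h1 hH hO r a A p Λ ε hr ha hp hrp hε
  obtain ⟨C3, hC3, h3⟩ := h3 r A
  obtain ⟨κ0, C1, hκ, hC1, h1⟩ := h1 r a p Λ ε hr (by omega) hp hrp hε
  obtain ⟨CH, hCH, hH⟩ := hH r a A p ha hp.le
  obtain ⟨CO, hCO, hO⟩ := hO r a (by omega)
  have hp0 : 0 < p := by linarith
  set e : ℝ := p / (2 * (r + 1 : ℝ)) with he
  have he0 : 0 ≤ e := by positivity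
  set c2 : ℝ≥0∞ := ((ENNReal.ofReal CO ^ e) ^ (r + 1)) ^ (1 / 2 : ℝ) *
    ENNReal.ofReal CH ^ (1 / 2 : ℝ) with hc2
  have hc2t : c2 ≠ ⊤ := ENNReal.mul_ne_top
    (ENNReal.rpow_ne_top_of_nonneg (by norm_num)
      (ENNReal.pow_ne_top (ENNReal.rpow_ne_top_of_nonneg he0 ENNReal.ofReal_ne_top)))
    (ENNReal.rpow_ne_top_of_nonneg (by norm_num) ENNReal.ofReal_ne_top)
  refine ⟨κ0, C3 * C1 * (c2.toReal + 1), hκ, by positivity, ?_⟩
  intro ι c0 J c F g ν ρ s hT hc0 hρ hρ1 hs hsρ hν hM hF hκ0 hg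
  have hρ2 : 0 < ρ ^ 2 := by positivity
  have hR : 0 < (ρ ^ 2)⁻¹ := by positivity
  have hsR : s * (ρ ^ 2)⁻¹ ≤ 1 := by rwa [← div_eq_mul_inv, div_le_one hρ2]
  have hG : ∀ i, Fam ρ (img (J i) (g i)) (c i) (grp (J i) (g i) (F i)) := fun i =>
    (hF i).group (hg i) hρ2.le
  have hGc : ∀ i, ∀ k ∈ img (J i) (g i), Continuous (grp (J i) (g i) (F i) k) := fun i k hk =>
    (hG i).continuous hk
  have hGκ : ∀ i, ∀ k ∈ img (J i) (g i), ‖c i k - c0 i‖ ≤ κ0 := fun i k hk => by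
    obtain ⟨j, hj, rfl⟩ := mem_img.1 hk
    exact hκ0 i _ ((hg i).maps j hj)
  have s1 := h3 _ s ν _ hR hs hsR hν hM
    (meas_prod' a ρ⁻¹ 2 e (fun i => img (J i) (g i)) (fun i => grp (J i) (g i) (F i)) hGc)
  have s2 : ∀ x0 : Sp r, ∫⁻ y in Metric.closedBall (0 : Sp r) (ρ ^ 2)⁻¹,
      ∏ i, (∑ k ∈ img (J i) (g i),
        av a ρ⁻¹ (fun y => ‖grp (J i) (g i) (F i) k y‖ₑ ^ (2 : ℝ)) (x0 + y)) ^ e ≤
      ENNReal.ofReal (C1 * ρ ^ (-ε) * ((ρ ^ 2)⁻¹) ^ (r + 1)) *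
        ∏ i, (∑ k ∈ img (J i) (g i), av a (ρ ^ 2)⁻¹
          (fun y => ‖grp (J i) (g i) (F i) k y‖ₑ ^ (4 * p / (p + 2))) x0
            ^ ((p + 2) / (2 * p))) ^ e := fun x0 => by
    have h := h1 ι c0 (fun i => img (J i) (g i)) c
      (fun i k x => grp (J i) (g i) (F i) k (x0 + x)) ρ hT hc0 hρ hρ1
      (fun i => (hG i).translate x0) hGκ
    have t1 : ∀ (R t : ℝ) (f : Sp r → ℂ) (x : Sp r),
        av a R (fun y => ‖f (x0 + y)‖ₑ ^ t) x = av a R (fun y => ‖f y‖ₑ ^ t) (x0 + x) :=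
      fun R t f x => av_translate a R (fun y => ‖f y‖ₑ ^ t) x0 x
    simpa only [t1, add_zero] using h
  have s3 := mid a (ρ ^ 2)⁻¹ hp0 he0 ν (fun i => img (J i) (g i))
    (fun i => grp (J i) (g i) (F i)) hGc
  have s4 := (hH ι (fun i => img (J i) (g i)) (fun i => grp (J i) (g i) (F i)) ν _ s hR hs hsR hν
    hM hGc).1
  have s5 : ∫⁻ x, ∏ i, (∑ k ∈ img (J i) (g i),
      av a (ρ ^ 2)⁻¹ (fun y => ‖grp (J i) (g i) (F i) k y‖ₑ ^ (2 : ℝ)) x) ^ e ∂ν ≤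
      (ENNReal.ofReal CO ^ e) ^ (r + 1) * AA p a (ρ ^ 2)⁻¹ ν J F := by
    unfold AA
    rw [← lintegral_const_mul _ (meas_prod' a _ 2 _ J F fun i j hj => (hF i).continuous hj)]
    refine lintegral_mono fun x => ?_
    rw [← Fin.prod_const (r + 1), ← Finset.prod_mul_distrib]
    refine Finset.prod_le_prod' fun i _ => ?_
    rw [← ENNReal.mul_rpow_of_nonneg _ _ he0]
    refine ENNReal.rpow_le_rpow ?_ he0
    rw [← sum_img_filter (J i) (g i), Finset.mul_sum]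
    exact Finset.sum_le_sum fun k _ =>
      hO ι _ (c i) (F i) (ρ ^ 2) x hρ2 ((hF i).mono (Finset.filter_subset _ _))
  have s6 := s3.trans (mul_le_mul' (ENNReal.rpow_le_rpow s5 (by norm_num))
    (ENNReal.rpow_le_rpow s4 (by norm_num)))
  rw [ENNReal.mul_rpow_of_nonneg _ _ (by norm_num), ENNReal.mul_rpow_of_nonneg _ _ (by norm_num),
    mul_mul_mul_comm, ← hc2] at s6
  have s7 := (lintegral_mono (μ := ν) s2).trans_eq
    (lintegral_const_mul' _ _ ENNReal.ofReal_ne_top)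
  have s8 : ENNReal.ofReal (C3 * (((ρ ^ 2)⁻¹) ^ (r + 1))⁻¹) *
      (ENNReal.ofReal (C1 * ρ ^ (-ε) * ((ρ ^ 2)⁻¹) ^ (r + 1)) * c2) ≤
      ENNReal.ofReal (C3 * C1 * (c2.toReal + 1) * ρ ^ (-ε)) := by
    have hpos : 0 < ((ρ ^ 2)⁻¹) ^ (r + 1) := by positivity
    have hε' : 0 < ρ ^ (-ε) := Real.rpow_pos_of_pos hρ _
    conv_lhs => rw [← ENNReal.ofReal_toReal hc2t]
    rw [← ENNReal.ofReal_mul (by positivity), ← ENNReal.ofReal_mul (by positivity)]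
    refine ENNReal.ofReal_le_ofReal ?_
    generalize ((ρ ^ 2)⁻¹) ^ (r + 1) = Q at hpos
    have : C3 * Q⁻¹ * (C1 * ρ ^ (-ε) * Q * c2.toReal) = C3 * C1 * c2.toReal * ρ ^ (-ε) := by
      field_simp
    rw [this]
    gcongr
    linarith
  refine s1.trans ((mul_le_mul_right (s7.trans (mul_le_mul_right s6 _)) _).trans ?_)
  rw [← mul_assoc _ c2, ← mul_assoc, mul_assoc (ENNReal.ofReal (C3 * C1 * _ * _))]
  exact mul_le_mul_left s8 _

end Pool.Agent.P.MP_7211b7_an
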