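import Pool.Agent.P.MP_7211b7_an.TTAux

/-! The Stein-Tomas argument on a level set of the torus flow. -/

open MeasureTheory Finset
open scoped ComplexConjugate

namespace Pool.Agent.P.MP_7211b7_an

namespace TT

/-- phase -/
noncomputable def ph {r : ℕ} (θ : Fin r → ℝ) (n : Fin r → ℤ) (z : ℝ × (Fin r → ℝ)) : ℝ :=
  ∑ i, z.2 i * (n i : ℝ) - z.1 * ∑ i, θ i * (n i : ℝ) ^ 2

/-- character -/
noncomputable def ch {r : ℕ} (θ : Fin r → ℝ) (n : Fin r → ℤ) (z : ℝ × (Fin r → ℝ)) : ℂ :=
  Complex.exp (Complex.I * (ph θ n z : ℂ))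

theorem conj_exp_mul (a b : ℝ) :
    conj (Complex.exp (Complex.I * (a : ℂ))) * Complex.exp (Complex.I * (b : ℂ)) =
      Complex.exp (Complex.I * ((b - a : ℝ) : ℂ)) := by
  rw [← Complex.exp_conj, ← Complex.exp_add, map_mul, Complex.conj_I, Complex.conj_ofReal]
  congr 1
  push_cast; ring

theorem exp_sum_eq {r : ℕ} (f : Fin r → ℝ) :
    Complex.exp (Complex.I * ((∑ i, f i : ℝ) : ℂ)) = ∏ i, Complex.exp (Complex.I * (f i : ℂ)) := by
  rw [← Complex.exp_sum, Complex.ofReal_sum, mul_sum]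

theorem int1 (k : ℤ) :
    ∫ x in Set.Icc (0 : ℝ) (2 * Real.pi), Complex.exp (Complex.I * ((x * k : ℝ) : ℂ)) =
      if k = 0 then ((2 * Real.pi : ℝ) : ℂ) else 0 := by
  rw [integral_Icc_eq_integral_Ioc, ← intervalIntegral.integral_of_le (by positivity)]
  split_ifs with hk
  · subst hk; simp
  · have hc : Complex.I * (k : ℂ) ≠ 0 := mul_ne_zero Complex.I_ne_zero (by exact_mod_cast hk)
    have e : ∀ x : ℝ, Complex.exp (Complex.I * ((x * k : ℝ) : ℂ)) =
        Complex.exp (Complex.I * (k : ℂ) * (x : ℂ)) := fun x => by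
      congr 1; push_cast; ring
    simp only [e]
    rw [integral_exp_mul_complex hc]
    have e2 : Complex.I * (k : ℂ) * ((2 * Real.pi : ℝ) : ℂ) = k * (2 * Real.pi * Complex.I) := by
      push_cast; ring
    rw [e2, Complex.exp_int_mul_two_pi_mul_I]
    simp

theorem orth_box {r : ℕ} (θ : Fin r → ℝ) (s : ℝ) (n m : Fin r → ℤ) :
    ∫ x in box r, ch θ n (s, x) * conj (ch θ m (s, x)) =
      if n = m then (((2 * Real.pi) ^ r : ℝ) : ℂ) else 0 := by
  have e : ∀ x : Fin r → ℝ, ch θ n (s, x) * conj (ch θ m (s, x)) =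
      Complex.exp (Complex.I *
        ((s * ∑ i, θ i * (m i : ℝ) ^ 2 - s * ∑ i, θ i * (n i : ℝ) ^ 2 : ℝ) : ℂ)) *
        ∏ i, Complex.exp (Complex.I * ((x i * ((n i - m i : ℤ) : ℝ) : ℝ) : ℂ)) := fun x => by
    rw [mul_comm, ch, ch, conj_exp_mul, ← exp_sum_eq, ← Complex.exp_add, ← mul_add,
      ← Complex.ofReal_add]
    congr 3
    simp only [ph, Int.cast_sub, mul_sub, sum_sub_distrib]
    ring
  simp only [e]
  rw [integral_const_mul, box, ← Set.pi_univ_Icc, volume_pi, Measure.restrict_pi_pi,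
    integral_fintype_prod_eq_prod
      (fun (i : Fin r) (x : ℝ) =>
        Complex.exp (Complex.I * ((x * ((n i - m i : ℤ) : ℝ) : ℝ) : ℂ)))]
  simp only [Pi.zero_apply, int1]
  split_ifs with h
  · subst h; simp
  · obtain ⟨i, hi⟩ := Function.ne_iff.1 h
    rw [prod_eq_zero (mem_univ i) (if_neg (sub_ne_zero.2 hi)), mul_zero]

theorem kernel_eq {r : ℕ} (θ : Fin r → ℝ) (N : ℕ) (t s : ℝ) (x y : Fin r → ℝ) :
    ∑ n ∈ Fintype.piFinset (fun _ : Fin r => Finset.Icc (-(2 * N : ℤ)) (2 * N)),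
      ((∏ i, (2 - |(n i : ℝ)| / N) : ℝ) : ℂ) * (conj (ch θ n (s, x)) * ch θ n (t, y)) =
      ∏ i, kk N (θ i * (t - s)) (y i - x i) := by
  simp only [kk]
  rw [Finset.prod_univ_sum]
  refine sum_congr rfl fun n _ => ?_
  rw [prod_mul_distrib, ← exp_sum_eq, ch, ch, conj_exp_mul, Complex.ofReal_prod]
  congr 4
  simp only [ph, mul_sum, ← sum_sub_distrib]
  exact sum_congr rfl fun i _ => by ring

end TT

open TT

theorem tt : TT := by
  intro r
  refine ⟨(4 * Real.pi) ^ r + 10 ^ r, by positivity, ?_⟩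
  intro θ T lam K0 N S a Mj hT hlam hK0 hN hS ha hM hK
  have hN' : (1 : ℝ) ≤ N := by exact_mod_cast hN
  let μ : Measure ℝ := volume.restrict (Set.Icc (-T) T)
  let ν : Measure (Fin r → ℝ) := volume.restrict (box r)
  have : IsFiniteMeasure μ := isFiniteMeasure_restrict.2 isCompact_Icc.measure_lt_top.ne
  have : IsFiniteMeasure ν := isFiniteMeasure_restrict.2 (isCompact_box r).measure_lt_top.ne
  let J := Fintype.piFinset (fun _ : Fin r => Finset.Icc (-(2 * N : ℤ)) (2 * N))
  let ψ : (Fin r → ℤ) → ℝ := fun n => ∏ i, (2 - |(n i : ℝ)| / N)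
  let E' : Set (ℝ × (Fin r → ℝ)) := {z | lam ≤ ‖tor θ S a z‖}
  have mT : Measurable (tor θ S a) := (continuous_tor θ S a).measurable
  have mE' : MeasurableSet E' := measurableSet_le measurable_const mT.norm
  let G : ℝ × (Fin r → ℝ) → ℂ := E'.indicator fun z => tor θ S a z / (‖tor θ S a z‖ : ℂ)
  have mG : Measurable G :=
    (mT.div (Complex.measurable_ofReal.comp mT.norm)).indicator mE'
  have nG : ∀ z, ‖G z‖ = E'.indicator 1 z := fun z => by
    by_cases hz : z ∈ E'
    · have h1 : 0 < ‖tor θ S a z‖ := hlam.trans_le hz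
      simp only [G, Set.indicator_of_mem hz, norm_div, Complex.norm_real, norm_norm, Pi.one_apply]
      exact div_self h1.ne'
    · simp only [G, Set.indicator_of_notMem hz, norm_zero]
  have hlev : ∫ z, ‖G z‖ ∂(μ.prod ν) = lev θ S a T lam := by
    simp only [nG]
    rw [integral_indicator_one mE', Measure.prod_restrict, ← Measure.volume_eq_prod,
      Measure.real, Measure.restrict_apply mE', Set.inter_comm]
    rfl
  have hJ : ∀ n ∈ J, ∀ i, 0 ≤ 2 - |(n i : ℝ)| / N := fun n hn i => by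
    have h1 := Finset.mem_Icc.1 (Fintype.mem_piFinset.1 hn i)
    have h2 : |n i| ≤ 2 * N := abs_le.2 h1
    have h3 : |(n i : ℝ)| ≤ 2 * N := by exact_mod_cast h2
    rw [sub_nonneg, div_le_iff₀ (by linarith)]
    exact h3
  obtain ⟨h, mh, h0, hB, c1, c2, c3⟩ := core μ ν S J
    (fun n hn => Fintype.mem_piFinset.2 fun i => by
      have := abs_le.1 (hS n hn i)
      rw [Finset.mem_Icc]; constructor <;> omega)
    ψ (2 ^ r) (by positivity)
    (fun n hn => prod_nonneg fun i _ => hJ n hn i)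
    (fun n hn => by
      have : ∏ i, (2 - |(n i : ℝ)| / N) ≤ ∏ _i : Fin r, (2 : ℝ) :=
        prod_le_prod (fun i _ => hJ n hn i) fun i _ => by
          have : 0 ≤ |(n i : ℝ)| / N := by positivity
          linarith
      simpa using this)
    (fun n hn => by
      have : ∏ _i : Fin r, (1 : ℝ) ≤ ∏ i, (2 - |(n i : ℝ)| / N) :=
        prod_le_prod (fun i _ => zero_le_one) fun i _ => by
          have h3 : |(n i : ℝ)| ≤ N := by exact_mod_cast hS n hn i
          have : |(n i : ℝ)| / N ≤ 1 := by rw [div_le_one (by linarith)]; exact h3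
          linarith
      simpa using this)
    (ch θ) (fun n => by unfold ch ph; fun_prop)
    (fun n z => by rw [ch, mul_comm, Complex.norm_exp_ofReal_mul_I])
    ((2 * Real.pi) ^ r) (by positivity) (fun s n m => orth_box θ s n m) G mG
    (fun z => by
      rw [nG]
      exact Set.indicator_le' (fun _ _ => le_rfl) (fun _ _ => zero_le_one) _)
    a ha lam hlam.le
    (fun z => by
      show lam * ‖G z‖ ≤ (conj (tor θ S a z) * G z).re
      rw [nG]
      by_cases hz : z ∈ E'
      · have h1 : 0 < ‖tor θ S a z‖ := hlam.trans_le hz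
        have h2 : (‖tor θ S a z‖ : ℂ) ≠ 0 := by exact_mod_cast h1.ne'
        simp only [G, Set.indicator_of_mem hz, Pi.one_apply, mul_one]
        rw [← mul_div_assoc, Complex.conj_mul', pow_two, mul_div_assoc, div_self h2, mul_one,
          Complex.ofReal_re]
        exact hz
      · simp only [G, Set.indicator_of_notMem hz, mul_zero, Complex.zero_re, le_refl])
    Mj hM K0 hK0
    (fun t s hts x y => by
      have := kernel_eq θ N t s x y
      simp only [ψ, J]
      rw [this, norm_prod]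
      exact hK (t - s) hts (fun i => y i - x i))
  rw [hlev] at c1 c2 c3
  have l0 : 0 ≤ lev θ S a T lam := ENNReal.toReal_nonneg
  refine ⟨h, mh, h0, hB, c1.trans (mul_le_mul_of_nonneg_right ?_ l0),
    c2.trans (mul_le_mul_of_nonneg_right ?_ l0), c3⟩
  · rw [← mul_pow]
    have e : 2 * (2 * Real.pi) = 4 * Real.pi := by ring
    rw [e]
    exact le_add_of_nonneg_right (by positivity)
  · have hc : (J.card : ℝ) = (4 * N + 1) ^ r := by
      simp only [J, Fintype.card_piFinset, Int.card_Icc, prod_const, card_univ, Fintype.card_fin]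
      have : (2 * (N : ℤ) + 1 - -(2 * N)).toNat = 4 * N + 1 := by omega
      rw [this]; push_cast; ring
    have hN2 : ((N : ℝ) ^ (r / 2 : ℝ)) ^ 2 = (N : ℝ) ^ r := by
      rw [← Real.rpow_natCast, ← Real.rpow_mul (by linarith), ← Real.rpow_natCast]
      congr 1; push_cast; ring
    have p0 : 0 ≤ (N : ℝ) ^ (r / 2 : ℝ) := Real.rpow_nonneg (by linarith) _
    refine le_trans ?_ (mul_le_mul_of_nonneg_right
      (le_add_of_nonneg_left (a := (10 : ℝ) ^ r) (by positivity)) p0)
    rw [Real.sqrt_le_left (by positivity), mul_pow, hN2, hc, ← mul_pow, ← pow_mul, mul_comm r 2,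
      pow_mul, ← mul_pow]
    exact pow_le_pow_left₀ (by positivity) (by linarith) r

end Pool.Agent.P.MP_7211b7_an
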