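import Mathlib
import Pool.Agent.P.MP_7211b7_an.DefsA

/-! Local constancy on tubes. -/

open MeasureTheory
open scoped ENNReal

namespace Pool.Agent.P.MP_7211b7_an

namespace Tube

/-- projection along the tube direction -/
noncomputable def pr {r : ℕ} (c : Eu r) (x : Sp r) : Eu r := x.1 + x.2 • c

/-- the parabolic rescaling map -/
noncomputable def sc {r : ℕ} (ρ : ℝ) (c : Eu r) (x : Sp r) : Sp r := (ρ • pr c x, ρ ^ 2 * x.2)

theorem pr_sub {r : ℕ} (c : Eu r) (x y : Sp r) : pr c (x - y) = pr c x - pr c y := by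
  unfold pr
  simp only [Prod.fst_sub, Prod.snd_sub, sub_smul]
  abel

theorem sc_add {r : ℕ} (ρ : ℝ) (c : Eu r) (x y : Sp r) :
    sc ρ c (x + y) = sc ρ c x + sc ρ c y := by
  unfold sc pr
  ext1
  · simp only [Prod.fst_add, Prod.snd_add, add_smul, smul_add]
    abel
  · simp only [Prod.snd_add]
    ring

theorem continuous_pr {r : ℕ} (c : Eu r) : Continuous (pr c) := by
  unfold pr; fun_prop

theorem continuous_sc {r : ℕ} (ρ : ℝ) (c : Eu r) : Continuous (sc ρ c) := by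
  unfold sc pr; fun_prop

theorem lint_smul {E : Type} [NormedAddCommGroup E] [NormedSpace ℝ E] [MeasurableSpace E]
    [BorelSpace E] [FiniteDimensional ℝ E] (μ : Measure E) [μ.IsAddHaarMeasure] {ρ : ℝ}
    (hρ : 0 < ρ) (h : E → ℝ≥0∞) (hh : Measurable h) :
    ∫⁻ y, h y ∂μ = ENNReal.ofReal (ρ ^ Module.finrank ℝ E) * ∫⁻ y, h (ρ • y) ∂μ := by
  rw [← lintegral_map hh (measurable_const_smul ρ), Measure.map_addHaar_smul μ hρ.ne',
    lintegral_smul_measure, smul_eq_mul, ← mul_assoc, ← ENNReal.ofReal_mul (by positivity),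
    abs_of_pos (by positivity), mul_inv_cancel₀ (by positivity), ENNReal.ofReal_one, one_mul]

/-- Jacobian of the rescaling map -/
theorem lint_sc {r : ℕ} {ρ : ℝ} (hρ : 0 < ρ) (c : Eu r) (h : Sp r → ℝ≥0∞) (hh : Measurable h) :
    ∫⁻ y, h y = ENNReal.ofReal (ρ ^ (r + 2)) * ∫⁻ w, h (sc ρ c w) := by
  have hm : Measurable fun w => h (sc ρ c w) := hh.comp (continuous_sc ρ c).measurable
  have e1 : ∫⁻ y, h y = ∫⁻ u : ℝ, ∫⁻ y : Eu r, h (y, u) := by
    rw [Measure.volume_eq_prod, lintegral_prod_symm _ hh.aemeasurable]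
  have e2 : ∫⁻ w, h (sc ρ c w) = ∫⁻ u : ℝ, ∫⁻ y : Eu r, h (ρ • y, ρ ^ 2 * u) := by
    rw [Measure.volume_eq_prod, lintegral_prod_symm _ hm.aemeasurable]
    refine lintegral_congr fun u => ?_
    exact lintegral_add_right_eq_self (fun y : Eu r => h (ρ • y, ρ ^ 2 * u)) (u • c)
  have e3 : ∀ u : ℝ, ∫⁻ y : Eu r, h (y, u)
      = ENNReal.ofReal (ρ ^ r) * ∫⁻ y : Eu r, h (ρ • y, u) := fun u => by
    have := lint_smul (volume : Measure (Eu r)) hρ (fun y => h (y, u))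
      (hh.comp (measurable_id.prodMk measurable_const))
    rwa [finrank_euclideanSpace_fin] at this
  have hm2 : Measurable fun u : ℝ => ∫⁻ y : Eu r, h (ρ • y, u) :=
    Measurable.lintegral_prod_left' (f := fun p : Eu r × ℝ => h (ρ • p.1, p.2))
      (hh.comp ((measurable_fst.const_smul ρ).prodMk measurable_snd))
  have e4 := lint_smul (volume : Measure ℝ) (ρ := ρ ^ 2) (by positivity) _ hm2
  rw [Module.finrank_self, pow_one] at e4
  rw [e1, e2]
  simp only [e3]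
  rw [lintegral_const_mul _ hm2, e4, ← mul_assoc, ← ENNReal.ofReal_mul (by positivity), ← pow_add]
  rfl

/-- rescaling the cap to unit size -/
theorem exists_resc {r : ℕ} {ρ : ℝ} (hρ : 0 < ρ) (c : Eu r) {f : Sp r → ℂ}
    (hf : f ∈ Tr (cap c ρ (ρ ^ 2))) :
    ∃ G ∈ Tr {ζ : Sp r | ‖ζ‖ ≤ 2}, ∀ x, f x = wave (c, ‖c‖ ^ 2 / 2) x * G (sc ρ c x) := by
  refine Tr_induction (P := fun f => ∃ G ∈ Tr {ζ : Sp r | ‖ζ‖ ≤ 2},
    ∀ x, f x = wave (c, ‖c‖ ^ 2 / 2) x * G (sc ρ c x)) ?_ ?_ ?_ ?_ hf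
  · rintro ⟨ξ, η⟩ ⟨h1, h2⟩
    simp only at h1 h2
    have hρ2 : 0 < ρ ^ 2 := by positivity
    refine ⟨wave (ρ⁻¹ • (ξ - c), (η - inner ℝ ξ c + ‖c‖ ^ 2 / 2) / ρ ^ 2), wave_mem_Tr ?_, ?_⟩
    · simp only [Set.mem_ofPred_eq, Prod.norm_def, max_le_iff]
      constructor
      · rw [norm_smul, norm_inv, Real.norm_eq_abs, abs_of_pos hρ, inv_mul_le_iff₀ hρ]
        linarith
      · rw [Real.norm_eq_abs, abs_div, abs_of_pos hρ2, div_le_iff₀ hρ2]
        have h3 := norm_sub_sq_real ξ c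
        have h4 : ‖ξ - c‖ ^ 2 ≤ ρ ^ 2 := pow_le_pow_left₀ (norm_nonneg _) h1 2
        have h5 := abs_le.1 h2
        have h6 := sq_nonneg ‖ξ - c‖
        rw [abs_le]
        constructor <;> linarith [h5.1, h5.2]
    · intro x
      unfold wave sc pr
      rw [← Complex.exp_add, ← mul_add, ← Complex.ofReal_add]
      congr 3
      simp only [inner_smul_left, inner_smul_right, inner_add_right, inner_sub_left,
        real_inner_self_eq_norm_sq, conj_trivial]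
      field_simp
      ring
  · exact ⟨0, Submodule.zero_mem _, fun x => by simp⟩
  · rintro f g ⟨F, hF, h1⟩ ⟨G, hG, h2⟩
    exact ⟨F + G, Submodule.add_mem _ hF hG, fun x => by simp [h1 x, h2 x, mul_add]⟩
  · rintro a f ⟨F, hF, h1⟩
    exact ⟨a • F, Submodule.smul_mem _ a hF, fun x => by simp [h1 x, mul_left_comm]⟩

/-- pointwise bound by an average adapted to the dual plate -/
theorem point (hB : BERN1) (h8 : W8) (r b : ℕ) (t : ℝ) (hb : r + 2 ≤ b) (ht : 1 ≤ t) :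
    ∃ C : ℝ, 0 < C ∧ ∀ (ρ : ℝ) (c : Eu r), 0 < ρ → ∀ f ∈ Tr (cap c ρ (ρ ^ 2)), ∀ x,
      ‖f x‖ₑ ^ t ≤ ENNReal.ofReal (C * ρ ^ (r + 2)) *
        ∫⁻ z, ‖f z‖ₑ ^ t * wt b 1 (sc ρ c (z - x)) := by
  obtain ⟨C1, hC1, h1⟩ := hB r b
  obtain ⟨C2, hC2, h2⟩ := h8 r b hb
  have ht0 : 0 < t := by linarith
  refine ⟨(C1 * C2) ^ t, by positivity, fun ρ c hρ f hf x => ?_⟩
  obtain ⟨G, hG, hfG⟩ := exists_resc hρ c hf
  have hn : ∀ x, ‖f x‖ₑ = ‖G (sc ρ c x)‖ₑ := fun x => by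
    rw [← ofReal_norm, ← ofReal_norm, hfG x, norm_mul, norm_wave, one_mul]
  have hGm : Measurable fun y => ‖G y‖ₑ ^ t :=
    ((continuous_of_mem_Tr hG).measurable.enorm).pow_const t
  have hfm : Measurable fun y => ‖f y‖ₑ ^ t :=
    ((continuous_of_mem_Tr hf).measurable.enorm).pow_const t
  have h3 := h1 G hG (sc ρ c x)
  have h4 := h2 1 t⁻¹ (fun y => ‖G y‖ₑ ^ t) (sc ρ c x) one_pos (by positivity)
    (inv_le_one_of_one_le₀ ht) hGm
  simp only [ENNReal.rpow_rpow_inv ht0.ne'] at h4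
  have h5 : ‖G (sc ρ c x)‖ₑ ≤ ENNReal.ofReal (C1 * C2) *
      av b 1 (fun y => ‖G y‖ₑ ^ t) (sc ρ c x) ^ t⁻¹ := by
    rw [ENNReal.ofReal_mul hC1.le, mul_assoc]
    exact h3.trans (mul_le_mul_right h4 _)
  have h6 := ENNReal.rpow_le_rpow h5 ht0.le
  rw [ENNReal.mul_rpow_of_nonneg _ _ ht0.le, ENNReal.rpow_inv_rpow ht0.ne',
    ENNReal.ofReal_rpow_of_pos (by positivity)] at h6
  have h7 : av b 1 (fun y => ‖G y‖ₑ ^ t) (sc ρ c x) = ENNReal.ofReal (ρ ^ (r + 2)) *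
      ∫⁻ z, ‖f z‖ₑ ^ t * wt b 1 (sc ρ c (z - x)) := by
    unfold av
    rw [lint_sc hρ c (fun y => ‖G (sc ρ c x + y)‖ₑ ^ t * wt b 1 y)
      ((hGm.comp (measurable_const_add _)).mul (measurable_wt b 1))]
    congr 1
    have : (volume : Measure (Sp r)).IsAddLeftInvariant :=
      inferInstanceAs (((volume : Measure (Eu r)).prod (volume : Measure ℝ)).IsAddLeftInvariant)
    rw [← lintegral_add_left_eq_self (fun z => ‖f z‖ₑ ^ t * wt b 1 (sc ρ c (z - x))) x]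
    refine lintegral_congr fun w => ?_
    simp only [add_sub_cancel_left, hn, sc_add]
  rw [hn, ENNReal.ofReal_mul (by positivity), mul_assoc, ← h7]
  exact h6

/-- the kernel inequality -/
theorem kern {r : ℕ} (a : ℕ) {ρ : ℝ} (hρ : 0 < ρ) (hρ1 : ρ ≤ 1) {c : Eu r} (hc : ‖c‖ ≤ 1 / 2)
    {x : Sp r} (hx : ‖x‖ ≤ (ρ ^ 2)⁻¹) (v : Sp r) :
    wt (a + (r + 1)) 1 (sc ρ c (v - x)) ≤ ENNReal.ofReal (2 ^ a) *
      ENNReal.ofReal (((1 + ‖v‖ / (ρ ^ 2)⁻¹) ^ a)⁻¹) * prof ρ⁻¹ (pr c x - pr c v) := by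
  unfold wt prof
  rw [← ENNReal.ofReal_mul (by positivity), ← ENNReal.ofReal_mul (by positivity)]
  refine ENNReal.ofReal_le_ofReal ?_
  have hρ2 : 0 < ρ ^ 2 := by positivity
  set w := v - x with hw
  set M := ‖sc ρ c w‖ with hM
  have hM0 : 0 ≤ M := norm_nonneg _
  have hA : ρ * ‖pr c w‖ ≤ M := by
    have := norm_fst_le (sc ρ c w)
    rwa [show (sc ρ c w).1 = ρ • pr c w from rfl, norm_smul, Real.norm_eq_abs,
      abs_of_pos hρ] at this
  have hB : ρ ^ 2 * |w.2| ≤ M := by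
    have := norm_snd_le (sc ρ c w)
    rwa [show (sc ρ c w).2 = ρ ^ 2 * w.2 from rfl, Real.norm_eq_abs, abs_mul,
      abs_of_pos hρ2] at this
  have h1 : ‖pr c x - pr c v‖ = ‖pr c w‖ := by rw [hw, pr_sub, norm_sub_rev]
  have h2 : ‖w‖ ≤ ‖pr c w‖ + |w.2| := by
    rw [Prod.norm_def, max_le_iff]
    constructor
    · have h3 : w.1 = pr c w - w.2 • c := by unfold pr; abel
      have h4 := norm_sub_le (pr c w) (w.2 • c)
      rw [← h3, norm_smul, Real.norm_eq_abs] at h4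
      have h5 : |w.2| * ‖c‖ ≤ |w.2| * 1 :=
        mul_le_mul_of_nonneg_left (by linarith) (abs_nonneg _)
      linarith
    · rw [Real.norm_eq_abs]
      linarith [norm_nonneg (pr c w)]
  have h3 : ‖v‖ ≤ ‖x‖ + ‖w‖ := by
    have := norm_add_le x w
    rwa [hw, add_sub_cancel] at this
  have h4 : ρ ^ 2 * ‖x‖ ≤ 1 := by
    have := mul_le_mul_of_nonneg_left hx hρ2.le
    rwa [mul_inv_cancel₀ hρ2.ne'] at this
  have h5 : ρ ^ 2 * ‖pr c w‖ ≤ ρ * ‖pr c w‖ :=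
    mul_le_mul_of_nonneg_right (by nlinarith) (norm_nonneg _)
  have h6 : 1 + ‖v‖ / (ρ ^ 2)⁻¹ ≤ 2 * (1 + M) := by
    rw [div_inv_eq_mul]
    have h7 := mul_le_mul_of_nonneg_left h3 hρ2.le
    have h8 := mul_le_mul_of_nonneg_left h2 hρ2.le
    nlinarith
  have h7 : 1 + ‖pr c x - pr c v‖ / ρ⁻¹ ≤ 1 + M := by
    rw [div_inv_eq_mul, h1]
    linarith
  have p1 : 0 < 1 + ‖v‖ / (ρ ^ 2)⁻¹ := by positivity
  have p2 : 0 < 1 + ‖pr c x - pr c v‖ / ρ⁻¹ := by positivity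
  have h8 := pow_le_pow_left₀ p1.le h6 a
  have h9 := pow_le_pow_left₀ p2.le h7 (r + 1)
  rw [mul_pow] at h8
  rw [one_pow, inv_one, one_mul, div_one, pow_add, mul_inv]
  refine mul_le_mul ?_ (inv_anti₀ (by positivity) h9) (by positivity) (by positivity)
  rw [← div_eq_mul_inv, le_div_iff₀ (by positivity), inv_mul_le_iff₀ (by positivity)]
  linarith

end Tube

open Tube in
theorem tube : BERN1 → W1 → W6 → W8 → TUBE := by
  intro hB h1 h6 h8 r a t ha ht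
  obtain ⟨C0, hC0, hp⟩ := point hB h8 r (a + (r + 1)) t (by omega) ht
  obtain ⟨C1, -, hW1⟩ := h1 r a 0 (by omega)
  obtain ⟨C6, hC6, hW6⟩ := h6 r a ha
  refine ⟨C0 * 2 ^ a * C6, by positivity, fun ρ c hρ hρ1 hc f hf => ?_⟩
  have hρ2 : 0 < ρ ^ 2 := by positivity
  set g : Sp r → ℝ≥0∞ := fun y => ‖f y‖ₑ ^ t with hg
  have hgm : Measurable g := ((continuous_of_mem_Tr hf).measurable.enorm).pow_const t
  set D : ℝ≥0∞ := ENNReal.ofReal (C0 * ρ ^ (r + 2)) * ENNReal.ofReal (2 ^ a) with hD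
  have hDt : D ≠ ∞ := ENNReal.mul_ne_top ENNReal.ofReal_ne_top ENNReal.ofReal_ne_top
  set e : Sp r → ℝ≥0∞ := fun v => ENNReal.ofReal (((1 + ‖v‖ / (ρ ^ 2)⁻¹) ^ a)⁻¹) with he
  have hem : Measurable e := by rw [he]; fun_prop
  set K : Sp r × Sp r → ℝ≥0∞ := fun p => D * g p.2 * (wt a ρ⁻¹ p.1 * e (p.2 - p.1)) with hK
  have hKm : Measurable K :=
    ((hgm.comp measurable_snd).const_mul D).mul
      (((measurable_wt a ρ⁻¹).comp measurable_fst).mul
        (hem.comp (measurable_snd.sub measurable_fst)))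
  have hφ : Measurable fun p : Sp r × Sp r => pr c (p.2 - p.1) :=
    (continuous_pr c).measurable.comp (measurable_snd.sub measurable_fst)
  set μ : Measure (Eu r) := Measure.map (fun p : Sp r × Sp r => pr c (p.2 - p.1))
    (((volume : Measure (Sp r)).prod volume).withDensity K) with hμ
  have hmass : μ Set.univ ≤ ENNReal.ofReal (C0 * 2 ^ a * C6 * (ρ ^ r)⁻¹) * av a (ρ ^ 2)⁻¹ g 0 := by
    rw [hμ, Measure.map_apply hφ MeasurableSet.univ, Set.preimage_univ,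
      withDensity_apply _ MeasurableSet.univ, Measure.restrict_univ,
      lintegral_prod_symm _ hKm.aemeasurable]
    unfold av
    rw [← lintegral_const_mul' _ _ ENNReal.ofReal_ne_top]
    refine lintegral_mono fun z => ?_
    have hRR : ρ⁻¹ ≤ (ρ ^ 2)⁻¹ := inv_anti₀ hρ2 (by nlinarith)
    have h2 := hW6 ρ⁻¹ (ρ ^ 2)⁻¹ z (by positivity) hRR
    have hm : Measurable fun s : Sp r => wt a ρ⁻¹ s * e (z - s) :=
      (measurable_wt a ρ⁻¹).mul (hem.comp (measurable_const.sub measurable_id))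
    simp only [hK]
    rw [lintegral_const_mul _ hm]
    refine (mul_le_mul_right h2 _).trans (le_of_eq ?_)
    rw [zero_add, mul_right_comm, mul_comm (g z), ← mul_assoc]
    congr 1
    unfold wt
    rw [hD, ← ENNReal.ofReal_mul (by positivity), ← ENNReal.ofReal_mul (by positivity),
      ← ENNReal.ofReal_mul (by positivity)]
    congr 1
    rw [inv_pow, inv_inv]
    field_simp
    ring
  have hfin : av a (ρ ^ 2)⁻¹ g 0 ≠ ∞ := by
    obtain ⟨B, hBf⟩ := bounded_of_mem_Tr hf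
    have hgB : ∀ y, g y ≤ ENNReal.ofReal B ^ t := fun y => by
      refine ENNReal.rpow_le_rpow ?_ (by linarith)
      rw [← ofReal_norm]
      exact ENNReal.ofReal_le_ofReal (hBf y)
    have hBt : ENNReal.ofReal B ^ t ≠ ∞ :=
      ENNReal.rpow_ne_top_of_nonneg (by linarith) ENNReal.ofReal_ne_top
    have h2 := hW1 (ρ ^ 2)⁻¹ (by positivity)
    simp only [pow_zero, ENNReal.ofReal_one, mul_one] at h2
    refine ne_top_of_le_ne_top (ENNReal.mul_ne_top hBt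
      (ENNReal.ofReal_ne_top (r := C1))) ?_
    unfold av
    calc ∫⁻ y, g (0 + y) * wt a (ρ ^ 2)⁻¹ y
        ≤ ∫⁻ y : Sp r, ENNReal.ofReal B ^ t * wt a (ρ ^ 2)⁻¹ y :=
          lintegral_mono fun y => mul_le_mul_left (hgB _) _
      _ = ENNReal.ofReal B ^ t * ∫⁻ y : Sp r, wt a (ρ ^ 2)⁻¹ y :=
          lintegral_const_mul' _ _ hBt
      _ ≤ _ := mul_le_mul_right h2 _
  refine ⟨μ, ⟨lt_of_le_of_lt hmass
    (ENNReal.mul_lt_top ENNReal.ofReal_lt_top hfin.lt_top)⟩, hmass, fun x hx => ?_⟩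
  have hpm : Measurable fun ζ : Eu r => prof ρ⁻¹ (x.1 + x.2 • c - ζ) :=
    (measurable_prof ρ⁻¹).comp (measurable_const.sub measurable_id)
  have hpm' : Measurable fun p : Sp r × Sp r => prof ρ⁻¹ (x.1 + x.2 • c - pr c (p.2 - p.1)) :=
    hpm.comp hφ
  rw [hμ, lintegral_map hpm hφ, lintegral_withDensity_eq_lintegral_mul _ hKm hpm',
    lintegral_prod _ (hKm.mul hpm').aemeasurable]
  unfold av
  refine lintegral_mono fun s => ?_
  have h2 := hp ρ c hρ f hf (x + s)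
  have hwt : wt a ρ⁻¹ s ≠ ∞ := ENNReal.ofReal_ne_top
  refine (mul_le_mul_left h2 _).trans ?_
  rw [← lintegral_const_mul' _ _ ENNReal.ofReal_ne_top, ← lintegral_mul_const' _ _ hwt]
  refine lintegral_mono fun z => ?_
  have h3 := kern a hρ hρ1 hc hx (z - s)
  have h4 : z - (x + s) = z - s - x := by abel
  rw [h4]
  calc ENNReal.ofReal (C0 * ρ ^ (r + 2)) * (g z * wt (a + (r + 1)) 1 (sc ρ c (z - s - x)))
        * wt a ρ⁻¹ s
      ≤ ENNReal.ofReal (C0 * ρ ^ (r + 2)) * (g z * (ENNReal.ofReal (2 ^ a) * e (z - s) *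
          prof ρ⁻¹ (pr c x - pr c (z - s)))) * wt a ρ⁻¹ s :=
        mul_le_mul_left (mul_le_mul_right (mul_le_mul_right h3 _) _) _
    _ = D * g z * (wt a ρ⁻¹ s * e (z - s)) * prof ρ⁻¹ (pr c x - pr c (z - s)) := by
        rw [hD]; ring
    _ = _ := rfl

end Pool.Agent.P.MP_7211b7_an
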