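import Pool.Agent.P.MP_7211b7_an.DefsA

/-!
# Weighted averages against moderate measures
-/

open MeasureTheory
open scoped ENNReal

namespace Pool.Agent.P.MP_7211b7_an

namespace Weight1

instance haar (r : ℕ) : (volume : Measure (Sp r)).IsAddHaarMeasure := by
  change (Measure.prod (volume : Measure (Eu r)) (volume : Measure ℝ)).IsAddHaarMeasure
  infer_instance

theorem finrank_Sp (r : ℕ) : Module.finrank ℝ (Sp r) = r + 1 := by
  simp [Module.finrank_prod]

theorem lintegral_scale {r : ℕ} {R : ℝ} (hR : 0 < R) {φ : Sp r → ℝ≥0∞} (hφ : Measurable φ) :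
    ∫⁻ y, φ (R⁻¹ • y) = ENNReal.ofReal (R ^ (r + 1)) * ∫⁻ y, φ y := by
  have h1 : ∫⁻ y, φ (R⁻¹ • y) = ∫⁻ y, φ y ∂(Measure.map (fun y : Sp r => R⁻¹ • y) volume) :=
    (lintegral_map hφ (measurable_const_smul R⁻¹)).symm
  rw [h1, Measure.map_addHaar_smul volume (inv_ne_zero hR.ne'), lintegral_smul_measure,
    finrank_Sp, inv_pow, inv_inv, abs_of_pos (pow_pos hR _), smul_eq_mul]

theorem measurable_shift {r : ℕ} {g : Sp r → ℝ≥0∞} (hg : Measurable g) :
    Measurable (fun z : Sp r × Sp r => g (z.1 + z.2)) :=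
  hg.comp (measurable_fst.add measurable_snd)

theorem mod_le {r A : ℕ} {R s : ℝ} (hR : 0 < R) (hs : 0 ≤ s) (hsR : s * R ≤ 1) (y : Sp r) :
    (1 + s * ‖y‖) ^ A ≤ (1 + ‖y‖ / R) ^ A := by
  have h0 := norm_nonneg y
  have h1 : s ≤ 1 / R := by rw [le_div_iff₀ hR]; exact hsR
  have h2 : s * ‖y‖ ≤ ‖y‖ / R := by
    calc s * ‖y‖ ≤ 1 / R * ‖y‖ := mul_le_mul_of_nonneg_right h1 h0
      _ = ‖y‖ / R := by ring
  exact pow_le_pow_left₀ (by positivity) (by linarith) A

end Weight1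

open Weight1

theorem w1 : W1 := by
  intro r a b hab
  let φ : Sp r → ℝ≥0∞ := fun y => ENNReal.ofReal ((1 + ‖y‖) ^ (-((r + 2 : ℕ) : ℝ)))
  have hφ : Measurable φ := by unfold φ; fun_prop
  have hfin : ∫⁻ y, φ y < ∞ := by
    apply finite_integral_one_add_norm
    rw [finrank_Sp]; push_cast; linarith
  refine ⟨(∫⁻ y, φ y).toReal + 1, by positivity, fun R hR => ?_⟩
  have hle : ∀ y : Sp r, wt a R y * ENNReal.ofReal ((1 + ‖y‖ / R) ^ b)
      ≤ ENNReal.ofReal ((R ^ (r + 1))⁻¹) * φ (R⁻¹ • y) := by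
    intro y
    have h0 := norm_nonneg y
    have h1 : (1 : ℝ) ≤ 1 + ‖y‖ / R := by have := div_nonneg h0 hR.le; linarith
    have h2 : ‖R⁻¹ • y‖ = ‖y‖ / R := by
      rw [norm_smul, norm_inv, Real.norm_of_nonneg hR.le]; ring
    unfold wt φ
    rw [h2, ← ENNReal.ofReal_mul (by positivity), ← ENNReal.ofReal_mul (by positivity)]
    apply ENNReal.ofReal_le_ofReal
    rw [mul_assoc]
    apply mul_le_mul_of_nonneg_left _ (by positivity)
    rw [Real.rpow_neg (by linarith), Real.rpow_natCast, inv_mul_le_iff₀ (by positivity),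
      ← div_eq_mul_inv, le_div_iff₀ (by positivity), ← pow_add]
    exact pow_le_pow_right₀ h1 (by omega)
  calc ∫⁻ y : Sp r, wt a R y * ENNReal.ofReal ((1 + ‖y‖ / R) ^ b)
      ≤ ∫⁻ y : Sp r, ENNReal.ofReal ((R ^ (r + 1))⁻¹) * φ (R⁻¹ • y) := lintegral_mono hle
    _ = ENNReal.ofReal ((R ^ (r + 1))⁻¹) * (ENNReal.ofReal (R ^ (r + 1)) * ∫⁻ y, φ y) := by
        rw [lintegral_const_mul' _ _ ENNReal.ofReal_ne_top, lintegral_scale hR hφ]
    _ = ∫⁻ y, φ y := by
        rw [← mul_assoc, ← ENNReal.ofReal_mul (by positivity), inv_mul_cancel₀ (by positivity),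
          ENNReal.ofReal_one, one_mul]
    _ ≤ ENNReal.ofReal ((∫⁻ y, φ y).toReal + 1) := by
        conv_lhs => rw [← ENNReal.ofReal_toReal hfin.ne]
        exact ENNReal.ofReal_le_ofReal (by linarith)

theorem w2 : W2 := by
  intro r a A ha
  obtain ⟨C, hC, h⟩ := w1 r a A ha
  refine ⟨C, hC, fun R s ν g hR hs hsR hν hM hg => ?_⟩
  have hm : Measurable (fun z : Sp r × Sp r => g (z.1 + z.2) * wt a R z.2) :=
    (measurable_shift hg).mul ((measurable_wt a R).comp measurable_snd)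
  unfold av
  rw [lintegral_lintegral_swap hm.aemeasurable]
  calc ∫⁻ y, ∫⁻ x, g (x + y) * wt a R y ∂ν
      ≤ ∫⁻ y : Sp r, (wt a R y * ENNReal.ofReal ((1 + ‖y‖ / R) ^ A)) * ∫⁻ x, g x ∂ν := by
        refine lintegral_mono fun y => ?_
        have hy : Measurable (fun x => g (x + y)) := hg.comp (measurable_add_const y)
        simp only []
        rw [lintegral_mul_const _ hy, mul_comm, mul_assoc]
        refine mul_le_mul_right ((hM y g hg).trans ?_) _
        exact mul_le_mul_left (ENNReal.ofReal_le_ofReal (mod_le hR hs hsR y)) _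
    _ = (∫⁻ y : Sp r, wt a R y * ENNReal.ofReal ((1 + ‖y‖ / R) ^ A)) * ∫⁻ x, g x ∂ν := by
        rw [lintegral_mul_const]
        exact (measurable_wt a R).mul (by fun_prop)
    _ ≤ ENNReal.ofReal C * ∫⁻ x, g x ∂ν := mul_le_mul_left (h R hR) _

theorem w3a : W3a := by
  intro r A
  have hb0 : (volume : Measure (Sp r)) (Metric.ball 0 1) ≠ 0 :=
    (Metric.measure_ball_pos volume 0 one_pos).ne'
  have hbt : (volume : Measure (Sp r)) (Metric.ball 0 1) ≠ ∞ := measure_ball_lt_top.ne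
  set v : ℝ := ((volume : Measure (Sp r)) (Metric.ball 0 1)).toReal with hv
  have hv0 : 0 < v := ENNReal.toReal_pos hb0 hbt
  have hvv : (volume : Measure (Sp r)) (Metric.ball 0 1) = ENNReal.ofReal v :=
    (ENNReal.ofReal_toReal hbt).symm
  refine ⟨2 ^ A * v⁻¹, by positivity, fun R s ν g hR hs hsR hν hM hg => ?_⟩
  have h1 : ∀ y ∈ Metric.closedBall (0 : Sp r) R,
      ∫⁻ x, g x ∂ν ≤ ENNReal.ofReal (2 ^ A) * ∫⁻ x, g (x + y) ∂ν := by
    intro y hy
    have hy' : ‖y‖ ≤ R := by simpa using hy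
    have hmy : Measurable (fun x => g (x + y)) := hg.comp (measurable_add_const y)
    have h2 := hM (-y) (fun x => g (x + y)) hmy
    simp only [neg_add_cancel_right, norm_neg] at h2
    refine h2.trans (mul_le_mul_left (ENNReal.ofReal_le_ofReal ?_) _)
    refine (mod_le hR hs hsR y).trans (pow_le_pow_left₀ (by positivity) ?_ A)
    have : ‖y‖ / R ≤ 1 := (div_le_one hR).2 hy'
    linarith
  have h2 : ∫⁻ _ in Metric.closedBall (0 : Sp r) R, ∫⁻ x, g x ∂ν
      ≤ ∫⁻ y in Metric.closedBall (0 : Sp r) R, ENNReal.ofReal (2 ^ A) * ∫⁻ x, g (x + y) ∂ν :=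
    setLIntegral_mono' measurableSet_closedBall h1
  rw [setLIntegral_const, Measure.addHaar_closedBall volume _ hR.le, finrank_Sp, hvv,
    lintegral_const_mul' _ _ ENNReal.ofReal_ne_top,
    ← lintegral_lintegral_swap (measurable_shift hg).aemeasurable,
    ← ENNReal.ofReal_mul (by positivity)] at h2
  calc ∫⁻ x, g x ∂ν
      = ENNReal.ofReal ((R ^ (r + 1) * v)⁻¹) *
          ((∫⁻ x, g x ∂ν) * ENNReal.ofReal (R ^ (r + 1) * v)) := by
        rw [mul_comm (∫⁻ x, g x ∂ν), ← mul_assoc, ← ENNReal.ofReal_mul (by positivity),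
          inv_mul_cancel₀ (by positivity), ENNReal.ofReal_one, one_mul]
    _ ≤ ENNReal.ofReal ((R ^ (r + 1) * v)⁻¹) * (ENNReal.ofReal (2 ^ A) *
          ∫⁻ x, (∫⁻ y in Metric.closedBall (0 : Sp r) R, g (x + y)) ∂ν) :=
        mul_le_mul_right h2 _
    _ = _ := by
        rw [← mul_assoc, ← ENNReal.ofReal_mul (by positivity)]
        congr 2
        rw [mul_inv]; ring

theorem w3b : W3b := by
  intro r a A
  obtain ⟨C, hC, h⟩ := w3a r A
  refine ⟨C * 2 ^ a, by positivity, fun R s ν g hR hs hsR hν hM hg => ?_⟩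
  have h1 : ∀ x : Sp r, ∫⁻ y in Metric.closedBall (0 : Sp r) R, g (x + y)
      ≤ ENNReal.ofReal (R ^ (r + 1) * 2 ^ a) * av a R g x := by
    intro x
    unfold av
    rw [← lintegral_const_mul' _ _ ENNReal.ofReal_ne_top]
    refine le_trans (setLIntegral_mono' measurableSet_closedBall fun y hy => ?_)
      (setLIntegral_le_lintegral _ _)
    have hy' : ‖y‖ ≤ R := by simpa using hy
    have h0 := norm_nonneg y
    have h2 : (1 + ‖y‖ / R) ^ a ≤ 2 ^ a := by
      refine pow_le_pow_left₀ (by positivity) ?_ a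
      have : ‖y‖ / R ≤ 1 := (div_le_one hR).2 hy'
      linarith
    have h3 : 1 ≤ ENNReal.ofReal (R ^ (r + 1) * 2 ^ a) * wt a R y := by
      unfold wt
      rw [← ENNReal.ofReal_mul (by positivity), ← ENNReal.ofReal_one]
      apply ENNReal.ofReal_le_ofReal
      have e : R ^ (r + 1) * 2 ^ a * ((R ^ (r + 1))⁻¹ * ((1 + ‖y‖ / R) ^ a)⁻¹)
          = 2 ^ a / (1 + ‖y‖ / R) ^ a := by
        field_simp
      rw [e, one_le_div (by positivity)]
      exact h2
    calc g (x + y) = g (x + y) * 1 := (mul_one _).symm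
      _ ≤ g (x + y) * (ENNReal.ofReal (R ^ (r + 1) * 2 ^ a) * wt a R y) := mul_le_mul_right h3 _
      _ = _ := by ring
  refine (h R s ν g hR hs hsR hν hM hg).trans ?_
  calc ENNReal.ofReal (C * (R ^ (r + 1))⁻¹) *
        ∫⁻ x, (∫⁻ y in Metric.closedBall (0 : Sp r) R, g (x + y)) ∂ν
      ≤ ENNReal.ofReal (C * (R ^ (r + 1))⁻¹) *
        ∫⁻ x, ENNReal.ofReal (R ^ (r + 1) * 2 ^ a) * av a R g x ∂ν :=
        mul_le_mul_right (lintegral_mono h1) _
    _ = _ := by
        rw [lintegral_const_mul' _ _ ENNReal.ofReal_ne_top, ← mul_assoc,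
          ← ENNReal.ofReal_mul (by positivity)]
        congr 2
        field_simp

end Pool.Agent.P.MP_7211b7_an
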