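import Pool.Agent.P.MP_7211b7_an.DefsA

open MeasureTheory
open scoped ENNReal

namespace Pool.Agent.P.MP_7211b7_an

namespace Weight2

theorem haar (r : ℕ) : (volume : Measure (Sp r)).IsAddHaarMeasure :=
  inferInstanceAs ((volume : Measure (Eu r)).prod (volume : Measure ℝ)).IsAddHaarMeasure

theorem wt_sub_le {r : ℕ} (a : ℕ) {R : ℝ} (hR : 0 < R) (y z : Sp r) :
    wt a R (y - z) ≤ ENNReal.ofReal ((1 + ‖z‖ / R) ^ a) * wt a R y := by
  unfold wt
  rw [← ENNReal.ofReal_mul (by positivity), mul_left_comm]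
  refine ENNReal.ofReal_le_ofReal (mul_le_mul_of_nonneg_left ?_ (by positivity))
  rw [← div_eq_mul_inv, ← div_pow, ← inv_pow]
  refine pow_le_pow_left₀ (by positivity) ?_ a
  rw [inv_eq_one_div, div_le_div_iff₀ (by positivity) (by positivity)]
  have h1 : ‖y‖ / R ≤ ‖y - z‖ / R + ‖z‖ / R := by
    rw [← add_div]
    exact div_le_div_of_nonneg_right (by simpa using norm_add_le (y - z) z) hR.le
  have h2 : 0 ≤ ‖y - z‖ / R * (‖z‖ / R) := by positivity
  nlinarith

theorem mass (h : W1) {r a : ℕ} (ha : r + 2 ≤ a) :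
    ∃ C : ℝ, 0 < C ∧ ∀ R : ℝ, 0 < R → ∫⁻ y : Sp r, wt a R y ≤ ENNReal.ofReal C := by
  obtain ⟨C, hC, h⟩ := h r a 0 (by omega)
  exact ⟨C, hC, fun R hR => by simpa using h R hR⟩

theorem split {n a : ℕ} (hn : n ≤ a) {R R' S T Z : ℝ} (hR : 0 < R) (hRR : R ≤ R') (hS : 0 ≤ S)
    (hT : 0 ≤ T) (hZ : 0 ≤ Z) (h : Z ≤ S + T) :
    (R ^ n)⁻¹ * ((1 + S / R) ^ a)⁻¹ * ((1 + T / R') ^ a)⁻¹ ≤ 4 ^ a * ((1 + Z / R') ^ a)⁻¹ *
      ((R ^ n)⁻¹ * ((1 + S / R) ^ a)⁻¹ + (R' ^ n)⁻¹ * ((1 + T / R') ^ a)⁻¹) := by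
  have hR' : 0 < R' := hR.trans_le hRR
  rw [mul_add]
  rcases le_or_gt (1 + Z / R') (4 * (1 + T / R')) with h1 | h1
  · refine le_add_of_le_of_nonneg ?_ (by positivity)
    rw [mul_comm]
    refine mul_le_mul_of_nonneg_right ?_ (by positivity)
    rw [← div_eq_mul_inv, ← div_pow, ← inv_pow]
    refine pow_le_pow_left₀ (by positivity) ?_ a
    rw [inv_eq_one_div, div_le_div_iff₀ (by positivity) (by positivity)]
    linarith
  · refine le_add_of_nonneg_of_le (by positivity) ?_
    rw [← mul_assoc]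
    refine mul_le_mul_of_nonneg_right ?_ (by positivity)
    have h2 : 3 * R' + 4 * T < Z := by
      have := mul_lt_mul_of_pos_right h1 hR'
      field_simp at this
      nlinarith
    have h3 : R' / R * (1 + Z / R') ≤ 4 * (1 + S / R) := by
      have : R' / R * (1 + Z / R') = (R' + Z) / R := by field_simp
      rw [this, div_le_iff₀ hR]
      have : 4 * (1 + S / R) * R = 4 * (R + S) := by field_simp
      linarith
    have h4 : (R' / R) ^ n * (1 + Z / R') ^ a ≤ 4 ^ a * (1 + S / R) ^ a := by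
      rw [← mul_pow]
      refine le_trans ?_ (pow_le_pow_left₀ (by positivity) h3 a)
      rw [mul_pow]
      exact mul_le_mul_of_nonneg_right (pow_le_pow_right₀ ((one_le_div hR).2 hRR) hn)
        (by positivity)
    rw [div_pow] at h4
    rw [← mul_inv, mul_assoc, ← mul_inv, ← div_eq_mul_inv, inv_eq_one_div,
      div_le_div_iff₀ (by positivity) (by positivity)]
    rw [div_mul_eq_mul_div, div_le_iff₀ (by positivity)] at h4
    linarith

end Weight2

open Weight2

theorem w4 : W4 := by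
  intro r a R g x z hR hg
  have := haar r
  unfold av
  rw [← lintegral_sub_right_eq_self _ z, ← lintegral_const_mul' _ _ ENNReal.ofReal_ne_top]
  refine lintegral_mono fun y => ?_
  simp only
  rw [mul_left_comm, show x + z + (y - z) = x + y by abel]
  exact mul_le_mul_right (wt_sub_le a hR y z) _

theorem w5 : W1 → W5 := by
  intro h r a R ha hR
  obtain ⟨C, -, hC⟩ := mass h ha
  refine ⟨isFiniteMeasure_withDensity (ne_top_of_le_ne_top ENNReal.ofReal_ne_top (hC R hR)),
    fun y g hg => ?_⟩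
  have h1 := w4 r a R g 0 y hR hg
  rw [← lintegral_wm a R hg, ← lintegral_wm a R hg] at h1
  simpa only [zero_add, add_comm y, div_eq_inv_mul] using h1

theorem w6 : W1 → W6 := by
  intro h r a ha
  have := haar r
  obtain ⟨C, hC0, hC⟩ := mass h ha
  refine ⟨4 ^ a * (C + C), by positivity, fun R R' z hR hRR => ?_⟩
  have hR' : 0 < R' := hR.trans_le hRR
  calc _ ≤ ∫⁻ s : Sp r, ENNReal.ofReal (4 ^ a * ((1 + ‖z‖ / R') ^ a)⁻¹) *
        (wt a R s + wt a R' (z - s)) := by
        refine lintegral_mono fun s => ?_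
        unfold wt
        rw [← ENNReal.ofReal_mul (by positivity), ← ENNReal.ofReal_add (by positivity)
          (by positivity), ← ENNReal.ofReal_mul (by positivity)]
        exact ENNReal.ofReal_le_ofReal (split (by omega) hR hRR (norm_nonneg _) (norm_nonneg _)
          (norm_nonneg _) (by simpa using norm_add_le s (z - s)))
    _ ≤ ENNReal.ofReal (4 ^ a * ((1 + ‖z‖ / R') ^ a)⁻¹) *
        (ENNReal.ofReal C + ENNReal.ofReal C) := by
        rw [lintegral_const_mul' _ _ ENNReal.ofReal_ne_top,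
          lintegral_add_left (measurable_wt a R), lintegral_sub_left_eq_self]
        exact mul_le_mul_right (add_le_add (hC R hR) (hC R' hR')) _
    _ = _ := by
        rw [← ENNReal.ofReal_add hC0.le hC0.le, ← ENNReal.ofReal_mul (by positivity)]
        congr 1
        ring

theorem w8 : W1 → W8 := by
  intro h r a ha
  obtain ⟨C, hC0, hC⟩ := mass h ha
  refine ⟨C + 1, by positivity, fun R θ g x hR h0 h1 hg => ?_⟩
  have h2 := ENNReal.lintegral_mul_norm_pow_le (μ := (volume : Measure (Sp r)))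
    (f := fun y => g (x + y) * wt a R y) (g := wt a R)
    ((hg.comp (measurable_const_add x)).mul (measurable_wt a R)).aemeasurable
    (measurable_wt a R).aemeasurable h0.le (sub_nonneg.2 h1) (add_sub_cancel θ 1)
  unfold av
  refine le_trans (le_of_eq (lintegral_congr fun y => ?_)) (h2.trans ?_)
  · rw [ENNReal.mul_rpow_of_nonneg _ _ h0.le, mul_assoc,
      ← ENNReal.rpow_add_of_nonneg _ _ h0.le (sub_nonneg.2 h1), add_sub_cancel, ENNReal.rpow_one]
  · rw [mul_comm]
    refine mul_le_mul_left ?_ _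
    calc _ ≤ ENNReal.ofReal (C + 1) ^ (1 - θ) := ENNReal.rpow_le_rpow
          ((hC R hR).trans (ENNReal.ofReal_le_ofReal (by linarith))) (sub_nonneg.2 h1)
      _ ≤ ENNReal.ofReal (C + 1) ^ (1 : ℝ) := ENNReal.rpow_le_rpow_of_exponent_le
          (ENNReal.one_le_ofReal.2 (by linarith)) (by linarith)
      _ = _ := ENNReal.rpow_one _

end Pool.Agent.P.MP_7211b7_an
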