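import Pool.Agent.P.MP_7211b7_an.DefsB

/-! The Weyl bound off the major arcs. -/

open Finset

namespace Pool.Agent.P.MP_7211b7_an

namespace Weyl

lemma reindex (M : ℤ) (g : ℤ → ℤ → ℂ) :
    ∑ b ∈ Ico 0 M, ∑ a ∈ Ico 0 M, g (a - b) b =
      ∑ h ∈ Icc (-M) M, ∑ b ∈ Ico (max 0 (-h)) (min M (M - h)), g h b := by
  have h1 : ∀ b, ∑ a ∈ Ico 0 M, g (a - b) b = ∑ h ∈ Ico (-b) (M - b), g h b := by
    intro b
    refine sum_nbij' (fun a => a - b) (fun h => h + b) ?_ ?_ ?_ ?_ ?_ <;> intro a <;>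
      simp only [mem_Ico, sub_add_cancel, add_sub_cancel_right, implies_true] <;> omega
  rw [sum_congr rfl fun b _ => h1 b]
  refine sum_comm' fun b h => ?_
  simp only [mem_Ico, mem_Icc]
  omega

noncomputable def ee (t : ℝ) : ℂ := Complex.exp (Complex.I * (t : ℂ))

lemma ee_norm (t : ℝ) : ‖ee t‖ = 1 := Complex.norm_exp_I_mul_ofReal t

lemma ee_add (s t : ℝ) : ee (s + t) = ee s * ee t := by
  simp only [ee, Complex.ofReal_add, mul_add, Complex.exp_add]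

lemma ee_conj (t : ℝ) : (starRingEnd ℂ) (ee t) = ee (-t) := by
  simp [ee, ← Complex.exp_conj]

lemma geo_triv (θ : ℝ) {p q M : ℤ} (h : q - p ≤ M) (hM : 0 ≤ M) :
    ‖∑ a ∈ Ico p q, ee (θ * a)‖ ≤ M := by
  refine (norm_sum_le _ _).trans ?_
  simp only [ee_norm, sum_const, Int.card_Ico, nsmul_eq_mul, mul_one]
  have : ((q - p).toNat : ℤ) ≤ M := by omega
  exact_mod_cast this

lemma geo (y : ℝ) (k : ℤ) (hk : |y - k| ≤ 1 / 2) (p q : ℤ) :
    ‖∑ a ∈ Ico p q, ee (2 * Real.pi * y * a)‖ * |y - k| ≤ 1 / 2 := by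
  set θ := 2 * Real.pi * y with hθ
  have h1 : (∑ a ∈ Ico p q, ee (θ * a)) * (ee θ - 1) =
      ee (θ * (p + ((q - p).toNat : ℕ) : ℝ)) - ee (θ * (p + (0 : ℕ) : ℝ)) := by
    rw [← sum_range_sub (fun i : ℕ => ee (θ * (p + i : ℝ))), Int.Ico_eq_finset_map, sum_map, sum_mul]
    refine sum_congr rfl fun i _ => ?_
    rw [mul_sub, ← ee_add, mul_one]
    simp only [Function.Embedding.trans_apply, Nat.castEmbedding_apply, addLeftEmbedding_apply]
    push_cast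
    congr 2
    ring
  have h2 : ‖∑ a ∈ Ico p q, ee (θ * a)‖ * ‖ee θ - 1‖ ≤ 2 := by
    rw [← norm_mul, h1]
    refine (norm_sub_le _ _).trans ?_
    rw [ee_norm, ee_norm]
    norm_num
  have h3 : 4 * |y - k| ≤ ‖ee θ - 1‖ := by
    rw [ee, Complex.norm_exp_I_mul_ofReal_sub_one, Real.norm_eq_abs, abs_mul, abs_two]
    have e : θ / 2 = Real.pi * (y - k) + k * Real.pi := by
      rw [hθ]
      ring
    have pp := Real.pi_pos
    have h4 : |Real.pi * (y - k)| ≤ Real.pi / 2 := by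
      rw [abs_mul, abs_of_pos pp]
      nlinarith
    have h5 := Real.mul_abs_le_abs_sin h4
    rw [abs_mul, abs_of_pos pp, ← mul_assoc, div_mul_cancel₀ _ pp.ne'] at h5
    rw [e, Real.sin_add_int_mul_pi, abs_mul, abs_neg_one_zpow, one_mul]
    linarith
  nlinarith [norm_nonneg (∑ a ∈ Ico p q, ee (θ * a))]

open Classical in
noncomputable def wgt (N : ℕ) (y : ℝ) : ℝ :=
  ∑ j ∈ range (N + 1), if ∃ a : ℤ, |y - a| ≤ 2 ^ j / N then 4 * (N : ℝ) ^ 2 / 4 ^ j else 0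

lemma le_wgt {N : ℕ} (hN : 1 ≤ N) {y s t : ℝ} (s0 : 0 ≤ s) (t0 : 0 ≤ t) (hs : s ≤ 2 * N)
    (ht : t ≤ 2 * N) (hs' : s * |y - round y| ≤ 1 / 2) (ht' : t * |y - round y| ≤ 1 / 2) :
    s * t ≤ wgt N y := by
  classical
  have N0 : (0 : ℝ) < N := by exact_mod_cast hN
  have hN' : |y - round y| ≤ 2 ^ N / N := by
    have : (N : ℝ) ≤ 2 ^ N := by exact_mod_cast Nat.lt_two_pow_self.le
    rw [le_div_iff₀ N0]
    nlinarith [abs_sub_round y, abs_nonneg (y - round y)]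
  have ex : ∃ j : ℕ, |y - round y| ≤ 2 ^ j / N := ⟨N, hN'⟩
  have hj : Nat.find ex ∈ range (N + 1) := mem_range.2 (Nat.lt_succ_of_le (Nat.find_min' ex hN'))
  refine le_trans ?_ (single_le_sum (fun j _ => by split_ifs <;> positivity) hj)
  rw [if_pos ⟨_, Nat.find_spec ex⟩]
  rcases h : Nat.find ex with _ | i
  · nlinarith [mul_le_mul hs ht t0 (by positivity)]
  · have h1 := not_le.1 (Nat.find_min ex (m := i) (by omega))
    have key : ∀ u : ℝ, 0 ≤ u → u * |y - round y| ≤ 1 / 2 → u ≤ N / 2 ^ (i + 1) := by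
      intro u u0 hu
      have := (mul_le_mul_of_nonneg_left h1.le u0).trans hu
      rw [← mul_div_assoc, div_le_iff₀ N0] at this
      rw [le_div_iff₀ (by positivity), pow_succ]
      linarith
    refine (mul_le_mul (key s s0 hs') (key t t0 ht') t0 (by positivity)).trans ?_
    rw [div_mul_div_comm, ← mul_pow, show (2 * 2 : ℝ) = 4 by norm_num]
    exact div_le_div_of_nonneg_right (by nlinarith) (by positivity)

lemma kk_eq {N : ℕ} (hN : 1 ≤ N) (τ x : ℝ) : (N : ℂ) * kk N τ x =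
    ∑ b ∈ Ico (0 : ℤ) (2 * N), ∑ a ∈ Ico (0 : ℤ) (2 * N),
      ee (x * ((a - b : ℤ) : ℝ) - τ * ((a - b : ℤ) : ℝ) ^ 2) := by
  have N0 : (N : ℝ) ≠ 0 := by positivity
  rw [reindex (2 * N) fun h _ => ee (x * h - τ * (h : ℝ) ^ 2), kk, mul_sum]
  refine sum_congr rfl fun n hn => ?_
  rw [sum_const, Int.card_Ico, nsmul_eq_mul, ← mul_assoc]
  congr 1
  rw [mem_Icc] at hn
  have h1 : ((min (2 * (N : ℤ)) (2 * N - n) - max 0 (-n)).toNat : ℤ) = 2 * N - |n| := by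
    rcases abs_cases n with h | h <;> omega
  have h2 : (((min (2 * (N : ℤ)) (2 * N - n) - max 0 (-n)).toNat : ℕ) : ℝ) = 2 * N - |(n : ℝ)| := by
    exact_mod_cast h1
  rw [← Complex.ofReal_natCast, ← Complex.ofReal_natCast, h2, ← Complex.ofReal_mul]
  congr 1
  field_simp

lemma sq_sum (M : ℤ) (τ x : ℝ) :
    ((∑ b ∈ Ico (0 : ℤ) M, ‖∑ a ∈ Ico (0 : ℤ) M,
      ee (x * ((a - b : ℤ) : ℝ) - τ * ((a - b : ℤ) : ℝ) ^ 2)‖ ^ 2 : ℝ) : ℂ) =
    ∑ h ∈ Icc (-M) M, ee (x * h - τ * (h : ℝ) ^ 2) *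
      ((∑ a ∈ Ico (max 0 (-h)) (min M (M - h)), ee (2 * Real.pi * (-(h * τ / Real.pi)) * a)) *
        ∑ b ∈ Ico (0 : ℤ) M, ee (2 * Real.pi * (h * τ / Real.pi) * b)) := by
  have := reindex M fun h a => ∑ b ∈ Ico (0 : ℤ) M, ee (x * h - τ * (h : ℝ) ^ 2) *
    (ee (2 * Real.pi * (-(h * τ / Real.pi)) * a) * ee (2 * Real.pi * (h * τ / Real.pi) * b))
  simp only [sum_mul_sum]
  simp only [mul_sum]
  rw [← this]
  push_cast
  simp only [← Complex.conj_mul', map_sum, sum_mul_sum, ee_conj]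
  rw [sum_comm]
  refine sum_congr rfl fun a' _ => ?_
  rw [sum_comm]
  refine sum_congr rfl fun a _ => sum_congr rfl fun b _ => ?_
  simp only [← ee_add]
  congr 1
  field_simp
  ring

lemma kk_le {N : ℕ} (hN : 1 ≤ N) (τ x : ℝ) : (N : ℝ) ^ 2 * ‖kk N τ x‖ ^ 2 ≤
    2 * N * ∑ h ∈ Icc (-(4 * N : ℤ)) (4 * N), wgt N (h * τ / Real.pi) := by
  have h1 : (N : ℝ) ^ 2 * ‖kk N τ x‖ ^ 2 = ‖(N : ℂ) * kk N τ x‖ ^ 2 := by
    rw [norm_mul, mul_pow, Complex.norm_natCast]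
  rw [h1, kk_eq hN]
  refine (pow_le_pow_left₀ (norm_nonneg _) (norm_sum_le _ _) 2).trans
    (sq_sum_le_card_mul_sum_sq.trans ?_)
  have hc : ((#(Ico (0 : ℤ) (2 * N)) : ℕ) : ℝ) = 2 * N := by
    rw [Int.card_Ico]
    have : ((2 * (N : ℤ) - 0).toNat : ℤ) = 2 * N := by omega
    exact_mod_cast this
  rw [hc]
  refine mul_le_mul_of_nonneg_left ?_ (by positivity)
  refine (le_abs_self _).trans ?_
  rw [← Real.norm_eq_abs, ← Complex.norm_real, sq_sum]
  refine (norm_sum_le _ _).trans ((sum_le_sum fun h hh => ?_).trans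
    (sum_le_sum_of_subset_of_nonneg (Icc_subset_Icc (by omega) (by omega)) fun h _ _ =>
      sum_nonneg fun j _ => by split_ifs <;> positivity))
  rw [norm_mul, ee_norm, one_mul, norm_mul]
  have g1 := geo (-(h * τ / Real.pi)) (-round (h * τ / Real.pi))
  have e : |-(h * τ / Real.pi) - ((-round (h * τ / Real.pi) : ℤ) : ℝ)| =
      |h * τ / Real.pi - round (h * τ / Real.pi)| := by
    rw [← abs_neg]
    push_cast
    congr 1
    ring
  rw [e] at g1
  refine le_wgt hN (norm_nonneg _) (norm_nonneg _) ?_ ?_ (g1 (abs_sub_round _) _ _)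
    (geo _ _ (abs_sub_round _) _ _)
  · exact_mod_cast geo_triv _ (M := 2 * N) (by omega) (by omega)
  · exact_mod_cast geo_triv _ (M := 2 * N) (by omega) (by omega)

end Weyl

open Weyl in
theorem weyl : COUNT → WEYL := by
  classical
  rintro ⟨C, C0, hC⟩
  refine ⟨16 * C, by positivity, fun N b τ x hb hbN hτ => ?_⟩
  have hN : 1 ≤ N := hb.trans hbN
  have N0 : (0 : ℝ) < N := by exact_mod_cast hN
  have b0 : (0 : ℝ) < b := by exact_mod_cast hb
  have h1 : ∑ h ∈ Icc (-(4 * N : ℤ)) (4 * N), wgt N (h * τ / Real.pi) ≤ 8 * C * (N : ℝ) ^ 3 / b := by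
    simp only [wgt]
    rw [sum_comm]
    have h2 : ∀ j ∈ range (N + 1), (∑ h ∈ Icc (-(4 * N : ℤ)) (4 * N),
        if ∃ a : ℤ, |h * τ / Real.pi - a| ≤ 2 ^ j / N then 4 * (N : ℝ) ^ 2 / 4 ^ j else 0) ≤
        4 * C * (N : ℝ) ^ 3 / b * (1 / 2) ^ j := by
      intro j _
      rw [← sum_filter, sum_const, nsmul_eq_mul]
      have h3 := hC N b τ (2 ^ j / N) hb hbN hτ (by gcongr; exact one_le_pow₀ one_le_two)
      refine (mul_le_mul_of_nonneg_right h3 (by positivity)).trans (le_of_eq ?_)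
      rw [show (4 : ℝ) ^ j = 2 ^ j * 2 ^ j by rw [← mul_pow]; norm_num, one_div, inv_pow]
      field_simp
    refine (sum_le_sum h2).trans ?_
    rw [← mul_sum]
    refine (mul_le_mul_of_nonneg_left (sum_geometric_two_le _) (by positivity)).trans (le_of_eq ?_)
    ring
  have h2 := (kk_le hN τ x).trans (mul_le_mul_of_nonneg_left h1 (by positivity))
  refine le_of_mul_le_mul_left (h2.trans (le_of_eq ?_)) (pow_pos N0 2)
  ring

end Pool.Agent.P.MP_7211b7_an
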