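import Pool.Agent.P.MP_7211b7_an.BG
import Pool.Agent.P.MP_7211b7_an.BGLoc
import Pool.Agent.P.MP_7211b7_an.Bern
import Pool.Agent.P.MP_7211b7_an.Boot
import Pool.Agent.P.MP_7211b7_an.Comb
import Pool.Agent.P.MP_7211b7_an.Count
import Pool.Agent.P.MP_7211b7_an.Cover
import Pool.Agent.P.MP_7211b7_an.Cyl
import Pool.Agent.P.MP_7211b7_an.Exc
import Pool.Agent.P.MP_7211b7_an.Greedy
import Pool.Agent.P.MP_7211b7_an.Hold
import Pool.Agent.P.MP_7211b7_an.Iter
import Pool.Agent.P.MP_7211b7_an.Kak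
import Pool.Agent.P.MP_7211b7_an.KakStep
import Pool.Agent.P.MP_7211b7_an.Ker
import Pool.Agent.P.MP_7211b7_an.LW
import Pool.Agent.P.MP_7211b7_an.Layer
import Pool.Agent.P.MP_7211b7_an.Level
import Pool.Agent.P.MP_7211b7_an.MLExp
import Pool.Agent.P.MP_7211b7_an.Orth
import Pool.Agent.P.MP_7211b7_an.Pack
import Pool.Agent.P.MP_7211b7_an.Resc
import Pool.Agent.P.MP_7211b7_an.Step1
import Pool.Agent.P.MP_7211b7_an.Step2
import Pool.Agent.P.MP_7211b7_an.TT
import Pool.Agent.P.MP_7211b7_an.TorA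
import Pool.Agent.P.MP_7211b7_an.Tube
import Pool.Agent.P.MP_7211b7_an.Weight1
import Pool.Agent.P.MP_7211b7_an.Weight2
import Pool.Agent.P.MP_7211b7_an.Weyl

/-! The Bourgain-Demeter decoupling theorem and the Strichartz estimates on rectangular tori. -/

namespace Pool.Agent.P.MP_7211b7_an

theorem bourgain_demeter (r : ℕ) (p : ℝ) (hp : 2 < p) (hr : r * (p - 2) ≤ 4) : DecThm r p := by
  have h5 := w5 w1
  have h6 := w6 w1
  have h8 := w8 w1
  have hb1 := bern1 ker1
  have hb2 := bern2 hb1 h8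
  have hhold := hold w2 h8
  have hs1 := step1 h8 (tube hb1 w1 h6 h8) (kak (kakstep lw))
  have hs2 := step2 w3a hs1 hhold (orth pack ker2)
  have hit := iter group hhold hs2 resc
  have hml := mlexp pack w1 w2 w4 hb2 hit
  have hbg := bg pack group w2 w3b resc (bgloc h5 greedy (cyl pack mult))
  exact decThm (triv pack) (boot (triv pack) hbg hml) r p hp hr

theorem torus_strichartz (r : ℕ) (θ : Fin r → ℝ) (hθ : ∀ i, 0 < θ i) : TorThm r θ :=
  torThm cover (tora w1 (w5 w1)) (level (weyl count_ok) exc_ok comb tt) layer bourgain_demeter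
    r θ hθ

end Pool.Agent.P.MP_7211b7_an
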