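import Pool.Agent.P.MP_7211b7_an.DefsT

/-! # Halving the multidegree -/

namespace Pool.Agent.P.MP_7211b7_an

namespace Halve

open Submodule Module

section greedy

variable {ι V : Type} [LinearOrder ι] [AddCommGroup V] [Module ℂ V]

/-- standard indices -/
def Std (v : ι → V) (E : Set ι) (c : ι) : Prop := v c ∉ span ℂ (v '' {c' | c' ∈ E ∧ c' < c})

lemma span_std [WellFoundedLT ι] (v : ι → V) (E : Set ι) :
    span ℂ (v '' E) ≤ span ℂ (v '' {c | c ∈ E ∧ Std v E c}) := by
  have h : ∀ c, c ∈ E → v c ∈ span ℂ (v '' {c | c ∈ E ∧ Std v E c}) := by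
    intro c
    induction c using WellFoundedLT.induction with
    | ind c ih =>
      intro hc
      by_cases hs : Std v E c
      · exact subset_span ⟨c, ⟨hc, hs⟩, rfl⟩
      · refine span_le.2 ?_ (not_not.1 hs)
        rintro _ ⟨c', h', rfl⟩
        exact ih c' h'.2 h'.1
  refine span_le.2 ?_
  rintro _ ⟨c, hc, rfl⟩
  exact h c hc

lemma indep (v : ι → V) (E : Set ι) (t : Finset ι) (ht : ∀ c ∈ t, c ∈ E ∧ Std v E c) :
    LinearIndepOn ℂ v t := by
  induction t using Finset.induction_on_max with
  | empty => simp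
  | insert a s hs ih =>
    rw [Finset.coe_insert]
    refine (ih fun c hc => ht c (Finset.mem_insert_of_mem hc)).insert fun h => ?_
    refine (ht a (Finset.mem_insert_self _ _)).2 (span_mono (Set.image_mono fun c hc => ?_) h)
    exact ⟨(ht c (Finset.mem_insert_of_mem hc)).1, hs c hc⟩

lemma card_le (v : ι → V) {E : Set ι} (hE : E.Finite) (t : Finset ι)
    (ht : ∀ c ∈ t, c ∈ E ∧ Std v E c) : t.card ≤ finrank ℂ (span ℂ (v '' E)) := by
  have h1 := finrank_span_eq_card (indep v E t ht)
  have := FiniteDimensional.span_of_finite ℂ (hE.image v)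
  have h2 : span ℂ (Set.range fun x : (t : Set ι) => v x) ≤ span ℂ (v '' E) := by
    refine span_mono ?_
    rintro _ ⟨x, rfl⟩
    exact ⟨x, (ht x x.2).1, rfl⟩
  have h3 := Submodule.finrank_mono h2
  rw [h1] at h3
  simpa using h3

lemma le_card [WellFoundedLT ι] (v : ι → V) {E : Set ι} (t : Finset ι)
    (ht : ∀ c, c ∈ E → Std v E c → c ∈ t) : finrank ℂ (span ℂ (v '' E)) ≤ t.card := by
  classical
  have h1 : span ℂ (v '' E) ≤ span ℂ (t.image v : Set V) := by
    refine (span_std v E).trans (span_mono ?_)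
    rw [Finset.coe_image]
    exact Set.image_mono fun c hc => ht c hc.1 hc.2
  exact (Submodule.finrank_mono h1).trans
    ((finrank_span_finset_le_card _).trans Finset.card_image_le)

end greedy

end Halve

open Halve Submodule Module

theorem halve : HALVE := by
  intro A _ _ σ _ m y deg Hs hH hm a
  classical
  let _ : LinearOrder σ := LinearOrder.lift' _ (Fintype.equivFin σ).injective
  let v : Lex (σ → ℕ) → A := fun c => ∏ j, y j ^ ofLex c j
  let dg : (σ → ℕ) → Fin m → ℕ := fun c i => ∑ j, if deg j = i then c j else 0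
  let E : (Fin m → ℕ) → Set (Lex (σ → ℕ)) := fun a => {c | dg (ofLex c) = a}
  have dadd : ∀ c e, dg (c + e) = dg c + dg e := fun c e => by
    funext i
    simp only [dg, Pi.add_apply, ← Finset.sum_add_distrib]
    exact Finset.sum_congr rfl fun j _ => by split_ifs <;> simp
  have vadd : ∀ c e, v (c + e) = v c * v e := fun c e => by
    simp only [v, ofLex_add, Pi.add_apply, pow_add, Finset.prod_mul_distrib]
  have hH' : ∀ a, Hs a = span ℂ (v '' E a) := fun a => by
    rw [hH]
    congr 1
    ext u
    constructor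
    · rintro ⟨c, h1, rfl⟩
      exact ⟨toLex c, funext h1, rfl⟩
    · rintro ⟨c, h1, rfl⟩
      exact ⟨ofLex c, fun i => congrFun h1 i, rfl⟩
  have hE : ∀ a, (E a).Finite := fun a => by
    refine ((Set.Finite.pi' fun j : σ => Set.finite_Iic (a (deg j))).image toLex).subset ?_
    intro c hc
    refine ⟨ofLex c, fun j => ?_, rfl⟩
    rw [← show dg (ofLex c) = a from hc]
    refine le_trans (le_of_eq ?_) (Finset.single_le_sum
      (f := fun j' => if deg j' = deg j then ofLex c j' else 0) (fun _ _ => Nat.zero_le _)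
      (Finset.mem_univ j))
    simp
  have hstd : ∀ c e, Std v (E (dg (ofLex (c + e)))) (c + e) → Std v (E (dg (ofLex c))) c := by
    intro c e h h'
    refine h ?_
    have h1 := Submodule.mem_map_of_mem (f := LinearMap.mulRight ℂ (v e)) h'
    rw [Submodule.map_span, LinearMap.mulRight_apply, ← vadd] at h1
    refine span_mono ?_ h1
    rintro _ ⟨_, ⟨c', ⟨h2, h3⟩, rfl⟩, rfl⟩
    refine ⟨c' + e, ⟨?_, add_lt_add_left h3 e⟩, vadd _ _⟩
    change dg (ofLex c' + ofLex e) = dg (ofLex c + ofLex e)
    rw [dadd, dadd, show dg (ofLex c') = _ from h2]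
  let t := (hE a).toFinset.filter (Std v (E a))
  rw [hH' a]
  refine (le_card v t fun c h1 h2 => by simp [t, h1, h2]).trans ?_
  let par : Lex (σ → ℕ) → σ → Fin 2 := fun c j => ⟨ofLex c j % 2, Nat.mod_lt _ two_pos⟩
  let hf : Lex (σ → ℕ) → Lex (σ → ℕ) := fun c => toLex fun j => ofLex c j / 2
  refine (Finset.card_le_mul_card_image_of_maps_to (f := par) (t := Finset.univ)
    (fun _ _ => Finset.mem_univ _) (finrank ℂ (Hs fun i => a i / 2)) fun ε _ => ?_).trans
    (le_of_eq (by simp [mul_comm]))
  let e : σ → ℕ := fun j => ε j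
  have hc : ∀ c, par c = ε → ofLex c = ofLex (hf c) + ofLex (hf c) + e := fun c h => by
    funext j
    have := congrArg Fin.val (congrFun h j)
    simp only [par] at this
    simp only [hf, e, Pi.add_apply, ofLex_toLex]
    omega
  refine le_trans ?_ (hm (fun i => (a i - dg e i) / 2) _ fun i => by simp only; omega)
  rw [hH', ← Finset.card_image_of_injOn (f := hf)]
  · refine card_le v (hE _) _ fun c' hc' => ?_
    obtain ⟨c, h1, rfl⟩ := Finset.mem_image.1 hc'
    simp only [t, Finset.mem_filter, Set.Finite.mem_toFinset] at h1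
    obtain ⟨⟨h1, h2⟩, h3⟩ := h1
    have h4 := hc c h3
    have h5 : dg (ofLex c) = a := h1
    have h6 : dg (ofLex (hf c)) = fun i => (a i - dg e i) / 2 := by
      rw [h4, dadd, dadd] at h5
      funext i
      have := congrFun h5 i
      simp only [Pi.add_apply] at this
      omega
    refine ⟨h6, ?_⟩
    rw [← h6]
    have h7 : hf c + (hf c + toLex e) = c := by
      rw [← add_assoc]
      exact (congrArg toLex h4).symm
    refine hstd _ (hf c + toLex e) ?_
    rwa [h7, h5]
  · intro c h1 c' h2 h
    have h3 := hc c (Finset.mem_filter.1 h1).2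
    rw [h, ← hc c' (Finset.mem_filter.1 h2).2] at h3
    exact h3

end Pool.Agent.P.MP_7211b7_an
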