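import Pool.Agent.P.MP_7211b7_an.DefsA

/-! Multilinear Kakeya from the one step inequality (Guth's induction on scales). -/

open MeasureTheory
open scoped ENNReal

namespace Pool.Agent.P.MP_7211b7_an

namespace Kak

lemma prof_le_one {r : ℕ} {W : ℝ} (hW : 0 < W) (v : Eu r) : prof W v ≤ 1 := by
  unfold prof
  rw [ENNReal.ofReal_le_one]
  refine inv_le_one_of_one_le₀ (one_le_pow₀ ?_)
  have : 0 ≤ ‖v‖ / W := by positivity
  linarith

lemma kT_le {r : ℕ} {ι : Type} {W : ℝ} (hW : 0 < W) (J : Finset ι) (dir : ι → Eu r)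
    (μ : ι → Measure (Eu r)) (x : Sp r) : kT W J dir μ x ≤ ∑ j ∈ J, μ j Set.univ := by
  unfold kT
  refine Finset.sum_le_sum fun j _ => ?_
  calc ∫⁻ ζ, prof W (x.1 + x.2 • dir j - ζ) ∂(μ j) ≤ ∫⁻ _, 1 ∂(μ j) :=
        lintegral_mono fun ζ => prof_le_one hW _
    _ = μ j Set.univ := lintegral_one

lemma vol_ball (r : ℕ) : ∃ c : ℝ, 0 < c ∧ ∀ ρ : ℝ, 0 ≤ ρ →
    volume (Metric.closedBall (0 : Sp r) ρ) ≤ ENNReal.ofReal (ρ ^ (r + 1) * c) := by
  have hlt : volume (Metric.ball (0 : Sp r) 1) < ⊤ := measure_ball_lt_top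
  refine ⟨(volume (Metric.ball (0 : Sp r) 1)).toReal + 1, by positivity, fun ρ hρ => ?_⟩
  have hf : Module.finrank ℝ (Sp r) = r + 1 := by simp
  have : (volume : Measure (Sp r)).IsAddHaarMeasure :=
    Measure.prod.instIsAddHaarMeasure (volume : Measure (Eu r)) (volume : Measure ℝ)
  rw [Measure.addHaar_closedBall _ _ hρ, hf, ENNReal.ofReal_mul (by positivity)]
  refine mul_le_mul_right ?_ _
  conv_lhs => rw [← ENNReal.ofReal_toReal hlt.ne]
  exact ENNReal.ofReal_le_ofReal (by linarith)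

lemma iter {I : ℝ → ℝ → ℝ≥0∞} {B y : ℝ} (hB : 0 ≤ B) (hy : 2 ≤ y)
    (hmono : ∀ W R R', R ≤ R' → I W R ≤ I W R')
    (hstep : ∀ W R, 0 < W → 0 ≤ R → I W R ≤ ENNReal.ofReal B * I (W * y) (R + W * y))
    {W R : ℝ} (hW : 0 < W) (hR : 0 ≤ R) (k : ℕ) :
    I W R ≤ ENNReal.ofReal (B ^ k) * I (W * y ^ k) (R + 2 * (W * y ^ k)) := by
  induction k with
  | zero => simpa using hmono W R (R + 2 * W) (by linarith)
  | succ k ih =>
    have h0 : 0 < W * y ^ k := by positivity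
    have e : W * y ^ k * y = W * y ^ (k + 1) := by ring
    have h1 := hstep (W * y ^ k) (R + 2 * (W * y ^ k)) h0 (by linarith)
    rw [e] at h1
    have h2 := hmono (W * y ^ (k + 1)) (R + 2 * (W * y ^ k) + W * y ^ (k + 1))
      (R + 2 * (W * y ^ (k + 1))) (by rw [← e]; nlinarith)
    rw [pow_succ B, ENNReal.ofReal_mul (by positivity), mul_assoc]
    exact ih.trans (mul_le_mul_right (h1.trans (mul_le_mul_right h2 _)) _)

end Kak

theorem kak : KAKSTEP → KAK := by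
  intro hs r Λ ε hr hε
  obtain ⟨C, hC, hstep⟩ := hs r Λ hr
  obtain ⟨v, hv, hvol⟩ := Kak.vol_ball r
  set y : ℝ := max 2 (C ^ (1 / ε)) with hy
  have hy2 : 2 ≤ y := le_max_left _ _
  have hy0 : 0 < y := by linarith
  have hCy : C ≤ y ^ ε := by
    calc C = (C ^ (1 / ε)) ^ ε := by
          rw [← Real.rpow_mul hC.le, one_div_mul_cancel hε.ne', Real.rpow_one]
      _ ≤ y ^ ε := Real.rpow_le_rpow (by positivity) (le_max_right _ _) hε.le
  refine ⟨y⁻¹, y ^ ε * 3 ^ (r + 1) * v, by positivity, by positivity, ?_⟩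
  intro ι c J dir μ W R hT hc hW hWR hdir hμ
  set I : ℝ → ℝ → ℝ≥0∞ := fun W R =>
    ∫⁻ x in Metric.closedBall (0 : Sp r) R, ∏ i, kT W (J i) (dir i) (μ i) x ^ (1 / (r : ℝ))
    with hI
  have hmono : ∀ W R R', R ≤ R' → I W R ≤ I W R' := fun W R R' h =>
    lintegral_mono_set (Metric.closedBall_subset_closedBall h)
  have hst : ∀ W R, 0 < W → 0 ≤ R →
      I W R ≤ ENNReal.ofReal (C * y⁻¹ ^ (r + 1)) * I (W * y) (R + W * y) := by
    intro W R hW hR
    have := hstep ι c J dir μ y⁻¹ W R hT hc (by positivity)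
      (by rw [one_div]; exact inv_anti₀ two_pos hy2) hW hR hdir hμ
    rwa [div_inv_eq_mul] at this
  obtain ⟨n, hn1, hn2⟩ := exists_nat_pow_near (x := R / W) (y := y)
    ((one_le_div hW).2 hWR) (by linarith)
  have hR0 : 0 < R := by linarith
  have h1 := Kak.iter (by positivity) hy2 hmono hst hW hR0.le (n + 1)
  set V : ℝ := W * y ^ (n + 1) with hV
  have hV0 : 0 < V := by positivity
  have hRV : R ≤ V := by
    rw [div_lt_iff₀ hW] at hn2
    rw [hV]
    linarith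
  have h2 : I V (R + 2 * V) ≤ ENNReal.ofReal ((3 * V) ^ (r + 1) * v) *
      ∏ i, (∑ j ∈ J i, μ i j Set.univ) ^ (1 / (r : ℝ)) := by
    refine (hmono V _ (3 * V) (by linarith)).trans ?_
    calc I V (3 * V) ≤ ∫⁻ _ in Metric.closedBall (0 : Sp r) (3 * V),
          ∏ i, (∑ j ∈ J i, μ i j Set.univ) ^ (1 / (r : ℝ)) :=
          lintegral_mono fun x => Finset.prod_le_prod' fun i _ =>
            ENNReal.rpow_le_rpow (Kak.kT_le hV0 _ _ _ x) (by positivity)
      _ = volume (Metric.closedBall (0 : Sp r) (3 * V)) *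
          ∏ i, (∑ j ∈ J i, μ i j Set.univ) ^ (1 / (r : ℝ)) := by
          rw [setLIntegral_const, mul_comm]
      _ ≤ _ := mul_le_mul_left (hvol _ (by positivity)) _
  refine h1.trans ((mul_le_mul_right h2 _).trans ?_)
  rw [← mul_assoc, ← ENNReal.ofReal_mul (by positivity)]
  refine mul_le_mul_left (ENNReal.ofReal_le_ofReal ?_) _
  have e1 : (C * y⁻¹ ^ (r + 1)) ^ (n + 1) * ((3 * V) ^ (r + 1) * v) =
      C ^ (n + 1) * (3 ^ (r + 1) * v * W ^ (r + 1)) := by
    have : (y⁻¹ ^ (r + 1)) ^ (n + 1) * (y ^ (n + 1)) ^ (r + 1) = 1 := by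
      rw [← pow_mul, ← pow_mul, mul_comm (n + 1), ← mul_pow, inv_mul_cancel₀ hy0.ne', one_pow]
    rw [hV, mul_pow, mul_pow, mul_pow]
    linear_combination (C ^ (n + 1) * (3 ^ (r + 1) * v * W ^ (r + 1))) * this
  have e2 : C ^ (n + 1) ≤ y ^ ε * (R / W) ^ ε := by
    calc C ^ (n + 1) ≤ (y ^ ε) ^ (n + 1) := pow_le_pow_left₀ hC.le hCy _
      _ = (y * y ^ n) ^ ε := by
          rw [← Real.rpow_natCast, ← Real.rpow_mul hy0.le, mul_comm ε, Real.rpow_mul hy0.le,
            Real.rpow_natCast, pow_succ']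
      _ ≤ (y * (R / W)) ^ ε := Real.rpow_le_rpow (by positivity)
          (mul_le_mul_of_nonneg_left hn1 hy0.le) hε.le
      _ = _ := Real.mul_rpow hy0.le (by positivity)
  rw [e1]
  calc C ^ (n + 1) * (3 ^ (r + 1) * v * W ^ (r + 1))
      ≤ y ^ ε * (R / W) ^ ε * (3 ^ (r + 1) * v * W ^ (r + 1)) :=
        mul_le_mul_of_nonneg_right e2 (by positivity)
    _ = _ := by ring

end Pool.Agent.P.MP_7211b7_an
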