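import Pool.Agent.P.MP_7211b7_an.DefsL

/-!
# Construction of the infinitesimal regular actions
-/

open MeasureTheory ComplexConjugate Complex
open scoped ENNReal Matrix

set_option linter.unusedSectionVars false

namespace Pool.Agent.P.MP_7211b7_an

variable {G : Type} [Group G] [TopologicalSpace G] [IsTopologicalGroup G] [CompactSpace G]
  [T2Space G] [SecondCountableTopology G] [MeasurableSpace G] [BorelSpace G] {n : ℕ}
  {ρ : G →* Mat n}

namespace LCalc

open scoped Matrix.Norms.Operator in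
theorem exp_entry (X : Mat n) (i j : Fin n) :
    HasDerivAt (fun s : ℝ => NormedSpace.exp (s • X) i j) (X i j) 0 := by
  have h := hasDerivAt_exp_smul_const (𝕂 := ℝ) X 0
  let L : Mat n →L[ℝ] ℂ := LinearMap.toContinuousLinearMap (Matrix.entryLinearMap ℝ ℂ i j)
  have h2 := L.hasFDerivAt.comp_hasDerivAt (0 : ℝ) h
  rw [zero_smul, NormedSpace.exp_zero, one_mul] at h2
  exact h2

theorem rho_entry (hL : LIE ρ) {X : Mat n} (hX : X ∈ lieAlg ρ) (i j : Fin n) :
    HasDerivAt (fun s : ℝ => ρ (expG ρ (s • X)) i j) (X i j) 0 := by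
  simp only [fun s : ℝ => hL.rho_exp _ ((lieAlg ρ).smul_mem s hX)]
  exact exp_entry X i j

theorem rho_entry_conj (hL : LIE ρ) {X : Mat n} (hX : X ∈ lieAlg ρ) (i j : Fin n) :
    HasDerivAt (fun s : ℝ => conj (ρ (expG ρ (s • X)) i j)) (-X j i) 0 := by
  have h := (rho_entry hL hX i j).star
  have h2 : star (X i j) = -X j i := by
    have := congrFun (congrFun (hL.skew X hX) j) i
    simpa using this
  rw [h2] at h
  exact h

/-- the matrix entries -/
noncomputable def ent (hρ : IsRep ρ) : Matrix (Fin n) (Fin n) (PP ρ) := fun i j =>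
  ⟨⟨fun g => ρ g i j, hρ.cont.matrix_elem i j⟩, Algebra.subset_adjoin (Or.inl ⟨i, j, fun _ => rfl⟩)⟩

/-- the conjugate matrix entries -/
noncomputable def entc (hρ : IsRep ρ) : Matrix (Fin n) (Fin n) (PP ρ) := fun i j =>
  ⟨⟨fun g => conj (ρ g i j), Complex.continuous_conj.comp (hρ.cont.matrix_elem i j)⟩,
    Algebra.subset_adjoin (Or.inr ⟨i, j, fun _ => rfl⟩)⟩

theorem der_ext (hρ : IsRep ρ) {D D' : Derivation ℂ (PP ρ) (PP ρ)}
    (h1 : ∀ i j, D (ent hρ i j) = D' (ent hρ i j))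
    (h2 : ∀ i j, D (entc hρ i j) = D' (entc hρ i j)) : D = D' := by
  refine Derivation.ext_of_adjoin_eq_top _ Algebra.adjoin_adjoin_coe_preimage ?_
  rintro f (⟨i, j, hf⟩ | ⟨i, j, hf⟩)
  · have : f = ent hρ i j := Subtype.ext (ContinuousMap.ext hf)
    rw [this]
    exact h1 i j
  · have : f = entc hρ i j := Subtype.ext (ContinuousMap.ext hf)
    rw [this]
    exact h2 i j

/-- a one parameter family of algebra maps differentiable on the generators gives a derivation -/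
theorem exists_der (hρ : IsRep ρ) (T : ℝ → C(G, ℂ) →L[ℂ] C(G, ℂ))
    (hmul : ∀ s f h, T s (f * h) = T s f * T s h) (hone : ∀ s, T s 1 = 1) (h0 : ∀ f, T 0 f = f)
    (u v : Matrix (Fin n) (Fin n) (PP ρ))
    (hu : ∀ i j, HasDerivAt (fun s => T s (ent hρ i j)) (u i j : C(G, ℂ)) 0)
    (hv : ∀ i j, HasDerivAt (fun s => T s (entc hρ i j)) (v i j : C(G, ℂ)) 0) :
    ∃ D : Derivation ℂ (PP ρ) (PP ρ), (∀ f : PP ρ, HasDerivAt (fun s => T s f) (D f : C(G, ℂ)) 0) ∧
      (∀ i j, D (ent hρ i j) = u i j) ∧ ∀ i j, D (entc hρ i j) = v i j := by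
  have hadd : ∀ {f h f' h' : C(G, ℂ)}, HasDerivAt (fun s => T s f) f' 0 →
      HasDerivAt (fun s => T s h) h' 0 → HasDerivAt (fun s => T s (f + h)) (f' + h') 0 := by
    intro f h f' h' hf hh
    simp only [map_add]
    exact hf.add hh
  have hsm : ∀ {f f' : C(G, ℂ)} (c : ℂ), HasDerivAt (fun s => T s f) f' 0 →
      HasDerivAt (fun s => T s (c • f)) (c • f') 0 := by
    intro f f' c hf
    simp only [map_smul]
    exact hf.const_smul c
  have hm : ∀ {f h f' h' : C(G, ℂ)}, HasDerivAt (fun s => T s f) f' 0 →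
      HasDerivAt (fun s => T s h) h' 0 →
      HasDerivAt (fun s => T s (f * h)) (f * h' + h * f') 0 := by
    intro f h f' h' hf hh
    simp only [hmul]
    have := hf.mul hh
    rw [h0, h0, add_comm, mul_comm f' h] at this
    exact this
  have ex : ∀ f ∈ PP ρ, ∃ f' ∈ PP ρ, HasDerivAt (fun s => T s f) f' 0 := by
    intro f hf
    induction hf using Algebra.adjoin_induction with
    | mem f hf =>
      rcases hf with ⟨i, j, hf⟩ | ⟨i, j, hf⟩
      · have : f = ent hρ i j := ContinuousMap.ext hf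
        exact ⟨_, (u i j).2, this ▸ hu i j⟩
      · have : f = entc hρ i j := ContinuousMap.ext hf
        exact ⟨_, (v i j).2, this ▸ hv i j⟩
    | algebraMap c =>
      refine ⟨0, zero_mem _, ?_⟩
      simp only [Algebra.algebraMap_eq_smul_one, map_smul, hone]
      exact hasDerivAt_const _ _
    | add f h _ _ hf hh =>
      obtain ⟨f', hf1, hf2⟩ := hf
      obtain ⟨h', hh1, hh2⟩ := hh
      exact ⟨_, add_mem hf1 hh1, hadd hf2 hh2⟩
    | mul f h hf0 hh0 hf hh =>
      obtain ⟨f', hf1, hf2⟩ := hf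
      obtain ⟨h', hh1, hh2⟩ := hh
      exact ⟨_, add_mem (mul_mem hf0 hh1) (mul_mem hh0 hf1), hm hf2 hh2⟩
  choose d hd1 hd2 using ex
  let D0 : PP ρ →ₗ[ℂ] PP ρ :=
    { toFun := fun f => ⟨d f f.2, hd1 f f.2⟩
      map_add' := fun f h => Subtype.ext
        ((hd2 _ (f + h).2).unique (hadd (hd2 f f.2) (hd2 h h.2)))
      map_smul' := fun c f => Subtype.ext ((hd2 _ (c • f).2).unique (hsm c (hd2 f f.2))) }
  refine ⟨Derivation.mk' D0 fun f h => Subtype.ext
    ((hd2 _ (f * h).2).unique (hm (hd2 f f.2) (hd2 h h.2))), fun f => hd2 f f.2,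
    fun i j => Subtype.ext ((hd2 _ (ent hρ i j).2).unique (hu i j)),
    fun i j => Subtype.ext ((hd2 _ (entc hρ i j).2).unique (hv i j))⟩

theorem exists_sec (ρ : G →* Mat n) : ∃ σ : Mat n →ₗ[ℂ] (lieAlg ρ →₀ ℂ), ∀ Z ∈ gC ρ,
    Finsupp.linearCombination ℂ (Subtype.val : lieAlg ρ → Mat n) (σ Z) = Z := by
  set Φ := Finsupp.linearCombination ℂ (Subtype.val : lieAlg ρ → Mat n) with hΦ
  have hr : LinearMap.range Φ = gC ρ := by
    rw [hΦ, Finsupp.range_linearCombination, Subtype.range_coe_subtype]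
    rfl
  obtain ⟨s, hs⟩ := Φ.rangeRestrict.exists_rightInverse_of_surjective Φ.range_rangeRestrict
  obtain ⟨σ, hσ⟩ := s.exists_extend
  refine ⟨σ, fun Z hZ => ?_⟩
  rw [← hr] at hZ
  have h1 : σ Z = s ⟨Z, hZ⟩ := LinearMap.congr_fun hσ ⟨Z, hZ⟩
  rw [h1]
  exact congrArg Subtype.val (LinearMap.congr_fun hs ⟨Z, hZ⟩)

/-- complexification of a family of derivations with prescribed values on the generators -/
theorem exists_cx (hρ : IsRep ρ) (T : Mat n → ℝ → C(G, ℂ) →L[ℂ] C(G, ℂ))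
    (hmul : ∀ X s f h, T X s (f * h) = T X s f * T X s h) (hone : ∀ X s, T X s 1 = 1)
    (h0 : ∀ X f, T X 0 f = f) (u v : Fin n → Fin n → (Mat n →ₗ[ℂ] PP ρ))
    (hu : ∀ X ∈ lieAlg ρ, ∀ i j,
      HasDerivAt (fun s => T X s (ent hρ i j)) (u i j X : C(G, ℂ)) 0)
    (hv : ∀ X ∈ lieAlg ρ, ∀ i j,
      HasDerivAt (fun s => T X s (entc hρ i j)) (v i j X : C(G, ℂ)) 0) :
    ∃ d : Mat n →ₗ[ℂ] Derivation ℂ (PP ρ) (PP ρ),
      (∀ X ∈ lieAlg ρ, ∀ f : PP ρ, HasDerivAt (fun s => T X s f) (d X f : C(G, ℂ)) 0) ∧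
      (∀ Z ∈ gC ρ, ∀ i j, d Z (ent hρ i j) = u i j Z) ∧
      ∀ Z ∈ gC ρ, ∀ i j, d Z (entc hρ i j) = v i j Z := by
  choose δ hδ h1 h2 using fun X : lieAlg ρ => exists_der hρ (T X) (hmul X) (hone X) (h0 X)
    (fun i j => u i j X) (fun i j => v i j X) (hu X X.2) (hv X X.2)
  obtain ⟨σ, hσ⟩ := exists_sec ρ
  have key : ∀ (e : PP ρ) (w : Mat n →ₗ[ℂ] PP ρ), (∀ X : lieAlg ρ, δ X e = w X) → ∀ Z ∈ gC ρ,
      (Finsupp.linearCombination ℂ δ ∘ₗ σ) Z e = w Z := by
    intro e w hw Z hZ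
    conv_rhs => rw [← hσ Z hZ]
    rw [LinearMap.comp_apply]
    induction σ Z using Finsupp.induction_linear with
    | zero => simp
    | add a b ha hb => simp only [map_add, Derivation.add_apply, ha, hb]
    | single X c => simp only [Finsupp.linearCombination_single, Derivation.smul_apply, hw, map_smul]
  have k1 := fun Z hZ i j => key _ (u i j) (fun X => h1 X i j) Z hZ
  have k2 := fun Z hZ i j => key _ (v i j) (fun X => h2 X i j) Z hZ
  refine ⟨Finsupp.linearCombination ℂ δ ∘ₗ σ, fun X hX f => ?_, k1, k2⟩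
  have : (Finsupp.linearCombination ℂ δ ∘ₗ σ) X = δ ⟨X, hX⟩ :=
    der_ext hρ (fun i j => (k1 X (mem_gC hX) i j).trans (h1 ⟨X, hX⟩ i j).symm)
      fun i j => (k2 X (mem_gC hX) i j).trans (h2 ⟨X, hX⟩ i j).symm
  rw [this]
  exact hδ ⟨X, hX⟩ f

/-- `Z ↦ ∑ l, Z (a l) (b l) • e l` -/
noncomputable def comb (a b : Fin n → Fin n) (e : Fin n → PP ρ) : Mat n →ₗ[ℂ] PP ρ :=
  ∑ l, (Matrix.entryLinearMap ℂ ℂ (a l) (b l)).smulRight (e l)

theorem comb_apply (a b : Fin n → Fin n) (e : Fin n → PP ρ) (Z : Mat n) :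
    comb a b e Z = ∑ l, Z (a l) (b l) • e l := by
  simp [comb, LinearMap.sum_apply]

theorem hasDerivAt_comb {c : Fin n → ℝ → ℂ} {c' : Fin n → ℂ} (h : ∀ l, HasDerivAt (c l) (c' l) 0)
    (e : Fin n → PP ρ) {F : ℝ → C(G, ℂ)} (hF : ∀ s g, F s g = ∑ l, c l s * (e l : C(G, ℂ)) g) :
    HasDerivAt F ((∑ l, c' l • e l : PP ρ) : C(G, ℂ)) 0 := by
  have h1 : F = fun s => ∑ l, c l s • (e l : C(G, ℂ)) := by
    funext s
    ext g
    simp [hF]
  rw [h1]
  push_cast
  exact HasDerivAt.fun_sum fun l _ => (h l).smul_const _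

theorem exists_R (hρ : IsRep ρ) (hL : LIE ρ) :
    ∃ d : Mat n →ₗ[ℂ] Derivation ℂ (PP ρ) (PP ρ),
      (∀ X ∈ lieAlg ρ, ∀ f : PP ρ,
        HasDerivAt (fun s : ℝ => tr2 1 (expG ρ (s • X)) (f : C(G, ℂ))) (d X f : C(G, ℂ)) 0) ∧
      (∀ Z ∈ gC ρ, ∀ i j, d Z (ent hρ i j) = ∑ l, Z l j • ent hρ i l) ∧
      ∀ Z ∈ gC ρ, ∀ i j, d Z (entc hρ i j) = -∑ l, Z j l • entc hρ i l := by
  obtain ⟨d, h1, h2, h3⟩ := exists_cx hρ (fun X s => tr2 1 (expG ρ (s • X)))
    (fun X s => tr2_mul _ _) (fun X s => rfl) (fun X f => by rw [zero_smul, hL.exp_zero, tr2_one])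
    (fun i j => comb id (fun _ => j) (ent hρ i)) (fun i j => -comb (fun _ => j) id (entc hρ i))
    (fun X hX i j => by
      rw [comb_apply]
      refine hasDerivAt_comb (fun l => rho_entry hL hX l j) _ fun s g => ?_
      simp [ent, Matrix.mul_apply, mul_comm])
    (fun X hX i j => by
      rw [LinearMap.neg_apply, comb_apply, ← Finset.sum_neg_distrib]
      simp only [← neg_smul]
      refine hasDerivAt_comb (fun l => rho_entry_conj hL hX l j) _ fun s g => ?_
      simp [entc, Matrix.mul_apply, mul_comm])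
  refine ⟨d, h1, fun Z hZ i j => ?_, fun Z hZ i j => ?_⟩
  · rw [h2 Z hZ, comb_apply]
    rfl
  · rw [h3 Z hZ, LinearMap.neg_apply, comb_apply]
    rfl

theorem exists_L (hρ : IsRep ρ) (hL : LIE ρ) :
    ∃ d : Mat n →ₗ[ℂ] Derivation ℂ (PP ρ) (PP ρ),
      (∀ X ∈ lieAlg ρ, ∀ f : PP ρ,
        HasDerivAt (fun s : ℝ => tr2 (expG ρ (s • X)) 1 (f : C(G, ℂ))) (d X f : C(G, ℂ)) 0) ∧
      (∀ Z ∈ gC ρ, ∀ i j, d Z (ent hρ i j) = ∑ l, Z i l • ent hρ l j) ∧
      ∀ Z ∈ gC ρ, ∀ i j, d Z (entc hρ i j) = -∑ l, Z l i • entc hρ l j := by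
  obtain ⟨d, h1, h2, h3⟩ := exists_cx hρ (fun X s => tr2 (expG ρ (s • X)) 1)
    (fun X s => tr2_mul _ _) (fun X s => rfl) (fun X f => by rw [zero_smul, hL.exp_zero, tr2_one])
    (fun i j => comb (fun _ => i) id fun l => ent hρ l j)
    (fun i j => -comb id (fun _ => i) fun l => entc hρ l j)
    (fun X hX i j => by
      rw [comb_apply]
      refine hasDerivAt_comb (fun l => rho_entry hL hX i l) _ fun s g => ?_
      simp [ent, Matrix.mul_apply])
    (fun X hX i j => by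
      rw [LinearMap.neg_apply, comb_apply, ← Finset.sum_neg_distrib]
      simp only [← neg_smul]
      refine hasDerivAt_comb (fun l => rho_entry_conj hL hX i l) _ fun s g => ?_
      simp [entc, Matrix.mul_apply])
  refine ⟨d, h1, fun Z hZ i j => ?_, fun Z hZ i j => ?_⟩
  · rw [h2 Z hZ, comb_apply]
    rfl
  · rw [h3 Z hZ, LinearMap.neg_apply, comb_apply]
    rfl

section Sums

variable {M : Type} [AddCommGroup M] [Module ℂ M]

theorem sum_left (Z W : Mat n) (j : Fin n) (e : Fin n → M) :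
    ∑ l, W l j • ∑ m, Z m l • e m = ∑ m, (Z * W) m j • e m := by
  simp only [Finset.smul_sum, smul_smul, Matrix.mul_apply, Finset.sum_smul]
  rw [Finset.sum_comm]
  simp only [mul_comm]

theorem sum_right (Z W : Mat n) (j : Fin n) (e : Fin n → M) :
    ∑ l, W j l • ∑ m, Z l m • e m = ∑ m, (W * Z) j m • e m := by
  simp only [Finset.smul_sum, smul_smul, Matrix.mul_apply, Finset.sum_smul]
  rw [Finset.sum_comm]

theorem sum_swap (a b : Fin n → ℂ) (e : Fin n → Fin n → M) :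
    ∑ l, a l • ∑ m, b m • e l m = ∑ m, b m • ∑ l, a l • e l m := by
  simp only [Finset.smul_sum, smul_smul]
  rw [Finset.sum_comm]
  simp only [mul_comm]

end Sums

end LCalc

open LCalc in
theorem calc_ok (hρ : IsRep ρ) (hL : LIE ρ) (_hP : PF ρ) : Nonempty (Calc ρ) := by
  obtain ⟨dR, R1, R2, R3⟩ := exists_R hρ hL
  obtain ⟨dL, L1, L2, L3⟩ := exists_L hρ hL
  obtain ⟨pr, hpr⟩ := (PP ρ).val.toLinearMap.exists_leftInverse_of_injective
    (LinearMap.ker_eq_bot.2 Subtype.val_injective)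
  have hpr' : ∀ f : PP ρ, pr f = f := fun f => LinearMap.congr_fun hpr f
  let ex : Derivation ℂ (PP ρ) (PP ρ) →ₗ[ℂ] Module.End ℂ C(G, ℂ) :=
    { toFun := fun D => (PP ρ).val.toLinearMap ∘ₗ D.toLinearMap ∘ₗ pr
      map_add' := fun D D' => LinearMap.ext fun f => rfl
      map_smul' := fun c D => LinearMap.ext fun f => rfl }
  have hex : ∀ D f, ex D f = (D (pr f) : C(G, ℂ)) := fun D f => rfl
  have hlie : ∀ D D', ex ⁅D, D'⁆ = ex D * ex D' - ex D' * ex D := by
    intro D D'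
    refine LinearMap.ext fun f => ?_
    simp only [LinearMap.sub_apply, Module.End.mul_apply, hex, hpr', Derivation.commutator_apply]
    rfl
  refine ⟨⟨ex ∘ₗ dR, ex ∘ₗ dL, fun Z f => (dR Z (pr f)).2, fun Z f => (dL Z (pr f)).2,
    fun X hX f hf => ?_, fun X hX f hf => ?_, fun Z hZ W hW => ?_, fun Z hZ W hW => ?_,
    fun Z hZ W hW => ?_⟩⟩
  · rw [LinearMap.comp_apply, hex, show pr f = ⟨f, hf⟩ from hpr' ⟨f, hf⟩]
    exact R1 X hX ⟨f, hf⟩
  · rw [LinearMap.comp_apply, hex, show pr f = ⟨f, hf⟩ from hpr' ⟨f, hf⟩]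
    exact L1 X hX ⟨f, hf⟩
  · simp only [LinearMap.comp_apply]
    rw [← hlie]
    congr 1
    refine der_ext hρ (fun i j => ?_) fun i j => ?_
    · rw [Derivation.commutator_apply, R2 _ (hL.gC_lie Z hZ W hW), R2 W hW, R2 Z hZ]
      simp only [map_sum, Derivation.map_smul, R2 Z hZ, R2 W hW, sum_left, Matrix.sub_apply,
        sub_smul, Finset.sum_sub_distrib]
    · rw [Derivation.commutator_apply, R3 _ (hL.gC_lie Z hZ W hW), R3 W hW, R3 Z hZ]
      simp only [map_neg, map_sum, Derivation.map_smul, R3 Z hZ, R3 W hW, smul_neg,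
        Finset.sum_neg_distrib, neg_neg, sum_right, Matrix.sub_apply, sub_smul,
        Finset.sum_sub_distrib, neg_sub]
  · simp only [LinearMap.comp_apply]
    rw [← hlie]
    congr 1
    refine der_ext hρ (fun i j => ?_) fun i j => ?_
    · rw [Derivation.commutator_apply, L2 _ (hL.gC_lie Z hZ W hW), L2 W hW, L2 Z hZ]
      simp only [map_sum, Derivation.map_smul, L2 Z hZ, L2 W hW, sum_right, Matrix.sub_apply,
        sub_smul, Finset.sum_sub_distrib]
    · rw [Derivation.commutator_apply, L3 _ (hL.gC_lie Z hZ W hW), L3 W hW, L3 Z hZ]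
      simp only [map_neg, map_sum, Derivation.map_smul, L3 Z hZ, L3 W hW, smul_neg,
        Finset.sum_neg_distrib, neg_neg, sum_left, Matrix.sub_apply, sub_smul,
        Finset.sum_sub_distrib, neg_sub]
  · simp only [LinearMap.comp_apply]
    rw [← sub_eq_zero, ← hlie, ← map_zero ex]
    congr 1
    refine der_ext hρ (fun i j => ?_) fun i j => ?_
    · rw [Derivation.commutator_apply, L2 W hW, R2 Z hZ]
      simp only [map_sum, Derivation.map_smul, R2 Z hZ, L2 W hW, Derivation.zero_apply]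
      rw [sum_swap, sub_self]
    · rw [Derivation.commutator_apply, L3 W hW, R3 Z hZ]
      simp only [map_neg, map_sum, Derivation.map_smul, R3 Z hZ, L3 W hW, smul_neg,
        Finset.sum_neg_distrib, neg_neg, Derivation.zero_apply]
      rw [sum_swap, sub_self]

end Pool.Agent.P.MP_7211b7_an
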