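import Pool.Agent.P.MP_7211b7_an.DefsL

/-! The Casimir operator: centrality, sign, weight bound, growth of dimensions. -/

open MeasureTheory ComplexConjugate Complex
open scoped ENNReal Matrix

set_option linter.unusedSectionVars false

namespace Pool.Agent.P.MP_7211b7_an

variable {G : Type} [Group G] [TopologicalSpace G] [IsTopologicalGroup G] [CompactSpace G]
  [T2Space G] [SecondCountableTopology G] [MeasurableSpace G] [BorelSpace G] {n : ℕ}
  {ρ : G →* Mat n} {t : Submodule ℝ (Mat n)} {B : LinearMap.BilinForm ℝ (Mat n)} {d r : ℕ}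
  {b : Fin d → Mat n} (μ : Measure G) [Hr μ]

namespace LCas1

theorem expand (hb : IsONB ρ B b) {X : Mat n} (hX : X ∈ lieAlg ρ) :
    ∑ a, B X (b a) • b a = X := by
  rw [← hb.span] at hX
  obtain ⟨c, rfl⟩ := (Submodule.mem_span_range_iff_exists_fun ℝ).1 hX
  refine Finset.sum_congr rfl fun a _ => ?_
  congr 1
  simp [map_sum, LinearMap.sum_apply, hb.orth]

theorem normsq (hb : IsONB ρ B b) {X : Mat n} (hX : X ∈ lieAlg ρ) :
    B X X = ∑ a, B X (b a) ^ 2 := by
  calc B X X = B X (∑ a, B X (b a) • b a) := by rw [expand hb hX]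
    _ = _ := by simp [map_sum, pow_two]

theorem dR_expand (K : Calc ρ) (hb : IsONB ρ B b) {X : Mat n} (hX : X ∈ lieAlg ρ) :
    K.dR X = ∑ a, ((B X (b a) : ℝ) : ℂ) • K.dR (b a) := by
  calc K.dR X = K.dR (∑ a, ((B X (b a) : ℝ) : ℂ) • b a) := by
        simp only [Complex.coe_smul]; rw [expand hb hX]
    _ = _ := by simp only [map_sum, map_smul]

theorem ring_id {R : Type} [Ring R] (x y : R) :
    x * x * y - y * (x * x) = x * (x * y - y * x) + (x * y - y * x) * x := by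
  noncomm_ring

theorem comm_lie (K : Calc ρ) (hL : LIE ρ) (hM : IsMetric ρ B) (hA : AdInv ρ B)
    (hb : IsONB ρ B b) {X : Mat n} (hX : X ∈ lieAlg ρ) : Commute (K.Om b) (K.dR X) := by
  let M : Fin d → Fin d → ℂ := fun a c => ((B (b a * X - X * b a) (b c) : ℝ) : ℂ)
  have hM' : ∀ a c, M c a = -M a c := fun a c => by
    have h1 := hA X hX _ (hb.mem a) _ (hb.mem c)
    rw [hM.symm _ (hb.mem a) _ (hL.lie_mem _ hX _ (hb.mem c)), ← neg_sub (b a * X),
      ← neg_sub (b c * X), map_neg, map_neg, LinearMap.neg_apply, LinearMap.neg_apply] at h1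
    have h2 : B (b c * X - X * b c) (b a) = -B (b a * X - X * b a) (b c) := by linarith
    simp only [M, h2, Complex.ofReal_neg]
  have h1 : ∀ a, K.dR (b a) * K.dR X - K.dR X * K.dR (b a) = ∑ c, M a c • K.dR (b c) :=
    fun a => by
      rw [← K.R_lie _ (mem_gC (hb.mem a)) _ (mem_gC hX),
        dR_expand K hb (hL.lie_mem _ (hb.mem a) _ hX)]
  have h2 : ∀ a, K.dR (b a) * K.dR (b a) * K.dR X - K.dR X * (K.dR (b a) * K.dR (b a)) =
      ∑ c, M a c • (K.dR (b a) * K.dR (b c)) + ∑ c, M a c • (K.dR (b c) * K.dR (b a)) :=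
    fun a => by
      calc _ = K.dR (b a) * (K.dR (b a) * K.dR X - K.dR X * K.dR (b a)) +
            (K.dR (b a) * K.dR X - K.dR X * K.dR (b a)) * K.dR (b a) := ring_id _ _
        _ = _ := by
          rw [h1, Finset.mul_sum, Finset.sum_mul]
          simp only [mul_smul_comm, smul_mul_assoc]
  refine sub_eq_zero.1 ?_
  rw [Calc.Om, Finset.sum_mul, Finset.mul_sum, ← Finset.sum_sub_distrib,
    Finset.sum_congr rfl fun a _ => h2 a, Finset.sum_add_distrib,
    Finset.sum_comm (f := fun a c => M a c • (K.dR (b c) * K.dR (b a))),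
    ← Finset.sum_add_distrib]
  refine Finset.sum_eq_zero fun a _ => ?_
  rw [← Finset.sum_add_distrib]
  refine Finset.sum_eq_zero fun c _ => ?_
  rw [hM' a c, ← add_smul, add_neg_cancel, zero_smul]

theorem ip_smul (c : ℂ) (f h : C(G, ℂ)) : ip μ (c • f) h = c * ip μ f h := by
  rw [ip_eq_inner, ip_eq_inner, map_smul, inner_smul_right]

theorem n2_nonneg (f : C(G, ℂ)) : 0 ≤ n2 μ f := by
  rw [n2_eq_norm_sq]; positivity

theorem n2_pos {f : C(G, ℂ)} (h : f ≠ 0) : 0 < n2 μ f :=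
  lt_of_le_of_ne (n2_nonneg μ f) fun e => h (eq_zero_of_n2 μ e.symm)

theorem Om_apply (K : Calc ρ) (u : C(G, ℂ)) : K.Om b u = ∑ a, K.dR (b a) (K.dR (b a) u) := by
  simp [Calc.Om, LinearMap.sum_apply]

theorem ip_Om (K : Calc ρ) (hL : LIE ρ) (hb : IsONB ρ B b) (h1 : DER1 K μ) {u : C(G, ℂ)}
    (hu : u ∈ PP ρ) : ip μ (K.Om b u) u = -((∑ a, n2 μ (K.dR (b a) u) : ℝ) : ℂ) := by
  have h : ∀ a, ip μ (K.dR (b a) (K.dR (b a) u)) u = -(n2 μ (K.dR (b a) u) : ℂ) := fun a => by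
    rw [h1.adjR _ (mem_gC (hb.mem a)) _ (K.R_mem _ _) _ hu, hL.skew _ (hb.mem a), map_neg,
      LinearMap.neg_apply, ← ip_self, ip_eq_inner, ip_eq_inner, map_neg, inner_neg_left]
  rw [Om_apply, ip_eq_inner, map_sum, inner_sum]
  simp only [← ip_eq_inner, h]
  push_cast
  rw [Finset.sum_neg_distrib]

/-- the invariant kept along monomials in the lowering operators -/
def St (K : Calc ρ) (b : Fin d → Mat n) (X : Mat n) (E : ℝ) (u : C(G, ℂ)) (c : ℝ) : Prop :=
  u ∈ PP ρ ∧ K.Om b u = -(E : ℂ) • u ∧ K.dR X u = (I * c) • u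

theorem st_step (K : Calc ρ) (R : Roots ρ t) (hL : LIE ρ) (ht : IsCartan ρ t) (hc : CAS1 K B b)
    (E : ℝ) (i : Fin R.N) (u : C(G, ℂ)) (c : ℝ) (h : St K b R.X0 E u c) :
    St K b R.X0 E (K.dR (R.E i)ᴴ u) (c - R.α i R.X0) := by
  have hX := ht.le R.X0_mem
  have hE := hL.gC_star _ (R.E_mem i)
  refine ⟨K.R_mem _ _, ?_, ?_⟩
  · have := LinearMap.congr_fun (hc.comm _ hE) u
    simp only [Module.End.mul_apply] at this
    rw [this, h.2.1, map_smul]
  · have h1 := congrArg Matrix.conjTranspose (R.comm i _ R.X0_mem)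
    rw [Matrix.conjTranspose_sub, Matrix.conjTranspose_mul, Matrix.conjTranspose_mul,
      hL.skew _ hX, Matrix.conjTranspose_smul] at h1
    have h2 : R.X0 * (R.E i)ᴴ - (R.E i)ᴴ * R.X0 = (-(I * (R.α i R.X0 : ℝ))) • (R.E i)ᴴ := by
      have h3 : star (I * (R.α i R.X0 : ℝ) : ℂ) = -(I * (R.α i R.X0 : ℝ)) := by simp
      rw [← h3, ← h1]
      noncomm_ring
    have h4 := LinearMap.congr_fun (K.R_lie _ (mem_gC hX) _ hE) u
    rw [h2, map_smul] at h4
    simp only [LinearMap.smul_apply, LinearMap.sub_apply, Module.End.mul_apply] at h4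
    rw [h.2.2, map_smul] at h4
    rw [eq_sub_iff_add_eq] at h4
    rw [← h4, ← add_smul]
    congr 1
    push_cast
    ring

theorem pow_step {V : Type} [AddCommGroup V] [Module ℂ V] (P : V → ℝ → Prop)
    (T : Module.End ℂ V) (δ : ℝ) (h : ∀ u c, P u c → P (T u) (c - δ)) (k : ℕ) (u : V) (c : ℝ)
    (hu : P u c) : P ((T ^ k) u) (c - k * δ) := by
  induction k with
  | zero => simpa using hu
  | succ k ih =>
    have := h _ _ ih
    rw [pow_succ', Module.End.mul_apply]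
    have e : c - ((k + 1 : ℕ) : ℝ) * δ = c - k * δ - δ := by push_cast; ring
    rwa [e]

theorem prod_step {V : Type} [AddCommGroup V] [Module ℂ V] (P : V → ℝ → Prop) (N : ℕ)
    (T : Fin N → Module.End ℂ V) (δ : Fin N → ℝ) (h : ∀ i u c, P u c → P (T i u) (c - δ i))
    (u : V) (c : ℝ) (hu : P u c) : P ((List.ofFn T).prod u) (c - ∑ i, δ i) := by
  induction N with
  | zero => simpa using hu
  | succ N ih =>
    have := h 0 _ _ (ih (fun i => T i.succ) (fun i => δ i.succ) fun i => h i.succ)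
    rw [List.ofFn_succ, List.prod_cons, Module.End.mul_apply, Fin.sum_univ_succ]
    have e : c - (δ 0 + ∑ i : Fin N, δ i.succ) = c - ∑ i : Fin N, δ i.succ - δ 0 := by ring
    rwa [e]

end LCas1

open LCas1

theorem cas1_ok (K : Calc ρ) : LIE ρ → PF ρ → IsMetric ρ B → AdInv ρ B → IsONB ρ B b →
    DER1 K μ → DER2 K → CAS1 K B b := by
  intro hL hP hM hA hb h1 h2
  have hcomm : ∀ Z ∈ gC ρ, K.Om b * K.dR Z = K.dR Z * K.Om b := fun Z hZ => by
    obtain ⟨X, hX, Y, hY, rfl⟩ := hL.gC_decomp Z hZ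
    rw [map_add, map_smul]
    exact ((comm_lie K hL hM hA hb hX).add_right ((comm_lie K hL hM hA hb hY).smul_right I)).eq
  refine ⟨hcomm, fun u hu h0 c hc => ?_, fun u hu h0 E c hE X hX hc => ?_,
    fun φ hφ E hE f hf => ?_⟩
  · have h := ip_Om μ K hL hb h1 hu
    rw [hc, ip_smul, ip_self] at h
    have hp := n2_pos μ h0
    have hs : 0 ≤ ∑ a, n2 μ (K.dR (b a) u) := Finset.sum_nonneg fun a _ => n2_nonneg μ _
    have hr := congrArg Complex.re h
    have hi := congrArg Complex.im h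
    simp only [Complex.mul_re, Complex.mul_im, Complex.ofReal_re, Complex.ofReal_im, mul_zero,
      sub_zero, zero_add, Complex.neg_re, Complex.neg_im, neg_zero] at hr hi
    refine ⟨(mul_eq_zero.1 hi).resolve_right hp.ne', ?_⟩
    by_contra hh
    have := mul_pos (not_le.1 hh) hp
    linarith
  · have h := ip_Om μ K hL hb h1 hu
    rw [hE, ip_smul, ip_self] at h
    have hp := n2_pos μ h0
    have hs : ∑ a, n2 μ (K.dR (b a) u) = E * n2 μ u := by
      have : ((∑ a, n2 μ (K.dR (b a) u) : ℝ) : ℂ) = ((E * n2 μ u : ℝ) : ℂ) := by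
        rw [← neg_inj, ← h]; push_cast; ring
      exact_mod_cast this
    have h3 : n2 μ (K.dR X u) = c ^ 2 * n2 μ u := by
      rw [hc, n2_eq_norm_sq, n2_eq_norm_sq, map_smul, norm_smul, mul_pow]
      simp
    have h4 : ‖ContinuousMap.toLp 2 μ ℂ (K.dR X u)‖ ≤
        ∑ a, |B X (b a)| * ‖ContinuousMap.toLp 2 μ ℂ (K.dR (b a) u)‖ := by
      rw [dR_expand K hb hX, LinearMap.sum_apply, map_sum]
      refine (norm_sum_le _ _).trans_eq (Finset.sum_congr rfl fun a _ => ?_)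
      rw [LinearMap.smul_apply, map_smul, norm_smul, Complex.norm_real, Real.norm_eq_abs]
    have h5 := (pow_le_pow_left₀ (norm_nonneg _) h4 2).trans
      (Finset.sum_mul_sq_le_sq_mul_sq _ _ _)
    simp only [sq_abs, ← n2_eq_norm_sq] at h5
    rw [h3, hs, ← normsq hb hX, ← mul_assoc] at h5
    exact le_of_mul_le_mul_right h5 hp
  · let V : Submodule ℂ C(G, ℂ) :=
      Subalgebra.toSubmodule (PP ρ) ⊓ Module.End.eigenspace (K.Om b) (-(E : ℂ))
    have hV : ∀ v, v ∈ V ↔ v ∈ PP ρ ∧ K.Om b v = -(E : ℂ) • v := fun v => by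
      simp only [V, Submodule.mem_inf, Subalgebra.mem_toSubmodule, Module.End.mem_eigenspace_iff]
    have hR := h2.trR_mem V (fun v hv => ((hV v).1 hv).1) fun X hX v hv => by
      refine (hV _).2 ⟨K.R_mem _ _, ?_⟩
      have := LinearMap.congr_fun (hcomm _ (mem_gC hX)) v
      simp only [Module.End.mul_apply] at this
      rw [this, ((hV v).1 hv).2, map_smul]
    have hLf : ∀ a, ∀ v ∈ V, tr2 a 1 v ∈ V := fun a v hv => by
      obtain ⟨hv1, hv2⟩ := (hV v).1 hv
      refine (hV _).2 ⟨hP.tr2_mem _ _ _ hv1, ?_⟩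
      rw [← map_smul, ← hv2, Om_apply, Om_apply, map_sum]
      refine Finset.sum_congr rfl fun c _ => ?_
      rw [h1.R_trL _ (mem_gC (hb.mem c)) _ hv1, h1.R_trL _ (mem_gC (hb.mem c)) _ (K.R_mem _ _)]
    have hle : span2 φ ≤ V := by
      refine Submodule.span_le.2 ?_
      rintro _ ⟨q, rfl⟩
      have := hLf q.1 _ (hR q.2 φ ((hV φ).2 ⟨hφ, hE⟩))
      rwa [tr2_tr2, one_mul, one_mul] at this
    obtain ⟨hf1, hf2⟩ := (hV f).1 (hle hf)
    exact ⟨fun a => K.dR (b a) f, fun a => K.dR (b a) (K.dR (b a) f),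
      fun a => h1.isDer _ (hb.mem a) _ hf1, fun a => h1.isDer _ (hb.mem a) _ (K.R_mem _ _),
      by rw [← hf2, Om_apply]⟩

theorem grow_ok (K : Calc ρ) (R : Roots ρ t) : LIE ρ → IsCartan ρ t → UNIQ K R → CAS1 K B b →
    GROW K R b := by
  classical
  intro hL ht hU hc
  have hX := ht.le R.X0_mem
  set β : ℝ := max (B R.X0 R.X0) 0 with hβ
  have hβ0 : 0 ≤ β := le_max_right _ _
  set A : ℝ := ∑ i, (R.α i R.X0)⁻¹ with hA
  have hA0 : 0 ≤ A := Finset.sum_nonneg fun i _ => (inv_pos.2 (R.pos i)).le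
  refine ⟨(8 * A ^ 2 * β + 2) ^ R.N, by positivity, fun lam φ E hφ h0 hE => ?_⟩
  have hE0 : 0 ≤ E := by
    have := (hc.real φ hφ.mem h0 _ hE).2
    simpa using this
  have hw : ∀ u c, St K b R.X0 E u c → u ≠ 0 → |c| ≤ √(β * E) := fun u c hu hu0 =>
    Real.abs_le_sqrt ((hc.wb u hu.1 hu0 E c hu.2.1 _ hX hu.2.2).trans
      (mul_le_mul_of_nonneg_right (le_max_left _ _) hE0))
  have hφ0 : St K b R.X0 E φ (lam R.X0) := ⟨hφ.mem, hE, hφ.wtR _ R.X0_mem⟩
  set x : ℝ := 2 * √(β * E) * A with hx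
  have hx0 : 0 ≤ x := by positivity
  have hbd : ∀ a : Fin R.N → ℕ, mono (fun i => K.dR (R.E i)ᴴ) a φ ≠ 0 → ∀ i, a i ≤ ⌊x⌋₊ :=
    fun a ha i => by
      have h1 := prod_step (St K b R.X0 E) R.N (fun i => K.dR (R.E i)ᴴ ^ a i)
        (fun i => a i * R.α i R.X0)
        (fun i => pow_step _ _ _ (st_step K R hL ht hc E i) (a i)) φ _ hφ0
      have h2 := abs_le.1 (hw _ _ h1 ha)
      have h3 := abs_le.1 (hw _ _ hφ0 h0)
      have h4 : (a i : ℝ) * R.α i R.X0 ≤ ∑ j, (a j : ℝ) * R.α j R.X0 :=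
        Finset.single_le_sum (f := fun j => (a j : ℝ) * R.α j R.X0)
          (fun j _ => mul_nonneg (Nat.cast_nonneg _) (R.pos j).le) (Finset.mem_univ i)
      have h5 : (R.α i R.X0)⁻¹ ≤ A :=
        Finset.single_le_sum (f := fun j => (R.α j R.X0)⁻¹)
          (fun j _ => (inv_pos.2 (R.pos j)).le) (Finset.mem_univ i)
      refine Nat.le_floor ?_
      calc (a i : ℝ) = a i * R.α i R.X0 * (R.α i R.X0)⁻¹ := by
            rw [mul_assoc, mul_inv_cancel₀ (R.pos i).ne', mul_one]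
        _ ≤ x := mul_le_mul (by linarith) h5 (inv_pos.2 (R.pos i)).le (by positivity)
  let S : Finset C(G, ℂ) := (Fintype.piFinset fun _ : Fin R.N => Finset.range (⌊x⌋₊ + 1)).image
    fun a => mono (fun i => K.dR (R.E i)ᴴ) a φ
  have hle : spanR φ ≤ Submodule.span ℂ (S : Set C(G, ℂ)) := by
    refine (hU.cyc lam φ hφ).trans (Submodule.span_le.2 ?_)
    rintro _ ⟨a, rfl⟩
    by_cases ha : mono (fun i => K.dR (R.E i)ᴴ) a φ = 0
    · simp only [ha]
      exact Submodule.zero_mem _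
    · refine Submodule.subset_span (Finset.mem_coe.2 (Finset.mem_image.2 ⟨a, ?_, rfl⟩))
      exact Fintype.mem_piFinset.2 fun i => Finset.mem_range.2 (Nat.lt_succ_of_le (hbd a ha i))
  have hcard : Module.finrank ℂ (spanR φ) ≤ (⌊x⌋₊ + 1) ^ R.N := by
    refine (Submodule.finrank_mono hle).trans ((finrank_span_finset_le_card S).trans ?_)
    refine Finset.card_image_le.trans_eq ?_
    simp
  have h6 : ((⌊x⌋₊ : ℝ) + 1) ^ 2 ≤ (8 * A ^ 2 * β + 2) * (1 + E) := by
    have h7 : (⌊x⌋₊ : ℝ) ≤ x := Nat.floor_le hx0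
    have h8 : x ^ 2 = 4 * (β * E) * A ^ 2 := by
      rw [hx, mul_pow, mul_pow, Real.sq_sqrt (mul_nonneg hβ0 hE0)]; ring
    have h9 : ((⌊x⌋₊ : ℝ) + 1) ^ 2 ≤ (x + 1) ^ 2 :=
      pow_le_pow_left₀ (by positivity) (by linarith) 2
    have h10 : 0 ≤ A ^ 2 * β := by positivity
    nlinarith [sq_nonneg (x - 1)]
  calc (Module.finrank ℂ (spanR φ) : ℝ) ^ 2 ≤ (((⌊x⌋₊ : ℝ) + 1) ^ R.N) ^ 2 :=
        pow_le_pow_left₀ (Nat.cast_nonneg _) (by exact_mod_cast hcard) 2
    _ = (((⌊x⌋₊ : ℝ) + 1) ^ 2) ^ R.N := by rw [← pow_mul, ← pow_mul, mul_comm]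
    _ ≤ _ := by
      rw [← mul_pow]
      exact pow_le_pow_left₀ (by positivity) h6 _

end Pool.Agent.P.MP_7211b7_an
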