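import Pool.Agent.P.MP_7211b7_an.DefsL

/-!
# MP_7211b7_an, part L: the eigenvalue of the Casimir operator on a highest weight vector
-/

open MeasureTheory ComplexConjugate Complex
open scoped Matrix

set_option linter.unusedSectionVars false

namespace Pool.Agent.P.MP_7211b7_an

variable {G : Type} [Group G] [TopologicalSpace G] [IsTopologicalGroup G] [CompactSpace G]
  [T2Space G] [SecondCountableTopology G] [MeasurableSpace G] [BorelSpace G] {n : ℕ}
  {ρ : G →* Mat n} {t : Submodule ℝ (Mat n)} {B : LinearMap.BilinForm ℝ (Mat n)} {d r : ℕ}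
  {b : Fin d → Mat n} (μ : Measure G) [Hr μ]

namespace LCas2

/-- the skew-Hermitian part -/
noncomputable def sk (Z : Mat n) : Mat n := (2⁻¹ : ℝ) • (Z - Zᴴ)

theorem sk_add (Z W : Mat n) : sk (Z + W) = sk Z + sk W := by
  unfold sk
  rw [Matrix.conjTranspose_add, ← smul_add]
  congr 1
  abel

theorem sk_zero : sk (0 : Mat n) = 0 := by
  simp [sk]

theorem sk_star (Z : Mat n) : sk Zᴴ = -sk Z := by
  unfold sk
  rw [Matrix.conjTranspose_conjTranspose, ← smul_neg, neg_sub]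

theorem sk_of_skew {X : Mat n} (h : Xᴴ = -X) : sk X = X := by
  unfold sk
  rw [h, sub_neg_eq_add, ← two_smul ℝ X, smul_smul]
  norm_num

theorem sk_I {X : Mat n} (h : Xᴴ = -X) : sk (I • X) = 0 := by
  unfold sk
  rw [Matrix.conjTranspose_smul, h]
  simp

theorem sk_lie {X : Mat n} (h : Xᴴ = -X) (W : Mat n) :
    sk (X * W - W * X) = X * sk W - sk W * X := by
  unfold sk
  rw [Matrix.conjTranspose_sub, Matrix.conjTranspose_mul, Matrix.conjTranspose_mul, h,
    mul_smul_comm, smul_mul_assoc, ← smul_sub]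
  congr 1
  noncomm_ring

theorem sk_mem (hL : LIE ρ) {Z : Mat n} (hZ : Z ∈ gC ρ) : sk Z ∈ lieAlg ρ := by
  obtain ⟨X, hX, Y, hY, rfl⟩ := hL.gC_decomp Z hZ
  rw [sk_add, sk_of_skew (hL.skew X hX), sk_I (hL.skew Y hY), add_zero]
  exact hX

theorem orth_E (hL : LIE ρ) (hA : AdInv ρ B) (ht : IsCartan ρ t) (R : Roots ρ t) (i : Fin R.N)
    (c : ℂ) {Y : Mat n} (hY : Y ∈ t) : B (sk (c • R.E i)) Y = 0 := by
  have h0 : (I * (R.α i R.X0 : ℝ) : ℂ) ≠ 0 :=
    mul_ne_zero I_ne_zero (ofReal_ne_zero.2 (R.pos i).ne')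
  set W : Mat n := (c / (I * (R.α i R.X0 : ℝ))) • R.E i with hW
  have hWm : W ∈ gC ρ := (gC ρ).smul_mem _ (R.E_mem i)
  have hX := ht.le R.X0_mem
  have h1 : c • R.E i = R.X0 * W - W * R.X0 := by
    rw [hW, mul_smul_comm, smul_mul_assoc, ← smul_sub, R.comm i _ R.X0_mem, smul_smul,
      div_mul_cancel₀ _ h0]
  have h2 := hA R.X0 hX (sk W) (sk_mem hL hWm) Y (ht.le hY)
  rw [ht.comm _ R.X0_mem _ hY, sub_self, map_zero, add_zero] at h2
  rw [h1, sk_lie (hL.skew _ hX)]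
  exact h2

theorem orth_span {S : Set (Mat n)} {Y : Mat n} (hS : ∀ Z ∈ S, ∀ c : ℂ, B (sk (c • Z)) Y = 0)
    {Z : Mat n} (hZ : Z ∈ Submodule.span ℂ S) : ∀ c : ℂ, B (sk (c • Z)) Y = 0 := by
  induction hZ using Submodule.span_induction with
  | mem x hx => exact hS x hx
  | zero =>
    intro c
    simp [sk_zero]
  | add x y _ _ hx hy =>
    intro c
    rw [smul_add, sk_add, map_add, LinearMap.add_apply, hx, hy, add_zero]
  | smul a x _ hx =>
    intro c
    rw [smul_smul]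
    exact hx _

theorem orth_P (hL : LIE ρ) (hA : AdInv ρ B) (ht : IsCartan ρ t) (R : Roots ρ t) {Y : Mat n}
    (hY : Y ∈ t) {P : Mat n} (hP : P ∈ Submodule.span ℂ (Set.range R.E)) (c : ℂ) :
    B (sk (c • P)) Y = 0 :=
  orth_span (by rintro _ ⟨i, rfl⟩ c; exact orth_E hL hA ht R i c hY) hP c

theorem orth_M (hL : LIE ρ) (hA : AdInv ρ B) (ht : IsCartan ρ t) (R : Roots ρ t) {Y : Mat n}
    (hY : Y ∈ t) {M : Mat n} (hM : M ∈ Submodule.span ℂ (Set.range fun i => (R.E i)ᴴ)) (c : ℂ) :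
    B (sk (c • M)) Y = 0 := by
  refine orth_span ?_ hM c
  rintro _ ⟨i, rfl⟩ c
  have h1 : c • (R.E i)ᴴ = (conj c • R.E i)ᴴ := by
    rw [Matrix.conjTranspose_smul]
    simp
  simp only
  rw [h1, sk_star, map_neg, LinearMap.neg_apply, orth_E hL hA ht R i _ hY, neg_zero]

theorem span_t {Z : Mat n} (hZ : Z ∈ Submodule.span ℂ (t : Set (Mat n))) :
    ∃ U ∈ t, ∃ V ∈ t, Z = U + I • V := by
  induction hZ using Submodule.span_induction with
  | mem x hx => exact ⟨x, hx, 0, t.zero_mem, by simp⟩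
  | zero => exact ⟨0, t.zero_mem, 0, t.zero_mem, by simp⟩
  | add x y _ _ hx hy =>
    obtain ⟨U, hU, V, hV, rfl⟩ := hx
    obtain ⟨U', hU', V', hV', rfl⟩ := hy
    refine ⟨U + U', t.add_mem hU hU', V + V', t.add_mem hV hV', ?_⟩
    rw [smul_add]
    abel
  | smul a x _ hx =>
    obtain ⟨U, hU, V, hV, rfl⟩ := hx
    refine ⟨a.re • U - a.im • V, t.sub_mem (t.smul_mem _ hU) (t.smul_mem _ hV),
      a.im • U + a.re • V, t.add_mem (t.smul_mem _ hU) (t.smul_mem _ hV), ?_⟩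
    ext i j
    simp only [Matrix.smul_apply, Matrix.add_apply, Matrix.sub_apply, smul_eq_mul, real_smul]
    conv_lhs => rw [← re_add_im a]
    linear_combination (a.im * V i j) * I_mul_I

theorem decomp (R : Roots ρ t) {Z : Mat n} (hZ : Z ∈ gC ρ) :
    ∃ U ∈ t, ∃ V ∈ t, ∃ P ∈ Submodule.span ℂ (Set.range R.E),
      ∃ M ∈ Submodule.span ℂ (Set.range fun i => (R.E i)ᴴ), Z = U + I • V + P + M := by
  have h := R.span Z hZ
  rw [Submodule.span_union, Submodule.span_union] at h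
  obtain ⟨x, hx, M, hM, rfl⟩ := Submodule.mem_sup.1 h
  obtain ⟨y, hy, P, hP, rfl⟩ := Submodule.mem_sup.1 hx
  obtain ⟨U, hU, V, hV, rfl⟩ := span_t hy
  exact ⟨U, hU, V, hV, P, hP, M, hM, rfl⟩

theorem decomp_real (hL : LIE ρ) (hB : IsMetric ρ B) (hA : AdInv ρ B) (ht : IsCartan ρ t)
    (R : Roots ρ t) {X : Mat n} (hX : X ∈ lieAlg ρ) :
    ∃ U ∈ t, ∃ P ∈ Submodule.span ℂ (Set.range R.E),
      ∃ M ∈ Submodule.span ℂ (Set.range fun i => (R.E i)ᴴ), X = U + P + M ∧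
        ∀ Y ∈ t, B X Y = B U Y := by
  obtain ⟨U, hU, V, hV, P, hP, M, hM, h⟩ := decomp R (mem_gC hX)
  have hUs := hL.skew U (ht.le hU)
  have hVs := hL.skew V (ht.le hV)
  have hV0 : V = 0 := by
    by_contra hne
    have h1 := hB.pos V (ht.le hV) hne
    have h2 : sk ((-I) • X) = sk (I • (-U)) + sk V + sk ((-I) • P) + sk ((-I) • M) := by
      rw [← sk_add, ← sk_add, ← sk_add, h, smul_add, smul_add, smul_add, smul_smul]
      simp
    have h3 : sk ((-I) • X) = 0 := by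
      rw [neg_smul, ← smul_neg]
      exact sk_I (by rw [Matrix.conjTranspose_neg, hL.skew X hX])
    rw [h3, sk_I (by rw [Matrix.conjTranspose_neg, hUs]), sk_of_skew hVs, zero_add] at h2
    have h4 := congrArg (fun Z => B Z V) h2
    simp only [map_add, LinearMap.add_apply, map_zero, LinearMap.zero_apply,
      orth_P hL hA ht R hV hP, orth_M hL hA ht R hV hM, add_zero] at h4
    linarith
  rw [hV0, smul_zero, add_zero] at h
  refine ⟨U, hU, P, hP, M, hM, h, fun Y hY => ?_⟩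
  have h2 : X = U + sk ((1 : ℂ) • P) + sk ((1 : ℂ) • M) := by
    rw [one_smul, one_smul, ← sk_of_skew hUs, ← sk_add, ← sk_add, ← h,
      sk_of_skew (hL.skew X hX)]
  rw [h2]
  simp only [map_add, LinearMap.add_apply, orth_P hL hA ht R hY hP, orth_M hL hA ht R hY hM,
    add_zero]

theorem P_mem (R : Roots ρ t) {P : Mat n} (hP : P ∈ Submodule.span ℂ (Set.range R.E)) :
    P ∈ gC ρ :=
  (Submodule.span_le.2 (by rintro _ ⟨i, rfl⟩; exact R.E_mem i)) hP

theorem M_mem (hL : LIE ρ) (R : Roots ρ t) {M : Mat n}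
    (hM : M ∈ Submodule.span ℂ (Set.range fun i => (R.E i)ᴴ)) : M ∈ gC ρ :=
  (Submodule.span_le.2 (by rintro _ ⟨i, rfl⟩; exact hL.gC_star _ (R.E_mem i))) hM

theorem kill_span (D : Mat n →ₗ[ℂ] Module.End ℂ C(G, ℂ)) {S : Set (Mat n)} {φ : C(G, ℂ)}
    (hS : ∀ Z ∈ S, D Z φ = 0) {Z : Mat n} (hZ : Z ∈ Submodule.span ℂ S) : D Z φ = 0 := by
  induction hZ using Submodule.span_induction with
  | mem x hx => exact hS x hx
  | zero => simp
  | add x y _ _ hx hy => rw [map_add, LinearMap.add_apply, hx, hy, add_zero]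
  | smul a x _ hx => rw [map_smul, LinearMap.smul_apply, hx, smul_zero]

variable {K : Calc ρ} {R : Roots ρ t} {lam : Mat n →ₗ[ℝ] ℝ} {φ : C(G, ℂ)}

theorem kill_P (hφ : IsPhi K R lam φ) {P : Mat n} (hP : P ∈ Submodule.span ℂ (Set.range R.E)) :
    K.dR P φ = 0 :=
  kill_span K.dR (by rintro _ ⟨i, rfl⟩; exact hφ.up i) hP

theorem kill_M (hφ : IsPhi K R lam φ) {M : Mat n}
    (hM : M ∈ Submodule.span ℂ (Set.range fun i => (R.E i)ᴴ)) : K.dL M φ = 0 :=
  kill_span K.dL (by rintro _ ⟨i, rfl⟩; exact hφ.down i) hM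

theorem first_M (hL : LIE ρ) (hD : DER1 K μ) (hφ : IsPhi K R lam φ) {M : Mat n}
    (hM : M ∈ Submodule.span ℂ (Set.range fun i => (R.E i)ᴴ)) : K.dR M φ 1 = 0 := by
  rw [hD.at_one M (M_mem hL R hM) φ hφ.mem, kill_M hφ hM]
  rfl

theorem first (hL : LIE ρ) (hD : DER1 K μ) (hφ : IsPhi K R lam φ) {U V P M : Mat n} (hU : U ∈ t)
    (hV : V ∈ t) (hP : P ∈ Submodule.span ℂ (Set.range R.E))
    (hM : M ∈ Submodule.span ℂ (Set.range fun i => (R.E i)ᴴ)) :
    K.dR (U + I • V + P + M) φ 1 = I * (lam U : ℝ) - (lam V : ℝ) := by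
  simp only [map_add, map_smul, LinearMap.add_apply, LinearMap.smul_apply,
    ContinuousMap.add_apply, ContinuousMap.smul_apply, first_M μ hL hD hφ hM, kill_P hφ hP,
    hφ.wtR U hU, hφ.wtR V hV, hφ.one, smul_eq_mul, ContinuousMap.zero_apply]
  linear_combination (lam V : ℂ) * I_mul_I

theorem second (hL : LIE ρ) (ht : IsCartan ρ t) (hD : DER1 K μ) (hφ : IsPhi K R lam φ)
    {U P M : Mat n} (hU : U ∈ t) (hP : P ∈ Submodule.span ℂ (Set.range R.E))
    (hM : M ∈ Submodule.span ℂ (Set.range fun i => (R.E i)ᴴ)) :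
    K.dR (U + P + M) (K.dR (U + P + M) φ) 1
      = -((lam U : ℝ) : ℂ) ^ 2 + K.dR (P * M - M * P) φ 1 := by
  have hUg : U ∈ gC ρ := mem_gC (ht.le hU)
  have hPg := P_mem R hP
  have hMg := M_mem hL R hM
  have h1 : K.dR (U + P + M) φ = (I * (lam U : ℝ)) • φ + K.dR M φ := by
    rw [map_add, map_add, LinearMap.add_apply, LinearMap.add_apply, kill_P hφ hP, add_zero,
      hφ.wtR U hU]
  have h2 : K.dR U (K.dR M φ) 1 = 0 := by
    rw [hD.at_one U hUg _ (K.R_mem _ _), ← Module.End.mul_apply, ← K.comm M hMg U hUg,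
      Module.End.mul_apply, hφ.wtL U hU, map_smul, ContinuousMap.smul_apply,
      first_M μ hL hD hφ hM, smul_zero]
  have h3 : K.dR M (K.dR M φ) 1 = 0 := by
    rw [hD.at_one M hMg _ (K.R_mem _ _), ← Module.End.mul_apply, ← K.comm M hMg M hMg,
      Module.End.mul_apply, kill_M hφ hM, map_zero]
    rfl
  have h4 : K.dR P (K.dR M φ) = K.dR (P * M - M * P) φ := by
    rw [K.R_lie P hPg M hMg, LinearMap.sub_apply, Module.End.mul_apply, Module.End.mul_apply,
      kill_P hφ hP, map_zero, sub_zero]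
  have h5 : K.dR (U + P + M) (K.dR M φ) 1 = K.dR (P * M - M * P) φ 1 := by
    rw [map_add, map_add, LinearMap.add_apply, LinearMap.add_apply, ContinuousMap.add_apply,
      ContinuousMap.add_apply, h2, h3, h4, zero_add, add_zero]
  conv_lhs => rw [h1, map_add, map_smul, h1]
  rw [ContinuousMap.add_apply, h5]
  simp only [ContinuousMap.smul_apply, ContinuousMap.add_apply, first_M μ hL hD hφ hM, hφ.one,
    smul_eq_mul]
  linear_combination ((lam U : ℝ) : ℂ) ^ 2 * I_mul_I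

theorem scalar (hL : LIE ρ) (hb : IsONB ρ B b) (ht : IsCartan ρ t) (hU : UNIQ K R)
    (hC : CAS1 K B b) (hφ : IsPhi K R lam φ) : K.Om b φ = (K.Om b φ 1) • φ := by
  have hm : K.Om b φ ∈ PP ρ := by
    unfold Calc.Om
    rw [LinearMap.sum_apply]
    exact Subalgebra.sum_mem _ fun a _ => K.R_mem _ _
  have hcL : ∀ W ∈ gC ρ, K.dL W * K.Om b = K.Om b * K.dL W := by
    intro W hW
    unfold Calc.Om
    rw [Finset.mul_sum, Finset.sum_mul]
    refine Finset.sum_congr rfl fun a _ => ?_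
    have h := K.comm (b a) (mem_gC (hb.mem a)) W hW
    rw [← mul_assoc, ← h, mul_assoc, ← h, mul_assoc]
  rw [← sub_eq_zero]
  refine hU.zero lam _ ⟨?_, fun i => ?_, fun Y hY => ?_⟩ (fun i => ?_) ?_
  · exact Subalgebra.sub_mem _ hm (Subalgebra.smul_mem _ hφ.mem _)
  · rw [map_sub, map_smul, ← Module.End.mul_apply, ← hC.comm _ (R.E_mem i),
      Module.End.mul_apply, hφ.up i]
    simp
  · rw [map_sub, map_smul, ← Module.End.mul_apply, ← hC.comm _ (mem_gC (ht.le hY)),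
      Module.End.mul_apply, hφ.wtR Y hY, map_smul, smul_sub, smul_comm]
  · rw [map_sub, map_smul, ← Module.End.mul_apply, hcL _ (hL.gC_star _ (R.E_mem i)),
      Module.End.mul_apply, hφ.down i]
    simp
  · simp [hφ.one]

theorem B_sum {m : ℕ} (x : Fin m → ℝ) (v : Fin m → Mat n) (ξ : Mat n) :
    B (∑ i, x i • v i) ξ = ∑ i, x i * B (v i) ξ := by
  rw [map_sum B, LinearMap.sum_apply]
  refine Finset.sum_congr rfl fun a _ => ?_
  rw [map_smul B, LinearMap.smul_apply, smul_eq_mul]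

theorem parseval (hb : IsONB ρ B b) {ξ : Mat n} (hξ : ξ ∈ lieAlg ρ) :
    ∑ a, B (b a) ξ ^ 2 = B ξ ξ := by
  rw [← hb.span] at hξ
  obtain ⟨x, hx⟩ := (Submodule.mem_span_range_iff_exists_fun ℝ).1 hξ
  have h1 : ∀ a, B (b a) ξ = x a := by
    intro a
    rw [← hx, map_sum]
    simp [hb.orth]
  rw [show B ξ ξ = B (∑ i, x i • b i) ξ by rw [hx], B_sum]
  refine Finset.sum_congr rfl fun a _ => ?_
  rw [h1, pow_two]

theorem dual_vec (hB : IsMetric ρ B) (ht : IsCartan ρ t) (L : Lat K R B r) (l : Fin r → ℤ) :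
    ∃ ξ ∈ t, (∀ Y ∈ t, B Y ξ = L.wf l Y) ∧
      L.wf l ξ = ∑ i, (B (L.c i) (L.c i))⁻¹ * (l i : ℝ) ^ 2 := by
  have hne : ∀ i, B (L.c i) (L.c i) ≠ 0 := fun i =>
    (hB.pos _ (ht.le (L.c_mem i)) (L.c_ne i)).ne'
  refine ⟨∑ i, ((l i : ℝ) / B (L.c i) (L.c i)) • L.c i,
    t.sum_mem fun i _ => t.smul_mem _ (L.c_mem i), fun Y hY => ?_, ?_⟩
  · have h1 : ∀ j, B (L.c j) (∑ i, ((l i : ℝ) / B (L.c i) (L.c i)) • L.c i) = l j := by
      intro j
      rw [map_sum, Finset.sum_eq_single j]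
      · rw [map_smul, smul_eq_mul, div_mul_cancel₀ _ (hne j)]
      · intro i _ hij
        rw [map_smul, L.orth j i (Ne.symm hij), smul_zero]
      · intro h
        exact absurd (Finset.mem_univ j) h
    rw [L.wf_apply]
    conv_lhs => rw [← L.co_spec Y hY, B_sum]
    unfold pair
    exact Finset.sum_congr rfl fun j _ => by rw [h1]
  · rw [map_sum]
    refine Finset.sum_congr rfl fun i _ => ?_
    rw [map_smul, L.wf_c, smul_eq_mul]
    ring

end LCas2

open LCas2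

theorem cas2_ok {K : Calc ρ} {R : Roots ρ t} (L : Lat K R B r) :
    LIE ρ → IsMetric ρ B → AdInv ρ B → IsONB ρ B b → IsCartan ρ t → DER1 K μ → UNIQ K R →
      CAS1 K B b → CAS2 L b := by
  intro hL hB hA hb ht hD hU hC
  choose U hU1 P hP M hM hdec horth using fun a => decomp_real hL hB hA ht R (hb.mem a)
  choose U' hU' V' hV' P' hP' M' hM' hdec' using fun a =>
    decomp R (hL.gC_lie _ (P_mem R (hP a)) _ (M_mem hL R (hM a)))
  refine ⟨L.co (∑ a, V' a), fun l φ hφ => ?_⟩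
  have h1 := scalar hL hb ht hU hC hφ
  have h2 := (hC.real φ hφ.mem hφ.ne_zero _ h1).1
  have h3 : K.Om b φ 1 = ∑ a, (-((L.wf l (U a) : ℝ) : ℂ) ^ 2
      + (I * (L.wf l (U' a) : ℝ) - (L.wf l (V' a) : ℝ))) := by
    unfold Calc.Om
    rw [LinearMap.sum_apply, ContinuousMap.sum_apply]
    refine Finset.sum_congr rfl fun a _ => ?_
    rw [Module.End.mul_apply, hdec a, second μ hL ht hD hφ (hU1 a) (hP a) (hM a), hdec' a,
      first μ hL hD hφ (hU' a) (hV' a) (hP' a) (hM' a)]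
  obtain ⟨ξ, hξ, hξ1, hξ2⟩ := dual_vec hB ht L l
  have h4 : ∑ a, L.wf l (U a) ^ 2 = ∑ i, (B (L.c i) (L.c i))⁻¹ * (l i : ℝ) ^ 2 := by
    rw [← hξ2, ← hξ1 ξ hξ, ← parseval hb (ht.le hξ)]
    exact Finset.sum_congr rfl fun a _ => by rw [horth a ξ hξ, hξ1 _ (hU1 a)]
  have h5 : (K.Om b φ 1).re = -En (fun i => (B (L.c i) (L.c i))⁻¹) (L.co (∑ a, V' a)) l := by
    unfold En
    rw [← h4, ← L.wf_apply, map_sum, ← Finset.sum_add_distrib, ← Finset.sum_neg_distrib, h3,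
      re_sum]
    refine Finset.sum_congr rfl fun a _ => ?_
    simp [← ofReal_pow]
    ring
  have h6 : K.Om b φ 1
      = -((En (fun i => (B (L.c i) (L.c i))⁻¹) (L.co (∑ a, V' a)) l : ℝ) : ℂ) := by
    apply Complex.ext
    · rw [h5, neg_re, ofReal_re]
    · rw [h2, neg_im, ofReal_im, neg_zero]
  rw [← h6]
  exact h1

end Pool.Agent.P.MP_7211b7_an
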