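import Pool.Agent.P.MP_7211b7_an.DefsL

/-! Algebraic rules for the infinitesimal regular actions. -/

open MeasureTheory ComplexConjugate Complex
open scoped ENNReal Matrix

set_option linter.unusedSectionVars false

namespace Pool.Agent.P.MP_7211b7_an

variable {G : Type} [Group G] [TopologicalSpace G] [IsTopologicalGroup G] [CompactSpace G]
  [T2Space G] [SecondCountableTopology G] [MeasurableSpace G] [BorelSpace G] {n : ℕ}
  {ρ : G →* Mat n}

namespace LDer1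

/-- inversion as a continuous linear map -/
noncomputable def invC : C(G, ℂ) →L[ℂ] C(G, ℂ) where
  toFun := invF
  map_add' _ _ := rfl
  map_smul' _ _ := rfl
  cont := ContinuousMap.continuous_precomp _

/-- the integral as a continuous linear map -/
noncomputable def intC (μ : Measure G) [Hr μ] : C(G, ℂ) →L[ℂ] ℂ :=
  (innerSL ℂ (ContinuousMap.toLp 2 μ ℂ (1 : C(G, ℂ)))).comp (ContinuousMap.toLp 2 μ ℂ)

theorem intC_apply (μ : Measure G) [Hr μ] (f : C(G, ℂ)) : intC μ f = ∫ g, f g ∂μ := by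
  have h := ip_eq_inner μ f 1
  simp only [intC, ContinuousLinearMap.comp_apply, innerSL_apply_apply]
  rw [← h]
  simp [ip]

theorem clm_deriv {F : Type} [NormedAddCommGroup F] [NormedSpace ℂ F] (A : C(G, ℂ) →L[ℂ] F)
    {u : ℝ → C(G, ℂ)} {u' : C(G, ℂ)} (h : HasDerivAt u u' 0) :
    HasDerivAt (fun s => A (u s)) (A u') 0 :=
  (A.restrictScalars ℝ).hasFDerivAt.comp_hasDerivAt 0 h

theorem ev_deriv (g : G) {u : ℝ → C(G, ℂ)} {u' : C(G, ℂ)} (h : HasDerivAt u u' 0) :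
    HasDerivAt (fun s => u s g) (u' g) 0 :=
  clm_deriv (ContinuousMap.evalCLM ℂ g) h

theorem exp_ent (A B X : Mat n) (i j : Fin n) :
    HasDerivAt (fun s : ℝ => (A * NormedSpace.exp (s • X) * B) i j) ((A * X * B) i j) 0 := by
  letI : NormedRing (Mat n) := Matrix.linftyOpNormedRing
  letI : NormedAlgebra ℝ (Mat n) := Matrix.linftyOpNormedAlgebra
  have h := hasDerivAt_exp_smul_const (𝕂 := ℝ) X 0
  rw [zero_smul, NormedSpace.exp_zero, one_mul] at h
  have h2 := (h.const_mul A).mul_const B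
  let L : Mat n →ₗ[ℝ] ℂ :=
    { toFun := fun M => M i j, map_add' := fun _ _ => rfl, map_smul' := fun _ _ => rfl }
  exact (LinearMap.toContinuousLinearMap L).hasFDerivAt.comp_hasDerivAt 0 h2

theorem e_zero (hL : LIE ρ) (X : Mat n) : expG ρ ((0 : ℝ) • X) = 1 := by
  rw [zero_smul, hL.exp_zero]

theorem e_neg (hL : LIE ρ) {X : Mat n} (hX : X ∈ lieAlg ρ) (s : ℝ) :
    expG ρ ((-s) • X) = (expG ρ (s • X))⁻¹ := by
  have h := hL.exp_add _ ((lieAlg ρ).smul_mem (-s) hX) _ ((lieAlg ρ).smul_mem s hX)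
    (by simp [smul_smul, mul_comm])
  rw [← add_smul, neg_add_cancel, e_zero hL] at h
  exact eq_inv_of_mul_eq_one_left h.symm

theorem neg_star (hL : LIE ρ) {X Y : Mat n} (hX : X ∈ lieAlg ρ) (hY : Y ∈ lieAlg ρ) :
    -(X + I • Y)ᴴ = X + (-I) • Y := by
  rw [Matrix.conjTranspose_add, Matrix.conjTranspose_smul, hL.skew X hX, hL.skew Y hY]
  simp [add_comm]

theorem neg_deriv {u : ℝ → C(G, ℂ)} {u' : C(G, ℂ)} (h : HasDerivAt u u' 0) :
    HasDerivAt (fun s => u (-s)) (-u') 0 := by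
  have h0 : HasDerivAt u u' (-(0 : ℝ)) := by rwa [neg_zero]
  have h1 := h0.scomp (0 : ℝ) (hasDerivAt_neg (0 : ℝ))
  rw [neg_one_smul] at h1
  exact h1

section generic

variable (hL : LIE ρ) (hP : PF ρ) (D : Mat n →ₗ[ℂ] Module.End ℂ C(G, ℂ))
  (T : G → C(G, ℂ) →L[ℂ] C(G, ℂ)) (T1 : ∀ f, T 1 f = f)
  (hD : ∀ X ∈ lieAlg ρ, ∀ f ∈ PP ρ, HasDerivAt (fun s : ℝ => T (expG ρ (s • X)) f) (D X f) 0)

include hL T1 hD in
theorem g_mul (Tm : ∀ k f h, T k (f * h) = T k f * T k h) :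
    ∀ Z ∈ gC ρ, ∀ f ∈ PP ρ, ∀ h ∈ PP ρ, D Z (f * h) = D Z f * h + f * D Z h := by
  have key : ∀ X ∈ lieAlg ρ, ∀ f ∈ PP ρ, ∀ h ∈ PP ρ, D X (f * h) = D X f * h + f * D X h := by
    intro X hX f hf h hh
    have h1 := hD X hX _ ((PP ρ).mul_mem hf hh)
    have h2 := (hD X hX f hf).mul (hD X hX h hh)
    simp only [e_zero hL, T1] at h2
    simp only [Tm] at h1
    exact h1.unique h2
  intro Z hZ f hf h hh
  obtain ⟨X, hX, Y, hY, rfl⟩ := hL.gC_decomp Z hZ
  simp only [map_add, map_smul, LinearMap.add_apply, LinearMap.smul_apply, key X hX f hf h hh,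
    key Y hY f hf h hh, smul_add, add_mul, mul_add, smul_mul_assoc, mul_smul_comm]
  abel

include hL hD in
theorem g_one (To : ∀ k, T k 1 = 1) : ∀ Z ∈ gC ρ, D Z 1 = 0 := by
  have key : ∀ X ∈ lieAlg ρ, D X 1 = 0 := by
    intro X hX
    have h1 := hD X hX _ (PP ρ).one_mem
    simp only [To] at h1
    exact h1.unique (hasDerivAt_const _ _)
  intro Z hZ
  obtain ⟨X, hX, Y, hY, rfl⟩ := hL.gC_decomp Z hZ
  simp [key X hX, key Y hY]

include hL hP hD in
theorem g_star (Ts : ∀ k f, T k (star f) = star (T k f)) :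
    ∀ Z ∈ gC ρ, ∀ f ∈ PP ρ, D Z (star f) = star (D (-Zᴴ) f) := by
  have key : ∀ X ∈ lieAlg ρ, ∀ f ∈ PP ρ, D X (star f) = star (D X f) := by
    intro X hX f hf
    have h1 := hD X hX _ (hP.star_mem f hf)
    simp only [Ts] at h1
    exact h1.unique (hD X hX f hf).star
  intro Z hZ f hf
  obtain ⟨X, hX, Y, hY, rfl⟩ := hL.gC_decomp Z hZ
  rw [neg_star hL hX hY]
  simp [key X hX f hf, key Y hY f hf]

include hL hD in
theorem g_comm (A : C(G, ℂ) →L[ℂ] C(G, ℂ)) (hA : ∀ f ∈ PP ρ, A f ∈ PP ρ)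
    (hc : ∀ k f, T k (A f) = A (T k f)) :
    ∀ Z ∈ gC ρ, ∀ f ∈ PP ρ, D Z (A f) = A (D Z f) := by
  have key : ∀ X ∈ lieAlg ρ, ∀ f ∈ PP ρ, D X (A f) = A (D X f) := by
    intro X hX f hf
    have h1 := hD X hX _ (hA f hf)
    simp only [hc] at h1
    exact h1.unique (clm_deriv A (hD X hX f hf))
  intro Z hZ f hf
  obtain ⟨X, hX, Y, hY, rfl⟩ := hL.gC_decomp Z hZ
  simp [key X hX f hf, key Y hY f hf]

include hL hD in
theorem g_int (μ : Measure G) [Hr μ] (hi : ∀ k f, ∫ g, T k f g ∂μ = ∫ g, f g ∂μ) :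
    ∀ Z ∈ gC ρ, ∀ f ∈ PP ρ, intC μ (D Z f) = 0 := by
  have key : ∀ X ∈ lieAlg ρ, ∀ f ∈ PP ρ, intC μ (D X f) = 0 := by
    intro X hX f hf
    have h1 := clm_deriv (intC μ) (hD X hX f hf)
    simp only [intC_apply μ (T _ _), hi] at h1
    exact h1.unique (hasDerivAt_const _ _)
  intro Z hZ f hf
  obtain ⟨X, hX, Y, hY, rfl⟩ := hL.gC_decomp Z hZ
  simp [key X hX f hf, key Y hY f hf]

include hL hP T1 hD in
theorem g_adj (μ : Measure G) [Hr μ] (Tm : ∀ k f h, T k (f * h) = T k f * T k h)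
    (Ts : ∀ k f, T k (star f) = star (T k f))
    (hi : ∀ k f, ∫ g, T k f g ∂μ = ∫ g, f g ∂μ) :
    ∀ Z ∈ gC ρ, ∀ f ∈ PP ρ, ∀ h ∈ PP ρ, ip μ (D Z f) h = ip μ f (D Zᴴ h) := by
  intro Z hZ f hf h hh
  have h1 := g_int hL D T hD μ hi Z hZ _ ((PP ρ).mul_mem hf (hP.star_mem h hh))
  rw [g_mul hL D T T1 hD Tm Z hZ f hf _ (hP.star_mem h hh), g_star hL hP D T hD Ts Z hZ h hh,
    map_neg, LinearMap.neg_apply, star_neg, mul_neg, map_add, map_neg, add_neg_eq_zero,
    intC_apply, intC_apply] at h1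
  simpa [ip] using h1

include hL hP hD in
theorem g_inv (D' : Mat n →ₗ[ℂ] Module.End ℂ C(G, ℂ)) (T' : G → C(G, ℂ) →L[ℂ] C(G, ℂ))
    (hD' : ∀ X ∈ lieAlg ρ, ∀ f ∈ PP ρ,
      HasDerivAt (fun s : ℝ => T' (expG ρ (s • X)) f) (D' X f) 0)
    (hT : ∀ k f, T k (invF f) = invF (T' k⁻¹ f)) :
    ∀ Z ∈ gC ρ, ∀ f ∈ PP ρ, D Z (invF f) = -invF (D' Z f) := by
  have key : ∀ X ∈ lieAlg ρ, ∀ f ∈ PP ρ, D X (invF f) = -invC (D' X f) := by
    intro X hX f hf
    have h1 := hD X hX _ (hP.inv_mem f hf)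
    simp only [hT] at h1
    have h2 := clm_deriv invC (neg_deriv (hD' X hX f hf))
    simp only [e_neg hL hX, map_neg] at h2
    exact h1.unique h2
  intro Z hZ f hf
  obtain ⟨X, hX, Y, hY, rfl⟩ := hL.gC_decomp Z hZ
  change _ = -invC _
  simp only [map_add, map_smul, LinearMap.add_apply, LinearMap.smul_apply, key X hX f hf,
    key Y hY f hf, smul_neg, neg_add]

end generic

end LDer1

set_option linter.unusedVariables false in
open LDer1 in
theorem der1_ok (μ : Measure G) [Hr μ] (hρ : IsRep ρ) (hL : LIE ρ) (hP : PF ρ) (K : Calc ρ) :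
    DER1 K μ where
  R_mul := g_mul hL K.dR (tr2 1) tr2_one K.R_deriv (fun k => tr2_mul 1 k)
  L_mul := g_mul hL K.dL (fun a => tr2 a 1) tr2_one K.L_deriv (fun a => tr2_mul a 1)
  R_one := g_one hL K.dR (tr2 1) K.R_deriv (fun _ => rfl)
  L_one := g_one hL K.dL (fun a => tr2 a 1) K.L_deriv (fun _ => rfl)
  R_star := g_star hL hP K.dR (tr2 1) K.R_deriv (fun _ _ => rfl)
  L_star := g_star hL hP K.dL (fun a => tr2 a 1) K.L_deriv (fun _ _ => rfl)
  R_ent := by
    intro Z hZ f i j hf g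
    have key : ∀ X ∈ lieAlg ρ, K.dR X f g = (ρ g * X) i j := by
      intro X hX
      have h1 := ev_deriv g (K.R_deriv X hX f (ent_mem_PP hf))
      have h2 := exp_ent (ρ g) 1 X i j
      simp only [mul_one] at h2
      simp only [tr2_apply, one_mul, hf, map_mul,
        hL.rho_exp _ ((lieAlg ρ).smul_mem _ hX)] at h1
      exact h1.unique h2
    obtain ⟨X, hX, Y, hY, rfl⟩ := hL.gC_decomp Z hZ
    simp [key X hX, key Y hY, mul_add]
  L_ent := by
    intro Z hZ f i j hf g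
    have key : ∀ X ∈ lieAlg ρ, K.dL X f g = (X * ρ g) i j := by
      intro X hX
      have h1 := ev_deriv g (K.L_deriv X hX f (ent_mem_PP hf))
      have h2 := exp_ent 1 (ρ g) X i j
      simp only [one_mul] at h2
      simp only [tr2_apply, mul_one, hf, map_mul,
        hL.rho_exp _ ((lieAlg ρ).smul_mem _ hX)] at h1
      exact h1.unique h2
    obtain ⟨X, hX, Y, hY, rfl⟩ := hL.gC_decomp Z hZ
    simp [key X hX, key Y hY, add_mul]
  at_one := by
    intro Z hZ f hf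
    have key : ∀ X ∈ lieAlg ρ, K.dR X f 1 = K.dL X f 1 := by
      intro X hX
      have h1 := ev_deriv 1 (K.R_deriv X hX f hf)
      have h2 := ev_deriv 1 (K.L_deriv X hX f hf)
      simp only [tr2_apply, one_mul, mul_one] at h1 h2
      exact h1.unique h2
    obtain ⟨X, hX, Y, hY, rfl⟩ := hL.gC_decomp Z hZ
    simp [key X hX, key Y hY]
  R_trL := fun Z hZ f hf a => g_comm hL K.dR (tr2 1) K.R_deriv (tr2 a 1) (hP.tr2_mem a 1)
    (fun k f => by simp [tr2_tr2]) Z hZ f hf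
  L_trR := fun Z hZ f hf k => g_comm hL K.dL (fun a => tr2 a 1) K.L_deriv (tr2 1 k)
    (hP.tr2_mem 1 k) (fun k f => by simp [tr2_tr2]) Z hZ f hf
  adjR := g_adj hL hP K.dR (tr2 1) tr2_one K.R_deriv μ (fun k => tr2_mul 1 k) (fun _ _ => rfl)
    (fun k f => by simpa using integral_mul_right_eq_self (fun g => f g) k)
  adjL := g_adj hL hP K.dL (fun a => tr2 a 1) tr2_one K.L_deriv μ (fun a => tr2_mul a 1)
    (fun _ _ => rfl) (fun k f => by simpa using integral_mul_left_eq_self (fun g => f g) k)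
  invR := g_inv hL hP K.dR (tr2 1) K.R_deriv K.dL (fun a => tr2 a 1) K.L_deriv
    (fun k f => by ext g; simp)
  invL := g_inv hL hP K.dL (fun a => tr2 a 1) K.L_deriv K.dR (tr2 1) K.R_deriv
    (fun k f => by ext g; simp)
  isDer := by
    intro X hX f hf g
    simpa using ev_deriv g (K.R_deriv X hX f hf)

end Pool.Agent.P.MP_7211b7_an
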