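import Pool.Agent.P.MP_7211b7_an.DefsL

open MeasureTheory ComplexConjugate Complex Filter Topology
open scoped ENNReal Matrix

set_option linter.unusedSectionVars false

namespace Pool.Agent.P.MP_7211b7_an

namespace LDer2

theorem deriv_mem {E : Type} [NormedAddCommGroup E] [NormedSpace ℂ E] (S : Submodule ℂ E)
    [FiniteDimensional ℂ S] {y : ℝ → E} {y' : E} (hy : ∀ s, y s ∈ S) (h : HasDerivAt y y' 0) :
    y' ∈ S := by
  have hc : IsClosed (S : Set E) := S.closed_of_finiteDimensional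
  refine hc.mem_of_tendsto (hasDerivAt_iff_tendsto_slope_zero.1 h)
    (Eventually.of_forall fun s => ?_)
  exact S.smul_of_tower_mem _ (S.sub_mem (hy _) (hy _))

theorem flow_mem {E : Type} [NormedAddCommGroup E] [NormedSpace ℂ E] (V W : Submodule ℂ E)
    [FiniteDimensional ℂ W] (A : Module.End ℂ E) (hAW : ∀ w ∈ W, A w ∈ W)
    (hAV : ∀ v ∈ V, A v ∈ V) {y : ℝ → E} (hy : ∀ s, y s ∈ W)
    (hd : ∀ s, HasDerivAt y (A (y s)) s) (h0 : y 0 ∈ V) : y 1 ∈ V := by
  obtain ⟨q, hq⟩ := Submodule.ClosedComplemented.of_finiteDimensional (𝕜 := ℂ) W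
  have hq' : ∀ w ∈ W, (q w : E) = w := fun w hw => congrArg Subtype.val (hq ⟨w, hw⟩)
  obtain ⟨U', hU⟩ := Submodule.exists_isCompl (V.comap W.subtype)
  let P : W →L[ℂ] W := LinearMap.toContinuousLinearMap (U'.projection _ hU.symm)
  have hP0 : ∀ w : W, P w = 0 ↔ (w : E) ∈ V := fun w =>
    Submodule.projection_apply_eq_zero_iff hU.symm
  have hP1 : ∀ w : W, ((w - P w : W) : E) ∈ V := fun w => Submodule.sub_projection_mem hU.symm w
  let T : W →L[ℂ] W := LinearMap.toContinuousLinearMap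
    (P.toLinearMap ∘ₗ q.toLinearMap ∘ₗ A ∘ₗ W.subtype)
  have hT : ∀ w : W, T w = P (q (A w)) := fun _ => rfl
  have hz : ∀ s, HasDerivAt (fun s => P (q (y s))) (T (P (q (y s)))) s := by
    intro s
    have h1 := (((P.comp q).restrictScalars ℝ).hasFDerivAt).comp_hasDerivAt s (hd s)
    have h2 : T (q (y s) - P (q (y s))) = 0 := by
      rw [hT, hP0, hq' _ (hAW _ (Subtype.property _))]
      exact hAV _ (hP1 _)
    rw [map_sub, sub_eq_zero, hT, hq' _ (hy s)] at h2
    rw [← h2]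
    exact h1
  have h1 := eq_zero_of_abs_deriv_le_mul_abs_self_of_eq_zero_right (a := 0) (b := 1) (K := ‖T‖)
    (f := fun s => P (q (y s))) (f' := fun s => T (P (q (y s))))
    (fun s _ => (hz s).continuousAt.continuousWithinAt) (fun s _ => (hz s).hasDerivWithinAt)
    (by rw [hP0, hq' _ (hy 0)]; exact h0) (fun s _ => T.le_opNorm _) 1 (by simp)
  rwa [hP0, hq' _ (hy 1)] at h1

theorem shift {E : Type} [NormedAddCommGroup E] [NormedSpace ℝ E] {y z : ℝ → E} {y' : E} {s : ℝ}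
    (h : HasDerivAt z y' 0) (e : ∀ u, y (s + u) = z u) : HasDerivAt y y' s := by
  have h1 : HasDerivAt z y' (s - s) := by simpa using h
  have h2 := h1.comp_sub_const s s
  have e2 : y = fun x => z (x - s) := by
    funext x; rw [← e]; congr 1; ring
  rw [e2]; exact h2

end LDer2

variable {G : Type} [Group G] [TopologicalSpace G] [IsTopologicalGroup G] [CompactSpace G]
  [T2Space G] [SecondCountableTopology G] [MeasurableSpace G] [BorelSpace G] {n : ℕ}
  {ρ : G →* Mat n} {t : Submodule ℝ (Mat n)} {B : LinearMap.BilinForm ℝ (Mat n)} {d r : ℕ}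
  {b : Fin d → Mat n} (μ : Measure G) [Hr μ]

namespace LDer2

theorem exp_add (hL : LIE ρ) {X : Mat n} (hX : X ∈ lieAlg ρ) (s u : ℝ) :
    expG ρ ((s + u) • X) = expG ρ (s • X) * expG ρ (u • X) := by
  rw [add_smul]
  refine hL.exp_add _ ((lieAlg ρ).smul_mem _ hX) _ ((lieAlg ρ).smul_mem _ hX) ?_
  simp only [smul_mul_smul_comm, mul_comm]

theorem dR_mem (hL : LIE ρ) (hP : PF ρ) (K : Calc ρ) (V : Submodule ℂ C(G, ℂ))
    (hV : ∀ v ∈ V, v ∈ PP ρ) (h : ∀ k, ∀ v ∈ V, tr2 1 k v ∈ V) :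
    ∀ Z ∈ gC ρ, ∀ v ∈ V, K.dR Z v ∈ V := by
  have key : ∀ X ∈ lieAlg ρ, ∀ v ∈ V, K.dR X v ∈ V := by
    intro X hX v hv
    obtain ⟨W, hW, hvW, -, hW2⟩ := hP.locfin v (hV v hv)
    have : FiniteDimensional ℂ (V ⊓ W : Submodule ℂ C(G, ℂ)) :=
      Submodule.finiteDimensional_inf_right V W
    exact (deriv_mem (V ⊓ W) (fun s => ⟨h _ v hv, hW2 _ _ v hvW⟩) (K.R_deriv X hX v (hV v hv))).1
  intro Z hZ v hv
  obtain ⟨X, hX, Y, hY, rfl⟩ := hL.gC_decomp Z hZ
  rw [map_add, map_smul, LinearMap.add_apply, LinearMap.smul_apply]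
  exact V.add_mem (key X hX v hv) (V.smul_mem _ (key Y hY v hv))

theorem dL_mem (hL : LIE ρ) (hP : PF ρ) (K : Calc ρ) (V : Submodule ℂ C(G, ℂ))
    (hV : ∀ v ∈ V, v ∈ PP ρ) (h : ∀ a, ∀ v ∈ V, tr2 a 1 v ∈ V) :
    ∀ Z ∈ gC ρ, ∀ v ∈ V, K.dL Z v ∈ V := by
  have key : ∀ X ∈ lieAlg ρ, ∀ v ∈ V, K.dL X v ∈ V := by
    intro X hX v hv
    obtain ⟨W, hW, hvW, -, hW2⟩ := hP.locfin v (hV v hv)
    have : FiniteDimensional ℂ (V ⊓ W : Submodule ℂ C(G, ℂ)) :=
      Submodule.finiteDimensional_inf_right V W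
    exact (deriv_mem (V ⊓ W) (fun s => ⟨h _ v hv, hW2 _ _ v hvW⟩) (K.L_deriv X hX v (hV v hv))).1
  intro Z hZ v hv
  obtain ⟨X, hX, Y, hY, rfl⟩ := hL.gC_decomp Z hZ
  rw [map_add, map_smul, LinearMap.add_apply, LinearMap.smul_apply]
  exact V.add_mem (key X hX v hv) (V.smul_mem _ (key Y hY v hv))

end LDer2

open LDer2 in
theorem der2_ok (hL : LIE ρ) (hP : PF ρ) (K : Calc ρ) : DER2 K := by
  refine ⟨?_, dR_mem hL hP K, dL_mem hL hP K, ?_⟩
  · intro V hV hA
    refine hL.gen (fun k => ∀ v ∈ V, tr2 1 k v ∈ V) ?_ ?_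
    · intro X hX v hv
      obtain ⟨W, hW, hvW, hW1, hW2⟩ := hP.locfin v (hV v hv)
      have h := flow_mem V W (K.dR X) (dR_mem hL hP K W hW1 (hW2 1) X (mem_gC hX)) (hA X hX)
        (y := fun s : ℝ => tr2 1 (expG ρ (s • X)) v) (fun s => hW2 _ _ v hvW)
        (fun s => shift (K.R_deriv X hX _ (hP.tr2_mem _ _ v (hV v hv))) fun u => by
          rw [tr2_tr2, one_mul, add_comm, exp_add hL hX])
        (by simpa [hL.exp_zero] using hv)
      simpa using h
    · intro x y hx hy v hv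
      have := hx _ (hy v hv)
      rwa [tr2_tr2, one_mul] at this
  · intro X hX f hf c hc g
    have hy : ∀ s : ℝ, HasDerivAt (fun s : ℝ => f (g * expG ρ (s • X)))
        (c * f (g * expG ρ (s • X))) s := by
      intro s
      have h1 := (((ContinuousMap.evalCLM ℂ (g * expG ρ (s • X))).restrictScalars
        ℝ).hasFDerivAt).comp_hasDerivAt 0 (K.R_deriv X hX f hf)
      rw [hc] at h1
      refine shift h1 fun u => ?_
      simp [exp_add hL hX, mul_assoc]
    have hz : ∀ s : ℝ, HasDerivAt (fun s : ℝ => Complex.exp (-(c * s)) * f (g * expG ρ (s • X)))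
        0 s := by
      intro s
      have h1 : HasDerivAt (fun s : ℝ => Complex.exp (-(c * s))) (Complex.exp (-(c * s)) * -c) s := by
        have h2 : HasDerivAt (fun s : ℝ => -(c * (s : ℂ))) (-c) s := by
          have h3 := ((Complex.ofRealCLM.hasDerivAt (x := s)).const_mul c).neg
          rw [Complex.ofRealCLM_apply, ofReal_one, mul_one] at h3
          exact h3
        exact h2.cexp
      have h4 := h1.mul (hy s)
      have e : Complex.exp (-(c * s)) * -c * f (g * expG ρ (s • X)) +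
          Complex.exp (-(c * s)) * (c * f (g * expG ρ (s • X))) = 0 := by ring
      rw [e] at h4
      exact h4
    have h := is_const_of_deriv_eq_zero (fun s => (hz s).differentiableAt)
      (fun s => (hz s).deriv) 1 0
    simp only [one_smul, zero_smul, hL.exp_zero, mul_one, ofReal_one, ofReal_zero, mul_zero,
      neg_zero, Complex.exp_zero, one_mul] at h
    rw [← h, ← mul_assoc, ← Complex.exp_add]
    simp

end Pool.Agent.P.MP_7211b7_an
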