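import Pool.Agent.P.MP_7211b7_an.DefsL

/-! # Functional equations of the highest weight matrix coefficients -/

open MeasureTheory ComplexConjugate Complex
open scoped ENNReal Matrix

set_option linter.unusedSectionVars false

namespace Pool.Agent.P.MP_7211b7_an

variable {G : Type} [Group G] [TopologicalSpace G] [IsTopologicalGroup G] [CompactSpace G]
  [T2Space G] [SecondCountableTopology G] [MeasurableSpace G] [BorelSpace G] {n : ℕ}
  {ρ : G →* Mat n} {t : Submodule ℝ (Mat n)} {B : LinearMap.BilinForm ℝ (Mat n)} {d r : ℕ}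
  {b : Fin d → Mat n} (μ : Measure G) [Hr μ]

namespace LFeq

/-- the inner product with a fixed function as a continuous functional -/
noncomputable def ipL (h : C(G, ℂ)) : C(G, ℂ) →L[ℂ] ℂ :=
  (innerSL ℂ (ContinuousMap.toLp 2 μ ℂ h)).comp (ContinuousMap.toLp 2 μ ℂ)

theorem ipL_apply (h f : C(G, ℂ)) : ipL μ h f = ip μ f h := by
  rw [ip_eq_inner]; rfl

theorem ip_smul_right (f h : C(G, ℂ)) (c : ℂ) : ip μ f (c • h) = conj c * ip μ f h := by
  rw [ip_eq_inner, ip_eq_inner, map_smul, inner_smul_left]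

theorem ip_smul_left (f h : C(G, ℂ)) (c : ℂ) : ip μ (c • f) h = c * ip μ f h := by
  rw [← ipL_apply, ← ipL_apply, map_smul, smul_eq_mul]

theorem ip_zero_right (f : C(G, ℂ)) : ip μ f 0 = 0 := by simp [ip]

theorem ip_zero_left (f : C(G, ℂ)) : ip μ 0 f = 0 := by simp [ip]

/-- averages of a continuous family in a finite dimensional space stay in it -/
theorem avg_mem (V : Submodule ℂ C(G, ℂ)) [FiniteDimensional ℂ V] (F : G → C(G, ℂ))
    (hF : Continuous fun p : G × G => F p.1 p.2) (hV : ∀ z, F z ∈ V) (w : G → ℂ)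
    (hw : Continuous w) (Φ : C(G, ℂ)) (hΦ : ∀ y, Φ y = ∫ z, F z y * w z ∂μ) : Φ ∈ V := by
  obtain ⟨e, he, -, hx⟩ := exists_onb μ V
  have hc : ∀ j, Continuous fun z => ip μ (F z) (e j) := fun j =>
    continuous_integral_param μ (f := fun z g => F z g * conj (e j g))
      (hF.mul (Complex.continuous_conj.comp ((e j).continuous.comp continuous_snd)))
  have : Φ = ∑ j, (∫ z, ip μ (F z) (e j) * w z ∂μ) • e j := by
    ext y
    have h1 : ∀ z, F z y * w z = ∑ j, ip μ (F z) (e j) * w z * e j y := by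
      intro z
      have h2 := congrArg (fun f : C(G, ℂ) => f y) (hx _ (hV z))
      simp only [ContinuousMap.coe_sum, Finset.sum_apply, ContinuousMap.smul_apply,
        smul_eq_mul] at h2
      rw [h2, Finset.sum_mul]
      exact Finset.sum_congr rfl fun j _ => by ring
    rw [hΦ]
    simp only [h1, ContinuousMap.coe_sum, Finset.sum_apply, ContinuousMap.smul_apply,
      smul_eq_mul]
    rw [integral_finsetSum (f := fun j z => ip μ (F z) (e j) * w z * e j y) _ fun j _ =>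
      integrable_of_continuous μ (((hc j).mul hw).mul continuous_const)]
    exact Finset.sum_congr rfl fun j _ => integral_mul_const _ _
  rw [this]
  exact V.sum_mem fun j _ => V.smul_mem _ (he j)

/-- `k ↦ ⟨tr2 a k f, h⟩` -/
noncomputable def cf (a : G) (f h : C(G, ℂ)) : C(G, ℂ) :=
  ⟨fun k => ip μ (tr2 a k f) h,
    continuous_integral_param μ (f := fun k z => f (a * z * k) * conj (h z)) (by fun_prop)⟩

/-- `a ↦ ⟨tr2 a 1 f, h⟩` -/
noncomputable def cg (f h : C(G, ℂ)) : C(G, ℂ) :=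
  ⟨fun a => ip μ (tr2 a 1 f) h,
    continuous_integral_param μ (f := fun a z => f (a * z * 1) * conj (h z)) (by fun_prop)⟩

theorem cf_apply (a k : G) (f h : C(G, ℂ)) : cf μ a f h k = ip μ (tr2 a k f) h := rfl

theorem cg_apply (a : G) (f h : C(G, ℂ)) : cg μ f h a = ip μ (tr2 a 1 f) h := rfl

theorem cf_mem (hP : PF ρ) (a : G) {f : C(G, ℂ)} (hf : f ∈ PP ρ) (h : C(G, ℂ)) :
    cf μ a f h ∈ PP ρ := by
  obtain ⟨V, _, hfV, hV, hT⟩ := hP.locfin f hf
  refine hV _ (avg_mem μ V (fun z => tr2 (a * z) 1 f) (by simp only [tr2_apply]; fun_prop)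
    (fun z => hT _ _ _ hfV) (fun z => conj (h z)) (by fun_prop) _ fun y => ?_)
  simp [cf_apply, ip]

theorem cg_mem (hP : PF ρ) {f : C(G, ℂ)} (hf : f ∈ PP ρ) (h : C(G, ℂ)) :
    cg μ f h ∈ PP ρ := by
  obtain ⟨V, _, hfV, hV, hT⟩ := hP.locfin f hf
  refine hV _ (avg_mem μ V (fun z => tr2 1 z f) (by simp only [tr2_apply]; fun_prop)
    (fun z => hT _ _ _ hfV) (fun z => conj (h z)) (by fun_prop) _ fun y => ?_)
  simp [cg_apply, ip]

/-- the transfer principle -/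
theorem transfer (D D' : Mat n →ₗ[ℂ] Module.End ℂ C(G, ℂ)) (τ τ' : G → C(G, ℂ))
    (Φ u : C(G, ℂ)) (y : G) (l : C(G, ℂ) →L[ℂ] ℂ)
    (h1 : ∀ X ∈ lieAlg ρ, HasDerivAt (fun s : ℝ => τ (expG ρ (s • X))) (D X Φ) 0)
    (h2 : ∀ X ∈ lieAlg ρ, HasDerivAt (fun s : ℝ => τ' (expG ρ (s • X))) (D' X u) 0)
    (h : ∀ e, τ e y = l (τ' e)) : ∀ Z ∈ gC ρ, D Z Φ y = l (D' Z u) := by
  intro Z hZ
  induction hZ using Submodule.span_induction with
  | mem X hX =>
    have a1 := ((ContinuousMap.evalCLM ℂ y : C(G, ℂ) →L[ℂ] ℂ).restrictScalars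
      ℝ).hasFDerivAt.comp_hasDerivAt (0 : ℝ) (h1 X hX)
    have a2 := (l.restrictScalars ℝ).hasFDerivAt.comp_hasDerivAt (0 : ℝ) (h2 X hX)
    exact a1.unique (a2.congr_of_eventuallyEq (Filter.Eventually.of_forall fun s => h _))
  | zero => simp
  | add X Y _ _ hX hY => simp [hX, hY]
  | smul c X _ hX => simp [hX]

variable {K : Calc ρ} {R : Roots ρ t}

theorem dR_cf (hP : PF ρ) (a : G) {f : C(G, ℂ)} (hf : f ∈ PP ρ) (h : C(G, ℂ)) {Z : Mat n}
    (hZ : Z ∈ gC ρ) (k : G) : K.dR Z (cf μ a f h) k = ip μ (tr2 a k (K.dR Z f)) h := by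
  have := transfer K.dR K.dR (fun e => tr2 1 e (cf μ a f h)) (fun e => tr2 1 e f) _ f k
    ((ipL μ h).comp (tr2 a k)) (fun X hX => K.R_deriv X hX _ (cf_mem μ hP a hf h))
    (fun X hX => K.R_deriv X hX _ hf)
    (fun e => by simp [cf_apply, ipL_apply, tr2_tr2]) Z hZ
  simpa [ipL_apply] using this

theorem dL_cf (hP : PF ρ) (hD : DER1 K μ) (a : G) {f h : C(G, ℂ)} (hf : f ∈ PP ρ)
    (hh : h ∈ PP ρ) {Z : Mat n} (hZ : Z ∈ gC ρ) (k : G) :
    K.dL Z (cf μ a f h) k = ip μ (tr2 a k f) (K.dR Zᴴ h) := by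
  have := transfer K.dL K.dR (fun e => tr2 e 1 (cf μ a f h)) (fun e => tr2 1 e (tr2 a k f)) _ _ k
    (ipL μ h) (fun X hX => K.L_deriv X hX _ (cf_mem μ hP a hf h))
    (fun X hX => K.R_deriv X hX _ (hP.tr2_mem a k f hf))
    (fun e => by simp [cf_apply, ipL_apply, tr2_tr2]) Z hZ
  rw [this, ipL_apply, hD.adjR Z hZ _ (hP.tr2_mem a k f hf) h hh]

theorem dR_cg (hP : PF ρ) (hD : DER1 K μ) {f h : C(G, ℂ)} (hf : f ∈ PP ρ)
    (hh : h ∈ PP ρ) {Z : Mat n} (hZ : Z ∈ gC ρ) (a : G) :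
    K.dR Z (cg μ f h) a = ip μ (tr2 a 1 f) (K.dL Zᴴ h) := by
  have := transfer K.dR K.dL (fun e => tr2 1 e (cg μ f h)) (fun e => tr2 e 1 (tr2 a 1 f)) _ _ a
    (ipL μ h) (fun X hX => K.R_deriv X hX _ (cg_mem μ hP hf h))
    (fun X hX => K.L_deriv X hX _ (hP.tr2_mem a 1 f hf))
    (fun e => by simp [cg_apply, ipL_apply, tr2_tr2]) Z hZ
  rw [this, ipL_apply, hD.adjL Z hZ _ (hP.tr2_mem a 1 f hf) h hh]

theorem dL_cg (hP : PF ρ) {f : C(G, ℂ)} (hf : f ∈ PP ρ) (h : C(G, ℂ)) {Z : Mat n}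
    (hZ : Z ∈ gC ρ) (a : G) : K.dL Z (cg μ f h) a = ip μ (tr2 a 1 (K.dL Z f)) h := by
  have := transfer K.dL K.dL (fun e => tr2 e 1 (cg μ f h)) (fun e => tr2 e 1 f) _ f a
    ((ipL μ h).comp (tr2 a 1)) (fun X hX => K.L_deriv X hX _ (cg_mem μ hP hf h))
    (fun X hX => K.L_deriv X hX _ hf)
    (fun e => by simp [cg_apply, ipL_apply, tr2_tr2]) Z hZ
  simpa [ipL_apply] using this

theorem eq_smul (hU : UNIQ K R) {lam : Mat n →ₗ[ℝ] ℝ} {ψ φ : C(G, ℂ)} (h : IsHW K R lam ψ)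
    (hd : ∀ i, K.dL (R.E i)ᴴ ψ = 0) (hφ : IsPhi K R lam φ) : ψ = ψ 1 • φ := by
  refine sub_eq_zero.1 (hU.zero lam _ ⟨(PP ρ).sub_mem h.mem ((PP ρ).smul_mem hφ.mem _),
    fun i => ?_, fun Y hY => ?_⟩ (fun i => ?_) ?_)
  · rw [map_sub, map_smul, h.up, hφ.up, smul_zero, sub_zero]
  · rw [map_sub, map_smul, h.wtR Y hY, hφ.wtR Y hY, smul_sub, smul_comm]
  · rw [map_sub, map_smul, hd, hφ.down, smul_zero, sub_zero]
  · simp [hφ.one]

theorem conj_wt (x : ℝ) : conj (-(I * (x : ℂ))) = I * x := by simp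

theorem cf_hw (hP : PF ρ) (hC : IsCartan ρ t) (a : G) {lam : Mat n →ₗ[ℝ] ℝ} {f : C(G, ℂ)}
    (hf : IsHW K R lam f) (h : C(G, ℂ)) : IsHW K R lam (cf μ a f h) := by
  refine ⟨cf_mem μ hP a hf.mem h, fun i => ?_, fun Y hY => ?_⟩
  · ext k
    rw [dR_cf μ hP a hf.mem h (R.E_mem i), hf.up, map_zero, ip_zero_left]
    rfl
  · ext k
    rw [dR_cf μ hP a hf.mem h (mem_gC (hC.le hY)), hf.wtR Y hY, map_smul, ip_smul_left]
    rfl

theorem cf_down (hL : LIE ρ) (hP : PF ρ) (hD : DER1 K μ) (a : G) {lam : Mat n →ₗ[ℝ] ℝ}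
    {f h : C(G, ℂ)} (hf : f ∈ PP ρ) (hh : IsHW K R lam h) (i : Fin R.N) :
    K.dL (R.E i)ᴴ (cf μ a f h) = 0 := by
  ext k
  rw [dL_cf μ hP hD a hf hh.mem (hL.gC_star _ (R.E_mem i)), Matrix.conjTranspose_conjTranspose,
    hh.up, ip_zero_right]
  rfl

theorem mulHW (hC : IsCartan ρ t) (hD : DER1 K μ) (lam lam' : Mat n →ₗ[ℝ] ℝ) (h h' : C(G, ℂ))
    (a : IsHW K R lam h) (a' : IsHW K R lam' h') : IsHW K R (lam + lam') (h * h') := by
  refine ⟨(PP ρ).mul_mem a.mem a'.mem, fun i => ?_, fun Y hY => ?_⟩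
  · rw [hD.R_mul _ (R.E_mem i) _ a.mem _ a'.mem, a.up, a'.up, zero_mul, mul_zero, add_zero]
  · rw [hD.R_mul _ (mem_gC (hC.le hY)) _ a.mem _ a'.mem, a.wtR Y hY, a'.wtR Y hY,
      smul_mul_assoc, mul_smul_comm, ← add_smul, LinearMap.add_apply, ofReal_add, mul_add]

theorem invF_zero : invF (0 : C(G, ℂ)) = 0 := rfl

theorem inv_phi (hL : LIE ρ) (hP : PF ρ) (hC : IsCartan ρ t) (hD : DER1 K μ) (hU : UNIQ K R)
    {lam : Mat n →ₗ[ℝ] ℝ} {φ : C(G, ℂ)} (h : IsPhi K R lam φ) (g : G) :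
    φ g⁻¹ = conj (φ g) := by
  have hi := hP.inv_mem φ h.mem
  have h1 : IsHW K R lam (star (invF φ)) := by
    refine ⟨hP.star_mem _ hi, fun i => ?_, fun Y hY => ?_⟩
    · have hE := (gC ρ).neg_mem (hL.gC_star _ (R.E_mem i))
      rw [hD.R_star _ (R.E_mem i) _ hi, hD.invR _ hE _ h.mem, map_neg, LinearMap.neg_apply,
        h.down, neg_zero, invF_zero, neg_zero, star_zero]
    · have hY' := mem_gC (hC.le hY)
      rw [hD.R_star _ hY' _ hi, hL.skew Y (hC.le hY), neg_neg, hD.invR _ hY' _ h.mem,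
        h.wtL Y hY]
      ext x
      simp
  have h2 : ∀ i, K.dL (R.E i)ᴴ (star (invF φ)) = 0 := by
    intro i
    rw [hD.L_star _ (hL.gC_star _ (R.E_mem i)) _ hi, Matrix.conjTranspose_conjTranspose,
      hD.invL _ ((gC ρ).neg_mem (R.E_mem i)) _ h.mem, map_neg, LinearMap.neg_apply, h.up,
      neg_zero, invF_zero, neg_zero, star_zero]
  have h3 := congrArg (fun f : C(G, ℂ) => f g⁻¹) (eq_smul hU h1 h2 h)
  simpa [h.one] using h3.symm

end LFeq

open LFeq in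
theorem feq_ok (K : Calc ρ) (R : Roots ρ t) :
    LIE ρ → PF ρ → IsCartan ρ t → DER1 K μ → UNIQ K R → FEQ K R μ := by
  intro hL hP hC hD hU
  refine ⟨fun lam φ φ' h h' => ?_, ⟨⟨(PP ρ).one_mem, fun i => hD.R_one _ (R.E_mem i),
    fun Y hY => ?_⟩, rfl, fun i => hD.L_one _ (hL.gC_star _ (R.E_mem i)), fun Y hY => ?_⟩,
    mulHW μ hC hD, fun lam lam' φ φ' h h' => ⟨mulHW μ hC hD _ _ _ _ h.toIsHW h'.toIsHW, ?_,
      fun i => ?_, fun Y hY => ?_⟩, fun lam φ h g => inv_phi μ hL hP hC hD hU h g,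
    fun lam φ h a k => ?_, fun lam lam' φ φ' h h' ⟨Y, hY, hne⟩ a k => ?_⟩
  · have := eq_smul hU h.toIsHW h.down h'
    rwa [h.one, one_smul] at this
  · simp [hD.R_one _ (mem_gC (hC.le hY))]
  · simp [hD.L_one _ (mem_gC (hC.le hY))]
  · simp [h.one, h'.one]
  · rw [hD.L_mul _ (hL.gC_star _ (R.E_mem i)) _ h.mem _ h'.mem, h.down, h'.down, zero_mul,
      mul_zero, add_zero]
  · rw [hD.L_mul _ (mem_gC (hC.le hY)) _ h.mem _ h'.mem, h.wtL Y hY, h'.wtL Y hY,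
      smul_mul_assoc, mul_smul_comm, ← add_smul, LinearMap.add_apply, ofReal_add, mul_add]
  · have h1 := congrArg (fun f : C(G, ℂ) => f k)
      (eq_smul hU (cf_hw μ hP hC a h.toIsHW φ) (cf_down μ hL hP hD a h.mem h.toIsHW) h)
    have h2 : IsHW K R lam (cg μ φ φ) := by
      refine ⟨cg_mem μ hP h.mem φ, fun i => ?_, fun Y hY => ?_⟩
      · ext x
        rw [dR_cg μ hP hD h.mem h.mem (R.E_mem i), h.down, ip_zero_right]
        rfl
      · ext x
        rw [dR_cg μ hP hD h.mem h.mem (mem_gC (hC.le hY)), hL.skew Y (hC.le hY), map_neg,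
          LinearMap.neg_apply, h.wtL Y hY, ← neg_smul, ip_smul_right, conj_wt]
        rfl
    have h3 : ∀ i, K.dL (R.E i)ᴴ (cg μ φ φ) = 0 := by
      intro i
      ext x
      rw [dL_cg μ hP h.mem φ (hL.gC_star _ (R.E_mem i)), h.down, map_zero, ip_zero_left]
      rfl
    have h4 := congrArg (fun f : C(G, ℂ) => f a) (eq_smul hU h2 h3 h)
    simp only [cf_apply, cg_apply, ContinuousMap.smul_apply, smul_eq_mul, tr2_one,
      ip_self] at h1 h4
    rw [h4, mul_assoc] at h1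
    exact h1
  · have hY' := mem_gC (hC.le hY)
    have h1 := cf_hw μ hP hC a h'.toIsHW φ
    have h2 := hD.at_one Y hY' _ h1.mem
    rw [h1.wtR Y hY, dL_cf μ hP hD a h'.mem h.mem hY', hL.skew Y (hC.le hY), map_neg,
      LinearMap.neg_apply, h.wtR Y hY, ← neg_smul, ip_smul_right, conj_wt, ← cf_apply,
      ContinuousMap.smul_apply, smul_eq_mul] at h2
    have h3 : cf μ a φ' φ 1 = 0 := by
      by_contra h0
      have h4 := mul_left_cancel₀ I_ne_zero (mul_right_cancel₀ h0 h2)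
      exact hne (ofReal_injective h4).symm
    exact congrArg (fun f : C(G, ℂ) => f k)
      (hU.zero lam' _ h1 (cf_down μ hL hP hD a h'.mem h.toIsHW) h3)

end Pool.Agent.P.MP_7211b7_an
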