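import Pool.Agent.P.MP_7211b7_an.DefsL

/-!
# MP_7211b7_an, part L: orthogonality of eigenfunctions and the spectral projections
-/

open MeasureTheory ComplexConjugate Complex
open scoped ENNReal Matrix

set_option linter.unusedSectionVars false

namespace Pool.Agent.P.MP_7211b7_an

namespace LFin1

/-- an orthogonal family of closed subspaces with dense sum: the projections sum to the vector -/
theorem hasSum_proj {V ι : Type*} [NormedAddCommGroup V] [InnerProductSpace ℂ V] [CompleteSpace V]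
    (F : ι → Submodule ℂ V) [∀ i, CompleteSpace (F i)] (ho : ∀ i j, i ≠ j → F i ⟂ F j)
    (hd : ⊤ ≤ (⨆ i, F i).topologicalClosure) (f : V) :
    HasSum (fun i => (F i).starProjection f) f := by
  classical
  have hV := IsHilbertSum.mkInternal F (OrthogonalFamily.of_pairwise fun i j h => ho i j h) hd
  have h1 := hV.hasSum_linearIsometryEquiv_symm (hV.linearIsometryEquiv f)
  rw [LinearIsometryEquiv.symm_apply_apply] at h1
  set w := hV.linearIsometryEquiv f with hw
  have h2 : ∀ i, (F i).starProjection f = (F i).subtypeₗᵢ (w i) := by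
    intro i
    have h3 := h1.mapL (F i).starProjection
    have h4 : HasSum (fun j => (F i).starProjection ((F j).subtypeₗᵢ (w j)))
        ((F i).starProjection ((F i).subtypeₗᵢ (w i))) := by
      refine hasSum_single i fun j hj => ?_
      rw [Submodule.starProjection_apply_eq_zero_iff]
      exact (ho j i hj).le (w j).2
    rw [h3.unique h4]
    exact Submodule.starProjection_eq_self_iff.2 (w i).2
  simpa only [h2] using h1

variable {G : Type} [Group G] [TopologicalSpace G] [IsTopologicalGroup G] [CompactSpace G]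
  [T2Space G] [SecondCountableTopology G] [MeasurableSpace G] [BorelSpace G] {n : ℕ}
  {ρ : G →* Mat n} {d r : ℕ} {b : Fin d → Mat n} (μ : Measure G) [Hr μ]

theorem exp_line (hL : LIE ρ) {X : Mat n} (hX : X ∈ lieAlg ρ) (s s' : ℝ) :
    expG ρ ((s + s') • X) = expG ρ (s • X) * expG ρ (s' • X) := by
  rw [add_smul]
  refine hL.exp_add _ ((lieAlg ρ).smul_mem _ hX) _ ((lieAlg ρ).smul_mem _ hX) ?_
  simp only [smul_mul_smul_comm, mul_comm s s']

theorem hasDerivAt_line (hL : LIE ρ) {X : Mat n} (hX : X ∈ lieAlg ρ) {u u' : C(G, ℂ)}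
    (h : IsDer ρ X u u') (g : G) (s₀ : ℝ) :
    HasDerivAt (fun s : ℝ => u (g * expG ρ (s • X))) (u' (g * expG ρ (s₀ • X))) s₀ := by
  have h1 := h (g * expG ρ (s₀ • X))
  have h2 : HasDerivAt (fun s : ℝ => u (g * expG ρ (s₀ • X) * expG ρ ((s - s₀) • X)))
      (u' (g * expG ρ (s₀ • X))) s₀ := by
    have h3 : HasDerivAt (fun s : ℝ => u (g * expG ρ (s₀ • X) * expG ρ (s • X)))
        (u' (g * expG ρ (s₀ • X))) (s₀ - s₀) := by rwa [sub_self]
    exact h3.comp_sub_const s₀ s₀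
  refine h2.congr_of_eventuallyEq (Filter.Eventually.of_forall fun s => ?_)
  simp only []
  rw [mul_assoc, ← exp_line hL hX, add_sub_cancel]

theorem integral_der (hL : LIE ρ) {X : Mat n} (hX : X ∈ lieAlg ρ) {u u' : C(G, ℂ)}
    (h : IsDer ρ X u u') : ∫ g, u' g ∂μ = 0 := by
  have h1 := (hasDerivAt_integral_of_dominated_loc_of_deriv_le (μ := μ) (x₀ := (0 : ℝ))
    (s := Set.univ) (F := fun (s : ℝ) (g : G) => u (g * expG ρ (s • X)))
    (F' := fun (s : ℝ) (g : G) => u' (g * expG ρ (s • X))) (bound := fun _ => ‖u'‖)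
    Filter.univ_mem
    (Filter.Eventually.of_forall fun s => Continuous.aestronglyMeasurable (by fun_prop))
    (integrable_of_continuous μ (by fun_prop))
    (Continuous.aestronglyMeasurable (by fun_prop))
    (Filter.Eventually.of_forall fun g s _ => u'.norm_coe_le_norm _)
    (integrable_const _)
    (Filter.Eventually.of_forall fun g s _ => hasDerivAt_line hL hX h g s)).2
  have h2 : (fun s : ℝ => ∫ g, u (g * expG ρ (s • X)) ∂μ) = fun _ => ∫ g, u g ∂μ := by
    funext s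
    exact integral_mul_right_eq_self (fun g => u g) _
  rw [h2] at h1
  have h3 := h1.unique (hasDerivAt_const (0 : ℝ) (∫ g, u g ∂μ))
  simpa [hL.exp_zero] using h3

theorem isDer_mul_star (hL : LIE ρ) {X : Mat n} {f f' h h' : C(G, ℂ)} (hf : IsDer ρ X f f')
    (hh : IsDer ρ X h h') : IsDer ρ X (f * star h) (f' * star h + f * star h') := by
  intro g
  have h1 := (hf g).mul (hh g).star
  simp only [zero_smul, hL.exp_zero, mul_one] at h1
  exact h1

theorem ip_der (hL : LIE ρ) {X : Mat n} (hX : X ∈ lieAlg ρ) {f f' h h' : C(G, ℂ)}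
    (hf : IsDer ρ X f f') (hh : IsDer ρ X h h') : ip μ f' h = -ip μ f h' := by
  have h1 := integral_der μ hL hX (isDer_mul_star hL hf hh)
  have h2 : ∫ g, (f' * star h + f * star h') g ∂μ = ip μ f' h + ip μ f h' := by
    unfold ip
    rw [← integral_add (integrable_of_continuous μ (by fun_prop))
      (integrable_of_continuous μ (by fun_prop))]
    rfl
  rw [h2] at h1
  exact eq_neg_of_add_eq_zero_left h1

theorem ip_sum_left {ι : Type} (S : Finset ι) (f : ι → C(G, ℂ)) (h : C(G, ℂ)) :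
    ip μ (∑ a ∈ S, f a) h = ∑ a ∈ S, ip μ (f a) h := by
  simp only [ip_eq_inner, map_sum, inner_sum]

theorem ip_sum_right {ι : Type} (S : Finset ι) (f : C(G, ℂ)) (h : ι → C(G, ℂ)) :
    ip μ f (∑ a ∈ S, h a) = ∑ a ∈ S, ip μ f (h a) := by
  simp only [ip_eq_inner, map_sum, sum_inner]

theorem ip_smul_left (c : ℂ) (f h : C(G, ℂ)) : ip μ (c • f) h = c * ip μ f h := by
  simp only [ip_eq_inner, map_smul, inner_smul_right]

theorem ip_smul_right (c : ℂ) (f h : C(G, ℂ)) : ip μ f (c • h) = conj c * ip μ f h := by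
  simp only [ip_eq_inner, map_smul, inner_smul_left]

theorem eig_orth (ho : EIGO ρ μ b) {E E' : ℝ} (hE : E ≠ E') : eigSp μ ρ b E ⟂ eigSp μ ρ b E' := by
  have key : ∀ U V : Submodule ℂ (Lp ℂ 2 μ), U ⟂ V → V ⟂ U.topologicalClosure := fun U V h =>
    Submodule.IsOrtho.symm (Submodule.topologicalClosure_minimal U h V.isClosed_orthogonal)
  refine key _ _ (key _ _ ?_)
  rw [Submodule.isOrtho_span]
  rintro _ ⟨f, hf, rfl⟩ _ ⟨f', hf', rfl⟩
  rw [← ip_eq_inner]
  exact ho E' E f' f hf' hf hE.symm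

variable {μ}

theorem level_finite {H : HW μ r} {θ ℓ : Fin r → ℝ} (hS : Spec ρ b H θ ℓ) (E : ℝ) :
    {l | l ∈ H.Λ ∧ En θ ℓ l = E}.Finite := by
  obtain ⟨C, _, hC⟩ := hS.low
  obtain ⟨N, hN⟩ := exists_nat_ge (C * (1 + E))
  refine (Set.Finite.pi' (fun _ : Fin r => Set.finite_Icc (-(N : ℤ)) N)).subset ?_
  rintro l ⟨hl, hE⟩ i
  have h1 := hC l hl
  rw [hE] at h1
  have h2 : ‖l i‖ ≤ ‖l‖ := norm_le_pi_norm l i
  have h3 : 0 ≤ ‖l‖ := norm_nonneg l
  have h4 : ‖l i‖ ≤ N := by nlinarith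
  rw [Int.norm_eq_abs] at h4
  have h5 : |l i| ≤ (N : ℤ) := by exact_mod_cast h4
  exact abs_le.1 h5

/-- the weights of energy `E` -/
noncomputable def lev {H : HW μ r} {θ ℓ : Fin r → ℝ} (hS : Spec ρ b H θ ℓ) (E : ℝ) :
    Finset (Fin r → ℤ) := (level_finite hS E).toFinset

theorem mem_lev {H : HW μ r} {θ ℓ : Fin r → ℝ} (hS : Spec ρ b H θ ℓ) {E : ℝ} {l : Fin r → ℤ} :
    l ∈ lev hS E ↔ l ∈ H.Λ ∧ En θ ℓ l = E := by
  simp [lev]

/-- the span of the matrix coefficients of energy `E` -/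
noncomputable def WE {H : HW μ r} {θ ℓ : Fin r → ℝ} (hS : Spec ρ b H θ ℓ) (E : ℝ) :
    Submodule ℂ C(G, ℂ) := ⨆ l ∈ lev hS E, span2 (H.φ l)

/-- the same space inside `L²` -/
noncomputable def VE {H : HW μ r} {θ ℓ : Fin r → ℝ} (hS : Spec ρ b H θ ℓ) (E : ℝ) :
    Submodule ℂ (Lp ℂ 2 μ) := (WE hS E).map (ContinuousMap.toLp 2 μ ℂ).toLinearMap

theorem fin_WE {H : HW μ r} {θ ℓ : Fin r → ℝ} (hS : Spec ρ b H θ ℓ) (E : ℝ) :
    FiniteDimensional ℂ (WE hS E) := by
  unfold WE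
  rw [iSup_subtype']
  have : ∀ l : lev hS E, FiniteDimensional ℂ (span2 (H.φ l)) := fun l =>
    H.fin l ((mem_lev hS).1 l.2).1
  infer_instance

theorem fin_VE {H : HW μ r} {θ ℓ : Fin r → ℝ} (hS : Spec ρ b H θ ℓ) (E : ℝ) :
    FiniteDimensional ℂ (VE hS E) := by
  have := fin_WE hS E
  unfold VE
  infer_instance

theorem VE_le {H : HW μ r} {θ ℓ : Fin r → ℝ} (hS : Spec ρ b H θ ℓ) (E : ℝ) :
    VE hS E ≤ eigSp μ ρ b E := by
  unfold VE WE
  rw [Submodule.map_le_iff_le_comap]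
  refine iSup₂_le fun l hl f hf => ?_
  obtain ⟨h1, h2⟩ := (mem_lev hS).1 hl
  refine Submodule.le_topologicalClosure _ (Submodule.subset_span ⟨f, ?_, rfl⟩)
  rw [← h2]
  exact hS.eig l h1 f hf

theorem VE_dense {H : HW μ r} {θ ℓ : Fin r → ℝ} (hS : Spec ρ b H θ ℓ) :
    (⨆ E, VE hS E).topologicalClosure = ⊤ := by
  rw [← Submodule.dense_iff_topologicalClosure_eq_top]
  have h1 : DenseRange (ContinuousMap.toLp 2 μ ℂ : C(G, ℂ) →L[ℂ] Lp ℂ 2 μ) :=
    ContinuousMap.toLp_denseRange ℂ μ ℂ (by norm_num)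
  refine (h1.dense_image (ContinuousMap.toLp 2 μ ℂ).continuous hS.dense).mono ?_
  rintro _ ⟨f, hf, rfl⟩
  have h2 : Submodule.span ℂ {f | ∃ l ∈ H.Λ, f ∈ span2 (H.φ l)} ≤
      (⨆ E, VE hS E).comap (ContinuousMap.toLp 2 μ ℂ).toLinearMap := by
    rw [Submodule.span_le]
    rintro h ⟨l, hl, hh⟩
    refine Submodule.mem_iSup_of_mem (En θ ℓ l) (Submodule.mem_map_of_mem ?_)
    exact Submodule.mem_iSup_of_mem l
      (Submodule.mem_iSup_of_mem ((mem_lev hS).2 ⟨hl, rfl⟩) hh)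
  exact h2 hf

theorem le_VE {H : HW μ r} {θ ℓ : Fin r → ℝ} (ho : EIGO ρ μ b) (hS : Spec ρ b H θ ℓ) (E : ℝ) :
    eigSp μ ρ b E ≤ VE hS E := by
  intro x hx
  have := fin_VE hS E
  have h1 : x - (VE hS E).starProjection x ∈ (⨆ E', VE hS E')ᗮ := by
    rw [← Submodule.iInf_orthogonal, Submodule.mem_iInf]
    intro E'
    by_cases hE : E = E'
    · subst hE
      exact Submodule.sub_starProjection_mem_orthogonal x
    · have h2 : x - (VE hS E).starProjection x ∈ eigSp μ ρ b E :=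
        Submodule.sub_mem _ hx (VE_le hS E (Submodule.starProjection_apply_mem _ x))
      exact ((eig_orth μ ho hE).mono_right (VE_le hS E')).le h2
  rw [Submodule.topologicalClosure_eq_top_iff.1 (VE_dense hS), Submodule.mem_bot,
    sub_eq_zero] at h1
  rw [h1]
  exact Submodule.starProjection_apply_mem _ x

end LFin1

variable {G : Type} [Group G] [TopologicalSpace G] [IsTopologicalGroup G] [CompactSpace G]
  [T2Space G] [SecondCountableTopology G] [MeasurableSpace G] [BorelSpace G] {n : ℕ}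
  {ρ : G →* Mat n} {t : Submodule ℝ (Mat n)} {B : LinearMap.BilinForm ℝ (Mat n)} {d r : ℕ}
  {b : Fin d → Mat n} (μ : Measure G) [Hr μ]

theorem eigo_ok (hL : LIE ρ) (hb : ∀ a, b a ∈ lieAlg ρ) : EIGO ρ μ b := by
  rintro E E' f f' ⟨f₁, f₂, h1, h2, h3⟩ ⟨f₁', f₂', h1', h2', h3'⟩ hE
  have h4 : ip μ (∑ a, f₂ a) f' = ip μ f (∑ a, f₂' a) := by
    rw [LFin1.ip_sum_left, LFin1.ip_sum_right]
    refine Finset.sum_congr rfl fun a _ => ?_
    rw [LFin1.ip_der μ hL (hb a) (h2 a) (h1' a), LFin1.ip_der μ hL (hb a) (h1 a) (h2' a), neg_neg]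
  rw [h3, h3', LFin1.ip_smul_left, LFin1.ip_smul_right] at h4
  have h5 : ((E : ℂ) - E') * ip μ f f' = 0 := by
    simp only [map_neg, conj_ofReal] at h4
    linear_combination -h4
  rcases mul_eq_zero.1 h5 with h6 | h6
  · exact absurd (Complex.ofReal_injective (sub_eq_zero.1 h6)) hE
  · exact h6

theorem fin1_ok (H : HW μ r) (θ ℓ : Fin r → ℝ) :
    EIGO ρ μ b → Spec ρ b H θ ℓ → FIN1 ρ μ b H θ ℓ := by
  intro ho hS
  have : ∀ E, CompleteSpace (eigSp μ ρ b E) := fun E =>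
    (Submodule.isClosed_topologicalClosure _).completeSpace_coe
  refine ⟨fun E f => ?_, fun E E' hE => LFin1.eig_orth μ ho hE, fun f => ?_⟩
  · have h1 : proj μ ρ b E f ∈ LFin1.VE hS E :=
      LFin1.le_VE ho hS E (Submodule.starProjection_apply_mem _ f)
    obtain ⟨w, hw, h2⟩ := h1
    obtain ⟨g, hg⟩ := (Submodule.mem_iSup_finset_iff_exists_sum _ _).1 hw
    refine ⟨LFin1.lev hS E, fun l => g l, fun l hl => ?_, ?_⟩
    · obtain ⟨h3, h4⟩ := (LFin1.mem_lev hS).1 hl
      exact ⟨h3, h4, (g l).2⟩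
    · rw [hg]
      exact h2.symm
  · refine LFin1.hasSum_proj (fun E => eigSp μ ρ b E) (fun E E' hE => LFin1.eig_orth μ ho hE) ?_ f
    rw [← LFin1.VE_dense hS]
    exact Submodule.topologicalClosure_mono (iSup_mono fun E => LFin1.VE_le hS E)

end Pool.Agent.P.MP_7211b7_an
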