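import Pool.Agent.P.MP_7211b7_an.DefsL

/-!
# MP_7211b7_an, part L: from finite sums to the Strichartz estimate
-/

open MeasureTheory ComplexConjugate Complex Filter Topology
open scoped ENNReal Matrix

set_option linter.unusedSectionVars false

namespace Pool.Agent.P.MP_7211b7_an

namespace LFin2

lemma norm_sq_sum {V ι : Type} [NormedAddCommGroup V] [InnerProductSpace ℂ V] (s : Finset ι)
    (v : ι → V) (h : ∀ i ∈ s, ∀ j ∈ s, i ≠ j → inner ℂ (v i) (v j) = 0) :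
    ‖∑ i ∈ s, v i‖ ^ 2 = ∑ i ∈ s, ‖v i‖ ^ 2 := by
  apply Complex.ofReal_injective
  have h1 : ∀ x : V, ((‖x‖ ^ 2 : ℝ) : ℂ) = inner ℂ x x := fun x => by
    rw [inner_self_eq_norm_sq_to_K]
    norm_cast
  rw [h1, sum_inner, Complex.ofReal_sum]
  refine Finset.sum_congr rfl fun i hi => ?_
  rw [h1, inner_sum, Finset.sum_eq_single_of_mem i hi fun j hj hji => h i hi j hj hji.symm]

lemma tendsto_image {V : Type} [NormedAddCommGroup V] {a : ℝ → V} {x : V} (h : HasSum a x)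
    (e : ℕ → ℝ) (he : ∀ E, E ∉ Set.range e → a E = 0) :
    Tendsto (fun k => ∑ E ∈ (Finset.range k).image e, a E) atTop (𝓝 x) := by
  classical
  intro U hU
  obtain ⟨s, hs⟩ := mem_atTop_sets.1 (h hU)
  have h1 : ∀ E ∈ s, ∀ᶠ k in atTop, E ∈ Set.range e → E ∈ (Finset.range k).image e := by
    intro E _
    by_cases hE : E ∈ Set.range e
    · obtain ⟨j, rfl⟩ := hE
      filter_upwards [eventually_gt_atTop j] with k hk _
      exact Finset.mem_image_of_mem e (Finset.mem_range.2 hk)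
    · exact Eventually.of_forall fun k h => absurd h hE
  rw [mem_map]
  filter_upwards [(eventually_all_finset s).2 h1] with k hk
  have h2 := hs ((Finset.range k).image e ∪ s) Finset.subset_union_right
  rw [Set.mem_preimage, ← Finset.sum_subset Finset.subset_union_left fun E h3 h4 =>
    he E fun h5 => h4 (hk E ((Finset.mem_union.1 h3).resolve_left h4) h5)] at h2
  exact h2

lemma lsc {X : Type} [MeasurableSpace X] {ν : Measure X} {u : ℕ → Lp ℂ 2 ν} {v : Lp ℂ 2 ν}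
    (h : Tendsto u atTop (𝓝 v)) {p : ℝ} (hp : 0 < p) :
    eLpNorm v (ENNReal.ofReal p) ν ^ p
      ≤ liminf (fun k => eLpNorm (u k) (ENNReal.ofReal p) ν ^ p) atTop := by
  refine le_of_forall_gt_imp_ge_of_dense fun c hc => ?_
  obtain ⟨φ, hφ, h1⟩ := extraction_of_frequently_atTop (frequently_lt_of_liminf_lt (h := hc))
  have h2 := eLpNorm_le_of_tendstoInMeasure (p := ENNReal.ofReal p) (C := c ^ p⁻¹)
    (Eventually.of_forall fun k => (ENNReal.le_rpow_inv_iff hp).2 (h1 k).le)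
    (tendstoInMeasure_of_tendsto_Lp (h.comp hφ.tendsto_atTop)) fun k => Lp.aestronglyMeasurable _
  exact (ENNReal.le_rpow_inv_iff hp).1 h2

end LFin2

variable {G : Type} [Group G] [TopologicalSpace G] [IsTopologicalGroup G] [CompactSpace G]
  [T2Space G] [SecondCountableTopology G] [MeasurableSpace G] [BorelSpace G] {n : ℕ}
  {ρ : G →* Mat n} {t : Submodule ℝ (Mat n)} {B : LinearMap.BilinForm ℝ (Mat n)} {d r : ℕ}
  {b : Fin d → Mat n} (μ : Measure G) [Hr μ]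

namespace LFin2

lemma proj_mem (E : ℝ) (f : Lp ℂ 2 μ) : proj μ ρ b E f ∈ eigSp μ ρ b E := by
  have : CompleteSpace (eigSp μ ρ b E) :=
    (Submodule.isClosed_topologicalClosure _).completeSpace_coe
  exact Submodule.starProjection_apply_mem _ _

lemma hasSum_flow {H : HW μ r} {θ ℓ : Fin r → ℝ} (h : FIN1 ρ μ b H θ ℓ) (s : ℝ) (f : Lp ℂ 2 μ) :
    HasSum (fun E : ℝ => Complex.exp (-(I * ((s * E : ℝ) : ℂ))) • proj μ ρ b E f)
      (flow μ ρ b s f) := by
  have hO := OrthogonalFamily.of_pairwise (V := eigSp μ ρ b) fun E E' hE => h.orth E E' hE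
  have h1 := (hO.summable_iff_norm_sq_summable fun E => ⟨_, proj_mem μ E f⟩).1 (h.sum f).summable
  have h2 := (hO.summable_iff_norm_sq_summable fun E =>
    ⟨Complex.exp (-(I * ((s * E : ℝ) : ℂ))) • proj μ ρ b E f,
      Submodule.smul_mem _ _ (proj_mem μ E f)⟩).2 (h1.congr fun E => by
        have h3 : ‖Complex.exp (-(I * ((s * E : ℝ) : ℂ)))‖ = 1 := by
          rw [Complex.norm_exp]
          simp
        simp only [Submodule.coe_norm, norm_smul, h3, one_mul])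
  exact h2.hasSum

lemma elp_eq {p : ℝ} (hp : 0 < p) (f : C(G, ℂ)) :
    eLpNorm (ContinuousMap.toLp 2 μ ℂ f) (ENNReal.ofReal p) μ ^ p
      = ∫⁻ x, ENNReal.ofReal (‖f x‖ ^ p) ∂μ := by
  rw [eLpNorm_congr_ae (ContinuousMap.coeFn_toLp μ f), eLpNorm_eq_lintegral_rpow_enorm_toReal
    (by simpa using hp) ENNReal.ofReal_ne_top, ENNReal.toReal_ofReal hp.le, one_div,
    ENNReal.rpow_inv_rpow hp.ne']
  refine lintegral_congr fun x => ?_
  rw [← ofReal_norm, ENNReal.ofReal_rpow_of_nonneg (norm_nonneg _) hp.le]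

lemma fin_est {H : HW μ r} {θ ℓ : Fin r → ℝ} {p T s C C' : ℝ} (hP : PROJ μ H)
    (h0 : ∀ l ∈ H.Λ, 0 ≤ En θ ℓ l) (hC' : 0 < C')
    (hlow : ∀ l ∈ H.Λ, (1 + ‖l‖) ^ 2 ≤ C' * (1 + En θ ℓ l)) (hp : 0 < p) (hs : 0 ≤ s) (hC : 0 < C)
    (hT : ∀ (S : Finset (Fin r → ℤ)) (f : (Fin r → ℤ) → C(G, ℂ)),
      (∀ l ∈ S, l ∈ H.Λ) → (∀ l ∈ S, f l ∈ span2 (H.φ l)) →
        ∫ z, ‖ev S (En θ ℓ) f z‖ ^ p ∂(stm μ T)
          ≤ C * (∑ l ∈ S, (1 + ‖l‖) ^ (2 * s) * n2 μ (f l)) ^ (p / 2))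
    (f : Lp ℂ 2 μ) (S : ℝ → Finset (Fin r → ℤ)) (g : ℝ → (Fin r → ℤ) → C(G, ℂ))
    (h1 : ∀ E, ∀ l ∈ S E, l ∈ H.Λ ∧ En θ ℓ l = E ∧ g E l ∈ span2 (H.φ l))
    (h2 : ∀ E, proj μ ρ b E f = ContinuousMap.toLp 2 μ ℂ (∑ l ∈ S E, g E l)) (F : Finset ℝ) :
    ∃ W : ℝ → ℝ≥0∞, Measurable W ∧ (∀ τ : ℝ, eLpNorm
      (∑ E ∈ F, Complex.exp (-(I * ((τ * E : ℝ) : ℂ))) • proj μ ρ b E f : Lp ℂ 2 μ)
        (ENNReal.ofReal p) μ ^ p = W τ) ∧ ∫⁻ τ in Set.Icc (-T) T, W τ ≤
          ENNReal.ofReal C * (ENNReal.ofReal (C' ^ s) * hsSq μ ρ b s f) ^ (p / 2) := by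
  classical
  have hd : (F : Set ℝ).PairwiseDisjoint S := fun E _ E' _ hE =>
    Finset.disjoint_left.2 fun l h3 h4 => hE ((h1 E l h3).2.1.symm.trans (h1 E' l h4).2.1)
  let w : ℝ × G → ℝ := fun z => ‖ev (F.biUnion S) (En θ ℓ) (fun l => g (En θ ℓ l) l) z‖ ^ p
  have hw : Continuous w := (continuous_ev _ _ _).norm.rpow_const fun _ => Or.inr hp.le
  have hm : Measurable fun z => ENNReal.ofReal (w z) := hw.measurable.ennreal_ofReal
  refine ⟨fun τ => ∫⁻ x, ENNReal.ofReal (w (τ, x)) ∂μ, hm.lintegral_prod_right', fun τ => ?_, ?_⟩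
  · have h3 : (∑ E ∈ F, Complex.exp (-(I * ((τ * E : ℝ) : ℂ))) • proj μ ρ b E f : Lp ℂ 2 μ) =
        ContinuousMap.toLp 2 μ ℂ (∑ l ∈ F.biUnion S,
          Complex.exp (-(I * ((τ * En θ ℓ l : ℝ) : ℂ))) • g (En θ ℓ l) l) := by
      rw [Finset.sum_biUnion hd, map_sum]
      refine Finset.sum_congr rfl fun E _ => ?_
      rw [h2, ← map_smul, Finset.smul_sum]
      congr 1
      exact Finset.sum_congr rfl fun l hl => by rw [(h1 E l hl).2.1]
    rw [h3, elp_eq μ hp]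
    refine lintegral_congr fun x => ?_
    simp only [w, ev, ContinuousMap.coe_sum, Finset.sum_apply, ContinuousMap.smul_apply,
      smul_eq_mul]
  · rw [← lintegral_prod _ hm.aemeasurable]
    change ∫⁻ z, ENNReal.ofReal (w z) ∂(stm μ T) ≤ _
    rw [← ofReal_integral_eq_lintegral_ofReal (integrable_stm μ T hw)
      (Eventually.of_forall fun z => Real.rpow_nonneg (norm_nonneg _) _)]
    have hn : ∀ h : C(G, ℂ), 0 ≤ n2 μ h := fun h => by
      rw [n2_eq_norm_sq]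
      positivity
    have h3 := hT (F.biUnion S) (fun l => g (En θ ℓ l) l)
      (fun l hl => by
        obtain ⟨E, -, hE⟩ := Finset.mem_biUnion.1 hl
        exact (h1 E l hE).1)
      (fun l hl => by
        obtain ⟨E, -, hE⟩ := Finset.mem_biUnion.1 hl
        rw [(h1 E l hE).2.1]
        exact (h1 E l hE).2.2)
    refine (ENNReal.ofReal_le_ofReal h3).trans ?_
    rw [ENNReal.ofReal_mul hC.le, ← ENNReal.ofReal_rpow_of_nonneg
      (Finset.sum_nonneg fun l _ => mul_nonneg (by positivity) (hn _)) (by positivity)]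
    refine mul_le_mul_right (ENNReal.rpow_le_rpow ?_ (by positivity)) _
    rw [Finset.sum_biUnion hd, ENNReal.ofReal_sum_of_nonneg fun E _ =>
      Finset.sum_nonneg fun l _ => mul_nonneg (by positivity) (hn _)]
    refine le_trans ?_ (mul_le_mul_right (ENNReal.sum_le_tsum F) _)
    rw [Finset.mul_sum]
    refine Finset.sum_le_sum fun E _ => ?_
    have h4 : ‖proj μ ρ b E f‖ ^ 2 = ∑ l ∈ S E, n2 μ (g E l) := by
      rw [h2, map_sum, norm_sq_sum]
      · exact Finset.sum_congr rfl fun l _ => (n2_eq_norm_sq μ _).symm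
      · intro i hi j hj hij
        rw [← ip_eq_inner]
        exact hP.orthW j (h1 E j hj).1 i (h1 E i hi).1 hij.symm _ (h1 E j hj).2.2 _
          (h1 E i hi).2.2
    have h5 : ∑ l ∈ S E, (1 + ‖l‖) ^ (2 * s) * n2 μ (g (En θ ℓ l) l)
        ≤ C' ^ s * ((1 + E) ^ s * ‖proj μ ρ b E f‖ ^ 2) := by
      rw [h4, Finset.mul_sum, Finset.mul_sum]
      refine Finset.sum_le_sum fun l hl => ?_
      obtain ⟨h6, h7, -⟩ := h1 E l hl
      have h8 := h0 l h6
      have h9 := hlow l h6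
      rw [h7] at h8 h9 ⊢
      rw [← mul_assoc, ← Real.mul_rpow hC'.le (by positivity), Real.rpow_mul (by positivity),
        Real.rpow_two]
      exact mul_le_mul_of_nonneg_right (Real.rpow_le_rpow (by positivity) h9 hs) (hn _)
    refine (ENNReal.ofReal_le_ofReal h5).trans ?_
    rw [ENNReal.ofReal_mul (by positivity), ENNReal.ofReal_mul' (by positivity),
      ENNReal.ofReal_pow (norm_nonneg _), ofReal_norm]

end LFin2

theorem fin2_ok (H : HW μ r) (θ ℓ : Fin r → ℝ) (a₀ a₁ p T : ℝ) : PROJ μ H → Spec ρ b H θ ℓ →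
    FIN1 ρ μ b H θ ℓ → 1 ≤ p → 0 ≤ (d : ℝ) / 2 - (d + 2) / p →
    Set.Icc a₀ a₁ ⊆ Set.Icc (-T) T → TEst μ H θ ℓ d p T → Strichartz μ ρ b a₀ a₁ p := by
  rintro hP hS hF hp1 hs hI ⟨C, hC, hT⟩
  have hp : 0 < p := by linarith
  obtain ⟨C', hC', hlow⟩ := hS.low
  set s : ℝ := (d : ℝ) / 2 - (d + 2) / p
  have hK : ENNReal.ofReal C ^ (1 / p) * ENNReal.ofReal (C' ^ s) ^ (1 / 2 : ℝ) ≠ ⊤ :=
    ENNReal.mul_ne_top (ENNReal.rpow_ne_top_of_nonneg (by positivity) ENNReal.ofReal_ne_top)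
      (ENNReal.rpow_ne_top_of_nonneg (by positivity) ENNReal.ofReal_ne_top)
  refine ⟨(ENNReal.ofReal C ^ (1 / p) * ENNReal.ofReal (C' ^ s) ^ (1 / 2 : ℝ)).toNNReal,
    fun f => ?_⟩
  choose S g h1 h2 using fun E => hF.rep E f
  obtain ⟨e, he⟩ := exists_surjective_nat (Fin r → ℤ)
  choose W hW1 hW2 hW3 using fun k : ℕ => LFin2.fin_est μ hP hS.nonneg hC' hlow hp hs hC hT f S g
    h1 h2 ((Finset.range k).image fun j => En θ ℓ (e j))
  have h3 : ∀ τ : ℝ, eLpNorm (flow μ ρ b τ f) (ENNReal.ofReal p) μ ^ p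
      ≤ liminf (fun k => W k τ) atTop := fun τ => by
    have h4 := LFin2.lsc (LFin2.tendsto_image (LFin2.hasSum_flow μ hF τ f)
      (fun j => En θ ℓ (e j)) fun E hE => by
        have h5 : S E = ∅ := Finset.eq_empty_of_forall_notMem fun l hl => by
          obtain ⟨j, rfl⟩ := he l
          exact hE ⟨j, (h1 E _ hl).2.1⟩
        rw [h2, h5, Finset.sum_empty, map_zero, smul_zero]) hp
    simpa only [hW2] using h4
  have h4 : ∫⁻ τ in Set.Icc a₀ a₁, eLpNorm (flow μ ρ b τ f) (ENNReal.ofReal p) μ ^ p ≤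
      ENNReal.ofReal C * (ENNReal.ofReal (C' ^ s) * hsSq μ ρ b s f) ^ (p / 2) := by
    refine (lintegral_mono_set hI).trans ((lintegral_mono h3).trans
      ((lintegral_liminf_le hW1).trans ?_))
    exact liminf_le_of_frequently_le' (Frequently.of_forall hW3)
  refine (ENNReal.rpow_le_rpow h4 (by positivity)).trans (le_of_eq ?_)
  rw [ENNReal.coe_toNNReal hK, ENNReal.mul_rpow_of_nonneg _ _ (by positivity), ← ENNReal.rpow_mul,
    show p / 2 * (1 / p) = 1 / 2 by field_simp, ENNReal.mul_rpow_of_nonneg _ _ (by positivity),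
    mul_assoc]

end Pool.Agent.P.MP_7211b7_an
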