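import Pool.Agent.P.MP_7211b7_an.DefsL

/-!
# MP_7211b7_an: integrality of sl2 weights and rational Gram-Schmidt
-/

namespace Pool.Agent.P.MP_7211b7_an

namespace LGs

section Sl

variable {V : Type} [AddCommGroup V] [Module ℂ V]

/-- a ladder of eigenvectors in a finite dimensional space ends -/
theorem ladder (T h : Module.End ℂ V) (W : Submodule ℂ V) (hW : FiniteDimensional ℂ W)
    (hT : ∀ u ∈ W, T u ∈ W) (c : ℂ) (hc : c ≠ 0) (hh : h * T - T * h = c • T) (v : V) (m : ℂ)
    (hv : v ∈ W) (hv0 : v ≠ 0) (hm : h v = m • v) :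
    (∀ k : ℕ, h ((T ^ k) v) = (m + k * c) • (T ^ k) v) ∧
      ∃ k : ℕ, (T ^ k) v ∈ W ∧ (T ^ k) v ≠ 0 ∧ (T ^ (k + 1)) v = 0 := by
  have hcomm : ∀ u, h (T u) = T (h u) + c • T u := fun u => by
    have := congrArg (fun S : Module.End ℂ V => S u) hh
    simp only [LinearMap.sub_apply, Module.End.mul_apply, LinearMap.smul_apply] at this
    rw [← this]; abel
  have hstep : ∀ k : ℕ, (T ^ (k + 1)) v = T ((T ^ k) v) := fun k => by
    rw [pow_succ', Module.End.mul_apply]
  have heig : ∀ k : ℕ, h ((T ^ k) v) = (m + k * c) • (T ^ k) v := by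
    intro k
    induction k with
    | zero => simpa using hm
    | succ k ih =>
      rw [hstep, hcomm, ih, map_smul, ← add_smul]
      congr 1
      push_cast; ring
  have hmem : ∀ k : ℕ, (T ^ k) v ∈ W := by
    intro k
    induction k with
    | zero => simpa using hv
    | succ k ih => rw [hstep]; exact hT _ ih
  refine ⟨heig, ?_⟩
  have hex : ∃ k : ℕ, (T ^ k) v = 0 := by
    by_contra hne
    push Not at hne
    have hinj : Function.Injective (fun k : ℕ => m + k * c) := by
      intro a b hab
      have h1 : (a : ℂ) * c = b * c := add_left_cancel hab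
      exact_mod_cast mul_right_cancel₀ hc h1
    have hli := Module.End.eigenvectors_linearIndependent' h _ hinj (fun k : ℕ => (T ^ k) v)
      (fun k => ⟨Module.End.mem_eigenspace_iff.2 (heig k), hne k⟩)
    have hli' : LinearIndependent ℂ (fun k : ℕ => (⟨(T ^ k) v, hmem k⟩ : W)) :=
      LinearIndependent.of_comp W.subtype hli
    exact Module.Finite.not_linearIndependent_of_infinite _ hli'
  classical
  have h0 : Nat.find hex ≠ 0 := by
    intro h0
    have := Nat.find_spec hex
    rw [h0] at this
    exact hv0 (by simpa using this)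
  obtain ⟨k, hk⟩ := Nat.exists_eq_succ_of_ne_zero h0
  refine ⟨k, hmem k, Nat.find_min hex (by omega), ?_⟩
  have := Nat.find_spec hex
  rwa [hk] at this

end Sl

section Gs

variable {V : Type} [AddCommGroup V] [Module ℝ V]

theorem gs_aux (B : LinearMap.BilinForm ℝ V) (t : Submodule ℝ V)
    (hsymm : ∀ u ∈ t, ∀ v ∈ t, B u v = B v u) (hpos : ∀ u ∈ t, u ≠ 0 → 0 < B u u) {J : Type}
    (s : Finset J) : ∀ y : J → V, (∀ j ∈ s, y j ∈ t) →
      (∀ i ∈ s, ∀ j ∈ s, ∃ q : ℚ, B (y i) (y j) = q * B (y j) (y j)) →
      ∃ C : Finset V, (∀ c ∈ C, c ∈ Submodule.span ℤ (y '' s)) ∧ (∀ c ∈ C, c ≠ 0) ∧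
        (∀ c ∈ C, ∀ c' ∈ C, c ≠ c' → B c c' = 0) ∧
        Submodule.span ℝ (C : Set V) = Submodule.span ℝ (y '' s) := by
  classical
  induction s using Finset.induction_on with
  | empty => intro y _ _; exact ⟨∅, by simp, by simp, by simp, by simp⟩
  | insert a s ha ih =>
    intro y hy hR
    have hsub : y '' (s : Set J) ⊆ y '' (insert a s : Finset J) :=
      Set.image_mono (by simp)
    have hins : y '' (insert a s : Finset J) = insert (y a) (y '' (s : Set J)) := by
      rw [Finset.coe_insert, Set.image_insert_eq]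
    have hma : a ∈ insert a s := Finset.mem_insert_self a s
    have hms : ∀ j ∈ s, j ∈ insert a s := fun j hj => Finset.mem_insert_of_mem hj
    by_cases h0 : y a = 0
    · obtain ⟨C, h1, h2, h3, h4⟩ := ih y (fun j hj => hy j (hms j hj))
        (fun i hi j hj => hR i (hms i hi) j (hms j hj))
      refine ⟨C, fun c hc => Submodule.span_mono hsub (h1 c hc), h2, h3, ?_⟩
      rw [h4, hins, h0, Submodule.span_insert_zero]
    · have hq : ∀ j, ∃ q : ℚ, j ∈ s → B (y j) (y a) = q * B (y a) (y a) := by
        intro j
        by_cases hj : j ∈ s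
        · obtain ⟨q, hq⟩ := hR j (hms j hj) a hma
          exact ⟨q, fun _ => hq⟩
        · exact ⟨0, fun h => absurd h hj⟩
      choose q hq using hq
      have hden : ∀ j, ((q j).den : ℝ) ≠ 0 := fun j => by exact_mod_cast (q j).den_ne_zero
      have hnum : ∀ j, ((q j).num : ℝ) = (q j).den * (q j : ℝ) := fun j => by
        rw [Rat.cast_def]; field_simp [hden j]
      set y' : J → V := fun j => ((q j).den : ℝ) • y j - ((q j).num : ℝ) • y a with hy'
      have hya : y a ∈ t := hy a hma
      have hy't : ∀ j ∈ s, y' j ∈ t := fun j hj =>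
        t.sub_mem (t.smul_mem _ (hy j (hms j hj))) (t.smul_mem _ hya)
      have hperp : ∀ j ∈ s, B (y' j) (y a) = 0 := by
        intro j hj
        simp only [hy', map_sub, map_smul, LinearMap.sub_apply, LinearMap.smul_apply,
          smul_eq_mul, hq j hj, hnum]
        ring
      have hrat : ∀ i ∈ s, ∀ j ∈ s, ∃ ρ : ℚ, B (y' i) (y' j) = ρ * B (y j) (y j) := by
        intro i hi j hj
        obtain ⟨u, hu⟩ := hR i (hms i hi) j (hms j hj)
        obtain ⟨w, hw⟩ := hR a hma j (hms j hj)
        refine ⟨(q j).den * ((q i).den * u - (q i).num * w), ?_⟩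
        have e : B (y' i) (y' j) = (q j).den * B (y' i) (y j) - (q j).num * B (y' i) (y a) := by
          conv_lhs => rw [show y' j = ((q j).den : ℝ) • y j - ((q j).num : ℝ) • y a from rfl]
          simp only [map_sub, map_smul, smul_eq_mul]
        rw [e, hperp i hi]
        simp only [hy', map_sub, map_smul, LinearMap.sub_apply, LinearMap.smul_apply,
          smul_eq_mul, hu, hw]
        push_cast
        ring
      have hR' : ∀ i ∈ s, ∀ j ∈ s, ∃ ρ : ℚ, B (y' i) (y' j) = ρ * B (y' j) (y' j) := by
        intro i hi j hj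
        by_cases hj0 : y' j = 0
        · exact ⟨0, by simp [hj0]⟩
        · obtain ⟨u, hu⟩ := hrat i hi j hj
          obtain ⟨w, hw⟩ := hrat j hj j hj
          have hw0 : (w : ℝ) ≠ 0 := by
            intro hw0
            have := hpos _ (hy't j hj) hj0
            rw [hw, hw0, zero_mul] at this
            exact lt_irrefl _ this
          refine ⟨u / w, ?_⟩
          rw [hu, hw]
          push_cast
          field_simp
      obtain ⟨C, h1, h2, h3, h4⟩ := ih y' hy't hR'
      have hZ : Submodule.span ℤ (y' '' (s : Set J)) ≤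
          Submodule.span ℤ (y '' (insert a s : Finset J)) := by
        rw [Submodule.span_le]
        rintro _ ⟨j, hj, rfl⟩
        have e : y' j = ((q j).den : ℤ) • y j - (q j).num • y a := by
          simp only [hy', ← Int.cast_smul_eq_zsmul ℝ, Int.cast_natCast]
        rw [e]
        exact Submodule.sub_mem _
          (Submodule.smul_mem _ _ (Submodule.subset_span ⟨j, hms j hj, rfl⟩))
          (Submodule.smul_mem _ _ (Submodule.subset_span ⟨a, hma, rfl⟩))
      have hCs : ∀ c ∈ C, c ∈ Submodule.span ℝ (y' '' (s : Set J)) := fun c hc => by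
        rw [← h4]; exact Submodule.subset_span hc
      have hCt : ∀ c ∈ C, c ∈ t := fun c hc => by
        refine (Submodule.span_le.2 ?_) (hCs c hc)
        rintro _ ⟨j, hj, rfl⟩
        exact hy't j hj
      have hCperp : ∀ c ∈ C, B c (y a) = 0 := fun c hc => by
        have : Submodule.span ℝ (y' '' (s : Set J)) ≤ LinearMap.ker (B.flip (y a)) := by
          rw [Submodule.span_le]
          rintro _ ⟨j, hj, rfl⟩
          exact hperp j hj
        exact this (hCs c hc)
      refine ⟨insert (y a) C, ?_, ?_, ?_, ?_⟩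
      · intro c hc
        rcases Finset.mem_insert.1 hc with rfl | hc
        · exact Submodule.subset_span ⟨a, hma, rfl⟩
        · exact hZ (h1 c hc)
      · intro c hc
        rcases Finset.mem_insert.1 hc with rfl | hc
        · exact h0
        · exact h2 c hc
      · intro c hc c' hc' hne
        rcases Finset.mem_insert.1 hc with rfl | hc
        · rcases Finset.mem_insert.1 hc' with rfl | hc'
          · exact absurd rfl hne
          · rw [hsymm _ hya _ (hCt c' hc')]; exact hCperp c' hc'
        · rcases Finset.mem_insert.1 hc' with rfl | hc'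
          · exact hCperp c hc
          · exact h3 c hc c' hc' hne
      · rw [Finset.coe_insert, Submodule.span_insert, h4, hins, Submodule.span_insert]
        have hya1 : ∀ P : Submodule ℝ V, y a ∈ Submodule.span ℝ {y a} ⊔ P := fun P =>
          Submodule.mem_sup_left (Submodule.mem_span_singleton_self _)
        apply le_antisymm
        · refine sup_le le_sup_left (Submodule.span_le.2 ?_)
          rintro _ ⟨j, hj, rfl⟩
          exact Submodule.sub_mem _
            (Submodule.smul_mem _ _
              (Submodule.mem_sup_right (Submodule.subset_span ⟨j, hj, rfl⟩)))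
            (Submodule.smul_mem _ _ (hya1 _))
        · refine sup_le le_sup_left (Submodule.span_le.2 ?_)
          rintro _ ⟨j, hj, rfl⟩
          have e : y j = ((q j).den : ℝ)⁻¹ • (y' j + ((q j).num : ℝ) • y a) := by
            simp only [hy', sub_add_cancel, smul_smul, inv_mul_cancel₀ (hden j), one_smul]
          rw [e]
          exact Submodule.smul_mem _ _ (Submodule.add_mem _
            (Submodule.mem_sup_right (Submodule.subset_span ⟨j, hj, rfl⟩))
            (Submodule.smul_mem _ _ (hya1 _)))

end Gs

end LGs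

theorem sl2 : SL2 := by
  intro V _ _ e f h W v m hW he hf hhe hhf hef hv hv0 hm
  obtain ⟨h1, k, huW, hu0, heu⟩ := LGs.ladder e h W hW he 2 two_ne_zero hhe v m hv hv0 hm
  set u := (e ^ k) v with hu
  have heu' : e u = 0 := by rwa [pow_succ', Module.End.mul_apply] at heu
  set a : ℂ := m + k * 2 with ha
  have hhu : h u = a • u := h1 k
  obtain ⟨h2, j, -, hj0, hj1⟩ := LGs.ladder f h W hW hf (-2) (by norm_num)
    (by rw [hhf, neg_smul]) u a huW hu0 hhu
  have hcomm : ∀ w, e (f w) = f (e w) + h w := fun w => by
    have := congrArg (fun S : Module.End ℂ V => S w) hef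
    simp only [LinearMap.sub_apply, Module.End.mul_apply] at this
    rw [← this]; abel
  have hstep : ∀ i : ℕ, (f ^ (i + 1)) u = f ((f ^ i) u) := fun i => by
    rw [pow_succ', Module.End.mul_apply]
  have key : ∀ i : ℕ, e ((f ^ (i + 1)) u) = (((i : ℂ) + 1) * (a - i)) • (f ^ i) u := by
    intro i
    induction i with
    | zero => rw [hstep, hcomm]; simp [heu', hhu]
    | succ i ih =>
      rw [hstep (i + 1), hcomm, ih, map_smul, ← hstep, h2, ← add_smul]
      congr 1
      push_cast; ring
  have h3 := key j
  rw [hj1, map_zero] at h3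
  rcases smul_eq_zero.1 h3.symm with h4 | h4
  · rcases mul_eq_zero.1 h4 with h5 | h5
    · exact absurd h5 (Nat.cast_add_one_ne_zero j)
    · refine ⟨(j : ℤ) - 2 * k, ?_⟩
      push_cast
      linear_combination h5 - ha
  · exact absurd h4 hj0

theorem gs : GS := by
  intro V _ _ B t J _ y hsymm hpos hspan hR
  have hy : ∀ j, y j ∈ t := fun j => by
    rw [← hspan]; exact Submodule.subset_span ⟨j, rfl⟩
  obtain ⟨C, h1, h2, h3, h4⟩ := LGs.gs_aux B t hsymm hpos (Finset.univ : Finset J) y
    (fun j _ => hy j) (fun i _ j _ => hR i j)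
  rw [Finset.coe_univ, Set.image_univ] at h1 h4
  rw [hspan] at h4
  have hCt : ∀ c ∈ C, c ∈ t := fun c hc => by rw [← h4]; exact Submodule.subset_span hc
  have hli : LinearIndependent ℝ (fun c : C => (c : V)) :=
    LinearMap.BilinForm.linearIndependent_of_iIsOrtho (B := B)
      (LinearMap.BilinForm.iIsOrtho_def.2 fun i j hij =>
        h3 i i.2 j j.2 fun h => hij (Subtype.ext h))
      (fun i => (hpos _ (hCt i i.2) (h2 i i.2)).ne')
  have hcard : C.card = Module.finrank ℝ t := by
    rw [← h4]; exact (finrank_span_finset_eq_card hli).symm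
  let E := C.equivFinOfCardEq hcard
  refine ⟨fun i => (E.symm i : V), fun i => h1 _ (E.symm i).2, fun i => h2 _ (E.symm i).2,
    fun i j hij => h3 _ (E.symm i).2 _ (E.symm j).2
      fun h => hij (E.symm.injective (Subtype.ext h)), ?_⟩
  refine Eq.trans ?_ h4
  congr 1
  ext c
  constructor
  · rintro ⟨i, rfl⟩; exact (E.symm i).2
  · intro hc; exact ⟨E ⟨c, hc⟩, by simp⟩

end Pool.Agent.P.MP_7211b7_an
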