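import Pool.Agent.P.MP_7211b7_an.DefsL

open MeasureTheory ComplexConjugate Complex
open scoped ENNReal Matrix

set_option linter.unusedSectionVars false

namespace Pool.Agent.P.MP_7211b7_an

variable {G : Type} [Group G] [TopologicalSpace G] [IsTopologicalGroup G] [CompactSpace G]
  [T2Space G] [SecondCountableTopology G] [MeasurableSpace G] [BorelSpace G] {n : ℕ}
  {ρ : G →* Mat n} {t : Submodule ℝ (Mat n)} {B : LinearMap.BilinForm ℝ (Mat n)} {d r : ℕ}
  {b : Fin d → Mat n} (μ : Measure G) [Hr μ]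

namespace LLat

/-- normalised coroot -/
noncomputable def y (R : Roots ρ t) (i : Fin R.N) : Mat n := (2 / R.α i (R.H i)) • R.H i

theorem y_mem (R : Roots ρ t) (i : Fin R.N) : y R i ∈ t := t.smul_mem _ (R.H_mem i)

theorem α_y (R : Roots ρ t) (i : Fin R.N) : R.α i (y R i) = 2 := by
  have := (R.co_pos i).ne'
  unfold y
  rw [map_smul, smul_eq_mul]
  field_simp

theorem comm_star (R : Roots ρ t) (hL : LIE ρ) (ht : IsCartan ρ t) (i : Fin R.N) {Y : Mat n}
    (hY : Y ∈ t) : Y * (R.E i)ᴴ - (R.E i)ᴴ * Y = -((I * (R.α i Y : ℝ)) • (R.E i)ᴴ) := by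
  have h := congrArg Matrix.conjTranspose (R.comm i Y hY)
  rw [Matrix.conjTranspose_sub, Matrix.conjTranspose_mul, Matrix.conjTranspose_mul,
    hL.skew Y (ht.le hY), Matrix.conjTranspose_smul] at h
  rw [← neg_smul]
  convert h using 1
  · simp only [mul_neg, neg_mul]; abel
  · congr 1; simp

theorem triple (R : Roots ρ t) (hL : LIE ρ) (ht : IsCartan ρ t) (i : Fin R.N) :
    ∃ f ∈ gC ρ, ((-I) • y R i) * R.E i - R.E i * ((-I) • y R i) = (2 : ℂ) • R.E i ∧
      ((-I) • y R i) * f - f * ((-I) • y R i) = -((2 : ℂ) • f) ∧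
      R.E i * f - f * R.E i = (-I) • y R i := by
  refine ⟨((2 / R.α i (R.H i) : ℝ) : ℂ) • (R.E i)ᴴ,
    (gC ρ).smul_mem _ (hL.gC_star _ (R.E_mem i)), ?_, ?_, ?_⟩
  · rw [smul_mul_assoc, mul_smul_comm, ← smul_sub, R.comm i _ (y_mem R i), α_y, smul_smul]
    congr 1
    rw [← mul_assoc, neg_mul, I_mul_I]; simp
  · rw [smul_mul_assoc, mul_smul_comm, smul_mul_assoc, mul_smul_comm, smul_comm _ (-I),
      ← smul_sub, ← smul_sub, comm_star R hL ht i (y_mem R i), α_y, smul_neg, smul_neg, smul_smul,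
      smul_smul, smul_smul]
    congr 2
    have : -I * ((2 / R.α i (R.H i) : ℝ) : ℂ) * (I * ((2 : ℝ) : ℂ))
        = -(I * I) * 2 * ((2 / R.α i (R.H i) : ℝ) : ℂ) := by push_cast; ring
    rw [this, I_mul_I]; ring
  · rw [smul_mul_assoc, mul_smul_comm, ← smul_sub, R.co, smul_comm]
    unfold y
    rw [Complex.coe_smul]

theorem int_lam (K : Calc ρ) (R : Roots ρ t) (hS : SL2) (hL : LIE ρ) (hP : PF ρ)
    (ht : IsCartan ρ t) (hD : DER2 K) {lam : Mat n →ₗ[ℝ] ℝ} {φ : C(G, ℂ)} (h : IsPhi K R lam φ)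
    (i : Fin R.N) : ∃ z : ℤ, lam (y R i) = z := by
  obtain ⟨f, hf, h1, h2, h3⟩ := triple R hL ht i
  have hh : (-I) • y R i ∈ gC ρ := (gC ρ).smul_mem _ (mem_gC (ht.le (y_mem R i)))
  obtain ⟨W, w1, w2, w3, w4⟩ := hP.locfin φ h.mem
  have hW := hD.dR_mem W w3 (fun k => w4 1 k)
  obtain ⟨z, hz⟩ := hS _ (K.dR (R.E i)) (K.dR f) (K.dR ((-I) • y R i)) W φ (lam (y R i) : ℝ) w1
    (hW _ (R.E_mem i)) (hW _ hf) (by rw [← K.R_lie _ hh _ (R.E_mem i), h1, map_smul])
    (by rw [← K.R_lie _ hh _ hf, h2, map_neg, map_smul])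
    (by rw [← K.R_lie _ (R.E_mem i) _ hf, h3]) w2 h.ne_zero (by
      rw [map_smul, LinearMap.smul_apply, h.wtR _ (y_mem R i), smul_smul, ← mul_assoc, neg_mul,
        I_mul_I, neg_neg, one_mul])
  exact ⟨z, by exact_mod_cast hz⟩

/-- the adjoint action -/
noncomputable def ad (X : Mat n) : Module.End ℂ (Mat n) :=
  LinearMap.mulLeft ℂ X - LinearMap.mulRight ℂ X

theorem ad_apply (X Z : Mat n) : ad X Z = X * Z - Z * X := rfl

theorem ad_lie (X Y : Mat n) : ad X * ad Y - ad Y * ad X = ad (X * Y - Y * X) := by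
  refine LinearMap.ext fun Z => ?_
  simp only [LinearMap.sub_apply, Module.End.mul_apply, ad_apply]
  noncomm_ring

theorem ad_smul (c : ℂ) (X : Mat n) : ad (c • X) = c • ad X := by
  refine LinearMap.ext fun Z => ?_
  simp only [LinearMap.smul_apply, ad_apply, smul_mul_assoc, mul_smul_comm, smul_sub]

theorem int_α (R : Roots ρ t) (hS : SL2) (hL : LIE ρ) (ht : IsCartan ρ t) (i j : Fin R.N) :
    ∃ z : ℤ, R.α j (y R i) = z := by
  obtain ⟨f, -, h1, h2, h3⟩ := triple R hL ht i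
  obtain ⟨z, hz⟩ := hS _ (ad (R.E i)) (ad f) (ad ((-I) • y R i)) ⊤ (R.E j) (R.α j (y R i) : ℝ)
    inferInstance (fun _ _ => trivial) (fun _ _ => trivial) (by rw [ad_lie, h1, ad_smul])
    (by rw [ad_lie, h2, ← neg_smul, ad_smul]; exact neg_smul (2 : ℂ) (ad f)) (by rw [ad_lie, h3]) trivial (R.E_ne j) (by
      rw [ad_smul, LinearMap.smul_apply, ad_apply, R.comm j _ (y_mem R i), smul_smul, ← mul_assoc,
        neg_mul, I_mul_I, neg_neg, one_mul])
  exact ⟨z, by exact_mod_cast hz⟩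

theorem e_mem {m : ℕ} {e : Fin m → Mat n} (ht : IsCartan ρ t) (he : IsRect ρ B e) (k : Fin m) :
    e k ∈ t :=
  ht.max _ (he.mem k) fun Y hY => he.central k Y (ht.le hY)

theorem α_e {m : ℕ} {e : Fin m → Mat n} (R : Roots ρ t) (hL : LIE ρ) (ht : IsCartan ρ t)
    (he : IsRect ρ B e) (i : Fin R.N) (k : Fin m) : R.α i (e k) = 0 := by
  obtain ⟨X, hX, Y, hY, h⟩ := hL.gC_decomp _ (R.E_mem i)
  have h1 := R.comm i _ (e_mem ht he k)
  have h2 : e k * R.E i - R.E i * e k = 0 := by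
    rw [h, mul_add, add_mul, mul_smul_comm, smul_mul_assoc, he.central k X hX, he.central k Y hY,
      sub_self]
  rw [h2, eq_comm, smul_eq_zero] at h1
  simpa using h1.resolve_right (R.E_ne i)

theorem int_e {m : ℕ} {e : Fin m → Mat n} (K : Calc ρ) (R : Roots ρ t) (hρ : IsRep ρ)
    (hL : LIE ρ) (ht : IsCartan ρ t) (he : IsRect ρ B e) (hD : DER2 K) {lam : Mat n →ₗ[ℝ] ℝ}
    {φ : C(G, ℂ)} (h : IsPhi K R lam φ) (k : Fin m) : ∃ z : ℤ, lam (e k) = z := by
  have hX : (2 * Real.pi) • e k ∈ t := t.smul_mem _ (e_mem ht he k)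
  have h1 : expG ρ ((2 * Real.pi) • e k) = 1 :=
    hρ.inj (by rw [hL.rho_exp _ (ht.le hX), he.period k, map_one])
  have h2 := hD.expR _ (ht.le hX) φ h.mem _ (h.wtR _ hX) 1
  rw [h1, mul_one, h.one, mul_one, eq_comm, Complex.exp_eq_one_iff] at h2
  obtain ⟨z, hz⟩ := h2
  refine ⟨z, ?_⟩
  rw [map_smul, smul_eq_mul] at hz
  push_cast at hz
  have hne : (2 * (Real.pi : ℂ) * I) ≠ 0 := by simp [Real.pi_ne_zero]
  have : ((lam (e k) : ℝ) : ℂ) = z := mul_right_cancel₀ hne (by rw [← hz]; ring)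
  exact_mod_cast this

theorem B_H (R : Roots ρ t) (hL : LIE ρ) (hA : AdInv ρ B) (ht : IsCartan ρ t) (i : Fin R.N) :
    ∃ β : ℝ, ∀ Y ∈ t, B Y (R.H i) = R.α i Y * β := by
  obtain ⟨X, hX, Z, hZ, h⟩ := hL.gC_decomp _ (R.E_mem i)
  have hs : (R.E i)ᴴ = -X + I • Z := by
    rw [h, Matrix.conjTranspose_add, Matrix.conjTranspose_smul, hL.skew X hX, hL.skew Z hZ]
    simp
  have hH : R.H i = (-2 : ℝ) • (X * Z - Z * X) := by
    have h1 := R.co i
    rw [hs, h] at h1
    have h2 : (X + I • Z) * (-X + I • Z) - (-X + I • Z) * (X + I • Z)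
        = (-I) • ((-2 : ℝ) • (X * Z - Z * X)) := by
      simp only [mul_add, add_mul, mul_smul_comm, smul_mul_assoc, mul_neg, neg_mul, smul_add,
        smul_neg]
      module
    rw [h2] at h1
    exact (smul_right_injective _ (by simp) h1).symm
  refine ⟨2 * B Z Z, fun Y hY => ?_⟩
  have h1 := R.comm i Y hY
  have h2 := comm_star R hL ht i hY
  rw [hs] at h2
  rw [h] at h1
  have h3 : X * Y - Y * X = (R.α i Y) • Z := by
    have h4 : (2 : ℂ) • (X * Y - Y * X) = (Y * (-X + I • Z) - (-X + I • Z) * Y)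
        - (Y * (X + I • Z) - (X + I • Z) * Y) := by
      simp only [mul_add, add_mul, mul_smul_comm, smul_mul_assoc, mul_neg, neg_mul]
      module
    rw [h1, h2] at h4
    refine smul_right_injective _ (two_ne_zero (α := ℂ)) ?_
    simp only
    rw [h4, ← Complex.coe_smul]
    have h5 : ((R.α i Y : ℝ) : ℂ) = -(I * (R.α i Y : ℝ) * I) := by
      rw [mul_right_comm, I_mul_I]; ring
    nth_rewrite 3 [h5]
    module
  have h6 := hA X hX Y (ht.le hY) Z hZ
  rw [h3, map_smul, LinearMap.smul_apply, smul_eq_mul] at h6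
  rw [hH, map_smul, smul_eq_mul]
  linarith

theorem B_y (R : Roots ρ t) (hL : LIE ρ) (hA : AdInv ρ B) (ht : IsCartan ρ t) (i : Fin R.N)
    {Y : Mat n} (hY : Y ∈ t) : B Y (y R i) = R.α i Y / 2 * B (y R i) (y R i) := by
  obtain ⟨β, h⟩ := B_H R hL hA ht i
  have e : ∀ Y ∈ t, B Y (y R i) = 2 / R.α i (R.H i) * (R.α i Y * β) := fun Y hY => by
    conv_lhs => unfold y
    rw [map_smul, smul_eq_mul, h Y hY]
  rw [e Y hY, e _ (y_mem R i), α_y]
  ring

theorem exists_proj (hB : IsMetric ρ B) {S : Submodule ℝ (Mat n)} (hS : S ≤ lieAlg ρ)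
    (Y : Mat n) : ∃ Y' ∈ S, ∀ s ∈ S, B (Y - Y') s = 0 := by
  have hi : Function.Injective (B.restrict S) := by
    rw [injective_iff_map_eq_zero]
    intro s hs
    by_contra h0
    have h1 := hB.pos s (hS s.2) fun h => h0 (Subtype.ext h)
    have h2 : B s s = 0 := congrArg (fun g : S →ₗ[ℝ] ℝ => g s) hs
    exact h1.ne' h2
  have hsj := (LinearMap.injective_iff_surjective_of_finrank_eq_finrank
    (Subspace.dual_finrank_eq (K := ℝ) (V := S)).symm).1 hi
  obtain ⟨Y', h⟩ := hsj ((B Y).domRestrict S)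
  refine ⟨Y', Y'.2, fun s hs => ?_⟩
  have h2 : B Y' s = B Y s := congrArg (fun g : S →ₗ[ℝ] ℝ => g ⟨s, hs⟩) h
  rw [map_sub, LinearMap.sub_apply, h2, sub_self]

theorem span_eq {m : ℕ} {e : Fin m → Mat n} (R : Roots ρ t) (hL : LIE ρ) (hB : IsMetric ρ B)
    (hA : AdInv ρ B) (ht : IsCartan ρ t) (he : IsRect ρ B e) :
    Submodule.span ℝ (Set.range (Sum.elim (y R) e)) = t := by
  have hS : Submodule.span ℝ (Set.range (y R)) ≤ t :=
    Submodule.span_le.2 (by rintro _ ⟨i, rfl⟩; exact y_mem R i)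
  rw [Set.Sum.elim_range, Submodule.span_union]
  refine le_antisymm (sup_le hS (Submodule.span_le.2 ?_)) fun Y hY => ?_
  · rintro _ ⟨k, rfl⟩; exact e_mem ht he k
  obtain ⟨Y', h1, h2⟩ := exists_proj hB (hS.trans ht.le) Y
  have h3 : Y - Y' ∈ t := t.sub_mem hY (hS h1)
  have h4 : ∀ i, R.α i (Y - Y') = 0 := by
    intro i
    have a1 := h2 _ (Submodule.subset_span ⟨i, rfl⟩)
    have a2 := hB.pos _ (ht.le (y_mem R i)) fun h => by
      have := α_y R i
      rw [h, map_zero] at this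
      norm_num at this
    rw [B_y R hL hA ht i h3] at a1
    have := (mul_eq_zero.1 a1).resolve_right a2.ne'
    linarith
  have h5 : Y - Y' ∈ Submodule.span ℝ (Set.range e) := by
    refine he.span _ (ht.le h3) fun X hX => ?_
    have hX' := R.span X (mem_gC hX)
    clear hX
    induction hX' using Submodule.span_induction with
    | mem x hx =>
      rcases hx with (hx | ⟨i, rfl⟩) | ⟨i, rfl⟩
      · exact ht.comm _ h3 _ hx
      · have := R.comm i _ h3
        rw [h4] at this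
        exact sub_eq_zero.1 (by simpa using this)
      · have := comm_star R hL ht i h3
        rw [h4] at this
        exact sub_eq_zero.1 (by simpa using this)
    | zero => simp
    | add x z _ _ hx hz => rw [mul_add, add_mul, hx, hz]
    | smul a x _ hx => rw [mul_smul_comm, smul_mul_assoc, hx]
  have := Submodule.add_mem_sup h1 h5
  rwa [add_sub_cancel] at this

end LLat

open LLat

theorem lat_ok {m : ℕ} {e : Fin m → Mat n} (K : Calc ρ) (R : Roots ρ t) :
    SL2 → GS → IsRep ρ → LIE ρ → PF ρ → IsMetric ρ B → AdInv ρ B → IsCartan ρ t → IsRect ρ B e →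
      DER2 K → Nonempty (Lat K R B (Module.finrank ℝ t)) := by
  intro hS hG hρ hL hP hB hA ht he hD
  obtain ⟨c, c1, c2, c3, c4⟩ := hG _ B t (Fin R.N ⊕ Fin m) (Sum.elim (y R) e)
    (fun u hu v hv => hB.symm u (ht.le hu) v (ht.le hv)) (fun u hu => hB.pos u (ht.le hu))
    (span_eq R hL hB hA ht he) (by
      rintro (i | i) (j | j)
      · obtain ⟨z, hz⟩ := int_α R hS hL ht i j
        refine ⟨z / 2, ?_⟩
        simp only [Sum.elim_inl]
        rw [B_y R hL hA ht j (y_mem R i), hz]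
        push_cast; rfl
      · refine ⟨0, ?_⟩
        simp only [Sum.elim_inl, Sum.elim_inr]
        rw [hB.symm _ (ht.le (y_mem R i)) _ (he.mem j), B_y R hL hA ht i (e_mem ht he j),
          α_e R hL ht he]
        simp
      · refine ⟨0, ?_⟩
        simp only [Sum.elim_inl, Sum.elim_inr]
        rw [B_y R hL hA ht j (e_mem ht he i), α_e R hL ht he]
        simp
      · by_cases h : i = j
        · exact ⟨1, by simp [h]⟩
        · exact ⟨0, by simpa using he.orth i j h⟩)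
  have hli : LinearIndependent ℝ c := by
    rw [linearIndependent_iff_card_eq_finrank_span, Set.finrank, c4, Fintype.card_fin]
  obtain ⟨g, hg⟩ := (Fintype.linearCombination ℝ c).exists_leftInverse_of_injective
    (LinearMap.ker_eq_bot.2 hli.fintypeLinearCombination_injective)
  have hg' : ∀ v, g (Fintype.linearCombination ℝ c v) = v := fun v => LinearMap.congr_fun hg v
  refine ⟨⟨c, g, fun i => ?_, c2, fun Y hY => ?_, fun i => ?_, c3, fun lam φ h i => ?_⟩⟩
  · have : c i ∈ Submodule.span ℝ (Set.range c) := Submodule.subset_span ⟨i, rfl⟩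
    rwa [c4] at this
  · have : Y ∈ Submodule.span ℝ (Set.range c) := by rw [c4]; exact hY
    rw [← Fintype.range_linearCombination] at this
    obtain ⟨v, rfl⟩ := this
    rw [hg', Fintype.linearCombination_apply]
  · rw [← hg' (Pi.single i 1), Fintype.linearCombination_apply_single, one_smul]
  · have hc := c1 i
    generalize c i = x at hc
    induction hc using Submodule.span_induction with
    | mem x hx =>
      rcases hx with ⟨j | j, rfl⟩
      · exact int_lam K R hS hL hP ht hD h j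
      · exact int_e K R hρ hL ht he hD h j
    | zero => exact ⟨0, by simp⟩
    | add x z _ _ hx hz =>
      obtain ⟨a, ha⟩ := hx
      obtain ⟨a', ha'⟩ := hz
      exact ⟨a + a', by rw [map_add, ha, ha']; push_cast; rfl⟩
    | smul a x _ hx =>
      obtain ⟨a', ha'⟩ := hx
      exact ⟨a * a', by rw [map_zsmul, ha']; simp⟩

end Pool.Agent.P.MP_7211b7_an
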