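import Pool.Agent.P.MP_7211b7_an.DefsL
import Pool.Agent.P.MP_7895ba_al.Adjoint

/-!
# MP_7211b7_an, task L-LIE: the closed subgroup theorem for the image of `ρ`
-/

open MeasureTheory ComplexConjugate Complex Filter Topology
open scoped ENNReal Matrix Matrix.Norms.Operator

set_option linter.unusedSectionVars false

namespace Pool.Agent.P.MP_7211b7_an

open Pool.Agent.P.MP_7895ba_al

variable {G : Type} [Group G] [TopologicalSpace G] [IsTopologicalGroup G] [CompactSpace G]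
  [T2Space G] [SecondCountableTopology G] [MeasurableSpace G] [BorelSpace G] {n : ℕ}
  {ρ : G →* Mat n} {B : LinearMap.BilinForm ℝ (Mat n)}

namespace LLie

theorem cont_units (hρ : IsRep ρ) : Continuous ρ.toHomUnits :=
  Units.continuous_iff.mpr ⟨hρ.cont, hρ.cont.comp continuous_inv⟩

theorem closed_range (hρ : IsRep ρ) : IsClosed (ρ.toHomUnits.range : Set (Mat n)ˣ) := by
  rw [MonoidHom.coe_range]
  exact (isCompact_range (cont_units hρ)).isClosed

theorem exp_mem_iff (X : Mat n) :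
    (unitsData (Mat n)).exp X ∈ ρ.toHomUnits.range ↔ NormedSpace.exp X ∈ Set.range ρ :=
  ⟨fun ⟨g, hg⟩ => ⟨g, congrArg Units.val hg⟩, fun ⟨g, hg⟩ => ⟨g, Units.ext hg⟩⟩

theorem lie_eq (hρ : IsRep ρ) :
    lieAlg ρ = (unitsData (Mat n)).lie ρ.toHomUnits.range (closed_range hρ) := by
  rw [← Submodule.span_eq ((unitsData (Mat n)).lie _ _), lieAlg]
  congr 1
  ext X
  exact forall_congr' fun s => (exp_mem_iff _).symm

theorem mem_iff (hρ : IsRep ρ) (X : Mat n) :
    X ∈ lieAlg ρ ↔ ∀ s : ℝ, NormedSpace.exp (s • X) ∈ Set.range ρ := by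
  rw [lie_eq hρ]
  exact forall_congr' fun s => exp_mem_iff _

theorem rho_exp (hρ : IsRep ρ) {X : Mat n} (hX : X ∈ lieAlg ρ) :
    ρ (expG ρ X) = NormedSpace.exp X :=
  Function.invFun_eq (by simpa using (mem_iff hρ X).mp hX 1)

theorem Ad_mem (hρ : IsRep ρ) (g : G) {X : Mat n} (hX : X ∈ lieAlg ρ) :
    ρ g * X * ρ g⁻¹ ∈ lieAlg ρ := by
  rw [mem_iff hρ] at hX ⊢
  intro s
  obtain ⟨h, hh⟩ := hX s
  refine ⟨g * h * g⁻¹, ?_⟩
  have := Matrix.exp_units_conj (ρ.toHomUnits g) (s • X)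
  rw [← map_inv] at this
  rw [map_mul, map_mul, hh, ← smul_mul_assoc, ← mul_smul_comm]
  exact this.symm

theorem conj_deriv (X Y : Mat n) :
    HasDerivAt (fun s : ℝ => NormedSpace.exp (s • X) * Y * NormedSpace.exp (s • -X))
      (X * Y - Y * X) 0 := by
  have := ((hasDerivAt_exp_smul_zero X).mul_const Y).mul (hasDerivAt_exp_smul_zero (-X))
  simp only [zero_smul, NormedSpace.exp_zero, mul_one, one_mul, mul_neg, ← sub_eq_add_neg] at this
  exact this

theorem exp_neg' (X : Mat n) : NormedSpace.exp X * NormedSpace.exp (-X) = 1 := exp_mul_exp_neg X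

theorem rho_exp_inv (hL : ∀ X ∈ lieAlg ρ, ρ (expG ρ X) = NormedSpace.exp X) {X : Mat n}
    (hX : X ∈ lieAlg ρ) (s : ℝ) : ρ (expG ρ (s • X))⁻¹ = NormedSpace.exp (s • -X) := by
  have h1 : ρ (expG ρ (s • X))⁻¹ * NormedSpace.exp (s • X) = 1 := by
    rw [← hL _ (Submodule.smul_mem _ s hX), ← map_mul, inv_mul_cancel, map_one]
  rw [← mul_one (ρ _), ← exp_neg' (s • X), ← mul_assoc, h1, one_mul, smul_neg]

theorem lie_mem (hρ : IsRep ρ) {X Y : Mat n} (hX : X ∈ lieAlg ρ) (hY : Y ∈ lieAlg ρ) :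
    X * Y - Y * X ∈ lieAlg ρ := by
  refine (lieAlg ρ).closed_of_finiteDimensional.mem_of_tendsto (conj_deriv X Y).tendsto_slope_zero
    (Eventually.of_forall fun s => Submodule.smul_mem _ _ (sub_mem ?_ (by simpa using hY)))
  have := Ad_mem hρ (expG ρ (s • X)) hY
  rw [rho_exp_inv (fun _ => rho_exp hρ) hX, rho_exp hρ (Submodule.smul_mem _ s hX)] at this
  simpa using this

theorem skew (hρ : IsRep ρ) {X : Mat n} (hX : X ∈ lieAlg ρ) : Xᴴ = -X := by
  suffices h : ∀ s : ℝ, NormedSpace.exp (s • Xᴴ) = NormedSpace.exp (s • -X) from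
    eq_of_forall_exp_smul_alg h
  intro s
  obtain ⟨g, hg⟩ := (mem_iff hρ X).mp hX s
  have h1 : (ρ g)ᴴ * ρ g = 1 := (Matrix.mem_unitaryGroup_iff'.mp (hρ.unit g))
  have h2 : s • Xᴴ = (s • X)ᴴ := by simp
  rw [h2, Matrix.exp_conjTranspose, ← mul_one (NormedSpace.exp _)ᴴ, ← exp_neg' (s • X),
    ← mul_assoc, ← hg, h1, one_mul, smul_neg]

theorem gen [ConnectedSpace G] (hρ : IsRep ρ) (P : G → Prop)
    (h1 : ∀ X ∈ lieAlg ρ, P (expG ρ X)) (h2 : ∀ x y, P x → P y → P (x * y)) (g : G) : P g := by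
  have : PreconnectedSpace ρ.toHomUnits.range :=
    Subtype.preconnectedSpace (by
      rw [MonoidHom.coe_range]
      exact isPreconnected_range (cont_units hρ))
  refine @ExpData.induction_on _ _ _ _ _ _ ((unitsData (Mat n)).sub _ (closed_range hρ)) _ this
    (fun k => ∀ g, ρ g = k.1.1 → P g) (fun X g hg => ?_) (fun x y hx hy g hg => ?_)
    ⟨_, g, rfl⟩ g rfl
  · have hX : X.1 ∈ lieAlg ρ := (lie_eq hρ).ge X.2
    rw [hρ.inj (hg.trans (rho_exp hρ hX).symm)]
    exact h1 _ hX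
  · obtain ⟨a, ha⟩ := x.2
    obtain ⟨b, hb⟩ := y.2
    have ha' : ρ a = x.1.1 := congrArg Units.val ha
    have hb' : ρ b = y.1.1 := congrArg Units.val hb
    rw [hρ.inj (hg.trans (by rw [map_mul, ha', hb']; rfl) : ρ g = ρ (a * b))]
    exact h2 _ _ (hx a ha') (hy b hb')

theorem gC_decomp {Z : Mat n} (hZ : Z ∈ gC ρ) :
    ∃ X ∈ lieAlg ρ, ∃ Y ∈ lieAlg ρ, Z = X + I • Y := by
  induction hZ using Submodule.span_induction with
  | mem Z hZ => exact ⟨Z, hZ, 0, zero_mem _, by simp⟩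
  | zero => exact ⟨0, zero_mem _, 0, zero_mem _, by simp⟩
  | add Z W _ _ hZ hW =>
    obtain ⟨X, hX, Y, hY, rfl⟩ := hZ
    obtain ⟨X', hX', Y', hY', rfl⟩ := hW
    exact ⟨_, add_mem hX hX', _, add_mem hY hY', by rw [smul_add]; abel⟩
  | smul c Z _ hZ =>
    obtain ⟨X, hX, Y, hY, rfl⟩ := hZ
    refine ⟨c.re • X - c.im • Y, sub_mem (Submodule.smul_mem _ _ hX) (Submodule.smul_mem _ _ hY),
      c.im • X + c.re • Y, add_mem (Submodule.smul_mem _ _ hX) (Submodule.smul_mem _ _ hY), ?_⟩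
    ext i j
    simp only [Matrix.smul_apply, Matrix.add_apply, Matrix.sub_apply, smul_eq_mul, real_smul]
    conv_lhs => rw [← re_add_im c]
    linear_combination (c.im * Y i j) * I_mul_I

theorem bilin_deriv {E : Type} [NormedAddCommGroup E] [NormedSpace ℝ E] [FiniteDimensional ℝ E]
    (B : LinearMap.BilinForm ℝ E) {f g : ℝ → E} {f' g' : E} (hf : HasDerivAt f f' 0)
    (hg : HasDerivAt g g' 0) :
    HasDerivAt (fun s => B (f s) (g s)) (B f' (g 0) + B (f 0) g') 0 := by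
  let B' : E →L[ℝ] E →L[ℝ] ℝ := LinearMap.toContinuousLinearMap
    ((LinearMap.toContinuousLinearMap (𝕜 := ℝ) (E := E) (F' := ℝ)).toLinearMap ∘ₗ B)
  exact (B'.hasFDerivAt.comp_hasDerivAt (0 : ℝ) hf).clm_apply hg

end LLie

open LLie

theorem lie_ok [ConnectedSpace G] (hρ : IsRep ρ) : LIE ρ where
  mem_iff := mem_iff hρ
  lie_mem _ hX _ hY := lie_mem hρ hX hY
  Ad_mem g _ hX := Ad_mem hρ g hX
  skew _ hX := skew hρ hX
  rho_exp _ hX := rho_exp hρ hX
  exp_cont := by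
    rw [(hρ.cont.isClosedEmbedding hρ.inj).isInducing.continuousOn_iff]
    exact continuous_exp_real.continuousOn.congr fun X hX => rho_exp hρ hX
  exp_zero := hρ.inj (by rw [rho_exp hρ (zero_mem _), NormedSpace.exp_zero, map_one])
  exp_add X hX Y hY h := hρ.inj (by
    rw [map_mul, rho_exp hρ hX, rho_exp hρ hY, rho_exp hρ (add_mem hX hY),
      Matrix.exp_add_of_commute X Y h])
  gen := gen hρ
  gC_decomp _ := gC_decomp
  gC_star Z hZ := by
    obtain ⟨X, hX, Y, hY, rfl⟩ := gC_decomp hZ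
    rw [Matrix.conjTranspose_add, Matrix.conjTranspose_smul, skew hρ hX, skew hρ hY]
    exact add_mem (neg_mem (mem_gC hX)) (Submodule.smul_mem _ _ (neg_mem (mem_gC hY)))
  gC_lie Z hZ W hW := by
    obtain ⟨X, hX, Y, hY, rfl⟩ := gC_decomp hZ
    obtain ⟨X', hX', Y', hY', rfl⟩ := gC_decomp hW
    have : (X + I • Y) * (X' + I • Y') - (X' + I • Y') * (X + I • Y) =
        (X * X' - X' * X) + I • (X * Y' - Y' * X) + I • (Y * X' - X' * Y) +
          I • I • (Y * Y' - Y' * Y) := by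
      simp only [add_mul, mul_add, smul_mul_assoc, mul_smul_comm, smul_sub, smul_add]
      abel
    rw [this]
    exact add_mem (add_mem (add_mem (mem_gC (lie_mem hρ hX hX'))
      (Submodule.smul_mem _ _ (mem_gC (lie_mem hρ hX hY'))))
      (Submodule.smul_mem _ _ (mem_gC (lie_mem hρ hY hX'))))
      (Submodule.smul_mem _ _ (Submodule.smul_mem _ _ (mem_gC (lie_mem hρ hY hY'))))

theorem adinv (hL : LIE ρ) (hB : IsMetric ρ B) : AdInv ρ B := by
  intro X hX Y hY Z hZ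
  have h1 : HasDerivAt (fun s : ℝ => B (NormedSpace.exp (s • X) * Y * NormedSpace.exp (s • -X))
      (NormedSpace.exp (s • X) * Z * NormedSpace.exp (s • -X)))
      (B (X * Y - Y * X) (NormedSpace.exp ((0 : ℝ) • X) * Z * NormedSpace.exp ((0 : ℝ) • -X)) +
        B (NormedSpace.exp ((0 : ℝ) • X) * Y * NormedSpace.exp ((0 : ℝ) • -X)) (X * Z - Z * X))
      0 := bilin_deriv (E := Mat n) B (conj_deriv X Y) (conj_deriv X Z)
  have h2 : ∀ s : ℝ, B (NormedSpace.exp (s • X) * Y * NormedSpace.exp (s • -X))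
      (NormedSpace.exp (s • X) * Z * NormedSpace.exp (s • -X)) = B Y Z := fun s => by
    rw [← rho_exp_inv hL.rho_exp hX, ← hL.rho_exp _ (Submodule.smul_mem _ s hX)]
    exact hB.inv _ Y hY Z hZ
  simp only [h2, zero_smul, NormedSpace.exp_zero, mul_one, one_mul] at h1
  exact h1.unique (hasDerivAt_const (0 : ℝ) (B Y Z))

end Pool.Agent.P.MP_7211b7_an
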