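import Pool.Agent.P.MP_7211b7_an.DefsL

/-!
# MP_7211b7_an: principal minors are highest weight matrix coefficients and generate the cone
-/

open MeasureTheory ComplexConjugate Complex
open scoped ENNReal Matrix

set_option linter.unusedSectionVars false

namespace Pool.Agent.P.MP_7211b7_an

namespace LMinor

section abstract

variable {A : Type} [CommRing A] [Algebra ℂ A] {P : Subalgebra ℂ A} {D : A →ₗ[ℂ] A}

theorem der_prod (hm : ∀ f ∈ P, ∀ h ∈ P, D (f * h) = D f * h + f * D h) (h1 : D 1 = 0)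
    {ι : Type} [DecidableEq ι] (s : Finset ι) (f : ι → A) (hf : ∀ i, f i ∈ P) :
    D (∏ i ∈ s, f i) = ∑ k ∈ s, D (f k) * ∏ i ∈ s.erase k, f i := by
  induction s using Finset.induction_on with
  | empty => simpa using h1
  | insert a s ha ih =>
    rw [Finset.prod_insert ha, hm _ (hf a) _ (P.prod_mem fun i _ => hf i), ih,
      Finset.sum_insert ha, Finset.erase_insert ha, Finset.mul_sum]
    congr 1
    refine Finset.sum_congr rfl fun k hk => ?_
    have hak : a ≠ k := fun h => ha (h ▸ hk)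
    rw [Finset.erase_insert_of_ne hak, Finset.prod_insert fun h => ha (Finset.mem_of_mem_erase h)]
    ring

theorem det_mem {S : Type} [Fintype S] [DecidableEq S] (M : Matrix S S A)
    (hM : ∀ j k, M j k ∈ P) : M.det ∈ P := by
  rw [Matrix.det_apply']
  exact P.sum_mem fun σ _ => P.mul_mem (P.intCast_mem _) (P.prod_mem fun i _ => hM _ _)

theorem der_det (hm : ∀ f ∈ P, ∀ h ∈ P, D (f * h) = D f * h + f * D h) (h1 : D 1 = 0)
    {S : Type} [Fintype S] [DecidableEq S] (M : Matrix S S A) (hM : ∀ j k, M j k ∈ P)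
    (C : S → S → ℂ) (hC : ∀ j k, D (M j k) = ∑ l, C l k • M j l) :
    D M.det = (∑ k, C k k) • M.det := by
  have e1 : ∀ k, (M.updateCol k fun j => D (M j k)).det = C k k • M.det := fun k => by
    have := Matrix.det_updateCol_sum M k fun l => algebraMap ℂ A (C l k)
    simp only [smul_eq_mul, ← Algebra.smul_def] at this
    simp only [hC, this]
  have e2 : ∀ k, (M.updateCol k fun j => D (M j k)).det = ∑ σ : Equiv.Perm S,
      Equiv.Perm.sign σ • (D (M (σ k) k) * ∏ i ∈ Finset.univ.erase k, M (σ i) i) := fun k => by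
    rw [Matrix.det_apply]
    refine Finset.sum_congr rfl fun σ _ => ?_
    rw [← Finset.mul_prod_erase _ _ (Finset.mem_univ k), Matrix.updateCol_self]
    congr 2
    exact Finset.prod_congr rfl fun i hi => Matrix.updateCol_ne (Finset.ne_of_mem_erase hi)
  rw [Finset.sum_smul, ← Finset.sum_congr rfl fun k _ => e1 k, Finset.sum_congr rfl
    fun k _ => e2 k, Finset.sum_comm, Matrix.det_apply, map_sum]
  refine Finset.sum_congr rfl fun σ _ => ?_
  rw [← Finset.smul_sum, Units.smul_def, Units.smul_def, map_zsmul,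
    der_prod hm h1 _ _ fun i => hM _ _]

theorem layer {ι : Type} [Fintype ι] [DecidableEq ι] (r : ι → ι → Prop) (Q : (ι → ℝ) → Prop)
    (h0 : Q 0) (hadd : ∀ (x : ι → ℝ) (m : ℝ) (S : Finset ι), 0 ≤ m →
      (∀ j k, k ∈ S → r j k → j ∈ S) → Q x → Q (x + fun k => if k ∈ S then m else 0))
    (x : ι → ℝ) (hx : ∀ k, 0 ≤ x k) (hr : ∀ j k, r j k → x k ≤ x j) : Q x := by
  induction h : (Finset.univ.filter fun k => 0 < x k).card using Nat.strong_induction_on
    generalizing x with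
  | _ N ih =>
    set S := Finset.univ.filter fun k => 0 < x k with hS
    have hmem : ∀ k, k ∈ S ↔ 0 < x k := fun k => by simp [hS]
    rcases S.eq_empty_or_nonempty with e | e
    · have : x = 0 := funext fun k => le_antisymm
        (not_lt.mp fun hk => by simpa [e] using (hmem k).mpr hk) (hx k)
      exact this ▸ h0
    obtain ⟨k0, hk0, hmin⟩ := S.exists_min_image x e
    have key := hadd (x - fun k => if k ∈ S then x k0 else 0) (x k0) S (hx k0)
      (fun j k hk hjk => (hmem j).mpr (((hmem k).mp hk).trans_le (hr j k hjk)))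
      (ih _ ?_ _ (fun k => ?_) (fun j k hjk => ?_) rfl)
    · rwa [sub_add_cancel] at key
    · rw [← h]
      refine Finset.card_lt_card ⟨fun k hk => ?_, fun hcon => ?_⟩
      · by_contra h2
        have := (Finset.mem_filter.mp hk).2
        simp only [Pi.sub_apply, h2, if_false, sub_zero] at this
        exact h2 ((hmem k).mpr this)
      · have := (Finset.mem_filter.mp (hcon hk0)).2
        simp [hk0] at this
    · simp only [Pi.sub_apply]
      split_ifs with h2
      · linarith [hmin k h2]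
      · linarith [hx k]
    · have := hr j k hjk
      simp only [Pi.sub_apply]
      split_ifs with h2 h3 h3
      · linarith
      · exact absurd ((hmem j).mpr (((hmem k).mp h2).trans_le this)) h3
      · linarith [hmin j h3, not_lt.mp fun h4 => h2 ((hmem k).mpr h4)]
      · linarith

end abstract

variable {G : Type} [Group G] [TopologicalSpace G] [IsTopologicalGroup G] [CompactSpace G]
  [T2Space G] [SecondCountableTopology G] [MeasurableSpace G] [BorelSpace G] {n : ℕ}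
  {ρ : G →* Mat n} {t : Submodule ℝ (Mat n)}

/-- a matrix entry -/
def ent (h : IsRep ρ) (a b : Fin n) : C(G, ℂ) := ⟨fun g => ρ g a b, h.cont.matrix_elem a b⟩

/-- a matrix entry in the basis `U` -/
noncomputable def co (h : IsRep ρ) (U : Mat n) (j k : Fin n) : C(G, ℂ) :=
  ∑ b, ∑ a, (Uᴴ j a * U b k) • ent h a b

theorem co_mem (h : IsRep ρ) (U : Mat n) (j k : Fin n) : co h U j k ∈ PP ρ :=
  Subalgebra.sum_mem _ fun _ _ => Subalgebra.sum_mem _ fun _ _ =>
    Subalgebra.smul_mem _ (ent_mem_PP fun _ => rfl) _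

theorem map_co (h : IsRep ρ) (U : Mat n) (j k : Fin n) (D : C(G, ℂ) →ₗ[ℂ] C(G, ℂ)) (g : G)
    (M : Mat n) (hD : ∀ a b, D (ent h a b) g = M a b) : D (co h U j k) g = (Uᴴ * M * U) j k := by
  simp only [co, map_sum, map_smul, ContinuousMap.sum_apply, ContinuousMap.smul_apply, hD,
    smul_eq_mul, Matrix.mul_apply, Finset.sum_mul]
  exact Finset.sum_congr rfl fun b _ => Finset.sum_congr rfl fun a _ => by ring

theorem co_apply (h : IsRep ρ) (U : Mat n) (j k : Fin n) (g : G) :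
    co h U j k g = (Uᴴ * ρ g * U) j k := map_co h U j k LinearMap.id g _ fun _ _ => rfl

theorem conj_mul (D : Diag t) (X Y : Mat n) :
    D.Uᴴ * (X * Y) * D.U = D.Uᴴ * X * D.U * (D.Uᴴ * Y * D.U) := by
  have : D.U * D.Uᴴ = 1 := Matrix.mem_unitaryGroup_iff.mp D.unit
  calc _ = D.Uᴴ * X * (D.U * D.Uᴴ) * Y * D.U := by rw [this]; simp only [mul_one, mul_assoc]
    _ = _ := by simp only [mul_assoc]

theorem conj_star (U X : Mat n) : Uᴴ * Xᴴ * U = (Uᴴ * X * U)ᴴ := by
  simp only [Matrix.conjTranspose_mul, Matrix.conjTranspose_conjTranspose, mul_assoc]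

theorem conj_zero (D : Diag t) {X : Mat n} (h : D.Uᴴ * X * D.U = 0) : X = 0 := by
  have e : D.U * D.Uᴴ = 1 := Matrix.mem_unitaryGroup_iff.mp D.unit
  calc X = D.U * D.Uᴴ * X * (D.U * D.Uᴴ) := by rw [e, one_mul, mul_one]
    _ = D.U * (D.Uᴴ * X * D.U) * D.Uᴴ := by simp only [mul_assoc]
    _ = 0 := by rw [h, mul_zero, zero_mul]

theorem root_rel (R : Roots ρ t) (D : Diag t) (i : Fin R.N) {j k : Fin n}
    (h : (D.Uᴴ * R.E i * D.U) j k ≠ 0) {Y : Mat n} (hY : Y ∈ t) :
    D.w j Y = D.w k Y + R.α i Y := by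
  have e := congrArg (fun X => (D.Uᴴ * X * D.U) j k) (R.comm i Y hY)
  simp only [mul_sub, sub_mul, conj_mul, D.diag Y hY, Matrix.sub_apply, Matrix.diagonal_mul,
    Matrix.mul_diagonal, Matrix.mul_smul, Matrix.smul_mul, Matrix.smul_apply, smul_eq_mul] at e
  have e2 : I * (((D.w j Y - (D.w k Y + R.α i Y) : ℝ) : ℂ) * (D.Uᴴ * R.E i * D.U) j k) = 0 := by
    push_cast
    linear_combination e
  have e3 := (mul_eq_zero.mp ((mul_eq_zero.mp e2).resolve_left I_ne_zero)).resolve_right h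
  exact sub_eq_zero.mp (ofReal_eq_zero.mp e3)

theorem root_diag (R : Roots ρ t) (D : Diag t) (i : Fin R.N) (k : Fin n) :
    (D.Uᴴ * R.E i * D.U) k k = 0 := by
  by_contra h
  linarith [root_rel R D i h R.X0_mem, R.pos i]

/-- the principal minor -/
noncomputable def mnr (h : IsRep ρ) (U : Mat n) (S : Finset (Fin n)) : C(G, ℂ) :=
  Matrix.det (Matrix.of fun j k : S => co h U j k)

theorem mnr_mem (h : IsRep ρ) (U : Mat n) (S : Finset (Fin n)) : mnr h U S ∈ PP ρ :=
  det_mem _ fun _ _ => co_mem h U _ _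

theorem mnr_one (h : IsRep ρ) (D : Diag t) (S : Finset (Fin n)) : mnr h D.U S 1 = 1 := by
  have e : D.Uᴴ * D.U = 1 := Matrix.mem_unitaryGroup_iff'.mp D.unit
  have := (ContinuousMap.evalAlgHom ℂ ℂ (1 : G)).map_det (Matrix.of fun j k : S => co h D.U j k)
  refine this.trans ((congrArg _ ?_).trans Matrix.det_one)
  ext j k
  change co h D.U j k 1 = _
  rw [co_apply, map_one, mul_one, e]
  simp only [Matrix.one_apply, Subtype.ext_iff]

variable {μ : Measure G} {K : Calc ρ}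

theorem dR_mnr (h : IsRep ρ) (D : Diag t) (H : DER1 K μ) (S : Finset (Fin n)) {Z : Mat n}
    (hZ : Z ∈ gC ρ) (hS : ∀ l k, k ∈ S → (D.Uᴴ * Z * D.U) l k ≠ 0 → l ∈ S) :
    K.dR Z (mnr h D.U S) = (∑ k ∈ S, (D.Uᴴ * Z * D.U) k k) • mnr h D.U S := by
  rw [← Finset.sum_coe_sort S]
  refine der_det (H.R_mul Z hZ) (H.R_one Z hZ) (Matrix.of fun j k : S => co h D.U j k)
    (fun _ _ => co_mem h _ _ _) (fun l k : S => (D.Uᴴ * Z * D.U) l k) fun j k => ?_
  ext g
  rw [Matrix.of_apply, map_co h _ _ _ _ g _ fun a b => H.R_ent Z hZ _ a b (fun _ => rfl) g,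
    conj_mul, Matrix.mul_apply]
  simp only [ContinuousMap.sum_apply, ContinuousMap.smul_apply, Matrix.of_apply, co_apply,
    smul_eq_mul]
  rw [Finset.sum_coe_sort S fun l => (D.Uᴴ * Z * D.U) l k * (D.Uᴴ * ρ g * D.U) j l,
    ← Finset.sum_subset (Finset.subset_univ S) fun l _ hl => by
      rw [not_not.mp fun h2 => hl (hS l k k.2 h2), mul_zero]]
  exact Finset.sum_congr rfl fun l _ => mul_comm _ _

theorem dL_mnr (h : IsRep ρ) (D : Diag t) (H : DER1 K μ) (S : Finset (Fin n)) {Z : Mat n}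
    (hZ : Z ∈ gC ρ) (hS : ∀ l k, k ∈ S → (D.Uᴴ * Z * D.U) k l ≠ 0 → l ∈ S) :
    K.dL Z (mnr h D.U S) = (∑ k ∈ S, (D.Uᴴ * Z * D.U) k k) • mnr h D.U S := by
  rw [← Finset.sum_coe_sort S, mnr, ← Matrix.det_transpose]
  refine der_det (H.L_mul Z hZ) (H.L_one Z hZ) (Matrix.of fun j k : S => co h D.U j k)ᵀ
    (fun _ _ => co_mem h _ _ _) (fun l k : S => (D.Uᴴ * Z * D.U) k l) fun j k => ?_
  ext g
  rw [Matrix.transpose_apply, Matrix.of_apply,
    map_co h _ _ _ _ g _ fun a b => H.L_ent Z hZ _ a b (fun _ => rfl) g, conj_mul, Matrix.mul_apply]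
  simp only [ContinuousMap.sum_apply, ContinuousMap.smul_apply, Matrix.transpose_apply,
    Matrix.of_apply, co_apply, smul_eq_mul]
  rw [Finset.sum_coe_sort S fun l => (D.Uᴴ * Z * D.U) k l * (D.Uᴴ * ρ g * D.U) l j,
    ← Finset.sum_subset (Finset.subset_univ S) fun l _ hl => by
      rw [not_not.mp fun h2 => hl (hS l k k.2 h2), zero_mul]]

theorem mnr_phi (h : IsRep ρ) (R : Roots ρ t) (D : Diag t) (hL : LIE ρ) (hC : IsCartan ρ t)
    (H : DER1 K μ) (S : Finset (Fin n))
    (hS : ∀ i j k, k ∈ S → (D.Uᴴ * R.E i * D.U) j k ≠ 0 → j ∈ S) :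
    IsPhi K R (∑ k ∈ S, D.w k) (mnr h D.U S) := by
  have e : ∀ Y ∈ t, ∑ k ∈ S, (D.Uᴴ * Y * D.U) k k = I * ((∑ k ∈ S, D.w k) Y : ℝ) := by
    intro Y hY
    simp only [D.diag Y hY, Matrix.diagonal_apply_eq, LinearMap.sum_apply, ofReal_sum,
      Finset.mul_sum]
  refine ⟨⟨mnr_mem h _ S, fun i => ?_, fun Y hY => ?_⟩, mnr_one h D S, fun i => ?_, fun Y hY => ?_⟩
  · rw [dR_mnr h D H S (R.E_mem i) (hS i)]
    simp only [root_diag, Finset.sum_const_zero, zero_smul]
  · rw [dR_mnr h D H S (mem_gC (hC.le hY)), e Y hY]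
    intro l k hk h2
    rw [D.diag Y hY] at h2
    exact (not_not.mp fun h3 => h2 (Matrix.diagonal_apply_ne _ h3) : l = k) ▸ hk
  · rw [dL_mnr h D H S (hL.gC_star _ (R.E_mem i))]
    · simp only [conj_star, Matrix.conjTranspose_apply, root_diag, star_zero, Finset.sum_const_zero,
        zero_smul]
    · intro l k hk h2
      rw [conj_star, Matrix.conjTranspose_apply] at h2
      exact hS i l k hk fun h3 => h2 (by rw [h3, star_zero])
  · rw [dL_mnr h D H S (mem_gC (hC.le hY)), e Y hY]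
    intro l k hk h2
    rw [D.diag Y hY] at h2
    exact (not_not.mp fun h3 => h2 (Matrix.diagonal_apply_ne _ h3) : k = l) ▸ hk

theorem exists_xi (D : Diag t) (lam : Mat n →ₗ[ℝ] ℝ) :
    ∃ ξ ∈ t, ∀ Y ∈ t, lam Y = ∑ k, D.w k ξ * D.w k Y := by
  let B : LinearMap.BilinForm ℝ t :=
    ∑ k, LinearMap.BilinForm.linMulLin (D.w k ∘ₗ t.subtype) (D.w k ∘ₗ t.subtype)
  have hB : ∀ X Y : t, B X Y = ∑ k, D.w k X * D.w k Y := fun X Y => by
    simp [B, LinearMap.sum_apply]
  have h0 : ∀ X : t, B X X = 0 → X = 0 := fun X hX => by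
    rw [hB, Finset.sum_eq_zero_iff_of_nonneg fun k _ => mul_self_nonneg _] at hX
    refine Subtype.ext (conj_zero D ?_)
    rw [D.diag _ X.2]
    ext j k
    simp [Matrix.diagonal_apply, mul_self_eq_zero.mp (hX j (Finset.mem_univ j))]
  have hN : B.Nondegenerate := ⟨fun X hX => h0 X (hX X), fun X hX => h0 X (hX X)⟩
  refine ⟨_, ((B.toDual hN).symm (lam ∘ₗ t.subtype)).2, fun Y hY => ?_⟩
  rw [← hB _ ⟨Y, hY⟩, LinearMap.BilinForm.apply_toDual_symm_apply]
  rfl

theorem dominant (μ : Measure G) [Hr μ] (R : Roots ρ t) (hL : LIE ρ) (H : DER1 K μ)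
    {lam : Mat n →ₗ[ℝ] ℝ} {φ : C(G, ℂ)} (hφ : IsPhi K R lam φ) (i : Fin R.N) :
    0 ≤ lam (R.H i) := by
  have hE := R.E_mem i
  have e1 := congrArg (fun T => T φ) (K.R_lie _ hE _ (hL.gC_star _ hE))
  simp only [R.co i, map_smul, LinearMap.smul_apply, hφ.wtR _ (R.H_mem i), LinearMap.sub_apply,
    Module.End.mul_apply, hφ.up i, map_zero, sub_zero, smul_smul] at e1
  have e2 := H.adjR _ hE _ (K.R_mem (R.E i)ᴴ φ) _ hφ.mem
  rw [← e1, ip_self] at e2
  have e3 : ip μ ((-I * (I * (lam (R.H i) : ℝ))) • φ) φ = (lam (R.H i) * n2 μ φ : ℝ) := by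
    rw [ip_eq_inner, map_smul, inner_smul_right, ← ip_eq_inner, ip_self, ← mul_assoc, neg_mul,
      I_mul_I]
    push_cast
    ring
  rw [e3, ofReal_inj] at e2
  have p1 : 0 ≤ n2 μ (K.dR (R.E i)ᴴ φ) := by rw [n2_eq_norm_sq]; positivity
  have p2 : 0 ≤ n2 μ φ := by rw [n2_eq_norm_sq]; positivity
  exact nonneg_of_mul_nonneg_left (e2 ▸ p1)
    (lt_of_le_of_ne p2 fun h => hφ.ne_zero (eq_zero_of_n2 μ h.symm))

theorem tau_co (R : Roots ρ t) (D : Diag t) (i : Fin R.N) {ξ : Mat n} (hξ : ξ ∈ t) :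
    ∑ k, D.w k ξ * D.w k (R.H i) =
      R.α i ξ * ∑ j, ∑ k, normSq ((D.Uᴴ * R.E i * D.U) j k) := by
  set E := D.Uᴴ * R.E i * D.U with hE
  have e1 : ∀ k, D.w k (R.H i) = ∑ j, normSq (E k j) - ∑ j, normSq (E j k) := fun k => by
    have e := congrArg (fun X => (D.Uᴴ * X * D.U) k k) (R.co i)
    simp only [mul_sub, sub_mul, conj_mul, conj_star, ← hE, Matrix.mul_smul, Matrix.smul_mul,
      D.diag _ (R.H_mem i), Matrix.sub_apply, Matrix.smul_apply, Matrix.diagonal_apply_eq,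
      smul_eq_mul] at e
    simp only [Matrix.mul_apply, Matrix.conjTranspose_apply, star_def, mul_conj,
      ← normSq_eq_conj_mul_self, ← mul_assoc, neg_mul, I_mul_I, neg_neg, one_mul] at e
    exact_mod_cast e.symm
  simp only [e1, mul_sub, Finset.mul_sum, Finset.sum_sub_distrib]
  rw [Finset.sum_comm (f := fun k j => D.w k ξ * normSq (E j k)), ← Finset.sum_sub_distrib]
  refine Finset.sum_congr rfl fun j _ => ?_
  rw [← Finset.sum_sub_distrib]
  refine Finset.sum_congr rfl fun k _ => ?_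
  by_cases h : E j k = 0
  · simp [h]
  · rw [root_rel R D i h hξ]
    ring

end LMinor

variable {G : Type} [Group G] [TopologicalSpace G] [IsTopologicalGroup G] [CompactSpace G]
  [T2Space G] [SecondCountableTopology G] [MeasurableSpace G] [BorelSpace G] {n : ℕ}
  {ρ : G →* Mat n} {t : Submodule ℝ (Mat n)} {B : LinearMap.BilinForm ℝ (Mat n)} {d r : ℕ}
  {b : Fin d → Mat n} (μ : Measure G) [Hr μ]

open LMinor in
theorem minor_ok (K : Calc ρ) (R : Roots ρ t) (D : Diag t) :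
    IsRep ρ → LIE ρ → PF ρ → IsCartan ρ t → DER1 K μ → MINOR K R D := by
  intro h hL hP hC H
  refine ⟨fun S hS => ⟨_, mnr_phi h R D hL hC H S hS⟩, star (mnr h D.U Finset.univ), ?_⟩
  have hφ := mnr_phi h R D hL hC H Finset.univ fun _ _ _ _ _ => Finset.mem_univ _
  have e : ∀ (Y : Mat n) (φ : C(G, ℂ)), star ((I * ((∑ k, D.w k) Y : ℝ)) • φ) =
      (I * ((-∑ k, D.w k) Y : ℝ)) • star φ := fun Y φ => by
    rw [star_smul, LinearMap.neg_apply]
    simp
  refine ⟨⟨hP.star_mem _ hφ.mem, fun i => ?_, fun Y hY => ?_⟩, ?_, fun i => ?_, fun Y hY => ?_⟩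
  · rw [H.R_star _ (R.E_mem i) _ hφ.mem, map_neg, LinearMap.neg_apply,
      dR_mnr h D H _ (hL.gC_star _ (R.E_mem i)) fun _ _ _ _ => Finset.mem_univ _]
    simp only [conj_star, Matrix.conjTranspose_apply, root_diag, star_zero, Finset.sum_const_zero,
      zero_smul, neg_zero]
  · rw [H.R_star _ (mem_gC (hC.le hY)) _ hφ.mem, hL.skew Y (hC.le hY), neg_neg, hφ.wtR Y hY, e]
  · rw [ContinuousMap.star_apply, hφ.one, star_one]
  · rw [H.L_star _ (hL.gC_star _ (R.E_mem i)) _ hφ.mem, Matrix.conjTranspose_conjTranspose,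
      map_neg, LinearMap.neg_apply,
      dL_mnr h D H _ (R.E_mem i) fun _ _ _ _ => Finset.mem_univ _]
    simp only [root_diag, star_zero, Finset.sum_const_zero, zero_smul, neg_zero]
  · rw [H.L_star _ (mem_gC (hC.le hY)) _ hφ.mem, hL.skew Y (hC.le hY), neg_neg, hφ.wtL Y hY, e]

open LMinor in
theorem cone_ok (K : Calc ρ) (R : Roots ρ t) (D : Diag t) :
    LIE ρ → IsCartan ρ t → DER1 K μ → MINOR K R D → CONE K R := by
  classical
  intro hL _ H hM
  let cl : Finset (Fin n) → Prop := fun S =>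
    ∀ j k, k ∈ S → (∃ i, (D.Uᴴ * R.E i * D.U) j k ≠ 0) → j ∈ S
  let ω : Option (Finset (Fin n)) → (Mat n →ₗ[ℝ] ℝ) := fun o =>
    o.elim (-∑ k, D.w k) fun S => ∑ k ∈ if cl S then S else ∅, D.w k
  refine ⟨Option (Finset (Fin n)), inferInstance, ω, ?_, fun lam φ hφ => ?_⟩
  · rintro (_ | S)
    · exact hM.det
    · refine hM.minor _ fun i j k hk h => ?_
      split_ifs at hk ⊢ with h2
      · exact h2 j k hk ⟨i, h⟩
      · exact absurd hk (Finset.notMem_empty k)
  obtain ⟨ξ, hξ, hlam⟩ := exists_xi D lam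
  have hα : ∀ i j k, (D.Uᴴ * R.E i * D.U) j k ≠ 0 → 0 ≤ R.α i ξ := fun i j k h => by
    have := dominant μ R hL H hφ i
    rw [hlam _ (R.H_mem i), tau_co R D i hξ] at this
    refine nonneg_of_mul_nonneg_left this (Finset.sum_pos' (fun _ _ => Finset.sum_nonneg
      fun _ _ => normSq_nonneg _) ⟨j, Finset.mem_univ _, Finset.sum_pos'
        (fun _ _ => normSq_nonneg _) ⟨k, Finset.mem_univ _, normSq_pos.mpr h⟩⟩)
  let Q : (Fin n → ℝ) → Prop := fun x => ∃ s : Option (Finset (Fin n)) → ℝ, (∀ j, 0 ≤ s j) ∧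
    ∀ Y, ∑ k, x k * D.w k Y = ∑ j, s j * ω j Y
  have hadd : ∀ (s : Option (Finset (Fin n)) → ℝ) (o : Option (Finset (Fin n))) (m : ℝ)
      (Y : Mat n), ∑ j, (s + Pi.single o m : Option (Finset (Fin n)) → ℝ) j * ω j Y =
        ∑ j, s j * ω j Y + m * ω o Y := fun s o m Y => by
    simp only [Pi.add_apply, add_mul, Finset.sum_add_distrib, Pi.single_apply, ite_mul, zero_mul,
      Finset.sum_ite_eq', Finset.mem_univ, if_true]
  have hpos : ∀ (s : Option (Finset (Fin n)) → ℝ) (o : Option (Finset (Fin n))) (m : ℝ),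
      (∀ j, 0 ≤ s j) → 0 ≤ m → ∀ j,
        0 ≤ (s + Pi.single o m : Option (Finset (Fin n)) → ℝ) j := fun s o m hs hm j => by
    rw [Pi.add_apply, Pi.single_apply]
    split_ifs
    · exact add_nonneg (hs j) hm
    · rw [add_zero]; exact hs j
  set c := ∑ k, |D.w k ξ| with hc
  obtain ⟨s, hs, hsY⟩ : Q fun k => D.w k ξ + c := by
    refine layer (fun j k => ∃ i, (D.Uᴴ * R.E i * D.U) j k ≠ 0) Q ⟨0, fun _ => le_rfl, by simp⟩
      ?_ _ (fun k => ?_) ?_
    · rintro x m S hm hS ⟨s, hs, hsY⟩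
      refine ⟨s + Pi.single (some S) m, hpos s _ m hs hm, fun Y => ?_⟩
      rw [hadd, ← hsY]
      simp only [Pi.add_apply, add_mul, Finset.sum_add_distrib, ite_mul, zero_mul,
        Finset.sum_ite_mem, Finset.univ_inter, ω, Option.elim_some, if_pos (show cl S from hS),
        LinearMap.sum_apply, Finset.mul_sum]
    · have := Finset.single_le_sum (f := fun k => |D.w k ξ|) (fun _ _ => abs_nonneg _)
        (Finset.mem_univ k)
      linarith [neg_abs_le (D.w k ξ)]
    · rintro j k ⟨i, h⟩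
      linarith [root_rel R D i h hξ, hα i j k h]
  refine ⟨s + Pi.single none c, hpos s _ c hs (Finset.sum_nonneg fun _ _ => abs_nonneg _),
    fun Y hY => ?_⟩
  rw [hadd, ← hsY, hlam Y hY]
  simp only [add_mul, Finset.sum_add_distrib, ω, Option.elim_none, LinearMap.neg_apply,
    LinearMap.sum_apply, ← Finset.mul_sum]
  ring

end Pool.Agent.P.MP_7211b7_an
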