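import Pool.Agent.P.MP_7211b7_an.DefsL

/-!
# MP_7211b7_an, part L: the algebra of representative functions
-/

open MeasureTheory ComplexConjugate Complex
open scoped Matrix

set_option linter.unusedSectionVars false

namespace Pool.Agent.P.MP_7211b7_an

variable {G : Type} [Group G] [TopologicalSpace G] [IsTopologicalGroup G] [CompactSpace G]
  [T2Space G] [SecondCountableTopology G] [MeasurableSpace G] [BorelSpace G] {n : ℕ}
  {ρ : G →* Mat n} {t : Submodule ℝ (Mat n)} {B : LinearMap.BilinForm ℝ (Mat n)} {d r : ℕ}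
  {b : Fin d → Mat n} (μ : Measure G) [Hr μ]

namespace LPF

/-- the matrix entry as a continuous function -/
noncomputable def ent (hρ : IsRep ρ) (i j : Fin n) : C(G, ℂ) :=
  ⟨fun g => ρ g i j, hρ.cont.matrix_elem i j⟩

@[simp] theorem ent_apply (hρ : IsRep ρ) (i j : Fin n) (g : G) : ent hρ i j g = ρ g i j := rfl

/-- the generators -/
def gens (ρ : G →* Mat n) : Set C(G, ℂ) :=
  {f | ∃ i j, ∀ g, f g = ρ g i j} ∪ {f | ∃ i j, ∀ g, f g = conj (ρ g i j)}

theorem PP_eq : PP ρ = Algebra.adjoin ℂ (gens ρ) := rfl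

theorem mem_gens (hρ : IsRep ρ) {f : C(G, ℂ)} :
    f ∈ gens ρ ↔ ∃ i j, f = ent hρ i j ∨ f = star (ent hρ i j) := by
  constructor
  · rintro (⟨i, j, h⟩ | ⟨i, j, h⟩)
    · exact ⟨i, j, Or.inl (by ext g; simp [h])⟩
    · exact ⟨i, j, Or.inr (by ext g; simp [h])⟩
  · rintro ⟨i, j, rfl | rfl⟩
    · exact Or.inl ⟨i, j, fun g => rfl⟩
    · exact Or.inr ⟨i, j, fun g => by simp⟩

theorem gens_finite (hρ : IsRep ρ) : (gens ρ).Finite := by
  refine ((Set.finite_range fun p : Fin n × Fin n => ent hρ p.1 p.2).union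
    (Set.finite_range fun p : Fin n × Fin n => star (ent hρ p.1 p.2))).subset ?_
  intro f hf
  obtain ⟨i, j, rfl | rfl⟩ := (mem_gens hρ).1 hf
  · exact Or.inl ⟨(i, j), rfl⟩
  · exact Or.inr ⟨(i, j), rfl⟩

theorem tr2_ent (hρ : IsRep ρ) (a k : G) (i j : Fin n) :
    tr2 a k (ent hρ i j) = ∑ m, ∑ l, (ρ a i l * ρ k m j) • ent hρ l m := by
  ext g
  simp only [tr2_apply, ent_apply, map_mul, Matrix.mul_apply, ContinuousMap.coe_sum,
    Finset.sum_apply, ContinuousMap.smul_apply, smul_eq_mul, Finset.sum_mul]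
  refine Finset.sum_congr rfl fun m _ => Finset.sum_congr rfl fun l _ => ?_
  ring

theorem tr2_star (a k : G) (f : C(G, ℂ)) : tr2 a k (star f) = star (tr2 a k f) := by
  ext g; simp

theorem tr2_gens (hρ : IsRep ρ) (a k : G) {f : C(G, ℂ)} (hf : f ∈ gens ρ) :
    tr2 a k f ∈ Submodule.span ℂ (gens ρ) := by
  obtain ⟨i, j, rfl | rfl⟩ := (mem_gens hρ).1 hf
  · rw [tr2_ent]
    exact Submodule.sum_mem _ fun m _ => Submodule.sum_mem _ fun l _ => Submodule.smul_mem _ _
      (Submodule.subset_span ((mem_gens hρ).2 ⟨l, m, Or.inl rfl⟩))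
  · rw [tr2_star, tr2_ent, star_sum]
    refine Submodule.sum_mem _ fun m _ => ?_
    rw [star_sum]
    refine Submodule.sum_mem _ fun l _ => ?_
    rw [star_smul]
    exact Submodule.smul_mem _ _ (Submodule.subset_span ((mem_gens hρ).2 ⟨l, m, Or.inr rfl⟩))

theorem span_le : ∀ h ∈ Submodule.span ℂ (gens ρ), h ∈ PP ρ := by
  intro h hh
  have : Submodule.span ℂ (gens ρ) ≤ Subalgebra.toSubmodule (PP ρ) :=
    Submodule.span_le.2 fun x hx => Algebra.subset_adjoin hx
  exact this hh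

theorem tr2_algebraMap (a k : G) (c : ℂ) :
    tr2 a k (algebraMap ℂ C(G, ℂ) c) = algebraMap ℂ C(G, ℂ) c := by
  ext g; simp

theorem star_mem (hρ : IsRep ρ) (f : C(G, ℂ)) (hf : f ∈ PP ρ) : star f ∈ PP ρ := by
  rw [PP_eq] at hf ⊢
  induction hf using Algebra.adjoin_induction with
  | mem x hx =>
    obtain ⟨i, j, rfl | rfl⟩ := (mem_gens hρ).1 hx
    · exact Algebra.subset_adjoin ((mem_gens hρ).2 ⟨i, j, Or.inr rfl⟩)
    · rw [star_star]
      exact Algebra.subset_adjoin ((mem_gens hρ).2 ⟨i, j, Or.inl rfl⟩)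
  | algebraMap c =>
    have : star (algebraMap ℂ C(G, ℂ) c) = algebraMap ℂ C(G, ℂ) (conj c) := by
      ext g; simp
    rw [this]
    exact Subalgebra.algebraMap_mem _ _
  | add x y _ _ hx hy => rw [star_add]; exact add_mem hx hy
  | mul x y _ _ hx hy => rw [star_mul]; exact mul_mem hy hx

theorem inv_mem (hρ : IsRep ρ) (f : C(G, ℂ)) (hf : f ∈ PP ρ) : invF f ∈ PP ρ := by
  have hinv : ∀ g : G, ρ g⁻¹ = (ρ g)ᴴ := by
    intro g
    have h1 : (ρ g)ᴴ * ρ g = 1 := Matrix.mem_unitaryGroup_iff'.1 (hρ.unit g)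
    calc ρ g⁻¹ = (ρ g)ᴴ * ρ g * ρ g⁻¹ := by rw [h1, one_mul]
      _ = (ρ g)ᴴ := by rw [mul_assoc, ← map_mul, mul_inv_cancel, map_one, mul_one]
  rw [PP_eq] at hf ⊢
  induction hf using Algebra.adjoin_induction with
  | mem x hx =>
    obtain ⟨i, j, rfl | rfl⟩ := (mem_gens hρ).1 hx
    · exact Algebra.subset_adjoin ((mem_gens hρ).2 ⟨j, i, Or.inr (by ext g; simp [hinv])⟩)
    · exact Algebra.subset_adjoin ((mem_gens hρ).2 ⟨j, i, Or.inl (by ext g; simp [hinv])⟩)
  | algebraMap c =>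
    have : invF (algebraMap ℂ C(G, ℂ) c) = algebraMap ℂ C(G, ℂ) c := by
      ext g; simp
    rw [this]
    exact Subalgebra.algebraMap_mem _ _
  | add x y _ _ hx hy =>
    have : invF (x + y) = invF x + invF y := by ext g; simp
    rw [this]; exact add_mem hx hy
  | mul x y _ _ hx hy =>
    have : invF (x * y) = invF x * invF y := by ext g; simp
    rw [this]; exact mul_mem hx hy

theorem locfin (hρ : IsRep ρ) (f : C(G, ℂ)) (hf : f ∈ PP ρ) :
    ∃ V : Submodule ℂ C(G, ℂ), FiniteDimensional ℂ V ∧ f ∈ V ∧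
      (∀ h ∈ V, h ∈ PP ρ) ∧ ∀ a k, ∀ h ∈ V, tr2 a k h ∈ V := by
  rw [PP_eq] at hf
  induction hf using Algebra.adjoin_induction with
  | mem x hx =>
    refine ⟨Submodule.span ℂ (gens ρ), FiniteDimensional.span_of_finite ℂ (gens_finite hρ),
      Submodule.subset_span hx, span_le, fun a k h hh => ?_⟩
    induction hh using Submodule.span_induction with
    | mem y hy => exact tr2_gens hρ a k hy
    | zero => simp
    | add y z _ _ hy hz => rw [map_add]; exact add_mem hy hz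
    | smul c y _ hy => rw [map_smul]; exact Submodule.smul_mem _ _ hy
  | algebraMap c =>
    refine ⟨Submodule.span ℂ {algebraMap ℂ C(G, ℂ) c}, inferInstance,
      Submodule.mem_span_singleton_self _, fun h hh => ?_, fun a k h hh => ?_⟩
    · obtain ⟨e, rfl⟩ := Submodule.mem_span_singleton.1 hh
      exact Subalgebra.smul_mem _ (Subalgebra.algebraMap_mem _ _) _
    · obtain ⟨e, rfl⟩ := Submodule.mem_span_singleton.1 hh
      rw [map_smul, tr2_algebraMap]
      exact Submodule.smul_mem _ _ (Submodule.mem_span_singleton_self _)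
  | add x y _ _ hx hy =>
    obtain ⟨V, hV, hxV, hVP, hVt⟩ := hx
    obtain ⟨W, hW, hyW, hWP, hWt⟩ := hy
    refine ⟨V ⊔ W, inferInstance, Submodule.add_mem_sup hxV hyW, fun h hh => ?_,
      fun a k h hh => ?_⟩
    · obtain ⟨v, hv, w, hw, rfl⟩ := Submodule.mem_sup.1 hh
      exact add_mem (hVP v hv) (hWP w hw)
    · obtain ⟨v, hv, w, hw, rfl⟩ := Submodule.mem_sup.1 hh
      rw [map_add]
      exact Submodule.add_mem_sup (hVt a k v hv) (hWt a k w hw)
  | mul x y _ _ hx hy =>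
    obtain ⟨V, hV, hxV, hVP, hVt⟩ := hx
    obtain ⟨W, hW, hyW, hWP, hWt⟩ := hy
    refine ⟨V * W, ?_, Submodule.mul_mem_mul hxV hyW, fun h hh => ?_, fun a k h hh => ?_⟩
    · exact Module.Finite.iff_fg.2 ((Module.Finite.iff_fg.1 hV).mul (Module.Finite.iff_fg.1 hW))
    · exact Submodule.mul_induction_on hh (fun v hv w hw => mul_mem (hVP v hv) (hWP w hw))
        (fun _ _ h1 h2 => add_mem h1 h2)
    · refine Submodule.mul_induction_on hh (fun v hv w hw => ?_) (fun u v h1 h2 => ?_)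
      · rw [tr2_mul]
        exact Submodule.mul_mem_mul (hVt a k v hv) (hWt a k w hw)
      · rw [map_add]
        exact add_mem h1 h2

theorem tr2_mem (hρ : IsRep ρ) (a k : G) (f : C(G, ℂ)) (hf : f ∈ PP ρ) : tr2 a k f ∈ PP ρ := by
  obtain ⟨V, -, hfV, hVP, hVt⟩ := locfin hρ f hf
  exact hVP _ (hVt a k f hfV)

theorem dense (hρ : IsRep ρ) : Dense (PP ρ : Set C(G, ℂ)) := by
  let A : StarSubalgebra ℂ C(G, ℂ) :=
    { PP ρ with star_mem' := fun {f} hf => star_mem hρ f hf }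
  have hsep : A.SeparatesPoints := by
    intro x y hxy
    have h1 : ρ x ≠ ρ y := fun h => hxy (hρ.inj h)
    obtain ⟨i, j, hij⟩ : ∃ i j, ρ x i j ≠ ρ y i j := by
      by_contra hc
      push Not at hc
      exact h1 (Matrix.ext hc)
    exact ⟨ent hρ i j, ⟨ent hρ i j, ent_mem_PP fun _ => rfl, rfl⟩, hij⟩
  have h := ContinuousMap.starSubalgebra_topologicalClosure_eq_top_of_separatesPoints A hsep
  intro f
  have hf : f ∈ A.topologicalClosure := h ▸ StarSubalgebra.mem_top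
  exact hf

end LPF

theorem pf_ok (hρ : IsRep ρ) : PF ρ :=
  { star_mem := LPF.star_mem hρ
    tr2_mem := LPF.tr2_mem hρ
    inv_mem := LPF.inv_mem hρ
    locfin := LPF.locfin hρ
    dense := LPF.dense hρ }

end Pool.Agent.P.MP_7211b7_an
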