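import Pool.Agent.P.MP_7211b7_an.DefsL

/-!
# MP_7211b7_an, part L: the reproducing vector and the algebraic Peter-Weyl theorem
-/

open MeasureTheory ComplexConjugate Complex
open scoped ENNReal Matrix

set_option linter.unusedSectionVars false

namespace Pool.Agent.P.MP_7211b7_an

variable {G : Type} [Group G] [TopologicalSpace G] [IsTopologicalGroup G] [CompactSpace G]
  [T2Space G] [SecondCountableTopology G] [MeasurableSpace G] [BorelSpace G] {n : ℕ}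
  {ρ : G →* Mat n} {t : Submodule ℝ (Mat n)} (μ : Measure G) [Hr μ]

namespace LRepro

lemma ip_add_left (f g h : C(G, ℂ)) : ip μ (f + g) h = ip μ f h + ip μ g h := by
  simp only [ip_eq_inner, map_add, inner_add_right]

lemma ip_add_right (f g h : C(G, ℂ)) : ip μ f (g + h) = ip μ f g + ip μ f h := by
  simp only [ip_eq_inner, map_add, inner_add_left]

lemma ip_sub_left (f g h : C(G, ℂ)) : ip μ (f - g) h = ip μ f h - ip μ g h := by
  simp only [ip_eq_inner, map_sub, inner_sub_right]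

lemma ip_sub_right (f g h : C(G, ℂ)) : ip μ f (g - h) = ip μ f g - ip μ f h := by
  simp only [ip_eq_inner, map_sub, inner_sub_left]

lemma ip_neg_right (f g : C(G, ℂ)) : ip μ f (-g) = -ip μ f g := by
  simp only [ip_eq_inner, map_neg, inner_neg_left]

lemma ip_smul_left (c : ℂ) (f h : C(G, ℂ)) : ip μ (c • f) h = c * ip μ f h := by
  simp only [ip_eq_inner, map_smul, inner_smul_right]

lemma ip_smul_right (c : ℂ) (f h : C(G, ℂ)) : ip μ f (c • h) = conj c * ip μ f h := by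
  simp only [ip_eq_inner, map_smul, inner_smul_left]

lemma ip_zero_left (h : C(G, ℂ)) : ip μ 0 h = 0 := by
  simp only [ip_eq_inner, map_zero, inner_zero_right]

lemma ip_sum_left {ι : Type} (s : Finset ι) (f : ι → C(G, ℂ)) (h : C(G, ℂ)) :
    ip μ (∑ i ∈ s, f i) h = ∑ i ∈ s, ip μ (f i) h := by
  simp only [ip_eq_inner, map_sum, inner_sum]

lemma ip_sum_right {ι : Type} (s : Finset ι) (f : C(G, ℂ)) (h : ι → C(G, ℂ)) :
    ip μ f (∑ i ∈ s, h i) = ∑ i ∈ s, ip μ f (h i) := by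
  simp only [ip_eq_inner, map_sum, sum_inner]

lemma eq_zero_of_ip {f : C(G, ℂ)} (h : ip μ f f = 0) : f = 0 := by
  rw [ip_self] at h
  exact eq_zero_of_n2 μ (by exact_mod_cast h)

lemma ip_tr2 (a k : G) (f h : C(G, ℂ)) : ip μ (tr2 a k f) (tr2 a k h) = ip μ f h := by
  unfold ip
  simp only [tr2_apply]
  have h1 := integral_mul_left_eq_self (μ := μ) (fun g => f (g * k) * conj (h (g * k))) a
  have h2 := integral_mul_right_eq_self (μ := μ) (fun g => f g * conj (h g)) k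
  exact h1.trans h2

lemma ip_tr2_left (a k : G) (f h : C(G, ℂ)) :
    ip μ (tr2 a k f) h = ip μ f (tr2 a⁻¹ k⁻¹ h) := by
  rw [← ip_tr2 μ a k f, tr2_tr2]
  simp

/-- the orthogonal complement of `W` inside `V` -/
def perp (V W : Submodule ℂ C(G, ℂ)) : Submodule ℂ C(G, ℂ) where
  carrier := {v | v ∈ V ∧ ∀ u ∈ W, ip μ v u = 0}
  add_mem' := fun {a b} ha hb => ⟨V.add_mem ha.1 hb.1, fun u hu => by
    rw [ip_add_left, ha.2 u hu, hb.2 u hu, add_zero]⟩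
  zero_mem' := ⟨V.zero_mem, fun u _ => ip_zero_left μ u⟩
  smul_mem' := fun c a ha => ⟨V.smul_mem c ha.1, fun u hu => by
    rw [ip_smul_left, ha.2 u hu, mul_zero]⟩

lemma mem_perp {V W : Submodule ℂ C(G, ℂ)} {v : C(G, ℂ)} :
    v ∈ perp μ V W ↔ v ∈ V ∧ ∀ u ∈ W, ip μ v u = 0 := Iff.rfl

lemma perp_le (V W : Submodule ℂ C(G, ℂ)) : perp μ V W ≤ V := fun _ h => h.1

lemma le_of_perp {V W : Submodule ℂ C(G, ℂ)} [FiniteDimensional ℂ W] (hW : W ≤ V)
    (h : perp μ V W = ⊥) : V ≤ W := by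
  intro v hv
  obtain ⟨e, he, ho, hr⟩ := exists_onb μ W
  have hp : ∑ j, ip μ v (e j) • e j ∈ W := W.sum_mem fun j _ => W.smul_mem _ (he j)
  have h1 : ∀ i, ip μ (v - ∑ j, ip μ v (e j) • e j) (e i) = 0 := by
    intro i
    rw [ip_sub_left, ip_sum_left]
    simp [ip_smul_left, ho]
  have h2 : v - ∑ j, ip μ v (e j) • e j ∈ perp μ V W := by
    refine ⟨V.sub_mem hv (hW hp), fun u hu => ?_⟩
    rw [hr u hu, ip_sum_right]
    simp [ip_smul_right, h1]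
  rw [h, Submodule.mem_bot, sub_eq_zero] at h2
  rw [h2]
  exact hp

lemma exists_delta (V : Submodule ℂ C(G, ℂ)) [FiniteDimensional ℂ V] :
    ∃ δ ∈ V, ∀ u ∈ V, ip μ u δ = u 1 := by
  obtain ⟨e, he, -, hr⟩ := exists_onb μ V
  refine ⟨∑ j, conj (e j 1) • e j, V.sum_mem fun j _ => V.smul_mem _ (he j), fun u hu => ?_⟩
  rw [ip_sum_right]
  conv_rhs => rw [hr u hu]
  simp [ip_smul_right, mul_comm]

/-- highest weight vectors of a given weight -/
def hwSub (K : Calc ρ) (R : Roots ρ t) (lam : Mat n →ₗ[ℝ] ℝ) : Submodule ℂ C(G, ℂ) where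
  carrier := {h | IsHW K R lam h}
  add_mem' := fun {a b} ha hb => ⟨(PP ρ).add_mem ha.mem hb.mem,
    fun i => by rw [map_add, ha.up, hb.up, add_zero],
    fun Y hY => by rw [map_add, ha.wtR Y hY, hb.wtR Y hY, smul_add]⟩
  zero_mem' := ⟨(PP ρ).zero_mem, fun i => map_zero _, fun Y _ => by rw [map_zero, smul_zero]⟩
  smul_mem' := fun c a ha => ⟨(PP ρ).smul_mem ha.mem c,
    fun i => by rw [map_smul, ha.up, smul_zero],
    fun Y hY => by rw [map_smul, ha.wtR Y hY, smul_comm]⟩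

lemma spanL_tr (φ : C(G, ℂ)) (a : G) : ∀ h ∈ spanL φ, tr2 a 1 h ∈ spanL φ := by
  intro h hh
  induction hh using Submodule.span_induction with
  | mem x hx =>
    obtain ⟨b, rfl⟩ := hx
    refine Submodule.subset_span ⟨b * a, ?_⟩
    simp only [tr2_tr2, mul_one]
  | zero => rw [map_zero]; exact Submodule.zero_mem _
  | add x y _ _ hx hy => rw [map_add]; exact Submodule.add_mem _ hx hy
  | smul c x _ hx => rw [map_smul]; exact Submodule.smul_mem _ c hx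

lemma self_mem_spanL (φ : C(G, ℂ)) : φ ∈ spanL φ :=
  Submodule.subset_span ⟨1, tr2_one φ⟩

lemma spanL_le {φ : C(G, ℂ)} {V : Submodule ℂ C(G, ℂ)} (h : φ ∈ V)
    (hV : ∀ a, ∀ v ∈ V, tr2 a 1 v ∈ V) : spanL φ ≤ V :=
  Submodule.span_le.2 (by rintro _ ⟨a, rfl⟩; exact hV a φ h)

lemma spanL_fin (hP : PF ρ) {φ : C(G, ℂ)} (h : φ ∈ PP ρ) : FiniteDimensional ℂ (spanL φ) := by
  obtain ⟨V, hV, h1, -, h2⟩ := hP.locfin φ h
  exact Submodule.finiteDimensional_of_le (spanL_le h1 fun a v hv => h2 a 1 v hv)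

lemma repro (K : Calc ρ) (R : Roots ρ t) (hL : LIE ρ) (ht : IsCartan ρ t) (h1 : DER1 K μ)
    (h2 : DER2 K) (lam : Mat n →ₗ[ℝ] ℝ) (V : Submodule ℂ C(G, ℂ)) (hV : FiniteDimensional ℂ V)
    (hne : V ≠ ⊥) (hw : ∀ h ∈ V, IsHW K R lam h) (hinv : ∀ a, ∀ h ∈ V, tr2 a 1 h ∈ V) :
    ∃ φ ∈ V, IsPhi K R lam φ := by
  obtain ⟨δ, hδ, hd⟩ := exists_delta μ V
  have hPP : ∀ v ∈ V, v ∈ PP ρ := fun v hv => (hw v hv).mem
  have hdL := h2.dL_mem V hPP hinv
  have hδ0 : δ ≠ 0 := by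
    rintro rfl
    apply hne
    rw [eq_bot_iff]
    intro h hh
    rw [Submodule.mem_bot]
    ext g
    have := hd _ (hinv g h hh)
    rw [ip_eq_inner, map_zero, inner_zero_left] at this
    simpa using this.symm
  have hδ1 : δ 1 ≠ 0 := fun h => hδ0 (eq_zero_of_ip μ (by rw [hd δ hδ, h]))
  have key : ∀ Z ∈ gC ρ, ∀ u ∈ V, ip μ u (K.dL Zᴴ δ) = K.dR Z u 1 := by
    intro Z hZ u hu
    rw [← h1.adjL Z hZ u (hPP u hu) δ (hPP δ hδ), hd _ (hdL Z hZ u hu),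
      h1.at_one Z hZ u (hPP u hu)]
  have hdown : ∀ i, K.dL (R.E i)ᴴ δ = 0 := by
    intro i
    have hm := hdL _ (hL.gC_star _ (R.E_mem i)) δ hδ
    apply eq_zero_of_ip μ
    rw [key _ (R.E_mem i) _ hm, (hw _ hm).up]
    rfl
  have hwt : ∀ Y ∈ t, K.dL Y δ = (I * (lam Y : ℝ)) • δ := by
    intro Y hY
    have hYg := mem_gC (ht.le hY)
    have hm : K.dL Y δ - (I * (lam Y : ℝ)) • δ ∈ V :=
      V.sub_mem (hdL Y hYg δ hδ) (V.smul_mem _ hδ)
    rw [← sub_eq_zero]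
    apply eq_zero_of_ip μ
    have h3 : ∀ u ∈ V, ip μ u (K.dL Y δ - (I * (lam Y : ℝ)) • δ) = 0 := by
      intro u hu
      have h4 := key Y hYg u hu
      rw [hL.skew Y (ht.le hY), map_neg, LinearMap.neg_apply, ip_neg_right,
        (hw u hu).wtR Y hY] at h4
      rw [ip_sub_right, ip_smul_right, hd u hu, ← neg_neg (ip μ u (K.dL Y δ)), h4]
      simp
    exact h3 _ hm
  refine ⟨(δ 1)⁻¹ • δ, V.smul_mem _ hδ, hw _ (V.smul_mem _ hδ), ?_, fun i => ?_, fun Y hY => ?_⟩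
  · simp [hδ1]
  · rw [map_smul, hdown, smul_zero]
  · rw [map_smul, hwt Y hY, smul_comm]

lemma hwL (K : Calc ρ) (R : Roots ρ t) (hP : PF ρ) (ht : IsCartan ρ t) (h1 : DER1 K μ)
    (lam : Mat n →ₗ[ℝ] ℝ) (φ : C(G, ℂ)) (h : IsHW K R lam φ) : spanL φ ≤ hwSub K R lam := by
  refine Submodule.span_le.2 ?_
  rintro _ ⟨a, rfl⟩
  refine ⟨hP.tr2_mem a 1 φ h.mem, fun i => ?_, fun Y hY => ?_⟩
  · rw [h1.R_trL _ (R.E_mem i) φ h.mem, h.up, map_zero]
  · rw [h1.R_trL _ (mem_gC (ht.le hY)) φ h.mem, h.wtR Y hY, map_smul]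

lemma exists_joint (K : Calc ρ) (ht : IsCartan ρ t) (U : Submodule ℂ C(G, ℂ))
    [FiniteDimensional ℂ U] (hne : U ≠ ⊥) (hinv : ∀ Y ∈ t, ∀ u ∈ U, K.dR Y u ∈ U) :
    ∃ h ∈ U, h ≠ 0 ∧ ∀ Y ∈ t, ∃ c : ℂ, K.dR Y h = c • h := by
  classical
  have hex : ∃ m, ∃ W : Submodule ℂ C(G, ℂ), W ≤ U ∧ W ≠ ⊥ ∧
      (∀ Y ∈ t, ∀ u ∈ W, K.dR Y u ∈ W) ∧ Module.finrank ℂ W = m := ⟨_, U, le_rfl, hne, hinv, rfl⟩
  obtain ⟨W, hWU, hW0, hWi, hWm⟩ := Nat.find_spec hex
  have : FiniteDimensional ℂ W := Submodule.finiteDimensional_of_le hWU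
  obtain ⟨h, hh, h0⟩ := Submodule.exists_mem_ne_zero_of_ne_bot hW0
  refine ⟨h, hWU hh, h0, fun Y hY => ?_⟩
  have : Nontrivial W := Submodule.nontrivial_iff_ne_bot.2 hW0
  obtain ⟨c, hc⟩ := Module.End.exists_eigenvalue ((K.dR Y).restrict (hWi Y hY))
  obtain ⟨v, hv⟩ := hc.exists_hasEigenvector
  have hv1 : K.dR Y v = c • (v : C(G, ℂ)) := congrArg Subtype.val hv.apply_eq_smul
  have hcomm : ∀ Y' ∈ t, ∀ u, K.dR Y (K.dR Y' u) = K.dR Y' (K.dR Y u) := by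
    intro Y' hY' u
    have := K.R_lie Y (mem_gC (ht.le hY)) Y' (mem_gC (ht.le hY'))
    rw [ht.comm Y hY Y' hY', sub_self, map_zero, eq_comm, sub_eq_zero] at this
    exact congrArg (fun T : Module.End ℂ C(G, ℂ) => T u) this
  let W' : Submodule ℂ C(G, ℂ) := W ⊓ Module.End.eigenspace (K.dR Y) c
  have hm : ∀ u, u ∈ W' ↔ u ∈ W ∧ K.dR Y u = c • u := fun u => by
    simp only [W', Submodule.mem_inf, Module.End.mem_eigenspace_iff]
  have hle : Nat.find hex ≤ Module.finrank ℂ W' := by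
    refine Nat.find_min' hex ⟨W', inf_le_left.trans hWU, fun e => ?_, fun Y' hY' u hu => ?_, rfl⟩
    · have : (v : C(G, ℂ)) ∈ W' := (hm _).2 ⟨v.2, hv1⟩
      rw [e, Submodule.mem_bot] at this
      exact hv.2 (Subtype.ext this)
    · obtain ⟨hu1, hu2⟩ := (hm u).1 hu
      exact (hm _).2 ⟨hWi Y' hY' u hu1, by rw [hcomm Y' hY', hu2, map_smul]⟩
  have hE : W' = W := Submodule.eq_of_le_of_finrank_le inf_le_left (hWm.trans_le hle)
  exact ⟨c, ((hm h).1 (hE ▸ hh)).2⟩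

lemma exists_weight (K : Calc ρ) (hL : LIE ρ) (ht : IsCartan ρ t) (h1 : DER1 K μ)
    {h : C(G, ℂ)} (hP : h ∈ PP ρ) (h0 : h ≠ 0) (he : ∀ Y ∈ t, ∃ c : ℂ, K.dR Y h = c • h) :
    ∃ lam : Mat n →ₗ[ℝ] ℝ, ∀ Y ∈ t, K.dR Y h = (I * (lam Y : ℝ)) • h := by
  have hn : n2 μ h ≠ 0 := fun e => h0 (eq_zero_of_n2 μ e)
  have hs : ∀ (r : ℝ) (Y : Mat n), K.dR (r • Y) h = (r : ℂ) • K.dR Y h := by
    intro r Y
    rw [← LinearMap.smul_apply, ← map_smul]
    rfl
  refine ⟨⟨⟨fun Y => (ip μ (K.dR Y h) h).im / n2 μ h, fun Y Y' => ?_⟩, fun r Y => ?_⟩,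
    fun Y hY => ?_⟩
  · rw [map_add, LinearMap.add_apply, ip_add_left, add_im, add_div]
  · simp only [hs, ip_smul_left, RingHom.id_apply, smul_eq_mul, im_ofReal_mul, mul_div_assoc]
  · obtain ⟨c, hc⟩ := he Y hY
    have h4 := h1.adjR Y (mem_gC (ht.le hY)) h hP h hP
    rw [hL.skew Y (ht.le hY), map_neg, LinearMap.neg_apply, ip_neg_right, hc, ip_smul_left,
      ip_smul_right, ip_self] at h4
    have h5 : c.re = 0 := by
      have := congrArg Complex.re h4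
      simp only [mul_re, ofReal_re, ofReal_im, mul_zero, sub_zero, neg_re, conj_re] at this
      have h6 : c.re * n2 μ h = 0 := by linarith
      exact (mul_eq_zero.1 h6).resolve_right hn
    simp only [LinearMap.coe_mk, AddHom.coe_mk, hc, ip_smul_left, ip_self]
    congr 1
    apply Complex.ext
    · simp [h5]
    · simp [hn]

lemma exists_hw (K : Calc ρ) (R : Roots ρ t) (hL : LIE ρ) (ht : IsCartan ρ t) (h1 : DER1 K μ)
    (U : Submodule ℂ C(G, ℂ)) [FiniteDimensional ℂ U] (hne : U ≠ ⊥) (hP : ∀ u ∈ U, u ∈ PP ρ)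
    (hinv : ∀ Z ∈ gC ρ, ∀ u ∈ U, K.dR Z u ∈ U) : ∃ lam, ∃ h ∈ U, h ≠ 0 ∧ IsHW K R lam h := by
  let S : Set ℝ := {c | ∃ h ∈ U, h ≠ 0 ∧ ∃ lam : Mat n →ₗ[ℝ] ℝ,
    (∀ Y ∈ t, K.dR Y h = (I * (lam Y : ℝ)) • h) ∧ lam R.X0 = c}
  have hX0 := mem_gC (ht.le R.X0_mem)
  have hfin : S.Finite := by
    have hf := Module.End.finite_hasEigenvalue ((K.dR R.X0).restrict (hinv _ hX0))
    refine Set.Finite.of_finite_image (f := fun c : ℝ => I * (c : ℂ)) (hf.subset ?_) ?_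
    · rintro _ ⟨c, ⟨h, hh, h0, lam, hl, rfl⟩, rfl⟩
      refine Module.End.hasEigenvalue_of_hasEigenvector (x := ⟨h, hh⟩) ⟨?_, ?_⟩
      · rw [Module.End.mem_eigenspace_iff]
        exact Subtype.ext (hl _ R.X0_mem)
      · exact fun e => h0 (congrArg Subtype.val e)
    · intro a _ b _ e
      exact_mod_cast mul_left_cancel₀ I_ne_zero e
  have hS : S.Nonempty := by
    obtain ⟨h, hh, h0, he⟩ := exists_joint K ht U hne fun Y hY => hinv Y (mem_gC (ht.le hY))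
    obtain ⟨lam, hl⟩ := exists_weight μ K hL ht h1 (hP h hh) h0 he
    exact ⟨_, h, hh, h0, lam, hl, rfl⟩
  obtain ⟨c, ⟨h, hh, h0, lam, hl, rfl⟩, hmax⟩ := Set.exists_max_image S id hfin hS
  refine ⟨lam, h, hh, h0, hP h hh, fun i => ?_, hl⟩
  by_contra hE
  have hm : (lam + R.α i) R.X0 ∈ S := by
    refine ⟨_, hinv _ (R.E_mem i) h hh, hE, lam + R.α i, fun Y hY => ?_, rfl⟩
    have h3 := K.R_lie Y (mem_gC (ht.le hY)) _ (R.E_mem i)
    rw [R.comm i Y hY, map_smul] at h3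
    have h4 := congrArg (fun T : Module.End ℂ C(G, ℂ) => T h) h3
    simp only [LinearMap.smul_apply, LinearMap.sub_apply, Module.End.mul_apply, hl Y hY,
      map_smul] at h4
    rw [eq_sub_iff_add_eq] at h4
    rw [← h4, ← add_smul]
    congr 1
    simp only [LinearMap.add_apply]
    push_cast
    ring
  have := hmax _ hm
  simp only [id, LinearMap.add_apply] at this
  linarith [R.pos i]

end LRepro

open LRepro

theorem repro_ok (K : Calc ρ) (R : Roots ρ t) : LIE ρ → PF ρ → IsCartan ρ t → DER1 K μ →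
    DER2 K → FEQ K R μ → REPRO K R := by
  intro hL hP ht h1 h2 hF
  refine ⟨repro μ K R hL ht h1 h2, fun lam φ h => hwL μ K R hP ht h1 lam φ h,
    fun lam φ h hφ hh => ?_⟩
  have := spanL_fin hP hφ.mem
  have := spanL_fin hP hh.mem
  have hinv : ∀ a, ∀ v ∈ spanL φ ⊔ spanL h, tr2 a 1 v ∈ spanL φ ⊔ spanL h := by
    intro a v hv
    obtain ⟨x, hx, y, hy, rfl⟩ := Submodule.mem_sup.1 hv
    rw [map_add]
    exact Submodule.add_mem_sup (spanL_tr φ a x hx) (spanL_tr h a y hy)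
  have hw : spanL φ ⊔ spanL h ≤ hwSub K R lam :=
    sup_le (hwL μ K R hP ht h1 lam φ hφ.toIsHW) (hwL μ K R hP ht h1 lam h hh)
  have hb : perp μ (spanL φ ⊔ spanL h) (spanL φ) = ⊥ := by
    by_contra hne
    obtain ⟨ψ, hψ, hψ'⟩ := repro μ K R hL ht h1 h2 lam _
      (Submodule.finiteDimensional_of_le (perp_le μ _ _)) hne (fun v hv => hw hv.1)
      (fun a v hv => ⟨hinv a v hv.1, fun u hu => by
        rw [ip_tr2_left, inv_one]; exact hv.2 _ (spanL_tr φ _ u hu)⟩)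
    rw [hF.uniq lam ψ φ hψ' hφ] at hψ
    exact hφ.ne_zero (eq_zero_of_ip μ (hψ.2 φ (self_mem_spanL φ)))
  exact le_of_perp μ le_sup_left hb (Submodule.mem_sup_right (self_mem_spanL h))

theorem compl_ok (K : Calc ρ) (R : Roots ρ t) : LIE ρ → PF ρ → IsCartan ρ t → DER1 K μ →
    DER2 K → REPRO K R → COMPL K R := by
  intro hL hP ht h1 h2 hR f hf
  obtain ⟨V, hV, hfV, hVP, hVi⟩ := hP.locfin f hf
  set W0 := Submodule.span ℂ {h | ∃ lam φ a k, IsPhi K R lam φ ∧ h = tr2 a k φ} with hW0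
  have hWi : ∀ a k, ∀ h ∈ W0, tr2 a k h ∈ W0 := by
    intro a k h hh
    induction hh using Submodule.span_induction with
    | mem x hx =>
      obtain ⟨lam, φ, a', k', hφ, rfl⟩ := hx
      exact Submodule.subset_span ⟨lam, φ, _, _, hφ, tr2_tr2 a k a' k' φ⟩
    | zero => rw [map_zero]; exact Submodule.zero_mem _
    | add x y _ _ hx hy => rw [map_add]; exact Submodule.add_mem _ hx hy
    | smul c x _ hx => rw [map_smul]; exact Submodule.smul_mem _ c hx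
  have hUi : ∀ a k, ∀ v ∈ perp μ V (V ⊓ W0), tr2 a k v ∈ perp μ V (V ⊓ W0) :=
    fun a k v hv => ⟨hVi a k v hv.1, fun u hu => by
      rw [ip_tr2_left]; exact hv.2 _ ⟨hVi _ _ u hu.1, hWi _ _ u hu.2⟩⟩
  have hb : perp μ V (V ⊓ W0) = ⊥ := by
    by_contra hne
    have : FiniteDimensional ℂ (perp μ V (V ⊓ W0)) :=
      Submodule.finiteDimensional_of_le (perp_le μ _ _)
    have hUP : ∀ u ∈ perp μ V (V ⊓ W0), u ∈ PP ρ := fun u hu => hVP u hu.1
    obtain ⟨lam, h, hh, h0, hw⟩ := exists_hw μ K R hL ht h1 _ hne hUP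
      (h2.dR_mem _ hUP fun k => hUi 1 k)
    have hle : spanL h ≤ perp μ V (V ⊓ W0) := spanL_le hh fun a => hUi a 1
    obtain ⟨φ, hφ, hφ'⟩ := hR.repro lam (spanL h) (Submodule.finiteDimensional_of_le hle)
      (fun e => h0 (by have := self_mem_spanL h; rwa [e, Submodule.mem_bot] at this))
      (hR.hwL lam h hw) (spanL_tr h)
    refine hφ'.ne_zero (eq_zero_of_ip μ ((hle hφ).2 φ ⟨(hle hφ).1, ?_⟩))
    exact Submodule.subset_span ⟨lam, φ, 1, 1, hφ', (tr2_one φ).symm⟩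
  exact (le_of_perp μ inf_le_left hb hfV).2

end Pool.Agent.P.MP_7211b7_an
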