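import Pool.Agent.P.MP_7211b7_an.DefsL

/-! The root decomposition of the complexified Lie algebra. -/

open MeasureTheory ComplexConjugate Complex Module Submodule
open scoped Matrix ComplexOrder

namespace Pool.Agent.P.MP_7211b7_an

namespace LRoots

variable {n : ℕ} {t : Submodule ℝ (Mat n)}

lemma tr_pos {E : Mat n} (h : E ≠ 0) : 0 < (E * Eᴴ).trace :=
  lt_of_le_of_ne (Matrix.posSemidef_self_mul_conjTranspose E).trace_nonneg
    fun e => h (Matrix.trace_mul_conjTranspose_self_eq_zero_iff.1 e.symm)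

lemma indep_star {ι : Type} [Fintype ι] {E : ι → Mat n} (h : LinearIndependent ℂ E) :
    LinearIndependent ℂ fun i => (E i)ᴴ := by
  rw [Fintype.linearIndependent_iff] at h ⊢
  intro g hg i
  have h1 := congrArg Matrix.conjTranspose hg
  simp only [Matrix.conjTranspose_sum, Matrix.conjTranspose_smul,
    Matrix.conjTranspose_conjTranspose, Matrix.conjTranspose_zero] at h1
  simpa using h _ h1 i

lemma star_span {ι : Type} {E : ι → Mat n} {Z : Mat n} (h : Z ∈ span ℂ (Set.range E)) :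
    Zᴴ ∈ span ℂ (Set.range fun i => (E i)ᴴ) := by
  induction h using span_induction with
  | mem x hx => obtain ⟨i, rfl⟩ := hx; exact subset_span ⟨i, rfl⟩
  | zero => simp
  | add x y _ _ hx hy => rw [Matrix.conjTranspose_add]; exact add_mem hx hy
  | smul a x _ hx => rw [Matrix.conjTranspose_smul]; exact smul_mem _ _ hx

lemma rank_skew (s : Submodule ℝ (Mat n)) (hs : ∀ X ∈ s, Xᴴ = -X) :
    finrank ℂ (span ℂ (s : Set (Mat n))) = finrank ℝ s := by
  obtain ⟨v, hv, hsp, hi⟩ := exists_fun_fin_finrank_span_eq ℝ (s : Set (Mat n))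
  replace hsp := hsp.trans (span_eq s)
  have h : LinearIndependent ℂ v := by
    rw [Fintype.linearIndependent_iff] at hi ⊢
    intro g hg i
    have h1 := congrArg Matrix.conjTranspose hg
    simp only [Matrix.conjTranspose_sum, Matrix.conjTranspose_smul, Matrix.conjTranspose_zero,
      hs _ (hv _), smul_neg, Finset.sum_neg_distrib, neg_eq_zero] at h1
    have h2 : ∑ i, (g i).re • v i = 0 := by
      have : ∀ i, (g i).re • v i = (1 / 2 : ℂ) • (g i • v i + star (g i) • v i) := fun i => by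
        rw [← add_smul, smul_smul, ← Complex.coe_smul, Complex.re_eq_add_conj]
        congr 1
        simp only [RCLike.star_def]
        ring
      simp only [this, ← Finset.smul_sum, Finset.sum_add_distrib, hg, h1, add_zero, smul_zero]
    have h3 : ∑ i, (g i).im • v i = 0 := by
      have : ∀ i, (g i).im • v i = (1 / (2 * I) : ℂ) • (g i • v i - star (g i) • v i) := fun i => by
        rw [← sub_smul, smul_smul, ← Complex.coe_smul, Complex.im_eq_sub_conj]
        congr 1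
        simp only [RCLike.star_def]
        ring
      simp only [this, ← Finset.smul_sum, Finset.sum_sub_distrib, hg, h1, sub_zero, smul_zero]
    exact Complex.ext (hi _ h2 i) (hi _ h3 i)
  have h4 := finrank_span_eq_card h
  rw [← span_span_of_tower ℝ, hsp, Fintype.card_fin, span_eq] at h4
  exact h4

variable (D : Diag t)

/-- conjugation by the diagonalising matrix -/
noncomputable def cj : Mat n →ₗ[ℂ] Mat n where
  toFun Z := D.Uᴴ * Z * D.U
  map_add' _ _ := by rw [mul_add, add_mul]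
  map_smul' _ _ := by simp

/-- differences of weights -/
noncomputable def β (p : Fin n × Fin n) : Mat n →ₗ[ℝ] ℝ := D.w p.1 - D.w p.2

lemma cj_mul (Z W : Mat n) : cj D (Z * W) = cj D Z * cj D W := by
  have h : D.U * D.Uᴴ = 1 := Matrix.mem_unitaryGroup_iff.1 D.unit
  show D.Uᴴ * (Z * W) * D.U = D.Uᴴ * Z * D.U * (D.Uᴴ * W * D.U)
  calc _ = D.Uᴴ * Z * (D.U * D.Uᴴ) * W * D.U := by rw [h]; noncomm_ring
    _ = _ := by noncomm_ring

lemma cj_inj {Z : Mat n} (hZ : ∀ j k, cj D Z j k = 0) : Z = 0 := by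
  have h : D.U * D.Uᴴ = 1 := Matrix.mem_unitaryGroup_iff.1 D.unit
  have h1 : D.Uᴴ * Z * D.U = 0 := Matrix.ext hZ
  calc Z = (D.U * D.Uᴴ) * Z * (D.U * D.Uᴴ) := by rw [h]; simp
    _ = D.U * (D.Uᴴ * Z * D.U) * D.Uᴴ := by noncomm_ring
    _ = 0 := by rw [h1]; simp

lemma cj_star (Z : Mat n) (j k : Fin n) : cj D Zᴴ j k = conj (cj D Z k j) := by
  show (D.Uᴴ * Zᴴ * D.U) j k = (D.Uᴴ * Z * D.U)ᴴ j k
  rw [Matrix.conjTranspose_mul, Matrix.conjTranspose_mul, Matrix.conjTranspose_conjTranspose,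
    mul_assoc]

lemma cj_ad {Y : Mat n} (hY : Y ∈ t) (Z : Mat n) (j k : Fin n) :
    cj D (Y * Z - Z * Y) j k = I * (β D (j, k) Y : ℝ) * cj D Z j k := by
  have h : cj D Y = _ := D.diag Y hY
  rw [map_sub, cj_mul, cj_mul, h]
  simp [β, Matrix.diagonal_mul, Matrix.mul_diagonal]
  ring

/-- matrices supported where the value at `X` satisfies `P` -/
def MM (X : Mat n) (P : ℝ → Prop) : Submodule ℂ (Mat n) where
  carrier := {Z | ∀ j k, ¬ P (β D (j, k) X) → cj D Z j k = 0}
  add_mem' ha hb j k h := by rw [map_add, Matrix.add_apply, ha j k h, hb j k h, add_zero]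
  zero_mem' j k _ := by simp
  smul_mem' c Z hZ j k h := by rw [map_smul, Matrix.smul_apply, hZ j k h, smul_zero]

variable {D}

lemma MM_mono {X : Mat n} {P Q : ℝ → Prop} (h : ∀ x, P x → Q x) : MM D X P ≤ MM D X Q :=
  fun _ hZ j k hq => hZ j k fun hp => hq (h _ hp)

lemma MM_star {X Z : Mat n} {P : ℝ → Prop} (h : Z ∈ MM D X P) : Zᴴ ∈ MM D X fun x => P (-x) :=
  fun j k hp => by
    rw [cj_star, h k j (by simpa [β] using hp), map_zero]

lemma MM_rank {X : Mat n} {P Q : ℝ → Prop} (h : ∀ x, P x → ¬ Q x) {A B : Submodule ℂ (Mat n)}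
    (hA : A ≤ MM D X P) (hB : B ≤ MM D X Q) :
    finrank ℂ (A ⊔ B : Submodule ℂ (Mat n)) = finrank ℂ A + finrank ℂ B := by
  have : A ⊓ B = ⊥ := (Submodule.eq_bot_iff _).2 fun Z hZ => cj_inj D fun j k => by
    by_cases hp : P (β D (j, k) X)
    exacts [hB hZ.2 j k (h _ hp), hA hZ.1 j k hp]
  rw [← finrank_sup_add_finrank_inf_eq, this, finrank_bot, add_zero]

lemma eig_mem {X : Mat n} (hX : X ∈ t) {c : ℂ} {W : Mat n} (hW : W ∈ Module.End.maxGenEigenspace
    (LinearMap.mulLeft ℂ X - LinearMap.mulRight ℂ X) c) : W ∈ MM D X fun x => x = c.im := by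
  obtain ⟨m, hm⟩ := (Module.End.mem_maxGenEigenspace _ _ _).1 hW
  intro j k hp
  have h : ∀ m : ℕ, cj D (((LinearMap.mulLeft ℂ X - LinearMap.mulRight ℂ X -
      c • (1 : Module.End ℂ (Mat n))) ^ m) W) j k =
        (I * (β D (j, k) X : ℝ) - c) ^ m * cj D W j k := fun m => by
    induction m with
    | zero => simp
    | succ m ih =>
      rw [pow_succ', Module.End.mul_apply, LinearMap.sub_apply, map_sub, Matrix.sub_apply,
        LinearMap.sub_apply, LinearMap.mulLeft_apply, LinearMap.mulRight_apply, cj_ad D hX,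
        LinearMap.smul_apply, Module.End.one_apply, map_smul, Matrix.smul_apply, ih, smul_eq_mul]
      ring
  have h1 := h m
  rw [hm, map_zero, Matrix.zero_apply] at h1
  refine (mul_eq_zero.1 h1.symm).resolve_left (pow_ne_zero _ fun e => hp ?_)
  simpa [sub_eq_zero] using congrArg Complex.im e

lemma generic (D : Diag t) : ∃ X ∈ t, (∀ p, β D p X = 0 → ∀ Y ∈ t, β D p Y = 0) ∧
    ∀ p q, β D p X = β D q X → ∀ Y ∈ t, β D p Y = β D q Y := by
  let f : Option (Fin n × Fin n) → Mat n →ₗ[ℝ] ℝ := fun o => o.elim 0 (β D)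
  obtain ⟨X, hX, h⟩ := Module.Dual.exists_forall_mem_ne_zero_of_forall_exists t
    (fun a : {a : Option (Fin n × Fin n) × Option (Fin n × Fin n) //
      ∃ Y ∈ t, (f a.1 - f a.2) Y ≠ 0} => f a.1.1 - f a.1.2) fun a => a.2
  refine ⟨X, hX, fun p hp Y hY => ?_, fun p q hp Y hY => ?_⟩
  · by_contra hn
    exact h ⟨(some p, none), Y, hY, by simpa [f] using hn⟩ (by simpa [f] using hp)
  · by_contra hn
    exact h ⟨(some p, some q), Y, hY, by simpa [f, sub_eq_zero] using hn⟩
      (by simpa [f, sub_eq_zero] using hp)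

variable {G : Type} [Group G] [TopologicalSpace G] {ρ : G →* Mat n}

lemma cent (hL : LIE ρ) (ht : IsCartan ρ t) {W : Mat n} (hW : W ∈ gC ρ)
    (h : ∀ T ∈ t, T * W - W * T = 0) : ∃ X ∈ t, ∃ Y ∈ t, W = X + I • Y := by
  obtain ⟨X, hX, Y, hY, rfl⟩ := hL.gC_decomp W hW
  have key : ∀ T ∈ t, X * T = T * X ∧ Y * T = T * Y := fun T hT => by
    have h1 := h T hT
    have h2 := congrArg Matrix.conjTranspose h1
    simp only [Matrix.conjTranspose_sub, Matrix.conjTranspose_mul, Matrix.conjTranspose_add,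
      Matrix.conjTranspose_smul, hL.skew _ hX, hL.skew _ hY, hL.skew _ (ht.le hT),
      Matrix.conjTranspose_zero, RCLike.star_def, conj_I] at h2
    simp only [mul_add, add_mul, mul_neg, neg_mul, smul_neg, neg_smul, neg_neg, mul_smul_comm,
      smul_mul_assoc] at h1 h2
    constructor
    · linear_combination (norm := module) (1 / 2 : ℂ) • h2 - (1 / 2 : ℂ) • h1
    · have h3 : I • (Y * T) = I • (T * Y) := by
        linear_combination (norm := module) (-1 / 2 : ℂ) • h2 - (1 / 2 : ℂ) • h1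
      exact smul_right_injective _ I_ne_zero h3
  exact ⟨X, ht.max X hX fun T hT => (key T hT).1, Y, ht.max Y hY fun T hT => (key T hT).2, rfl⟩

lemma coroot (hL : LIE ρ) (ht : IsCartan ρ t) {E : Mat n} (hE : E ∈ gC ρ) (h0 : E ≠ 0)
    {α : Mat n →ₗ[ℝ] ℝ} (h : ∀ Y ∈ t, Y * E - E * Y = (I * (α Y : ℝ)) • E) {X : Mat n} (hX : X ∈ t)
    (hα : 0 < α X) : I • (E * Eᴴ - Eᴴ * E) ∈ t ∧ 0 < α (I • (E * Eᴴ - Eᴴ * E)) := by
  obtain ⟨C, hC⟩ : ∃ C, C = E * Eᴴ - Eᴴ * E := ⟨_, rfl⟩
  have hs : Cᴴ = C := by simp [hC, Matrix.conjTranspose_mul]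
  rw [← hC]
  have hm : I • C ∈ t := by
    obtain ⟨A, hA, B, hB, e⟩ := cent hL ht (W := I • C)
      (smul_mem _ _ (hC ▸ hL.gC_lie _ hE _ (hL.gC_star _ hE))) fun T hT => by
        have h1 := h T hT
        have h2 := congrArg Matrix.conjTranspose h1
        simp only [Matrix.conjTranspose_sub, Matrix.conjTranspose_mul, Matrix.conjTranspose_smul,
          hL.skew _ (ht.le hT), RCLike.star_def, map_mul, conj_I, conj_ofReal, mul_neg, neg_mul,
          neg_smul] at h2
        have h3 : T * C - C * T = (T * E - E * T) * Eᴴ + E * (-(Eᴴ * T) - -(T * Eᴴ)) -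
            (-(Eᴴ * T) - -(T * Eᴴ)) * E - Eᴴ * (T * E - E * T) := by rw [hC]; noncomm_ring
        rw [mul_smul_comm, smul_mul_assoc, ← smul_sub, h3, h1, h2]
        simp
    have h2 := congrArg Matrix.conjTranspose e
    simp only [Matrix.conjTranspose_add, Matrix.conjTranspose_smul, hL.skew _ (ht.le hA),
      hL.skew _ (ht.le hB), RCLike.star_def, conj_I, hs] at h2
    have h3 : I • C = A := by linear_combination (norm := module) (1 / 2 : ℂ) • e - (1 / 2 : ℂ) • h2
    exact h3 ▸ hA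
  refine ⟨hm, ?_⟩
  have tr : ∀ Z : Mat n, ((Z * E - E * Z) * Eᴴ).trace = (Z * C).trace := fun Z => by
    rw [hC, sub_mul, mul_sub, Matrix.trace_sub, Matrix.trace_sub, mul_assoc, mul_assoc E,
      Matrix.trace_mul_comm E, mul_assoc]
  have hp := tr_pos h0
  have hC0 : C ≠ 0 := fun e => by
    have h1 := tr X
    rw [h X hX, e, smul_mul_assoc, Matrix.trace_smul] at h1
    simp [hp.ne', hα.ne'] at h1
  have h1 := tr (I • C)
  rw [h _ hm, smul_mul_assoc, smul_mul_assoc, Matrix.trace_smul, Matrix.trace_smul, smul_eq_mul,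
    smul_eq_mul, mul_assoc] at h1
  have h2 := tr_pos hC0
  rw [hs, ← mul_left_cancel₀ I_ne_zero h1, Complex.pos_iff, re_ofReal_mul] at h2
  exact (mul_pos_iff_of_pos_right (Complex.pos_iff.1 hp).1).1 h2.1

end LRoots

open LRoots

variable {G : Type} [Group G] [TopologicalSpace G] {n : ℕ} {ρ : G →* Mat n}
  {t : Submodule ℝ (Mat n)}

theorem roots_ok (hL : LIE ρ) (ht : IsCartan ρ t) (D : Diag t) : Nonempty (Roots ρ t) := by
  obtain ⟨X, hX, g0, g1⟩ := generic D
  obtain ⟨Rt, hRt⟩ : ∃ Rt : Set (Mat n), Rt = {Z | Z ∈ gC ρ ∧ ∃ c, 0 < c ∧ Z ∈ MM D X (· = c)} :=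
    ⟨_, rfl⟩
  obtain ⟨E, hE, hsp, hi⟩ := exists_fun_fin_finrank_span_eq ℂ Rt
  have hE' : ∀ i, E i ∈ gC ρ ∧ ∃ c, 0 < c ∧ E i ∈ MM D X (· = c) := fun i => by
    have := hE i
    rwa [hRt] at this
  have hα : ∀ i, ∃ α : Mat n →ₗ[ℝ] ℝ, 0 < α X ∧ ∀ Y ∈ t, Y * E i - E i * Y = (I * (α Y : ℝ)) • E i :=
    fun i => by
      obtain ⟨-, c, hc, hM⟩ := hE' i
      obtain ⟨j, k, hjk⟩ : ∃ j k, cj D (E i) j k ≠ 0 := by
        by_contra! hn
        exact hi.ne_zero i (cj_inj D hn)
      have e : β D (j, k) X = c := by_contra fun hn => hjk (hM j k hn)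
      refine ⟨β D (j, k), e ▸ hc, fun Y hY => sub_eq_zero.1 (cj_inj D fun j' k' => ?_)⟩
      rw [map_sub, Matrix.sub_apply, cj_ad D hY, map_smul, Matrix.smul_apply, smul_eq_mul]
      by_cases h : β D (j', k') X = c
      · rw [g1 _ _ (h.trans e.symm) Y hY, sub_self]
      · simp [hM j' k' h]
  choose α hα0 hα1 using hα
  have hin : ∀ W ∈ gC ρ, ∀ c, 0 < c → W ∈ MM D X (· = c) → W ∈ span ℂ (Set.range E) :=
    fun W hW c hc hM => hsp.ge (subset_span (by rw [hRt]; exact ⟨hW, c, hc, hM⟩))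
  have hspan : gC ρ ≤ span ℂ (t : Set (Mat n)) ⊔ (span ℂ (Set.range E) ⊔
      span ℂ (Set.range fun i => (E i)ᴴ)) := by
    rw [eq_iSup_inf_genEigenspace (p := gC ρ) (f := LinearMap.mulLeft ℂ X - LinearMap.mulRight ℂ X)
      ⊤ (fun Z hZ => hL.gC_lie _ (subset_span (ht.le hX)) _ hZ) (Module.End.iSup_maxGenEigenspace_eq_top _)]
    refine iSup_le fun c W hW => ?_
    have hM := eig_mem (D := D) hX hW.2
    rcases lt_trichotomy 0 c.im with h | h | h
    · exact mem_sup_right (mem_sup_left (hin _ hW.1 _ h hM))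
    · obtain ⟨A, hA, B, hB, rfl⟩ := cent hL ht hW.1 fun T hT => cj_inj D fun j k => by
        rw [cj_ad D hT]
        by_cases h' : β D (j, k) X = c.im
        · simp [g0 _ (h'.trans h.symm) T hT]
        · simp [hM j k h']
      exact mem_sup_left (add_mem (subset_span hA) (smul_mem _ _ (subset_span hB)))
    · have h1 := hin _ (hL.gC_star _ hW.1) _ (neg_pos.2 h)
        (MM_mono (fun x hx => neg_eq_iff_eq_neg.1 hx) (MM_star hM))
      exact mem_sup_right (mem_sup_right (by simpa using star_span h1))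
  have hp : ∀ i, E i ∈ MM D X (0 < ·) := fun i => by
    obtain ⟨-, c, hc, hM⟩ := hE' i
    exact MM_mono (fun x hx => hx ▸ hc) hM
  have m0 : span ℂ (t : Set (Mat n)) ≤ MM D X (· = 0) := span_le.2 fun Y hY j k h => by
    have e : cj D Y = _ := D.diag Y hY
    rw [e, Matrix.diagonal_apply_ne]
    rintro rfl
    simp [β] at h
  have m1 : span ℂ (Set.range E) ≤ MM D X (0 < ·) := span_le.2 (Set.range_subset_iff.2 hp)
  have m2 : span ℂ (Set.range fun i => (E i)ᴴ) ≤ MM D X (· < 0) :=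
    span_le.2 (Set.range_subset_iff.2 fun i => MM_mono (fun x hx => neg_pos.1 hx) (MM_star (hp i)))
  have heq := le_antisymm hspan (sup_le (span_mono ht.le) (sup_le
    (span_le.2 (Set.range_subset_iff.2 fun i => (hE' i).1))
    (span_le.2 (Set.range_subset_iff.2 fun i => hL.gC_star _ (hE' i).1))))
  have hc := fun i => coroot hL ht (hE' i).1 (hi.ne_zero i) (hα1 i) hX (hα0 i)
  refine ⟨⟨_, E, α, fun i => I • (E i * (E i)ᴴ - (E i)ᴴ * E i), X, hX, fun i => (hE' i).1,
    hi.ne_zero, hα1, hα0, fun Z hZ => ?_, ?_, fun i => (hc i).1, fun i => ?_, fun i => (hc i).2⟩⟩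
  · rw [span_union, span_union, sup_assoc]
    exact hspan hZ
  · rw [← rank_skew _ hL.skew, ← gC, heq, MM_rank (Q := (· ≠ 0)) (fun x hx h => h hx) m0
      (sup_le (m1.trans (MM_mono fun x hx => hx.ne')) (m2.trans (MM_mono fun x hx => hx.ne))),
      MM_rank (fun x hx => hx.not_gt) m1 m2, rank_skew _ fun Y hY => hL.skew Y (ht.le hY),
      finrank_span_eq_card hi, finrank_span_eq_card (indep_star hi), Fintype.card_fin]
    ring
  · rw [smul_smul]
    simp

end Pool.Agent.P.MP_7211b7_an
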