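import Pool.Agent.P.MP_7211b7_an.DefsT

open MeasureTheory ComplexConjugate
open scoped ENNReal

namespace Pool.Agent.P.MP_7211b7_an

namespace LSum

theorem geom {ι : Type} (S : Finset ι) (f : ι → ℕ) (hf : Set.InjOn f S) {r : ℝ} (h0 : 0 ≤ r)
    (h1 : r < 1) : ∑ i ∈ S, r ^ f i ≤ (1 - r)⁻¹ := by
  rw [← Finset.sum_image (f := fun n => r ^ n) hf, ← tsum_geometric_of_lt_one h0 h1]
  exact (summable_geometric_of_lt_one h0 h1).sum_le_tsum _ fun _ _ => by positivity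

/-- exponential decay summed along a progression -/
theorem prog (S : Finset ℤ) {c δ : ℝ} (hc : 0 < c) (hδ : 0 < δ) (t : ℝ) :
    ∑ i ∈ S, (2 : ℝ) ^ (-(c * |δ * i + t|)) ≤ 2 * (1 - (2 : ℝ) ^ (-(c * δ)))⁻¹ := by
  set i0 : ℤ := ⌈-t / δ⌉ with hi0
  have a1 : -t ≤ δ * i0 := by
    have := Int.le_ceil (-t / δ)
    rwa [div_le_iff₀' hδ] at this
  have a2 : δ * (i0 - 1) < -t := by
    have := Int.ceil_lt_add_one (-t / δ)
    rw [← lt_div_iff₀' hδ]; linarith
  have r0 : (0 : ℝ) ≤ (2 : ℝ) ^ (-(c * δ)) := by positivity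
  have r1 : (2 : ℝ) ^ (-(c * δ)) < 1 :=
    Real.rpow_lt_one_of_one_lt_of_neg (by norm_num) (by nlinarith)
  have key : ∀ (i : ℤ) (n : ℕ), δ * n ≤ |δ * i + t| →
      (2 : ℝ) ^ (-(c * |δ * i + t|)) ≤ ((2 : ℝ) ^ (-(c * δ))) ^ n := by
    intro i n h
    rw [← Real.rpow_mul_natCast (by norm_num)]
    exact Real.rpow_le_rpow_of_exponent_le (by norm_num) (by nlinarith)
  rw [← Finset.sum_filter_add_sum_filter_not S (fun i => i0 ≤ i), two_mul]
  refine add_le_add ?_ ?_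
  · refine (Finset.sum_le_sum fun i hi => key i (i - i0).toNat ?_).trans (geom _ _ ?_ r0 r1)
    · have h := (Finset.mem_filter.1 hi).2
      have : (((i - i0).toNat : ℕ) : ℝ) = i - i0 := by
        have : (((i - i0).toNat : ℕ) : ℤ) = i - i0 := by omega
        exact_mod_cast this
      rw [this]
      exact le_trans (by linarith) (le_abs_self _)
    · intro i hi j hj h
      have h1 := (Finset.mem_filter.1 hi).2
      have h2 := (Finset.mem_filter.1 hj).2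
      simp only at h
      omega
  · refine (Finset.sum_le_sum fun i hi => key i (i0 - 1 - i).toNat ?_).trans (geom _ _ ?_ r0 r1)
    · have h := (Finset.mem_filter.1 hi).2
      have : (((i0 - 1 - i).toNat : ℕ) : ℝ) = i0 - 1 - i := by
        have : (((i0 - 1 - i).toNat : ℕ) : ℤ) = i0 - 1 - i := by omega
        exact_mod_cast this
      rw [this]
      exact le_trans (by linarith) (neg_le_abs _)
    · intro i hi j hj h
      have h1 := (Finset.mem_filter.1 hi).2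
      have h2 := (Finset.mem_filter.1 hj).2
      simp only at h
      omega

theorem lac (J : Finset ℤ) {p B : ℝ} (hp : 1 ≤ p) (hB : 0 ≤ B)
    (h : ∀ j ∈ J, ((2 : ℝ) ^ (j : ℝ)) ^ p ≤ B) : ∑ j ∈ J, ((2 : ℝ) ^ (j : ℝ)) ^ p ≤ 2 * B := by
  rcases J.eq_empty_or_nonempty with rfl | hne
  · simp only [Finset.sum_empty]; positivity
  set s := J.max' hne with hs
  have hg := geom J (fun j => (s - j).toNat) (by
    intro i hi j hj h
    have h1 : i ≤ s := J.le_max' i hi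
    have h2 : j ≤ s := J.le_max' j hj
    simp only at h
    omega) (r := 1 / 2) (by norm_num) (by norm_num)
  have : ∀ j ∈ J, ((2 : ℝ) ^ (j : ℝ)) ^ p ≤ (1 / 2 : ℝ) ^ (s - j).toNat * B := by
    intro j hj
    have h1 : j ≤ s := J.le_max' j hj
    have h1' : (j : ℝ) ≤ s := by exact_mod_cast h1
    have e : (((s - j).toNat : ℕ) : ℝ) = s - j := by
      have : (((s - j).toNat : ℕ) : ℤ) = s - j := by omega
      exact_mod_cast this
    refine le_trans ?_ (mul_le_mul_of_nonneg_left (h s (J.max'_mem hne)) (by positivity))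
    rw [one_div, inv_pow, ← Real.rpow_natCast, ← Real.rpow_neg (by norm_num), e,
      ← Real.rpow_mul (by norm_num), ← Real.rpow_mul (by norm_num),
      ← Real.rpow_add (by norm_num)]
    exact Real.rpow_le_rpow_of_exponent_le (by norm_num) (by nlinarith)
  refine (Finset.sum_le_sum this).trans ?_
  rw [← Finset.sum_mul]
  exact mul_le_mul_of_nonneg_right (hg.trans (by norm_num)) hB

theorem sum_rpow_le {ι : Type} (L : Finset ι) (a : ι → ℝ) (ha : ∀ l, 0 ≤ a l) {p : ℝ}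
    (hp : 2 ≤ p) : ∑ l ∈ L, a l ^ p ≤ (∑ l ∈ L, a l ^ 2) ^ (p / 2) := by
  set S := ∑ l ∈ L, a l ^ 2 with hS
  have hS0 : 0 ≤ S := Finset.sum_nonneg fun _ _ => by positivity
  have e : ∀ x : ℝ, 0 ≤ x → x ^ (p / 2) = x * x ^ (p / 2 - 1) := fun x hx => by
    conv_lhs => rw [show p / 2 = 1 + (p / 2 - 1) by ring]
    rw [Real.rpow_add' hx (by linarith), Real.rpow_one]
  rw [e S hS0]
  conv_rhs => rw [hS, Finset.sum_mul]
  refine Finset.sum_le_sum fun l hl => ?_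
  have h1 : a l ^ p = (a l ^ 2) ^ (p / 2) := by
    rw [← Real.rpow_natCast, ← Real.rpow_mul (ha l)]
    congr 1; push_cast; ring
  rw [h1, e _ (by positivity)]
  refine mul_le_mul_of_nonneg_left ?_ (by positivity)
  exact Real.rpow_le_rpow (by positivity)
    (Finset.single_le_sum (f := fun l => a l ^ 2) (fun _ _ => by positivity) hl) (by linarith)

/-- the discretised profile -/
noncomputable def Gs (c κ : ℝ) (K : ℕ) (γ : ℕ → ℝ) (l : ℤ) : ℝ :=
  ∑ k ∈ Finset.range K, γ k * (2 : ℝ) ^ (-(c * |κ * k + l|))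

theorem Gs_nonneg (c κ : ℝ) (K : ℕ) {γ : ℕ → ℝ} (hγ : ∀ k, 0 ≤ γ k) (l : ℤ) :
    0 ≤ Gs c κ K γ l :=
  Finset.sum_nonneg fun k _ => mul_nonneg (hγ k) (by positivity)

theorem schur {c κ : ℝ} (hc : 0 < c) (hκ : 0 < κ) (K : ℕ) (γ : ℕ → ℝ) (L : Finset ℤ) :
    ∑ l ∈ L, Gs c κ K γ l ^ 2 ≤ 2 * (1 - (2 : ℝ) ^ (-(c * κ)))⁻¹ *
      (2 * (1 - (2 : ℝ) ^ (-(c * 1)))⁻¹) * ∑ k ∈ Finset.range K, γ k ^ 2 := by
  set C1 := 2 * (1 - (2 : ℝ) ^ (-(c * κ)))⁻¹ with hC1
  set C2 := 2 * (1 - (2 : ℝ) ^ (-(c * 1)))⁻¹ with hC2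
  have p1 : 0 ≤ C1 := (Finset.sum_empty).symm.trans_le (prog ∅ hc hκ 0)
  have h1 : ∀ l : ℤ, ∑ k ∈ Finset.range K, (2 : ℝ) ^ (-(c * |κ * k + l|)) ≤ C1 := by
    intro l
    have := prog ((Finset.range K).image (Nat.cast : ℕ → ℤ)) hc hκ l
    rw [Finset.sum_image (fun _ _ _ _ h => Nat.cast_injective h)] at this
    simpa using this
  have h2 : ∀ k : ℕ, ∑ l ∈ L, (2 : ℝ) ^ (-(c * |κ * k + l|)) ≤ C2 := by
    intro k
    have := prog L hc one_pos (κ * k)
    simpa only [one_mul, add_comm] using this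
  have h3 : ∀ l ∈ L, Gs c κ K γ l ^ 2 ≤
      C1 * ∑ k ∈ Finset.range K, γ k ^ 2 * (2 : ℝ) ^ (-(c * |κ * k + l|)) := by
    intro l _
    refine le_trans (Finset.sum_sq_le_sum_mul_sum_of_sq_le_mul (Finset.range K)
      (f := fun k : ℕ => (2 : ℝ) ^ (-(c * |κ * k + l|)))
      (g := fun k : ℕ => γ k ^ 2 * (2 : ℝ) ^ (-(c * |κ * k + l|)))
      (fun _ _ => by positivity) (fun _ _ => by positivity) (fun _ _ => le_of_eq (by ring))) ?_
    exact mul_le_mul_of_nonneg_right (h1 l) (Finset.sum_nonneg fun _ _ => by positivity)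
  refine (Finset.sum_le_sum h3).trans ?_
  rw [← Finset.mul_sum, Finset.sum_comm, mul_assoc C1]
  refine mul_le_mul_of_nonneg_left ?_ p1
  rw [Finset.mul_sum]
  refine Finset.sum_le_sum fun k _ => ?_
  rw [← Finset.mul_sum, mul_comm]
  exact mul_le_mul_of_nonneg_right (h2 k) (by positivity)

theorem prof_le {c : ℝ} (hc : 0 < c) (κ : ℝ) (K : ℕ) {γ : ℕ → ℝ} (hγ : ∀ k, 0 ≤ γ k) {m : ℝ}
    (hm : 0 < m) : ∑ k ∈ Finset.range K, γ k * min (((2 : ℝ) ^ (κ * k) * m) ^ c)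
      (((2 : ℝ) ^ (κ * k) * m) ^ (-c)) ≤ 2 ^ c * Gs c κ K γ ⌊Real.logb 2 m⌋ := by
  unfold Gs
  rw [Finset.mul_sum]
  refine Finset.sum_le_sum fun k _ => ?_
  rw [mul_left_comm]
  refine mul_le_mul_of_nonneg_left ?_ (hγ k)
  obtain ⟨s, rfl⟩ : ∃ s : ℝ, m = 2 ^ s :=
    ⟨Real.logb 2 m, (Real.rpow_logb (by norm_num) (by norm_num) hm).symm⟩
  rw [Real.logb_rpow (by norm_num) (by norm_num), ← Real.rpow_add (by norm_num),
    ← Real.rpow_add (by norm_num), ← Real.rpow_mul (by norm_num), ← Real.rpow_mul (by norm_num)]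
  have f1 := Int.floor_le s
  have f2 := Int.lt_floor_add_one s
  rcases abs_cases (κ * k + (⌊s⌋ : ℝ)) with h | h
  · refine (min_le_right _ _).trans (Real.rpow_le_rpow_of_exponent_le (by norm_num) ?_)
    rw [h.1]; nlinarith
  · refine (min_le_left _ _).trans (Real.rpow_le_rpow_of_exponent_le (by norm_num) ?_)
    rw [h.1]; nlinarith

/-- cutoff profile -/
noncomputable def eta (s : ℝ) : ℝ := max 0 (min 1 (min (2 * s - 1) ((4 - s) / 2)))

/-- test function at height `t` -/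
noncomputable def th (t : ℝ) (z : ℂ) : ℂ := ((eta (‖z‖ / t) / (4 * t) : ℝ) : ℂ) * z

theorem eta_nonneg (s : ℝ) : 0 ≤ eta s := le_max_left _ _

theorem eta_le (s : ℝ) : eta s ≤ 1 := max_le zero_le_one (min_le_left _ _)

theorem eta_ne {s : ℝ} (h : eta s ≠ 0) : 1 / 2 ≤ s ∧ s ≤ 4 := by
  unfold eta at h
  constructor
  · by_contra h1
    exact h (max_eq_left ((min_le_right _ _).trans ((min_le_left _ _).trans (by linarith))))
  · by_contra h1
    exact h (max_eq_left ((min_le_right _ _).trans ((min_le_right _ _).trans (by linarith))))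

theorem eta_one {s : ℝ} (h1 : 1 ≤ s) (h2 : s ≤ 2) : eta s = 1 := by
  unfold eta
  rw [min_eq_left (le_min (by linarith) (by linarith)), max_eq_right zero_le_one]

theorem continuous_th (t : ℝ) : Continuous (th t) := by
  unfold th eta; fun_prop

theorem norm_th {t : ℝ} (ht : 0 < t) (z : ℂ) : ‖th t z‖ = eta (‖z‖ / t) / (4 * t) * ‖z‖ := by
  have := eta_nonneg (‖z‖ / t)
  unfold th
  rw [norm_mul, Complex.norm_real, Real.norm_of_nonneg (by positivity)]

theorem th_cases {t : ℝ} (ht : 0 < t) (z : ℂ) : ‖th t z‖ = 0 ∨ (t / 2 ≤ ‖z‖ ∧ ‖z‖ ≤ 4 * t) := by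
  by_cases h : eta (‖z‖ / t) = 0
  · left; rw [norm_th ht, h]; simp
  · right
    obtain ⟨h1, h2⟩ := eta_ne h
    rw [le_div_iff₀ ht] at h1
    rw [div_le_iff₀ ht] at h2
    exact ⟨by linarith, h2⟩

theorem norm_th_le {t : ℝ} (ht : 0 < t) (z : ℂ) : ‖th t z‖ ≤ 1 := by
  rcases th_cases ht z with h | h
  · rw [h]; exact zero_le_one
  · rw [norm_th ht, div_mul_eq_mul_div, div_le_one (by positivity)]
    nlinarith [eta_le (‖z‖ / t), eta_nonneg (‖z‖ / t), norm_nonneg z, h.2]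

theorem mul_conj_th {t : ℝ} (ht : 0 < t) (z : ℂ) :
    z * conj (th t z) = ((‖z‖ * ‖th t z‖ : ℝ) : ℂ) := by
  rw [norm_th ht]
  unfold th
  rw [map_mul, Complex.conj_ofReal, mul_left_comm, Complex.mul_conj, Complex.normSq_eq_norm_sq]
  push_cast; ring

theorem th_ge {t : ℝ} (ht : 0 < t) {z : ℂ} (h1 : t ≤ ‖z‖) (h2 : ‖z‖ ≤ 2 * t) :
    1 ≤ 4 * ‖th t z‖ := by
  rw [norm_th ht, eta_one ((one_le_div ht).2 h1) ((div_le_iff₀ ht).2 h2)]
  have : 4 * (1 / (4 * t) * ‖z‖) = ‖z‖ / t := by field_simp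
  rw [this]
  exact (one_le_div ht).2 h1

variable {X : Type} [MeasurableSpace X] {ν : Measure X} [IsFiniteMeasure ν] {u : X → ℂ}

theorem integrable_th {t : ℝ} (ht : 0 < t) (hu : Measurable u) :
    Integrable (fun x => ‖th t (u x)‖) ν :=
  Integrable.of_bound ((continuous_th t).measurable.comp hu).norm.aestronglyMeasurable 1
    (Filter.Eventually.of_forall fun x => by rw [norm_norm]; exact norm_th_le ht _)

theorem lower {t : ℝ} (ht : 0 < t) (hu : Measurable u) :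
    t / 2 * ∫ x, ‖th t (u x)‖ ∂ν ≤ ‖∫ x, u x * conj (th t (u x)) ∂ν‖ := by
  simp only [mul_conj_th ht]
  rw [integral_complex_ofReal, Complex.norm_real, ← integral_const_mul]
  refine le_trans (integral_mono ((integrable_th ht hu).const_mul _) ?_ fun x => ?_)
    (le_abs_self _)
  · refine Integrable.of_bound (hu.norm.mul
      ((continuous_th t).measurable.comp hu).norm).aestronglyMeasurable (4 * t)
      (Filter.Eventually.of_forall fun x => ?_)
    rw [Real.norm_of_nonneg (by positivity)]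
    rcases th_cases ht (u x) with h | h
    · rw [h, mul_zero]; positivity
    · nlinarith [norm_th_le ht (u x), norm_nonneg (th t (u x)), norm_nonneg (u x), h.2]
  · rcases th_cases ht (u x) with h | h
    · simp only [h, mul_zero, le_refl]
    · exact mul_le_mul_of_nonneg_right h.1 (norm_nonneg _)

theorem weak {p t m G : ℝ} (hp : 0 < p) (ht : 0 < t) (hm : 0 < m)
    (h : t / 2 * m ≤ m ^ (1 - 1 / p) * G) : t ^ p * m ≤ (2 * G) ^ p := by
  have e : m = m ^ (1 - 1 / p) * m ^ (1 / p) := by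
    rw [← Real.rpow_add hm]; simp
  have h1 : t * m ^ (1 / p) ≤ 2 * G := by
    have hpos : 0 < m ^ (1 - 1 / p) := Real.rpow_pos_of_pos hm _
    refine le_of_mul_le_mul_left ?_ hpos
    nth_rewrite 1 [e] at h
    nlinarith
  have h2 := Real.rpow_le_rpow (by positivity) h1 hp.le
  rwa [Real.mul_rpow ht.le (by positivity), ← Real.rpow_mul hm.le, one_div_mul_cancel hp.ne',
    Real.rpow_one] at h2

theorem fibre {p : ℝ} (hp : 1 ≤ p) (m A : ℤ → ℝ) (hm : ∀ j, 0 ≤ m j) (hA : ∀ l, 0 ≤ A l)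
    (h : ∀ j : ℤ, 0 < m j → ((2 : ℝ) ^ (j : ℝ)) ^ p * m j ≤ A ⌊Real.logb 2 (m j)⌋)
    (J : Finset ℤ) : ∃ L : Finset ℤ,
      ∑ j ∈ J, ((2 : ℝ) ^ (j : ℝ)) ^ p * m j ≤ 4 * ∑ l ∈ L, A l := by
  set J' := J.filter (fun j => 0 < m j) with hJ'
  refine ⟨J'.image fun j => ⌊Real.logb 2 (m j)⌋, ?_⟩
  have e : ∑ j ∈ J, ((2 : ℝ) ^ (j : ℝ)) ^ p * m j = ∑ j ∈ J', ((2 : ℝ) ^ (j : ℝ)) ^ p * m j := by
    refine (Finset.sum_filter_of_ne fun j _ hj => ?_).symm
    exact lt_of_le_of_ne (hm j) fun h0 => hj (by rw [← h0, mul_zero])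
  rw [e, ← Finset.sum_fiberwise_of_maps_to (s := J')
    (t := J'.image fun j => ⌊Real.logb 2 (m j)⌋) (g := fun j => ⌊Real.logb 2 (m j)⌋)
    (fun j hj => Finset.mem_image_of_mem _ hj), Finset.mul_sum]
  refine Finset.sum_le_sum fun l _ => ?_
  have pos : (0 : ℝ) < 2 ^ (l : ℝ) := by positivity
  have hb : ∀ j ∈ J'.filter (fun j => ⌊Real.logb 2 (m j)⌋ = l),
      0 < m j ∧ (2 : ℝ) ^ (l : ℝ) ≤ m j ∧ m j ≤ 2 * 2 ^ (l : ℝ) := by
    intro j hj
    obtain ⟨h1, rfl⟩ := Finset.mem_filter.1 hj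
    have h2 := (Finset.mem_filter.1 h1).2
    refine ⟨h2, ?_, ?_⟩
    · exact (Real.le_logb_iff_rpow_le (by norm_num) h2).1 (Int.floor_le _)
    · have := (Real.logb_le_iff_le_rpow (by norm_num) h2).1
        (Int.lt_floor_add_one (Real.logb 2 (m j))).le
      rwa [Real.rpow_add (by norm_num), Real.rpow_one, mul_comm] at this
  have h1 := lac (J'.filter (fun j => ⌊Real.logb 2 (m j)⌋ = l)) (B := A l / 2 ^ (l : ℝ)) hp
    (div_nonneg (hA l) pos.le) (by
      intro j hj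
      obtain ⟨a1, a2, -⟩ := hb j hj
      have := h j a1
      rw [(Finset.mem_filter.1 hj).2] at this
      rw [le_div_iff₀ pos]
      exact (mul_le_mul_of_nonneg_left a2 (by positivity)).trans this)
  calc _ ≤ ∑ j ∈ J'.filter (fun j => ⌊Real.logb 2 (m j)⌋ = l),
        ((2 : ℝ) ^ (j : ℝ)) ^ p * (2 * 2 ^ (l : ℝ)) :=
        Finset.sum_le_sum fun j hj => mul_le_mul_of_nonneg_left (hb j hj).2.2 (by positivity)
    _ ≤ 2 * (A l / 2 ^ (l : ℝ)) * (2 * 2 ^ (l : ℝ)) := by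
        rw [← Finset.sum_mul]
        exact mul_le_mul_of_nonneg_right h1 (by positivity)
    _ = 4 * A l := by field_simp; ring

theorem layer {p D : ℝ} (hp : 0 < p) (hu : Measurable u)
    (h : ∀ J : Finset ℤ,
      ∑ j ∈ J, ((2 : ℝ) ^ (j : ℝ)) ^ p * ∫ x, ‖th (2 ^ (j : ℝ)) (u x)‖ ∂ν ≤ D) :
    ∫ x, ‖u x‖ ^ p ∂ν ≤ 4 * 2 ^ p * D := by
  have hD : 0 ≤ D := by simpa using h ∅
  have hi : ∀ j : ℤ, Integrable
      (fun x => 4 * 2 ^ p * (((2 : ℝ) ^ (j : ℝ)) ^ p * ‖th (2 ^ (j : ℝ)) (u x)‖)) ν := fun j =>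
    ((integrable_th (by positivity) hu).const_mul _).const_mul _
  rw [integral_eq_lintegral_of_nonneg_ae (Filter.Eventually.of_forall fun x => by positivity)
    (hu.norm.pow_const p).aestronglyMeasurable]
  refine ENNReal.toReal_le_of_le_ofReal (by positivity) ?_
  have pt : ∀ x, ENNReal.ofReal (‖u x‖ ^ p) ≤ ∑' j : ℤ, ENNReal.ofReal
      (4 * 2 ^ p * (((2 : ℝ) ^ (j : ℝ)) ^ p * ‖th (2 ^ (j : ℝ)) (u x)‖)) := by
    intro x
    rcases (norm_nonneg (u x)).eq_or_lt with h0 | h0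
    · rw [← h0, Real.zero_rpow hp.ne']; simp
    refine le_trans (ENNReal.ofReal_le_ofReal ?_) (ENNReal.le_tsum ⌊Real.logb 2 ‖u x‖⌋)
    have a1 := (Real.le_logb_iff_rpow_le (b := 2) (by norm_num) h0).1 (Int.floor_le _)
    have a2 := (Real.logb_le_iff_le_rpow (by norm_num) h0).1
      (Int.lt_floor_add_one (Real.logb 2 ‖u x‖)).le
    rw [Real.rpow_add (by norm_num), Real.rpow_one, mul_comm] at a2
    have a3 := th_ge (by positivity) a1 a2
    have a4 := Real.rpow_le_rpow h0.le a2 hp.le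
    rw [Real.mul_rpow (by norm_num) (by positivity)] at a4
    refine a4.trans ?_
    have a5 : 0 ≤ (2 : ℝ) ^ p * ((2 : ℝ) ^ (⌊Real.logb 2 ‖u x‖⌋ : ℝ)) ^ p := by positivity
    nlinarith [mul_le_mul_of_nonneg_left a3 a5]
  refine (lintegral_mono pt).trans ?_
  rw [lintegral_tsum fun j => (hi j).aemeasurable.ennreal_ofReal, ENNReal.tsum_eq_iSup_sum]
  refine iSup_le fun J => ?_
  have e : ∀ j : ℤ, ∫⁻ x, ENNReal.ofReal
      (4 * 2 ^ p * (((2 : ℝ) ^ (j : ℝ)) ^ p * ‖th (2 ^ (j : ℝ)) (u x)‖)) ∂ν = ENNReal.ofReal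
      (4 * 2 ^ p * (((2 : ℝ) ^ (j : ℝ)) ^ p * ∫ x, ‖th (2 ^ (j : ℝ)) (u x)‖ ∂ν)) := by
    intro j
    rw [← ofReal_integral_eq_lintegral_ofReal (hi j)
      (Filter.Eventually.of_forall fun x => by positivity), integral_const_mul, integral_const_mul]
  simp only [e]
  rw [← ENNReal.ofReal_sum_of_nonneg fun j _ => by positivity, ← Finset.mul_sum]
  exact ENNReal.ofReal_le_ofReal (mul_le_mul_of_nonneg_left (h J) (by positivity))

end LSum

open LSum

theorem lsum : LSUM := by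
  intro p c κ hp hc hκ
  set C0 := 2 * (1 - (2 : ℝ) ^ (-(c * κ)))⁻¹ * (2 * (1 - (2 : ℝ) ^ (-(c * 1)))⁻¹) with hC0
  have p0 : 0 ≤ C0 := mul_nonneg ((Finset.sum_empty).symm.trans_le (prog ∅ hc hκ 0))
    ((Finset.sum_empty).symm.trans_le (prog ∅ hc one_pos 0))
  refine ⟨4 * 2 ^ p * (4 * (2 * 2 ^ c) ^ p * (C0 + 1) ^ (p / 2)), by positivity, ?_⟩
  intro X _ ν _ u K γ hu _ hγ H
  rw [mul_assoc (4 * 2 ^ p)]
  refine layer (by linarith) hu fun J => ?_
  obtain ⟨L, hL⟩ := fibre (p := p) (by linarith)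
    (fun j => ∫ x, ‖th (2 ^ (j : ℝ)) (u x)‖ ∂ν) (fun l => (2 * (2 ^ c * Gs c κ K γ l)) ^ p)
    (fun j => by positivity) (fun l => by have := Gs_nonneg c κ K hγ l; positivity) (by
      intro j hj
      have ht : (0 : ℝ) < 2 ^ (j : ℝ) := by positivity
      refine weak (by linarith) ht hj ((lower ht hu).trans ?_)
      refine (H _ (continuous_th _) (norm_th_le ht) hj).trans ?_
      exact mul_le_mul_of_nonneg_left (prof_le hc κ K hγ hj) (by positivity)) J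
  refine hL.trans ?_
  have e : ∀ l, (2 * (2 ^ c * Gs c κ K γ l)) ^ p = (2 * 2 ^ c) ^ p * Gs c κ K γ l ^ p := by
    intro l
    rw [← mul_assoc, Real.mul_rpow (by positivity) (Gs_nonneg c κ K hγ l)]
  simp only [e]
  have hs : 0 ≤ ∑ k ∈ Finset.range K, γ k ^ 2 := Finset.sum_nonneg fun _ _ => by positivity
  rw [← Finset.mul_sum, mul_assoc, mul_assoc, ← Real.mul_rpow (by positivity) hs]
  refine mul_le_mul_of_nonneg_left (mul_le_mul_of_nonneg_left ?_ (by positivity)) (by norm_num)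
  refine (sum_rpow_le L _ (Gs_nonneg c κ K hγ) hp).trans ?_
  refine Real.rpow_le_rpow (Finset.sum_nonneg fun _ _ => by positivity)
    ((schur hc hκ K γ L).trans ?_) (by linarith)
  exact mul_le_mul_of_nonneg_right (by linarith) hs

end Pool.Agent.P.MP_7211b7_an
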