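import Pool.Agent.P.MP_7211b7_an.DefsL

/-!
# MP_7211b7_an, task L-UNIQ: the spanning half of PBW, cyclicity and uniqueness
-/

open MeasureTheory ComplexConjugate Complex
open scoped ENNReal Matrix

set_option linter.unusedSectionVars false

namespace Pool.Agent.P.MP_7211b7_an

namespace LUniq

section pbw

variable {V : Type} [AddCommGroup V] [Module ℂ V]

/-- span of the words of length `< k` with letters in `g`, applied to `v` -/
def A (g : Submodule ℂ (Module.End ℂ V)) (v : V) (k : ℕ) : Submodule ℂ V :=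
  Submodule.span ℂ {u | ∃ w : List (Module.End ℂ V), w.length < k ∧ (∀ x ∈ w, x ∈ g) ∧
    u = w.prod v}

variable {g : Submodule ℂ (Module.End ℂ V)} {v : V}

theorem A_mono {k k' : ℕ} (h : k ≤ k') : A g v k ≤ A g v k' :=
  Submodule.span_mono fun _ ⟨w, h1, h2, h3⟩ => ⟨w, h1.trans_le h, h2, h3⟩

theorem word_mem {k : ℕ} {w : List (Module.End ℂ V)} (h1 : w.length < k)
    (h2 : ∀ x ∈ w, x ∈ g) : w.prod v ∈ A g v k :=
  Submodule.subset_span ⟨w, h1, h2, rfl⟩

theorem mul_mem {k : ℕ} {x : Module.End ℂ V} (hx : x ∈ g) {u : V} (hu : u ∈ A g v k) :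
    x u ∈ A g v (k + 1) := by
  induction hu using Submodule.span_induction with
  | mem u hu =>
    obtain ⟨w, h1, h2, rfl⟩ := hu
    have : (x :: w).prod v ∈ A g v (k + 1) := by
      refine word_mem (by simpa using h1) ?_
      intro y hy
      rcases List.mem_cons.1 hy with rfl | hy
      · exact hx
      · exact h2 y hy
    simpa using this
  | zero => simp
  | add a b _ _ ha hb => rw [map_add]; exact add_mem ha hb
  | smul c a _ ha => rw [map_smul]; exact Submodule.smul_mem _ _ ha

theorem perm_mem (hg : ∀ x ∈ g, ∀ y ∈ g, x * y - y * x ∈ g) {w w' : List (Module.End ℂ V)}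
    (h : w.Perm w') (hw : ∀ x ∈ w, x ∈ g) : w.prod v - w'.prod v ∈ A g v w.length := by
  induction h with
  | nil => simp
  | cons x _ ih =>
    have := mul_mem (hw x (by simp)) (ih fun y hy => hw y (by simp [hy]))
    simpa using this
  | swap x y l =>
    have hx : x ∈ g := hw x (by simp)
    have hy : y ∈ g := hw y (by simp)
    have : ((y * x - x * y) :: l).prod v ∈ A g v (y :: x :: l).length := by
      refine word_mem (by simp) ?_
      intro z hz
      rcases List.mem_cons.1 hz with rfl | hz
      · exact hg y hy x hx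
      · exact hw z (by simp [hz])
    simpa using this
  | trans h1 _ ih1 ih2 =>
    have := add_mem (ih1 hw) (h1.length_eq ▸ ih2 fun x hx => hw x (h1.mem_iff.2 hx))
    simpa using this

/-- the ordered word with multiplicities `a` -/
def ord {N : ℕ} (a : Fin N → ℕ) : List (Fin N) :=
  (List.ofFn fun i => List.replicate (a i) i).flatten

theorem ord_prod {N : ℕ} (F : Fin N → Module.End ℂ V) (a : Fin N → ℕ) :
    ((ord a).map F).prod = mono F a := by
  unfold ord mono
  rw [List.map_flatten, List.prod_flatten, List.map_map, List.map_ofFn]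
  congr 2
  funext i
  simp

theorem perm_ord {N : ℕ} (l : List (Fin N)) : l.Perm (ord fun i => l.count i) := by
  rw [List.perm_iff_count]
  intro j
  unfold ord
  rw [List.count_flatten, List.map_ofFn, List.sum_ofFn]
  simp [List.count_replicate]

theorem A_le {N : ℕ} (F : Fin N → Module.End ℂ V) (Bo : Set (Module.End ℂ V))
    (hg : ∀ x ∈ Submodule.span ℂ (Set.range F ∪ Bo), ∀ y ∈ Submodule.span ℂ (Set.range F ∪ Bo),
      x * y - y * x ∈ Submodule.span ℂ (Set.range F ∪ Bo))
    (hv : ∀ y ∈ Bo, ∃ c : ℂ, y v = c • v) (k : ℕ) :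
    A (Submodule.span ℂ (Set.range F ∪ Bo)) v k ≤
      Submodule.span ℂ (Set.range fun a => mono F a v) := by
  induction k with
  | zero =>
    refine Submodule.span_le.2 ?_
    rintro _ ⟨w, h1, -, -⟩
    simp at h1
  | succ k ih =>
    have base : ∀ p : List (Module.End ℂ V), p.length ≤ k → (∀ x ∈ p, x ∈ Set.range F ∪ Bo) →
        p.prod v ∈ Submodule.span ℂ (Set.range fun a => mono F a v) := by
      intro p hk hp
      have hp' : ∀ x ∈ p, x ∈ Submodule.span ℂ (Set.range F ∪ Bo) := fun x hx =>
        Submodule.subset_span (hp x hx)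
      have key : ∀ q : List (Module.End ℂ V), p.Perm q →
          q.prod v ∈ Submodule.span ℂ (Set.range fun a => mono F a v) →
          p.prod v ∈ Submodule.span ℂ (Set.range fun a => mono F a v) := by
        intro q hq hq'
        have := add_mem (ih (A_mono hk (perm_mem (v := v) hg hq hp'))) hq'
        simpa using this
      by_cases hB : ∃ y ∈ p, y ∈ Bo
      · obtain ⟨y, hy, hyB⟩ := hB
        obtain ⟨s, s', rfl⟩ := List.append_of_mem hy
        obtain ⟨c, hc⟩ := hv y hyB
        refine key ((s ++ s') ++ [y]) ?_ ?_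
        · exact List.perm_middle.trans (List.perm_append_singleton y _).symm
        · have h1 : (s ++ s').prod v ∈ A (Submodule.span ℂ (Set.range F ∪ Bo)) v k := by
            refine word_mem ?_ ?_
            · simp only [List.length_append, List.length_cons] at hk ⊢
              omega
            · intro x hx
              refine hp' x ?_
              simp only [List.mem_append, List.mem_cons] at hx ⊢
              tauto
          rw [List.prod_append, List.prod_singleton, Module.End.mul_apply, hc, map_smul]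
          exact Submodule.smul_mem _ _ (ih h1)
      · have hF : p ∈ Set.range (List.map F) := by
          rw [Set.range_list_map]
          intro x hx
          rcases hp x hx with h | h
          · exact h
          · exact absurd ⟨x, hx, h⟩ hB
        obtain ⟨l, rfl⟩ := hF
        refine key _ ((perm_ord l).map F) ?_
        rw [ord_prod]
        exact Submodule.subset_span ⟨_, rfl⟩
    have main : ∀ w p : List (Module.End ℂ V), p.length + w.length ≤ k →
        (∀ x ∈ p, x ∈ Set.range F ∪ Bo) →
        (∀ x ∈ w, x ∈ Submodule.span ℂ (Set.range F ∪ Bo)) →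
        p.prod (w.prod v) ∈ Submodule.span ℂ (Set.range fun a => mono F a v) := by
      intro w
      induction w with
      | nil =>
        intro p hk hp _
        simpa using base p (by simpa using hk) hp
      | cons x w ihw =>
        intro p hk hp hw
        have hx := hw x (by simp)
        have hw' : ∀ y ∈ w, y ∈ Submodule.span ℂ (Set.range F ∪ Bo) := fun y hy =>
          hw y (by simp [hy])
        rw [List.prod_cons, Module.End.mul_apply]
        clear hw
        simp only [List.length_cons] at hk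
        induction hx using Submodule.span_induction with
        | mem x hx =>
          have := ihw (p ++ [x]) (by simp; omega) (by
            intro y hy
            rcases List.mem_append.1 hy with hy | hy
            · exact hp y hy
            · rw [List.mem_singleton.1 hy]; exact hx) hw'
          simpa using this
        | zero => simp
        | add a b _ _ ha hb =>
          rw [LinearMap.add_apply, map_add]; exact add_mem ha hb
        | smul c a _ ha =>
          rw [LinearMap.smul_apply, map_smul]; exact Submodule.smul_mem _ _ ha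
    refine Submodule.span_le.2 ?_
    rintro _ ⟨w, h1, h2, rfl⟩
    simpa using main w [] (by simp; omega) (by simp) h2

end pbw

end LUniq

theorem pbw : PBW := by
  intro V _ _ N F Bo v hg hv z hz u hu
  induction hu using Submodule.span_induction with
  | mem u hu =>
    obtain ⟨a, rfl⟩ := hu
    have h1 : ((LUniq.ord a).map F).prod v ∈
        LUniq.A (Submodule.span ℂ (Set.range F ∪ Bo)) v (((LUniq.ord a).map F).length + 1) := by
      refine LUniq.word_mem (by simp) ?_
      intro x hx
      obtain ⟨i, -, rfl⟩ := List.mem_map.1 hx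
      exact Submodule.subset_span (Or.inl ⟨i, rfl⟩)
    rw [LUniq.ord_prod] at h1
    exact LUniq.A_le F Bo hg hv _ (LUniq.mul_mem hz h1)
  | zero => simp
  | add a b _ _ ha hb => rw [map_add]; exact add_mem ha hb
  | smul c a _ ha => rw [map_smul]; exact Submodule.smul_mem _ _ ha

variable {G : Type} [Group G] [TopologicalSpace G] [IsTopologicalGroup G] [CompactSpace G]
  [T2Space G] [SecondCountableTopology G] [MeasurableSpace G] [BorelSpace G] {n : ℕ}
  {ρ : G →* Mat n} {t : Submodule ℝ (Mat n)} {B : LinearMap.BilinForm ℝ (Mat n)} {d r : ℕ}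
  {b : Fin d → Mat n} (μ : Measure G) [Hr μ]

namespace LUniq

theorem span_eq (K : Calc ρ) (R : Roots ρ t) (hL : LIE ρ) (ht : IsCartan ρ t) :
    Submodule.span ℂ (Set.range (fun i => K.dR (R.E i)ᴴ) ∪
      (Set.range (fun i => K.dR (R.E i)) ∪ K.dR '' (t : Set (Mat n)))) = (gC ρ).map K.dR := by
  apply le_antisymm
  · refine Submodule.span_le.2 ?_
    rintro _ (⟨i, rfl⟩ | ⟨i, rfl⟩ | ⟨Y, hY, rfl⟩)
    · exact ⟨_, hL.gC_star _ (R.E_mem i), rfl⟩
    · exact ⟨_, R.E_mem i, rfl⟩
    · exact ⟨_, mem_gC (ht.le hY), rfl⟩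
  · rintro _ ⟨Z, hZ, rfl⟩
    have h := R.span Z hZ
    clear hZ
    induction h using Submodule.span_induction with
    | mem Z hZ =>
      refine Submodule.subset_span ?_
      rcases hZ with (hZ | ⟨i, rfl⟩) | ⟨i, rfl⟩
      · exact Or.inr (Or.inr ⟨Z, hZ, rfl⟩)
      · exact Or.inr (Or.inl ⟨i, rfl⟩)
      · exact Or.inl ⟨i, rfl⟩
    | zero => simp
    | add a b _ _ ha hb => rw [map_add]; exact add_mem ha hb
    | smul c a _ ha => rw [map_smul]; exact Submodule.smul_mem _ _ ha

theorem word_PP (K : Calc ρ) (R : Roots ρ t) {φ : C(G, ℂ)} (hφ : φ ∈ PP ρ)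
    (l : List (Fin R.N)) : (l.map fun i => K.dR (R.E i)ᴴ).prod φ ∈ PP ρ := by
  cases l with
  | nil => simpa using hφ
  | cons i l =>
    rw [List.map_cons, List.prod_cons, Module.End.mul_apply]
    exact K.R_mem _ _

theorem cyc (K : Calc ρ) (R : Roots ρ t) (hP : PBW) (hL : LIE ρ) (ht : IsCartan ρ t)
    (h2 : DER2 K) (lam : Mat n →ₗ[ℝ] ℝ) (φ : C(G, ℂ)) (hφ : IsHW K R lam φ) :
    spanR φ ≤ Submodule.span ℂ (Set.range fun a => mono (fun i => K.dR (R.E i)ᴴ) a φ) := by
  have hinv := hP C(G, ℂ) R.N (fun i => K.dR (R.E i)ᴴ)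
    (Set.range (fun i => K.dR (R.E i)) ∪ K.dR '' (t : Set (Mat n))) φ
    (by
      rw [span_eq K R hL ht]
      rintro _ ⟨Z, hZ, rfl⟩ _ ⟨W, hW, rfl⟩
      exact ⟨_, hL.gC_lie Z hZ W hW, K.R_lie Z hZ W hW⟩)
    (by
      rintro _ (⟨i, rfl⟩ | ⟨Y, hY, rfl⟩)
      · exact ⟨0, by rw [zero_smul]; exact hφ.up i⟩
      · exact ⟨_, hφ.wtR Y hY⟩)
  rw [span_eq K R hL ht] at hinv
  have hPP : ∀ u ∈ Submodule.span ℂ (Set.range fun a => mono (fun i => K.dR (R.E i)ᴴ) a φ),
      u ∈ PP ρ := by
    intro u hu
    induction hu using Submodule.span_induction with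
    | mem u hu =>
      obtain ⟨a, rfl⟩ := hu
      simp only
      rw [← ord_prod]
      exact word_PP K R hφ.mem _
    | zero => exact zero_mem _
    | add a b _ _ ha hb => exact add_mem ha hb
    | smul c a _ ha => exact Subalgebra.smul_mem _ ha c
  have h0 : φ ∈ Submodule.span ℂ (Set.range fun a => mono (fun i => K.dR (R.E i)ᴴ) a φ) := by
    refine Submodule.subset_span ⟨0, ?_⟩
    have : mono (fun i => K.dR (R.E i)ᴴ) 0 = 1 := by
      unfold mono
      refine List.prod_eq_one ?_
      intro x hx
      obtain ⟨i, rfl⟩ := List.mem_ofFn.1 hx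
      simp
    simp only [this]
    rfl
  refine Submodule.span_le.2 ?_
  rintro _ ⟨k, rfl⟩
  exact h2.trR_mem _ hPP (fun X hX u hu => hinv _ ⟨X, mem_gC hX, rfl⟩ u hu) k φ h0

theorem word_zero (K : Calc ρ) (R : Roots ρ t) (hL : LIE ρ) (h1 : DER1 K μ) {ψ : C(G, ℂ)}
    (hψ : ψ ∈ PP ρ) (hd : ∀ i, K.dL (R.E i)ᴴ ψ = 0) (h0 : ψ 1 = 0) (l : List (Fin R.N)) :
    (∀ i, K.dL (R.E i)ᴴ ((l.map fun i => K.dR (R.E i)ᴴ).prod ψ) = 0) ∧
      (l.map fun i => K.dR (R.E i)ᴴ).prod ψ 1 = 0 := by
  induction l with
  | nil => simpa using ⟨hd, h0⟩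
  | cons j l ih =>
    rw [List.map_cons, List.prod_cons, Module.End.mul_apply]
    have hE : ∀ i, (R.E i)ᴴ ∈ gC ρ := fun i => hL.gC_star _ (R.E_mem i)
    refine ⟨fun i => ?_, ?_⟩
    · rw [← Module.End.mul_apply, ← K.comm _ (hE j) _ (hE i), Module.End.mul_apply, ih.1 i,
        map_zero]
    · rw [h1.at_one _ (hE j) _ (word_PP K R hψ l), ih.1 j]
      rfl

end LUniq

theorem uniq_ok (K : Calc ρ) (R : Roots ρ t) :
    PBW → LIE ρ → IsCartan ρ t → DER1 K μ → DER2 K → UNIQ K R := by
  intro hP hL ht h1 h2
  refine ⟨LUniq.cyc K R hP hL ht h2, fun lam ψ hψ hd h0 => ?_⟩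
  have hU : ∀ u ∈ Submodule.span ℂ (Set.range fun a => mono (fun i => K.dR (R.E i)ᴴ) a ψ),
      u 1 = 0 := by
    intro u hu
    induction hu using Submodule.span_induction with
    | mem u hu =>
      obtain ⟨a, rfl⟩ := hu
      simp only
      rw [← LUniq.ord_prod]
      exact (LUniq.word_zero μ K R hL h1 hψ.mem hd h0 _).2
    | zero => rfl
    | add a b _ _ ha hb => rw [ContinuousMap.add_apply, ha, hb, add_zero]
    | smul c a _ ha => rw [ContinuousMap.smul_apply, ha, smul_zero]
  ext g
  have := hU _ (LUniq.cyc K R hP hL ht h2 lam ψ hψ (Submodule.subset_span ⟨g, rfl⟩))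
  simpa using this

end Pool.Agent.P.MP_7211b7_an
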