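import Pool.Agent.P.MP_7211b7_an.DefsL

open Complex Module.End
open scoped Matrix

namespace Pool.Agent.P.MP_7211b7_an

namespace LWts

theorem exists_basis {E ι : Type} [NormedAddCommGroup E] [InnerProductSpace ℂ E]
    [FiniteDimensional ℂ E] {n : ℕ} (hn : Module.finrank ℂ E = n) (T : ι → E →ₗ[ℂ] E)
    (hT : ∀ i, (T i).IsSymmetric) (h : ∀ i j, Commute (T i) (T j)) :
    ∃ b : OrthonormalBasis (Fin n) ℂ E, ∀ j i, ∃ c : ℂ, T i (b j) = c • b j := by
  let V : (ι → ℂ) → Submodule ℂ E := fun χ => ⨅ i, eigenspace (T i) (χ i)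
  have h1 := (LinearMap.IsSymmetric.orthogonalFamily_iInf_eigenspaces hT
    ).orthonormal_sigma_orthonormal fun χ => (stdOrthonormalBasis ℂ (V χ)).orthonormal
  have := h1.linearIndependent.finite
  have := Fintype.ofFinite (Σ χ, Fin (Module.finrank ℂ (V χ)))
  let b := OrthonormalBasis.mk h1 (by
    rw [← LinearMap.IsSymmetric.iSup_iInf_eq_top_of_commute hT fun i j _ => h i j]
    refine iSup_le fun χ v hv => ?_
    have h2 := congrArg Subtype.val ((stdOrthonormalBasis ℂ (V χ)).sum_repr ⟨v, hv⟩)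
    simp only [AddSubmonoidClass.coe_finsetSum, SetLike.val_smul] at h2
    rw [← h2]
    exact Submodule.sum_mem _ fun k _ => Submodule.smul_mem _ _
      (Submodule.subset_span ⟨⟨χ, k⟩, rfl⟩))
  refine ⟨b.reindex (Fintype.equivFinOfCardEq ((Module.finrank_eq_card_basis b.toBasis).symm.trans
    hn)), fun j i => ?_⟩
  rw [OrthonormalBasis.reindex_apply, OrthonormalBasis.coe_mk]
  exact ⟨_, mem_eigenspace_iff.1 ((Submodule.mem_iInf _).1
    (stdOrthonormalBasis ℂ (V _) _).2 i)⟩

end LWts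

theorem wts : WTS := by
  intro n t hs hc
  obtain ⟨b, hb⟩ := LWts.exists_basis (E := EuclideanSpace ℂ (Fin n)) (n := n) (by simp)
    (fun X : t => Matrix.toEuclideanLin (I • (X : Mat n)))
    (fun X => Matrix.isSymmetric_toEuclideanLin_iff.2 (by
      simp [Matrix.IsHermitian, Matrix.conjTranspose_smul, hs X X.2]))
    (fun X Y => by
      ext v
      simp [Matrix.toLpLin_apply, Matrix.mulVec_mulVec, hc X X.2 Y Y.2])
  set U : Mat n := (EuclideanSpace.basisFun (Fin n) ℂ).toBasis.toMatrix b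
  have hU : U ∈ Matrix.unitaryGroup (Fin n) ℂ :=
    (EuclideanSpace.basisFun (Fin n) ℂ).toMatrix_orthonormalBasis_mem_unitary b
  refine ⟨⟨U, fun j => ⟨⟨fun H => ((Uᴴ * H * U) j j).im, fun H K => by
    simp [mul_add, add_mul]⟩, fun a H => by simp⟩, hU, fun H hH => ?_⟩⟩
  choose c hc using fun j => hb j ⟨H, hH⟩
  have h1 : H * U = U * Matrix.diagonal fun j => -I * c j := by
    ext i j
    have h2 := congrArg (fun v : EuclideanSpace ℂ (Fin n) => -I * v i) (hc j)
    simp only [Matrix.toLpLin_apply, Matrix.smul_mulVec, Pi.smul_apply, smul_eq_mul, PiLp.smul_apply,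
      ← mul_assoc, neg_mul, I_mul_I, neg_neg, one_mul] at h2
    rw [Matrix.mul_diagonal, mul_comm, neg_mul, neg_mul]
    exact h2
  have h3 : Uᴴ * H * U = Matrix.diagonal fun j => -I * c j := by
    rw [mul_assoc, h1, ← mul_assoc, show Uᴴ * U = 1 from Matrix.mem_unitaryGroup_iff'.1 hU, one_mul]
  have h4 : (Uᴴ * H * U)ᴴ = -(Uᴴ * H * U) := by simp [hs H hH, mul_assoc]
  refine h3.trans (congrArg _ (funext fun j => ?_))
  have h5 := congrArg re (congrFun (congrFun h4 j) j)
  simp only [LinearMap.coe_mk, AddHom.coe_mk]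
  rw [h3] at h5 ⊢
  simp only [Matrix.conjTranspose_apply, Matrix.neg_apply, Matrix.diagonal_apply_eq, star_def,
    conj_re, neg_re] at h5 ⊢
  exact Complex.ext (by simp only [mul_re (z := I), I_re, I_im, ofReal_re, ofReal_im]; linarith)
    (by simp)

end Pool.Agent.P.MP_7211b7_an
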