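import Pool.Agent.P.MP_7211b7_an.DefsT

/-!
# MP_7211b7_an, part T: averaging over the conjugates of the highest weight projections
-/

open MeasureTheory ComplexConjugate

set_option linter.unusedSectionVars false

namespace Pool.Agent.P.MP_7211b7_an

variable {G : Type} [Group G] [TopologicalSpace G] [IsTopologicalGroup G] [CompactSpace G]
  [T2Space G] [SecondCountableTopology G] [MeasurableSpace G] [BorelSpace G]
  (μ : Measure G) [Hr μ] {r : ℕ}

namespace TAvg

theorem swap {f : G → G → ℂ} (hf : Continuous f.uncurry) :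
    ∫ x, ∫ y, f x y ∂μ ∂μ = ∫ y, ∫ x, f x y ∂μ ∂μ :=
  integral_integral_swap (hf.integrable_of_hasCompactSupport (HasCompactSupport.of_compactSpace _))

theorem int_two (a b : G) (f : G → ℂ) : ∫ z, f (a * z * b) ∂μ = ∫ z, f z ∂μ := by
  have h1 := integral_mul_left_eq_self (μ := μ) (fun z => f (z * b)) a
  have h2 := integral_mul_right_eq_self (μ := μ) f b
  exact h1.trans h2

theorem hk_apply (H : HW μ r) (l : Fin r → ℤ) (k : G) (F : C(G, ℂ)) (y : G) :
    H.hk μ l k F y = (H.d l : ℂ) * ∫ z, F (y * z * k⁻¹) * conj (H.φ l z) ∂μ := by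
  unfold HW.hk
  rw [cv_apply, ← integral_const_mul]
  refine integral_congr_ae (Filter.Eventually.of_forall fun z => ?_)
  simp only [tr2_apply, one_mul, ContinuousMap.smul_apply, smul_eq_mul, map_mul,
    Complex.conj_ofReal]
  ring

theorem hk_cont (H : HW μ r) (l : Fin r → ℤ) (F : C(G, ℂ)) :
    Continuous fun p : G × G => H.hk μ l p.1 F p.2 := by
  simp only [hk_apply]
  refine continuous_const.mul ?_
  exact continuous_integral_param μ
    (f := fun (p : G × G) (z : G) => F (p.2 * z * p.1⁻¹) * conj (H.φ l z)) (by fun_prop)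

theorem hk_cont' (H : HW μ r) (l : Fin r → ℤ) (F : C(G, ℂ)) {X : Type} [TopologicalSpace X]
    {a b : X → G} (ha : Continuous a) (hb : Continuous b) :
    Continuous fun x => H.hk μ l (a x) F (b x) :=
  (hk_cont μ H l F).comp (ha.prodMk hb)

/-- the normalised character -/
noncomputable def chi (H : HW μ r) (l : Fin r → ℤ) : C(G, ℂ) :=
  ⟨fun v => (H.d l : ℂ) ^ 2 * ∫ k, H.φ l (k⁻¹ * v * k) ∂μ, continuous_const.mul
    (continuous_integral_param μ (f := fun (v k : G) => H.φ l (k⁻¹ * v * k)) (by fun_prop))⟩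

theorem chi_apply (H : HW μ r) (l : Fin r → ℤ) (v : G) :
    chi μ H l v = (H.d l : ℂ) ^ 2 * ∫ k, H.φ l (k⁻¹ * v * k) ∂μ := rfl

theorem conj_chi (H : HW μ r) (l : Fin r → ℤ) (v : G) :
    conj (chi μ H l v) = (H.d l : ℂ) ^ 2 * ∫ k, conj (H.φ l (k⁻¹ * v * k)) ∂μ := by
  rw [chi_apply, map_mul, map_pow, Complex.conj_ofReal, integral_conj]

theorem chi_inv (H : HW μ r) {l : Fin r → ℤ} (hl : l ∈ H.Λ) (v : G) :
    chi μ H l v⁻¹ = conj (chi μ H l v) := by
  rw [conj_chi, chi_apply]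
  congr 1
  refine integral_congr_ae (Filter.Eventually.of_forall fun k => ?_)
  simp only
  rw [← H.φ_inv l hl]
  congr 1
  group

/-- the average of the conjugated projections is the convolution with the character -/
theorem Q_eq (H : HW μ r) (l : Fin r → ℤ) (F : C(G, ℂ)) (g : G) :
    (H.d l : ℂ) * ∫ k, H.hk μ l k F (g * k) ∂μ = cv μ (chi μ H l) F g := by
  have h1 : ∀ k : G, H.hk μ l k F (g * k)
      = (H.d l : ℂ) * ∫ v, F (g * v) * conj (H.φ l (k⁻¹ * v * k)) ∂μ := by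
    intro k
    rw [hk_apply, ← int_two μ k⁻¹ k (fun z => F (g * k * z * k⁻¹) * conj (H.φ l z))]
    congr 1
    refine integral_congr_ae (Filter.Eventually.of_forall fun v => ?_)
    simp only
    congr 2
    group
  simp only [h1]
  rw [integral_const_mul, swap μ (f := fun k v => F (g * v) * conj (H.φ l (k⁻¹ * v * k)))
    (by fun_prop), cv_apply, ← mul_assoc, ← integral_const_mul]
  refine integral_congr_ae (Filter.Eventually.of_forall fun v => ?_)
  simp only
  rw [conj_chi, integral_const_mul]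
  ring

theorem cv_add (a F F' : C(G, ℂ)) : cv μ a (F + F') = cv μ a F + cv μ a F' := by
  ext y
  simp only [cv_apply, ContinuousMap.add_apply, add_mul]
  exact integral_add (integrable_of_continuous μ (by fun_prop))
    (integrable_of_continuous μ (by fun_prop))

theorem cv_smul (a F : C(G, ℂ)) (c : ℂ) : cv μ a (c • F) = c • cv μ a F := by
  ext y
  simp only [cv_apply, ContinuousMap.smul_apply, smul_eq_mul, mul_assoc]
  exact integral_const_mul _ _

theorem cv_zero (a : C(G, ℂ)) : cv μ a 0 = 0 := by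
  ext y
  simp

theorem Q_tr_same (H : HW μ r) {l : Fin r → ℤ} (hl : l ∈ H.Λ) (a b : G) :
    cv μ (chi μ H l) (tr2 a b (H.φ l)) = tr2 a b (H.φ l) := by
  ext g
  rw [← Q_eq]
  have h1 : ∀ k : G, H.hk μ l k (tr2 a b (H.φ l)) (g * k)
      = H.φ l (a * g * k) * conj (H.φ l (b⁻¹ * k)) := by
    intro k
    have h2 := H.fe l hl (a * g * k) (k⁻¹ * b)
    rw [hk_apply, ← H.φ_inv l hl, show (b⁻¹ * k)⁻¹ = k⁻¹ * b by group, ← h2]
    congr 1
    refine integral_congr_ae (Filter.Eventually.of_forall fun z => ?_)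
    simp only [tr2_apply, mul_assoc]
  simp only [h1]
  have h3 := H.fe l hl (a * g * b) 1
  rw [H.φ_one l hl, mul_one] at h3
  rw [tr2_apply, ← h3, ← integral_mul_left_eq_self
    (fun k => H.φ l (a * g * k) * conj (H.φ l (b⁻¹ * k))) b]
  congr 1
  refine integral_congr_ae (Filter.Eventually.of_forall fun z => ?_)
  simp only [mul_assoc, mul_one, inv_mul_cancel_left]

theorem Q_tr_ne (H : HW μ r) {l m : Fin r → ℤ} (hl : l ∈ H.Λ) (hm : m ∈ H.Λ) (h : m ≠ l)
    (a b : G) : cv μ (chi μ H m) (tr2 a b (H.φ l)) = 0 := by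
  ext g
  rw [← Q_eq]
  have h1 : ∀ k : G, H.hk μ m k (tr2 a b (H.φ l)) (g * k) = 0 := by
    intro k
    have h2 := H.orth m hm l hl h (a * g * k) (k⁻¹ * b)
    rw [hk_apply, ← mul_zero (H.d m : ℂ), ← h2]
    congr 1
    refine integral_congr_ae (Filter.Eventually.of_forall fun z => ?_)
    simp only [tr2_apply, mul_assoc]
  simp [h1]

theorem Q_span (H : HW μ r) {l : Fin r → ℤ} (hl : l ∈ H.Λ) {f : C(G, ℂ)}
    (hf : f ∈ span2 (H.φ l)) : cv μ (chi μ H l) f = f := by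
  unfold span2 at hf
  induction hf using Submodule.span_induction with
  | mem x hx =>
    obtain ⟨q, rfl⟩ := hx
    exact Q_tr_same μ H hl _ _
  | zero => exact cv_zero μ _
  | add x y _ _ hx hy => rw [cv_add, hx, hy]
  | smul c x _ hx => rw [cv_smul, hx]

theorem cv_chi (H : HW μ r) (l : Fin r → ℤ) (a : C(G, ℂ)) (w : G) :
    cv μ a (chi μ H l) w = (H.d l : ℂ) ^ 2 * ∫ k, cv μ a (tr2 k⁻¹ k (H.φ l)) w ∂μ := by
  simp only [cv_apply, tr2_apply]
  rw [swap μ (f := fun k z => H.φ l (k⁻¹ * (w * z) * k) * conj (a z)) (by fun_prop),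
    ← integral_const_mul]
  refine integral_congr_ae (Filter.Eventually.of_forall fun z => ?_)
  simp only
  rw [chi_apply, integral_mul_const, mul_assoc]

theorem Q_chi_same (H : HW μ r) {l : Fin r → ℤ} (hl : l ∈ H.Λ) :
    cv μ (chi μ H l) (chi μ H l) = chi μ H l := by
  ext w
  rw [cv_chi]
  simp only [Q_tr_same μ H hl, tr2_apply]
  rfl

theorem Q_chi_ne (H : HW μ r) {l m : Fin r → ℤ} (hl : l ∈ H.Λ) (hm : m ∈ H.Λ) (h : m ≠ l) :
    cv μ (chi μ H m) (chi μ H l) = 0 := by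
  ext w
  rw [cv_chi]
  simp [Q_tr_ne μ H hl hm h]

theorem Q_left (H : HW μ r) {l : Fin r → ℤ} (hl : l ∈ H.Λ) (F : C(G, ℂ)) (y : G) :
    cv μ (chi μ H l) F y = ∫ w, F w * chi μ H l (w⁻¹ * y) ∂μ := by
  rw [cv_apply, ← integral_mul_left_eq_self (fun w => F w * chi μ H l (w⁻¹ * y)) y]
  refine integral_congr_ae (Filter.Eventually.of_forall fun z => ?_)
  simp only
  rw [← chi_inv μ H hl]
  congr 2
  group

theorem cv_Q (H : HW μ r) {l : Fin r → ℤ} (hl : l ∈ H.Λ) (a F : C(G, ℂ)) (g : G) :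
    cv μ a (cv μ (chi μ H l) F) g = ∫ w, F w * cv μ a (chi μ H l) (w⁻¹ * g) ∂μ := by
  have h1 : ∀ w : G, F w * cv μ a (chi μ H l) (w⁻¹ * g)
      = ∫ z, F w * chi μ H l (w⁻¹ * (g * z)) * conj (a z) ∂μ := by
    intro w
    rw [cv_apply, ← integral_const_mul]
    simp only [mul_assoc]
  simp only [h1]
  rw [swap μ (f := fun w z => F w * chi μ H l (w⁻¹ * (g * z)) * conj (a z)) (by fun_prop),
    cv_apply μ a]
  refine integral_congr_ae (Filter.Eventually.of_forall fun z => ?_)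
  simp only
  rw [Q_left μ H hl, integral_mul_const]

theorem QQ_same (H : HW μ r) {l : Fin r → ℤ} (hl : l ∈ H.Λ) (F : C(G, ℂ)) :
    cv μ (chi μ H l) (cv μ (chi μ H l) F) = cv μ (chi μ H l) F := by
  ext g
  rw [cv_Q μ H hl, Q_chi_same μ H hl, Q_left μ H hl]

theorem QQ_ne (H : HW μ r) {l m : Fin r → ℤ} (hl : l ∈ H.Λ) (hm : m ∈ H.Λ) (h : m ≠ l)
    (F : C(G, ℂ)) : cv μ (chi μ H m) (cv μ (chi μ H l) F) = 0 := by
  ext g
  rw [cv_Q μ H hl, Q_chi_ne μ H hl hm h]
  simp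

theorem ip_conj (f h : C(G, ℂ)) : ip μ f h = conj (ip μ h f) := by
  rw [ip_eq_inner, ip_eq_inner, inner_conj_symm]

theorem ip_Q (H : HW μ r) (l : Fin r → ℤ) (F F' : C(G, ℂ)) :
    ip μ (cv μ (chi μ H l) F) F'
      = (H.d l : ℂ) * ∫ k, ip μ (H.hk μ l k F) (tr2 1 k⁻¹ F') ∂μ := by
  have h1 : ∀ k : G, ip μ (H.hk μ l k F) (tr2 1 k⁻¹ F')
      = ∫ g, H.hk μ l k F (g * k) * conj (F' g) ∂μ := by
    intro k
    unfold ip
    rw [← integral_mul_right_eq_self _ k]
    simp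
  simp only [h1]
  have hc : Continuous (fun k g => H.hk μ l k F (g * k) * conj (F' g) : G → G → ℂ).uncurry := by
    refine Continuous.mul ?_ (by fun_prop)
    exact hk_cont' μ H l F continuous_fst (continuous_snd.mul continuous_fst)
  rw [swap μ hc, ← integral_const_mul]
  unfold ip
  refine integral_congr_ae (Filter.Eventually.of_forall fun g => ?_)
  simp only
  rw [← Q_eq, integral_mul_const, mul_assoc]

theorem Q_adj (H : HW μ r) (hP : PROJ μ H) {l : Fin r → ℤ} (hl : l ∈ H.Λ) (F F' : C(G, ℂ)) :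
    ip μ (cv μ (chi μ H l) F) F' = ip μ F (cv μ (chi μ H l) F') := by
  rw [ip_conj μ F, ip_Q, ip_Q, map_mul, Complex.conj_ofReal, ← integral_conj]
  congr 1
  refine integral_congr_ae (Filter.Eventually.of_forall fun k => ?_)
  simp only
  rw [← ip_conj]
  exact hP.adj l hl _ _

theorem star_id (H : HW μ r) (hP : PROJ μ H) {l : Fin r → ℤ} (hl : l ∈ H.Λ) (F : C(G, ℂ)) :
    ((H.d l * ∫ k, n2 μ (H.hk μ l k F) ∂μ : ℝ) : ℂ) = ip μ (cv μ (chi μ H l) F) F := by
  rw [ip_Q, Complex.ofReal_mul, ← integral_complex_ofReal]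
  congr 1
  refine integral_congr_ae (Filter.Eventually.of_forall fun k => ?_)
  simp only
  rw [← ip_self]
  unfold HW.hk
  rw [← hP.adj l hl, hP.idem l hl]

theorem ip_sum_left {ι : Type} (S : Finset ι) (f : ι → C(G, ℂ)) (h : C(G, ℂ)) :
    ip μ (∑ j ∈ S, f j) h = ∑ j ∈ S, ip μ (f j) h := by
  simp only [ip_eq_inner, map_sum, inner_sum]

theorem ip_sum_right {ι : Type} (S : Finset ι) (f : ι → C(G, ℂ)) (h : C(G, ℂ)) :
    ip μ h (∑ j ∈ S, f j) = ∑ j ∈ S, ip μ h (f j) := by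
  simp only [ip_eq_inner, map_sum, sum_inner]

theorem ip_zero_left (h : C(G, ℂ)) : ip μ 0 h = 0 := by
  simp [ip]

theorem n2_le_of_ip {T F : C(G, ℂ)} (h : ip μ T T = ip μ T F) : n2 μ T ≤ n2 μ F := by
  rw [ip_self, ip_eq_inner] at h
  have h1 := norm_inner_le_norm (𝕜 := ℂ) (ContinuousMap.toLp 2 μ ℂ F)
    (ContinuousMap.toLp 2 μ ℂ T)
  rw [← h, n2_eq_norm_sq, Complex.norm_real, Real.norm_of_nonneg (sq_nonneg _)] at h1
  rw [n2_eq_norm_sq, n2_eq_norm_sq]
  nlinarith [sq_nonneg (‖ContinuousMap.toLp 2 μ ℂ F‖ - ‖ContinuousMap.toLp 2 μ ℂ T‖)]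

theorem sq_integral_le {u : G → ℝ} (hu : Continuous u) :
    (∫ k, u k ∂μ) ^ 2 ≤ ∫ k, u k ^ 2 ∂μ := by
  set c := ∫ k, u k ∂μ with hc
  have h0 : 0 ≤ ∫ k, (u k - c) ^ 2 ∂μ := integral_nonneg fun k => sq_nonneg _
  have h1 : ∀ k, (u k - c) ^ 2 = u k ^ 2 - (2 * c * u k - c ^ 2) := fun k => by ring
  simp only [h1] at h0
  rw [integral_sub (integrable_of_continuous μ (by fun_prop))
      (integrable_of_continuous μ (by fun_prop)),
    integral_sub (integrable_of_continuous μ (by fun_prop))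
      (integrable_of_continuous μ (by fun_prop)), integral_const_mul, ← hc] at h0
  simp only [integral_const, probReal_univ, smul_eq_mul, one_mul] at h0
  nlinarith

theorem n2_hk_cont (H : HW μ r) (l : Fin r → ℤ) (F : C(G, ℂ)) :
    Continuous fun k => n2 μ (H.hk μ l k F) := by
  unfold n2
  exact continuous_integral_param μ (f := fun k g => ‖H.hk μ l k F g‖ ^ 2)
    ((hk_cont μ H l F).norm.pow 2)

end TAvg

open TAvg

theorem avg_ok (H : HW μ r) : BASIC μ H → PROJ μ H → AVG μ H := by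
  classical
  intro _ hP
  have hrec : ∀ l ∈ H.Λ, ∀ f ∈ span2 (H.φ l), ∀ g,
      f g = (H.d l : ℂ) * ∫ k, H.hk μ l k f (g * k) ∂μ := by
    intro l hl f hf g
    rw [Q_eq, Q_span μ H hl hf]
  have hnorm : ∀ l ∈ H.Λ, ∀ f ∈ span2 (H.φ l),
      H.d l * ∫ k, n2 μ (H.hk μ l k f) ∂μ = n2 μ f := by
    intro l hl f hf
    have h := star_id μ H hP hl f
    rw [Q_span μ H hl hf, ip_self] at h
    exact_mod_cast h
  refine ⟨hrec, hnorm, ?_, ?_⟩
  · intro ι S w F hw hinj
    set T : C(G, ℂ) := ∑ j ∈ S, cv μ (chi μ H (w j)) F with hT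
    have h1 : ip μ T F = ((∑ j ∈ S, H.d (w j) * ∫ k, n2 μ (H.hk μ (w j) k F) ∂μ : ℝ) : ℂ) := by
      rw [hT, ip_sum_left, Complex.ofReal_sum]
      exact Finset.sum_congr rfl fun j hj => (star_id μ H hP (hw j hj) F).symm
    have h2 : ip μ T T = ip μ T F := by
      rw [hT, ip_sum_left, ip_sum_left]
      refine Finset.sum_congr rfl fun i hi => ?_
      rw [ip_sum_right, Finset.sum_eq_single i]
      · rw [← Q_adj μ H hP (hw i hi), QQ_same μ H (hw i hi)]
      · intro j hj hji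
        rw [← Q_adj μ H hP (hw j hj), QQ_ne μ H (hw i hi) (hw j hj)
          (fun h => hji (hinj hj hi h)), ip_zero_left]
      · intro h
        exact absurd hi h
    have h3 := n2_le_of_ip μ h2
    rw [ip_self, h1] at h2
    have h4 : n2 μ T = ∑ j ∈ S, H.d (w j) * ∫ k, n2 μ (H.hk μ (w j) k F) ∂μ := by
      exact_mod_cast h2
    rw [← h4]
    exact h3
  · intro l hl f hf g
    have hd := H.d_pos l hl
    have hc : Continuous fun k => ‖H.hk μ l k f (g * k)‖ :=
      (hk_cont' μ H l f continuous_id (continuous_const.mul continuous_id)).norm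
    have h1 : ‖f g‖ ≤ H.d l * ∫ k, ‖H.hk μ l k f (g * k)‖ ∂μ := by
      rw [hrec l hl f hf g, norm_mul, Complex.norm_real, Real.norm_of_nonneg hd.le]
      exact mul_le_mul_of_nonneg_left (norm_integral_le_integral_norm _) hd.le
    have h2 := sq_integral_le μ hc
    have h3 : ∫ k, ‖H.hk μ l k f (g * k)‖ ^ 2 ∂μ ≤ ∫ k, H.d l * n2 μ (H.hk μ l k f) ∂μ :=
      integral_mono (integrable_of_continuous μ (hc.pow 2))
        (integrable_of_continuous μ (continuous_const.mul (n2_hk_cont μ H l f)))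
        fun k => hP.sup l hl _ _
    rw [integral_const_mul, hnorm l hl f hf] at h3
    calc ‖f g‖ ^ 2 ≤ (H.d l * ∫ k, ‖H.hk μ l k f (g * k)‖ ∂μ) ^ 2 :=
          pow_le_pow_left₀ (norm_nonneg _) h1 2
      _ = H.d l ^ 2 * (∫ k, ‖H.hk μ l k f (g * k)‖ ∂μ) ^ 2 := by ring
      _ ≤ H.d l ^ 2 * n2 μ f := mul_le_mul_of_nonneg_left (h2.trans h3) (sq_nonneg _)

end Pool.Agent.P.MP_7211b7_an
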