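import Pool.Agent.P.MP_7211b7_an.DefsT

/-!
# First consequences of the functional equation, and doubling of the dimension
-/

open MeasureTheory ComplexConjugate
open scoped ENNReal

set_option linter.unusedSectionVars false

namespace Pool.Agent.P.MP_7211b7_an

variable {G : Type} [Group G] [TopologicalSpace G] [IsTopologicalGroup G] [CompactSpace G]
  [T2Space G] [SecondCountableTopology G] [MeasurableSpace G] [BorelSpace G]
  (μ : Measure G) [Hr μ] {r : ℕ}

namespace TBasic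

theorem ip_add_left (f g h : C(G, ℂ)) : ip μ (f + g) h = ip μ f h + ip μ g h := by
  simp only [ip_eq_inner, map_add, inner_add_right]

theorem ip_smul_left (c : ℂ) (f h : C(G, ℂ)) : ip μ (c • f) h = c * ip μ f h := by
  simp only [ip_eq_inner, map_smul, inner_smul_right]

theorem ip_smul_right (c : ℂ) (f h : C(G, ℂ)) : ip μ f (c • h) = conj c * ip μ f h := by
  simp only [ip_eq_inner, map_smul, inner_smul_left]

theorem ip_sum_left {ι : Type} (s : Finset ι) (f : ι → C(G, ℂ)) (h : C(G, ℂ)) :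
    ip μ (∑ j ∈ s, f j) h = ∑ j ∈ s, ip μ (f j) h := by
  simp only [ip_eq_inner, map_sum, inner_sum]

theorem ip_conj (f h : C(G, ℂ)) : conj (ip μ f h) = ip μ h f := by
  simp only [ip_eq_inner, inner_conj_symm]

theorem integral_tr {E : Type} [NormedAddCommGroup E] [NormedSpace ℝ E] (F : G → E) (a k : G) :
    ∫ g, F (a * g * k) ∂μ = ∫ g, F g ∂μ := by
  rw [integral_mul_left_eq_self (fun g => F (g * k)) a, integral_mul_right_eq_self F k]

theorem ip_tr2 (a k : G) (f h : C(G, ℂ)) : ip μ (tr2 a k f) (tr2 a k h) = ip μ f h :=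
  integral_tr μ (fun g => f g * conj (h g)) a k

theorem n2_tr2 (a k : G) (f : C(G, ℂ)) : n2 μ (tr2 a k f) = n2 μ f :=
  integral_tr μ (fun g => ‖f g‖ ^ 2) a k

theorem n2_smul (c : ℝ) (f : C(G, ℂ)) : n2 μ ((c : ℂ) • f) = c ^ 2 * n2 μ f := by
  rw [n2_eq_norm_sq, n2_eq_norm_sq, map_smul, norm_smul, mul_pow, Complex.norm_real,
    Real.norm_eq_abs, sq_abs]

theorem norm_ip_le {f h : C(G, ℂ)} (e : n2 μ f = n2 μ h) : ‖ip μ f h‖ ≤ n2 μ h := by
  rw [n2_eq_norm_sq, n2_eq_norm_sq, sq_eq_sq₀ (norm_nonneg _) (norm_nonneg _)] at e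
  rw [ip_eq_inner, n2_eq_norm_sq, pow_two]
  refine (norm_inner_le_norm _ _).trans_eq ?_
  rw [e]

theorem n2_mono {f h : C(G, ℂ)} (e : ∀ g, ‖f g‖ ≤ ‖h g‖) : n2 μ f ≤ n2 μ h :=
  integral_mono (integrable_of_continuous μ (by fun_prop)) (integrable_of_continuous μ (by fun_prop))
    fun g => pow_le_pow_left₀ (norm_nonneg _) (e g) 2

/-- a space with a reproducing kernel of constant norm -/
theorem rank_eq (V : Submodule ℂ C(G, ℂ)) [FiniteDimensional ℂ V] (d : ℝ)
    (hV : ∀ y, ∃ u ∈ V, n2 μ u = d ∧ ∀ h ∈ V, h y = ip μ h u) : d = Module.finrank ℂ V := by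
  obtain ⟨e, he, ho, hs⟩ := exists_onb μ V
  have h1 : ∀ y, ∑ j, ‖e j y‖ ^ 2 = d := by
    intro y
    obtain ⟨u, hu, hn, hr⟩ := hV y
    have h2 : ip μ u u = ∑ j, ip μ u (e j) * ip μ (e j) u := by
      conv_lhs => arg 2; rw [hs u hu]
      simp only [ip_sum_left, ip_smul_left]
    rw [ip_self, hn] at h2
    apply Complex.ofReal_injective
    rw [h2]
    push_cast
    refine Finset.sum_congr rfl fun j _ => ?_
    rw [← ip_conj μ (e j) u, ← hr _ (he j), Complex.conj_mul']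
  have h3 : ∀ j, n2 μ (e j) = 1 := fun j => by
    have := ho j j
    rw [ip_self, if_pos rfl] at this
    exact_mod_cast this
  have h4 : ∫ y, ∑ j, ‖e j y‖ ^ 2 ∂μ = ∑ j, n2 μ (e j) :=
    integral_finsetSum _ fun j _ => integrable_of_continuous μ (by fun_prop)
  simp only [h1, h3] at h4
  simpa using h4

variable {μ}

theorem key (H : HW μ r) {l : Fin r → ℤ} (hl : l ∈ H.Λ) (a k : G) :
    (H.d l : ℂ) * ip μ (tr2 a k (H.φ l)) (H.φ l) = H.φ l a * H.φ l k := H.fe l hl a k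

theorem d_n2 (H : HW μ r) {l : Fin r → ℤ} (hl : l ∈ H.Λ) : H.d l * n2 μ (H.φ l) = 1 := by
  have := key H hl 1 1
  rw [tr2_one, ip_self, H.φ_one l hl, mul_one] at this
  exact_mod_cast this

theorem norm_le (H : HW μ r) {l : Fin r → ℤ} (hl : l ∈ H.Λ) (g : G) : ‖H.φ l g‖ ≤ 1 := by
  have h := key H hl g 1
  rw [H.φ_one l hl, mul_one] at h
  rw [← h, norm_mul, Complex.norm_real, Real.norm_eq_abs, abs_of_pos (H.d_pos l hl), ← d_n2 H hl]
  exact mul_le_mul_of_nonneg_left (norm_ip_le μ (n2_tr2 μ _ _ _)) (H.d_pos l hl).le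

theorem finL (H : HW μ r) {l : Fin r → ℤ} (hl : l ∈ H.Λ) :
    FiniteDimensional ℂ (spanL (H.φ l)) :=
  haveI := H.fin l hl
  Submodule.finiteDimensional_of_le (spanL_le_span2 _)

theorem finR (H : HW μ r) {l : Fin r → ℤ} (hl : l ∈ H.Λ) :
    FiniteDimensional ℂ (spanR (H.φ l)) :=
  haveI := H.fin l hl
  Submodule.finiteDimensional_of_le (spanR_le_span2 _)

theorem n2_ker (H : HW μ r) {l : Fin r → ℤ} (hl : l ∈ H.Λ) (a k : G) :
    n2 μ ((H.d l : ℂ) • tr2 a k (H.φ l)) = H.d l := by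
  rw [n2_smul, n2_tr2, pow_two, mul_assoc, d_n2 H hl, mul_one]

theorem eval_of_span {S : Set C(G, ℂ)} {y : G} {u : C(G, ℂ)} (hS : ∀ h ∈ S, h y = ip μ h u) :
    ∀ h ∈ Submodule.span ℂ S, h y = ip μ h u := by
  intro h hh
  induction hh using Submodule.span_induction with
  | mem x hx => exact hS x hx
  | zero => simp [ip]
  | add f g _ _ hf hg => rw [ip_add_left, ← hf, ← hg]; rfl
  | smul c f _ hf => rw [ip_smul_left, ← hf]; rfl

theorem rankL (H : HW μ r) {l : Fin r → ℤ} (hl : l ∈ H.Λ) :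
    H.d l = Module.finrank ℂ (spanL (H.φ l)) := by
  have := finL H hl
  refine rank_eq μ _ _ fun y => ⟨(H.d l : ℂ) • tr2 y⁻¹ 1 (H.φ l),
    Submodule.smul_mem _ _ (Submodule.subset_span ⟨y⁻¹, rfl⟩), n2_ker H hl _ _,
    eval_of_span ?_⟩
  rintro _ ⟨a, rfl⟩
  rw [ip_smul_right, Complex.conj_ofReal, ← ip_tr2 μ y 1, tr2_tr2, tr2_tr2, inv_mul_cancel, one_mul,
    tr2_one, key H hl, H.φ_one l hl]
  simp

theorem rankR (H : HW μ r) {l : Fin r → ℤ} (hl : l ∈ H.Λ) :
    H.d l = Module.finrank ℂ (spanR (H.φ l)) := by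
  have := finR H hl
  refine rank_eq μ _ _ fun y => ⟨(H.d l : ℂ) • tr2 1 y⁻¹ (H.φ l),
    Submodule.smul_mem _ _ (Submodule.subset_span ⟨y⁻¹, rfl⟩), n2_ker H hl _ _,
    eval_of_span ?_⟩
  rintro _ ⟨k, rfl⟩
  rw [ip_smul_right, Complex.conj_ofReal, ← ip_tr2 μ 1 y, tr2_tr2, tr2_tr2, mul_inv_cancel, one_mul,
    tr2_one, key H hl, H.φ_one l hl]
  simp

theorem submul (H : HW μ r) {l m : Fin r → ℤ} (hl : l ∈ H.Λ) (hm : m ∈ H.Λ) :
    H.d (l + m) ≤ H.d l * H.d m := by
  have := finL H hl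
  have := finL H hm
  have hle : spanL (H.φ (l + m)) ≤ spanL (H.φ l) * spanL (H.φ m) := by
    refine Submodule.span_le.2 ?_
    rintro _ ⟨a, rfl⟩
    dsimp only
    rw [H.φ_add l hl m hm, tr2_mul]
    exact Submodule.mul_mem_mul (Submodule.subset_span ⟨a, rfl⟩) (Submodule.subset_span ⟨a, rfl⟩)
  have : Module.Finite ℂ ↥(spanL (H.φ l) * spanL (H.φ m)) :=
    Module.Finite.iff_fg.2 ((Module.Finite.iff_fg.1 inferInstance).mul
      (Module.Finite.iff_fg.1 inferInstance))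
  rw [rankL H (H.Λ.add_mem hl hm), rankL H hl, rankL H hm]
  have h2 := LinearMap.finrank_range_le (Submodule.mulMap (spanL (H.φ l)) (spanL (H.φ m)))
  rw [Submodule.mulMap_range, Module.finrank_tensorProduct] at h2
  exact_mod_cast (Submodule.finrank_mono hle).trans h2

theorem one_mem_spanL (H : HW μ r) : (1 : C(G, ℂ)) ∈ spanL (H.φ 0) :=
  Submodule.subset_span ⟨1, by simp [H.φ_zero]⟩

theorem pow_mem_spanL (H : HW μ r) {l : Fin r → ℤ} (hl : l ∈ H.Λ) {h : C(G, ℂ)}
    (hh : h ∈ spanL (H.φ l)) (n : ℕ) : h ^ n ∈ spanL (H.φ (n • l)) := by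
  induction n with
  | zero => simpa using one_mem_spanL H
  | succ n ih =>
    rw [pow_succ, succ_nsmul]
    exact H.mul_mem _ (H.Λ.nsmul_mem hl n) _ hl _ ih _ hh

theorem prod_mem_spanL (H : HW μ r) {ι : Type} (s : Finset ι) (w : ι → Fin r → ℤ)
    (f : ι → C(G, ℂ)) (hw : ∀ j, w j ∈ H.Λ) (hf : ∀ j, f j ∈ spanL (H.φ (w j))) :
    ∏ j ∈ s, f j ∈ spanL (H.φ (∑ j ∈ s, w j)) := by
  classical
  induction s using Finset.induction_on with
  | empty => simpa using one_mem_spanL H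
  | insert a s ha ih =>
    rw [Finset.prod_insert ha, Finset.sum_insert ha]
    exact H.mul_mem _ (hw a) _ (H.Λ.sum_mem fun j _ => hw j) _ (hf a) _ ih

theorem φ_nsmul (H : HW μ r) {l : Fin r → ℤ} (hl : l ∈ H.Λ) (n : ℕ) :
    H.φ (n • l) = H.φ l ^ n := by
  induction n with
  | zero => simpa using H.φ_zero
  | succ n ih => rw [succ_nsmul, H.φ_add _ (H.Λ.nsmul_mem hl n) _ hl, ih, pow_succ]

theorem φ_sum (H : HW μ r) {ι : Type} (s : Finset ι) (w : ι → Fin r → ℤ) (hw : ∀ j, w j ∈ H.Λ) :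
    H.φ (∑ j ∈ s, w j) = ∏ j ∈ s, H.φ (w j) := by
  classical
  induction s using Finset.induction_on with
  | empty => simpa using H.φ_zero
  | insert a s ha ih =>
    rw [Finset.prod_insert ha, Finset.sum_insert ha,
      H.φ_add _ (hw a) _ (H.Λ.sum_mem fun j _ => hw j), ih]

section Mon

variable {A : Type} [CommRing A] [Algebra ℂ A] {σ : Type} [Fintype σ] {m : ℕ}

/-- span of the monomials of multidegree `a` -/
def mon (y : σ → A) (deg : σ → Fin m) (a : Fin m → ℕ) : Submodule ℂ A :=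
  Submodule.span ℂ {u | ∃ c : σ → ℕ,
    (∀ i, ∑ j, (if deg j = i then c j else 0) = a i) ∧ u = ∏ j, y j ^ c j}

theorem one_mem_mon (y : σ → A) (deg : σ → Fin m) : (1 : A) ∈ mon y deg 0 :=
  Submodule.subset_span ⟨0, fun i => by simp, by simp⟩

theorem mul_mem_mon {y : σ → A} {deg : σ → Fin m} {a b : Fin m → ℕ} {u v : A}
    (hu : u ∈ mon y deg a) (hv : v ∈ mon y deg b) : u * v ∈ mon y deg (a + b) := by
  have h := Submodule.mul_mem_mul hu hv
  unfold mon at h
  rw [Submodule.span_mul_span] at h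
  refine Submodule.span_mono ?_ h
  rintro _ ⟨_, ⟨c, hc, rfl⟩, _, ⟨c', hc', rfl⟩, rfl⟩
  refine ⟨c + c', fun i => ?_, ?_⟩
  · rw [Pi.add_apply, ← hc i, ← hc' i, ← Finset.sum_add_distrib]
    refine Finset.sum_congr rfl fun j _ => ?_
    split_ifs <;> simp
  · simp only [Pi.add_apply, pow_add, Finset.prod_mul_distrib]

theorem gen_mem_mon (y : σ → A) (deg : σ → Fin m) (j : σ) :
    y j ∈ mon y deg (Pi.single (deg j) 1) := by
  classical
  refine Submodule.subset_span ⟨Pi.single j 1, fun i => ?_, ?_⟩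
  · rw [Finset.sum_eq_single j]
    · by_cases h : deg j = i
      · subst h
        simp
      · simp [h, Ne.symm h]
    · intro k _ hk
      simp [hk]
    · simp
  · rw [Finset.prod_eq_single j]
    · simp
    · intro k _ hk
      simp [hk]
    · simp

theorem pow_mem_mon {y : σ → A} {deg : σ → Fin m} {a : Fin m → ℕ} {u : A}
    (hu : u ∈ mon y deg a) (n : ℕ) : u ^ n ∈ mon y deg (n • a) := by
  induction n with
  | zero => simpa using one_mem_mon y deg
  | succ n ih =>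
    rw [pow_succ, succ_nsmul]
    exact mul_mem_mon ih hu

theorem prod_mem_mon {y : σ → A} {deg : σ → Fin m} {ι : Type} (s : Finset ι)
    (a : ι → Fin m → ℕ) (u : ι → A) (hu : ∀ j, u j ∈ mon y deg (a j)) :
    ∏ j ∈ s, u j ∈ mon y deg (∑ j ∈ s, a j) := by
  classical
  induction s using Finset.induction_on with
  | empty => simpa using one_mem_mon y deg
  | insert k s hk ih =>
    rw [Finset.prod_insert hk, Finset.sum_insert hk]
    exact mul_mem_mon (hu k) ih

end Mon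

theorem mon_eq (H : HW μ r) {m : ℕ} (ν : Fin m → Fin r → ℤ) (hν : ∀ i, ν i ∈ H.Λ) {σ : Type}
    [Fintype σ] (y : σ → C(G, ℂ)) (deg : σ → Fin m) (hy : ∀ j, y j ∈ spanL (H.φ (ν (deg j))))
    (hs : ∀ i, spanL (H.φ (ν i)) ≤ mon y deg (Pi.single i 1)) (a : Fin m → ℕ) :
    mon y deg a = spanL (H.φ (wv 0 ν a)) := by
  refine le_antisymm (Submodule.span_le.2 ?_) (Submodule.span_le.2 ?_)
  · rintro _ ⟨c, hc, rfl⟩
    have h1 : wv 0 ν a = ∑ j, c j • ν (deg j) := by
      unfold wv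
      simp only [zero_add, ← hc, Finset.sum_smul]
      rw [Finset.sum_comm]
      refine Finset.sum_congr rfl fun j _ => ?_
      simp
    rw [h1]
    exact prod_mem_spanL H _ _ _ (fun j => H.Λ.nsmul_mem (hν _) _)
      fun j => pow_mem_spanL H (hν _) (hy j) _
  · rintro _ ⟨x, rfl⟩
    have h1 : tr2 x 1 (H.φ (wv 0 ν a)) = ∏ i, tr2 x 1 (H.φ (ν i)) ^ a i := by
      unfold wv
      rw [zero_add, φ_sum H _ _ fun i => H.Λ.nsmul_mem (hν i) _]
      simp only [φ_nsmul H (hν _)]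
      ext g
      simp
    have h2 : a = ∑ i, a i • (Pi.single i 1 : Fin m → ℕ) := by
      funext k
      simp [Finset.sum_apply, Pi.single_apply]
    dsimp only
    rw [h1]
    have h3 := prod_mem_mon (y := y) (deg := deg) Finset.univ _ _ fun i =>
      pow_mem_mon (hs i (Submodule.subset_span ⟨x, rfl⟩)) (a i)
    rw [← h2] at h3
    exact h3

end TBasic

open TBasic in
theorem basic (H : HW μ r) : BASIC μ H where
  norm_le _ hl := norm_le H hl
  d_n2 _ hl := d_n2 H hl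
  one_le l hl := by
    have h1 : n2 μ (H.φ l) ≤ n2 μ 1 := n2_mono μ fun g => by simpa using norm_le H hl g
    have h2 : n2 μ (1 : C(G, ℂ)) = 1 := by simp [n2]
    have h3 := d_n2 H hl
    have h4 := H.d_pos l hl
    nlinarith
  mono l hl m hm := by
    have h1 : n2 μ (H.φ (l + m)) ≤ n2 μ (H.φ l) := n2_mono μ fun g => by
      rw [H.φ_add l hl m hm, ContinuousMap.mul_apply, norm_mul]
      exact mul_le_of_le_one_right (norm_nonneg _) (norm_le H hm g)
    have h2 := d_n2 H hl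
    have h3 := d_n2 H (H.Λ.add_mem hl hm)
    have h4 := H.d_pos l hl
    have h5 := H.d_pos _ (H.Λ.add_mem hl hm)
    calc H.d l = H.d l * (H.d (l + m) * n2 μ (H.φ (l + m))) := by rw [h3, mul_one]
      _ ≤ H.d l * (H.d (l + m) * n2 μ (H.φ l)) := by gcongr
      _ = H.d (l + m) * (H.d l * n2 μ (H.φ l)) := by ring
      _ = H.d (l + m) := by rw [h2, mul_one]
  rankL _ hl := rankL H hl
  rankR _ hl := rankR H hl
  submul _ hl _ hm := submul H hl hm

open TBasic in
theorem doub (H : HW μ r) : HALVE → BASIC μ H → DOUB μ H := by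
  intro hH hB m ν hν
  have := fun i => finL H (hν i)
  let σ : Type := Σ i : Fin m, Fin (Module.finrank ℂ (spanL (H.φ (ν i))))
  let y : σ → C(G, ℂ) := fun j => (Module.finBasis ℂ (spanL (H.φ (ν j.1))) j.2 : C(G, ℂ))
  have hs : ∀ i, spanL (H.φ (ν i)) ≤ mon y Sigma.fst (Pi.single i 1) := by
    intro i h hh
    have h1 := congrArg Subtype.val ((Module.finBasis ℂ (spanL (H.φ (ν i)))).sum_repr ⟨h, hh⟩)
    simp only [Submodule.coe_sum, Submodule.coe_smul] at h1
    rw [← h1]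
    exact Submodule.sum_mem _ fun k _ =>
      Submodule.smul_mem _ _ (gen_mem_mon y Sigma.fst (⟨i, k⟩ : σ))
  have he := mon_eq H ν hν y Sigma.fst
    (fun j => (Module.finBasis ℂ (spanL (H.φ (ν j.1))) j.2).2) hs
  have hd : ∀ a, H.d (wv 0 ν a) = Module.finrank ℂ (mon y Sigma.fst a) := fun a => by
    rw [he, hB.rankL _ (wv_mem H.Λ.zero_mem hν a)]
  have hmono : ∀ a b : Fin m → ℕ, a ≤ b → H.d (wv 0 ν a) ≤ H.d (wv 0 ν b) := by
    intro a b hab
    have : wv 0 ν b = wv 0 ν a + wv 0 ν (b - a) := by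
      unfold wv
      simp only [zero_add, ← Finset.sum_add_distrib, ← add_smul, Pi.sub_apply]
      exact Finset.sum_congr rfl fun i _ => by rw [Nat.add_sub_cancel' (hab i)]
    rw [this]
    exact hB.mono _ (wv_mem H.Λ.zero_mem hν a) _ (wv_mem H.Λ.zero_mem hν _)
  have hh : ∀ a, H.d (wv 0 ν a) ≤ 2 ^ Fintype.card σ * H.d (wv 0 ν fun i => a i / 2) := by
    intro a
    rw [hd, hd]
    exact_mod_cast hH C(G, ℂ) σ m y Sigma.fst (mon y Sigma.fst) (fun _ => rfl)
      (fun a b hab => by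
        have := hmono a b hab
        rw [hd, hd] at this
        exact_mod_cast this) a
  refine ⟨(2 ^ Fintype.card σ) ^ 4, one_le_pow₀ (one_le_pow₀ (by norm_num)), fun a b hab => ?_⟩
  set K : ℝ := 2 ^ Fintype.card σ
  have hK : 0 ≤ K := by positivity
  have h5 := hmono (fun i => a i / 2 / 2 / 2 / 2) b fun i => by
    have := hab i
    dsimp only
    omega
  calc H.d (wv 0 ν a) ≤ K * (K * (K * (K * H.d (wv 0 ν b)))) :=
        (hh a).trans (mul_le_mul_of_nonneg_left ((hh _).trans (mul_le_mul_of_nonneg_left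
          ((hh _).trans (mul_le_mul_of_nonneg_left ((hh _).trans
            (mul_le_mul_of_nonneg_left h5 hK)) hK)) hK)) hK)
    _ = _ := by ring

end Pool.Agent.P.MP_7211b7_an
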