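import Pool.Agent.P.MP_7211b7_an.DefsT

open MeasureTheory ComplexConjugate
open scoped ENNReal

set_option linter.unusedSectionVars false

namespace Pool.Agent.P.MP_7211b7_an

namespace TFam1

theorem fej_nonneg (M a : ℕ) : 0 ≤ fej M a := by
  unfold fej; positivity

theorem fej_le_one (M a : ℕ) (hM : 1 ≤ M) : fej M a ≤ 1 := by
  unfold fej
  have h : (0 : ℝ) < M := by exact_mod_cast hM
  rw [div_le_one h]
  exact max_le h.le (sub_le_self _ (abs_nonneg _))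

theorem half_le_fej (M a : ℕ) (hM : 1 ≤ M) (h1 : M ≤ a + 1) (h2 : a + 1 < 2 * M) :
    1 / 2 ≤ fej M a := by
  unfold fej
  have h : (0 : ℝ) < M := by exact_mod_cast hM
  rw [le_div_iff₀ h]
  refine le_trans ?_ (le_max_right _ _)
  have e1 : 2 * (M / 2) ≤ M := by omega
  have e2 : M ≤ 2 * (M / 2) + 1 := by omega
  have e3 : a + 2 ≤ 2 * M := h2
  have f1 : (2 : ℝ) * (M / 2 : ℕ) ≤ M := by exact_mod_cast e1
  have f2 : (M : ℝ) ≤ 2 * (M / 2 : ℕ) + 1 := by exact_mod_cast e2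
  have f3 : (a : ℝ) + 2 ≤ 2 * M := by exact_mod_cast e3
  have f4 : (M : ℝ) ≤ a + 1 := by exact_mod_cast h1
  have : |(a : ℝ) - ((M / 2 : ℕ) + M - 1 : ℝ)| ≤ M / 2 := abs_le.2 ⟨by linarith, by linarith⟩
  linarith

theorem wv_split {r m : ℕ} (l0 : Fin r → ℤ) (ν : Fin m → Fin r → ℤ) (a b : Fin m → ℕ)
    (h : ∀ i, b i ≤ a i) : wv l0 ν a = wv 0 ν b + wv l0 ν (fun i => a i - b i) := by
  unfold wv
  have : ∑ i, a i • ν i = ∑ i, b i • ν i + ∑ i, (a i - b i) • ν i := by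
    rw [← Finset.sum_add_distrib]
    refine Finset.sum_congr rfl fun i _ => ?_
    rw [← add_smul, Nat.add_sub_cancel' (h i)]
  rw [this]; abel

theorem wv_zero {r m : ℕ} (l0 : Fin r → ℤ) (ν : Fin m → Fin r → ℤ) (a : Fin m → ℕ) :
    wv l0 ν a = l0 + wv 0 ν a := by
  unfold wv; rw [zero_add]

theorem abs_wv_le {r m : ℕ} (l0 : Fin r → ℤ) (ν : Fin m → Fin r → ℤ) (N0 X : ℕ) (hX : 1 ≤ X)
    (hN : ∀ k, |l0 k| + 3 * ∑ i, |ν i k| ≤ N0) (a : Fin m → ℕ) (ha : ∀ i, a i ≤ 3 * X)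
    (k : Fin r) : |wv l0 ν a k| ≤ ((N0 * X : ℕ) : ℤ) := by
  have e : wv l0 ν a k = l0 k + ∑ i, (a i : ℤ) * ν i k := by
    unfold wv; simp
  rw [e]
  have hX' : (1 : ℤ) ≤ X := by exact_mod_cast hX
  have h1 : |∑ i, (a i : ℤ) * ν i k| ≤ (3 * ∑ i, |ν i k|) * X := by
    refine (Finset.abs_sum_le_sum_abs _ _).trans ?_
    rw [Finset.mul_sum, Finset.sum_mul]
    refine Finset.sum_le_sum fun i _ => ?_
    rw [abs_mul, abs_of_nonneg (by positivity : (0 : ℤ) ≤ a i)]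
    have : (a i : ℤ) ≤ 3 * X := by exact_mod_cast ha i
    nlinarith [abs_nonneg (ν i k)]
  have h2 : |l0 k| ≤ |l0 k| * X := by nlinarith [abs_nonneg (l0 k)]
  have h3 := mul_le_mul_of_nonneg_right (hN k) (by positivity : (0 : ℤ) ≤ X)
  push_cast
  rw [add_mul] at h3
  linarith [abs_add_le (l0 k) (∑ i, (a i : ℤ) * ν i k)]

theorem exists_N0 {r m : ℕ} (l0 : Fin r → ℤ) (ν : Fin m → Fin r → ℤ) :
    ∃ N0 : ℕ, 1 ≤ N0 ∧ ∀ k, |l0 k| + 3 * ∑ i, |ν i k| ≤ N0 := by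
  refine ⟨1 + ∑ k, (|l0 k| + 3 * ∑ i, |ν i k|).natAbs, by omega, fun k => ?_⟩
  have h := Finset.single_le_sum (f := fun k => (|l0 k| + 3 * ∑ i, |ν i k|).natAbs)
    (fun _ _ => Nat.zero_le _) (Finset.mem_univ k)
  have h2 := Int.le_natAbs (a := |l0 k| + 3 * ∑ i, |ν i k|)
  omega

theorem card_le {m : ℕ} (kv : Fin m → ℕ) (S : Finset (Fin m → ℕ))
    (hS : ∀ a ∈ S, ∀ i, 2 ^ kv i ≤ a i + 1 ∧ a i + 1 < 2 ^ (kv i + 1)) :
    S.card ≤ 2 ^ (∑ i, kv i) := by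
  have h : S ⊆ Fintype.piFinset (fun i => Finset.Ico (2 ^ kv i - 1) (2 ^ kv i - 1 + 2 ^ kv i)) := by
    intro a ha
    refine Fintype.mem_piFinset.2 fun i => Finset.mem_Ico.2 ?_
    have := hS a ha i
    rw [pow_succ] at this
    omega
  refine (Finset.card_le_card h).trans ?_
  rw [Fintype.card_piFinset, ← Finset.prod_pow_eq_pow_sum]
  simp

end TFam1

variable {G : Type} [Group G] [TopologicalSpace G] [IsTopologicalGroup G] [CompactSpace G]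
  [T2Space G] [SecondCountableTopology G] [MeasurableSpace G] [BorelSpace G]
  (μ : Measure G) [Hr μ] {r : ℕ}

namespace TFam1

theorem n2_nonneg (f : C(G, ℂ)) : 0 ≤ n2 μ f := integral_nonneg fun _ => by positivity

theorem d_le (H : HW μ r) {e : ℕ} {Cg : ℝ} (hCg : 0 < Cg)
    (hG : ∀ l ∈ H.Λ, H.d l ^ 2 ≤ Cg * (1 + ‖l‖) ^ e) (N0 K : ℕ) (hN : 1 ≤ N0) {l : Fin r → ℤ}
    (hl : l ∈ H.Λ) (hb : ∀ k, |l k| ≤ ((N0 * 2 ^ K : ℕ) : ℤ)) :
    H.d l ≤ Real.sqrt (Cg * (2 * N0) ^ e) * ((2 : ℝ) ^ K) ^ ((e : ℝ) / 2) := by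
  have hN' : (1 : ℝ) ≤ N0 := by exact_mod_cast hN
  have hX : (1 : ℝ) ≤ 2 ^ K := one_le_pow₀ (by norm_num)
  have h1 : ‖l‖ ≤ N0 * 2 ^ K := by
    refine (pi_norm_le_iff_of_nonneg (by positivity)).2 fun k => ?_
    rw [Int.norm_eq_abs]
    have := hb k
    exact_mod_cast this
  have h2 : 1 + ‖l‖ ≤ 2 * N0 * 2 ^ K := by nlinarith
  have h3 : H.d l ^ 2 ≤ Cg * (2 * N0 * 2 ^ K) ^ e :=
    (hG l hl).trans (mul_le_mul_of_nonneg_left (pow_le_pow_left₀ (by positivity) h2 e) hCg.le)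
  refine (pow_le_pow_iff_left₀ (H.d_pos l hl).le (by positivity) two_ne_zero).1 (h3.trans ?_)
  rw [mul_pow (Real.sqrt _), Real.sq_sqrt (by positivity), ← Real.rpow_natCast (_ ^ ((e : ℝ) / 2)),
    ← Real.rpow_mul (by positivity)]
  have : (e : ℝ) / 2 * (2 : ℕ) = (e : ℕ) := by push_cast; ring
  rw [this, Real.rpow_natCast, mul_pow (2 * (N0 : ℝ)), mul_assoc]

theorem second (H : HW μ r) (hA : AVG μ H) {ι : Type} (S : Finset ι) (w : ι → Fin r → ℤ)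
    (E : ι → ℝ) (f : ι → C(G, ℂ)) (F : ℝ × G → ℂ) (T D c : ℝ) (hD : 0 ≤ D)
    (hw : ∀ a ∈ S, w a ∈ H.Λ) (hd : ∀ a ∈ S, H.d (w a) ≤ D) (hc : (S.card : ℝ) ≤ c)
    (hf : ∀ a ∈ S, f a ∈ span2 (H.φ (w a))) (hF : Continuous F) :
    ‖∫ z, ev S E f z * conj (F z) ∂(stm μ T)‖
      ≤ D * Real.sqrt c * Real.sqrt (∑ a ∈ S, n2 μ (f a)) * ∫ z, ‖F z‖ ∂(stm μ T) := by
  have h1 : ∀ z, ‖ev S E f z‖ ≤ D * Real.sqrt c * Real.sqrt (∑ a ∈ S, n2 μ (f a)) := by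
    intro z
    unfold ev
    refine (norm_sum_le _ _).trans ?_
    have h2 : ∀ a ∈ S, ‖Complex.exp (-(Complex.I * ((z.1 * E a : ℝ) : ℂ))) * f a z.2‖
        ≤ D * (1 * Real.sqrt (n2 μ (f a))) := by
      intro a ha
      have e1 : ‖Complex.exp (-(Complex.I * ((z.1 * E a : ℝ) : ℂ)))‖ = 1 := by
        rw [Complex.norm_exp]; simp
      rw [norm_mul, e1, one_mul, one_mul]
      refine (pow_le_pow_iff_left₀ (norm_nonneg _) (by positivity) two_ne_zero).1 ?_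
      refine (hA.sup _ (hw a ha) _ (hf a ha) _).trans ?_
      rw [mul_pow, Real.sq_sqrt (n2_nonneg μ _)]
      exact mul_le_mul_of_nonneg_right
        (pow_le_pow_left₀ (H.d_pos _ (hw a ha)).le (hd a ha) 2) (n2_nonneg μ _)
    refine (Finset.sum_le_sum h2).trans ?_
    rw [← Finset.mul_sum, mul_assoc]
    refine mul_le_mul_of_nonneg_left ?_ hD
    refine (Real.sum_mul_le_sqrt_mul_sqrt S _ _).trans ?_
    have e2 : ∑ a ∈ S, Real.sqrt (n2 μ (f a)) ^ 2 = ∑ a ∈ S, n2 μ (f a) :=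
      Finset.sum_congr rfl fun a _ => Real.sq_sqrt (n2_nonneg μ _)
    rw [e2]
    refine mul_le_mul_of_nonneg_right (Real.sqrt_le_sqrt ?_) (Real.sqrt_nonneg _)
    simpa using hc
  rw [← integral_const_mul]
  refine norm_integral_le_of_norm_le ((integrable_stm μ T hF.norm).const_mul _)
    (Filter.Eventually.of_forall fun z => ?_)
  rw [norm_mul, Complex.norm_conj]
  exact mul_le_mul_of_nonneg_right (h1 z) (norm_nonneg _)

end TFam1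

open TFam1 in
theorem fam1 (H : HW μ r) :
    BASIC μ H → AVG μ H → TTOR μ H → BLOCK μ H → KERN μ H → DOUB μ H → FAM1 μ H := by
  intro hB hA hT hBl hK hD θ ℓ e m l0 ν q T hTor hG hl0 hν hI hq hT0
  have hr0 : (0 : ℝ) ≤ r := by positivity
  have hq2 : 2 < q := by
    by_contra h
    nlinarith [not_lt.1 h]
  have hq0 : 0 < q := by linarith
  obtain ⟨C1, hC1, hW⟩ := hT θ ℓ q T _ hq0 (hTor q T hq hT0)
  obtain ⟨Cg, hCg, hG⟩ := hG
  obtain ⟨Cd, hCd, hD⟩ := hD m ν hν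
  obtain ⟨N0, hN0, hN⟩ := exists_N0 l0 ν
  have hN' : ∀ k, |(0 : Fin r → ℤ) k| + 3 * ∑ i, |ν i k| ≤ N0 := fun k => by
    have := hN k
    simp only [Pi.zero_apply, abs_zero]
    linarith [abs_nonneg (l0 k)]
  have hN0' : (0 : ℝ) < N0 := by exact_mod_cast hN0
  set A := Real.sqrt (Cg * (2 * N0) ^ e) with hAdef
  have hA0 : 0 < A := Real.sqrt_pos.2 (by positivity)
  set B := H.d l0 * Cd with hBdef
  have hB1 : 1 ≤ B := one_le_mul_of_one_le_of_one_le (hB.one_le l0 hl0) hCd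
  set σ := (r : ℝ) / 2 - (r + 2) / q with hσ
  set Ca := B ^ 3 / (1 / 2) ^ m * C1 * (N0 : ℝ) ^ σ * A ^ (1 - 2 / q) with hCa
  have hCa0 : 0 < Ca := by positivity
  refine ⟨Ca + A, by positivity, ?_⟩
  intro kv K S f F hkv hS hf hF hF1
  have hM1 : ∀ i, 1 ≤ 2 ^ kv i := fun i => Nat.one_le_two_pow
  have hMX : ∀ i, 2 ^ kv i ≤ 2 ^ K := fun i => Nat.pow_le_pow_right (by norm_num) (hkv i)
  have hX1 : 1 ≤ 2 ^ K := Nat.one_le_two_pow
  set S' := Fintype.piFinset (fun i => Finset.Ico (2 ^ kv i / 2) (3 * 2 ^ kv i)) with hS'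
  have hmem : ∀ a ∈ S', ∀ i, 2 ^ kv i / 2 ≤ a i ∧ a i < 3 * 2 ^ kv i := fun a ha i =>
    Finset.mem_Ico.1 (Fintype.mem_piFinset.1 ha i)
  have hSS : S ⊆ S' := by
    intro a ha
    refine Fintype.mem_piFinset.2 fun i => Finset.mem_Ico.2 ?_
    have := hS a ha i
    rw [pow_succ] at this
    omega
  have hab : ∀ a ∈ S', ∀ k, |wv l0 ν a k| ≤ ((N0 * 2 ^ K : ℕ) : ℤ) := fun a ha =>
    abs_wv_le l0 ν N0 _ hX1 hN a fun i => by
      have := hmem a ha i; have := hMX i; omega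
  have h0Λ : ∀ a, wv 0 ν a ∈ H.Λ := fun a => wv_mem H.Λ.zero_mem hν a
  set D0 := H.d (wv 0 ν (fun i => 2 ^ kv i / 4)) with hD0
  have hD0pos : 0 < D0 := H.d_pos _ (h0Λ _)
  have hD0le : D0 ≤ A * ((2 : ℝ) ^ K) ^ ((e : ℝ) / 2) :=
    d_le μ H hCg hG N0 K hN0 (h0Λ _) (abs_wv_le 0 ν N0 _ hX1 hN' _ fun i => by
      have := hMX i; omega)
  have hV : 0 ≤ ∫ z, ‖F z‖ ∂(stm μ T) := integral_nonneg fun _ => norm_nonneg _
  have hX0 : (0 : ℝ) < 2 ^ K := by positivity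
  have b1 := hBl θ ℓ q T (C1 * ((N0 * 2 ^ K : ℕ) : ℝ) ^ σ) B ((1 / 2) ^ m) D0 _ S S' (wv l0 ν)
    (fun a => ∏ i, fej (2 ^ kv i) (a i)) f F hq2 hT0 (by positivity) hB1 (by positivity) hD0pos
    hSS (fun a _ => wv_mem hl0 hν a) (wv_injective l0 hI).injOn
    (fun a _ => ⟨Finset.prod_nonneg fun i _ => fej_nonneg _ _,
      Finset.prod_le_one (fun i _ => fej_nonneg _ _) fun i _ => fej_le_one _ _ (hM1 i)⟩)
    (fun a ha => by
      have : ((1 : ℝ) / 2) ^ m = ∏ _i : Fin m, (1 / 2 : ℝ) := by simp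
      rw [this]
      refine Finset.prod_le_prod (fun _ _ => by norm_num) fun i _ => ?_
      have := hS a ha i
      rw [pow_succ] at this
      exact half_le_fej _ _ (hM1 i) this.1 (by omega))
    (fun a ha => by
      constructor
      · rw [wv_split l0 ν a (fun i => 2 ^ kv i / 4) fun i => by have := hmem a ha i; omega]
        exact hB.mono _ (h0Λ _) _ (wv_mem hl0 hν _)
      · rw [wv_zero, hBdef, mul_assoc]
        refine (hB.submul _ hl0 _ (h0Λ _)).trans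
          (mul_le_mul_of_nonneg_left (hD _ _ fun i => ?_) (H.d_pos _ hl0).le)
        have := hmem a ha i
        omega)
    (hK m l0 ν (fun i => 2 ^ kv i) hl0 hν hI hM1)
    (hW _ S (wv l0 ν) (N0 * 2 ^ K) (Nat.mul_pos hN0 hX1) (wv_injective l0 hI).injOn
      fun a ha => hab a (hSS ha))
    hf hF hF1
  have b2 := second μ H hA S (wv l0 ν) (fun a => En θ ℓ (wv l0 ν a)) f F T
    (A * ((2 : ℝ) ^ K) ^ ((e : ℝ) / 2)) ((2 : ℝ) ^ (∑ i, kv i)) (by positivity)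
    (fun a _ => wv_mem hl0 hν a)
    (fun a ha => d_le μ H hCg hG N0 K hN0 (wv_mem hl0 hν a) (hab a (hSS ha)))
    (by exact_mod_cast card_le kv S hS) hf hF
  set R := Real.sqrt (∑ a ∈ S, n2 μ (f a)) with hR
  have hR0 : 0 ≤ R := Real.sqrt_nonneg _
  set V := ∫ z, ‖F z‖ ∂(stm μ T) with hVdef
  rw [mul_min_of_nonneg _ _ (by positivity)]
  refine le_min (b1.trans ?_) (b2.trans ?_)
  · have hexp : 0 ≤ 1 - 2 / q := by
      rw [sub_nonneg, div_le_one hq0]; exact hq2.le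
    have e1 : D0 ^ (1 - 2 / q) ≤ A ^ (1 - 2 / q) * ((2 : ℝ) ^ K) ^ ((e : ℝ) / 2 * (1 - 2 / q)) := by
      rw [Real.rpow_mul hX0.le, ← Real.mul_rpow hA0.le (by positivity)]
      exact Real.rpow_le_rpow hD0pos.le hD0le hexp
    have e2 : ((N0 * 2 ^ K : ℕ) : ℝ) ^ σ = (N0 : ℝ) ^ σ * ((2 : ℝ) ^ K) ^ σ := by
      push_cast; rw [Real.mul_rpow hN0'.le hX0.le]
    have e3 : ((2 : ℝ) ^ K) ^ ((r + e : ℝ) / 2 - (r + e + 2) / q)
        = ((2 : ℝ) ^ K) ^ σ * ((2 : ℝ) ^ K) ^ ((e : ℝ) / 2 * (1 - 2 / q)) := by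
      rw [← Real.rpow_add hX0]; congr 1; rw [hσ]; field_simp; ring
    rw [e2, e3]
    calc _ ≤ B ^ 3 / (1 / 2) ^ m * (C1 * ((N0 : ℝ) ^ σ * ((2 : ℝ) ^ K) ^ σ)) *
          (A ^ (1 - 2 / q) * ((2 : ℝ) ^ K) ^ ((e : ℝ) / 2 * (1 - 2 / q))) * R * V ^ (1 - 1 / q) := by
          gcongr
      _ = Ca * R * (((2 : ℝ) ^ K) ^ σ * ((2 : ℝ) ^ K) ^ ((e : ℝ) / 2 * (1 - 2 / q)) *
          V ^ (1 - 1 / q)) := by rw [hCa]; ring
      _ ≤ _ := by gcongr; linarith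
  · calc _ = A * R * (Real.sqrt ((2 : ℝ) ^ (∑ i, kv i)) * ((2 : ℝ) ^ K) ^ ((e : ℝ) / 2) * V) := by
          ring
      _ ≤ _ := by gcongr; linarith

end Pool.Agent.P.MP_7211b7_an
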