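import Pool.Agent.P.MP_7211b7_an.DefsT

/-!
# MP_7211b7_an, part T: summing the dyadic blocks of a free family, and the finite cover
-/

open MeasureTheory ComplexConjugate
open scoped ENNReal

set_option linter.unusedSectionVars false

namespace Pool.Agent.P.MP_7211b7_an

namespace TFam2

/-- interpolation between the two block estimates -/
theorem min_le_interp {a0 b0 y g : ℝ} (ha : 0 < a0) (hb : 0 < b0) (hy : 0 < y) (hg : 0 < g)
    (hg1 : g ≤ 1) :
    min (y ^ (-a0)) (g * y ^ b0)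
      ≤ g ^ (a0 / (2 * (a0 + b0))) *
        min (y ^ (min (a0 / 2) b0)) (y ^ (-(min (a0 / 2) b0))) := by
  set t : ℝ := a0 / (2 * (a0 + b0)) with ht
  set c : ℝ := min (a0 / 2) b0 with hc
  have ht0 : 0 < t := by positivity
  have ht1 : t ≤ 1 := by
    rw [ht, div_le_one (by positivity)]; linarith
  have hc0 : 0 < c := lt_min (by positivity) hb
  have hca : c ≤ a0 / 2 := min_le_left _ _
  have hcb : c ≤ b0 := min_le_right _ _
  have hgt : 0 < g ^ t := Real.rpow_pos_of_pos hg _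
  rcases le_total y 1 with h1 | h1
  · have h2 : y ^ c ≤ y ^ (-c) := Real.rpow_le_rpow_of_exponent_ge hy h1 (by linarith)
    rw [min_eq_left h2]
    refine (min_le_right _ _).trans ?_
    have h3 : g ≤ g ^ t := by
      have := Real.rpow_le_rpow_of_exponent_ge hg hg1 ht1
      rwa [Real.rpow_one] at this
    have h4 : y ^ b0 ≤ y ^ c := Real.rpow_le_rpow_of_exponent_ge hy h1 hcb
    exact mul_le_mul h3 h4 (Real.rpow_nonneg hy.le _) hgt.le
  · have h2 : y ^ (-c) ≤ y ^ c := Real.rpow_le_rpow_of_exponent_le h1 (by linarith)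
    rw [min_eq_right h2]
    set A := y ^ (-a0) with hA
    set B := g * y ^ b0 with hB
    have hA0 : 0 < A := Real.rpow_pos_of_pos hy _
    have hB0 : 0 < B := mul_pos hg (Real.rpow_pos_of_pos hy _)
    have hm0 : 0 < min A B := lt_min hA0 hB0
    have h3 : min A B ≤ A ^ (1 - t) * B ^ t := by
      have e1 : min A B = (min A B) ^ (1 - t) * (min A B) ^ t := by
        rw [← Real.rpow_add hm0]; simp
      rw [e1]
      exact mul_le_mul (Real.rpow_le_rpow hm0.le (min_le_left _ _) (by linarith))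
        (Real.rpow_le_rpow hm0.le (min_le_right _ _) ht0.le) (Real.rpow_nonneg hm0.le _)
        (Real.rpow_nonneg hA0.le _)
    have h4 : A ^ (1 - t) * B ^ t = g ^ t * y ^ (-(a0 / 2)) := by
      rw [hA, hB, Real.mul_rpow hg.le (Real.rpow_nonneg hy.le _), ← Real.rpow_mul hy.le,
        ← Real.rpow_mul hy.le, mul_left_comm, ← Real.rpow_add hy]
      congr 2
      rw [ht]; field_simp; ring
    refine h3.trans ?_
    rw [h4]
    exact mul_le_mul_of_nonneg_left
      (Real.rpow_le_rpow_of_exponent_le h1 (by linarith)) hgt.le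

/-- rewriting the block estimate -/
theorem block_rewrite {N mF G2 g D e r p q : ℝ} (hN : 0 < N) (hm : 0 < mF)
    (hD : D = r + e) (hG : G2 ≤ g * N ^ (r / 2)) :
    min (N ^ (D / 2 - (D + 2) / q) * mF ^ (1 - 1 / q)) (G2 * N ^ (e / 2) * mF)
      ≤ N ^ (D / 2 - (D + 2) / p) * mF ^ (1 - 1 / p) *
        min ((N ^ (D + 2) * mF) ^ (-(1 / q - 1 / p))) (g * (N ^ (D + 2) * mF) ^ (1 / p)) := by
  have hN2 : 0 ≤ N ^ (D + 2) := Real.rpow_nonneg hN.le _
  have hP : 0 ≤ N ^ (D / 2 - (D + 2) / p) * mF ^ (1 - 1 / p) :=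
    mul_nonneg (Real.rpow_nonneg hN.le _) (Real.rpow_nonneg hm.le _)
  rw [mul_min_of_nonneg _ _ hP]
  refine min_le_min (le_of_eq ?_) ?_
  · rw [Real.mul_rpow hN2 hm.le, ← Real.rpow_mul hN.le, mul_mul_mul_comm, ← Real.rpow_add hN,
      ← Real.rpow_add hm]
    congr 2 <;> ring
  · rw [Real.mul_rpow hN2 hm.le, ← Real.rpow_mul hN.le, mul_left_comm, mul_mul_mul_comm,
      ← Real.rpow_add hN, ← Real.rpow_add hm]
    have e1 : D / 2 - (D + 2) / p + (D + 2) * (1 / p) = r / 2 + e / 2 := by rw [hD]; ring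
    have e2 : 1 - 1 / p + 1 / p = (1 : ℝ) := by ring
    rw [e1, e2, Real.rpow_one, Real.rpow_add hN, ← mul_assoc, ← mul_assoc]
    exact mul_le_mul_of_nonneg_right
      (mul_le_mul_of_nonneg_right hG (Real.rpow_nonneg hN.le _)) hm.le

/-- the gain of a block -/
noncomputable def gain {m : ℕ} (kv : Fin m → ℕ) (K : ℕ) : ℝ :=
  (2 : ℝ) ^ (-((∑ i, (K - kv i) : ℕ) : ℝ) / 2)

theorem gain_pos {m : ℕ} (kv : Fin m → ℕ) (K : ℕ) : 0 < gain kv K :=
  Real.rpow_pos_of_pos (by norm_num) _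

theorem gain_le_one {m : ℕ} (kv : Fin m → ℕ) (K : ℕ) : gain kv K ≤ 1 :=
  Real.rpow_le_one_of_one_le_of_nonpos (by norm_num) (by
    have : (0 : ℝ) ≤ ((∑ i, (K - kv i) : ℕ) : ℝ) := Nat.cast_nonneg _
    linarith)

theorem sqrt_le_gain {m r : ℕ} (hmr : m ≤ r) (kv : Fin m → ℕ) (K : ℕ) (h : ∀ i, kv i ≤ K) :
    Real.sqrt ((2 : ℝ) ^ (∑ i, kv i)) ≤ gain kv K * ((2 : ℝ) ^ K) ^ ((r : ℝ) / 2) := by
  have h1 : ∑ i, kv i + ∑ i, (K - kv i) = m * K := by
    rw [← Finset.sum_add_distrib, Finset.sum_congr rfl fun i _ => Nat.add_sub_cancel' (h i)]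
    simp
  have h2 : ((∑ i, kv i : ℕ) : ℝ) + ((∑ i, (K - kv i) : ℕ) : ℝ) ≤ r * K := by
    have : m * K ≤ r * K := Nat.mul_le_mul_right _ hmr
    rw [← h1] at this
    exact_mod_cast this
  unfold gain
  rw [Real.sqrt_eq_rpow, ← Real.rpow_natCast, ← Real.rpow_natCast, ← Real.rpow_mul (by norm_num),
    ← Real.rpow_mul (by norm_num), ← Real.rpow_add (by norm_num)]
  exact Real.rpow_le_rpow_of_exponent_le (by norm_num) (by linarith)

theorem sum_gain_le {m : ℕ} {t : ℝ} (ht : 0 < t) (K : ℕ) (I : Finset (Fin m → ℕ))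
    (hI : ∀ kv ∈ I, ∀ i, kv i ≤ K) :
    ∑ kv ∈ I, (gain kv K ^ t) ^ 2 ≤ ((1 - (2 : ℝ) ^ (-t))⁻¹) ^ m := by
  set ρ : ℝ := (2 : ℝ) ^ (-t) with hρ
  have hρ0 : 0 < ρ := Real.rpow_pos_of_pos (by norm_num) _
  have hρ1 : ρ < 1 := Real.rpow_lt_one_of_one_lt_of_neg (by norm_num) (by linarith)
  have h1 : ∀ kv : Fin m → ℕ, (gain kv K ^ t) ^ 2 = ∏ i, ρ ^ (K - kv i) := by
    intro kv
    have h20 : (0 : ℝ) ≤ 2 := by norm_num
    rw [Finset.prod_pow_eq_pow_sum, hρ, gain, ← Real.rpow_mul h20, ← Real.rpow_natCast,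
      ← Real.rpow_natCast, ← Real.rpow_mul h20, ← Real.rpow_mul h20]
    congr 1
    push_cast
    ring
  have h2 : ∑ k ∈ Finset.range (K + 1), ρ ^ (K - k) ≤ (1 - ρ)⁻¹ := by
    have := Finset.sum_range_reflect (fun k => ρ ^ k) (K + 1)
    simp only [Nat.add_sub_cancel] at this
    rw [this, ← tsum_geometric_of_lt_one hρ0.le hρ1]
    exact (summable_geometric_of_lt_one hρ0.le hρ1).sum_le_tsum _ fun k _ => by positivity
  calc ∑ kv ∈ I, (gain kv K ^ t) ^ 2 = ∑ kv ∈ I, ∏ i, ρ ^ (K - kv i) :=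
        Finset.sum_congr rfl fun kv _ => h1 kv
    _ ≤ ∑ kv ∈ Fintype.piFinset (fun _ : Fin m => Finset.range (K + 1)), ∏ i, ρ ^ (K - kv i) := by
        refine Finset.sum_le_sum_of_subset_of_nonneg (fun kv hkv => ?_) fun kv _ _ => by positivity
        rw [Fintype.mem_piFinset]
        intro i
        exact Finset.mem_range.2 (Nat.lt_succ_of_le (hI kv hkv i))
    _ = ∏ _i : Fin m, ∑ k ∈ Finset.range (K + 1), ρ ^ (K - k) :=
        (Finset.prod_univ_sum (fun _ : Fin m => Finset.range (K + 1))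
          (fun _ k => ρ ^ (K - k))).symm
    _ ≤ ((1 - ρ)⁻¹) ^ m := by
        rw [Finset.prod_const, Finset.card_univ, Fintype.card_fin]
        exact pow_le_pow_left₀ (Finset.sum_nonneg fun k _ => by positivity) h2 _

theorem indep_le {r m : ℕ} {ν : Fin m → Fin r → ℤ} (h : Indep ν) : m ≤ r := by
  have := LinearIndependent.fintype_card_le_finrank h
  simpa using this

theorem norm_cast_pi {r : ℕ} (l : Fin r → ℤ) : ‖(fun k => (l k : ℝ))‖ = ‖l‖ := by
  simp only [Pi.norm_def]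
  congr 2

/-- coordinates are bounded by the norm of the weight -/
theorem coord_le {r m : ℕ} (l0 : Fin r → ℤ) {ν : Fin m → Fin r → ℤ} (h : Indep ν) :
    ∃ C : ℝ, 1 ≤ C ∧ ∀ (a : Fin m → ℕ) (i : Fin m), (a i : ℝ) + 1 ≤ C * (1 + ‖wv l0 ν a‖) := by
  let L : (Fin m → ℝ) →ₗ[ℝ] (Fin r → ℝ) :=
    Fintype.linearCombination ℝ (fun i : Fin m => fun k : Fin r => (ν i k : ℝ))
  have hL : LinearMap.ker L = ⊥ := by
    rw [LinearMap.ker_eq_bot]
    exact linearIndependent_iff_injective_fintypeLinearCombination.1 h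
  obtain ⟨K, -, hK⟩ := LinearMap.exists_antilipschitzWith L hL
  refine ⟨1 + K * (1 + ‖l0‖), by
    have : (0 : ℝ) ≤ K * (1 + ‖l0‖) := by positivity
    linarith, fun a i => ?_⟩
  have h1 : ‖(fun i => (a i : ℝ))‖ ≤ K * ‖L (fun i => (a i : ℝ))‖ :=
    ZeroHomClass.bound_of_antilipschitz L hK _
  have h2 : L (fun i => (a i : ℝ)) = fun k => ((wv l0 ν a - l0) k : ℝ) := by
    funext k
    simp [L, wv, Fintype.linearCombination_apply, Finset.sum_apply]
  have h3 : (a i : ℝ) ≤ ‖(fun i => (a i : ℝ))‖ := by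
    have := norm_le_pi_norm (fun i => (a i : ℝ)) i
    simpa using this
  rw [h2, norm_cast_pi] at h1
  have h4 : ‖wv l0 ν a - l0‖ ≤ ‖wv l0 ν a‖ + ‖l0‖ := norm_sub_le _ _
  have hK0 : (0 : ℝ) ≤ K := K.2
  have h5 := norm_nonneg (wv l0 ν a)
  have h6 := norm_nonneg l0
  have h7 : (K : ℝ) * ‖wv l0 ν a - l0‖ ≤ K * (‖wv l0 ν a‖ + ‖l0‖) :=
    mul_le_mul_of_nonneg_left h4 hK0
  nlinarith [mul_nonneg hK0 h5, mul_nonneg hK0 h6, mul_nonneg (mul_nonneg hK0 h5) h6]

/-- the dyadic scale vector -/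
def kvec {m : ℕ} (a : Fin m → ℕ) : Fin m → ℕ := fun i => Nat.log 2 (a i + 1)

/-- the largest scale -/
def top {m : ℕ} (kv : Fin m → ℕ) : ℕ := Finset.univ.sup kv

theorem le_top' {m : ℕ} (kv : Fin m → ℕ) (i : Fin m) : kv i ≤ top kv :=
  Finset.le_sup (f := kv) (Finset.mem_univ i)

theorem kvec_spec {m : ℕ} (a : Fin m → ℕ) (i : Fin m) :
    2 ^ kvec a i ≤ a i + 1 ∧ a i + 1 < 2 ^ (kvec a i + 1) :=
  ⟨Nat.pow_log_le_self 2 (Nat.succ_ne_zero _), Nat.lt_pow_succ_log_self (by norm_num) _⟩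

theorem two_pow_top_le {r m : ℕ} (l0 : Fin r → ℤ) {ν : Fin m → Fin r → ℤ} (h : Indep ν) :
    ∃ C : ℝ, 1 ≤ C ∧ ∀ a : Fin m → ℕ, (2 : ℝ) ^ top (kvec a) ≤ C * (1 + ‖wv l0 ν a‖) := by
  obtain ⟨C, hC, hCa⟩ := coord_le l0 h
  refine ⟨C, hC, fun a => ?_⟩
  rcases (Finset.univ : Finset (Fin m)).eq_empty_or_nonempty with he | hne
  · have : top (kvec a) = 0 := by rw [top, he]; rfl
    rw [this, pow_zero]
    have := norm_nonneg (wv l0 ν a)
    nlinarith
  · obtain ⟨i, -, hi⟩ := Finset.exists_mem_eq_sup _ hne (kvec a)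
    rw [top, hi]
    refine le_trans ?_ (hCa a i)
    exact_mod_cast (kvec_spec a i).1

/-- the coefficient sequence fed to the summation lemma has controlled square sum -/
theorem sum_gamma_sq_le {m : ℕ} {t : ℝ} (ht : 0 < t) (I : Finset (Fin m → ℕ)) (Km : ℕ)
    (hK : ∀ kv ∈ I, top kv < Km) (b : (Fin m → ℕ) → ℝ) :
    ∑ K ∈ Finset.range Km, (∑ kv ∈ I with top kv = K, gain kv (top kv) ^ t * b kv) ^ 2
      ≤ ((1 - (2 : ℝ) ^ (-t))⁻¹) ^ m * ∑ kv ∈ I, b kv ^ 2 := by
  rw [← Finset.sum_fiberwise_of_maps_to (g := top) (t := Finset.range Km)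
    (fun kv h => Finset.mem_range.2 (hK kv h)) (fun kv => b kv ^ 2), Finset.mul_sum]
  refine Finset.sum_le_sum fun K _ => ?_
  refine (Finset.sum_mul_sq_le_sq_mul_sq _ _ _).trans ?_
  refine mul_le_mul_of_nonneg_right ?_ (Finset.sum_nonneg fun _ _ => sq_nonneg _)
  rw [Finset.sum_congr rfl (g := fun kv => (gain kv K ^ t) ^ 2)
    fun kv h => by rw [(Finset.mem_filter.1 h).2]]
  refine sum_gain_le ht K _ fun kv h i => ?_
  rw [← (Finset.mem_filter.1 h).2]
  exact le_top' kv i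

variable {G : Type} [Group G] [TopologicalSpace G] [IsTopologicalGroup G] [CompactSpace G]
  [T2Space G] [SecondCountableTopology G] [MeasurableSpace G] [BorelSpace G]
  (μ : Measure G) [Hr μ]

theorem n2_nonneg (f : C(G, ℂ)) : 0 ≤ n2 μ f := integral_nonneg fun _ => by positivity

theorem ev_fiber {ι κ : Type} [DecidableEq κ] (S : Finset ι) (I : Finset κ) (k : ι → κ)
    (hk : ∀ a ∈ S, k a ∈ I) (E : ι → ℝ) (f : ι → C(G, ℂ)) (z : ℝ × G) :
    ev S E f z = ∑ c ∈ I, ev (S.filter fun a => k a = c) E f z := by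
  unfold ev
  exact (Finset.sum_fiberwise_of_maps_to hk _).symm

theorem norm_ev_le {ι : Type} (S : Finset ι) (E : ι → ℝ) (f : ι → C(G, ℂ)) (z : ℝ × G) :
    ‖ev S E f z‖ ≤ ∑ a ∈ S, ‖f a‖ := by
  unfold ev
  refine (norm_sum_le _ _).trans (Finset.sum_le_sum fun a _ => ?_)
  rw [norm_mul, mul_comm Complex.I, ← neg_mul, ← Complex.ofReal_neg,
    Complex.norm_exp_ofReal_mul_I, one_mul]
  exact (f a).norm_coe_le_norm _

theorem pairing_fiber {ι κ : Type} [DecidableEq κ] (S : Finset ι) (I : Finset κ) (k : ι → κ)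
    (hk : ∀ a ∈ S, k a ∈ I) (E : ι → ℝ) (f : ι → C(G, ℂ)) (T : ℝ) {F : ℝ × G → ℂ}
    (hF : Continuous F) :
    ∫ z, ev S E f z * conj (F z) ∂(stm μ T)
      = ∑ c ∈ I, ∫ z, ev (S.filter fun a => k a = c) E f z * conj (F z) ∂(stm μ T) := by
  rw [← integral_finsetSum]
  · refine integral_congr_ae (Filter.Eventually.of_forall fun z => ?_)
    simp only
    rw [ev_fiber S I k hk, Finset.sum_mul]
  · intro c _
    refine integrable_stm μ T ?_
    have := continuous_ev (S.filter fun a => k a = c) E f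
    fun_prop

end TFam2

open TFam2

variable {G : Type} [Group G] [TopologicalSpace G] [IsTopologicalGroup G] [CompactSpace G]
  [T2Space G] [SecondCountableTopology G] [MeasurableSpace G] [BorelSpace G]
  (μ : Measure G) [Hr μ] {r : ℕ}

theorem fam2 (H : HW μ r) : FAM1 μ H → LSUM → FAM2 μ H := by
  intro h1 hL θ ℓ e m l0 ν p T hTor hGr hl0 hν hind hp hT
  have hr : (0 : ℝ) < r := by
    rcases Nat.eq_zero_or_pos r with h | h
    · subst h; norm_num at hp
    · exact_mod_cast h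
  have he : (0 : ℝ) ≤ e := Nat.cast_nonneg _
  have hp2 : 2 < p := by nlinarith
  have hp0 : 0 < p := by linarith
  set D : ℝ := r + e with hD
  have hD0 : 0 < D := by positivity
  set q : ℝ := (p + 2 + 4 / r) / 2 with hq
  have h4r : 4 / (r : ℝ) < p - 2 := by rw [div_lt_iff₀ hr]; linarith
  have h4r0 : 0 < 4 / (r : ℝ) := by positivity
  have hqp : q < p := by rw [hq]; linarith
  have hq0 : 0 < q := by rw [hq]; linarith
  have hrq : 4 < r * (q - 2) := by
    have : (r : ℝ) * (q - 2) = (r * (p - 2) + 4) / 2 := by rw [hq]; field_simp; ring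
    rw [this]; linarith
  set s : ℝ := D / 2 - (D + 2) / p with hs
  have hs0 : 0 ≤ s := by
    rw [hs, sub_nonneg, div_le_div_iff₀ hp0 (by norm_num), hD]
    nlinarith [mul_nonneg he (by linarith : (0 : ℝ) ≤ p - 2)]
  set a0 : ℝ := 1 / q - 1 / p with ha0
  have ha : 0 < a0 := sub_pos.2 (one_div_lt_one_div_of_lt hq0 hqp)
  have hb : 0 < 1 / p := by positivity
  set t : ℝ := a0 / (2 * (a0 + 1 / p)) with ht
  have ht0 : 0 < t := by positivity
  set c : ℝ := min (a0 / 2) (1 / p) with hc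
  have hc0 : 0 < c := lt_min (by positivity) hb
  obtain ⟨C1, hC1, hF1⟩ := h1 θ ℓ e m l0 ν q T hTor hGr hl0 hν hind hrq hT
  obtain ⟨C2, hC2, hL2⟩ := hL p c (D + 2) hp2.le hc0 (by positivity)
  obtain ⟨C3, hC3, hC3a⟩ := two_pow_top_le l0 hind
  set M : ℝ := ((1 - (2 : ℝ) ^ (-t))⁻¹) ^ m with hM
  have hM0 : 0 < M := by
    have : (2 : ℝ) ^ (-t) < 1 := Real.rpow_lt_one_of_one_lt_of_neg (by norm_num) (by linarith)
    have : 0 < 1 - (2 : ℝ) ^ (-t) := by linarith
    positivity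
  have hC30 : 0 < C3 := by linarith
  have hC4 : 0 < M * (C1 ^ 2 * C3 ^ (2 * s)) := by positivity
  refine ⟨C2 * (M * (C1 ^ 2 * C3 ^ (2 * s))) ^ (p / 2), by positivity, fun S f hf => ?_⟩
  classical
  set E : (Fin m → ℕ) → ℝ := fun a => En θ ℓ (wv l0 ν a) with hE
  set I : Finset (Fin m → ℕ) := S.image kvec with hI
  set Km : ℕ := I.sup top + 1 with hKm
  have hK : ∀ kv ∈ I, top kv < Km := fun kv h => Nat.lt_succ_of_le (Finset.le_sup (f := top) h)
  set A : (Fin m → ℕ) → ℝ := fun kv => ∑ a ∈ S with kvec a = kv, n2 μ (f a) with hA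
  have hA0 : ∀ kv, 0 ≤ A kv := fun kv => Finset.sum_nonneg fun a _ => n2_nonneg μ _
  set b : (Fin m → ℕ) → ℝ := fun kv => C1 * √(A kv) * ((2 : ℝ) ^ top kv) ^ s with hbdef
  have hb0 : ∀ kv, 0 ≤ b kv := fun kv => by positivity
  set γ : ℕ → ℝ := fun K => ∑ kv ∈ I with top kv = K, gain kv (top kv) ^ t * b kv with hγ
  have hγ0 : ∀ K, 0 ≤ γ K := fun K => Finset.sum_nonneg fun kv _ =>
    mul_nonneg (Real.rpow_nonneg (gain_pos _ _).le _) (hb0 kv)
  have hcont : Continuous (ev S E f) := continuous_ev S E f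
  have hmain := hL2 (ℝ × G) (stm μ T) (ev S E f) Km γ hcont.measurable
    ⟨_, Filter.Eventually.of_forall (norm_ev_le S E f)⟩ hγ0 (by
      intro ϑ hϑ hϑ1 hpos
      set mF : ℝ := ∫ x, ‖ϑ (ev S E f x)‖ ∂(stm μ T) with hmF
      have hFc : Continuous fun z => ϑ (ev S E f z) := hϑ.comp hcont
      rw [pairing_fiber μ S I kvec (fun a h => Finset.mem_image_of_mem _ h) E f T hFc]
      refine (norm_sum_le _ _).trans ?_
      set Φ : ℕ → ℝ := fun k => min (((2 : ℝ) ^ ((D + 2) * k) * mF) ^ c)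
        (((2 : ℝ) ^ ((D + 2) * k) * mF) ^ (-c)) with hΦ
      have hsum : ∑ k ∈ Finset.range Km, γ k * Φ k
          = ∑ kv ∈ I, gain kv (top kv) ^ t * b kv * Φ (top kv) := by
        rw [← Finset.sum_fiberwise_of_maps_to (g := top) (t := Finset.range Km)
          (fun kv h => Finset.mem_range.2 (hK kv h))]
        refine Finset.sum_congr rfl fun k _ => ?_
        rw [hγ, Finset.sum_mul]
        exact Finset.sum_congr rfl fun kv h => by rw [(Finset.mem_filter.1 h).2]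
      change _ ≤ mF ^ (1 - 1 / p) * ∑ k ∈ Finset.range Km, γ k * Φ k
      rw [hsum, Finset.mul_sum]
      refine Finset.sum_le_sum fun kv _ => ?_
      have h2 := hF1 kv (top kv) (S.filter fun a => kvec a = kv) f _ (le_top' kv)
        (fun a h i => by rw [← (Finset.mem_filter.1 h).2]; exact kvec_spec a i)
        (fun a h => hf a (Finset.mem_filter.1 h).1) hFc (fun z => hϑ1 _)
      refine h2.trans ?_
      have hN : (0 : ℝ) < 2 ^ top kv := by positivity
      have h3 := block_rewrite (p := p) (q := q) hN hpos hD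
        (sqrt_le_gain (indep_le hind) kv (top kv) (le_top' kv))
      have hy : (0 : ℝ) < ((2 : ℝ) ^ top kv) ^ (D + 2) * mF := by positivity
      have h4 := min_le_interp ha hb hy (gain_pos kv (top kv)) (gain_le_one kv (top kv))
      have h5 : ((2 : ℝ) ^ top kv) ^ (D + 2) = (2 : ℝ) ^ ((D + 2) * (top kv : ℕ)) := by
        rw [← Real.rpow_natCast, ← Real.rpow_mul (by norm_num), mul_comm]
      have h6 : (0 : ℝ) ≤ ((2 : ℝ) ^ top kv) ^ s * mF ^ (1 - 1 / p) := by positivity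
      have h7 := h3.trans (mul_le_mul_of_nonneg_left h4 h6)
      have h8 : (0 : ℝ) ≤ C1 * √(A kv) := by positivity
      refine (mul_le_mul_of_nonneg_left h7 h8).trans (le_of_eq ?_)
      rw [h5]
      simp only [hbdef, hΦ]
      ring)
  refine hmain.trans ?_
  rw [mul_assoc C2]
  refine mul_le_mul_of_nonneg_left ?_ hC2.le
  have hW0 : 0 ≤ ∑ a ∈ S, (1 + ‖wv l0 ν a‖) ^ (2 * s) * n2 μ (f a) :=
    Finset.sum_nonneg fun a _ => mul_nonneg (by positivity) (n2_nonneg μ _)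
  rw [← Real.mul_rpow hC4.le hW0]
  refine Real.rpow_le_rpow (Finset.sum_nonneg fun _ _ => sq_nonneg _) ?_ (by positivity)
  refine (sum_gamma_sq_le ht0 I Km hK b).trans ?_
  rw [mul_assoc M]
  refine mul_le_mul_of_nonneg_left ?_ hM0.le
  rw [← Finset.sum_fiberwise_of_maps_to (g := kvec) (t := I)
    (fun a h => Finset.mem_image_of_mem _ h), Finset.mul_sum]
  refine Finset.sum_le_sum fun kv _ => ?_
  have h9 : b kv ^ 2 = ∑ a ∈ S with kvec a = kv,
      C1 ^ 2 * (((2 : ℝ) ^ top kv) ^ (2 * s) * n2 μ (f a)) := by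
    rw [← Finset.mul_sum, ← Finset.mul_sum, hbdef]
    simp only
    rw [mul_pow, mul_pow, Real.sq_sqrt (hA0 kv), ← Real.rpow_natCast (_ ^ s),
      ← Real.rpow_mul (by positivity), mul_comm s]
    push_cast
    ring
  rw [h9, Finset.mul_sum]
  refine Finset.sum_le_sum fun a h => ?_
  rw [mul_assoc (C1 ^ 2), ← mul_assoc (C3 ^ _), ← Real.mul_rpow hC30.le (by positivity)]
  refine mul_le_mul_of_nonneg_left (mul_le_mul_of_nonneg_right ?_ (n2_nonneg μ _)) (sq_nonneg _)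
  refine Real.rpow_le_rpow (by positivity) ?_ (by positivity)
  rw [← (Finset.mem_filter.1 h).2]
  exact hC3a a

theorem tmain (H : HW μ r) : FAM2 μ H → TMAIN μ H := by
  intro h2 θ ℓ e p T hTor hGr hcov hp hT
  obtain ⟨J, _, m, l0, ν, hl0, hν, hind, hcov⟩ := hcov
  have hr : (0 : ℝ) < r := by
    rcases Nat.eq_zero_or_pos r with h | h
    · subst h; norm_num at hp
    · exact_mod_cast h
  have hp2 : 2 < p := by nlinarith
  choose C hC hCj using fun j => h2 θ ℓ e (m j) (l0 j) (ν j) p T hTor hGr (hl0 j) (hν j)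
    (hind j) hp hT
  have : Nonempty J := by
    obtain ⟨j, -⟩ := hcov 0 H.Λ.zero_mem
    exact ⟨j⟩
  choose! jf hjf using hcov
  have hsumC : 0 < ∑ j, C j := Finset.sum_pos (fun j _ => hC j) Finset.univ_nonempty
  have hcard : (0 : ℝ) < (Finset.univ : Finset J).card := by
    exact_mod_cast Finset.card_pos.2 Finset.univ_nonempty
  refine ⟨((Finset.univ : Finset J).card : ℝ) ^ (p - 1) * ∑ j, C j, by positivity,
    fun S f hS hf => ?_⟩
  classical
  set s2 : ℝ := 2 * (((r : ℝ) + e) / 2 - ((r : ℝ) + e + 2) / p) with hs2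
  set W : ℝ := ∑ l ∈ S, (1 + ‖l‖) ^ s2 * n2 μ (f l) with hW
  have hterm : ∀ l : Fin r → ℤ, 0 ≤ (1 + ‖l‖) ^ s2 * n2 μ (f l) := fun l =>
    mul_nonneg (by positivity) (n2_nonneg μ _)
  set u : J → ℝ × G → ℂ := fun j => ev (S.filter fun l => jf l = j) (En θ ℓ) f with hu
  have huc : ∀ j, Continuous fun z => ‖u j z‖ ^ p := fun j =>
    (continuous_ev _ _ _).norm.rpow_const fun _ => Or.inr (by linarith)
  have hj : ∀ j, ∫ z, ‖u j z‖ ^ p ∂(stm μ T) ≤ C j * W ^ (p / 2) := by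
    intro j
    have hinj := wv_injective (l0 j) (hind j)
    set Sj := S.filter fun l => jf l = j with hSj
    set Tj := Sj.preimage (wv (l0 j) (ν j)) hinj.injOn with hTj
    have hrange : ∀ l ∈ Sj, l ∈ Set.range (wv (l0 j) (ν j)) := by
      intro l hl
      obtain ⟨hl1, hl2⟩ := Finset.mem_filter.1 hl
      obtain ⟨a, ha⟩ := hjf l (hS l hl1)
      subst hl2
      exact ⟨a, ha.symm⟩
    have h3 := hCj j Tj (fun a => f (wv (l0 j) (ν j) a)) fun a ha =>
      hf _ (Finset.mem_filter.1 (Finset.mem_preimage.1 ha)).1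
    have h4 : ev Tj (fun a => En θ ℓ (wv (l0 j) (ν j) a)) (fun a => f (wv (l0 j) (ν j) a))
        = u j := by
      funext z
      exact Finset.sum_preimage (wv (l0 j) (ν j)) Sj hinj.injOn
        (fun l => Complex.exp (-(Complex.I * ((z.1 * En θ ℓ l : ℝ) : ℂ))) * f l z.2)
        fun l hl hn => absurd (hrange l hl) hn
    have h5 := Finset.sum_preimage (wv (l0 j) (ν j)) Sj hinj.injOn
      (fun l => (1 + ‖l‖) ^ s2 * n2 μ (f l)) fun l hl hn => absurd (hrange l hl) hn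
    rw [h4, h5] at h3
    refine h3.trans (mul_le_mul_of_nonneg_left ?_ (hC j).le)
    refine Real.rpow_le_rpow (Finset.sum_nonneg fun l _ => hterm l) ?_ (by linarith)
    exact Finset.sum_le_sum_of_subset_of_nonneg (Finset.filter_subset _ _) fun l _ _ => hterm l
  have hpt : ∀ z, ‖ev S (En θ ℓ) f z‖ ^ p
      ≤ ((Finset.univ : Finset J).card : ℝ) ^ (p - 1) * ∑ j, ‖u j z‖ ^ p := by
    intro z
    rw [ev_fiber S Finset.univ jf (fun _ _ => Finset.mem_univ _)]
    refine (Real.rpow_le_rpow (norm_nonneg _) (norm_sum_le _ _) (by linarith)).trans ?_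
    exact Real.rpow_sum_le_const_mul_sum_rpow_of_nonneg _ (by linarith) fun j _ => norm_nonneg _
  calc ∫ z, ‖ev S (En θ ℓ) f z‖ ^ p ∂(stm μ T)
      ≤ ∫ z, ((Finset.univ : Finset J).card : ℝ) ^ (p - 1) * ∑ j, ‖u j z‖ ^ p ∂(stm μ T) := by
        refine integral_mono (integrable_stm μ T ?_) (integrable_stm μ T ?_) hpt
        · exact (continuous_ev _ _ _).norm.rpow_const fun _ => Or.inr (by linarith)
        · exact continuous_const.mul (continuous_finsetSum _ fun j _ => huc j)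
    _ = ((Finset.univ : Finset J).card : ℝ) ^ (p - 1) * ∑ j, ∫ z, ‖u j z‖ ^ p ∂(stm μ T) := by
        rw [integral_const_mul, integral_finsetSum _ fun j _ => integrable_stm μ T (huc j)]
    _ ≤ ((Finset.univ : Finset J).card : ℝ) ^ (p - 1) * ∑ j, C j * W ^ (p / 2) :=
        mul_le_mul_of_nonneg_left (Finset.sum_le_sum fun j _ => hj j) (by positivity)
    _ = _ := by rw [← Finset.sum_mul, mul_assoc]

end Pool.Agent.P.MP_7211b7_an
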