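import Pool.Agent.P.MP_7211b7_an.DefsT

/-!
# MP_7211b7_an, part T: the projections `cv (d l • φ l)`
-/

open MeasureTheory ComplexConjugate

set_option linter.unusedSectionVars false

namespace Pool.Agent.P.MP_7211b7_an

variable {G : Type} [Group G] [TopologicalSpace G] [IsTopologicalGroup G] [CompactSpace G]
  [T2Space G] [SecondCountableTopology G] [MeasurableSpace G] [BorelSpace G]
  (μ : Measure G) [Hr μ] {r : ℕ}

namespace TProj

theorem integrable2 {f : G → G → ℂ} (hf : Continuous (Function.uncurry f)) :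
    Integrable (Function.uncurry f) (μ.prod μ) :=
  hf.integrable_of_hasCompactSupport (HasCompactSupport.of_compactSpace _)

theorem swap {f : G → G → ℂ} (hf : Continuous (Function.uncurry f)) :
    ∫ x, ∫ y, f x y ∂μ ∂μ = ∫ y, ∫ x, f x y ∂μ ∂μ :=
  integral_integral_swap (integrable2 μ hf)

theorem cv_shift (a F : C(G, ℂ)) (y t : G) :
    cv μ a F (y * t) = ∫ w, F (y * w) * conj (a (t⁻¹ * w)) ∂μ := by
  rw [cv_apply, ← integral_mul_left_eq_self (fun w => F (y * w) * conj (a (t⁻¹ * w))) t]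
  simp [mul_assoc]

theorem cv_cv (a b F : C(G, ℂ)) (y : G) :
    cv μ b (cv μ a F) y = ∫ w, F (y * w) * conj (∫ z, b z * a (z⁻¹ * w) ∂μ) ∂μ := by
  rw [cv_apply]
  simp_rw [cv_shift, ← integral_mul_const]
  rw [swap μ (by
    change Continuous fun p : G × G => F (y * p.2) * conj (a (p.1⁻¹ * p.2)) * conj (b p.1)
    fun_prop)]
  refine integral_congr_ae (Filter.Eventually.of_forall fun w => ?_)
  simp only
  rw [← integral_conj, ← integral_const_mul]
  refine integral_congr_ae (Filter.Eventually.of_forall fun z => ?_)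
  simp only [map_mul]
  ring

theorem cv_adj (a : C(G, ℂ)) (ha : ∀ z, a z⁻¹ = conj (a z)) (F F' : C(G, ℂ)) :
    ip μ (cv μ a F) F' = ip μ F (cv μ a F') := by
  unfold ip
  simp_rw [cv_apply, ← integral_mul_const]
  rw [swap μ (by
    change Continuous fun p : G × G => F (p.1 * p.2) * conj (a p.2) * conj (F' p.1)
    fun_prop)]
  have h1 : ∀ z, ∫ y, F (y * z) * conj (a z) * conj (F' y) ∂μ
      = ∫ y, F y * conj (a z) * conj (F' (y * z⁻¹)) ∂μ := by
    intro z
    rw [← integral_mul_right_eq_self (fun y => F y * conj (a z) * conj (F' (y * z⁻¹))) z]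
    simp
  simp_rw [h1]
  rw [swap μ (f := fun z y => F y * conj (a z) * conj (F' (y * z⁻¹))) (by
    change Continuous fun p : G × G => F p.2 * conj (a p.1) * conj (F' (p.2 * p.1⁻¹))
    fun_prop)]
  refine integral_congr_ae (Filter.Eventually.of_forall fun y => ?_)
  simp only
  rw [← integral_conj, ← integral_const_mul,
    ← integral_inv_eq_self (fun z => F y * conj (a z) * conj (F' (y * z⁻¹))) μ]
  refine integral_congr_ae (Filter.Eventually.of_forall fun z => ?_)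
  simp only [map_mul, inv_inv, ha, Complex.conj_conj]
  ring

theorem n2_tr2 (a k : G) (f : C(G, ℂ)) : n2 μ (tr2 a k f) = n2 μ f := by
  unfold n2
  simp only [tr2_apply]
  rw [integral_mul_left_eq_self (fun g => ‖f (g * k)‖ ^ 2) a,
    integral_mul_right_eq_self (fun g => ‖f g‖ ^ 2) k]

theorem n2_smul (c : ℂ) (f : C(G, ℂ)) : n2 μ (c • f) = ‖c‖ ^ 2 * n2 μ f := by
  rw [n2_eq_norm_sq, n2_eq_norm_sq, map_smul, norm_smul, mul_pow]

theorem norm_ip_sq_le (f h : C(G, ℂ)) : ‖ip μ f h‖ ^ 2 ≤ n2 μ f * n2 μ h := by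
  rw [ip_eq_inner, n2_eq_norm_sq, n2_eq_norm_sq, ← mul_pow, mul_comm]
  exact pow_le_pow_left₀ (norm_nonneg _) (norm_inner_le_norm _ _) 2

theorem ker_eq (H : HW μ r) {l m : Fin r → ℤ} (hl : l ∈ H.Λ) (w : G) :
    ∫ z, ((H.d m : ℂ) • H.φ m) z * ((H.d l : ℂ) • H.φ l) (z⁻¹ * w) ∂μ
      = (H.d m : ℂ) * ((H.d l : ℂ) * ∫ z, H.φ m (w * z * 1) * conj (H.φ l z) ∂μ) := by
  rw [← integral_const_mul, ← integral_const_mul, ← integral_mul_left_eq_self
    (fun z => ((H.d m : ℂ) • H.φ m) z * ((H.d l : ℂ) • H.φ l) (z⁻¹ * w)) w]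
  refine integral_congr_ae (Filter.Eventually.of_forall fun z => ?_)
  have h : (w * z)⁻¹ * w = z⁻¹ := by group
  simp only [h, ContinuousMap.smul_apply, smul_eq_mul, H.φ_inv l hl, mul_one]
  ring

theorem idem (H : HW μ r) {l : Fin r → ℤ} (hl : l ∈ H.Λ) (F : C(G, ℂ)) :
    cv μ ((H.d l : ℂ) • H.φ l) (cv μ ((H.d l : ℂ) • H.φ l) F) = cv μ ((H.d l : ℂ) • H.φ l) F := by
  ext y
  rw [cv_cv, cv_apply]
  refine integral_congr_ae (Filter.Eventually.of_forall fun w => ?_)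
  simp only
  rw [ker_eq μ H hl, H.fe l hl, H.φ_one l hl]
  simp

theorem orth (H : HW μ r) {l m : Fin r → ℤ} (hl : l ∈ H.Λ) (hm : m ∈ H.Λ) (h : l ≠ m)
    (F : C(G, ℂ)) : cv μ ((H.d m : ℂ) • H.φ m) (cv μ ((H.d l : ℂ) • H.φ l) F) = 0 := by
  ext y
  rw [cv_cv]
  simp_rw [ker_eq μ H hl, H.orth l hl m hm h]
  simp

theorem adj (H : HW μ r) {l : Fin r → ℤ} (hl : l ∈ H.Λ) (F F' : C(G, ℂ)) :
    ip μ (cv μ ((H.d l : ℂ) • H.φ l) F) F' = ip μ F (cv μ ((H.d l : ℂ) • H.φ l) F') :=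
  cv_adj μ _ (fun z => by simp [H.φ_inv l hl]) F F'

theorem weight (H : HW μ r) {l : Fin r → ℤ} (hl : l ∈ H.Λ) (F : C(G, ℂ)) (y : G)
    (x : Fin r → ℝ) : cv μ ((H.d l : ℂ) • H.φ l) F (y * H.τ x)
      = cv μ ((H.d l : ℂ) • H.φ l) F y * Complex.exp (Complex.I * (pair x l : ℝ)) := by
  rw [cv_shift, cv_apply, ← integral_mul_const]
  refine integral_congr_ae (Filter.Eventually.of_forall fun w => ?_)
  have h : (H.τ x)⁻¹ * w = (w⁻¹ * H.τ x)⁻¹ := by group
  simp only [h, ContinuousMap.smul_apply, smul_eq_mul, H.φ_inv l hl, H.φ_τ l hl, map_mul,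
    Complex.conj_conj]
  ring

theorem sup (H : HW μ r) (B : BASIC μ H) {l : Fin r → ℤ} (hl : l ∈ H.Λ) (F : C(G, ℂ)) (y : G) :
    ‖cv μ ((H.d l : ℂ) • H.φ l) F y‖ ^ 2 ≤ H.d l * n2 μ (cv μ ((H.d l : ℂ) • H.φ l) F) := by
  have h1 : cv μ ((H.d l : ℂ) • H.φ l) F y
      = ip μ (tr2 y 1 (cv μ ((H.d l : ℂ) • H.φ l) F)) ((H.d l : ℂ) • H.φ l) := by
    conv_lhs => rw [← idem μ H hl F]
    rw [cv_apply]
    unfold ip
    simp only [tr2_apply, mul_one]
  rw [h1]
  refine (norm_ip_sq_le μ _ _).trans (le_of_eq ?_)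
  rw [n2_tr2, n2_smul, Complex.norm_real, Real.norm_eq_abs, sq_abs]
  have := B.d_n2 l hl
  calc _ = n2 μ (cv μ ((H.d l : ℂ) • H.φ l) F) * H.d l * (H.d l * n2 μ (H.φ l)) := by ring
    _ = _ := by rw [this]; ring

theorem ip_zero_right (f : C(G, ℂ)) : ip μ f 0 = 0 := by
  unfold ip; simp

theorem pyth (H : HW μ r) (ι : Type) (S : Finset ι) (w : ι → Fin r → ℤ) (c : ι → ℂ)
    (F : C(G, ℂ)) (hS : ∀ j ∈ S, w j ∈ H.Λ) (hw : Set.InjOn w S) :
    n2 μ (∑ j ∈ S, c j • cv μ ((H.d (w j) : ℂ) • H.φ (w j)) F)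
      = ∑ j ∈ S, ‖c j‖ ^ 2 * n2 μ (cv μ ((H.d (w j) : ℂ) • H.φ (w j)) F) := by
  classical
  set P : ι → C(G, ℂ) := fun j => cv μ ((H.d (w j) : ℂ) • H.φ (w j)) F with hP
  have ho : ∀ i ∈ S, ∀ j ∈ S, i ≠ j → ip μ (P i) (P j) = 0 := by
    intro i hi j hj hij
    have hne : w j ≠ w i := fun h => hij (hw hi hj h.symm)
    simp only [hP]
    rw [adj μ H (hS i hi), orth μ H (hS j hj) (hS i hi) hne, ip_zero_right]
  apply Complex.ofReal_injective
  rw [← ip_self, ip_eq_inner, map_sum, sum_inner]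
  push_cast
  refine Finset.sum_congr rfl fun j hj => ?_
  rw [inner_sum, Finset.sum_eq_single j]
  · rw [← ip_eq_inner, ip_self, n2_smul]
    push_cast
    rfl
  · intro i hi hij
    rw [map_smul, map_smul, inner_smul_left, inner_smul_right, ← ip_eq_inner, ho i hi j hj hij]
    simp
  · intro h
    exact absurd hj h

theorem orthW (H : HW μ r) {l m : Fin r → ℤ} (hl : l ∈ H.Λ) (hm : m ∈ H.Λ) (h : l ≠ m)
    (f : C(G, ℂ)) (hf : f ∈ span2 (H.φ l)) (f' : C(G, ℂ)) (hf' : f' ∈ span2 (H.φ m)) :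
    ip μ f f' = 0 := by
  have key : ∀ a k a' k' : G, ip μ (tr2 a k (H.φ l)) (tr2 a' k' (H.φ m)) = 0 := by
    intro a k a' k'
    rw [← H.orth m hm l hl h.symm (a * a'⁻¹) (k'⁻¹ * k)]
    unfold ip
    simp only [tr2_apply]
    rw [← integral_mul_right_eq_self
      (fun z => H.φ l (a * a'⁻¹ * z * (k'⁻¹ * k)) * conj (H.φ m z)) k',
      ← integral_mul_left_eq_self
      (fun z => H.φ l (a * a'⁻¹ * (z * k') * (k'⁻¹ * k)) * conj (H.φ m (z * k'))) a']
    refine integral_congr_ae (Filter.Eventually.of_forall fun g => ?_)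
    have h1 : a * a'⁻¹ * (a' * g * k') * (k'⁻¹ * k) = a * g * k := by group
    simp only [h1]
  rw [ip_eq_inner]
  induction hf using Submodule.span_induction with
  | mem x hx =>
    obtain ⟨q, rfl⟩ := hx
    induction hf' using Submodule.span_induction with
    | mem x' hx' =>
      obtain ⟨q', rfl⟩ := hx'
      rw [← ip_eq_inner]
      exact key _ _ _ _
    | zero => simp
    | add x y _ _ hx hy => rw [map_add, inner_add_left, hx, hy, add_zero]
    | smul c x _ hx => rw [map_smul, inner_smul_left, hx, mul_zero]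
  | zero => simp
  | add x y _ _ hx hy => rw [map_add, inner_add_right, hx, hy, add_zero]
  | smul c x _ hx => rw [map_smul, inner_smul_right, hx, mul_zero]

end TProj

theorem proj_ok (H : HW μ r) : BASIC μ H → PROJ μ H := fun B =>
  { idem := fun _ hl F => TProj.idem μ H hl F
    orth := fun _ hl _ hm h F => TProj.orth μ H hl hm h F
    adj := fun _ hl F F' => TProj.adj μ H hl F F'
    weight := fun _ hl F y x => TProj.weight μ H hl F y x
    sup := fun _ hl F y => TProj.sup μ H B hl F y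
    pyth := fun ι S w c F hS hw => TProj.pyth μ H ι S w c F hS hw
    orthW := fun _ hl _ hm h f hf f' hf' => TProj.orthW μ H hl hm h f hf f' hf' }

end Pool.Agent.P.MP_7211b7_an
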