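import Pool.Agent.P.MP_7211b7_an.DefsT

/-! The torus estimate on cosets and the Fejer kernel bound. -/

open MeasureTheory ComplexConjugate Real

namespace Pool.Agent.P.MP_7211b7_an

variable {G : Type} [Group G] [TopologicalSpace G] [IsTopologicalGroup G] [CompactSpace G]
  [T2Space G] [SecondCountableTopology G] [MeasurableSpace G] [BorelSpace G] (μ : Measure G)
  [Hr μ] {r : ℕ}

namespace TTor

lemma pair_add (x ℓ : Fin r → ℝ) (t : ℝ) (l : Fin r → ℤ) :
    pair (x + t • ℓ) l = pair x l + t * pair ℓ l := by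
  simp [pair, add_mul, Finset.sum_add_distrib, Finset.mul_sum, mul_assoc]

lemma vol_box (r : ℕ) : 1 ≤ (volume.restrict (box r)).real Set.univ := by
  rw [measureReal_restrict_apply_univ, box, Measure.real, Real.volume_Icc_pi_toReal
    (fun _ => by simp; positivity)]
  exact Finset.one_le_prod fun _ _ => by simp; linarith [pi_gt_three]

/-- the polynomial with Fejer coefficients -/
noncomputable def PP (M : ℕ) (w : ℂ) : ℂ := ∑ a ∈ Finset.Ico (M / 2) (3 * M), (fej M a : ℂ) * w ^ a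

lemma fej_eq (M s : ℕ) : fej M (M / 2 + s) =
    (∑ j ∈ Finset.range M, if j ≤ s ∧ s < j + M then (1 : ℝ) else 0) / M := by
  rw [Finset.sum_boole, show (Finset.range M).filter (fun j => j ≤ s ∧ s < j + M) =
    Finset.Ico (s + 1 - M) (min M (s + 1)) by ext j; simp; omega, Nat.card_Ico, fej]
  congr 1
  push_cast
  rw [show ((M / 2 : ℕ) : ℝ) + s - ((M / 2 : ℕ) + M - 1) = s + 1 - M by ring]
  rcases le_total (s + 1) M with h | h
  · have h' : (s : ℝ) + 1 ≤ M := by exact_mod_cast h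
    rw [show min M (s + 1) - (s + 1 - M) = s + 1 by omega, abs_of_nonpos (by linarith),
      max_eq_right (by linarith [Nat.cast_nonneg (α := ℝ) s])]
    push_cast
    ring
  · have h' : (M : ℝ) ≤ s + 1 := by exact_mod_cast h
    rw [abs_of_nonneg (by linarith)]
    rcases le_total (s + 1) (2 * M) with h2 | h2
    · have h2' : (s : ℝ) + 1 ≤ 2 * M := by exact_mod_cast h2
      rw [show min M (s + 1) - (s + 1 - M) = 2 * M - (s + 1) by omega, max_eq_right (by linarith),
        Nat.cast_sub h2]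
      push_cast
      ring
    · have h2' : 2 * (M : ℝ) ≤ s + 1 := by exact_mod_cast h2
      rw [show min M (s + 1) - (s + 1 - M) = 0 by omega, max_eq_left (by linarith), Nat.cast_zero]

lemma PP_eq (M : ℕ) (w : ℂ) : PP M w = w ^ (M / 2) * (∑ j ∈ Finset.range M, w ^ j) ^ 2 / M := by
  rw [PP, Finset.sum_Ico_eq_sum_range]
  have h : ∑ s ∈ Finset.range (3 * M - M / 2),
      (∑ j ∈ Finset.range M, if j ≤ s ∧ s < j + M then (1 : ℂ) else 0) * w ^ s =
        (∑ j ∈ Finset.range M, w ^ j) ^ 2 := by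
    simp only [Finset.sum_mul]
    rw [Finset.sum_comm, pow_two, Finset.sum_mul]
    refine Finset.sum_congr rfl fun j hj => ?_
    simp only [ite_mul, one_mul, zero_mul]
    rw [← Finset.sum_filter, show (Finset.range (3 * M - M / 2)).filter (fun s => j ≤ s ∧ s < j + M)
      = Finset.Ico j (j + M) by ext s; simp at hj ⊢; omega, Finset.sum_Ico_eq_sum_range,
      Finset.mul_sum]
    simp [pow_add]
  rw [← h, Finset.mul_sum, Finset.sum_div]
  refine Finset.sum_congr rfl fun s _ => ?_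
  rw [fej_eq, pow_add]
  push_cast [apply_ite ((↑) : ℝ → ℂ)]
  ring

lemma parseval {M : ℕ} {ζ : ℂ} (hζ : IsPrimitiveRoot ζ M) (hn : ‖ζ‖ = 1) (w : ℂ) :
    ∑ s ∈ Finset.range M, ‖∑ j ∈ Finset.range M, (w * ζ ^ s) ^ j‖ ^ 2 =
      M * ∑ j ∈ Finset.range M, ‖w‖ ^ (2 * j) := by
  have hc : ζ * conj ζ = 1 := by rw [Complex.mul_conj', hn]; simp
  apply Complex.ofReal_injective
  push_cast
  simp only [← Complex.mul_conj', map_sum, Finset.sum_mul_sum]
  rw [Finset.sum_comm, Finset.mul_sum]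
  refine Finset.sum_congr rfl fun j hj => ?_
  rw [Finset.sum_comm, Finset.sum_eq_single j (fun k hk hkj => ?_) (fun h => absurd hj h)]
  · have : ∀ s, (w * ζ ^ s) ^ j * conj ((w * ζ ^ s) ^ j) = (‖w‖ : ℂ) ^ (2 * j) := fun s => by
      rw [Complex.mul_conj', norm_pow, norm_mul, norm_pow, hn]
      push_cast
      ring
    simp only [this]
    simp
  · have : ∀ s, (w * ζ ^ s) ^ j * conj ((w * ζ ^ s) ^ k) =
        w ^ j * conj w ^ k * (ζ ^ j * conj ζ ^ k) ^ s := fun s => by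
      simp only [map_pow, map_mul]
      ring
    simp only [this, ← Finset.mul_sum]
    have h1 : ζ ^ j * conj ζ ^ k ≠ 1 := fun h => hkj (hζ.pow_inj (Finset.mem_range.1 hk)
      (Finset.mem_range.1 hj) (by
        calc ζ ^ k = ζ ^ k * (ζ ^ j * conj ζ ^ k) := by rw [h, mul_one]
          _ = ζ ^ j * (ζ * conj ζ) ^ k := by ring
          _ = ζ ^ j := by rw [hc, one_pow, mul_one]))
    have h2 : (ζ ^ j * conj ζ ^ k) ^ M = 1 := by
      rw [mul_pow, ← pow_mul, ← pow_mul, mul_comm j, mul_comm k, pow_mul, pow_mul, ← map_pow,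
        hζ.pow_eq_one]
      simp
    rw [geom_sum_eq h1, h2]
    simp

lemma avg {M : ℕ} (hM : 1 ≤ M) {w : ℂ} (hw : ‖w‖ ≤ 1) :
    ∑ s ∈ Finset.range M, ‖PP M (w * Complex.exp (Complex.I * (2 * π * s / M : ℝ)))‖ ≤
      M * ‖w‖ ^ (2 * (M / 4)) := by
  have hM' : (0 : ℝ) < M := by exact_mod_cast hM
  have hζ := Complex.isPrimitiveRoot_exp M (by omega)
  have hn := hζ.norm'_eq_one (by omega)
  have h1 : ∀ s : ℕ, ‖PP M (w * Complex.exp (Complex.I * (2 * π * s / M : ℝ)))‖ = ‖w‖ ^ (M / 2) / M *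
      ‖∑ j ∈ Finset.range M, (w * Complex.exp (2 * π * Complex.I / M) ^ s) ^ j‖ ^ 2 := fun s => by
    rw [show Complex.exp (Complex.I * (2 * π * s / M : ℝ)) = Complex.exp (2 * π * Complex.I / M) ^ s
      by rw [← Complex.exp_nat_mul]; congr 1; push_cast; ring, PP_eq, norm_div, norm_mul, norm_pow,
      norm_pow, norm_mul, norm_pow, hn, Complex.norm_natCast]
    ring
  simp only [h1, ← Finset.mul_sum]
  rw [parseval hζ hn]
  have h2 : ∑ j ∈ Finset.range M, ‖w‖ ^ (2 * j) ≤ M := by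
    simpa using Finset.sum_le_card_nsmul (Finset.range M) (fun j => ‖w‖ ^ (2 * j)) 1
      fun j _ => pow_le_one₀ (norm_nonneg _) hw
  have h3 : ‖w‖ ^ (M / 2) ≤ ‖w‖ ^ (2 * (M / 4)) := pow_le_pow_of_le_one (norm_nonneg _) hw (by omega)
  calc _ = ‖w‖ ^ (M / 2) * ∑ j ∈ Finset.range M, ‖w‖ ^ (2 * j) := by field_simp
    _ ≤ ‖w‖ ^ (2 * (M / 4)) * M := by gcongr
    _ = _ := mul_comm _ _

lemma exists_x {m : ℕ} {ν : Fin m → Fin r → ℤ} (h : Indep ν) (s : Fin m → ℝ) :
    ∃ x : Fin r → ℝ, ∀ j, pair x (ν j) = s j := by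
  obtain ⟨g, hg⟩ := LinearMap.exists_leftInverse_of_injective
    (Fintype.linearCombination ℝ fun i : Fin m => fun k : Fin r => (ν i k : ℝ))
    (LinearMap.ker_eq_bot.2 (LinearIndependent.fintypeLinearCombination_injective h))
  refine ⟨fun k => ∑ i, s i * g (Pi.single k 1) i, fun j => ?_⟩
  have h1 := LinearMap.congr_fun hg (Pi.single j 1)
  rw [LinearMap.comp_apply, Fintype.linearCombination_apply_single, one_smul, LinearMap.id_apply,
    ← Finset.univ_sum_single (fun k : Fin r => (ν j k : ℝ)), map_sum] at h1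
  have h2 : ∀ i, ∑ k, g (Pi.single k 1) i * (ν j k : ℝ) = (Pi.single j (1 : ℝ) : Fin m → ℝ) i :=
    fun i => by
      rw [← h1, Finset.sum_apply]
      refine Finset.sum_congr rfl fun k _ => ?_
      rw [show (Pi.single k (ν j k : ℝ) : Fin r → ℝ) = (ν j k : ℝ) • Pi.single k 1 by
        rw [← Pi.single_smul']; simp, map_smul, Pi.smul_apply, smul_eq_mul, mul_comm]
  simp only [pair, Finset.sum_mul, mul_assoc]
  rw [Finset.sum_comm]
  simp [← Finset.mul_sum, h2, Pi.single_apply]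

variable {μ}

omit [CompactSpace G] [T2Space G] [SecondCountableTopology G] [BorelSpace G] [Hr μ]

lemma φ_nsmul (H : HW μ r) {l : Fin r → ℤ} (hl : l ∈ H.Λ) (n : ℕ) : H.φ (n • l) = H.φ l ^ n := by
  induction n with
  | zero => simp [H.φ_zero]
  | succ n ih => rw [succ_nsmul, H.φ_add _ (H.Λ.nsmul_mem hl n) _ hl, ih, pow_succ]

lemma φ_wv (H : HW μ r) {m : ℕ} {l0 : Fin r → ℤ} {ν : Fin m → Fin r → ℤ} (h0 : l0 ∈ H.Λ)
    (hν : ∀ i, ν i ∈ H.Λ) (a : Fin m → ℕ) (z : G) :
    H.φ (wv l0 ν a) z = H.φ l0 z * ∏ i, H.φ (ν i) z ^ a i := by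
  have h : ∀ s : Finset (Fin m), H.φ (∑ i ∈ s, a i • ν i) = ∏ i ∈ s, H.φ (ν i) ^ a i := fun s => by
    induction s using Finset.induction_on with
    | empty => simp [H.φ_zero]
    | insert i s hi ih =>
      rw [Finset.sum_insert hi, Finset.prod_insert hi, H.φ_add _ (H.Λ.nsmul_mem (hν i) _) _
        (H.Λ.sum_mem fun i _ => H.Λ.nsmul_mem (hν i) _), ih, φ_nsmul H (hν i)]
  rw [wv, H.φ_add _ h0 _ (H.Λ.sum_mem fun i _ => H.Λ.nsmul_mem (hν i) _), h]
  simp

end TTor

open TTor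

theorem ttor (H : HW μ r) : TTOR μ H := by
  classical
  rintro θ ℓ q T e hq ⟨C, hC, hT⟩
  refine ⟨C, hC, fun ι S w N hN hw hb h hh => ?_⟩
  have hτ := H.τ_cont
  have hev := continuous_ev S (fun j => En θ ℓ (w j)) h
  obtain ⟨K, hK⟩ : ∃ K : ℝ × G → ℝ, K = fun z => ‖ev S (fun j => En θ ℓ (w j)) h z‖ ^ q := ⟨_, rfl⟩
  have hKc : Continuous K := hK ▸ hev.norm.rpow_const fun _ => Or.inr hq.le
  have hK0 : ∀ z, 0 ≤ K z := fun z => by rw [hK]; positivity
  have hI : Integrable (fun p : (ℝ × (Fin r → ℝ)) × G => K (p.1.1, p.2 * H.τ (p.1.2 + p.1.1 • ℓ)))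
      ((volume.restrict (dom r T)).prod μ) := by
    rw [show (volume.restrict (dom r T)).prod μ = (volume.prod μ).restrict (dom r T ×ˢ Set.univ) by
      rw [← Measure.prod_restrict, Measure.restrict_univ]]
    exact (Continuous.continuousOn (by fun_prop)).integrableOn_compact
      ((isCompact_dom r T).prod isCompact_univ)
  have h1 : ∫ z in dom r T, ∫ y, K (z.1, y * H.τ (z.2 + z.1 • ℓ)) ∂μ =
      (volume.restrict (box r)).real Set.univ * ∫ z, K z ∂(stm μ T) := by
    have e1 : ∀ z : ℝ × (Fin r → ℝ), ∫ y, K (z.1, y * H.τ (z.2 + z.1 • ℓ)) ∂μ =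
        ∫ y, K (z.1, y) ∂μ := fun z => integral_mul_right_eq_self (fun y => K (z.1, y)) _
    simp only [e1]
    rw [dom, Measure.volume_eq_prod, ← Measure.prod_restrict,
      integral_fun_fst (fun t => ∫ y, K (t, y) ∂μ), smul_eq_mul, stm,
      integral_prod _ (integrable_stm μ T hKc)]
  have h2 : ∀ y, ∫ z in dom r T, K (z.1, y * H.τ (z.2 + z.1 • ℓ)) ≤
      (C * (N : ℝ) ^ e) ^ q * (∑ j ∈ S, ‖h j y‖ ^ 2) ^ (q / 2) := fun y => by
    have ha : ∀ j ∈ S, (∑ k ∈ S, if w k = w j then h k y else 0) = h j y := fun j hj => by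
      rw [Finset.sum_eq_single j (fun k hk hkj => if_neg fun e => hkj (hw hk hj e))
        (fun h => absurd hj h), if_pos rfl]
    have h3 := hT N (S.image w) (fun l => ∑ k ∈ S, if w k = l then h k y else 0) hN
      (fun n hn => by obtain ⟨j, hj, rfl⟩ := Finset.mem_image.1 hn; exact hb j hj)
    rw [Finset.sum_image hw, Finset.sum_congr rfl fun j hj => by rw [ha j hj]] at h3
    refine le_of_eq_of_le (integral_congr_ae (Filter.Eventually.of_forall fun z => ?_)) h3
    simp only [hK]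
    congr 2
    rw [ev, tor, Finset.sum_image hw]
    refine Finset.sum_congr rfl fun j hj => ?_
    rw [ha j hj, hh j hj, mul_left_comm, ← Complex.exp_add, pair_add, En, pair, pair]
    congr 2
    push_cast
    ring
  rw [← hK]
  calc ∫ z, K z ∂(stm μ T) ≤ (volume.restrict (box r)).real Set.univ * ∫ z, K z ∂(stm μ T) :=
        le_mul_of_one_le_left (integral_nonneg hK0) (vol_box r)
    _ = ∫ y, (∫ z in dom r T, K (z.1, y * H.τ (z.2 + z.1 • ℓ))) ∂μ := by
        rw [← h1]; exact integral_integral_swap hI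
    _ ≤ ∫ y, (C * (N : ℝ) ^ e) ^ q * (∑ j ∈ S, ‖h j y‖ ^ 2) ^ (q / 2) ∂μ :=
        integral_mono_of_nonneg (Filter.Eventually.of_forall fun y => integral_nonneg fun z => hK0 _)
          (integrable_of_continuous μ (continuous_const.mul (Continuous.rpow_const (by fun_prop)
            fun _ => Or.inr (half_pos hq).le))) (Filter.Eventually.of_forall h2)
    _ = _ := integral_const_mul _ _

theorem kern (H : HW μ r) : BASIC μ H → KERN μ H := by
  intro hB m l0 ν M h0 hν hI hM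
  have hP : ∀ n, Continuous (PP n) := fun n => by unfold PP; fun_prop
  have h1 : ∀ z, ‖∑ a ∈ Fintype.piFinset (fun i => Finset.Ico (M i / 2) (3 * M i)),
      ((∏ i, fej (M i) (a i) : ℝ) : ℂ) * H.φ (wv l0 ν a) z‖ ≤ ∏ i, ‖PP (M i) (H.φ (ν i) z)‖ :=
    fun z => by
      have : ∑ a ∈ Fintype.piFinset (fun i => Finset.Ico (M i / 2) (3 * M i)),
          ((∏ i, fej (M i) (a i) : ℝ) : ℂ) * H.φ (wv l0 ν a) z =
            H.φ l0 z * ∏ i, PP (M i) (H.φ (ν i) z) := by
        simp only [PP]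
        rw [Finset.prod_univ_sum, Finset.mul_sum]
        refine Finset.sum_congr rfl fun a _ => ?_
        rw [φ_wv H h0 hν, Finset.prod_mul_distrib]
        push_cast
        ring
      rw [this, norm_mul, norm_prod]
      exact mul_le_of_le_one_left (by positivity) (hB.norm_le _ h0 z)
  have h2 : ∀ s : Fin m → ℕ, ∫ z, ∏ i, ‖PP (M i) (H.φ (ν i) z)‖ ∂μ = ∫ z, ∏ i, ‖PP (M i)
      (H.φ (ν i) z * Complex.exp (Complex.I * (2 * π * s i / M i : ℝ)))‖ ∂μ := fun s => by
    obtain ⟨x, hx⟩ := exists_x hI fun i => 2 * π * s i / M i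
    rw [← integral_mul_right_eq_self _ (H.τ x)]
    simp only [H.φ_τ _ (hν _), hx]
  have hm := wv_mem H.Λ.zero_mem hν fun i => M i / 4
  have h3 : (∏ i, (M i : ℝ)) * ∫ z, ∏ i, ‖PP (M i) (H.φ (ν i) z)‖ ∂μ ≤
      (∏ i, (M i : ℝ)) * n2 μ (H.φ (wv 0 ν fun i => M i / 4)) := by
    calc _ = ∑ s ∈ Fintype.piFinset (fun i => Finset.range (M i)), ∫ z, ∏ i, ‖PP (M i)
          (H.φ (ν i) z * Complex.exp (Complex.I * (2 * π * s i / M i : ℝ)))‖ ∂μ := by
          simp only [← h2]
          simp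
      _ = ∫ z, ∏ i, ∑ s ∈ Finset.range (M i), ‖PP (M i)
          (H.φ (ν i) z * Complex.exp (Complex.I * (2 * π * s / M i : ℝ)))‖ ∂μ := by
          rw [← integral_finsetSum _ fun s _ => integrable_of_continuous μ (by fun_prop)]
          simp only [Finset.prod_univ_sum]
      _ ≤ ∫ z, (∏ i, (M i : ℝ)) * ‖H.φ (wv 0 ν fun i => M i / 4) z‖ ^ 2 ∂μ := by
          refine integral_mono (integrable_of_continuous μ (by fun_prop))
            (integrable_of_continuous μ (by fun_prop)) fun z => ?_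
          refine (Finset.prod_le_prod (fun i _ => by positivity)
            fun i _ => avg (hM i) (hB.norm_le _ (hν i) z)).trans (le_of_eq ?_)
          rw [φ_wv H H.Λ.zero_mem hν, H.φ_zero, Finset.prod_mul_distrib]
          simp [← Finset.prod_pow, ← pow_mul, mul_comm]
      _ = _ := integral_const_mul _ _
  have h4 := le_of_mul_le_mul_left h3 (Finset.prod_pos fun i _ => by exact_mod_cast hM i)
  rw [← hB.d_n2 _ hm]
  exact mul_le_mul_of_nonneg_left ((integral_mono_of_nonneg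
    (Filter.Eventually.of_forall fun z => norm_nonneg _) (integrable_of_continuous μ (by fun_prop))
    (Filter.Eventually.of_forall h1)).trans h4) (H.d_pos _ hm).le

end Pool.Agent.P.MP_7211b7_an
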