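import Pool.Agent.P.MP_7211b7_an.GlueAB
import Pool.Agent.P.MP_7211b7_an.Asm
import Pool.Agent.P.MP_7211b7_an.Fams
import Pool.Agent.P.MP_7211b7_an.Halve
import Pool.Agent.P.MP_7211b7_an.LCalc
import Pool.Agent.P.MP_7211b7_an.LCas1
import Pool.Agent.P.MP_7211b7_an.LCas2
import Pool.Agent.P.MP_7211b7_an.LDer1
import Pool.Agent.P.MP_7211b7_an.LDer2
import Pool.Agent.P.MP_7211b7_an.LFeq
import Pool.Agent.P.MP_7211b7_an.LFin1
import Pool.Agent.P.MP_7211b7_an.LFin2
import Pool.Agent.P.MP_7211b7_an.LGs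
import Pool.Agent.P.MP_7211b7_an.LLat
import Pool.Agent.P.MP_7211b7_an.LLie
import Pool.Agent.P.MP_7211b7_an.LMinor
import Pool.Agent.P.MP_7211b7_an.LPF
import Pool.Agent.P.MP_7211b7_an.LRepro
import Pool.Agent.P.MP_7211b7_an.LRoots
import Pool.Agent.P.MP_7211b7_an.LSum
import Pool.Agent.P.MP_7211b7_an.LUniq
import Pool.Agent.P.MP_7211b7_an.LWts
import Pool.Agent.P.MP_7211b7_an.TAvg
import Pool.Agent.P.MP_7211b7_an.TBasic
import Pool.Agent.P.MP_7211b7_an.TBlock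
import Pool.Agent.P.MP_7211b7_an.TFam1
import Pool.Agent.P.MP_7211b7_an.TFam2
import Pool.Agent.P.MP_7211b7_an.TProj
import Pool.Agent.P.MP_7211b7_an.TTor

/-! The Strichartz estimate for compact connected matrix groups. -/

open MeasureTheory
open scoped ENNReal Matrix

set_option linter.unusedSectionVars false

namespace Pool.Agent.P.MP_7211b7_an

variable {G : Type} [Group G] [TopologicalSpace G] [IsTopologicalGroup G] [CompactSpace G]
  [T2Space G] [SecondCountableTopology G] [MeasurableSpace G] [BorelSpace G] {n : ℕ}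
  {ρ : G →* Mat n} {t : Submodule ℝ (Mat n)} {B : LinearMap.BilinForm ℝ (Mat n)} {d r : ℕ}
  {b : Fin d → Mat n}

theorem hr_of_haar (μ : Measure G) [μ.IsHaarMeasure] [IsProbabilityMeasure μ] : Hr μ := by
  have hR : μ.IsMulRightInvariant := ⟨fun g => by
    have : IsProbabilityMeasure (μ.map (· * g)) :=
      Measure.isProbabilityMeasure_map (by fun_prop)
    exact Measure.isHaarMeasure_eq_of_isProbabilityMeasure _ _⟩
  have hI : μ.IsInvInvariant := ⟨by
    have : IsProbabilityMeasure μ.inv := Measure.isProbabilityMeasure_map (by fun_prop)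
    have : μ.inv.IsHaarMeasure := {}
    exact Measure.isHaarMeasure_eq_of_isProbabilityMeasure _ _⟩
  exact {}

variable (μ : Measure G) [Hr μ]

theorem transference (H : HW μ r) : TMAIN μ H := by
  have h0 := basic μ H
  have h1 := proj_ok μ H h0
  have h2 := avg_ok μ H h0 h1
  exact tmain μ H (fam2 μ H (fam1 μ H h0 h2 (ttor μ H) (block μ H h1 h2) (kern μ H h0)
    (doub μ H halve h0)) lsum)

theorem IsONB.finrank_eq (hb : IsONB ρ B b) : Module.finrank ℝ (lieAlg ρ) = d := by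
  have hli : LinearIndependent ℝ b := by
    rw [Fintype.linearIndependent_iff]
    intro g hg i
    have := congrArg (fun X => B X (b i)) hg
    simpa [map_sum, LinearMap.sum_apply, hb.orth] using this
  rw [← hb.span, finrank_span_eq_card hli, Fintype.card_fin]

theorem exists_spec [ConnectedSpace G] {m : ℕ} {e : Fin m → Mat n} (hρ : IsRep ρ)
    (hB : IsMetric ρ B) (hb : IsONB ρ B b) (ht : IsCartan ρ t) (he : IsRect ρ B e) :
    ∃ (N : ℕ) (H : HW μ (Module.finrank ℝ t)) (θ ℓ : Fin (Module.finrank ℝ t) → ℝ),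
      2 * N + Module.finrank ℝ t = d ∧ (∀ i, 0 < θ i) ∧ Growth μ H (2 * N) ∧ Cover H.Λ ∧
      Spec ρ b H θ ℓ ∧ FIN1 ρ μ b H θ ℓ := by
  have hL := lie_ok hρ
  have hA := adinv hL hB
  have hP := pf_ok hρ
  obtain ⟨K⟩ := calc_ok hρ hL hP
  have h1 := der1_ok μ hρ hL hP K
  have h2 := der2_ok hL hP K
  obtain ⟨D⟩ := wts n t (fun X hX => hL.skew X (ht.le hX)) ht.comm
  obtain ⟨R⟩ := roots_ok hL ht D
  have hU := uniq_ok μ K R pbw hL ht h1 h2
  have hF := feq_ok μ K R hL hP ht h1 hU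
  have hRe := repro_ok μ K R hL hP ht h1 h2 hF
  have hC := compl_ok μ K R hL hP ht h1 h2 hRe
  have hc1 := cas1_ok μ K hL hP hB hA hb h1 h2
  obtain ⟨L⟩ := lat_ok K R sl2 gs hρ hL hP hB hA ht he h2
  have hc2 := cas2_ok μ L hL hB hA hb ht h1 hU hc1
  have hG := grow_ok K R hL ht hU hc1
  have hco := cone_ok μ K R D hL ht h1 (minor_ok μ K R D hρ hL hP ht h1)
  obtain ⟨H, θ, ℓ, hθ, hg, hcov, hS⟩ :=
    asm μ L hL hP ht hB h2 hF hRe hC hc1 hc2 hG hco fams (basic μ)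
  exact ⟨R.N, H, θ, ℓ, R.card.trans hb.finrank_eq, hθ, hg, hcov, hS,
    fin1_ok μ H θ ℓ (eigo_ok μ hL hb.mem) hS⟩

theorem matrix_strichartz [ConnectedSpace G] {m : ℕ} {e : Fin m → Mat n} (hρ : IsRep ρ)
    (hB : IsMetric ρ B) (hb : IsONB ρ B b) (ht : IsCartan ρ t) (he : IsRect ρ B e)
    (a₀ a₁ p : ℝ) (hp : 4 < (Module.finrank ℝ t : ℝ) * (p - 2)) : Strichartz μ ρ b a₀ a₁ p := by
  obtain ⟨N, H, θ, ℓ, hd, hθ, hg, hcov, hS, hfin⟩ := exists_spec μ hρ hB hb ht he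
  generalize Module.finrank ℝ t = r at *
  have hr0 : (0 : ℝ) ≤ r := Nat.cast_nonneg _
  have hp2 : 2 < p := by
    by_contra h
    nlinarith [mul_nonneg hr0 (sub_nonneg.2 (not_lt.1 h))]
  have hd' : ((r : ℝ) + ((2 * N : ℕ) : ℝ)) = d := by rw [← hd]; push_cast; ring
  have hT : 0 < |a₀| + |a₁| + 1 := by positivity
  have hE := transference μ H θ ℓ (2 * N) p (|a₀| + |a₁| + 1) (torus_strichartz r θ hθ) hg hcov
    hp hT
  rw [hd'] at hE
  refine fin2_ok μ H θ ℓ a₀ a₁ p _ (proj_ok μ H (basic μ H)) hS hfin (by linarith) ?_ ?_ hE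
  · have hrd : (r : ℝ) ≤ d := by rw [← hd']; exact le_add_of_nonneg_right (Nat.cast_nonneg _)
    rw [sub_nonneg, div_le_div_iff₀ (by linarith) (by norm_num)]
    nlinarith [mul_le_mul_of_nonneg_right hrd (sub_nonneg.2 hp2.le)]
  · refine Set.Icc_subset_Icc ?_ ?_
    · linarith [neg_abs_le a₀, abs_nonneg a₁]
    · linarith [le_abs_self a₁, abs_nonneg a₀]

theorem matrix_complete [ConnectedSpace G] {m : ℕ} {e : Fin m → Mat n} (hρ : IsRep ρ)
    (hB : IsMetric ρ B) (hb : IsONB ρ B b) (ht : IsCartan ρ t) (he : IsRect ρ B e)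
    (f : Lp ℂ 2 μ) : HasSum (fun E : ℝ => proj μ ρ b E f) f := by
  obtain ⟨N, H, θ, ℓ, -, -, -, -, -, hfin⟩ := exists_spec μ hρ hB hb ht he
  exact hfin.sum f

end Pool.Agent.P.MP_7211b7_an
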