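import Pool.Agent.P.MP_7211b7_an.NRLat

/-!
# MP_7211b7_an, general flat tori: the Strichartz estimate for compact connected matrix groups
-/

open MeasureTheory ComplexConjugate Complex
open scoped ENNReal Matrix

set_option linter.unusedSectionVars false

namespace Pool.Agent.P.MP_7211b7_an.NR

variable {G : Type} [Group G] [TopologicalSpace G] [IsTopologicalGroup G] [CompactSpace G]
  [T2Space G] [SecondCountableTopology G] [MeasurableSpace G] [BorelSpace G] {n : ℕ}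
  {ρ : G →* Mat n} {t : Submodule ℝ (Mat n)} {B : LinearMap.BilinForm ℝ (Mat n)} {d r : ℕ}
  {b : Fin d → Mat n} (μ : Measure G) [Hr μ]

/-- the Casimir eigenvalue is a positive definite form plus a linear form -/
def CAS2 {K : Calc ρ} {R : Roots ρ t} {r : ℕ} (L : Lat K R 0 r) {d : ℕ} (b : Fin d → Mat n) :
    Prop :=
  ∃ (A : Mx r) (ℓ : Fin r → ℝ), PD A ∧ ∀ l φ, IsPhi K R (L.wf l) φ →
    K.Om b φ = -((En (qf A) ℓ l : ℝ) : ℂ) • φ

/-- the Gram matrix of a family of linear forms -/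
def gram {d r : ℕ} (u : Fin d → Fin r → ℝ) : Mx r := fun i j => ∑ a, u a i * u a j

theorem gram_dot {d r : ℕ} (u : Fin d → Fin r → ℝ) (x y : Fin r → ℝ) :
    x ⬝ᵥ gram u *ᵥ y = ∑ a, (u a ⬝ᵥ x) * (u a ⬝ᵥ y) := by
  simp only [gram, dotProduct, Matrix.mulVec, Finset.sum_mul, Finset.mul_sum]
  calc ∑ i, ∑ j, ∑ a, x i * (u a i * u a j * y j)
      = ∑ i, ∑ a, ∑ j, x i * (u a i * u a j * y j) :=
        Finset.sum_congr rfl fun i _ => Finset.sum_comm
    _ = ∑ a, ∑ i, ∑ j, x i * (u a i * u a j * y j) := Finset.sum_comm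
    _ = _ := by
        refine Finset.sum_congr rfl fun a _ => ?_
        rw [Finset.sum_comm]
        exact Finset.sum_congr rfl fun j _ => Finset.sum_congr rfl fun i _ => by ring

theorem gram_pd {d r : ℕ} (u : Fin d → Fin r → ℝ)
    (h : ∀ i, ∃ y : Fin d → ℝ, ∑ a, y a • u a = Pi.single i 1) : PD (gram u) := by
  refine ⟨fun x y => ?_, fun x hx => ?_⟩
  · rw [gram_dot, gram_dot]
    exact Finset.sum_congr rfl fun a _ => mul_comm _ _
  · rw [gram_dot]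
    refine lt_of_le_of_ne (Finset.sum_nonneg fun a _ => mul_self_nonneg _) fun h0 => hx ?_
    have h1 := (Finset.sum_eq_zero_iff_of_nonneg fun a _ => mul_self_nonneg (u a ⬝ᵥ x)).1 h0.symm
    funext i
    obtain ⟨y, hy⟩ := h i
    have h2 := congrArg (fun v => v ⬝ᵥ x) hy
    simp only [sum_dotProduct, smul_dotProduct, single_dotProduct, one_mul] at h2
    rw [← h2]
    exact Finset.sum_eq_zero fun a _ => by
      rw [mul_self_eq_zero.1 (h1 a (Finset.mem_univ a)), smul_zero]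

open LCas2 in
theorem cas2_ok {K : Calc ρ} {R : Roots ρ t} (L : Lat K R 0 r) :
    LIE ρ → IsMetric ρ B → AdInv ρ B → IsONB ρ B b → IsCartan ρ t → DER1 K μ → UNIQ K R →
      CAS1 K B b → CAS2 L b := by
  intro hL hB hA hb ht hD hU hC
  choose U hU1 P hP M hM hdec horth using fun a => decomp_real hL hB hA ht R (hb.mem a)
  choose U' hU' V' hV' P' hP' M' hM' hdec' using fun a =>
    decomp R (hL.gC_lie _ (P_mem R (hP a)) _ (M_mem hL R (hM a)))
  refine ⟨gram fun a => L.co (U a), L.co (∑ a, V' a), gram_pd _ fun i => ?_, fun l φ hφ => ?_⟩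
  · have hc := ht.le (L.c_mem i)
    rw [← hb.span] at hc
    obtain ⟨y, hy⟩ := (Submodule.mem_span_range_iff_exists_fun ℝ).1 hc
    have hm : ∑ a, y a • U a ∈ t := t.sum_mem fun a _ => t.smul_mem _ (hU1 a)
    have hW : L.c i - ∑ a, y a • U a ∈ t := t.sub_mem (L.c_mem i) hm
    have h0 : L.c i - ∑ a, y a • U a = 0 := by
      by_contra hne
      refine (hB.pos _ (ht.le hW) hne).ne' ?_
      have h7 : ∀ W ∈ t, B (L.c i - ∑ a, y a • U a) W = 0 := fun W hW' => by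
        rw [map_sub, LinearMap.sub_apply, ← hy, B_sum, B_sum, sub_eq_zero]
        exact Finset.sum_congr rfl fun a _ => by rw [horth a W hW']
      exact h7 _ hW
    refine ⟨y, ?_⟩
    rw [← L.co_c i, sub_eq_zero.1 h0, map_sum]
    simp only [map_smul]
  have h1 := scalar hL hb ht hU hC hφ
  have h2 := (hC.real φ hφ.mem hφ.ne_zero _ h1).1
  have h3 : K.Om b φ 1 = ∑ a, (-((L.wf l (U a) : ℝ) : ℂ) ^ 2
      + (I * (L.wf l (U' a) : ℝ) - (L.wf l (V' a) : ℝ))) := by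
    unfold Calc.Om
    rw [LinearMap.sum_apply, ContinuousMap.sum_apply]
    refine Finset.sum_congr rfl fun a _ => ?_
    rw [Module.End.mul_apply, hdec a, second μ hL ht hD hφ (hU1 a) (hP a) (hM a), hdec' a,
      first μ hL hD hφ (hU' a) (hV' a) (hP' a) (hM' a)]
  have h4 : ∑ a, L.wf l (U a) ^ 2 = qf (gram fun a => L.co (U a)) l := by
    rw [qf, gram_dot]
    refine Finset.sum_congr rfl fun a _ => ?_
    rw [L.wf_apply, pow_two]
    rfl
  have h5 : (K.Om b φ 1).re = -En (qf (gram fun a => L.co (U a))) (L.co (∑ a, V' a)) l := by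
    unfold En
    rw [← h4, ← L.wf_apply, map_sum, ← Finset.sum_add_distrib, ← Finset.sum_neg_distrib, h3,
      re_sum]
    refine Finset.sum_congr rfl fun a _ => ?_
    simp [← ofReal_pow]
    ring
  have h6 : K.Om b φ 1
      = -((En (qf (gram fun a => L.co (U a))) (L.co (∑ a, V' a)) l : ℝ) : ℂ) := by
    apply Complex.ext
    · rw [h5, neg_re, ofReal_re]
    · rw [h2, neg_im, ofReal_im, neg_zero]
  rw [← h6]
  exact h1

theorem En_le {A : Mx r} (hA : PD A) (ℓ : Fin r → ℝ) :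
    ∃ C : ℝ, 0 < C ∧ ∀ l : Fin r → ℤ, 1 + En (qf A) ℓ l ≤ C * (1 + ‖l‖) ^ 2 := by
  obtain ⟨c, K, -, hK, -, hb⟩ := hA.bounds
  refine ⟨1 + r * K + ∑ i, |ℓ i|, by positivity, fun l => ?_⟩
  have hl : ∀ i, |(l i : ℝ)| ≤ ‖l‖ := fun i => by
    simpa [Int.norm_eq_abs] using norm_le_pi_norm l i
  have h0 := norm_nonneg l
  have hn : ‖rv l‖ = ‖l‖ := TFam2.norm_cast_pi l
  have h1 : qf A l ≤ (r * K) * (1 + ‖l‖) ^ 2 := by
    refine (le_abs_self _).trans ((abs_dot_le _ _).trans ?_)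
    have h3 := hb (rv l)
    rw [hn] at h3 ⊢
    rw [mul_assoc]
    refine mul_le_mul_of_nonneg_left ?_ (Nat.cast_nonneg _)
    refine (mul_le_mul_of_nonneg_left h3 h0).trans ?_
    nlinarith
  have h2 : pair ℓ l ≤ (∑ i, |ℓ i|) * (1 + ‖l‖) ^ 2 := by
    unfold pair
    rw [Finset.sum_mul]
    refine Finset.sum_le_sum fun i _ => ?_
    refine (le_abs_self _).trans ?_
    rw [abs_mul]
    exact mul_le_mul_of_nonneg_left ((hl i).trans (by nlinarith)) (abs_nonneg _)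
  unfold En
  nlinarith

open Asm in
theorem asm {K : Calc ρ} {R : Roots ρ t} (L : Lat K R 0 r) (hL : LIE ρ) (hP : PF ρ)
    (ht : IsCartan ρ t) (hB : IsMetric ρ B) (h2 : DER2 K) (hF : FEQ K R μ) (hR : REPRO K R)
    (hC : COMPL K R) (h1 : CAS1 K B b) (hc2 : CAS2 L b) (hG : GROW K R b) (hcone : CONE K R)
    (hfam : FAMS) (hbasic : ∀ H : HW μ r, BASIC μ H) :
    ∃ (H : HW μ r) (A : Mx r) (ℓ : Fin r → ℝ), PD A ∧ Growth μ H (2 * R.N) ∧ Cover H.Λ ∧
      Spec ρ b H (qf A) ℓ := by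
  obtain ⟨A, ℓ, hA, hℓ⟩ := hc2
  set θ : Qf r := qf A with hθ
  have hBc : ∀ i, 0 < B (L.c i) (L.c i) := fun i => hB.pos _ (ht.le (L.c_mem i)) (L.c_ne i)
  let H := hw μ L hL hP ht h2 hF hR
  have hφ : ∀ l ∈ H.Λ, IsPhi K R (L.wf l) (H.φ l) := fun l hl => ph_spec L hl
  have hnn : ∀ l ∈ H.Λ, 0 ≤ En θ ℓ l := fun l hl => by
    have := (h1.real _ (hφ l hl).mem (hφ l hl).ne_zero _ (hℓ l _ (hφ l hl))).2
    simpa using this
  refine ⟨H, A, ℓ, hA, ?_, ?_, ?_, ?_, hnn, ?_⟩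
  · obtain ⟨C, hC0, hC⟩ := hG
    obtain ⟨C', hC', hE⟩ := En_le hA ℓ
    refine ⟨C * C' ^ R.N, by positivity, fun l hl => ?_⟩
    rw [(hbasic H).rankR l hl]
    refine (hC _ _ _ (hφ l hl).toIsHW (hφ l hl).ne_zero (hℓ l _ (hφ l hl))).trans ?_
    rw [mul_assoc, pow_mul, ← mul_pow]
    exact mul_le_mul_of_nonneg_left
      (pow_le_pow_left₀ (by linarith [hnn l hl]) (hE l) _) hC0.le
  · obtain ⟨J, _, ω, hω, hcone⟩ := hcone
    choose ψ hψ using hω
    choose w hw using fun j => exists_wf L (hψ j)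
    refine hfam r H.Λ J w (fun j => ⟨ψ j, (hψ j).congr (hw j)⟩) fun l hl => ?_
    obtain ⟨s, hs, hs'⟩ := hcone _ _ (hφ l hl)
    refine ⟨s, hs, fun i => ?_⟩
    rw [← L.wf_c l i, hs' _ (L.c_mem i)]
    refine Finset.sum_congr rfl fun j _ => ?_
    rw [hw j _ (L.c_mem i), L.wf_c]
  · exact fun l hl => h1.eig _ (hφ l hl).mem _ (hℓ l _ (hφ l hl))
  · refine hP.dense.mono fun f hf => ?_
    refine Submodule.span_mono ?_ (hC f hf)
    rintro _ ⟨lam, φ, a, k, hφ', rfl⟩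
    obtain ⟨l, hl⟩ := exists_wf L hφ'
    have hl' : l ∈ H.Λ := ⟨φ, hφ'.congr hl⟩
    refine ⟨l, hl', ?_⟩
    rw [hF.uniq _ _ _ (hφ l hl') (hφ'.congr hl)]
    exact Submodule.subset_span ⟨(a, k), rfl⟩
  · set β := ∑ i, B (L.c i) (L.c i) with hβ
    have hβ0 : 0 ≤ β := Finset.sum_nonneg fun i _ => (hBc i).le
    refine ⟨2 * (1 + β), by positivity, fun l hl => ?_⟩
    have hE := hnn l hl
    have hi : ∀ i, ((l i : ℝ)) ^ 2 ≤ β * En θ ℓ l := fun i => by
      have h3 := (hφ l hl).wtR _ (L.c_mem i)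
      rw [L.wf_c] at h3
      refine (h1.wb _ (hφ l hl).mem (hφ l hl).ne_zero _ _ (hℓ l _ (hφ l hl)) _
        (ht.le (L.c_mem i)) h3).trans (mul_le_mul_of_nonneg_right ?_ hE)
      exact Finset.single_le_sum (f := fun i => B (L.c i) (L.c i)) (fun i _ => (hBc i).le)
        (Finset.mem_univ i)
    have hn : ‖l‖ ≤ Real.sqrt (β * En θ ℓ l) := by
      refine (pi_norm_le_iff_of_nonneg (Real.sqrt_nonneg _)).2 fun i => ?_
      rw [Int.norm_eq_abs]
      exact Real.abs_le_sqrt (hi i)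
    have hn2 : ‖l‖ ^ 2 ≤ β * En θ ℓ l := by
      have := pow_le_pow_left₀ (norm_nonneg l) hn 2
      rwa [Real.sq_sqrt (by positivity)] at this
    nlinarith [sq_nonneg (1 - ‖l‖), mul_nonneg hβ0 hE]

theorem exists_spec [ConnectedSpace G] (hρ : IsRep ρ)
    (hB : IsMetric ρ B) (hb : IsONB ρ B b) (ht : IsCartan ρ t) :
    ∃ (N : ℕ) (H : HW μ (Module.finrank ℝ t)) (A : Mx (Module.finrank ℝ t))
      (ℓ : Fin (Module.finrank ℝ t) → ℝ),
      2 * N + Module.finrank ℝ t = d ∧ PD A ∧ Growth μ H (2 * N) ∧ Cover H.Λ ∧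
      Spec ρ b H (qf A) ℓ ∧ FIN1 ρ μ b H (qf A) ℓ := by
  have hL := lie_ok hρ
  have hA := adinv hL hB
  have hP := pf_ok hρ
  obtain ⟨K⟩ := calc_ok hρ hL hP
  have h1 := der1_ok μ hρ hL hP K
  have h2 := der2_ok hL hP K
  obtain ⟨D⟩ := wts n t (fun X hX => hL.skew X (ht.le hX)) ht.comm
  obtain ⟨R⟩ := roots_ok hL ht D
  have hU := uniq_ok μ K R pbw hL ht h1 h2
  have hF := feq_ok μ K R hL hP ht h1 hU
  have hRe := repro_ok μ K R hL hP ht h1 h2 hF
  have hC := compl_ok μ K R hL hP ht h1 h2 hRe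
  have hc1 := cas1_ok μ K hL hP hB hA hb h1 h2
  obtain ⟨L⟩ := lat_ok K R hρ hL ht D h2
  have hc2 := cas2_ok μ L hL hB hA hb ht h1 hU hc1
  have hG := grow_ok K R hL ht hU hc1
  have hco := cone_ok μ K R D hL ht h1 (minor_ok μ K R D hρ hL hP ht h1)
  obtain ⟨H, θ, ℓ, hθ, hg, hcov, hS⟩ :=
    asm μ L hL hP ht hB h2 hF hRe hC hc1 hc2 hG hco fams (basic μ)
  exact ⟨R.N, H, θ, ℓ, R.card.trans hb.finrank_eq, hθ, hg, hcov, hS,
    fin1_ok μ H (qf θ) ℓ (eigo_ok μ hL hb.mem) hS⟩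

theorem matrix_strichartz [ConnectedSpace G] (hρ : IsRep ρ)
    (hB : IsMetric ρ B) (hb : IsONB ρ B b) (ht : IsCartan ρ t)
    (a₀ a₁ p : ℝ) (hp : 4 < (Module.finrank ℝ t : ℝ) * (p - 2)) : Strichartz μ ρ b a₀ a₁ p := by
  obtain ⟨N, H, θ, ℓ, hd, hθ, hg, hcov, hS, hfin⟩ := exists_spec μ hρ hB hb ht
  generalize Module.finrank ℝ t = r at *
  have hr0 : (0 : ℝ) ≤ r := Nat.cast_nonneg _
  have hp2 : 2 < p := by
    by_contra h
    nlinarith [mul_nonneg hr0 (sub_nonneg.2 (not_lt.1 h))]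
  have hd' : ((r : ℝ) + ((2 * N : ℕ) : ℝ)) = d := by rw [← hd]; push_cast; ring
  have hT : 0 < |a₀| + |a₁| + 1 := by positivity
  have hE := transference μ H (qf θ) ℓ (2 * N) p (|a₀| + |a₁| + 1) (torus_strichartz hθ) hg hcov
    hp hT
  rw [hd'] at hE
  refine fin2_ok μ H (qf θ) ℓ a₀ a₁ p _ (proj_ok μ H (basic μ H)) hS hfin (by linarith) ?_ ?_ hE
  · have hrd : (r : ℝ) ≤ d := by rw [← hd']; exact le_add_of_nonneg_right (Nat.cast_nonneg _)
    rw [sub_nonneg, div_le_div_iff₀ (by linarith) (by norm_num)]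
    nlinarith [mul_le_mul_of_nonneg_right hrd (sub_nonneg.2 hp2.le)]
  · refine Set.Icc_subset_Icc ?_ ?_
    · linarith [neg_abs_le a₀, abs_nonneg a₁]
    · linarith [le_abs_self a₁, abs_nonneg a₀]

theorem matrix_complete [ConnectedSpace G] (hρ : IsRep ρ)
    (hB : IsMetric ρ B) (hb : IsONB ρ B b) (ht : IsCartan ρ t)
    (f : Lp ℂ 2 μ) : HasSum (fun E : ℝ => proj μ ρ b E f) f := by
  obtain ⟨N, H, θ, ℓ, -, -, -, -, -, hfin⟩ := exists_spec μ hρ hB hb ht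
  exact hfin.sum f

end Pool.Agent.P.MP_7211b7_an.NR
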