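import Pool.Agent.P.MP_7211b7_an.NRStruct2

/-! General flat tori: the bilinear form over the major arcs. -/

open MeasureTheory

namespace Pool.Agent.P.MP_7211b7_an.NR

/-- a Farey family with tolerance `η` -/
def Arc (b : ℕ) (η : ℝ) : Set ℝ :=
  {τ | ∃ q : ℕ, 1 ≤ q ∧ q ≤ b ∧ ∃ a : ℤ, |q * τ / Real.pi - a| ≤ η}

theorem measurableSet_Arc (b : ℕ) (η : ℝ) : MeasurableSet (Arc b η) := by
  have : Arc b η = ⋃ q : ℕ, ⋃ a : ℤ, {τ : ℝ | (1 ≤ q ∧ q ≤ b) ∧ |q * τ / Real.pi - a| ≤ η} := by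
    ext τ; simp only [Arc, Set.mem_ofPred_eq, Set.mem_iUnion]
    constructor
    · rintro ⟨q, h1, h2, a, h3⟩; exact ⟨q, a, ⟨h1, h2⟩, h3⟩
    · rintro ⟨q, a, ⟨h1, h2⟩, h3⟩; exact ⟨q, h1, h2, a, h3⟩
  rw [this]
  refine MeasurableSet.iUnion fun q => MeasurableSet.iUnion fun a => ?_
  have hm : Measurable (fun τ : ℝ => |q * τ / Real.pi - a|) := by fun_prop
  exact (MeasurableSet.const _).inter (measurableSet_le hm measurable_const)

namespace CombN

open Comb (KK KK_lower KK_nonneg Cc Ss EE EE_nonneg int_h inner_int inner_eq outer_int outer_eq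
  count_le split_le EE_le bessel)

theorem ind_le (η : ℝ) (b L : ℕ) (hL0 : 0 < L) (hL : L * η ≤ 1 / 6) (τ : ℝ) :
    (Arc b η).indicator (fun _ => (1 : ℝ)) τ ≤
      4 / (L : ℝ) ^ 2 * ∑ q ∈ Finset.Icc 1 b, KK L (2 * q * τ) := by
  have hL1 : (0 : ℝ) < L := by exact_mod_cast hL0
  by_cases h : τ ∈ Arc b η
  · rw [Set.indicator_of_mem h]
    obtain ⟨q, hq1, hq2, a, ha⟩ := h
    have h1 := KK_lower L _ _ a ha hL
    have e : 2 * Real.pi * (q * τ / Real.pi) = 2 * q * τ := by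
      field_simp
    rw [e] at h1
    have h2 : KK L (2 * q * τ) ≤ ∑ q ∈ Finset.Icc 1 b, KK L (2 * q * τ) :=
      Finset.single_le_sum (f := fun q : ℕ => KK L (2 * q * τ)) (fun _ _ => KK_nonneg _ _)
        (Finset.mem_Icc.2 ⟨hq1, hq2⟩)
    calc (1 : ℝ) = 4 / (L : ℝ) ^ 2 * ((L : ℝ) ^ 2 / 4) := by field_simp
      _ ≤ _ := mul_le_mul_of_nonneg_left (h1.trans h2) (by positivity)
  · rw [Set.indicator_of_notMem h]
    exact mul_nonneg (by positivity) (Finset.sum_nonneg fun _ _ => KK_nonneg _ _)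

theorem double_le {θ T : ℝ} {h : ℝ → ℝ} (hi : Integrable h (volume.restrict (Set.Icc (-T) T)))
    (h0 : ∀ s, 0 ≤ h s) (η : ℝ) (b L : ℕ) (hL0 : 0 < L) (hL : L * η ≤ 1 / 6) :
    ∫ t in Set.Icc (-T) T, ∫ s in Set.Icc (-T) T,
        (Arc b η).indicator (fun _ => (1 : ℝ)) (θ * (t - s)) * (h t * h s) ≤
      4 / (L : ℝ) ^ 2 * ∑ q ∈ Finset.Icc 1 b, ∑ j ∈ Finset.range L, ∑ k ∈ Finset.range L,
        EE θ T h (q * ((j : ℤ) - k)) := by
  set w : ℕ → ℕ → ℕ → ℝ := fun q j k => 2 * θ * ((q * ((j : ℤ) - k) : ℤ) : ℝ) with hw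
  have hind : ∀ x, 0 ≤ (Arc b η).indicator (fun _ => (1 : ℝ)) x := fun x =>
    Set.indicator_nonneg (fun _ _ => zero_le_one) x
  have hin : ∀ t, ∫ s in Set.Icc (-T) T,
      (Arc b η).indicator (fun _ => (1 : ℝ)) (θ * (t - s)) * (h t * h s) ≤
      4 / (L : ℝ) ^ 2 * ∑ q ∈ Finset.Icc 1 b, ∑ j ∈ Finset.range L, ∑ k ∈ Finset.range L,
        ((h t * Real.cos (w q j k * t)) * Cc T h (w q j k) +
          (h t * Real.sin (w q j k * t)) * Ss T h (w q j k)) := by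
    intro t
    have hint : Integrable (fun s => 4 / (L : ℝ) ^ 2 * ∑ q ∈ Finset.Icc 1 b,
        ∑ j ∈ Finset.range L, ∑ k ∈ Finset.range L,
          Real.cos (w q j k * (t - s)) * (h t * h s)) (volume.restrict (Set.Icc (-T) T)) :=
      (integrable_finsetSum _ fun q _ => integrable_finsetSum _ fun j _ =>
        integrable_finsetSum _ fun k _ => inner_int hi _ t).const_mul _
    refine (integral_mono_of_nonneg (Filter.Eventually.of_forall fun s =>
      mul_nonneg (hind _) (mul_nonneg (h0 t) (h0 s))) hint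
      (Filter.Eventually.of_forall fun s => ?_)).trans (le_of_eq ?_)
    · refine (mul_le_mul_of_nonneg_right (ind_le η b L hL0 hL _)
        (mul_nonneg (h0 t) (h0 s))).trans (le_of_eq ?_)
      rw [mul_assoc, Finset.sum_mul]
      congr 1
      refine Finset.sum_congr rfl fun q _ => ?_
      unfold KK
      rw [Finset.sum_mul]
      refine Finset.sum_congr rfl fun j _ => ?_
      rw [Finset.sum_mul]
      refine Finset.sum_congr rfl fun k _ => ?_
      congr 2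
      simp only [hw]
      push_cast; ring
    · rw [integral_const_mul, integral_finsetSum _ fun q _ => integrable_finsetSum _ fun j _ =>
        integrable_finsetSum _ fun k _ => inner_int hi _ t]
      congr 1
      refine Finset.sum_congr rfl fun q _ => ?_
      rw [integral_finsetSum _ fun j _ => integrable_finsetSum _ fun k _ => inner_int hi _ t]
      refine Finset.sum_congr rfl fun j _ => ?_
      rw [integral_finsetSum _ fun k _ => inner_int hi _ t]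
      exact Finset.sum_congr rfl fun k _ => inner_eq hi _ t
  refine (integral_mono_of_nonneg (Filter.Eventually.of_forall fun t => integral_nonneg fun s =>
      mul_nonneg (hind _) (mul_nonneg (h0 t) (h0 s)))
      ((integrable_finsetSum _ fun q _ => integrable_finsetSum _ fun j _ =>
        integrable_finsetSum _ fun k _ => outer_int hi (w q j k)).const_mul _)
      (Filter.Eventually.of_forall hin)).trans (le_of_eq ?_)
  rw [integral_const_mul, integral_finsetSum _ fun q _ => integrable_finsetSum _ fun j _ =>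
    integrable_finsetSum _ fun k _ => outer_int hi _]
  congr 1
  refine Finset.sum_congr rfl fun q _ => ?_
  rw [integral_finsetSum _ fun j _ => integrable_finsetSum _ fun k _ => outer_int hi _]
  refine Finset.sum_congr rfl fun j _ => ?_
  rw [integral_finsetSum _ fun k _ => outer_int hi _]
  exact Finset.sum_congr rfl fun k _ => outer_eq hi _

theorem bessel' {θ T B : ℝ} {h : ℝ → ℝ} (hθ : 0 < θ) (hT : 0 < T)
    (hm : Measurable h) (h0 : ∀ s, 0 ≤ h s) (hB : ∀ s, h s ≤ B) (S : Finset ℤ) :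
    ∑ ω ∈ S, EE θ T h ω ≤ (2 * T + Real.pi / θ) * ∫ s in Set.Icc (-T) T, h s ^ 2 := by
  have pp := Real.pi_pos
  set n : ℕ := ⌈2 * θ * T / Real.pi⌉₊ with hn
  have x0 : 0 < 2 * θ * T / Real.pi := by positivity
  have n1 : 2 * θ * T / Real.pi ≤ n := Nat.le_ceil _
  have n2 : (n : ℝ) < 2 * θ * T / Real.pi + 1 := Nat.ceil_lt_add_one x0.le
  have n0 : (0 : ℝ) < n := x0.trans_le n1
  have hz : (n : ℤ) ≠ 0 := by exact_mod_cast n0.ne'
  have h1 := bessel (θ := θ / n) (by positivity) hT (by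
    rw [div_le_iff₀ pp] at n1
    rw [div_mul_eq_mul_div, div_le_div_iff₀ n0 two_pos]
    linarith) hm h0 hB (S.image fun ω => n * ω)
  rw [Finset.sum_image fun _ _ _ _ e => mul_left_cancel₀ hz e] at h1
  have h2 : ∀ ω : ℤ, EE (θ / n) T h (n * ω) = EE θ T h ω := fun ω => by
    have : 2 * (θ / n) * ((n * ω : ℤ) : ℝ) = 2 * θ * ω := by push_cast; field_simp
    simp only [EE, this]
  simp only [h2] at h1
  refine h1.trans (mul_le_mul_of_nonneg_right ?_ (integral_nonneg fun s => sq_nonneg _))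
  calc Real.pi / (θ / n) = n * (Real.pi / θ) := by field_simp
    _ ≤ (2 * θ * T / Real.pi + 1) * (Real.pi / θ) := by gcongr
    _ = _ := by field_simp

theorem one_family {σ T η D E1 E2 B : ℝ} {b : ℕ} {h : ℝ → ℝ} (hσ : 0 < σ) (hT : 0 < T)
    (hη : 0 < η) (hη' : η ≤ 1 / 12) (hb : 1 ≤ b) (hD : 0 ≤ D) (hE2 : 0 ≤ E2)
    (hE : ∀ X : ℕ, 1 ≤ X → (exc b X D : ℝ) ≤ X * E1 + E2)
    (hm : Measurable h) (h0 : ∀ s, 0 ≤ h s) (hB : ∀ s, h s ≤ B) :
    ∫ t in Set.Icc (-T) T, ∫ s in Set.Icc (-T) T,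
        (Arc b η).indicator (fun _ => (1 : ℝ)) (σ * (t - s)) * (h t * h s)
      ≤ 48 * (η * (2 * T + Real.pi / σ)) * D * (∫ s in Set.Icc (-T) T, h s ^ 2) +
        (4 * (b : ℝ) ^ 2 * E1 + 48 * η * b * E2) * (∫ s in Set.Icc (-T) T, h s) ^ 2 := by
  have hi := int_h (T := T) hm h0 hB
  set L : ℕ := ⌊1 / (6 * η)⌋₊ with hLdef
  have x0 : 2 ≤ 1 / (6 * η) := by rw [le_div_iff₀ (by positivity)]; linarith
  have L1 : (L : ℝ) ≤ 1 / (6 * η) := Nat.floor_le (by positivity)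
  have L2 : 1 / (6 * η) < L + 1 := Nat.lt_floor_add_one _
  have Lr : (0 : ℝ) < L := by linarith
  have L0 : 0 < L := by exact_mod_cast Lr
  have L3 : 4 / (L : ℝ) ≤ 48 * η := by
    rw [div_le_iff₀ Lr]
    have : 1 / (6 * η) ≤ 2 * L := by linarith
    rw [div_le_iff₀ (by positivity)] at this
    linarith
  have hL : L * η ≤ 1 / 6 := by
    rw [le_div_iff₀ (by positivity)] at L1
    linarith
  have h1 := double_le (θ := σ) hi h0 η b L L0 hL
  have h2 := count_le (EE σ T h) (EE_nonneg σ T h) b L (b * L) le_rfl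
  have h3 := split_le (EE σ T h) (EE_nonneg σ T h) b (b * L) D _ hD (EE_le hi h0)
  have h4 := bessel' hσ hT hm h0 hB (Finset.Icc (-((b * L : ℕ) : ℤ)) (b * L : ℕ))
  have h5 := hE (b * L) (Nat.mul_pos hb L0)
  set I2 := ∫ s in Set.Icc (-T) T, h s ^ 2 with hI2
  set I1 := ∫ s in Set.Icc (-T) T, h s with hI1
  have hI2n : 0 ≤ I2 := integral_nonneg fun s => by positivity
  have pp := Real.pi_pos
  push_cast at h5
  calc _ ≤ _ := h1
    _ ≤ 4 / (L : ℝ) ^ 2 * (L * (D * ((2 * T + Real.pi / σ) * I2) +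
          b * (b * L * E1 + E2) * I1 ^ 2)) := by
        refine mul_le_mul_of_nonneg_left (h2.trans (mul_le_mul_of_nonneg_left (h3.trans ?_) Lr.le))
          (by positivity)
        gcongr
    _ = 4 / L * (D * ((2 * T + Real.pi / σ) * I2)) +
          (4 * (b : ℝ) ^ 2 * E1 + 4 / L * (b * E2)) * I1 ^ 2 := by field_simp
    _ ≤ 48 * η * (D * ((2 * T + Real.pi / σ) * I2)) +
          (4 * (b : ℝ) ^ 2 * E1 + 48 * η * (b * E2)) * I1 ^ 2 := by gcongr
    _ = _ := by ring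

theorem union_le {T : ℝ} {U : Set ℝ} (hU : MeasurableSet U) (S : Finset ℝ) (M : ℝ → Set ℝ)
    (hM : ∀ σ, MeasurableSet (M σ)) (hcov : ∀ t ∈ U, |t| ≤ 2 * T → ∃ σ ∈ S, σ * t ∈ M σ)
    {h : ℝ → ℝ} (hm : Measurable h) (h0 : ∀ s, 0 ≤ h s) {B : ℝ} (hB : ∀ s, h s ≤ B) :
    ∫ t in Set.Icc (-T) T, ∫ s in Set.Icc (-T) T,
      U.indicator (fun _ => (1 : ℝ)) (t - s) * (h t * h s) ≤
    ∑ σ ∈ S, ∫ t in Set.Icc (-T) T, ∫ s in Set.Icc (-T) T,
      (M σ).indicator (fun _ => (1 : ℝ)) (σ * (t - s)) * (h t * h s) := by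
  have h1 := Level.integrable_aux (T := T) hU 1 hm h0 hB
  simp only [one_mul] at h1
  have h2 := fun σ => Level.integrable_aux (T := T) (hM σ) σ hm h0 hB
  have h3 := integral_prod _ h1
  have h4 := fun σ => integral_prod _ (h2 σ)
  simp only at h3 h4
  simp only [← h4]
  rw [← h3, ← integral_finsetSum _ fun σ _ => h2 σ]
  refine integral_mono_ae h1 (integrable_finsetSum _ fun σ _ => h2 σ) ?_
  rw [Measure.prod_restrict]
  refine (ae_restrict_iff' (measurableSet_Icc.prod measurableSet_Icc)).2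
    (Filter.Eventually.of_forall fun z hz => ?_)
  simp only [← Finset.sum_mul]
  refine mul_le_mul_of_nonneg_right ?_ (mul_nonneg (h0 _) (h0 _))
  have h5 : ∀ σ, 0 ≤ (M σ).indicator (fun _ => (1 : ℝ)) (σ * (z.1 - z.2)) := fun σ =>
    Set.indicator_nonneg (fun _ _ => zero_le_one) _
  by_cases hz' : z.1 - z.2 ∈ U
  · rw [Set.indicator_of_mem hz']
    obtain ⟨σ, hσ, hi⟩ := hcov _ hz' (abs_le.2
      ⟨by linarith [hz.1.1, hz.2.2], by linarith [hz.1.2, hz.2.1]⟩)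
    refine le_trans ?_ (Finset.single_le_sum (fun j _ => h5 j) hσ)
    rw [Set.indicator_of_mem hi]
  · rw [Set.indicator_of_notMem hz']
    exact Finset.sum_nonneg fun σ _ => h5 σ

end CombN

open CombN in
theorem comb {r : ℕ} {A : Mx r} (hA : PD A) {T δ Bx : ℝ} (hT : 0 < T) (hδ : 0 < δ)
    (hBx : 0 < Bx) : ∃ (k : ℕ) (C : ℝ), 1 ≤ C ∧ ∀ (b : ℕ) (ε : ℝ) (h : ℝ → ℝ), 1 ≤ b → 0 < ε →
      C * ε * (b : ℝ) ^ k ≤ 1 → Measurable h → (∀ s, 0 ≤ h s) → (∃ B : ℝ, ∀ s, h s ≤ B) →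
        ∫ t in Set.Icc (-T) T, ∫ s in Set.Icc (-T) T,
            (Mj A b ε).indicator (fun _ => (1 : ℝ)) (t - s) * (h t * h s)
          ≤ C * (ε * (b : ℝ) ^ δ * (∫ s in Set.Icc (-T) T, h s ^ 2) +
            ((b : ℝ) ^ (-Bx) + ε * (b : ℝ) ^ k) * (∫ s in Set.Icc (-T) T, h s) ^ 2) := by
  obtain ⟨C1, hC1, h1⟩ := struct hA (2 * T) (half_pos hδ)
  obtain ⟨k, Ce, hCe, hE⟩ := exc_ok (δ / 2) (Bx + 2 + δ / 2) (half_pos hδ) (by positivity)
  obtain ⟨j, hj⟩ : ∃ j : ℕ, δ / 2 ≤ j := exists_nat_ge _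
  have pp := Real.pi_pos
  have y1 : 0 ≤ C1 ^ 2 * (2 * T + Real.pi) := by positivity
  have y2 : 0 ≤ C1 ^ 2 * Ce := by positivity
  have y3 : 0 ≤ C1 * Ce := by positivity
  obtain ⟨C, hC⟩ : ∃ C : ℝ,
    C = 12 * C1 + 48 * (C1 ^ 2 * (2 * T + Real.pi)) + 48 * (C1 ^ 2 * Ce) + 4 * (C1 * Ce) := ⟨_, rfl⟩
  refine ⟨k + 1 + j + (4 * r + 4), C, by linarith, ?_⟩
  rintro b ε h hb hε hsm hm h0 ⟨B, hB⟩
  have b1 : (1 : ℝ) ≤ b := by exact_mod_cast hb
  have b0 : (0 : ℝ) < b := by linarith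
  have hs1 : 12 * C1 * ε * (b : ℝ) ^ (4 * r + 4) ≤ 1 := by
    have C0 : 0 ≤ C := by linarith
    exact (mul_le_mul (mul_le_mul_of_nonneg_right (by linarith) hε.le)
      (pow_le_pow_right₀ b1 (by omega)) (by positivity) (by positivity)).trans hsm
  have hs2 : C1 * ε * 1 ≤ C1 * ε * (b : ℝ) ^ (4 * r + 4) := by
    gcongr
    exact one_le_pow₀ b1
  have hs3 : 0 ≤ C1 * ε := by positivity
  obtain ⟨S, hS1, hS2, hS3⟩ := h1 b ε hb hε.le (by linarith)
  refine (union_le (measurableSet_Mj A b ε) S (fun σ => Arc b (C1 * ε * min σ 1))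
    (fun σ => measurableSet_Arc _ _) hS3 hm h0 hB).trans ?_
  set I2 := ∫ s in Set.Icc (-T) T, h s ^ 2 with hI2
  set I1 := ∫ s in Set.Icc (-T) T, h s with hI1
  have hI2n : 0 ≤ I2 := integral_nonneg fun s => by positivity
  have h2 : ∀ σ ∈ S, ∫ t in Set.Icc (-T) T, ∫ s in Set.Icc (-T) T,
      (Arc b (C1 * ε * min σ 1)).indicator (fun _ => (1 : ℝ)) (σ * (t - s)) * (h t * h s) ≤
      48 * (C1 * ε * (2 * T + Real.pi)) * (b : ℝ) ^ (δ / 2) * I2 +
        (4 * (b : ℝ) ^ 2 * (Ce * (b : ℝ) ^ (-(Bx + 2 + δ / 2))) +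
          48 * (C1 * ε) * b * (Ce * (b : ℝ) ^ k)) * I1 ^ 2 := fun σ hσ => by
    have σ0 := hS2 σ hσ
    have m0 : 0 < min σ 1 := lt_min σ0 one_pos
    have m1 : C1 * ε * min σ 1 ≤ C1 * ε := mul_le_of_le_one_right hs3 (min_le_right _ _)
    have m2 : min σ 1 * (2 * T + Real.pi / σ) ≤ 2 * T + Real.pi := by
      rw [mul_add]
      refine add_le_add (mul_le_of_le_one_left (by positivity) (min_le_right _ _)) ?_
      rw [← mul_div_assoc, div_le_iff₀ σ0, mul_comm]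
      exact mul_le_mul_of_nonneg_left (min_le_left _ _) pp.le
    refine (one_family (D := (b : ℝ) ^ (δ / 2)) (E1 := Ce * (b : ℝ) ^ (-(Bx + 2 + δ / 2)))
      (E2 := Ce * (b : ℝ) ^ k) σ0 hT (by positivity) (by linarith) hb (by positivity)
      (by positivity) (fun X hX => (hE b X hb hX).trans (le_of_eq (by ring))) hm h0 hB).trans ?_
    rw [mul_assoc (C1 * ε)]
    gcongr
  refine (Finset.sum_le_card_nsmul _ _ _ h2).trans ?_
  rw [nsmul_eq_mul]
  refine (mul_le_mul_of_nonneg_right hS1 (by positivity)).trans ?_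
  have e1 : (b : ℝ) ^ δ = (b : ℝ) ^ (δ / 2) * (b : ℝ) ^ (δ / 2) := by
    rw [← Real.rpow_add b0, add_halves]
  have e2 : (b : ℝ) ^ (-Bx) = (b : ℝ) ^ (δ / 2) * (b : ℝ) ^ 2 * (b : ℝ) ^ (-(Bx + 2 + δ / 2)) := by
    rw [← Real.rpow_natCast, ← Real.rpow_add b0, ← Real.rpow_add b0]
    congr 1
    push_cast
    ring
  have e3 : (b : ℝ) ^ (δ / 2) * (b * (b : ℝ) ^ k) ≤ (b : ℝ) ^ (k + 1 + j + (4 * r + 4)) := by
    calc _ ≤ (b : ℝ) ^ j * (b * (b : ℝ) ^ k) := by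
          gcongr
          rw [← Real.rpow_natCast]
          exact Real.rpow_le_rpow_of_exponent_le b1 hj
      _ = (b : ℝ) ^ (k + 1 + j) := by ring
      _ ≤ _ := pow_le_pow_right₀ b1 (by omega)
  calc _ = 48 * (C1 ^ 2 * (2 * T + Real.pi)) * (ε * (b : ℝ) ^ δ * I2) +
        (4 * (C1 * Ce) * (b : ℝ) ^ (-Bx) +
          48 * (C1 ^ 2 * Ce) * (ε * ((b : ℝ) ^ (δ / 2) * (b * (b : ℝ) ^ k)))) * I1 ^ 2 := by
        rw [e1, e2]; ring
    _ ≤ C * (ε * (b : ℝ) ^ δ * I2) + (C * (b : ℝ) ^ (-Bx) +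
          C * (ε * (b : ℝ) ^ (k + 1 + j + (4 * r + 4)))) * I1 ^ 2 := by
        gcongr <;> linarith
    _ = _ := by ring

end Pool.Agent.P.MP_7211b7_an.NR
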