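import Pool.Agent.P.MP_7211b7_an.NRDefs

/-!
# General flat tori: long time intervals, removal of the epsilon, the Stein-Tomas argument

These are the proofs of `Cover`, `Layer` and `TT` for a general energy function.
-/

open MeasureTheory Finset
open scoped ENNReal ComplexConjugate

namespace Pool.Agent.P.MP_7211b7_an.NR

namespace CoverN

variable {r : ℕ}

theorem tor_shift (θ : Qf r) (S : Finset (Fin r → ℤ)) (a : (Fin r → ℤ) → ℂ) (t0 : ℝ)
    (z : ℝ × (Fin r → ℝ)) :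
    tor θ S a (z + (t0, 0)) =
      tor θ S (fun n => a n * Complex.exp (Complex.I *
        ((-(t0 * θ n) : ℝ) : ℂ))) z := by
  unfold tor
  refine Finset.sum_congr rfl fun n _ => ?_
  rw [mul_assoc, ← Complex.exp_add]
  congr 2
  simp only [Prod.fst_add, Prod.snd_add, add_zero]
  push_cast
  ring

theorem cont (θ : Qf r) (S : Finset (Fin r → ℤ)) (a : (Fin r → ℤ) → ℂ) {p : ℝ}
    (hp : 0 ≤ p) : Continuous fun z => ‖tor θ S a z‖ ^ p :=
  (continuous_tor θ S a).norm.rpow_const fun _ => Or.inr hp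

theorem integrableOn (θ : Qf r) (S : Finset (Fin r → ℤ)) (a : (Fin r → ℤ) → ℂ) {p : ℝ}
    (hp : 0 ≤ p) (u v : ℝ) :
    IntegrableOn (fun z => ‖tor θ S a z‖ ^ p) (Set.Icc u v ×ˢ box r) :=
  (cont θ S a hp).continuousOn.integrableOn_compact (isCompact_Icc.prod (isCompact_box r))

theorem mono {θ : Qf r} {p e T T' : ℝ} (hp : 0 ≤ p) (hT : T' ≤ T) (h : TorBd r θ p T e) :
    TorBd r θ p T' e := by
  obtain ⟨C, hC, h⟩ := h
  refine ⟨C, hC, fun N S a hN hS => le_trans ?_ (h N S a hN hS)⟩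
  refine setIntegral_mono_set (integrableOn θ S a hp _ _)
    (Filter.Eventually.of_forall fun z => Real.rpow_nonneg (norm_nonneg _) _) ?_
  refine (Set.prod_mono (Set.Icc_subset_Icc (by linarith) hT) subset_rfl).eventuallyLE

theorem double {θ : Qf r} {p e T : ℝ} (hp : 1 ≤ p) (h : TorBd r θ p T e) :
    TorBd r θ p (2 * T) e := by
  obtain ⟨C, hC, h⟩ := h
  have hp0 : 0 ≤ p := by linarith
  refine ⟨2 * C, by positivity, fun N S a hN hS => ?_⟩
  have key : ∀ t0 : ℝ, ∫ z in Set.Icc (t0 - T) (t0 + T) ×ˢ box r, ‖tor θ S a z‖ ^ p ≤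
      (C * (N : ℝ) ^ e) ^ p * (∑ n ∈ S, ‖a n‖ ^ 2) ^ (p / 2) := by
    intro t0
    rw [Cover.shift_int (fun z => ‖tor θ S a z‖ ^ p) t0 T]
    simp only [tor_shift]
    refine (h N S _ hN hS).trans (le_of_eq ?_)
    congr 2
    refine Finset.sum_congr rfl fun n _ => ?_
    rw [norm_mul, mul_comm Complex.I, Complex.norm_exp_ofReal_mul_I, mul_one]
  have hsub : dom r (2 * T) ⊆ (Set.Icc (-T - T) (-T + T) ×ˢ box r) ∪
      (Set.Icc (T - T) (T + T) ×ˢ box r) := by
    rintro z ⟨⟨h1, h2⟩, h3⟩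
    rcases le_total z.1 0 with h4 | h4
    · exact Or.inl ⟨⟨by linarith, by linarith⟩, h3⟩
    · exact Or.inr ⟨⟨by linarith, by linarith⟩, h3⟩
  have hI1 := integrableOn θ S a hp0 (-T - T) (-T + T)
  have hI2 := integrableOn θ S a hp0 (T - T) (T + T)
  have hnn : ∀ z, 0 ≤ ‖tor θ S a z‖ ^ p := fun z => Real.rpow_nonneg (norm_nonneg _) _
  have h1 : ∫ z in dom r (2 * T), ‖tor θ S a z‖ ^ p ≤
      ∫ z in (Set.Icc (-T - T) (-T + T) ×ˢ box r) ∪ (Set.Icc (T - T) (T + T) ×ˢ box r),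
        ‖tor θ S a z‖ ^ p :=
    setIntegral_mono_set (hI1.union hI2) (Filter.Eventually.of_forall hnn) hsub.eventuallyLE
  have h2 : ∫ z in (Set.Icc (-T - T) (-T + T) ×ˢ box r) ∪ (Set.Icc (T - T) (T + T) ×ˢ box r),
        ‖tor θ S a z‖ ^ p ≤ (∫ z in Set.Icc (-T - T) (-T + T) ×ˢ box r, ‖tor θ S a z‖ ^ p) +
        ∫ z in Set.Icc (T - T) (T + T) ×ˢ box r, ‖tor θ S a z‖ ^ p := by
    rw [← integral_add_measure hI1 hI2]
    exact integral_mono_measure (Measure.restrict_union_le _ _)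
      (Filter.Eventually.of_forall hnn) (Integrable.add_measure hI1 hI2)
  have hX : 0 ≤ (C * (N : ℝ) ^ e) ^ p * (∑ n ∈ S, ‖a n‖ ^ 2) ^ (p / 2) := by positivity
  have h3 : (2 : ℝ) ≤ 2 ^ p := by
    calc (2 : ℝ) = 2 ^ (1 : ℝ) := (Real.rpow_one 2).symm
      _ ≤ 2 ^ p := Real.rpow_le_rpow_of_exponent_le (by norm_num) hp
  have h4 : (2 * C * (N : ℝ) ^ e) ^ p = 2 ^ p * (C * (N : ℝ) ^ e) ^ p := by
    rw [mul_assoc, Real.mul_rpow (by norm_num) (by positivity)]
  rw [h4, mul_assoc]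
  have h5 := key (-T)
  have h6 := key T
  nlinarith [mul_le_mul_of_nonneg_right h3 hX]

end CoverN

theorem cover {r : ℕ} {θ : Qf r} {p e T0 : ℝ} (T : ℝ) (hp : 1 ≤ p) (hT0 : 0 < T0)
    (h : TorBd r θ p T0 e) : TorBd r θ p T e := by
  have hk : ∀ k : ℕ, TorBd r θ p (2 ^ k * T0) e := by
    intro k
    induction k with
    | zero => simpa using h
    | succ k ih =>
      have := CoverN.double hp ih
      rwa [← mul_assoc, ← pow_succ'] at this
  obtain ⟨k, hk'⟩ := pow_unbounded_of_one_lt (T / T0) (by norm_num : (1 : ℝ) < 2)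
  refine CoverN.mono (by linarith) ?_ (hk k)
  rw [div_lt_iff₀ hT0] at hk'
  exact hk'.le

namespace LayerN

theorem sup_le {r N : ℕ} (θ : Qf r) (hN : 1 ≤ N) {S : Finset (Fin r → ℤ)}
    (hS : ∀ n ∈ S, ∀ i, |n i| ≤ N) {a : (Fin r → ℤ) → ℂ} (ha : ∑ n ∈ S, ‖a n‖ ^ 2 ≤ 1)
    (z : ℝ × (Fin r → ℝ)) : ‖tor θ S a z‖ ≤ (3 * N : ℝ) ^ (r / 2 : ℝ) := by
  have h1 : ‖tor θ S a z‖ ≤ ∑ n ∈ S, ‖a n‖ := by
    unfold tor
    refine (norm_sum_le _ _).trans (Finset.sum_le_sum fun n _ => le_of_eq ?_)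
    rw [norm_mul, mul_comm Complex.I, Complex.norm_exp_ofReal_mul_I, mul_one]
  have h2 : (∑ n ∈ S, ‖a n‖) ^ 2 ≤ (S.card : ℝ) * ∑ n ∈ S, ‖a n‖ ^ 2 := sq_sum_le_card_mul_sum_sq
  have h3 : (∑ n ∈ S, ‖a n‖) ^ 2 ≤ (3 * N : ℝ) ^ r := by
    refine h2.trans ?_
    calc (S.card : ℝ) * ∑ n ∈ S, ‖a n‖ ^ 2 ≤ (S.card : ℝ) * 1 :=
          mul_le_mul_of_nonneg_left ha (Nat.cast_nonneg _)
      _ ≤ _ := by rw [mul_one]; exact Layer.card_le hN hS
  have h4 : ((3 * N : ℝ) ^ (r / 2 : ℝ)) ^ 2 = (3 * N : ℝ) ^ r := by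
    rw [← Real.rpow_natCast, ← Real.rpow_mul (by positivity), ← Real.rpow_natCast]
    congr 1
    push_cast
    ring
  refine h1.trans (abs_le_of_sq_le_sq' ?_ (by positivity)).2
  rw [h4]
  exact h3

theorem lev_eq {r : ℕ} (θ : Qf r) (S : Finset (Fin r → ℤ)) (a : (Fin r → ℤ) → ℂ)
    (T t : ℝ) :
    ((volume.restrict (dom r T)) {z | t ≤ ‖tor θ S a z‖}).toReal = lev θ S a T t := by
  unfold lev
  rw [Measure.restrict_apply (measurableSet_le measurable_const
    (continuous_tor θ S a).norm.measurable), Set.inter_comm]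

theorem cheb {r : ℕ} (θ : Qf r) (S : Finset (Fin r → ℤ)) (a : (Fin r → ℤ) → ℂ)
    (T : ℝ) {t s : ℝ} (ht : 0 < t) (hs : 0 < s) :
    t ^ s * lev θ S a T t ≤ ∫ z in dom r T, ‖tor θ S a z‖ ^ s := by
  have hc : Continuous fun z => ‖tor θ S a z‖ ^ s :=
    (continuous_tor θ S a).norm.rpow_const fun _ => Or.inr hs.le
  have h := mul_meas_ge_le_integral_of_nonneg (μ := volume.restrict (dom r T))
    (f := fun z => ‖tor θ S a z‖ ^ s)
    (Filter.Eventually.of_forall fun z => Real.rpow_nonneg (norm_nonneg _) s)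
    (hc.continuousOn.integrableOn_compact (isCompact_dom r T)) (t ^ s)
  have e : {z | t ^ s ≤ ‖tor θ S a z‖ ^ s} = {z | t ≤ ‖tor θ S a z‖} := by
    ext z
    exact Real.rpow_le_rpow_iff ht.le (norm_nonneg _) hs
  rw [e, measureReal_def, lev_eq] at h
  exact h

theorem normalised (r : ℕ) (θ : Qf r) (p T : ℝ) (hp : 4 < r * (p - 2))
    (hTor : ∀ ε : ℝ, 0 < ε → TorBd r θ (2 + 4 / r) T ε)
    (hLev : ∀ q : ℝ, 4 < r * (q - 2) → LevelBd r θ q T) :
    ∃ K : ℝ, 0 < K ∧ ∀ (N : ℕ) (S : Finset (Fin r → ℤ)) (a : (Fin r → ℤ) → ℂ), 1 ≤ N →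
      (∀ n ∈ S, ∀ i, |n i| ≤ N) → ∑ n ∈ S, ‖a n‖ ^ 2 ≤ 1 →
        ∫ z in dom r T, ‖tor θ S a z‖ ^ p ≤ K * (N : ℝ) ^ (r * p / 2 - (r + 2) : ℝ) := by
  have hr : (0 : ℝ) < r := by
    rcases Nat.eq_zero_or_pos r with h | h
    · subst h
      norm_num at hp
    · exact_mod_cast h
  obtain ⟨pc, hpc⟩ : ∃ pc : ℝ, pc = 2 + 4 / r := ⟨_, rfl⟩
  have hrpc : r * pc = 2 * r + 4 := by rw [hpc]; field_simp
  have hpc0 : 0 < pc := by rw [hpc]; positivity
  have hpcp : pc < p := by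
    by_contra h
    have := mul_le_mul_of_nonneg_left (not_lt.1 h) hr.le
    nlinarith
  obtain ⟨q, hq⟩ : ∃ q : ℝ, q = (pc + p) / 2 := ⟨_, rfl⟩
  have hq1 : pc < q := by rw [hq]; linarith
  have hq2 : q < p := by rw [hq]; linarith
  have hp0 : 0 < p := by linarith
  obtain ⟨η, C1, hη, hC1, hL⟩ := hLev q (by nlinarith [mul_lt_mul_of_pos_left hq1 hr])
  have hqpc : 0 < q - pc := by linarith
  obtain ⟨C2, hC2, hT2⟩ := hTor (η * (q - pc) / pc) (by positivity)
  rw [← hpc] at hT2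
  have hpq : 0 < p - q := by linarith
  refine ⟨p * ((C1 + C2 ^ pc) * (((3 : ℝ) ^ (r / 2 : ℝ)) ^ (p - q) / (p - q))), by positivity,
    fun N S a hN hS ha => ?_⟩
  have hN0 : (0 : ℝ) < N := by exact_mod_cast hN
  have hlev : ∀ t : ℝ, 0 < t → lev θ S a T t ≤
      ((C1 + C2 ^ pc) * (N : ℝ) ^ (r * q / 2 - (r + 2) : ℝ)) * t ^ (-q) := by
    intro t ht
    obtain ⟨B, hB⟩ : ∃ B : ℝ, B = (N : ℝ) ^ (r / 2 : ℝ) / t := ⟨_, rfl⟩
    have hB0 : 0 < B := by rw [hB]; positivity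
    have htB : (N : ℝ) ^ (r / 2 : ℝ) / B = t := by rw [hB]; field_simp
    have hBq : ∀ s : ℝ, B ^ s = (N : ℝ) ^ (r * s / 2 : ℝ) * t ^ (-s) := by
      intro s
      rw [hB, Real.div_rpow (by positivity) ht.le, ← Real.rpow_mul hN0.le, Real.rpow_neg ht.le,
        div_eq_mul_inv]
      congr 2
      ring
    have key : lev θ S a T t ≤ (C1 + C2 ^ pc) * (N : ℝ) ^ (-(r + 2 : ℝ)) * B ^ q := by
      by_cases hcase : B ≤ (N : ℝ) ^ η
      · have := hL N S a B hN hS ha hB0 hcase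
        rw [htB] at this
        refine this.trans ?_
        have : 0 ≤ C2 ^ pc := by positivity
        gcongr
        linarith
      · have h1 := (cheb θ S a T ht hpc0).trans (hT2 N S a hN hS)
        have h2 : (∑ n ∈ S, ‖a n‖ ^ 2) ^ (pc / 2) ≤ 1 :=
          Real.rpow_le_one (by positivity) ha (by positivity)
        have h3 : (C2 * (N : ℝ) ^ (η * (q - pc) / pc)) ^ pc ≤ C2 ^ pc * B ^ (q - pc) := by
          rw [Real.mul_rpow hC2.le (by positivity), ← Real.rpow_mul hN0.le,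
            div_mul_cancel₀ _ hpc0.ne', Real.rpow_mul hN0.le]
          gcongr
          exact (not_le.1 hcase).le
        have h4 : t ^ pc * lev θ S a T t ≤ C2 ^ pc * B ^ (q - pc) := by
          refine h1.trans ((mul_le_mul_of_nonneg_left h2 (by positivity)).trans ?_)
          rw [mul_one]
          exact h3
        have h5 : t ^ pc * ((N : ℝ) ^ (-(r + 2 : ℝ)) * B ^ q) = B ^ (q - pc) := by
          have e1 : B ^ q = B ^ (q - pc) * B ^ pc := by
            rw [← Real.rpow_add hB0, sub_add_cancel]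
          have e2 : (r * pc / 2 : ℝ) = r + 2 := by rw [hrpc]; ring
          rw [e1, hBq pc, e2, Real.rpow_neg hN0.le, Real.rpow_neg ht.le]
          have : 0 < t ^ pc := by positivity
          have : 0 < (N : ℝ) ^ (r + 2 : ℝ) := by positivity
          field_simp
        have htp : 0 < t ^ pc := by positivity
        refine le_of_mul_le_mul_left (h4.trans ?_) htp
        rw [← h5]
        have : 0 ≤ t ^ pc * ((N : ℝ) ^ (-(r + 2 : ℝ)) * B ^ q) := by positivity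
        nlinarith
    refine key.trans (le_of_eq ?_)
    rw [hBq q, mul_assoc, ← mul_assoc ((N : ℝ) ^ (-(r + 2 : ℝ))), ← Real.rpow_add hN0, ← mul_assoc]
    congr 3
    ring
  haveI : IsFiniteMeasure (volume.restrict (dom r T)) :=
    ⟨by rw [Measure.restrict_apply_univ]; exact (isCompact_dom r T).measure_lt_top⟩
  have hc := Layer.cake (volume.restrict (dom r T)) (f := fun z => ‖tor θ S a z‖)
    (continuous_tor θ S a).norm.measurable (fun _ => norm_nonneg _)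
    (Λ := (3 * N : ℝ) ^ (r / 2 : ℝ))
    (M := (C1 + C2 ^ pc) * (N : ℝ) ^ (r * q / 2 - (r + 2) : ℝ)) (by positivity)
    (sup_le θ hN hS ha) (by positivity) hp0 hq2 (fun t ht => by rw [lev_eq]; exact hlev t ht)
  refine hc.trans (le_of_eq ?_)
  have e3 : (N : ℝ) ^ (r * p / 2 - (r + 2) : ℝ) =
      (N : ℝ) ^ (r * q / 2 - (r + 2) : ℝ) * ((N : ℝ) ^ (r / 2 : ℝ)) ^ (p - q) := by
    rw [← Real.rpow_mul hN0.le, ← Real.rpow_add hN0]
    congr 1
    ring
  rw [e3, Real.mul_rpow (by norm_num) hN0.le, Real.mul_rpow (by positivity) (by positivity)]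
  ring

end LayerN

theorem layer {r : ℕ} {θ : Qf r} {p T : ℝ} (hp : 4 < r * (p - 2))
    (hTor : ∀ ε : ℝ, 0 < ε → TorBd r θ (2 + 4 / r) T ε)
    (hLev : ∀ q : ℝ, 4 < r * (q - 2) → LevelBd r θ q T) :
    TorBd r θ p T (r / 2 - (r + 2) / p) := by
  obtain ⟨K, hK, h⟩ := LayerN.normalised r θ p T hp hTor hLev
  have hp0 : 0 < p := by
    by_contra h0
    have : (r : ℝ) * (p - 2) ≤ 0 :=
      mul_nonpos_of_nonneg_of_nonpos (Nat.cast_nonneg r) (by linarith [not_lt.1 h0])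
    linarith
  refine ⟨K ^ (1 / p), by positivity, fun N S a hN hS => ?_⟩
  have hN0 : (0 : ℝ) < N := by exact_mod_cast hN
  have e1 : (K ^ (1 / p) * (N : ℝ) ^ (r / 2 - (r + 2) / p : ℝ)) ^ p =
      K * (N : ℝ) ^ (r * p / 2 - (r + 2) : ℝ) := by
    rw [Real.mul_rpow (by positivity) (by positivity), ← Real.rpow_mul hK.le,
      ← Real.rpow_mul hN0.le, one_div_mul_cancel hp0.ne', Real.rpow_one]
    congr 2
    field_simp
  rw [e1]
  obtain ⟨σ, hσ⟩ : ∃ σ : ℝ, σ = ∑ n ∈ S, ‖a n‖ ^ 2 := ⟨_, rfl⟩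
  have hσ0 : 0 ≤ σ := by rw [hσ]; positivity
  rw [← hσ]
  rcases hσ0.eq_or_lt with h0 | h0
  · have hz : ∀ n ∈ S, a n = 0 := by
      intro n hn
      have := (Finset.sum_eq_zero_iff_of_nonneg (fun n _ => sq_nonneg ‖a n‖)).1
        (hσ.symm.trans h0.symm) n hn
      simpa using this
    have : ∀ z, ‖tor θ S a z‖ ^ p = 0 := by
      intro z
      have : tor θ S a z = 0 := Finset.sum_eq_zero fun n hn => by rw [hz n hn, zero_mul]
      rw [this, norm_zero, Real.zero_rpow hp0.ne']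
    simp only [this, integral_zero]
    positivity
  · have hs : 0 < Real.sqrt σ := Real.sqrt_pos.2 h0
    have h1 : ∑ n ∈ S, ‖a n / (Real.sqrt σ : ℂ)‖ ^ 2 ≤ 1 := by
      simp only [norm_div, Complex.norm_real, Real.norm_of_nonneg hs.le, div_pow,
        Real.sq_sqrt hσ0, ← Finset.sum_div, ← hσ, div_self h0.ne', le_refl]
    have h2 := h N S (fun n => a n / (Real.sqrt σ : ℂ)) hN hS h1
    have h3 : ∀ z, ‖tor θ S a z‖ ^ p =
        σ ^ (p / 2) * ‖tor θ S (fun n => a n / (Real.sqrt σ : ℂ)) z‖ ^ p := by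
      intro z
      have e : tor θ S a z =
          (Real.sqrt σ : ℂ) * tor θ S (fun n => a n / (Real.sqrt σ : ℂ)) z := by
        unfold tor
        rw [Finset.mul_sum]
        refine Finset.sum_congr rfl fun n _ => ?_
        have : (Real.sqrt σ : ℂ) ≠ 0 := by exact_mod_cast hs.ne'
        field_simp
      rw [e, norm_mul, Complex.norm_real, Real.norm_of_nonneg hs.le,
        Real.mul_rpow hs.le (norm_nonneg _), Real.sqrt_eq_rpow, ← Real.rpow_mul hσ0]
      congr 2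
      ring
    simp only [h3, integral_const_mul]
    rw [mul_comm]
    exact mul_le_mul_of_nonneg_right h2 (by positivity)

namespace TTN

open TT (conj_exp_mul exp_sum_eq int1)

/-- phase -/
noncomputable def ph {r : ℕ} (θ : Qf r) (n : Fin r → ℤ) (z : ℝ × (Fin r → ℝ)) : ℝ :=
  ∑ i, z.2 i * (n i : ℝ) - z.1 * θ n

/-- character -/
noncomputable def ch {r : ℕ} (θ : Qf r) (n : Fin r → ℤ) (z : ℝ × (Fin r → ℝ)) : ℂ :=
  Complex.exp (Complex.I * (ph θ n z : ℂ))

theorem orth_box {r : ℕ} (θ : Qf r) (s : ℝ) (n m : Fin r → ℤ) :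
    ∫ x in box r, ch θ n (s, x) * conj (ch θ m (s, x)) =
      if n = m then (((2 * Real.pi) ^ r : ℝ) : ℂ) else 0 := by
  have e : ∀ x : Fin r → ℝ, ch θ n (s, x) * conj (ch θ m (s, x)) =
      Complex.exp (Complex.I *
        ((s * θ m - s * θ n : ℝ) : ℂ)) *
        ∏ i, Complex.exp (Complex.I * ((x i * ((n i - m i : ℤ) : ℝ) : ℝ) : ℂ)) := fun x => by
    rw [mul_comm, ch, ch, conj_exp_mul, ← exp_sum_eq, ← Complex.exp_add, ← mul_add,
      ← Complex.ofReal_add]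
    congr 3
    simp only [ph, Int.cast_sub, mul_sub, sum_sub_distrib]
    ring
  simp only [e]
  rw [integral_const_mul, box, ← Set.pi_univ_Icc, volume_pi, Measure.restrict_pi_pi,
    integral_fintype_prod_eq_prod
      (fun (i : Fin r) (x : ℝ) =>
        Complex.exp (Complex.I * ((x * ((n i - m i : ℤ) : ℝ) : ℝ) : ℂ)))]
  simp only [Pi.zero_apply, int1]
  split_ifs with h
  · subst h; simp
  · obtain ⟨i, hi⟩ := Function.ne_iff.1 h
    rw [prod_eq_zero (mem_univ i) (if_neg (sub_ne_zero.2 hi)), mul_zero]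

theorem kernel_eq {r : ℕ} (θ : Qf r) (N : ℕ) (t s : ℝ) (x y : Fin r → ℝ) :
    ∑ n ∈ Fintype.piFinset (fun _ : Fin r => Finset.Icc (-(2 * N : ℤ)) (2 * N)),
      ((∏ i, (2 - |(n i : ℝ)| / N) : ℝ) : ℂ) * (conj (ch θ n (s, x)) * ch θ n (t, y)) =
      ker θ N (t - s) (fun i => y i - x i) := by
  unfold ker
  refine sum_congr rfl fun n _ => ?_
  rw [ch, ch, conj_exp_mul]
  congr 4
  simp only [ph, sub_mul, sum_sub_distrib]
  ring

end TTN

open TTN in
theorem tt (r : ℕ) : ∃ C : ℝ, 0 < C ∧ ∀ (θ : Qf r) (T lam K0 : ℝ) (N : ℕ)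
    (S : Finset (Fin r → ℤ)) (a : (Fin r → ℤ) → ℂ) (Mj : Set ℝ), 0 < T → 0 < lam → 0 ≤ K0 →
    1 ≤ N → (∀ n ∈ S, ∀ i, |n i| ≤ N) → ∑ n ∈ S, ‖a n‖ ^ 2 ≤ 1 → MeasurableSet Mj →
    (∀ t ∉ Mj, ∀ x : Fin r → ℝ, ‖ker θ N t x‖ ≤ K0) →
      ∃ h : ℝ → ℝ, Measurable h ∧ (∀ s, 0 ≤ h s) ∧ (∃ B : ℝ, ∀ s, h s ≤ B) ∧
        ∫ s in Set.Icc (-T) T, h s ^ 2 ≤ C * lev θ S a T lam ∧
        ∫ s in Set.Icc (-T) T, h s ≤ C * (N : ℝ) ^ (r / 2 : ℝ) * lev θ S a T lam ∧
        lam ^ 2 * lev θ S a T lam ^ 2 ≤ K0 * lev θ S a T lam ^ 2 +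
          ∫ t in Set.Icc (-T) T, ∫ s in Set.Icc (-T) T,
            Mj.indicator (fun _ => (1 : ℝ)) (t - s) * (h t * h s) := by
  refine ⟨(4 * Real.pi) ^ r + 10 ^ r, by positivity, ?_⟩
  intro θ T lam K0 N S a Mj hT hlam hK0 hN hS ha hM hK
  have hN' : (1 : ℝ) ≤ N := by exact_mod_cast hN
  let μ : Measure ℝ := volume.restrict (Set.Icc (-T) T)
  let ν : Measure (Fin r → ℝ) := volume.restrict (box r)
  have : IsFiniteMeasure μ := isFiniteMeasure_restrict.2 isCompact_Icc.measure_lt_top.ne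
  have : IsFiniteMeasure ν := isFiniteMeasure_restrict.2 (isCompact_box r).measure_lt_top.ne
  let J := Fintype.piFinset (fun _ : Fin r => Finset.Icc (-(2 * N : ℤ)) (2 * N))
  let ψ : (Fin r → ℤ) → ℝ := fun n => ∏ i, (2 - |(n i : ℝ)| / N)
  let E' : Set (ℝ × (Fin r → ℝ)) := {z | lam ≤ ‖tor θ S a z‖}
  have mT : Measurable (tor θ S a) := (continuous_tor θ S a).measurable
  have mE' : MeasurableSet E' := measurableSet_le measurable_const mT.norm
  let G : ℝ × (Fin r → ℝ) → ℂ := E'.indicator fun z => tor θ S a z / (‖tor θ S a z‖ : ℂ)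
  have mG : Measurable G :=
    (mT.div (Complex.measurable_ofReal.comp mT.norm)).indicator mE'
  have nG : ∀ z, ‖G z‖ = E'.indicator 1 z := fun z => by
    by_cases hz : z ∈ E'
    · have h1 : 0 < ‖tor θ S a z‖ := hlam.trans_le hz
      simp only [G, Set.indicator_of_mem hz, norm_div, Complex.norm_real, norm_norm, Pi.one_apply]
      exact div_self h1.ne'
    · simp only [G, Set.indicator_of_notMem hz, norm_zero]
  have hlev : ∫ z, ‖G z‖ ∂(μ.prod ν) = lev θ S a T lam := by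
    simp only [nG]
    rw [integral_indicator_one mE', Measure.prod_restrict, ← Measure.volume_eq_prod,
      Measure.real, Measure.restrict_apply mE', Set.inter_comm]
    rfl
  have hJ : ∀ n ∈ J, ∀ i, 0 ≤ 2 - |(n i : ℝ)| / N := fun n hn i => by
    have h1 := Finset.mem_Icc.1 (Fintype.mem_piFinset.1 hn i)
    have h2 : |n i| ≤ 2 * N := abs_le.2 h1
    have h3 : |(n i : ℝ)| ≤ 2 * N := by exact_mod_cast h2
    rw [sub_nonneg, div_le_iff₀ (by linarith)]
    exact h3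
  obtain ⟨h, mh, h0, hB, c1, c2, c3⟩ := TT.core μ ν S J
    (fun n hn => Fintype.mem_piFinset.2 fun i => by
      have := abs_le.1 (hS n hn i)
      rw [Finset.mem_Icc]; constructor <;> omega)
    ψ (2 ^ r) (by positivity)
    (fun n hn => prod_nonneg fun i _ => hJ n hn i)
    (fun n hn => by
      have : ∏ i, (2 - |(n i : ℝ)| / N) ≤ ∏ _i : Fin r, (2 : ℝ) :=
        prod_le_prod (fun i _ => hJ n hn i) fun i _ => by
          have : 0 ≤ |(n i : ℝ)| / N := by positivity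
          linarith
      simpa using this)
    (fun n hn => by
      have : ∏ _i : Fin r, (1 : ℝ) ≤ ∏ i, (2 - |(n i : ℝ)| / N) :=
        prod_le_prod (fun i _ => zero_le_one) fun i _ => by
          have h3 : |(n i : ℝ)| ≤ N := by exact_mod_cast hS n hn i
          have : |(n i : ℝ)| / N ≤ 1 := by rw [div_le_one (by linarith)]; exact h3
          linarith
      simpa using this)
    (ch θ) (fun n => by unfold ch ph; fun_prop)
    (fun n z => by rw [ch, mul_comm, Complex.norm_exp_ofReal_mul_I])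
    ((2 * Real.pi) ^ r) (by positivity) (fun s n m => orth_box θ s n m) G mG
    (fun z => by
      rw [nG]
      exact Set.indicator_le' (fun _ _ => le_rfl) (fun _ _ => zero_le_one) _)
    a ha lam hlam.le
    (fun z => by
      show lam * ‖G z‖ ≤ (conj (tor θ S a z) * G z).re
      rw [nG]
      by_cases hz : z ∈ E'
      · have h1 : 0 < ‖tor θ S a z‖ := hlam.trans_le hz
        have h2 : (‖tor θ S a z‖ : ℂ) ≠ 0 := by exact_mod_cast h1.ne'
        simp only [G, Set.indicator_of_mem hz, Pi.one_apply, mul_one]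
        rw [← mul_div_assoc, Complex.conj_mul', pow_two, mul_div_assoc, div_self h2, mul_one,
          Complex.ofReal_re]
        exact hz
      · simp only [G, Set.indicator_of_notMem hz, mul_zero, Complex.zero_re, le_refl])
    Mj hM K0 hK0
    (fun t s hts x y => by
      have := kernel_eq θ N t s x y
      simp only [ψ, J]
      rw [this]
      exact hK (t - s) hts (fun i => y i - x i))
  rw [hlev] at c1 c2 c3
  have l0 : 0 ≤ lev θ S a T lam := ENNReal.toReal_nonneg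
  refine ⟨h, mh, h0, hB, c1.trans (mul_le_mul_of_nonneg_right ?_ l0),
    c2.trans (mul_le_mul_of_nonneg_right ?_ l0), c3⟩
  · rw [← mul_pow]
    have e : 2 * (2 * Real.pi) = 4 * Real.pi := by ring
    rw [e]
    exact le_add_of_nonneg_right (by positivity)
  · have hc : (J.card : ℝ) = (4 * N + 1) ^ r := by
      simp only [J, Fintype.card_piFinset, Int.card_Icc, prod_const, card_univ, Fintype.card_fin]
      have : (2 * (N : ℤ) + 1 - -(2 * N)).toNat = 4 * N + 1 := by omega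
      rw [this]; push_cast; ring
    have hN2 : ((N : ℝ) ^ (r / 2 : ℝ)) ^ 2 = (N : ℝ) ^ r := by
      rw [← Real.rpow_natCast, ← Real.rpow_mul (by linarith), ← Real.rpow_natCast]
      congr 1; push_cast; ring
    have p0 : 0 ≤ (N : ℝ) ^ (r / 2 : ℝ) := Real.rpow_nonneg (by linarith) _
    refine le_trans ?_ (mul_le_mul_of_nonneg_right
      (le_add_of_nonneg_left (a := (10 : ℝ) ^ r) (by positivity)) p0)
    rw [Real.sqrt_le_left (by positivity), mul_pow, hN2, hc, ← mul_pow, ← pow_mul, mul_comm r 2,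
      pow_mul, ← mul_pow]
    exact pow_le_pow_left₀ (by positivity) (by linarith) r

end Pool.Agent.P.MP_7211b7_an.NR
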