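import Pool.Agent.P.MP_7211b7_an.NRDefs

/-!
# General flat tori: the counting lemma off the major arcs

Short vectors of the lattice `{(h / N, N (t A h - a))}` span an isotropic subspace for the standard
symplectic form, so they lie in a subspace of dimension at most `r`.
-/

open MeasureTheory Matrix Finset

namespace Pool.Agent.P.MP_7211b7_an.NR

theorem pack' {E : Type} [NormedAddCommGroup E] [NormedSpace ℝ E] [FiniteDimensional ℝ E]
    {ι : Type} (J : Finset ι) (c : ι → E) {δ R : ℝ} (hδ : 0 < δ) (hR : 0 ≤ R)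
    (hsep : ∀ j ∈ J, ∀ k ∈ J, j ≠ k → δ ≤ ‖c j - c k‖) (hin : ∀ j ∈ J, ‖c j‖ ≤ R) :
    (J.card : ℝ) ≤ (1 + 2 * R / δ) ^ Module.finrank ℝ E := by
  borelize E
  let μ : Measure E := Measure.addHaar
  have hd : (J : Set ι).PairwiseDisjoint (fun j => Metric.ball (c j) (δ / 2)) := by
    intro j hj k hk hjk
    refine Metric.ball_disjoint_ball ?_
    rw [dist_eq_norm]
    have := hsep j hj k hk hjk
    linarith
  have hsub : (⋃ j ∈ J, Metric.ball (c j) (δ / 2)) ⊆ Metric.ball 0 (R + δ / 2) := by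
    intro x hx
    simp only [Set.mem_iUnion] at hx
    obtain ⟨j, hj, hx⟩ := hx
    rw [Metric.mem_ball] at hx ⊢
    have h1 := hin j hj
    rw [← dist_zero_right] at h1
    linarith [dist_triangle x (c j) 0]
  have h1 := measure_mono (μ := μ) hsub
  rw [measure_biUnion_finset hd (fun _ _ => measurableSet_ball)] at h1
  have hδ2 : 0 < δ / 2 := by linarith
  simp only [Measure.addHaar_ball_of_pos μ _ hδ2] at h1
  rw [Measure.addHaar_ball_of_pos μ _ (by linarith : 0 < R + δ / 2), Finset.sum_const,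
    nsmul_eq_mul, ← mul_assoc] at h1
  have hv0 : μ (Metric.ball 0 1) ≠ 0 := (Metric.measure_ball_pos _ _ one_pos).ne'
  have hvt : μ (Metric.ball 0 1) ≠ ⊤ := measure_ball_lt_top.ne
  have h2 := (ENNReal.mul_le_mul_iff_left hv0 hvt).1 h1
  rw [← ENNReal.ofReal_natCast, ← ENNReal.ofReal_mul (by positivity),
    ENNReal.ofReal_le_ofReal_iff (by positivity)] at h2
  have e : 1 + 2 * R / δ = (R + δ / 2) / (δ / 2) := by field_simp; ring
  rw [e, div_pow, le_div_iff₀ (by positivity)]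
  exact h2

/-- phase space -/
abbrev Ph (r : ℕ) : Type := (Fin r → ℝ) × (Fin r → ℝ)

/-- the symplectic form -/
noncomputable def om (r : ℕ) : Ph r →ₗ[ℝ] Ph r →ₗ[ℝ] ℝ :=
  LinearMap.mk₂ ℝ (fun p q => p.1 ⬝ᵥ q.2 - q.1 ⬝ᵥ p.2)
    (fun _ _ _ => by simp [add_dotProduct, dotProduct_add]; ring)
    (fun _ _ _ => by simp [smul_dotProduct, dotProduct_smul]; ring)
    (fun _ _ _ => by simp [add_dotProduct, dotProduct_add]; ring)
    (fun _ _ _ => by simp [smul_dotProduct, dotProduct_smul]; ring)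

theorem om_apply {r : ℕ} (p q : Ph r) : om r p q = p.1 ⬝ᵥ q.2 - q.1 ⬝ᵥ p.2 := rfl

theorem finrank_iso {r : ℕ} (s : Set (Ph r)) (hs : ∀ p ∈ s, ∀ q ∈ s, om r p q = 0) :
    Module.finrank ℝ (Submodule.span ℝ s) ≤ r := by
  set W := Submodule.span ℝ s with hW
  have h1 : ∀ p ∈ W, ∀ q ∈ W, om r p q = 0 := by
    have h2 : ∀ q ∈ s, ∀ p ∈ W, om r p q = 0 := fun q hq p hp =>
      (Submodule.span_le (p := LinearMap.ker ((om r).flip q))).2 (fun p hp => hs p hp q hq) hp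
    exact fun p hp q hq =>
      (Submodule.span_le (p := LinearMap.ker (om r p))).2 (fun q hq => h2 q hq p hp) hq
  let J : Ph r ≃ₗ[ℝ] Ph r :=
    (LinearEquiv.prodComm ℝ _ _).trans ((LinearEquiv.refl ℝ _).prodCongr (LinearEquiv.neg ℝ))
  have hJ : ∀ q : Ph r, J q = (q.2, -q.1) := fun q => rfl
  have h2 : Disjoint W (W.map (J : Ph r →ₗ[ℝ] Ph r)) := by
    rw [Submodule.disjoint_def]
    rintro p hp ⟨q, hq, rfl⟩
    have h3 := h1 _ hp q hq
    rw [om_apply, LinearEquiv.coe_coe, hJ, dotProduct_neg, sub_neg_eq_add] at h3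
    have h4 : 0 ≤ q.2 ⬝ᵥ q.2 := Finset.sum_nonneg fun i _ => mul_self_nonneg _
    have h5 : 0 ≤ q.1 ⬝ᵥ q.1 := Finset.sum_nonneg fun i _ => mul_self_nonneg _
    have h6 : q.1 = 0 := dotProduct_self_eq_zero.1 (by linarith)
    have h7 : q.2 = 0 := dotProduct_self_eq_zero.1 (by linarith)
    rw [LinearEquiv.coe_coe, hJ, h6, h7, neg_zero]
    rfl
  have h3 := Submodule.finrank_add_finrank_le_of_disjoint h2
  rw [LinearEquiv.finrank_map_eq, Module.finrank_prod, Module.finrank_fin_fun] at h3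
  omega

/-- the lattice point of `(h, a)` -/
noncomputable def pt {r : ℕ} (A : Mx r) (N : ℕ) (t : ℝ) (h a : Fin r → ℤ) : Ph r :=
  ((N : ℝ)⁻¹ • rv h, (N : ℝ) • ((t / Real.pi) • A *ᵥ rv h - rv a))

theorem pt_sub {r : ℕ} (A : Mx r) (N : ℕ) (t : ℝ) (h a h' a' : Fin r → ℤ) :
    pt A N t h a - pt A N t h' a' = pt A N t (h - h') (a - a') := by
  simp only [pt, rv_sub, Matrix.mulVec_sub, Prod.mk_sub_mk, smul_sub]
  congr 1
  abel

theorem om_pt {r : ℕ} {A : Mx r} (hA : PD A) {N : ℕ} (hN : 1 ≤ N) (t : ℝ)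
    (h a h' a' : Fin r → ℤ) :
    om r (pt A N t h a) (pt A N t h' a') = ((h' ⬝ᵥ a - h ⬝ᵥ a' : ℤ) : ℝ) := by
  have hN0 : (N : ℝ) ≠ 0 := by positivity
  have e : ∀ x y : Fin r → ℤ, ((x ⬝ᵥ y : ℤ) : ℝ) = rv x ⬝ᵥ rv y := fun x y => by
    simp [dotProduct, rv]
  rw [om_apply]
  simp only [pt, smul_dotProduct, dotProduct_smul, dotProduct_sub, smul_eq_mul]
  rw [hA.symm (rv h') (rv h), Int.cast_sub, e, e]
  field_simp
  ring

theorem sep_pt {r : ℕ} {A : Mx r} {N b : ℕ} (hN : 1 ≤ N) {t : ℝ}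
    (ht : t ∉ Mj A b (b / (N : ℝ) ^ 2)) {h : Fin r → ℤ} (hh : h ≠ 0) (a : Fin r → ℤ) :
    (b : ℝ) / N ≤ ‖pt A N t h a‖ := by
  have hN0 : (0 : ℝ) < N := by exact_mod_cast hN
  by_contra hlt
  rw [not_le] at hlt
  refine ht ⟨h, hh, fun i => ?_, a, fun i => ?_⟩
  · have h1 := ((norm_le_pi_norm _ i).trans (norm_fst_le (pt A N t h a))).trans hlt.le
    simp only [pt, Pi.smul_apply, smul_eq_mul, Real.norm_eq_abs, abs_mul, abs_inv,
      abs_of_pos hN0, rv] at h1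
    rw [← div_eq_inv_mul, div_le_div_iff_of_pos_right hN0] at h1
    exact_mod_cast h1
  · have h1 := ((norm_le_pi_norm _ i).trans (norm_snd_le (pt A N t h a))).trans hlt.le
    simp only [pt, Pi.smul_apply, Pi.sub_apply, smul_eq_mul, Real.norm_eq_abs, abs_mul,
      abs_of_pos hN0] at h1
    rw [show t * (A *ᵥ rv h) i / Real.pi = t / Real.pi * (A *ᵥ rv h) i by ring, pow_two,
      ← div_div, le_div_iff₀ hN0, mul_comm]
    exact h1

/-- the points in one small cell -/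
theorem cell_count {r : ℕ} {A : Mx r} (hA : PD A) {N b : ℕ} (hb : 1 ≤ b) (hbN : b ≤ N) {t : ℝ}
    (ht : t ∉ Mj A b (b / (N : ℝ) ^ 2)) (S : Finset (Fin r → ℤ)) (a : (Fin r → ℤ) → Fin r → ℤ)
    (hS : ∀ h ∈ S, ∀ h' ∈ S, ‖pt A N t h (a h) - pt A N t h' (a h')‖ ≤ 1 / (r + 1 : ℝ)) :
    (S.card : ℝ) ≤ (3 * N / b) ^ r := by
  have hN : 1 ≤ N := hb.trans hbN
  have hN0 : (0 : ℝ) < N := by exact_mod_cast hN
  have hb0 : (0 : ℝ) < b := by exact_mod_cast hb
  have hbN' : (b : ℝ) ≤ N := by exact_mod_cast hbN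
  have h3 : (1 : ℝ) ≤ 3 * N / b := by rw [le_div_iff₀ hb0]; linarith
  rcases S.eq_empty_or_nonempty with rfl | ⟨h0, hh0⟩
  · simp only [card_empty, Nat.cast_zero]
    positivity
  let v : (Fin r → ℤ) → Ph r := fun h => pt A N t h (a h) - pt A N t h0 (a h0)
  have hr1 : (0 : ℝ) < r + 1 := by positivity
  have hiso : ∀ p ∈ v '' S, ∀ q ∈ v '' S, om r p q = 0 := by
    rintro _ ⟨h, hh, rfl⟩ _ ⟨h', hh', rfl⟩
    have h1 : |om r (v h) (v h')| < 1 := by
      have n1 := hS h hh h0 hh0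
      have n2 := hS h' hh' h0 hh0
      have k : ∀ p q : Ph r, ‖p‖ ≤ 1 / (r + 1 : ℝ) → ‖q‖ ≤ 1 / (r + 1 : ℝ) →
          |p.1 ⬝ᵥ q.2| ≤ r * (1 / (r + 1 : ℝ) * (1 / (r + 1 : ℝ))) := fun p q hp hq =>
        (abs_dot_le _ _).trans (mul_le_mul_of_nonneg_left (mul_le_mul ((norm_fst_le p).trans hp)
          ((norm_snd_le q).trans hq) (norm_nonneg _) (by positivity)) (Nat.cast_nonneg _))
      rw [om_apply]
      refine (abs_sub _ _).trans_lt ((add_le_add (k _ _ n1 n2) (k _ _ n2 n1)).trans_lt ?_)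
      rw [← two_mul, div_mul_div_comm, ← mul_assoc, ← mul_div_assoc, div_lt_one (by positivity)]
      nlinarith [sq_nonneg (r : ℝ)]
    simp only [v, pt_sub, om_pt hA hN] at h1 ⊢
    have h2 := Int.abs_lt_one_iff.1 (by exact_mod_cast h1)
    exact_mod_cast h2
  have hrank := finrank_iso _ hiso
  classical
  let c : (Fin r → ℤ) → Submodule.span ℝ (v '' S) := fun h =>
    if hh : h ∈ S then ⟨v h, Submodule.subset_span ⟨h, hh, rfl⟩⟩ else 0
  have hc : ∀ h ∈ S, (c h : Ph r) = v h := fun h hh => by simp only [c, dif_pos hh]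
  have h1 := pack' S c (δ := b / N) (R := 1) (by positivity) zero_le_one
    (fun h hh h' hh' hne => by
      rw [← Submodule.norm_coe, Submodule.coe_sub, hc h hh, hc h' hh']
      simp only [v, sub_sub_sub_cancel_right, pt_sub]
      exact sep_pt hN ht (sub_ne_zero.2 hne) _)
    (fun h hh => by
      rw [← Submodule.norm_coe, hc h hh]
      refine (hS h hh h0 hh0).trans ?_
      rw [div_le_one hr1]
      linarith [Nat.cast_nonneg (α := ℝ) r])
  refine h1.trans ((pow_le_pow_left₀ (by positivity) ?_ _).trans (pow_le_pow_right₀ h3 hrank))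
  rw [mul_one, div_div_eq_mul_div, le_div_iff₀ hb0, add_mul, div_mul_cancel₀ _ hb0.ne']
  linarith

theorem card_Icc_le {v : ℝ} (hv : 1 ≤ v) :
    ((Finset.Icc (-⌈v⌉) ⌈v⌉).card : ℝ) ≤ 5 * v := by
  have h1 : (0 : ℤ) ≤ ⌈v⌉ := Int.ceil_nonneg (by linarith)
  have h2 : (((⌈v⌉ + 1 - -⌈v⌉).toNat : ℤ) : ℝ) = 2 * (⌈v⌉ : ℝ) + 1 := by
    rw [Int.toNat_of_nonneg (by omega)]
    push_cast
    ring
  rw [Int.card_Icc, ← Int.cast_natCast, h2]
  linarith [Int.ceil_lt_add_one v]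

theorem floor_mem {x v : ℝ} (h : |x| ≤ v) : ⌊x⌋ ∈ Finset.Icc (-⌈v⌉) ⌈v⌉ := by
  obtain ⟨h1, h2⟩ := abs_le.1 h
  rw [Finset.mem_Icc, ← Int.floor_neg]
  exact ⟨Int.floor_le_floor h1, (Int.floor_le_ceil x).trans (Int.ceil_le_ceil h2)⟩

open Classical in
/-- the counting lemma -/
theorem count {r : ℕ} {A : Mx r} (hA : PD A) {N b : ℕ} (hb : 1 ≤ b) (hbN : b ≤ N) {t : ℝ}
    (ht : t ∉ Mj A b (b / (N : ℝ) ^ 2)) (u : Fin r → ℝ) (hu : ∀ i, 1 ≤ u i) :
    (((Fintype.piFinset fun _ : Fin r => Finset.Icc (-(2 * N : ℤ)) (2 * N)).filter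
      (fun h => ∀ i, ∃ a : ℤ, |t * (A *ᵥ rv h) i / Real.pi - a| ≤ u i / N)).card : ℝ)
      ≤ ∏ i, (150 * (r + 1 : ℝ) ^ 2 * N / b * u i) := by
  have hN : 1 ≤ N := hb.trans hbN
  have hN0 : (0 : ℝ) < N := by exact_mod_cast hN
  have hb0 : (0 : ℝ) < b := by exact_mod_cast hb
  have hr1 : (1 : ℝ) ≤ r + 1 := by linarith [Nat.cast_nonneg (α := ℝ) r]
  set S := (Fintype.piFinset fun _ : Fin r => Finset.Icc (-(2 * N : ℤ)) (2 * N)).filter
      (fun h => ∀ i, ∃ a : ℤ, |t * (A *ᵥ rv h) i / Real.pi - a| ≤ u i / N) with hS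
  have hex : ∀ h : Fin r → ℤ, ∃ a : Fin r → ℤ, h ∈ S →
      ∀ i, |t * (A *ᵥ rv h) i / Real.pi - a i| ≤ u i / N := fun h => by
    by_cases hh : h ∈ S
    · choose a ha using (Finset.mem_filter.1 hh).2
      exact ⟨a, fun _ => ha⟩
    · exact ⟨0, fun h' => absurd h' hh⟩
  choose a ha using hex
  let cl : (Fin r → ℤ) → (Fin r → ℤ) × (Fin r → ℤ) := fun h =>
    (fun i => ⌊(pt A N t h (a h)).1 i * (r + 1)⌋, fun i => ⌊(pt A N t h (a h)).2 i * (r + 1)⌋)
  let C : Finset ((Fin r → ℤ) × (Fin r → ℤ)) :=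
    (Fintype.piFinset fun _ => Finset.Icc (-⌈2 * (r + 1 : ℝ)⌉) ⌈2 * (r + 1 : ℝ)⌉) ×ˢ
      (Fintype.piFinset fun i => Finset.Icc (-⌈u i * (r + 1 : ℝ)⌉) ⌈u i * (r + 1 : ℝ)⌉)
  have hmaps : ∀ h ∈ S, cl h ∈ C := fun h hh => by
    refine Finset.mem_product.2 ⟨Fintype.mem_piFinset.2 fun i => floor_mem ?_,
      Fintype.mem_piFinset.2 fun i => floor_mem ?_⟩
    · have h1 := Finset.mem_Icc.1 (Fintype.mem_piFinset.1 (Finset.mem_filter.1 hh).1 i)
      have h2 : |(h i : ℝ)| ≤ 2 * N := by exact_mod_cast abs_le.2 h1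
      simp only [pt, Pi.smul_apply, smul_eq_mul, abs_mul, abs_inv, abs_of_pos hN0, rv]
      rw [abs_of_nonneg (by linarith : (0 : ℝ) ≤ r + 1)]
      refine mul_le_mul_of_nonneg_right ?_ (by linarith)
      rwa [← div_eq_inv_mul, div_le_iff₀ hN0]
    · have h1 := ha h hh i
      simp only [pt, Pi.smul_apply, Pi.sub_apply, smul_eq_mul, abs_mul, abs_of_pos hN0]
      rw [abs_of_nonneg (by linarith : (0 : ℝ) ≤ r + 1)]
      refine mul_le_mul_of_nonneg_right ?_ (by linarith)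
      rw [show t * (A *ᵥ rv h) i / Real.pi = t / Real.pi * (A *ᵥ rv h) i by ring,
        le_div_iff₀ hN0, mul_comm] at h1
      exact h1
  have hfl : ∀ x y : ℝ, ⌊x * (r + 1)⌋ = ⌊y * (r + 1)⌋ → ‖x - y‖ ≤ 1 / (r + 1 : ℝ) := fun x y h => by
    have h1 := Count.floor_close h
    rw [← sub_mul, abs_mul, abs_of_nonneg (by linarith : (0 : ℝ) ≤ r + 1)] at h1
    rwa [Real.norm_eq_abs, le_div_iff₀ (by linarith)]
  have hfib : ∀ c ∈ C, ((S.filter fun h => cl h = c).card : ℝ) ≤ (3 * N / b) ^ r := fun c _ => by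
    refine cell_count hA hb hbN ht _ a fun h hh h' hh' => ?_
    have e := (Finset.mem_filter.1 hh).2.trans (Finset.mem_filter.1 hh').2.symm
    rw [Prod.norm_def]
    refine max_le ((pi_norm_le_iff_of_nonneg (by positivity)).2 fun i => ?_)
      ((pi_norm_le_iff_of_nonneg (by positivity)).2 fun i => ?_)
    · exact hfl _ _ (congrFun (congrArg Prod.fst e) i)
    · exact hfl _ _ (congrFun (congrArg Prod.snd e) i)
  rw [Finset.card_eq_sum_card_fiberwise hmaps]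
  push_cast
  refine (Finset.sum_le_sum hfib).trans ?_
  rw [Finset.sum_const, nsmul_eq_mul, Finset.card_product, Fintype.card_piFinset,
    Fintype.card_piFinset]
  push_cast
  rw [← Finset.prod_mul_distrib, ← Fin.prod_const r (3 * N / b : ℝ),
    ← Finset.prod_mul_distrib]
  refine Finset.prod_le_prod (fun i _ => by positivity) fun i _ => ?_
  have h1 := card_Icc_le (v := 2 * (r + 1 : ℝ)) (by linarith)
  have h2 := card_Icc_le (v := u i * (r + 1 : ℝ)) (one_le_mul_of_one_le_of_one_le (hu i) hr1)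
  refine (mul_le_mul_of_nonneg_right (mul_le_mul h1 h2 (by positivity) (by positivity))
    (by positivity)).trans (le_of_eq ?_)
  ring

end Pool.Agent.P.MP_7211b7_an.NR
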