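import Pool.Agent.P.MP_7211b7_an.GlueAB

/-!
# MP_7211b7_an, general flat tori: definitions

The same objects as in `DefsB`, for an arbitrary energy function `θ` on `ℤ^r`; the energy of a
flat torus is `qf A` for a positive definite symmetric matrix `A`.
-/

open MeasureTheory Matrix
open scoped ENNReal

namespace Pool.Agent.P.MP_7211b7_an.NR

/-- energy functions -/
abbrev Qf (r : ℕ) : Type := (Fin r → ℤ) → ℝ

/-- real square matrices -/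
abbrev Mx (r : ℕ) : Type := Matrix (Fin r) (Fin r) ℝ

/-- an integer vector as a real vector -/
def rv {r : ℕ} (n : Fin r → ℤ) : Fin r → ℝ := fun i => (n i : ℝ)

/-- the quadratic form of a matrix -/
def qf {r : ℕ} (A : Mx r) : Qf r := fun n => rv n ⬝ᵥ A *ᵥ rv n

/-- symmetric positive definite -/
structure PD {r : ℕ} (A : Mx r) : Prop where
  symm : ∀ x y : Fin r → ℝ, x ⬝ᵥ A *ᵥ y = y ⬝ᵥ A *ᵥ x
  pos : ∀ x : Fin r → ℝ, x ≠ 0 → 0 < x ⬝ᵥ A *ᵥ x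

/-- the flow with energy `θ` on `ℝ^r / (2π ℤ)^r`; `z = (t, x)` -/
noncomputable def tor {r : ℕ} (θ : Qf r) (S : Finset (Fin r → ℤ)) (a : (Fin r → ℤ) → ℂ)
    (z : ℝ × (Fin r → ℝ)) : ℂ :=
  ∑ n ∈ S, a n * Complex.exp (Complex.I * ((∑ i, z.2 i * (n i : ℝ) - z.1 * θ n : ℝ) : ℂ))

/-- Strichartz bound with loss `N^e` on `[-T,T]` -/
def TorBd (r : ℕ) (θ : Qf r) (p T e : ℝ) : Prop :=
  ∃ C : ℝ, 0 < C ∧ ∀ (N : ℕ) (S : Finset (Fin r → ℤ)) (a : (Fin r → ℤ) → ℂ), 1 ≤ N →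
    (∀ n ∈ S, ∀ i, |n i| ≤ N) →
      ∫ z in dom r T, ‖tor θ S a z‖ ^ p ≤ (C * (N : ℝ) ^ e) ^ p * (∑ n ∈ S, ‖a n‖ ^ 2) ^ (p / 2)

/-- scale invariant Strichartz estimates on the torus, whole range -/
def TorThm (r : ℕ) (θ : Qf r) : Prop :=
  ∀ p T : ℝ, 4 < r * (p - 2) → 0 < T → TorBd r θ p T (r / 2 - (r + 2) / p)

/-- measure of a level set -/
noncomputable def lev {r : ℕ} (θ : Qf r) (S : Finset (Fin r → ℤ)) (a : (Fin r → ℤ) → ℂ)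
    (T lam : ℝ) : ℝ :=
  (volume (dom r T ∩ {z | lam ≤ ‖tor θ S a z‖})).toReal

/-- large level sets -/
def LevelBd (r : ℕ) (θ : Qf r) (q T : ℝ) : Prop :=
  ∃ η C : ℝ, 0 < η ∧ 0 < C ∧ ∀ (N : ℕ) (S : Finset (Fin r → ℤ)) (a : (Fin r → ℤ) → ℂ) (B : ℝ),
    1 ≤ N → (∀ n ∈ S, ∀ i, |n i| ≤ N) → ∑ n ∈ S, ‖a n‖ ^ 2 ≤ 1 → 0 < B → B ≤ (N : ℝ) ^ η →
      lev θ S a T ((N : ℝ) ^ (r / 2 : ℝ) / B) ≤ C * (N : ℝ) ^ (-(r + 2 : ℝ)) * B ^ q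

/-- the Weyl sum with product triangular weight -/
noncomputable def ker {r : ℕ} (θ : Qf r) (N : ℕ) (t : ℝ) (x : Fin r → ℝ) : ℂ :=
  ∑ n ∈ Fintype.piFinset (fun _ : Fin r => Finset.Icc (-(2 * N : ℤ)) (2 * N)),
    ((∏ i, (2 - |(n i : ℝ)| / N) : ℝ) : ℂ) *
      Complex.exp (Complex.I * ((∑ i, x i * (n i : ℝ) - t * θ n : ℝ) : ℂ))

/-- major arcs of a matrix -/
def Mj {r : ℕ} (A : Mx r) (b : ℕ) (ε : ℝ) : Set ℝ :=
  {t | ∃ h : Fin r → ℤ, h ≠ 0 ∧ (∀ i, |h i| ≤ b) ∧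
    ∃ m : Fin r → ℤ, ∀ i, |t * (A *ᵥ rv h) i / Real.pi - m i| ≤ ε}

theorem continuous_tor {r : ℕ} (θ : Qf r) (S : Finset (Fin r → ℤ)) (a : (Fin r → ℤ) → ℂ) :
    Continuous (tor θ S a) := by
  unfold tor; fun_prop

theorem measurableSet_Mj {r : ℕ} (A : Mx r) (b : ℕ) (ε : ℝ) : MeasurableSet (Mj A b ε) := by
  have : Mj A b ε = ⋃ h : Fin r → ℤ, ⋃ m : Fin r → ℤ, {_t : ℝ | h ≠ 0 ∧ ∀ i, |h i| ≤ b} ∩
      ⋂ i, {t : ℝ | |t * (A *ᵥ rv h) i / Real.pi - m i| ≤ ε} := by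
    ext t
    simp only [Mj, Set.mem_ofPred_eq, Set.mem_iUnion, Set.mem_iInter, Set.mem_inter_iff]
    constructor
    · rintro ⟨h, h1, h2, m, h3⟩; exact ⟨h, m, ⟨h1, h2⟩, h3⟩
    · rintro ⟨h, m, ⟨h1, h2⟩, h3⟩; exact ⟨h, h1, h2, m, h3⟩
  rw [this]
  refine MeasurableSet.iUnion fun h => MeasurableSet.iUnion fun m =>
    (MeasurableSet.const _).inter (MeasurableSet.iInter fun i => ?_)
  have hm : Measurable (fun t : ℝ => |t * (A *ᵥ rv h) i / Real.pi - m i|) := by fun_prop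
  exact measurableSet_le hm measurable_const

theorem rv_sub {r : ℕ} (n m : Fin r → ℤ) : rv (n - m) = rv n - rv m := by
  ext i; simp [rv]

theorem rv_add {r : ℕ} (n m : Fin r → ℤ) : rv (n + m) = rv n + rv m := by
  ext i; simp [rv]

/-- coercivity and boundedness in the sup norm -/
theorem PD.bounds {r : ℕ} {A : Mx r} (hA : PD A) : ∃ c K : ℝ, 0 < c ∧ 1 ≤ K ∧
    (∀ x : Fin r → ℝ, c * ‖x‖ ^ 2 ≤ x ⬝ᵥ A *ᵥ x) ∧ (∀ x : Fin r → ℝ, ‖A *ᵥ x‖ ≤ K * ‖x‖) := by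
  obtain ⟨K, hK⟩ : ∃ K : ℝ, ∀ x : Fin r → ℝ, ‖A *ᵥ x‖ ≤ K * ‖x‖ :=
    ⟨_, (LinearMap.toContinuousLinearMap (Matrix.mulVecLin A)).le_opNorm⟩
  have hK' : ∀ x : Fin r → ℝ, ‖A *ᵥ x‖ ≤ max K 1 * ‖x‖ := fun x =>
    (hK x).trans (mul_le_mul_of_nonneg_right (le_max_left _ _) (norm_nonneg _))
  have hc : Continuous fun x : Fin r → ℝ => x ⬝ᵥ A *ᵥ x := by fun_prop
  rcases (Metric.sphere (0 : Fin r → ℝ) 1).eq_empty_or_nonempty with h0 | h0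
  · refine ⟨1, max K 1, one_pos, le_max_right _ _, fun x => ?_, hK'⟩
    by_cases hx : x = 0
    · simp [hx]
    · have : ‖x‖⁻¹ • x ∈ Metric.sphere (0 : Fin r → ℝ) 1 := by
        simp [norm_smul, hx]
      rw [h0] at this
      exact absurd this (Set.notMem_empty _)
  · obtain ⟨y, hy, hmin⟩ := (isCompact_sphere (0 : Fin r → ℝ) 1).exists_isMinOn h0 hc.continuousOn
    have hy0 : y ≠ 0 := by
      rintro rfl
      simp at hy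
    refine ⟨y ⬝ᵥ A *ᵥ y, max K 1, hA.pos y hy0, le_max_right _ _, fun x => ?_, hK'⟩
    by_cases hx : x = 0
    · simp [hx]
    · have hn : 0 < ‖x‖ := norm_pos_iff.2 hx
      have h1 : ‖x‖⁻¹ • x ∈ Metric.sphere (0 : Fin r → ℝ) 1 := by
        simp [norm_smul, hx]
      have h2 : y ⬝ᵥ A *ᵥ y ≤ (‖x‖⁻¹ • x) ⬝ᵥ A *ᵥ (‖x‖⁻¹ • x) := hmin h1
      rw [Matrix.mulVec_smul, smul_dotProduct, dotProduct_smul, smul_eq_mul, smul_eq_mul] at h2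
      have h3 := mul_le_mul_of_nonneg_right h2 (sq_nonneg ‖x‖)
      refine h3.trans (le_of_eq ?_)
      field_simp

theorem abs_dot_le {r : ℕ} (x y : Fin r → ℝ) : |x ⬝ᵥ y| ≤ r * (‖x‖ * ‖y‖) := by
  refine (Finset.abs_sum_le_sum_abs _ _).trans ?_
  calc ∑ i, |x i * y i| ≤ ∑ _i : Fin r, ‖x‖ * ‖y‖ := Finset.sum_le_sum fun i _ => by
        rw [abs_mul]
        exact mul_le_mul (norm_le_pi_norm x i) (norm_le_pi_norm y i) (abs_nonneg _) (norm_nonneg _)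
    _ = _ := by simp

end Pool.Agent.P.MP_7211b7_an.NR
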