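import Pool.Agent.P.MP_7211b7_an.NRTrans

/-!
# MP_7211b7_an, general flat tori: from finite sums to the Strichartz estimate
-/

open MeasureTheory ComplexConjugate Complex Filter Topology
open scoped ENNReal Matrix

set_option linter.unusedSectionVars false

namespace Pool.Agent.P.MP_7211b7_an.NR

variable {G : Type} [Group G] [TopologicalSpace G] [IsTopologicalGroup G] [CompactSpace G]
  [T2Space G] [SecondCountableTopology G] [MeasurableSpace G] [BorelSpace G] {n : ℕ}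

/-- the highest weight data diagonalise the Laplacian -/
structure Spec (ρ : G →* Mat n) {μ : Measure G} {d r : ℕ} (b : Fin d → Mat n) (H : HW μ r)
    (θ : Qf r) (ℓ : Fin r → ℝ) : Prop where
  eig : ∀ l ∈ H.Λ, ∀ f ∈ span2 (H.φ l), IsEigen ρ b (En θ ℓ l) f
  dense : Dense (Submodule.span ℂ {f | ∃ l ∈ H.Λ, f ∈ span2 (H.φ l)} : Set C(G, ℂ))
  nonneg : ∀ l ∈ H.Λ, 0 ≤ En θ ℓ l
  low : ∃ C : ℝ, 0 < C ∧ ∀ l ∈ H.Λ, (1 + ‖l‖) ^ 2 ≤ C * (1 + En θ ℓ l)

/-- identification of the spectral projections -/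
structure FIN1 (ρ : G →* Mat n) (μ : Measure G) [Hr μ] {d r : ℕ} (b : Fin d → Mat n) (H : HW μ r)
    (θ : Qf r) (ℓ : Fin r → ℝ) : Prop where
  rep : ∀ (E : ℝ) (f : Lp ℂ 2 μ), ∃ (S : Finset (Fin r → ℤ)) (g : (Fin r → ℤ) → C(G, ℂ)),
    (∀ l ∈ S, l ∈ H.Λ ∧ En θ ℓ l = E ∧ g l ∈ span2 (H.φ l)) ∧
      proj μ ρ b E f = ContinuousMap.toLp 2 μ ℂ (∑ l ∈ S, g l)
  orth : ∀ E E' : ℝ, E ≠ E' → eigSp μ ρ b E ⟂ eigSp μ ρ b E'
  sum : ∀ f : Lp ℂ 2 μ, HasSum (fun E : ℝ => proj μ ρ b E f) f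

variable {ρ : G →* Mat n} {d r : ℕ} {b : Fin d → Mat n} {μ : Measure G} [Hr μ]

namespace F1

open LFin1

theorem level_finite {H : HW μ r} {θ : Qf r} {ℓ : Fin r → ℝ} (hS : Spec ρ b H θ ℓ) (E : ℝ) :
    {l | l ∈ H.Λ ∧ En θ ℓ l = E}.Finite := by
  obtain ⟨C, _, hC⟩ := hS.low
  obtain ⟨N, hN⟩ := exists_nat_ge (C * (1 + E))
  refine (Set.Finite.pi' (fun _ : Fin r => Set.finite_Icc (-(N : ℤ)) N)).subset ?_
  rintro l ⟨hl, hE⟩ i
  have h1 := hC l hl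
  rw [hE] at h1
  have h2 : ‖l i‖ ≤ ‖l‖ := norm_le_pi_norm l i
  have h3 : 0 ≤ ‖l‖ := norm_nonneg l
  have h4 : ‖l i‖ ≤ N := by nlinarith
  rw [Int.norm_eq_abs] at h4
  have h5 : |l i| ≤ (N : ℤ) := by exact_mod_cast h4
  exact abs_le.1 h5

/-- the weights of energy `E` -/
noncomputable def lev {H : HW μ r} {θ : Qf r} {ℓ : Fin r → ℝ} (hS : Spec ρ b H θ ℓ) (E : ℝ) :
    Finset (Fin r → ℤ) := (level_finite hS E).toFinset

theorem mem_lev {H : HW μ r} {θ : Qf r} {ℓ : Fin r → ℝ} (hS : Spec ρ b H θ ℓ) {E : ℝ} {l : Fin r → ℤ} :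
    l ∈ lev hS E ↔ l ∈ H.Λ ∧ En θ ℓ l = E := by
  simp [lev]

/-- the span of the matrix coefficients of energy `E` -/
noncomputable def WE {H : HW μ r} {θ : Qf r} {ℓ : Fin r → ℝ} (hS : Spec ρ b H θ ℓ) (E : ℝ) :
    Submodule ℂ C(G, ℂ) := ⨆ l ∈ lev hS E, span2 (H.φ l)

/-- the same space inside `L²` -/
noncomputable def VE {H : HW μ r} {θ : Qf r} {ℓ : Fin r → ℝ} (hS : Spec ρ b H θ ℓ) (E : ℝ) :
    Submodule ℂ (Lp ℂ 2 μ) := (WE hS E).map (ContinuousMap.toLp 2 μ ℂ).toLinearMap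

theorem fin_WE {H : HW μ r} {θ : Qf r} {ℓ : Fin r → ℝ} (hS : Spec ρ b H θ ℓ) (E : ℝ) :
    FiniteDimensional ℂ (WE hS E) := by
  unfold WE
  rw [iSup_subtype']
  have : ∀ l : lev hS E, FiniteDimensional ℂ (span2 (H.φ l)) := fun l =>
    H.fin l ((mem_lev hS).1 l.2).1
  infer_instance

theorem fin_VE {H : HW μ r} {θ : Qf r} {ℓ : Fin r → ℝ} (hS : Spec ρ b H θ ℓ) (E : ℝ) :
    FiniteDimensional ℂ (VE hS E) := by
  have := fin_WE hS E
  unfold VE
  infer_instance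

theorem VE_le {H : HW μ r} {θ : Qf r} {ℓ : Fin r → ℝ} (hS : Spec ρ b H θ ℓ) (E : ℝ) :
    VE hS E ≤ eigSp μ ρ b E := by
  unfold VE WE
  rw [Submodule.map_le_iff_le_comap]
  refine iSup₂_le fun l hl f hf => ?_
  obtain ⟨h1, h2⟩ := (mem_lev hS).1 hl
  refine Submodule.le_topologicalClosure _ (Submodule.subset_span ⟨f, ?_, rfl⟩)
  rw [← h2]
  exact hS.eig l h1 f hf

theorem VE_dense {H : HW μ r} {θ : Qf r} {ℓ : Fin r → ℝ} (hS : Spec ρ b H θ ℓ) :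
    (⨆ E, VE hS E).topologicalClosure = ⊤ := by
  rw [← Submodule.dense_iff_topologicalClosure_eq_top]
  have h1 : DenseRange (ContinuousMap.toLp 2 μ ℂ : C(G, ℂ) →L[ℂ] Lp ℂ 2 μ) :=
    ContinuousMap.toLp_denseRange ℂ μ ℂ (by norm_num)
  refine (h1.dense_image (ContinuousMap.toLp 2 μ ℂ).continuous hS.dense).mono ?_
  rintro _ ⟨f, hf, rfl⟩
  have h2 : Submodule.span ℂ {f | ∃ l ∈ H.Λ, f ∈ span2 (H.φ l)} ≤
      (⨆ E, VE hS E).comap (ContinuousMap.toLp 2 μ ℂ).toLinearMap := by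
    rw [Submodule.span_le]
    rintro h ⟨l, hl, hh⟩
    refine Submodule.mem_iSup_of_mem (En θ ℓ l) (Submodule.mem_map_of_mem ?_)
    exact Submodule.mem_iSup_of_mem l
      (Submodule.mem_iSup_of_mem ((mem_lev hS).2 ⟨hl, rfl⟩) hh)
  exact h2 hf

theorem le_VE {H : HW μ r} {θ : Qf r} {ℓ : Fin r → ℝ} (ho : EIGO ρ μ b) (hS : Spec ρ b H θ ℓ) (E : ℝ) :
    eigSp μ ρ b E ≤ VE hS E := by
  intro x hx
  have := fin_VE hS E
  have h1 : x - (VE hS E).starProjection x ∈ (⨆ E', VE hS E')ᗮ := by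
    rw [← Submodule.iInf_orthogonal, Submodule.mem_iInf]
    intro E'
    by_cases hE : E = E'
    · subst hE
      exact Submodule.sub_starProjection_mem_orthogonal x
    · have h2 : x - (VE hS E).starProjection x ∈ eigSp μ ρ b E :=
        Submodule.sub_mem _ hx (VE_le hS E (Submodule.starProjection_apply_mem _ x))
      exact ((eig_orth μ ho hE).mono_right (VE_le hS E')).le h2
  rw [Submodule.topologicalClosure_eq_top_iff.1 (VE_dense hS), Submodule.mem_bot,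
    sub_eq_zero] at h1
  rw [h1]
  exact Submodule.starProjection_apply_mem _ x

end F1

variable (μ)

theorem fin1_ok (H : HW μ r) (θ : Qf r) (ℓ : Fin r → ℝ) :
    EIGO ρ μ b → Spec ρ b H θ ℓ → FIN1 ρ μ b H θ ℓ := by
  intro ho hS
  have : ∀ E, CompleteSpace (eigSp μ ρ b E) := fun E =>
    (Submodule.isClosed_topologicalClosure _).completeSpace_coe
  refine ⟨fun E f => ?_, fun E E' hE => LFin1.eig_orth μ ho hE, fun f => ?_⟩
  · have h1 : proj μ ρ b E f ∈ F1.VE hS E :=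
      F1.le_VE ho hS E (Submodule.starProjection_apply_mem _ f)
    obtain ⟨w, hw, h2⟩ := h1
    obtain ⟨g, hg⟩ := (Submodule.mem_iSup_finset_iff_exists_sum _ _).1 hw
    refine ⟨F1.lev hS E, fun l => g l, fun l hl => ?_, ?_⟩
    · obtain ⟨h3, h4⟩ := (F1.mem_lev hS).1 hl
      exact ⟨h3, h4, (g l).2⟩
    · rw [hg]
      exact h2.symm
  · refine LFin1.hasSum_proj (fun E => eigSp μ ρ b E) (fun E E' hE => LFin1.eig_orth μ ho hE) ?_ f
    rw [← F1.VE_dense hS]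
    exact Submodule.topologicalClosure_mono (iSup_mono fun E => F1.VE_le hS E)

namespace F2

open LFin2

lemma hasSum_flow {H : HW μ r} {θ : Qf r} {ℓ : Fin r → ℝ} (h : FIN1 ρ μ b H θ ℓ) (s : ℝ) (f : Lp ℂ 2 μ) :
    HasSum (fun E : ℝ => Complex.exp (-(I * ((s * E : ℝ) : ℂ))) • proj μ ρ b E f)
      (flow μ ρ b s f) := by
  have hO := OrthogonalFamily.of_pairwise (V := eigSp μ ρ b) fun E E' hE => h.orth E E' hE
  have h1 := (hO.summable_iff_norm_sq_summable fun E => ⟨_, proj_mem μ E f⟩).1 (h.sum f).summable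
  have h2 := (hO.summable_iff_norm_sq_summable fun E =>
    ⟨Complex.exp (-(I * ((s * E : ℝ) : ℂ))) • proj μ ρ b E f,
      Submodule.smul_mem _ _ (proj_mem μ E f)⟩).2 (h1.congr fun E => by
        have h3 : ‖Complex.exp (-(I * ((s * E : ℝ) : ℂ)))‖ = 1 := by
          rw [Complex.norm_exp]
          simp
        simp only [Submodule.coe_norm, norm_smul, h3, one_mul])
  exact h2.hasSum

lemma fin_est {H : HW μ r} {θ : Qf r} {ℓ : Fin r → ℝ} {p T s C C' : ℝ} (hP : PROJ μ H)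
    (h0 : ∀ l ∈ H.Λ, 0 ≤ En θ ℓ l) (hC' : 0 < C')
    (hlow : ∀ l ∈ H.Λ, (1 + ‖l‖) ^ 2 ≤ C' * (1 + En θ ℓ l)) (hp : 0 < p) (hs : 0 ≤ s) (hC : 0 < C)
    (hT : ∀ (S : Finset (Fin r → ℤ)) (f : (Fin r → ℤ) → C(G, ℂ)),
      (∀ l ∈ S, l ∈ H.Λ) → (∀ l ∈ S, f l ∈ span2 (H.φ l)) →
        ∫ z, ‖ev S (En θ ℓ) f z‖ ^ p ∂(stm μ T)
          ≤ C * (∑ l ∈ S, (1 + ‖l‖) ^ (2 * s) * n2 μ (f l)) ^ (p / 2))
    (f : Lp ℂ 2 μ) (S : ℝ → Finset (Fin r → ℤ)) (g : ℝ → (Fin r → ℤ) → C(G, ℂ))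
    (h1 : ∀ E, ∀ l ∈ S E, l ∈ H.Λ ∧ En θ ℓ l = E ∧ g E l ∈ span2 (H.φ l))
    (h2 : ∀ E, proj μ ρ b E f = ContinuousMap.toLp 2 μ ℂ (∑ l ∈ S E, g E l)) (F : Finset ℝ) :
    ∃ W : ℝ → ℝ≥0∞, Measurable W ∧ (∀ τ : ℝ, eLpNorm
      (∑ E ∈ F, Complex.exp (-(I * ((τ * E : ℝ) : ℂ))) • proj μ ρ b E f : Lp ℂ 2 μ)
        (ENNReal.ofReal p) μ ^ p = W τ) ∧ ∫⁻ τ in Set.Icc (-T) T, W τ ≤
          ENNReal.ofReal C * (ENNReal.ofReal (C' ^ s) * hsSq μ ρ b s f) ^ (p / 2) := by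
  classical
  have hd : (F : Set ℝ).PairwiseDisjoint S := fun E _ E' _ hE =>
    Finset.disjoint_left.2 fun l h3 h4 => hE ((h1 E l h3).2.1.symm.trans (h1 E' l h4).2.1)
  let w : ℝ × G → ℝ := fun z => ‖ev (F.biUnion S) (En θ ℓ) (fun l => g (En θ ℓ l) l) z‖ ^ p
  have hw : Continuous w := (continuous_ev _ _ _).norm.rpow_const fun _ => Or.inr hp.le
  have hm : Measurable fun z => ENNReal.ofReal (w z) := hw.measurable.ennreal_ofReal
  refine ⟨fun τ => ∫⁻ x, ENNReal.ofReal (w (τ, x)) ∂μ, hm.lintegral_prod_right', fun τ => ?_, ?_⟩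
  · have h3 : (∑ E ∈ F, Complex.exp (-(I * ((τ * E : ℝ) : ℂ))) • proj μ ρ b E f : Lp ℂ 2 μ) =
        ContinuousMap.toLp 2 μ ℂ (∑ l ∈ F.biUnion S,
          Complex.exp (-(I * ((τ * En θ ℓ l : ℝ) : ℂ))) • g (En θ ℓ l) l) := by
      rw [Finset.sum_biUnion hd, map_sum]
      refine Finset.sum_congr rfl fun E _ => ?_
      rw [h2, ← map_smul, Finset.smul_sum]
      congr 1
      exact Finset.sum_congr rfl fun l hl => by rw [(h1 E l hl).2.1]
    rw [h3, elp_eq μ hp]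
    refine lintegral_congr fun x => ?_
    simp only [w, ev, ContinuousMap.coe_sum, Finset.sum_apply, ContinuousMap.smul_apply,
      smul_eq_mul]
  · rw [← lintegral_prod _ hm.aemeasurable]
    change ∫⁻ z, ENNReal.ofReal (w z) ∂(stm μ T) ≤ _
    rw [← ofReal_integral_eq_lintegral_ofReal (integrable_stm μ T hw)
      (Eventually.of_forall fun z => Real.rpow_nonneg (norm_nonneg _) _)]
    have hn : ∀ h : C(G, ℂ), 0 ≤ n2 μ h := fun h => by
      rw [n2_eq_norm_sq]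
      positivity
    have h3 := hT (F.biUnion S) (fun l => g (En θ ℓ l) l)
      (fun l hl => by
        obtain ⟨E, -, hE⟩ := Finset.mem_biUnion.1 hl
        exact (h1 E l hE).1)
      (fun l hl => by
        obtain ⟨E, -, hE⟩ := Finset.mem_biUnion.1 hl
        rw [(h1 E l hE).2.1]
        exact (h1 E l hE).2.2)
    refine (ENNReal.ofReal_le_ofReal h3).trans ?_
    rw [ENNReal.ofReal_mul hC.le, ← ENNReal.ofReal_rpow_of_nonneg
      (Finset.sum_nonneg fun l _ => mul_nonneg (by positivity) (hn _)) (by positivity)]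
    refine mul_le_mul_right (ENNReal.rpow_le_rpow ?_ (by positivity)) _
    rw [Finset.sum_biUnion hd, ENNReal.ofReal_sum_of_nonneg fun E _ =>
      Finset.sum_nonneg fun l _ => mul_nonneg (by positivity) (hn _)]
    refine le_trans ?_ (mul_le_mul_right (ENNReal.sum_le_tsum F) _)
    rw [Finset.mul_sum]
    refine Finset.sum_le_sum fun E _ => ?_
    have h4 : ‖proj μ ρ b E f‖ ^ 2 = ∑ l ∈ S E, n2 μ (g E l) := by
      rw [h2, map_sum, norm_sq_sum]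
      · exact Finset.sum_congr rfl fun l _ => (n2_eq_norm_sq μ _).symm
      · intro i hi j hj hij
        rw [← ip_eq_inner]
        exact hP.orthW j (h1 E j hj).1 i (h1 E i hi).1 hij.symm _ (h1 E j hj).2.2 _
          (h1 E i hi).2.2
    have h5 : ∑ l ∈ S E, (1 + ‖l‖) ^ (2 * s) * n2 μ (g (En θ ℓ l) l)
        ≤ C' ^ s * ((1 + E) ^ s * ‖proj μ ρ b E f‖ ^ 2) := by
      rw [h4, Finset.mul_sum, Finset.mul_sum]
      refine Finset.sum_le_sum fun l hl => ?_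
      obtain ⟨h6, h7, -⟩ := h1 E l hl
      have h8 := h0 l h6
      have h9 := hlow l h6
      rw [h7] at h8 h9 ⊢
      rw [← mul_assoc, ← Real.mul_rpow hC'.le (by positivity), Real.rpow_mul (by positivity),
        Real.rpow_two]
      exact mul_le_mul_of_nonneg_right (Real.rpow_le_rpow (by positivity) h9 hs) (hn _)
    refine (ENNReal.ofReal_le_ofReal h5).trans ?_
    rw [ENNReal.ofReal_mul (by positivity), ENNReal.ofReal_mul' (by positivity),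
      ENNReal.ofReal_pow (norm_nonneg _), ofReal_norm]

end F2

theorem fin2_ok (H : HW μ r) (θ : Qf r) (ℓ : Fin r → ℝ) (a₀ a₁ p T : ℝ) : PROJ μ H → Spec ρ b H θ ℓ →
    FIN1 ρ μ b H θ ℓ → 1 ≤ p → 0 ≤ (d : ℝ) / 2 - (d + 2) / p →
    Set.Icc a₀ a₁ ⊆ Set.Icc (-T) T → TEst μ H θ ℓ d p T → Strichartz μ ρ b a₀ a₁ p := by
  rintro hP hS hF hp1 hs hI ⟨C, hC, hT⟩
  have hp : 0 < p := by linarith
  obtain ⟨C', hC', hlow⟩ := hS.low
  set s : ℝ := (d : ℝ) / 2 - (d + 2) / p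
  have hK : ENNReal.ofReal C ^ (1 / p) * ENNReal.ofReal (C' ^ s) ^ (1 / 2 : ℝ) ≠ ⊤ :=
    ENNReal.mul_ne_top (ENNReal.rpow_ne_top_of_nonneg (by positivity) ENNReal.ofReal_ne_top)
      (ENNReal.rpow_ne_top_of_nonneg (by positivity) ENNReal.ofReal_ne_top)
  refine ⟨(ENNReal.ofReal C ^ (1 / p) * ENNReal.ofReal (C' ^ s) ^ (1 / 2 : ℝ)).toNNReal,
    fun f => ?_⟩
  choose S g h1 h2 using fun E => hF.rep E f
  obtain ⟨e, he⟩ := exists_surjective_nat (Fin r → ℤ)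
  choose W hW1 hW2 hW3 using fun k : ℕ => F2.fin_est μ hP hS.nonneg hC' hlow hp hs hC hT f S g
    h1 h2 ((Finset.range k).image fun j => En θ ℓ (e j))
  have h3 : ∀ τ : ℝ, eLpNorm (flow μ ρ b τ f) (ENNReal.ofReal p) μ ^ p
      ≤ liminf (fun k => W k τ) atTop := fun τ => by
    have h4 := LFin2.lsc (LFin2.tendsto_image (F2.hasSum_flow μ hF τ f)
      (fun j => En θ ℓ (e j)) fun E hE => by
        have h5 : S E = ∅ := Finset.eq_empty_of_forall_notMem fun l hl => by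
          obtain ⟨j, rfl⟩ := he l
          exact hE ⟨j, (h1 E _ hl).2.1⟩
        rw [h2, h5, Finset.sum_empty, map_zero, smul_zero]) hp
    simpa only [hW2] using h4
  have h4 : ∫⁻ τ in Set.Icc a₀ a₁, eLpNorm (flow μ ρ b τ f) (ENNReal.ofReal p) μ ^ p ≤
      ENNReal.ofReal C * (ENNReal.ofReal (C' ^ s) * hsSq μ ρ b s f) ^ (p / 2) := by
    refine (lintegral_mono_set hI).trans ((lintegral_mono h3).trans
      ((lintegral_liminf_le hW1).trans ?_))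
    exact liminf_le_of_frequently_le' (Frequently.of_forall hW3)
  refine (ENNReal.rpow_le_rpow h4 (by positivity)).trans (le_of_eq ?_)
  rw [ENNReal.coe_toNNReal hK, ENNReal.mul_rpow_of_nonneg _ _ (by positivity), ← ENNReal.rpow_mul,
    show p / 2 * (1 / p) = 1 / 2 by field_simp, ENNReal.mul_rpow_of_nonneg _ _ (by positivity),
    mul_assoc]

end Pool.Agent.P.MP_7211b7_an.NR
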