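import Pool.Agent.P.MP_7211b7_an.NRAsm
import Pool.Agent.P.MP_7211b7_an.Final2

/-! The Strichartz estimate on a compact connected Lie group with an arbitrary bi-invariant
metric, and the sanity check that the eigenspaces are complete. -/

open MeasureTheory Manifold
open scoped ENNReal ContDiff Matrix

namespace Pool.Agent.P.MP_7211b7_an.NR

open Pool.Agent.P.MP_7895ba_al

/-- the abstract data are the data of a matrix group -/
theorem exists_matrix (h1 : BREXP) (h2 : BRPW) (h3 : BRFAITH) (h4 : BRTOR)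
    (E : Type) [NormedAddCommGroup E] [NormedSpace ℝ E] [FiniteDimensional ℝ E]
    (G : Type) [TopologicalSpace G] [ChartedSpace E G] [Group G] [LieGroup 𝓘(ℝ, E) ∞ G]
    [T2Space G] [CompactSpace G] [ConnectedSpace G] [IsTopologicalGroup G]
    [SecondCountableTopology G] [MeasurableSpace G] [BorelSpace G] (μ : Measure G) [Hr μ]
    (B : LinearMap.BilinForm ℝ E) (hB : F.IsBiInv G B) {d : ℕ}
    (b : Module.Basis (Fin d) ℝ E)
    (hb : ∀ i j, B (b i) (b j) = if i = j then 1 else 0) (T : Subgroup G) (hT : F.IsMaxTorus T) :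
    ∃ (n : ℕ) (ρ : G →* Mat n) (B' : LinearMap.BilinForm ℝ (Mat n)) (b' : Fin d → Mat n)
      (t : Submodule ℝ (Mat n)), IsRep ρ ∧ IsMetric ρ B' ∧ IsONB ρ B' b' ∧
      IsCartan ρ t ∧ Module.finrank ℝ t = Module.finrank ℝ (F.subAlg E T) ∧
      (fun a => F.expo G (b a)) = fun a s => expG ρ (s • b' a) := by
  obtain ⟨D, hexp, hAd⟩ := h1 E G
  obtain ⟨n, ρ, L, hρ, hinj, hrange, hL, hG⟩ := h3 E G D (h2 G μ)
  obtain ⟨hcart, -⟩ := h4 E G D n ρ L hρ hrange hL
  obtain ⟨L', hL'⟩ := L.exists_leftInverse_of_injective (LinearMap.ker_eq_bot.2 hinj)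
  have hLL : ∀ X, L' (L X) = X := fun X => LinearMap.congr_fun hL' X
  have hmem : ∀ {X}, X ∈ lieAlg ρ → ∃ Y, L Y = X := fun hX => by rwa [← hrange] at hX
  have hsub : ∀ S : Subgroup G,
      F.subAlg E S = Submodule.span ℝ {X : E | ∀ s : ℝ, D.exp (s • X) ∈ S} := fun S => by
    simp only [F.subAlg, hexp]
  have hB' : ∀ X Y, B.comp L' L' (L X) (L Y) = B X Y := fun X Y => by simp [hLL]
  refine ⟨n, ρ, B.comp L' L', fun a => L (b a), (F.subAlg E T).map L, hρ,
    ⟨?_, ?_, ?_⟩, ⟨?_, ?_⟩, ?_, ?_, ?_⟩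
  · intro X hX Y hY
    obtain ⟨X, rfl⟩ := hmem hX
    obtain ⟨Y, rfl⟩ := hmem hY
    rw [hB', hB', hB.symm]
  · intro X hX hX0
    obtain ⟨X, rfl⟩ := hmem hX
    rw [hB']
    exact hB.pos X fun h => hX0 (by rw [h, map_zero])
  · intro g X hX Y hY
    obtain ⟨X, rfl⟩ := hmem hX
    obtain ⟨Y, rfl⟩ := hmem hY
    rw [← deriv_conj D ρ L hL g _ (hAd g), ← deriv_conj D ρ L hL g _ (hAd g), hB', hB', hB.inv]
  · rw [← hrange, show (Set.range fun a => L (b a)) = L '' Set.range b from Set.range_comp _ _,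
      ← Submodule.map_span, b.span_eq, Submodule.map_top]
  · intro i j
    rw [hB', hb]
  · rw [hsub]
    exact hcart T hT
  · exact (Submodule.equivMapOfInjective L hinj _).finrank_eq.symm
  · funext a s
    rw [hexp, ← L.map_smul, hG]

section F

variable (E : Type) [NormedAddCommGroup E] [NormedSpace ℝ E] [FiniteDimensional ℝ E]
  (G : Type) [TopologicalSpace G] [ChartedSpace E G] [Group G] [LieGroup 𝓘(ℝ, E) ∞ G]
  [T2Space G] [CompactSpace G] [ConnectedSpace G] [MeasurableSpace G] [BorelSpace G]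
  (μ : Measure G) [μ.IsHaarMeasure] [IsProbabilityMeasure μ]
  (B : LinearMap.BilinForm ℝ E) (hB : F.IsBiInv G B) {d : ℕ}
  (b : Module.Basis (Fin d) ℝ E)
  (hb : ∀ i j, B (b i) (b j) = if i = j then 1 else 0) (T : Subgroup G) (hT : F.IsMaxTorus T)

include hB hb hT in
theorem lie_strichartz (I : Set ℝ) (hI : Bornology.IsBounded I) (p : ℝ)
    (hp : 4 < (Module.finrank ℝ (F.subAlg E T) : ℝ) * (p - 2)) :
    ∃ C : NNReal, ∀ f : Lp ℂ 2 μ,
      (∫⁻ t in I, eLpNorm (F.flow μ (fun a => F.expo G (b a)) t f) (ENNReal.ofReal p) μ ^ p)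
          ^ (1 / p)
        ≤ C * F.hsSq μ (fun a => F.expo G (b a)) (d / 2 - (d + 2) / p) f ^ (1 / 2 : ℝ) := by
  have : IsTopologicalGroup G := topologicalGroup_of_lieGroup 𝓘(ℝ, E) ∞
  have : SecondCountableTopology G := ChartedSpace.secondCountable_of_sigmaCompact E G
  have : Hr μ := hr_of_haar μ
  obtain ⟨n, ρ, B', b', t, hρ, hB', hb', ht, hr, hγ⟩ :=
    exists_matrix brexp brpw brfaith brtor E G μ B hB b hb T hT
  obtain ⟨R, hR⟩ := hI.subset_closedBall 0
  rw [Real.closedBall_eq_Icc] at hR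
  rw [← hr] at hp
  obtain ⟨C, hC⟩ := matrix_strichartz μ hρ hB' hb' ht (0 - R) (0 + R) p hp
  have hp0 : 0 < p := by
    by_contra h
    nlinarith [mul_nonneg (Nat.cast_nonneg (α := ℝ) (Module.finrank ℝ t))
      (show 0 ≤ 2 - p by linarith)]
  refine ⟨C, fun f => ?_⟩
  rw [hγ]
  exact (ENNReal.rpow_le_rpow (lintegral_mono_set hR) (by positivity)).trans (hC f)

include hB hb hT in
/-- sanity check: the eigenspaces are complete, so the flow starts at `f` -/
theorem flow_zero (f : Lp ℂ 2 μ) : F.flow μ (fun a => F.expo G (b a)) 0 f = f := by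
  have : IsTopologicalGroup G := topologicalGroup_of_lieGroup 𝓘(ℝ, E) ∞
  have : SecondCountableTopology G := ChartedSpace.secondCountable_of_sigmaCompact E G
  have : Hr μ := hr_of_haar μ
  obtain ⟨n, ρ, B', b', t, hρ, hB', hb', ht, hr, hγ⟩ :=
    exists_matrix brexp brpw brfaith brtor E G μ B hB b hb T hT
  rw [hγ]
  have h : ∑' E : ℝ, F.proj μ (fun a s => expG ρ (s • (b' a : Mat n))) E f = f :=
    (matrix_complete μ hρ hB' hb' ht f).tsum_eq
  unfold F.flow
  simpa using h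

end F

variable (E : Type) [NormedAddCommGroup E] [NormedSpace ℝ E] [FiniteDimensional ℝ E]
  (G : Type) [TopologicalSpace G] [ChartedSpace E G] [Group G] [LieGroup 𝓘(ℝ, E) ∞ G]
  [T2Space G] [CompactSpace G] [ConnectedSpace G] [MeasurableSpace G] [BorelSpace G]
  (μ : Measure G) [μ.IsHaarMeasure] [IsProbabilityMeasure μ]
  (B : E → E → ℝ) (hB : H.IsBiInv G B) {d : ℕ}
  (b : Module.Basis (Fin d) ℝ E)
  (hb : ∀ i j, B (b i) (b j) = if i = j then 1 else 0) (T : Subgroup G) (hT : H.IsMaxTorus T)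

omit [FiniteDimensional ℝ E] [LieGroup 𝓘(ℝ, E) ∞ G] [T2Space G] [CompactSpace G]
  [ConnectedSpace G] [MeasurableSpace G] [BorelSpace G] in
include hB in
theorem exists_bilin : ∃ B' : LinearMap.BilinForm ℝ E, (∀ X Y, B' X Y = B X Y) ∧
    F.IsBiInv G B' := by
  refine ⟨LinearMap.mk₂ ℝ B (fun X X' Y => ?_) (fun c X Y => ?_) (fun X => (hB.lin X).map_add)
    (fun c X Y => (hB.lin X).map_smul c Y), fun X Y => rfl, ⟨hB.symm, hB.pos, hB.inv⟩⟩
  · rw [hB.symm, (hB.lin Y).map_add, hB.symm Y, hB.symm Y]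
  · rw [hB.symm, (hB.lin Y).map_smul, hB.symm Y]

include hB hb hT in
theorem lie_strichartz' (I : Set ℝ) (hI : Bornology.IsBounded I) (p : ℝ)
    (hp : 4 < (Module.finrank ℝ (H.subAlg E T) : ℝ) * (p - 2)) :
    ∃ C : NNReal, ∀ f : Lp ℂ 2 μ,
      H.stNorm μ I p (fun t => H.flow (H.eigSet μ fun a => H.expo G (b a)) t f)
        ≤ C * H.hsSq (H.eigSet μ fun a => H.expo G (b a)) (d / 2 - (d + 2) / p) f ^ (1 / 2 : ℝ) := by
  obtain ⟨B', h, hB'⟩ := exists_bilin E G B hB
  simp only [H.stNorm, flow_eq, hsSq_eq]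
  exact lie_strichartz E G μ B' hB' b (fun i j => (h _ _).trans (hb i j)) T hT I hI p hp

include hB hb hT in
/-- sanity check: the eigenspaces are complete, so the flow starts at `f` -/
theorem flow_zero' (f : Lp ℂ 2 μ) : H.flow (H.eigSet μ fun a => H.expo G (b a)) 0 f = f := by
  obtain ⟨B', h, hB'⟩ := exists_bilin E G B hB
  rw [flow_eq]
  exact flow_zero E G μ B' hB' b (fun i j => (h _ _).trans (hb i j)) T hT f

end Pool.Agent.P.MP_7211b7_an.NR
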