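import Pool.Agent.P.MP_7211b7_an.NRFin

/-!
# MP_7211b7_an, general flat tori: the period lattice spans the Cartan subalgebra
-/

open MeasureTheory ComplexConjugate Complex Filter Topology
open scoped ENNReal Matrix Matrix.Norms.Operator

set_option linter.unusedSectionVars false

namespace Pool.Agent.P.MP_7211b7_an.NR

open Pool.Agent.P.MP_7895ba_al

variable {G : Type} [Group G] [TopologicalSpace G] [IsTopologicalGroup G] [CompactSpace G]
  [T2Space G] [SecondCountableTopology G] [MeasurableSpace G] [BorelSpace G] {n : ℕ}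
  {ρ : G →* Mat n} {t : Submodule ℝ (Mat n)}

/-- simultaneous approximation -/
theorem simul_approx {ι : Type} [Fintype ι] (w : ι → ℝ) {ε : ℝ} (hε : 0 < ε) :
    ∃ q : ℕ, 0 < q ∧ ∃ m : ι → ℤ, ∀ j, |q * w j - m j| < ε := by
  have hc : IsCompact (Set.Icc (0 : ι → ℝ) 1) := isCompact_Icc
  obtain ⟨x, -, φ, hφ, hlim⟩ := hc.tendsto_subseq (x := fun k : ℕ => fun j => Int.fract (k * w j))
    (fun k => ⟨fun j => Int.fract_nonneg _, fun j => (Int.fract_lt_one _).le⟩)
  obtain ⟨N, hN⟩ := Metric.cauchySeq_iff.1 hlim.cauchySeq ε hε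
  have h := hN (N + 1) (by omega) N le_rfl
  have hlt : φ N < φ (N + 1) := hφ (Nat.lt_succ_self N)
  refine ⟨φ (N + 1) - φ N, by omega, fun j => ⌊φ (N + 1) * w j⌋ - ⌊φ N * w j⌋, fun j => ?_⟩
  have h1 := (dist_le_pi_dist _ _ j).trans_lt h
  simp only [Function.comp, Real.dist_eq, Int.fract] at h1
  rw [Nat.cast_sub hlt.le]
  push_cast
  refine lt_of_eq_of_lt (congrArg _ ?_) h1
  ring

theorem small_mem (hρ : IsRep ρ) : ∃ r > (0 : ℝ), ∀ Z : Mat n, ‖Z‖ < r →
    NormedSpace.exp Z ∈ Set.range ρ → Z ∈ lieAlg ρ := by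
  obtain ⟨r, hr, h⟩ := (unitsData (Mat n)).exists_mem_lie_of_exp_mem _ (LLie.closed_range hρ)
  exact ⟨r, hr, fun Z hZ hm => (LLie.lie_eq hρ).ge (h Z hZ ((LLie.exp_mem_iff Z).2 hm))⟩

/-- the diagonal matrix with entries `i x j` in the eigenbasis -/
noncomputable def dg (D : Diag t) : (Fin n → ℝ) →ₗ[ℝ] Mat n where
  toFun x := D.U * Matrix.diagonal (fun j => I * (x j : ℝ)) * D.Uᴴ
  map_add' x y := by
    rw [← add_mul, ← mul_add, Matrix.diagonal_add]
    congr 3
    funext j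
    simp [mul_add]
  map_smul' c x := by
    rw [RingHom.id_apply, ← smul_mul_assoc, ← mul_smul_comm, ← Matrix.diagonal_smul]
    congr 3
    funext j
    simp [mul_left_comm]

theorem dg_apply (D : Diag t) (x : Fin n → ℝ) :
    dg D x = D.U * Matrix.diagonal (fun j => I * (x j : ℝ)) * D.Uᴴ := rfl

theorem U_mul (D : Diag t) : D.U * D.Uᴴ = 1 := Matrix.mem_unitaryGroup_iff.1 D.unit

theorem mul_U (D : Diag t) : D.Uᴴ * D.U = 1 := Matrix.mem_unitaryGroup_iff'.1 D.unit

theorem dg_w (D : Diag t) {Y : Mat n} (hY : Y ∈ t) : dg D (fun j => D.w j Y) = Y := by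
  rw [dg_apply, ← D.diag Y hY]
  calc D.U * (D.Uᴴ * Y * D.U) * D.Uᴴ = (D.U * D.Uᴴ) * Y * (D.U * D.Uᴴ) := by
        simp only [mul_assoc]
    _ = Y := by rw [U_mul, one_mul, mul_one]

theorem dg_comm (D : Diag t) (x y : Fin n → ℝ) : dg D x * dg D y = dg D y * dg D x := by
  have h : ∀ u v : Fin n → ℝ, dg D u * dg D v = D.U * (Matrix.diagonal (fun j => I * (u j : ℝ)) *
      Matrix.diagonal (fun j => I * (v j : ℝ))) * D.Uᴴ := fun u v => by
    rw [dg_apply, dg_apply]
    calc _ = D.U * Matrix.diagonal (fun j => I * (u j : ℝ)) * (D.Uᴴ * D.U) *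
          Matrix.diagonal (fun j => I * (v j : ℝ)) * D.Uᴴ := by simp only [mul_assoc]
      _ = _ := by rw [mul_U, mul_one]; simp only [mul_assoc]
  rw [h, h, Matrix.diagonal_mul_diagonal, Matrix.diagonal_mul_diagonal]
  congr 3
  funext j
  ring

theorem exp_dg (D : Diag t) (m : Fin n → ℤ) :
    NormedSpace.exp ((2 * Real.pi) • dg D (fun j => (m j : ℝ))) = 1 := by
  have hinv : D.U⁻¹ = D.Uᴴ := Matrix.inv_eq_right_inv (U_mul D)
  have hu : IsUnit D.U := IsUnit.of_mul_eq_one _ (U_mul D)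
  rw [← map_smul, dg_apply, ← hinv, Matrix.exp_conj _ _ hu, Matrix.exp_diagonal]
  have : (NormedSpace.exp fun j => I * ((((2 * Real.pi) • fun j => (m j : ℝ)) j : ℝ) : ℂ))
      = fun _ => (1 : ℂ) := by
    funext j
    rw [Pi.coe_exp, ← Complex.exp_eq_exp_ℂ, Complex.exp_eq_one_iff]
    refine ⟨m j, ?_⟩
    simp only [Pi.smul_apply, smul_eq_mul]
    push_cast
    ring
  rw [this, Matrix.diagonal_one, mul_one, hinv, U_mul]

/-- the period lattice spans `t` -/
theorem period_span (hρ : IsRep ρ) (hL : LIE ρ) (ht : IsCartan ρ t) (D : Diag t) :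
    Submodule.span ℝ {Z | Z ∈ t ∧ NormedSpace.exp ((2 * Real.pi) • Z) = 1} = t := by
  refine le_antisymm (Submodule.span_le.2 fun Z hZ => hZ.1) fun Y hY => ?_
  set S := Submodule.span ℝ {Z | Z ∈ t ∧ NormedSpace.exp ((2 * Real.pi) • Z) = 1} with hS
  have hcl : IsClosed (S : Set (Mat n)) := S.closed_of_finiteDimensional
  change Y ∈ (S : Set (Mat n))
  rw [← hcl.closure_eq]
  refine (SeminormedAddCommGroup.mem_closure_iff (E := Mat n)).2 fun ε hε => ?_
  obtain ⟨r, hr, hsm⟩ := small_mem hρ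
  obtain ⟨K, hK0, hK⟩ : ∃ K : ℝ, 0 < K ∧ ∀ x : Fin n → ℝ, ‖dg D x‖ ≤ K * ‖x‖ :=
    (LinearMap.toContinuousLinearMap (dg D)).bound
  have hπ := Real.pi_pos
  have hδ : 0 < min (r / (2 * Real.pi)) ε / (2 * K) := by positivity
  obtain ⟨q, hq, m, hm⟩ := simul_approx (fun j => D.w j Y) hδ
  set x : Fin n → ℝ := fun j => q * D.w j Y - m j with hx
  have hxn : ‖x‖ ≤ min (r / (2 * Real.pi)) ε / (2 * K) :=
    (pi_norm_le_iff_of_nonneg hδ.le).2 fun j => (hm j).le
  have hdx : ‖dg D x‖ < min (r / (2 * Real.pi)) ε := by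
    refine (hK x).trans_lt ?_
    have h0 : 0 < min (r / (2 * Real.pi)) ε := by positivity
    calc K * ‖x‖ ≤ K * (min (r / (2 * Real.pi)) ε / (2 * K)) :=
          mul_le_mul_of_nonneg_left hxn hK0.le
      _ = min (r / (2 * Real.pi)) ε / 2 := by field_simp
      _ < _ := by linarith
  have hsplit : (q : ℝ) • Y = dg D x + dg D (fun j => (m j : ℝ)) := by
    rw [← map_add, ← dg_w D hY, ← map_smul]
    congr 1
    funext j
    simp only [hx, Pi.smul_apply, smul_eq_mul, Pi.add_apply]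
    ring
  have hZ : (2 * Real.pi) • dg D x ∈ lieAlg ρ := by
    refine hsm _ ?_ ?_
    · rw [norm_smul, Real.norm_of_nonneg (by positivity)]
      have := hdx.trans_le (min_le_left _ _)
      rwa [lt_div_iff₀' (by positivity)] at this
    · have h1 := (hL.mem_iff Y).1 (ht.le hY) (2 * Real.pi * q)
      rw [mul_smul, hsplit, smul_add, Matrix.exp_add_of_commute, exp_dg, mul_one] at h1
      · exact h1
      · exact (Commute.smul_left (Commute.smul_right (dg_comm D _ _) _) _)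
  have hZ' : dg D x ∈ lieAlg ρ := by
    have := (lieAlg ρ).smul_mem (2 * Real.pi)⁻¹ hZ
    rwa [smul_smul, inv_mul_cancel₀ (by positivity), one_smul] at this
  have hxt : dg D x ∈ t := ht.max _ hZ' fun W hW => by
    rw [← dg_w D hW]; exact dg_comm D _ _
  have hmt : dg D (fun j => (m j : ℝ)) ∈ t := by
    have := t.sub_mem (t.smul_mem (q : ℝ) hY) hxt
    rwa [hsplit, add_sub_cancel_left] at this
  have hq' : (1 : ℝ) ≤ q := by exact_mod_cast hq
  refine ⟨(q : ℝ)⁻¹ • dg D (fun j => (m j : ℝ)),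
    S.smul_mem _ (Submodule.subset_span ⟨hmt, exp_dg D m⟩), ?_⟩
  have h2 : Y - (q : ℝ)⁻¹ • dg D (fun j => (m j : ℝ)) = (q : ℝ)⁻¹ • dg D x := by
    rw [sub_eq_iff_eq_add, ← smul_add, ← hsplit, smul_smul, inv_mul_cancel₀ (by positivity),
      one_smul]
  rw [h2, norm_smul, Real.norm_of_nonneg (by positivity)]
  refine lt_of_le_of_lt ?_ (hdx.trans_le (min_le_right _ _))
  exact mul_le_of_le_one_left (norm_nonneg _) (inv_le_one_of_one_le₀ hq')

theorem int_period (K : Calc ρ) (R : Roots ρ t) (hρ : IsRep ρ) (hL : LIE ρ) (ht : IsCartan ρ t)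
    (hD : DER2 K) {lam : Mat n →ₗ[ℝ] ℝ} {φ : C(G, ℂ)} (h : IsPhi K R lam φ) {Z : Mat n}
    (hZ : Z ∈ t) (hp : NormedSpace.exp ((2 * Real.pi) • Z) = 1) : ∃ z : ℤ, lam Z = z := by
  have hX : (2 * Real.pi) • Z ∈ t := t.smul_mem _ hZ
  have h1 : expG ρ ((2 * Real.pi) • Z) = 1 :=
    hρ.inj (by rw [hL.rho_exp _ (ht.le hX), hp, map_one])
  have h2 := hD.expR _ (ht.le hX) φ h.mem _ (h.wtR _ hX) 1
  rw [h1, mul_one, h.one, mul_one, eq_comm, Complex.exp_eq_one_iff] at h2
  obtain ⟨z, hz⟩ := h2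
  refine ⟨z, ?_⟩
  rw [map_smul, smul_eq_mul] at hz
  push_cast at hz
  have hne : (2 * (Real.pi : ℂ) * I) ≠ 0 := by simp [Real.pi_ne_zero]
  have : ((lam Z : ℝ) : ℂ) = z := mul_right_cancel₀ hne (by rw [← hz]; ring)
  exact_mod_cast this

/-- a basis of `t` on which all highest weights are integral (no orthogonality) -/
theorem lat_ok (K : Calc ρ) (R : Roots ρ t) (hρ : IsRep ρ) (hL : LIE ρ) (ht : IsCartan ρ t)
    (D : Diag t) (hD : DER2 K) : Nonempty (Lat K R 0 (Module.finrank ℝ t)) := by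
  have hsp := period_span hρ hL ht D
  have h0 := Submodule.exists_fun_fin_finrank_span_eq ℝ
    {Z | Z ∈ t ∧ NormedSpace.exp ((2 * Real.pi) • Z) = 1}
  rw [hsp] at h0
  obtain ⟨c, c1, c4, hli⟩ := h0
  obtain ⟨g, hg⟩ := (Fintype.linearCombination ℝ c).exists_leftInverse_of_injective
    (LinearMap.ker_eq_bot.2 hli.fintypeLinearCombination_injective)
  have hg' : ∀ v, g (Fintype.linearCombination ℝ c v) = v := fun v => LinearMap.congr_fun hg v
  refine ⟨⟨c, g, fun i => (c1 i).1, fun i => hli.ne_zero i, fun Y hY => ?_, fun i => ?_,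
    fun _ _ _ => rfl, fun lam φ h i => int_period K R hρ hL ht hD h (c1 i).1 (c1 i).2⟩⟩
  · have : Y ∈ Submodule.span ℝ (Set.range c) := by rw [c4]; exact hY
    rw [← Fintype.range_linearCombination] at this
    obtain ⟨v, rfl⟩ := this
    rw [hg', Fintype.linearCombination_apply]
  · rw [← hg' (Pi.single i 1), Fintype.linearCombination_apply_single, one_smul]

end Pool.Agent.P.MP_7211b7_an.NR
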