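import Pool.Agent.P.MP_7211b7_an.NRDefs

/-!
# General flat tori: decoupling implies the torus bound with an epsilon loss
-/

open MeasureTheory Matrix
open scoped ENNReal Pointwise MatrixOrder

namespace Pool.Agent.P.MP_7211b7_an.NR

theorem PD.exists_root {r : ℕ} {A : Mx r} (hA : PD A) :
    ∃ P : Mx r, ∀ n, qf A n = ∑ k, (P *ᵥ rv n) k ^ 2 := by
  have h1 : A.PosSemidef := by
    rw [Matrix.posSemidef_iff_dotProduct_mulVec]
    refine ⟨?_, fun x => ?_⟩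
    · ext i j
      have := hA.symm (Pi.single i 1) (Pi.single j 1)
      simpa using this.symm
    · by_cases hx : x = 0
      · simp [hx]
      · simpa using (hA.pos x hx).le
  obtain ⟨P, hP⟩ := CStarAlgebra.nonneg_iff_eq_star_mul_self.mp h1.nonneg
  refine ⟨P, fun n => ?_⟩
  have h2 : star P = Pᵀ := by
    ext i j
    simp [Matrix.star_apply]
  rw [qf, hP, h2, ← Matrix.mulVec_mulVec, Matrix.dotProduct_mulVec, Matrix.vecMul_transpose]
  simp only [dotProduct, pow_two]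

namespace TorN

/-- rescaled frequencies -/
noncomputable def xi {r : ℕ} (P : Mx r) (L : ℝ) (n : Fin r → ℤ) : Eu r :=
  WithLp.toLp 2 (fun i => (P *ᵥ rv n) i / L)

/-- rescaled space variable -/
noncomputable def xm {r : ℕ} (P : Mx r) (L : ℝ) (y : Eu r) : Fin r → ℝ :=
  fun i => (∑ k, y k * P k i) / L

theorem continuous_xm {r : ℕ} (P : Mx r) (L : ℝ) : Continuous (xm P L) := by
  unfold xm; fun_prop

theorem norm_sq_xi {r : ℕ} {θ : Qf r} {P : Mx r} (hθ : ∀ n, θ n = ∑ k, (P *ᵥ rv n) k ^ 2) (L : ℝ)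
    (n : Fin r → ℤ) : ‖xi P L n‖ ^ 2 = θ n / L ^ 2 := by
  rw [EuclideanSpace.real_norm_sq_eq, hθ, Finset.sum_div]
  refine Finset.sum_congr rfl fun i _ => ?_
  simp only [xi, div_pow]

theorem xi_sub {r : ℕ} (P : Mx r) (L : ℝ) (n m : Fin r → ℤ) :
    xi P L n - xi P L m = xi P L (n - m) := by
  ext i
  simp only [xi, PiLp.sub_apply, rv_sub, Matrix.mulVec_sub, Pi.sub_apply]
  ring

theorem inner_xi {r : ℕ} (P : Mx r) (L : ℝ) (n : Fin r → ℤ) (y : Eu r) :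
    inner ℝ (xi P L n) y = ∑ i, xm P L y i * (n i : ℝ) := by
  rw [PiLp.inner_apply]
  simp only [xi, xm, RCLike.inner_apply, conj_trivial, Matrix.mulVec, dotProduct, rv,
    Finset.sum_div, Finset.sum_mul, Finset.mul_sum]
  rw [Finset.sum_comm]
  exact Finset.sum_congr rfl fun i _ => Finset.sum_congr rfl fun k _ => by ring

/-- the pieces of the exponential sum -/
noncomputable def pc {r : ℕ} (P : Mx r) (L : ℝ) (a : (Fin r → ℤ) → ℂ) (x0 : Fin r → ℝ)
    (n : Fin r → ℤ) : Sp r → ℂ :=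
  (a n * Complex.exp (Complex.I * ((∑ i, x0 i * (n i : ℝ) : ℝ) : ℂ))) •
    wave (xi P L n, ‖xi P L n‖ ^ 2 / 2)

theorem enorm_pc {r : ℕ} (P : Mx r) (L : ℝ) (a : (Fin r → ℤ) → ℂ) (x0 : Fin r → ℝ)
    (n : Fin r → ℤ) (y : Sp r) : ‖pc P L a x0 n y‖ₑ = ‖a n‖ₑ := by
  rw [← ofReal_norm, ← ofReal_norm]
  congr 1
  simp only [pc, Pi.smul_apply, smul_eq_mul, norm_mul, norm_wave, mul_one]
  rw [mul_comm Complex.I, Complex.norm_exp_ofReal_mul_I, mul_one]

theorem sum_pc {r : ℕ} {θ : Qf r} {P : Mx r} (hθ : ∀ n, θ n = ∑ k, (P *ᵥ rv n) k ^ 2) (L : ℝ)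
    (S : Finset (Fin r → ℤ))
    (a : (Fin r → ℤ) → ℂ) (x0 : Fin r → ℝ) (y : Sp r) :
    (∑ n ∈ S, pc P L a x0 n) y = tor θ S a (-(1 / (2 * L ^ 2)) * y.2, x0 + xm P L y.1) := by
  rw [Finset.sum_apply]
  unfold tor
  refine Finset.sum_congr rfl fun n _ => ?_
  simp only [pc, Pi.smul_apply, smul_eq_mul, wave]
  rw [mul_assoc, ← Complex.exp_add, ← mul_add, ← Complex.ofReal_add, inner_xi, norm_sq_xi hθ]
  congr 4
  simp only [Pi.add_apply, add_mul, Finset.sum_add_distrib]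
  ring

theorem tor_periodic {r : ℕ} (θ : Qf r) (S : Finset (Fin r → ℤ)) (a : (Fin r → ℤ) → ℂ)
    (t : ℝ) (k : Fin r → ℤ) (x : Fin r → ℝ) :
    tor θ S a (t, fun i => 2 * Real.pi * k i + x i) = tor θ S a (t, x) := by
  unfold tor
  refine Finset.sum_congr rfl fun n _ => ?_
  congr 1
  rw [Complex.exp_eq_exp_iff_exists_int]
  refine ⟨∑ i, k i * n i, ?_⟩
  simp only [add_mul, Finset.sum_add_distrib]
  push_cast
  have : ∑ i, 2 * (Real.pi : ℂ) * (k i : ℂ) * (n i : ℂ) = 2 * Real.pi * ∑ i, (k i : ℂ) * n i := by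
    rw [Finset.mul_sum]; exact Finset.sum_congr rfl fun i _ => by ring
  rw [this]
  ring

theorem fam_pc {r : ℕ} {θ : Qf r} {P : Mx r} (hθ : ∀ n, θ n = ∑ k, (P *ᵥ rv n) k ^ 2) {m L : ℝ}
    (hm : 0 < m) (hmθ : ∀ n, n ≠ 0 → m ≤ θ n) (hL0 : 0 < L) (S : Finset (Fin r → ℤ))
    (hS : ∀ n ∈ S, 4 * θ n ≤ L ^ 2) (a : (Fin r → ℤ) → ℂ) (x0 : Fin r → ℝ) :
    Fam (Real.sqrt m / L) S (xi P L) (pc P L a x0) := by
  have hσ : 0 < Real.sqrt m / L := div_pos (Real.sqrt_pos.2 hm) hL0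
  refine ⟨?_, ?_, ?_⟩
  · intro n hn
    refine le_of_pow_le_pow_left₀ two_ne_zero (by norm_num) ?_
    rw [norm_sq_xi hθ, div_le_iff₀ (by positivity)]
    linarith [hS n hn]
  · intro n _ k _ hnk
    have h1 : Real.sqrt m / L ≤ ‖xi P L n - xi P L k‖ := by
      refine le_of_pow_le_pow_left₀ two_ne_zero (norm_nonneg _) ?_
      rw [xi_sub, norm_sq_xi hθ, div_pow, Real.sq_sqrt hm.le]
      exact div_le_div_of_nonneg_right (hmθ _ (sub_ne_zero.2 hnk)) (by positivity)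
    linarith
  · intro n _
    refine Submodule.smul_mem _ _ (wave_mem_Tr ?_)
    constructor
    · simpa using hσ.le
    · simp only [sub_self, abs_zero]; positivity

theorem sq_pc {r : ℕ} (P : Mx r) (L : ℝ) (a : (Fin r → ℤ) → ℂ) (x0 : Fin r → ℝ)
    (S : Finset (Fin r → ℤ)) {p : ℝ} (hp : 0 < p) (ν : Measure (Sp r)) :
    sq p ν S (pc P L a x0) ^ p = ν Set.univ * (∑ n ∈ S, ‖a n‖ₑ ^ 2) ^ (p / 2) := by
  have h1 : ∀ n, eLpNorm' (pc P L a x0 n) p ν ^ 2 = ν Set.univ ^ (2 / p) * ‖a n‖ₑ ^ 2 := by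
    intro n
    rw [eLpNorm'_eq_lintegral_enorm]
    simp only [enorm_pc, lintegral_const]
    rw [ENNReal.mul_rpow_of_nonneg _ _ (by positivity), ← ENNReal.rpow_mul,
      mul_one_div_cancel hp.ne', ENNReal.rpow_one, mul_pow, mul_comm, ← ENNReal.rpow_natCast,
      ← ENNReal.rpow_mul]
    congr 2
    push_cast
    field_simp
  unfold sq
  simp only [h1]
  rw [← Finset.mul_sum, ← ENNReal.rpow_mul, ENNReal.mul_rpow_of_nonneg _ _ (by positivity),
    ← ENNReal.rpow_mul]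
  have e1 : 2 / p * (1 / 2 * p) = 1 := by field_simp
  have e2 : 1 / 2 * p = p / 2 := by ring
  rw [e1, e2, ENNReal.rpow_one]

/-- decoupling applied at a fixed base point -/
theorem dec_at {r : ℕ} {θ : Qf r} {P : Mx r} (hθ : ∀ n, θ n = ∑ k, (P *ᵥ rv n) k ^ 2) {m L : ℝ}
    (hm : 0 < m) (hmθ : ∀ n, n ≠ 0 → m ≤ θ n) (hL0 : 0 < L) (S : Finset (Fin r → ℤ))
    (hS : ∀ n ∈ S, 4 * θ n ≤ L ^ 2) (a : (Fin r → ℤ) → ℂ)
    {p D : ℝ} (hp : 0 < p) (h5 : W5) (hD : Dec r p (r + 2) (Real.sqrt m / L) D)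
    (x0 : Fin r → ℝ) :
    ∫⁻ y : Sp r, ‖tor θ S a (-(1 / (2 * L ^ 2)) * y.2, x0 + xm P L y.1)‖ₑ ^ p *
        wt (r + 2) (L ^ 2 / m) y
      ≤ ENNReal.ofReal D ^ p * ((∫⁻ y : Sp r, wt (r + 2) (L ^ 2 / m) y) *
        (∑ n ∈ S, ‖a n‖ₑ ^ 2) ^ (p / 2)) := by
  obtain ⟨hfin, hmod⟩ := h5 r (r + 2) (L ^ 2 / m) le_rfl (by positivity)
  have e : (L ^ 2 / m)⁻¹ = (Real.sqrt m / L) ^ 2 := by
    rw [div_pow, Real.sq_sqrt hm.le, inv_div]
  rw [e] at hmod
  have h := hD _ S (xi P L) (pc P L a x0) _ hfin hmod (fam_pc hθ hm hmθ hL0 S hS a x0)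
  have h2 := ENNReal.rpow_le_rpow h hp.le
  rw [ENNReal.mul_rpow_of_nonneg _ _ hp.le, sq_pc P L a x0 S hp, eLpNorm'_eq_lintegral_enorm,
    ← ENNReal.rpow_mul, one_div_mul_cancel hp.ne', ENNReal.rpow_one] at h2
  simp only [sum_pc hθ] at h2
  have hmeas : Measurable (fun y : Sp r =>
      ‖tor θ S a (-(1 / (2 * L ^ 2)) * y.2, x0 + xm P L y.1)‖ₑ ^ p) := by
    have hc : Continuous (fun y : Sp r =>
        tor θ S a (-(1 / (2 * L ^ 2)) * y.2, x0 + xm P L y.1)) :=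
      (continuous_tor θ S a).comp ((continuous_const.mul continuous_snd).prodMk
        (continuous_const.add ((continuous_xm P L).comp continuous_fst)))
    exact hc.measurable.enorm.pow_const p
  unfold wm at h2
  rw [lintegral_withDensity_eq_lintegral_mul _ (measurable_wt _ _) hmeas,
    withDensity_apply _ MeasurableSet.univ, Measure.restrict_univ] at h2
  simpa only [Pi.mul_apply, mul_comm] using h2


/-- averaging over the base point -/
theorem averaged {r : ℕ} (θ : Qf r) (P : Mx r) (L k : ℝ) (S : Finset (Fin r → ℤ))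
    (a : (Fin r → ℤ) → ℂ) (p : ℝ) (w : Sp r → ℝ≥0∞) (hw : Measurable w) :
    ∫⁻ x0 in box r, ∫⁻ y : Sp r, ‖tor θ S a (k * y.2, x0 + xm P L y.1)‖ₑ ^ p * w y
      = ∫⁻ y : Sp r, (∫⁻ x in box r, ‖tor θ S a (k * y.2, x)‖ₑ ^ p) * w y := by
  have hc : Continuous (fun z : (Fin r → ℝ) × Sp r =>
      tor θ S a (k * z.2.2, z.1 + xm P L z.2.1)) :=
    (continuous_tor θ S a).comp ((continuous_const.mul (continuous_snd.comp continuous_snd)).prodMk
      (continuous_fst.add ((continuous_xm P L).comp (continuous_fst.comp continuous_snd))))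
  have hm : Measurable (fun z : (Fin r → ℝ) × Sp r =>
      ‖tor θ S a (k * z.2.2, z.1 + xm P L z.2.1)‖ₑ ^ p * w z.2) :=
    (hc.measurable.enorm.pow_const p).mul (hw.comp measurable_snd)
  rw [lintegral_lintegral_swap hm.aemeasurable]
  refine lintegral_congr fun y => ?_
  have hm2 : Measurable (fun x : Fin r → ℝ => ‖tor θ S a (k * y.2, x + xm P L y.1)‖ₑ ^ p) :=
    (((continuous_tor θ S a).comp (continuous_const.prodMk
      (continuous_id.add continuous_const))).measurable.enorm.pow_const p)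
  rw [lintegral_mul_const _ hm2]
  congr 1
  exact TorA.box_translate (fun x => ‖tor θ S a (k * y.2, x)‖ₑ ^ p)
    (fun n x => by simp only [tor_periodic]) _

theorem dom_lintegral {r : ℕ} (θ : Qf r) (S : Finset (Fin r → ℤ)) (a : (Fin r → ℤ) → ℂ)
    {p : ℝ} (hp : 0 < p) (T : ℝ) :
    ENNReal.ofReal (∫ z in dom r T, ‖tor θ S a z‖ ^ p)
      = ∫⁻ t in Set.Icc (-T) T, ∫⁻ x in box r, ‖tor θ S a (t, x)‖ₑ ^ p := by
  have hc : Continuous (fun z => ‖tor θ S a z‖ ^ p) :=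
    (continuous_tor θ S a).norm.rpow_const fun _ => Or.inr hp.le
  rw [ofReal_integral_eq_lintegral_ofReal (hc.continuousOn.integrableOn_compact (isCompact_dom r T))
    (Filter.Eventually.of_forall fun z => by positivity)]
  have e : ∀ z, ENNReal.ofReal (‖tor θ S a z‖ ^ p) = ‖tor θ S a z‖ₑ ^ p := fun z => by
    rw [← ENNReal.ofReal_rpow_of_nonneg (norm_nonneg _) hp.le, ofReal_norm]
  simp only [e]
  unfold dom
  rw [Measure.volume_eq_prod, ← Measure.prod_restrict, lintegral_prod]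
  exact ((continuous_tor θ S a).measurable.enorm.pow_const p).aemeasurable

end TorN

theorem tora {r : ℕ} {A : Mx r} (hA : PD A) {p ε : ℝ} (hp : 2 ≤ p) (hε : 0 < ε)
    (hdec : DecThm r p) : ∃ T0 : ℝ, 0 < T0 ∧ TorBd r (qf A) p T0 ε := by
  have h1 := w1
  have h5 := w5 w1
  have hp0 : 0 < p := by linarith
  obtain ⟨P, hθ⟩ := hA.exists_root
  obtain ⟨m, K, hm, hK, hlow, hup⟩ := hA.bounds
  set θ := qf A with hθdef
  have hmθ : ∀ n, n ≠ 0 → m ≤ θ n := fun n hn => by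
    obtain ⟨i, hi⟩ := Function.ne_iff.1 hn
    have h2 : (1 : ℝ) ≤ ‖rv n‖ := by
      refine le_trans ?_ (norm_le_pi_norm (rv n) i)
      rw [Real.norm_eq_abs, rv]
      exact_mod_cast Int.one_le_abs hi
    refine le_trans ?_ (hlow (rv n))
    nlinarith [one_le_pow₀ (n := 2) h2]
  obtain ⟨Θ, hΘdef⟩ : ∃ Θ : ℝ, Θ = m + r * K := ⟨_, rfl⟩
  have hrK : 0 ≤ r * K := by positivity
  have hmΘ : m ≤ Θ := by linarith
  have hΘ : 0 < Θ := lt_of_lt_of_le hm hmΘ
  obtain ⟨C1, hC1, h1⟩ := h1 r (r + 2) 0 (by omega)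
  obtain ⟨C, hC, hdec⟩ := hdec (r + 2) ε hε
  set lam : ℝ := 2 * Real.sqrt Θ with hlam
  have hlam0 : 0 < lam := by positivity
  have hsm : 0 < Real.sqrt m := Real.sqrt_pos.2 hm
  set ω : ℝ := (volume (Metric.ball (0 : Eu r) 1)).toReal with hω
  have hωtop : volume (Metric.ball (0 : Eu r) 1) ≠ ⊤ := measure_ball_lt_top.ne
  have hω0 : 0 < ω :=
    ENNReal.toReal_pos (Metric.measure_ball_pos volume _ one_pos).ne' hωtop
  set β : ℝ := (volume (box r)).toReal with hβ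
  have hβ0 : 0 ≤ β := ENNReal.toReal_nonneg
  set c0 : ℝ := 2 * m * (2 ^ (r + 2))⁻¹ * ω with hc0
  have hc00 : 0 < c0 := by positivity
  set M : ℝ := 1 + β * C1 / c0 with hM
  have hM1 : 1 ≤ M := by
    have : 0 ≤ β * C1 / c0 := by positivity
    linarith
  refine ⟨1 / (2 * m), by positivity, M * (C * (Real.sqrt m / lam) ^ (-ε)), by positivity, ?_⟩
  intro N S a hN hS
  have hN0 : (0 : ℝ) < N := by exact_mod_cast hN
  have hN1 : (1 : ℝ) ≤ N := by exact_mod_cast hN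
  set L : ℝ := lam * N with hLdef
  have hL0 : 0 < L := by positivity
  have hL : L ^ 2 = 4 * Θ * (N : ℝ) ^ 2 := by
    rw [hLdef, hlam, mul_pow, mul_pow, Real.sq_sqrt hΘ.le]; norm_num
  have hS4 : ∀ n ∈ S, 4 * θ n ≤ L ^ 2 := fun n hn => by
    have h2 : ‖rv n‖ ≤ N := (pi_norm_le_iff_of_nonneg hN0.le).2 fun i => by
      rw [Real.norm_eq_abs, rv]
      exact_mod_cast hS n hn i
    have h3 : θ n ≤ r * (‖rv n‖ * ‖A *ᵥ rv n‖) := (le_abs_self _).trans (abs_dot_le _ _)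
    have h4 : ‖rv n‖ * ‖A *ᵥ rv n‖ ≤ N * (K * N) :=
      mul_le_mul h2 ((hup _).trans (by gcongr)) (norm_nonneg _) hN0.le
    have h6 := mul_le_mul_of_nonneg_left h4 (Nat.cast_nonneg (α := ℝ) r)
    rw [hL, hΘdef]
    nlinarith [mul_pos hm (pow_pos hN0 2)]
  have hσ1 : Real.sqrt m / L ≤ 1 := by
    rw [div_le_one hL0]
    have h2 : Real.sqrt m ≤ Real.sqrt Θ := Real.sqrt_le_sqrt hmΘ
    have h3 : lam ≤ L := by rw [hLdef]; nlinarith
    linarith
  have hD := hdec (Real.sqrt m / L) (by positivity) hσ1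
  set D : ℝ := C * (Real.sqrt m / L) ^ (-ε) with hDdef
  have hD0 : 0 ≤ D := by positivity
  have hDeq : D = C * (Real.sqrt m / lam) ^ (-ε) * (N : ℝ) ^ ε := by
    have : Real.sqrt m / L = Real.sqrt m / lam * (N : ℝ)⁻¹ := by rw [hLdef]; field_simp
    rw [hDdef, this, Real.mul_rpow (by positivity) (by positivity), Real.inv_rpow hN0.le,
      Real.rpow_neg hN0.le, inv_inv, mul_assoc]
  set Q : ℝ := (∑ n ∈ S, ‖a n‖ ^ 2) ^ (p / 2) with hQ
  have hQ0 : 0 ≤ Q := by positivity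
  have hQe : (∑ n ∈ S, ‖a n‖ₑ ^ 2) ^ (p / 2) = ENNReal.ofReal Q := by
    rw [hQ, ← ENNReal.ofReal_rpow_of_nonneg (by positivity) (by positivity),
      ENNReal.ofReal_sum_of_nonneg (fun _ _ => by positivity)]
    congr 1
    refine Finset.sum_congr rfl fun n _ => ?_
    rw [ENNReal.ofReal_pow (norm_nonneg _), ofReal_norm]
  have hmass : ∫⁻ y : Sp r, wt (r + 2) (L ^ 2 / m) y ≤ ENNReal.ofReal C1 := by
    simpa using h1 (L ^ 2 / m) (by positivity)
  have hat : ∀ x0 : Fin r → ℝ,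
      ∫⁻ y : Sp r, ‖tor θ S a (-(1 / (2 * L ^ 2)) * y.2, x0 + TorN.xm P L y.1)‖ₑ ^ p *
        wt (r + 2) (L ^ 2 / m) y ≤ ENNReal.ofReal (D ^ p * (C1 * Q)) := by
    intro x0
    refine (TorN.dec_at hθ hm hmθ hL0 S hS4 a hp0 h5 hD x0).trans ?_
    rw [hQe, ENNReal.ofReal_mul (p := D ^ p) (by positivity), ENNReal.ofReal_mul hC1.le,
      ENNReal.ofReal_rpow_of_nonneg hD0 hp0.le]
    gcongr
  have hΦ : Measurable (fun t : ℝ => ∫⁻ x in box r, ‖tor θ S a (t, x)‖ₑ ^ p) :=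
    Measurable.lintegral_prod_right' (f := fun z : ℝ × (Fin r → ℝ) => ‖tor θ S a z‖ₑ ^ p)
      ((continuous_tor θ S a).measurable.enorm.pow_const p)
  have hlow := TorA.lower (r := r) (r + 2) _ hΦ hm hL0
  rw [← TorN.averaged θ P L _ S a p _ (measurable_wt _ _), ← TorN.dom_lintegral θ S a hp0] at hlow
  have hup := hlow.trans (lintegral_mono hat)
  rw [setLIntegral_const, ← ENNReal.ofReal_toReal hωtop,
    ← ENNReal.ofReal_toReal (TorA.volume_box_ne_top r), ← hω, ← hβ,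
    ← ENNReal.ofReal_mul (by positivity), ← hc0, ← ENNReal.ofReal_mul hc00.le,
    ← ENNReal.ofReal_mul (by positivity), ENNReal.ofReal_le_ofReal_iff (by positivity)] at hup
  have hMp : M ≤ M ^ p := by
    calc M = M ^ (1 : ℝ) := (Real.rpow_one M).symm
      _ ≤ M ^ p := Real.rpow_le_rpow_of_exponent_le hM1 (by linarith)
  have hDp : 0 ≤ D ^ p := by positivity
  calc ∫ z in dom r (1 / (2 * m)), ‖tor θ S a z‖ ^ p
      ≤ β * C1 / c0 * (D ^ p * Q) := by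
        rw [div_mul_eq_mul_div, le_div_iff₀ hc00]
        linarith
    _ ≤ M ^ p * (D ^ p * Q) := by
        refine mul_le_mul_of_nonneg_right ?_ (by positivity)
        linarith
    _ = _ := by
        rw [mul_assoc M, ← hDeq, Real.mul_rpow (by positivity) hD0, mul_assoc]

end Pool.Agent.P.MP_7211b7_an.NR
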