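import Pool.Agent.P.MP_7211b7_an.NRCount

/-! General flat tori: the Weyl bound off the major arcs. -/

open Finset Matrix

namespace Pool.Agent.P.MP_7211b7_an.NR

namespace WeylN

open Weyl (ee ee_norm ee_add ee_conj geo geo_triv wgt le_wgt)

variable {r : ℕ}

/-- the box `[0, M)^r` -/
noncomputable def b0 (r : ℕ) (M : ℤ) : Finset (Fin r → ℤ) := Fintype.piFinset fun _ => Ico 0 M

/-- the points of the box that stay in the box after a shift by `h` -/
noncomputable def bs (M : ℤ) (h : Fin r → ℤ) : Finset (Fin r → ℤ) :=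
  Fintype.piFinset fun i => Ico (max 0 (-h i)) (min M (M - h i))

lemma reindex (M : ℤ) (g : (Fin r → ℤ) → (Fin r → ℤ) → ℂ) :
    ∑ b ∈ b0 r M, ∑ a ∈ b0 r M, g (a - b) b =
      ∑ h ∈ Fintype.piFinset (fun _ : Fin r => Icc (-M) M), ∑ b ∈ bs M h, g h b := by
  have h1 : ∀ b, ∑ a ∈ b0 r M, g (a - b) b =
      ∑ h ∈ Fintype.piFinset (fun i => Ico (-b i) (M - b i)), g h b := by
    intro b
    refine sum_nbij' (fun a => a - b) (fun h => h + b) ?_ ?_ ?_ ?_ ?_ <;> intro a <;>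
      simp only [b0, Fintype.mem_piFinset, mem_Ico, sub_add_cancel, add_sub_cancel_right,
        implies_true, Pi.sub_apply, Pi.add_apply] <;> intro h i <;> have := h i <;> omega
  rw [sum_congr rfl fun b _ => h1 b]
  refine sum_comm' fun b h => ?_
  simp only [b0, bs, Fintype.mem_piFinset, mem_Ico, mem_Icc]
  constructor
  · rintro ⟨h1, h2⟩
    exact ⟨fun i => by have := h1 i; have := h2 i; omega,
      fun i => by have := h1 i; have := h2 i; omega⟩
  · rintro ⟨h1, h2⟩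
    exact ⟨fun i => by have := h1 i; have := h2 i; omega,
      fun i => by have := h1 i; have := h2 i; omega⟩

lemma ee_sum (f : Fin r → ℝ) : ee (∑ i, f i) = ∏ i, ee (f i) := TT.exp_sum_eq f

lemma sum_ee (s : Fin r → Finset ℤ) (y : Fin r → ℝ) :
    ∑ a ∈ Fintype.piFinset s, ee (∑ i, y i * (a i : ℝ)) = ∏ i, ∑ a ∈ s i, ee (y i * (a : ℝ)) := by
  rw [Finset.prod_univ_sum]
  exact sum_congr rfl fun a _ => ee_sum _

lemma ker_eq (θ : Qf r) {N : ℕ} (hN : 1 ≤ N) (t : ℝ) (x : Fin r → ℝ) :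
    (N : ℂ) ^ r * ker θ N t x = ∑ b ∈ b0 r (2 * N), ∑ a ∈ b0 r (2 * N),
      ee (∑ i, x i * ((a - b) i : ℝ) - t * θ (a - b)) := by
  have N0 : (N : ℝ) ≠ 0 := by positivity
  rw [reindex (2 * N) fun h _ => ee (∑ i, x i * (h i : ℝ) - t * θ h), ker, mul_sum]
  refine sum_congr rfl fun n hn => ?_
  rw [sum_const, bs, Fintype.card_piFinset, nsmul_eq_mul, ← mul_assoc]
  congr 1
  rw [Nat.cast_prod, Complex.ofReal_prod, ← Fin.prod_const, ← prod_mul_distrib]
  refine prod_congr rfl fun i _ => ?_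
  have hi := mem_Icc.1 (Fintype.mem_piFinset.1 hn i)
  rw [Int.card_Ico]
  have h1 : ((min (2 * (N : ℤ)) (2 * N - n i) - max 0 (-n i)).toNat : ℤ) = 2 * N - |n i| := by
    rcases abs_cases (n i) with h | h <;> omega
  have h2 : (((min (2 * (N : ℤ)) (2 * N - n i) - max 0 (-n i)).toNat : ℕ) : ℝ)
      = 2 * N - |(n i : ℝ)| := by
    exact_mod_cast h1
  rw [← Complex.ofReal_natCast, ← Complex.ofReal_natCast, h2, ← Complex.ofReal_mul]
  congr 1
  field_simp

lemma qf_add {A : Mx r} (hA : PD A) (h c : Fin r → ℤ) :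
    qf A (h + c) = qf A h + 2 * ∑ i, (A *ᵥ rv h) i * (c i : ℝ) + qf A c := by
  have e : ∑ i, (A *ᵥ rv h) i * (c i : ℝ) = rv c ⬝ᵥ A *ᵥ rv h := by
    rw [dotProduct_comm]; rfl
  simp only [qf, rv_add, Matrix.mulVec_add, add_dotProduct, dotProduct_add, e]
  rw [hA.symm (rv h) (rv c)]
  ring

lemma sq_sum {A : Mx r} (hA : PD A) (M : ℤ) (t : ℝ) (x : Fin r → ℝ) :
    ((∑ b ∈ b0 r M, ‖∑ a ∈ b0 r M,
      ee (∑ i, x i * ((a - b) i : ℝ) - t * qf A (a - b))‖ ^ 2 : ℝ) : ℂ) =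
    ∑ h ∈ Fintype.piFinset (fun _ : Fin r => Icc (-M) M),
      ee (∑ i, x i * (h i : ℝ) - t * qf A h) *
      ((∑ a ∈ bs M h, ee (∑ i, 2 * Real.pi * (-(t * (A *ᵥ rv h) i / Real.pi)) * (a i : ℝ))) *
        ∑ b ∈ b0 r M, ee (∑ i, 2 * Real.pi * (t * (A *ᵥ rv h) i / Real.pi) * (b i : ℝ))) := by
  have := reindex M fun h a => ∑ b ∈ b0 r M, ee (∑ i, x i * (h i : ℝ) - t * qf A h) *
    (ee (∑ i, 2 * Real.pi * (-(t * (A *ᵥ rv h) i / Real.pi)) * (a i : ℝ)) *
      ee (∑ i, 2 * Real.pi * (t * (A *ᵥ rv h) i / Real.pi) * (b i : ℝ)))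
  simp only [sum_mul_sum]
  simp only [mul_sum (b0 r M), mul_sum (bs M _)]
  rw [← this, Complex.ofReal_sum]
  simp only [Complex.ofReal_pow, ← Complex.conj_mul', map_sum, sum_mul_sum, ee_conj]
  rw [sum_comm]
  refine sum_congr rfl fun a' _ => ?_
  rw [sum_comm]
  refine sum_congr rfl fun a _ => sum_congr rfl fun b _ => ?_
  simp only [← ee_add]
  congr 1
  have h1 : a - b = (a - a') + (a' - b) := by abel
  have h2 : ∀ i, 2 * Real.pi * (t * (A *ᵥ rv (a - a')) i / Real.pi)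
      = 2 * t * (A *ᵥ rv (a - a')) i := fun i => by field_simp
  rw [show qf A (a - b) = qf A ((a - a') + (a' - b)) by rw [← h1], qf_add hA]
  simp only [mul_neg, h2, Pi.sub_apply, Int.cast_sub, mul_sub, sum_sub_distrib, neg_mul,
    sum_neg_distrib, mul_assoc (2 * t), ← mul_sum]
  ring

lemma wgt_nonneg (N : ℕ) (y : ℝ) : 0 ≤ wgt N y :=
  sum_nonneg fun j _ => by split_ifs <;> positivity

lemma ker_le {A : Mx r} (hA : PD A) {N : ℕ} (hN : 1 ≤ N) (t : ℝ) (x : Fin r → ℝ) :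
    ((N : ℝ) ^ r) ^ 2 * ‖ker (qf A) N t x‖ ^ 2 ≤ (2 * N) ^ r *
      ∑ h ∈ Fintype.piFinset (fun _ : Fin r => Icc (-(2 * N : ℤ)) (2 * N)),
        ∏ i, wgt N (t * (A *ᵥ rv h) i / Real.pi) := by
  have h1 : ((N : ℝ) ^ r) ^ 2 * ‖ker (qf A) N t x‖ ^ 2 = ‖(N : ℂ) ^ r * ker (qf A) N t x‖ ^ 2 := by
    rw [norm_mul, mul_pow, norm_pow, Complex.norm_natCast]
  rw [h1, ker_eq _ hN]
  refine (pow_le_pow_left₀ (norm_nonneg _) (norm_sum_le _ _) 2).trans
    (sq_sum_le_card_mul_sum_sq.trans ?_)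
  have hc : ((#(b0 r (2 * N)) : ℕ) : ℝ) = (2 * N) ^ r := by
    rw [b0, Fintype.card_piFinset_const, Int.card_Ico]
    have : ((2 * (N : ℤ) - 0).toNat : ℕ) = 2 * N := by omega
    rw [this]
    push_cast
    rfl
  rw [hc]
  refine mul_le_mul_of_nonneg_left ?_ (by positivity)
  refine (le_abs_self _).trans ?_
  rw [← Real.norm_eq_abs, ← Complex.norm_real, sq_sum hA]
  refine (norm_sum_le _ _).trans (sum_le_sum fun h hh => ?_)
  rw [norm_mul, ee_norm, one_mul, bs, b0, sum_ee, sum_ee, ← prod_mul_distrib, norm_prod]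
  refine prod_le_prod (fun i _ => norm_nonneg _) fun i _ => ?_
  rw [norm_mul]
  generalize t * (A *ᵥ rv h) i / Real.pi = y
  have g1 := geo (-y) (-round y)
  have e : |-y - ((-round y : ℤ) : ℝ)| = |y - round y| := by
    rw [← abs_neg]
    push_cast
    congr 1
    ring
  rw [e] at g1
  refine le_wgt hN (norm_nonneg _) (norm_nonneg _) ?_ ?_ (g1 (abs_sub_round _) _ _)
    (geo _ _ (abs_sub_round _) _ _)
  · exact_mod_cast geo_triv _ (M := 2 * N) (by omega) (by omega)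
  · exact_mod_cast geo_triv _ (M := 2 * N) (by omega) (by omega)

end WeylN

open WeylN Weyl in
theorem weyl {r : ℕ} {A : Mx r} (hA : PD A) {N b : ℕ} (hb : 1 ≤ b) (hbN : b ≤ N) {t : ℝ}
    (ht : t ∉ Mj A b (b / (N : ℝ) ^ 2)) (x : Fin r → ℝ) :
    ‖ker (qf A) N t x‖ ^ 2 ≤ (2400 * (r + 1 : ℝ) ^ 2 * (N : ℝ) ^ 2 / b) ^ r := by
  classical
  have hN : 1 ≤ N := hb.trans hbN
  have N0 : (0 : ℝ) < N := by exact_mod_cast hN
  have b0 : (0 : ℝ) < b := by exact_mod_cast hb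
  set C : ℝ := 150 * (r + 1 : ℝ) ^ 2 * N / b with hC
  have C0 : 0 < C := by positivity
  have h1 : ∑ h ∈ Fintype.piFinset (fun _ : Fin r => Icc (-(2 * N : ℤ)) (2 * N)),
      ∏ i, wgt N (t * (A *ᵥ rv h) i / Real.pi) ≤ (8 * C * (N : ℝ) ^ 2) ^ r := by
    simp only [wgt, Finset.prod_univ_sum]
    rw [sum_comm]
    have h2 : ∀ j ∈ Fintype.piFinset (fun _ : Fin r => range (N + 1)),
        (∑ h ∈ Fintype.piFinset (fun _ : Fin r => Icc (-(2 * N : ℤ)) (2 * N)), ∏ i,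
          if ∃ a : ℤ, |t * (A *ᵥ rv h) i / Real.pi - a| ≤ 2 ^ j i / N
            then 4 * (N : ℝ) ^ 2 / 4 ^ j i else 0) ≤
        ∏ i, (4 * C * (N : ℝ) ^ 2 * (1 / 2) ^ j i) := by
      intro j _
      simp only [Finset.prod_ite_zero, mem_univ, forall_true_left]
      rw [← sum_filter, sum_const, nsmul_eq_mul]
      have h3 := count hA hb hbN ht (fun i => 2 ^ j i) (fun i => one_le_pow₀ one_le_two)
      refine (mul_le_mul_of_nonneg_right (le_of_eq_of_le (by congr) h3) (by positivity)).trans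
        (le_of_eq ?_)
      rw [← prod_mul_distrib]
      refine prod_congr rfl fun i _ => ?_
      rw [show (4 : ℝ) ^ j i = 2 ^ j i * 2 ^ j i by rw [← mul_pow]; norm_num, one_div, inv_pow,
        ← hC]
      field_simp
    refine (sum_le_sum h2).trans ?_
    rw [← Finset.prod_univ_sum (fun _ : Fin r => range (N + 1))
      (fun _ j => 4 * C * (N : ℝ) ^ 2 * (1 / 2) ^ j), Fin.prod_const, ← mul_sum]
    refine pow_le_pow_left₀ (by positivity) ?_ _
    refine (mul_le_mul_of_nonneg_left (sum_geometric_two_le _) (by positivity)).trans (le_of_eq ?_)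
    ring
  have h2 := (ker_le hA hN t x).trans (mul_le_mul_of_nonneg_left h1 (by positivity))
  refine le_of_mul_le_mul_left (h2.trans (le_of_eq ?_)) (pow_pos (pow_pos N0 r) 2)
  rw [← pow_mul, mul_comm r 2, pow_mul, ← mul_pow, ← mul_pow, hC]
  congr 1
  ring

end Pool.Agent.P.MP_7211b7_an.NR
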