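import Pool.Agent.P.MP_7211b7_an.NRComb
import Pool.Agent.P.MP_7211b7_an.NRWeyl
import Pool.Agent.P.MP_7211b7_an.NRCopy1
import Pool.Agent.P.MP_7211b7_an.NRTor

/-! General flat tori: the level set estimate and the Strichartz estimate. -/

open MeasureTheory

namespace Pool.Agent.P.MP_7211b7_an.NR

namespace LevelN

lemma norm_tor_sq {r N : ℕ} (θ : Qf r) {S : Finset (Fin r → ℤ)} {a : (Fin r → ℤ) → ℂ}
    (hN : 1 ≤ N) (hS : ∀ n ∈ S, ∀ i, |n i| ≤ N) (ha : ∑ n ∈ S, ‖a n‖ ^ 2 ≤ 1)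
    (z : ℝ × (Fin r → ℝ)) : ‖tor θ S a z‖ ^ 2 ≤ 3 ^ r * (N : ℝ) ^ r := by
  have h1 : ‖tor θ S a z‖ ≤ ∑ n ∈ S, ‖a n‖ := by
    refine (norm_sum_le _ _).trans (le_of_eq (Finset.sum_congr rfl fun n _ => ?_))
    rw [norm_mul, mul_comm Complex.I, Complex.norm_exp_ofReal_mul_I, mul_one]
  have h2 : (S.card : ℝ) ≤ 3 ^ r * (N : ℝ) ^ r := by
    have h3 : S ⊆ Fintype.piFinset fun _ : Fin r => Finset.Icc (-(N : ℤ)) N := fun n hn =>
      Fintype.mem_piFinset.2 fun i => Finset.mem_Icc.2 (abs_le.1 (hS n hn i))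
    have h4 := Finset.card_le_card h3
    rw [Fintype.card_piFinset, Finset.prod_const, Finset.card_univ, Fintype.card_fin,
      Int.card_Icc] at h4
    have h5 : ((N : ℤ) + 1 - -(N : ℤ)).toNat ≤ 3 * N := by omega
    have h6 := h4.trans (Nat.pow_le_pow_left h5 r)
    rw [← mul_pow]
    exact_mod_cast h6
  calc _ ≤ (∑ n ∈ S, ‖a n‖) ^ 2 := by gcongr
    _ ≤ S.card * ∑ n ∈ S, ‖a n‖ ^ 2 := sq_sum_le_card_mul_sum_sq
    _ ≤ S.card * 1 := by gcongr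
    _ ≤ _ := by rwa [mul_one]

lemma lev_le {r : ℕ} (θ : Qf r) (S : Finset (Fin r → ℤ)) (a : (Fin r → ℤ) → ℂ)
    (T lam : ℝ) : lev θ S a T lam ≤ (volume (dom r T)).toReal :=
  ENNReal.toReal_mono (isCompact_dom r T).measure_lt_top.ne (measure_mono Set.inter_subset_left)

end LevelN

open LevelN in
theorem level {r : ℕ} {Q : Mx r} (hQ : PD Q) {q T : ℝ} (hq : 4 < r * (q - 2)) (hT0 : 0 < T) :
    LevelBd r (qf Q) q T := by
  obtain ⟨Cw, hCw'⟩ : ∃ Cw : ℝ, Cw = 2400 * (r + 1 : ℝ) ^ 2 := ⟨_, rfl⟩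
  have hCw : 0 < Cw := by rw [hCw']; positivity
  set θ := qf Q with hθ
  have hr : 1 ≤ r := by
    rcases r with _ | r
    · norm_num at hq
    · omega
  have r0 : (0 : ℝ) < r := by exact_mod_cast hr
  have r1 : (1 : ℝ) ≤ r := by exact_mod_cast hr
  have q2 : 2 < q := by nlinarith
  obtain ⟨δ, hδ⟩ : ∃ δ : ℝ, δ = r * (q - 2) / 4 - 1 := ⟨_, rfl⟩
  have δ0 : 0 < δ := by rw [hδ]; linarith
  obtain ⟨Ct, hCt, hT⟩ := tt r
  obtain ⟨k, Cs, hCs, hC⟩ := comb hQ hT0 δ0 (show 0 < 1 + (r / 2 : ℝ) by positivity)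
  have Cs0 : 0 ≤ Cs := by linarith
  obtain ⟨A, hA⟩ : ∃ A : ℝ, A = Cs * Ct ^ 2 := ⟨_, rfl⟩
  have A0 : 0 ≤ A := by rw [hA]; positivity
  obtain ⟨C0, hC0⟩ : ∃ C0 : ℝ, C0 = 1 + 4 * Cw + 8 * A := ⟨_, rfl⟩
  have C01 : 1 ≤ C0 := by rw [hC0]; linarith
  obtain ⟨C2, hC2⟩ : ∃ C2 : ℝ, C2 = (18 * C0) ^ (k + 2 + r) := ⟨_, rfl⟩
  have C20 : 0 < C2 := by rw [hC2]; positivity
  obtain ⟨N0, hN0⟩ : ∃ N0 : ℝ, N0 = (36 + 8 * A + Cs) * C2 := ⟨_, rfl⟩
  have N00 : 0 < N0 := by rw [hN0]; positivity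
  obtain ⟨Vd, hVd⟩ : ∃ Vd : ℝ, Vd = (volume (dom r T)).toReal := ⟨_, rfl⟩
  have Vd0 : 0 ≤ Vd := hVd ▸ ENNReal.toReal_nonneg
  obtain ⟨X1, hX1⟩ : ∃ X1 : ℝ, X1 = Vd * N0 ^ (r + 2 : ℝ) * (3 ^ r) ^ (q / 2) := ⟨_, rfl⟩
  obtain ⟨X2, hX2⟩ : ∃ X2 : ℝ, X2 = 4 * Cs * Ct * (18 * C0) ^ (1 + δ) := ⟨_, rfl⟩
  have X10 : 0 ≤ X1 := by rw [hX1]; positivity
  have X20 : 0 ≤ X2 := by rw [hX2]; positivity
  refine ⟨r / (4 * (k + 3 + r)), 1 + X1 + X2, by positivity, by positivity, ?_⟩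
  intro N S a B hN hS ha hB hBN
  have n1 : (1 : ℝ) ≤ N := by exact_mod_cast hN
  have n0 : (0 : ℝ) < N := by positivity
  obtain ⟨lam, hlam⟩ : ∃ lam : ℝ, lam = (N : ℝ) ^ (r / 2 : ℝ) / B := ⟨_, rfl⟩
  have lam0 : 0 < lam := by rw [hlam]; positivity
  have nr : ((N : ℝ) ^ (r / 2 : ℝ)) ^ 2 = (N : ℝ) ^ r := by
    rw [← Real.rpow_natCast, ← Real.rpow_mul n0.le, ← Real.rpow_natCast]
    congr 1
    push_cast
    ring
  have lam2 : lam ^ 2 = (N : ℝ) ^ r / B ^ 2 := by rw [hlam, div_pow, nr]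
  rw [← hlam]
  have m0 : 0 ≤ lev θ S a T lam := ENNReal.toReal_nonneg
  by_cases hB1 : 1 ≤ 3 ^ r * B ^ 2
  swap
  · have : dom r T ∩ {z | lam ≤ ‖tor θ S a z‖} = ∅ := by
      refine Set.eq_empty_of_forall_notMem fun z hz => hB1 ?_
      have h1 : lam ^ 2 ≤ ‖tor θ S a z‖ ^ 2 := pow_le_pow_left₀ lam0.le hz.2 2
      have h2 := h1.trans (norm_tor_sq θ hN hS ha z)
      rw [lam2, div_le_iff₀ (by positivity)] at h2
      have h3 : (0 : ℝ) < (N : ℝ) ^ r := by positivity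
      refine le_of_mul_le_mul_right ?_ h3
      linarith
    rw [lev, this, measure_empty, ENNReal.toReal_zero]
    positivity
  by_cases hN1 : N0 ≤ N
  swap
  · have h1 : 1 ≤ N0 ^ (r + 2 : ℝ) * (N : ℝ) ^ (-(r + 2 : ℝ)) := by
      rw [Real.rpow_neg n0.le, ← div_eq_mul_inv, one_le_div (by positivity)]
      exact Real.rpow_le_rpow n0.le (not_le.1 hN1).le (by positivity)
    have h2 : 1 ≤ ((3 : ℝ) ^ r) ^ (q / 2) * B ^ q := by
      have := Real.one_le_rpow hB1 (show 0 ≤ q / 2 by linarith)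
      rwa [Real.mul_rpow (by positivity) (by positivity), ← Real.rpow_natCast B,
        ← Real.rpow_mul hB.le, show ((2 : ℕ) : ℝ) * (q / 2) = q by push_cast; ring] at this
    calc _ ≤ Vd * 1 * 1 := by rw [hVd, mul_one, mul_one]; exact lev_le ..
      _ ≤ Vd * (N0 ^ (r + 2 : ℝ) * (N : ℝ) ^ (-(r + 2 : ℝ))) *
            (((3 : ℝ) ^ r) ^ (q / 2) * B ^ q) := by gcongr
      _ = X1 * (N : ℝ) ^ (-(r + 2 : ℝ)) * B ^ q := by rw [hX1]; ring
      _ ≤ _ := by gcongr; linarith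
  obtain ⟨b, hb1, hb2, hb3, hb4⟩ := Level.exists_b hr k C01 hB hB1 n1 hBN
  rw [← hC2] at hb4
  have b1 : (1 : ℝ) ≤ b := C01.trans hb1
  have b0 : (0 : ℝ) < b := by positivity
  have b1' : 1 ≤ b := by exact_mod_cast b1
  have b6 : 6 * b ≤ N := by
    have h1 : (b : ℝ) ^ 2 ≤ (b : ℝ) ^ (k + 2 + r) := pow_le_pow_right₀ b1 (by omega)
    have h2 : 36 * C2 ≤ N := by
      rw [hN0] at hN1; linarith [mul_nonneg A0 C20.le, mul_nonneg Cs0 C20.le]
    have h3 : ((6 : ℝ) * b) ^ 2 ≤ (N : ℝ) ^ 2 := by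
      linarith [mul_le_mul_of_nonneg_right h2 n0.le]
    exact_mod_cast (pow_le_pow_iff_left₀ (by positivity) n0.le two_ne_zero).1 h3
  have bB : B ^ 2 ≤ (b : ℝ) ^ (r / 2 : ℝ) :=
    le_trans (le_mul_of_one_le_left (by positivity) (Real.one_le_rpow C01 (by positivity))) hb2
  have hU := measurableSet_Mj Q b (b / (N : ℝ) ^ 2)
  obtain ⟨h, hm, h0, ⟨Bh, hBh⟩, t1, t2, t3⟩ := hT θ T lam ((Cw * (N : ℝ) ^ 2 / b) ^ (r / 2 : ℝ))
    N S a _ hT0 lam0 (by positivity) hN hS ha hU fun t ht x => by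
      refine le_of_pow_le_pow_left₀ two_ne_zero (by positivity) ?_
      rw [← Real.rpow_natCast (_ ^ (r / 2 : ℝ)) 2, ← Real.rpow_mul (by positivity),
        show (r / 2 : ℝ) * (2 : ℕ) = r by push_cast; ring, Real.rpow_natCast, hCw']
      exact weyl hQ b1' (by omega) ht x
  have i0 : 0 ≤ ∫ s in Set.Icc (-T) T, h s := integral_nonneg h0
  have i1 : (∫ s in Set.Icc (-T) T, h s) ^ 2 ≤ Ct ^ 2 * (N : ℝ) ^ r * lev θ S a T lam ^ 2 := by
    rw [← nr, ← mul_pow, ← mul_pow]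
    gcongr
  have u1 := hC b (b / (N : ℝ) ^ 2) h b1' (by positivity) (by
    have h1 : (b : ℝ) ^ (k + 1) ≤ (b : ℝ) ^ (k + 2 + r) := pow_le_pow_right₀ b1 (by omega)
    have h2 : Cs * C2 ≤ N := by
      rw [hN0] at hN1; linarith [mul_nonneg A0 C20.le]
    have h3 := mul_le_mul_of_nonneg_left (h1.trans hb4) Cs0
    rw [← mul_div_assoc, div_mul_eq_mul_div, div_le_one (by positivity)]
    rw [pow_succ] at h3
    linarith [mul_le_mul_of_nonneg_right h2 n0.le]) hm h0 ⟨Bh, hBh⟩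
  generalize lev θ S a T lam = m at *
  have key := Level.absorb (L := lam ^ 2) (P := Cs * Ct * (b : ℝ) ^ (1 + δ) / (N : ℝ) ^ 2)
    (U := A * (N : ℝ) ^ r / (b * (b : ℝ) ^ (r / 2 : ℝ)))
    (V := A * (b : ℝ) ^ (k + 2) * (N : ℝ) ^ r / (N : ℝ) ^ 2)
    (by positivity) m0 (by positivity) ?_ t3 (u1.trans ?_) ?_ ?_
  · refine key.trans ?_
    have f1 : (b : ℝ) ^ (1 + δ) ≤ (18 * C0) ^ (1 + δ) * B ^ (q - 2) := by
      calc _ ≤ (18 * C0 * B ^ (4 / r : ℝ)) ^ (1 + δ) := by gcongr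
        _ = _ := by
          rw [Real.mul_rpow (by positivity) (by positivity), ← Real.rpow_mul hB.le]
          congr 2
          rw [hδ]
          field_simp
          ring
    have f2 : B ^ q = B ^ (q - 2) * B ^ 2 := by
      rw [← Real.rpow_natCast, ← Real.rpow_add hB]
      congr 1
      push_cast
      ring
    have f3 : (N : ℝ) ^ (-(r + 2 : ℝ)) = 1 / ((N : ℝ) ^ r * (N : ℝ) ^ 2) := by
      rw [Real.rpow_neg n0.le, ← pow_add, ← Real.rpow_natCast, one_div]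
      push_cast
      rfl
    calc _ ≤ 4 * (Cs * Ct * ((18 * C0) ^ (1 + δ) * B ^ (q - 2)) / (N : ℝ) ^ 2) / lam ^ 2 := by
          gcongr
      _ = X2 * (N : ℝ) ^ (-(r + 2 : ℝ)) * B ^ q := by
          rw [hX2, f2, f3, lam2]
          field_simp
      _ ≤ _ := by gcongr; linarith
  · have g1 : 2 * Cw ^ (r / 2 : ℝ) ≤ C0 ^ (r / 2 : ℝ) := by
      calc _ ≤ 4 ^ (r / 2 : ℝ) * Cw ^ (r / 2 : ℝ) := by
            gcongr
            calc (2 : ℝ) = 4 ^ (1 / 2 : ℝ) := by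
                  rw [← Real.sqrt_eq_rpow, show (4 : ℝ) = 2 ^ 2 by norm_num,
                    Real.sqrt_sq (by norm_num)]
              _ ≤ _ := Real.rpow_le_rpow_of_exponent_le (by norm_num) (by linarith)
        _ = (4 * Cw) ^ (r / 2 : ℝ) := by rw [Real.mul_rpow (by norm_num) hCw.le]
        _ ≤ _ := by gcongr; linarith
    have g2 : ((N : ℝ) ^ 2) ^ (r / 2 : ℝ) = (N : ℝ) ^ r := by
      rw [← Real.rpow_natCast, ← Real.rpow_mul n0.le, ← Real.rpow_natCast]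
      congr 1
      push_cast
      ring
    rw [Real.div_rpow (by positivity) b0.le, Real.mul_rpow hCw.le (by positivity), g2, lam2,
      div_div, div_le_div_iff₀ (by positivity) (by positivity)]
    have g3 := (mul_le_mul_of_nonneg_right g1 (sq_nonneg B)).trans hb2
    have g4 : (0 : ℝ) ≤ (N : ℝ) ^ r := by positivity
    linarith [mul_le_mul_of_nonneg_left g3 g4]
  · have g1 : (b : ℝ) ^ (-(1 + r / 2 : ℝ)) = 1 / ((b : ℝ) * (b : ℝ) ^ (r / 2 : ℝ)) := by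
      rw [Real.rpow_neg b0.le, Real.rpow_add b0, one_div, Real.rpow_one]
    calc _ ≤ Cs * (b / (N : ℝ) ^ 2 * (b : ℝ) ^ δ * (Ct * m) +
          ((b : ℝ) ^ (-(1 + r / 2 : ℝ)) + b / (N : ℝ) ^ 2 * (b : ℝ) ^ (k + 1)) *
            (Ct ^ 2 * (N : ℝ) ^ r * m ^ 2)) := by
          gcongr
          omega
      _ = _ := by
          rw [g1, hA, Real.rpow_add b0, Real.rpow_one]
          field_simp
          ring
  · rw [lam2, div_div, div_le_div_iff₀ (by positivity) (by positivity)]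
    have g1 : 8 * A ≤ b := by linarith
    have g2 := mul_le_mul g1 bB (by positivity) b0.le
    have g4 : (0 : ℝ) ≤ (N : ℝ) ^ r := by positivity
    linarith [mul_le_mul_of_nonneg_left g2 g4]
  · rw [lam2, div_div, div_le_div_iff₀ (by positivity) (by positivity)]
    have g1 : (b : ℝ) ^ (r / 2 : ℝ) ≤ (b : ℝ) ^ r := by
      rw [← Real.rpow_natCast]
      exact Real.rpow_le_rpow_of_exponent_le b1 (by linarith)
    have g2 : (b : ℝ) ^ (k + 2) * B ^ 2 ≤ C2 * N := by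
      refine le_trans ?_ hb4
      rw [pow_add _ (k + 2)]
      gcongr
      exact bB.trans g1
    have g3 : 8 * A * C2 ≤ N := by rw [hN0] at hN1; linarith [mul_nonneg Cs0 C20.le]
    have g5 : 8 * A * ((b : ℝ) ^ (k + 2) * B ^ 2) ≤ (N : ℝ) ^ 2 := by
      calc _ ≤ 8 * A * (C2 * N) := by gcongr
        _ ≤ _ := by linarith [mul_le_mul_of_nonneg_right g3 n0.le]
    have g4 : (0 : ℝ) ≤ (N : ℝ) ^ r := by positivity
    linarith [mul_le_mul_of_nonneg_left g5 g4]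

/-- scale invariant Strichartz estimates on every flat torus -/
theorem torus_strichartz {r : ℕ} {A : Mx r} (hA : PD A) : TorThm r (qf A) := by
  intro p T hp hT
  have hr0 : (0 : ℝ) < r := by
    rcases Nat.eq_zero_or_pos r with h | h
    · subst h; norm_num at hp
    · exact_mod_cast h
  have hpc : (2 : ℝ) < 2 + 4 / r := by
    have : (0 : ℝ) < 4 / r := by positivity
    linarith
  have hpc' : (r : ℝ) * (2 + 4 / r - 2) ≤ 4 := by
    rw [add_sub_cancel_left, mul_div_cancel₀ _ hr0.ne']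
  refine layer hp (fun ε hε => ?_) fun q hq => level hA hq hT
  obtain ⟨T0, hT0, hb⟩ := tora hA hpc.le hε (bourgain_demeter r _ hpc hpc')
  exact cover T (by linarith) hT0 hb

end Pool.Agent.P.MP_7211b7_an.NR
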