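import Pool.Agent.P.MP_7211b7_an.NRDefs

/-!
# General flat tori: common denominators for approximately linear families
-/

open Finset Matrix

namespace Pool.Agent.P.MP_7211b7_an.NR

theorem abs_dot_int {r : ℕ} {x y : Fin r → ℤ} {R : ℕ} (hx : ∀ i, |x i| ≤ R) (hy : ∀ i, |y i| ≤ R) :
    |x ⬝ᵥ y| ≤ (((r + 1) * R ^ 2 : ℕ) : ℤ) := by
  refine (Finset.abs_sum_le_sum_abs _ _).trans ?_
  calc ∑ i, |x i * y i| ≤ ∑ _i : Fin r, (R : ℤ) ^ 2 := Finset.sum_le_sum fun i _ => by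
        rw [abs_mul, pow_two]
        exact mul_le_mul (hx i) (hy i) (abs_nonneg _) (Int.natCast_nonneg _)
    _ ≤ _ := by
        simp only [sum_const, card_univ, Fintype.card_fin, nsmul_eq_mul]
        push_cast
        nlinarith [sq_nonneg (R : ℤ)]

theorem det_bound {κ : Type} [Fintype κ] [DecidableEq κ] {r H : ℕ} (hk : Fintype.card κ ≤ r)
    (hH : 1 ≤ H) (G : Matrix κ κ ℤ) (hG : ∀ i j, |G i j| ≤ H) :
    |G.det| ≤ ((r.factorial * H ^ r : ℕ) : ℤ) := by
  have h := Matrix.det_le (A := G) (abv := AbsoluteValue.abs) (x := (H : ℤ)) hG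
  rw [AbsoluteValue.abs_apply, nsmul_eq_mul] at h
  refine h.trans ?_
  exact_mod_cast Nat.mul_le_mul (Nat.factorial_le hk) (Nat.pow_le_pow_right hH hk)

/-- Cramer's rule with a common determinant -/
theorem cramer_common {r : ℕ} {ι : Type} (x : ι → Fin r → ℤ) {R : ℕ} (hR : 1 ≤ R)
    (hx : ∀ s i, |x s i| ≤ R) :
    ∃ (κ : Type) (_ : Fintype κ) (a : κ → ι) (Δ : ℤ), Fintype.card κ ≤ r ∧ Δ ≠ 0 ∧
      |Δ| ≤ ((r.factorial * ((r + 1) * R ^ 2) ^ r : ℕ) : ℤ) ∧ ∀ s, ∃ c : κ → ℤ,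
        (∀ j, |c j| ≤ ((r.factorial * ((r + 1) * R ^ 2) ^ r : ℕ) : ℤ)) ∧
          Δ • x s = ∑ j, c j • x (a j) := by
  classical
  let v : ι → Fin r → ℚ := fun s i => x s i
  obtain ⟨κ, a, -, hspan, hli⟩ := exists_linearIndependent' ℚ v
  have : Finite κ := hli.finite
  let _ : Fintype κ := Fintype.ofFinite κ
  have hk : Fintype.card κ ≤ r := by simpa using hli.fintype_card_le_finrank
  have hH : 1 ≤ (r + 1) * R ^ 2 := Nat.mul_pos (by omega) (by positivity)
  let G : Matrix κ κ ℤ := Matrix.of fun j k => x (a j) ⬝ᵥ x (a k)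
  have hGm : ∀ (w : κ → ℤ) j, (G *ᵥ w) j = x (a j) ⬝ᵥ ∑ k, w k • x (a k) := fun w j => by
    rw [dotProduct_sum]
    simp only [G, Matrix.mulVec, dotProduct_smul, smul_eq_mul]
    exact Finset.sum_congr rfl fun k _ => mul_comm _ _
  have key : ∀ (u : Fin r → ℤ) (w : κ → ℚ), (∀ i, (u i : ℚ) = ∑ k, w k * x (a k) i) →
      (∀ j, x (a j) ⬝ᵥ u = 0) → u = 0 := fun u w hw h0 => by
    have h1 : ((u ⬝ᵥ u : ℤ) : ℚ) = ∑ k, w k * ((x (a k) ⬝ᵥ u : ℤ) : ℚ) := by
      simp only [dotProduct, Int.cast_sum, Int.cast_mul, Finset.mul_sum]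
      rw [Finset.sum_comm]
      refine Finset.sum_congr rfl fun i _ => ?_
      conv_lhs => rw [mul_comm, hw i, Finset.mul_sum]
      rw [← hw i]
      exact Finset.sum_congr rfl fun k _ => by ring
    simp only [h0, Int.cast_zero, mul_zero, sum_const_zero, Int.cast_eq_zero] at h1
    exact dotProduct_self_eq_zero.1 h1
  refine ⟨κ, inferInstance, a, G.det, hk, fun h0 => ?_,
    det_bound hk hH G fun i j => abs_dot_int (hx _) (hx _), fun s => ?_⟩
  · obtain ⟨w, hw0, hw⟩ := Matrix.exists_mulVec_eq_zero_iff.2 h0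
    have h1 := key (∑ k, w k • x (a k)) (fun k => w k) (fun i => by simp [Finset.sum_apply])
      (fun j => by rw [← hGm, hw]; rfl)
    refine hw0 (funext fun k => ?_)
    have h2 := Fintype.linearIndependent_iff.1 hli (fun k => (w k : ℚ)) (by
      funext i
      have := congrArg (fun z : Fin r → ℤ => (z i : ℚ)) h1
      simpa [Finset.sum_apply, v] using this) k
    exact_mod_cast h2
  · have hs : v s ∈ Submodule.span ℚ (Set.range (v ∘ a)) :=
      hspan ▸ Submodule.subset_span ⟨s, rfl⟩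
    obtain ⟨w, hw⟩ := (Submodule.mem_span_range_iff_exists_fun ℚ).1 hs
    let y : κ → ℤ := fun j => x (a j) ⬝ᵥ x s
    refine ⟨G.cramer y, fun j => ?_, ?_⟩
    · rw [Matrix.cramer_apply]
      refine det_bound hk hH _ fun i k => ?_
      rw [Matrix.updateCol_apply]
      split_ifs
      · exact abs_dot_int (hx _) (hx _)
      · exact abs_dot_int (hx _) (hx _)
    · rw [eq_comm, ← sub_eq_zero]
      refine key _ (fun k => (G.cramer y k : ℚ) - G.det * w k) (fun i => ?_) fun j => ?_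
      · have := congrFun hw i
        simp only [Finset.sum_apply, Pi.smul_apply, Function.comp, v, smul_eq_mul] at this
        simp only [Pi.sub_apply, Finset.sum_apply, Pi.smul_apply, smul_eq_mul, sub_mul,
          Finset.sum_sub_distrib, mul_assoc, ← Finset.mul_sum, this]
        push_cast
        rfl
      · rw [dotProduct_sub, ← hGm, Matrix.mulVec_cramer, dotProduct_smul]
        simp [y]

/-- a family that is approximately the graph of a linear map has a common denominator -/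
theorem lin {r : ℕ} {ι : Type} (x y : ι → Fin r → ℤ) (w : ι → ℚ) {R H : ℕ} (hR : 1 ≤ R)
    (hH : H = (r + 1) * R ^ 2) (hx : ∀ s i, |x s i| ≤ R) (hw : ∀ s, (w s).den ≤ H)
    (L : (Fin r → ℝ) →ₗ[ℝ] (Fin r → ℝ)) {η : ℝ}
    (hL : ∀ s, ‖L (rv (x s)) - (w s : ℝ) • rv (y s)‖ ≤ η)
    (hη : ((r + 1).factorial : ℝ) * (H : ℝ) ^ (2 * r + 1) * η < 1) :
    ∃ M : ℕ, M ≠ 0 ∧ M ≤ r.factorial * H ^ (2 * r) ∧ ∀ s i, ((w s).den : ℤ) ∣ M * y s i := by
  classical
  obtain ⟨κ, _, a, Δ, hk, hΔ, hΔb, hc⟩ := cramer_common x hR hx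
  rw [← hH] at hΔb hc
  have hH1 : 1 ≤ H := hH ▸ Nat.mul_pos (by omega) (by positivity)
  set D : ℕ := ∏ j, (w (a j)).den with hD
  have hD0 : 0 < D := Finset.prod_pos fun j _ => (w (a j)).pos
  have hDb : D ≤ H ^ r := by
    refine (Finset.prod_le_pow_card _ _ H fun j _ => hw _).trans ?_
    exact Nat.pow_le_pow_right hH1 (by simpa using hk)
  refine ⟨Δ.natAbs * D, by positivity, ?_, fun s i => ?_⟩
  · rw [two_mul, pow_add, ← mul_assoc]
    refine Nat.mul_le_mul ?_ hDb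
    rw [← Int.natCast_natAbs] at hΔb
    exact_mod_cast hΔb
  obtain ⟨c, hcb, hcs⟩ := hc s
  have he : ∀ j, ∃ e : ℤ, (e : ℚ) = w (a j) * D := fun j => by
    obtain ⟨z, hz⟩ : (w (a j)).den ∣ D := Finset.dvd_prod_of_mem _ (mem_univ j)
    refine ⟨(w (a j)).num * z, ?_⟩
    rw [hz]
    push_cast
    rw [← mul_assoc, Rat.mul_den_eq_num]
  choose e he using he
  have hη0 : 0 ≤ η := (norm_nonneg _).trans (hL s)
  set Z : ℝ := r.factorial * (H : ℝ) ^ r with hZ
  have hZ0 : 0 ≤ Z := by positivity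
  have hcast : ∀ z : ℤ, |z| ≤ ((r.factorial * H ^ r : ℕ) : ℤ) → |(z : ℝ)| ≤ Z := fun z hz => by
    rw [hZ]; exact_mod_cast hz
  have h1 : (Δ : ℝ) • rv (x s) = ∑ j, (c j : ℝ) • rv (x (a j)) := by
    funext k
    have := congrArg (fun z : Fin r → ℤ => (z k : ℝ)) hcs
    simpa [Finset.sum_apply, rv] using this
  have h2 : (Δ : ℝ) • ((w s : ℝ) • rv (y s)) - ∑ j, (c j : ℝ) • ((w (a j) : ℝ) • rv (y (a j))) =
      ∑ j, (c j : ℝ) • (L (rv (x (a j))) - (w (a j) : ℝ) • rv (y (a j))) -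
        (Δ : ℝ) • (L (rv (x s)) - (w s : ℝ) • rv (y s)) := by
    have h3 := congrArg L h1
    rw [map_smul, map_sum] at h3
    simp only [map_smul] at h3
    simp only [smul_sub, Finset.sum_sub_distrib, h3]
    abel
  have h3 : ‖(Δ : ℝ) • ((w s : ℝ) • rv (y s)) -
      ∑ j, (c j : ℝ) • ((w (a j) : ℝ) • rv (y (a j)))‖ ≤ (r + 1) * Z * η := by
    rw [h2]
    refine (norm_sub_le _ _).trans ?_
    have h4 : ‖∑ j, (c j : ℝ) • (L (rv (x (a j))) - (w (a j) : ℝ) • rv (y (a j)))‖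
        ≤ r * (Z * η) := by
      refine (norm_sum_le _ _).trans ((Finset.sum_le_card_nsmul _ _ (Z * η) fun j _ => ?_).trans ?_)
      · rw [norm_smul]
        exact mul_le_mul (hcast _ (hcb j)) (hL _) (norm_nonneg _) hZ0
      · rw [nsmul_eq_mul]
        exact mul_le_mul_of_nonneg_right (by exact_mod_cast hk) (by positivity)
    have h5 : ‖(Δ : ℝ) • (L (rv (x s)) - (w s : ℝ) • rv (y s))‖ ≤ Z * η := by
      rw [norm_smul]
      exact mul_le_mul (hcast _ hΔb) (hL _) (norm_nonneg _) hZ0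
    linarith
  have h4 := (norm_le_pi_norm _ i).trans h3
  set n : ℤ := Δ * (w s).num * y s i * D - (w s).den * ∑ j, c j * e j * y (a j) i with hn
  have h5 : (n : ℝ) = ((Δ : ℝ) • ((w s : ℝ) • rv (y s)) -
      ∑ j, (c j : ℝ) • ((w (a j) : ℝ) • rv (y (a j)))) i * ((w s).den * D) := by
    have e1 : ∀ j, (e j : ℝ) = (w (a j) : ℝ) * D := fun j => by exact_mod_cast he j
    have e2 : ((w s).num : ℝ) = (w s : ℝ) * (w s).den := by
      exact_mod_cast (Rat.mul_den_eq_num (w s)).symm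
    rw [hn]
    push_cast
    simp only [Pi.sub_apply, Finset.sum_apply, Pi.smul_apply, smul_eq_mul, rv, e1, e2, sub_mul,
      Finset.sum_mul, Finset.mul_sum]
    congr 1
    · ring
    · exact Finset.sum_congr rfl fun j _ => by ring
  have h6 : |(n : ℝ)| < 1 := by
    rw [h5, abs_mul]
    refine lt_of_le_of_lt ?_ hη
    have h7 : |(((w s).den : ℝ) * D)| ≤ H * (H : ℝ) ^ r := by
      rw [abs_of_nonneg (by positivity)]
      exact_mod_cast Nat.mul_le_mul (hw s) hDb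
    refine (mul_le_mul h4 h7 (abs_nonneg _) (by positivity)).trans (le_of_eq ?_)
    rw [hZ, Nat.factorial_succ]
    push_cast
    ring
  have h7 : n = 0 := Int.abs_lt_one_iff.1 (by exact_mod_cast h6)
  have h8 : ((w s).den : ℤ) ∣ (w s).num * (Δ * D * y s i) :=
    ⟨∑ j, c j * e j * y (a j) i, by linear_combination h7⟩
  have h9 : ((w s).den : ℤ) ∣ Δ * D * y s i :=
    (Int.isCoprime_iff_gcd_eq_one.2 (by
      rw [Int.gcd_comm]; exact (w s).reduced)).dvd_of_dvd_mul_left h8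
  push_cast
  rw [mul_assoc] at h9 ⊢
  rcases abs_choice Δ with h | h <;> rw [h]
  · exact h9
  · rw [neg_mul]; exact h9.neg_right

theorem divstep {D M : ℕ} {x : ℤ} (hx : x ≠ 0) (hD : 0 < D) (hM : M ≠ 0) (h : (D : ℤ) ∣ M * x) :
    ∃ γ ∈ M.divisors, ∃ q : ℕ, 1 ≤ q ∧ (q : ℤ) ≤ |x| ∧ D = γ * q := by
  have hg : 0 < Nat.gcd D M := Nat.gcd_pos_of_pos_left _ hD
  obtain ⟨q, hq⟩ := Nat.gcd_dvd_left D M
  obtain ⟨m, hm⟩ := Nat.gcd_dvd_right D M
  have hco : Nat.Coprime q m := by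
    have := Nat.coprime_div_gcd_div_gcd hg
    rwa [Nat.div_eq_of_eq_mul_right hg hq, Nat.div_eq_of_eq_mul_right hg hm] at this
  have h1 : D ∣ M * x.natAbs := by
    have := Int.natAbs_dvd_natAbs.2 h
    simpa [Int.natAbs_mul] using this
  have h2 : q ∣ m * x.natAbs := by
    rw [hq] at h1
    conv_rhs at h1 => rw [hm, mul_assoc]
    exact Nat.dvd_of_mul_dvd_mul_left hg h1
  have h3 := Nat.le_of_dvd (Int.natAbs_pos.2 hx) (hco.dvd_of_dvd_mul_left h2)
  refine ⟨Nat.gcd D M, Nat.mem_divisors.2 ⟨Nat.gcd_dvd_right D M, hM⟩, q, ?_, ?_, hq⟩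
  · rcases Nat.eq_zero_or_pos q with h0 | h0
    · rw [h0, mul_zero] at hq; omega
    · exact h0
  · rw [← Int.natCast_natAbs]; exact_mod_cast h3

end Pool.Agent.P.MP_7211b7_an.NR
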