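import Pool.Agent.P.MP_7211b7_an.NRLin

/-!
# General flat tori: the structure of the major arcs inside one cone
-/

open Finset Matrix

namespace Pool.Agent.P.MP_7211b7_an.NR

/-- triples `(τ, h, m)` -/
abbrev Tri (r : ℕ) : Type := ℝ × (Fin r → ℤ) × (Fin r → ℤ)

/-- `τ A h` is close to `m` -/
structure IsSol {r : ℕ} (A : Mx r) (b : ℕ) (ε T : ℝ) (s : Tri r) : Prop where
  t_le : |s.1| ≤ T
  h_ne : s.2.1 ≠ 0
  m_ne : s.2.2 ≠ 0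
  h_le : ‖rv s.2.1‖ ≤ b
  near : ‖s.1 • A *ᵥ rv s.2.1 - rv s.2.2‖ ≤ ε

theorem one_le_norm_rv {r : ℕ} {n : Fin r → ℤ} (hn : n ≠ 0) : 1 ≤ ‖rv n‖ := by
  obtain ⟨i, hi⟩ := Function.ne_iff.1 hn
  refine le_trans ?_ (norm_le_pi_norm (rv n) i)
  rw [Real.norm_eq_abs, rv]
  exact_mod_cast Int.one_le_abs hi

theorem abs_le_norm_rv {r : ℕ} (n : Fin r → ℤ) (i : Fin r) : ((|n i| : ℤ) : ℝ) ≤ ‖rv n‖ := by
  refine le_trans (le_of_eq ?_) (norm_le_pi_norm (rv n) i)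
  rw [Real.norm_eq_abs, rv, Int.cast_abs]

theorem cast_dot {r : ℕ} (x y : Fin r → ℤ) : ((x ⬝ᵥ y : ℤ) : ℝ) = rv x ⬝ᵥ rv y := by
  simp [dotProduct, rv]

section est

variable {r : ℕ} {A : Mx r} {c K ε T : ℝ} {b : ℕ}

theorem low (hlo : ∀ x : Fin r → ℝ, c * ‖x‖ ^ 2 ≤ x ⬝ᵥ A *ᵥ x) (x : Fin r → ℝ) :
    c * ‖x‖ ≤ r * ‖A *ᵥ x‖ := by
  rcases (norm_nonneg x).eq_or_lt with h | h
  · rw [← h, mul_zero]; positivity
  · have := (hlo x).trans ((le_abs_self _).trans (abs_dot_le _ _))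
    refine le_of_mul_le_mul_left ?_ h
    linarith

theorem IsSol.m_le (hup : ∀ x : Fin r → ℝ, ‖A *ᵥ x‖ ≤ K * ‖x‖) {s : Tri r} (hs : IsSol A b ε T s) :
    ‖rv s.2.2‖ ≤ |s.1| * (K * ‖rv s.2.1‖) + ε := by
  have h1 := norm_sub_le (s.1 • A *ᵥ rv s.2.1) (s.1 • A *ᵥ rv s.2.1 - rv s.2.2)
  rw [sub_sub_cancel, norm_smul, Real.norm_eq_abs] at h1
  have h2 := mul_le_mul_of_nonneg_left (hup (rv s.2.1)) (abs_nonneg s.1)
  linarith [hs.near]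

theorem IsSol.m_le' (hup : ∀ x : Fin r → ℝ, ‖A *ᵥ x‖ ≤ K * ‖x‖) (hε : ε ≤ 1 / 2) {s : Tri r}
    (hs : IsSol A b ε T s) : ‖rv s.2.2‖ ≤ 2 * K * (|s.1| * ‖rv s.2.1‖) := by
  linarith [hs.m_le hup, one_le_norm_rv hs.m_ne]

theorem IsSol.le_m (hlo : ∀ x : Fin r → ℝ, c * ‖x‖ ^ 2 ≤ x ⬝ᵥ A *ᵥ x) (hε : ε ≤ 1 / 2) {s : Tri r}
    (hs : IsSol A b ε T s) : c * (|s.1| * ‖rv s.2.1‖) ≤ 2 * r * ‖rv s.2.2‖ := by
  have h1 := norm_add_le (s.1 • A *ᵥ rv s.2.1 - rv s.2.2) (rv s.2.2)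
  rw [sub_add_cancel, norm_smul, Real.norm_eq_abs] at h1
  have h2 := mul_le_mul_of_nonneg_left (low hlo (rv s.2.1)) (abs_nonneg s.1)
  have h3 : |s.1| * ‖A *ᵥ rv s.2.1‖ ≤ 2 * ‖rv s.2.2‖ := by
    linarith [hs.near, one_le_norm_rv hs.m_ne]
  have h4 := mul_le_mul_of_nonneg_left h3 (Nat.cast_nonneg (α := ℝ) r)
  linarith

/-- the pairing of `h` with `m'` -/
theorem pair_near {s s' : Tri r} (hs' : IsSol A b ε T s') :
    |((s.2.1 ⬝ᵥ s'.2.2 : ℤ) : ℝ) - s'.1 * (rv s.2.1 ⬝ᵥ A *ᵥ rv s'.2.1)|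
      ≤ r * (‖rv s.2.1‖ * ε) := by
  have h1 := abs_dot_le (rv s.2.1) (s'.1 • A *ᵥ rv s'.2.1 - rv s'.2.2)
  rw [dotProduct_sub, dotProduct_smul, smul_eq_mul, abs_sub_comm, ← cast_dot] at h1
  exact h1.trans (by gcongr; exact hs'.near)

theorem pair_low (hc : 0 < c) (hK : 1 ≤ K) (hup : ∀ x : Fin r → ℝ, ‖A *ᵥ x‖ ≤ K * ‖x‖)
    (hε : ε ≤ 1 / 2) (hε' : 8 * K * r * ε ≤ c) {s s' : Tri r} (hs' : IsSol A b ε T s')
    (hP : c / 2 * (‖rv s.2.1‖ * ‖rv s'.2.1‖) ≤ rv s.2.1 ⬝ᵥ A *ᵥ rv s'.2.1) :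
    c / 4 * (‖rv s.2.1‖ * (|s'.1| * ‖rv s'.2.1‖)) ≤ |((s.2.1 ⬝ᵥ s'.2.2 : ℤ) : ℝ)| := by
  have h1 := pair_near (s := s) hs'
  have h2 := (one_le_norm_rv hs'.m_ne).trans (hs'.m_le' hup hε)
  set P := rv s.2.1 ⬝ᵥ A *ᵥ rv s'.2.1
  set n := ‖rv s.2.1‖
  set w := |s'.1| * ‖rv s'.2.1‖ with hw
  have hn : 0 ≤ n := norm_nonneg _
  have hP0 : 0 ≤ P := le_trans (by positivity) hP
  have h3 := abs_sub_abs_le_abs_sub (s'.1 * P) ((s.2.1 ⬝ᵥ s'.2.2 : ℤ) : ℝ)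
  rw [abs_sub_comm, abs_mul, abs_of_nonneg hP0] at h3
  have h4 : c / 2 * (n * w) ≤ |s'.1| * P := by
    have := mul_le_mul_of_nonneg_left hP (abs_nonneg s'.1)
    rw [hw]
    linarith
  have h5 : r * ε ≤ c / 4 * w := by
    have h6 : c * 1 ≤ c * (2 * K * w) := mul_le_mul_of_nonneg_left h2 hc.le
    refine le_of_mul_le_mul_left ?_ (show 0 < 8 * K by linarith)
    linarith
  have h6 := mul_le_mul_of_nonneg_left h5 hn
  linarith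

/-- the ratio of two times in one cone is close to a rational number -/
theorem ratio (hA : PD A) (hc : 0 < c) (hK : 1 ≤ K)
    (hlo : ∀ x : Fin r → ℝ, c * ‖x‖ ^ 2 ≤ x ⬝ᵥ A *ᵥ x) (hup : ∀ x : Fin r → ℝ, ‖A *ᵥ x‖ ≤ K * ‖x‖)
    (hε0 : 0 ≤ ε) (hε : ε ≤ 1 / 2) (hε' : 8 * K * r * ε ≤ c) {s s1 : Tri r}
    (hs : IsSol A b ε T s) (h1 : IsSol A b ε T s1)
    (hP : c / 2 * (‖rv s.2.1‖ * ‖rv s1.2.1‖) ≤ rv s.2.1 ⬝ᵥ A *ᵥ rv s1.2.1)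
    (hm : ‖rv s.2.2‖ ≤ 2 * ‖rv s1.2.2‖) :
    s1.2.1 ⬝ᵥ s.2.2 ≠ 0 ∧ s.2.1 ⬝ᵥ s1.2.2 ≠ 0 ∧
      |s.1 - s1.1 * (((s1.2.1 ⬝ᵥ s.2.2 : ℤ) : ℝ) / ((s.2.1 ⬝ᵥ s1.2.2 : ℤ) : ℝ))| * ‖rv s.2.1‖
        ≤ 4 * r * (1 + 8 * r * K / c) / c * ε := by
  have hP' : c / 2 * (‖rv s1.2.1‖ * ‖rv s.2.1‖) ≤ rv s1.2.1 ⬝ᵥ A *ᵥ rv s.2.1 := by
    rwa [hA.symm, mul_comm ‖rv s1.2.1‖]
  have hu := pair_low hc hK hup hε hε' hs hP'
  have hv := pair_low hc hK hup hε hε' h1 hP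
  have nu := pair_near (s := s1) hs
  have nv := pair_near (s := s) h1
  rw [hA.symm] at nu
  have a1 := (one_le_norm_rv hs.m_ne).trans (hs.m_le' hup hε)
  have a2 := (one_le_norm_rv h1.m_ne).trans (h1.m_le' hup hε)
  have a3 := hs.le_m hlo hε
  have a4 := h1.m_le' hup hε
  have n0 := one_le_norm_rv hs.h_ne
  have n1 := one_le_norm_rv h1.h_ne
  set u : ℝ := ((s1.2.1 ⬝ᵥ s.2.2 : ℤ) : ℝ) with hudef
  set v : ℝ := ((s.2.1 ⬝ᵥ s1.2.2 : ℤ) : ℝ) with hvdef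
  set P := rv s.2.1 ⬝ᵥ A *ᵥ rv s1.2.1
  set n := ‖rv s.2.1‖
  set n' := ‖rv s1.2.1‖
  set w := |s.1| * n with hw
  set w' := |s1.1| * n' with hw'
  have w0 : 0 < w := pos_of_mul_pos_right (zero_lt_one.trans_le a1) (by linarith)
  have w1 : 0 < w' := pos_of_mul_pos_right (zero_lt_one.trans_le a2) (by linarith)
  have u0 : 0 < |u| := lt_of_lt_of_le (by positivity) hu
  have v0 : 0 < |v| := lt_of_lt_of_le (by positivity) hv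
  refine ⟨fun h => ?_, fun h => ?_, ?_⟩
  · rw [hudef, h] at u0; simp at u0
  · rw [hvdef, h] at v0; simp at v0
  have e : s.1 - s1.1 * (u / v) = (s.1 * (v - s1.1 * P) - s1.1 * (u - s.1 * P)) / v := by
    have := abs_pos.1 v0
    field_simp
    ring
  have b1 : |s.1 * (v - s1.1 * P) - s1.1 * (u - s.1 * P)| ≤ r * ε * (w + w') := by
    refine (abs_sub _ _).trans ?_
    rw [abs_mul, abs_mul]
    have b2 := mul_le_mul_of_nonneg_left nv (abs_nonneg s.1)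
    have b3 := mul_le_mul_of_nonneg_left nu (abs_nonneg s1.1)
    rw [hw, hw']
    linarith
  have b2 : w ≤ 8 * r * K / c * w' := by
    rw [div_mul_eq_mul_div, le_div_iff₀ hc]
    have := mul_le_mul_of_nonneg_left (hm.trans (mul_le_mul_of_nonneg_left a4 zero_le_two))
      (show (0 : ℝ) ≤ 2 * r by positivity)
    linarith
  have b3 : r * ε * (w + w') ≤ r * ε * ((1 + 8 * r * K / c) * w') :=
    mul_le_mul_of_nonneg_left (by linarith) (by positivity)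
  rw [e, abs_div, div_mul_eq_mul_div, div_le_iff₀ v0]
  calc _ ≤ r * ε * ((1 + 8 * r * K / c) * w') * n :=
        mul_le_mul_of_nonneg_right (b1.trans b3) (by linarith)
    _ = 4 * r * (1 + 8 * r * K / c) / c * ε * (c / 4 * (n * w')) := by field_simp
    _ ≤ _ := mul_le_mul_of_nonneg_left hv (by positivity)

/-- the final rewriting of a reduced fraction -/
theorem to_arc {τ τ1 C1 n μ : ℝ} {ρ : ℚ} {γ γ' q a0 : ℕ} (hK : 1 ≤ K) (hτ1 : τ1 ≠ 0)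
    (hγ : 0 < γ) (hγ' : 0 < γ') (hq : 1 ≤ q) (hnum : ρ.num.natAbs = γ * a0) (hden : ρ.den = γ' * q)
    (hqn : (q : ℝ) ≤ n) (ha : (a0 : ℝ) ≤ μ) (hμ1 : 1 ≤ μ) (hμ : μ ≤ 2 * K * (|τ| * n))
    (hC : 0 ≤ C1 * ε) (hsm : 4 * K * (C1 * ε) ≤ 1) (hcl : |τ - τ1 * ρ| * n ≤ C1 * ε) :
    ∃ a : ℤ, |q * (γ' / (γ * |τ1|)) * τ - a| ≤ 4 * K * (C1 * ε) * min (γ' / (γ * |τ1|)) 1 := by
  have q1 : (1 : ℝ) ≤ q := by exact_mod_cast hq
  have g0 : (0 : ℝ) < γ := by exact_mod_cast hγ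
  have g1 : (0 : ℝ) < γ' := by exact_mod_cast hγ'
  have t0 : 0 < |τ1| := abs_pos.2 hτ1
  have n0 : 0 < n := by linarith
  set σ : ℝ := γ' / (γ * |τ1|) with hσ
  have σ0 : 0 < σ := by positivity
  have e1 : |q * σ * (τ1 * ρ)| = a0 := by
    have h1 : |(ρ : ℝ)| = (γ * a0) / (γ' * q) := by
      rw [Rat.cast_def, abs_div, ← Int.cast_abs, ← Int.natCast_natAbs, hnum, hden,
        abs_of_nonneg (Nat.cast_nonneg _)]
      push_cast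
      rfl
    rw [abs_mul, abs_mul τ1, h1, abs_of_pos (by positivity), hσ]
    field_simp
  obtain ⟨a, ha'⟩ : ∃ a : ℤ, (a : ℝ) = q * σ * (τ1 * ρ) := by
    rcases abs_choice (q * σ * (τ1 * ρ)) with h | h
    · exact ⟨a0, by rw [← h, e1]; simp⟩
    · exact ⟨-a0, by rw [e1] at h; push_cast; linarith⟩
  refine ⟨a, ?_⟩
  rw [ha', ← mul_sub, abs_mul, abs_of_pos (show 0 < q * σ by positivity)]
  have d0 := abs_nonneg (τ - τ1 * ρ)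
  have k1 : q * σ * |τ - τ1 * ρ| ≤ C1 * ε * σ := by
    have := mul_le_mul_of_nonneg_left (mul_le_mul_of_nonneg_left hqn d0 |>.trans hcl) σ0.le
    linarith
  have k2 : q * σ ≤ 4 * K * n := by
    have h1 : |τ| ≤ |τ1 * ρ| + |τ - τ1 * ρ| := by
      have := abs_add_le (τ1 * ρ) (τ - τ1 * ρ)
      rwa [add_sub_cancel] at this
    have h2 : 2 * K * (|τ| * n) ≤ 4 * K * n * |τ1 * ρ| := by
      have h3 := mul_le_mul_of_nonneg_right h1 n0.le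
      have h4 := mul_le_mul_of_nonneg_left h3 (show 0 ≤ 4 * K by linarith)
      have h5 := mul_le_mul_of_nonneg_left hcl (show 0 ≤ 4 * K by linarith)
      linarith
    have h3 : 0 < |τ1 * ρ| := pos_of_mul_pos_right (zero_lt_one.trans_le (hμ1.trans (hμ.trans h2)))
      (by positivity)
    refine le_of_mul_le_mul_right ?_ h3
    rw [abs_mul, abs_of_pos (show 0 < q * σ by positivity)] at e1
    linarith
  have k3 : q * σ * |τ - τ1 * ρ| ≤ 4 * K * (C1 * ε) := by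
    have h1 := mul_le_mul_of_nonneg_right k2 d0
    have h2 := mul_le_mul_of_nonneg_left hcl (show 0 ≤ 4 * K by linarith)
    linarith
  rcases le_total σ 1 with h | h
  · rw [min_eq_left h]
    nlinarith [mul_nonneg hC σ0.le]
  · rw [min_eq_right h, mul_one]
    exact k3

end est

end Pool.Agent.P.MP_7211b7_an.NR
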