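import Pool.Agent.P.MP_7211b7_an.NRStruct
import Pool.Agent.P.MP_7211b7_an.NRCount

/-!
# General flat tori: the major arcs are covered by few rescaled Farey families
-/

open Finset Matrix

namespace Pool.Agent.P.MP_7211b7_an.NR

variable {r : ℕ} {A : Mx r} {c K : ℝ}

theorem exists_ref {ι : Type} (P : Set ι) (hP : P.Nonempty) (f : ι → ℝ) {B : ℝ}
    (h1 : ∀ s ∈ P, 1 ≤ f s) (h2 : ∀ s ∈ P, f s ≤ B) : ∃ s1 ∈ P, ∀ s ∈ P, f s ≤ 2 * f s1 := by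
  have hb : BddAbove (f '' P) := ⟨B, by rintro _ ⟨s, hs, rfl⟩; exact h2 s hs⟩
  obtain ⟨s0, hs0⟩ := hP
  have h3 : 1 ≤ sSup (f '' P) := (h1 s0 hs0).trans (le_csSup hb ⟨s0, hs0, rfl⟩)
  obtain ⟨_, ⟨s1, hs1, rfl⟩, h4⟩ := exists_lt_of_lt_csSup (⟨_, s0, hs0, rfl⟩ : (f '' P).Nonempty)
    (show sSup (f '' P) / 2 < sSup (f '' P) by linarith)
  exact ⟨s1, hs1, fun s hs => (le_csSup hb ⟨s, hs, rfl⟩).trans (by linarith)⟩

theorem exists_inv (hc : 0 < c) (hlo : ∀ x : Fin r → ℝ, c * ‖x‖ ^ 2 ≤ x ⬝ᵥ A *ᵥ x) {τ : ℝ}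
    (hτ : τ ≠ 0) : ∃ L : (Fin r → ℝ) →ₗ[ℝ] (Fin r → ℝ), (∀ x, L (τ • A *ᵥ x) = x) ∧
      ∀ y, c * (|τ| * ‖L y‖) ≤ r * ‖y‖ := by
  let F : (Fin r → ℝ) →ₗ[ℝ] (Fin r → ℝ) := τ • Matrix.mulVecLin A
  have hF : ∀ x, F x = τ • A *ᵥ x := fun x => rfl
  have h1 : ∀ x, c * (|τ| * ‖x‖) ≤ r * ‖F x‖ := fun x => by
    rw [hF, norm_smul, Real.norm_eq_abs]
    linarith [mul_le_mul_of_nonneg_left (low hlo x) (abs_nonneg τ)]
  have hinj : LinearMap.ker F = ⊥ := LinearMap.ker_eq_bot'.2 fun x hx => by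
    have h2 := h1 x
    rw [hx, norm_zero, mul_zero] at h2
    have h3 : 0 < c * |τ| := mul_pos hc (abs_pos.2 hτ)
    exact norm_eq_zero.1 (le_antisymm (by nlinarith) (norm_nonneg _))
  obtain ⟨L, hL⟩ := F.exists_leftInverse_of_injective hinj
  have hLF : ∀ x, L (F x) = x := fun x => LinearMap.congr_fun hL x
  refine ⟨L, hLF, fun y => ?_⟩
  obtain ⟨x, rfl⟩ := LinearMap.injective_iff_surjective.1 (LinearMap.ker_eq_bot.1 hinj) y
  rw [hLF]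
  exact h1 x

theorem class_struct (hA : PD A) (hc : 0 < c) (hK : 1 ≤ K)
    (hlo : ∀ x : Fin r → ℝ, c * ‖x‖ ^ 2 ≤ x ⬝ᵥ A *ᵥ x) (hup : ∀ x : Fin r → ℝ, ‖A *ᵥ x‖ ≤ K * ‖x‖)
    (T : ℝ) : ∃ C : ℝ, 1 ≤ C ∧ ∀ (b : ℕ) (ε : ℝ), 1 ≤ b → 0 ≤ ε →
      C * ε * (b : ℝ) ^ (4 * r + 4) ≤ 1 → ∀ P : Set (Tri r), (∀ s ∈ P, IsSol A b ε T s) →
      (∀ s ∈ P, ∀ s' ∈ P, c / 2 * (‖rv s.2.1‖ * ‖rv s'.2.1‖) ≤ rv s.2.1 ⬝ᵥ A *ᵥ rv s'.2.1) →
      ∃ (τ1 : ℝ) (M M' : ℕ), 0 < τ1 ∧ M ≠ 0 ∧ M' ≠ 0 ∧ (M : ℝ) ≤ C * (b : ℝ) ^ (4 * r + 4) ∧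
        (M' : ℝ) ≤ C * (b : ℝ) ^ (4 * r + 4) ∧ ∀ s ∈ P, ∃ γ ∈ M.divisors, ∃ γ' ∈ M'.divisors,
          ∃ q : ℕ, 1 ≤ q ∧ q ≤ b ∧ ∃ a : ℤ,
            |q * (γ' / (γ * τ1)) * s.1 - a| ≤ C * ε * min (γ' / (γ * τ1)) 1 := by
  obtain ⟨R0, hR0⟩ : ∃ R0 : ℕ, |T| * K + 1 ≤ R0 := exists_nat_ge _
  have hR1 : (1 : ℝ) ≤ R0 := le_trans (le_add_of_nonneg_left (by positivity)) hR0
  obtain ⟨C1, hC1⟩ : ∃ C1 : ℝ, C1 = 4 * r * (1 + 8 * r * K / c) / c := ⟨_, rfl⟩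
  have C10 : 0 ≤ C1 := by rw [hC1]; positivity
  obtain ⟨C2, hC2⟩ : ∃ C2 : ℝ, C2 = (1 + C1 * K) * (1 + 2 * r * K / c) := ⟨_, rfl⟩
  have C21 : 1 ≤ C2 := by
    rw [hC2]
    exact one_le_mul_of_one_le_of_one_le (le_add_of_nonneg_right (by positivity))
      (le_add_of_nonneg_right (by positivity))
  obtain ⟨H0, hH0⟩ : ∃ H0 : ℝ, H0 = (r + 1) * (R0 : ℝ) ^ 2 := ⟨_, rfl⟩
  have H01 : 1 ≤ H0 := by
    rw [hH0]
    exact one_le_mul_of_one_le_of_one_le (by linarith [Nat.cast_nonneg (α := ℝ) r])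
      (one_le_pow₀ hR1)
  obtain ⟨C3, hC3⟩ : ∃ C3 : ℝ, C3 = 2 * ((r + 1).factorial : ℝ) * C2 * H0 ^ (2 * r + 2) := ⟨_, rfl⟩
  have C30 : 0 ≤ C3 := by rw [hC3]; positivity
  have k1 : 0 ≤ 8 * K * r / c := by positivity
  have k2 : 0 ≤ 4 * K * C1 := by positivity
  obtain ⟨C, hC⟩ : ∃ C : ℝ, C = 2 + 8 * K * r / c + 4 * K * C1 + C3 := ⟨_, rfl⟩
  refine ⟨C, by linarith, fun b ε hb hε0 hsm P hsol hcone => ?_⟩
  have b1 : (1 : ℝ) ≤ b := by exact_mod_cast hb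
  have bk : (1 : ℝ) ≤ (b : ℝ) ^ (4 * r + 4) := one_le_pow₀ b1
  have hCε : C * ε ≤ 1 := le_trans (le_mul_of_one_le_right (by rw [hC]; positivity) bk) hsm
  have part : ∀ X : ℝ, X ≤ C → X * ε ≤ 1 := fun X hX =>
    (mul_le_mul_of_nonneg_right hX hε0).trans hCε
  have hε : ε ≤ 1 / 2 := by linarith [part 2 (by linarith)]
  have hε' : 8 * K * r * ε ≤ c := by
    have := part (8 * K * r / c) (by linarith)
    rwa [div_mul_eq_mul_div, div_le_one hc] at this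
  have hε'' : 4 * K * (C1 * ε) ≤ 1 := by linarith [part (4 * K * C1) (by linarith)]
  rcases P.eq_empty_or_nonempty with rfl | hne
  · refine ⟨1, 1, 1, one_pos, one_ne_zero, one_ne_zero, ?_, ?_, fun s hs => absurd hs (by simp)⟩ <;>
    · rw [Nat.cast_one]
      exact one_le_mul_of_one_le_of_one_le (by linarith) bk
  have hmR : ∀ s ∈ P, ‖rv s.2.2‖ ≤ (R0 * b : ℕ) := fun s hs => by
    have h1 := (hsol s hs).m_le hup
    have h2 : |s.1| * (K * ‖rv s.2.1‖) ≤ |T| * (K * b) :=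
      mul_le_mul ((hsol s hs).t_le.trans (le_abs_self T)) (by gcongr; exact (hsol s hs).h_le)
        (by positivity) (abs_nonneg _)
    push_cast
    nlinarith [mul_le_mul_of_nonneg_right hR0 (zero_le_one.trans b1)]
  have hhR : ∀ s ∈ P, ‖rv s.2.1‖ ≤ (R0 * b : ℕ) := fun s hs => by
    push_cast
    exact (hsol s hs).h_le.trans (le_mul_of_one_le_left (by positivity) hR1)
  obtain ⟨s1, hs1, href⟩ := exists_ref P hne (fun s => ‖rv s.2.2‖)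
    (fun s hs => one_le_norm_rv (hsol s hs).m_ne) hmR
  have hrat := fun s (hs : s ∈ P) => ratio hA hc hK hlo hup hε0 hε hε' (hsol s hs) (hsol s1 hs1)
    (hcone s hs s1 hs1) (href s hs)
  rw [← hC1] at hrat
  have w1 := (one_le_norm_rv (hsol s1 hs1).m_ne).trans ((hsol s1 hs1).m_le' hup hε)
  have t1 : s1.1 ≠ 0 := fun h => by
    rw [h, abs_zero, zero_mul, mul_zero] at w1
    linarith
  set R : ℕ := R0 * b with hR
  have R1 : 1 ≤ R := Nat.mul_pos (by exact_mod_cast hR1) hb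
  set H : ℕ := (r + 1) * R ^ 2 with hH
  have hHeq : (H : ℝ) = H0 * (b : ℝ) ^ 2 := by rw [hH, hR, hH0]; push_cast; ring
  have bH : (b : ℝ) ≤ H := by rw [hHeq]; nlinarith
  have ih : ∀ s : P, ∀ i, |s.1.2.1 i| ≤ R := fun s i => by
    exact_mod_cast (abs_le_norm_rv _ i).trans (hhR s.1 s.2)
  have im : ∀ s : P, ∀ i, |s.1.2.2 i| ≤ R := fun s i => by
    exact_mod_cast (abs_le_norm_rv _ i).trans (hmR s.1 s.2)
  let ρ : P → ℚ := fun s => Rat.divInt (s1.2.1 ⬝ᵥ s.1.2.2) (s.1.2.1 ⬝ᵥ s1.2.2)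
  have hρ : ∀ s : P, |s.1.1 - s1.1 * (ρ s : ℝ)| * ‖rv s.1.2.1‖ ≤ C1 * ε := fun s => by
    simpa only [ρ, Rat.cast_divInt] using (hrat s.1 s.2).2.2
  have ρ0 : ∀ s : P, ρ s ≠ 0 := fun s =>
    (Rat.divInt_ne_zero (hrat s.1 s.2).2.1).2 (hrat s.1 s.2).1
  have hden : ∀ s : P, (ρ s).den ≤ H := fun s => by
    have h1 := Int.le_of_dvd (abs_pos.2 (hrat s.1 s.2).2.1) ((dvd_abs _ _).2 (Rat.den_dvd
      (s1.2.1 ⬝ᵥ s.1.2.2) (s.1.2.1 ⬝ᵥ s1.2.2)))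
    exact_mod_cast h1.trans (abs_dot_int (ih s) (im ⟨s1, hs1⟩))
  have hnum : ∀ s : P, (ρ s)⁻¹.den ≤ H := fun s => by
    have h1 := Int.le_of_dvd (abs_pos.2 (hrat s.1 s.2).1) ((abs_dvd_abs _ _).2
      (Rat.num_dvd (s1.2.1 ⬝ᵥ s.1.2.2) (hrat s.1 s.2).2.1))
    rw [Rat.den_inv_of_ne_zero (ρ0 s)]
    have h2 := h1.trans (abs_dot_int (ih ⟨s1, hs1⟩) (im s))
    rw [← Int.natCast_natAbs] at h2
    exact_mod_cast h2
  have hnear : ∀ s : P, ‖(s1.1 * (ρ s : ℝ)) • A *ᵥ rv s.1.2.1 - rv s.1.2.2‖ ≤ (1 + C1 * K) * ε :=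
    fun s => by
      have e : (s1.1 * (ρ s : ℝ)) • A *ᵥ rv s.1.2.1 - rv s.1.2.2 =
          (s.1.1 • A *ᵥ rv s.1.2.1 - rv s.1.2.2) - (s.1.1 - s1.1 * (ρ s : ℝ)) • A *ᵥ rv s.1.2.1 := by
        rw [sub_smul]; abel
      rw [e]
      refine (norm_sub_le _ _).trans ?_
      rw [norm_smul, Real.norm_eq_abs]
      have h1 := mul_le_mul_of_nonneg_left (hup (rv s.1.2.1))
        (abs_nonneg (s.1.1 - s1.1 * (ρ s : ℝ)))
      have h2 := mul_le_mul_of_nonneg_left (hρ s) (zero_le_one.trans hK)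
      linarith [(hsol s.1 s.2).near]
  have hη : ((r + 1).factorial : ℝ) * (H : ℝ) ^ (2 * r + 1) * (C2 * H * ε) < 1 := by
    have h1 : C3 * ε * (b : ℝ) ^ (4 * r + 4) ≤ 1 := le_trans (by gcongr; linarith) hsm
    have h2 : C3 * ε * (b : ℝ) ^ (4 * r + 4) =
        2 * (((r + 1).factorial : ℝ) * (H : ℝ) ^ (2 * r + 1) * (C2 * H * ε)) := by
      rw [hC3, hHeq]; ring
    linarith
  have x0 : 0 ≤ (1 + C1 * K) * ε := by positivity
  have x1 : 0 ≤ 2 * r * K / c := by positivity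
  obtain ⟨M, hM0, hMb, hM⟩ := lin (fun s : P => s.1.2.1) (fun s => s.1.2.2) (fun s => (ρ s)⁻¹) R1
    hH ih hnum (s1.1 • Matrix.mulVecLin A) (η := C2 * H * ε) (fun s => by
      have h0 : (ρ s : ℝ) ≠ 0 := by exact_mod_cast ρ0 s
      have e : (s1.1 • Matrix.mulVecLin A) (rv s.1.2.1) - (((ρ s)⁻¹ : ℚ) : ℝ) • rv s.1.2.2 =
          (((ρ s)⁻¹ : ℚ) : ℝ) • ((s1.1 * (ρ s : ℝ)) • A *ᵥ rv s.1.2.1 - rv s.1.2.2) := by
        rw [smul_sub, smul_smul, Rat.cast_inv, mul_left_comm, inv_mul_cancel₀ h0, mul_one]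
        rfl
      have h1 : |(((ρ s)⁻¹ : ℚ) : ℝ)| ≤ H := by
        have h2 : (1 : ℝ) ≤ |((ρ s).num : ℝ)| := by
          exact_mod_cast Int.one_le_abs (Rat.num_ne_zero.2 (ρ0 s))
        rw [Rat.cast_inv, Rat.cast_def, inv_div, abs_div, Nat.abs_cast]
        exact (div_le_self (Nat.cast_nonneg _) h2).trans (by exact_mod_cast hden s)
      rw [e, norm_smul, Real.norm_eq_abs]
      refine (mul_le_mul h1 (hnear s) (norm_nonneg _) (Nat.cast_nonneg _)).trans ?_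
      rw [hC2]
      nlinarith [mul_nonneg (mul_nonneg x0 x1) (Nat.cast_nonneg (α := ℝ) H)]) hη
  obtain ⟨L, hL1, hL2⟩ := exists_inv hc hlo t1
  obtain ⟨M', hM0', hMb', hM'⟩ := lin (fun s : P => s.1.2.2) (fun s => s.1.2.1) ρ R1
    hH im hden L (η := C2 * H * ε) (fun s => by
      have e : L (rv s.1.2.2) - (ρ s : ℝ) • rv s.1.2.1 =
          -L ((s1.1 * (ρ s : ℝ)) • A *ᵥ rv s.1.2.1 - rv s.1.2.2) := by
        rw [map_sub, mul_smul, ← Matrix.mulVec_smul, hL1, neg_sub]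
      rw [e, norm_neg]
      have h1 := (hL2 _).trans (mul_le_mul_of_nonneg_left (hnear s) (Nat.cast_nonneg r))
      generalize ‖L ((s1.1 * (ρ s : ℝ)) • A *ᵥ rv s.1.2.1 - rv s.1.2.2)‖ = y at h1 ⊢
      have h2 : 1 ≤ 2 * K * (|s1.1| * H) :=
        w1.trans (by gcongr; exact (hsol s1 hs1).h_le.trans bH)
      rcases le_total y 0 with hy | hy
      · exact hy.trans (by positivity)
      have h3 : c * y ≤ 2 * K * H * (r * ((1 + C1 * K) * ε)) := by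
        have h4 := mul_le_mul_of_nonneg_left h1 (show 0 ≤ 2 * K * H by positivity)
        nlinarith [mul_le_mul_of_nonneg_left h2 (mul_nonneg hc.le hy)]
      have h4 : y ≤ (1 + C1 * K) * ε * (2 * r * K / c) * H := by
        refine le_of_mul_le_mul_left (h3.trans (le_of_eq ?_)) hc
        field_simp
      rw [hC2]
      nlinarith [mul_nonneg x0 (Nat.cast_nonneg (α := ℝ) H)]) hη
  have hsize : ∀ X : ℕ, X ≤ r.factorial * H ^ (2 * r) → (X : ℝ) ≤ C * (b : ℝ) ^ (4 * r + 4) := by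
    intro X hX
    have h1 : (X : ℝ) ≤ ((r + 1).factorial : ℝ) * (H : ℝ) ^ (2 * r + 2) := by
      exact_mod_cast hX.trans (Nat.mul_le_mul (Nat.factorial_le (Nat.le_succ r))
        (Nat.pow_le_pow_right (by exact_mod_cast b1.trans bH) (by omega)))
    have h2 : C3 * (b : ℝ) ^ (4 * r + 4) =
        2 * C2 * (((r + 1).factorial : ℝ) * (H : ℝ) ^ (2 * r + 2)) := by
      rw [hC3, hHeq]; ring
    have h3 : C3 * (b : ℝ) ^ (4 * r + 4) ≤ C * (b : ℝ) ^ (4 * r + 4) := by gcongr; linarith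
    have h4 : 0 ≤ ((r + 1).factorial : ℝ) * (H : ℝ) ^ (2 * r + 2) := by positivity
    nlinarith
  refine ⟨|s1.1|, M, M', abs_pos.2 t1, hM0, hM0', hsize M hMb, hsize M' hMb', fun s hs => ?_⟩
  obtain ⟨i, hi⟩ := Function.ne_iff.1 (hsol s hs).h_ne
  obtain ⟨j, hj⟩ := Function.ne_iff.1 (hsol s hs).m_ne
  obtain ⟨γ', hγ', q, hq1, hq2, hq3⟩ := divstep hi (ρ ⟨s, hs⟩).pos hM0' (hM' ⟨s, hs⟩ i)
  obtain ⟨γ, hγ, a0, -, ha2, ha3⟩ := divstep hj (ρ ⟨s, hs⟩)⁻¹.pos hM0 (hM ⟨s, hs⟩ j)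
  rw [Rat.den_inv_of_ne_zero (ρ0 _)] at ha3
  have hqn : (q : ℝ) ≤ ‖rv s.2.1‖ := le_trans (by exact_mod_cast hq2) (abs_le_norm_rv _ i)
  obtain ⟨a, ha⟩ := to_arc hK t1 (Nat.pos_of_mem_divisors hγ) (Nat.pos_of_mem_divisors hγ') hq1
    ha3 hq3 hqn (le_trans (by exact_mod_cast ha2) (abs_le_norm_rv _ j))
    (one_le_norm_rv (hsol s hs).m_ne) ((hsol s hs).m_le' hup hε) (by positivity) hε''
    (hρ ⟨s, hs⟩)
  refine ⟨γ, hγ, γ', hγ', q, hq1, by exact_mod_cast hqn.trans (hsol s hs).h_le, a, ha.trans ?_⟩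
  refine mul_le_mul_of_nonneg_right ?_ (by positivity)
  rw [← mul_assoc]
  exact mul_le_mul_of_nonneg_right (by linarith) hε0

theorem cone (hc : 0 < c) (hK : 1 ≤ K) (hlo : ∀ x : Fin r → ℝ, c * ‖x‖ ^ 2 ≤ x ⬝ᵥ A *ᵥ x)
    (hup : ∀ x : Fin r → ℝ, ‖A *ᵥ x‖ ≤ K * ‖x‖) {X : ℝ} (hX : 2 * r * K / c ≤ X) (hX0 : 0 < X)
    {x y : Fin r → ℝ} (hx : x ≠ 0) (hy : y ≠ 0)
    (h : ∀ i, ⌊x i / ‖x‖ * X⌋ = ⌊y i / ‖y‖ * X⌋) : c / 2 * (‖x‖ * ‖y‖) ≤ x ⬝ᵥ A *ᵥ y := by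
  have nx : 0 < ‖x‖ := norm_pos_iff.2 hx
  have ny : 0 < ‖y‖ := norm_pos_iff.2 hy
  set z : Fin r → ℝ := ‖x‖ • y - ‖y‖ • x with hz
  have h1 : ‖z‖ ≤ ‖x‖ * ‖y‖ / X := (pi_norm_le_iff_of_nonneg (by positivity)).2 fun i => by
    have h2 := Count.floor_close (h i).symm
    have e : z i = (y i / ‖y‖ * X - x i / ‖x‖ * X) * (‖x‖ * ‖y‖ / X) := by
      simp only [hz, Pi.sub_apply, Pi.smul_apply, smul_eq_mul]
      field_simp
    rw [e, Real.norm_eq_abs, abs_mul, abs_of_pos (show 0 < ‖x‖ * ‖y‖ / X by positivity)]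
    exact mul_le_of_le_one_left (by positivity) h2
  have h2 : x ⬝ᵥ A *ᵥ z = ‖x‖ * (x ⬝ᵥ A *ᵥ y) - ‖y‖ * (x ⬝ᵥ A *ᵥ x) := by
    simp only [hz, Matrix.mulVec_sub, Matrix.mulVec_smul, dotProduct_sub, dotProduct_smul,
      smul_eq_mul]
  have h3 : |x ⬝ᵥ A *ᵥ z| ≤ r * (‖x‖ * (K * (‖x‖ * ‖y‖ / X))) :=
    (abs_dot_le _ _).trans (by gcongr; exact (hup z).trans (by gcongr))
  have h4 : r * (‖x‖ * (K * (‖x‖ * ‖y‖ / X))) ≤ c / 2 * (‖x‖ ^ 2 * ‖y‖) := by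
    rw [div_le_iff₀ hc] at hX
    have h5 : r * K / X ≤ c / 2 := by rw [div_le_iff₀ hX0]; linarith
    calc _ = r * K / X * (‖x‖ ^ 2 * ‖y‖) := by ring
      _ ≤ _ := by gcongr
  have h5 := mul_le_mul_of_nonneg_left (hlo x) ny.le
  have h6 := (abs_le.1 (h3.trans h4)).1
  refine le_of_mul_le_mul_left ?_ nx
  linarith

theorem divisors_le {δ : ℝ} (hδ : 0 < δ) (k : ℕ) {C : ℝ} (hC : 1 ≤ C) :
    ∃ C' : ℝ, 1 ≤ C' ∧ ∀ b M : ℕ, 1 ≤ b → M ≠ 0 → (M : ℝ) ≤ C * (b : ℝ) ^ k →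
      (M.divisors.card : ℝ) ≤ C' * (b : ℝ) ^ δ := by
  obtain ⟨B, hB⟩ : ∃ B : ℕ, k / δ + 1 ≤ B := exists_nat_ge _
  have k0 : 0 ≤ k / δ := by positivity
  have B1 : 1 ≤ B := by exact_mod_cast (show (1 : ℝ) ≤ B by linarith)
  obtain ⟨C1, hC1, h⟩ := Exc.card_divisors_pow_le B B1
  have C1' : (1 : ℝ) ≤ C1 := by exact_mod_cast hC1
  have C2 : 1 ≤ C1 * C := one_le_mul_of_one_le_of_one_le C1' hC
  refine ⟨C1 * C, C2, fun b M hb hM hMb => ?_⟩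
  have b1 : (1 : ℝ) ≤ b := by exact_mod_cast hb
  refine le_of_pow_le_pow_left₀ (by omega : B ≠ 0) (by positivity) ?_
  have h1 : (M.divisors.card : ℝ) ^ B ≤ C1 * M := by exact_mod_cast h M hM
  have h2 : (b : ℝ) ^ k ≤ ((b : ℝ) ^ δ) ^ B := by
    rw [← Real.rpow_natCast, ← Real.rpow_natCast, ← Real.rpow_mul (by positivity)]
    refine Real.rpow_le_rpow_of_exponent_le b1 ?_
    have : k / δ ≤ B := by linarith
    rw [div_le_iff₀ hδ] at this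
    linarith
  calc _ ≤ C1 * (C * (b : ℝ) ^ k) := h1.trans (by gcongr)
    _ = C1 * C * (b : ℝ) ^ k := by ring
    _ ≤ (C1 * C) ^ B * ((b : ℝ) ^ δ) ^ B :=
        mul_le_mul (le_self_pow₀ C2 (by omega)) h2 (by positivity) (by positivity)
    _ = _ := (mul_pow _ _ _).symm

/-- the structure theorem for the major arcs -/
theorem struct (hA : PD A) (T : ℝ) {δ : ℝ} (hδ : 0 < δ) : ∃ C : ℝ, 1 ≤ C ∧ ∀ (b : ℕ) (ε : ℝ),
    1 ≤ b → 0 ≤ ε → C * ε * (b : ℝ) ^ (4 * r + 4) ≤ 1 → ∃ S : Finset ℝ,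
      (S.card : ℝ) ≤ C * (b : ℝ) ^ δ ∧ (∀ σ ∈ S, 0 < σ) ∧ ∀ t ∈ Mj A b ε, |t| ≤ T →
        ∃ σ ∈ S, ∃ q : ℕ, 1 ≤ q ∧ q ≤ b ∧ ∃ a : ℤ,
          |q * (σ * t) / Real.pi - a| ≤ C * ε * min σ 1 := by
  classical
  obtain ⟨c, K, hc, hK, hlo, hup⟩ := hA.bounds
  obtain ⟨C1, hC1, h1⟩ := class_struct hA hc hK hlo hup T
  obtain ⟨C2, hC2, h2⟩ := divisors_le (half_pos hδ) (4 * r + 4) hC1
  obtain ⟨X, hX⟩ : ∃ X : ℝ, X = 2 * r * K / c + 1 := ⟨_, rfl⟩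
  have x0 : 0 ≤ 2 * r * K / c := by positivity
  let Cl : Finset (Fin r → ℤ) := Fintype.piFinset fun _ => Finset.Icc (-⌈X⌉) ⌈X⌉
  have y0 : 0 ≤ (Cl.card : ℝ) * C2 ^ 2 := by positivity
  have y1 : 0 ≤ r / c := by positivity
  obtain ⟨C, hC⟩ : ∃ C : ℝ, C = C1 + r / c + Cl.card * C2 ^ 2 := ⟨_, rfl⟩
  refine ⟨C, by linarith, fun b ε hb hε hsm => ?_⟩
  have b1 : (1 : ℝ) ≤ b := by exact_mod_cast hb
  let cl : (Fin r → ℤ) → Fin r → ℤ := fun h i => ⌊rv h i / ‖rv h‖ * X⌋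
  have rv0 : ∀ {h : Fin r → ℤ}, h ≠ 0 → rv h ≠ 0 := fun hh h0 => by
    have := one_le_norm_rv hh
    rw [h0, norm_zero] at this
    linarith
  choose τ M M' hτ hM hM' hMb hMb' harc using fun j : Fin r → ℤ =>
    h1 b ε hb hε (le_trans (by gcongr; linarith) hsm) {s | IsSol A b ε T s ∧ cl s.2.1 = j}
      (fun s hs => hs.1) fun s hs s' hs' => cone hc hK hlo hup (X := X) (by linarith) (by linarith)
        (rv0 hs.1.h_ne) (rv0 hs'.1.h_ne) fun i => congrFun (hs.2.trans hs'.2.symm) i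
  refine ⟨insert 1 (Cl.biUnion fun j => ((M j).divisors ×ˢ (M' j).divisors).image
    fun g => (g.2 : ℝ) / (g.1 * τ j)), ?_, fun σ hσ => ?_, ?_⟩
  · have h3 : ∀ j ∈ Cl, ((((M j).divisors ×ˢ (M' j).divisors).image
        fun g => (g.2 : ℝ) / (g.1 * τ j)).card : ℝ) ≤ C2 ^ 2 * (b : ℝ) ^ δ := fun j _ => by
      refine (Nat.cast_le.2 Finset.card_image_le).trans ?_
      rw [Finset.card_product, Nat.cast_mul]
      refine (mul_le_mul (h2 b _ hb (hM j) (hMb j)) (h2 b _ hb (hM' j) (hMb' j)) (by positivity)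
        (by positivity)).trans (le_of_eq ?_)
      rw [mul_mul_mul_comm, ← Real.rpow_add (by positivity), add_halves, pow_two]
    have h4 := Finset.sum_le_card_nsmul _ _ _ h3
    rw [nsmul_eq_mul, ← Nat.cast_sum] at h4
    have h5 : (1 : ℝ) ≤ (b : ℝ) ^ δ := Real.one_le_rpow b1 hδ.le
    refine (Nat.cast_le.2 ((Finset.card_insert_le _ _).trans
      (Nat.add_le_add_right Finset.card_biUnion_le 1))).trans ?_
    rw [Nat.cast_add, Nat.cast_one, hC]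
    nlinarith
  · rcases Finset.mem_insert.1 hσ with rfl | hσ
    · exact one_pos
    · obtain ⟨j, -, hj⟩ := Finset.mem_biUnion.1 hσ
      obtain ⟨g, hg, rfl⟩ := Finset.mem_image.1 hj
      have g1 := Nat.pos_of_mem_divisors (Finset.mem_product.1 hg).1
      have g2 := Nat.pos_of_mem_divisors (Finset.mem_product.1 hg).2
      have := hτ j
      positivity
  · rintro t ⟨h, hh, hhb, m, hm⟩ ht
    have hnear : ‖(t / Real.pi) • A *ᵥ rv h - rv m‖ ≤ ε :=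
      (pi_norm_le_iff_of_nonneg hε).2 fun i => by
        refine le_trans (le_of_eq ?_) (hm i)
        simp only [Pi.sub_apply, Pi.smul_apply, smul_eq_mul, Real.norm_eq_abs, rv]
        congr 2
        ring
    by_cases hm0 : m = 0
    · refine ⟨1, Finset.mem_insert_self _ _, 1, le_rfl, hb, 0, ?_⟩
      have h3 : rv m = 0 := by rw [hm0]; ext i; simp [rv]
      rw [h3, sub_zero, norm_smul, Real.norm_eq_abs] at hnear
      have h4 := mul_le_mul_of_nonneg_left (low hlo (rv h)) (abs_nonneg (t / Real.pi))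
      have h5 := mul_le_mul_of_nonneg_left hnear (Nat.cast_nonneg (α := ℝ) r)
      have h6 := mul_le_mul_of_nonneg_left (one_le_norm_rv hh)
        (mul_nonneg (abs_nonneg (t / Real.pi)) hc.le)
      have h7 : |t / Real.pi| ≤ r / c * ε := by
        rw [div_mul_eq_mul_div, le_div_iff₀ hc]
        linarith
      simp only [Nat.cast_one, one_mul, Int.cast_zero, sub_zero, min_self, mul_one]
      exact h7.trans (mul_le_mul_of_nonneg_right (by linarith) hε)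
    · have hsol : IsSol A b ε T (t / Real.pi, h, m) :=
        ⟨le_trans (by
            rw [abs_div, abs_of_pos Real.pi_pos]
            exact div_le_self (abs_nonneg _) (by linarith [Real.pi_gt_three])) ht, hh, hm0,
          (pi_norm_le_iff_of_nonneg (by positivity)).2 fun i => by
            rw [Real.norm_eq_abs, rv]
            exact_mod_cast hhb i, hnear⟩
      obtain ⟨γ, hγ, γ', hγ', q, hq1, hq2, a, ha⟩ := harc (cl h) _ ⟨hsol, rfl⟩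
      have hcl : cl h ∈ Cl := Fintype.mem_piFinset.2 fun i => floor_mem (by
        have h3 : 0 < ‖rv h‖ := norm_pos_iff.2 (rv0 hh)
        rw [abs_mul, abs_of_nonneg (show 0 ≤ X by linarith), abs_div, abs_norm]
        exact mul_le_of_le_one_left (by linarith) ((div_le_one h3).2 (norm_le_pi_norm (rv h) i)))
      refine ⟨γ' / (γ * τ (cl h)), Finset.mem_insert_of_mem (Finset.mem_biUnion.2 ⟨_, hcl,
        Finset.mem_image.2 ⟨(γ, γ'), Finset.mem_product.2 ⟨hγ, hγ'⟩, rfl⟩⟩), q, hq1, hq2, a,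
        le_trans (le_of_eq ?_) (ha.trans ?_)⟩
      · congr 2
        ring
      · have := hτ (cl h)
        refine mul_le_mul_of_nonneg_right ?_ (by positivity)
        exact mul_le_mul_of_nonneg_right (by linarith) hε

end Pool.Agent.P.MP_7211b7_an.NR
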