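import Pool.Agent.P.MP_7211b7_an.Main
import Pool.Agent.P.MP_7211b7_an.NRLevel

/-!
# MP_7211b7_an, general flat tori: transference

The transference argument of part T for an arbitrary energy function on the weight lattice.
-/

open MeasureTheory ComplexConjugate
open scoped ENNReal

set_option linter.unusedSectionVars false

namespace Pool.Agent.P.MP_7211b7_an.NR

variable {G : Type} [Group G] [TopologicalSpace G] [IsTopologicalGroup G] [CompactSpace G]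
  [T2Space G] [SecondCountableTopology G] [MeasurableSpace G] [BorelSpace G]

/-- the energy `θ l + ∑ ℓ i * l i` -/
noncomputable def En {r : ℕ} (θ : Qf r) (ℓ : Fin r → ℝ) (l : Fin r → ℤ) : ℝ :=
  θ l + pair ℓ l

variable (μ : Measure G) [Hr μ] {r : ℕ}

/-- torus type bound for functions with prescribed right weights -/
def WBd (H : HW μ r) (θ : Qf r) (ℓ : Fin r → ℝ) (q T Θ : ℝ) {ι : Type} (S : Finset ι)
    (w : ι → Fin r → ℤ) : Prop :=
  ∀ h : ι → C(G, ℂ),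
    (∀ j ∈ S, ∀ y x, h j (y * H.τ x) = h j y * Complex.exp (Complex.I * (pair x (w j) : ℝ))) →
      ∫ z, ‖ev S (fun j => En θ ℓ (w j)) h z‖ ^ q ∂(stm μ T)
        ≤ Θ ^ q * ∫ y, (∑ j ∈ S, ‖h j y‖ ^ 2) ^ (q / 2) ∂μ

/-- the Strichartz estimate for finite sums, `D` = dimension of the group -/
def TEst (H : HW μ r) (θ : Qf r) (ℓ : Fin r → ℝ) (D p T : ℝ) : Prop :=
  ∃ C : ℝ, 0 < C ∧ ∀ (S : Finset (Fin r → ℤ)) (f : (Fin r → ℤ) → C(G, ℂ)),
    (∀ l ∈ S, l ∈ H.Λ) → (∀ l ∈ S, f l ∈ span2 (H.φ l)) →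
      ∫ z, ‖ev S (En θ ℓ) f z‖ ^ p ∂(stm μ T)
        ≤ C * (∑ l ∈ S, (1 + ‖l‖) ^ (2 * (D / 2 - (D + 2) / p)) * n2 μ (f l)) ^ (p / 2)

/-- the torus estimate on cosets of the maximal torus -/
def TTOR (H : HW μ r) : Prop :=
  ∀ (θ : Qf r) (ℓ : Fin r → ℝ) (q T e : ℝ), 0 < q → TorBd r θ q T e → ∃ C : ℝ, 0 < C ∧
    ∀ (ι : Type) (S : Finset ι) (w : ι → Fin r → ℤ) (N : ℕ), 1 ≤ N → Set.InjOn w S →
      (∀ j ∈ S, ∀ i, |w j i| ≤ N) → WBd μ H θ ℓ q T (C * (N : ℝ) ^ e) S w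

/-- the restricted estimate for one block -/
def BLOCK (H : HW μ r) : Prop :=
  ∀ (θ : Qf r) (ℓ : Fin r → ℝ) (q T Θ B c0 D0 : ℝ) (ι : Type) (S S' : Finset ι) (w : ι → Fin r → ℤ)
    (χ : ι → ℝ) (f : ι → C(G, ℂ)) (F : ℝ × G → ℂ), 2 < q → 0 < T → 0 ≤ Θ → 1 ≤ B → 0 < c0 →
    0 < D0 → S ⊆ S' → (∀ j ∈ S', w j ∈ H.Λ) → Set.InjOn w S' →
    (∀ j ∈ S', 0 ≤ χ j ∧ χ j ≤ 1) → (∀ j ∈ S, c0 ≤ χ j) →
    (∀ j ∈ S', D0 ≤ H.d (w j) ∧ H.d (w j) ≤ B * D0) →
    D0 * ∫ z, ‖∑ j ∈ S', (χ j : ℂ) * H.φ (w j) z‖ ∂μ ≤ 1 → WBd μ H θ ℓ q T Θ S w →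
    (∀ j ∈ S, f j ∈ span2 (H.φ (w j))) → Continuous F → (∀ z, ‖F z‖ ≤ 1) →
      ‖∫ z, ev S (fun j => En θ ℓ (w j)) f z * conj (F z) ∂(stm μ T)‖
        ≤ B ^ 3 / c0 * Θ * D0 ^ (1 - 2 / q) * Real.sqrt (∑ j ∈ S, n2 μ (f j)) *
          (∫ z, ‖F z‖ ∂(stm μ T)) ^ (1 - 1 / q)

/-- both estimates for one dyadic block of a free family -/
def FAM1 (H : HW μ r) : Prop :=
  ∀ (θ : Qf r) (ℓ : Fin r → ℝ) (e m : ℕ) (l0 : Fin r → ℤ) (ν : Fin m → Fin r → ℤ) (q T : ℝ),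
    TorThm r θ → Growth μ H e → l0 ∈ H.Λ → (∀ i, ν i ∈ H.Λ) → Indep ν → 4 < r * (q - 2) → 0 < T →
    ∃ C : ℝ, 0 < C ∧ ∀ (kv : Fin m → ℕ) (K : ℕ) (S : Finset (Fin m → ℕ))
      (f : (Fin m → ℕ) → C(G, ℂ)) (F : ℝ × G → ℂ), (∀ i, kv i ≤ K) →
      (∀ a ∈ S, ∀ i, 2 ^ kv i ≤ a i + 1 ∧ a i + 1 < 2 ^ (kv i + 1)) →
      (∀ a ∈ S, f a ∈ span2 (H.φ (wv l0 ν a))) → Continuous F → (∀ z, ‖F z‖ ≤ 1) →
        ‖∫ z, ev S (fun a => En θ ℓ (wv l0 ν a)) f z * conj (F z) ∂(stm μ T)‖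
          ≤ C * Real.sqrt (∑ a ∈ S, n2 μ (f a)) *
            min (((2 : ℝ) ^ K) ^ ((r + e : ℝ) / 2 - (r + e + 2) / q) *
                (∫ z, ‖F z‖ ∂(stm μ T)) ^ (1 - 1 / q))
              (Real.sqrt ((2 : ℝ) ^ (∑ i, kv i)) * ((2 : ℝ) ^ K) ^ ((e : ℝ) / 2) *
                ∫ z, ‖F z‖ ∂(stm μ T))

/-- the estimate for one free family -/
def FAM2 (H : HW μ r) : Prop :=
  ∀ (θ : Qf r) (ℓ : Fin r → ℝ) (e m : ℕ) (l0 : Fin r → ℤ) (ν : Fin m → Fin r → ℤ) (p T : ℝ),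
    TorThm r θ → Growth μ H e → l0 ∈ H.Λ → (∀ i, ν i ∈ H.Λ) → Indep ν → 4 < r * (p - 2) → 0 < T →
    ∃ C : ℝ, 0 < C ∧ ∀ (S : Finset (Fin m → ℕ)) (f : (Fin m → ℕ) → C(G, ℂ)),
      (∀ a ∈ S, f a ∈ span2 (H.φ (wv l0 ν a))) →
        ∫ z, ‖ev S (fun a => En θ ℓ (wv l0 ν a)) f z‖ ^ p ∂(stm μ T)
          ≤ C * (∑ a ∈ S, (1 + ‖wv l0 ν a‖) ^ (2 * ((r + e : ℝ) / 2 - (r + e + 2) / p)) *
            n2 μ (f a)) ^ (p / 2)

/-- the transference theorem -/
def TMAIN (H : HW μ r) : Prop :=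
  ∀ (θ : Qf r) (ℓ : Fin r → ℝ) (e : ℕ) (p T : ℝ), TorThm r θ → Growth μ H e → Cover H.Λ →
    4 < r * (p - 2) → 0 < T → TEst μ H θ ℓ (r + e) p T

open TTor Real in
theorem ttor (H : HW μ r) : TTOR μ H := by
  classical
  rintro θ ℓ q T e hq ⟨C, hC, hT⟩
  refine ⟨C, hC, fun ι S w N hN hw hb h hh => ?_⟩
  have hτ := H.τ_cont
  have hev := continuous_ev S (fun j => En θ ℓ (w j)) h
  obtain ⟨K, hK⟩ : ∃ K : ℝ × G → ℝ, K = fun z => ‖ev S (fun j => En θ ℓ (w j)) h z‖ ^ q := ⟨_, rfl⟩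
  have hKc : Continuous K := hK ▸ hev.norm.rpow_const fun _ => Or.inr hq.le
  have hK0 : ∀ z, 0 ≤ K z := fun z => by rw [hK]; positivity
  have hI : Integrable (fun p : (ℝ × (Fin r → ℝ)) × G => K (p.1.1, p.2 * H.τ (p.1.2 + p.1.1 • ℓ)))
      ((volume.restrict (dom r T)).prod μ) := by
    rw [show (volume.restrict (dom r T)).prod μ = (volume.prod μ).restrict (dom r T ×ˢ Set.univ) by
      rw [← Measure.prod_restrict, Measure.restrict_univ]]
    exact (Continuous.continuousOn (by fun_prop)).integrableOn_compact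
      ((isCompact_dom r T).prod isCompact_univ)
  have h1 : ∫ z in dom r T, ∫ y, K (z.1, y * H.τ (z.2 + z.1 • ℓ)) ∂μ =
      (volume.restrict (box r)).real Set.univ * ∫ z, K z ∂(stm μ T) := by
    have e1 : ∀ z : ℝ × (Fin r → ℝ), ∫ y, K (z.1, y * H.τ (z.2 + z.1 • ℓ)) ∂μ =
        ∫ y, K (z.1, y) ∂μ := fun z => integral_mul_right_eq_self (fun y => K (z.1, y)) _
    simp only [e1]
    rw [dom, Measure.volume_eq_prod, ← Measure.prod_restrict,
      integral_fun_fst (fun t => ∫ y, K (t, y) ∂μ), smul_eq_mul, stm,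
      integral_prod _ (integrable_stm μ T hKc)]
  have h2 : ∀ y, ∫ z in dom r T, K (z.1, y * H.τ (z.2 + z.1 • ℓ)) ≤
      (C * (N : ℝ) ^ e) ^ q * (∑ j ∈ S, ‖h j y‖ ^ 2) ^ (q / 2) := fun y => by
    have ha : ∀ j ∈ S, (∑ k ∈ S, if w k = w j then h k y else 0) = h j y := fun j hj => by
      rw [Finset.sum_eq_single j (fun k hk hkj => if_neg fun e => hkj (hw hk hj e))
        (fun h => absurd hj h), if_pos rfl]
    have h3 := hT N (S.image w) (fun l => ∑ k ∈ S, if w k = l then h k y else 0) hN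
      (fun n hn => by obtain ⟨j, hj, rfl⟩ := Finset.mem_image.1 hn; exact hb j hj)
    rw [Finset.sum_image hw, Finset.sum_congr rfl fun j hj => by rw [ha j hj]] at h3
    refine le_of_eq_of_le (integral_congr_ae (Filter.Eventually.of_forall fun z => ?_)) h3
    simp only [hK]
    congr 2
    rw [ev, tor, Finset.sum_image hw]
    refine Finset.sum_congr rfl fun j hj => ?_
    rw [ha j hj, hh j hj, mul_left_comm, ← Complex.exp_add, pair_add, En, pair, pair]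
    congr 2
    push_cast
    ring
  rw [← hK]
  calc ∫ z, K z ∂(stm μ T) ≤ (volume.restrict (box r)).real Set.univ * ∫ z, K z ∂(stm μ T) :=
        le_mul_of_one_le_left (integral_nonneg hK0) (vol_box r)
    _ = ∫ y, (∫ z in dom r T, K (z.1, y * H.τ (z.2 + z.1 • ℓ))) ∂μ := by
        rw [← h1]; exact integral_integral_swap hI
    _ ≤ ∫ y, (C * (N : ℝ) ^ e) ^ q * (∑ j ∈ S, ‖h j y‖ ^ 2) ^ (q / 2) ∂μ :=
        integral_mono_of_nonneg (Filter.Eventually.of_forall fun y => integral_nonneg fun z => hK0 _)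
          (integrable_of_continuous μ (continuous_const.mul (Continuous.rpow_const (by fun_prop)
            fun _ => Or.inr (half_pos hq).le))) (Filter.Eventually.of_forall h2)
    _ = _ := integral_const_mul _ _

open TBlock in
/-- Lq bound of the rescaled flow -/
theorem lq_hh (H : HW μ r) (hP : PROJ μ H) {ι : Type} {S : Finset ι} {w : ι → Fin r → ℤ}
    (χ : ι → ℝ) (D0 : ℝ) (f : ι → C(G, ℂ)) {θ : Qf r} {ℓ : Fin r → ℝ} {q T Θ K : ℝ} (hq : 2 < q)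
    (hΘ : 0 ≤ Θ) (hK : 0 < K) (hw : ∀ j ∈ S, w j ∈ H.Λ) (hd : ∀ j ∈ S, H.d (w j) ≤ K)
    (hW : WBd μ H θ ℓ q T Θ S w) (k : G) :
    ∫ z, ‖ev S (fun j => En θ ℓ (w j)) (hh μ H w χ D0 f k) z‖ ^ q ∂(stm μ T)
      ≤ (Θ * K ^ (1 / 2 - 1 / q) * (∑ j ∈ S, n2 μ (hh μ H w χ D0 f k j)) ^ (1 / 2 : ℝ)) ^ q := by
  set h := hh μ H w χ D0 f k with hdef
  set a := ∑ j ∈ S, n2 μ (h j) with ha
  have a0 : 0 ≤ a := Finset.sum_nonneg fun j _ => n2_nonneg μ _
  have hq0 : 0 < q := by linarith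
  have h1 := hW h (by
    intro j hj y x
    simp only [hdef, hh, HW.hk, ContinuousMap.smul_apply, smul_eq_mul]
    rw [hP.weight _ (hw j hj), mul_assoc])
  refine h1.trans ?_
  have hs : ∀ y, ∑ j ∈ S, ‖h j y‖ ^ 2 ≤ K * a := by
    intro y
    rw [ha, Finset.mul_sum]
    refine Finset.sum_le_sum fun j hj => ?_
    simp only [hdef, hh, HW.hk]
    rw [n2_smul, ContinuousMap.smul_apply, smul_eq_mul, norm_mul, mul_pow, Complex.norm_real,
      Real.norm_eq_abs, sq_abs, mul_left_comm]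
    refine mul_le_mul_of_nonneg_left ((hP.sup _ (hw j hj) _ y).trans ?_) (sq_nonneg _)
    exact mul_le_mul_of_nonneg_right (hd j hj) (n2_nonneg μ _)
  have hsc : Continuous fun y => ∑ j ∈ S, ‖h j y‖ ^ 2 := by fun_prop
  have h2 : ∫ y, (∑ j ∈ S, ‖h j y‖ ^ 2) ^ (q / 2) ∂μ
      ≤ ∫ y, (K * a) ^ (q / 2 - 1) * ∑ j ∈ S, ‖h j y‖ ^ 2 ∂μ := by
    refine integral_mono_of_nonneg (Filter.Eventually.of_forall fun y => by positivity)
      (integrable_of_continuous μ (continuous_const.mul hsc))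
      (Filter.Eventually.of_forall fun y => ?_)
    have s0 : 0 ≤ ∑ j ∈ S, ‖h j y‖ ^ 2 := by positivity
    have e : (∑ j ∈ S, ‖h j y‖ ^ 2) ^ (q / 2)
        = (∑ j ∈ S, ‖h j y‖ ^ 2) ^ (q / 2 - 1) * ∑ j ∈ S, ‖h j y‖ ^ 2 := by
      rw [← Real.rpow_add_one' s0 (by linarith)]
      congr 1; ring
    simp only
    rw [e]
    exact mul_le_mul_of_nonneg_right (Real.rpow_le_rpow s0 (hs y) (by linarith)) s0
  have h3 : ∫ y, ∑ j ∈ S, ‖h j y‖ ^ 2 ∂μ = a := by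
    rw [integral_finsetSum _ fun j _ => integrable_of_continuous μ (by fun_prop)]
    rfl
  rw [integral_const_mul, h3] at h2
  refine (mul_le_mul_of_nonneg_left h2 (by positivity)).trans (le_of_eq ?_)
  rw [Real.mul_rpow hK.le a0, Real.mul_rpow (by positivity) (by positivity),
    Real.mul_rpow hΘ (by positivity), ← Real.rpow_mul hK.le, ← Real.rpow_mul a0]
  have e1 : (1 / 2 - 1 / q) * q = q / 2 - 1 := by field_simp
  have e2 : a ^ ((1 / 2 : ℝ) * q) = a ^ (q / 2 - 1) * a := by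
    rw [← Real.rpow_add_one' a0 (by linarith)]
    congr 1; ring
  rw [e1, e2]; ring

open TBlock in
theorem block (H : HW μ r) : PROJ μ H → AVG μ H → BLOCK μ H := by
  intro hP hA θ ℓ q T Θ B c0 D0 ι S S' w χ f F hq _ hΘ hB hc hD hS hw hi hχ hχc hd hk hW hf hFc hF
  have hq0 : 0 < q := by linarith
  have hB0 : 0 < B := by linarith
  have hq1 : 1 / q < 1 / 2 := one_div_lt_one_div_of_lt two_pos hq
  let F' : C(ℝ × G, ℂ) := ⟨F, hFc⟩
  have hdual := dual μ H hP hA F' (fun j => En θ ℓ (w j)) T hD hS hw hi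
    (fun j hj => hc.trans_le (hχc j hj)) hf
  have hm0 : 0 ≤ ∫ z, ‖F z‖ ∂(stm μ T) := integral_nonneg fun _ => norm_nonneg _
  have hN0 : 0 ≤ ∑ j ∈ S, n2 μ (f j) := Finset.sum_nonneg fun j _ => n2_nonneg μ _
  refine le_trans ?_ (final_const hq hΘ hB hc hD hN0 hm0)
  change ‖∫ z, ev S (fun j => En θ ℓ (w j)) f z * conj (F' z) ∂(stm μ T)‖ ≤ _
  rw [hdual]
  refine (norm_integral_le_integral_norm _).trans ?_
  refine holder3 μ (x := fun k => ∑ j ∈ S, n2 μ (hh μ H w χ D0 f k j))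
    (y := fun k => ∫ t in Set.Icc (-T) T, n2 μ (GG μ H S' w χ D0 F' k t)) (z := fun _ => 1)
    (integrable_of_continuous μ
      (continuous_finsetSum _ fun j _ => cont_n2 μ (cont_hh μ H w χ D0 f j)))
    (integrable_stm μ T (cont_n2 μ (cont_GG μ H S' w χ D0 F'))).integral_prod_right
    (integrable_const _) (fun k => Finset.sum_nonneg fun j _ => n2_nonneg μ _)
    (fun k => integral_nonneg fun _ => n2_nonneg μ _) (fun _ => zero_le_one)
    (fun _ => norm_nonneg _) (by positivity) (by positivity) (by linarith) (by ring)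
    (by positivity) (fun k => ?_)
    (int_a μ H hA hc hD (fun j hj => hw j (hS hj)) hχc (fun j hj => (hd j (hS hj)).2) hf)
    (int_b μ H hP hA F' T hD hw hi hχ (fun j hj => (hd j hj).1) hF) (by simp)
  have a0 : 0 ≤ ∑ j ∈ S, n2 μ (hh μ H w χ D0 f k j) := Finset.sum_nonneg fun j _ => n2_nonneg μ _
  have h1 := fixed_k μ hq (continuous_ev S (fun j => En θ ℓ (w j)) (hh μ H w χ D0 f k))
    (cont_GG' μ H S' w χ D0 F' k) (by positivity)
    (lq_hh μ H hP χ D0 f hq hΘ (mul_pos hB0 hD) (fun j hj => hw j (hS hj))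
      (fun j hj => (hd j (hS hj)).2) hW k) (l1_GG μ H F' T hD hw hk k)
  rw [b_eq] at h1
  refine h1.trans (le_of_eq ?_)
  simp only [Real.one_rpow]
  change _ = Θ * (B * D0) ^ (1 / 2 - 1 / q) * (∫ z, ‖F' z‖ ∂(stm μ T)) ^ (1 - 2 / q) * _
  ring

open TFam1 in
theorem fam1 (H : HW μ r) :
    BASIC μ H → AVG μ H → TTOR μ H → BLOCK μ H → KERN μ H → DOUB μ H → FAM1 μ H := by
  intro hB hA hT hBl hK hD θ ℓ e m l0 ν q T hTor hG hl0 hν hI hq hT0
  have hr0 : (0 : ℝ) ≤ r := by positivity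
  have hq2 : 2 < q := by
    by_contra h
    nlinarith [not_lt.1 h]
  have hq0 : 0 < q := by linarith
  obtain ⟨C1, hC1, hW⟩ := hT θ ℓ q T _ hq0 (hTor q T hq hT0)
  obtain ⟨Cg, hCg, hG⟩ := hG
  obtain ⟨Cd, hCd, hD⟩ := hD m ν hν
  obtain ⟨N0, hN0, hN⟩ := exists_N0 l0 ν
  have hN' : ∀ k, |(0 : Fin r → ℤ) k| + 3 * ∑ i, |ν i k| ≤ N0 := fun k => by
    have := hN k
    simp only [Pi.zero_apply, abs_zero]
    linarith [abs_nonneg (l0 k)]
  have hN0' : (0 : ℝ) < N0 := by exact_mod_cast hN0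
  set A := Real.sqrt (Cg * (2 * N0) ^ e) with hAdef
  have hA0 : 0 < A := Real.sqrt_pos.2 (by positivity)
  set B := H.d l0 * Cd with hBdef
  have hB1 : 1 ≤ B := one_le_mul_of_one_le_of_one_le (hB.one_le l0 hl0) hCd
  set σ := (r : ℝ) / 2 - (r + 2) / q with hσ
  set Ca := B ^ 3 / (1 / 2) ^ m * C1 * (N0 : ℝ) ^ σ * A ^ (1 - 2 / q) with hCa
  have hCa0 : 0 < Ca := by positivity
  refine ⟨Ca + A, by positivity, ?_⟩
  intro kv K S f F hkv hS hf hF hF1
  have hM1 : ∀ i, 1 ≤ 2 ^ kv i := fun i => Nat.one_le_two_pow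
  have hMX : ∀ i, 2 ^ kv i ≤ 2 ^ K := fun i => Nat.pow_le_pow_right (by norm_num) (hkv i)
  have hX1 : 1 ≤ 2 ^ K := Nat.one_le_two_pow
  set S' := Fintype.piFinset (fun i => Finset.Ico (2 ^ kv i / 2) (3 * 2 ^ kv i)) with hS'
  have hmem : ∀ a ∈ S', ∀ i, 2 ^ kv i / 2 ≤ a i ∧ a i < 3 * 2 ^ kv i := fun a ha i =>
    Finset.mem_Ico.1 (Fintype.mem_piFinset.1 ha i)
  have hSS : S ⊆ S' := by
    intro a ha
    refine Fintype.mem_piFinset.2 fun i => Finset.mem_Ico.2 ?_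
    have := hS a ha i
    rw [pow_succ] at this
    omega
  have hab : ∀ a ∈ S', ∀ k, |wv l0 ν a k| ≤ ((N0 * 2 ^ K : ℕ) : ℤ) := fun a ha =>
    abs_wv_le l0 ν N0 _ hX1 hN a fun i => by
      have := hmem a ha i; have := hMX i; omega
  have h0Λ : ∀ a, wv 0 ν a ∈ H.Λ := fun a => wv_mem H.Λ.zero_mem hν a
  set D0 := H.d (wv 0 ν (fun i => 2 ^ kv i / 4)) with hD0
  have hD0pos : 0 < D0 := H.d_pos _ (h0Λ _)
  have hD0le : D0 ≤ A * ((2 : ℝ) ^ K) ^ ((e : ℝ) / 2) :=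
    d_le μ H hCg hG N0 K hN0 (h0Λ _) (abs_wv_le 0 ν N0 _ hX1 hN' _ fun i => by
      have := hMX i; omega)
  have hV : 0 ≤ ∫ z, ‖F z‖ ∂(stm μ T) := integral_nonneg fun _ => norm_nonneg _
  have hX0 : (0 : ℝ) < 2 ^ K := by positivity
  have b1 := hBl θ ℓ q T (C1 * ((N0 * 2 ^ K : ℕ) : ℝ) ^ σ) B ((1 / 2) ^ m) D0 _ S S' (wv l0 ν)
    (fun a => ∏ i, fej (2 ^ kv i) (a i)) f F hq2 hT0 (by positivity) hB1 (by positivity) hD0pos
    hSS (fun a _ => wv_mem hl0 hν a) (wv_injective l0 hI).injOn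
    (fun a _ => ⟨Finset.prod_nonneg fun i _ => fej_nonneg _ _,
      Finset.prod_le_one (fun i _ => fej_nonneg _ _) fun i _ => fej_le_one _ _ (hM1 i)⟩)
    (fun a ha => by
      have : ((1 : ℝ) / 2) ^ m = ∏ _i : Fin m, (1 / 2 : ℝ) := by simp
      rw [this]
      refine Finset.prod_le_prod (fun _ _ => by norm_num) fun i _ => ?_
      have := hS a ha i
      rw [pow_succ] at this
      exact half_le_fej _ _ (hM1 i) this.1 (by omega))
    (fun a ha => by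
      constructor
      · rw [wv_split l0 ν a (fun i => 2 ^ kv i / 4) fun i => by have := hmem a ha i; omega]
        exact hB.mono _ (h0Λ _) _ (wv_mem hl0 hν _)
      · rw [wv_zero, hBdef, mul_assoc]
        refine (hB.submul _ hl0 _ (h0Λ _)).trans
          (mul_le_mul_of_nonneg_left (hD _ _ fun i => ?_) (H.d_pos _ hl0).le)
        have := hmem a ha i
        omega)
    (hK m l0 ν (fun i => 2 ^ kv i) hl0 hν hI hM1)
    (hW _ S (wv l0 ν) (N0 * 2 ^ K) (Nat.mul_pos hN0 hX1) (wv_injective l0 hI).injOn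
      fun a ha => hab a (hSS ha))
    hf hF hF1
  have b2 := second μ H hA S (wv l0 ν) (fun a => En θ ℓ (wv l0 ν a)) f F T
    (A * ((2 : ℝ) ^ K) ^ ((e : ℝ) / 2)) ((2 : ℝ) ^ (∑ i, kv i)) (by positivity)
    (fun a _ => wv_mem hl0 hν a)
    (fun a ha => d_le μ H hCg hG N0 K hN0 (wv_mem hl0 hν a) (hab a (hSS ha)))
    (by exact_mod_cast card_le kv S hS) hf hF
  set R := Real.sqrt (∑ a ∈ S, n2 μ (f a)) with hR
  have hR0 : 0 ≤ R := Real.sqrt_nonneg _
  set V := ∫ z, ‖F z‖ ∂(stm μ T) with hVdef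
  rw [mul_min_of_nonneg _ _ (by positivity)]
  refine le_min (b1.trans ?_) (b2.trans ?_)
  · have hexp : 0 ≤ 1 - 2 / q := by
      rw [sub_nonneg, div_le_one hq0]; exact hq2.le
    have e1 : D0 ^ (1 - 2 / q) ≤ A ^ (1 - 2 / q) * ((2 : ℝ) ^ K) ^ ((e : ℝ) / 2 * (1 - 2 / q)) := by
      rw [Real.rpow_mul hX0.le, ← Real.mul_rpow hA0.le (by positivity)]
      exact Real.rpow_le_rpow hD0pos.le hD0le hexp
    have e2 : ((N0 * 2 ^ K : ℕ) : ℝ) ^ σ = (N0 : ℝ) ^ σ * ((2 : ℝ) ^ K) ^ σ := by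
      push_cast; rw [Real.mul_rpow hN0'.le hX0.le]
    have e3 : ((2 : ℝ) ^ K) ^ ((r + e : ℝ) / 2 - (r + e + 2) / q)
        = ((2 : ℝ) ^ K) ^ σ * ((2 : ℝ) ^ K) ^ ((e : ℝ) / 2 * (1 - 2 / q)) := by
      rw [← Real.rpow_add hX0]; congr 1; rw [hσ]; field_simp; ring
    rw [e2, e3]
    calc _ ≤ B ^ 3 / (1 / 2) ^ m * (C1 * ((N0 : ℝ) ^ σ * ((2 : ℝ) ^ K) ^ σ)) *
          (A ^ (1 - 2 / q) * ((2 : ℝ) ^ K) ^ ((e : ℝ) / 2 * (1 - 2 / q))) * R * V ^ (1 - 1 / q) := by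
          gcongr
      _ = Ca * R * (((2 : ℝ) ^ K) ^ σ * ((2 : ℝ) ^ K) ^ ((e : ℝ) / 2 * (1 - 2 / q)) *
          V ^ (1 - 1 / q)) := by rw [hCa]; ring
      _ ≤ _ := by gcongr; linarith
  · calc _ = A * R * (Real.sqrt ((2 : ℝ) ^ (∑ i, kv i)) * ((2 : ℝ) ^ K) ^ ((e : ℝ) / 2) * V) := by
          ring
      _ ≤ _ := by gcongr; linarith

open TFam2 in
theorem fam2 (H : HW μ r) : FAM1 μ H → LSUM → FAM2 μ H := by
  intro h1 hL θ ℓ e m l0 ν p T hTor hGr hl0 hν hind hp hT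
  have hr : (0 : ℝ) < r := by
    rcases Nat.eq_zero_or_pos r with h | h
    · subst h; norm_num at hp
    · exact_mod_cast h
  have he : (0 : ℝ) ≤ e := Nat.cast_nonneg _
  have hp2 : 2 < p := by nlinarith
  have hp0 : 0 < p := by linarith
  set D : ℝ := r + e with hD
  have hD0 : 0 < D := by positivity
  set q : ℝ := (p + 2 + 4 / r) / 2 with hq
  have h4r : 4 / (r : ℝ) < p - 2 := by rw [div_lt_iff₀ hr]; linarith
  have h4r0 : 0 < 4 / (r : ℝ) := by positivity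
  have hqp : q < p := by rw [hq]; linarith
  have hq0 : 0 < q := by rw [hq]; linarith
  have hrq : 4 < r * (q - 2) := by
    have : (r : ℝ) * (q - 2) = (r * (p - 2) + 4) / 2 := by rw [hq]; field_simp; ring
    rw [this]; linarith
  set s : ℝ := D / 2 - (D + 2) / p with hs
  have hs0 : 0 ≤ s := by
    rw [hs, sub_nonneg, div_le_div_iff₀ hp0 (by norm_num), hD]
    nlinarith [mul_nonneg he (by linarith : (0 : ℝ) ≤ p - 2)]
  set a0 : ℝ := 1 / q - 1 / p with ha0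
  have ha : 0 < a0 := sub_pos.2 (one_div_lt_one_div_of_lt hq0 hqp)
  have hb : 0 < 1 / p := by positivity
  set t : ℝ := a0 / (2 * (a0 + 1 / p)) with ht
  have ht0 : 0 < t := by positivity
  set c : ℝ := min (a0 / 2) (1 / p) with hc
  have hc0 : 0 < c := lt_min (by positivity) hb
  obtain ⟨C1, hC1, hF1⟩ := h1 θ ℓ e m l0 ν q T hTor hGr hl0 hν hind hrq hT
  obtain ⟨C2, hC2, hL2⟩ := hL p c (D + 2) hp2.le hc0 (by positivity)
  obtain ⟨C3, hC3, hC3a⟩ := two_pow_top_le l0 hind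
  set M : ℝ := ((1 - (2 : ℝ) ^ (-t))⁻¹) ^ m with hM
  have hM0 : 0 < M := by
    have : (2 : ℝ) ^ (-t) < 1 := Real.rpow_lt_one_of_one_lt_of_neg (by norm_num) (by linarith)
    have : 0 < 1 - (2 : ℝ) ^ (-t) := by linarith
    positivity
  have hC30 : 0 < C3 := by linarith
  have hC4 : 0 < M * (C1 ^ 2 * C3 ^ (2 * s)) := by positivity
  refine ⟨C2 * (M * (C1 ^ 2 * C3 ^ (2 * s))) ^ (p / 2), by positivity, fun S f hf => ?_⟩
  classical
  set E : (Fin m → ℕ) → ℝ := fun a => En θ ℓ (wv l0 ν a) with hE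
  set I : Finset (Fin m → ℕ) := S.image kvec with hI
  set Km : ℕ := I.sup top + 1 with hKm
  have hK : ∀ kv ∈ I, top kv < Km := fun kv h => Nat.lt_succ_of_le (Finset.le_sup (f := top) h)
  set A : (Fin m → ℕ) → ℝ := fun kv => ∑ a ∈ S with kvec a = kv, n2 μ (f a) with hA
  have hA0 : ∀ kv, 0 ≤ A kv := fun kv => Finset.sum_nonneg fun a _ => n2_nonneg μ _
  set b : (Fin m → ℕ) → ℝ := fun kv => C1 * √(A kv) * ((2 : ℝ) ^ top kv) ^ s with hbdef
  have hb0 : ∀ kv, 0 ≤ b kv := fun kv => by positivity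
  set γ : ℕ → ℝ := fun K => ∑ kv ∈ I with top kv = K, gain kv (top kv) ^ t * b kv with hγ
  have hγ0 : ∀ K, 0 ≤ γ K := fun K => Finset.sum_nonneg fun kv _ =>
    mul_nonneg (Real.rpow_nonneg (gain_pos _ _).le _) (hb0 kv)
  have hcont : Continuous (ev S E f) := continuous_ev S E f
  have hmain := hL2 (ℝ × G) (stm μ T) (ev S E f) Km γ hcont.measurable
    ⟨_, Filter.Eventually.of_forall (norm_ev_le S E f)⟩ hγ0 (by
      intro ϑ hϑ hϑ1 hpos
      set mF : ℝ := ∫ x, ‖ϑ (ev S E f x)‖ ∂(stm μ T) with hmF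
      have hFc : Continuous fun z => ϑ (ev S E f z) := hϑ.comp hcont
      rw [pairing_fiber μ S I kvec (fun a h => Finset.mem_image_of_mem _ h) E f T hFc]
      refine (norm_sum_le _ _).trans ?_
      set Φ : ℕ → ℝ := fun k => min (((2 : ℝ) ^ ((D + 2) * k) * mF) ^ c)
        (((2 : ℝ) ^ ((D + 2) * k) * mF) ^ (-c)) with hΦ
      have hsum : ∑ k ∈ Finset.range Km, γ k * Φ k
          = ∑ kv ∈ I, gain kv (top kv) ^ t * b kv * Φ (top kv) := by
        rw [← Finset.sum_fiberwise_of_maps_to (g := top) (t := Finset.range Km)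
          (fun kv h => Finset.mem_range.2 (hK kv h))]
        refine Finset.sum_congr rfl fun k _ => ?_
        rw [hγ, Finset.sum_mul]
        exact Finset.sum_congr rfl fun kv h => by rw [(Finset.mem_filter.1 h).2]
      change _ ≤ mF ^ (1 - 1 / p) * ∑ k ∈ Finset.range Km, γ k * Φ k
      rw [hsum, Finset.mul_sum]
      refine Finset.sum_le_sum fun kv _ => ?_
      have h2 := hF1 kv (top kv) (S.filter fun a => kvec a = kv) f _ (le_top' kv)
        (fun a h i => by rw [← (Finset.mem_filter.1 h).2]; exact kvec_spec a i)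
        (fun a h => hf a (Finset.mem_filter.1 h).1) hFc (fun z => hϑ1 _)
      refine h2.trans ?_
      have hN : (0 : ℝ) < 2 ^ top kv := by positivity
      have h3 := block_rewrite (p := p) (q := q) hN hpos hD
        (sqrt_le_gain (indep_le hind) kv (top kv) (le_top' kv))
      have hy : (0 : ℝ) < ((2 : ℝ) ^ top kv) ^ (D + 2) * mF := by positivity
      have h4 := min_le_interp ha hb hy (gain_pos kv (top kv)) (gain_le_one kv (top kv))
      have h5 : ((2 : ℝ) ^ top kv) ^ (D + 2) = (2 : ℝ) ^ ((D + 2) * (top kv : ℕ)) := by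
        rw [← Real.rpow_natCast, ← Real.rpow_mul (by norm_num), mul_comm]
      have h6 : (0 : ℝ) ≤ ((2 : ℝ) ^ top kv) ^ s * mF ^ (1 - 1 / p) := by positivity
      have h7 := h3.trans (mul_le_mul_of_nonneg_left h4 h6)
      have h8 : (0 : ℝ) ≤ C1 * √(A kv) := by positivity
      refine (mul_le_mul_of_nonneg_left h7 h8).trans (le_of_eq ?_)
      rw [h5]
      simp only [hbdef, hΦ]
      ring)
  refine hmain.trans ?_
  rw [mul_assoc C2]
  refine mul_le_mul_of_nonneg_left ?_ hC2.le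
  have hW0 : 0 ≤ ∑ a ∈ S, (1 + ‖wv l0 ν a‖) ^ (2 * s) * n2 μ (f a) :=
    Finset.sum_nonneg fun a _ => mul_nonneg (by positivity) (n2_nonneg μ _)
  rw [← Real.mul_rpow hC4.le hW0]
  refine Real.rpow_le_rpow (Finset.sum_nonneg fun _ _ => sq_nonneg _) ?_ (by positivity)
  refine (sum_gamma_sq_le ht0 I Km hK b).trans ?_
  rw [mul_assoc M]
  refine mul_le_mul_of_nonneg_left ?_ hM0.le
  rw [← Finset.sum_fiberwise_of_maps_to (g := kvec) (t := I)
    (fun a h => Finset.mem_image_of_mem _ h), Finset.mul_sum]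
  refine Finset.sum_le_sum fun kv _ => ?_
  have h9 : b kv ^ 2 = ∑ a ∈ S with kvec a = kv,
      C1 ^ 2 * (((2 : ℝ) ^ top kv) ^ (2 * s) * n2 μ (f a)) := by
    rw [← Finset.mul_sum, ← Finset.mul_sum, hbdef]
    simp only
    rw [mul_pow, mul_pow, Real.sq_sqrt (hA0 kv), ← Real.rpow_natCast (_ ^ s),
      ← Real.rpow_mul (by positivity), mul_comm s]
    push_cast
    ring
  rw [h9, Finset.mul_sum]
  refine Finset.sum_le_sum fun a h => ?_
  rw [mul_assoc (C1 ^ 2), ← mul_assoc (C3 ^ _), ← Real.mul_rpow hC30.le (by positivity)]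
  refine mul_le_mul_of_nonneg_left (mul_le_mul_of_nonneg_right ?_ (n2_nonneg μ _)) (sq_nonneg _)
  refine Real.rpow_le_rpow (by positivity) ?_ (by positivity)
  rw [← (Finset.mem_filter.1 h).2]
  exact hC3a a

open TFam2 in
theorem tmain (H : HW μ r) : FAM2 μ H → TMAIN μ H := by
  intro h2 θ ℓ e p T hTor hGr hcov hp hT
  obtain ⟨J, _, m, l0, ν, hl0, hν, hind, hcov⟩ := hcov
  have hr : (0 : ℝ) < r := by
    rcases Nat.eq_zero_or_pos r with h | h
    · subst h; norm_num at hp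
    · exact_mod_cast h
  have hp2 : 2 < p := by nlinarith
  choose C hC hCj using fun j => h2 θ ℓ e (m j) (l0 j) (ν j) p T hTor hGr (hl0 j) (hν j)
    (hind j) hp hT
  have : Nonempty J := by
    obtain ⟨j, -⟩ := hcov 0 H.Λ.zero_mem
    exact ⟨j⟩
  choose! jf hjf using hcov
  have hsumC : 0 < ∑ j, C j := Finset.sum_pos (fun j _ => hC j) Finset.univ_nonempty
  have hcard : (0 : ℝ) < (Finset.univ : Finset J).card := by
    exact_mod_cast Finset.card_pos.2 Finset.univ_nonempty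
  refine ⟨((Finset.univ : Finset J).card : ℝ) ^ (p - 1) * ∑ j, C j, by positivity,
    fun S f hS hf => ?_⟩
  classical
  set s2 : ℝ := 2 * (((r : ℝ) + e) / 2 - ((r : ℝ) + e + 2) / p) with hs2
  set W : ℝ := ∑ l ∈ S, (1 + ‖l‖) ^ s2 * n2 μ (f l) with hW
  have hterm : ∀ l : Fin r → ℤ, 0 ≤ (1 + ‖l‖) ^ s2 * n2 μ (f l) := fun l =>
    mul_nonneg (by positivity) (n2_nonneg μ _)
  set u : J → ℝ × G → ℂ := fun j => ev (S.filter fun l => jf l = j) (En θ ℓ) f with hu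
  have huc : ∀ j, Continuous fun z => ‖u j z‖ ^ p := fun j =>
    (continuous_ev _ _ _).norm.rpow_const fun _ => Or.inr (by linarith)
  have hj : ∀ j, ∫ z, ‖u j z‖ ^ p ∂(stm μ T) ≤ C j * W ^ (p / 2) := by
    intro j
    have hinj := wv_injective (l0 j) (hind j)
    set Sj := S.filter fun l => jf l = j with hSj
    set Tj := Sj.preimage (wv (l0 j) (ν j)) hinj.injOn with hTj
    have hrange : ∀ l ∈ Sj, l ∈ Set.range (wv (l0 j) (ν j)) := by
      intro l hl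
      obtain ⟨hl1, hl2⟩ := Finset.mem_filter.1 hl
      obtain ⟨a, ha⟩ := hjf l (hS l hl1)
      subst hl2
      exact ⟨a, ha.symm⟩
    have h3 := hCj j Tj (fun a => f (wv (l0 j) (ν j) a)) fun a ha =>
      hf _ (Finset.mem_filter.1 (Finset.mem_preimage.1 ha)).1
    have h4 : ev Tj (fun a => En θ ℓ (wv (l0 j) (ν j) a)) (fun a => f (wv (l0 j) (ν j) a))
        = u j := by
      funext z
      exact Finset.sum_preimage (wv (l0 j) (ν j)) Sj hinj.injOn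
        (fun l => Complex.exp (-(Complex.I * ((z.1 * En θ ℓ l : ℝ) : ℂ))) * f l z.2)
        fun l hl hn => absurd (hrange l hl) hn
    have h5 := Finset.sum_preimage (wv (l0 j) (ν j)) Sj hinj.injOn
      (fun l => (1 + ‖l‖) ^ s2 * n2 μ (f l)) fun l hl hn => absurd (hrange l hl) hn
    rw [h4, h5] at h3
    refine h3.trans (mul_le_mul_of_nonneg_left ?_ (hC j).le)
    refine Real.rpow_le_rpow (Finset.sum_nonneg fun l _ => hterm l) ?_ (by linarith)
    exact Finset.sum_le_sum_of_subset_of_nonneg (Finset.filter_subset _ _) fun l _ _ => hterm l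
  have hpt : ∀ z, ‖ev S (En θ ℓ) f z‖ ^ p
      ≤ ((Finset.univ : Finset J).card : ℝ) ^ (p - 1) * ∑ j, ‖u j z‖ ^ p := by
    intro z
    rw [ev_fiber S Finset.univ jf (fun _ _ => Finset.mem_univ _)]
    refine (Real.rpow_le_rpow (norm_nonneg _) (norm_sum_le _ _) (by linarith)).trans ?_
    exact Real.rpow_sum_le_const_mul_sum_rpow_of_nonneg _ (by linarith) fun j _ => norm_nonneg _
  calc ∫ z, ‖ev S (En θ ℓ) f z‖ ^ p ∂(stm μ T)
      ≤ ∫ z, ((Finset.univ : Finset J).card : ℝ) ^ (p - 1) * ∑ j, ‖u j z‖ ^ p ∂(stm μ T) := by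
        refine integral_mono (integrable_stm μ T ?_) (integrable_stm μ T ?_) hpt
        · exact (continuous_ev _ _ _).norm.rpow_const fun _ => Or.inr (by linarith)
        · exact continuous_const.mul (continuous_finsetSum _ fun j _ => huc j)
    _ = ((Finset.univ : Finset J).card : ℝ) ^ (p - 1) * ∑ j, ∫ z, ‖u j z‖ ^ p ∂(stm μ T) := by
        rw [integral_const_mul, integral_finsetSum _ fun j _ => integrable_stm μ T (huc j)]
    _ ≤ ((Finset.univ : Finset J).card : ℝ) ^ (p - 1) * ∑ j, C j * W ^ (p / 2) :=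
        mul_le_mul_of_nonneg_left (Finset.sum_le_sum fun j _ => hj j) (by positivity)
    _ = _ := by rw [← Finset.sum_mul, mul_assoc]

theorem transference (H : HW μ r) : TMAIN μ H := by
  have h0 := basic μ H
  have h1 := proj_ok μ H h0
  have h2 := avg_ok μ H h0 h1
  exact tmain μ H (fam2 μ H (fam1 μ H h0 h2 (ttor μ H) (block μ H h1 h2) (kern μ H h0)
    (doub μ H halve h0)) lsum)

end Pool.Agent.P.MP_7211b7_an.NR
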