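import Pool.Agent.P.MP_7211b7_an.TBlockAux

/-!
# MP_7211b7_an, part T: the restricted estimate for one block
-/

open MeasureTheory ComplexConjugate
open scoped ENNReal

set_option linter.unusedSectionVars false

namespace Pool.Agent.P.MP_7211b7_an

variable {G : Type} [Group G] [TopologicalSpace G] [IsTopologicalGroup G] [CompactSpace G]
  [T2Space G] [SecondCountableTopology G] [MeasurableSpace G] [BorelSpace G]
  (μ : Measure G) [Hr μ] {r : ℕ}

namespace TBlock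

/-- the rescaled components -/
noncomputable def hh (H : HW μ r) {ι : Type} (w : ι → Fin r → ℤ) (χ : ι → ℝ) (D0 : ℝ)
    (f : ι → C(G, ℂ)) (k : G) (j : ι) : C(G, ℂ) :=
  ((H.d (w j) ^ 2 / (D0 * χ j) : ℝ) : ℂ) • H.hk μ (w j) k (f j)

/-- the multiplier applied to the translated test function -/
noncomputable def GG (H : HW μ r) {ι : Type} (S' : Finset ι) (w : ι → Fin r → ℤ) (χ : ι → ℝ)
    (D0 : ℝ) (F : C(ℝ × G, ℂ)) (k : G) (t : ℝ) : C(G, ℂ) :=
  ∑ j ∈ S', ((D0 * χ j / H.d (w j) : ℝ) : ℂ) • H.hk μ (w j) k (F.curry t)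

theorem cont_hh (H : HW μ r) {ι : Type} (w : ι → Fin r → ℤ) (χ : ι → ℝ) (D0 : ℝ)
    (f : ι → C(G, ℂ)) (j : ι) : Continuous fun k => hh μ H w χ D0 f k j :=
  (cont_hk μ H (w j) (U := fun _ => f j) continuous_const continuous_id').const_smul
    ((H.d (w j) ^ 2 / (D0 * χ j) : ℝ) : ℂ)

theorem cont_GG (H : HW μ r) {ι : Type} (S' : Finset ι) (w : ι → Fin r → ℤ) (χ : ι → ℝ)
    (D0 : ℝ) (F : C(ℝ × G, ℂ)) : Continuous fun p : ℝ × G => GG μ H S' w χ D0 F p.2 p.1 :=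
  continuous_finsetSum _ fun j _ =>
    (cont_hk μ H (w j) (U := fun p : ℝ × G => F.curry p.1)
      (F.curry.continuous.comp continuous_fst) continuous_snd).const_smul
        ((D0 * χ j / H.d (w j) : ℝ) : ℂ)

theorem cont_GG' (H : HW μ r) {ι : Type} (S' : Finset ι) (w : ι → Fin r → ℤ) (χ : ι → ℝ)
    (D0 : ℝ) (F : C(ℝ × G, ℂ)) (k : G) :
    Continuous fun z : ℝ × G => GG μ H S' w χ D0 F k z.1 z.2 :=
  cont_app (U := fun z : ℝ × G => GG μ H S' w χ D0 F k z.1) (κ := fun z => z.2)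
    ((cont_GG μ H S' w χ D0 F).comp (f := fun z : ℝ × G => (z.1, k)) (by fun_prop))
    continuous_snd

theorem ev_ip {ι : Type} (S : Finset ι) (E : ι → ℝ) (h : ι → C(G, ℂ)) (U : C(G, ℂ)) (t : ℝ) :
    ∫ y, ev S E h (t, y) * conj (U y) ∂μ
      = ∑ j ∈ S, Complex.exp (-(Complex.I * ((t * E j : ℝ) : ℂ))) * ip μ (h j) U := by
  rw [← ip_sum_left]
  unfold ip ev
  simp only [ContinuousMap.sum_apply, ContinuousMap.smul_apply, smul_eq_mul]

theorem stm_prod {V : Type} [NormedAddCommGroup V] [NormedSpace ℝ V] (T : ℝ) {u : ℝ × G → V}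
    (hu : Continuous u) :
    ∫ z, u z ∂(stm μ T) = ∫ t in Set.Icc (-T) T, ∫ y, u (t, y) ∂μ :=
  integral_prod u (integrable_stm μ T hu)

theorem stm_prod_symm {V : Type} [NormedAddCommGroup V] [NormedSpace ℝ V] (T : ℝ)
    {u : ℝ × G → V} (hu : Continuous u) :
    ∫ z, u z ∂(stm μ T) = ∫ y, (∫ t in Set.Icc (-T) T, u (t, y)) ∂μ :=
  integral_prod_symm u (integrable_stm μ T hu)

/-- the duality identity -/
theorem dual (H : HW μ r) (hP : PROJ μ H) (hA : AVG μ H) {ι : Type} {S S' : Finset ι}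
    {w : ι → Fin r → ℤ} {χ : ι → ℝ} {D0 : ℝ} {f : ι → C(G, ℂ)} (F : C(ℝ × G, ℂ)) (E : ι → ℝ)
    (T : ℝ) (hD : 0 < D0) (hS : S ⊆ S') (hw : ∀ j ∈ S', w j ∈ H.Λ) (hi : Set.InjOn w S')
    (hχ : ∀ j ∈ S, 0 < χ j) (hf : ∀ j ∈ S, f j ∈ span2 (H.φ (w j))) :
    ∫ z, ev S E f z * conj (F z) ∂(stm μ T)
      = ∫ k, ∫ z, ev S E (hh μ H w χ D0 f k) z * conj (GG μ H S' w χ D0 F k z.1 z.2)
          ∂(stm μ T) ∂μ := by
  let Φ : ℝ × G → ℂ := fun p => ∑ j ∈ S, Complex.exp (-(Complex.I * ((p.1 * E j : ℝ) : ℂ))) *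
    ((H.d (w j) : ℂ) * ip μ (H.hk μ (w j) p.2 (f j)) (tr2 1 p.2⁻¹ (F.curry p.1)))
  have hΦ : Continuous Φ := by
    refine continuous_finsetSum _ fun j _ => Continuous.mul (by fun_prop) ?_
    exact continuous_const.mul (cont_ip μ (cont_hk μ H (w j) continuous_const continuous_snd)
      (cont_tr (F.curry.continuous.comp continuous_fst) continuous_snd))
  have h1 : ∀ t, ∫ y, ev S E f (t, y) * conj (F (t, y)) ∂μ = ∫ k, Φ (t, k) ∂μ := by
    intro t
    have := ev_ip μ S E f (F.curry t) t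
    simp only [ContinuousMap.curry_apply] at this
    rw [this]
    simp only [Φ]
    rw [integral_finsetSum]
    · refine Finset.sum_congr rfl fun j hj => ?_
      rw [integral_const_mul, integral_const_mul,
        ip_recon μ H hA (hw j (hS hj)) (hf j hj) (F.curry t)]
    · intro j _
      refine integrable_of_continuous μ (continuous_const.mul (continuous_const.mul ?_))
      exact cont_ip μ (cont_hk μ H (w j) continuous_const continuous_id)
        (cont_tr continuous_const continuous_id)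
  have h2 : ∀ t k, ∫ y, ev S E (hh μ H w χ D0 f k) (t, y) * conj (GG μ H S' w χ D0 F k t y) ∂μ
      = Φ (t, k) := by
    intro t k
    rw [ev_ip]
    refine Finset.sum_congr rfl fun j hj => ?_
    congr 1
    unfold hh GG HW.hk
    rw [ip_smul_left, ip_mult μ H hP S' w (fun i => D0 * χ i / H.d (w i)) hw hi (hS hj),
      ← mul_assoc]
    congr 1
    have e1 : (H.d (w j) : ℂ) ≠ 0 := by exact_mod_cast (H.d_pos _ (hw j (hS hj))).ne'
    have e2 : (D0 : ℂ) ≠ 0 := by exact_mod_cast hD.ne'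
    have e3 : (χ j : ℂ) ≠ 0 := by exact_mod_cast (hχ j hj).ne'
    push_cast
    field_simp
  have hc : Continuous fun z => ev S E f z * conj (F z) :=
    (continuous_ev S E f).mul (by fun_prop)
  rw [stm_prod μ T hc]
  simp only [h1]
  rw [← stm_prod μ T hΦ, stm_prod_symm μ T hΦ]
  refine integral_congr_ae (Filter.Eventually.of_forall fun k => ?_)
  have hc' : Continuous fun z : ℝ × G =>
      ev S E (hh μ H w χ D0 f k) z * conj (GG μ H S' w χ D0 F k z.1 z.2) :=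
    (continuous_ev S E _).mul (Complex.continuous_conj.comp (cont_GG' μ H S' w χ D0 F k))
  simp only
  rw [stm_prod μ T hc']
  simp only [h2]

/-- L1 bound of the multiplier -/
theorem l1_GG (H : HW μ r) {ι : Type} {S' : Finset ι} {w : ι → Fin r → ℤ} {χ : ι → ℝ} {D0 : ℝ}
    (F : C(ℝ × G, ℂ)) (T : ℝ) (hD : 0 < D0) (hw : ∀ j ∈ S', w j ∈ H.Λ)
    (hk : D0 * ∫ z, ‖∑ j ∈ S', (χ j : ℂ) * H.φ (w j) z‖ ∂μ ≤ 1) (k : G) :
    ∫ z, ‖GG μ H S' w χ D0 F k z.1 z.2‖ ∂(stm μ T) ≤ ∫ z, ‖F z‖ ∂(stm μ T) := by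
  have hc := (cont_GG' μ H S' w χ D0 F k).norm
  have hF : Continuous fun z => ‖F z‖ := F.continuous.norm
  rw [stm_prod μ T hc, stm_prod μ T hF]
  refine integral_mono (integrable_stm μ T hc).integral_prod_left
    (integrable_stm μ T hF).integral_prod_left fun t => ?_
  simp only
  unfold GG HW.hk
  rw [mult_eq_cv μ H S' w χ D0 hw]
  refine (l1_cv μ _ _).trans ?_
  rw [l1_tr]
  have e : ∫ z, ‖((D0 : ℂ) • ∑ j ∈ S', (χ j : ℂ) • H.φ (w j)) z‖ ∂μ
      = D0 * ∫ z, ‖∑ j ∈ S', (χ j : ℂ) * H.φ (w j) z‖ ∂μ := by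
    rw [← integral_const_mul]
    refine integral_congr_ae (Filter.Eventually.of_forall fun z => ?_)
    simp only [ContinuousMap.smul_apply, ContinuousMap.sum_apply, smul_eq_mul, norm_mul,
      Complex.norm_real, Real.norm_eq_abs, abs_of_pos hD]
  rw [e]
  exact mul_le_of_le_one_left (integral_nonneg fun _ => norm_nonneg _) hk

/-- Lq bound of the rescaled flow -/
theorem lq_hh (H : HW μ r) (hP : PROJ μ H) {ι : Type} {S : Finset ι} {w : ι → Fin r → ℤ}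
    (χ : ι → ℝ) (D0 : ℝ) (f : ι → C(G, ℂ)) {θ ℓ : Fin r → ℝ} {q T Θ K : ℝ} (hq : 2 < q)
    (hΘ : 0 ≤ Θ) (hK : 0 < K) (hw : ∀ j ∈ S, w j ∈ H.Λ) (hd : ∀ j ∈ S, H.d (w j) ≤ K)
    (hW : WBd μ H θ ℓ q T Θ S w) (k : G) :
    ∫ z, ‖ev S (fun j => En θ ℓ (w j)) (hh μ H w χ D0 f k) z‖ ^ q ∂(stm μ T)
      ≤ (Θ * K ^ (1 / 2 - 1 / q) * (∑ j ∈ S, n2 μ (hh μ H w χ D0 f k j)) ^ (1 / 2 : ℝ)) ^ q := by
  set h := hh μ H w χ D0 f k with hdef
  set a := ∑ j ∈ S, n2 μ (h j) with ha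
  have a0 : 0 ≤ a := Finset.sum_nonneg fun j _ => n2_nonneg μ _
  have hq0 : 0 < q := by linarith
  have h1 := hW h (by
    intro j hj y x
    simp only [hdef, hh, HW.hk, ContinuousMap.smul_apply, smul_eq_mul]
    rw [hP.weight _ (hw j hj), mul_assoc])
  refine h1.trans ?_
  have hs : ∀ y, ∑ j ∈ S, ‖h j y‖ ^ 2 ≤ K * a := by
    intro y
    rw [ha, Finset.mul_sum]
    refine Finset.sum_le_sum fun j hj => ?_
    simp only [hdef, hh, HW.hk]
    rw [n2_smul, ContinuousMap.smul_apply, smul_eq_mul, norm_mul, mul_pow, Complex.norm_real,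
      Real.norm_eq_abs, sq_abs, mul_left_comm]
    refine mul_le_mul_of_nonneg_left ((hP.sup _ (hw j hj) _ y).trans ?_) (sq_nonneg _)
    exact mul_le_mul_of_nonneg_right (hd j hj) (n2_nonneg μ _)
  have hsc : Continuous fun y => ∑ j ∈ S, ‖h j y‖ ^ 2 := by fun_prop
  have h2 : ∫ y, (∑ j ∈ S, ‖h j y‖ ^ 2) ^ (q / 2) ∂μ
      ≤ ∫ y, (K * a) ^ (q / 2 - 1) * ∑ j ∈ S, ‖h j y‖ ^ 2 ∂μ := by
    refine integral_mono_of_nonneg (Filter.Eventually.of_forall fun y => by positivity)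
      (integrable_of_continuous μ (continuous_const.mul hsc))
      (Filter.Eventually.of_forall fun y => ?_)
    have s0 : 0 ≤ ∑ j ∈ S, ‖h j y‖ ^ 2 := by positivity
    have e : (∑ j ∈ S, ‖h j y‖ ^ 2) ^ (q / 2)
        = (∑ j ∈ S, ‖h j y‖ ^ 2) ^ (q / 2 - 1) * ∑ j ∈ S, ‖h j y‖ ^ 2 := by
      rw [← Real.rpow_add_one' s0 (by linarith)]
      congr 1; ring
    simp only
    rw [e]
    exact mul_le_mul_of_nonneg_right (Real.rpow_le_rpow s0 (hs y) (by linarith)) s0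
  have h3 : ∫ y, ∑ j ∈ S, ‖h j y‖ ^ 2 ∂μ = a := by
    rw [integral_finsetSum _ fun j _ => integrable_of_continuous μ (by fun_prop)]
    rfl
  rw [integral_const_mul, h3] at h2
  refine (mul_le_mul_of_nonneg_left h2 (by positivity)).trans (le_of_eq ?_)
  rw [Real.mul_rpow hK.le a0, Real.mul_rpow (by positivity) (by positivity),
    Real.mul_rpow hΘ (by positivity), ← Real.rpow_mul hK.le, ← Real.rpow_mul a0]
  have e1 : (1 / 2 - 1 / q) * q = q / 2 - 1 := by field_simp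
  have e2 : a ^ ((1 / 2 : ℝ) * q) = a ^ (q / 2 - 1) * a := by
    rw [← Real.rpow_add_one' a0 (by linarith)]
    congr 1; ring
  rw [e1, e2]; ring

/-- the estimate for a fixed conjugate -/
theorem fixed_k {u v : ℝ × G → ℂ} {q T A m : ℝ} (hq : 2 < q) (hu : Continuous u)
    (hv : Continuous v) (hA0 : 0 ≤ A) (hA : ∫ z, ‖u z‖ ^ q ∂(stm μ T) ≤ A ^ q)
    (hm : ∫ z, ‖v z‖ ∂(stm μ T) ≤ m) :
    ‖∫ z, u z * conj (v z) ∂(stm μ T)‖
      ≤ A * m ^ (1 - 2 / q) * (∫ z, ‖v z‖ ^ 2 ∂(stm μ T)) ^ (1 / q) := by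
  have hq0 : 0 < q := by linarith
  refine (norm_integral_le_integral_norm _).trans ?_
  have h := holder3 (stm μ T) (u := fun z => ‖u z * conj (v z)‖) (x := fun z => ‖u z‖ ^ q)
    (y := fun z => ‖v z‖) (z := fun z => ‖v z‖ ^ 2) (α := 1 / q) (β := 1 - 2 / q) (γ := 1 / q)
    (K := 1) (integrable_stm μ T (hu.norm.rpow_const fun _ => Or.inr hq0.le))
    (integrable_stm μ T hv.norm) (integrable_stm μ T (hv.norm.pow 2))
    (fun _ => by positivity) (fun _ => by positivity) (fun _ => by positivity)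
    (fun _ => by positivity) (by positivity)
    (by rw [sub_pos, div_lt_one hq0]; exact hq) (by positivity) (by ring) zero_le_one
    (fun z => by
      have v0 := norm_nonneg (v z)
      have e1 : (‖u z‖ ^ q) ^ (1 / q) = ‖u z‖ := by
        rw [← Real.rpow_mul (norm_nonneg _), mul_one_div_cancel hq0.ne', Real.rpow_one]
      have e2 : ‖v z‖ ^ (1 - 2 / q) * (‖v z‖ ^ 2) ^ (1 / q) = ‖v z‖ := by
        rw [← Real.rpow_natCast, ← Real.rpow_mul v0, ← Real.rpow_add' v0]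
        · have : 1 - 2 / q + ((2 : ℕ) : ℝ) * (1 / q) = 1 := by push_cast; ring
          rw [this, Real.rpow_one]
        · have : 1 - 2 / q + ((2 : ℕ) : ℝ) * (1 / q) = 1 := by push_cast; ring
          rw [this]; exact one_ne_zero
      rw [one_mul, mul_assoc, e1, e2, norm_mul, Complex.norm_conj])
    hA hm le_rfl
  rw [one_mul, ← Real.rpow_mul hA0, mul_one_div_cancel hq0.ne', Real.rpow_one] at h
  exact h

/-- the average of the squared norms of the rescaled components -/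
theorem int_a (H : HW μ r) (hA : AVG μ H) {ι : Type} {S : Finset ι} {w : ι → Fin r → ℤ}
    {χ : ι → ℝ} {D0 B c0 : ℝ} {f : ι → C(G, ℂ)} (hc : 0 < c0) (hD : 0 < D0)
    (hw : ∀ j ∈ S, w j ∈ H.Λ) (hχ : ∀ j ∈ S, c0 ≤ χ j) (hd : ∀ j ∈ S, H.d (w j) ≤ B * D0)
    (hf : ∀ j ∈ S, f j ∈ span2 (H.φ (w j))) :
    ∫ k, ∑ j ∈ S, n2 μ (hh μ H w χ D0 f k j) ∂μ
      ≤ B ^ 3 * D0 / c0 ^ 2 * ∑ j ∈ S, n2 μ (f j) := by
  rw [integral_finsetSum _ fun j _ =>
    integrable_of_continuous μ (cont_n2 μ (cont_hh μ H w χ D0 f j)), Finset.mul_sum]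
  refine Finset.sum_le_sum fun j hj => ?_
  simp only [hh, n2_smul]
  rw [integral_const_mul, ← hA.norm _ (hw j hj) _ (hf j hj), ← mul_assoc]
  refine mul_le_mul_of_nonneg_right ?_ (integral_nonneg fun _ => n2_nonneg μ _)
  have d0 := H.d_pos _ (hw j hj)
  have χ0 : 0 < χ j := hc.trans_le (hχ j hj)
  set d := H.d (w j)
  have h1 : d ^ 3 ≤ (B * D0) ^ 3 := pow_le_pow_left₀ d0.le (hd j hj) 3
  have h2 : c0 ^ 2 ≤ χ j ^ 2 := pow_le_pow_left₀ hc.le (hχ j hj) 2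
  have h3 : (d ^ 2 / (D0 * χ j)) ^ 2 = d ^ 3 / (D0 ^ 2 * χ j ^ 2) * d := by field_simp
  have h4 : B ^ 3 * D0 / c0 ^ 2 = (B * D0) ^ 3 / (D0 ^ 2 * c0 ^ 2) := by field_simp
  rw [h3, h4]
  refine mul_le_mul_of_nonneg_right ?_ d0.le
  exact div_le_div₀ ((by positivity : (0 : ℝ) ≤ d ^ 3).trans h1) h1 (by positivity)
    (mul_le_mul_of_nonneg_left h2 (by positivity))

theorem b_eq (H : HW μ r) {ι : Type} (S' : Finset ι) (w : ι → Fin r → ℤ) (χ : ι → ℝ) (D0 : ℝ)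
    (F : C(ℝ × G, ℂ)) (T : ℝ) (k : G) :
    ∫ z, ‖GG μ H S' w χ D0 F k z.1 z.2‖ ^ 2 ∂(stm μ T)
      = ∫ t in Set.Icc (-T) T, n2 μ (GG μ H S' w χ D0 F k t) :=
  stm_prod μ T ((cont_GG' μ H S' w χ D0 F k).norm.pow 2)

/-- the average of the squared norms of the multiplier -/
theorem int_b (H : HW μ r) (hP : PROJ μ H) (hA : AVG μ H) {ι : Type} {S' : Finset ι}
    {w : ι → Fin r → ℤ} {χ : ι → ℝ} {D0 : ℝ} (F : C(ℝ × G, ℂ)) (T : ℝ) (hD : 0 < D0)
    (hw : ∀ j ∈ S', w j ∈ H.Λ) (hi : Set.InjOn w S') (hχ : ∀ j ∈ S', 0 ≤ χ j ∧ χ j ≤ 1)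
    (hd : ∀ j ∈ S', D0 ≤ H.d (w j)) (hF : ∀ z, ‖F z‖ ≤ 1) :
    ∫ k, (∫ t in Set.Icc (-T) T, n2 μ (GG μ H S' w χ D0 F k t)) ∂μ
      ≤ (∫ z, ‖F z‖ ∂(stm μ T)) / D0 := by
  have hc := cont_n2 μ (cont_GG μ H S' w χ D0 F)
  have hFc : Continuous fun z => ‖F z‖ := F.continuous.norm
  rw [← stm_prod_symm μ T hc, stm_prod μ T hc, stm_prod μ T hFc, ← integral_div]
  refine integral_mono (integrable_stm μ T hc).integral_prod_left
    ((integrable_stm μ T hFc).integral_prod_left.div_const D0) fun t => ?_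
  simp only
  have h1 : ∀ k, n2 μ (GG μ H S' w χ D0 F k t)
      = ∑ j ∈ S', (D0 * χ j / H.d (w j)) ^ 2 * n2 μ (H.hk μ (w j) k (F.curry t)) := by
    intro k
    unfold GG HW.hk
    rw [hP.pyth ι S' w _ _ hw hi]
    simp only [Complex.norm_real, Real.norm_eq_abs, sq_abs]
  simp only [h1]
  have hI : ∀ j ∈ S', Integrable (fun k => (D0 * χ j / H.d (w j)) ^ 2 *
      n2 μ (H.hk μ (w j) k (F.curry t))) μ := fun j _ =>
    integrable_of_continuous μ (continuous_const.mul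
      (cont_n2 μ (cont_hk μ H (w j) continuous_const continuous_id')))
  rw [integral_finsetSum _ hI]
  have h2 := hA.bessel ι S' w (F.curry t) hw hi
  have h3 : n2 μ (F.curry t) ≤ ∫ y, ‖F (t, y)‖ ∂μ := by
    unfold n2
    refine integral_mono (integrable_of_continuous μ (by fun_prop))
      (integrable_of_continuous μ (by fun_prop)) fun y => ?_
    simp only [ContinuousMap.curry_apply]
    have := hF (t, y)
    have := norm_nonneg (F (t, y))
    nlinarith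
  rw [le_div_iff₀ hD]
  refine le_trans ?_ (h2.trans h3)
  rw [Finset.sum_mul]
  refine Finset.sum_le_sum fun j hj => ?_
  rw [integral_const_mul, mul_right_comm]
  refine mul_le_mul_of_nonneg_right ?_ (integral_nonneg fun _ => n2_nonneg μ _)
  have d0 := H.d_pos _ (hw j hj)
  have h4 : D0 * χ j / H.d (w j) ≤ 1 := by
    rw [div_le_one d0]
    exact (mul_le_of_le_one_right hD.le (hχ j hj).2).trans (hd j hj)
  have h5 : 0 ≤ D0 * χ j / H.d (w j) := div_nonneg (mul_nonneg hD.le (hχ j hj).1) d0.le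
  have h6 : (D0 * χ j / H.d (w j)) ^ 2 ≤ 1 := pow_le_one₀ h5 h4
  exact (mul_le_of_le_one_left hD.le h6).trans (hd j hj)

theorem final_const {q Θ B c0 D0 N m : ℝ} (hq : 2 < q) (hΘ : 0 ≤ Θ) (hB : 1 ≤ B) (hc : 0 < c0)
    (hD : 0 < D0) (hN : 0 ≤ N) (hm : 0 ≤ m) :
    Θ * (B * D0) ^ (1 / 2 - 1 / q) * m ^ (1 - 2 / q) *
        ((B ^ 3 * D0 / c0 ^ 2 * N) ^ (1 / 2 : ℝ) * (m / D0) ^ (1 / q) * (1 : ℝ) ^ (1 / 2 - 1 / q))
      ≤ B ^ 3 / c0 * Θ * D0 ^ (1 - 2 / q) * Real.sqrt N * m ^ (1 - 1 / q) := by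
  have hq0 : 0 < q := by linarith
  have hB0 : 0 < B := by linarith
  have hq1 : 1 / q < 1 / 2 := one_div_lt_one_div_of_lt two_pos hq
  have hq2 : 0 < 1 / q := by positivity
  have e1 : (B ^ 3 * D0 / c0 ^ 2 * N) ^ (1 / 2 : ℝ)
      = B ^ (3 / 2 : ℝ) * D0 ^ (1 / 2 : ℝ) / c0 * Real.sqrt N := by
    rw [Real.mul_rpow (by positivity) hN, Real.div_rpow (by positivity) (by positivity),
      Real.mul_rpow (by positivity) hD.le, Real.sqrt_eq_rpow, ← Real.rpow_natCast,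
      ← Real.rpow_natCast, ← Real.rpow_mul hB0.le, ← Real.rpow_mul hc.le]
    norm_num
  have e2 : m ^ (1 - 1 / q) = m ^ (1 - 2 / q) * m ^ (1 / q) := by
    rw [← Real.rpow_add' hm (by have : 1 - 2 / q + 1 / q = 1 - 1 / q := by ring
                                rw [this]; linarith)]
    congr 1; ring
  have e3 : D0 ^ (1 - 2 / q) = D0 ^ (1 / 2 - 1 / q) * D0 ^ (1 / 2 : ℝ) / D0 ^ (1 / q) := by
    rw [← Real.rpow_add hD, ← Real.rpow_sub hD]
    congr 1; ring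
  have e4 : B ^ (1 / 2 - 1 / q) * B ^ (3 / 2 : ℝ) ≤ B ^ 3 := by
    rw [← Real.rpow_add hB0, ← Real.rpow_natCast]
    exact Real.rpow_le_rpow_of_exponent_le hB (by push_cast; linarith)
  rw [e1, e2, e3, Real.one_rpow, Real.mul_rpow hB0.le hD.le, Real.div_rpow hm hD.le]
  have e5 : Θ * (B ^ (1 / 2 - 1 / q) * D0 ^ (1 / 2 - 1 / q)) * m ^ (1 - 2 / q) *
      (B ^ (3 / 2 : ℝ) * D0 ^ (1 / 2 : ℝ) / c0 * Real.sqrt N * (m ^ (1 / q) / D0 ^ (1 / q)) * 1)
      = (B ^ (1 / 2 - 1 / q) * B ^ (3 / 2 : ℝ)) * (1 / c0 * Θ *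
        (D0 ^ (1 / 2 - 1 / q) * D0 ^ (1 / 2 : ℝ) / D0 ^ (1 / q)) * Real.sqrt N *
          (m ^ (1 - 2 / q) * m ^ (1 / q))) := by ring
  rw [e5]
  refine (mul_le_mul_of_nonneg_right e4 (by positivity)).trans (le_of_eq ?_)
  ring

end TBlock

open TBlock in
theorem block (H : HW μ r) : PROJ μ H → AVG μ H → BLOCK μ H := by
  intro hP hA θ ℓ q T Θ B c0 D0 ι S S' w χ f F hq _ hΘ hB hc hD hS hw hi hχ hχc hd hk hW hf hFc hF
  have hq0 : 0 < q := by linarith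
  have hB0 : 0 < B := by linarith
  have hq1 : 1 / q < 1 / 2 := one_div_lt_one_div_of_lt two_pos hq
  let F' : C(ℝ × G, ℂ) := ⟨F, hFc⟩
  have hdual := dual μ H hP hA F' (fun j => En θ ℓ (w j)) T hD hS hw hi
    (fun j hj => hc.trans_le (hχc j hj)) hf
  have hm0 : 0 ≤ ∫ z, ‖F z‖ ∂(stm μ T) := integral_nonneg fun _ => norm_nonneg _
  have hN0 : 0 ≤ ∑ j ∈ S, n2 μ (f j) := Finset.sum_nonneg fun j _ => n2_nonneg μ _
  refine le_trans ?_ (final_const hq hΘ hB hc hD hN0 hm0)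
  change ‖∫ z, ev S (fun j => En θ ℓ (w j)) f z * conj (F' z) ∂(stm μ T)‖ ≤ _
  rw [hdual]
  refine (norm_integral_le_integral_norm _).trans ?_
  refine holder3 μ (x := fun k => ∑ j ∈ S, n2 μ (hh μ H w χ D0 f k j))
    (y := fun k => ∫ t in Set.Icc (-T) T, n2 μ (GG μ H S' w χ D0 F' k t)) (z := fun _ => 1)
    (integrable_of_continuous μ
      (continuous_finsetSum _ fun j _ => cont_n2 μ (cont_hh μ H w χ D0 f j)))
    (integrable_stm μ T (cont_n2 μ (cont_GG μ H S' w χ D0 F'))).integral_prod_right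
    (integrable_const _) (fun k => Finset.sum_nonneg fun j _ => n2_nonneg μ _)
    (fun k => integral_nonneg fun _ => n2_nonneg μ _) (fun _ => zero_le_one)
    (fun _ => norm_nonneg _) (by positivity) (by positivity) (by linarith) (by ring)
    (by positivity) (fun k => ?_)
    (int_a μ H hA hc hD (fun j hj => hw j (hS hj)) hχc (fun j hj => (hd j (hS hj)).2) hf)
    (int_b μ H hP hA F' T hD hw hi hχ (fun j hj => (hd j hj).1) hF) (by simp)
  have a0 : 0 ≤ ∑ j ∈ S, n2 μ (hh μ H w χ D0 f k j) := Finset.sum_nonneg fun j _ => n2_nonneg μ _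
  have h1 := fixed_k μ hq (continuous_ev S (fun j => En θ ℓ (w j)) (hh μ H w χ D0 f k))
    (cont_GG' μ H S' w χ D0 F' k) (by positivity)
    (lq_hh μ H hP χ D0 f hq hΘ (mul_pos hB0 hD) (fun j hj => hw j (hS hj))
      (fun j hj => (hd j (hS hj)).2) hW k) (l1_GG μ H F' T hD hw hk k)
  rw [b_eq] at h1
  refine h1.trans (le_of_eq ?_)
  simp only [Real.one_rpow]
  change _ = Θ * (B * D0) ^ (1 / 2 - 1 / q) * (∫ z, ‖F' z‖ ∂(stm μ T)) ^ (1 - 2 / q) * _
  ring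

end Pool.Agent.P.MP_7211b7_an
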