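import Pool.Agent.P.MP_7211b7_an.DefsT

/-!
# MP_7211b7_an, part T: auxiliary lemmas for the block estimate
-/

open MeasureTheory ComplexConjugate
open scoped ENNReal

set_option linter.unusedSectionVars false

namespace Pool.Agent.P.MP_7211b7_an

namespace TBlock

/-- three factor Hoelder inequality -/
theorem holder3 {X : Type} [MeasurableSpace X] (ν : Measure X) {u x y z : X → ℝ}
    {α β γ K A B C : ℝ} (hx : Integrable x ν) (hy : Integrable y ν) (hz : Integrable z ν)
    (x0 : ∀ s, 0 ≤ x s) (y0 : ∀ s, 0 ≤ y s) (z0 : ∀ s, 0 ≤ z s) (u0 : ∀ s, 0 ≤ u s)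
    (hα : 0 < α) (hβ : 0 < β) (hγ : 0 < γ) (hs : α + β + γ = 1) (hK : 0 ≤ K)
    (hu : ∀ s, u s ≤ K * (x s ^ α * y s ^ β * z s ^ γ))
    (hA : ∫ s, x s ∂ν ≤ A) (hB : ∫ s, y s ∂ν ≤ B) (hC : ∫ s, z s ∂ν ≤ C) :
    ∫ s, u s ∂ν ≤ K * (A ^ α * B ^ β * C ^ γ) := by
  have A0 : 0 ≤ A := (integral_nonneg x0).trans hA
  have B0 : 0 ≤ B := (integral_nonneg y0).trans hB
  have C0 : 0 ≤ C := (integral_nonneg z0).trans hC
  have R0 : 0 ≤ K * (A ^ α * B ^ β * C ^ γ) := by positivity
  have key : (∀ᵐ s ∂ν, x s ^ α * y s ^ β * z s ^ γ = 0) →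
      ∫ s, u s ∂ν ≤ K * (A ^ α * B ^ β * C ^ γ) := by
    intro h
    have h1 : ∫ s, u s ∂ν = 0 := by
      refine integral_eq_zero_of_ae ?_
      filter_upwards [h] with s hs'
      have := hu s
      rw [hs', mul_zero] at this
      exact le_antisymm this (u0 s)
    rw [h1]; exact R0
  rcases A0.eq_or_lt with hA0 | hA0
  · refine key ?_
    have h1 : ∫ s, x s ∂ν = 0 := le_antisymm (hA0 ▸ hA) (integral_nonneg x0)
    filter_upwards [(integral_eq_zero_iff_of_nonneg x0 hx).1 h1] with s hs'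
    have : x s = 0 := hs'
    rw [this, Real.zero_rpow hα.ne']; ring
  rcases B0.eq_or_lt with hB0 | hB0
  · refine key ?_
    have h1 : ∫ s, y s ∂ν = 0 := le_antisymm (hB0 ▸ hB) (integral_nonneg y0)
    filter_upwards [(integral_eq_zero_iff_of_nonneg y0 hy).1 h1] with s hs'
    have : y s = 0 := hs'
    rw [this, Real.zero_rpow hβ.ne']; ring
  rcases C0.eq_or_lt with hC0 | hC0
  · refine key ?_
    have h1 : ∫ s, z s ∂ν = 0 := le_antisymm (hC0 ▸ hC) (integral_nonneg z0)
    filter_upwards [(integral_eq_zero_iff_of_nonneg z0 hz).1 h1] with s hs'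
    have : z s = 0 := hs'
    rw [this, Real.zero_rpow hγ.ne']; ring
  set R := K * (A ^ α * B ^ β * C ^ γ) with hR
  have hint : Integrable (fun s => R * (α * (x s / A) + β * (y s / B) + γ * (z s / C))) ν :=
    ((((hx.div_const A).const_mul α).add ((hy.div_const B).const_mul β)).add
      ((hz.div_const C).const_mul γ)).const_mul R
  have h1 : ∫ s, u s ∂ν ≤ ∫ s, R * (α * (x s / A) + β * (y s / B) + γ * (z s / C)) ∂ν := by
    refine integral_mono_of_nonneg (Filter.Eventually.of_forall u0) hint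
      (Filter.Eventually.of_forall fun s => (hu s).trans ?_)
    have h2 := Real.geom_mean_le_arith_mean3_weighted hα.le hβ.le hγ.le
      (div_nonneg (x0 s) A0) (div_nonneg (y0 s) B0) (div_nonneg (z0 s) C0) hs
    have h3 : K * (x s ^ α * y s ^ β * z s ^ γ)
        = R * ((x s / A) ^ α * (y s / B) ^ β * (z s / C) ^ γ) := by
      rw [Real.div_rpow (x0 s) A0, Real.div_rpow (y0 s) B0, Real.div_rpow (z0 s) C0, hR]
      have := (Real.rpow_pos_of_pos hA0 α).ne'
      have := (Real.rpow_pos_of_pos hB0 β).ne'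
      have := (Real.rpow_pos_of_pos hC0 γ).ne'
      field_simp
    rw [h3]
    exact mul_le_mul_of_nonneg_left h2 R0
  refine h1.trans ?_
  have hxy : Integrable (fun s => α * (x s / A) + β * (y s / B)) ν :=
    ((hx.div_const A).const_mul α).add ((hy.div_const B).const_mul β)
  rw [integral_const_mul, integral_add hxy ((hz.div_const C).const_mul γ),
    integral_add ((hx.div_const A).const_mul α) ((hy.div_const B).const_mul β),
    integral_const_mul, integral_const_mul, integral_const_mul, integral_div, integral_div,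
    integral_div]
  have e1 : (∫ s, x s ∂ν) / A ≤ 1 := (div_le_one hA0).2 hA
  have e2 : (∫ s, y s ∂ν) / B ≤ 1 := (div_le_one hB0).2 hB
  have e3 : (∫ s, z s ∂ν) / C ≤ 1 := (div_le_one hC0).2 hC
  have e4 : α * ((∫ s, x s ∂ν) / A) + β * ((∫ s, y s ∂ν) / B) + γ * ((∫ s, z s ∂ν) / C) ≤ 1 := by
    nlinarith [mul_le_mul_of_nonneg_left e1 hα.le, mul_le_mul_of_nonneg_left e2 hβ.le,
      mul_le_mul_of_nonneg_left e3 hγ.le]
  exact mul_le_of_le_one_right R0 e4

variable {G : Type} [Group G] [TopologicalSpace G] [IsTopologicalGroup G] [CompactSpace G]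
  [T2Space G] [SecondCountableTopology G] [MeasurableSpace G] [BorelSpace G]
  (μ : Measure G) [Hr μ] {r : ℕ}

section cont

variable {X : Type} [TopologicalSpace X]

theorem cont_app {U : X → C(G, ℂ)} {κ : X → G} (hU : Continuous U) (hκ : Continuous κ) :
    Continuous fun x => U x (κ x) := by fun_prop

theorem cont_cv [FirstCountableTopology X] [LocallyCompactSpace X] (a : C(G, ℂ))
    {U : X → C(G, ℂ)} (hU : Continuous U) : Continuous fun x => cv μ a (U x) := by
  refine ContinuousMap.continuous_of_continuous_uncurry _ ?_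
  have := continuous_integral_param μ (X := X × G)
    (f := fun p z => U p.1 (p.2 * z) * conj (a z)) (by
      refine Continuous.mul (cont_app (U := fun q : (X × G) × G => U q.1.1)
        (κ := fun q : (X × G) × G => q.1.2 * q.2) (by fun_prop) (by fun_prop)) (by fun_prop))
  exact this

theorem cont_tr {U : X → C(G, ℂ)} {κ : X → G} (hU : Continuous U) (hκ : Continuous κ) :
    Continuous fun x => tr2 1 (κ x)⁻¹ (U x) := by
  refine ContinuousMap.continuous_of_continuous_uncurry _ ?_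
  exact cont_app (U := fun q : X × G => U q.1) (κ := fun q : X × G => 1 * q.2 * (κ q.1)⁻¹)
    (by fun_prop) (by fun_prop)

theorem cont_ip {U V : X → C(G, ℂ)} (hU : Continuous U) (hV : Continuous V) :
    Continuous fun x => ip μ (U x) (V x) := by
  simp only [ip_eq_inner]
  exact ((ContinuousMap.toLp 2 μ ℂ).continuous.comp hV).inner
    ((ContinuousMap.toLp 2 μ ℂ).continuous.comp hU)

theorem cont_n2 {U : X → C(G, ℂ)} (hU : Continuous U) : Continuous fun x => n2 μ (U x) := by
  simp only [n2_eq_norm_sq]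
  exact (((ContinuousMap.toLp 2 μ ℂ).continuous.comp hU).norm).pow 2

theorem cont_hk [FirstCountableTopology X] [LocallyCompactSpace X] (H : HW μ r) (l : Fin r → ℤ)
    {U : X → C(G, ℂ)} {κ : X → G} (hU : Continuous U) (hκ : Continuous κ) :
    Continuous fun x => H.hk μ l (κ x) (U x) :=
  cont_cv μ _ (cont_tr hU hκ)

end cont

theorem ip_sum_right {ι : Type} (S : Finset ι) (c : ι → ℝ) (u : C(G, ℂ)) (v : ι → C(G, ℂ)) :
    ip μ u (∑ j ∈ S, (c j : ℂ) • v j) = ∑ j ∈ S, (c j : ℂ) * ip μ u (v j) := by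
  simp only [ip_eq_inner, map_sum, map_smul, sum_inner, inner_smul_left, Complex.conj_ofReal]

theorem ip_sum_left {ι : Type} (S : Finset ι) (c : ι → ℂ) (u : ι → C(G, ℂ)) (v : C(G, ℂ)) :
    ip μ (∑ j ∈ S, c j • u j) v = ∑ j ∈ S, c j * ip μ (u j) v := by
  simp only [ip_eq_inner, map_sum, map_smul, inner_sum, inner_smul_right]

theorem ip_smul_left (c : ℂ) (u v : C(G, ℂ)) : ip μ (c • u) v = c * ip μ u v := by
  simp only [ip_eq_inner, map_smul, inner_smul_right]

theorem ip_zero_left (v : C(G, ℂ)) : ip μ 0 v = 0 := by simp [ip]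

theorem n2_nonneg (u : C(G, ℂ)) : 0 ≤ n2 μ u := integral_nonneg fun _ => by positivity

theorem n2_smul (c : ℝ) (u : C(G, ℂ)) : n2 μ ((c : ℂ) • u) = c ^ 2 * n2 μ u := by
  unfold n2
  rw [← integral_const_mul]
  refine integral_congr_ae (Filter.Eventually.of_forall fun g => ?_)
  simp [mul_pow]

/-- the L1 norm of a convolution -/
theorem l1_cv (a F : C(G, ℂ)) :
    ∫ y, ‖cv μ a F y‖ ∂μ ≤ (∫ z, ‖a z‖ ∂μ) * ∫ y, ‖F y‖ ∂μ := by
  have hc : Continuous (Function.uncurry fun y z : G => ‖F (y * z)‖ * ‖a z‖) := by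
    unfold Function.uncurry; fun_prop
  have h1 : ∫ y, ‖cv μ a F y‖ ∂μ ≤ ∫ y, ∫ z, ‖F (y * z)‖ * ‖a z‖ ∂μ ∂μ := by
    refine integral_mono (integrable_of_continuous μ (by fun_prop))
      (integrable_of_continuous μ (continuous_integral_param μ hc)) fun y => ?_
    refine (norm_integral_le_integral_norm _).trans (le_of_eq ?_)
    simp
  refine h1.trans (le_of_eq ?_)
  rw [integral_integral_swap
    (hc.integrable_of_hasCompactSupport (HasCompactSupport.of_compactSpace _)),
    ← integral_mul_const]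
  refine integral_congr_ae (Filter.Eventually.of_forall fun z => ?_)
  simp only
  rw [integral_mul_const, integral_mul_right_eq_self (fun y => ‖F y‖) z, mul_comm]

theorem l1_tr (k : G) (F : C(G, ℂ)) : ∫ y, ‖tr2 1 k F y‖ ∂μ = ∫ y, ‖F y‖ ∂μ := by
  simp only [tr2_apply, one_mul]
  exact integral_mul_right_eq_self (fun y => ‖F y‖) k

/-- the multiplier operator as a convolution -/
theorem mult_eq_cv (H : HW μ r) {ι : Type} (S : Finset ι) (w : ι → Fin r → ℤ) (χ : ι → ℝ)
    (D0 : ℝ) (hw : ∀ j ∈ S, w j ∈ H.Λ) (F : C(G, ℂ)) :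
    ∑ j ∈ S, ((D0 * χ j / H.d (w j) : ℝ) : ℂ) • cv μ ((H.d (w j) : ℂ) • H.φ (w j)) F
      = cv μ ((D0 : ℂ) • ∑ j ∈ S, (χ j : ℂ) • H.φ (w j)) F := by
  ext y
  simp only [ContinuousMap.sum_apply, ContinuousMap.smul_apply, cv_apply, smul_eq_mul]
  simp only [← integral_const_mul]
  rw [← integral_finsetSum _ fun j _ => integrable_of_continuous μ (by fun_prop)]
  refine integral_congr_ae (Filter.Eventually.of_forall fun z => ?_)
  simp only [map_mul, map_sum, Complex.conj_ofReal, Finset.mul_sum]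
  refine Finset.sum_congr rfl fun j hj => ?_
  have : (H.d (w j) : ℂ) ≠ 0 := by exact_mod_cast (H.d_pos _ (hw j hj)).ne'
  push_cast
  field_simp

/-- duality for one isotypic component -/
theorem ip_recon (H : HW μ r) (hA : AVG μ H) {l : Fin r → ℤ} (hl : l ∈ H.Λ) {f : C(G, ℂ)}
    (hf : f ∈ span2 (H.φ l)) (F : C(G, ℂ)) :
    ip μ f F = (H.d l : ℂ) * ∫ k, ip μ (H.hk μ l k f) (tr2 1 k⁻¹ F) ∂μ := by
  have hc : Continuous (Function.uncurry fun g k : G => H.hk μ l k f (g * k) * conj (F g)) := by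
    refine Continuous.mul (cont_app (U := fun q : G × G => H.hk μ l q.2 f)
      (κ := fun q : G × G => q.1 * q.2) (cont_hk μ H l continuous_const continuous_snd)
      (by fun_prop)) (by fun_prop)
  have h1 : ip μ f F = (H.d l : ℂ) * ∫ g, ∫ k, H.hk μ l k f (g * k) * conj (F g) ∂μ ∂μ := by
    unfold ip
    rw [← integral_const_mul]
    refine integral_congr_ae (Filter.Eventually.of_forall fun g => ?_)
    simp only
    rw [integral_mul_const, ← mul_assoc, ← hA.recon l hl f hf g]
  rw [h1, integral_integral_swap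
    (hc.integrable_of_hasCompactSupport (HasCompactSupport.of_compactSpace _))]
  congr 1
  refine integral_congr_ae (Filter.Eventually.of_forall fun k => ?_)
  simp only
  unfold ip
  rw [← integral_mul_right_eq_self (fun y => H.hk μ l k f y * conj (tr2 1 k⁻¹ F y)) k]
  simp

/-- the multiplier acts by a scalar on the range of one projection -/
theorem ip_mult (H : HW μ r) (hP : PROJ μ H) {ι : Type} (S : Finset ι) (w : ι → Fin r → ℤ)
    (c : ι → ℝ) (hw : ∀ j ∈ S, w j ∈ H.Λ) (hi : Set.InjOn w S) {j : ι} (hj : j ∈ S)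
    (u F : C(G, ℂ)) :
    ip μ (cv μ ((H.d (w j) : ℂ) • H.φ (w j)) u)
        (∑ i ∈ S, (c i : ℂ) • cv μ ((H.d (w i) : ℂ) • H.φ (w i)) F)
      = c j * ip μ (cv μ ((H.d (w j) : ℂ) • H.φ (w j)) u) F := by
  rw [ip_sum_right, Finset.sum_eq_single j]
  · rw [← hP.adj _ (hw j hj), hP.idem _ (hw j hj)]
  · intro i hi' hij
    rw [← hP.adj _ (hw i hi'), hP.orth _ (hw j hj) _ (hw i hi')
      (fun h => hij (hi hi' hj h.symm)), ip_zero_left, mul_zero]
  · intro h; exact absurd hj h

end TBlock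

end Pool.Agent.P.MP_7211b7_an
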