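import Pool.Agent.P.MP_7211b7_an.DefsB

/-! Abstract form of the Stein-Tomas argument. -/

open MeasureTheory Finset
open scoped ComplexConjugate

namespace Pool.Agent.P.MP_7211b7_an

namespace TT

theorem intb {α E : Type} [MeasurableSpace α] [NormedAddCommGroup E] [MeasurableSpace E]
    [BorelSpace E] [SecondCountableTopology E] (μ : Measure α) [IsFiniteMeasure μ] {f : α → E}
    (hf : Measurable f) (C : ℝ) (hC : ∀ x, ‖f x‖ ≤ C) : Integrable f μ :=
  Integrable.of_bound hf.aestronglyMeasurable C (Filter.Eventually.of_forall hC)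

theorem int_conj {α : Type} [MeasurableSpace α] {μ : Measure α} {f : α → ℂ}
    (hf : Integrable f μ) : Integrable (fun x => conj (f x)) μ :=
  Complex.conjCLE.toContinuousLinearMap.integrable_comp hf

theorem meas_conj {α : Type} [MeasurableSpace α] {f : α → ℂ} (hf : Measurable f) :
    Measurable fun x => conj (f x) :=
  Complex.continuous_conj.measurable.comp hf

/-- A sum of products of two integrals is bounded by a double integral. -/
theorem dbl {α ι : Type} [MeasurableSpace α] (μ : Measure α) (J : Finset ι) (ψ : ι → ℂ)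
    (u v : ι → α → ℂ) (hu : ∀ n, Integrable (u n) μ) (hv : ∀ n, Integrable (v n) μ)
    (B : α → α → ℝ) (hB : ∀ t s, ‖∑ n ∈ J, ψ n * u n s * conj (v n t)‖ ≤ B t s)
    (h1 : ∀ t, Integrable (B t) μ) (h2 : Integrable (fun t => ∫ s, B t s ∂μ) μ) :
    ‖∑ n ∈ J, ψ n * (∫ s, u n s ∂μ) * conj (∫ t, v n t ∂μ)‖ ≤ ∫ t, ∫ s, B t s ∂μ ∂μ := by
  have e1 : ∑ n ∈ J, ψ n * (∫ s, u n s ∂μ) * conj (∫ t, v n t ∂μ) =
      ∫ t, ∑ n ∈ J, ψ n * (∫ s, u n s ∂μ) * conj (v n t) ∂μ := by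
    rw [integral_finsetSum _ fun n _ => (int_conj (hv n)).const_mul _]
    refine sum_congr rfl fun n _ => ?_
    rw [integral_const_mul, integral_conj]
  rw [e1]
  refine norm_integral_le_of_norm_le h2 (Filter.Eventually.of_forall fun t => ?_)
  have e2 : ∑ n ∈ J, ψ n * (∫ s, u n s ∂μ) * conj (v n t) =
      ∫ s, ∑ n ∈ J, ψ n * u n s * conj (v n t) ∂μ := by
    rw [integral_finsetSum _ fun n _ => ((hu n).const_mul _).mul_const _]
    refine sum_congr rfl fun n _ => ?_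
    rw [integral_mul_const, integral_const_mul]
  rw [e2]
  exact norm_integral_le_of_norm_le (h1 t) (Filter.Eventually.of_forall fun s => hB t s)

/-- Finite Bessel inequality. -/
theorem bessel {α ι : Type} [MeasurableSpace α] [DecidableEq ι] (ν : Measure α)
    [IsFiniteMeasure ν] (J : Finset ι) (e : ι → α → ℂ) (he : ∀ n, Measurable (e n))
    (he1 : ∀ n x, ‖e n x‖ ≤ 1) (V : ℝ) (hV : 0 < V)
    (ho : ∀ n m, ∫ x, e n x * conj (e m x) ∂ν = if n = m then (V : ℂ) else 0)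
    (g : α → ℂ) (hg : Measurable g) (hg1 : ∀ x, ‖g x‖ ≤ 1) :
    ∑ n ∈ J, ‖∫ x, g x * conj (e n x) ∂ν‖ ^ 2 ≤ V * ∫ x, ‖g x‖ ^ 2 ∂ν := by
  set c : ι → ℂ := fun n => ∫ x, g x * conj (e n x) ∂ν with hc
  set A : ℝ := ∑ n ∈ J, ‖c n‖ ^ 2 with hA
  set P : α → ℂ := fun x => ∑ n ∈ J, c n * e n x with hP
  have i1 : ∀ n, Integrable (fun x => g x * conj (e n x)) ν := fun n =>
    intb ν (hg.mul (meas_conj (he n))) 1 fun x => by
      rw [norm_mul, Complex.norm_conj]
      exact mul_le_one₀ (hg1 x) (norm_nonneg _) (he1 n x)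
  have i2 : ∀ n m, Integrable (fun x => e n x * conj (e m x)) ν := fun n m =>
    intb ν ((he n).mul (meas_conj (he m))) 1 fun x => by
      rw [norm_mul, Complex.norm_conj]
      exact mul_le_one₀ (he1 n x) (norm_nonneg _) (he1 m x)
  have f1 : ∀ x, g x * conj (P x) = ∑ n ∈ J, conj (c n) * (g x * conj (e n x)) := fun x => by
    simp only [hP, map_sum, map_mul, mul_sum]
    exact sum_congr rfl fun n _ => by ring
  have f2 : ∀ x, ((‖P x‖ ^ 2 : ℝ) : ℂ) =
      ∑ n ∈ J, ∑ m ∈ J, c n * conj (c m) * (e n x * conj (e m x)) := fun x => by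
    rw [Complex.ofReal_pow, ← Complex.mul_conj']
    simp only [hP, map_sum, map_mul, sum_mul_sum]
    exact sum_congr rfl fun n _ => sum_congr rfl fun m _ => by ring
  have g1 : ∫ x, g x * conj (P x) ∂ν = (A : ℂ) := by
    simp only [f1]
    rw [integral_finsetSum _ fun n _ => (i1 n).const_mul _, hA]
    push_cast
    refine sum_congr rfl fun n _ => ?_
    rw [integral_const_mul, ← Complex.conj_mul']
  have g2 : ∫ x, ‖P x‖ ^ 2 ∂ν = V * A := by
    apply Complex.ofReal_injective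
    rw [← integral_complex_ofReal]
    simp only [f2]
    rw [integral_finsetSum _ fun n _ => integrable_finsetSum _ fun m _ => (i2 n m).const_mul _, hA]
    push_cast
    rw [mul_sum]
    refine sum_congr rfl fun n hn => ?_
    rw [integral_finsetSum _ fun m _ => (i2 n m).const_mul _]
    simp only [integral_const_mul, ho, mul_ite, mul_zero, sum_ite_eq, hn, if_true]
    rw [Complex.mul_conj']; ring
  have mP : Measurable P := Finset.measurable_sum _ fun n _ => (he n).const_mul _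
  have bP : ∀ x, ‖P x‖ ≤ ∑ n ∈ J, ‖c n‖ := fun x =>
    (norm_sum_le _ _).trans (sum_le_sum fun n _ => by
      rw [norm_mul]; exact mul_le_of_le_one_right (norm_nonneg _) (he1 n x))
  have j1 : Integrable (fun x => ‖g x‖ ^ 2) ν :=
    intb ν (hg.norm.pow_const 2) 1 fun x => by
      rw [norm_pow, norm_norm]; exact pow_le_one₀ (norm_nonneg _) (hg1 x)
  have j2 : Integrable (fun x => ‖P x‖ ^ 2) ν :=
    intb ν (mP.norm.pow_const 2) ((∑ n ∈ J, ‖c n‖) ^ 2) fun x => by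
      rw [norm_pow, norm_norm]; exact pow_le_pow_left₀ (norm_nonneg _) (bP x) 2
  have g3 : ‖∫ x, g x * conj (P x) ∂ν‖ ≤
      ∫ x, (V / 2 * ‖g x‖ ^ 2 + (2 * V)⁻¹ * ‖P x‖ ^ 2) ∂ν := by
    refine norm_integral_le_of_norm_le ((j1.const_mul _).add (j2.const_mul _))
      (Filter.Eventually.of_forall fun x => ?_)
    rw [norm_mul, Complex.norm_conj]
    have : V / 2 * ‖g x‖ ^ 2 + (2 * V)⁻¹ * ‖P x‖ ^ 2 - ‖g x‖ * ‖P x‖ =
        (2 * V)⁻¹ * (V * ‖g x‖ - ‖P x‖) ^ 2 := by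
      field_simp; ring
    have h2 : 0 ≤ (2 * V)⁻¹ * (V * ‖g x‖ - ‖P x‖) ^ 2 := by positivity
    linarith
  rw [g1, integral_add (j1.const_mul _) (j2.const_mul _), integral_const_mul, integral_const_mul,
    g2, Complex.norm_real, Real.norm_eq_abs] at g3
  have e : (2 * V)⁻¹ * (V * A) = A / 2 := by field_simp
  rw [e] at g3
  have := le_abs_self A
  linarith

/-- Weighted Cauchy-Schwarz inequality. -/
theorem wcs {ι : Type} (J : Finset ι) (ψ : ι → ℝ) (hψ : ∀ n ∈ J, 0 ≤ ψ n) (u v : ι → ℂ) :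
    ‖∑ n ∈ J, (ψ n : ℂ) * u n * conj (v n)‖ ≤
      √(∑ n ∈ J, ψ n * ‖v n‖ ^ 2) * √(∑ n ∈ J, ψ n * ‖u n‖ ^ 2) := by
  have h := Real.sum_mul_le_sqrt_mul_sqrt J (fun n => √(ψ n) * ‖v n‖) (fun n => √(ψ n) * ‖u n‖)
  have e : ∀ w : ι → ℂ, ∑ n ∈ J, (√(ψ n) * ‖w n‖) ^ 2 = ∑ n ∈ J, ψ n * ‖w n‖ ^ 2 := fun w =>
    sum_congr rfl fun n hn => by rw [mul_pow, Real.sq_sqrt (hψ n hn)]
  rw [e, e] at h
  refine (norm_sum_le _ _).trans (le_trans (le_of_eq ?_) h)
  refine sum_congr rfl fun n hn => ?_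
  rw [norm_mul, norm_mul, Complex.norm_conj, Complex.norm_real, Real.norm_of_nonneg (hψ n hn)]
  have := Real.mul_self_sqrt (hψ n hn)
  calc ψ n * ‖u n‖ * ‖v n‖ = (√(ψ n) * √(ψ n)) * ‖u n‖ * ‖v n‖ := by rw [this]
    _ = _ := by ring

/-- The abstract Stein-Tomas argument. -/
theorem core {X ι : Type} [MeasurableSpace X] [DecidableEq ι] (μ : Measure ℝ) (ν : Measure X)
    [IsFiniteMeasure μ] [IsFiniteMeasure ν] (S J : Finset ι) (hSJ : S ⊆ J) (ψ : ι → ℝ) (P : ℝ)
    (hP : 0 ≤ P) (hψ0 : ∀ n ∈ J, 0 ≤ ψ n) (hψP : ∀ n ∈ J, ψ n ≤ P) (hψ1 : ∀ n ∈ S, 1 ≤ ψ n)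
    (E : ι → ℝ × X → ℂ) (hE : ∀ n, Measurable (E n)) (hE1 : ∀ n z, ‖E n z‖ ≤ 1) (V : ℝ)
    (hV : 0 < V)
    (ho : ∀ s n m, ∫ x, E n (s, x) * conj (E m (s, x)) ∂ν = if n = m then (V : ℂ) else 0)
    (G : ℝ × X → ℂ) (hG : Measurable G) (hG1 : ∀ z, ‖G z‖ ≤ 1)
    (a : ι → ℂ) (ha : ∑ n ∈ S, ‖a n‖ ^ 2 ≤ 1) (lam : ℝ) (hlam : 0 ≤ lam)
    (hF : ∀ z, lam * ‖G z‖ ≤ (conj (∑ n ∈ S, a n * E n z) * G z).re)
    (Mj : Set ℝ) (hM : MeasurableSet Mj) (K0 : ℝ) (hK0 : 0 ≤ K0)
    (hK : ∀ t s, t - s ∉ Mj → ∀ x y,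
      ‖∑ n ∈ J, (ψ n : ℂ) * (conj (E n (s, x)) * E n (t, y))‖ ≤ K0) :
    ∃ h : ℝ → ℝ, Measurable h ∧ (∀ s, 0 ≤ h s) ∧ (∃ B : ℝ, ∀ s, h s ≤ B) ∧
      ∫ s, h s ^ 2 ∂μ ≤ P * V * ∫ z, ‖G z‖ ∂(μ.prod ν) ∧
      ∫ s, h s ∂μ ≤ √(P * J.card) * ∫ z, ‖G z‖ ∂(μ.prod ν) ∧
      lam ^ 2 * (∫ z, ‖G z‖ ∂(μ.prod ν)) ^ 2 ≤ K0 * (∫ z, ‖G z‖ ∂(μ.prod ν)) ^ 2 +
        ∫ t, ∫ s, Mj.indicator (fun _ => (1 : ℝ)) (t - s) * (h t * h s) ∂μ ∂μ := by
  set m := ∫ z, ‖G z‖ ∂(μ.prod ν) with hm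
  let w : ι → ℝ × X → ℂ := fun n z => G z * conj (E n z)
  have mw : ∀ n, Measurable (w n) := fun n => hG.mul (meas_conj (hE n))
  have bw : ∀ n z, ‖w n z‖ ≤ ‖G z‖ := fun n z => by
    simp only [w]
    rw [norm_mul, Complex.norm_conj]
    exact mul_le_of_le_one_right (norm_nonneg _) (hE1 n z)
  have iw : ∀ n, Integrable (w n) (μ.prod ν) := fun n =>
    intb _ (mw n) 1 fun z => (bw n z).trans (hG1 z)
  have iws : ∀ n s, Integrable (fun x => w n (s, x)) ν := fun n s =>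
    intb _ ((mw n).comp measurable_prodMk_left) 1 fun x => (bw n _).trans (hG1 _)
  have iG : Integrable (fun z => ‖G z‖) (μ.prod ν) :=
    intb _ hG.norm 1 fun z => by rw [norm_norm]; exact hG1 z
  have iGs : ∀ s, Integrable (fun x => ‖G (s, x)‖) ν := fun s =>
    intb _ (hG.norm.comp measurable_prodMk_left) 1 fun x => by rw [norm_norm]; exact hG1 _
  let ms : ℝ → ℝ := fun s => ∫ x, ‖G (s, x)‖ ∂ν
  have ims : Integrable ms μ := iG.integral_prod_left
  have ms0 : ∀ s, 0 ≤ ms s := fun s => integral_nonneg fun x => norm_nonneg _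
  have msB : ∀ s, ms s ≤ ν.real Set.univ := fun s => by
    have := norm_integral_le_of_norm_le_const (μ := ν) (f := fun x => ‖G (s, x)‖) (C := 1)
      (Filter.Eventually.of_forall fun x => by rw [norm_norm]; exact hG1 _)
    rw [one_mul] at this
    exact (le_abs_self _).trans this
  have hms : ∫ s, ms s ∂μ = m := (integral_prod _ iG).symm
  have m0 : 0 ≤ m := integral_nonneg fun z => norm_nonneg _
  let u : ι → ℝ → ℂ := fun n s => ∫ x, w n (s, x) ∂ν
  have mu : ∀ n, Measurable (u n) := fun n =>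
    ((mw n).stronglyMeasurable.integral_prod_right' (ν := ν)).measurable
  have iu : ∀ n, Integrable (u n) μ := fun n => (iw n).integral_prod_left
  have bu : ∀ n s, ‖u n s‖ ≤ ms s := fun n s =>
    norm_integral_le_of_norm_le (iGs s) (Filter.Eventually.of_forall fun x => bw n _)
  let h : ℝ → ℝ := fun s => √(∑ n ∈ J, ψ n * ‖u n s‖ ^ 2)
  have mh : Measurable h :=
    (Finset.measurable_sum _ fun n _ => ((mu n).norm.pow_const 2).const_mul _).sqrt
  have h0 : ∀ s, 0 ≤ h s := fun s => Real.sqrt_nonneg _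
  have hh : ∀ s, h s ≤ √(P * J.card) * ms s := fun s => by
    have e : √(P * J.card) * ms s = √(P * J.card * ms s ^ 2) := by
      rw [Real.sqrt_mul (by positivity) (ms s ^ 2), Real.sqrt_sq (ms0 s)]
    rw [e]
    refine Real.sqrt_le_sqrt ?_
    calc ∑ n ∈ J, ψ n * ‖u n s‖ ^ 2 ≤ ∑ _n ∈ J, P * ms s ^ 2 :=
          sum_le_sum fun n hn => mul_le_mul (hψP n hn)
            (pow_le_pow_left₀ (norm_nonneg _) (bu n s) 2) (by positivity) hP
      _ = _ := by rw [sum_const, nsmul_eq_mul]; ring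
  set B := √(P * J.card) * ν.real Set.univ with hB
  have hB' : ∀ s, h s ≤ B := fun s =>
    (hh s).trans (mul_le_mul_of_nonneg_left (msB s) (Real.sqrt_nonneg _))
  have ih : Integrable h μ := intb _ mh B fun s => by rw [Real.norm_of_nonneg (h0 s)]; exact hB' s
  have h2 : ∀ s, h s ^ 2 ≤ P * V * ms s := fun s => by
    have b := bessel ν J (fun n x => E n (s, x)) (fun n => (hE n).comp measurable_prodMk_left)
      (fun n x => hE1 n _) V hV (ho s) (fun x => G (s, x)) (hG.comp measurable_prodMk_left)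
      (fun x => hG1 _)
    have b2 : ∫ x, ‖G (s, x)‖ ^ 2 ∂ν ≤ ms s :=
      integral_mono_of_nonneg (Filter.Eventually.of_forall fun x => sq_nonneg _) (iGs s)
        (Filter.Eventually.of_forall fun x => by
          have := hG1 (s, x)
          have := norm_nonneg (G (s, x))
          show ‖G (s, x)‖ ^ 2 ≤ ‖G (s, x)‖
          nlinarith)
    have b3 : h s ^ 2 = ∑ n ∈ J, ψ n * ‖u n s‖ ^ 2 :=
      Real.sq_sqrt (sum_nonneg fun n hn => mul_nonneg (hψ0 n hn) (sq_nonneg _))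
    have b4 : ∑ n ∈ J, ψ n * ‖u n s‖ ^ 2 ≤ P * ∑ n ∈ J, ‖u n s‖ ^ 2 := by
      rw [mul_sum]
      exact sum_le_sum fun n hn => mul_le_mul_of_nonneg_right (hψP n hn) (sq_nonneg _)
    have b5 : ∑ n ∈ J, ‖u n s‖ ^ 2 ≤ V * ms s :=
      b.trans (mul_le_mul_of_nonneg_left b2 hV.le)
    rw [b3, mul_assoc]
    exact b4.trans (mul_le_mul_of_nonneg_left b5 hP)
  refine ⟨h, mh, h0, ⟨B, hB'⟩, ?_, ?_, ?_⟩
  · rw [← hms, ← integral_const_mul]
    exact integral_mono_of_nonneg (Filter.Eventually.of_forall fun s => sq_nonneg _)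
      (ims.const_mul _) (Filter.Eventually.of_forall h2)
  · rw [← hms, ← integral_const_mul]
    exact integral_mono ih (ims.const_mul _) hh
  -- the main estimate
  let β : ι → ℂ := fun n => ∫ s, u n s ∂μ
  have s1 : lam * m ≤ ‖∑ n ∈ S, conj (a n) * β n‖ := by
    have f1 : ∀ z, conj (∑ n ∈ S, a n * E n z) * G z = ∑ n ∈ S, conj (a n) * w n z := fun z => by
      simp only [w, map_sum, map_mul, sum_mul]
      exact sum_congr rfl fun n _ => by ring
    have i1 : Integrable (fun z => ∑ n ∈ S, conj (a n) * w n z) (μ.prod ν) :=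
      integrable_finsetSum _ fun n _ => (iw n).const_mul _
    have f2 : ∫ z, ∑ n ∈ S, conj (a n) * w n z ∂(μ.prod ν) = ∑ n ∈ S, conj (a n) * β n := by
      rw [integral_finsetSum _ fun n _ => (iw n).const_mul _]
      refine sum_congr rfl fun n _ => ?_
      rw [integral_const_mul, integral_prod _ (iw n)]
    have f3 := integral_re i1
    rw [f2] at f3
    have f4 : ∫ z, lam * ‖G z‖ ∂(μ.prod ν) ≤
        ∫ z, RCLike.re (∑ n ∈ S, conj (a n) * w n z) ∂(μ.prod ν) :=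
      integral_mono (iG.const_mul _) i1.re fun z => by
        have := hF z
        rw [f1] at this
        exact this
    rw [integral_const_mul, f3] at f4
    exact f4.trans (RCLike.re_le_norm _)
  have s2 : ‖∑ n ∈ S, conj (a n) * β n‖ ^ 2 ≤ ∑ n ∈ J, ψ n * ‖β n‖ ^ 2 := by
    have c1 : ‖∑ n ∈ S, conj (a n) * β n‖ ≤ ∑ n ∈ S, ‖a n‖ * ‖β n‖ :=
      (norm_sum_le _ _).trans (le_of_eq (sum_congr rfl fun n _ => by
        rw [norm_mul, Complex.norm_conj]))
    have c2 := Finset.sum_mul_sq_le_sq_mul_sq S (fun n => ‖a n‖) (fun n => ‖β n‖)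
    have c3 : ∑ n ∈ S, ‖β n‖ ^ 2 ≤ ∑ n ∈ J, ψ n * ‖β n‖ ^ 2 :=
      (sum_le_sum fun n hn => le_mul_of_one_le_left (sq_nonneg _) (hψ1 n hn)).trans
        (sum_le_sum_of_subset_of_nonneg hSJ fun n hn _ => mul_nonneg (hψ0 n hn) (sq_nonneg _))
    have c4 : 0 ≤ ∑ n ∈ S, ‖β n‖ ^ 2 := sum_nonneg fun n _ => sq_nonneg _
    have c5 := pow_le_pow_left₀ (norm_nonneg _) c1 2
    nlinarith
  let ind : ℝ → ℝ → ℝ := fun t s => Mj.indicator (fun _ => (1 : ℝ)) (t - s) * (h t * h s)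
  have mind : Measurable (Function.uncurry ind) :=
    ((measurable_const.indicator hM).comp (measurable_fst.sub measurable_snd)).mul
      ((mh.comp measurable_fst).mul (mh.comp measurable_snd))
  have ind0 : ∀ t s, 0 ≤ ind t s := fun t s =>
    mul_nonneg (Set.indicator_nonneg (fun _ _ => zero_le_one) _) (mul_nonneg (h0 t) (h0 s))
  have indB : ∀ t s, ‖ind t s‖ ≤ B * B := fun t s => by
    rw [Real.norm_of_nonneg (ind0 t s)]
    have b1 : h t * h s ≤ B * B := mul_le_mul (hB' t) (hB' s) (h0 s) ((h0 t).trans (hB' t))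
    have b2 : Mj.indicator (fun _ => (1 : ℝ)) (t - s) ≤ 1 :=
      Set.indicator_le' (fun _ _ => le_rfl) (fun _ _ => zero_le_one) _
    exact (mul_le_of_le_one_left (mul_nonneg (h0 t) (h0 s)) b2).trans b1
  have iind : Integrable (Function.uncurry ind) (μ.prod μ) :=
    intb _ mind (B * B) fun z => indB z.1 z.2
  have iind1 : ∀ t, Integrable (ind t) μ := fun t =>
    intb _ (mind.comp measurable_prodMk_left) (B * B) fun s => indB t s
  have iind2 : Integrable (fun t => ∫ s, ind t s ∂μ) μ := iind.integral_prod_left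
  have gam : ∀ t s, ‖∑ n ∈ J, (ψ n : ℂ) * u n s * conj (u n t)‖ ≤
      K0 * ms t * ms s + ind t s := by
    intro t s
    by_cases hts : t - s ∈ Mj
    · have a1 := wcs J ψ hψ0 (fun n => u n s) (fun n => u n t)
      have a2 : ind t s = h t * h s := by simp only [ind, Set.indicator_of_mem hts, one_mul]
      have a3 : 0 ≤ K0 * ms t * ms s := mul_nonneg (mul_nonneg hK0 (ms0 t)) (ms0 s)
      rw [a2]
      exact a1.trans (le_add_of_nonneg_left a3)
    · have a1 := dbl ν J (fun n => (ψ n : ℂ)) (fun n x => w n (s, x)) (fun n y => w n (t, y))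
        (fun n => iws n s) (fun n => iws n t) (fun y x => K0 * ‖G (t, y)‖ * ‖G (s, x)‖)
        (fun y x => by
          have e : ∑ n ∈ J, (ψ n : ℂ) * w n (s, x) * conj (w n (t, y)) =
              (∑ n ∈ J, (ψ n : ℂ) * (conj (E n (s, x)) * E n (t, y))) * conj (G (t, y)) *
                G (s, x) := by
            simp only [w, map_mul, Complex.conj_conj, sum_mul]
            exact sum_congr rfl fun n _ => by ring
          rw [e, norm_mul, norm_mul, Complex.norm_conj]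
          exact mul_le_mul_of_nonneg_right
            (mul_le_mul_of_nonneg_right (hK t s hts x y) (norm_nonneg _)) (norm_nonneg _))
        (fun y => (iGs s).const_mul _)
        (by
          simp only [integral_const_mul]
          exact ((iGs t).const_mul _).mul_const _)
      simp only [integral_const_mul, integral_mul_const] at a1
      exact a1.trans (le_add_of_nonneg_right (ind0 t s))
  have inner : ∀ t, ∫ s, (K0 * ms t * ms s + ind t s) ∂μ = K0 * ms t * m + ∫ s, ind t s ∂μ :=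
    fun t => by rw [integral_add (ims.const_mul _) (iind1 t), integral_const_mul, hms]
  have s3 := dbl μ J (fun n => (ψ n : ℂ)) u u iu iu (fun t s => K0 * ms t * ms s + ind t s) gam
    (fun t => (ims.const_mul _).add (iind1 t))
    (by simp only [inner]; exact ((ims.const_mul _).mul_const _).add iind2)
  simp only [inner] at s3
  rw [integral_add ((ims.const_mul _).mul_const _) iind2, integral_mul_const, integral_const_mul,
    hms] at s3
  have s4 : ∑ n ∈ J, (ψ n : ℂ) * β n * conj (β n) = ((∑ n ∈ J, ψ n * ‖β n‖ ^ 2 : ℝ) : ℂ) := by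
    push_cast
    exact sum_congr rfl fun n _ => by rw [mul_assoc, Complex.mul_conj']
  have s5 : ∑ n ∈ J, ψ n * ‖β n‖ ^ 2 ≤ K0 * m * m + ∫ t, ∫ s, ind t s ∂μ ∂μ := by
    refine le_trans ?_ s3
    show _ ≤ ‖∑ n ∈ J, (ψ n : ℂ) * β n * conj (β n)‖
    rw [s4, Complex.norm_real]
    exact le_abs_self _
  have s6 := pow_le_pow_left₀ (mul_nonneg hlam m0) s1 2
  rw [mul_pow] at s6
  show _ ≤ _ + ∫ t, ∫ s, ind t s ∂μ ∂μ
  nlinarith

end TT

end Pool.Agent.P.MP_7211b7_an
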