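import Pool.Agent.P.MP_7211b7_an.DefsB

/-!
# MP_7211b7_an: decoupling implies the torus bound with an epsilon loss
-/

open MeasureTheory
open scoped ENNReal Pointwise

namespace Pool.Agent.P.MP_7211b7_an

namespace TorA

theorem two_pi_ne : (2 * Real.pi : ℝ) ≠ 0 := by positivity

/-- the basis `2 π e_i` -/
noncomputable def bas (r : ℕ) : Module.Basis (Fin r) ℝ (Fin r → ℝ) :=
  (Pi.basisFun ℝ (Fin r)).isUnitSMul (fun _ => two_pi_ne.isUnit)

theorem bas_repr (r : ℕ) (x : Fin r → ℝ) (i : Fin r) :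
    (bas r).repr x i = x i / (2 * Real.pi) := by
  unfold bas
  rw [Module.Basis.repr_isUnitSMul]
  simp [Units.smul_def, div_eq_inv_mul]

theorem fund_eq (r : ℕ) : ZSpan.fundamentalDomain (bas r) =
    Set.pi Set.univ fun _ : Fin r => Set.Ico (0 : ℝ) (2 * Real.pi) := by
  have h : (0 : ℝ) < 2 * Real.pi := by positivity
  ext x
  simp only [ZSpan.mem_fundamentalDomain, bas_repr, Set.mem_Ico, Set.mem_pi, Set.mem_univ,
    forall_true_left, div_lt_one h, le_div_iff₀ h, zero_mul]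

theorem fund_ae (r : ℕ) : ZSpan.fundamentalDomain (bas r) =ᵐ[volume] box r := by
  rw [fund_eq]
  exact Measure.univ_pi_Ico_ae_eq_Icc (μ := fun _ => volume) (f := fun _ => (0 : ℝ))
    (g := fun _ => 2 * Real.pi)

/-- integrals of periodic functions over the box are translation invariant -/
theorem box_translate {r : ℕ} (g : (Fin r → ℝ) → ℝ≥0∞)
    (hper : ∀ (k : Fin r → ℤ) (x : Fin r → ℝ), g (fun i => 2 * Real.pi * k i + x i) = g x)
    (v : Fin r → ℝ) : ∫⁻ x in box r, g (x + v) = ∫⁻ x in box r, g x := by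
  have hF := ZSpan.isAddFundamentalDomain' (bas r) (volume : Measure (Fin r → ℝ))
  have hF' := hF.vadd_of_comm v
  have hc : Countable (Submodule.span ℤ (Set.range (bas r))).toAddSubgroup :=
    inferInstanceAs (Countable (Submodule.span ℤ (Set.range (bas r))))
  have hinv : ∀ (γ : (Submodule.span ℤ (Set.range (bas r))).toAddSubgroup) (x : Fin r → ℝ),
      g (γ +ᵥ x) = g x := by
    rintro ⟨γ, hγ⟩ x
    have h1 := ((bas r).mem_span_iff_repr_mem ℤ γ).1 hγ
    choose k hk using h1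
    rw [← hper k x]
    congr 1
    funext i
    have h2 := hk i
    rw [bas_repr] at h2
    have h3 : γ i = 2 * Real.pi * k i := by
      have h4 : (k i : ℝ) = γ i / (2 * Real.pi) := by simpa using h2
      rw [h4]; field_simp
    show γ i + x i = _
    rw [h3]
  have h1 := hF'.setLIntegral_eq hF g hinv
  rw [← setLIntegral_congr (fund_ae r), ← setLIntegral_congr (fund_ae r), ← h1]
  have h2 := (measurePreserving_vadd v (volume : Measure (Fin r → ℝ))).setLIntegral_comp_emb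
    (measurableEmbedding_const_vadd v) g (ZSpan.fundamentalDomain (bas r))
  simp only [vadd_eq_add] at h2
  simp only [add_comm _ v]
  exact h2


/-- rescaled frequencies -/
noncomputable def xi {r : ℕ} (θ : Fin r → ℝ) (L : ℝ) (n : Fin r → ℤ) : Eu r :=
  WithLp.toLp 2 (fun i => Real.sqrt (θ i) * (n i : ℝ) / L)

/-- rescaled space variable -/
noncomputable def xm {r : ℕ} (θ : Fin r → ℝ) (L : ℝ) (y : Eu r) : Fin r → ℝ :=
  fun i => Real.sqrt (θ i) * y i / L

theorem continuous_xm {r : ℕ} (θ : Fin r → ℝ) (L : ℝ) : Continuous (xm θ L) := by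
  unfold xm; fun_prop

theorem norm_sq_xi {r : ℕ} {θ : Fin r → ℝ} (hθ : ∀ i, 0 < θ i) (L : ℝ) (n : Fin r → ℤ) :
    ‖xi θ L n‖ ^ 2 = (∑ i, θ i * (n i : ℝ) ^ 2) / L ^ 2 := by
  rw [EuclideanSpace.real_norm_sq_eq, Finset.sum_div]
  refine Finset.sum_congr rfl fun i _ => ?_
  simp only [xi, div_pow, mul_pow, Real.sq_sqrt (hθ i).le]

theorem xi_sub {r : ℕ} (θ : Fin r → ℝ) (L : ℝ) (n m : Fin r → ℤ) :
    xi θ L n - xi θ L m = xi θ L (n - m) := by
  ext i
  simp only [xi, PiLp.sub_apply, Pi.sub_apply]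
  push_cast
  ring

theorem inner_xi {r : ℕ} (θ : Fin r → ℝ) (L : ℝ) (n : Fin r → ℤ) (y : Eu r) :
    inner ℝ (xi θ L n) y = ∑ i, xm θ L y i * (n i : ℝ) := by
  rw [PiLp.inner_apply]
  refine Finset.sum_congr rfl fun i _ => ?_
  simp only [xi, xm, RCLike.inner_apply, conj_trivial]
  ring

/-- the pieces of the exponential sum -/
noncomputable def pc {r : ℕ} (θ : Fin r → ℝ) (L : ℝ) (a : (Fin r → ℤ) → ℂ) (x0 : Fin r → ℝ)
    (n : Fin r → ℤ) : Sp r → ℂ :=
  (a n * Complex.exp (Complex.I * ((∑ i, x0 i * (n i : ℝ) : ℝ) : ℂ))) •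
    wave (xi θ L n, ‖xi θ L n‖ ^ 2 / 2)

theorem enorm_pc {r : ℕ} (θ : Fin r → ℝ) (L : ℝ) (a : (Fin r → ℤ) → ℂ) (x0 : Fin r → ℝ)
    (n : Fin r → ℤ) (y : Sp r) : ‖pc θ L a x0 n y‖ₑ = ‖a n‖ₑ := by
  rw [← ofReal_norm, ← ofReal_norm]
  congr 1
  simp only [pc, Pi.smul_apply, smul_eq_mul, norm_mul, norm_wave, mul_one]
  rw [mul_comm Complex.I, Complex.norm_exp_ofReal_mul_I, mul_one]

theorem sum_pc {r : ℕ} {θ : Fin r → ℝ} (hθ : ∀ i, 0 < θ i) (L : ℝ) (S : Finset (Fin r → ℤ))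
    (a : (Fin r → ℤ) → ℂ) (x0 : Fin r → ℝ) (y : Sp r) :
    (∑ n ∈ S, pc θ L a x0 n) y = tor θ S a (-(1 / (2 * L ^ 2)) * y.2, x0 + xm θ L y.1) := by
  rw [Finset.sum_apply]
  unfold tor
  refine Finset.sum_congr rfl fun n _ => ?_
  simp only [pc, Pi.smul_apply, smul_eq_mul, wave]
  rw [mul_assoc, ← Complex.exp_add, ← mul_add, ← Complex.ofReal_add, inner_xi, norm_sq_xi hθ]
  congr 4
  simp only [Pi.add_apply, add_mul, Finset.sum_add_distrib]
  ring

theorem tor_periodic {r : ℕ} (θ : Fin r → ℝ) (S : Finset (Fin r → ℤ)) (a : (Fin r → ℤ) → ℂ)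
    (t : ℝ) (k : Fin r → ℤ) (x : Fin r → ℝ) :
    tor θ S a (t, fun i => 2 * Real.pi * k i + x i) = tor θ S a (t, x) := by
  unfold tor
  refine Finset.sum_congr rfl fun n _ => ?_
  congr 1
  rw [Complex.exp_eq_exp_iff_exists_int]
  refine ⟨∑ i, k i * n i, ?_⟩
  simp only [add_mul, Finset.sum_add_distrib]
  push_cast
  have : ∑ i, 2 * (Real.pi : ℂ) * (k i : ℂ) * (n i : ℂ) = 2 * Real.pi * ∑ i, (k i : ℂ) * n i := by
    rw [Finset.mul_sum]; exact Finset.sum_congr rfl fun i _ => by ring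
  rw [this]
  ring

theorem fam_pc {r : ℕ} {θ : Fin r → ℝ} (hθ : ∀ i, 0 < θ i) {m L : ℝ} (hm : 0 < m)
    (hmθ : ∀ i, m ≤ θ i) {N : ℕ} (hL0 : 0 < L) (hL : L ^ 2 = 4 * (∑ i, θ i) * (N : ℝ) ^ 2)
    (S : Finset (Fin r → ℤ)) (hS : ∀ n ∈ S, ∀ i, |n i| ≤ N) (a : (Fin r → ℤ) → ℂ)
    (x0 : Fin r → ℝ) : Fam (Real.sqrt m / L) S (xi θ L) (pc θ L a x0) := by
  have hσ : 0 < Real.sqrt m / L := div_pos (Real.sqrt_pos.2 hm) hL0
  refine ⟨?_, ?_, ?_⟩
  · intro n hn
    refine le_of_pow_le_pow_left₀ two_ne_zero (by norm_num) ?_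
    rw [norm_sq_xi hθ, div_le_iff₀ (by positivity), hL]
    have : ∑ i, θ i * (n i : ℝ) ^ 2 ≤ ∑ i, θ i * (N : ℝ) ^ 2 := by
      refine Finset.sum_le_sum fun i _ => mul_le_mul_of_nonneg_left ?_ (hθ i).le
      have h1 : |(n i : ℝ)| ≤ N := by exact_mod_cast hS n hn i
      rw [← sq_abs]
      exact pow_le_pow_left₀ (abs_nonneg _) h1 2
    rw [← Finset.sum_mul] at this
    nlinarith
  · intro n _ k _ hnk
    have h1 : Real.sqrt m / L ≤ ‖xi θ L n - xi θ L k‖ := by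
      refine le_of_pow_le_pow_left₀ two_ne_zero (norm_nonneg _) ?_
      rw [xi_sub, norm_sq_xi hθ, div_pow, Real.sq_sqrt hm.le]
      refine div_le_div_of_nonneg_right ?_ (by positivity)
      obtain ⟨i, hi⟩ := Function.ne_iff.1 hnk
      have h2 : (1 : ℝ) ≤ (((n - k) i : ℤ) : ℝ) ^ 2 := by
        have h3 : (n - k) i ≠ 0 := sub_ne_zero.2 hi
        have h4 : (1 : ℤ) ≤ ((n - k) i) ^ 2 := by
          have := sq_pos_of_ne_zero h3
          omega
        exact_mod_cast h4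
      calc m ≤ θ i * (((n - k) i : ℤ) : ℝ) ^ 2 := by nlinarith [hmθ i, hθ i]
        _ ≤ _ := Finset.single_le_sum (f := fun i => θ i * (((n - k) i : ℤ) : ℝ) ^ 2)
            (fun j _ => mul_nonneg (hθ j).le (sq_nonneg _)) (Finset.mem_univ i)
    linarith
  · intro n _
    refine Submodule.smul_mem _ _ (wave_mem_Tr ?_)
    constructor
    · simpa using hσ.le
    · simp only [sub_self, abs_zero]; positivity

theorem sq_pc {r : ℕ} (θ : Fin r → ℝ) (L : ℝ) (a : (Fin r → ℤ) → ℂ) (x0 : Fin r → ℝ)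
    (S : Finset (Fin r → ℤ)) {p : ℝ} (hp : 0 < p) (ν : Measure (Sp r)) :
    sq p ν S (pc θ L a x0) ^ p = ν Set.univ * (∑ n ∈ S, ‖a n‖ₑ ^ 2) ^ (p / 2) := by
  have h1 : ∀ n, eLpNorm' (pc θ L a x0 n) p ν ^ 2 = ν Set.univ ^ (2 / p) * ‖a n‖ₑ ^ 2 := by
    intro n
    rw [eLpNorm'_eq_lintegral_enorm]
    simp only [enorm_pc, lintegral_const]
    rw [ENNReal.mul_rpow_of_nonneg _ _ (by positivity), ← ENNReal.rpow_mul,
      mul_one_div_cancel hp.ne', ENNReal.rpow_one, mul_pow, mul_comm, ← ENNReal.rpow_natCast,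
      ← ENNReal.rpow_mul]
    congr 2
    push_cast
    field_simp
  unfold sq
  simp only [h1]
  rw [← Finset.mul_sum, ← ENNReal.rpow_mul, ENNReal.mul_rpow_of_nonneg _ _ (by positivity),
    ← ENNReal.rpow_mul]
  have e1 : 2 / p * (1 / 2 * p) = 1 := by field_simp
  have e2 : 1 / 2 * p = p / 2 := by ring
  rw [e1, e2, ENNReal.rpow_one]

/-- decoupling applied at a fixed base point -/
theorem dec_at {r : ℕ} {θ : Fin r → ℝ} (hθ : ∀ i, 0 < θ i) {m L : ℝ} (hm : 0 < m)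
    (hmθ : ∀ i, m ≤ θ i) {N : ℕ} (hL0 : 0 < L) (hL : L ^ 2 = 4 * (∑ i, θ i) * (N : ℝ) ^ 2)
    (S : Finset (Fin r → ℤ)) (hS : ∀ n ∈ S, ∀ i, |n i| ≤ N) (a : (Fin r → ℤ) → ℂ)
    {p D : ℝ} (hp : 0 < p) (h5 : W5) (hD : Dec r p (r + 2) (Real.sqrt m / L) D)
    (x0 : Fin r → ℝ) :
    ∫⁻ y : Sp r, ‖tor θ S a (-(1 / (2 * L ^ 2)) * y.2, x0 + xm θ L y.1)‖ₑ ^ p *
        wt (r + 2) (L ^ 2 / m) y
      ≤ ENNReal.ofReal D ^ p * ((∫⁻ y : Sp r, wt (r + 2) (L ^ 2 / m) y) *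
        (∑ n ∈ S, ‖a n‖ₑ ^ 2) ^ (p / 2)) := by
  obtain ⟨hfin, hmod⟩ := h5 r (r + 2) (L ^ 2 / m) le_rfl (by positivity)
  have e : (L ^ 2 / m)⁻¹ = (Real.sqrt m / L) ^ 2 := by
    rw [div_pow, Real.sq_sqrt hm.le, inv_div]
  rw [e] at hmod
  have h := hD _ S (xi θ L) (pc θ L a x0) _ hfin hmod (fam_pc hθ hm hmθ hL0 hL S hS a x0)
  have h2 := ENNReal.rpow_le_rpow h hp.le
  rw [ENNReal.mul_rpow_of_nonneg _ _ hp.le, sq_pc θ L a x0 S hp, eLpNorm'_eq_lintegral_enorm,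
    ← ENNReal.rpow_mul, one_div_mul_cancel hp.ne', ENNReal.rpow_one] at h2
  simp only [sum_pc hθ] at h2
  have hmeas : Measurable (fun y : Sp r =>
      ‖tor θ S a (-(1 / (2 * L ^ 2)) * y.2, x0 + xm θ L y.1)‖ₑ ^ p) := by
    have hc : Continuous (fun y : Sp r =>
        tor θ S a (-(1 / (2 * L ^ 2)) * y.2, x0 + xm θ L y.1)) :=
      (continuous_tor θ S a).comp ((continuous_const.mul continuous_snd).prodMk
        (continuous_const.add ((continuous_xm θ L).comp continuous_fst)))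
    exact hc.measurable.enorm.pow_const p
  unfold wm at h2
  rw [lintegral_withDensity_eq_lintegral_mul _ (measurable_wt _ _) hmeas,
    withDensity_apply _ MeasurableSet.univ, Measure.restrict_univ] at h2
  simpa only [Pi.mul_apply, mul_comm] using h2


/-- lower bound for the weight on the ball -/
theorem wt_ge {r : ℕ} (a : ℕ) {R : ℝ} (hR : 0 < R) (y : Sp r) (h1 : ‖y.1‖ ≤ R) (h2 : |y.2| ≤ R) :
    ENNReal.ofReal ((R ^ (r + 1))⁻¹ * (2 ^ a)⁻¹) ≤ wt a R y := by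
  unfold wt
  refine ENNReal.ofReal_le_ofReal (mul_le_mul_of_nonneg_left ?_ (by positivity))
  have h3 : ‖y‖ ≤ R := by
    rw [Prod.norm_def]; exact max_le h1 (by simpa using h2)
  have h4 : ‖y‖ / R ≤ 1 := (div_le_one hR).2 h3
  have h5 : 0 ≤ ‖y‖ / R := by positivity
  exact inv_anti₀ (by positivity) (pow_le_pow_left₀ (by positivity) (by linarith) a)

theorem lintegral_scale (Ψ : ℝ → ℝ≥0∞) (hΨ : Measurable Ψ) {k : ℝ} (hk : k ≠ 0) :
    ∫⁻ s, Ψ (k * s) = ENNReal.ofReal |k⁻¹| * ∫⁻ t, Ψ t := by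
  rw [← lintegral_map hΨ (measurable_const_mul k), Real.map_volume_mul_left hk,
    lintegral_smul_measure, smul_eq_mul]

/-- the weighted time integral dominates the integral over a fixed interval -/
theorem lower {r : ℕ} (a : ℕ) (Φ : ℝ → ℝ≥0∞) (hΦ : Measurable Φ) {m L : ℝ} (hm : 0 < m)
    (hL : 0 < L) :
    ENNReal.ofReal (2 * m * (2 ^ a)⁻¹) * volume (Metric.ball (0 : Eu r) 1) *
        ∫⁻ t in Set.Icc (-(1 / (2 * m))) (1 / (2 * m)), Φ t
      ≤ ∫⁻ y : Sp r, Φ (-(1 / (2 * L ^ 2)) * y.2) * wt a (L ^ 2 / m) y := by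
  set R : ℝ := L ^ 2 / m with hRdef
  have hR : 0 < R := by positivity
  set k : ℝ := -(1 / (2 * L ^ 2)) with hkdef
  have hk : k ≠ 0 := by rw [hkdef]; exact neg_ne_zero.2 (by positivity)
  set Ψ : ℝ → ℝ≥0∞ := (Set.Icc (-(1 / (2 * m))) (1 / (2 * m))).indicator Φ with hΨdef
  have hΨ : Measurable Ψ := hΦ.indicator measurableSet_Icc
  set c : ℝ≥0∞ := ENNReal.ofReal ((R ^ (r + 1))⁻¹ * (2 ^ a)⁻¹) with hc
  set f : Eu r → ℝ≥0∞ := (Metric.closedBall (0 : Eu r) R).indicator (fun _ => c) with hf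
  have hfm : Measurable f := measurable_const.indicator measurableSet_closedBall
  have hpt : ∀ y : Sp r, f y.1 * Ψ (k * y.2) ≤ Φ (k * y.2) * wt a R y := by
    intro y
    by_cases h1 : y.1 ∈ Metric.closedBall (0 : Eu r) R
    · by_cases h2 : k * y.2 ∈ Set.Icc (-(1 / (2 * m))) (1 / (2 * m))
      · rw [hf, hΨdef, Set.indicator_of_mem h1, Set.indicator_of_mem h2, mul_comm]
        refine mul_le_mul_right (wt_ge a hR y (by simpa using h1) ?_) _
        have h3 : |k * y.2| ≤ 1 / (2 * m) := abs_le.2 h2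
        rw [abs_mul, hkdef, abs_neg, abs_of_pos (by positivity)] at h3
        rw [hRdef, le_div_iff₀ hm]
        rw [div_mul_eq_mul_div, div_le_div_iff₀ (by positivity) (by positivity)] at h3
        linarith
      · rw [hΨdef, Set.indicator_of_notMem h2]; simp
    · rw [hf, Set.indicator_of_notMem h1]; simp
  refine le_trans (le_of_eq ?_) (lintegral_mono hpt)
  have hprod := lintegral_prod_mul (μ := (volume : Measure (Eu r))) (ν := (volume : Measure ℝ))
    hfm.aemeasurable (g := fun s => Ψ (k * s)) (hΨ.comp (measurable_const_mul k)).aemeasurable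
  rw [← Measure.volume_eq_prod] at hprod
  rw [hprod, lintegral_scale Ψ hΨ hk, hΨdef, lintegral_indicator measurableSet_Icc, hf,
    lintegral_indicator measurableSet_closedBall, setLIntegral_const,
    Measure.addHaar_closedBall _ _ hR.le, finrank_euclideanSpace, Fintype.card_fin, ← mul_assoc]
  congr 1
  have e : 2 * m * (2 ^ a)⁻¹ = (R ^ (r + 1))⁻¹ * (2 ^ a)⁻¹ * R ^ r * |k⁻¹| := by
    rw [hkdef, abs_inv, abs_neg, abs_of_pos (by positivity), pow_succ R r]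
    have hRm : R * m = L ^ 2 := by rw [hRdef]; field_simp
    rw [← hRm]
    field_simp
  rw [e, ENNReal.ofReal_mul (by positivity), ENNReal.ofReal_mul (by positivity), ← hc]
  ring

theorem volume_box_ne_top (r : ℕ) : volume (box r) ≠ ⊤ := (isCompact_box r).measure_lt_top.ne

/-- averaging over the base point -/
theorem averaged {r : ℕ} (θ : Fin r → ℝ) (L k : ℝ) (S : Finset (Fin r → ℤ))
    (a : (Fin r → ℤ) → ℂ) (p : ℝ) (w : Sp r → ℝ≥0∞) (hw : Measurable w) :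
    ∫⁻ x0 in box r, ∫⁻ y : Sp r, ‖tor θ S a (k * y.2, x0 + xm θ L y.1)‖ₑ ^ p * w y
      = ∫⁻ y : Sp r, (∫⁻ x in box r, ‖tor θ S a (k * y.2, x)‖ₑ ^ p) * w y := by
  have hc : Continuous (fun z : (Fin r → ℝ) × Sp r =>
      tor θ S a (k * z.2.2, z.1 + xm θ L z.2.1)) :=
    (continuous_tor θ S a).comp ((continuous_const.mul (continuous_snd.comp continuous_snd)).prodMk
      (continuous_fst.add ((continuous_xm θ L).comp (continuous_fst.comp continuous_snd))))
  have hm : Measurable (fun z : (Fin r → ℝ) × Sp r =>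
      ‖tor θ S a (k * z.2.2, z.1 + xm θ L z.2.1)‖ₑ ^ p * w z.2) :=
    (hc.measurable.enorm.pow_const p).mul (hw.comp measurable_snd)
  rw [lintegral_lintegral_swap hm.aemeasurable]
  refine lintegral_congr fun y => ?_
  have hm2 : Measurable (fun x : Fin r → ℝ => ‖tor θ S a (k * y.2, x + xm θ L y.1)‖ₑ ^ p) :=
    (((continuous_tor θ S a).comp (continuous_const.prodMk
      (continuous_id.add continuous_const))).measurable.enorm.pow_const p)
  rw [lintegral_mul_const _ hm2]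
  congr 1
  exact box_translate (fun x => ‖tor θ S a (k * y.2, x)‖ₑ ^ p)
    (fun n x => by simp only [tor_periodic]) _

theorem dom_lintegral {r : ℕ} (θ : Fin r → ℝ) (S : Finset (Fin r → ℤ)) (a : (Fin r → ℤ) → ℂ)
    {p : ℝ} (hp : 0 < p) (T : ℝ) :
    ENNReal.ofReal (∫ z in dom r T, ‖tor θ S a z‖ ^ p)
      = ∫⁻ t in Set.Icc (-T) T, ∫⁻ x in box r, ‖tor θ S a (t, x)‖ₑ ^ p := by
  have hc : Continuous (fun z => ‖tor θ S a z‖ ^ p) :=
    (continuous_tor θ S a).norm.rpow_const fun _ => Or.inr hp.le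
  rw [ofReal_integral_eq_lintegral_ofReal (hc.continuousOn.integrableOn_compact (isCompact_dom r T))
    (Filter.Eventually.of_forall fun z => by positivity)]
  have e : ∀ z, ENNReal.ofReal (‖tor θ S a z‖ ^ p) = ‖tor θ S a z‖ₑ ^ p := fun z => by
    rw [← ENNReal.ofReal_rpow_of_nonneg (norm_nonneg _) hp.le, ofReal_norm]
  simp only [e]
  unfold dom
  rw [Measure.volume_eq_prod, ← Measure.prod_restrict, lintegral_prod]
  exact ((continuous_tor θ S a).measurable.enorm.pow_const p).aemeasurable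

end TorA

theorem tora : W1 → W5 → TORA := by
  intro h1 h5 r θ p ε hr hθ hp hε hdec
  have hp0 : 0 < p := by linarith
  have : Nonempty (Fin r) := ⟨⟨0, hr⟩⟩
  obtain ⟨i0, -, hi0⟩ := Finset.exists_min_image Finset.univ θ Finset.univ_nonempty
  have hmθ : ∀ i, θ i0 ≤ θ i := fun i => hi0 i (Finset.mem_univ i)
  set m : ℝ := θ i0 with hmdef
  have hm : 0 < m := hθ i0
  have hmΘ : m ≤ ∑ i, θ i :=
    Finset.single_le_sum (f := θ) (fun j _ => (hθ j).le) (Finset.mem_univ i0)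
  have hΘ : 0 < ∑ i, θ i := lt_of_lt_of_le hm hmΘ
  obtain ⟨C1, hC1, h1⟩ := h1 r (r + 2) 0 (by omega)
  obtain ⟨C, hC, hdec⟩ := hdec (r + 2) ε hε
  set lam : ℝ := 2 * Real.sqrt (∑ i, θ i) with hlam
  have hlam0 : 0 < lam := by positivity
  have hsm : 0 < Real.sqrt m := Real.sqrt_pos.2 hm
  set ω : ℝ := (volume (Metric.ball (0 : Eu r) 1)).toReal with hω
  have hωtop : volume (Metric.ball (0 : Eu r) 1) ≠ ⊤ := measure_ball_lt_top.ne
  have hω0 : 0 < ω :=
    ENNReal.toReal_pos (Metric.measure_ball_pos volume _ one_pos).ne' hωtop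
  set β : ℝ := (volume (box r)).toReal with hβ
  have hβ0 : 0 ≤ β := ENNReal.toReal_nonneg
  set c0 : ℝ := 2 * m * (2 ^ (r + 2))⁻¹ * ω with hc0
  have hc00 : 0 < c0 := by positivity
  set M : ℝ := 1 + β * C1 / c0 with hM
  have hM1 : 1 ≤ M := by
    have : 0 ≤ β * C1 / c0 := by positivity
    linarith
  refine ⟨1 / (2 * m), by positivity, M * (C * (Real.sqrt m / lam) ^ (-ε)), by positivity, ?_⟩
  intro N S a hN hS
  have hN0 : (0 : ℝ) < N := by exact_mod_cast hN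
  have hN1 : (1 : ℝ) ≤ N := by exact_mod_cast hN
  set L : ℝ := lam * N with hLdef
  have hL0 : 0 < L := by positivity
  have hL : L ^ 2 = 4 * (∑ i, θ i) * (N : ℝ) ^ 2 := by
    rw [hLdef, hlam, mul_pow, mul_pow, Real.sq_sqrt hΘ.le]; norm_num
  have hσ1 : Real.sqrt m / L ≤ 1 := by
    rw [div_le_one hL0]
    have h2 : Real.sqrt m ≤ Real.sqrt (∑ i, θ i) := Real.sqrt_le_sqrt hmΘ
    have h3 : lam ≤ L := by rw [hLdef]; nlinarith
    linarith
  have hD := hdec (Real.sqrt m / L) (by positivity) hσ1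
  set D : ℝ := C * (Real.sqrt m / L) ^ (-ε) with hDdef
  have hD0 : 0 ≤ D := by positivity
  have hDeq : D = C * (Real.sqrt m / lam) ^ (-ε) * (N : ℝ) ^ ε := by
    have : Real.sqrt m / L = Real.sqrt m / lam * (N : ℝ)⁻¹ := by rw [hLdef]; field_simp
    rw [hDdef, this, Real.mul_rpow (by positivity) (by positivity), Real.inv_rpow hN0.le,
      Real.rpow_neg hN0.le, inv_inv, mul_assoc]
  set Q : ℝ := (∑ n ∈ S, ‖a n‖ ^ 2) ^ (p / 2) with hQ
  have hQ0 : 0 ≤ Q := by positivity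
  have hQe : (∑ n ∈ S, ‖a n‖ₑ ^ 2) ^ (p / 2) = ENNReal.ofReal Q := by
    rw [hQ, ← ENNReal.ofReal_rpow_of_nonneg (by positivity) (by positivity),
      ENNReal.ofReal_sum_of_nonneg (fun _ _ => by positivity)]
    congr 1
    refine Finset.sum_congr rfl fun n _ => ?_
    rw [ENNReal.ofReal_pow (norm_nonneg _), ofReal_norm]
  have hmass : ∫⁻ y : Sp r, wt (r + 2) (L ^ 2 / m) y ≤ ENNReal.ofReal C1 := by
    simpa using h1 (L ^ 2 / m) (by positivity)
  have hat : ∀ x0 : Fin r → ℝ,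
      ∫⁻ y : Sp r, ‖tor θ S a (-(1 / (2 * L ^ 2)) * y.2, x0 + TorA.xm θ L y.1)‖ₑ ^ p *
        wt (r + 2) (L ^ 2 / m) y ≤ ENNReal.ofReal (D ^ p * (C1 * Q)) := by
    intro x0
    refine (TorA.dec_at hθ hm hmθ hL0 hL S hS a hp0 h5 hD x0).trans ?_
    rw [hQe, ENNReal.ofReal_mul (p := D ^ p) (by positivity), ENNReal.ofReal_mul hC1.le,
      ENNReal.ofReal_rpow_of_nonneg hD0 hp0.le]
    gcongr
  have hΦ : Measurable (fun t : ℝ => ∫⁻ x in box r, ‖tor θ S a (t, x)‖ₑ ^ p) :=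
    Measurable.lintegral_prod_right' (f := fun z : ℝ × (Fin r → ℝ) => ‖tor θ S a z‖ₑ ^ p)
      ((continuous_tor θ S a).measurable.enorm.pow_const p)
  have hlow := TorA.lower (r := r) (r + 2) _ hΦ hm hL0
  rw [← TorA.averaged θ L _ S a p _ (measurable_wt _ _), ← TorA.dom_lintegral θ S a hp0] at hlow
  have hup := hlow.trans (lintegral_mono hat)
  rw [setLIntegral_const, ← ENNReal.ofReal_toReal hωtop,
    ← ENNReal.ofReal_toReal (TorA.volume_box_ne_top r), ← hω, ← hβ,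
    ← ENNReal.ofReal_mul (by positivity), ← hc0, ← ENNReal.ofReal_mul hc00.le,
    ← ENNReal.ofReal_mul (by positivity), ENNReal.ofReal_le_ofReal_iff (by positivity)] at hup
  have hMp : M ≤ M ^ p := by
    calc M = M ^ (1 : ℝ) := (Real.rpow_one M).symm
      _ ≤ M ^ p := Real.rpow_le_rpow_of_exponent_le hM1 (by linarith)
  have hDp : 0 ≤ D ^ p := by positivity
  calc ∫ z in dom r (1 / (2 * m)), ‖tor θ S a z‖ ^ p
      ≤ β * C1 / c0 * (D ^ p * Q) := by
        rw [div_mul_eq_mul_div, le_div_iff₀ hc00]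
        linarith
    _ ≤ M ^ p * (D ^ p * Q) := by
        refine mul_le_mul_of_nonneg_right ?_ (by positivity)
        linarith
    _ = _ := by
        rw [mul_assoc M, ← hDeq, Real.mul_rpow (by positivity) hD0, mul_assoc]

end Pool.Agent.P.MP_7211b7_an
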