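import Pool.Agent.P.MP_7211b7_an.Main
import Pool.Agent.P.MP_7211b7_an.DefsBr

/-! Transport from matrix groups to abstract compact connected Lie groups. -/

open MeasureTheory Manifold
open scoped ENNReal ContDiff Matrix

namespace Pool.Agent.P.MP_7211b7_an

open Pool.Agent.P.MP_7895ba_al

theorem deriv_conj {E G : Type} [NormedAddCommGroup E] [NormedSpace ℝ E] [FiniteDimensional ℝ E]
    [Group G] [TopologicalSpace G] [IsTopologicalGroup G] (D : ExpData E G) {n : ℕ}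
    (ρ : G →* Mat n) (L : E →ₗ[ℝ] Mat n) (hL : ∀ X, ρ (D.exp X) = NormedSpace.exp (L X)) (g : G)
    (A : E →L[ℝ] E) (hA : ∀ X, g * D.exp X * g⁻¹ = D.exp (A X)) (X : E) :
    L (A X) = ρ g * L X * ρ g⁻¹ := by
  let := Matrix.linftyOpNormedRing (n := Fin n) (α := ℂ)
  let := Matrix.linftyOpNormedAlgebra (n := Fin n) (α := ℂ) (R := ℝ)
  have h1 : A X = D.Ad g X := D.eq_of_forall_exp_smul fun s => by
    rw [← map_smul, ← map_smul, ← hA, D.exp_Ad]
  rw [h1]
  exact D.deriv_Ad (f := ρ) (L := LinearMap.toContinuousLinearMap L) hL g X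

/-- the abstract data are the data of a matrix group -/
theorem exists_matrix (h1 : BREXP) (h2 : BRPW) (h3 : BRFAITH) (h4 : BRTOR)
    (E : Type) [NormedAddCommGroup E] [NormedSpace ℝ E] [FiniteDimensional ℝ E]
    (G : Type) [TopologicalSpace G] [ChartedSpace E G] [Group G] [LieGroup 𝓘(ℝ, E) ∞ G]
    [T2Space G] [CompactSpace G] [ConnectedSpace G] [IsTopologicalGroup G]
    [SecondCountableTopology G] [MeasurableSpace G] [BorelSpace G] (μ : Measure G) [Hr μ]
    (B : LinearMap.BilinForm ℝ E) (hB : F.IsBiInv G B) {m : ℕ} (e : Fin m → E)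
    (he : F.IsRect G B e) {d : ℕ} (b : Module.Basis (Fin d) ℝ E)
    (hb : ∀ i j, B (b i) (b j) = if i = j then 1 else 0) (T : Subgroup G) (hT : F.IsMaxTorus T) :
    ∃ (n : ℕ) (ρ : G →* Mat n) (B' : LinearMap.BilinForm ℝ (Mat n)) (b' : Fin d → Mat n)
      (t : Submodule ℝ (Mat n)) (e' : Fin m → Mat n), IsRep ρ ∧ IsMetric ρ B' ∧ IsONB ρ B' b' ∧
      IsCartan ρ t ∧ IsRect ρ B' e' ∧ Module.finrank ℝ t = Module.finrank ℝ (F.subAlg E T) ∧
      (fun a => F.expo G (b a)) = fun a s => expG ρ (s • b' a) := by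
  obtain ⟨D, hexp, hAd⟩ := h1 E G
  obtain ⟨n, ρ, L, hρ, hinj, hrange, hL, hG⟩ := h3 E G D (h2 G μ)
  obtain ⟨hcart, hcen⟩ := h4 E G D n ρ L hρ hrange hL
  obtain ⟨L', hL'⟩ := L.exists_leftInverse_of_injective (LinearMap.ker_eq_bot.2 hinj)
  have hLL : ∀ X, L' (L X) = X := fun X => LinearMap.congr_fun hL' X
  have hmem : ∀ {X}, X ∈ lieAlg ρ → ∃ Y, L Y = X := fun hX => by rwa [← hrange] at hX
  have hmem' : ∀ Y, L Y ∈ lieAlg ρ := fun Y => hrange ▸ LinearMap.mem_range_self L Y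
  have hsub : ∀ S : Subgroup G,
      F.subAlg E S = Submodule.span ℝ {X : E | ∀ s : ℝ, D.exp (s • X) ∈ S} := fun S => by
    simp only [F.subAlg, hexp]
  have hB' : ∀ X Y, B.comp L' L' (L X) (L Y) = B X Y := fun X Y => by simp [hLL]
  refine ⟨n, ρ, B.comp L' L', fun a => L (b a), (F.subAlg E T).map L, fun i => L (e i), hρ,
    ⟨?_, ?_, ?_⟩, ⟨?_, ?_⟩, ?_, ⟨?_, ?_, ?_, ?_, ?_⟩, ?_, ?_⟩
  · intro X hX Y hY
    obtain ⟨X, rfl⟩ := hmem hX
    obtain ⟨Y, rfl⟩ := hmem hY
    rw [hB', hB', hB.symm]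
  · intro X hX hX0
    obtain ⟨X, rfl⟩ := hmem hX
    rw [hB']
    exact hB.pos X fun h => hX0 (by rw [h, map_zero])
  · intro g X hX Y hY
    obtain ⟨X, rfl⟩ := hmem hX
    obtain ⟨Y, rfl⟩ := hmem hY
    rw [← deriv_conj D ρ L hL g _ (hAd g), ← deriv_conj D ρ L hL g _ (hAd g), hB', hB', hB.inv]
  · rw [← hrange, show (Set.range fun a => L (b a)) = L '' Set.range b from Set.range_comp _ _,
      ← Submodule.map_span, b.span_eq, Submodule.map_top]
  · intro i j
    rw [hB', hb]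
  · rw [hsub]
    exact hcart T hT
  · exact fun i => hmem' _
  · intro i X hX
    obtain ⟨X, rfl⟩ := hmem hX
    refine (hcen (e i)).1 ?_ X
    rw [← hsub, ← he.span]
    exact Submodule.subset_span ⟨i, rfl⟩
  · intro Z hZ hc
    obtain ⟨Z, rfl⟩ := hmem hZ
    have := (hcen Z).2 fun X => hc _ (hmem' X)
    rw [← hsub, ← he.span] at this
    rw [show (Set.range fun i => L (e i)) = L '' Set.range e from Set.range_comp _ _,
      ← Submodule.map_span]
    exact Submodule.mem_map_of_mem this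
  · intro i j hij
    rw [hB', he.orth i j hij]
  · intro i
    rw [← map_smul, ← hL, ← hexp, he.period, map_one]
  · exact (Submodule.equivMapOfInjective L hinj _).finrank_eq.symm
  · funext a s
    rw [hexp, ← L.map_smul, hG]

end Pool.Agent.P.MP_7211b7_an
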